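import Pool.Agent.HH.Free

/-!
# HH part 3, d12: boxes and open-top boxes of the grid are contractible
-/

set_option autoImplicit false

namespace HH

open Classical CategoryTheory

variable {S : Sig}

section Grid
variable {n N : ℕ}

/-- the cells of a box -/
def boxP (a b : Fin n → ℕ) : GLab n N → Prop
  | .cell d _ => ∀ i, 2 * a i ≤ d i ∧ d i ≤ 2 * b i
  | .glo _ _ _ => False

theorem boxP_down (a b : Fin n → ℕ) (l l' : GLab n N) (h : l ≤ l') (hl : boxP a b l') :
    boxP a b l := by
  rcases l with ⟨d, hd⟩ | ⟨i, hi, ε⟩ <;> rcases l' with ⟨d', hd'⟩ | ⟨j, hj, δ⟩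
  · intro i
    have h1 := (show faceLe d d' from h) i
    have h2 := (show ∀ i, 2 * a i ≤ d' i ∧ d' i ≤ 2 * b i from hl) i
    omega
  · exact hl.elim
  · exact (show False from h).elim
  · exact hl.elim

/-- the cells of a box lying in `{t_k = c}` or in one of the faces `t_l ∈ {a_l, b_l}`,
`j ≤ l < k` -/
def openP (a b : Fin n → ℕ) (k : Fin n) (c : ℕ) (j : ℕ) : GLab n N → Prop
  | .cell d _ => (∀ i, 2 * a i ≤ d i ∧ d i ≤ 2 * b i) ∧
      (d k = 2 * c ∨ ∃ l : Fin n, j ≤ l.1 ∧ l.1 < k.1 ∧ (d l = 2 * a l ∨ d l = 2 * b l))
  | .glo _ _ _ => False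

theorem openP_down (a b : Fin n → ℕ) (k : Fin n) (c : ℕ) (j : ℕ) (l l' : GLab n N) (h : l ≤ l')
    (hl : openP a b k c j l') : openP a b k c j l := by
  rcases l with ⟨d, hd⟩ | ⟨i, hi, ε⟩ <;> rcases l' with ⟨d', hd'⟩ | ⟨j', hj, δ⟩
  · obtain ⟨h1, h2⟩ := (show (∀ i, 2 * a i ≤ d' i ∧ d' i ≤ 2 * b i) ∧
      (d' k = 2 * c ∨ ∃ l : Fin n, j ≤ l.1 ∧ l.1 < k.1 ∧ (d' l = 2 * a l ∨ d' l = 2 * b l)) from hl)
    have hf : faceLe d d' := h
    refine ⟨fun i => ?_, ?_⟩
    · have h1 := h1 i
      have h3 := hf i
      omega
    · rcases h2 with h2 | ⟨m, hm1, hm2, hm3⟩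
      · left
        have h3 := hf k
        omega
      · refine Or.inr ⟨m, hm1, hm2, ?_⟩
        have h3 := hf m
        omega
  · exact hl.elim
  · exact (show False from h).elim
  · exact hl.elim

/-- two computads of labels with the same predicate -/
theorem FC_ctr_congr {L : Type} [Preorder L] {U V : L → Prop} (h : ∀ l, U l ↔ V l)
    (hU : (FC S L U).Ctr) : (FC S L V).Ctr := by
  have : U = V := funext fun l => propext (h l)
  rw [← this]; exact hU

theorem FC_box_aux [S.Good] [S.Strat] (h : S.Hyp) (m : ℕ) : ∀ (a b : Fin n → ℕ),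
    (∑ i, (b i - a i)) ≤ m → (∀ i, a i ≤ b i) → (∀ i, b i ≤ N) →
    (FC S (GLab n N) (boxP a b)).Ctr := by
  induction m with
  | zero =>
    intro a b hm hab hb
    have h0 : ∀ i, b i = a i := by
      intro i
      have : b i - a i ≤ ∑ i, (b i - a i) :=
        Finset.single_le_sum (f := fun i => b i - a i) (fun _ _ => Nat.zero_le _)
          (Finset.mem_univ i)
      have := hab i
      omega
    refine FC_ctr_congr ?_ (FC_principal (S := S)
      (GLab.cell (N := N) (fun i => a i + b i) (fun i => by have := h0 i; have := hb i; omega)))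
    rintro (⟨d, hd⟩ | ⟨i, hi, ε⟩)
    · constructor
      · intro hf i
        have h1 := (show faceLe d _ from hf) i
        have h2 := h0 i
        beta_reduce at h1
        omega
      · intro hf i
        have h1 := (show ∀ i, 2 * a i ≤ d i ∧ d i ≤ 2 * b i from hf) i
        have h2 := h0 i
        beta_reduce
        omega
    · constructor
      · intro hf; exact (show False from hf).elim
      · intro hf; exact (show False from hf).elim
  | succ m ih =>
    intro a b hm hab hb
    by_cases hall : ∀ i, b i ≤ a i + 1
    · refine FC_ctr_congr ?_ (FC_principal (S := S)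
        (GLab.cell (N := N) (fun i => a i + b i) (fun i => by
          have := hab i; have := hb i; omega)))
      rintro (⟨d, hd⟩ | ⟨i, hi, ε⟩)
      · constructor
        · intro hf i
          have h1 := (show faceLe d _ from hf) i
          have h2 := hall i
          have h3 := hab i
          beta_reduce at h1
          omega
        · intro hf i
          have h1 := (show ∀ i, 2 * a i ≤ d i ∧ d i ≤ 2 * b i from hf) i
          have h2 := hall i
          have h3 := hab i
          beta_reduce
          omega
      · constructor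
        · intro hf; exact (show False from hf).elim
        · intro hf; exact (show False from hf).elim
    · push Not at hall
      obtain ⟨i0, hi0⟩ := hall
      -- cut at `i0`
      have hsum : ∀ a' b' : Fin n → ℕ, (∀ i, b' i - a' i ≤ b i - a i) →
          b' i0 - a' i0 < b i0 - a i0 → (∑ i, (b' i - a' i)) ≤ m := by
        intro a' b' h1 h2
        have : (∑ i, (b' i - a' i)) < ∑ i, (b i - a i) :=
          Finset.sum_lt_sum (fun i _ => h1 i) ⟨i0, Finset.mem_univ _, h2⟩
        omega
      set c := a i0 + 1 with hc
      set b' : Fin n → ℕ := Function.update b i0 c with hb'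
      set a' : Fin n → ℕ := Function.update a i0 c with ha'
      have hb0 : b' i0 = c := by simp [hb']
      have ha0 : a' i0 = c := by simp [ha']
      have hb1 : ∀ i, i ≠ i0 → b' i = b i := fun i hi => by simp [hb', hi]
      have ha1 : ∀ i, i ≠ i0 → a' i = a i := fun i hi => by simp [ha', hi]
      have c1 : (FC S (GLab n N) (boxP a b')).Ctr := by
        refine ih a b' (hsum _ _ (fun i => ?_) (by rw [hb0]; omega)) (fun i => ?_) (fun i => ?_)
        · by_cases hi : i = i0
          · subst hi; rw [hb0]; omega
          · rw [hb1 i hi]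
        · by_cases hi : i = i0
          · subst hi; rw [hb0]; omega
          · rw [hb1 i hi]; exact hab i
        · by_cases hi : i = i0
          · subst hi; rw [hb0]; have := hb i; omega
          · rw [hb1 i hi]; exact hb i
      have c2 : (FC S (GLab n N) (boxP a' b)).Ctr := by
        refine ih a' b (hsum _ _ (fun i => ?_) (by rw [ha0]; omega)) (fun i => ?_) hb
        · by_cases hi : i = i0
          · subst hi; rw [ha0]; omega
          · rw [ha1 i hi]
        · by_cases hi : i = i0
          · subst hi; rw [ha0]; omega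
          · rw [ha1 i hi]; exact hab i
      have c3 : (FC S (GLab n N) (boxP a' b')).Ctr := by
        refine ih a' b' (hsum _ _ (fun i => ?_) (by rw [ha0, hb0]; omega)) (fun i => ?_)
          (fun i => ?_)
        · by_cases hi : i = i0
          · subst hi; rw [ha0, hb0]; omega
          · rw [ha1 i hi, hb1 i hi]
        · by_cases hi : i = i0
          · subst hi; rw [ha0, hb0]
          · rw [ha1 i hi, hb1 i hi]; exact hab i
        · by_cases hi : i = i0
          · subst hi; rw [hb0]; have := hb i; omega
          · rw [hb1 i hi]; exact hb i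
      refine FC_ctr_congr ?_ (FC_glue h (boxP_down a b') (boxP_down a' b) c1 c2
        (FC_ctr_congr ?_ c3))
      · rintro (⟨d, hd⟩ | ⟨i, hi, ε⟩)
        · constructor
          · rintro (hf | hf) i
            · have h1 := (show ∀ i, 2 * a i ≤ d i ∧ d i ≤ 2 * b' i from hf) i
              by_cases hi : i = i0
              · subst hi; rw [hb0] at h1; omega
              · rw [hb1 i hi] at h1; exact h1
            · have h1 := (show ∀ i, 2 * a' i ≤ d i ∧ d i ≤ 2 * b i from hf) i
              by_cases hi : i = i0
              · subst hi; rw [ha0] at h1; omega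
              · rw [ha1 i hi] at h1; exact h1
          · intro hf
            have h1 := (show ∀ i, 2 * a i ≤ d i ∧ d i ≤ 2 * b i from hf)
            by_cases hcase : d i0 ≤ 2 * c
            · left
              intro i
              by_cases hi : i = i0
              · subst hi; rw [hb0]; have := h1 i; omega
              · rw [hb1 i hi]; exact h1 i
            · right
              intro i
              by_cases hi : i = i0
              · subst hi; rw [ha0]; have := h1 i; omega
              · rw [ha1 i hi]; exact h1 i
        · constructor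
          · rintro (hf | hf)
            · exact hf
            · exact hf
          · intro hf; exact (show False from hf).elim
      · rintro (⟨d, hd⟩ | ⟨i, hi, ε⟩)
        · constructor
          · intro hf
            have h1 := (show ∀ i, 2 * a' i ≤ d i ∧ d i ≤ 2 * b' i from hf)
            refine ⟨fun i => ?_, fun i => ?_⟩
            · by_cases hi : i = i0
              · subst hi; have := h1 i; rw [ha0, hb0] at this; rw [hb0]; omega
              · have := h1 i; rw [ha1 i hi] at this; exact this
            · by_cases hi : i = i0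
              · subst hi; have := h1 i; rw [ha0, hb0] at this; rw [ha0]; omega
              · have := h1 i; rw [hb1 i hi] at this; exact this
          · rintro ⟨hf, hf'⟩ i
            have h1 := (show ∀ i, 2 * a i ≤ d i ∧ d i ≤ 2 * b' i from hf) i
            have h2 := (show ∀ i, 2 * a' i ≤ d i ∧ d i ≤ 2 * b i from hf') i
            exact ⟨h2.1, h1.2⟩
        · constructor
          · intro hf; exact (show False from hf).elim
          · rintro ⟨hf, -⟩; exact hf

theorem FC_box_ctr [S.Good] [S.Strat] (h : S.Hyp) (a b : Fin n → ℕ) (hab : ∀ i, a i ≤ b i)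
    (hb : ∀ i, b i ≤ N) : (FC S (GLab n N) (boxP a b)).Ctr :=
  FC_box_aux h _ a b le_rfl hab hb

theorem FC_open_aux [S.Good] [S.Strat] (h : S.Hyp) (k : Fin n) (m : ℕ) : ∀ (a b : Fin n → ℕ)
    (_hab : ∀ i, a i ≤ b i) (_hb : ∀ i, b i ≤ N) (c : ℕ) (_hc : c = a k ∨ c = b k) (j : ℕ)
    (_hj : j + m = k.1) (_hlt : ∀ l : Fin n, j ≤ l.1 → l.1 < k.1 → a l < b l),
    (FC S (GLab n N) (openP a b k c j)).Ctr := by
  induction m with
  | zero =>
    intro a b hab hb c hc j hj hlt
    have c1 := FC_box_ctr (S := S) (N := N) h (Function.update a k c) (Function.update b k c)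
      (fun i => by
        by_cases hi : i = k
        · subst hi; simp
        · simp [hi, hab i])
      (fun i => by
        by_cases hi : i = k
        · subst hi; simp only [Function.update_self]
          have := hab i; have := hb i
          rcases hc with hc | hc <;> omega
        · simp [hi, hb i])
    refine FC_ctr_congr ?_ c1
    rintro (⟨d, hd⟩ | ⟨i, hi, ε⟩)
    · constructor
      · intro hf
        have h1 := (show ∀ i, 2 * (Function.update a k c) i ≤ d i ∧
          d i ≤ 2 * (Function.update b k c) i from hf)
        refine ⟨fun i => ?_, Or.inl ?_⟩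
        · by_cases hi : i = k
          · subst hi
            have := h1 i
            simp only [Function.update_self] at this
            have := hab i
            rcases hc with hc | hc <;> omega
          · have := h1 i
            simp only [Function.update_of_ne hi] at this
            exact this
        · have := h1 k
          simp only [Function.update_self] at this
          omega
      · intro hf i
        obtain ⟨h1, h2⟩ := (show (∀ i, 2 * a i ≤ d i ∧ d i ≤ 2 * b i) ∧
          (d k = 2 * c ∨ ∃ l : Fin n, j ≤ l.1 ∧ l.1 < k.1 ∧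
            (d l = 2 * a l ∨ d l = 2 * b l)) from hf)
        have h3 : d k = 2 * c := by
          rcases h2 with h2 | ⟨l, hl1, hl2, _⟩
          · exact h2
          · omega
        by_cases hi : i = k
        · subst hi
          simp only [Function.update_self]
          omega
        · simp only [Function.update_of_ne hi]
          exact h1 i
    · constructor
      · intro hf; exact (show False from hf).elim
      · intro hf; exact (show False from hf).elim
  | succ m ih =>
    intro a b hab hb c hc j hj hlt
    have hjn : j < n := by have := k.2; omega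
    set J : Fin n := ⟨j, hjn⟩ with hJ
    have hJk : J ≠ k := by
      intro he
      have : J.1 = k.1 := by rw [he]
      simp only [hJ] at this
      omega
    have hkJ : k ≠ J := fun he => hJk he.symm
    have hJlt : a J < b J := hlt J le_rfl (by simp only [hJ]; omega)
    set b' : Fin n → ℕ := Function.update b J (a J) with hb'
    set a' : Fin n → ℕ := Function.update a J (b J) with ha'
    have hb0 : b' J = a J := by simp [hb']
    have ha0 : a' J = b J := by simp [ha']
    have hb1 : ∀ i, i ≠ J → b' i = b i := fun i hi => by simp [hb', hi]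
    have ha1 : ∀ i, i ≠ J → a' i = a i := fun i hi => by simp [ha', hi]
    have hne : ∀ l : Fin n, j + 1 ≤ l.1 → l ≠ J := by
      intro l hl he
      have : l.1 = j := by rw [he]
      omega
    have habl : ∀ i, a i ≤ b' i := fun i => by
      by_cases hi : i = J
      · rw [hi, hb0]
      · rw [hb1 i hi]; exact hab i
    have habr : ∀ i, a' i ≤ b i := fun i => by
      by_cases hi : i = J
      · rw [hi, ha0]
      · rw [ha1 i hi]; exact hab i
    have hbl : ∀ i, b' i ≤ N := fun i => by
      by_cases hi : i = J
      · rw [hi, hb0]; exact (hab J).trans (hb J)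
      · rw [hb1 i hi]; exact hb i
    -- contractible pieces
    have c0 : (FC S (GLab n N) (openP a b k c (j + 1))).Ctr :=
      ih a b hab hb c hc (j + 1) (by omega) (fun l h1 h2 => hlt l (by omega) h2)
    have cl : (FC S (GLab n N) (boxP a b')).Ctr := FC_box_ctr h a b' habl hbl
    have cr : (FC S (GLab n N) (boxP a' b)).Ctr := FC_box_ctr h a' b habr hb
    have c0l : (FC S (GLab n N) (openP a b' k c (j + 1))).Ctr := by
      refine ih a b' habl hbl c ?_ (j + 1) (by omega) (fun l h1 h2 => ?_)
      · rw [hb1 k hkJ]; exact hc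
      · rw [hb1 l (hne l h1)]; exact hlt l (by omega) h2
    have c0r : (FC S (GLab n N) (openP a' b k c (j + 1))).Ctr := by
      refine ih a' b habr hb c ?_ (j + 1) (by omega) (fun l h1 h2 => ?_)
      · rw [ha1 k hkJ]; exact hc
      · rw [ha1 l (hne l h1)]; exact hlt l (by omega) h2
    -- first gluing
    have g1 : (FC S (GLab n N) (fun l => openP a b k c (j + 1) l ∨ boxP a b' l)).Ctr := by
      refine FC_glue h (openP_down a b k c (j + 1)) (boxP_down a b') c0 cl
        (FC_ctr_congr ?_ c0l)
      rintro (⟨d, hd⟩ | ⟨i, hi, ε⟩)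
      · constructor
        · intro hf
          obtain ⟨h1, h2⟩ := (show (∀ i, 2 * a i ≤ d i ∧ d i ≤ 2 * b' i) ∧
            (d k = 2 * c ∨ ∃ l : Fin n, j + 1 ≤ l.1 ∧ l.1 < k.1 ∧
              (d l = 2 * a l ∨ d l = 2 * b' l)) from hf)
          refine ⟨⟨fun i => ?_, ?_⟩, h1⟩
          · by_cases hi : i = J
            · have := h1 i; rw [hi, hb0] at this; rw [hi]; omega
            · have := h1 i; rw [hb1 i hi] at this; exact this
          · rcases h2 with h2 | ⟨l, hl1, hl2, hl3⟩
            · exact Or.inl h2
            · rw [hb1 l (hne l hl1)] at hl3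
              exact Or.inr ⟨l, hl1, hl2, hl3⟩
        · rintro ⟨hf, hf'⟩
          obtain ⟨h1, h2⟩ := (show (∀ i, 2 * a i ≤ d i ∧ d i ≤ 2 * b i) ∧
            (d k = 2 * c ∨ ∃ l : Fin n, j + 1 ≤ l.1 ∧ l.1 < k.1 ∧
              (d l = 2 * a l ∨ d l = 2 * b l)) from hf)
          refine ⟨hf', ?_⟩
          rcases h2 with h2 | ⟨l, hl1, hl2, hl3⟩
          · exact Or.inl h2
          · refine Or.inr ⟨l, hl1, hl2, ?_⟩
            rw [hb1 l (hne l hl1)]; exact hl3
      · constructor
        · intro hf; exact (show False from hf).elim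
        · rintro ⟨hf, -⟩; exact hf
    have hd1 : ∀ l l' : GLab n N, l ≤ l' →
        (openP a b k c (j + 1) l' ∨ boxP a b' l') → (openP a b k c (j + 1) l ∨ boxP a b' l) := by
      rintro l l' hl (hf | hf)
      · exact Or.inl (openP_down a b k c (j + 1) l l' hl hf)
      · exact Or.inr (boxP_down a b' l l' hl hf)
    have g2 : (FC S (GLab n N)
        (fun l => (openP a b k c (j + 1) l ∨ boxP a b' l) ∨ boxP a' b l)).Ctr := by
      refine FC_glue h hd1 (boxP_down a' b) g1 cr (FC_ctr_congr ?_ c0r)
      rintro (⟨d, hd⟩ | ⟨i, hi, ε⟩)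
      · constructor
        · intro hf
          obtain ⟨h1, h2⟩ := (show (∀ i, 2 * a' i ≤ d i ∧ d i ≤ 2 * b i) ∧
            (d k = 2 * c ∨ ∃ l : Fin n, j + 1 ≤ l.1 ∧ l.1 < k.1 ∧
              (d l = 2 * a' l ∨ d l = 2 * b l)) from hf)
          refine ⟨Or.inl ⟨fun i => ?_, ?_⟩, h1⟩
          · by_cases hi : i = J
            · have := h1 i; rw [hi, ha0] at this; rw [hi]; omega
            · have := h1 i; rw [ha1 i hi] at this; exact this
          · rcases h2 with h2 | ⟨l, hl1, hl2, hl3⟩
            · exact Or.inl h2
            · rw [ha1 l (hne l hl1)] at hl3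
              exact Or.inr ⟨l, hl1, hl2, hl3⟩
        · rintro ⟨hf, hf'⟩
          refine ⟨hf', ?_⟩
          rcases hf with hf | hf
          · obtain ⟨h1, h2⟩ := (show (∀ i, 2 * a i ≤ d i ∧ d i ≤ 2 * b i) ∧
              (d k = 2 * c ∨ ∃ l : Fin n, j + 1 ≤ l.1 ∧ l.1 < k.1 ∧
                (d l = 2 * a l ∨ d l = 2 * b l)) from hf)
            rcases h2 with h2 | ⟨l, hl1, hl2, hl3⟩
            · exact Or.inl h2
            · refine Or.inr ⟨l, hl1, hl2, ?_⟩
              rw [ha1 l (hne l hl1)]; exact hl3
          · exfalso
            have h1 := (show ∀ i, 2 * a i ≤ d i ∧ d i ≤ 2 * b' i from hf) J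
            have h2 := (show ∀ i, 2 * a' i ≤ d i ∧ d i ≤ 2 * b i from hf') J
            rw [hb0] at h1
            rw [ha0] at h2
            omega
      · constructor
        · intro hf; exact (show False from hf).elim
        · rintro ⟨-, hf⟩; exact hf
    refine FC_ctr_congr ?_ g2
    rintro (⟨d, hd⟩ | ⟨i, hi, ε⟩)
    · constructor
      · rintro ((hf | hf) | hf)
        · obtain ⟨h1, h2⟩ := (show (∀ i, 2 * a i ≤ d i ∧ d i ≤ 2 * b i) ∧
            (d k = 2 * c ∨ ∃ l : Fin n, j + 1 ≤ l.1 ∧ l.1 < k.1 ∧
              (d l = 2 * a l ∨ d l = 2 * b l)) from hf)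
          refine ⟨h1, ?_⟩
          rcases h2 with h2 | ⟨l, hl1, hl2, hl3⟩
          · exact Or.inl h2
          · exact Or.inr ⟨l, by omega, hl2, hl3⟩
        · have h1 := (show ∀ i, 2 * a i ≤ d i ∧ d i ≤ 2 * b' i from hf)
          refine ⟨fun i => ?_, Or.inr ⟨J, le_rfl, by simp only [hJ]; omega, Or.inl ?_⟩⟩
          · by_cases hi : i = J
            · have := h1 i; rw [hi, hb0] at this; rw [hi]; omega
            · have := h1 i; rw [hb1 i hi] at this; exact this
          · have := h1 J; rw [hb0] at this; omega
        · have h1 := (show ∀ i, 2 * a' i ≤ d i ∧ d i ≤ 2 * b i from hf)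
          refine ⟨fun i => ?_, Or.inr ⟨J, le_rfl, by simp only [hJ]; omega, Or.inr ?_⟩⟩
          · by_cases hi : i = J
            · have := h1 i; rw [hi, ha0] at this; rw [hi]; omega
            · have := h1 i; rw [ha1 i hi] at this; exact this
          · have := h1 J; rw [ha0] at this; omega
      · intro hf
        obtain ⟨h1, h2⟩ := (show (∀ i, 2 * a i ≤ d i ∧ d i ≤ 2 * b i) ∧
          (d k = 2 * c ∨ ∃ l : Fin n, j ≤ l.1 ∧ l.1 < k.1 ∧
            (d l = 2 * a l ∨ d l = 2 * b l)) from hf)
        rcases h2 with h2 | ⟨l, hl1, hl2, hl3⟩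
        · exact Or.inl (Or.inl ⟨h1, Or.inl h2⟩)
        · rcases Nat.lt_or_ge j l.1 with hl | hl
          · exact Or.inl (Or.inl ⟨h1, Or.inr ⟨l, by omega, hl2, hl3⟩⟩)
          · have hlJ : l = J := Fin.ext (by simp only [hJ]; omega)
            rw [hlJ] at hl3
            rcases hl3 with hl3 | hl3
            · refine Or.inl (Or.inr fun i => ?_)
              by_cases hi : i = J
              · rw [hi, hb0]; omega
              · rw [hb1 i hi]; exact h1 i
            · refine Or.inr fun i => ?_
              by_cases hi : i = J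
              · rw [hi, ha0]; omega
              · rw [ha1 i hi]; exact h1 i
    · constructor
      · rintro ((hf | hf) | hf)
        · exact hf
        · exact hf
        · exact hf
      · intro hf; exact (show False from hf).elim

theorem FC_open_ctr [S.Good] [S.Strat] (h : S.Hyp) (a b : Fin n → ℕ) (hab : ∀ i, a i ≤ b i)
    (hb : ∀ i, b i ≤ N) (k : Fin n) (c : ℕ) (hc : c = a k ∨ c = b k) (j : ℕ) (hj : j ≤ k.1)
    (hlt : ∀ l : Fin n, j ≤ l.1 → l.1 < k.1 → a l < b l) :
    (FC S (GLab n N) (openP a b k c j)).Ctr :=
  FC_open_aux h k (k.1 - j) a b hab hb c hc j (by omega) hlt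

end Grid

end HH
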