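import Pool.Agent.HH.Free
import Pool.Agent.HH.GridBox

/-!
# HH part 3, module d13: all labels of the grid
-/

set_option autoImplicit false

namespace HH

open Classical CategoryTheory

variable {S : Sig}

section GridLab

variable {n N : ℕ}

/-- cells, and globular labels of dimension `< k` -/
def gl (k : ℕ) : GLab n N → Prop
  | .cell _ _ => True
  | .glo i _ _ => i < k

theorem gl_down (k : ℕ) (l l' : GLab n N) (h : l ≤ l') (hl : gl k l') : gl k l := by
  rcases l with ⟨d, hd⟩ | ⟨i, hi, ε⟩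
  · trivial
  · rcases l' with ⟨d, hd⟩ | ⟨j, hj, δ⟩
    · exact h.elim
    · have h1 : i < j ∨ (i = j ∧ ε = δ) := h
      have h2 : j < k := hl
      show i < k
      omega

/-- down-closed predicates -/
def Dn (U : GLab n N → Prop) : Prop := ∀ l l', l ≤ l' → U l' → U l

theorem Dn.and {U V : GLab n N → Prop} (hU : Dn U) (hV : Dn V) : Dn (fun l => U l ∧ V l) :=
  fun l l' h hl => ⟨hU l l' h hl.1, hV l l' h hl.2⟩

theorem Dn.or {U V : GLab n N → Prop} (hU : Dn U) (hV : Dn V) : Dn (fun l => U l ∨ V l) :=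
  fun l l' h hl => hl.elim (fun h1 => Or.inl (hU l l' h h1)) (fun h1 => Or.inr (hV l l' h h1))

theorem Dn.le (l0 : GLab n N) : Dn (fun l => l ≤ l0) := fun _ _ h hl => le_trans h hl

theorem FC_congr {U V : GLab n N → Prop} (h : ∀ l, U l ↔ V l) (c : (FC S (GLab n N) U).Ctr) :
    (FC S (GLab n N) V).Ctr := by
  have e : U = V := funext fun l => propext (h l)
  rwa [← e]

/-- the inductive step -/
theorem FC_step [S.Good] [S.Strat] (h : S.Hyp) {Y : GLab n N → Prop} (hY : Dn Y) (k : ℕ)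
    (hk : k < n)
    (hglo : ∀ ε, Y (.glo k hk ε))
    (c0 : (FC S (GLab n N) (fun l => Y l ∧ gl k l)).Ctr)
    (c1 : ∀ ε, (FC S (GLab n N) (fun l => l ≤ .glo k hk ε ∧ gl k l)).Ctr) :
    (FC S (GLab n N) (fun l => Y l ∧ gl (k + 1) l)).Ctr := by
  have s1 : (FC S (GLab n N) (fun l => (Y l ∧ gl k l) ∨ l ≤ .glo k hk false)).Ctr := by
    refine FC_glue h (hY.and (gl_down k)) (Dn.le _) c0 (FC_principal _) ?_
    refine FC_congr (fun l => ?_) (c1 false)
    constructor
    · rintro ⟨h1, h2⟩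
      exact ⟨⟨hY _ _ h1 (hglo false), h2⟩, h1⟩
    · rintro ⟨⟨_, h2⟩, h1⟩
      exact ⟨h1, h2⟩
  have s2 : (FC S (GLab n N)
      (fun l => ((Y l ∧ gl k l) ∨ l ≤ .glo k hk false) ∨ l ≤ .glo k hk true)).Ctr := by
    refine FC_glue h ((hY.and (gl_down k)).or (Dn.le _)) (Dn.le _) s1 (FC_principal _) ?_
    refine FC_congr (fun l => ?_) (c1 true)
    constructor
    · rintro ⟨h1, h2⟩
      exact ⟨Or.inl ⟨hY _ _ h1 (hglo true), h2⟩, h1⟩
    · rintro ⟨h1 | h1, h2⟩
      · exact ⟨h2, h1.2⟩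
      · refine ⟨h2, ?_⟩
        rcases l with ⟨d, hd⟩ | ⟨i, hi, ε⟩
        · trivial
        · have a1 : i < k ∨ (i = k ∧ ε = false) := h1
          have a2 : i < k ∨ (i = k ∧ ε = true) := h2
          show i < k
          rcases a1 with a1 | ⟨a1, a1'⟩
          · exact a1
          · rcases a2 with a2 | ⟨a2, a2'⟩
            · exact a2
            · exact absurd (a1'.symm.trans a2') (by decide)
  refine FC_congr (fun l => ?_) s2
  constructor
  · rintro ((⟨h1, h2⟩ | h1) | h1)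
    · refine ⟨h1, ?_⟩
      rcases l with ⟨d, hd⟩ | ⟨i, hi, ε⟩
      · trivial
      · have a1 : i < k := h2
        show i < k + 1
        omega
    · refine ⟨hY _ _ h1 (hglo false), ?_⟩
      rcases l with ⟨d, hd⟩ | ⟨i, hi, ε⟩
      · trivial
      · have a1 : i < k ∨ (i = k ∧ ε = false) := h1
        show i < k + 1
        omega
    · refine ⟨hY _ _ h1 (hglo true), ?_⟩
      rcases l with ⟨d, hd⟩ | ⟨i, hi, ε⟩
      · trivial
      · have a1 : i < k ∨ (i = k ∧ ε = true) := h1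
        show i < k + 1
        omega
  · rintro ⟨h1, h2⟩
    rcases l with ⟨d, hd⟩ | ⟨i, hi, ε⟩
    · exact Or.inl (Or.inl ⟨h1, trivial⟩)
    · have a1 : i < k + 1 := h2
      rcases Nat.lt_or_ge i k with a2 | a2
      · exact Or.inl (Or.inl ⟨h1, a2⟩)
      · have a3 : i = k := by omega
        subst a3
        cases ε with
        | false => exact Or.inl (Or.inr (le_refl _))
        | true => exact Or.inr (le_refl _)

/-- the base case for `Y = ↓(i, ε)` -/
theorem FC_base_glo [S.Good] [S.Strat] (h : S.Hyp) (hN : 0 < N) (i : ℕ) (hi : i < n) (ε : Bool) :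
    (FC S (GLab n N) (fun l => l ≤ .glo i hi ε ∧ gl 0 l)).Ctr := by
  have c := FC_open_ctr (S := S) (n := n) (N := N) h (fun _ => 0) (fun _ => N)
    (fun _ => Nat.zero_le _) (fun _ => le_refl _) ⟨i, hi⟩ (if ε then N else 0)
    (by cases ε <;> simp) 0 (Nat.zero_le _) (fun _ _ _ => hN)
  refine FC_congr (fun l => ?_) c
  rcases l with ⟨d, hd⟩ | ⟨j, hj, δ⟩
  · constructor
    · rintro ⟨_, h2⟩
      refine ⟨?_, trivial⟩
      show inX N d i ε
      rcases h2 with h2 | ⟨j, _, hj, h2⟩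
      · refine ⟨⟨i, hi⟩, Or.inl ⟨rfl, ?_⟩⟩
        rw [h2]
        cases ε <;> simp
      · exact ⟨j, Or.inr ⟨hj, by omega⟩⟩
    · rintro ⟨h1, _⟩
      have h1' : inX N d i ε := h1
      obtain ⟨j, hj⟩ := h1'
      refine ⟨fun i' => ⟨by show 2 * 0 ≤ d i'; omega, hd i'⟩, ?_⟩
      rcases hj with ⟨hj, h2⟩ | ⟨hj, h2⟩
      · left
        have e : j = ⟨i, hi⟩ := Fin.ext hj
        subst e
        rw [h2]
        cases ε <;> simp
      · exact Or.inr ⟨j, Nat.zero_le _, hj, by omega⟩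
  · constructor
    · rintro h1
      exact h1.elim
    · rintro ⟨_, h2⟩
      exact absurd h2 (Nat.not_lt_zero j)

theorem FC_glo [S.Good] [S.Strat] (h : S.Hyp) (hN : 0 < N) (k : ℕ) :
    ∀ (i : ℕ) (hi : i < n) (ε : Bool), k ≤ i →
      (FC S (GLab n N) (fun l => l ≤ .glo i hi ε ∧ gl k l)).Ctr := by
  induction k with
  | zero => exact fun i hi ε _ => FC_base_glo h hN i hi ε
  | succ k ih =>
    intro i hi ε hki
    refine FC_step h (Dn.le _) k (by omega) (fun δ => ?_) (ih i hi ε (by omega))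
      (fun δ => ih k (by omega) δ (le_refl _))
    exact Or.inl (by omega)

theorem FC_all [S.Good] [S.Strat] (h : S.Hyp) (hN : 0 < N) (k : ℕ) (hk : k ≤ n) :
    (FC S (GLab n N) (fun l => True ∧ gl k l)).Ctr := by
  induction k with
  | zero =>
    have c := FC_box_ctr (S := S) (n := n) (N := N) h (fun _ => 0) (fun _ => N)
      (fun _ => Nat.zero_le _) (fun _ => le_refl _)
    refine FC_congr (fun l => ?_) c
    rcases l with ⟨d, hd⟩ | ⟨j, hj, δ⟩
    · exact ⟨fun _ => ⟨trivial, trivial⟩, fun _ i' => ⟨by show 2 * 0 ≤ d i'; omega, hd i'⟩⟩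
    · exact ⟨fun h1 => h1.elim, fun h1 => absurd h1.2 (Nat.not_lt_zero j)⟩
  | succ k ih =>
    exact FC_step (Y := fun _ => True) h (fun _ _ _ _ => trivial) k (by omega)
      (fun _ => trivial) (ih (by omega))
      (fun δ => FC_glo h hN k k (by omega) δ (le_refl _))

theorem FC_grid_ctr [S.Good] [S.Strat] (h : S.Hyp) (hN : 0 < N) :
    (FC S (GLab n N) (fun _ => True)).Ctr := by
  refine FC_congr (fun l => ?_) (FC_all h hN n (le_refl _))
  refine ⟨fun _ => trivial, fun _ => ⟨trivial, ?_⟩⟩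
  rcases l with ⟨d, hd⟩ | ⟨j, hj, δ⟩
  · trivial
  · exact hj

end GridLab

end HH
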