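import Pool.Agent.HH.AL0
import Pool.Agent.HH.GridLab

/-!
# HH part 3, module d15: the abstract lemma for grids
-/

set_option autoImplicit false

namespace HH

open Classical CategoryTheory

variable {S : Sig}

theorem AL [S.Good] [S.Strat] (h : S.Hyp) {n N : ℕ} (hN : 0 < N) (V : GLab n N ⥤ RMod S)
    (hV : ∀ l, (V.obj l).Ctr) (c : Limits.Cocone V)
    (e : (i : ℕ) → (hi : i < n) → (ε : Bool) → (V.obj (.glo i hi ε)).Cell)
    (hd : ∀ i hi ε, (V.obj (.glo i hi ε)).M.dim (e i hi ε).1 = i)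
    (hs : ∀ i (hi : i + 1 < n) (ε : Bool),
      (V.obj (.glo (i + 1) hi ε)).M.src (e (i + 1) hi ε).1 =
      (RHom.f (V.map (homOfLE (show GLab.glo i (by omega) false ≤ GLab.glo (i + 1) hi ε from
        Or.inl (Nat.lt_succ_self i)))) (e i (by omega) false)).1)
    (ht : ∀ i (hi : i + 1 < n) (ε : Bool),
      (V.obj (.glo (i + 1) hi ε)).M.tgt (e (i + 1) hi ε).1 =
      (RHom.f (V.map (homOfLE (show GLab.glo i (by omega) true ≤ GLab.glo (i + 1) hi ε from
        Or.inl (Nat.lt_succ_self i)))) (e i (by omega) true)).1) :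
    ∃ x : c.pt.Cell, c.pt.M.dim x.1 = n ∧ ∀ hn : 0 < n,
      c.pt.M.src x.1 = (RHom.f (c.ι.app (.glo (n - 1) (by omega) false))
        (e (n - 1) (by omega) false)).1 ∧
      c.pt.M.tgt x.1 = (RHom.f (c.ι.app (.glo (n - 1) (by omega) true))
        (e (n - 1) (by omega) true)).1 :=
  AL0 (FC_grid_ctr h hN) V hV c n (fun i hi ε => .glo i hi ε)
    (fun i _ _ _ => Or.inl (Nat.lt_succ_self i))
    (fun i hi h => by
      injection h with _ h2
      exact Bool.noConfusion h2) e hd hs ht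

end HH
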