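import Pool.Agent.HH.ResLem

/-!
# HH part 3, module d11 (first half): free computads over labels are good; principal ones are
contractible
-/

set_option autoImplicit false

namespace HH

open Classical CategoryTheory

variable {S : Sig}

section Free

variable {L : Type}

theorem FR_dim_none (l : L) : (FR S L).dim (FV.mk l none) = 0 := rfl

theorem FR_dim_mk (l : L) (n : ℕ) (f g : S.T (FV S L)) :
    (FR S L).dim (FV.mk l (some (n, f, g))) = n + 1 := by
  show (match FV.bdry (FV.mk l (some (n, f, g))) with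
    | none => 0
    | some b => b.1 + 1) = n + 1
  rw [FV.bdry_mk]

theorem FR_src_mk (l : L) (n : ℕ) (f g : S.T (FV S L)) :
    (FR S L).src (FV.mk l (some (n, f, g))) = f := by
  show (match FV.bdry (FV.mk l (some (n, f, g))) with
    | none => .var (FV.mk l (some (n, f, g)))
    | some b => b.2.1) = f
  rw [FV.bdry_mk]

theorem FR_tgt_mk (l : L) (n : ℕ) (f g : S.T (FV S L)) :
    (FR S L).tgt (FV.mk l (some (n, f, g))) = g := by
  show (match FV.bdry (FV.mk l (some (n, f, g))) with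
    | none => .var (FV.mk l (some (n, f, g)))
    | some b => b.2.2) = g
  rw [FV.bdry_mk]

variable [Preorder L]

/-- all variables of a genuine term satisfy the predicate -/
theorem FC_tok_var {U : L → Prop} {t : S.T (FV S L)} (ht : (FC S L U).tok t) :
    ∀ v, t.HasVar v → FOk v ∧ U (FV.lab v) :=
  ((res_tok_iff (X := FR S L) (p := fun v => FOk v ∧ U (FV.lab v)) t).1 ht).2

/-- genuine terms are genuine raw terms -/
theorem FC_tok_raw {U : L → Prop} {t : S.T (FV S L)} (ht : (FC S L U).tok t) :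
    (FR S L).tok t :=
  ((res_tok_iff (X := FR S L) (p := fun v => FOk v ∧ U (FV.lab v)) t).1 ht).1

theorem FC_tok_mk {U : L → Prop} {t : S.T (FV S L)} (h1 : (FR S L).tok t)
    (h2 : ∀ v, t.HasVar v → FOk v) (h3 : ∀ v, t.HasVar v → U (FV.lab v)) :
    (FC S L U).tok t :=
  (res_tok_iff (X := FR S L) (p := fun v => FOk v ∧ U (FV.lab v)) t).2
    ⟨h1, fun v hv => ⟨h2 v hv, h3 v hv⟩⟩

theorem FC_tdim (U : L → Prop) (t : S.T (FV S L)) : (FC S L U).tdim t = (FR S L).tdim t := by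
  cases t <;> rfl

theorem FC_tsrc (U : L → Prop) (t : S.T (FV S L)) : (FC S L U).tsrc t = (FR S L).tsrc t := by
  cases t <;> rfl

theorem FC_ttgt (U : L → Prop) (t : S.T (FV S L)) : (FC S L U).ttgt t = (FR S L).ttgt t := by
  cases t <;> rfl

/-- the boundary of a genuine variable of positive dimension -/
theorem FOk.bdry_data {v : FV S L} (hv : FOk v) (h0 : 0 < (FR S L).dim v) :
    (FR S L).tok ((FR S L).src v) ∧ (FR S L).tok ((FR S L).tgt v) ∧
    (FR S L).tdim ((FR S L).src v) + 1 = (FR S L).dim v ∧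
    (FR S L).tdim ((FR S L).tgt v) + 1 = (FR S L).dim v ∧
    (0 < (FR S L).tdim ((FR S L).src v) →
      (FR S L).tsrc ((FR S L).src v) = (FR S L).tsrc ((FR S L).tgt v) ∧
      (FR S L).ttgt ((FR S L).src v) = (FR S L).ttgt ((FR S L).tgt v)) ∧
    (∀ w, ((FR S L).src v).HasVar w → FOk w ∧ FV.lab w ≤ FV.lab v) ∧
    (∀ w, ((FR S L).tgt v).HasVar w → FOk w ∧ FV.lab w ≤ FV.lab v) := by
  cases hv with
  | pt l => exact absurd h0 (lt_irrefl 0)
  | cell l f g hf hg hd hs ht lf lg of og =>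
    rw [FR_src_mk, FR_tgt_mk, FR_dim_mk, FV.lab_mk]
    exact ⟨hf, hg, rfl, congrArg (· + 1) hd.symm, fun h => ⟨hs h, ht h⟩,
      fun w hw => ⟨of w hw, lf w hw⟩, fun w hw => ⟨og w hw, lg w hw⟩⟩

theorem FC_good [S.Good] {U : L → Prop} (hU : ∀ l l', l ≤ l' → U l' → U l) :
    (FC S L U).Good where
  ok_src := by
    rintro v ⟨hv, hl⟩ h0
    obtain ⟨a1, -, -, -, -, a6, -⟩ := hv.bdry_data h0
    exact FC_tok_mk a1 (fun w hw => (a6 w hw).1) (fun w hw => hU _ _ (a6 w hw).2 hl)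
  ok_tgt := by
    rintro v ⟨hv, hl⟩ h0
    obtain ⟨-, a2, -, -, -, -, a7⟩ := hv.bdry_data h0
    exact FC_tok_mk a2 (fun w hw => (a7 w hw).1) (fun w hw => hU _ _ (a7 w hw).2 hl)
  dim_src := by
    rintro v ⟨hv, hl⟩ h0
    obtain ⟨-, -, a3, -, -, -, -⟩ := hv.bdry_data h0
    exact (congrArg (· + 1) (FC_tdim U _)).trans a3
  dim_tgt := by
    rintro v ⟨hv, hl⟩ h0
    obtain ⟨-, -, -, a4, -, -, -⟩ := hv.bdry_data h0
    exact (congrArg (· + 1) (FC_tdim U _)).trans a4
  src_tgt := by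
    rintro v ⟨hv, hl⟩ h0
    have h1 : 1 < (FR S L).dim v := h0
    obtain ⟨-, -, a3, -, a5, -, -⟩ := hv.bdry_data (by omega)
    exact (FC_tsrc U _).trans ((a5 (by omega)).1.symm.trans (FC_tsrc U _).symm)
  tgt_src := by
    rintro v ⟨hv, hl⟩ h0
    have h1 : 1 < (FR S L).dim v := h0
    obtain ⟨-, -, a3, -, a5, -, -⟩ := hv.bdry_data (by omega)
    exact (FC_ttgt U _).trans ((a5 (by omega)).2.trans (FC_ttgt U _).symm)

theorem FC_principal [S.Good] (l : L) : (FC S L (fun l' => l' ≤ l)).Ctr := by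
  refine ⟨⟨.var (FV.mk l none), ⟨FOk.pt l, ?_⟩, rfl⟩, ?_⟩
  · show FV.lab (FV.mk (S := S) l none) ≤ l
    rw [FV.lab_mk]
  intro M f g hfg _
  obtain ⟨hf, hg, hd, hst⟩ := hfg
  have hd' : (FR S L).tdim f = (FR S L).tdim g :=
    (FC_tdim _ f).symm.trans (hd.trans (FC_tdim _ g))
  have h0' : 0 < (FR S L).tdim f → 0 < (FC S L (fun l' => l' ≤ l)).m.dim f := fun h0 =>
    lt_of_lt_of_eq h0 (FC_tdim _ f).symm
  refine ⟨.var (FV.mk l (some ((FR S L).tdim f, f, g))), ⟨?_, ?_⟩, ?_, ?_, ?_⟩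
  · exact FOk.cell l f g (FC_tok_raw hf) (FC_tok_raw hg) hd'
      (fun h0 => (FC_tsrc _ f).symm.trans ((hst (h0' h0)).1.trans (FC_tsrc _ g)))
      (fun h0 => (FC_ttgt _ f).symm.trans ((hst (h0' h0)).2.trans (FC_ttgt _ g)))
      (fun v hv => (FC_tok_var hf v hv).2)
      (fun v hv => (FC_tok_var hg v hv).2) (fun v hv => (FC_tok_var hf v hv).1)
      (fun v hv => (FC_tok_var hg v hv).1)
  · show FV.lab (FV.mk (S := S) l _) ≤ l
    rw [FV.lab_mk]
  · exact (FR_dim_mk l _ f g).trans (congrArg (· + 1) (FC_tdim _ f).symm)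
  · exact FR_src_mk l ((FR S L).tdim f) f g
  · exact FR_tgt_mk l ((FR S L).tdim f) f g

end Free

end HH
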