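import Pool.Agent.HH.Interp

/-!
# HH stage 2, module c16: restriction of models along an interpretation
-/

set_option autoImplicit false

namespace HH

open Classical CategoryTheory

variable {S E R : Sig}

/-- morphisms of models commute with evaluation -/
theorem RHom.eval {M N : RMod S} (F : M ⟶ N) {X : Cptd S} {γ : X.V → M.Cell}
    (hγ : ∀ v, X.ok v → AsgAt X M.M (fun v => (γ v).1) v) (t : S.T X.V) (ht : X.tok t)
    (hok : M.M.ok (M.M.eval (fun v => (γ v).1) t)) :
    (RHom.f F ⟨M.M.eval (fun v => (γ v).1) t, hok⟩).1 =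
      N.M.eval (fun v => (RHom.f F (γ v)).1) t := by
  induction t with
  | var v => rfl
  | op k δ ih =>
    obtain ⟨hk, hδ⟩ := ht
    have key := fun p => eval_mapAt hγ (δ p) (hδ p).1
    have hm : ∀ p, MapAt (S.ar k) M.M.toGlob
        (fun p => (⟨M.M.eval (fun v => (γ v).1) (δ p), (key p).1⟩ : M.Cell).1) p := by
      intro p
      obtain ⟨h1, h2, h3⟩ := hδ p
      obtain ⟨i1, i2, i3⟩ := key p
      refine ⟨i1, i2.trans h2, fun hp => ?_⟩
      obtain ⟨j1, j2⟩ := h3 hp
      have hp' : 0 < X.tdim (δ p) := by rw [h2]; exact hp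
      obtain ⟨k1, k2⟩ := i3 hp'
      exact ⟨k1.trans (congrArg (M.M.eval _) j1), k2.trans (congrArg (M.M.eval _) j2)⟩
    refine (RHom.op F k hk (fun p => ⟨M.M.eval (fun v => (γ v).1) (δ p), (key p).1⟩) hm).trans ?_
    show N.M.o k _ = N.M.o k _
    congr 1
    funext p
    exact ih p (hδ p).1 (key p).1

/-- a model of `S` as a model of `E` -/
def RMod.pull [E.Good] (b : Interp E S) (hb : b.Good) (M : RMod S) : RMod E :=
  ⟨M.M.pull b, M.laws, @pull_opLaws _ _ _ b hb M.M M.ops⟩

/-- a morphism of `S`-models as a morphism of `E`-models -/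
def RHom.pull (b : Interp E S) (hb : b.Good) [E.Good] {M N : RMod S} (F : RHom M N) :
    RHom (M.pull b hb) (N.pull b hb) where
  f := F.f
  dim := F.dim
  src := F.src
  tgt := F.tgt
  op := fun k hk γ hγ =>
    RHom.eval (X := ofGlob S (E.ar k)) (γ := γ) (F : M ⟶ N) (fun v _ => hγ v) (b k) (hb.ok k hk) _

/-- restriction of models along an interpretation -/
def pullF (b : Interp E S) (hb : b.Good) [E.Good] : RMod S ⥤ RMod E where
  obj M := M.pull b hb
  map F := RHom.pull b hb F
  map_id := fun _ => rfl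
  map_comp := fun _ _ => rfl

theorem pullF_isW {b : Interp E S} (hb : b.Good) [E.Good] {M N : RMod S} (F : M ⟶ N)
    (hF : RMod.IsW F) : RMod.IsW ((pullF b hb).map F) :=
  hF

end HH
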