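import Pool.Agent.HH.Rank
import Pool.Agent.HH.PullF
import Pool.Agent.HH.Free0

/-!
# HH part 3, module d14: maps out of free computads
-/

set_option autoImplicit false

namespace HH

open Classical CategoryTheory

variable {S : Sig}

/-- the variables of a genuine term have at most its dimension -/
theorem hasVar_dim_lt [S.Strat] {X : Cptd S} {t : S.T X.V} (ht : X.tok t) {m : ℕ}
    (hd : X.tdim t < m) : ∀ v, t.HasVar v → X.dim v < m := by
  induction t with
  | var w =>
    intro v hv
    have e : w = v := hv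
    rw [← e]
    exact hd
  | op k δ ih =>
    rintro v ⟨p, hp⟩
    refine ih p (ht.2 p).1 ?_ v hp
    rw [(ht.2 p).2.1]
    exact lt_of_le_of_lt (Sig.Strat.le k ht.1 p) hd

theorem res_par_mk {X : Cptd S} {p : X.V → Prop} {f g : S.T X.V} (h1 : (X.res p).tok f)
    (h2 : (X.res p).tok g) (h3 : X.tdim f = X.tdim g)
    (h4 : 0 < X.tdim f → X.tsrc f = X.tsrc g ∧ X.ttgt f = X.ttgt g) : (X.res p).Par f g := by
  refine ⟨h1, h2, ?_, fun h0 => ?_⟩
  · show (X.res p).tdim f = (X.res p).tdim g
    rw [res_tdim, res_tdim]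
    exact h3
  · have h0' : 0 < (X.res p).tdim f := h0
    rw [res_tdim] at h0'
    constructor
    · show (X.res p).tsrc f = (X.res p).tsrc g
      rw [res_tsrc, res_tsrc]
      exact (h4 h0').1
    · show (X.res p).ttgt f = (X.res p).ttgt g
      rw [res_ttgt, res_ttgt]
      exact (h4 h0').2

section AL0

variable {L : Type} [Preorder L]

/-- the variables in the boundary of `w` -/
def lowP (S : Sig) (w : FV S L) (v : FV S L) : Prop :=
  FOk v ∧ FV.lab v ≤ FV.lab w ∧ (FR S L).dim v < (FR S L).dim w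

/-- the boundary of a genuine labelled variable -/
theorem FOk.bdry_tok [S.Strat] {w : FV S L} (hw : FOk w) (h0 : 0 < (FR S L).dim w) :
    ((FR S L).res (lowP S w)).tok ((FR S L).src w) ∧
    ((FR S L).res (lowP S w)).tok ((FR S L).tgt w) := by
  obtain ⟨a1, a2, a3, a4, -, a6, a7⟩ := hw.bdry_data h0
  constructor
  · refine (res_tok_iff (X := FR S L) _).2 ⟨a1, fun v hv => ⟨(a6 v hv).1, (a6 v hv).2, ?_⟩⟩
    exact hasVar_dim_lt (X := FR S L) a1 (by omega) v hv
  · refine (res_tok_iff (X := FR S L) _).2 ⟨a2, fun v hv => ⟨(a7 v hv).1, (a7 v hv).2, ?_⟩⟩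
    exact hasVar_dim_lt (X := FR S L) a2 (by omega) v hv

theorem FOk.bdry_par [S.Strat] {w : FV S L} (hw : FOk w) (h0 : 0 < (FR S L).dim w) :
    ((FR S L).res (lowP S w)).Par ((FR S L).src w) ((FR S L).tgt w) ∧
    (FR S L).tdim ((FR S L).src w) + 1 = (FR S L).dim w := by
  obtain ⟨b1, b2⟩ := hw.bdry_tok h0
  obtain ⟨-, -, a3, a4, a5, -, -⟩ := hw.bdry_data h0
  exact ⟨res_par_mk b1 b2 (by omega) a5, a3⟩

/-- compatible families of morphisms -/
structure LFam (V : L ⥤ RMod S) (U : L → Prop) (N : RMod S) where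
  F : ∀ l, U l → (V.obj l ⟶ N)
  dn : ∀ l l', l ≤ l' → U l' → U l
  comp : ∀ l l' (h : l ≤ l') (h' : U l'), V.map (homOfLE h) ≫ F l' h' = F l (dn l l' h h')
  ne : Nonempty N.Cell

namespace LFam

variable {V : L ⥤ RMod S} {U : L → Prop} {N : RMod S}

/-- the values in `N` -/
noncomputable def sb (φ : LFam V U N) (val : (v : FV S L) → (V.obj (FV.lab v)).Cell) (w : FV S L) :
    N.Cell :=
  if h : U (FV.lab w) then RHom.f (φ.F (FV.lab w) h) (val w) else Classical.choice φ.ne

theorem sb_pos (φ : LFam V U N) (val : (v : FV S L) → (V.obj (FV.lab v)).Cell) {w : FV S L}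
    (h : U (FV.lab w)) : φ.sb val w = RHom.f (φ.F (FV.lab w) h) (val w) := dif_pos h

theorem sb_congr (φ : LFam V U N) {val val' : (v : FV S L) → (V.obj (FV.lab v)).Cell} {w : FV S L}
    (h : val w = val' w) : φ.sb val w = φ.sb val' w := by
  unfold sb
  rw [h]

/-- the morphisms into `V.obj l` -/
def below (V : L ⥤ RMod S) (hV : ∀ l, (V.obj l).Ctr) (l : L) :
    LFam V (fun l' => l' ≤ l) (V.obj l) where
  F l' h := V.map (homOfLE h)
  dn _ _ h h' := le_trans h h'
  comp l' l'' h h' := by
    rw [← V.map_comp]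
    rfl
  ne := by
    obtain ⟨x, hx, _⟩ := (hV l).1
    exact ⟨⟨x, hx⟩⟩

/-- the morphisms into the vertex of a cocone -/
def cocone (c : Limits.Cocone V) (hne : Nonempty c.pt.Cell) :
    LFam V (fun _ => True) c.pt where
  F l _ := c.ι.app l
  dn _ _ _ h' := h'
  comp l' l'' h h' := c.w (homOfLE h)
  ne := hne

theorem below_self (hV : ∀ l, (V.obj l).Ctr) (val : (v : FV S L) → (V.obj (FV.lab v)).Cell)
    (v : FV S L) : (below V hV (FV.lab v)).sb val v = val v := by
  rw [sb_pos (below V hV (FV.lab v)) val (w := v) (le_refl (FV.lab v))]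
  have e : (below V hV (FV.lab v)).F (FV.lab v) (le_refl (FV.lab v)) = 𝟙 (V.obj (FV.lab v)) := V.map_id (FV.lab v)
  rw [e]
  rfl

/-- the condition on the value of a variable -/
def LocOk (hV : ∀ l, (V.obj l).Ctr) (val : (v : FV S L) → (V.obj (FV.lab v)).Cell)
    (v : FV S L) : Prop :=
  AsgAt (FR S L) (V.obj (FV.lab v)).M (fun w => ((below V hV (FV.lab v)).sb val w).1) v

theorem LocOk.congr [S.Strat] {hV : ∀ l, (V.obj l).Ctr}
    {val val' : (v : FV S L) → (V.obj (FV.lab v)).Cell} {v : FV S L} (hv : FOk v)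
    (h : ∀ w, (FR S L).dim w < (FR S L).dim v → val w = val' w) (h' : val v = val' v)
    (hl : LocOk hV val v) : LocOk hV val' v := by
  obtain ⟨h1, h2, h3⟩ := hl
  have e : (below V hV (FV.lab v)).sb val v = (below V hV (FV.lab v)).sb val' v := sb_congr _ h'
  refine ⟨?_, ?_, fun h0 => ?_⟩
  · show (V.obj (FV.lab v)).M.ok ((below V hV (FV.lab v)).sb val' v).1
    rw [← e]
    exact h1
  · show (V.obj (FV.lab v)).M.dim ((below V hV (FV.lab v)).sb val' v).1 = _
    rw [← e]
    exact h2
  · obtain ⟨a1, a2⟩ := h3 h0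
    obtain ⟨b1, b2⟩ := hv.bdry_tok h0
    constructor
    · show (V.obj (FV.lab v)).M.src ((below V hV (FV.lab v)).sb val' v).1 = _
      rw [← e]
      refine a1.trans ?_
      exact eval_congr (X := (FR S L).res (lowP S v)) _ b1 (fun w hw => by rw [sb_congr _ (h w hw.2.2)])
    · show (V.obj (FV.lab v)).M.tgt ((below V hV (FV.lab v)).sb val' v).1 = _
      rw [← e]
      refine a2.trans ?_
      exact eval_congr (X := (FR S L).res (lowP S v)) _ b2 (fun w hw => by rw [sb_congr _ (h w hw.2.2)])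

/-- the values form a well-typed substitution -/
theorem key [S.Strat] {hV : ∀ l, (V.obj l).Ctr}
    {val : (v : FV S L) → (V.obj (FV.lab v)).Cell} (m : ℕ)
    (hval : ∀ w, FOk w → (FR S L).dim w < m → LocOk hV val w) :
    ∀ {U : L → Prop} {N : RMod S} (φ : LFam V U N) (w : FV S L), FOk w → U (FV.lab w) →
      (FR S L).dim w < m → AsgAt (FR S L) N.M (fun w => (φ.sb val w).1) w := by
  induction m using Nat.strong_induction_on with
  | _ m ih =>
  intro U N φ w hw hU hm
  have hl := hval w hw hm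
  obtain ⟨h1, h2, h3⟩ := hl
  have e0 : ((below V hV (FV.lab w)).sb val w) = val w := below_self hV val w
  have e1 : φ.sb val w = RHom.f (φ.F (FV.lab w) hU) (val w) := sb_pos φ val hU
  have d2 : (V.obj (FV.lab w)).M.dim (val w).1 = (FR S L).dim w := by
    rw [← e0]
    exact h2
  refine ⟨(φ.sb val w).2, ?_, fun h0 => ?_⟩
  · show N.M.dim (φ.sb val w).1 = _
    rw [e1]
    exact (RHom.dim (φ.F (FV.lab w) hU) (val w)).trans d2
  · have h0' : 0 < (V.obj (FV.lab w)).M.dim (val w).1 := by rw [d2]; exact h0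
    obtain ⟨a1, a2⟩ := h3 h0
    obtain ⟨b1, b2⟩ := hw.bdry_tok h0
    have asg : ∀ v, ((FR S L).res (lowP S w)).ok v →
        AsgAt ((FR S L).res (lowP S w)) (V.obj (FV.lab w)).M
        (fun v => ((below V hV (FV.lab w)).sb val v).1) v := fun v hv =>
      ih ((FR S L).dim w) hm (fun w' hw' hm' => hval w' hw' (lt_trans hm' hm))
        (below V hV (FV.lab w)) v hv.1 hv.2.1 hv.2.2
    have cg : ∀ v, ((FR S L).res (lowP S w)).ok v →
        (RHom.f (φ.F (FV.lab w) hU) ((below V hV (FV.lab w)).sb val v)).1 = (φ.sb val v).1 := by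
      intro v hv
      have hvl : (FV.lab v) ≤ (FV.lab w) := hv.2.1
      rw [sb_pos (below V hV (FV.lab w)) val hvl, sb_pos φ val (φ.dn _ _ hvl hU)]
      rw [← φ.comp (FV.lab v) (FV.lab w) hvl hU]
      rfl
    constructor
    · show N.M.src (φ.sb val w).1 = N.M.eval (fun w => (φ.sb val w).1) ((FR S L).src w)
      rw [e1, RHom.src (φ.F (FV.lab w) hU) (val w) h0']
      have s1 : (V.obj (FV.lab w)).M.src (val w).1 =
          (V.obj (FV.lab w)).M.eval (fun v => ((below V hV (FV.lab w)).sb val v).1) ((FR S L).src w) := by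
        rw [← e0]
        exact a1
      have hok : (V.obj (FV.lab w)).M.ok ((V.obj (FV.lab w)).M.eval
          (fun v => ((below V hV (FV.lab w)).sb val v).1) ((FR S L).src w)) := by
        rw [← s1]
        exact Glob.Laws.ok_src _ (val w).2 h0'
      have s2 : (⟨(V.obj (FV.lab w)).M.src (val w).1, Glob.Laws.ok_src _ (val w).2 h0'⟩ :
          (V.obj (FV.lab w)).Cell) = ⟨(V.obj (FV.lab w)).M.eval
          (fun v => ((below V hV (FV.lab w)).sb val v).1) ((FR S L).src w), hok⟩ := Subtype.ext s1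
      rw [s2]
      exact (RHom.eval (φ.F (FV.lab w) hU) asg _ b1 hok).trans (eval_congr _ b1 cg)
    · show N.M.tgt (φ.sb val w).1 = N.M.eval (fun w => (φ.sb val w).1) ((FR S L).tgt w)
      rw [e1, RHom.tgt (φ.F (FV.lab w) hU) (val w) h0']
      have s1 : (V.obj (FV.lab w)).M.tgt (val w).1 =
          (V.obj (FV.lab w)).M.eval (fun v => ((below V hV (FV.lab w)).sb val v).1) ((FR S L).tgt w) := by
        rw [← e0]
        exact a2
      have hok : (V.obj (FV.lab w)).M.ok ((V.obj (FV.lab w)).M.eval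
          (fun v => ((below V hV (FV.lab w)).sb val v).1) ((FR S L).tgt w)) := by
        rw [← s1]
        exact Glob.Laws.ok_tgt _ (val w).2 h0'
      have s2 : (⟨(V.obj (FV.lab w)).M.tgt (val w).1, Glob.Laws.ok_tgt _ (val w).2 h0'⟩ :
          (V.obj (FV.lab w)).Cell) = ⟨(V.obj (FV.lab w)).M.eval
          (fun v => ((below V hV (FV.lab w)).sb val v).1) ((FR S L).tgt w), hok⟩ := Subtype.ext s1
      rw [s2]
      exact (RHom.eval (φ.F (FV.lab w) hU) asg _ b2 hok).trans (eval_congr _ b2 cg)

end LFam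

/-- the boundaries of the globular variables -/
def ub {n : ℕ} (a : (i : ℕ) → i < n → Bool → L) :
    (i : ℕ) → i < n → Option (ℕ × S.T (FV S L) × S.T (FV S L))
  | 0, _ => none
  | i + 1, hi => some (i, .var (FV.mk (a i (by omega) false) (ub a i (by omega))),
      .var (FV.mk (a i (by omega) true) (ub a i (by omega))))

/-- the globular variables -/
def uv {n : ℕ} (a : (i : ℕ) → i < n → Bool → L) (i : ℕ) (hi : i < n) (ε : Bool) : FV S L :=
  FV.mk (a i hi ε) (ub a i hi)

theorem uv_lab {n : ℕ} (a : (i : ℕ) → i < n → Bool → L) (i : ℕ) (hi : i < n) (ε : Bool) :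
    FV.lab (uv (S := S) a i hi ε) = a i hi ε := FV.lab_mk _ _

theorem uv_dim {n : ℕ} (a : (i : ℕ) → i < n → Bool → L) (i : ℕ) (hi : i < n) (ε : Bool) :
    (FR S L).dim (uv a i hi ε) = i := by
  cases i with
  | zero => exact FR_dim_none _
  | succ i => exact FR_dim_mk _ _ _ _

theorem uv_src {n : ℕ} (a : (i : ℕ) → i < n → Bool → L) (i : ℕ) (hi : i + 1 < n) (ε : Bool) :
    (FR S L).src (uv a (i + 1) hi ε) = .var (uv a i (by omega) false) := FR_src_mk _ _ _ _

theorem uv_tgt {n : ℕ} (a : (i : ℕ) → i < n → Bool → L) (i : ℕ) (hi : i + 1 < n) (ε : Bool) :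
    (FR S L).tgt (uv a (i + 1) hi ε) = .var (uv a i (by omega) true) := FR_tgt_mk _ _ _ _

theorem uv_ok {n : ℕ} (a : (i : ℕ) → i < n → Bool → L)
    (ha : ∀ i (hi : i + 1 < n) (δ ε : Bool), a i (by omega) δ ≤ a (i + 1) hi ε) (i : ℕ) :
    ∀ (hi : i < n) (ε : Bool), FOk (uv (S := S) a i hi ε) := by
  induction i with
  | zero => exact fun hi ε => FOk.pt _
  | succ i ih =>
    intro hi ε
    have h := FOk.cell (S := S) (a (i + 1) hi ε) (.var (uv a i (by omega) false))
      (.var (uv a i (by omega) true)) trivial trivial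
      ((uv_dim a i _ false).trans (uv_dim a i _ true).symm)
      (fun h0 => by
        cases i with
        | zero => exact absurd h0 (lt_irrefl 0)
        | succ i => exact (uv_src a i _ false).trans (uv_src a i _ true).symm)
      (fun h0 => by
        cases i with
        | zero => exact absurd h0 (lt_irrefl 0)
        | succ i => exact (uv_tgt a i _ false).trans (uv_tgt a i _ true).symm)
      (fun v hv => by
        have e : uv a i (by omega) false = v := hv
        rw [← e, uv_lab]
        exact ha i hi false ε)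
      (fun v hv => by
        have e : uv a i (by omega) true = v := hv
        rw [← e, uv_lab]
        exact ha i hi true ε)
      (fun v hv => by
        have e : uv a i (by omega) false = v := hv
        rw [← e]
        exact ih _ _)
      (fun v hv => by
        have e : uv a i (by omega) true = v := hv
        rw [← e]
        exact ih _ _)
    have e : (FR S L).tdim (.var (uv a i (by omega) false)) = i := uv_dim a i _ false
    have e2 : (FV.mk (a (i + 1) hi ε) (some ((FR S L).tdim (.var (uv a i (by omega) false)),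
        .var (uv a i (by omega) false), .var (uv a i (by omega) true))) : FV S L) =
        uv a (i + 1) hi ε :=
      congrArg (fun j => (FV.mk (a (i + 1) hi ε) (some (j, .var (uv a i (by omega) false),
        .var (uv a i (by omega) true))) : FV S L)) e
    exact e2 ▸ h

theorem uv_inj {n : ℕ} {a : (i : ℕ) → i < n → Bool → L}
    (hne : ∀ i hi, a i hi false ≠ a i hi true) {i j : ℕ} {hi : i < n} {hj : j < n} {ε δ : Bool}
    (h : uv (S := S) a i hi ε = uv a j hj δ) : i = j ∧ ε = δ := by
  have h1 : i = j := by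
    have e := congrArg (FR S L).dim h
    rw [uv_dim, uv_dim] at e
    exact e
  subst h1
  refine ⟨rfl, ?_⟩
  have h2 : a i hi ε = a i hi δ := by
    have e := congrArg FV.lab h
    rw [uv_lab, uv_lab] at e
    exact e
  cases ε <;> cases δ
  · rfl
  · exact absurd h2 (hne i hi)
  · exact absurd h2.symm (hne i hi)
  · rfl

theorem heq_cell {V : L ⥤ RMod S} {l l' : L} (h : l' = l) (x : (V.obj l).Cell) :
    ∃ x' : (V.obj l').Cell, HEq x' x := by
  subst h
  exact ⟨x, HEq.rfl⟩

theorem heq_dim {V : L ⥤ RMod S} {l l' : L} (h : l' = l) {x' : (V.obj l').Cell}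
    {x : (V.obj l).Cell} (hx : HEq x' x) : (V.obj l').M.dim x'.1 = (V.obj l).M.dim x.1 := by
  subst h
  cases hx
  rfl

theorem heq_src {V : L ⥤ RMod S} {l l' m m' : L} (h : l' = l) (h0 : m' = m)
    {x' : (V.obj l').Cell} {x : (V.obj l).Cell} (hx : HEq x' x) {y' : (V.obj m').Cell}
    {y : (V.obj m).Cell} (hy : HEq y' y) (hle : m ≤ l) (hle' : m' ≤ l')
    (H : (V.obj l).M.src x.1 = (RHom.f (V.map (homOfLE hle)) y).1) :
    (V.obj l').M.src x'.1 = (RHom.f (V.map (homOfLE hle')) y').1 := by
  subst h h0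
  cases hx
  cases hy
  exact H

theorem heq_tgt {V : L ⥤ RMod S} {l l' m m' : L} (h : l' = l) (h0 : m' = m)
    {x' : (V.obj l').Cell} {x : (V.obj l).Cell} (hx : HEq x' x) {y' : (V.obj m').Cell}
    {y : (V.obj m).Cell} (hy : HEq y' y) (hle : m ≤ l) (hle' : m' ≤ l')
    (H : (V.obj l).M.tgt x.1 = (RHom.f (V.map (homOfLE hle)) y).1) :
    (V.obj l').M.tgt x'.1 = (RHom.f (V.map (homOfLE hle')) y').1 := by
  subst h h0
  cases hx
  cases hy
  exact H

theorem heq_app {V : L ⥤ RMod S} (c : Limits.Cocone V) {l l' : L} (h : l' = l)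
    {x' : (V.obj l').Cell} {x : (V.obj l).Cell} (hx : HEq x' x) :
    RHom.f (c.ι.app l') x' = RHom.f (c.ι.app l) x := by
  subst h
  cases hx
  rfl

open LFam in
/-- the values -/
theorem exists_val [S.Good] [S.Strat] (V : L ⥤ RMod S) (hV : ∀ l, (V.obj l).Ctr)
    (n : ℕ) (a : (i : ℕ) → i < n → Bool → L)
    (ha : ∀ i (hi : i + 1 < n) (δ ε : Bool), a i (by omega) δ ≤ a (i + 1) hi ε)
    (hne : ∀ i hi, a i hi false ≠ a i hi true)
    (e : (i : ℕ) → (hi : i < n) → (ε : Bool) → (V.obj (a i hi ε)).Cell)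
    (hd : ∀ i hi ε, (V.obj (a i hi ε)).M.dim (e i hi ε).1 = i)
    (hs : ∀ i (hi : i + 1 < n) (ε : Bool), (V.obj (a (i + 1) hi ε)).M.src (e (i + 1) hi ε).1 =
      (RHom.f (V.map (homOfLE (ha i hi false ε))) (e i (by omega) false)).1)
    (ht : ∀ i (hi : i + 1 < n) (ε : Bool), (V.obj (a (i + 1) hi ε)).M.tgt (e (i + 1) hi ε).1 =
      (RHom.f (V.map (homOfLE (ha i hi true ε))) (e i (by omega) true)).1) :
    ∃ val : (v : FV S L) → (V.obj (FV.lab v)).Cell, (∀ v, FOk v → LocOk hV val v) ∧
      ∀ i hi ε, HEq (val (uv a i hi ε)) (e i hi ε) := by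
  haveI : ∀ v : FV S L, Nonempty (V.obj (FV.lab v)).Cell := fun v => by
    obtain ⟨x, hx, _⟩ := (hV (FV.lab v)).1
    exact ⟨⟨x, hx⟩⟩
  suffices H : ∃ val : (v : FV S L) → (V.obj (FV.lab v)).Cell, ∀ v, (FOk v → LocOk hV val v ∧
      ∀ i hi ε, v = uv a i hi ε → HEq (val (uv a i hi ε)) (e i hi ε)) by
    obtain ⟨val, hval⟩ := H
    exact ⟨val, fun v hv => (hval v hv).1, fun i hi ε =>
      (hval (uv a i hi ε) (uv_ok a ha i hi ε)).2 i hi ε rfl⟩
  refine exists_ranked (I := FV S L) (FR S L).dim
    (T := fun v => (V.obj (FV.lab v)).Cell)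
    (fun v val => FOk v → LocOk hV val v ∧
      ∀ i hi ε, v = uv a i hi ε → HEq (val (uv a i hi ε)) (e i hi ε)) ?_ ?_
  · intro v t t' h1 h2 h3 hv
    obtain ⟨h4, h5⟩ := h3 hv
    refine ⟨h4.congr hv h1 h2, fun i hi ε hvu => ?_⟩
    subst hvu
    rw [← h2]
    exact h5 i hi ε rfl
  · intro v t hlow
    by_cases hv : FOk v
    swap
    · exact ⟨t, fun _ _ => rfl, fun hv' => absurd hv' hv⟩
    -- it suffices to find the value
    suffices hx : ∃ x : (V.obj (FV.lab v)).Cell, (V.obj (FV.lab v)).M.dim x.1 = (FR S L).dim v ∧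
        (0 < (FR S L).dim v →
          (V.obj (FV.lab v)).M.src x.1 = (V.obj (FV.lab v)).M.eval
            (fun w => ((below V hV (FV.lab v)).sb t w).1) ((FR S L).src v) ∧
          (V.obj (FV.lab v)).M.tgt x.1 = (V.obj (FV.lab v)).M.eval
            (fun w => ((below V hV (FV.lab v)).sb t w).1) ((FR S L).tgt v)) ∧
        ∀ i hi ε (h : v = uv a i hi ε),
          HEq ((Function.update t v x) (uv a i hi ε)) (e i hi ε) by
      obtain ⟨x, x1, x2, x3⟩ := hx
      have hlow' : ∀ w, (FR S L).dim w < (FR S L).dim v → Function.update t v x w = t w := by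
        intro w hw
        refine Function.update_of_ne (β := fun v : FV S L => (V.obj (FV.lab v)).Cell)
          (fun h => ?_) x t
        rw [h] at hw
        exact lt_irrefl _ hw
      refine ⟨Function.update t v x, hlow', fun _ => ⟨?_, x3⟩⟩
      have e0 : (below V hV (FV.lab v)).sb (Function.update t v x) v = x := by
        rw [below_self]
        exact Function.update_self v x t
      refine ⟨((below V hV (FV.lab v)).sb (Function.update t v x) v).2, ?_, fun h0 => ?_⟩
      · show (V.obj (FV.lab v)).M.dim ((below V hV (FV.lab v)).sb (Function.update t v x) v).1 = _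
        rw [e0]
        exact x1
      · obtain ⟨b1, b2⟩ := hv.bdry_tok h0
        have cg : ∀ w, ((FR S L).res (lowP S v)).ok w →
            ((below V hV (FV.lab v)).sb t w).1 =
              ((below V hV (FV.lab v)).sb (Function.update t v x) w).1 := fun w hw => by
          rw [sb_congr (below V hV (FV.lab v)) (hlow' w hw.2.2)]
        constructor
        · show (V.obj (FV.lab v)).M.src ((below V hV (FV.lab v)).sb (Function.update t v x) v).1 = _
          rw [e0]
          exact (x2 h0).1.trans (eval_congr _ b1 cg)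
        · show (V.obj (FV.lab v)).M.tgt ((below V hV (FV.lab v)).sb (Function.update t v x) v).1 = _
          rw [e0]
          exact (x2 h0).2.trans (eval_congr _ b2 cg)
    by_cases hu : ∃ i hi ε, v = uv a i hi ε
    · obtain ⟨i, hi, ε, rfl⟩ := hu
      obtain ⟨x, hx⟩ := heq_cell (uv_lab (S := S) a i hi ε) (e i hi ε)
      refine ⟨x, (heq_dim (uv_lab (S := S) a i hi ε) hx).trans
        ((hd i hi ε).trans (uv_dim a i hi ε).symm), fun h0 => ?_, ?_⟩
      · cases i with
        | zero => exact absurd h0 (lt_irrefl 0)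
        | succ i =>
          have q : ∀ δ, HEq (t (uv a i (by omega) δ)) (e i (by omega) δ) := fun δ =>
            (hlow (uv a i (by omega) δ) (by
              rw [uv_dim, uv_dim]
              exact Nat.lt_succ_self i) (uv_ok a ha i _ δ)).2 i _ δ rfl
          have hle : ∀ δ, FV.lab (uv (S := S) a i (by omega) δ) ≤
              FV.lab (uv (S := S) a (i + 1) hi ε) := fun δ => by
            rw [uv_lab, uv_lab]
            exact ha i hi δ ε
          constructor
          · rw [uv_src]
            show _ = ((below V hV _).sb t (uv a i (by omega) false)).1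
            rw [sb_pos (below V hV _) t (w := uv a i (by omega) false) (hle false)]
            exact heq_src (uv_lab a (i + 1) hi ε) (uv_lab a i _ false) hx (q false)
              (ha i hi false ε) (hle false) (hs i hi ε)
          · rw [uv_tgt]
            show _ = ((below V hV _).sb t (uv a i (by omega) true)).1
            rw [sb_pos (below V hV _) t (w := uv a i (by omega) true) (hle true)]
            exact heq_tgt (uv_lab a (i + 1) hi ε) (uv_lab a i _ true) hx (q true)
              (ha i hi true ε) (hle true) (ht i hi ε)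
      · intro j hj δ h
        obtain ⟨h1, h2⟩ := uv_inj hne h
        subst h1 h2
        rw [Function.update_self]
        exact hx
    · have hu' : ∀ x : (V.obj (FV.lab v)).Cell, ∀ i hi ε (h : v = uv a i hi ε),
          HEq ((Function.update t v x) (uv a i hi ε)) (e i hi ε) :=
        fun x i hi ε h => absurd ⟨i, hi, ε, h⟩ hu
      rcases Nat.eq_zero_or_pos ((FR S L).dim v) with h0 | h0
      · obtain ⟨x, hx, hx0⟩ := (hV (FV.lab v)).1
        exact ⟨⟨x, hx⟩, hx0.trans h0.symm, fun h => absurd h0 (by omega), hu' _⟩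
      · obtain ⟨b1, b2⟩ := hv.bdry_tok h0
        have asg : ∀ w, ((FR S L).res (lowP S v)).ok w →
            AsgAt ((FR S L).res (lowP S v)) (V.obj (FV.lab v)).M
            (fun w => ((below V hV (FV.lab v)).sb t w).1) w := fun w hw =>
          key ((FR S L).dim v) (fun w' hw' hm' => (hlow w' hm' hw').1)
            (below V hV (FV.lab v)) w hw.1 hw.2.1 hw.2.2
        obtain ⟨hpar, hdim⟩ := hv.bdry_par h0
        have hp2 := Par.eval' asg hpar
        obtain ⟨x, hx, hxd, hxs, hxt⟩ := (hV (FV.lab v)).2 _ _ _ hp2 (Nat.lt_succ_self _)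
        refine ⟨⟨x, hx⟩, ?_, fun _ => ⟨hxs, hxt⟩, hu' _⟩
        have d1 : (V.obj (FV.lab v)).M.dim ((V.obj (FV.lab v)).M.eval
            (fun w => ((below V hV (FV.lab v)).sb t w).1) ((FR S L).src v)) =
            (FR S L).tdim ((FR S L).src v) :=
          ((eval_mapAt asg _ b1).2.1).trans (res_tdim _)
        exact hxd.trans ((congrArg (· + 1) d1).trans hdim)

open LFam in
/-- globular families of labels bound cells in the vertex of a cocone -/
theorem AL0 [S.Good] [S.Strat]
    (hL : (FC S L (fun _ => True)).Ctr) (V : L ⥤ RMod S) (hV : ∀ l, (V.obj l).Ctr)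
    (c : Limits.Cocone V) (n : ℕ) (a : (i : ℕ) → i < n → Bool → L)
    (ha : ∀ i (hi : i + 1 < n) (δ ε : Bool), a i (by omega) δ ≤ a (i + 1) hi ε)
    (hne : ∀ i hi, a i hi false ≠ a i hi true)
    (e : (i : ℕ) → (hi : i < n) → (ε : Bool) → (V.obj (a i hi ε)).Cell)
    (hd : ∀ i hi ε, (V.obj (a i hi ε)).M.dim (e i hi ε).1 = i)
    (hs : ∀ i (hi : i + 1 < n) (ε : Bool), (V.obj (a (i + 1) hi ε)).M.src (e (i + 1) hi ε).1 =
      (RHom.f (V.map (homOfLE (ha i hi false ε))) (e i (by omega) false)).1)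
    (ht : ∀ i (hi : i + 1 < n) (ε : Bool), (V.obj (a (i + 1) hi ε)).M.tgt (e (i + 1) hi ε).1 =
      (RHom.f (V.map (homOfLE (ha i hi true ε))) (e i (by omega) true)).1) :
    ∃ x : c.pt.Cell, c.pt.M.dim x.1 = n ∧ ∀ hn : 0 < n,
      c.pt.M.src x.1 = (RHom.f (c.ι.app (a (n - 1) (by omega) false)) (e (n - 1) (by omega) false)).1 ∧
      c.pt.M.tgt x.1 = (RHom.f (c.ι.app (a (n - 1) (by omega) true)) (e (n - 1) (by omega) true)).1 := by
  obtain ⟨val, hval, hpre⟩ := exists_val V hV n a ha hne e hd hs ht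
  obtain ⟨⟨x0, hx0, hx0d⟩, hc⟩ := hL
  -- a cell of the vertex, to have a default value
  have hnec : Nonempty c.pt.Cell := by
    have hL' : ∀ t : S.T (FV S L), Nonempty L := by
      intro t
      induction t with
      | var v => exact ⟨(FV.lab v)⟩
      | op k γ ih =>
        obtain ⟨p⟩ := Sig.Good.ar_ne (S := S) k
        exact ih p
    obtain ⟨l⟩ := hL' x0
    obtain ⟨y, hy, _⟩ := (hV l).1
    exact ⟨RHom.f (c.ι.app l) ⟨y, hy⟩⟩
  have asg : ∀ v, (FC S L (fun _ => True)).ok v →
      AsgAt (FC S L (fun _ => True)) c.pt.M (fun w => ((cocone c hnec).sb val w).1) v :=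
    fun v hv => key ((FR S L).dim v + 1) (fun w hw _ => hval w hw) (cocone c hnec) v hv.1 trivial
      (Nat.lt_succ_self _)
  cases n with
  | zero =>
    obtain ⟨h1, h2, _⟩ := eval_mapAt asg x0 hx0
    exact ⟨⟨_, h1⟩, h2.trans hx0d, fun hn => absurd hn (lt_irrefl 0)⟩
  | succ n =>
    have hpar : (FC S L (fun _ => True)).Par (.var (uv a n (Nat.lt_succ_self n) false))
        (.var (uv a n (Nat.lt_succ_self n) true)) := by
      refine ⟨⟨uv_ok a ha n _ false, trivial⟩, ⟨uv_ok a ha n _ true, trivial⟩,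
        (uv_dim a n _ false).trans (uv_dim a n _ true).symm, fun h0 => ?_⟩
      cases n with
      | zero => exact absurd h0 (lt_irrefl 0)
      | succ n =>
        have e1 : (FR S L).src (uv a (n + 1) (Nat.lt_succ_self (n + 1)) false) =
            (FR S L).src (uv a (n + 1) (Nat.lt_succ_self (n + 1)) true) :=
          (uv_src a n _ false).trans (uv_src a n _ true).symm
        have e2 : (FR S L).tgt (uv a (n + 1) (Nat.lt_succ_self (n + 1)) false) =
            (FR S L).tgt (uv a (n + 1) (Nat.lt_succ_self (n + 1)) true) :=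
          (uv_tgt a n _ false).trans (uv_tgt a n _ true).symm
        exact ⟨e1, e2⟩
    obtain ⟨h, h1, h2, h3, h4⟩ := hc _ _ _ hpar (Nat.lt_succ_self _)
    have h2' : (FC S L (fun _ => True)).m.dim h = n + 1 := h2.trans (congrArg (· + 1)
      (uv_dim a n _ false))
    obtain ⟨i1, i2, i3⟩ := eval_mapAt asg h h1
    obtain ⟨i4, i5⟩ := i3 (by rw [h2']; exact Nat.succ_pos n)
    refine ⟨⟨_, i1⟩, i2.trans h2', fun _ => ⟨?_, ?_⟩⟩
    · refine i4.trans ((congrArg _ h3).trans ?_)
      show ((cocone c hnec).sb val (uv a n _ false)).1 = _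
      rw [sb_pos (cocone c hnec) val (w := uv a n (Nat.lt_succ_self n) false) trivial]
      exact congrArg Subtype.val (heq_app c (uv_lab a n _ false) (hpre n _ false))
    · refine i5.trans ((congrArg _ h4).trans ?_)
      show ((cocone c hnec).sb val (uv a n _ true)).1 = _
      rw [sb_pos (cocone c hnec) val (w := uv a n (Nat.lt_succ_self n) true) trivial]
      exact congrArg Subtype.val (heq_app c (uv_lab a n _ true) (hpre n _ true))

end AL0

end HH
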