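import Pool.Agent.HH.Defs1

/-!
# HH stage 1, module Bd: iterated boundaries
-/

set_option autoImplicit false

namespace HH

open Classical

variable {S : Sig}

section Bd
variable {G : Glob}

theorem bd_of_le (x : G.C) (q : D) (h : G.dim x ≤ q.1) : G.bd x q = x := by
  unfold Glob.bd
  rw [Nat.sub_eq_zero_of_le h]
  rfl

/-- the iterated boundary of codimension `k` -/
private theorem bd_iter [G.Laws] {x : G.C} (hx : G.ok x) (ε : Bool) (k : ℕ) (hk : k ≤ G.dim x) :
    G.ok ((if ε then G.tgt else G.src)^[k] x) ∧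
      G.dim ((if ε then G.tgt else G.src)^[k] x) + k = G.dim x := by
  induction k with
  | zero => exact ⟨hx, rfl⟩
  | succ k ih =>
    obtain ⟨h1, h2⟩ := ih (by omega)
    rw [Function.iterate_succ_apply']
    have h0 : 0 < G.dim ((if ε then G.tgt else G.src)^[k] x) := by omega
    cases ε with
    | false =>
      have h3 := Glob.Laws.dim_src _ h1 h0
      refine ⟨Glob.Laws.ok_src _ h1 h0, ?_⟩
      simp only [Bool.false_eq_true, if_false] at *
      omega
    | true =>
      have h3 := Glob.Laws.dim_tgt _ h1 h0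
      refine ⟨Glob.Laws.ok_tgt _ h1 h0, ?_⟩
      simp only [if_true] at *
      omega

theorem ok_bd [G.Laws] {x : G.C} (hx : G.ok x) (q : D) : G.ok (G.bd x q) :=
  (bd_iter hx q.2 (G.dim x - q.1) (by omega)).1

theorem dim_bd [G.Laws] {x : G.C} (hx : G.ok x) {q : D} (hq : q.1 ≤ G.dim x) :
    G.dim (G.bd x q) = q.1 := by
  have h : G.dim (G.bd x q) + (G.dim x - q.1) = G.dim x :=
    (bd_iter hx q.2 (G.dim x - q.1) (by omega)).2
  omega

theorem bd_pred_false {x : G.C} (h0 : 0 < G.dim x) : G.bd x (G.dim x - 1, false) = G.src x := by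
  unfold Glob.bd
  rw [show G.dim x - (G.dim x - 1, false).1 = 1 from by simp only; omega]
  rfl

theorem bd_pred_true {x : G.C} (h0 : 0 < G.dim x) : G.bd x (G.dim x - 1, true) = G.tgt x := by
  unfold Glob.bd
  rw [show G.dim x - (G.dim x - 1, true).1 = 1 from by simp only; omega]
  rfl

/-- one more boundary in the same direction -/
private theorem bd_same [G.Laws] {x : G.C} (ε : Bool) {i : ℕ} (hi : i + 1 ≤ G.dim x) :
    G.bd x (i, ε) = (if ε then G.tgt else G.src) (G.bd x (i + 1, ε)) := by
  unfold Glob.bd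
  rw [← Function.iterate_succ_apply' (if ε then G.tgt else G.src)]
  congr 2
  change G.dim x - i = G.dim x - (i + 1) + 1
  omega

/-- the boundary of a boundary does not depend on the direction of the inner one -/
private theorem bd_diff [G.Laws] {x : G.C} (hx : G.ok x) (i : ℕ) (hi : i + 1 < G.dim x) :
    G.src (G.bd x (i + 1, true)) = G.src (G.bd x (i + 1, false)) ∧
      G.tgt (G.bd x (i + 1, false)) = G.tgt (G.bd x (i + 1, true)) := by
  obtain ⟨k, hk⟩ : ∃ k, G.dim x = i + 2 + k := ⟨G.dim x - (i + 2), by omega⟩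
  induction k generalizing i with
  | zero =>
    have e1 : G.bd x (i + 1, false) = G.src x := by
      have := bd_pred_false (G := G) (x := x) (by omega)
      rwa [show G.dim x - 1 = i + 1 by omega] at this
    have e2 : G.bd x (i + 1, true) = G.tgt x := by
      have := bd_pred_true (G := G) (x := x) (by omega)
      rwa [show G.dim x - 1 = i + 1 by omega] at this
    rw [e1, e2]
    exact ⟨Glob.Laws.src_tgt _ hx (by omega), Glob.Laws.tgt_src _ hx (by omega)⟩
  | succ k ih =>
    have e1 : G.bd x (i + 1, false) = G.src (G.bd x (i + 2, false)) :=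
      bd_same false (by omega)
    have e2 : G.bd x (i + 1, true) = G.tgt (G.bd x (i + 2, true)) :=
      bd_same true (by omega)
    have h1 := ih (i + 1) (by omega) (by omega)
    have o1 := ok_bd hx (i + 2, false)
    have o2 := ok_bd hx (i + 2, true)
    have d1 := dim_bd hx (q := (i + 2, false)) (by change i + 2 ≤ _; omega)
    have d2 := dim_bd hx (q := (i + 2, true)) (by change i + 2 ≤ _; omega)
    have d1' : G.dim (G.bd x (i + 2, false)) = i + 2 := d1
    have d2' : G.dim (G.bd x (i + 2, true)) = i + 2 := d2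
    rw [e1, e2]
    constructor
    · rw [Glob.Laws.src_tgt _ o2 (by omega), h1.1]
    · rw [Glob.Laws.tgt_src _ o1 (by omega), h1.2]

theorem src_bd [G.Laws] {x : G.C} (hx : G.ok x) {q : D} (hq : q.1 ≤ G.dim x) (h0 : 0 < q.1) :
    G.src (G.bd x q) = G.bd x (q.1 - 1, false) := by
  obtain ⟨i, ε⟩ := q
  simp only at hq h0
  obtain ⟨i, rfl⟩ : ∃ k, i = k + 1 := ⟨i - 1, by omega⟩
  change G.src (G.bd x (i + 1, ε)) = G.bd x (i, false)
  rw [bd_same false (by omega)]
  rcases Nat.lt_or_ge (i + 1) (G.dim x) with h | h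
  · cases ε with
    | false => rfl
    | true => exact (bd_diff hx i h).1
  · rw [bd_of_le x (i + 1, ε) h, bd_of_le x (i + 1, false) h]
    rfl

theorem tgt_bd [G.Laws] {x : G.C} (hx : G.ok x) {q : D} (hq : q.1 ≤ G.dim x) (h0 : 0 < q.1) :
    G.tgt (G.bd x q) = G.bd x (q.1 - 1, true) := by
  obtain ⟨i, ε⟩ := q
  simp only at hq h0
  obtain ⟨i, rfl⟩ : ∃ k, i = k + 1 := ⟨i - 1, by omega⟩
  change G.tgt (G.bd x (i + 1, ε)) = G.bd x (i, true)
  rw [bd_same true (by omega)]
  rcases Nat.lt_or_ge (i + 1) (G.dim x) with h | h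
  · cases ε with
    | false => exact (bd_diff hx i h).2
    | true => rfl
  · rw [bd_of_le x (i + 1, ε) h, bd_of_le x (i + 1, true) h]
    rfl

theorem bd_bd [G.Laws] {x : G.C} (hx : G.ok x) {q : D} (hq : q.1 ≤ G.dim x) (r : D) :
    G.bd (G.bd x q) r = G.bd x (bdD q r) := by
  unfold bdD
  by_cases hr : r.1 < q.1
  · rw [if_pos hr]
    have hd := dim_bd hx hq
    -- induct on the difference
    obtain ⟨i, ε⟩ := r
    simp only at hr
    obtain ⟨k, hk⟩ : ∃ k, q.1 = i + 1 + k := ⟨q.1 - (i + 1), by omega⟩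
    induction k generalizing i with
    | zero =>
      have hi : i = q.1 - 1 := by omega
      cases ε with
      | false =>
        have := bd_pred_false (G := G) (x := G.bd x q) (by omega)
        rw [hd] at this
        rw [hi, this, src_bd hx hq (by omega)]
      | true =>
        have := bd_pred_true (G := G) (x := G.bd x q) (by omega)
        rw [hd] at this
        rw [hi, this, tgt_bd hx hq (by omega)]
    | succ k ih =>
      rw [bd_same ε (by omega), ih (i + 1) (by omega) (by omega), ← bd_same ε (by omega)]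
  · rw [if_neg hr]
    exact bd_of_le _ _ (by rw [dim_bd hx hq]; omega)

/-- boundary of the source and of the target -/
theorem bd_src [G.Laws] {x : G.C} (hx : G.ok x) (h0 : 0 < G.dim x) {r : D} (hr : r.1 + 1 < G.dim x) :
    G.bd (G.src x) r = G.bd x r := by
  rw [← bd_pred_false h0, bd_bd hx (by change G.dim x - 1 ≤ _; omega)]
  unfold bdD
  rw [if_pos (by change r.1 < G.dim x - 1; omega)]

theorem bd_tgt [G.Laws] {x : G.C} (hx : G.ok x) (h0 : 0 < G.dim x) {r : D} (hr : r.1 + 1 < G.dim x) :
    G.bd (G.tgt x) r = G.bd x r := by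
  rw [← bd_pred_true h0, bd_bd hx (by change G.dim x - 1 ≤ _; omega)]
  unfold bdD
  rw [if_pos (by change r.1 < G.dim x - 1; omega)]

/-- parallel cells have the same boundary -/
theorem Par.bd_eq [G.Laws] {x y : G.C} (h : G.Par x y) {r : D} (hr : r.1 < G.dim x) :
    G.bd x r = G.bd y r := by
  obtain ⟨hx, hy, hd, hb⟩ := h
  obtain ⟨e1, e2⟩ := hb (by omega)
  rcases Nat.lt_or_ge (r.1 + 1) (G.dim x) with h1 | h1
  · rw [← bd_src hx (by omega) h1, e1, bd_src hy (by omega) (by omega)]
  · obtain ⟨i, ε⟩ := r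
    simp only at hr h1
    have hi : i = G.dim x - 1 := by omega
    have hi' : i = G.dim y - 1 := by omega
    cases ε with
    | false =>
      have k1 := bd_pred_false (G := G) (x := x) (by omega)
      have k2 := bd_pred_false (G := G) (x := y) (by omega)
      rw [← hi] at k1
      rw [← hi'] at k2
      rw [k1, k2, e1]
    | true =>
      have k1 := bd_pred_true (G := G) (x := x) (by omega)
      have k2 := bd_pred_true (G := G) (x := y) (by omega)
      rw [← hi] at k1
      rw [← hi'] at k2
      rw [k1, k2, e2]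

theorem diskG_bd (j : ℕ) (q r : D) : (diskG j).bd q r = bdD q r := by
  have key : ∀ (k : ℕ) (ε : Bool), k ≤ q.1 → 0 < k →
      (if ε then (diskG j).tgt else (diskG j).src)^[k] q = (q.1 - k, ε) := by
    intro k ε
    induction k with
    | zero => intro _ h; omega
    | succ k ih =>
      intro hk _
      rw [Function.iterate_succ_apply']
      rcases Nat.eq_zero_or_pos k with h | h
      · subst h
        cases ε <;> rfl
      · rw [ih (by omega) h]
        cases ε
        · change (q.1 - k - 1, false) = _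
          congr 1
        · change (q.1 - k - 1, true) = _
          congr 1
  unfold bdD
  by_cases hr : r.1 < q.1
  · rw [if_pos hr]
    unfold Glob.bd
    have h1 : (diskG j).dim q = q.1 := rfl
    rw [h1, key (q.1 - r.1) r.2 (by omega) (by omega)]
    have : q.1 - (q.1 - r.1) = r.1 := by omega
    rw [this]
  · rw [if_neg hr]
    exact bd_of_le _ _ (by change q.1 ≤ r.1; omega)

/-- the map from the disk classified by a cell -/
theorem bd_mapAt [G.Laws] {x : G.C} (hx : G.ok x) {q : D} (hq : (diskG (G.dim x)).ok q) :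
    MapAt (diskG (G.dim x)) G (G.bd x) q := by
  have hq' : q.1 ≤ G.dim x := by
    rcases hq with h | h
    · omega
    · omega
  refine ⟨ok_bd hx q, dim_bd hx hq', fun h0 => ⟨src_bd hx hq' h0, tgt_bd hx hq' h0⟩⟩

theorem map_bd' {H : Glob} [G.Laws] {f : G.C → H.C} {x : G.C} (hx : G.ok x)
    (hf : ∀ r : D, r.1 ≤ G.dim x → MapAt G H f (G.bd x r)) (q : D) :
    f (G.bd x q) = H.bd (f x) q := by
  have hd : H.dim (f x) = G.dim x := by
    have := (hf (G.dim x, false) (le_refl _)).2.1
    rwa [bd_of_le x _ (le_refl _)] at this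
  rcases Nat.lt_or_ge q.1 (G.dim x) with h | h
  · obtain ⟨i, ε⟩ := q
    simp only at h
    obtain ⟨k, hk⟩ : ∃ k, G.dim x = i + 1 + k := ⟨G.dim x - (i + 1), by omega⟩
    have hH : ∀ (i : ℕ), i + 1 ≤ H.dim (f x) →
        H.bd (f x) (i, ε) = (if ε then H.tgt else H.src) (H.bd (f x) (i + 1, ε)) := by
      intro i hi
      unfold Glob.bd
      rw [← Function.iterate_succ_apply' (if ε then H.tgt else H.src)]
      congr 2
      change H.dim (f x) - i = H.dim (f x) - (i + 1) + 1
      omega
    have hG : ∀ (i : ℕ), i + 1 ≤ G.dim x → f (G.bd x (i, ε)) =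
        (if ε then H.tgt else H.src) (f (G.bd x (i + 1, ε))) := by
      intro i hi
      obtain ⟨-, -, h3⟩ := hf (i + 1, ε) hi
      have hdb := dim_bd hx (q := (i + 1, ε)) hi
      obtain ⟨k1, k2⟩ := h3 (by rw [hdb]; exact Nat.succ_pos i)
      rw [bd_same ε hi]
      cases ε with
      | false => exact k1.symm
      | true => exact k2.symm
    induction k generalizing i with
    | zero =>
      rw [hG i (by omega), hH i (by omega), bd_of_le x (i + 1, ε) (by change _ ≤ i + 1; omega),
        bd_of_le (f x) (i + 1, ε) (by change _ ≤ i + 1; omega)]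
    | succ k ih =>
      rw [hG i (by omega), hH i (by omega), ih (i + 1) (by omega) (by omega)]
  · rw [bd_of_le x q h, bd_of_le (f x) q (by omega)]

theorem map_bd {H : Glob} [G.Laws] {f : G.C → H.C} {x : G.C} (hx : G.ok x)
    (hf : ∀ y, G.ok y → G.dim y ≤ G.dim x → MapAt G H f y) (q : D) :
    f (G.bd x q) = H.bd (f x) q :=
  map_bd' hx (fun r hr => hf _ (ok_bd hx r) (by rw [dim_bd hx hr]; exact hr)) q

end Bd

end HH
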