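import Pool.Agent.HH.Defs1

/-!
# HH stage 1, module Retract: contractibility passes to retracts
-/

set_option autoImplicit false

namespace HH

open Classical

variable {S : Sig}

theorem Glob.Par.symm {G : Glob} {x y : G.C} (h : G.Par x y) : G.Par y x := by
  obtain ⟨h1, h2, h3, h4⟩ := h
  refine ⟨h2, h1, h3.symm, fun h0 => ?_⟩
  obtain ⟨h5, h6⟩ := h4 (by omega)
  exact ⟨h5.symm, h6.symm⟩

theorem Glob.MContr.mono {G : Glob} {L L' : ℕ} (h : G.MContr L) (hL : L' ≤ L) : G.MContr L' :=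
  fun x y hp hd => h x y hp (by omega)

/-- connected cells are sent to connected cells -/
theorem Conn.eval [S.Strat] {X : Cptd S} {M : Model S} [M.OpLaws] {L : ℕ} {γ : X.V → M.C}
    (hγ : IsAsg (L + 1) X M γ) {f g : S.T X.V} (ht : X.tok f) (hf : X.tdim f < L)
    (h : X.Conn f g) : M.toGlob.Conn (M.eval γ f) (M.eval γ g) := by
  obtain ⟨k, h1, h2, h3, h4⟩ := h
  have hd : X.tdim k = X.tdim f + 1 := h2
  have hmap := eval_isMap hγ
  obtain ⟨m1, m2, m3⟩ := hmap k h1 (by change X.tdim k < L + 1; omega)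
  obtain ⟨m4, m5⟩ := m3 (by change 0 < X.tdim k; omega)
  have hs : X.tsrc k = f := h3
  have htt : X.ttgt k = g := h4
  have n2 : M.dim (M.eval γ f) = X.tdim f :=
    (hmap f ht (by change X.tdim f < L + 1; omega)).2.1
  refine ⟨M.eval γ k, m1, ?_, ?_, ?_⟩
  · have h5 : M.dim (M.eval γ k) = X.tdim k := m2
    rw [h5, hd, n2]
  · rw [m4]
    exact congrArg _ hs
  · rw [m5]
    exact congrArg _ htt

/-- parallel cells are sent to parallel cells -/
theorem Par.eval [S.Strat] {X : Cptd S} {M : Model S} [M.OpLaws] {L : ℕ} {γ : X.V → M.C}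
    (hγ : IsAsg L X M γ) {f g : S.T X.V} (hf : X.tdim f < L) (h : X.Par f g) :
    M.toGlob.Par (M.eval γ f) (M.eval γ g) := by
  obtain ⟨h1, h2, h3, h4⟩ := h
  have hd : X.tdim f = X.tdim g := h3
  obtain ⟨a1, a2, a3⟩ := eval_isMap hγ f h1 hf
  obtain ⟨b1, b2, b3⟩ := eval_isMap hγ g h2 (by change X.tdim g < L; omega)
  have a2' : M.dim (M.eval γ f) = X.tdim f := a2
  have b2' : M.dim (M.eval γ g) = X.tdim g := b2
  refine ⟨a1, b1, by rw [a2', b2', hd], fun h0 => ?_⟩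
  have h0' : 0 < X.tdim f := by omega
  obtain ⟨e1, e2⟩ := h4 h0'
  obtain ⟨a4, a5⟩ := a3 h0'
  obtain ⟨b4, b5⟩ := b3 (by change 0 < X.tdim g; omega)
  refine ⟨?_, ?_⟩
  · rw [a4, b4]
    exact congrArg _ e1
  · rw [a5, b5]
    exact congrArg _ e2

theorem MContr.of_retract [S.Strat] {L : ℕ} {X Y : Cptd S} (σ : X.V → S.T Y.V)
    (τ : Y.V → S.T X.V) (hσ : IsAsg L X Y.m σ) (hτ : IsAsg (L + 1) Y X.m τ)
    (h : ∀ v, X.ok v → X.dim v < L → (σ v).bind τ = .var v) (hY : Y.MContr L) : X.MContr L := by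
  intro f g hp hd
  have hd' : X.tdim f < L := hd
  obtain ⟨hf, hg, hfg, -⟩ := id hp
  have hdg : X.tdim g < L := by
    have : X.tdim f = X.tdim g := hfg
    omega
  have hid : ∀ t : S.T X.V, X.tok t → X.tdim t < L → (t.bind σ).bind τ = t := by
    intro t ht htL
    rw [Tm.bind_bind]
    exact (bind_congr_lt t ht htL h).trans (Tm.bind_var_self t)
  have h1 : Y.Par (f.bind σ) (g.bind σ) := Par.eval (M := Y.m) hσ hd' hp
  have h2 : Y.tdim (f.bind σ) = X.tdim f := (eval_isMap (M := Y.m) hσ f hf hd').2.1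
  have h3 : Y.Conn (f.bind σ) (g.bind σ) := hY _ _ h1 (by change Y.tdim (f.bind σ) < L; omega)
  have h4 : X.Conn ((f.bind σ).bind τ) ((g.bind σ).bind τ) :=
    Conn.eval (M := X.m) hτ h1.1 (by omega) h3
  rwa [hid f hf hd', hid g hg hdg] at h4

end HH
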