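import Pool.Agent.HH.Bd
import Pool.Agent.HH.Retract

/-!
# HH stage 1, module 7: the inserted and the whiskered globular sets
-/

set_option autoImplicit false

namespace HH

open Classical

variable {S : Sig}

instance insG_laws (a : Glob) [a.Laws] (n : ℕ) : (insG a n).Laws where
  ok_src := by
    rintro (p | v | v) h h0
    · have h1 := Glob.Laws.ok_src p h h0
      have h2 := Glob.Laws.dim_src p h h0
      show (insG a n).ok (if a.dim p = n + 1 then .top (a.src p) else .z (a.src p))
      split_ifs with h3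
      · exact ⟨h1, by omega⟩
      · exact h1
    · exact Glob.Laws.ok_src v h.1 h0
    · exact h.1
  ok_tgt := by
    rintro (p | v | v) h h0
    · exact Glob.Laws.ok_tgt p h h0
    · exact Glob.Laws.ok_tgt v h.1 h0
    · exact h
  dim_src := by
    rintro (p | v | v) h h0
    · have h2 := Glob.Laws.dim_src p h h0
      show (insG a n).dim (if a.dim p = n + 1 then .top (a.src p) else .z (a.src p)) + 1 = a.dim p
      split_ifs with h3
      · exact h2
      · exact h2
    · exact Glob.Laws.dim_src v h.1 h0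
    · rfl
  dim_tgt := by
    rintro (p | v | v) h h0
    · exact Glob.Laws.dim_tgt p h h0
    · exact Glob.Laws.dim_tgt v h.1 h0
    · rfl
  src_tgt := by
    rintro (p | v | v) h h0
    · have h0' : 1 < a.dim p := h0
      have h1 := Glob.Laws.dim_src p h (by omega)
      have h2 := Glob.Laws.dim_tgt p h (by omega)
      have h4 := Glob.Laws.src_tgt p h h0
      show (if a.dim (a.tgt p) = n + 1 then CV.top (a.src (a.tgt p)) else .z (a.src (a.tgt p))) =
        (insG a n).src (if a.dim p = n + 1 then .top (a.src p) else .z (a.src p))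
      by_cases h3 : a.dim p = n + 1
      · rw [if_pos h3, if_neg (by omega)]
        exact congrArg CV.z h4
      · rw [if_neg h3, h4]
        show _ = (if a.dim (a.src p) = n + 1 then CV.top (a.src (a.src p)) else .z (a.src (a.src p)))
        have h5 : a.dim (a.tgt p) = a.dim (a.src p) := by omega
        rw [h5]
    · obtain ⟨h, hn⟩ := h
      have h0' : 1 < a.dim v := h0
      have h1 := Glob.Laws.dim_src v h (by omega)
      have h2 := Glob.Laws.dim_tgt v h (by omega)
      have h4 := Glob.Laws.src_tgt v h h0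
      show (if a.dim (a.tgt v) = n + 1 then CV.top (a.src (a.tgt v)) else .z (a.src (a.tgt v))) =
        (if a.dim (a.src v) = n + 1 then CV.top (a.src (a.src v)) else .z (a.src (a.src v)))
      rw [if_neg (by omega), if_neg (by omega), h4]
    · obtain ⟨h, hn⟩ := h
      show CV.z (a.src v) = (if a.dim v = n + 1 then CV.top (a.src v) else .z (a.src v))
      rw [if_neg (by omega)]
  tgt_src := by
    rintro (p | v | v) h h0
    · have h4 := Glob.Laws.tgt_src p h h0
      show (insG a n).tgt (if a.dim p = n + 1 then .top (a.src p) else .z (a.src p)) =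
        CV.z (a.tgt (a.tgt p))
      split_ifs with h3
      · exact congrArg CV.z h4
      · exact congrArg CV.z h4
    · exact congrArg CV.z (Glob.Laws.tgt_src v h.1 h0)
    · rfl

instance whiskG_laws (a : Glob) [a.Laws] (n : ℕ) : (whiskG a n).Laws where
  ok_src := by
    rintro (p | v | v) h h0
    · exact Glob.Laws.ok_src p h h0
    · exact Glob.Laws.ok_src v h.1 h0
    · exact h.1
  ok_tgt := by
    rintro (p | v | v) h h0
    · exact Glob.Laws.ok_tgt p h h0
    · exact Glob.Laws.ok_tgt v h.1 h0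
    · exact h
  dim_src := by
    rintro (p | v | v) h h0
    · exact Glob.Laws.dim_src p h h0
    · exact Glob.Laws.dim_src v h.1 h0
    · rfl
  dim_tgt := by
    rintro (p | v | v) h h0
    · exact Glob.Laws.dim_tgt p h h0
    · exact Glob.Laws.dim_tgt v h.1 h0
    · rfl
  src_tgt := by
    rintro (p | v | v) h h0
    · exact congrArg CV.z (Glob.Laws.src_tgt p h h0)
    · exact congrArg CV.z (Glob.Laws.src_tgt v h.1 h0)
    · rfl
  tgt_src := by
    rintro (p | v | v) h h0
    · exact congrArg CV.z (Glob.Laws.tgt_src p h h0)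
    · exact congrArg CV.z (Glob.Laws.tgt_src v h.1 h0)
    · rfl

theorem ArCl.laws [S.Good] {a : Glob} (h : ArCl S a) : a.Laws := by
  induction h with
  | ar k hk => exact Sig.Good.ar_laws k hk
  | disk j => exact diskG_laws j
  | ins a n _ ih =>
    have := ih
    exact insG_laws a n

/-- functoriality of `insG` -/
theorem insG_map {a b : Glob} {f : a.C → b.C} (hf : ∀ p, a.ok p → MapAt a b f p) (n : ℕ) :
    ∀ v, (insG a n).ok v → MapAt (insG a n) (insG b n) (CV.map f f) v := by
  rintro (p | v | v) h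
  · obtain ⟨h1, h2, h3⟩ := hf p h
    refine ⟨h1, h2, fun h0 => ?_⟩
    obtain ⟨h4, h5⟩ := h3 h0
    refine ⟨?_, congrArg CV.z h5⟩
    show (if b.dim (f p) = n + 1 then CV.top (b.src (f p)) else .z (b.src (f p))) =
      CV.map f f (if a.dim p = n + 1 then .top (a.src p) else .z (a.src p))
    rw [h2, h4]
    split_ifs <;> rfl
  · obtain ⟨h, hn⟩ := h
    obtain ⟨h1, h2, h3⟩ := hf v h
    refine ⟨⟨h1, h2.trans hn⟩, h2, fun h0 => ?_⟩
    obtain ⟨h4, h5⟩ := h3 h0
    exact ⟨congrArg CV.z h4, congrArg CV.z h5⟩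
  · obtain ⟨h, hn⟩ := h
    obtain ⟨h1, h2, h3⟩ := hf v h
    exact ⟨⟨h1, h2.trans hn⟩, congrArg (· + 1) h2, fun h0 => ⟨rfl, rfl⟩⟩

theorem whiskG_map {a b : Glob} {f : a.C → b.C} (hf : ∀ p, a.ok p → MapAt a b f p) (n : ℕ) :
    ∀ v, (whiskG a n).ok v → MapAt (whiskG a n) (whiskG b n) (CV.map f f) v := by
  rintro (p | v | v) h
  · obtain ⟨h1, h2, h3⟩ := hf p h
    refine ⟨h1, h2, fun h0 => ?_⟩
    obtain ⟨h4, h5⟩ := h3 h0
    exact ⟨congrArg CV.z h4, congrArg CV.z h5⟩
  · obtain ⟨h, hn⟩ := h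
    obtain ⟨h1, h2, h3⟩ := hf v h
    refine ⟨⟨h1, h2.trans hn⟩, h2, fun h0 => ?_⟩
    obtain ⟨h4, h5⟩ := h3 h0
    exact ⟨congrArg CV.z h4, congrArg CV.z h5⟩
  · obtain ⟨h, hn⟩ := h
    obtain ⟨h1, h2, h3⟩ := hf v h
    exact ⟨⟨h1, h2.trans hn⟩, congrArg (· + 1) h2, fun h0 => ⟨rfl, rfl⟩⟩

/-- the map `U_{dim p} ⟶ Z(a)` classified by a cell `p` of `a` -/
theorem U_map {a : Glob} [a.Laws] {p : a.C} (hp : a.ok p) (n : ℕ) (v : CV D D)
    (hv : (U S n (a.dim p)).ok v) :
    MapAt (insG (diskG (a.dim p)) n) (insG a n) (CV.map (a.bd p) (a.bd p)) v :=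
  insG_map (a := diskG (a.dim p)) (f := a.bd p) (fun _ hq => bd_mapAt hp hq) n v hv

/-- comparison of the whiskered globular set with the first stage of the cylinder -/
theorem InsG_cmp {x : XFam S} {n : ℕ} (hx : x n = .var (.z (n, false)))
    {a : Glob} [a.Laws] (v : CV a.C a.C) (hv : (whiskG a n).ok v) :
    (CylG x a n (n + 1)).ok v ∧ (0 < (whiskG a n).dim v →
      (CylG x a n (n + 1)).src v = .var ((whiskG a n).src v) ∧
      (CylG x a n (n + 1)).tgt v = .var ((whiskG a n).tgt v)) := by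
  rcases v with p | v | v
  · exact ⟨hv, fun _ => ⟨rfl, rfl⟩⟩
  · obtain ⟨h, hn⟩ := hv
    refine ⟨⟨h, by omega, by omega⟩, fun h0 => ?_⟩
    have h0' : 0 < a.dim v := h0
    have h1 := Glob.Laws.dim_src v h h0'
    have h2 := Glob.Laws.dim_tgt v h h0'
    constructor
    · show tp (ofGlob S a) a .var n (a.src v) = _
      unfold tp
      rw [if_neg (by omega)]
      rfl
    · show tp (ofGlob S a) a .var n (a.tgt v) = _
      unfold tp
      rw [if_neg (by omega)]
      rfl
  · obtain ⟨h, hn⟩ := hv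
    refine ⟨⟨h, by omega, by omega⟩, fun h0 => ⟨?_, rfl⟩⟩
    show (x (a.dim v)).bind _ = Tm.var (CV.z v)
    rw [hn, hx]
    show Tm.map (Tm.var (a.bd v (n, false))) CV.z = Tm.var (CV.z v)
    rw [bd_of_le v (n, false) (by simp [hn])]
    rfl

/-- first stage of the cylinder on `a` -/
theorem CylG_of_whisk [S.Good] [S.Strat] {x : XFam S} {n : ℕ} (hx : x n = .var (.z (n, false)))
    {a : Glob} [a.Laws] {L : ℕ} (h : (Wh S a n).MContr L) : (CylG x a n (n + 1)).MContr L := by
  refine MContr.of_retract (X := CylG x a n (n + 1)) (Y := Wh S a n) Tm.var Tm.var ?_ ?_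
    (fun v _ _ => rfl) h
  · intro v hv _
    have hv' : (whiskG a n).ok v := by
      rcases v with p | v | v
      · exact hv
      · exact ⟨hv.1, by have := hv.2.1; have := hv.2.2; omega⟩
      · exact ⟨hv.1, by have := hv.2.1; have := hv.2.2; omega⟩
    obtain ⟨h1, h2⟩ := InsG_cmp (S := S) hx v hv'
    have hd : (whiskG a n).dim v = (CylG x a n (n + 1)).dim v := by
      rcases v with p | v | v <;> rfl
    refine ⟨hv', hd, fun h0 => ?_⟩
    rw [← hd] at h0
    obtain ⟨h3, h4⟩ := h2 h0
    rw [h3, h4]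
    exact ⟨rfl, rfl⟩
  · intro v hv _
    obtain ⟨h1, h2⟩ := InsG_cmp (S := S) hx v hv
    have hd : (CylG x a n (n + 1)).dim v = (whiskG a n).dim v := by
      rcases v with p | v | v <;> rfl
    refine ⟨h1, hd, fun h0 => ?_⟩
    exact h2 h0

end HH
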