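import Pool.Agent.HH.Rank
import Pool.Agent.HH.Bd
import Pool.Agent.HH.InsG

/-!
# HH stage 1, module CFam: the whiskering family
-/

set_option autoImplicit false

namespace HH

open Classical

variable {S : Sig}

theorem cfam_map {G H : Glob} {f : G.C → H.C} (hf : ∀ p, G.ok p → MapAt G H f p)
    {t : S.T G.C} (ht : (ofGlob S G).tok t) :
    (ofGlob S H).tok (t.map f) ∧ (ofGlob S H).tdim (t.map f) = (ofGlob S G).tdim t ∧
      (0 < (ofGlob S G).tdim t →
        (ofGlob S H).tsrc (t.map f) = ((ofGlob S G).tsrc t).map f ∧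
        (ofGlob S H).ttgt (t.map f) = ((ofGlob S G).ttgt t).map f) :=
  eval_mapAt (X := ofGlob S G) (M := (ofGlob S H).m) (γ := fun v => .var (f v))
    (fun v hv => ⟨(hf v hv).1, (hf v hv).2.1, fun h0 =>
      ⟨congrArg Tm.var ((hf v hv).2.2 h0).1, congrArg Tm.var ((hf v hv).2.2 h0).2⟩⟩) t ht

theorem cfam_map_map {A B E : Type} (t : S.T A) (f : A → B) (g : B → E) :
    (t.map f).map g = t.map (fun v => g (f v)) := Tm.map_bind t f _

theorem cfam_bdD_bdD {q r : D} (h : r.1 < q.1) (s : D) : bdD q (bdD r s) = bdD r s := by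
  unfold bdD
  by_cases h1 : s.1 < r.1
  · rw [if_pos h1, if_pos (by omega)]
  · rw [if_neg h1, if_pos h]

theorem cfam_CV {q r : D} (h : r.1 < q.1) (v : CV D D) :
    CV.map (bdD q) (bdD q) (CV.map (bdD r) (bdD r) v) = CV.map (bdD r) (bdD r) v := by
  cases v <;> simp [cfam_bdD_bdD h]

theorem cfam_zeta (n : ℕ) {j : ℕ} {q : D} (hq : (diskG j).ok q) (v : CV D D)
    (hv : (U S n q.1).ok v) :
    MapAt (insG (diskG q.1) n) (insG (diskG j) n) (CV.map (bdD q) (bdD q)) v := by
  have h := U_map (S := S) (a := diskG j) (p := q) hq n v hv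
  have e : (diskG j).bd q = bdD q := funext fun r => diskG_bd j q r
  rw [e] at h
  exact h

theorem exists_c [S.Good] [S.Strat] (h : S.Hyp) (n : ℕ) : ∃ c : XFam S, CGood c n := by
  have hne : Nonempty (S.T (CV D D)) := ⟨.var (.z (0, false))⟩
  suffices hmain : ∃ c : XFam S, ∀ j, (j = n → c j = .var (.z (n, false))) ∧
      (n ≤ j → CGoodAt c n j) by
    obtain ⟨c, hc⟩ := hmain
    exact ⟨c, ⟨(hc n).1 rfl, fun j hj => (hc j).2 hj⟩⟩
  refine exists_ranked (I := ℕ) (fun j => j) (T := fun _ => S.T (CV D D))
    (fun j c => (j = n → c j = .var (.z (n, false))) ∧ (n ≤ j → CGoodAt c n j)) ?_ ?_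
  · intro j t t' h1 h2 h3
    refine ⟨fun hj => h2 ▸ h3.1 hj, fun hj => ?_⟩
    have h4 := h3.2 hj
    unfold CGoodAt at h4 ⊢
    rw [← h2]
    refine ⟨h4.1, h4.2.1, fun hnj => ?_⟩
    rw [← h1 (j - 1) (by show j - 1 < j; omega)]
    exact h4.2.2 hnj
  · intro j t hlow
    rcases Nat.lt_trichotomy j n with hj | hj | hj
    · exact ⟨t, fun _ _ => rfl, fun h1 => by omega, fun h1 => by omega⟩
    · refine ⟨Function.update t j (.var (.z (n, false))), fun i hi => ?_, fun _ => ?_, fun _ => ?_⟩
      · have hi' : i < j := hi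
        exact Function.update_of_ne (by omega) _ _
      · exact Function.update_self ..
      · unfold CGoodAt
        rw [Function.update_self]
        refine ⟨?_, ?_, fun h1 => by omega⟩
        · subst hj
          right
          exact ⟨rfl, rfl⟩
        · exact hj.symm
    · have hP : CGoodAt t n (j - 1) := (hlow (j - 1) (by show j - 1 < j; omega)).2 (by omega)
      have hbase : j - 1 = n → t (j - 1) = .var (.z (n, false)) :=
        (hlow (j - 1) (by show j - 1 < j; omega)).1
      obtain ⟨p1, p2, p3⟩ := hP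
      have hok : ∀ ε : Bool, (diskG j).ok (j - 1, ε) := fun ε => Or.inl (by
        show j - 1 < j
        omega)
      have hs : ∀ ε : Bool, (U S n j).tok ((t (j - 1)).map (CV.map (bdD (j - 1, ε)) (bdD (j - 1, ε))))
          ∧ (U S n j).tdim ((t (j - 1)).map (CV.map (bdD (j - 1, ε)) (bdD (j - 1, ε)))) = j - 1 ∧
          (0 < j - 1 →
            (U S n j).tsrc ((t (j - 1)).map (CV.map (bdD (j - 1, ε)) (bdD (j - 1, ε)))) =
              ((U S n (j - 1)).tsrc (t (j - 1))).map (CV.map (bdD (j - 1, ε)) (bdD (j - 1, ε))) ∧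
            (U S n j).ttgt ((t (j - 1)).map (CV.map (bdD (j - 1, ε)) (bdD (j - 1, ε)))) =
              ((U S n (j - 1)).ttgt (t (j - 1))).map
                (CV.map (bdD (j - 1, ε)) (bdD (j - 1, ε)))) := by
        intro ε
        have h1 := cfam_map (S := S) (fun v hv => cfam_zeta (S := S) n (hok ε) v hv) p1
        refine ⟨h1.1, h1.2.1.trans p2, fun h0 => h1.2.2 ?_⟩
        exact p2.symm ▸ h0
      have hpar : (U S n j).Par ((t (j - 1)).map (CV.map (bdD (j - 1, false)) (bdD (j - 1, false))))
          ((t (j - 1)).map (CV.map (bdD (j - 1, true)) (bdD (j - 1, true)))) := by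
        refine ⟨(hs false).1, (hs true).1, (hs false).2.1.trans (hs true).2.1.symm, fun h0 => ?_⟩
        have h0' : 0 < j - 1 := by
          have : (U S n j).m.dim ((t (j - 1)).map
            (CV.map (bdD (j - 1, false)) (bdD (j - 1, false)))) = j - 1 := (hs false).2.1
          have h0'' : 0 < (U S n j).m.dim ((t (j - 1)).map
            (CV.map (bdD (j - 1, false)) (bdD (j - 1, false)))) := h0
          omega
        show (U S n j).tsrc _ = (U S n j).tsrc _ ∧ (U S n j).ttgt _ = (U S n j).ttgt _
        rcases Nat.eq_or_lt_of_le (show n ≤ j - 1 by omega) with hn | hn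
        · have eb : ∀ ε : Bool, (t (j - 1)).map (CV.map (bdD (j - 1, ε)) (bdD (j - 1, ε))) =
              (.var (.z (n, ε)) : S.T (CV D D)) := by
            intro ε
            rw [hbase hn.symm, ← hn]
            show Tm.var (CV.z (bdD (n, ε) (n, false))) = _
            unfold bdD
            rw [if_neg (by simp)]
          refine ⟨(congrArg (U S n j).tsrc (eb false)).trans
            (Eq.trans ?_ (congrArg (U S n j).tsrc (eb true)).symm),
            (congrArg (U S n j).ttgt (eb false)).trans
            (Eq.trans ?_ (congrArg (U S n j).ttgt (eb true)).symm)⟩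
          · show Tm.var ((insG (diskG j) n).src (.z (n, false))) =
              Tm.var ((insG (diskG j) n).src (.z (n, true)))
            have e1 : ∀ ε : Bool, (insG (diskG j) n).src (.z (n, ε)) = .z (n - 1, false) :=
              fun ε => if_neg (by show ¬ (n = n + 1); omega)
            rw [e1, e1]
          · rfl
        · have key : ∀ ε ε' : Bool, ((t (j - 1 - 1)).map
              (CV.map (bdD (j - 1 - 1, ε')) (bdD (j - 1 - 1, ε')))).map
              (CV.map (bdD (j - 1, ε)) (bdD (j - 1, ε))) = (t (j - 1 - 1)).map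
              (CV.map (bdD (j - 1 - 1, ε')) (bdD (j - 1 - 1, ε'))) := by
            intro ε ε'
            rw [cfam_map_map]
            congr 1
            funext v
            exact cfam_CV (by show j - 1 - 1 < j - 1; omega) v
          have ks : ∀ ε, (U S n j).tsrc ((t (j - 1)).map
              (CV.map (bdD (j - 1, ε)) (bdD (j - 1, ε)))) = (t (j - 1 - 1)).map
              (CV.map (bdD (j - 1 - 1, false)) (bdD (j - 1 - 1, false))) := fun ε =>
            ((hs ε).2.2 h0').1.trans ((congrArg (fun w : S.T (CV D D) => w.map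
              (CV.map (bdD (j - 1, ε)) (bdD (j - 1, ε)))) (p3 hn).1).trans (key ε false))
          have kt : ∀ ε, (U S n j).ttgt ((t (j - 1)).map
              (CV.map (bdD (j - 1, ε)) (bdD (j - 1, ε)))) = (t (j - 1 - 1)).map
              (CV.map (bdD (j - 1 - 1, true)) (bdD (j - 1 - 1, true))) := fun ε =>
            ((hs ε).2.2 h0').2.trans ((congrArg (fun w : S.T (CV D D) => w.map
              (CV.map (bdD (j - 1, ε)) (bdD (j - 1, ε)))) (p3 hn).2).trans (key ε true))
          exact ⟨(ks false).trans (ks true).symm, (kt false).trans (kt true).symm⟩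
      have hdim : (U S n j).tdim ((t (j - 1)).map
          (CV.map (bdD (j - 1, false)) (bdD (j - 1, false)))) = j - 1 := (hs false).2.1
      obtain ⟨g, g1, g2, g3, g4⟩ : ∃ g : S.T (CV D D), (U S n j).tok g ∧ (U S n j).tdim g = j ∧
          (U S n j).tsrc g = (t (j - 1)).map
            (CV.map (bdD (j - 1, false)) (bdD (j - 1, false))) ∧
          (U S n j).ttgt g = (t (j - 1)).map
            (CV.map (bdD (j - 1, true)) (bdD (j - 1, true))) := by
        obtain ⟨g, g1, g2, g3, g4⟩ := h (insG (diskG j) n) (ArCl.ins _ _ (ArCl.disk j)) j _ _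
          hpar (by show (U S n j).tdim _ < j; omega)
        refine ⟨g, g1, ?_, g3, g4⟩
        have h5 : (U S n j).tdim g = (U S n j).tdim ((t (j - 1)).map
          (CV.map (bdD (j - 1, false)) (bdD (j - 1, false)))) + 1 := g2
        omega
      refine ⟨Function.update t j g, fun i hi => ?_, fun h1 => by omega, fun _ => ?_⟩
      · have hi' : i < j := hi
        exact Function.update_of_ne (by omega) _ _
      · unfold CGoodAt
        rw [Function.update_self, Function.update_of_ne (by omega : j - 1 ≠ j)]
        exact ⟨g1, g2, fun _ => ⟨g3, g4⟩⟩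

end HH
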