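import Pool.Agent.HH.CSLem

/-!
# HH stage 1, module CylUP: the universal property of cylinder computads, the CS lemma
-/

set_option autoImplicit false

namespace HH

open Classical

variable {S : Sig}

/-- on genuine terms, evaluating `CV.elim ψ β e` on the top end gives `β` -/
theorem Cyl_eval_tp {Z : Cptd S} {W : Glob} {φ : W.C → S.T Z.V} {N : ℕ}
    {M : Model S} {ψ : Z.V → M.C} {β e : W.C → M.C} {p : W.C}
    (low : W.dim p < N → M.eval ψ (φ p) = β p) :
    M.eval (CV.elim ψ β e) (tp Z W φ N p) = β p := by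
  unfold tp
  by_cases h : N ≤ W.dim p
  · rw [if_pos h]
    rfl
  · rw [if_neg h, eval_map]
    exact low (by omega)

/-- universal property of cylinder computads -/
theorem Cyl_asg {x : XFam S} {Z : Cptd S} {W : Glob} [W.Laws] {φ : W.C → S.T Z.V} {N J B : ℕ}
    {M : Model S} {ψ : Z.V → M.C} {β e : W.C → M.C}
    (hx : ∀ j, N ≤ j → j < J → XGoodAt x N j)
    (hψ : IsAsg B Z M ψ)
    (hβ : ∀ p, W.ok p → N ≤ W.dim p → W.dim p < J → MapAt W M.toGlob β p)
    (low : ∀ p, W.ok p → W.dim p < N → W.dim p < J → M.eval ψ (φ p) = β p)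
    (hc : ∀ p, W.ok p → N ≤ W.dim p → W.dim p < J →
      CylAt M x W (fun p => M.eval ψ (φ p)) β e p) :
    IsAsg B (Cyl x Z W φ N J) M (CV.elim ψ β e) := by
  intro v hv hB
  cases v with
  | z v =>
    obtain ⟨h1, h2, h3⟩ := hψ v hv hB
    refine ⟨h1, h2, fun h0 => ?_⟩
    obtain ⟨h4, h5⟩ := h3 h0
    refine ⟨?_, ?_⟩
    · change M.src (ψ v) = M.eval (CV.elim ψ β e) ((Z.src v).map .z)
      rw [eval_map, h4]
      rfl
    · change M.tgt (ψ v) = M.eval (CV.elim ψ β e) ((Z.tgt v).map .z)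
      rw [eval_map, h5]
      rfl
  | top p =>
    obtain ⟨hp, hN, hJ⟩ := hv
    obtain ⟨h1, h2, h3⟩ := hβ p hp hN hJ
    refine ⟨h1, h2, fun h0 => ?_⟩
    have h0' : 0 < W.dim p := h0
    obtain ⟨h4, h5⟩ := h3 h0'
    have d1 := Glob.Laws.dim_src p hp h0'
    have d2 := Glob.Laws.dim_tgt p hp h0'
    refine ⟨?_, ?_⟩
    · change M.src (β p) = M.eval (CV.elim ψ β e) (tp Z W φ N (W.src p))
      rw [h4, Cyl_eval_tp fun h => low _ (Glob.Laws.ok_src p hp h0') h (by omega)]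
    · change M.tgt (β p) = M.eval (CV.elim ψ β e) (tp Z W φ N (W.tgt p))
      rw [h5, Cyl_eval_tp fun h => low _ (Glob.Laws.ok_tgt p hp h0') h (by omega)]
  | cyl p =>
    obtain ⟨hp, hN, hJ⟩ := hv
    obtain ⟨h1, h2, h3, h4⟩ := hc p hp hN hJ
    refine ⟨h1, h2, fun _ => ⟨?_, h4⟩⟩
    change M.src (e p) = M.eval (CV.elim ψ β e) ((x (W.dim p)).bind
        (CV.elim (fun q => (φ (W.bd p q)).map .z) (fun q => tp Z W φ N (W.bd p q))
          (fun q => .var (.cyl (W.bd p q)))))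
    rw [h3, eval_bind]
    unfold cs
    refine eval_congr (X := CylG x (diskG (W.dim p)) N (W.dim p)) (x (W.dim p))
      (hx _ hN hJ).1 ?_
    intro v hv
    cases v with
    | z q =>
      change M.eval ψ (φ (W.bd p q)) = M.eval (CV.elim ψ β e) ((φ (W.bd p q)).map .z)
      rw [eval_map]
      rfl
    | top q =>
      obtain ⟨-, h5, h6⟩ := hv
      change β (W.bd p q) = M.eval (CV.elim ψ β e) (tp Z W φ N (W.bd p q))
      have h5' : N ≤ q.1 := h5
      have h6' : q.1 < W.dim p := h6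
      rw [Cyl_eval_tp fun h => ?_]
      rw [dim_bd hp h6'.le] at h
      omega
    | cyl q => rfl

/-- the inclusion of the base -/
private theorem cylUP_incl {x : XFam S} {Z : Cptd S} {W : Glob} {φ : W.C → S.T Z.V} {N J B : ℕ} :
    IsAsg B Z (Cyl x Z W φ N J).m (fun v => .var (.z v)) :=
  fun _ hv _ => ⟨hv, rfl, fun _ => ⟨rfl, rfl⟩⟩

/-- the variables of a cylinder computad form a cylinder -/
theorem Cyl_isCyl [S.Strat] {x : XFam S} {Z : Cptd S} {W : Glob} [W.Laws]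
    {φ : W.C → S.T Z.V} {N J : ℕ}
    (hφ : IsMap J W Z.m.toGlob φ) :
    IsCyl x N J W (Cyl x Z W φ N J).m (fun p => (φ p).map .z) (tp Z W φ N)
      (fun p => .var (.cyl p)) := by
  have hα : IsMap J W (Cyl x Z W φ N J).m.toGlob (fun p => (φ p).map .z) := by
    intro p hp hJ
    obtain ⟨h1, h2, h3⟩ := hφ p hp hJ
    have h2' : Z.tdim (φ p) = W.dim p := h2
    obtain ⟨k1, k2, k3⟩ := eval_isMap (cylUP_incl (x := x) (Z := Z) (W := W) (φ := φ) (N := N)
      (J := J) (B := W.dim p + 1)) (φ p) h1 (by change Z.tdim (φ p) < _; omega)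
    refine ⟨k1, k2.trans h2, fun h0 => ?_⟩
    obtain ⟨h4, h5⟩ := h3 h0
    obtain ⟨k4, k5⟩ := k3 (by change 0 < Z.tdim (φ p); omega)
    exact ⟨k4.trans (congrArg (fun t : S.T Z.V => (t.map .z : S.T (CV Z.V W.C))) h4),
      k5.trans (congrArg (fun t : S.T Z.V => (t.map .z : S.T (CV Z.V W.C))) h5)⟩
  have htp : ∀ p, W.dim p < N → tp Z W φ N p = (φ p).map .z := fun p h => by
    unfold tp
    rw [if_neg (by omega)]
  have htp' : ∀ p, N ≤ W.dim p → tp Z W φ N p = .var (.top p) := fun p h => by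
    unfold tp
    rw [if_pos h]
  refine ⟨hα, ?_, ?_, ?_⟩
  · intro p hp hJ
    rcases Nat.lt_or_ge (W.dim p) N with h | h
    · obtain ⟨k1, k2, k3⟩ := hα p hp hJ
      refine ⟨?_, ?_, fun h0 => ?_⟩
      · rw [htp p h]; exact k1
      · rw [htp p h]; exact k2
      · obtain ⟨k4, k5⟩ := k3 h0
        have d1 := Glob.Laws.dim_src p hp h0
        have d2 := Glob.Laws.dim_tgt p hp h0
        rw [htp p h, htp _ (by omega), htp _ (by omega)]
        exact ⟨k4, k5⟩
    · rw [MapAt, htp' p h]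
      exact ⟨⟨hp, h, hJ⟩, rfl, fun _ => ⟨rfl, rfl⟩⟩
  · intro p _ h _
    exact (htp p h).symm
  · intro p hp hN hJ
    refine ⟨⟨hp, hN, hJ⟩, rfl, rfl, ?_⟩
    rw [htp' p hN]
    rfl

/-- **The CS lemma**: `cs` at `p` is a well-typed cell parallel to `β p`. -/
theorem cs_spec [S.Strat] {x : XFam S} {N : ℕ} {W : Glob} [W.Laws] {M : Model S} [M.OpLaws]
    {α β e : W.C → M.C} {p : W.C} (hp : W.ok p) (hN : N ≤ W.dim p)
    (hx : ∀ j, N ≤ j → j ≤ W.dim p → XGoodAt x N j)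
    (hα : ∀ r : D, r.1 ≤ W.dim p → MapAt W M.toGlob α (W.bd p r))
    (hβ : ∀ r : D, r.1 < W.dim p → MapAt W M.toGlob β (W.bd p r))
    (low : ∀ r : D, r.1 < N → r.1 < W.dim p → α (W.bd p r) = β (W.bd p r))
    (hc : ∀ r : D, N ≤ r.1 → r.1 < W.dim p → CylAt M x W α β e (W.bd p r)) :
    M.ok (cs M x W α β e p) ∧ M.dim (cs M x W α β e p) = W.dim p ∧
      (0 < W.dim p → M.src (cs M x W α β e p) = β (W.src p) ∧
        M.tgt (cs M x W α β e p) = β (W.tgt p)) := by
  set j := W.dim p with hj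
  have hq1 : ∀ q : D, (diskG j).ok q → q.1 ≤ j := by
    intro q hq
    have : q.1 < j ∨ (q.1 = j ∧ q.2 = false) := hq
    omega
  have hcomp : ∀ (f : W.C → M.C) (q : D), (diskG j).ok q → MapAt W M.toGlob f (W.bd p q) →
      MapAt (diskG j) M.toGlob (fun q => f (W.bd p q)) q := by
    intro f q hq hf
    obtain ⟨h1, h2, h3⟩ := hf
    obtain ⟨k1, k2, k3⟩ := bd_mapAt hp hq
    refine ⟨h1, h2.trans k2, fun h0 => ?_⟩
    obtain ⟨h4, h5⟩ := h3 (by rw [k2]; exact h0)
    obtain ⟨k4, k5⟩ := k3 h0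
    exact ⟨h4.trans (congrArg f k4), h5.trans (congrArg f k5)⟩
  have hasg : IsAsg (j + 1) (CylG x (diskG j) N j) M
      (CV.elim (fun q => α (W.bd p q)) (fun q => β (W.bd p q)) (fun q => e (W.bd p q))) := by
    refine Cyl_asg (fun i h1 h2 => hx i h1 (by omega)) ?_ ?_ ?_ ?_
    · intro q hq _
      exact hcomp α q hq (hα q (hq1 q hq))
    · intro q hq _ h2
      exact hcomp β q hq (hβ q h2)
    · intro q _ h1 h2
      exact low q h1 h2
    · intro q hq h1 h2
      have h2' : q.1 < W.dim p := h2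
      refine CylAt.comp (f := W.bd p) (W' := diskG j) ?_ ?_ (hc q h1 h2)
      · exact dim_bd hp h2'.le
      · intro r
        rw [diskG_bd, bd_bd hp h2'.le]
  obtain ⟨x1, x2, x3⟩ := hx j hN le_rfl
  obtain ⟨m1, m2, m3⟩ := eval_isMap hasg (x j) x1
    (by change (CylG x (diskG j) N j).tdim (x j) < _; omega)
  have hcs : cs M x W α β e p = M.eval (CV.elim (fun q => α (W.bd p q)) (fun q => β (W.bd p q))
      (fun q => e (W.bd p q))) (x j) := rfl
  rw [hcs]
  refine ⟨m1, m2.trans x2, fun h0 => ?_⟩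
  obtain ⟨m4, m5⟩ := m3 (by
    change 0 < (CylG x (diskG j) N j).tdim (x j)
    omega)
  obtain ⟨x4, x5⟩ := x3 h0
  have e1 : ∀ ε : Bool, M.eval (CV.elim (fun q => α (W.bd p q)) (fun q => β (W.bd p q))
      (fun q => e (W.bd p q))) (tpG S (diskG j) N (j - 1, ε)) = β (W.bd p (j - 1, ε)) := by
    intro ε
    refine Cyl_eval_tp (Z := ofGlob S (diskG j)) (W := diskG j) (φ := .var) (N := N)
      (ψ := fun q : D => α (W.bd p q)) (e := fun q : D => e (W.bd p q))
      (β := fun q : D => β (W.bd p q)) (p := (j - 1, ε)) ?_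
    intro h
    exact low (j - 1, ε) h (by change j - 1 < j; omega)
  refine ⟨?_, ?_⟩
  · refine m4.trans ?_
    refine (congrArg _ x4).trans ((e1 false).trans ?_)
    rw [hj, bd_pred_false (by omega)]
  · refine m5.trans ?_
    refine (congrArg _ x5).trans ((e1 true).trans ?_)
    rw [hj, bd_pred_true (by omega)]

end HH
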