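import Pool.Agent.HH.Bd

/-!
# HH stage 1, module 9: disk operations (inverses, units) evaluated at a cell
-/

set_option autoImplicit false

namespace HH

open Classical

variable {S : Sig}

/-- evaluating a disk-shaped term at a cell -/
theorem atCell_mapAt {M : Model S} [M.OpLaws] [M.toGlob.Laws] {j : ℕ} {y : M.C} (hy : M.ok y)
    (hd : M.dim y = j) {t : S.T D} (ht : (ofGlob S (diskG j)).tok t) :
    MapAt (ofGlob S (diskG j)).m.toGlob M.toGlob (M.eval (M.toGlob.bd y)) t := by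
  subst hd
  exact eval_mapAt (X := ofGlob S (diskG (M.dim y))) (M := M) (γ := M.toGlob.bd y)
    (fun v hv => bd_mapAt (G := M.toGlob) hy hv) t ht

/-- naturality of evaluation at a cell -/
theorem eval_atCell [S.Strat] [S.Good] {X : Cptd S} [X.Good] {M : Model S} [M.OpLaws]
    {γ : X.V → M.C} {y : S.T X.V} (hy : X.tok y) (hγ : IsAsg (X.tdim y + 1) X M γ) (t : S.T D) :
    M.eval γ (atCell X.m t y) = atCell M t (M.eval γ y) := by
  unfold atCell
  have h1 : M.eval γ (X.m.eval (X.m.toGlob.bd y) t) =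
      M.eval (fun q => M.eval γ (X.m.toGlob.bd y q)) t := eval_bind M γ (X.m.toGlob.bd y) t
  rw [h1]
  congr 1
  funext q
  exact map_bd (G := X.m.toGlob) (H := M.toGlob) (f := M.eval γ) (x := y) hy
    (fun z hz hzd => eval_isMap hγ z hz (Nat.lt_succ_of_le hzd)) q

/-- naturality of evaluation at a cell, unbounded version -/
theorem eval_atCell_full [S.Good] {X : Cptd S} [X.Good] {M : Model S} [M.OpLaws]
    {γ : X.V → M.C} {y : S.T X.V} (hy : X.tok y) (hγ : ∀ v, X.ok v → AsgAt X M γ v) (t : S.T D) :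
    M.eval γ (atCell X.m t y) = atCell M t (M.eval γ y) := by
  unfold atCell
  have h1 : M.eval γ (X.m.eval (X.m.toGlob.bd y) t) =
      M.eval (fun q => M.eval γ (X.m.toGlob.bd y q)) t := eval_bind M γ (X.m.toGlob.bd y) t
  rw [h1]
  congr 1
  funext q
  exact map_bd (G := X.m.toGlob) (H := M.toGlob) (f := M.eval γ) (x := y) hy
    (fun z hz _ => eval_mapAt hγ z hz) q

theorem exists_isInv (h : S.Hyp) (n : ℕ) : ∃ iv : S.T D, IsInv S n iv := by
  obtain ⟨t, h1, h2, h3, h4⟩ := h (diskG (n + 1)) (.disk _) (n + 1) (.var (n, true))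
    (.var (n, false)) ⟨Or.inl (Nat.lt_succ_self n), Or.inl (Nat.lt_succ_self n), rfl,
      fun _ => ⟨rfl, rfl⟩⟩ (Nat.lt_succ_self n)
  exact ⟨t, h1, h2, h3, h4⟩

theorem atCell_inv {M : Model S} [M.OpLaws] [M.toGlob.Laws] {n : ℕ} {iv : S.T D}
    (hiv : IsInv S n iv) {y : M.C} (hy : M.ok y) (hd : M.dim y = n + 1) :
    M.ok (atCell M iv y) ∧ M.dim (atCell M iv y) = n + 1 ∧ M.src (atCell M iv y) = M.tgt y ∧
      M.tgt (atCell M iv y) = M.src y := by
  obtain ⟨h1, h2, h3⟩ := atCell_mapAt hy hd hiv.ok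
  have h2' : M.dim (M.eval (M.toGlob.bd y) iv) = n + 1 := h2.trans hiv.dim
  obtain ⟨h4, h5⟩ := h3 (by
    show 0 < (ofGlob S (diskG (n + 1))).tdim iv
    rw [hiv.dim]
    exact Nat.succ_pos n)
  refine ⟨h1, h2', ?_, ?_⟩
  · have h6 : M.src (M.eval (M.toGlob.bd y) iv) =
        M.eval (M.toGlob.bd y) ((ofGlob S (diskG (n + 1))).tsrc iv) := h4
    rw [hiv.src] at h6
    refine h6.trans ?_
    have h7 := bd_pred_true (G := M.toGlob) (x := y) (by rw [hd]; exact Nat.succ_pos n)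
    rw [hd] at h7
    exact h7
  · have h6 : M.tgt (M.eval (M.toGlob.bd y) iv) =
        M.eval (M.toGlob.bd y) ((ofGlob S (diskG (n + 1))).ttgt iv) := h5
    rw [hiv.tgt] at h6
    refine h6.trans ?_
    have h7 := bd_pred_false (G := M.toGlob) (x := y) (by rw [hd]; exact Nat.succ_pos n)
    rw [hd] at h7
    exact h7

theorem exists_isK0 [S.Good] (h : S.Hyp) {n : ℕ} {iv : S.T D} (hiv : IsInv S n iv) :
    ∃ k0 : S.T D, IsK0 S n iv k0 := by
  have hy : (ofGlob S (diskG (n + 1))).m.ok (Tm.var ((n + 1, false) : D)) := Or.inr ⟨rfl, rfl⟩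
  obtain ⟨a1, a2, a3, a4⟩ := atCell_inv (M := (ofGlob S (diskG (n + 1))).m) hiv hy rfl
  obtain ⟨b1, b2, b3, b4⟩ := atCell_inv (M := (ofGlob S (diskG (n + 1))).m) hiv a1 a2
  obtain ⟨t, h1, h2, h3, h4⟩ := h (diskG (n + 1)) (.disk _) (n + 2)
    (atCell (ofGlob S (diskG (n + 1))).m iv (atCell (ofGlob S (diskG (n + 1))).m iv
      (.var (n + 1, false)))) (.var (n + 1, false))
    ⟨b1, hy, b2, fun _ => ⟨b3.trans a4, b4.trans a3⟩⟩ (by
      rw [b2]
      exact Nat.lt_succ_self _)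
  exact ⟨t, h1, h2.trans (congrArg (· + 1) b2), h3, h4⟩

theorem atCell_k0 [S.Good] {M : Model S} [M.OpLaws] [M.toGlob.Laws] {n : ℕ}
    {iv k0 : S.T D}
    (hk : IsK0 S n iv k0) (hiv : IsInv S n iv) {y : M.C} (hy : M.ok y) (hd : M.dim y = n + 1) :
    M.ok (atCell M k0 y) ∧ M.dim (atCell M k0 y) = n + 2 ∧
      M.src (atCell M k0 y) = atCell M iv (atCell M iv y) ∧ M.tgt (atCell M k0 y) = y := by
  obtain ⟨h1, h2, h3⟩ := atCell_mapAt hy hd hk.ok
  have h2' : M.dim (M.eval (M.toGlob.bd y) k0) = n + 2 := h2.trans hk.dim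
  obtain ⟨h4, h5⟩ := h3 (by
    show 0 < (ofGlob S (diskG (n + 1))).tdim k0
    rw [hk.dim]
    exact Nat.succ_pos _)
  have hyv : M.toGlob.bd y (n + 1, false) = y := bd_of_le y _ (le_of_eq hd)
  have hv : (ofGlob S (diskG (n + 1))).tok (Tm.var ((n + 1, false) : D)) := Or.inr ⟨rfl, rfl⟩
  have hasg : ∀ v, (ofGlob S (diskG (n + 1))).ok v →
      AsgAt (ofGlob S (diskG (n + 1))) M (M.toGlob.bd y) v := by
    intro v hv'
    have hv2 : (diskG (M.dim y)).ok v := by rw [hd]; exact hv'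
    have := bd_mapAt (G := M.toGlob) hy hv2
    exact this
  obtain ⟨a1, a2, a3, a4⟩ := atCell_inv (M := (ofGlob S (diskG (n + 1))).m)
    (y := Tm.var ((n + 1, false) : D)) hiv hv rfl
  have e1 : M.eval (M.toGlob.bd y) (atCell (ofGlob S (diskG (n + 1))).m iv
      (Tm.var ((n + 1, false) : D))) = atCell M iv y :=
    (eval_atCell_full (X := ofGlob S (diskG (n + 1))) (y := Tm.var ((n + 1, false) : D)) hv
      hasg iv).trans (congrArg (atCell M iv) hyv)
  have e2 : M.eval (M.toGlob.bd y) (atCell (ofGlob S (diskG (n + 1))).m iv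
      (atCell (ofGlob S (diskG (n + 1))).m iv (Tm.var ((n + 1, false) : D)))) =
      atCell M iv (atCell M iv y) :=
    (eval_atCell_full (X := ofGlob S (diskG (n + 1)))
      (y := atCell (ofGlob S (diskG (n + 1))).m iv (Tm.var ((n + 1, false) : D))) a1
      hasg iv).trans (congrArg (atCell M iv) e1)
  refine ⟨h1, h2', ?_, ?_⟩
  · exact h4.trans ((congrArg (M.eval (M.toGlob.bd y)) hk.src).trans e2)
  · exact h5.trans ((congrArg (M.eval (M.toGlob.bd y)) hk.tgt).trans hyv)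

/-- units exist in every model -/
theorem exists_unit (h : S.Hyp) {M : Model S} [M.OpLaws] [M.toGlob.Laws] {y : M.C}
    (hy : M.ok y) : M.toGlob.Conn y y := by
  have hv : (ofGlob S (diskG (M.dim y))).tok (Tm.var ((M.dim y, false) : D)) := Or.inr ⟨rfl, rfl⟩
  obtain ⟨t, h1, h2, h3, h4⟩ := h (diskG (M.dim y)) (.disk _) (M.dim y + 1)
    (.var (M.dim y, false)) (.var (M.dim y, false)) ⟨hv, hv, rfl, fun _ => ⟨rfl, rfl⟩⟩
    (Nat.lt_succ_self _)
  have hyv : M.toGlob.bd y (M.dim y, false) = y := bd_of_le y _ le_rfl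
  obtain ⟨g1, g2, g3⟩ := atCell_mapAt hy rfl h1
  have h2' : (ofGlob S (diskG (M.dim y))).tdim t = M.dim y + 1 := h2
  obtain ⟨g4, g5⟩ := g3 (by
    show 0 < (ofGlob S (diskG (M.dim y))).tdim t
    rw [h2']
    exact Nat.succ_pos _)
  refine ⟨M.eval (M.toGlob.bd y) t, g1, g2.trans h2, ?_, ?_⟩
  · exact g4.trans ((congrArg (M.eval (M.toGlob.bd y)) h3).trans hyv)
  · exact g5.trans ((congrArg (M.eval (M.toGlob.bd y)) h4).trans hyv)

end HH
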