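import Pool.Agent.HH.Bd
import Pool.Agent.HH.InsG
import Pool.Agent.HH.DiskOp

/-!
# HH stage 1, module Mu: the universal versions of `ψ ∘ ζ` and `ψ ∘ φ`
-/

set_option autoImplicit false

namespace HH

open Classical

variable {S : Sig}

theorem mu_map {G H : Glob} {f : G.C → H.C} (hf : ∀ p, G.ok p → MapAt G H f p)
    {t : S.T G.C} (ht : (ofGlob S G).tok t) :
    (ofGlob S H).tok (t.map f) ∧ (ofGlob S H).tdim (t.map f) = (ofGlob S G).tdim t ∧
      (0 < (ofGlob S G).tdim t →
        (ofGlob S H).tsrc (t.map f) = ((ofGlob S G).tsrc t).map f ∧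
        (ofGlob S H).ttgt (t.map f) = ((ofGlob S G).ttgt t).map f) :=
  eval_mapAt (X := ofGlob S G) (M := (ofGlob S H).m) (γ := fun v => .var (f v))
    (fun v hv => ⟨(hf v hv).1, (hf v hv).2.1, fun h0 =>
      ⟨congrArg Tm.var ((hf v hv).2.2 h0).1, congrArg Tm.var ((hf v hv).2.2 h0).2⟩⟩) t ht

theorem mu_bdD_bdD {q r : D} (h : r.1 < q.1) (s : D) : bdD q (bdD r s) = bdD r s := by
  unfold bdD
  by_cases h1 : s.1 < r.1
  · rw [if_pos h1, if_pos (by omega)]
  · rw [if_neg h1, if_pos h]

theorem mu_zeta {q r : D} (h : r.1 < q.1) (t : S.T (CV D D)) :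
    (t.map (CV.map (bdD r) (bdD r))).map (CV.map (bdD q) (bdD q)) =
      t.map (CV.map (bdD r) (bdD r)) := by
  refine (Tm.map_bind t _ _).trans ?_
  show t.map (fun v => CV.map (bdD q) (bdD q) (CV.map (bdD r) (bdD r) v)) = _
  congr 1
  funext v
  cases v <;> simp [mu_bdD_bdD h]

/-- the shape of the whiskering terms in `U_j` -/
theorem mu_c [S.Good] [S.Strat] {c : XFam S} {n : ℕ} (hc : CGood c n) {j : ℕ} {q : D}
    (hq : (diskG j).ok q) (hn : n < q.1) :
    (U S n j).tok ((c q.1).map (CV.map (bdD q) (bdD q))) ∧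
      (U S n j).tdim ((c q.1).map (CV.map (bdD q) (bdD q))) = q.1 ∧
      (U S n j).tsrc ((c q.1).map (CV.map (bdD q) (bdD q))) =
        (c (q.1 - 1)).map (CV.map (bdD (q.1 - 1, false)) (bdD (q.1 - 1, false))) ∧
      (U S n j).ttgt ((c q.1).map (CV.map (bdD q) (bdD q))) =
        (c (q.1 - 1)).map (CV.map (bdD (q.1 - 1, true)) (bdD (q.1 - 1, true))) := by
  have e : (diskG j).bd q = bdD q := funext fun r => diskG_bd j q r
  have hz : ∀ v, (insG (diskG q.1) n).ok v →
      MapAt (insG (diskG q.1) n) (insG (diskG j) n) (CV.map (bdD q) (bdD q)) v := by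
    intro v hv
    have h := U_map (S := S) (a := diskG j) (p := q) hq n v hv
    rw [e] at h
    exact h
  have hcq := hc.at' q.1 (by omega)
  have h1 := mu_map (S := S) hz hcq.1
  have h0 : 0 < (U S n q.1).tdim (c q.1) := by rw [hcq.2.1]; omega
  refine ⟨h1.1, h1.2.1.trans hcq.2.1, ?_, ?_⟩
  · refine (h1.2.2 h0).1.trans ?_
    refine (congrArg (fun w : S.T (CV D D) => w.map (CV.map (bdD q) (bdD q)))
      (hcq.2.2 hn).1).trans ?_
    exact mu_zeta (by show q.1 - 1 < q.1; omega) _
  · refine (h1.2.2 h0).2.trans ?_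
    refine (congrArg (fun w : S.T (CV D D) => w.map (CV.map (bdD q) (bdD q)))
      (hcq.2.2 hn).2).trans ?_
    exact mu_zeta (by show q.1 - 1 < q.1; omega) _

theorem mu_cn {c : XFam S} {n : ℕ} (hc : CGood c n) (ε : Bool) :
    (c n).map (CV.map (bdD (n, ε)) (bdD (n, ε))) = .var (.z (n, ε)) := by
  rw [hc.base]
  show Tm.var (CV.z (bdD (n, ε) (n, false))) = _
  unfold bdD
  rw [if_neg (by simp)]

/-- sources and targets in the inserted disk -/
theorem mu_src (n j : ℕ) {q : D} (h : q.1 ≠ n + 1) :
    (insG (diskG j) n).src (.z q) = .z (q.1 - 1, false) := if_neg h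

theorem mu_src' (n j : ℕ) {q : D} (h : q.1 = n + 1) :
    (insG (diskG j) n).src (.z q) = .top (n, false) := by
  have e1 : (insG (diskG j) n).src (.z q) = .top (q.1 - 1, false) := if_pos h
  rw [e1, h, Nat.add_sub_cancel]

theorem beU_lt {n : ℕ} {q : D} (h : q ≠ (n, false)) : beU S n q = .var (.z q) := if_neg h

theorem beU_n (n : ℕ) : beU S n (n, false) = .var (.top (n, false)) := if_pos rfl

theorem muA_z_le {c : XFam S} {iv : S.T D} {n j : ℕ} {q : D} (h : q.1 ≤ n) (h' : q ≠ (n, false)) :
    muA c iv n j (.z q) = .var (.z q) := by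
  show (if n < q.1 then _ else if q = (n, false) then _ else _) = _
  rw [if_neg (by omega), if_neg h']

theorem muA_z_n {c : XFam S} {iv : S.T D} {n j : ℕ} :
    muA c iv n j (.z (n, false)) = .var (.top (n, false)) := by
  show (if n < n then _ else if (n, false) = (n, false) then _ else _) = _
  rw [if_neg (lt_irrefl n), if_pos rfl]

theorem muA_z_gt {c : XFam S} {iv : S.T D} {n j : ℕ} {q : D} (h : n < q.1) :
    muA c iv n j (.z q) = (c q.1).map (CV.map (bdD q) (bdD q)) := if_pos h

theorem muA_asgAt [S.Good] [S.Strat] {c : XFam S} {iv : S.T D} {n : ℕ} (hc : CGood c n)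
    (hiv : IsInv S n iv) {j : ℕ} (hj : n < j) (v : CV D D) (hv : (U S n j).ok v) :
    AsgAt (U S n j) (U S n j).m (muA c iv n j) v := by
  match v, hv with
  | .top q, hv =>
    have hv' : (diskG j).ok q ∧ q.1 = n := hv
    by_cases hq : q = (n, false)
    · subst hq
      have e0 : muA c iv n j (.top (n, false)) = .var (.z (n, false)) := if_pos rfl
      unfold AsgAt
      rw [e0]
      refine ⟨hv'.1, rfl, fun h0 => ⟨?_, ?_⟩⟩
      · have h0' : 0 < n := h0
        have e1 : (U S n j).m.src (.var (.z (n, false))) = .var (.z (n - 1, false)) :=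
          congrArg Tm.var (mu_src n j (q := (n, false)) (by show n ≠ n + 1; omega))
        refine e1.trans (muA_z_le (c := c) (iv := iv) (j := j) (q := (n - 1, false))
          (by show n - 1 ≤ n; omega) ?_).symm
        intro h
        have := congrArg Prod.fst h
        have h2 : n - 1 = n := this
        omega
      · exact (muA_z_le (c := c) (iv := iv) (j := j) (q := (n - 1, true)) (by show n - 1 ≤ n; omega) (by simp)).symm
    · have e0 : muA c iv n j (.top q) = .var (.top q) := if_neg hq
      unfold AsgAt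
      rw [e0]
      refine ⟨hv, rfl, fun h0 => ⟨?_, ?_⟩⟩
      · have h0' : 0 < q.1 := h0
        refine (muA_z_le (c := c) (iv := iv) (j := j) (q := (q.1 - 1, false)) (by show q.1 - 1 ≤ n; omega) ?_).symm
        intro h
        have := congrArg Prod.fst h
        have h2 : q.1 - 1 = n := this
        omega
      · have h0' : 0 < q.1 := h0
        exact (muA_z_le (c := c) (iv := iv) (j := j) (q := (q.1 - 1, true)) (by show q.1 - 1 ≤ n; omega) (by simp)).symm
  | .cyl q, hv =>
    have hv' : (diskG j).ok q ∧ q.1 = n := hv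
    have hcyl : (U S n j).m.ok (.var (.cyl q)) := hv
    have hcd : (U S n j).m.dim (.var (.cyl q)) = n + 1 := by
      show q.1 + 1 = n + 1
      omega
    have h1 := atCell_inv (M := (U S n j).m) hiv hcyl hcd
    have h2 := atCell_inv (M := (U S n j).m) hiv h1.1 h1.2.1
    by_cases hq : q = (n, false)
    · subst hq
      have e0 : muA c iv n j (.cyl (n, false)) = atCell (U S n j).m iv (.var (.cyl (n, false))) :=
        if_pos rfl
      have e1 : muA c iv n j (.top (n, false)) = .var (.z (n, false)) := if_pos rfl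
      unfold AsgAt
      rw [e0]
      refine ⟨h1.1, h1.2.1, fun h0 => ⟨?_, ?_⟩⟩
      · exact h1.2.2.1.trans (muA_z_n (c := c) (iv := iv) (n := n) (j := j)).symm
      · exact h1.2.2.2.trans e1.symm
    · have e0 : muA c iv n j (.cyl q) =
          atCell (U S n j).m iv (atCell (U S n j).m iv (.var (.cyl q))) := if_neg hq
      have e1 : muA c iv n j (.top q) = .var (.top q) := if_neg hq
      unfold AsgAt
      rw [e0]
      refine ⟨h2.1, ?_, fun h0 => ⟨?_, ?_⟩⟩
      · show (U S n j).m.dim _ = q.1 + 1
        rw [h2.2.1, hv'.2]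
      · refine h2.2.2.1.trans (h1.2.2.2.trans ?_)
        exact (muA_z_le (c := c) (iv := iv) (j := j) (by omega) hq).symm
      · exact h2.2.2.2.trans (h1.2.2.1.trans e1.symm)
  | .z q, hv =>
    have hv' : (diskG j).ok q := hv
    rcases Nat.lt_or_ge n q.1 with hn | hn
    · have h1 := mu_c (S := S) hc hv' hn
      have e0 := muA_z_gt (c := c) (iv := iv) (j := j) hn
      unfold AsgAt
      rw [e0]
      refine ⟨h1.1, h1.2.1, fun h0 => ⟨?_, ?_⟩⟩
      · refine h1.2.2.1.trans ?_
        rcases Nat.eq_or_lt_of_le (show n + 1 ≤ q.1 from hn) with h | h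
        · have e1 : (U S n j).src (.z q) = .var (.top (n, false)) :=
            congrArg Tm.var (mu_src' n j h.symm)
          refine Eq.trans ?_
            (congrArg (fun w : S.T (CV D D) => w.bind (muA c iv n j)) e1).symm
          have e2 : q.1 - 1 = n := by omega
          rw [e2]
          have e3 : muA c iv n j (.top (n, false)) = .var (.z (n, false)) := if_pos rfl
          exact (mu_cn hc false).trans e3.symm
        · have e1 : (U S n j).src (.z q) = .var (.z (q.1 - 1, false)) :=
            congrArg Tm.var (mu_src n j (by omega))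
          refine Eq.trans ?_
            (congrArg (fun w : S.T (CV D D) => w.bind (muA c iv n j)) e1).symm
          exact (muA_z_gt (c := c) (iv := iv) (j := j) (q := (q.1 - 1, false))
            (by show n < q.1 - 1; omega)).symm
      · refine h1.2.2.2.trans ?_
        show _ = muA c iv n j (.z (q.1 - 1, true))
        rcases Nat.eq_or_lt_of_le (show n + 1 ≤ q.1 from hn) with h | h
        · have e2 : q.1 - 1 = n := by omega
          rw [e2]
          exact (mu_cn hc true).trans (muA_z_le (c := c) (iv := iv) (j := j) (q := (n, true)) le_rfl (by simp)).symm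
        · exact (muA_z_gt (c := c) (iv := iv) (j := j) (q := (q.1 - 1, true))
            (by show n < q.1 - 1; omega)).symm
    · have hs : (U S n j).src (.z q) = .var (.z (q.1 - 1, false)) :=
        congrArg Tm.var (mu_src n j (by omega))
      have hs1 : 0 < q.1 → muA c iv n j (.z (q.1 - 1, false)) = .var (.z (q.1 - 1, false)) := by
        intro h0
        refine muA_z_le (c := c) (iv := iv) (j := j) (by show q.1 - 1 ≤ n; omega) ?_
        intro h
        have := congrArg Prod.fst h
        have h2 : q.1 - 1 = n := this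
        omega
      have ht1 : 0 < q.1 → muA c iv n j (.z (q.1 - 1, true)) = .var (.z (q.1 - 1, true)) :=
        fun h0 => muA_z_le (c := c) (iv := iv) (j := j) (by show q.1 - 1 ≤ n; omega) (by simp)
      by_cases hq : q = (n, false)
      · subst hq
        unfold AsgAt
        rw [muA_z_n]
        refine ⟨⟨hv', rfl⟩, rfl, fun h0 => ⟨?_, ?_⟩⟩
        · refine Eq.trans ?_
            (congrArg (fun w : S.T (CV D D) => w.bind (muA c iv n j)) hs).symm
          exact (hs1 h0).symm
        · exact (ht1 h0).symm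
      · unfold AsgAt
        rw [muA_z_le hn hq]
        refine ⟨hv', rfl, fun h0 => ⟨?_, ?_⟩⟩
        · refine hs.trans (Eq.trans ?_
            (congrArg (fun w : S.T (CV D D) => w.bind (muA c iv n j)) hs).symm)
          exact (hs1 h0).symm
        · exact (ht1 h0).symm

theorem beU_mapAt {n j : ℕ} (hj : n < j) (q : D) (hq : (diskG j).ok q) :
    MapAt (diskG j) (U S n j).m.toGlob (beU S n) q := by
  have hs1 : ∀ i, i ≠ n → beU S n (i, false) = .var (.z (i, false)) := fun i hi => by
    refine beU_lt ?_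
    intro h
    exact hi (congrArg Prod.fst h)
  have ht1 : ∀ i, beU S n (i, true) = .var (.z (i, true)) := fun i => beU_lt (by simp)
  by_cases hqn : q = (n, false)
  · subst hqn
    unfold MapAt
    rw [beU_n]
    refine ⟨⟨hq, rfl⟩, rfl, fun h0 => ⟨?_, ?_⟩⟩
    · have h0' : 0 < n := h0
      exact (hs1 (n - 1) (by omega)).symm
    · exact (ht1 (n - 1)).symm
  · unfold MapAt
    rw [beU_lt hqn]
    refine ⟨hq, rfl, fun h0 => ⟨?_, ?_⟩⟩
    · have h0' : 0 < q.1 := h0
      by_cases h : q.1 = n + 1
      · refine (congrArg Tm.var (mu_src' n j h)).trans ?_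
        show _ = beU S n (q.1 - 1, false)
        rw [h, Nat.add_sub_cancel]
        exact (beU_n n).symm
      · refine (congrArg Tm.var (mu_src n j h)).trans ?_
        exact (hs1 (q.1 - 1) (by omega)).symm
    · exact (ht1 (q.1 - 1)).symm

theorem alU_mapAt [S.Good] [S.Strat] {c : XFam S} {iv : S.T D} {n : ℕ} (hc : CGood c n)
    (hiv : IsInv S n iv) {j : ℕ} (hj : n < j) (q : D) (hq : (diskG j).ok q) :
    MapAt (diskG j) (U S n j).m.toGlob (alU c iv n j) q := by
  have ale : ∀ r : D, r.1 ≤ n → alU c iv n j r = beU S n r := fun r hr => if_neg (by omega)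
  have agt : ∀ r : D, n < r.1 → alU c iv n j r =
      ((c r.1).map (CV.map (bdD r) (bdD r))).bind (muA c iv n j) := fun r hr => if_pos hr
  rcases Nat.lt_or_ge n q.1 with hn | hn
  · have h1 := mu_c (S := S) hc hq hn
    have h2 := eval_mapAt (X := U S n j) (M := (U S n j).m) (γ := muA c iv n j)
      (fun v hv => muA_asgAt hc hiv hj v hv) _ h1.1
    have h0 : 0 < (U S n j).m.dim ((c q.1).map (CV.map (bdD q) (bdD q))) := by
      show 0 < (U S n j).tdim _
      rw [h1.2.1]
      omega
    unfold MapAt
    rw [agt q hn]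
    refine ⟨h2.1, h2.2.1.trans h1.2.1, fun _ => ⟨?_, ?_⟩⟩
    · refine (h2.2.2 h0).1.trans ?_
      refine (congrArg (fun w : S.T (CV D D) => w.bind (muA c iv n j)) h1.2.2.1).trans ?_
      show _ = alU c iv n j (q.1 - 1, false)
      rcases Nat.eq_or_lt_of_le (show n + 1 ≤ q.1 from hn) with h | h
      · have e2 : q.1 - 1 = n := by omega
        rw [e2, ale (n, false) le_rfl, beU_n]
        refine (congrArg (fun w : S.T (CV D D) => w.bind (muA c iv n j)) (mu_cn hc false)).trans ?_
        exact muA_z_n (c := c) (iv := iv) (j := j)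
      · rw [agt (q.1 - 1, false) (by show n < q.1 - 1; omega)]
    · refine (h2.2.2 h0).2.trans ?_
      refine (congrArg (fun w : S.T (CV D D) => w.bind (muA c iv n j)) h1.2.2.2).trans ?_
      show _ = alU c iv n j (q.1 - 1, true)
      rcases Nat.eq_or_lt_of_le (show n + 1 ≤ q.1 from hn) with h | h
      · have e2 : q.1 - 1 = n := by omega
        rw [e2, ale (n, true) le_rfl, beU_lt (by simp)]
        refine (congrArg (fun w : S.T (CV D D) => w.bind (muA c iv n j)) (mu_cn hc true)).trans ?_
        exact muA_z_le (c := c) (iv := iv) (j := j) (q := (n, true)) le_rfl (by simp)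
      · rw [agt (q.1 - 1, true) (by show n < q.1 - 1; omega)]
  · have h1 := beU_mapAt (S := S) hj q hq
    unfold MapAt at h1 ⊢
    rw [ale q hn]
    refine ⟨h1.1, h1.2.1, fun h0 => ?_⟩
    have h0' : 0 < q.1 := h0
    have e1 := ale (q.1 - 1, false) (by show q.1 - 1 ≤ n; omega)
    have e2 := ale (q.1 - 1, true) (by show q.1 - 1 ≤ n; omega)
    exact ⟨(h1.2.2 h0).1.trans e1.symm, (h1.2.2 h0).2.trans e2.symm⟩

end HH
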