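import Pool.Agent.HH.Rank
import Pool.Agent.HH.CylUP
import Pool.Agent.HH.Mu

/-!
# HH stage 1, module 14: the family `κ`
-/

set_option autoImplicit false

namespace HH

open Classical

variable {S : Sig}

private lemma kf_bdD_bdD {q r : D} (h : q.1 ≤ r.1) (s : D) :
    bdD (bdD r q) s = bdD r (bdD q s) := by
  unfold bdD
  split_ifs <;> first | rfl | (exfalso; omega) | simp_all

private lemma kf_dim {q r : D} (h : q.1 ≤ r.1) : (bdD r q).1 = q.1 := by
  unfold bdD
  split_ifs with h1
  · rfl
  · omega

private lemma kf_lt {q r : D} (h : q.1 < r.1) : bdD r q = q := if_pos h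

private lemma kf_base (r : D) : bdD r (r.1, false) = r := if_neg (lt_irrefl _)

private lemma kf_map_map {A B A' B' A'' B'' : Type} (f : A → A') (g : B → B') (f' : A' → A'')
    (g' : B' → B'') (v : CV A B) : CV.map f' g' (CV.map f g v) =
      CV.map (fun a => f' (f a)) (fun b => g' (g b)) v := by
  cases v <;> rfl

/-- the renaming `ζ_r : U_(r.1) ⟶ U_j` -/
private def kf_z (S : Sig) (r : D) : CV D D → S.T (CV D D) := fun v => .var (CV.map (bdD r) (bdD r) v)

private lemma kf_asg (n : ℕ) {j : ℕ} {r : D} (hr : r.1 < j) (B : ℕ) :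
    IsAsg B (U S n r.1) (U S n j).m (kf_z S r) := by
  intro v hv _
  have h := U_map (S := S) (a := diskG j) (p := r) (Or.inl hr) n v hv
  have hb : (diskG j).bd r = bdD r := by
    funext q; exact diskG_bd j r q
  rw [hb] at h
  obtain ⟨h1, h2, h3⟩ := h
  refine ⟨h1, h2, fun h0 => ?_⟩
  obtain ⟨h4, h5⟩ := h3 h0
  exact ⟨congrArg Tm.var h4, congrArg Tm.var h5⟩

/-- (C) -/
private lemma kf_e (κ : XFam S) {q r : D} (h : q.1 ≤ r.1) :
    ((κ q.1).map (CV.map (bdD q) (bdD q))).bind (kf_z S r) =
      (κ (bdD r q).1).map (CV.map (bdD (bdD r q)) (bdD (bdD r q))) := by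
  rw [kf_dim h, Tm.map_bind]
  unfold Tm.map kf_z
  congr 1
  funext v
  rw [kf_map_map]
  have : bdD (bdD r q) = fun s => bdD r (bdD q s) := funext fun s => kf_bdD_bdD h s
  rw [this]

private lemma kf_be {n : ℕ} {q r : D} (hn : n < r.1) (h : q.1 ≤ r.1) :
    (beU S n q).bind (kf_z S r) = beU S n (bdD r q) := by
  rcases Nat.lt_or_ge q.1 r.1 with h1 | h1
  · rw [kf_lt h1]
    unfold beU kf_z
    split_ifs <;> simp [kf_lt h1]
  · have h2 : bdD r q = r := if_neg (by omega)
    have h3 : q ≠ (n, false) := by
      rintro rfl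
      simp only at h1
      omega
    have h4 : r ≠ (n, false) := by
      rintro rfl
      simp only at hn
      omega
    unfold beU kf_z
    rw [h2, if_neg h3, if_neg h4]
    simp [h2]

/-- (B) -/
private lemma kf_mu [S.Good] [S.Strat] (c : XFam S) {iv : S.T D} {n j : ℕ} (hiv : IsInv S n iv)
    {r : D} (hn : n < r.1) (hr : r.1 < j) {w : CV D D} (hw : (U S n r.1).ok w) :
    (muA c iv n r.1 w).bind (kf_z S r) = muA c iv n j (CV.map (bdD r) (bdD r) w) := by
  have hat : ∀ y : S.T (CV D D), (U S n r.1).tok y →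
      (atCell (U S n r.1).m iv y).bind (kf_z S r) = atCell (U S n j).m iv (y.bind (kf_z S r)) := by
    intro y hy
    exact eval_atCell (X := U S n r.1) (M := (U S n j).m) hy (kf_asg n hr _) iv
  cases w with
  | z q =>
    have hq : q.1 ≤ r.1 := by
      rcases (show q.1 < r.1 ∨ (q.1 = r.1 ∧ q.2 = false) from hw) with h | h <;> omega
    rw [CV.map_z]
    unfold muA
    simp only []
    rw [kf_dim hq]
    by_cases h1 : n < q.1
    · rw [if_pos h1, if_pos h1]
      have := kf_e c hq
      rw [kf_dim hq] at this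
      exact this
    · rw [if_neg h1, if_neg h1]
      have h2 : bdD r q = q := kf_lt (by omega)
      rw [h2]
      unfold kf_z
      split_ifs <;> simp [h2]
  | top q =>
    have hq : q.1 = n := hw.2
    have h2 : bdD r q = q := kf_lt (by omega)
    rw [CV.map_top, h2]
    unfold muA kf_z
    simp only []
    split_ifs <;> simp [h2]
  | cyl q =>
    have hq : q.1 = n := hw.2
    have h2 : bdD r q = q := kf_lt (by omega)
    have h3 : (U S n r.1).tok (.var (.cyl q)) := hw
    have h4 : (Tm.var (.cyl q) : S.T (CV D D)).bind (kf_z S r) = .var (.cyl q) := by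
      unfold kf_z
      simp [h2]
    rw [CV.map_cyl, h2]
    unfold muA
    simp only []
    have h7 : (atCell (U S n r.1).m iv (.var (.cyl q))).bind (kf_z S r) =
        atCell (U S n j).m iv (.var (.cyl q)) :=
      (hat _ h3).trans (congrArg (atCell (U S n j).m iv) h4)
    by_cases h5 : q = (n, false)
    · rw [if_pos h5, if_pos h5]
      exact h7
    · rw [if_neg h5, if_neg h5]
      have h6 := (atCell_inv (M := (U S n r.1).m) hiv (y := .var (.cyl q)) h3
        (by change q.1 + 1 = n + 1; omega)).1
      exact (hat _ h6).trans (congrArg (atCell (U S n j).m iv) h7)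

/-- (A) -/
private lemma kf_al [S.Good] [S.Strat] {c : XFam S} {iv : S.T D} {n j : ℕ} (hc : CGood c n)
    (hiv : IsInv S n iv) {r : D} (hn : n < r.1) (hr : r.1 < j) {q : D}
    (hq : (diskG r.1).ok q) :
    (alU c iv n r.1 q).bind (kf_z S r) = alU c iv n j (bdD r q) := by
  have hq' : q.1 ≤ r.1 := by
    rcases (show q.1 < r.1 ∨ (q.1 = r.1 ∧ q.2 = false) from hq) with h | h <;> omega
  unfold alU
  rw [kf_dim hq']
  by_cases h1 : n < q.1
  · rw [if_pos h1, if_pos h1, Tm.bind_bind, Tm.map_bind, Tm.map_bind]
    refine bind_congr (X := U S n q.1) _ (hc.at' q.1 h1.le).1 fun v hv => ?_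
    have hb : ∀ w : CV D D, (U S n q.1).ok w → (U S n r.1).ok (CV.map (bdD q) (bdD q) w) := by
      intro w hw
      have hqq : ∀ s : D, (diskG q.1).ok s → (diskG r.1).ok (bdD q s) := by
        intro s hs
        rcases (show s.1 < q.1 ∨ (s.1 = q.1 ∧ s.2 = false) from hs) with h | h
        · rw [kf_lt h]
          exact Or.inl (by omega)
        · have : bdD q s = q := if_neg (by omega)
          rw [this]
          exact hq
      cases w with
      | z s => exact hqq s hw
      | top s => exact ⟨hqq s hw.1, by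
          have h3 : bdD q s = s := kf_lt (by have : s.1 = n := hw.2; omega)
          rw [h3]; exact hw.2⟩
      | cyl s => exact ⟨hqq s hw.1, by
          have h3 : bdD q s = s := kf_lt (by have : s.1 = n := hw.2; omega)
          rw [h3]; exact hw.2⟩
    have h2 := kf_mu c hiv hn hr (hb v hv)
    have h3 : CV.map (bdD r) (bdD r) (CV.map (bdD q) (bdD q) v) =
        CV.map (bdD (bdD r q)) (bdD (bdD r q)) v := by
      rw [kf_map_map]
      have : bdD (bdD r q) = fun s => bdD r (bdD q s) := funext fun s => kf_bdD_bdD hq' s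
      rw [this]
    exact h2.trans (congrArg (muA c iv n j) h3)
  · rw [if_neg h1, if_neg h1]
    exact kf_be hn hq'

/-- the cylinder cell of a lower `κ`, transported to `U_j` -/
private lemma kf_low [S.Good] [S.Strat] {c : XFam S} {iv : S.T D} {n L : ℕ} (hc : CGood c n)
    (hiv : IsInv S n iv) {x : XFam S} (hx : XGood x (n + 1) L) {κ : XFam S} {j : ℕ} (hj : j ≤ L)
    {r : D} (hn : n < r.1) (hr : r.1 < j) (hk : KGoodAt x c iv κ n r.1) :
    CylAt (U S n j).m x (diskG j) (alU c iv n j) (beU S n)
      (fun q => (κ q.1).map (CV.map (bdD q) (bdD q))) r := by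
  have h := CylAt.eval (W := diskG r.1) (p := (r.1, false)) (M := (U S n j).m)
    (γ := kf_z S r) (kf_asg n hr _) hk.2
  obtain ⟨h1, h2, h3, h4⟩ := h
  have e1 : ((κ r.1).map (CV.map (bdD (r.1, false)) (bdD (r.1, false)))).bind (kf_z S r) =
      (κ r.1).map (CV.map (bdD r) (bdD r)) := by
    have := kf_e κ (q := (r.1, false)) (r := r) le_rfl
    rw [kf_base] at this
    exact this
  have h1' : (U S n j).tok ((κ r.1).map (CV.map (bdD r) (bdD r))) :=
    (congrArg (fun t : S.T (CV D D) => (U S n j).tok t) e1).mp h1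
  have h2' : (U S n j).tdim ((κ r.1).map (CV.map (bdD r) (bdD r))) = r.1 + 1 :=
    (congrArg (fun t : S.T (CV D D) => (U S n j).tdim t) e1).symm.trans h2
  have h3' : (U S n j).tsrc ((κ r.1).map (CV.map (bdD r) (bdD r))) =
      cs (U S n j).m x (diskG r.1) (fun q => (alU c iv n r.1 q).bind (kf_z S r))
      (fun q => (beU S n q).bind (kf_z S r))
      (fun q => ((κ q.1).map (CV.map (bdD q) (bdD q))).bind (kf_z S r)) (r.1, false) :=
    (congrArg (fun t : S.T (CV D D) => (U S n j).tsrc t) e1).symm.trans h3
  have h4' : (U S n j).ttgt ((κ r.1).map (CV.map (bdD r) (bdD r))) =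
      (beU S n (r.1, false)).bind (kf_z S r) :=
    (congrArg (fun t : S.T (CV D D) => (U S n j).ttgt t) e1).symm.trans h4
  have hbd : ∀ q : D, (diskG r.1).bd (r.1, false) q = bdD (r.1, false) q := diskG_bd _ _
  have hok : ∀ q : D, (diskG r.1).ok (bdD (r.1, false) q) := by
    intro q
    unfold bdD
    split_ifs with h
    · exact Or.inl h
    · exact Or.inr ⟨rfl, rfl⟩
  have hdim : ∀ q : D, (bdD (r.1, false) q).1 ≤ r.1 := by
    intro q
    unfold bdD
    split_ifs with h
    · exact le_of_lt h
    · exact le_rfl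
  refine ⟨h1', h2', ?_, ?_⟩
  · refine h3'.trans ?_
    have hcomp := cs_comp (M := (U S n j).m) x (W := diskG j) (W' := diskG r.1) (bdD r)
      (alU c iv n j) (beU S n) (fun q => (κ q.1).map (CV.map (bdD q) (bdD q))) (r.1, false)
      (by rw [kf_base]; rfl) (fun q => by
        rw [diskG_bd, diskG_bd, kf_base]
        have := kf_bdD_bdD (q := (r.1, false)) (r := r) le_rfl q
        rw [kf_base] at this
        exact this.symm)
    rw [kf_base] at hcomp
    rw [← hcomp]
    refine cs_congr (N := n + 1) (W := diskG r.1) (p := (r.1, false))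
      (hx.at' r.1 (by omega) (by omega)).1 ?_ ?_ ?_
    · intro q _
      rw [hbd]
      exact kf_al hc hiv hn hr (hok q)
    · intro q _ _
      rw [hbd]
      exact kf_be hn (hdim q)
    · intro q _ _
      rw [hbd]
      exact kf_e κ (hdim q)
  · refine h4'.trans ?_
    have := kf_be (S := S) (n := n) (q := (r.1, false)) (r := r) hn le_rfl
    rw [kf_base] at this
    exact this

private lemma kf_selfv {n j : ℕ} {v : CV D D} (hv : (U S n j).ok v) :
    CV.map (bdD (j, false)) (bdD (j, false)) v = v := by
  have hd : ∀ s : D, (diskG j).ok s → bdD (j, false) s = s := by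
    intro s hs
    rcases (show s.1 < j ∨ (s.1 = j ∧ s.2 = false) from hs) with h | h
    · exact if_pos h
    · have : s = (j, false) := Prod.ext h.1 h.2
      rw [this]
      exact if_neg (lt_irrefl _)
  cases v with
  | z s => rw [CV.map_z, hd s hv]
  | top s => rw [CV.map_top, hd s hv.1]
  | cyl s => rw [CV.map_cyl, hd s hv.1]

private lemma kf_self {n j : ℕ} {t : S.T (CV D D)} (ht : (U S n j).tok t) :
    t.map (CV.map (bdD (j, false)) (bdD (j, false))) = t := by
  have h : t.bind (fun v => Tm.var (CV.map (bdD (j, false)) (bdD (j, false)) v)) =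
      t.bind Tm.var :=
    bind_congr (X := U S n j) t ht fun v hv => congrArg Tm.var (kf_selfv (S := S) (n := n) hv)
  exact h.trans (Tm.bind_var_self t)

private lemma kf_cs {c : XFam S} {iv : S.T D} {n L : ℕ} {x : XFam S} (hx : XGood x (n + 1) L)
    {κ κ' : XFam S} {j : ℕ} (hn : n < j) (hj : j ≤ L) (h : ∀ i, i < j → κ i = κ' i) :
    cs (U S n j).m x (diskG j) (alU c iv n j) (beU S n)
      (fun q => (κ q.1).map (CV.map (bdD q) (bdD q))) (j, false) =
    cs (U S n j).m x (diskG j) (alU c iv n j) (beU S n)
      (fun q => (κ' q.1).map (CV.map (bdD q) (bdD q))) (j, false) := by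
  refine cs_congr (N := n + 1) (W := diskG j) (p := (j, false)) (hx.at' j (by omega) hj).1
    (fun q _ => rfl) (fun q _ _ => rfl) ?_
  intro q _ h2
  have h3 : q.1 < j := h2
  rw [diskG_bd, show bdD (j, false) q = q from if_pos h3, h q.1 h3]

theorem exists_kappa [S.Good] [S.Strat] (h : S.Hyp) {c : XFam S} {iv : S.T D} {n L : ℕ}
    (hc : CGood c n) (hiv : IsInv S n iv) {x : XFam S} (hx : XGood x (n + 1) L) :
    ∃ κ : XFam S, ∀ j, n < j → j ≤ L → KGoodAt x c iv κ n j := by
  have : Nonempty (S.T (CV D D)) := ⟨.var (.z (0, false))⟩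
  refine exists_ranked (I := ℕ) (fun j => j) (T := fun _ => S.T (CV D D))
    (fun j κ => n < j → j ≤ L → KGoodAt x c iv κ n j) ?_ ?_
  · intro j κ κ' h1 h2 hk hn hj
    obtain ⟨a1, a2, a3, a4, a5⟩ := hk hn hj
    have e1 : (fun q : D => (κ q.1).map (CV.map (bdD q) (bdD q))) (j, false) =
        (fun q : D => (κ' q.1).map (CV.map (bdD q) (bdD q))) (j, false) := by
      simp only []
      rw [h2]
    have e2 := kf_cs (c := c) (iv := iv) hx hn hj h1
    exact ⟨(congrArg (fun t : S.T (CV D D) => (U S n j).tok t) h2).mp a1,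
      (congrArg (fun t : S.T (CV D D) => (U S n j).tok t) e1).mp a2,
      (congrArg (fun t : S.T (CV D D) => (U S n j).tdim t) e1).symm.trans a3,
      ((congrArg (fun t : S.T (CV D D) => (U S n j).tsrc t) e1).symm.trans a4).trans e2,
      (congrArg (fun t : S.T (CV D D) => (U S n j).ttgt t) e1).symm.trans a5⟩
  · intro j κ hκ
    by_cases hnj : n < j ∧ j ≤ L
    · obtain ⟨hn, hj⟩ := hnj
      have hspec := cs_spec (x := x) (N := n + 1) (W := diskG j) (M := (U S n j).m)
        (α := alU c iv n j) (β := beU S n) (e := fun q => (κ q.1).map (CV.map (bdD q) (bdD q)))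
        (p := (j, false)) (Or.inr ⟨rfl, rfl⟩) (show n + 1 ≤ j by omega)
        (fun i h1 h2 => hx.at' i h1 (le_trans (show i ≤ j from h2) hj)) ?_ ?_ ?_ ?_
      · obtain ⟨b1, b2, b3⟩ := hspec
        have hpar : (U S n j).Par (cs (U S n j).m x (diskG j) (alU c iv n j) (beU S n)
            (fun q => (κ q.1).map (CV.map (bdD q) (bdD q))) (j, false)) (beU S n (j, false)) := by
          have hb := beU_mapAt (S := S) hn (j, false) (Or.inr ⟨rfl, rfl⟩)
          refine ⟨b1, hb.1, ?_, ?_⟩
          · rw [b2, hb.2.1]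
          · intro h0
            have hj0 : 0 < j := by omega
            obtain ⟨b4, b5⟩ := b3 hj0
            obtain ⟨b6, b7⟩ := hb.2.2 hj0
            exact ⟨b4.trans b6.symm, b5.trans b7.symm⟩
        obtain ⟨t, t1, t2, t3, t4⟩ := h _ (ArCl.ins _ n (ArCl.disk j)) (j + 1) _ _ hpar (by
          rw [b2]; exact Nat.lt_succ_self j)
        have t1' : (U S n j).tok (t : S.T (CV D D)) := t1
        generalize (t : S.T (CV D D)) = t at t1 t2 t3 t4 t1'
        refine ⟨Function.update κ j t, ?_, ?_⟩
        · intro i hi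
          exact Function.update_of_ne (by omega) _ _
        · intro _ _
          have hu : Function.update κ j t j = t := Function.update_self _ _ _
          have e2 := kf_cs (c := c) (iv := iv) (κ := κ) (κ' := Function.update κ j t) hx hn hj
            (fun i hi => (Function.update_of_ne (by omega) _ _).symm)
          have e3 : (fun q : D => (Function.update κ j t q.1).map (CV.map (bdD q) (bdD q)))
              (j, false) = t := by
            simp only []
            rw [hu]
            exact kf_self t1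
          exact ⟨(congrArg (fun t : S.T (CV D D) => (U S n j).tok t) hu).mpr t1,
            (congrArg (fun t : S.T (CV D D) => (U S n j).tok t) e3).mpr t1,
            ((congrArg (fun t : S.T (CV D D) => (U S n j).tdim t) e3).trans t2).trans
              (congrArg (· + 1) b2),
            ((congrArg (fun t : S.T (CV D D) => (U S n j).tsrc t) e3).trans t3).trans e2,
            (congrArg (fun t : S.T (CV D D) => (U S n j).ttgt t) e3).trans t4⟩
      · intro r _
        rw [diskG_bd]
        refine alU_mapAt hc hiv hn _ ?_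
        unfold bdD
        split_ifs with h1
        · exact Or.inl h1
        · exact Or.inr ⟨rfl, rfl⟩
      · intro r hr
        rw [diskG_bd]
        refine beU_mapAt hn _ ?_
        unfold bdD
        split_ifs with h1
        · exact Or.inl h1
        · exact Or.inr ⟨rfl, rfl⟩
      · intro r h1 h2
        have h3 : r.1 < j := h2
        rw [diskG_bd, show bdD (j, false) r = r from if_pos h3]
        unfold alU
        rw [if_neg (by omega)]
      · intro r h1 h2
        have h3 : r.1 < j := h2
        rw [diskG_bd, show bdD (j, false) r = r from if_pos h3]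
        exact kf_low hc hiv hx hj (by omega) h3 (hκ r.1 h3 (by omega) (by omega))
    · refine ⟨κ, fun _ _ => rfl, fun h1 h2 => absurd ⟨h1, h2⟩ hnj⟩

end HH
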