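import Pool.Agent.HH.Bd
import Pool.Agent.HH.InsG

/-!
# HH stage 1, module Phi: the map from the whiskered arity to the inserted arity
-/

set_option autoImplicit false

namespace HH

open Classical

variable {S : Sig}

theorem phi_map {G H : Glob} {f : G.C → H.C} (hf : ∀ p, G.ok p → MapAt G H f p)
    {t : S.T G.C} (ht : (ofGlob S G).tok t) :
    (ofGlob S H).tok (t.map f) ∧ (ofGlob S H).tdim (t.map f) = (ofGlob S G).tdim t ∧
      (0 < (ofGlob S G).tdim t →
        (ofGlob S H).tsrc (t.map f) = ((ofGlob S G).tsrc t).map f ∧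
        (ofGlob S H).ttgt (t.map f) = ((ofGlob S G).ttgt t).map f) :=
  eval_mapAt (X := ofGlob S G) (M := (ofGlob S H).m) (γ := fun v => .var (f v))
    (fun v hv => ⟨(hf v hv).1, (hf v hv).2.1, fun h0 =>
      ⟨congrArg Tm.var ((hf v hv).2.2 h0).1, congrArg Tm.var ((hf v hv).2.2 h0).2⟩⟩) t ht

theorem phiA_mapAt [S.Good] [S.Strat] {c : XFam S} {n : ℕ} (hc : CGood c n) {a : Glob} [a.Laws]
    (v : CV a.C a.C) (hv : (whiskG a n).ok v) :
    MapAt (whiskG a n) (ofGlob S (insG a n)).m.toGlob (phiA c a n) v := by
  -- values of `phiA` on the old cells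
  have pz : ∀ p : a.C, a.dim p < n → phiA c a n (.z p) = .var (.z p) := fun p hp =>
    if_neg (by omega)
  have pn : ∀ p : a.C, a.dim p = n → phiA c a n (.z p) = .var (.z p) := by
    intro p hp
    have e1 : phiA c a n (.z p) = (c (a.dim p)).map (CV.map (a.bd p) (a.bd p)) :=
      if_pos (by omega)
    rw [e1, hp, hc.base]
    show Tm.var (CV.z (a.bd p (n, false))) = _
    rw [bd_of_le p (n, false) (by show a.dim p ≤ n; omega)]
  have ple : ∀ p : a.C, a.dim p ≤ n → phiA c a n (.z p) = .var (.z p) := fun p hp => by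
    rcases Nat.lt_or_eq_of_le hp with h | h
    · exact pz p h
    · exact pn p h
  have pgt : ∀ p : a.C, n ≤ a.dim p →
      phiA c a n (.z p) = (c (a.dim p)).map (CV.map (a.bd p) (a.bd p)) := fun p hp => if_pos hp
  have sz : ∀ p : a.C, a.dim p ≤ n → (insG a n).src (.z p) = .z (a.src p) := fun p hp =>
    if_neg (by omega)
  match v, hv with
  | .top v, hv =>
    have hv' : a.ok v ∧ a.dim v = n := hv
    refine ⟨hv', rfl, fun h0 => ?_⟩
    have h0' : 0 < a.dim v := h0
    have e1 := ple (a.src v) (by have := Glob.Laws.dim_src v hv'.1 h0'; omega)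
    have e2 := ple (a.tgt v) (by have := Glob.Laws.dim_tgt v hv'.1 h0'; omega)
    exact ⟨e1.symm, e2.symm⟩
  | .cyl v, hv =>
    have hv' : a.ok v ∧ a.dim v = n := hv
    exact ⟨hv', rfl, fun h0 => ⟨(pn v hv'.2).symm, rfl⟩⟩
  | .z p, hv =>
    have hv' : a.ok p := hv
    rcases Nat.lt_or_ge n (a.dim p) with hn | hn
    · -- the interesting case
      have hcj := hc.at' (a.dim p) (by omega)
      have h1 := phi_map (S := S) (G := insG (diskG (a.dim p)) n) (H := insG a n)
        (f := CV.map (a.bd p) (a.bd p)) (fun v hv => U_map (S := S) hv' n v hv) hcj.1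
      have e0 := pgt p (by omega)
      have key : ∀ (q : D) (b : a.C), q.1 < a.dim p → a.bd p q = b → a.dim b = q.1 →
          ((c q.1).map (CV.map (bdD q) (bdD q))).map (CV.map (a.bd p) (a.bd p)) =
            (c (a.dim b)).map (CV.map (a.bd b) (a.bd b)) := by
        intro q b hq hb hdb
        have e : ((c q.1).map (CV.map (bdD q) (bdD q))).map (CV.map (a.bd p) (a.bd p)) =
            (c q.1).map (fun v => CV.map (a.bd p) (a.bd p) (CV.map (bdD q) (bdD q) v)) :=
          Tm.map_bind _ _ _
        rw [e, hdb]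
        congr 1
        funext w
        have e' : ∀ r, a.bd p (bdD q r) = a.bd b r := fun r => by
          rw [← hb, bd_bd hv' (by omega) r]
        cases w <;> simp [e']
      refine ⟨?_, ?_, fun h0 => ⟨?_, ?_⟩⟩
      · rw [e0]
        exact h1.1
      · rw [e0]
        exact h1.2.1.trans hcj.2.1
      · have h0' : 0 < a.dim p := h0
        have hd := Glob.Laws.dim_src p hv' h0'
        have e1 := pgt (a.src p) (by omega)
        rw [e0]
        refine (h1.2.2 (by rw [hcj.2.1]; exact h0')).1.trans ?_
        refine (congrArg (fun w : S.T (CV D D) => w.map (CV.map (a.bd p) (a.bd p)))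
          (hcj.2.2 hn).1).trans ?_
        refine (key (a.dim p - 1, false) (a.src p) (by show a.dim p - 1 < a.dim p; omega)
          (bd_pred_false h0') (by show a.dim (a.src p) = a.dim p - 1; omega)).trans ?_
        exact e1.symm
      · have h0' : 0 < a.dim p := h0
        have hd := Glob.Laws.dim_tgt p hv' h0'
        have e1 := pgt (a.tgt p) (by omega)
        rw [e0]
        refine (h1.2.2 (by rw [hcj.2.1]; exact h0')).2.trans ?_
        refine (congrArg (fun w : S.T (CV D D) => w.map (CV.map (a.bd p) (a.bd p)))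
          (hcj.2.2 hn).2).trans ?_
        refine (key (a.dim p - 1, true) (a.tgt p) (by show a.dim p - 1 < a.dim p; omega)
          (bd_pred_true h0') (by show a.dim (a.tgt p) = a.dim p - 1; omega)).trans ?_
        exact e1.symm
    · have e0 := ple p hn
      refine ⟨?_, ?_, fun h0 => ⟨?_, ?_⟩⟩
      · rw [e0]
        exact hv'
      · rw [e0]
        rfl
      · have h0' : 0 < a.dim p := h0
        have hd := Glob.Laws.dim_src p hv' h0'
        rw [e0]
        refine (congrArg Tm.var (sz p hn)).trans ?_
        exact (ple (a.src p) (by omega)).symm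
      · have h0' : 0 < a.dim p := h0
        have hd := Glob.Laws.dim_tgt p hv' h0'
        rw [e0]
        exact (ple (a.tgt p) (by omega)).symm

end HH
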