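import Pool.Agent.HH.Bd

/-!
# HH stage 1, module CSLem: elementary properties of `cs` and `CylAt`
-/

set_option autoImplicit false

namespace HH

open Classical

variable {S : Sig}

/-- naturality of `cs` under evaluation -/
theorem cs_eval {X : Cptd S} {M : Model S} (γ : X.V → M.C) (x : XFam S) (W : Glob)
    (α β e : W.C → S.T X.V) (p : W.C) :
    M.eval γ (cs X.m x W α β e p) =
      cs M x W (fun p => M.eval γ (α p)) (fun p => M.eval γ (β p)) (fun p => M.eval γ (e p)) p := by
  unfold cs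
  refine (eval_bind M γ _ (x (W.dim p))).trans ?_
  congr 1
  funext v
  cases v <;> rfl

/-- precomposition with a map of globular sets -/
theorem cs_comp {M : Model S} (x : XFam S) {W W' : Glob} (f : W'.C → W.C)
    (α β e : W.C → M.C) (p : W'.C) (hd : W.dim (f p) = W'.dim p)
    (hf : ∀ q, f (W'.bd p q) = W.bd (f p) q) :
    cs M x W' (fun p => α (f p)) (fun p => β (f p)) (fun p => e (f p)) p = cs M x W α β e (f p) := by
  unfold cs
  simp only [hf, hd]

/-- `cs` only depends on the values at the boundary -/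
theorem cs_congr {M : Model S} {x : XFam S} {W : Glob} {N : ℕ} {α β e α' β' e' : W.C → M.C} {p : W.C}
    (hx : (CylG x (diskG (W.dim p)) N (W.dim p)).tok (x (W.dim p)))
    (hα : ∀ q : D, q.1 ≤ W.dim p → α (W.bd p q) = α' (W.bd p q))
    (hβ : ∀ q : D, N ≤ q.1 → q.1 < W.dim p → β (W.bd p q) = β' (W.bd p q))
    (he : ∀ q : D, N ≤ q.1 → q.1 < W.dim p → e (W.bd p q) = e' (W.bd p q)) :
    cs M x W α β e p = cs M x W α' β' e' p := by
  unfold cs
  refine eval_congr (X := CylG x (diskG (W.dim p)) N (W.dim p)) (x (W.dim p)) hx ?_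
  intro v hv
  cases v with
  | z q =>
    have hq : q.1 < W.dim p ∨ (q.1 = W.dim p ∧ q.2 = false) := hv
    exact hα q (by omega)
  | top q =>
    obtain ⟨-, h1, h2⟩ := hv
    exact hβ q h1 h2
  | cyl q =>
    obtain ⟨-, h1, h2⟩ := hv
    exact he q h1 h2

theorem CylAt.eval [S.Strat] {X : Cptd S} {M : Model S} [M.OpLaws] {x : XFam S} {W : Glob}
    {α β e : W.C → S.T X.V} {p : W.C} {γ : X.V → M.C} (hγ : IsAsg (W.dim p + 2) X M γ)
    (h : CylAt X.m x W α β e p) :
    CylAt M x W (fun p => M.eval γ (α p)) (fun p => M.eval γ (β p)) (fun p => M.eval γ (e p)) p := by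
  obtain ⟨h1, h2, h3, h4⟩ := h
  have h2' : X.tdim (e p) = W.dim p + 1 := h2
  obtain ⟨m1, m2, m3⟩ := eval_isMap hγ (e p) h1 (by change X.tdim (e p) < W.dim p + 2; omega)
  obtain ⟨m4, m5⟩ := m3 (by change 0 < X.tdim (e p); omega)
  refine ⟨m1, m2.trans h2, ?_, ?_⟩
  · rw [m4, ← cs_eval]
    exact congrArg _ h3
  · rw [m5]
    exact congrArg _ h4

theorem CylAt.comp {M : Model S} {x : XFam S} {W W' : Glob} {f : W'.C → W.C}
    {α β e : W.C → M.C} {p : W'.C} (hd : W.dim (f p) = W'.dim p)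
    (hf : ∀ q, f (W'.bd p q) = W.bd (f p) q) (h : CylAt M x W α β e (f p)) :
    CylAt M x W' (fun p => α (f p)) (fun p => β (f p)) (fun p => e (f p)) p := by
  obtain ⟨h1, h2, h3, h4⟩ := h
  refine ⟨h1, by rw [h2, hd], ?_, h4⟩
  rw [cs_comp x f α β e p hd hf]
  exact h3

/-- `cs` at a cell of dimension `N` is `α p` -/
theorem cs_base {x : XFam S} {N : ℕ} (hx : x N = .var (.z (N, false))) {W : Glob} {M : Model S}
    {α β e : W.C → M.C} {p : W.C} (hp : W.dim p = N) : cs M x W α β e p = α p := by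
  unfold cs
  rw [hp, hx]
  change α (W.bd p (N, false)) = α p
  rw [bd_of_le p (N, false) (by change W.dim p ≤ N; omega)]

end HH
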