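import Pool.Agent.HH.Defs1
import Pool.Agent.HH.Bd
import Pool.Agent.HH.CSLem
import Pool.Agent.HH.CylUP

set_option autoImplicit false
namespace HH
open Classical
variable {S : Sig}

/-- inclusion of `Z` in `Cyl` and of `X` in `X.exp` -/
theorem Cyl_incl {x : XFam S} {Z : Cptd S} {W : Glob} {φ : W.C → S.T Z.V} {N J B : ℕ} :
    IsAsg B Z (Cyl x Z W φ N J).m (fun v => .var (.z v)) :=
  fun _ hv _ => ⟨hv, rfl, fun _ => ⟨rfl, rfl⟩⟩

theorem exp_incl {X : Cptd S} {I : Type} {okI : I → Prop} {n B : ℕ} {b : I → S.T X.V} :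
    IsAsg B X (X.exp okI n b).m (fun v => .var (.z v)) :=
  fun _ hv _ => ⟨hv, rfl, fun _ => ⟨rfl, rfl⟩⟩

theorem CylGood_cyl_z_mapAt {x : XFam S} {Z : Cptd S} {W : Glob} {φ : W.C → S.T Z.V} {N J : ℕ}
    (t : S.T Z.V) (ht : Z.tok t) :
    MapAt Z.m.toGlob (Cyl x Z W φ N J).m.toGlob (fun t => t.map .z) t :=
  eval_mapAt (M := (Cyl x Z W φ N J).m) (fun v hv => Cyl_incl (B := Z.dim v + 1) v hv
    (Nat.lt_succ_self _)) t ht

theorem CylGood_exp_z_mapAt {X : Cptd S} {I : Type} {okI : I → Prop} {n : ℕ} {b : I → S.T X.V}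
    (t : S.T X.V) (ht : X.tok t) :
    MapAt X.m.toGlob (X.exp okI n b).m.toGlob (fun t => t.map .z) t :=
  eval_mapAt (M := (X.exp okI n b).m) (fun v hv => exp_incl (B := X.dim v + 1) v hv
    (Nat.lt_succ_self _)) t ht

/-- the source of `cyl p` -/
theorem CylGood_cyl_src_spec [S.Strat] {x : XFam S} {Z : Cptd S} {W : Glob} [W.Laws]
    {φ : W.C → S.T Z.V} {N J : ℕ} (hφ : IsMap J W Z.m.toGlob φ) {p : W.C}
    (hx : ∀ j, N ≤ j → j ≤ W.dim p → XGoodAt x N j) (hp : W.ok p) (hN : N ≤ W.dim p)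
    (hJ : W.dim p < J ∨ (W.dim p = J ∧ MapAt W (Cyl x Z W φ N J).m.toGlob
      (fun p => (φ p).map .z) p)) :
    (Cyl x Z W φ N J).tok ((Cyl x Z W φ N J).src (.cyl p)) ∧
      (Cyl x Z W φ N J).tdim ((Cyl x Z W φ N J).src (.cyl p)) = W.dim p ∧
      (0 < W.dim p → (Cyl x Z W φ N J).tsrc ((Cyl x Z W φ N J).src (.cyl p)) =
          tp Z W φ N (W.src p) ∧
        (Cyl x Z W φ N J).ttgt ((Cyl x Z W φ N J).src (.cyl p)) = tp Z W φ N (W.tgt p)) := by
  have hC := Cyl_isCyl (x := x) (N := N) hφ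
  have hlt : ∀ r : D, r.1 < W.dim p → r.1 < J := by
    intro r hr
    rcases hJ with h | h
    · omega
    · omega
  refine cs_spec (M := (Cyl x Z W φ N J).m) (α := fun p => (φ p).map .z) (β := tp Z W φ N)
    (e := fun p => .var (.cyl p)) hp hN hx ?_ ?_ ?_ ?_
  · intro r hr
    rcases Nat.eq_or_lt_of_le hr with h | h
    · rw [bd_of_le p r h.ge]
      rcases hJ with h1 | h1
      · exact hC.mapα p hp h1
      · exact h1.2
    · exact hC.mapα _ (ok_bd hp r) (by rw [dim_bd hp hr]; exact hlt r h)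
  · intro r hr
    exact hC.mapβ _ (ok_bd hp r) (by rw [dim_bd hp hr.le]; exact hlt r hr)
  · intro r hr hr'
    exact hC.low _ (ok_bd hp r) (by rw [dim_bd hp hr'.le]; exact hr)
      (by rw [dim_bd hp hr'.le]; exact hlt r hr')
  · intro r hr hr'
    exact hC.cyl _ (ok_bd hp r) (by rw [dim_bd hp hr'.le]; exact hr)
      (by rw [dim_bd hp hr'.le]; exact hlt r hr')

theorem Cyl_good [S.Good] [S.Strat] {x : XFam S} {Z : Cptd S} [Z.Good] {W : Glob} [W.Laws]
    {φ : W.C → S.T Z.V} {N J : ℕ} (hφ : IsMap J W Z.m.toGlob φ)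
    (hx : ∀ j, N ≤ j → j < J → XGoodAt x N j) : (Cyl x Z W φ N J).Good := by
  have hC := Cyl_isCyl (x := x) (N := N) hφ
  have hcyl : ∀ p, W.ok p → N ≤ W.dim p → W.dim p < J → _ := fun p hp hN hJ =>
    CylGood_cyl_src_spec (x := x) (Z := Z) (φ := φ) hφ (fun j h1 h2 => hx j h1 (by omega)) hp hN (Or.inl hJ)
  have hs : ∀ p, W.ok p → W.dim p < J → 0 < W.dim p → MapAt W (Cyl x Z W φ N J).m.toGlob
      (tp Z W φ N) (W.src p) := by
    intro p hp hJ h0
    have := Glob.Laws.dim_src p hp h0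
    exact hC.mapβ _ (Glob.Laws.ok_src p hp h0) (by omega)
  have ht : ∀ p, W.ok p → W.dim p < J → 0 < W.dim p → MapAt W (Cyl x Z W φ N J).m.toGlob
      (tp Z W φ N) (W.tgt p) := by
    intro p hp hJ h0
    have := Glob.Laws.dim_tgt p hp h0
    exact hC.mapβ _ (Glob.Laws.ok_tgt p hp h0) (by omega)
  constructor
  · rintro (v | p | p) hv h0
    · exact (CylGood_cyl_z_mapAt (Z.src v) (Cptd.Good.ok_src v hv h0)).1
    · exact (hs p hv.1 hv.2.2 h0).1
    · exact (hcyl p hv.1 hv.2.1 hv.2.2).1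
  · rintro (v | p | p) hv h0
    · exact (CylGood_cyl_z_mapAt (Z.tgt v) (Cptd.Good.ok_tgt v hv h0)).1
    · exact (ht p hv.1 hv.2.2 h0).1
    · exact hv
  · rintro (v | p | p) hv h0
    · have h1 := (CylGood_cyl_z_mapAt (x := x) (W := W) (φ := φ) (N := N) (J := J) (Z.src v)
        (Cptd.Good.ok_src v hv h0)).2.1
      have h2 := Cptd.Good.dim_src v hv h0
      exact (congrArg (· + 1) h1).trans h2
    · have h1 := (hs p hv.1 hv.2.2 h0).2.1
      have h2 := Glob.Laws.dim_src p hv.1 h0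
      exact (congrArg (· + 1) h1).trans h2
    · exact congrArg (· + 1) (hcyl p hv.1 hv.2.1 hv.2.2).2.1
  · rintro (v | p | p) hv h0
    · have h1 := (CylGood_cyl_z_mapAt (x := x) (W := W) (φ := φ) (N := N) (J := J) (Z.tgt v)
        (Cptd.Good.ok_tgt v hv h0)).2.1
      have h2 := Cptd.Good.dim_tgt v hv h0
      exact (congrArg (· + 1) h1).trans h2
    · have h1 := (ht p hv.1 hv.2.2 h0).2.1
      have h2 := Glob.Laws.dim_tgt p hv.1 h0
      exact (congrArg (· + 1) h1).trans h2
    · rfl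
  · rintro (v | p | p) hv h1
    · have h1' : 1 < Z.dim v := h1
      have hs0 := Cptd.Good.ok_src v hv (by omega)
      have ht0 := Cptd.Good.ok_tgt v hv (by omega)
      have ds := Cptd.Good.dim_src v hv (by omega)
      have dt := Cptd.Good.dim_tgt v hv (by omega)
      have a1 := ((CylGood_cyl_z_mapAt (x := x) (W := W) (φ := φ) (N := N) (J := J) (Z.tgt v) ht0).2.2
        (show 0 < Z.tdim (Z.tgt v) by omega)).1
      have a2 := ((CylGood_cyl_z_mapAt (x := x) (W := W) (φ := φ) (N := N) (J := J) (Z.src v) hs0).2.2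
        (show 0 < Z.tdim (Z.src v) by omega)).1
      have a3 := Cptd.Good.src_tgt v hv h1'
      exact a1.trans ((congrArg (fun t : S.T Z.V => t.map CV.z) a3).trans a2.symm)
    · have h1' : 1 < W.dim p := h1
      have ds := Glob.Laws.dim_src p hv.1 (by omega)
      have dt := Glob.Laws.dim_tgt p hv.1 (by omega)
      have a1 := ((ht p hv.1 hv.2.2 (by omega)).2.2 (by omega)).1
      have a2 := ((hs p hv.1 hv.2.2 (by omega)).2.2 (by omega)).1
      have a3 := Glob.Laws.src_tgt p hv.1 h1'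
      exact a1.trans ((congrArg (tp Z W φ N) a3).trans a2.symm)
    · have h1' : 1 < W.dim p + 1 := h1
      exact (((hcyl p hv.1 hv.2.1 hv.2.2).2.2 (by omega)).1).symm
  · rintro (v | p | p) hv h1
    · have h1' : 1 < Z.dim v := h1
      have hs0 := Cptd.Good.ok_src v hv (by omega)
      have ht0 := Cptd.Good.ok_tgt v hv (by omega)
      have ds := Cptd.Good.dim_src v hv (by omega)
      have dt := Cptd.Good.dim_tgt v hv (by omega)
      have a1 := ((CylGood_cyl_z_mapAt (x := x) (W := W) (φ := φ) (N := N) (J := J) (Z.tgt v) ht0).2.2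
        (show 0 < Z.tdim (Z.tgt v) by omega)).2
      have a2 := ((CylGood_cyl_z_mapAt (x := x) (W := W) (φ := φ) (N := N) (J := J) (Z.src v) hs0).2.2
        (show 0 < Z.tdim (Z.src v) by omega)).2
      have a3 := Cptd.Good.tgt_src v hv h1'
      exact a2.trans ((congrArg (fun t : S.T Z.V => t.map CV.z) a3).trans a1.symm)
    · have h1' : 1 < W.dim p := h1
      have ds := Glob.Laws.dim_src p hv.1 (by omega)
      have dt := Glob.Laws.dim_tgt p hv.1 (by omega)
      have a1 := ((ht p hv.1 hv.2.2 (by omega)).2.2 (by omega)).2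
      have a2 := ((hs p hv.1 hv.2.2 (by omega)).2.2 (by omega)).2
      have a3 := Glob.Laws.tgt_src p hv.1 h1'
      exact a2.trans ((congrArg (tp Z W φ N) a3).trans a1.symm)
    · have h1' : 1 < W.dim p + 1 := h1
      exact ((hcyl p hv.1 hv.2.1 hv.2.2).2.2 (by omega)).2

theorem exp_good [S.Good] [S.Strat] {X : Cptd S} [X.Good] {I : Type} {okI : I → Prop} {n : ℕ}
    {b : I → S.T X.V} (hb : ∀ i, okI i → X.tok (b i) ∧ X.tdim (b i) = n) :
    (X.exp okI n b).Good := by
  have L := m_laws X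
  have hz := fun t ht => CylGood_exp_z_mapAt (okI := okI) (n := n) (b := b) (X := X) t ht
  constructor
  · rintro (v | p | p) hv h0
    · exact (hz (X.src v) (Cptd.Good.ok_src v hv h0)).1
    · have h0' : 0 < n := h0
      exact (hz _ (L.ok_src (b p) (hb p hv).1 (by rw [m_dim, (hb p hv).2]; exact h0'))).1
    · exact (hz _ (hb p hv).1).1
  · rintro (v | p | p) hv h0
    · exact (hz (X.tgt v) (Cptd.Good.ok_tgt v hv h0)).1
    · have h0' : 0 < n := h0
      exact (hz _ (L.ok_tgt (b p) (hb p hv).1 (by rw [m_dim, (hb p hv).2]; exact h0'))).1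
    · exact hv
  · rintro (v | p | p) hv h0
    · have h1 := (hz (X.src v) (Cptd.Good.ok_src v hv h0)).2.1
      exact (congrArg (· + 1) h1).trans (Cptd.Good.dim_src v hv h0)
    · have h0' : 0 < X.m.dim (b p) := by rw [m_dim, (hb p hv).2]; exact h0
      have h1 := (hz _ (L.ok_src (b p) (hb p hv).1 h0')).2.1
      exact (congrArg (· + 1) h1).trans ((L.dim_src (b p) (hb p hv).1 h0').trans (hb p hv).2)
    · have h1 := (hz _ (hb p hv).1).2.1
      exact congrArg (· + 1) (h1.trans (hb p hv).2)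
  · rintro (v | p | p) hv h0
    · have h1 := (hz (X.tgt v) (Cptd.Good.ok_tgt v hv h0)).2.1
      exact (congrArg (· + 1) h1).trans (Cptd.Good.dim_tgt v hv h0)
    · have h0' : 0 < X.m.dim (b p) := by rw [m_dim, (hb p hv).2]; exact h0
      have h1 := (hz _ (L.ok_tgt (b p) (hb p hv).1 h0')).2.1
      exact (congrArg (· + 1) h1).trans ((L.dim_tgt (b p) (hb p hv).1 h0').trans (hb p hv).2)
    · rfl
  · rintro (v | p | p) hv h1
    · have h1' : 1 < X.dim v := h1
      have hs0 := Cptd.Good.ok_src v hv (by omega)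
      have ht0 := Cptd.Good.ok_tgt v hv (by omega)
      have ds := Cptd.Good.dim_src v hv (by omega)
      have dt := Cptd.Good.dim_tgt v hv (by omega)
      have a1 := ((hz (X.tgt v) ht0).2.2 (show 0 < X.tdim (X.tgt v) by omega)).1
      have a2 := ((hz (X.src v) hs0).2.2 (show 0 < X.tdim (X.src v) by omega)).1
      have a3 := Cptd.Good.src_tgt v hv h1'
      exact a1.trans ((congrArg (fun t : S.T X.V => t.map CV.z) a3).trans a2.symm)
    · have h1' : 1 < X.m.dim (b p) := by rw [m_dim, (hb p hv).2]; exact h1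
      have ds := L.dim_src (b p) (hb p hv).1 (by omega)
      have dt := L.dim_tgt (b p) (hb p hv).1 (by omega)
      have a1 := ((hz _ (L.ok_tgt (b p) (hb p hv).1 (by omega))).2.2 (by omega)).1
      have a2 := ((hz _ (L.ok_src (b p) (hb p hv).1 (by omega))).2.2 (by omega)).1
      have a3 := L.src_tgt (b p) (hb p hv).1 h1'
      exact a1.trans ((congrArg (fun t : S.T X.V => t.map CV.z) a3).trans a2.symm)
    · have h1' : 0 < X.m.dim (b p) := by
        rw [m_dim, (hb p hv).2]
        have : 1 < n + 1 := h1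
        omega
      exact ((hz _ (hb p hv).1).2.2 h1').1.symm
  · rintro (v | p | p) hv h1
    · have h1' : 1 < X.dim v := h1
      have hs0 := Cptd.Good.ok_src v hv (by omega)
      have ht0 := Cptd.Good.ok_tgt v hv (by omega)
      have ds := Cptd.Good.dim_src v hv (by omega)
      have dt := Cptd.Good.dim_tgt v hv (by omega)
      have a1 := ((hz (X.tgt v) ht0).2.2 (show 0 < X.tdim (X.tgt v) by omega)).2
      have a2 := ((hz (X.src v) hs0).2.2 (show 0 < X.tdim (X.src v) by omega)).2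
      have a3 := Cptd.Good.tgt_src v hv h1'
      exact a2.trans ((congrArg (fun t : S.T X.V => t.map CV.z) a3).trans a1.symm)
    · have h1' : 1 < X.m.dim (b p) := by rw [m_dim, (hb p hv).2]; exact h1
      have ds := L.dim_src (b p) (hb p hv).1 (by omega)
      have dt := L.dim_tgt (b p) (hb p hv).1 (by omega)
      have a1 := ((hz _ (L.ok_tgt (b p) (hb p hv).1 (by omega))).2.2 (by omega)).2
      have a2 := ((hz _ (L.ok_src (b p) (hb p hv).1 (by omega))).2.2 (by omega)).2
      have a3 := L.tgt_src (b p) (hb p hv).1 h1'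
      exact a2.trans ((congrArg (fun t : S.T X.V => t.map CV.z) a3).trans a1.symm)
    · have h1' : 0 < X.m.dim (b p) := by
        rw [m_dim, (hb p hv).2]
        have : 1 < n + 1 := h1
        omega
      exact ((hz _ (hb p hv).1).2.2 h1').2

theorem CylG_good [S.Good] [S.Strat] {x : XFam S} {a : Glob} [a.Laws] {N J : ℕ}
    (hx : ∀ j, N ≤ j → j < J → XGoodAt x N j) : (CylG x a N J).Good :=
  Cyl_good (fun _ hp _ => ⟨hp, rfl, fun _ => ⟨rfl, rfl⟩⟩) hx

end HH
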