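import Pool.Agent.HH.Defs1
import Pool.Agent.HH.Bd
import Pool.Agent.HH.Retract
import Pool.Agent.HH.CylGood
import Pool.Agent.HH.InsG

set_option autoImplicit false
namespace HH
open Classical
variable {S : Sig}

/-- the substitution from `Cyl .. (J+1)` to the expansion of `Cyl .. J` -/
noncomputable def Stage_sig (Z : Cptd S) (W : Glob) (J : ℕ) :
    CV Z.V W.C → S.T (CV (CV Z.V W.C) W.C)
  | .z v => .var (.z (.z v))
  | .top p => if W.dim p < J then .var (.z (.top p)) else .var (.top p)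
  | .cyl p => if W.dim p < J then .var (.z (.cyl p)) else .var (.cyl p)

/-- the renaming from the expansion of `Cyl .. J` to `Cyl .. (J+1)` -/
def Stage_tau (S : Sig) (Z : Cptd S) (W : Glob) :
    CV (CV Z.V W.C) W.C → S.T (CV Z.V W.C)
  | .z v => .var v
  | .top p => .var (.top p)
  | .cyl p => .var (.cyl p)

theorem Stage_sig_top_lt (Z : Cptd S) (W : Glob) (J : ℕ) {p : W.C} (h : W.dim p < J) :
    Stage_sig Z W J (.top p) = .var (.z (.top p)) := if_pos h

theorem Stage_sig_top_ge (Z : Cptd S) (W : Glob) (J : ℕ) {p : W.C} (h : ¬ W.dim p < J) :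
    Stage_sig Z W J (.top p) = .var (.top p) := if_neg h

theorem Stage_sig_cyl_lt (Z : Cptd S) (W : Glob) (J : ℕ) {p : W.C} (h : W.dim p < J) :
    Stage_sig Z W J (.cyl p) = .var (.z (.cyl p)) := if_pos h

theorem Stage_sig_cyl_ge (Z : Cptd S) (W : Glob) (J : ℕ) {p : W.C} (h : ¬ W.dim p < J) :
    Stage_sig Z W J (.cyl p) = .var (.cyl p) := if_neg h

theorem Stage_tau_sig (Z : Cptd S) (W : Glob) (J : ℕ) (v : CV Z.V W.C) :
    (Stage_sig Z W J v).bind (Stage_tau S Z W) = .var v := by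
  cases v with
  | z v => rfl
  | top p =>
    by_cases h : W.dim p < J
    · rw [Stage_sig_top_lt Z W J h]
      rfl
    · rw [Stage_sig_top_ge Z W J h]
      rfl
  | cyl p =>
    by_cases h : W.dim p < J
    · rw [Stage_sig_cyl_lt Z W J h]
      rfl
    · rw [Stage_sig_cyl_ge Z W J h]
      rfl

theorem Stage_sig_z (Z : Cptd S) (W : Glob) (J : ℕ) (t : S.T Z.V) :
    (t.map (CV.z (B := W.C))).bind (Stage_sig Z W J) = (t.map CV.z).map CV.z := by
  unfold Tm.map
  rw [Tm.bind_bind, Tm.bind_bind]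
  rfl

theorem Stage_sig_tp (Z : Cptd S) (W : Glob) (φ : W.C → S.T Z.V) (N J : ℕ) (p : W.C)
    (hp : W.dim p < J) :
    (tp Z W φ N p).bind (Stage_sig Z W J) = (tp Z W φ N p).map CV.z := by
  unfold tp
  split_ifs with h
  · exact Stage_sig_top_lt Z W J hp
  · exact Stage_sig_z Z W J (φ p)

theorem Stage_tau_z (Z : Cptd S) (W : Glob) (t : S.T (CV Z.V W.C)) :
    (t.map (CV.z (B := W.C))).bind (Stage_tau S Z W) = t := by
  rw [Tm.map_bind]
  exact Tm.bind_var_self t

theorem Stage_sig_src {x : XFam S} {Z : Cptd S} {W : Glob} [W.Laws]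
    {φ : W.C → S.T Z.V} {N J : ℕ} {p : W.C} (hp : W.ok p) (hJ : W.dim p ≤ J)
    (hx : XGoodAt x N (W.dim p)) :
    ((Cyl x Z W φ N J).src (.cyl p)).bind (Stage_sig Z W J) =
      ((Cyl x Z W φ N J).src (.cyl p)).map CV.z := by
  show ((x (W.dim p)).bind _).bind (Stage_sig Z W J) = ((x (W.dim p)).bind _).bind _
  rw [Tm.bind_bind, Tm.bind_bind]
  refine bind_congr (X := CylG x (diskG (W.dim p)) N (W.dim p)) _ hx.1 ?_
  rintro (q | q | q) hv
  · exact Stage_sig_z Z W J (φ (W.bd p q))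
  · obtain ⟨h1, h2, h3⟩ := hv
    have h3' : q.1 < W.dim p := h3
    refine Stage_sig_tp Z W φ N J (W.bd p q) ?_
    rw [dim_bd hp h3'.le]
    omega
  · obtain ⟨h1, h2, h3⟩ := hv
    have h3' : q.1 < W.dim p := h3
    refine Stage_sig_cyl_lt Z W J (p := W.bd p q) ?_
    rw [dim_bd hp h3'.le]
    omega

theorem Cyl_step [S.Good] [S.Strat] {x : XFam S} {Z : Cptd S} [Z.Good] {W : Glob} [W.Laws]
    {φ : W.C → S.T Z.V} {N J L : ℕ} (hφ : IsMap (J + 1) W Z.m.toGlob φ)
    (hx : ∀ j, N ≤ j → j ≤ J → XGoodAt x N j) (hNJ : N ≤ J) (hE : ExpOK S L J)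
    (h : (Cyl x Z W φ N J).MContr L) : (Cyl x Z W φ N (J + 1)).MContr L := by
  have hφJ : IsMap J W Z.m.toGlob φ := fun p hp hJ => hφ p hp (by omega)
  have hG : (Cyl x Z W φ N J).Good := Cyl_good hφJ (fun j h1 h2 => hx j h1 h2.le)
  -- the maps in dimension `≤ J`
  have hm : ∀ p, W.ok p → W.dim p ≤ J → MapAt W (Cyl x Z W φ N J).m.toGlob
      (fun p => (φ p).map .z) p := by
    intro p hp hJ
    obtain ⟨a1, a2, a3⟩ := hφ p hp (by omega)
    obtain ⟨b1, b2, b3⟩ := CylGood_cyl_z_mapAt (x := x) (W := W) (φ := φ) (N := N) (J := J) (φ p) a1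
    refine ⟨b1, b2.trans a2, fun h0 => ?_⟩
    obtain ⟨c1, c2⟩ := b3 (by rw [a2]; exact h0)
    obtain ⟨d1, d2⟩ := a3 h0
    exact ⟨c1.trans (congrArg (fun t : S.T Z.V => t.map CV.z) d1),
      c2.trans (congrArg (fun t : S.T Z.V => t.map CV.z) d2)⟩
  have hb : ∀ p, W.ok p → N ≤ W.dim p → W.dim p ≤ J → _ := fun p hp hN hJ =>
    CylGood_cyl_src_spec (x := x) (Z := Z) (φ := φ) (J := J) hφJ (fun j h1 h2 => hx j h1 (by omega)) hp hN
      (by
        rcases Nat.lt_or_eq_of_le hJ with h1 | h1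
        · exact Or.inl h1
        · exact Or.inr ⟨h1, hm p hp hJ⟩)
  have hY : ((Cyl x Z W φ N J).exp (fun p : W.C => W.ok p ∧ W.dim p = J) J
      (fun p => (Cyl x Z W φ N J).src (.cyl p))).MContr L := by
    refine hE (Cyl x Z W φ N J) _ _ ?_ h
    rintro p ⟨hp, hd⟩
    obtain ⟨h1, h2, h3⟩ := hb p hp (by omega) (by omega)
    exact ⟨h1, h2.trans hd⟩
  refine MContr.of_retract (X := Cyl x Z W φ N (J + 1))
    (Y := (Cyl x Z W φ N J).exp (fun p : W.C => W.ok p ∧ W.dim p = J) J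
      (fun p => (Cyl x Z W φ N J).src (.cyl p))) (Stage_sig Z W J) (Stage_tau S Z W) ?_ ?_
    (fun v _ _ => Stage_tau_sig Z W J v) hY
  · rintro (v | p | p) hv hL
    · refine ⟨hv, rfl, fun h0 => ⟨?_, ?_⟩⟩
      · exact (Stage_sig_z Z W J (Z.src v)).symm
      · exact (Stage_sig_z Z W J (Z.tgt v)).symm
    · obtain ⟨hp, hN, hJ⟩ := hv
      have hs : 0 < W.dim p → (tp Z W φ N (W.src p)).bind (Stage_sig Z W J) =
          (tp Z W φ N (W.src p)).map CV.z := by
        intro h0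
        have := Glob.Laws.dim_src p hp h0
        exact Stage_sig_tp Z W φ N J _ (by omega)
      have ht : 0 < W.dim p → (tp Z W φ N (W.tgt p)).bind (Stage_sig Z W J) =
          (tp Z W φ N (W.tgt p)).map CV.z := by
        intro h0
        have := Glob.Laws.dim_tgt p hp h0
        exact Stage_sig_tp Z W φ N J _ (by omega)
      by_cases hc : W.dim p < J
      · have e : Stage_sig Z W J (.top p) = .var (.z (.top p)) := if_pos hc
        unfold AsgAt
        rw [e]
        exact ⟨⟨hp, hN, hc⟩, rfl, fun h0 => ⟨(hs h0).symm, (ht h0).symm⟩⟩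
      · have e : Stage_sig Z W J (.top p) = .var (.top p) := if_neg hc
        have hd : W.dim p = J := by omega
        obtain ⟨h1, h2, h3⟩ := hb p hp hN (by omega)
        unfold AsgAt
        rw [e]
        refine ⟨⟨hp, hd⟩, hd.symm, fun h0 => ?_⟩
        obtain ⟨h4, h5⟩ := h3 h0
        exact ⟨(congrArg (fun t : S.T _ => t.map CV.z) h4).trans (hs h0).symm,
          (congrArg (fun t : S.T _ => t.map CV.z) h5).trans (ht h0).symm⟩
    · obtain ⟨hp, hN, hJ⟩ := hv
      have hsrc := Stage_sig_src (x := x) (Z := Z) (φ := φ) (J := J) hp (by omega)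
        (hx _ hN (by omega))
      by_cases hc : W.dim p < J
      · have e : Stage_sig Z W J (.cyl p) = .var (.z (.cyl p)) := if_pos hc
        have e' : Stage_sig Z W J (.top p) = .var (.z (.top p)) := if_pos hc
        unfold AsgAt
        rw [e]
        exact ⟨⟨hp, hN, hc⟩, rfl, fun h0 => ⟨hsrc.symm, e'.symm⟩⟩
      · have e : Stage_sig Z W J (.cyl p) = .var (.cyl p) := if_neg hc
        have e' : Stage_sig Z W J (.top p) = .var (.top p) := if_neg hc
        have hd : W.dim p = J := by omega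
        unfold AsgAt
        rw [e]
        exact ⟨⟨hp, hd⟩, by show J + 1 = W.dim p + 1; rw [hd], fun h0 => ⟨hsrc.symm, e'.symm⟩⟩
  · rintro (v | p | p) hv hL
    · refine ⟨?_, ?_, fun h0 => ⟨?_, ?_⟩⟩
      · rcases v with v | p | p
        · exact hv
        · obtain ⟨hp, hN, hJ⟩ := hv
          exact ⟨hp, hN, Nat.lt_succ_of_lt hJ⟩
        · obtain ⟨hp, hN, hJ⟩ := hv
          exact ⟨hp, hN, Nat.lt_succ_of_lt hJ⟩
      · rcases v with v | p | p <;> rfl
      · refine Eq.trans ?_ (Stage_tau_z Z W _).symm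
        rcases v with v | p | p <;> rfl
      · refine Eq.trans ?_ (Stage_tau_z Z W _).symm
        rcases v with v | p | p <;> rfl
    · obtain ⟨hp, hd⟩ := hv
      obtain ⟨h1, h2, h3⟩ := hb p hp (by omega) (by omega)
      refine ⟨⟨hp, by omega, by omega⟩, hd, fun h0 => ?_⟩
      obtain ⟨h4, h5⟩ := h3 (by rw [hd]; exact h0)
      exact ⟨h4.symm.trans (Stage_tau_z Z W _).symm, h5.symm.trans (Stage_tau_z Z W _).symm⟩
    · obtain ⟨hp, hd⟩ := hv
      refine ⟨⟨hp, by omega, by omega⟩, by show W.dim p + 1 = J + 1; rw [hd], fun h0 => ?_⟩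
      exact ⟨(Stage_tau_z Z W ((Cyl x Z W φ N J).src (.cyl p))).symm, rfl⟩

theorem Cyl_start [S.Strat] {x : XFam S} {Z : Cptd S} {W : Glob}
    {φ : W.C → S.T Z.V} {N J L : ℕ} (hJ : J ≤ N)
    (h : Z.MContr L) : (Cyl x Z W φ N J).MContr L := by
  refine MContr.of_retract (X := Cyl x Z W φ N J) (Y := Z) (CV.elim .var φ φ)
    (fun v => .var (.z v)) ?_ Cyl_incl ?_ h
  · rintro (v | p | p) hv hL
    · refine ⟨hv, rfl, fun h0 => ⟨?_, ?_⟩⟩
      · show Z.src v = ((Z.src v).map CV.z).bind _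
        rw [Tm.map_bind]
        exact (Tm.bind_var_self _).symm
      · show Z.tgt v = ((Z.tgt v).map CV.z).bind _
        rw [Tm.map_bind]
        exact (Tm.bind_var_self _).symm
    · obtain ⟨hp, h1, h2⟩ := hv
      omega
    · obtain ⟨hp, h1, h2⟩ := hv
      omega
  · rintro (v | p | p) hv hL
    · rfl
    · obtain ⟨hp, h1, h2⟩ := hv
      omega
    · obtain ⟨hp, h1, h2⟩ := hv
      omega

/-- if `Z` is contractible, so is the cylinder computad -/
theorem Cyl_contr [S.Good] [S.Strat] {x : XFam S} {Z : Cptd S} [Z.Good] {W : Glob} [W.Laws]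
    {φ : W.C → S.T Z.V} {N J L : ℕ} (hφ : IsMap J W Z.m.toGlob φ)
    (hx : ∀ j, N ≤ j → j < J → XGoodAt x N j) (hE : ∀ j, N ≤ j → j < J → ExpOK S L j)
    (h : Z.MContr L) : (Cyl x Z W φ N J).MContr L := by
  induction J with
  | zero => exact Cyl_start (Nat.zero_le _) h
  | succ J ih =>
    by_cases hJ : N ≤ J
    · refine Cyl_step hφ (fun j h1 h2 => hx j h1 (by omega)) hJ (hE J hJ (by omega)) ?_
      exact ih (fun p hp hd => hφ p hp (by omega)) (fun j h1 h2 => hx j h1 (by omega))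
        (fun j h1 h2 => hE j h1 (by omega))
    · exact Cyl_start (by omega) h

/-- if the whiskered arity is contractible, so is the cylinder on the arity -/
theorem CylG_contr [S.Good] [S.Strat] {x : XFam S} {n J L : ℕ} (hx0 : x n = .var (.z (n, false)))
    {a : Glob} [a.Laws] (hx : ∀ j, n ≤ j → j < J → XGoodAt x n j)
    (hE : ∀ j, n < j → j < J → ExpOK S L j) (hJ : n < J)
    (h : (Wh S a n).MContr L) : (CylG x a n J).MContr L := by
  induction J with
  | zero => omega
  | succ J ih =>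
    by_cases hJ' : n < J
    · refine Cyl_step (fun p hp hd => ⟨hp, rfl, fun _ => ⟨rfl, rfl⟩⟩)
        (fun j h1 h2 => hx j h1 (by omega)) hJ'.le (hE J hJ' (by omega)) ?_
      exact ih (fun j h1 h2 => hx j h1 (by omega)) (fun j h1 h2 => hE j h1 (by omega)) hJ'
    · obtain rfl : J = n := by omega
      exact CylG_of_whisk hx0 h

end HH
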