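import Pool.Agent.HH.KapW
import Pool.Agent.HH.KFam
import Pool.Agent.HH.CFam
import Pool.Agent.HH.DiskOp
import Pool.Agent.HH.Phi
import Pool.Agent.HH.InsG
import Pool.Agent.HH.Stage
import Pool.Agent.HH.CylUP
import Pool.Agent.HH.Retract
set_option autoImplicit false
namespace HH
open Classical
variable {S : Sig}

/-! ## 16 AN -/
theorem aok_step [S.Good] [S.Strat] (h : S.Hyp) {L n : ℕ} (_hn : n < L)
    (hE : ∀ n', n < n' → n' < L → ExpOK S L n') (hx : ∃ x : XFam S, XGood x (n + 1) L) :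
    AOK S L n := by
  intro a ha
  have hla : a.Laws := ha.laws
  obtain ⟨x, hx⟩ := hx
  obtain ⟨c, hc⟩ := exists_c h n
  obtain ⟨iv, hiv⟩ := exists_isInv (S := S) h n
  obtain ⟨k0, hk0⟩ := exists_isK0 h hiv
  obtain ⟨κ, hκ⟩ := exists_kappa h hc hiv hx
  have hcyl := kapW_isCyl hx hc hiv hk0 hκ (a := a)
  have hφ : IsMap L (whiskG a n) (ofGlob S (insG a n)).m.toGlob (phiA c a n) :=
    fun v hv _ => phiA_mapAt hc v hv
  have hxg : ∀ j, n + 1 ≤ j → j < L → XGoodAt x (n + 1) j :=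
    fun j h1 h2 => hx.at' j h1 h2.le
  have hY : (Cyl x (ofGlob S (insG a n)) (whiskG a n) (phiA c a n) (n + 1) L).MContr L :=
    Cyl_contr hφ hxg (fun j h1 h2 => hE j h1 h2) (h _ (ArCl.ins a n ha) L)
  refine MContr.of_retract (X := ofGlob S (whiskG a n))
    (Y := Cyl x (ofGlob S (insG a n)) (whiskG a n) (phiA c a n) (n + 1) L)
    (tp (ofGlob S (insG a n)) (whiskG a n) (phiA c a n) (n + 1))
    (CV.elim (psiA c iv a n) .var (kapW κ iv k0 a n)) ?_ ?_ ?_ hY
  · intro v hv hL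
    exact (Cyl_isCyl hφ).mapβ v hv hL
  · refine Cyl_asg hxg ?_ ?_ ?_ ?_
    · intro v hv _
      exact psiA_asgAt hc hiv v hv
    · intro p hp h1 h2
      exact hcyl.mapβ p hp h2
    · intro p hp h1 h2
      exact hcyl.low p hp h1 h2
    · intro p hp h1 h2
      exact hcyl.cyl p hp h1 h2
  · intro v hv hL
    exact Cyl_eval_tp (M := (ofGlob S (whiskG a n)).m) (fun h1 => hcyl.low v hv h1 hL)

end HH
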