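import Pool.Agent.HH.Defs2

/-!
# HH stage 2, module c9: recursion along accessible relations
-/

set_option autoImplicit false

namespace HH

open Classical

variable {S E : Sig}

theorem exists_of_acc {I : Type} (r : I → I → Prop) {T : I → Type} [∀ i, Nonempty (T i)]
    (ok : I → Prop) (hr : ∀ i, ok i → Acc r i) (hok : ∀ i i', ok i → r i' i → ok i')
    (P : ∀ i : I, (∀ i, T i) → Prop)
    (loc : ∀ i t t', ok i → (∀ i', Relation.TransGen r i' i → t i' = t' i') → t i = t' i →
      P i t → P i t')
    (step : ∀ i t, ok i → (∀ i', Relation.TransGen r i' i → P i' t) →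
      ∃ t', (∀ i', Relation.TransGen r i' i → t' i' = t i') ∧ P i t') :
    ∃ t, ∀ i, ok i → P i t := by
  have hokT : ∀ i i', Relation.TransGen r i' i → ok i → ok i' := by
    intro i i' h
    induction h with
    | single h => exact fun hi => hok _ _ hi h
    | tail _ h ih => exact fun hi => ih (hok _ _ hi h)
  let r' : {i // ok i} → {i // ok i} → Prop := fun a b => Relation.TransGen r a.1 b.1
  have hwf : WellFounded r' := by
    constructor
    intro a
    have h1 : Acc (Relation.TransGen r) a.1 := (hr a.1 a.2).transGen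
    exact InvImage.accessible (fun a : {i // ok i} => a.1) h1
  -- partial family seen from `i`
  let part : (i : {i // ok i}) → ((j : {i // ok i}) → r' j i → T j.1) → ∀ k, T k :=
    fun i G k => if h : ∃ hk : ok k, r' ⟨k, hk⟩ i then G ⟨k, h.1⟩ h.2 else Classical.arbitrary _
  let F : (i : {i // ok i}) → T i.1 := hwf.fix fun i G =>
    if h : ∀ i', Relation.TransGen r i' i.1 → P i' (part i G) then
      (step i.1 (part i G) i.2 h).choose i.1 else Classical.arbitrary _
  let t : ∀ k, T k := fun k => if h : ok k then F ⟨k, h⟩ else Classical.arbitrary _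
  have hF : ∀ i : {i // ok i}, F i =
      if h : ∀ i', Relation.TransGen r i' i.1 → P i' (part i fun j _ => F j) then
      (step i.1 (part i fun j _ => F j) i.2 h).choose i.1 else Classical.arbitrary _ :=
    fun i => hwf.fix_eq _ i
  have ht : ∀ k (h : ok k), t k = F ⟨k, h⟩ := fun k h => dif_pos h
  have hpart : ∀ i : {i // ok i}, ∀ k, Relation.TransGen r k i.1 →
      (part i fun j _ => F j) k = t k := by
    intro i k hk
    have hkok := hokT _ _ hk i.2
    have e1 : (part i fun j _ => F j) k = F ⟨k, hkok⟩ := dif_pos ⟨hkok, hk⟩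
    rw [e1, ht k hkok]
  refine ⟨t, fun i hi => ?_⟩
  have key : ∀ i : {i // ok i}, P i.1 t := by
    intro i
    induction i using hwf.induction with
    | _ i ih =>
      have hcond : ∀ i', Relation.TransGen r i' i.1 → P i' (part i fun j _ => F j) := by
        intro i' hi'
        have hok' := hokT _ _ hi' i.2
        refine loc i' t _ hok' (fun k hk => ?_) ?_ (ih ⟨i', hok'⟩ hi')
        · exact (hpart i k (hk.trans hi')).symm
        · exact (hpart i i' hi').symm
      have hsp := (step i.1 (part i fun j _ => F j) i.2 hcond).choose_spec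
      refine loc i.1 _ t i.2 (fun k hk => ?_) ?_ hsp.2
      · rw [hsp.1 k hk]
        exact hpart i k hk
      · rw [ht i.1 i.2]
        exact ((hF i).trans (dif_pos hcond)).symm
  exact key ⟨i, hi⟩

theorem Acc_hasOp [S.Strat] {X : Cptd S} {t : S.T X.V} (ht : X.tok t) {k : S.K}
    (h : t.HasOp k) : S.kok k ∧ S.dm k ≤ X.tdim t := by
  induction t with
  | var v => exact absurd h id
  | op k' γ ih =>
    rcases h with h | ⟨p, h⟩
    · subst h
      exact ⟨ht.1, le_rfl⟩
    · obtain ⟨h1, h2⟩ := ih p (ht.2 p).1 h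
      refine ⟨h1, h2.trans ?_⟩
      rw [(ht.2 p).2.1]
      exact Sig.Strat.le k' ht.1 p

theorem Acc_hasVar [S.Strat] {X : Cptd S} {t : S.T X.V} (ht : X.tok t) {v : X.V}
    (h : t.HasVar v) : X.ok v ∧ X.dim v ≤ X.tdim t := by
  induction t with
  | var w =>
    have h' : w = v := h
    subst h'
    exact ⟨ht, le_rfl⟩
  | op k' γ ih =>
    obtain ⟨p, h⟩ := h
    obtain ⟨h1, h2⟩ := ih p (ht.2 p).1 h
    refine ⟨h1, h2.trans ?_⟩
    rw [(ht.2 p).2.1]
    exact Sig.Strat.le k' ht.1 p

/-- stratified signatures and their computads are well founded -/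
theorem Strat.sig_wf [S.Good] [S.Strat] : S.WF := by
  have key : ∀ n, ∀ k, S.kok k → S.dm k < n → Acc S.opLt k := by
    intro n
    induction n with
    | zero => intro k _ h; exact absurd h (Nat.not_lt_zero _)
    | succ n ih =>
      intro k hk hn
      refine ⟨k, fun k' hk' => ?_⟩
      rcases hk' with h | h
      · obtain ⟨h1, h2⟩ := Acc_hasOp (Sig.Good.ok_bs k hk) h
        have h3 := Sig.Good.dim_bs k hk
        exact ih k' h1 (by omega)
      · obtain ⟨h1, h2⟩ := Acc_hasOp (Sig.Good.ok_bt k hk) h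
        have h3 := Sig.Good.dim_bt k hk
        exact ih k' h1 (by omega)
  exact fun k hk => key _ k hk (Nat.lt_succ_self _)

theorem Strat.cptd_wf [S.Good] [S.Strat] (X : Cptd S) [X.Good] : X.WF := by
  have key : ∀ n, ∀ v, X.ok v → X.dim v < n → Acc X.varLt v := by
    intro n
    induction n with
    | zero => intro k _ h; exact absurd h (Nat.not_lt_zero _)
    | succ n ih =>
      intro v hv hn
      refine ⟨v, fun w hw => ?_⟩
      obtain ⟨h0, h | h⟩ := hw
      · obtain ⟨h1, h2⟩ := Acc_hasVar (Cptd.Good.ok_src v hv h0) h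
        have h3 := Cptd.Good.dim_src v hv h0
        exact ih w h1 (by omega)
      · obtain ⟨h1, h2⟩ := Acc_hasVar (Cptd.Good.ok_tgt v hv h0) h
        have h3 := Cptd.Good.dim_tgt v hv h0
        exact ih w h1 (by omega)
  exact fun k hk => key _ k hk (Nat.lt_succ_self _)

theorem Acc_hasVar_bind {V W : Type} {t : S.T V} {γ : V → S.T W} {w : W}
    (h : (t.bind γ).HasVar w) : ∃ v, t.HasVar v ∧ (γ v).HasVar w := by
  induction t with
  | var v => exact ⟨v, rfl, h⟩
  | op k δ ih =>
    obtain ⟨p, h⟩ := h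
    obtain ⟨v, h1, h2⟩ := ih p h
    exact ⟨v, ⟨p, h1⟩, h2⟩

theorem Acc_hasVar_trans {j : Interp S E} {V : Type} {t : S.T V} {w : V}
    (h : (trans j t).HasVar w) : t.HasVar w := by
  induction t with
  | var v => exact h
  | op k δ ih =>
    have h' : ((j k).bind fun p => trans j (δ p)).HasVar w := h
    obtain ⟨p, -, h2⟩ := Acc_hasVar_bind h'
    exact ⟨p, ih p h2⟩

theorem tr_wf {j : Interp S E} (X : Cptd S) (hX : X.WF) : (X.tr j).WF := by
  intro v hv
  refine Subrelation.accessible (r := X.varLt) ?_ (hX v hv)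
  intro w v' hw
  obtain ⟨h0, h | h⟩ := hw
  · exact ⟨h0, Or.inl (Acc_hasVar_trans h)⟩
  · exact ⟨h0, Or.inr (Acc_hasVar_trans h)⟩

end HH
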