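import Pool.Agent.HH.Defs2
import Pool.Agent.HH.CylUP

/-!
# HH stage 2, module c4: cylinders of level 0
-/

set_option autoImplicit false

namespace HH

open Classical

variable {E : Sig}

/-- unbounded evaluation of a cylinder cell -/
theorem Cyl0UP_eval {X : Cptd E} {M : Model E} [M.OpLaws] {x : XFam E} {W : Glob}
    {α β e : W.C → E.T X.V} {p : W.C} {γ : X.V → M.C} (hγ : ∀ v, X.ok v → AsgAt X M γ v)
    (h : CylAt X.m x W α β e p) :
    CylAt M x W (fun p => M.eval γ (α p)) (fun p => M.eval γ (β p)) (fun p => M.eval γ (e p)) p := by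
  obtain ⟨h1, h2, h3, h4⟩ := h
  have h2' : X.tdim (e p) = W.dim p + 1 := h2
  obtain ⟨m1, m2, m3⟩ := eval_mapAt hγ (e p) h1
  obtain ⟨m4, m5⟩ := m3 (by change 0 < X.tdim (e p); omega)
  refine ⟨m1, m2.trans h2, ?_, ?_⟩
  · rw [m4, ← cs_eval]
    exact congrArg _ h3
  · rw [m5]
    exact congrArg _ h4

/-- the CS lemma of level 0, without stratification -/
theorem Cyl0UP_cs {x : XFam E} (hx : ∀ j, XGoodAt x 0 j) {W : Glob} [W.Laws] {M : Model E}
    [M.OpLaws] {α β e : W.C → M.C} {p : W.C} (hp : W.ok p)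
    (hα : ∀ r : D, r.1 ≤ W.dim p → MapAt W M.toGlob α (W.bd p r))
    (hβ : ∀ r : D, r.1 < W.dim p → MapAt W M.toGlob β (W.bd p r))
    (hc : ∀ r : D, r.1 < W.dim p → CylAt M x W α β e (W.bd p r)) :
    M.ok (cs M x W α β e p) ∧ M.dim (cs M x W α β e p) = W.dim p ∧
      (0 < W.dim p → M.src (cs M x W α β e p) = β (W.src p) ∧
        M.tgt (cs M x W α β e p) = β (W.tgt p)) := by
  set j := W.dim p with hj
  have hq1 : ∀ q : D, (diskG j).ok q → q.1 ≤ j := by
    intro q hq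
    have : q.1 < j ∨ (q.1 = j ∧ q.2 = false) := hq
    omega
  have hcomp : ∀ (f : W.C → M.C) (q : D), (diskG j).ok q → MapAt W M.toGlob f (W.bd p q) →
      MapAt (diskG j) M.toGlob (fun q => f (W.bd p q)) q := by
    intro f q hq hf
    obtain ⟨h1, h2, h3⟩ := hf
    obtain ⟨k1, k2, k3⟩ := bd_mapAt hp hq
    refine ⟨h1, h2.trans k2, fun h0 => ?_⟩
    obtain ⟨h4, h5⟩ := h3 (by rw [k2]; exact h0)
    obtain ⟨k4, k5⟩ := k3 h0
    exact ⟨h4.trans (congrArg f k4), h5.trans (congrArg f k5)⟩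
  have hasg : ∀ B, IsAsg B (CylG x (diskG j) 0 j) M
      (CV.elim (fun q => α (W.bd p q)) (fun q => β (W.bd p q)) (fun q => e (W.bd p q))) := by
    intro B
    refine Cyl_asg (fun i _ _ => hx i) ?_ ?_ ?_ ?_
    · intro q hq _
      exact hcomp α q hq (hα q (hq1 q hq))
    · intro q hq _ h2
      exact hcomp β q hq (hβ q h2)
    · intro q _ h1 h2
      exact absurd h1 (Nat.not_lt_zero _)
    · intro q hq h1 h2
      have h2' : q.1 < W.dim p := h2
      refine CylAt.comp (f := W.bd p) (W' := diskG j) ?_ ?_ (hc q h2)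
      · exact dim_bd hp h2'.le
      · intro r
        rw [diskG_bd, bd_bd hp h2'.le]
  obtain ⟨x1, x2, x3⟩ := hx j
  obtain ⟨m1, m2, m3⟩ := eval_mapAt (X := CylG x (diskG j) 0 j) (M := M)
    (fun v hv => hasg _ v hv (Nat.lt_succ_self _)) (x j) x1
  have hcs : cs M x W α β e p = M.eval (CV.elim (fun q => α (W.bd p q)) (fun q => β (W.bd p q))
      (fun q => e (W.bd p q))) (x j) := rfl
  rw [hcs]
  refine ⟨m1, m2.trans x2, fun h0 => ?_⟩
  obtain ⟨m4, m5⟩ := m3 (by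
    change 0 < (CylG x (diskG j) 0 j).tdim (x j)
    omega)
  obtain ⟨x4, x5⟩ := x3 h0
  have e1 : ∀ ε : Bool, M.eval (CV.elim (fun q => α (W.bd p q)) (fun q => β (W.bd p q))
      (fun q => e (W.bd p q))) (tpG E (diskG j) 0 (j - 1, ε)) = β (W.bd p (j - 1, ε)) := by
    intro ε
    refine Cyl_eval_tp (Z := ofGlob E (diskG j)) (W := diskG j) (φ := .var) (N := 0)
      (ψ := fun q : D => α (W.bd p q)) (e := fun q : D => e (W.bd p q))
      (β := fun q : D => β (W.bd p q)) (p := (j - 1, ε)) ?_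
    intro h
    exact absurd h (Nat.not_lt_zero _)
  refine ⟨?_, ?_⟩
  · refine m4.trans ?_
    refine (congrArg _ x4).trans ((e1 false).trans ?_)
    rw [hj, bd_pred_false (by omega)]
  · refine m5.trans ?_
    refine (congrArg _ x5).trans ((e1 true).trans ?_)
    rw [hj, bd_pred_true (by omega)]

/-- universal property of the level-0 cylinder -/
theorem Cyl0_asg {x : XFam E} (hx : ∀ j, XGoodAt x 0 j) {W : Glob} [W.Laws] {M : Model E}
    [M.OpLaws] {α β e : W.C → M.C} (h : IsCyl0 x W M α β e) (v : CV W.C W.C)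
    (hv : (Cyl0 x W).ok v) : AsgAt (Cyl0 x W) M (CV.elim α β e) v := by
  cases v with
  | z p =>
    obtain ⟨h1, h2, h3⟩ := h.mapα p hv
    exact ⟨h1, h2, fun h0 => h3 h0⟩
  | top p =>
    obtain ⟨h1, h2, h3⟩ := h.mapβ p hv
    exact ⟨h1, h2, fun h0 => h3 h0⟩
  | cyl p =>
    obtain ⟨h1, h2, h3, h4⟩ := h.cyl p hv
    refine ⟨h1, h2, fun _ => ⟨?_, h4⟩⟩
    change M.src (e p) = M.eval (CV.elim α β e) ((x (W.dim p)).bind
      (CV.elim (fun q => .var (.z (W.bd p q))) (fun q => .var (.top (W.bd p q)))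
        (fun q => .var (.cyl (W.bd p q)))))
    rw [h3, eval_bind]
    unfold cs
    congr 1
    funext v
    cases v <;> rfl

theorem Cyl0_isCyl0 {x : XFam E} {W : Glob} [W.Laws] :
    IsCyl0 x W (Cyl0 x W).m (fun p => .var (.z p)) (fun p => .var (.top p))
      (fun p => .var (.cyl p)) where
  mapα := fun _ hp => ⟨hp, rfl, fun _ => ⟨rfl, rfl⟩⟩
  mapβ := fun _ hp => ⟨hp, rfl, fun _ => ⟨rfl, rfl⟩⟩
  cyl := fun _ hp => ⟨hp, rfl, rfl, rfl⟩

theorem IsCyl0.comp {x : XFam E} {W W' : Glob} [W'.Laws] {M : Model E} {α β e : W.C → M.C}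
    (h : IsCyl0 x W M α β e) {f : W'.C → W.C} (hf : ∀ p, W'.ok p → MapAt W' W f p) :
    IsCyl0 x W' M (fun p => α (f p)) (fun p => β (f p)) (fun p => e (f p)) := by
  have hmap : ∀ g : W.C → M.C, (∀ p, W.ok p → MapAt W M.toGlob g p) →
      ∀ p, W'.ok p → MapAt W' M.toGlob (fun p => g (f p)) p := by
    intro g hg p hp
    obtain ⟨a1, a2, a3⟩ := hf p hp
    obtain ⟨b1, b2, b3⟩ := hg (f p) a1
    refine ⟨b1, b2.trans a2, fun h0 => ?_⟩
    obtain ⟨a4, a5⟩ := a3 h0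
    obtain ⟨b4, b5⟩ := b3 (by rw [a2]; exact h0)
    exact ⟨b4.trans (congrArg g a4), b5.trans (congrArg g a5)⟩
  refine ⟨hmap α h.mapα, hmap β h.mapβ, fun p hp => ?_⟩
  exact CylAt.comp (f := f) (hf p hp).2.1 (fun q => map_bd hp (fun y hy _ => hf y hy) q)
    (h.cyl (f p) (hf p hp).1)

theorem IsCyl0.eval {X : Cptd E} {x : XFam E} {W : Glob} {M : Model E} [M.OpLaws]
    {α β e : W.C → E.T X.V} (h : IsCyl0 x W X.m α β e) {γ : X.V → M.C}
    (hγ : ∀ v, X.ok v → AsgAt X M γ v) :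
    IsCyl0 x W M (fun p => M.eval γ (α p)) (fun p => M.eval γ (β p)) (fun p => M.eval γ (e p)) := by
  have hmap : ∀ g : W.C → E.T X.V, (∀ p, W.ok p → MapAt W X.m.toGlob g p) →
      ∀ p, W.ok p → MapAt W M.toGlob (fun p => M.eval γ (g p)) p := by
    intro g hg p hp
    obtain ⟨a1, a2, a3⟩ := hg p hp
    obtain ⟨b1, b2, b3⟩ := eval_mapAt hγ (g p) a1
    refine ⟨b1, b2.trans a2, fun h0 => ?_⟩
    obtain ⟨a4, a5⟩ := a3 h0
    obtain ⟨b4, b5⟩ := b3 (lt_of_lt_of_eq h0 a2.symm)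
    exact ⟨b4.trans (congrArg (M.eval γ) a4), b5.trans (congrArg (M.eval γ) a5)⟩
  exact ⟨hmap α h.mapα, hmap β h.mapβ, fun p hp => Cyl0UP_eval hγ (h.cyl p hp)⟩

theorem Cyl0_good [E.Good] {x : XFam E} (hx : ∀ j, XGoodAt x 0 j) {W : Glob} [W.Laws] :
    (Cyl0 x W).Good := by
  have H := Cyl0_isCyl0 (x := x) (W := W)
  have hcyl : ∀ p, W.ok p → (Cyl0 x W).tok ((Cyl0 x W).src (.cyl p)) ∧
      (Cyl0 x W).tdim ((Cyl0 x W).src (.cyl p)) = W.dim p ∧
      (0 < W.dim p → (Cyl0 x W).tsrc ((Cyl0 x W).src (.cyl p)) = .var (.top (W.src p)) ∧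
        (Cyl0 x W).ttgt ((Cyl0 x W).src (.cyl p)) = .var (.top (W.tgt p))) := fun p hp =>
    Cyl0UP_cs hx (M := (Cyl0 x W).m) hp (fun r _ => H.mapα _ (ok_bd hp r))
      (fun r _ => H.mapβ _ (ok_bd hp r)) (fun r _ => H.cyl _ (ok_bd hp r))
  constructor
  · rintro (p | p | p) hv h0
    · exact Glob.Laws.ok_src p hv h0
    · exact Glob.Laws.ok_src p hv h0
    · exact (hcyl p hv).1
  · rintro (p | p | p) hv h0
    · exact Glob.Laws.ok_tgt p hv h0
    · exact Glob.Laws.ok_tgt p hv h0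
    · exact hv
  · rintro (p | p | p) hv h0
    · exact Glob.Laws.dim_src p hv h0
    · exact Glob.Laws.dim_src p hv h0
    · exact congrArg (· + 1) (hcyl p hv).2.1
  · rintro (p | p | p) hv h0
    · exact Glob.Laws.dim_tgt p hv h0
    · exact Glob.Laws.dim_tgt p hv h0
    · rfl
  · rintro (p | p | p) hv h1
    · exact congrArg (fun p => Tm.var (CV.z p)) (Glob.Laws.src_tgt p hv h1)
    · exact congrArg (fun p => Tm.var (CV.top p)) (Glob.Laws.src_tgt p hv h1)
    · have h1' : 1 < W.dim p + 1 := h1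
      exact ((hcyl p hv).2.2 (by omega)).1.symm
  · rintro (p | p | p) hv h1
    · exact congrArg (fun p => Tm.var (CV.z p)) (Glob.Laws.tgt_src p hv h1)
    · exact congrArg (fun p => Tm.var (CV.top p)) (Glob.Laws.tgt_src p hv h1)
    · have h1' : 1 < W.dim p + 1 := h1
      exact ((hcyl p hv).2.2 (by omega)).2

end HH
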