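import Pool.Agent.HH.HomCyl
import Pool.Agent.HH.PullF

/-!
# HH part 3, section 6 (HOM), second half

The weak equivalences of models of a contractible signature: two out of three, two out of six,
isomorphisms, strict lifting, retracts, invariance under homotopies of level 0.
-/

set_option autoImplicit false

namespace HH

open Classical CategoryTheory

variable {S : Sig}

/-! ### Elementary facts on morphisms -/

theorem RHom.src_of {M N : RMod S} (F : M ⟶ N) {x y : M.Cell} (h0 : 0 < M.M.dim x.1)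
    (h : M.M.src x.1 = y.1) : N.M.src (RHom.f F x).1 = (RHom.f F y).1 := by
  rw [RHom.src F x h0]
  have : (⟨M.M.src x.1, Glob.Laws.ok_src x.1 x.2 h0⟩ : M.Cell) = y := Subtype.ext h
  rw [this]

theorem RHom.tgt_of {M N : RMod S} (F : M ⟶ N) {x y : M.Cell} (h0 : 0 < M.M.dim x.1)
    (h : M.M.tgt x.1 = y.1) : N.M.tgt (RHom.f F x).1 = (RHom.f F y).1 := by
  rw [RHom.tgt F x h0]
  have : (⟨M.M.tgt x.1, Glob.Laws.ok_tgt x.1 x.2 h0⟩ : M.Cell) = y := Subtype.ext h
  rw [this]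

/-- morphisms preserve connectedness -/
theorem RHom.conn {M N : RMod S} (F : M ⟶ N) {x y : M.Cell} (h : M.M.toGlob.Conn x.1 y.1) :
    N.M.toGlob.Conn (RHom.f F x).1 (RHom.f F y).1 := by
  obtain ⟨k, k1, k2, k3, k4⟩ := h
  have h0 : 0 < M.M.dim k := by omega
  refine ⟨(RHom.f F ⟨k, k1⟩).1, (RHom.f F ⟨k, k1⟩).2, ?_, ?_, ?_⟩
  · rw [RHom.dim F ⟨k, k1⟩, RHom.dim F x]
    exact k2
  · exact RHom.src_of F h0 k3
  · exact RHom.tgt_of F h0 k4

/-- morphisms preserve parallelism -/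
theorem RHom.par {M N : RMod S} (F : M ⟶ N) {x y : M.Cell} (h : M.M.toGlob.Par x.1 y.1) :
    N.M.toGlob.Par (RHom.f F x).1 (RHom.f F y).1 := by
  obtain ⟨-, -, h1, h2⟩ := h
  refine ⟨(RHom.f F x).2, (RHom.f F y).2, ?_, fun h0 => ?_⟩
  · exact (RHom.dim F x).trans (h1.trans (RHom.dim F y).symm)
  · have h0' : 0 < M.M.dim x.1 := lt_of_lt_of_eq h0 (RHom.dim F x)
    have h0'' : 0 < M.M.dim y.1 := lt_of_lt_of_eq h0' h1
    obtain ⟨h3, h4⟩ := h2 h0'
    constructor
    · rw [RHom.src F x h0']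
      exact (RHom.src_of F (y := ⟨M.M.src x.1, Glob.Laws.ok_src x.1 x.2 h0'⟩) h0'' h3.symm).symm
    · rw [RHom.tgt F x h0']
      exact (RHom.tgt_of F (y := ⟨M.M.tgt x.1, Glob.Laws.ok_tgt x.1 x.2 h0'⟩) h0'' h4.symm).symm

/-- The middle condition of `IsW` follows from the last one. -/
theorem RMod.isW_iff {M N : RMod S} (F : M ⟶ N) : RMod.IsW F ↔
    (∀ y : N.Cell, N.M.dim y.1 = 0 → ∃ x : M.Cell, M.M.dim x.1 = 0 ∧
      N.M.toGlob.Conn (RHom.f F x).1 y.1) ∧
    ∀ x x' : M.Cell, M.M.toGlob.Par x.1 x'.1 → ∀ h : N.Cell, N.M.dim h.1 = M.M.dim x.1 + 1 →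
      N.M.src h.1 = (RHom.f F x).1 → N.M.tgt h.1 = (RHom.f F x').1 →
      ∃ h' : M.Cell, M.M.dim h'.1 = M.M.dim x.1 + 1 ∧ M.M.src h'.1 = x.1 ∧ M.M.tgt h'.1 = x'.1 ∧
        N.M.toGlob.Conn (RHom.f F h').1 h.1 := by
  refine ⟨fun h => ⟨h.1, h.2.2⟩, fun h => ⟨h.1, ?_, h.2⟩⟩
  rintro x x' hp ⟨k, k1, k2, k3, k4⟩
  obtain ⟨h', a1, a2, a3, -⟩ := h.2 x x' hp ⟨k, k1⟩ (k2.trans (congrArg (· + 1) (RHom.dim F x))) k3 k4
  exact ⟨h'.1, h'.2, a1, a2, a3⟩

/-- Strict lifting implies `IsW`. -/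
theorem RMod.isW_of_lifting (h : S.Hyp) {M N : RMod S} (F : M ⟶ N)
    (h0 : ∀ y : N.Cell, N.M.dim y.1 = 0 → ∃ x : M.Cell, RHom.f F x = y)
    (h1 : ∀ x x' : M.Cell, M.M.toGlob.Par x.1 x'.1 → ∀ h : N.Cell, N.M.dim h.1 = M.M.dim x.1 + 1 →
      N.M.src h.1 = (RHom.f F x).1 → N.M.tgt h.1 = (RHom.f F x').1 →
      ∃ h' : M.Cell, M.M.src h'.1 = x.1 ∧ M.M.tgt h'.1 = x'.1 ∧ RHom.f F h' = h) :
    RMod.IsW F := by
  rw [RMod.isW_iff]
  constructor
  · intro y hy
    obtain ⟨x, hx⟩ := h0 y hy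
    refine ⟨x, ?_, ?_⟩
    · rw [← RHom.dim F x, hx]
      exact hy
    · rw [hx]
      exact exists_unit h y.2
  · intro x x' hp g g1 g2 g3
    obtain ⟨h', a1, a2, a3⟩ := h1 x x' hp g g1 g2 g3
    refine ⟨h', ?_, a1, a2, ?_⟩
    · rw [← RHom.dim F h', a3]
      exact g1
    · rw [a3]
      exact exists_unit h g.2

theorem RMod.isW_of_isIso (h : S.Hyp) {M N : RMod S} (F : M ⟶ N) [IsIso F] : RMod.IsW F := by
  have e1 : ∀ x, RHom.f F (RHom.f (inv F) x) = x := fun x =>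
    congrFun (congrArg RHom.f (IsIso.inv_hom_id F)) x
  have e2 : ∀ x, RHom.f (inv F) (RHom.f F x) = x := fun x =>
    congrFun (congrArg RHom.f (IsIso.hom_inv_id F)) x
  refine RMod.isW_of_lifting h F (fun y _ => ⟨_, e1 y⟩) ?_
  intro x x' hp g g1 g2 g3
  have h0 : 0 < N.M.dim g.1 := by omega
  refine ⟨RHom.f (inv F) g, ?_, ?_, e1 g⟩
  · rw [RHom.src_of (inv F) h0 g2, e2]
  · rw [RHom.tgt_of (inv F) h0 g3, e2]

theorem RMod.isW_id (h : S.Hyp) (M : RMod S) : RMod.IsW (𝟙 M) := RMod.isW_of_isIso h _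

/-! ### Composition and cancellation on the right -/

theorem RMod.IsW.comp (h : S.Hyp) {M N R : RMod S} {F : M ⟶ N} {G : N ⟶ R} (hF : RMod.IsW F)
    (hG : RMod.IsW G) : RMod.IsW (F ≫ G) := by
  rw [RMod.isW_iff]
  constructor
  · intro y hy
    obtain ⟨z, z1, z2⟩ := hG.1 y hy
    obtain ⟨x, x1, x2⟩ := hF.1 z z1
    exact ⟨x, x1, conn_trans h (RHom.conn G x2) z2⟩
  · intro x x' hp g g1 g2 g3
    obtain ⟨k, k1, k2, k3, k4⟩ := hG.2.2 (RHom.f F x) (RHom.f F x') (RHom.par F hp) g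
      (g1.trans (congrArg (· + 1) (RHom.dim F x).symm)) g2 g3
    obtain ⟨l, l1, l2, l3, l4⟩ := hF.2.2 x x' hp k (k1.trans (congrArg (· + 1) (RHom.dim F x))) k2 k3
    exact ⟨l, l1, l2, l3, conn_trans h (RHom.conn G l4) k4⟩

/-- `G` reflects connectedness -/
def RMod.Refl {M N : RMod S} (F : M ⟶ N) : Prop :=
  ∀ x x' : M.Cell, M.M.toGlob.Par x.1 x'.1 →
    N.M.toGlob.Conn (RHom.f F x).1 (RHom.f F x').1 → M.M.toGlob.Conn x.1 x'.1

theorem RMod.IsW.of_comp_refl {M N R : RMod S} {F : M ⟶ N} {G : N ⟶ R} (hG : RMod.Refl G)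
    (hFG : RMod.IsW (F ≫ G)) : RMod.IsW F := by
  rw [RMod.isW_iff]
  constructor
  · intro y hy
    obtain ⟨x, x1, x2⟩ := hFG.1 (RHom.f G y) ((RHom.dim G y).trans hy)
    refine ⟨x, x1, hG _ _ ⟨(RHom.f F x).2, y.2, ?_, fun h0 => ?_⟩ x2⟩
    · exact ((RHom.dim F x).trans x1).trans hy.symm
    · exact absurd (lt_of_lt_of_eq h0 ((RHom.dim F x).trans x1)) (lt_irrefl _)
  · intro x x' hp g g1 g2 g3
    have h0 : 0 < N.M.dim g.1 := by omega
    obtain ⟨k, k1, k2, k3, k4⟩ := hFG.2.2 x x' hp (RHom.f G g) ((RHom.dim G g).trans g1)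
      (RHom.src_of G h0 g2) (RHom.tgt_of G h0 g3)
    have k0 : 0 < M.M.dim k.1 := by omega
    refine ⟨k, k1, k2, k3, hG _ _ ⟨(RHom.f F k).2, g.2, ?_, fun _ => ⟨?_, ?_⟩⟩ k4⟩
    · exact ((RHom.dim F k).trans k1).trans g1.symm
    · exact (RHom.src_of F k0 k2).trans g2.symm
    · exact (RHom.tgt_of F k0 k3).trans g3.symm

/-- `G` and `F ≫ G` weak equivalences imply `F` weak equivalence. -/
theorem RMod.IsW.of_comp {M N R : RMod S} {F : M ⟶ N} {G : N ⟶ R} (hG : RMod.IsW G)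
    (hFG : RMod.IsW (F ≫ G)) : RMod.IsW F :=
  RMod.IsW.of_comp_refl hG.2.1 hFG

/-! ### Naturality of cylinders -/

theorem Cyl0_asgAt {x : XFam S} (hx : ∀ j, XGoodAt x 0 j) {W : Glob} [W.Laws] {M : Model S}
    [M.OpLaws] {α β e : W.C → M.C} {p : W.C} (hp : W.ok p)
    (hα : ∀ r : D, r.1 ≤ W.dim p → MapAt W M.toGlob α (W.bd p r))
    (hβ : ∀ r : D, r.1 < W.dim p → MapAt W M.toGlob β (W.bd p r))
    (hc : ∀ r : D, r.1 < W.dim p → CylAt M x W α β e (W.bd p r)) (v : CV D D)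
    (hv : (CylG x (diskG (W.dim p)) 0 (W.dim p)).ok v) :
    AsgAt (CylG x (diskG (W.dim p)) 0 (W.dim p)) M
      (CV.elim (fun q => α (W.bd p q)) (fun q => β (W.bd p q)) (fun q => e (W.bd p q))) v := by
  have hq1 : ∀ q : D, (diskG (W.dim p)).ok q → q.1 ≤ W.dim p := by
    intro q hq
    have : q.1 < W.dim p ∨ (q.1 = W.dim p ∧ q.2 = false) := hq
    omega
  have hasg : ∀ B, IsAsg B (CylG x (diskG (W.dim p)) 0 (W.dim p)) M
      (CV.elim (fun q => α (W.bd p q)) (fun q => β (W.bd p q)) (fun q => e (W.bd p q))) := by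
    intro B
    refine Cyl_asg (fun i _ _ => hx i) ?_ ?_ ?_ ?_
    · intro q hq _
      exact rev_mapAt_comp (bd_mapAt hp hq) (hα q (hq1 q hq))
    · intro q hq _ h2
      exact rev_mapAt_comp (bd_mapAt hp hq) (hβ q h2)
    · intro q _ h1 h2
      exact absurd h1 (Nat.not_lt_zero _)
    · intro q hq h1 h2
      have h2' : q.1 < W.dim p := h2
      refine CylAt.comp (f := W.bd p) (W' := diskG (W.dim p)) ?_ ?_ (hc q h2)
      · exact dim_bd hp h2'.le
      · intro r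
        rw [diskG_bd, bd_bd hp h2'.le]
  exact hasg _ v hv (Nat.lt_succ_self _)

/-- naturality of `cs` for morphisms of models -/
theorem RHom.cs {x : XFam S} (hx : ∀ j, XGoodAt x 0 j) {M N : RMod S} (F : M ⟶ N) {W : Glob}
    [W.Laws] {α β e : W.C → M.Cell} {p : W.C} (hp : W.ok p)
    (hα : ∀ r : D, r.1 ≤ W.dim p → MapAt W M.M.toGlob (fun q => (α q).1) (W.bd p r))
    (hβ : ∀ r : D, r.1 < W.dim p → MapAt W M.M.toGlob (fun q => (β q).1) (W.bd p r))
    (hc : ∀ r : D, r.1 < W.dim p →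
      CylAt M.M x W (fun q => (α q).1) (fun q => (β q).1) (fun q => (e q).1) (W.bd p r))
    {c : M.Cell} (hcs : c.1 = HH.cs M.M x W (fun q => (α q).1) (fun q => (β q).1)
      (fun q => (e q).1) p) :
    (RHom.f F c).1 = HH.cs N.M x W (fun q => (RHom.f F (α q)).1) (fun q => (RHom.f F (β q)).1)
      (fun q => (RHom.f F (e q)).1) p := by
  obtain ⟨γ, hγ⟩ : ∃ γ : CV D D → M.Cell, γ = CV.elim (fun q => α (W.bd p q))
    (fun q => β (W.bd p q)) (fun q => e (W.bd p q)) := ⟨_, rfl⟩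
  obtain ⟨A, hA⟩ : ∃ A : CV D D → M.M.C, A = fun v => (γ v).1 := ⟨_, rfl⟩
  have e1 : A = CV.elim (fun q => (α (W.bd p q)).1)
      (fun q => (β (W.bd p q)).1) (fun q => (e (W.bd p q)).1) := by
    funext v
    rw [hA, hγ]
    cases v <;> rfl
  have e2 : (fun v => (RHom.f F (γ v)).1) = CV.elim (fun q => (RHom.f F (α (W.bd p q))).1)
      (fun q => (RHom.f F (β (W.bd p q))).1) (fun q => (RHom.f F (e (W.bd p q))).1) := by
    funext v
    rw [hγ]
    cases v <;> rfl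
  have hasg : ∀ v, (CylG x (diskG (W.dim p)) 0 (W.dim p)).ok v →
      AsgAt (CylG x (diskG (W.dim p)) 0 (W.dim p)) M.M A v := by
    intro v hv
    rw [e1]
    exact Cyl0_asgAt (M := M.M) (W := W) (α := fun q => (α q).1) (β := fun q => (β q).1)
      (e := fun q => (e q).1) hx hp hα hβ hc v hv
  have hval : M.M.eval A (x (W.dim p)) = c.1 := by
    rw [hcs, e1]
    rfl
  have hok : M.M.ok (M.M.eval A (x (W.dim p))) := by
    rw [hval]
    exact c.2
  have e3 : (⟨M.M.eval A (x (W.dim p)), hok⟩ : M.Cell) = c := Subtype.ext hval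
  have key : (RHom.f F ⟨M.M.eval A (x (W.dim p)), hok⟩).1 =
      N.M.eval (fun v => (RHom.f F (γ v)).1) (x (W.dim p)) := by
    subst hA
    exact RHom.eval F (X := CylG x (diskG (W.dim p)) 0 (W.dim p)) (γ := γ) hasg
      (x (W.dim p)) (hx _).1 hok
  rw [e3] at key
  rw [key, e2]
  rfl

/-- morphisms preserve homotopies of level 0 -/
theorem RHom.isCyl0 {x : XFam S} (hx : ∀ j, XGoodAt x 0 j) {M N : RMod S} (F : M ⟶ N) {W : Glob}
    [W.Laws] {α β e : W.C → M.Cell}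
    (H : IsCyl0 x W M.M (fun q => (α q).1) (fun q => (β q).1) (fun q => (e q).1)) :
    IsCyl0 x W N.M (fun q => (RHom.f F (α q)).1) (fun q => (RHom.f F (β q)).1)
      (fun q => (RHom.f F (e q)).1) := by
  refine ⟨fun p hp => RHom.mapAt F (H.mapα p hp), fun p hp => RHom.mapAt F (H.mapβ p hp), ?_⟩
  intro p hp
  obtain ⟨c1, c2, c3, c4⟩ := H.cyl p hp
  have h0 : 0 < M.M.dim (e p).1 := by
    rw [c2]
    exact Nat.succ_pos _
  refine ⟨(RHom.f F (e p)).2, (RHom.dim F (e p)).trans c2, ?_, RHom.tgt_of F h0 c4⟩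
  rw [RHom.src F (e p) h0]
  exact RHom.cs hx F hp (fun r _ => H.mapα _ (ok_bd hp r)) (fun r _ => H.mapβ _ (ok_bd hp r))
    (fun r _ => H.cyl _ (ok_bd hp r)) c3

/-- naturality of `csT` for morphisms of models -/
theorem RHom.csT {x : XFam S} (hx : ∀ j, XGoodAt x 0 j) {M N : RMod S} (F : M ⟶ N) {n : ℕ}
    {α β e : D → M.Cell}
    (H : IsCyl0 x (sphG n) M.M (fun q => (α q).1) (fun q => (β q).1) (fun q => (e q).1))
    {k : M.Cell} (k2 : M.M.dim k.1 = n + 1) (k3 : M.M.src k.1 = (α (n, false)).1)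
    (k4 : M.M.tgt k.1 = (α (n, true)).1) {c : M.Cell}
    (hcs : c.1 = HH.csT x n M.M (fun q => (α q).1) (fun q => (β q).1) (fun q => (e q).1) k.1) :
    (RHom.f F c).1 = HH.csT x n N.M (fun q => (RHom.f F (α q)).1)
      (fun q => (RHom.f F (β q)).1) (fun q => (RHom.f F (e q)).1) (RHom.f F k).1 := by
  have hp : (sphG (n + 1)).ok ((n + 1, false) : D) := le_refl (n + 1)
  have hb : ∀ r : D, r.1 ≤ n → (sphG (n + 1)).bd ((n + 1, false) : D) r = r := by
    intro r hr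
    rw [sphG_bd]
    exact bdD_le (le_refl _) hr (le_refl _)
  obtain ⟨α', hα'⟩ : ∃ α' : D → M.Cell, α' = extS n α fun _ => k := ⟨_, rfl⟩
  have e1 : (fun q => (α' q).1) = extS n (fun q => (α q).1) fun _ => k.1 := by
    funext q
    rw [hα']
    unfold extS
    split_ifs <;> rfl
  have hle : ∀ q : D, q.1 ≤ n → α' q = α q := fun q hq => by
    rw [hα']
    exact extS_le hq
  have hgt : α' (n + 1, false) = k := by
    rw [hα']
    exact extS_gt (Nat.lt_succ_self n)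
  have hmα : ∀ q : D, q.1 ≤ n + 1 → MapAt (sphG (n + 1)) M.M.toGlob (fun q => (α' q).1) q := by
    intro q hq
    obtain ⟨A, hA⟩ : ∃ A : D → M.M.C, A = fun q => (α' q).1 := ⟨_, rfl⟩
    have key : MapAt (sphG (n + 1)) M.M.toGlob A q := by
      rw [hA, e1]
      exact mapAt_extS H.mapα (fun _ => ⟨k.2, k2, k3, k4⟩) q hq
    subst hA
    exact key
  have hcyl : ∀ r : D, r.1 ≤ n → CylAt M.M x (sphG (n + 1)) (fun q => (α' q).1)
      (fun q => (β q).1) (fun q => (e q).1) r := by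
    intro r hr
    obtain ⟨c1, c2, c3, c4⟩ := H.cyl r hr
    refine ⟨c1, c2, c3.trans ?_, c4⟩
    unfold HH.cs
    congr 1
    funext v
    cases v with
    | z s =>
      change (α ((sphG n).bd r s)).1 = (α' ((sphG (n + 1)).bd r s)).1
      rw [sphG_bd, sphG_bd, hle]
      unfold bdD
      split_ifs <;> omega
    | top s => rfl
    | cyl s => rfl
  have key := RHom.cs hx F (W := sphG (n + 1)) (α := α') (β := β) (e := e)
    (p := ((n + 1, false) : D)) hp
    (fun r _ => hmα _ (ok_bd hp r))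
    (fun r hr => by
      have hr' : r.1 < n + 1 := hr
      rw [hb r (by omega)]
      exact H.mapβ r (Nat.lt_succ_iff.1 hr'))
    (fun r hr => by
      have hr' : r.1 < n + 1 := hr
      rw [hb r (by omega)]
      exact hcyl r (Nat.lt_succ_iff.1 hr'))
    (c := c) (hcs.trans (cs_eq_csT (hx (n + 1)) (W := sphG (n + 1)) (p := ((n + 1, false) : D)) rfl
      (fun q hq => by rw [hb q hq, hle q hq]) (by rw [hgt]) (fun q hq => by rw [hb q hq])
      (fun q hq => by rw [hb q hq])).symm)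
  refine key.trans (cs_eq_csT (hx (n + 1)) (W := sphG (n + 1)) (p := ((n + 1, false) : D)) rfl
      (fun q hq => by rw [hb q hq, hle q hq]) (by rw [hgt]) (fun q hq => by rw [hb q hq])
      (fun q hq => by rw [hb q hq]))

/-! ### Spheres of cells -/

/-- the sphere given by two parallel cells -/
def sphC {M : RMod S} (y y' : M.Cell) : D → M.Cell := fun q =>
  if q.2 then ⟨M.M.toGlob.bd y'.1 q, ok_bd y'.2 q⟩ else ⟨M.M.toGlob.bd y.1 q, ok_bd y.2 q⟩

theorem sphC_mapAt {M : RMod S} {y y' : M.Cell} (h : M.M.toGlob.Par y.1 y'.1) {n : ℕ}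
    (hn : M.M.dim y.1 = n) (q : D) (hq : q.1 ≤ n) :
    MapAt (sphG n) M.M.toGlob (fun q => (sphC y y' q).1) q := by
  obtain ⟨-, -, hd, -⟩ := id h
  have hlow : ∀ r : D, r.1 < n → ∀ w : M.Cell, w = y ∨ w = y' →
      M.M.toGlob.bd w.1 r = (sphC y y' r).1 := by
    intro r hr w hw
    have h1 := Par.bd_eq h (r := r) (by omega)
    unfold sphC
    rcases hw with rfl | rfl <;> cases r.2 <;> simp [h1]
  have hval : ∀ q : D, ∃ w : M.Cell, (w = y ∨ w = y') ∧ (sphC y y' q).1 = M.M.toGlob.bd w.1 q := by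
    intro q
    unfold sphC
    by_cases hq : q.2 = true
    · rw [if_pos hq]
      exact ⟨y', Or.inr rfl, rfl⟩
    · rw [if_neg hq]
      exact ⟨y, Or.inl rfl, rfl⟩
  obtain ⟨w, hw, e⟩ := hval q
  have hdw : M.M.dim w.1 = n := by
    rcases hw with rfl | rfl
    · exact hn
    · exact hd.symm.trans hn
  refine ⟨(sphC y y' q).2, ?_, fun h0 => ?_⟩
  · refine (congrArg M.M.dim e).trans ?_
    exact dim_bd w.2 (by rw [hdw]; exact hq)
  · have h0' : 0 < q.1 := h0
    constructor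
    · refine (congrArg M.M.src e).trans ((src_bd w.2 (by rw [hdw]; exact hq) h0').trans ?_)
      exact hlow _ (by change q.1 - 1 < n; omega) w hw
    · refine (congrArg M.M.tgt e).trans ((tgt_bd w.2 (by rw [hdw]; exact hq) h0').trans ?_)
      exact hlow _ (by change q.1 - 1 < n; omega) w hw

theorem sphC_false {M : RMod S} {y y' : M.Cell} {n : ℕ} (hn : M.M.dim y.1 = n) :
    sphC y y' (n, false) = y := by
  unfold sphC
  rw [if_neg (by simp)]
  exact Subtype.ext (bd_of_le _ _ (le_of_eq hn))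

theorem sphC_true {M : RMod S} {y y' : M.Cell} {n : ℕ} (hn : M.M.dim y'.1 = n) :
    sphC y y' (n, true) = y' := by
  unfold sphC
  rw [if_pos rfl]
  exact Subtype.ext (bd_of_le _ _ (le_of_eq hn))

theorem sph_par {G : Glob} {n : ℕ} {α : D → G.C} (hα : ∀ q : D, q.1 ≤ n → MapAt (sphG n) G α q) :
    G.Par (α (n, false)) (α (n, true)) := by
  obtain ⟨a1, a2, a3⟩ := hα (n, false) (le_refl n)
  obtain ⟨b1, b2, b3⟩ := hα (n, true) (le_refl n)
  refine ⟨a1, b1, a2.trans b2.symm, fun h0 => ?_⟩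
  have h0' : 0 < n := lt_of_lt_of_eq h0 a2
  obtain ⟨a4, a5⟩ := a3 h0'
  obtain ⟨b4, b5⟩ := b3 h0'
  exact ⟨a4.trans b4.symm, a5.trans b5.symm⟩

/-- Straightening: along a weak equivalence every sphere is homotopic to the image of a sphere. -/
theorem RMod.IsW.straighten (h : S.Hyp) {d : L0 S} (hd : d.Good) {M N : RMod S} {F : M ⟶ N}
    (hF : RMod.IsW F) (n : ℕ) : ∀ β : D → N.Cell,
    (∀ q : D, q.1 ≤ n → MapAt (sphG n) N.M.toGlob (fun q => (β q).1) q) →
    ∃ (α : D → M.Cell) (e : D → N.Cell),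
      (∀ q : D, q.1 ≤ n → MapAt (sphG n) M.M.toGlob (fun q => (α q).1) q) ∧
      IsCyl0 d.x (sphG n) N.M (fun q => (RHom.f F (α q)).1) (fun q => (β q).1)
        (fun q => (e q).1) := by
  induction n with
  | zero =>
    intro β hβ
    have hy : ∀ b : Bool, N.M.dim (β (0, b)).1 = 0 := fun b => (hβ (0, b) (le_refl 0)).2.1
    choose x x1 x2 using fun b : Bool => hF.1 (β (0, b)) (hy b)
    choose c c1 c2 c3 c4 using x2
    have hx : ∀ b : Bool, N.M.dim (RHom.f F (x b)).1 = 0 := fun b => (RHom.dim F (x b)).trans (x1 b)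
    refine ⟨fun q => x q.2, fun q => ⟨c q.2, c1 q.2⟩, ?_, ?_, hβ, ?_⟩
    · intro q hq
      have hq0 : q.1 = 0 := Nat.le_zero.1 hq
      refine ⟨(x q.2).2, (x1 q.2).trans hq0.symm, fun h0 => ?_⟩
      have h0' : 0 < q.1 := h0
      omega
    · intro q hq
      have hq0 : q.1 = 0 := Nat.le_zero.1 hq
      refine ⟨(RHom.f F (x q.2)).2, (hx q.2).trans hq0.symm, fun h0 => ?_⟩
      have h0' : 0 < q.1 := h0
      omega
    · intro q hq
      have hq0 : q.1 = 0 := Nat.le_zero.1 hq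
      have hq' : q = (0, q.2) := Prod.ext hq0 rfl
      refine ⟨c1 q.2, ?_, ?_, ?_⟩
      · change N.M.dim (c q.2) = q.1 + 1
        rw [c2, hx, hq0]
      · change N.M.src (c q.2) = _
        rw [c3]
        exact (cs_base (S := S) (x := d.x) (N := 0) hd.x0 (W := sphG 0) (M := N.M)
          (α := fun q => (RHom.f F (x q.2)).1) (p := q) hq0).symm
      · change N.M.tgt (c q.2) = (β q).1
        rw [c4]
        conv_rhs => rw [hq']
  | succ n ih =>
    intro β hβ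
    obtain ⟨α, e, hα, H⟩ := ih β (fun q hq => hβ q (Nat.le_succ_of_le hq))
    have hg : ∀ b : Bool, N.M.ok (β (n + 1, b)).1 ∧ N.M.dim (β (n + 1, b)).1 = n + 1 ∧
        N.M.src (β (n + 1, b)).1 = (β (n, false)).1 ∧ N.M.tgt (β (n + 1, b)).1 = (β (n, true)).1 := by
      intro b
      obtain ⟨a1, a2, a3⟩ := hβ (n + 1, b) (le_refl _)
      obtain ⟨a4, a5⟩ := a3 (Nat.succ_pos n)
      exact ⟨a1, a2, a4, a5⟩
    have step : ∀ b : Bool, ∃ (k : M.Cell) (c : N.Cell), M.M.dim k.1 = n + 1 ∧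
        M.M.src k.1 = (α (n, false)).1 ∧ M.M.tgt k.1 = (α (n, true)).1 ∧ N.M.dim c.1 = n + 2 ∧
        N.M.src c.1 = HH.csT d.x n N.M (fun q => (RHom.f F (α q)).1) (fun q => (β q).1)
          (fun q => (e q).1) (RHom.f F k).1 ∧ N.M.tgt c.1 = (β (n + 1, b)).1 := by
      intro b
      obtain ⟨g1, g2, g3, g4⟩ := hg b
      obtain ⟨k, k1, k2, k3, k4, k5⟩ := exists_csT h hd H g1 g2 g3 g4
      have hdα : M.M.dim (α (n, false)).1 = n := (hα (n, false) (le_refl n)).2.1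
      obtain ⟨k', l1, l2, l3, l4⟩ := hF.2.2 (α (n, false)) (α (n, true)) (sph_par hα) ⟨k, k1⟩
        (k2.trans (congrArg (· + 1) hdα.symm)) k3 k4
      have l1' : M.M.dim k'.1 = n + 1 := l1.trans (congrArg (· + 1) hdα)
      have l0 : 0 < M.M.dim k'.1 := by omega
      have f2 : N.M.dim (RHom.f F k').1 = n + 1 := (RHom.dim F k').trans l1'
      have f3 := RHom.src_of F l0 l2
      have f4 := RHom.tgt_of F l0 l3
      obtain ⟨c, c1, c2, c3, c4⟩ := conn_trans h (csT_conn h hd.hx H f2 f3 f4 l4) k5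
      refine ⟨k', ⟨c, c1⟩, l1', l2, l3, ?_, c3, c4⟩
      exact c2.trans (congrArg (· + 1) (csT_spec hd.hx H (RHom.f F k').2 f2 f3 f4).2.1)
    choose k c k1 k2 k3 c1 c2 c3 using step
    have hFk : ∀ b, N.M.ok (RHom.f F (k b)).1 ∧ N.M.dim (RHom.f F (k b)).1 = n + 1 ∧
        N.M.src (RHom.f F (k b)).1 = (RHom.f F (α (n, false))).1 ∧
        N.M.tgt (RHom.f F (k b)).1 = (RHom.f F (α (n, true))).1 := by
      intro b
      have k0 : 0 < M.M.dim (k b).1 := by rw [k1]; exact Nat.succ_pos n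
      exact ⟨(RHom.f F (k b)).2, (RHom.dim F (k b)).trans (k1 b), RHom.src_of F k0 (k2 b),
        RHom.tgt_of F k0 (k3 b)⟩
    refine ⟨HH.extS n α k, HH.extS n e c, ?_, ?_⟩
    · have e1 : (fun q => (HH.extS n α k q).1) = HH.extS n (fun q => (α q).1) fun b => (k b).1 := by
        funext q
        unfold HH.extS
        split_ifs <;> rfl
      obtain ⟨A, hA⟩ : ∃ A : D → M.M.C, A = fun q => (HH.extS n α k q).1 := ⟨_, rfl⟩
      have key : ∀ q : D, q.1 ≤ n + 1 → MapAt (sphG (n + 1)) M.M.toGlob A q := by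
        rw [hA, e1]
        exact mapAt_extS hα fun b => ⟨(k b).2, k1 b, k2 b, k3 b⟩
      subst hA
      exact key
    · have e1 : (fun q => (RHom.f F (HH.extS n α k q)).1) =
          HH.extS n (fun q => (RHom.f F (α q)).1) fun b => (RHom.f F (k b)).1 := by
        funext q
        unfold HH.extS
        split_ifs <;> rfl
      have e2 : (fun q => (HH.extS n e c q).1) = HH.extS n (fun q => (e q).1) fun b => (c b).1 := by
        funext q
        unfold HH.extS
        split_ifs <;> rfl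
      have H' := H.extS hd.hx hFk hg (fun b => ⟨(c b).2, c1 b, c2 b, c3 b⟩)
      obtain ⟨A, hA⟩ : ∃ A : D → N.M.C, A = fun q => (RHom.f F (HH.extS n α k q)).1 := ⟨_, rfl⟩
      obtain ⟨E, hE⟩ : ∃ E : D → N.M.C, E = fun q => (HH.extS n e c q).1 := ⟨_, rfl⟩
      suffices hAE : IsCyl0 d.x (sphG (n + 1)) N.M A (fun q => (β q).1) E by
        subst hA
        subst hE
        exact hAE
      rw [hA, hE, e1, e2]
      refine ⟨H'.mapα, hβ, ?_⟩
      intro q hq
      have hq' : q.1 ≤ n + 1 := hq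
      have hβe : ∀ q : D, q.1 ≤ n + 1 → HH.extS n (fun q => (β q).1)
          (fun b => (β (n + 1, b)).1) q = (β q).1 := by
        intro q hq
        unfold HH.extS
        split_ifs with h1
        · rfl
        · have : q = (n + 1, q.2) := Prod.ext (by omega) rfl
          conv_rhs => rw [this]
      obtain ⟨d1, d2, d3, d4⟩ := H'.cyl q hq
      refine ⟨d1, d2, d3.trans ?_, d4.trans (hβe q hq')⟩
      have hbb : ∀ s : D, (bdD q s).1 ≤ n + 1 := by
        intro s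
        unfold bdD
        split_ifs <;> omega
      unfold HH.cs
      congr 1
      funext v
      cases v with
      | z s => rfl
      | top s =>
        change HH.extS n (fun q => (β q).1) (fun b => (β (n + 1, b)).1) ((sphG (n + 1)).bd q s) =
          (β ((sphG (n + 1)).bd q s)).1
        refine hβe _ ?_
        rw [sphG_bd]
        exact hbb s
      | cyl s => rfl

/-- If `F` and `F ≫ G` are weak equivalences then so is `G`. -/
theorem RMod.IsW.of_comp_left (h : S.Hyp) {d : L0 S} (hd : d.Good) {M N R : RMod S} {F : M ⟶ N}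
    {G : N ⟶ R} (hF : RMod.IsW F) (hFG : RMod.IsW (F ≫ G)) : RMod.IsW G := by
  rw [RMod.isW_iff]
  constructor
  · intro z hz
    obtain ⟨x, x1, x2⟩ := hFG.1 z hz
    exact ⟨RHom.f F x, (RHom.dim F x).trans x1, x2⟩
  · intro y y' hp g g1 g2 g3
    obtain ⟨n, hn⟩ : ∃ n, n = N.M.dim y.1 := ⟨_, rfl⟩
    have hn' : N.M.dim y'.1 = n := by rw [hn]; exact hp.2.2.1.symm
    obtain ⟨α, e, hα, H⟩ := hF.straighten h hd n (sphC y y') (sphC_mapAt hp hn.symm)
    have ey := sphC_false (y := y) (y' := y') hn.symm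
    have ey' := sphC_true (y := y) (y' := y') hn'
    have HG := RHom.isCyl0 hd.hx G H
    obtain ⟨k, k1, k2, k3, k4, k5⟩ := exists_csT h hd HG g.2 (by rw [hn]; exact g1)
      (g2.trans (by rw [ey])) (g3.trans (by rw [ey']))
    have hdα : M.M.dim (α (n, false)).1 = n := (hα (n, false) (le_refl n)).2.1
    obtain ⟨k', l1, l2, l3, l4⟩ := hFG.2.2 (α (n, false)) (α (n, true)) (sph_par hα) ⟨k, k1⟩
      (k2.trans (congrArg (· + 1) hdα.symm)) k3 k4
    have l1' : M.M.dim k'.1 = n + 1 := l1.trans (congrArg (· + 1) hdα)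
    have l0 : 0 < M.M.dim k'.1 := by omega
    have f2 : N.M.dim (RHom.f F k').1 = n + 1 := (RHom.dim F k').trans l1'
    have f3 := RHom.src_of F l0 l2
    have f4 := RHom.tgt_of F l0 l3
    have f0 : 0 < N.M.dim (RHom.f F k').1 := by omega
    obtain ⟨s1, s2, s3, s4⟩ := csT_spec hd.hx H (RHom.f F k').2 f2 f3 f4
    refine ⟨⟨_, s1⟩, ?_, ?_, ?_, ?_⟩
    · rw [← hn]
      exact s2
    · exact s3.trans (by rw [ey])
    · exact s4.trans (by rw [ey'])
    · have e1 := RHom.csT hd.hx G (k := RHom.f F k') H f2 f3 f4 (c := ⟨_, s1⟩) rfl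
      rw [e1]
      refine conn_trans h (csT_conn h hd.hx HG ((RHom.dim G _).trans f2) (RHom.src_of G f0 f3)
        (RHom.tgt_of G f0 f4) l4) k5

/-- Two out of six. -/
theorem RMod.IsW.two_of_six (h : S.Hyp) {d : L0 S} (hd : d.Good) {M N R T : RMod S} {F : M ⟶ N}
    {G : N ⟶ R} {K : R ⟶ T} (hFG : RMod.IsW (F ≫ G)) (hGK : RMod.IsW (G ≫ K)) :
    RMod.IsW F ∧ RMod.IsW G ∧ RMod.IsW K ∧ RMod.IsW (F ≫ G ≫ K) := by
  have hr : RMod.Refl G := fun x x' hp hc => hGK.2.1 x x' hp (RHom.conn K hc)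
  have hF := RMod.IsW.of_comp_refl hr hFG
  have hG := RMod.IsW.of_comp_left h hd hF hFG
  have hK := RMod.IsW.of_comp_left h hd hG hGK
  exact ⟨hF, hG, hK, hF.comp h hGK⟩

/-! ### Retracts -/

theorem RMod.IsW.retract {M N R T : RMod S} {F : M ⟶ N} {G : R ⟶ T} (hG : RMod.IsW G)
    (i : M ⟶ R) (r : R ⟶ M) (j : N ⟶ T) (s : T ⟶ N) (hir : i ≫ r = 𝟙 M) (hjs : j ≫ s = 𝟙 N)
    (hi : i ≫ G = F ≫ j) (hs : G ≫ s = r ≫ F) : RMod.IsW F := by
  have e1 : ∀ x, RHom.f r (RHom.f i x) = x := fun x => congrFun (congrArg RHom.f hir) x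
  have e2 : ∀ x, RHom.f s (RHom.f j x) = x := fun x => congrFun (congrArg RHom.f hjs) x
  have e3 : ∀ x, RHom.f G (RHom.f i x) = RHom.f j (RHom.f F x) :=
    fun x => congrFun (congrArg RHom.f hi) x
  have e4 : ∀ x, RHom.f s (RHom.f G x) = RHom.f F (RHom.f r x) :=
    fun x => congrFun (congrArg RHom.f hs) x
  rw [RMod.isW_iff]
  constructor
  · intro y hy
    obtain ⟨x, x1, x2⟩ := hG.1 (RHom.f j y) ((RHom.dim j y).trans hy)
    refine ⟨RHom.f r x, (RHom.dim r x).trans x1, ?_⟩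
    have := RHom.conn s x2
    rwa [e2, e4] at this
  · intro x x' hp g g1 g2 g3
    have h0 : 0 < N.M.dim g.1 := by omega
    obtain ⟨k, k1, k2, k3, k4⟩ := hG.2.2 (RHom.f i x) (RHom.f i x') (RHom.par i hp) (RHom.f j g)
      ((RHom.dim j g).trans (g1.trans (congrArg (· + 1) (RHom.dim i x).symm)))
      ((RHom.src_of j h0 g2).trans (by rw [e3])) ((RHom.tgt_of j h0 g3).trans (by rw [e3]))
    have k0 : 0 < R.M.dim k.1 := by omega
    refine ⟨RHom.f r k, ?_, ?_, ?_, ?_⟩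
    · exact (RHom.dim r k).trans (k1.trans (congrArg (· + 1) (RHom.dim i x)))
    · exact (RHom.src_of r k0 k2).trans (by rw [e1])
    · exact (RHom.tgt_of r k0 k3).trans (by rw [e1])
    · have := RHom.conn s k4
      rwa [e2, e4] at this

/-! ### Homotopic morphisms -/

/-- the globular set of genuine cells of a model -/
def RMod.gl (M : RMod S) : Glob where
  C := M.Cell
  dim := fun x => M.M.dim x.1
  src := fun x => if h : 0 < M.M.dim x.1 then ⟨M.M.src x.1, Glob.Laws.ok_src x.1 x.2 h⟩ else x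
  tgt := fun x => if h : 0 < M.M.dim x.1 then ⟨M.M.tgt x.1, Glob.Laws.ok_tgt x.1 x.2 h⟩ else x
  ok := fun _ => True

theorem RMod.gl_src {M : RMod S} {x : M.Cell} (h : 0 < M.M.dim x.1) :
    (M.gl.src x : M.Cell).1 = M.M.src x.1 := by
  change ((if h : 0 < M.M.dim x.1 then ⟨M.M.src x.1, Glob.Laws.ok_src x.1 x.2 h⟩ else x :
    M.Cell)).1 = _
  rw [dif_pos h]

theorem RMod.gl_tgt {M : RMod S} {x : M.Cell} (h : 0 < M.M.dim x.1) :
    (M.gl.tgt x : M.Cell).1 = M.M.tgt x.1 := by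
  change ((if h : 0 < M.M.dim x.1 then ⟨M.M.tgt x.1, Glob.Laws.ok_tgt x.1 x.2 h⟩ else x :
    M.Cell)).1 = _
  rw [dif_pos h]

theorem RMod.gl_map (M : RMod S) (p : M.Cell) : MapAt M.gl M.M.toGlob (fun x => x.1) p :=
  ⟨p.2, rfl, fun h0 => ⟨(RMod.gl_src h0).symm, (RMod.gl_tgt h0).symm⟩⟩

instance RMod.gl_laws (M : RMod S) : M.gl.Laws where
  ok_src := fun _ _ _ => trivial
  ok_tgt := fun _ _ _ => trivial
  dim_src := fun x _ h0 => by
    change M.M.dim (M.gl.src x : M.Cell).1 + 1 = _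
    rw [RMod.gl_src h0]
    exact Glob.Laws.dim_src x.1 x.2 h0
  dim_tgt := fun x _ h0 => by
    change M.M.dim (M.gl.tgt x : M.Cell).1 + 1 = _
    rw [RMod.gl_tgt h0]
    exact Glob.Laws.dim_tgt x.1 x.2 h0
  src_tgt := fun x _ h1 => by
    have h1' : 1 < M.M.dim x.1 := h1
    have h0 : 0 < M.M.dim x.1 := by omega
    have d1 := Glob.Laws.dim_src x.1 x.2 h0
    have d2 := Glob.Laws.dim_tgt x.1 x.2 h0
    have a1 : 0 < M.M.dim (M.gl.tgt x : M.Cell).1 := by rw [RMod.gl_tgt h0]; omega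
    have a2 : 0 < M.M.dim (M.gl.src x : M.Cell).1 := by rw [RMod.gl_src h0]; omega
    refine Subtype.ext ?_
    rw [RMod.gl_src (x := M.gl.tgt x) a1, RMod.gl_src (x := M.gl.src x) a2, RMod.gl_tgt h0,
      RMod.gl_src h0]
    exact Glob.Laws.src_tgt x.1 x.2 h1
  tgt_src := fun x _ h1 => by
    have h1' : 1 < M.M.dim x.1 := h1
    have h0 : 0 < M.M.dim x.1 := by omega
    have d1 := Glob.Laws.dim_src x.1 x.2 h0
    have d2 := Glob.Laws.dim_tgt x.1 x.2 h0
    have a1 : 0 < M.M.dim (M.gl.tgt x : M.Cell).1 := by rw [RMod.gl_tgt h0]; omega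
    have a2 : 0 < M.M.dim (M.gl.src x : M.Cell).1 := by rw [RMod.gl_src h0]; omega
    refine Subtype.ext ?_
    rw [RMod.gl_tgt (x := M.gl.tgt x) a1, RMod.gl_tgt (x := M.gl.src x) a2, RMod.gl_tgt h0,
      RMod.gl_src h0]
    exact Glob.Laws.tgt_src x.1 x.2 h1

/-- Two morphisms related by a homotopy of level 0 (which need not respect the operations): the
second one is a weak equivalence if the first one is. -/
theorem RMod.IsW.of_homotopy (h : S.Hyp) {d : L0 S} (hd : d.Good) {M N : RMod S} {F F' : M ⟶ N}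
    {e : M.Cell → N.M.C}
    (H : IsCyl0 d.x M.gl N.M (fun x => (RHom.f F x).1) (fun x => (RHom.f F' x).1) e)
    (hF : RMod.IsW F) : RMod.IsW F' := by
  rw [RMod.isW_iff]
  constructor
  · intro y hy
    obtain ⟨x, x1, x2⟩ := hF.1 y hy
    refine ⟨x, x1, ?_⟩
    obtain ⟨c1, c2, c3, c4⟩ := H.cyl x trivial
    have hcs : HH.cs N.M d.x M.gl (fun x => (RHom.f F x).1) (fun x => (RHom.f F' x).1) e x =
        (RHom.f F x).1 := cs_base (N := 0) hd.x0 (W := M.gl) (p := x) x1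
    have : N.M.toGlob.Conn (RHom.f F x).1 (RHom.f F' x).1 := by
      refine ⟨e x, c1, ?_, c3.trans hcs, c4⟩
      rw [RHom.dim F x]
      exact c2
    exact conn_trans h (conn_symm h this) x2
  · intro x x' hp g g1 g2 g3
    obtain ⟨n, hn⟩ : ∃ n, n = M.M.dim x.1 := ⟨_, rfl⟩
    have hn' : M.M.dim x'.1 = n := by rw [hn]; exact hp.2.2.1.symm
    have ex := sphC_false (y := x) (y' := x') hn.symm
    have ex' := sphC_true (y := x) (y' := x') hn'
    have hm := sphC_mapAt hp hn.symm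
    -- the sphere as a map to the genuine cells
    have hm' : ∀ q, (sphG n).ok q → MapAt (sphG n) M.gl (sphC x x') q := by
      intro q hq
      obtain ⟨a1, a2, a3⟩ := hm q hq
      refine ⟨trivial, a2, fun h0 => ?_⟩
      obtain ⟨a4, a5⟩ := a3 h0
      have h0' : 0 < M.M.dim (sphC x x' q).1 := lt_of_lt_of_eq h0 a2.symm
      exact ⟨Subtype.ext ((RMod.gl_src h0').trans a4), Subtype.ext ((RMod.gl_tgt h0').trans a5)⟩
    have HS := H.comp hm'
    obtain ⟨k, k1, k2, k3, k4, k5⟩ := exists_csT h hd HS g.2 (by rw [hn]; exact g1)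
      (g2.trans (by rw [ex])) (g3.trans (by rw [ex']))
    obtain ⟨k', l1, l2, l3, l4⟩ := hF.2.2 x x' hp ⟨k, k1⟩ (by rw [← hn]; exact k2)
      (k3.trans (by rw [ex])) (k4.trans (by rw [ex']))
    have l1' : M.M.dim k'.1 = n + 1 := l1.trans (congrArg (· + 1) hn.symm)
    have l0 : 0 < M.M.dim k'.1 := by omega
    refine ⟨k', l1, l2, l3, ?_⟩
    have f2 : N.M.dim (RHom.f F k').1 = n + 1 := (RHom.dim F k').trans l1'
    have f3 : N.M.src (RHom.f F k').1 = (RHom.f F (sphC x x' (n, false))).1 := by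
      rw [ex]
      exact RHom.src_of F l0 l2
    have f4 : N.M.tgt (RHom.f F k').1 = (RHom.f F (sphC x x' (n, true))).1 := by
      rw [ex']
      exact RHom.tgt_of F l0 l3
    have c5 := conn_trans h (csT_conn h hd.hx HS f2 f3 f4 l4) k5
    -- the cylinder cell over `k'`
    obtain ⟨c1, c2, c3, c4⟩ := H.cyl k' trivial
    have hb : ∀ q : D, q.1 ≤ n → (M.gl.bd k' q : M.Cell) = sphC x x' q := by
      intro q hq
      have e1 : (M.gl.bd k' q : M.Cell).1 = M.M.toGlob.bd k'.1 q :=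
        map_bd (G := M.gl) (H := M.M.toGlob) (f := fun x : M.Cell => x.1) (x := k') trivial
          (fun y _ _ => RMod.gl_map M y) q
      refine Subtype.ext (e1.trans ?_)
      unfold sphC
      have hkd : M.M.dim k'.1 = n + 1 := l1'
      rcases Nat.lt_or_ge q.1 n with hlt | hge
      · have e2 : M.M.toGlob.bd k'.1 q = M.M.toGlob.bd x.1 q := by
          rw [← l2]
          exact (bd_src k'.2 l0 (by rw [hkd]; omega)).symm
        have e3 : M.M.toGlob.bd k'.1 q = M.M.toGlob.bd x'.1 q := by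
          rw [← l3]
          exact (bd_tgt k'.2 l0 (by rw [hkd]; omega)).symm
        split_ifs
        · exact e3
        · exact e2
      · obtain ⟨i, ε⟩ := q
        have hi : i = n := le_antisymm hq hge
        subst hi
        cases ε
        · have := bd_pred_false (G := M.M.toGlob) l0
          rw [hkd] at this
          rw [if_neg (by simp)]
          change _ = M.M.toGlob.bd x.1 (i, false)
          rw [bd_of_le x.1 (i, false) (le_of_eq hn.symm)]
          exact this.trans l2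
        · have := bd_pred_true (G := M.M.toGlob) l0
          rw [hkd] at this
          rw [if_pos rfl]
          change _ = M.M.toGlob.bd x'.1 (i, true)
          rw [bd_of_le x'.1 (i, true) (le_of_eq hn')]
          exact this.trans l3
    have hcs := cs_eq_csT (hd.hx (n + 1)) (M := N.M) (W := M.gl) (p := k') l1'
      (α' := fun x => (RHom.f F x).1) (β' := fun x => (RHom.f F' x).1) (e' := e)
      (α := fun q => (RHom.f F (sphC x x' q)).1) (β := fun q => (RHom.f F' (sphC x x' q)).1)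
      (e := fun q => e (sphC x x' q)) (k := (RHom.f F k').1)
      (fun q hq => by rw [hb q hq]) rfl (fun q hq => by rw [hb q hq]) (fun q hq => by rw [hb q hq])
    have c6 : N.M.toGlob.Conn (HH.csT d.x n N.M (fun q => (RHom.f F (sphC x x' q)).1)
        (fun q => (RHom.f F' (sphC x x' q)).1) (fun q => e (sphC x x' q)) (RHom.f F k').1)
        (RHom.f F' k').1 := by
      refine ⟨e k', c1, ?_, c3.trans hcs, c4⟩
      have := (csT_spec hd.hx HS (RHom.f F k').2 f2 f3 f4).2.1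
      exact (c2.trans (congrArg (· + 1) l1')).trans (congrArg (· + 1) this.symm)
    exact conn_trans h (conn_symm h c6) c5

/-- the converse -/
theorem RMod.IsW.of_homotopy_rev (h : S.Hyp) {d : L0 S} (hd : d.Good) {M N : RMod S}
    {F F' : M ⟶ N} {e : M.Cell → N.M.C}
    (H : IsCyl0 d.x M.gl N.M (fun x => (RHom.f F x).1) (fun x => (RHom.f F' x).1) e)
    (hF : RMod.IsW F') : RMod.IsW F :=
  RMod.IsW.of_homotopy h hd (H.rev hd.hx hd.hr) hF

/-- version with raw functions -/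
theorem RMod.IsW.of_homotopy' (h : S.Hyp) {d : L0 S} (hd : d.Good) {M N : RMod S} {F F' : M ⟶ N}
    {α β e : M.M.C → N.M.C} (hα : ∀ x : M.Cell, (RHom.f F x).1 = α x.1)
    (hβ : ∀ x : M.Cell, (RHom.f F' x).1 = β x.1) (H : IsCyl0 d.x M.M.toGlob N.M α β e) :
    RMod.IsW F ↔ RMod.IsW F' := by
  have H' := H.comp (W' := M.gl) (f := fun x : M.Cell => x.1) (fun p _ => RMod.gl_map M p)
  obtain ⟨A, hA⟩ : ∃ A : M.Cell → N.M.C, A = fun x => (RHom.f F x).1 := ⟨_, rfl⟩
  obtain ⟨B, hB⟩ : ∃ B : M.Cell → N.M.C, B = fun x => (RHom.f F' x).1 := ⟨_, rfl⟩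
  have e1 : A = fun x : M.Cell => α x.1 := by
    rw [hA]
    exact funext fun x => hα x
  have e2 : B = fun x : M.Cell => β x.1 := by
    rw [hB]
    exact funext fun x => hβ x
  have H'' : IsCyl0 d.x M.gl N.M (fun x => (RHom.f F x).1) (fun x => (RHom.f F' x).1)
      (fun x => e x.1) := by
    suffices hAB : IsCyl0 d.x M.gl N.M A B (fun x => e x.1) by
      subst hA
      subst hB
      exact hAB
    rw [e1, e2]
    exact H'
  exact ⟨RMod.IsW.of_homotopy h hd H'', RMod.IsW.of_homotopy_rev h hd H''⟩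

/-! ### Contractible models -/

/-- all parallel genuine cells are connected -/
def RMod.Contr (M : RMod S) : Prop := ∀ x y : M.Cell, M.M.toGlob.Par x.1 y.1 → M.M.toGlob.Conn x.1 y.1

theorem RMod.contr_iff (M : RMod S) : M.Contr ↔ ∀ L, M.M.toGlob.MContr L := by
  constructor
  · intro h L x y hp _
    exact h ⟨x, hp.1⟩ ⟨y, hp.2.1⟩ hp
  · intro h x y hp
    exact h (M.M.dim x.1 + 1) x.1 y.1 hp (Nat.lt_succ_self _)

theorem RMod.Contr.isW {M N : RMod S} (hM : M.Contr) (hN : N.Contr)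
    (h0 : ∀ y : N.Cell, N.M.dim y.1 = 0 → ∃ x : M.Cell, M.M.dim x.1 = 0) (F : M ⟶ N) :
    RMod.IsW F := by
  rw [RMod.isW_iff]
  constructor
  · intro y hy
    obtain ⟨x, hx⟩ := h0 y hy
    refine ⟨x, hx, hN _ _ ⟨(RHom.f F x).2, y.2, ?_, fun h => ?_⟩⟩
    · exact ((RHom.dim F x).trans hx).trans hy.symm
    · exact absurd (lt_of_lt_of_eq h ((RHom.dim F x).trans hx)) (lt_irrefl _)
  · intro x x' hp g g1 g2 g3
    obtain ⟨k, k1, k2, k3, k4⟩ := hM x x' hp
    have k0 : 0 < M.M.dim k := by omega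
    refine ⟨⟨k, k1⟩, k2, k3, k4, hN _ _ ⟨(RHom.f F ⟨k, k1⟩).2, g.2, ?_, fun _ => ⟨?_, ?_⟩⟩⟩
    · exact ((RHom.dim F ⟨k, k1⟩).trans k2).trans g1.symm
    · exact (RHom.src_of F (x := ⟨k, k1⟩) k0 k3).trans g2.symm
    · exact (RHom.tgt_of F (x := ⟨k, k1⟩) k0 k4).trans g3.symm

theorem RMod.IsW.contr_left {M N : RMod S} {F : M ⟶ N} (hF : RMod.IsW F) (hN : N.Contr) :
    M.Contr :=
  fun x y hp => hF.2.1 x y hp (hN _ _ (RHom.par F hp))

theorem RMod.IsW.contr_right (h : S.Hyp) {d : L0 S} (hd : d.Good) {M N : RMod S} {F : M ⟶ N}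
    (hF : RMod.IsW F) (hM : M.Contr) : N.Contr := by
  intro y y' hp
  obtain ⟨n, hn⟩ : ∃ n, n = N.M.dim y.1 := ⟨_, rfl⟩
  have hn' : N.M.dim y'.1 = n := by rw [hn]; exact hp.2.2.1.symm
  obtain ⟨α, e, hα, H⟩ := hF.straighten h hd n (sphC y y') (sphC_mapAt hp hn.symm)
  have := H.transport hd.hx (sphG_par n) (RHom.conn F (hM _ _ (sph_par hα)))
  rw [sphC_false hn.symm, sphC_true hn'] at this
  exact this

end HH
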