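import Pool.Agent.HH.Trans0
import Pool.Agent.HH.Cyl0UP
import Pool.Agent.HH.PullF
import Pool.Agent.HH.Hom

/-!
# HH 2b BC: base change of automorphisms along a cylinder 

`e` is a cylinder on the disk of dimension `i` in the model `M`, from `α` to `β`. A loop `l` at the `i`-cell
`α (i, false)` (an `(i+1)`-cell from it to itself) is transported to
  `TL l = x_{i+1}[l; e, e]`, a loop at `β (i, false)`:
it is the cylinder source `cs` at the top cell of the disk of dimension `i + 1` mapped to `M` by `loopExt i α l`, which sends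
both `i`-cells of its boundary to `α (i, false)` and the top cell to `l`.

* `TL_spec`: `cs_spec` for `W = diskG (i + 1)`, `p = (i + 1, false)`, `N = 0` (all `r` with `r.1 ≤ i` are positions of the
  cylinder `e` after `bdD (i, false)`).
* `TL_conn`: let `W` be the globular set with the cells of `diskG i` and two more cells of dimension `i + 1`, both from the
  top cell to itself (e.g. on `Option (Option D)` or `D ⊕ Bool`). `α`, `β` are extended by `l, l'` and `TL l, TL l'`, `e` by units
  (`exists_unit`-type: cells from `cs` to itself; `d.un` evaluated at the cell: `atCell`, `un_ok` ...): a cylinder `IsCyl0` on `W`;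
  `IsCyl0.transport` and `IsCyl0.transport_rev` give both directions.
* `TL_surj`: let `e' = cs M d.r ..` be the reversed cylinder (`IsCyl0.rev`), `l := TL` of `m` along `e'`, a loop at `α (i, false)`. On
  `W = ` disk plus one loop cell, with `α = m`, top `= l` and a unit as cylinder cell, we have a cylinder over `e'`; reverse it:
  a cylinder cell from `x_{i+1}[l; e'', e'']` to `m`, `e''` the twice reversed cylinder. By `d.v (i + 1)` (fields `v_ok`, `v_src`, `v_tgt`
  evaluated at the disk `loopExt`) `TL l = x_{i+1}[l; e, e]` is connected to `x_{i+1}[l; e'', e'']`; homotopy is transitive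
  (contractible codes: hypothesis `hdisk`, or transport), so `TL l` is connected to `m`.
* `TL_nat`: `RHom.eval`.
* `conn_trans`: use `IsCyl0.transport`? No: `x → y → z`: take the cylinder on `diskG j` which is the unit cylinder except the
  top cell... Simplest: apply `d.w0`/`w0_spec` of W01 or the hypothesis `hcomp`. It is given here as a hypothesis.
-/

set_option autoImplicit false

namespace HH

open Classical CategoryTheory

variable {E : Sig}

/-- The disk of dimension `i + 1` with both boundaries of dimension `i` equal to `α (i, false)` and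
top cell `l`. -/
noncomputable def loopExt {K : Type} (i : ℕ) (α : D → K) (l : K) : D → K :=
  fun q => if i < q.1 then l else α (bdD (i, false) q)

/-- The transported loop. -/
noncomputable def TL (x : XFam E) (M : Model E) (i : ℕ) (α β e : D → M.C) (l : M.C) : M.C :=
  cs M x (diskG (i + 1)) (loopExt i α l) (loopExt i β l) (loopExt i e l) (i + 1, false)

/-- loops at a cell -/
def IsLoop (G : Glob) (u l : G.C) : Prop :=
  G.ok l ∧ G.dim l = G.dim u + 1 ∧ G.src l = u ∧ G.tgt l = u

variable [E.Good] {d : L0 E} {M : RMod E} {i : ℕ} {α β e : D → M.M.C}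

/-- the loop data as maps from the sphere of dimension `i` -/
theorem loop_bdD {K : Type} {α : D → K} {l : K} {q : D} (h : q.1 ≤ i) :
    loopExt i α l q = α (bdD (i, false) q) := if_neg (by omega)

theorem bdD_disk_ok (q : D) : (diskG i).ok (bdD (i, false) q) := by
  unfold bdD
  split_ifs with h
  · exact Or.inl h
  · exact Or.inr ⟨rfl, rfl⟩

theorem bdD_sph_map (q : D) (hq : (sphG i).ok q) : MapAt (sphG i) (diskG i) (bdD (i, false)) q := by
  have hq' : q.1 ≤ i := hq
  refine ⟨bdD_disk_ok q, ?_, fun h0 => ?_⟩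
  · change (bdD (i, false) q).1 = q.1
    unfold bdD
    split_ifs with h
    · rfl
    · change ¬ q.1 < i at h
      change i = q.1
      omega
  · have h0' : 0 < q.1 := h0
    have h1 : ∀ ε : Bool, bdD (i, false) (q.1 - 1, ε) = (q.1 - 1, ε) := by
      intro ε
      unfold bdD
      rw [if_pos (by change q.1 - 1 < i; omega)]
    have h2 : (bdD (i, false) q).1 = q.1 := by
      unfold bdD
      split_ifs with h
      · rfl
      · change ¬ q.1 < i at h
        change i = q.1
        omega
    constructor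
    · change ((bdD (i, false) q).1 - 1, false) = bdD (i, false) (q.1 - 1, false)
      rw [h1, h2]
    · change ((bdD (i, false) q).1 - 1, true) = bdD (i, false) (q.1 - 1, true)
      rw [h1, h2]

omit [E.Good] in
theorem loop_isCyl0 (h : IsCyl0 d.x (diskG i) M.M α β e) :
    IsCyl0 d.x (sphG i) M.M (fun q => α (bdD (i, false) q)) (fun q => β (bdD (i, false) q))
      (fun q => e (bdD (i, false) q)) :=
  h.comp (W' := sphG i) (f := bdD (i, false)) (fun q hq => bdD_sph_map q hq)

theorem bdD_top (b : Bool) : bdD (i, false) (i, b) = (i, false) := by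
  unfold bdD
  rw [if_neg (lt_irrefl _)]

omit [E.Good] in
theorem TL_eq (hd : d.Good) {l : M.M.C} : TL d.x M.M i α β e l =
    csT d.x i M.M (fun q => α (bdD (i, false) q)) (fun q => β (bdD (i, false) q))
      (fun q => e (bdD (i, false) q)) l := by
  unfold TL
  have hb : ∀ q : D, q.1 ≤ i → (diskG (i + 1)).bd ((i + 1, false) : D) q = q := by
    intro q hq
    rw [diskG_bd]
    exact bdD_le (le_refl _) hq (le_refl _)
  refine cs_eq_csT (hd.hx (i + 1)) (W := diskG (i + 1)) (p := ((i + 1, false) : D)) rfl ?_ ?_ ?_ ?_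
  · intro q hq
    rw [hb q hq]
    exact loop_bdD hq
  · exact if_pos (Nat.lt_succ_self i)
  · intro q hq
    rw [hb q hq]
    exact loop_bdD hq
  · intro q hq
    rw [hb q hq]
    exact loop_bdD hq

omit [E.Good] in
theorem loop_dims (h : IsCyl0 d.x (diskG i) M.M α β e) {l : M.M.C}
    (hl : IsLoop M.M.toGlob (α (i, false)) l) :
    M.M.ok l ∧ M.M.dim l = i + 1 ∧ M.M.src l = α (bdD (i, false) (i, false)) ∧
      M.M.tgt l = α (bdD (i, false) (i, true)) := by
  obtain ⟨l1, l2, l3, l4⟩ := hl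
  have hd1 : M.M.dim (α (i, false)) = i := (h.mapα (i, false) (Or.inr ⟨rfl, rfl⟩)).2.1
  refine ⟨l1, by rw [l2]; exact congrArg (· + 1) hd1, ?_, ?_⟩
  · rw [bdD_top]
    exact l3
  · rw [bdD_top]
    exact l4

theorem TL_spec (hd : d.Good) (h : IsCyl0 d.x (diskG i) M.M α β e) {l : M.M.C}
    (hl : IsLoop M.M.toGlob (α (i, false)) l) :
    IsLoop M.M.toGlob (β (i, false)) (TL d.x M.M i α β e l) := by
  obtain ⟨l1, l2, l3, l4⟩ := loop_dims h hl
  obtain ⟨c1, c2, c3, c4⟩ := csT_spec hd.hx (loop_isCyl0 h) l1 l2 l3 l4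
  have hd1 : M.M.dim (β (i, false)) = i := (h.mapβ (i, false) (Or.inr ⟨rfl, rfl⟩)).2.1
  rw [TL_eq hd]
  refine ⟨c1, c2.trans (congrArg (· + 1) hd1.symm), c3.trans ?_, c4.trans ?_⟩
  · exact congrArg β (bdD_top false)
  · exact congrArg β (bdD_top true)

theorem TL_conn (hd : d.Good) (h : IsCyl0 d.x (diskG i) M.M α β e) {l l' : M.M.C}
    (hl : IsLoop M.M.toGlob (α (i, false)) l) (hl' : IsLoop M.M.toGlob (α (i, false)) l') :
    M.M.toGlob.Conn l l' ↔
      M.M.toGlob.Conn (TL d.x M.M i α β e l) (TL d.x M.M i α β e l') := by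
  obtain ⟨l1, l2, l3, l4⟩ := loop_dims h hl
  obtain ⟨m1, m2, m3, m4⟩ := loop_dims h hl'
  rw [TL_eq hd, TL_eq hd]
  exact ⟨fun hc => csT_conn' (fun hy => hd.conn_refl hy) hd.hx (loop_isCyl0 h) l2 l3 l4 hc,
    fun hc => csT_reflect (fun hy => hd.conn_refl hy) hd.hx hd.hr (loop_isCyl0 h) l1 l2 l3 l4
      m1 m2 m3 m4 hc⟩

theorem TL_surj (hd : d.Good) (h : IsCyl0 d.x (diskG i) M.M α β e)
    (htrans : ∀ x y z : M.M.C, M.M.toGlob.Conn x y → M.M.toGlob.Conn y z → M.M.toGlob.Conn x z)
    {m : M.M.C} (hm : IsLoop M.M.toGlob (β (i, false)) m) :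
    ∃ l, IsLoop M.M.toGlob (α (i, false)) l ∧
      M.M.toGlob.Conn (TL d.x M.M i α β e l) m := by
  obtain ⟨m1, m2, m3, m4⟩ := hm
  have hd1 : M.M.dim (β (i, false)) = i := (h.mapβ (i, false) (Or.inr ⟨rfl, rfl⟩)).2.1
  have hd2 : M.M.dim (α (i, false)) = i := (h.mapα (i, false) (Or.inr ⟨rfl, rfl⟩)).2.1
  obtain ⟨k, k1, k2, k3, k4, k5⟩ := exists_csT' hd htrans (loop_isCyl0 h) m1
    (m2.trans (congrArg (· + 1) hd1)) (m3.trans (congrArg β (bdD_top false)).symm)
    (m4.trans (congrArg β (bdD_top true)).symm)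
  refine ⟨k, ⟨k1, k2.trans (congrArg (· + 1) hd2.symm), ?_, ?_⟩, ?_⟩
  · exact k3.trans (congrArg α (bdD_top false))
  · exact k4.trans (congrArg α (bdD_top true))
  · rw [TL_eq hd]
    exact k5

theorem TL_nat (hd : d.Good) (h : IsCyl0 d.x (diskG i) M.M α β e) {l : M.M.C}
    (hl : IsLoop M.M.toGlob (α (i, false)) l) {N : RMod E} (φ : M ⟶ N)
    {α' β' e' : D → N.M.C} (hα : ∀ q (h : M.M.ok (α q)), (RHom.f φ ⟨α q, h⟩).1 = α' q)
    (hβ : ∀ q (h : M.M.ok (β q)), (RHom.f φ ⟨β q, h⟩).1 = β' q)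
    (he : ∀ q (h : M.M.ok (e q)), (RHom.f φ ⟨e q, h⟩).1 = e' q) {l' : N.M.C}
    (hll : (RHom.f φ ⟨l, hl.1⟩).1 = l') :
    (RHom.f φ ⟨TL d.x M.M i α β e l, (TL_spec hd h hl).1⟩).1 =
      TL d.x N.M i α' β' e' l' := by
  have H := loop_isCyl0 h
  obtain ⟨l1, l2, l3, l4⟩ := loop_dims h hl
  have okα : ∀ q, M.M.ok (α (bdD (i, false) q)) := fun q => (h.mapα _ (bdD_disk_ok q)).1
  have okβ : ∀ q, M.M.ok (β (bdD (i, false) q)) := fun q => (h.mapβ _ (bdD_disk_ok q)).1
  have oke : ∀ q, M.M.ok (e (bdD (i, false) q)) := fun q => (h.cyl _ (bdD_disk_ok q)).1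
  have key := RHom.csT hd.hx φ (n := i) (α := fun q => ⟨α (bdD (i, false) q), okα q⟩)
    (β := fun q => ⟨β (bdD (i, false) q), okβ q⟩) (e := fun q => ⟨e (bdD (i, false) q), oke q⟩)
    H (k := ⟨l, hl.1⟩) l2 l3 l4 (c := ⟨TL d.x M.M i α β e l, (TL_spec hd h hl).1⟩) (TL_eq hd)
  rw [key, TL_eq hd, hll]
  exact csT_congr (hd.hx (i + 1)) (fun q _ => hα _ _) (fun q _ => hβ _ _) (fun q _ => he _ _)

end HH
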