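import Pool.Agent.HH.PastLaws

/-!
# HH stage 1b, module b5: the signature `Cs`
-/

set_option autoImplicit false

namespace HH

open Classical

theorem BT.toTm_ofTm {A : PC} (t : Cs.T A.P) : (BT.ofTm t).toTm = t := by
  induction t with
  | var p => rfl
  | op k γ ih =>
    show Tm.op (⟨k.1, k.2.1, k.2.2⟩ : CsK) (fun p => (BT.ofTm (γ p)).toTm) = Tm.op k γ
    congr 1
    funext p
    exact ih p

theorem BT.ofTm_toTm {A : PC} (t : BT A) : BT.ofTm t.toTm = t := by
  induction t with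
  | var p => rfl
  | coh B f g γ _ _ ih =>
    show BT.coh B f g (fun p => BT.ofTm (γ p).toTm) = BT.coh B f g γ
    congr 1
    funext p
    exact ih p

theorem CsSig_inj {A : PC} {t t' : BT A} (h : t.toTm = t'.toTm) : t = t' := by
  rw [← BT.ofTm_toTm t, h, BT.ofTm_toTm]

theorem BT.toTm_bind {A B : PC} (t : BT A) (γ : A.P → BT B) :
    (t.bind γ).toTm = (show Cs.T A.P from t.toTm).bind (fun p => (γ p).toTm) := by
  induction t with
  | var p => rfl
  | coh C f g δ _ _ ih =>
    show Tm.op (⟨C, f, g⟩ : CsK) (fun p => ((δ p).bind γ).toTm) =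
      Tm.op (⟨C, f, g⟩ : CsK) (fun p => Tm.bind (show Cs.T _ from (δ p).toTm)
        (fun p => (γ p).toTm))
    congr 1
    funext p
    exact ih p γ

theorem BT.tdim_toTm {A : PC} (t : BT A) : (ofGlob Cs A.G).tdim t.toTm = t.dim := by
  cases t with
  | var p => rfl
  | coh B f g γ => rfl

theorem BT.tsrc_toTm {A : PC} (t : BT A) : (ofGlob Cs A.G).tsrc t.toTm = t.src.toTm := by
  cases t with
  | var p => rfl
  | coh B f g γ => exact (BT.toTm_bind f γ).symm

theorem BT.ttgt_toTm {A : PC} (t : BT A) : (ofGlob Cs A.G).ttgt t.toTm = t.tgt.toTm := by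
  cases t with
  | var p => rfl
  | coh B f g γ => exact (BT.toTm_bind g γ).symm

theorem BT.tok_toTm {A : PC} (t : BT A) : (ofGlob Cs A.G).tok t.toTm ↔ t.ok := by
  induction t with
  | var p => exact Iff.rfl
  | @coh A' B f g γ _ _ ih =>
    refine and_congr Iff.rfl (forall_congr' fun p => and_congr (ih p) (and_congr ?_ ?_))
    · show (ofGlob Cs A'.G).tdim (γ p).toTm = B.h p ↔ _
      rw [BT.tdim_toTm]
    · show (0 < B.h p → (ofGlob Cs A'.G).tsrc (γ p).toTm = (γ (B.G.src p)).toTm ∧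
        (ofGlob Cs A'.G).ttgt (γ p).toTm = (γ (B.G.tgt p)).toTm) ↔ _
      rw [BT.tsrc_toTm, BT.ttgt_toTm]
      constructor
      · intro h h0
        exact ⟨CsSig_inj (h h0).1, CsSig_inj (h h0).2⟩
      · intro h h0
        exact ⟨congrArg BT.toTm (h h0).1, congrArg BT.toTm (h h0).2⟩

instance Cs_good : Cs.Good where
  ar_ne := fun _ => ⟨(0 : Fin _)⟩
  ar_laws := fun k _ => PC_laws k.1
  full := fun _ _ _ => trivial
  dm_pos := fun _ _ => Nat.succ_pos _
  ok_bs := fun k hk => (BT.tok_toTm k.2.1).2 hk.1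
  ok_bt := fun k hk => (BT.tok_toTm k.2.2).2 hk.2.1
  dim_bs := fun k _ => congrArg (· + 1) (BT.tdim_toTm k.2.1)
  dim_bt := fun k hk => congrArg (· + 1) ((BT.tdim_toTm k.2.2).trans hk.2.2.1.symm)
  src_bt := fun k hk h1 => by
    have h0 : 0 < k.2.1.dim := by
      have h1' : 1 < k.2.1.dim + 1 := h1
      omega
    exact (BT.tsrc_toTm k.2.2).trans ((congrArg BT.toTm (hk.2.2.2.1 h0).1.symm).trans
      (BT.tsrc_toTm k.2.1).symm)
  tgt_bs := fun k hk h1 => by
    have h0 : 0 < k.2.1.dim := by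
      have h1' : 1 < k.2.1.dim + 1 := h1
      omega
    exact (BT.ttgt_toTm k.2.1).trans ((congrArg BT.toTm (hk.2.2.2.1 h0).2).trans
      (BT.ttgt_toTm k.2.2).symm)

instance Cs_strat : Cs.Strat where
  le := fun _ hk p => hk.2.2.2.2 p

end HH
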