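import Pool.Agent.HH.PastCode

/-!
# HH stage 1b, module b4: truncation of pasting shapes
-/

set_option autoImplicit false

namespace HH

open Classical

/-- the truncated linear order -/
abbrev TruT (A : PC) (j : ℕ) : Type :=
  {t : A.P // A.h t ≤ j ∨ (A.h t = j + 1 ∧ ∃ s : A.P, s ⋖ t ∧ A.h s = j)}

namespace TruT

variable {A : PC} {j : ℕ}

/-- the heights -/
def h (t : TruT A j) : ℕ := A.h t.1

theorem h_le (t : TruT A j) : t.h ≤ j + 1 := by
  have h1 : t.h = A.h t.1 := rfl
  rcases t.2 with h | h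
  · omega
  · omega

theorem h0 : A.h 0 = 0 := A.past.bot 0 fun _ _ => Fin.zero_le _

theorem hlast : A.h (Fin.last A.N) = 0 := A.past.top _ fun _ _ => Fin.le_last _

theorem past : Past (TruT A j) h where
  ne := ⟨⟨0, Or.inl (by rw [h0]; exact Nat.zero_le j)⟩⟩
  step := by
    intro a b hab
    obtain ⟨hlt, hno⟩ := hab
    have hlt' : a.1 < b.1 := hlt
    by_cases hcov : a.1 ⋖ b.1
    · exact A.past.step _ _ hcov
    have ha := a.2
    have hb := b.2
    -- nothing between `a` and `b` is in the truncation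
    have hno' : ∀ c : A.P, a.1 < c → c < b.1 →
        ¬ (A.h c ≤ j ∨ (A.h c = j + 1 ∧ ∃ s : A.P, s ⋖ c ∧ A.h s = j)) := by
      intro c h1 h2 h3
      exact hno (c := ⟨c, h3⟩) h1 h2
    have hbet : ∃ c : A.P, a.1 < c ∧ c < b.1 := by
      by_contra hcon
      push Not at hcon
      exact hcov ⟨hlt', fun c h1 h2 => absurd h2 (not_lt_of_ge (hcon c h1))⟩
    obtain ⟨c0, hc1, hc2⟩ := hbet
    have hc1' : a.1.1 < c0.1 := hc1
    have hc2' : c0.1 < b.1.1 := hc2
    have hb' := b.1.2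
    -- the successor of `a`
    let c : A.P := ⟨a.1.1 + 1, by omega⟩
    have hac : a.1 ⋖ c := by
      refine ⟨by show a.1.1 < a.1.1 + 1; omega, fun d h1 h2 => ?_⟩
      have h1' : a.1.1 < d.1 := h1
      have h2' : d.1 < a.1.1 + 1 := h2
      omega
    have hcb : c < b.1 := by show a.1.1 + 1 < b.1.1; omega
    have hcn := hno' c hac.1 hcb
    rw [not_or, not_and] at hcn
    obtain ⟨hcj, hcp⟩ := hcn
    have hstep := A.past.step _ _ hac
    have hc3 : A.h c ≠ j + 1 := by
      intro h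
      refine hcp h ⟨a.1, hac, ?_⟩
      omega
    -- the predecessor of `b`
    let d : A.P := ⟨b.1.1 - 1, by omega⟩
    have hdb : d ⋖ b.1 := by
      refine ⟨by show b.1.1 - 1 < b.1.1; omega, fun e h1 h2 => ?_⟩
      have h1' : b.1.1 - 1 < e.1 := h1
      have h2' : e.1 < b.1.1 := h2
      omega
    have had : a.1 < d := by show a.1.1 < b.1.1 - 1; omega
    have hdn := hno' d had hdb.1
    rw [not_or, not_and] at hdn
    have hstep2 := A.past.step _ _ hdb
    have hb2 : A.h b.1 ≤ j := by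
      rcases hb with h | ⟨h, s, hs, hsj⟩
      · exact h
      · exfalso
        have hsd : s = d := by
          have h1 : s.1 < b.1.1 := hs.1
          have h2 : ¬ (s < d) := fun h3 => hs.2 h3 hdb.1
          have h3 : ¬ (s.1 < b.1.1 - 1) := h2
          apply Fin.ext
          show s.1 = b.1.1 - 1
          omega
        rw [hsd] at hsj
        omega
    show A.h a.1 = A.h b.1 + 1 ∨ A.h b.1 = A.h a.1 + 1
    left
    have ha2 : A.h a.1 ≤ j + 1 := by
      rcases ha with h | h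
      · omega
      · omega
    omega
  bot := by
    intro a ha
    have h1 := ha (b := ⟨0, Or.inl (by rw [h0]; exact Nat.zero_le j)⟩) (Fin.zero_le a.1)
    have h2 : a.1 = 0 := le_antisymm h1 (Fin.zero_le _)
    show A.h a.1 = 0
    rw [h2]
    exact h0
  top := by
    intro a ha
    have h1 := ha (b := ⟨Fin.last A.N, Or.inl (by rw [hlast]; exact Nat.zero_le j)⟩)
      (Fin.le_last a.1)
    have h2 : a.1 = Fin.last A.N := le_antisymm (Fin.le_last _) h1
    show A.h a.1 = 0
    rw [h2]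
    exact hlast

theorem incl_mapAt (t : TruT A j) : MapAt (pastG (TruT A j) h) A.G Subtype.val t := by
  refine ⟨trivial, rfl, fun h0 => ?_⟩
  have htj := t.h_le
  have hout : ∀ r : A.P, (∀ hr : A.h r ≤ j ∨ (A.h r = j + 1 ∧ ∃ s : A.P, s ⋖ r ∧ A.h s = j),
      h (A := A) (j := j) t ≤ h (A := A) (j := j) ⟨r, hr⟩) → A.h t.1 ≤ A.h r := by
    intro r hr
    by_cases hr' : A.h r ≤ j ∨ (A.h r = j + 1 ∧ ∃ s : A.P, s ⋖ r ∧ A.h s = j)
    · exact hr hr'
    · rw [not_or] at hr'
      have h1 : A.h t.1 ≤ j + 1 := htj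
      omega
  constructor
  · obtain ⟨s1, s2, s3⟩ := past_src_spec (past (A := A) (j := j)) h0
    refine past_src_unique A.past s1 s2 fun r hr1 hr2 => ?_
    exact hout r fun hr => s3 ⟨r, hr⟩ hr1 hr2
  · obtain ⟨s1, s2, s3⟩ := past_tgt_spec (past (A := A) (j := j)) h0
    refine past_tgt_unique A.past s1 s2 fun r hr1 hr2 => ?_
    exact hout r fun hr => s3 ⟨r, hr⟩ hr1 hr2

/-- the partial inverse -/
noncomputable def ret (p : A.P) : TruT A j :=
  if hp : A.h p ≤ j then ⟨p, Or.inl hp⟩ else ⟨0, Or.inl (by rw [h0]; exact Nat.zero_le j)⟩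

theorem ret_val {p : A.P} (hp : A.h p ≤ j) : (ret (j := j) p).1 = p := by
  unfold ret
  rw [dif_pos hp]

theorem ret_mapAt {p : A.P} (hp : A.h p ≤ j) :
    MapAt A.G (pastG (TruT A j) h) ret p := by
  have hd : h (A := A) (j := j) (ret p) = A.h p := congrArg A.h (ret_val hp)
  refine ⟨trivial, hd, fun h0 => ?_⟩
  have h0' : 0 < A.h p := h0
  obtain ⟨-, -, h3⟩ := incl_mapAt (A := A) (j := j) (ret p)
  obtain ⟨h4, h5⟩ := h3 (by show 0 < h (A := A) (j := j) (ret p); rw [hd]; exact h0)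
  rw [ret_val hp] at h4 h5
  obtain ⟨-, s2, -⟩ := past_src_spec A.past h0'
  obtain ⟨-, t2, -⟩ := past_tgt_spec A.past h0'
  constructor
  · apply Subtype.ext
    rw [ret_val (show A.h (A.G.src p) ≤ j by show A.h (pSrc A.h p) ≤ j; omega)]
    exact h4.symm
  · apply Subtype.ext
    rw [ret_val (show A.h (A.G.tgt p) ≤ j by show A.h (pTgt A.h p) ≤ j; omega)]
    exact h5.symm

end TruT

/-- truncation: a pasting shape `B` of dimension `≤ j + 1` with a map to `A`, and a partial inverse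
which is defined on the cells of dimension `≤ j` -/
theorem exists_trunc (A : PC) (j : ℕ) :
    ∃ (B : PC) (i : B.P → A.P) (r : A.P → B.P),
      (∀ p, B.h p ≤ j + 1) ∧ (∀ p, MapAt B.G A.G i p) ∧
      (∀ p, A.h p ≤ j → MapAt A.G B.G r p) ∧ ∀ p, A.h p ≤ j → i (r p) = p := by
  have H := TruT.past (A := A) (j := j)
  have := H.ne
  have hc : Fintype.card (TruT A j) = (Fintype.card (TruT A j) - 1) + 1 := by
    have := Fintype.card_pos (α := TruT A j)
    omega
  let e : Fin ((Fintype.card (TruT A j) - 1) + 1) ≃o TruT A j := monoEquivOfFin (TruT A j) hc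
  let B : PC := ⟨Fintype.card (TruT A j) - 1, fun t => TruT.h (e t), PastCode_iso H e⟩
  refine ⟨B, fun p => (e p).1, fun p => e.symm (TruT.ret p), fun p => (e p).h_le, fun p => ?_,
    fun p hp => ?_, fun p hp => ?_⟩
  · obtain ⟨-, a2, a3⟩ := PastCode_mapAt H e p
    obtain ⟨-, b2, b3⟩ := TruT.incl_mapAt (e p)
    refine ⟨trivial, b2.trans a2, fun h0 => ?_⟩
    obtain ⟨a4, a5⟩ := a3 h0
    obtain ⟨b4, b5⟩ := b3 (by rw [a2]; exact h0)
    exact ⟨b4.trans (congrArg Subtype.val a4), b5.trans (congrArg Subtype.val a5)⟩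
  · obtain ⟨-, a2, a3⟩ := PastCode_mapAt H e (e.symm (TruT.ret p))
    rw [e.apply_symm_apply] at a2 a3
    obtain ⟨-, b2, b3⟩ := TruT.ret_mapAt hp
    refine ⟨trivial, a2.symm.trans b2, fun h0 => ?_⟩
    obtain ⟨b4, b5⟩ := b3 h0
    obtain ⟨a4, a5⟩ := a3 (by rw [← a2, b2]; exact h0)
    constructor
    · show _ = e.symm (TruT.ret (A.G.src p))
      rw [e.eq_symm_apply, ← b4]
      exact a4.symm
    · show _ = e.symm (TruT.ret (A.G.tgt p))
      rw [e.eq_symm_apply, ← b5]
      exact a5.symm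
  · show (e (e.symm (TruT.ret p))).1 = p
    rw [e.apply_symm_apply, TruT.ret_val hp]

end HH
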