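import Pool.Agent.HH.PastIns
import Pool.Agent.HH.PastTrunc
import Pool.Agent.HH.CsSig
import Pool.Agent.HH.Retract

/-!
# HH stage 1b, module b6: the arities of `Cs` are contractible
-/

set_option autoImplicit false

namespace HH

open Classical

/-- parallel terms over a shape of dimension `≤ dim + 1` are connected -/
theorem Cs_conn_small {A : PC} {f g : Cs.T A.P} (h : (ofGlob Cs A.G).Par f g)
    (hA : ∀ p, A.h p ≤ (ofGlob Cs A.G).tdim f + 1) : (ofGlob Cs A.G).Conn f g := by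
  obtain ⟨h1, h2, h3, h4⟩ := h
  have hf := BT.toTm_ofTm f
  have hg := BT.toTm_ofTm g
  have hfd : (BT.ofTm f).dim = (ofGlob Cs A.G).tdim f := by
    rw [← BT.tdim_toTm, hf]
  have hgd : (BT.ofTm g).dim = (ofGlob Cs A.G).tdim g := by
    rw [← BT.tdim_toTm, hg]
  have h3' : (ofGlob Cs A.G).tdim f = (ofGlob Cs A.G).tdim g := h3
  have hk : Cs.kok (⟨A, BT.ofTm f, BT.ofTm g⟩ : CsK) := by
    refine ⟨(BT.tok_toTm _).1 (by rw [hf]; exact h1), (BT.tok_toTm _).1 (by rw [hg]; exact h2),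
      ?_, ?_, ?_⟩
    · show (BT.ofTm f).dim = (BT.ofTm g).dim
      rw [hfd, hgd]
      exact h3'
    · intro h0
      have h0' : 0 < (BT.ofTm f).dim := h0
      rw [hfd] at h0'
      obtain ⟨h5, h6⟩ := h4 h0'
      constructor
      · apply CsSig_inj
        show (BT.ofTm f).src.toTm = (BT.ofTm g).src.toTm
        rw [← BT.tsrc_toTm, ← BT.tsrc_toTm, hf, hg]
        exact h5
      · apply CsSig_inj
        show (BT.ofTm f).tgt.toTm = (BT.ofTm g).tgt.toTm
        rw [← BT.ttgt_toTm, ← BT.ttgt_toTm, hf, hg]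
        exact h6
    · intro p
      show A.h p ≤ (BT.ofTm f).dim + 1
      rw [hfd]
      exact hA p
  refine ⟨Tm.op (⟨A, BT.ofTm f, BT.ofTm g⟩ : CsK) Tm.var, ⟨hk, fun p => ?_⟩, ?_, ?_, ?_⟩
  · exact ⟨trivial, rfl, fun _ => ⟨rfl, rfl⟩⟩
  · exact congrArg (· + 1) hfd
  · show Tm.bind (BT.ofTm f).toTm Tm.var = f
    rw [hf]
    exact Tm.bind_var_self f
  · show Tm.bind (BT.ofTm g).toTm Tm.var = g
    rw [hg]
    exact Tm.bind_var_self g

theorem Cs_code_contr (A : PC) (L : ℕ) : (ofGlob Cs A.G).MContr L := by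
  intro f g hfg _
  obtain ⟨B, i, r, hB, hi, hr, hir⟩ := exists_trunc A ((ofGlob Cs A.G).tdim f)
  have hR : IsAsg ((ofGlob Cs A.G).tdim f + 1) (ofGlob Cs A.G) (ofGlob Cs B.G).m
      (fun p => Tm.var (r p)) := by
    intro p _ hp
    obtain ⟨a1, a2, a3⟩ := hr p (Nat.lt_succ_iff.1 hp)
    refine ⟨trivial, a2, fun h0 => ?_⟩
    obtain ⟨a4, a5⟩ := a3 h0
    exact ⟨congrArg Tm.var a4, congrArg Tm.var a5⟩
  have hI : ∀ L', IsAsg L' (ofGlob Cs B.G) (ofGlob Cs A.G).m (fun p => Tm.var (i p)) := by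
    intro L' p _ _
    obtain ⟨a1, a2, a3⟩ := hi p
    refine ⟨trivial, a2, fun h0 => ?_⟩
    obtain ⟨a4, a5⟩ := a3 h0
    exact ⟨congrArg Tm.var a4, congrArg Tm.var a5⟩
  have hback : ∀ t : Cs.T A.P, (ofGlob Cs A.G).tok t →
      (ofGlob Cs A.G).tdim t < (ofGlob Cs A.G).tdim f + 1 →
      (ofGlob Cs A.G).m.eval (fun p => Tm.var (i p))
        ((ofGlob Cs B.G).m.eval (fun p => Tm.var (r p)) t) = t := by
    intro t ht htd
    have h1 : (ofGlob Cs A.G).m.eval (fun p => Tm.var (i p))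
        ((ofGlob Cs B.G).m.eval (fun p => Tm.var (r p)) t) =
        t.bind (fun p => Tm.var (i (r p))) := by
      show (t.bind (fun p => Tm.var (r p))).bind (fun p => Tm.var (i p)) = _
      rw [Tm.bind_bind]
      rfl
    have h2 := bind_congr_lt (X := ofGlob Cs A.G) (γ := fun p => Tm.var (i (r p)))
      (γ' := (Tm.var : A.P → Cs.T A.P)) t ht htd (fun p _ hp =>
        congrArg Tm.var (hir p (Nat.lt_succ_iff.1 hp)))
    exact h1.trans (h2.trans (Tm.bind_var_self t))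
  have hd : (ofGlob Cs B.G).tdim ((ofGlob Cs B.G).m.eval (fun p => Tm.var (r p)) f) =
      (ofGlob Cs A.G).tdim f :=
    (eval_isMap hR f hfg.1 (Nat.lt_succ_self _)).2.1
  have hpar := Par.eval hR (Nat.lt_succ_self _) hfg
  have hconn := Cs_conn_small (A := B) hpar (fun p =>
    le_of_le_of_eq (hB p) (congrArg (· + 1) hd.symm))
  have hres := Conn.eval (L := (ofGlob Cs A.G).tdim f + 1) (hI _)
    (f := (ofGlob Cs B.G).m.eval (fun p => Tm.var (r p)) f)
    (g := (ofGlob Cs B.G).m.eval (fun p => Tm.var (r p)) g) hpar.1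
    (lt_of_eq_of_lt hd (Nat.lt_succ_self _)) hconn
  have e1 := hback f hfg.1 (Nat.lt_succ_self _)
  have h3 : (ofGlob Cs A.G).tdim f = (ofGlob Cs A.G).tdim g := hfg.2.2.1
  have e2 := hback g hfg.2.1 (lt_of_eq_of_lt h3.symm (Nat.lt_succ_self _))
  exact Eq.mp (congrArg₂ (fun a b => (ofGlob Cs A.G).m.toGlob.Conn a b) e1 e2) hres

theorem Cs_past_contr {a : Glob} (ha : IsPast a) (L : ℕ) : (ofGlob Cs a).MContr L := by
  obtain ⟨A, f, g, hf, hg, hgf, hfg⟩ := ha
  refine MContr.of_retract (X := ofGlob Cs a) (Y := ofGlob Cs A.G) (fun x => Tm.var (g x))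
    (fun p => Tm.var (f p)) ?_ ?_ ?_ (Cs_code_contr A L)
  · intro x hx _
    obtain ⟨a1, a2, a3⟩ := hg x hx
    refine ⟨a1, a2, fun h0 => ?_⟩
    obtain ⟨a4, a5⟩ := a3 h0
    exact ⟨congrArg Tm.var a4, congrArg Tm.var a5⟩
  · intro p _ _
    obtain ⟨a1, a2, a3⟩ := hf p
    refine ⟨a1, a2, fun h0 => ?_⟩
    obtain ⟨a4, a5⟩ := a3 h0
    exact ⟨congrArg Tm.var a4, congrArg Tm.var a5⟩
  · intro x hx _
    exact congrArg Tm.var (hfg x hx)

theorem ArCl_isPast {a : Glob} (ha : ArCl Cs a) : IsPast a := by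
  induction ha with
  | ar k _ => exact isPast_code k.1
  | disk j => exact isPast_disk j
  | ins a n h ih =>
    have := ArCl.laws h
    exact IsPast.ins ih n

theorem Cs_hyp : Cs.Hyp := fun _ ha L => Cs_past_contr (ArCl_isPast ha) L

end HH
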