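import Pool.Agent.HH.Defs1

/-!
# HH stage 2 (syntactic part): definitions

Interpretations between signatures, level-0 data, homotopies of level 0 with a twisted end,
the extended signatures `exSig`, the category of models.
-/

set_option autoImplicit false

namespace HH

open Classical CategoryTheory

/-! ### Interpretations -/

/-- Interpretation of the signature `E` in the signature `S`: a term for every operation. -/
abbrev Interp (E S : Sig) : Type := (k : E.K) → S.T (E.ar k).C

/-- Translation of terms along an interpretation. -/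
def trans {E S : Sig} (b : Interp E S) {V : Type} (t : E.T V) : S.T V :=
  t.fold (fun k γ => (b k).bind γ) .var

/-- A model of `S` as a model of `E`. -/
def Model.pull {E S : Sig} (b : Interp E S) (M : Model S) : Model E where
  toGlob := M.toGlob
  o := fun k γ => M.eval γ (b k)

/-- Well-typed interpretations. -/
structure Interp.Good {E S : Sig} (b : Interp E S) : Prop where
  ok : ∀ k, E.kok k → (ofGlob S (E.ar k)).tok (b k)
  dim : ∀ k, E.kok k → (ofGlob S (E.ar k)).tdim (b k) = E.dm k
  src : ∀ k, E.kok k → (ofGlob S (E.ar k)).tsrc (b k) = trans b (E.bs k)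
  tgt : ∀ k, E.kok k → (ofGlob S (E.ar k)).ttgt (b k) = trans b (E.bt k)

/-- The identity interpretation. -/
def idI (S : Sig) : Interp S S := fun k => .op k .var

/-- Composition of interpretations. -/
def compI {E S R : Sig} (b : Interp E S) (c : Interp S R) : Interp E R := fun k => trans c (b k)

/-- The translation of a computad. -/
def Cptd.tr {E S : Sig} (j : Interp S E) (X : Cptd S) : Cptd E where
  V := X.V
  ok := X.ok
  dim := X.dim
  src := fun v => trans j (X.src v)
  tgt := fun v => trans j (X.tgt v)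

/-! ### Well-founded computads and signatures -/

/-- the variable `v` occurs in the term -/
def Tm.HasVar {K : Type} {P : K → Type} {V : Type} (v : V) : Tm K P V → Prop
  | .var w => w = v
  | .op _ γ => ∃ p, HasVar v (γ p)

/-- the operation `k` occurs in the term -/
def Tm.HasOp {K : Type} {P : K → Type} {V : Type} (k : K) : Tm K P V → Prop
  | .var _ => False
  | .op k' γ => k' = k ∨ ∃ p, HasOp k (γ p)

/-- `w` occurs in the source or the target of `v` -/
def Cptd.varLt {S : Sig} (X : Cptd S) (w v : X.V) : Prop :=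
  0 < X.dim v ∧ ((X.src v).HasVar w ∨ (X.tgt v).HasVar w)

/-- cellular computads -/
def Cptd.WF {S : Sig} (X : Cptd S) : Prop := ∀ v, X.ok v → Acc X.varLt v

/-- `k'` occurs in the source or the target of `k` -/
def Sig.opLt (S : Sig) (k' k : S.K) : Prop := (S.bs k).HasOp k' ∨ (S.bt k).HasOp k'

/-- cellular signatures -/
def Sig.WF (S : Sig) : Prop := ∀ k, S.kok k → Acc S.opLt k

/-! ### Level-0 data -/

variable {S E : Sig}

/-- A homotopy of level 0 in all dimensions. -/
structure IsCyl0 (x : XFam S) (W : Glob) (M : Model S) (α β e : W.C → M.C) : Prop where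
  mapα : ∀ p, W.ok p → MapAt W M.toGlob α p
  mapβ : ∀ p, W.ok p → MapAt W M.toGlob β p
  cyl : ∀ p, W.ok p → CylAt M x W α β e p

/-- The unbounded cylinder of level 0. -/
noncomputable def Cyl0 (x : XFam S) (W : Glob) : Cptd S where
  V := CV W.C W.C
  ok := fun v => match v with
    | .z p => W.ok p
    | .top p => W.ok p
    | .cyl p => W.ok p
  dim := fun v => match v with
    | .z p => W.dim p
    | .top p => W.dim p
    | .cyl p => W.dim p + 1
  src := fun v => match v with
    | .z p => .var (.z (W.src p))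
    | .top p => .var (.top (W.src p))
    | .cyl p => (x (W.dim p)).bind (CV.elim (fun q => .var (.z (W.bd p q)))
        (fun q => .var (.top (W.bd p q))) (fun q => .var (.cyl (W.bd p q))))
  tgt := fun v => match v with
    | .z p => .var (.z (W.tgt p))
    | .top p => .var (.top (W.tgt p))
    | .cyl p => .var (.top p)

/-- The context `Z_j`: the cylinder `Q_j` with an expansion of the base cell (index `false`) and an
expansion of the top cell (index `true`). -/
noncomputable def Zc (x : XFam S) (j : ℕ) : Cptd S :=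
  (CylG x (diskG j) 0 (j + 1)).exp (fun _ : Bool => True) j
    (fun b => if b then .var (.top (j, false)) else .var (.z (j, false)))

/-- source of `w0` -/
noncomputable def w0src (x : XFam S) (j : ℕ) : S.T (CV (CV D D) Bool) :=
  (x j).bind (CV.elim
    (fun q => if q.1 < j then .var (.z (.z q)) else .var (.top false))
    (fun q => .var (.z (.top q))) (fun q => .var (.z (.cyl q))))

/-- source of `w1` -/
noncomputable def w1src (x : XFam S) (w : S.T (CV (CV D D) Bool)) (j : ℕ) :
    S.T (CV (CV D D) Bool) :=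
  (x (j + 1)).bind (CV.elim
    (fun q => if q.1 < j then .var (.z (.z q)) else if q = (j, false) then .var (.z (.z q))
      else if q = (j, true) then .var (.top false) else .var (.cyl false))
    (fun q => if q.1 < j then .var (.z (.top q)) else if q = (j, false) then .var (.z (.top q))
      else .var (.top true))
    (fun q => if q.1 < j then .var (.z (.cyl q)) else if q = (j, false) then .var (.z (.cyl q))
      else w))

/-- Level-0 data of a signature. -/
structure L0 (S : Sig) where
  /-- the cylinder sources -/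
  x : XFam S
  /-- the reversals -/
  r : XFam S
  /-- units -/
  un : ℕ → S.T D
  w0 : ℕ → S.T (CV (CV D D) Bool)
  w1 : ℕ → S.T (CV (CV D D) Bool)
  /-- comparison of `x_j` with `x_j` on the twice reversed cylinder -/
  v : ℕ → S.T (CV D D)

/-- The conditions on level-0 data. -/
structure L0.Good (d : L0 S) : Prop where
  x0 : d.x 0 = .var (.z (0, false))
  hx : ∀ j, XGoodAt d.x 0 j
  hr : ∀ j, RGoodAt d.x d.r 0 j
  un_ok : ∀ j, (ofGlob S (diskG j)).tok (d.un j)
  un_dim : ∀ j, (ofGlob S (diskG j)).tdim (d.un j) = j + 1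
  un_src : ∀ j, (ofGlob S (diskG j)).tsrc (d.un j) = .var (j, false)
  un_tgt : ∀ j, (ofGlob S (diskG j)).ttgt (d.un j) = .var (j, false)
  w0_ok : ∀ j, (Zc d.x j).tok (d.w0 j)
  w0_dim : ∀ j, (Zc d.x j).tdim (d.w0 j) = j + 1
  w0_src : ∀ j, (Zc d.x j).tsrc (d.w0 j) = w0src d.x j
  w0_tgt : ∀ j, (Zc d.x j).ttgt (d.w0 j) = .var (.top true)
  w1_ok : ∀ j, (Zc d.x j).tok (d.w1 j)
  w1_dim : ∀ j, (Zc d.x j).tdim (d.w1 j) = j + 2
  w1_src : ∀ j, (Zc d.x j).tsrc (d.w1 j) = w1src d.x (d.w0 j) j
  w1_tgt : ∀ j, (Zc d.x j).ttgt (d.w1 j) = .var (.cyl true)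
  v_ok : ∀ j, 0 < j → (CylG d.x (diskG j) 0 j).tok (d.v j)
  v_dim : ∀ j, 0 < j → (CylG d.x (diskG j) 0 j).tdim (d.v j) = j + 1
  v_src : ∀ j, 0 < j → (CylG d.x (diskG j) 0 j).tsrc (d.v j) = d.x j
  v_tgt : ∀ j, 0 < j → (CylG d.x (diskG j) 0 j).ttgt (d.v j) =
    (d.x j).bind (CV.elim (fun q => .var (.z q)) (fun q => .var (.top q))
      (cs (CylG d.x (diskG j) 0 j).m d.r (diskG j) (fun q => .var (.top q)) (fun q => .var (.z q))
        (cs (CylG d.x (diskG j) 0 j).m d.r (diskG j) (fun q => .var (.z q))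
          (fun q => .var (.top q)) (fun q => .var (.cyl q)))))

/-- transfer of level-0 data along an interpretation -/
def L0.tr (j : Interp S E) (d : L0 S) : L0 E where
  x := fun i => trans j (d.x i)
  r := fun i => trans j (d.r i)
  un := fun i => trans j (d.un i)
  w0 := fun i => trans j (d.w0 i)
  w1 := fun i => trans j (d.w1 i)
  v := fun i => trans j (d.v i)

/-! ### Homotopies with a twisted end -/

/-- Extension of a homotopy to terms, the top end being evaluated with the twisted operations
`b`. -/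
def ext2 (M : Model E) (b : Interp E E) (Q : QFam E) {V : Type} (α β e : V → M.C) : E.T V → M.C
  | .var v => e v
  | .op k γ => M.eval (CV.elim (fun p => M.eval α (γ p)) (fun p => M.eval β (trans b (γ p)))
      (fun p => ext2 M b Q α β e (γ p))) (Q k)

/-- the condition on `Q k` -/
def Q2GoodAt (x : XFam E) (b : Interp E E) (Q : QFam E) (k : E.K) : Prop :=
  (Cyl0 x (E.ar k)).tok (Q k) ∧
  CylAt (Cyl0 x (E.ar k)).m x (ofGlob E (E.ar k)).m.toGlob
    (fun t => t.map .z) (fun t => (trans b t).map .top)
    (ext2 (Cyl0 x (E.ar k)).m b Q (fun p => .var (.z p)) (fun p => .var (.top p))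
      (fun p => .var (.cyl p)))
    (.op k .var)

/-- `Q` is a good family for the twist `b` -/
def Q2Good (x : XFam E) (b : Interp E E) (Q : QFam E) : Prop :=
  ∀ k, E.kok k → Q2GoodAt x b Q k

/-- Theorem A for a general signature: expansions of cellular computads reflect connectedness. -/
def ExpS0 (E : Sig) : Prop :=
  ∀ (X : Cptd E) [X.Good], X.WF → ∀ {I : Type} (okI : I → Prop) (n : ℕ) (b y0 e0 : I → E.T X.V),
    (∀ i, okI i → X.tok (b i) ∧ X.tdim (b i) = n) →
    (∀ i, okI i → X.Par (b i) (y0 i)) →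
    (∀ i, okI i → X.tok (e0 i) ∧ X.tdim (e0 i) = n + 1 ∧ X.tsrc (e0 i) = b i ∧
      X.ttgt (e0 i) = y0 i) →
    ∀ f g, (X.exp okI n b).Par f g →
      X.Conn (f.bind (CV.elim .var y0 e0)) (g.bind (CV.elim .var y0 e0)) →
      (X.exp okI n b).Conn f g

/-! ### The extended signatures -/

/-- Raw terms of the extended signature over the arities `G a`: operations of `S` and, for every
term `l` over `G a'` and every label `i`, operations `ex false a' l i` (parallel to `l`) and
`ex true a' l i` (from `l` to `ex false a' l i`). -/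
inductive XT (S : Sig) {A : Type} (G : A → Glob) (I : Type) : A → Type
  | var {a : A} (p : (G a).C) : XT S G I a
  | op {a : A} (k : S.K) (γ : (S.ar k).C → XT S G I a) : XT S G I a
  | ex {a : A} (b : Bool) (a' : A) (l : XT S G I a') (i : I) (γ : (G a').C → XT S G I a) :
      XT S G I a

namespace XT

variable {A : Type} {G : A → Glob} {I : Type}

/-- substitution -/
def bind {a c : A} (t : XT S G I a) (γ : (G a).C → XT S G I c) : XT S G I c :=
  match t with
  | var p => γ p
  | op k δ => op k (fun p => (δ p).bind γ)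
  | ex b a' l i δ => ex b a' l i (fun p => (δ p).bind γ)

/-- substitution in a term of `S` -/
def sub {a : A} {V : Type} (s : S.T V) (γ : V → XT S G I a) : XT S G I a :=
  s.fold (fun k δ => op k δ) γ

/-- dimension -/
def dim : {a : A} → XT S G I a → ℕ
  | a, var p => (G a).dim p
  | _, op k _ => S.dm k
  | _, ex b _ l _ _ => if b then l.dim + 1 else l.dim

/-- source -/
def src : {a : A} → XT S G I a → XT S G I a
  | a, var p => var ((G a).src p)
  | _, op k γ => sub (S.bs k) γ
  | _, ex b _ l _ γ => if b then l.bind γ else (l.src).bind γ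

/-- target -/
def tgt : {a : A} → XT S G I a → XT S G I a
  | a, var p => var ((G a).tgt p)
  | _, op k γ => sub (S.bt k) γ
  | _, ex b a' l i γ => if b then ex false a' l i γ else (l.tgt).bind γ

/-- well-formed terms -/
def ok : {a : A} → XT S G I a → Prop
  | a, var p => (G a).ok p
  | _, op k γ => S.kok k ∧ ∀ p, (γ p).ok ∧ (γ p).dim = (S.ar k).dim p ∧
      (0 < (S.ar k).dim p → (γ p).src = γ ((S.ar k).src p) ∧ (γ p).tgt = γ ((S.ar k).tgt p))
  | _, ex _ a' l _ γ => (l.ok ∧ 0 < l.dim) ∧ ∀ p, (γ p).ok ∧ (γ p).dim = (G a').dim p ∧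
      (0 < (G a').dim p → (γ p).src = γ ((G a').src p) ∧ (γ p).tgt = γ ((G a').tgt p))

end XT

/-- operation symbols of the extended signature -/
abbrev exK (S : Sig) {A : Type} (G : A → Glob) (I : Type) : Type :=
  S.K ⊕ (Σ a : A, XT S G I a × I × Bool)

/-- arities of the extended signature -/
def exAr (S : Sig) {A : Type} (G : A → Glob) (I : Type) : exK S G I → Glob
  | .inl k => S.ar k
  | .inr k => G k.1

/-- the translation of raw terms -/
def XT.toTm {A : Type} {G : A → Glob} {I : Type} :
    {a : A} → XT S G I a → Tm (exK S G I) (fun k => (exAr S G I k).C) (G a).C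
  | _, .var p => .var p
  | _, .op k γ => .op (.inl k) (fun p => (γ p).toTm)
  | _, .ex b a' l i γ => .op (.inr ⟨a', l, i, b⟩) (fun p => (γ p).toTm)

/-- the inverse translation -/
def XT.ofTm {A : Type} {G : A → Glob} {I : Type} {a : A} :
    Tm (exK S G I) (fun k => (exAr S G I k).C) (G a).C → XT S G I a
  | .var p => .var p
  | .op (.inl k) γ => .op k (fun p => XT.ofTm (γ p))
  | .op (.inr k) γ => .ex k.2.2.2 k.1 k.2.1 k.2.2.1 (fun p => XT.ofTm (γ p))

/-- terms of `S` as terms of the extended signature -/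
def upT {A : Type} {G : A → Glob} {I : Type} {V : Type} (s : S.T V) :
    Tm (exK S G I) (fun k => (exAr S G I k).C) V :=
  s.fold (fun k γ => .op (.inl k) γ) .var

/-- The extended signature. -/
def exSig (S : Sig) {A : Type} (G : A → Glob) (I : Type) : Sig where
  K := exK S G I
  kok := fun k => match k with
    | .inl k => S.kok k
    | .inr k => k.2.1.ok ∧ 0 < k.2.1.dim
  ar := exAr S G I
  dm := fun k => match k with
    | .inl k => S.dm k
    | .inr k => if k.2.2.2 then k.2.1.dim + 1 else k.2.1.dim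
  bs := fun k => match k with
    | .inl k => upT (S.bs k)
    | .inr k => if k.2.2.2 then k.2.1.toTm else k.2.1.src.toTm
  bt := fun k => match k with
    | .inl k => upT (S.bt k)
    | .inr k => if k.2.2.2 then (XT.ex false k.1 k.2.1 k.2.2.1 .var).toTm else k.2.1.tgt.toTm

/-- the inclusion of `S` in the extended signature -/
def jI (S : Sig) {A : Type} (G : A → Glob) (I : Type) : Interp S (exSig S G I) :=
  fun k => .op (.inl k) .var

/-- the translation of extended terms to terms of `S`: `ex false l` is sent to `l`, `ex true l` to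
the unit of `l` -/
def XT.q {A : Type} {G : A → Glob} {I : Type} (un : ℕ → S.T D) :
    {a : A} → XT S G I a → S.T (G a).C
  | _, .var p => .var p
  | _, .op k γ => .op k (fun p => (γ p).q un)
  | _, .ex b a' l _ γ =>
    (if b then atCell (ofGlob S (G a')).m (un l.dim) (l.q un) else l.q un).bind
      (fun p => (γ p).q un)

/-- the retraction of the extended signature to `S` -/
def qI (S : Sig) {A : Type} (G : A → Glob) (I : Type) (un : ℕ → S.T D) :
    Interp (exSig S G I) S := fun k => match k with
  | .inl k => .op k .var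
  | .inr k => if k.2.2.2 then atCell (ofGlob S (G k.1)).m (un k.2.1.dim) (k.2.1.q un)
      else k.2.1.q un

/-! ### The category of models -/

/-- Models satisfying the laws. -/
structure RMod (S : Sig) where
  M : Model S
  laws : M.toGlob.Laws
  ops : M.OpLaws

attribute [instance] RMod.laws RMod.ops

/-- the type of genuine cells -/
abbrev RMod.Cell (M : RMod S) : Type := {x : M.M.C // M.M.ok x}

/-- Morphisms of models: maps between the genuine cells respecting everything. -/
@[ext]
structure RHom (M N : RMod S) where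
  f : M.Cell → N.Cell
  dim : ∀ x, N.M.dim (f x).1 = M.M.dim x.1
  src : ∀ x : M.Cell, ∀ h : 0 < M.M.dim x.1,
    N.M.src (f x).1 = (f ⟨M.M.src x.1, Glob.Laws.ok_src x.1 x.2 h⟩).1
  tgt : ∀ x : M.Cell, ∀ h : 0 < M.M.dim x.1,
    N.M.tgt (f x).1 = (f ⟨M.M.tgt x.1, Glob.Laws.ok_tgt x.1 x.2 h⟩).1
  op : ∀ (k : S.K) (hk : S.kok k) (γ : (S.ar k).C → M.Cell)
    (hγ : ∀ p, MapAt (S.ar k) M.M.toGlob (fun p => (γ p).1) p),
    (f ⟨M.M.o k (fun p => (γ p).1), Model.OpLaws.o_ok k _ hk hγ⟩).1 =
      N.M.o k (fun p => (f (γ p)).1)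

/-- a morphism from a raw function -/
def RHom.ofFun {M N : RMod S} (g : M.M.C → N.M.C)
    (hg : ∀ x, M.M.ok x → MapAt M.M.toGlob N.M.toGlob g x)
    (ho : ∀ k, S.kok k → ∀ γ : (S.ar k).C → M.M.C, (∀ p, MapAt (S.ar k) M.M.toGlob γ p) →
      g (M.M.o k γ) = N.M.o k (fun p => g (γ p))) : RHom M N where
  f := fun x => ⟨g x.1, (hg x.1 x.2).1⟩
  dim := fun x => (hg x.1 x.2).2.1
  src := fun x h => ((hg x.1 x.2).2.2 h).1
  tgt := fun x h => ((hg x.1 x.2).2.2 h).2
  op := fun k hk γ hγ => ho k hk _ hγ

theorem RHom.mapAt {M N : RMod S} (F : RHom M N) {G : Glob} {γ : G.C → M.Cell} {p : G.C}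
    (h : MapAt G M.M.toGlob (fun p => (γ p).1) p) :
    MapAt G N.M.toGlob (fun p => (F.f (γ p)).1) p := by
  obtain ⟨_, h2, h3⟩ := h
  refine ⟨(F.f (γ p)).2, (F.dim _).trans h2, fun h0 => ?_⟩
  obtain ⟨h4, h5⟩ := h3 h0
  have h0' : 0 < M.M.dim (γ p).1 := by rw [h2]; exact h0
  refine ⟨?_, ?_⟩
  · rw [F.src _ h0']
    have : (⟨M.M.src (γ p).1, Glob.Laws.ok_src _ (γ p).2 h0'⟩ : M.Cell) = γ (G.src p) :=
      Subtype.ext h4
    rw [this]
  · rw [F.tgt _ h0']
    have : (⟨M.M.tgt (γ p).1, Glob.Laws.ok_tgt _ (γ p).2 h0'⟩ : M.Cell) = γ (G.tgt p) :=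
      Subtype.ext h5
    rw [this]

instance : Category (RMod S) where
  Hom := RHom
  id := fun M =>
    { f := id
      dim := fun _ => rfl
      src := fun _ _ => rfl
      tgt := fun _ _ => rfl
      op := fun _ _ _ _ => rfl }
  comp := fun {M N R} F G =>
    { f := fun x => G.f (F.f x)
      dim := fun x => (G.dim _).trans (F.dim x)
      src := fun x h => by
        have h' : 0 < N.M.dim (F.f x).1 := by rw [F.dim]; exact h
        rw [G.src _ h']
        have : (⟨N.M.src (F.f x).1, Glob.Laws.ok_src _ (F.f x).2 h'⟩ : N.Cell) =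
            F.f ⟨M.M.src x.1, Glob.Laws.ok_src x.1 x.2 h⟩ := Subtype.ext (F.src x h)
        rw [this]
      tgt := fun x h => by
        have h' : 0 < N.M.dim (F.f x).1 := by rw [F.dim]; exact h
        rw [G.tgt _ h']
        have : (⟨N.M.tgt (F.f x).1, Glob.Laws.ok_tgt _ (F.f x).2 h'⟩ : N.Cell) =
            F.f ⟨M.M.tgt x.1, Glob.Laws.ok_tgt x.1 x.2 h⟩ := Subtype.ext (F.tgt x h)
        rw [this]
      op := fun k hk γ hγ => by
        have h2 : ∀ p, MapAt (S.ar k) N.M.toGlob (fun p => (F.f (γ p)).1) p :=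
          fun p => F.mapAt (hγ p)
        have : F.f ⟨M.M.o k (fun p => (γ p).1), Model.OpLaws.o_ok k _ hk hγ⟩ =
            ⟨N.M.o k (fun p => (F.f (γ p)).1), Model.OpLaws.o_ok k _ hk h2⟩ :=
          Subtype.ext (F.op k hk γ hγ)
        rw [this, G.op k hk _ h2] }

/-- The weak equivalences of models: surjective up to homotopy on `0`-cells and on cells with given
boundary, and reflecting homotopy. -/
def RMod.IsW {M N : RMod S} (F : M ⟶ N) : Prop :=
  (∀ y : N.Cell, N.M.dim y.1 = 0 → ∃ x : M.Cell, M.M.dim x.1 = 0 ∧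
    N.M.toGlob.Conn (RHom.f F x).1 y.1) ∧
  (∀ x x' : M.Cell, M.M.toGlob.Par x.1 x'.1 →
    N.M.toGlob.Conn (RHom.f F x).1 (RHom.f F x').1 → M.M.toGlob.Conn x.1 x'.1) ∧
  ∀ x x' : M.Cell, M.M.toGlob.Par x.1 x'.1 → ∀ h : N.Cell, N.M.dim h.1 = M.M.dim x.1 + 1 →
    N.M.src h.1 = (RHom.f F x).1 → N.M.tgt h.1 = (RHom.f F x').1 →
    ∃ h' : M.Cell, M.M.dim h'.1 = M.M.dim x.1 + 1 ∧ M.M.src h'.1 = x.1 ∧ M.M.tgt h'.1 = x'.1 ∧
      N.M.toGlob.Conn (RHom.f F h').1 h.1

/-! ### Path objects -/

/-- Raw cells of the path object: a dimension and three families of cells indexed by the positions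
of the disk (base, top, cylinder). -/
structure Pth (C : Type) where
  j : ℕ
  α : D → C
  β : D → C
  e : D → C

/-- the genuine cells of the path object: cylinders, extended to junk positions by truncation -/
def pthOk (x : XFam E) (G : Model E) (c : Pth G.C) : Prop :=
  (∀ q, c.α (bdD (c.j, false) q) = c.α q) ∧ (∀ q, c.β (bdD (c.j, false) q) = c.β q) ∧
  (∀ q, c.e (bdD (c.j, false) q) = c.e q) ∧
  ∀ q, (diskG c.j).ok q → MapAt (diskG c.j) G.toGlob c.α q ∧ MapAt (diskG c.j) G.toGlob c.β q ∧
    CylAt G x (diskG c.j) c.α c.β c.e q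

/-- The path object of `G` with top end twisted by `b`. -/
noncomputable def pthM (x : XFam E) (b : Interp E E) (Q : QFam E) (G : Model E) : Model E where
  C := Pth G.C
  dim := fun c => c.j
  src := fun c => ⟨c.j - 1, fun q => c.α (bdD (c.j - 1, false) q),
    fun q => c.β (bdD (c.j - 1, false) q), fun q => c.e (bdD (c.j - 1, false) q)⟩
  tgt := fun c => ⟨c.j - 1, fun q => c.α (bdD (c.j - 1, true) q),
    fun q => c.β (bdD (c.j - 1, true) q), fun q => c.e (bdD (c.j - 1, true) q)⟩
  ok := pthOk x G
  o := fun k γ => ⟨E.dm k,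
    fun q => G.eval (fun p => (γ p).α ((γ p).j, false))
      ((ofGlob E (E.ar k)).m.toGlob.bd (.op k .var) q),
    fun q => G.eval (fun p => (γ p).β ((γ p).j, false))
      (trans b ((ofGlob E (E.ar k)).m.toGlob.bd (.op k .var) q)),
    fun q => ext2 G b Q (fun p => (γ p).α ((γ p).j, false)) (fun p => (γ p).β ((γ p).j, false))
      (fun p => (γ p).e ((γ p).j, false)) ((ofGlob E (E.ar k)).m.toGlob.bd (.op k .var) q)⟩

/-- the weak equivalences as a morphism property -/
def RMod.W (S : Sig) : MorphismProperty (RMod S) := fun _ _ F => RMod.IsW F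

end HH
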