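import Pool.Agent.HH.Defs1

/-!
# HH stage 1, module Rank: well-founded recursion on a rank, with choice
-/

set_option autoImplicit false

namespace HH

open Classical

theorem exists_ranked {I : Type} (rank : I → ℕ) {T : I → Type} [∀ i, Nonempty (T i)]
    (P : ∀ i : I, (∀ i, T i) → Prop)
    (loc : ∀ i t t', (∀ i', rank i' < rank i → t i' = t' i') → t i = t' i → P i t → P i t')
    (step : ∀ i t, (∀ i', rank i' < rank i → P i' t) →
      ∃ t', (∀ i', rank i' < rank i → t' i' = t i') ∧ P i t') :
    ∃ t, ∀ i, P i t := by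
  -- the stages: `A n` is good for ranks `< n`, and does not change below
  have hstage : ∀ (n : ℕ) (t : ∀ i, T i), (∀ i, rank i < n → P i t) →
      ∃ t' : ∀ i, T i, (∀ i, rank i < n → t' i = t i) ∧ ∀ i, rank i < n + 1 → P i t' := by
    intro n t ht
    have h1 : ∀ i : {i : I // rank i = n}, ∃ t' : ∀ i, T i,
        (∀ i', rank i' < n → t' i' = t i') ∧ P i.1 t' := by
      rintro ⟨i, hi⟩
      obtain ⟨t', h1, h2⟩ := step i t (fun i' hi' => ht i' (by omega))
      exact ⟨t', fun i' hi' => h1 i' (by omega), h2⟩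
    choose s hs1 hs2 using h1
    let t' : ∀ i, T i := fun i => if h : rank i = n then s ⟨i, h⟩ i else t i
    have e1 : ∀ i, rank i < n → t' i = t i := fun i hi => dif_neg (by omega)
    have e2 : ∀ i (h : rank i = n), t' i = s ⟨i, h⟩ i := fun i h => dif_pos h
    refine ⟨t', e1, fun i hi => ?_⟩
    rcases Nat.lt_or_ge (rank i) n with h | h
    · exact loc i t t' (fun i' hi' => (e1 i' (by omega)).symm) (e1 i h).symm (ht i h)
    · have h2 : rank i = n := by omega
      refine loc i (s ⟨i, h2⟩) t' (fun i' hi' => ?_) (e2 i h2).symm (hs2 ⟨i, h2⟩)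
      rw [hs1 ⟨i, h2⟩ i' (by omega), e1 i' (by omega)]
  let A : ∀ n : ℕ, {t : ∀ i, T i // ∀ i, rank i < n → P i t} := fun n =>
    Nat.rec ⟨fun i => Classical.choice inferInstance, fun i hi => absurd hi (Nat.not_lt_zero _)⟩
      (fun n a => ⟨(hstage n a.1 a.2).choose, (hstage n a.1 a.2).choose_spec.2⟩) n
  have hA : ∀ n i, rank i < n → (A (n + 1)).1 i = (A n).1 i := fun n i hi =>
    (hstage n (A n).1 (A n).2).choose_spec.1 i hi
  have hA' : ∀ n m i, rank i < n → n ≤ m → (A m).1 i = (A n).1 i := by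
    intro n m i hi hnm
    induction m, hnm using Nat.le_induction with
    | base => rfl
    | succ m hm ih => rw [hA m i (by omega), ih]
  refine ⟨fun i => (A (rank i + 1)).1 i, fun i => ?_⟩
  refine loc i (A (rank i + 1)).1 _ (fun i' hi' => ?_) rfl ((A (rank i + 1)).2 i (by omega))
  exact hA' (rank i' + 1) (rank i + 1) i' (by omega) (by omega)

end HH
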