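import Pool.Agent.HH.Stage
import Pool.Agent.HH.Rank
import Pool.Agent.HH.CylUP
import Pool.Agent.HH.Retract
import Pool.Agent.HH.InsG

/-!
# HH module 22: reversal of homotopies
-/

set_option autoImplicit false

namespace HH

open Classical

variable {S : Sig}

theorem rev_mapAt_comp {G H K : Glob} {f : G.C → H.C} {g : H.C → K.C} {x : G.C}
    (hf : MapAt G H f x) (hg : MapAt H K g (f x)) : MapAt G K (fun y => g (f y)) x := by
  obtain ⟨f1, f2, f3⟩ := hf
  obtain ⟨g1, g2, g3⟩ := hg
  refine ⟨g1, g2.trans f2, fun h0 => ?_⟩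
  obtain ⟨a1, a2⟩ := f3 h0
  obtain ⟨b1, b2⟩ := g3 (by rw [f2]; exact h0)
  exact ⟨b1.trans (congrArg g a1), b2.trans (congrArg g a2)⟩

/-- a substitution is only determined by its values at genuine variables -/
theorem rev_asg_congr {B : ℕ} {X : Cptd S} [hX : X.Good] {M : Model S} {γ γ' : X.V → M.C}
    (h : IsAsg B X M γ') (e : ∀ v, X.ok v → γ v = γ' v) : IsAsg B X M γ := by
  intro v hv hB
  obtain ⟨h1, h2, h3⟩ := h v hv hB
  refine ⟨by rw [e v hv]; exact h1, by rw [e v hv]; exact h2, fun h0 => ?_⟩
  obtain ⟨h4, h5⟩ := h3 h0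
  rw [e v hv, eval_congr (γ := γ) (γ' := γ') (X.src v) (hX.ok_src v hv h0) e,
    eval_congr (γ := γ) (γ' := γ') (X.tgt v) (hX.ok_tgt v hv h0) e]
  exact ⟨h4, h5⟩

/-- converse of `CylAt.comp` -/
theorem rev_of_comp {M : Model S} {x : XFam S} {W W' : Glob} {f : W'.C → W.C}
    {α β e : W.C → M.C} {p : W'.C} (hd : W.dim (f p) = W'.dim p)
    (hf : ∀ q, f (W'.bd p q) = W.bd (f p) q)
    (h : CylAt M x W' (fun p => α (f p)) (fun p => β (f p)) (fun p => e (f p)) p) :
    CylAt M x W α β e (f p) := by
  obtain ⟨h1, h2, h3, h4⟩ := h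
  exact ⟨h1, by rw [h2, hd], by rw [h3, cs_comp x f α β e p hd hf], h4⟩

theorem rev_ofGlob_isMap (L : ℕ) (a : Glob) : IsMap L a (ofGlob S a).m.toGlob .var :=
  fun _ hv _ => ⟨hv, rfl, fun _ => ⟨rfl, rfl⟩⟩

theorem rev_bdD_dim {r q : D} (h : q.1 ≤ r.1) : (bdD r q).1 = q.1 := by
  unfold bdD
  split_ifs with h1
  · rfl
  · omega

theorem rev_bdD_bdD {r q : D} (h : q.1 ≤ r.1) (s : D) : bdD r (bdD q s) = bdD (bdD r q) s := by
  unfold bdD
  by_cases h1 : s.1 < q.1
  · have h2 : s.1 < r.1 := by omega
    rw [if_pos h1, if_pos h2]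
    by_cases h3 : q.1 < r.1
    · rw [if_pos h3, if_pos h1]
    · rw [if_neg h3, if_pos h2]
  · rw [if_neg h1]
    by_cases h3 : q.1 < r.1
    · rw [if_pos h3, if_neg h1]
    · have h4 : ¬ s.1 < r.1 := by omega
      rw [if_neg h3, if_neg h4]

theorem rev_disk_bd (j : ℕ) (p q : D) : (diskG j).bd p q = bdD p q := diskG_bd j p q

theorem rev_ok_le {j : ℕ} {q : D} (h : (diskG j).ok q) : q.1 ≤ j := by
  rcases h with h | h
  · exact h.le
  · exact h.1.le

theorem rev_ok_bdD {j : ℕ} {r q : D} (hr : (diskG j).ok r) : (diskG j).ok (bdD r q) := by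
  have := ok_bd (G := diskG j) hr q
  rwa [rev_disk_bd] at this

theorem rev_bdD_mapAt {j : ℕ} {r : D} (hr : (diskG j).ok r) {q : D} (hq : (diskG r.1).ok q) :
    MapAt (diskG r.1) (diskG j) (bdD r) q := by
  have h := bd_mapAt (G := diskG j) (x := r) hr (q := q) hq
  have e : (diskG j).bd r = bdD r := by
    funext q
    exact rev_disk_bd j r q
  rw [e] at h
  exact h

/-- the inclusion of the cylinder on a face of the disk -/
theorem rev_zeta [S.Good] [S.Strat] {x : XFam S} {n j : ℕ} {r : D} (hr : (diskG j).ok r)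
    (hx : ∀ i, n ≤ i → i ≤ j → XGoodAt x n i) (B : ℕ) :
    IsAsg B (CylG x (diskG r.1) n (r.1 + 1)) (CylG x (diskG j) n (j + 1)).m
      (fun v => .var (CV.map (bdD r) (bdD r) v)) := by
  have hrj := rev_ok_le hr
  have hg : (CylG x (diskG r.1) n (r.1 + 1)).Good := CylG_good fun i h1 h2 => hx i h1 (by omega)
  have hY : IsCyl x n (j + 1) (diskG j) (CylG x (diskG j) n (j + 1)).m
      (fun p => ((.var p : S.T (diskG j).C)).map .z) (tpG S (diskG j) n)
      (fun p => .var (.cyl p)) := Cyl_isCyl (rev_ofGlob_isMap _ _)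
  have hasg : IsAsg B (CylG x (diskG r.1) n (r.1 + 1)) (CylG x (diskG j) n (j + 1)).m
      (CV.elim (fun q => .var (.z (bdD r q))) (fun q => tpG S (diskG j) n (bdD r q))
        (fun q => .var (.cyl (bdD r q)))) := by
    refine Cyl_asg (Z := ofGlob S (diskG r.1)) (W := diskG r.1) (φ := .var)
      (fun i h1 h2 => hx i h1 (by omega)) ?_ ?_ ?_ ?_
    · intro q hq _
      have h1 := rev_bdD_mapAt hr hq
      have h2 := hY.mapα (bdD r q) h1.1 (by
        have := rev_ok_le h1.1
        exact Nat.lt_succ_of_le this)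
      exact asgAt_ofGlob (rev_mapAt_comp h1 h2)
    · intro q hq _ _
      have h1 := rev_bdD_mapAt hr hq
      have h2 := hY.mapβ (bdD r q) h1.1 (by
        have := rev_ok_le h1.1
        exact Nat.lt_succ_of_le this)
      exact rev_mapAt_comp h1 h2
    · intro q hq h0 _
      have h1 : (bdD r q).1 = q.1 := rev_bdD_dim (rev_ok_le hq)
      have h2 : ¬ n ≤ (diskG j).dim (bdD r q) := by
        have h3 : (diskG j).dim (bdD r q) = q.1 := h1
        have h4 : (diskG r.1).dim q = q.1 := rfl
        omega
      change _ = tp (ofGlob S (diskG j)) (diskG j) .var n (bdD r q)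
      unfold tp
      rw [if_neg h2]
      rfl
    · intro q hq h0 _
      have hm := rev_bdD_mapAt hr hq
      have h1 : (bdD r q).1 = q.1 := rev_bdD_dim (rev_ok_le hq)
      have h2 := hY.cyl (bdD r q) hm.1 (by
        have h3 : (diskG j).dim (bdD r q) = q.1 := h1
        have h4 : (diskG r.1).dim q = q.1 := rfl
        omega) (by
        have := rev_ok_le hm.1
        exact Nat.lt_succ_of_le this)
      exact CylAt.comp (M := (CylG x (diskG j) n (j + 1)).m) (x := x)
        (W := diskG j) (W' := diskG r.1) (f := bdD r) (p := q)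
        (α := fun p => (Tm.var (CV.z p) : S.T (CV D D))) (β := tpG S (diskG j) n)
        (e := fun p => (Tm.var (CV.cyl p) : S.T (CV D D))) h1 (fun s => by
          rw [rev_disk_bd, rev_disk_bd]
          exact rev_bdD_bdD (rev_ok_le hq) s) h2
  refine rev_asg_congr hasg fun v hv => ?_
  cases v with
  | z q => rfl
  | top q =>
    obtain ⟨h1, h2, h3⟩ := hv
    have h4 : (bdD r q).1 = q.1 := rev_bdD_dim (rev_ok_le h1)
    have h5 : n ≤ (diskG j).dim (bdD r q) := by
      have h6 : (diskG j).dim (bdD r q) = q.1 := h4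
      have h7 : (diskG r.1).dim q = q.1 := rfl
      omega
    change _ = tp (ofGlob S (diskG j)) (diskG j) .var n (bdD r q)
    unfold tp
    rw [if_pos h5]
    rfl
  | cyl q => rfl

theorem rev_tp_zeta {n i j : ℕ} {r q : D} (h : q.1 ≤ r.1) :
    (tpG S (diskG i) n q).bind (fun v => .var (CV.map (bdD r) (bdD r) v)) =
      tpG S (diskG j) n (bdD r q) := by
  have h1 : (bdD r q).1 = q.1 := rev_bdD_dim h
  change (tp (ofGlob S (diskG i)) (diskG i) .var n q).bind _ =
    tp (ofGlob S (diskG j)) (diskG j) .var n (bdD r q)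
  unfold tp
  have h2 : (diskG j).dim (bdD r q) = q.1 := h1
  have h3 : (diskG i).dim q = q.1 := rfl
  rw [h2, h3]
  split_ifs
  · rfl
  · rfl

theorem rev_map_self {x : XFam S} {n j J : ℕ} {t : S.T (CV D D)}
    (ht : (CylG x (diskG j) n J).tok t) :
    t.map (CV.map (bdD (j, false)) (bdD (j, false))) = t := by
  have h1 : ∀ q : D, (diskG j).ok q → bdD (j, false) q = q := by
    intro q hq
    unfold bdD
    split_ifs with h
    · rfl
    · rcases hq with hq | hq
      · exact absurd hq h
      · exact Prod.ext hq.1.symm hq.2.symm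
  have h2 : t.bind (fun v => .var (CV.map (bdD (j, false)) (bdD (j, false)) v)) =
      t.bind .var := by
    refine bind_congr (X := CylG x (diskG j) n J) t ht fun v hv => ?_
    cases v with
    | z q => exact congrArg (fun q => Tm.var (CV.z q)) (h1 q hv)
    | top q => exact congrArg (fun q => Tm.var (CV.top q)) (h1 q hv.1)
    | cyl q => exact congrArg (fun q => Tm.var (CV.cyl q)) (h1 q hv.1)
  exact h2.trans (Tm.bind_var_self t)

/-- the family of the cylinder cells of the reversed cylinder on the disk -/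
abbrev revE (r : XFam S) : D → S.T (CV D D) :=
  fun q => (r q.1).map (CV.map (bdD q) (bdD q))

theorem rev_low [S.Good] [S.Strat] {x r : XFam S} {n j : ℕ}
    (hx : ∀ i, n ≤ i → i ≤ j → XGoodAt x n i) {q : D} (hq : q.1 < j) (hnq : n ≤ q.1)
    (hr : RGoodAt x r n q.1) :
    CylAt (CylG x (diskG j) n (j + 1)).m x (diskG j) (tpG S (diskG j) n) (fun q => .var (.z q))
      (revE r) q := by
  have hqok : (diskG j).ok q := Or.inl hq
  have h1 := CylAt.eval (rev_zeta hqok hx _) hr.1
  have hqq : bdD q (q.1, false) = q := by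
    unfold bdD
    rw [if_neg (lt_irrefl _)]
  have h2 : CylAt (CylG x (diskG j) n (j + 1)).m x (diskG j) (tpG S (diskG j) n)
      (fun q => .var (.z q)) (revE r) (bdD q (q.1, false)) := by
    refine rev_of_comp (W' := diskG q.1) (p := (q.1, false)) ?_ ?_ ?_
    · rw [hqq]
      rfl
    · intro s
      rw [rev_disk_bd, rev_disk_bd]
      exact rev_bdD_bdD (r := q) (q := (q.1, false)) le_rfl s
    · have hA : ∀ s : D, s.1 ≤ q.1 → (CylG x (diskG j) n (j + 1)).m.eval
          (fun v => .var (CV.map (bdD q) (bdD q) v)) (tpG S (diskG q.1) n s) =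
          tpG S (diskG j) n (bdD q s) := fun s hs => rev_tp_zeta hs
      have hE : ∀ s : D, s.1 ≤ q.1 → (CylG x (diskG j) n (j + 1)).m.eval
          (fun v => .var (CV.map (bdD q) (bdD q) v)) (revE r s) = revE r (bdD q s) := by
        intro s hs
        have e1 : (bdD q s).1 = s.1 := rev_bdD_dim hs
        have e2 : revE r (bdD q s) =
            (r s.1).map (CV.map (bdD (bdD q s)) (bdD (bdD q s))) := by
          unfold revE
          rw [e1]
        rw [e2]
        have e3 : (CylG x (diskG j) n (j + 1)).m.eval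
          (fun v => .var (CV.map (bdD q) (bdD q) v)) (revE r s) =
          (r s.1).bind fun v => .var (CV.map (bdD q) (bdD q) (CV.map (bdD s) (bdD s) v)) :=
          Tm.map_bind _ _ _
        rw [e3]
        change (r s.1).bind _ = (r s.1).bind _
        congr 1
        funext v
        have e4 : ∀ u, bdD q (bdD s u) = bdD (bdD q s) u := rev_bdD_bdD hs
        cases v with
        | z u => exact congrArg (fun u => Tm.var (CV.z u)) (e4 u)
        | top u => exact congrArg (fun u => Tm.var (CV.top u)) (e4 u)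
        | cyl u => exact congrArg (fun u => Tm.var (CV.cyl u)) (e4 u)
      obtain ⟨c1, c2, c3, c4⟩ := h1
      have hE0 := hE (q.1, false) le_rfl
      have hE0' : revE r (bdD q (q.1, false)) = (CylG x (diskG j) n (j + 1)).m.eval
          (fun v => .var (CV.map (bdD q) (bdD q) v)) (revE r (q.1, false)) := hE0.symm
      refine ⟨?_, ?_, ?_, ?_⟩
      · change (CylG x (diskG j) n (j + 1)).m.ok (revE r (bdD q (q.1, false)))
        rw [hE0']
        exact c1
      · change (CylG x (diskG j) n (j + 1)).m.dim (revE r (bdD q (q.1, false))) = _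
        rw [hE0']
        exact c2
      · change (CylG x (diskG j) n (j + 1)).m.src (revE r (bdD q (q.1, false))) = _
        rw [hE0']
        refine c3.trans ?_
        unfold cs
        congr 1
        funext v
        have e5 : ∀ u : D, ((diskG q.1).bd (q.1, false) u).1 ≤ q.1 := by
          intro u
          rw [rev_disk_bd]
          unfold bdD
          split_ifs with h
          · exact le_of_lt h
          · exact le_rfl
        cases v with
        | z u => exact hA _ (e5 u)
        | top u => rfl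
        | cyl u => exact hE _ (e5 u)
      · change (CylG x (diskG j) n (j + 1)).m.tgt (revE r (bdD q (q.1, false))) = _
        rw [hE0']
        exact c4
  rwa [hqq] at h2

theorem exists_rev_gen [S.Good] [S.Strat] (x : XFam S) (n : ℕ) (B : ℕ → Prop)
    (hB : ∀ j, B (j + 1) → B j) (hx : ∀ j, n ≤ j → B j → XGoodAt x n j)
    (hQ : ∀ j, n ≤ j → B j → (CylG x (diskG j) n (j + 1)).MContr (j + 1)) :
    ∃ r : XFam S, ∀ j, n ≤ j → B j → RGoodAt x r n j := by
  have hBle : ∀ i j, i ≤ j → B j → B i := by
    intro i j hij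
    induction j, hij using Nat.le_induction with
    | base => exact id
    | succ j _ ih => exact fun h => ih (hB j h)
  have hne : Nonempty (S.T (CV D D)) := ⟨.var (.z (0, false))⟩
  -- the cylinder source depends only on the values in lower dimensions
  have hcs : ∀ (j : ℕ) (r r' : XFam S), n ≤ j → B j → (∀ i, i < j → r i = r' i) →
      cs (CylG x (diskG j) n (j + 1)).m x (diskG j) (tpG S (diskG j) n) (fun q => .var (.z q))
        (revE r) (j, false) =
      cs (CylG x (diskG j) n (j + 1)).m x (diskG j) (tpG S (diskG j) n) (fun q => .var (.z q))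
        (revE r') (j, false) := by
    intro j r r' hj hBj hrr
    refine cs_congr (N := n) (W := diskG j) (p := (j, false)) (hx j hj hBj).1 (fun _ _ => rfl)
      (fun _ _ _ => rfl) fun q _ h2 => ?_
    have h2' : q.1 < j := h2
    have h3 : (diskG j).bd (j, false) q = q := by
      rw [rev_disk_bd]
      show bdD (j, false) q = q
      unfold bdD
      rw [if_pos h2']
    rw [h3]
    unfold revE
    rw [hrr q.1 h2']
  have hne' : ∀ i : ℕ, Nonempty ((fun _ : ℕ => S.T (CV D D)) i) := fun _ => hne
  refine exists_ranked (I := ℕ) (fun i => i) (T := fun _ => S.T (CV D D))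
    (fun j r => n ≤ j → B j → RGoodAt x r n j) ?_ ?_
  · intro j r r' h1 h2 hP hj hBj
    obtain ⟨⟨c1, c2, c3, c4⟩, c5⟩ := hP hj hBj
    have e1 : revE r' (j, false) = revE r (j, false) := by
      unfold revE
      rw [h2]
    refine ⟨⟨?_, ?_, ?_, ?_⟩, ?_⟩
    · change (CylG x (diskG j) n (j + 1)).m.ok (revE r' (j, false))
      rw [e1]
      exact c1
    · change (CylG x (diskG j) n (j + 1)).m.dim (revE r' (j, false)) = _
      rw [e1]
      exact c2
    · change (CylG x (diskG j) n (j + 1)).m.src (revE r' (j, false)) = _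
      rw [e1]
      exact c3.trans (hcs j r r' hj hBj h1)
    · change (CylG x (diskG j) n (j + 1)).m.tgt (revE r' (j, false)) = _
      rw [e1]
      exact c4
    · rw [← h2]
      exact c5
  · intro j r hP
    by_cases hcase : n ≤ j ∧ B j
    · obtain ⟨hj, hBj⟩ := hcase
      have hxj : ∀ i, n ≤ i → i ≤ j → XGoodAt x n i := fun i h1 h2 => hx i h1 (hBle i j h2 hBj)
      have hY : IsCyl x n (j + 1) (diskG j) (CylG x (diskG j) n (j + 1)).m
          (fun p => ((.var p : S.T (diskG j).C)).map .z) (tpG S (diskG j) n)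
          (fun p => .var (.cyl p)) := Cyl_isCyl (rev_ofGlob_isMap _ _)
      have hpok : (diskG j).ok (j, false) := Or.inr ⟨rfl, rfl⟩
      have hbdok : ∀ q, (diskG j).ok ((diskG j).bd (j, false) q) := fun q => ok_bd hpok q
      have hbdlt : ∀ q, (diskG j).dim ((diskG j).bd (j, false) q) < j + 1 := fun q =>
        Nat.lt_succ_of_le (rev_ok_le (hbdok q))
      have hbdlow : ∀ q : D, q.1 < j → (diskG j).bd (j, false) q = q := by
        intro q hq
        rw [rev_disk_bd]
        unfold bdD
        rw [if_pos hq]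
      obtain ⟨s1, s2, s3⟩ := cs_spec (x := x) (N := n) (W := diskG j)
        (M := (CylG x (diskG j) n (j + 1)).m) (α := tpG S (diskG j) n)
        (β := fun q => .var (.z q)) (e := revE r) (p := (j, false)) hpok hj hxj
        (fun q _ => hY.mapβ _ (hbdok q) (hbdlt q))
        (fun q _ => hY.mapα _ (hbdok q) (hbdlt q))
        (fun q h1 h2 => by
          have h2' : q.1 < j := h2
          rw [hbdlow q h2']
          change tp (ofGlob S (diskG j)) (diskG j) .var n q = _
          unfold tp
          have h3 : ¬ n ≤ (diskG j).dim q := by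
            have : (diskG j).dim q = q.1 := rfl
            omega
          rw [if_neg h3]
          rfl)
        (fun q h1 h2 => by
          have h2' : q.1 < j := h2
          rw [hbdlow q h2']
          exact rev_low hxj h2' h1 (hP q.1 h2' h1 (hBle _ _ h2'.le hBj)))
      obtain ⟨h, k1, k2, k3, k4⟩ := hQ j hj hBj _ (.var (.z (j, false)))
        (show (CylG x (diskG j) n (j + 1)).m.toGlob.Par
          (cs (CylG x (diskG j) n (j + 1)).m x (diskG j) (tpG S (diskG j) n)
            (fun q => .var (.z q)) (revE r) (j, false)) (.var (.z (j, false))) from by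
          refine ⟨s1, hpok, s2, fun h0 => ?_⟩
          have h0' : 0 < j := lt_of_lt_of_eq h0 s2
          obtain ⟨t1, t2⟩ := s3 h0'
          exact ⟨t1, t2⟩)
        (lt_of_eq_of_lt s2 (Nat.lt_succ_self j))
      refine ⟨Function.update r j h, fun i hi => Function.update_of_ne (ne_of_lt hi) _ _,
        fun _ _ => ?_⟩
      have e0 : Function.update r j h j = h := Function.update_self j h r
      have e1 : revE (Function.update r j h) (j, false) = h := by
        unfold revE
        rw [show ((j, false) : D).1 = j from rfl, e0]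
        exact rev_map_self k1
      refine ⟨⟨?_, ?_, ?_, ?_⟩, ?_⟩
      · change (CylG x (diskG j) n (j + 1)).m.ok (revE (Function.update r j h) (j, false))
        rw [e1]
        exact k1
      · change (CylG x (diskG j) n (j + 1)).m.dim (revE (Function.update r j h) (j, false)) = _
        rw [e1]
        exact k2.trans (congrArg (· + 1) s2)
      · change (CylG x (diskG j) n (j + 1)).m.src (revE (Function.update r j h) (j, false)) = _
        rw [e1]
        exact k3.trans (hcs j r _ hj hBj fun i hi => (Function.update_of_ne (ne_of_lt hi) _ _).symm)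
      · change (CylG x (diskG j) n (j + 1)).m.tgt (revE (Function.update r j h) (j, false)) = _
        rw [e1]
        exact k4
      · rw [e0]
        exact k1
    · exact ⟨r, fun _ _ => rfl, fun h1 h2 => absurd ⟨h1, h2⟩ hcase⟩

theorem IsCyl.rev [S.Good] [S.Strat] {x r : XFam S} {N J : ℕ}
    (hx : ∀ j, N ≤ j → j < J → XGoodAt x N j) (hr : ∀ j, N ≤ j → j < J → RGoodAt x r N j)
    {W : Glob} [W.Laws] {M : Model S} [M.OpLaws]
    {α β e : W.C → M.C} (h : IsCyl x N J W M α β e) : ∃ e', IsCyl x N J W M β α e' := by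
  refine ⟨fun p => M.eval (CV.elim (fun q => α (W.bd p q)) (fun q => β (W.bd p q))
    (fun q => e (W.bd p q))) (r (W.dim p)), h.mapβ, h.mapα,
    fun p hp h1 h2 => (h.low p hp h1 h2).symm, ?_⟩
  intro p hp hN hJ
  obtain ⟨i, hi⟩ : ∃ i, i = W.dim p := ⟨_, rfl⟩
  have hiN : N ≤ i := hi ▸ hN
  have hiJ : i < J := hi ▸ hJ
  obtain ⟨G, hG⟩ : ∃ G : CV D D → M.C, G = CV.elim (fun q => α (W.bd p q))
    (fun q => β (W.bd p q)) (fun q => e (W.bd p q)) := ⟨_, rfl⟩
  have hbm : ∀ q, (diskG i).ok q → MapAt (diskG i) W (W.bd p) q := by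
    intro q hq
    rw [hi] at hq ⊢
    exact bd_mapAt hp hq
  have hbd : ∀ q : D, q.1 ≤ i → ∀ s, W.bd p (bdD q s) = W.bd (W.bd p q) s := by
    intro q hq s
    exact (bd_bd hp (hi ▸ hq) s).symm
  have hdim : ∀ q : D, q.1 ≤ i → W.dim (W.bd p q) = q.1 := fun q hq => dim_bd hp (hi ▸ hq)
  have hGasg : ∀ B, IsAsg B (CylG x (diskG i) N (i + 1)) M G := by
    intro B
    rw [hG]
    refine Cyl_asg (Z := ofGlob S (diskG i)) (W := diskG i) (φ := .var)
      (fun j h1 h2 => hx j h1 (by omega)) ?_ ?_ ?_ ?_
    · intro q hq _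
      have h1 := hbm q hq
      exact asgAt_ofGlob (rev_mapAt_comp h1 (h.mapα _ h1.1 (by
        rw [hdim q (rev_ok_le hq)]
        exact lt_of_le_of_lt (rev_ok_le hq) hiJ)))
    · intro q hq _ _
      have h1 := hbm q hq
      exact rev_mapAt_comp h1 (h.mapβ _ h1.1 (by
        rw [hdim q (rev_ok_le hq)]
        exact lt_of_le_of_lt (rev_ok_le hq) hiJ))
    · intro q hq h0 _
      have h1 := hbm q hq
      exact h.low _ h1.1 (by rw [hdim q (rev_ok_le hq)]; exact h0) (by
        rw [hdim q (rev_ok_le hq)]
        exact lt_of_le_of_lt (rev_ok_le hq) hiJ)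
    · intro q hq h0 _
      have h1 := hbm q hq
      have h2 := h.cyl _ h1.1 (by rw [hdim q (rev_ok_le hq)]; exact h0) (by
        rw [hdim q (rev_ok_le hq)]
        exact lt_of_le_of_lt (rev_ok_le hq) hiJ)
      exact CylAt.comp (M := M) (W := W) (W' := diskG i) (f := W.bd p) (p := q) (α := α) (β := β)
        (e := e) (hdim q (rev_ok_le hq)) (fun s => by
          rw [rev_disk_bd]
          exact hbd q (rev_ok_le hq) s) h2
  have h1 := CylAt.eval (hGasg _) (hr i hiN hiJ).1
  have hpp : W.bd p (i, false) = p := bd_of_le p (i, false) (le_of_eq hi.symm)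
  -- the values of the three functions
  have hA : ∀ q : D, (diskG i).ok q → M.eval G (tpG S (diskG i) N q) = β (W.bd p q) := by
    intro q hq
    rw [hG]
    refine Cyl_eval_tp (Z := ofGlob S (diskG i)) (W := diskG i) (φ := .var) fun h0 => ?_
    have h2 := hbm q hq
    exact h.low _ h2.1 (by rw [hdim q (rev_ok_le hq)]; exact h0) (by
      rw [hdim q (rev_ok_le hq)]
      exact lt_of_le_of_lt (rev_ok_le hq) hiJ)
  have hBz : ∀ q : D, M.eval G (.var (.z q)) = α (W.bd p q) := by
    intro q
    rw [hG]
    rfl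
  have hE : ∀ q : D, q.1 ≤ i → M.eval G (revE r q) =
      M.eval (CV.elim (fun s => α (W.bd (W.bd p q) s)) (fun s => β (W.bd (W.bd p q) s))
        (fun s => e (W.bd (W.bd p q) s))) (r (W.dim (W.bd p q))) := by
    intro q hq
    rw [hdim q hq]
    refine (eval_map M G (CV.map (bdD q) (bdD q)) (r q.1)).trans ?_
    congr 1
    funext v
    rw [hG]
    cases v with
    | z s => exact congrArg α (hbd q hq s)
    | top s => exact congrArg β (hbd q hq s)
    | cyl s => exact congrArg e (hbd q hq s)
  have h2 : CylAt M x W β α (fun p => M.eval (CV.elim (fun q => α (W.bd p q))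
      (fun q => β (W.bd p q)) (fun q => e (W.bd p q))) (r (W.dim p))) (W.bd p (i, false)) := by
    refine rev_of_comp (W := W) (W' := diskG i) (f := W.bd p) (p := (i, false)) ?_ ?_ ?_
    · exact hdim (i, false) le_rfl
    · intro s
      rw [rev_disk_bd]
      exact hbd (i, false) le_rfl s
    · obtain ⟨c1, c2, c3, c4⟩ := h1
      have hE0 := hE (i, false) le_rfl
      have hpok : (diskG i).ok (i, false) := Or.inr ⟨rfl, rfl⟩
      have hbdok : ∀ q, (diskG i).ok ((diskG i).bd (i, false) q) := fun q => ok_bd hpok q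
      refine ⟨?_, ?_, ?_, ?_⟩
      · beta_reduce
        rw [← hE0]
        exact c1
      · beta_reduce
        rw [← hE0]
        exact c2
      · beta_reduce
        rw [← hE0]
        refine c3.trans ?_
        unfold cs
        congr 1
        funext v
        cases v with
        | z u => exact hA _ (hbdok u)
        | top u => exact hBz _
        | cyl u => exact hE _ (rev_ok_le (hbdok u))
      · beta_reduce
        rw [← hE0]
        exact c4.trans (hBz _)
  rwa [hpp] at h2

theorem exists_rev [S.Good] [S.Strat] {L n : ℕ} (hA : AOK S L n)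
    (hE : ∀ n', n < n' → n' < L → ExpOK S L n') {x : XFam S} (hx : XGood x n L) :
    ∃ r : XFam S, ∀ j, n ≤ j → j < L → RGoodAt x r n j := by
  refine exists_rev_gen x n (fun j => j < L) (fun j h => by omega)
    (fun j h1 h2 => hx.at' j h1 h2.le) fun j h1 h2 => ?_
  have h3 : (CylG x (diskG j) n (j + 1)).MContr L :=
    CylG_contr hx.base (fun i h4 h5 => hx.at' i h4 (by omega)) (fun i h4 h5 => hE i h4 (by omega))
      (by omega) (hA (diskG j) (ArCl.disk j))
  exact Glob.MContr.mono h3 (by omega)

end HH
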