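import Pool.Agent.HH.Bd
import Pool.Agent.HH.CSLem
import Pool.Agent.HH.CylUP

/-!
# HH stage 1, module Transport: a homotopy transports connectedness
-/

set_option autoImplicit false

namespace HH

open Classical

variable {S : Sig}

/-- `W` with a new cell `none : f ⟶ g` -/
def trW (W : Glob) (f g : W.C) : Glob where
  C := Option W.C
  dim := fun v => match v with
    | none => W.dim f + 1
    | some p => W.dim p
  src := fun v => match v with
    | none => some f
    | some p => some (W.src p)
  tgt := fun v => match v with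
    | none => some g
    | some p => some (W.tgt p)
  ok := fun v => match v with
    | none => True
    | some p => W.ok p

theorem trW_laws {W : Glob} [hW : W.Laws] {f g : W.C} (h : W.Par f g) : (trW W f g).Laws where
  ok_src := by
    rintro (_ | p) hx h0
    · exact h.1
    · exact hW.ok_src p hx h0
  ok_tgt := by
    rintro (_ | p) hx h0
    · exact h.2.1
    · exact hW.ok_tgt p hx h0
  dim_src := by
    rintro (_ | p) hx h0
    · rfl
    · exact hW.dim_src p hx h0
  dim_tgt := by
    rintro (_ | p) hx h0
    · show W.dim g + 1 = W.dim f + 1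
      rw [h.2.2.1]
    · exact hW.dim_tgt p hx h0
  src_tgt := by
    rintro (_ | p) hx h1
    · have h1' : 0 < W.dim f := by
        have : 1 < W.dim f + 1 := h1
        omega
      exact congrArg some (h.2.2.2 h1').1.symm
    · exact congrArg some (hW.src_tgt p hx h1)
  tgt_src := by
    rintro (_ | p) hx h1
    · have h1' : 0 < W.dim f := by
        have : 1 < W.dim f + 1 := h1
        omega
      exact congrArg some (h.2.2.2 h1').2
    · exact congrArg some (hW.tgt_src p hx h1)

theorem trW_iter_src {W : Glob} {f g : W.C} (k : ℕ) (p : W.C) :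
    (trW W f g).src^[k] (some p) = some (W.src^[k] p) := by
  induction k generalizing p with
  | zero => rfl
  | succ k ih =>
    exact ih (W.src p)

theorem trW_iter_tgt {W : Glob} {f g : W.C} (k : ℕ) (p : W.C) :
    (trW W f g).tgt^[k] (some p) = some (W.tgt^[k] p) := by
  induction k generalizing p with
  | zero => rfl
  | succ k ih =>
    exact ih (W.tgt p)

theorem trW_bd {W : Glob} {f g : W.C} (p : W.C) (q : D) :
    (trW W f g).bd (some p) q = some (W.bd p q) := by
  obtain ⟨i, ε⟩ := q
  cases ε
  · exact trW_iter_src _ p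
  · exact trW_iter_tgt _ p

theorem trW_bd_none {W : Glob} {f g : W.C} (h : W.dim f = W.dim g) {q : D}
    (hq : q.1 ≤ W.dim f) :
    (trW W f g).bd none q = some (W.bd (if q.2 then g else f) q) := by
  obtain ⟨i, ε⟩ := q
  have hq' : i ≤ W.dim f := hq
  have e : (trW W f g).dim none - i = (W.dim f - i) + 1 := by
    show W.dim f + 1 - i = _
    omega
  cases ε
  · show (trW W f g).src^[(trW W f g).dim none - i] none = some (W.src^[W.dim f - i] f)
    rw [e]
    exact trW_iter_src _ f
  · show (trW W f g).tgt^[(trW W f g).dim none - i] none = some (W.tgt^[W.dim g - i] g)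
    rw [e, h]
    exact trW_iter_tgt _ g

theorem IsCyl.transport [S.Good] [S.Strat] {x : XFam S} {N J : ℕ}
    (hx : ∀ j, N ≤ j → j ≤ J → XGoodAt x N j) {W : Glob} [W.Laws] {M : Model S} [M.OpLaws]
    {α β e : W.C → M.C} (h : IsCyl x N J W M α β e) {f g : W.C} (hfg : W.Par f g)
    (hd : W.dim f < J) (hc : M.toGlob.Conn (α f) (α g)) : M.toGlob.Conn (β f) (β g) := by
  obtain ⟨hf, hg, hfgd, -⟩ := id hfg
  have hdg : W.dim g < J := hfgd ▸ hd
  obtain ⟨k, k1, k2, k3, k4⟩ := hc
  have hαf := h.mapα f hf hd
  have hβf := h.mapβ f hf hd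
  rcases Nat.lt_or_ge (W.dim f + 1) N with hN | hN
  · rw [← h.low f hf (by omega) hd, ← h.low g hg (by omega) hdg]
    exact ⟨k, k1, k2, k3, k4⟩
  · have := trW_laws hfg
    set W' := trW W f g with hW'
    set α' : W'.C → M.C := fun v => v.elim k α with hα'
    set β' : W'.C → M.C := fun v => v.elim k β with hβ'
    set e' : W'.C → M.C := fun v => v.elim k e with he'
    have hcell : ∀ r : D, r.1 ≤ W.dim f → ∃ w : W.C, W'.bd none r = some w ∧ W.ok w ∧
        W.dim w = r.1 := by
      intro r hr
      refine ⟨_, trW_bd_none hfgd hr, ?_, ?_⟩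
      · split_ifs
        · exact ok_bd hg r
        · exact ok_bd hf r
      · split_ifs
        · exact dim_bd hg (by omega)
        · exact dim_bd hf hr
    have hmap : ∀ (γ : W.C → M.C), IsMap J W M.toGlob γ → ∀ w : W.C, W.ok w → W.dim w < J →
        MapAt W' M.toGlob (fun v => v.elim k γ) (some w) := fun γ hγ w hw hwd => hγ w hw hwd
    have hspec := cs_spec (S := S) (x := x) (N := N) (W := W') (M := M) (α := α') (β := β')
      (e := e') (p := none) trivial hN (fun j h1 h2 => hx j h1 (by
        have : j ≤ W.dim f + 1 := h2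
        omega)) ?_ ?_ ?_ ?_
    · obtain ⟨s1, s2, s3⟩ := hspec
      obtain ⟨s4, s5⟩ := s3 (Nat.succ_pos _)
      refine ⟨_, s1, ?_, s4, s5⟩
      rw [s2, hβf.2.1]
      rfl
    · intro r hr
      have hr' : r.1 ≤ W.dim f + 1 := hr
      rcases Nat.lt_or_ge (W.dim f) r.1 with h1 | h1
      · have e1 : W'.bd none r = none :=
          bd_of_le (G := W') none r (by show W.dim f + 1 ≤ r.1; omega)
        rw [e1]
        refine ⟨k1, k2.trans ?_, fun _ => ⟨k3, k4⟩⟩
        rw [hαf.2.1]
        rfl
      · obtain ⟨w, hw, hw1, hw2⟩ := hcell r h1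
        rw [hw]
        exact hmap α h.mapα w hw1 (by omega)
    · intro r hr
      have hr' : r.1 < W.dim f + 1 := hr
      obtain ⟨w, hw, hw1, hw2⟩ := hcell r (by omega)
      rw [hw]
      exact hmap β h.mapβ w hw1 (by omega)
    · intro r hr1 hr
      have hr' : r.1 < W.dim f + 1 := hr
      obtain ⟨w, hw, hw1, hw2⟩ := hcell r (by omega)
      rw [hw]
      exact h.low w hw1 (by omega) (by omega)
    · intro r hr1 hr
      have hr' : r.1 < W.dim f + 1 := hr
      obtain ⟨w, hw, hw1, hw2⟩ := hcell r (by omega)
      rw [hw]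
      obtain ⟨c1, c2, c3, c4⟩ := h.cyl w hw1 (by omega) (by omega)
      refine ⟨c1, c2, c3.trans ?_, c4⟩
      exact cs_comp (S := S) (M := M) x (W := W') (W' := W) (fun p => some p) α' β' e' w rfl
        (fun q => (trW_bd w q).symm)

end HH
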