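import Pool.Agent.HH.Cyl0UP
import Pool.Agent.HH.Transport
import Pool.Agent.HH.Rev

/-!
# HH stage 2, module c5: homotopies of level 0 transport connectedness and can be reversed
-/

set_option autoImplicit false

namespace HH

open Classical

variable {E : Sig}

theorem IsCyl0.transport {x : XFam E} (hx : ∀ j, XGoodAt x 0 j) {W : Glob} [W.Laws]
    {M : Model E} [M.OpLaws] {α β e : W.C → M.C} (h : IsCyl0 x W M α β e) {f g : W.C}
    (hfg : W.Par f g) (hc : M.toGlob.Conn (α f) (α g)) : M.toGlob.Conn (β f) (β g) := by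
  obtain ⟨hf, hg, hfgd, -⟩ := id hfg
  obtain ⟨k, k1, k2, k3, k4⟩ := hc
  have hαf := h.mapα f hf
  have hβf := h.mapβ f hf
  have := trW_laws hfg
  set W' := trW W f g with hW'
  set α' : W'.C → M.C := fun v => v.elim k α with hα'
  set β' : W'.C → M.C := fun v => v.elim k β with hβ'
  set e' : W'.C → M.C := fun v => v.elim k e with he'
  have hcell : ∀ r : D, r.1 ≤ W.dim f → ∃ w : W.C, W'.bd none r = some w ∧ W.ok w ∧
      W.dim w = r.1 := by
    intro r hr
    refine ⟨_, trW_bd_none hfgd hr, ?_, ?_⟩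
    · split_ifs
      · exact ok_bd hg r
      · exact ok_bd hf r
    · split_ifs
      · exact dim_bd hg (by omega)
      · exact dim_bd hf hr
  have hmap : ∀ (γ : W.C → M.C), (∀ w, W.ok w → MapAt W M.toGlob γ w) → ∀ w : W.C, W.ok w →
      MapAt W' M.toGlob (fun v => v.elim k γ) (some w) := fun γ hγ w hw => hγ w hw
  have hspec := Cyl0UP_cs (E := E) (x := x) hx (W := W') (M := M) (α := α') (β := β')
    (e := e') (p := none) trivial ?_ ?_ ?_
  · obtain ⟨s1, s2, s3⟩ := hspec
    obtain ⟨s4, s5⟩ := s3 (Nat.succ_pos _)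
    refine ⟨_, s1, ?_, s4, s5⟩
    rw [s2, hβf.2.1]
    rfl
  · intro r hr
    have hr' : r.1 ≤ W.dim f + 1 := hr
    rcases Nat.lt_or_ge (W.dim f) r.1 with h1 | h1
    · have e1 : W'.bd none r = none :=
        bd_of_le (G := W') none r (by show W.dim f + 1 ≤ r.1; omega)
      rw [e1]
      refine ⟨k1, k2.trans ?_, fun _ => ⟨k3, k4⟩⟩
      rw [hαf.2.1]
      rfl
    · obtain ⟨w, hw, hw1, hw2⟩ := hcell r h1
      rw [hw]
      exact hmap α h.mapα w hw1
  · intro r hr
    have hr' : r.1 < W.dim f + 1 := hr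
    obtain ⟨w, hw, hw1, hw2⟩ := hcell r (by omega)
    rw [hw]
    exact hmap β h.mapβ w hw1
  · intro r hr
    have hr' : r.1 < W.dim f + 1 := hr
    obtain ⟨w, hw, hw1, hw2⟩ := hcell r (by omega)
    rw [hw]
    obtain ⟨c1, c2, c3, c4⟩ := h.cyl w hw1
    refine ⟨c1, c2, c3.trans ?_, c4⟩
    exact cs_comp (S := E) (M := M) x (W := W') (W' := W) (fun p => some p) α' β' e' w rfl
      (fun q => (trW_bd w q).symm)

theorem IsCyl0.rev {x r : XFam E} (hx : ∀ j, XGoodAt x 0 j) (hr : ∀ j, RGoodAt x r 0 j)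
    {W : Glob} [W.Laws] {M : Model E} [M.OpLaws] {α β e : W.C → M.C}
    (h : IsCyl0 x W M α β e) : IsCyl0 x W M β α (cs M r W α β e) := by
  refine ⟨h.mapβ, h.mapα, ?_⟩
  intro p hp
  obtain ⟨i, hi⟩ : ∃ i, i = W.dim p := ⟨_, rfl⟩
  obtain ⟨G, hG⟩ : ∃ G : CV D D → M.C, G = CV.elim (fun q => α (W.bd p q))
    (fun q => β (W.bd p q)) (fun q => e (W.bd p q)) := ⟨_, rfl⟩
  have hbm : ∀ q, (diskG i).ok q → MapAt (diskG i) W (W.bd p) q := by
    intro q hq
    rw [hi] at hq ⊢
    exact bd_mapAt hp hq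
  have hbd : ∀ q : D, q.1 ≤ i → ∀ s, W.bd p (bdD q s) = W.bd (W.bd p q) s := by
    intro q hq s
    exact (bd_bd hp (hi ▸ hq) s).symm
  have hdim : ∀ q : D, q.1 ≤ i → W.dim (W.bd p q) = q.1 := fun q hq => dim_bd hp (hi ▸ hq)
  have hGasg : ∀ B, IsAsg B (CylG x (diskG i) 0 (i + 1)) M G := by
    intro B
    rw [hG]
    refine Cyl_asg (Z := ofGlob E (diskG i)) (W := diskG i) (φ := .var)
      (fun j _ _ => hx j) ?_ ?_ ?_ ?_
    · intro q hq _
      have h1 := hbm q hq
      exact asgAt_ofGlob (rev_mapAt_comp h1 (h.mapα _ h1.1))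
    · intro q hq _ _
      have h1 := hbm q hq
      exact rev_mapAt_comp h1 (h.mapβ _ h1.1)
    · intro q hq h0 _
      exact absurd h0 (Nat.not_lt_zero _)
    · intro q hq h0 _
      have h1 := hbm q hq
      have h2 := h.cyl _ h1.1
      exact CylAt.comp (M := M) (W := W) (W' := diskG i) (f := W.bd p) (p := q) (α := α) (β := β)
        (e := e) (hdim q (rev_ok_le hq)) (fun s => by
          rw [rev_disk_bd]
          exact hbd q (rev_ok_le hq) s) h2
  have h1 := Cyl0UP_eval (fun v hv => hGasg _ v hv (Nat.lt_succ_self _)) (hr i).1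
  have hpp : W.bd p (i, false) = p := bd_of_le p (i, false) (le_of_eq hi.symm)
  -- the values of the three functions
  have hA : ∀ q : D, M.eval G (tpG E (diskG i) 0 q) = β (W.bd p q) := by
    intro q
    rw [hG]
    exact Cyl_eval_tp (Z := ofGlob E (diskG i)) (W := diskG i) (φ := .var)
      (fun h0 => absurd h0 (Nat.not_lt_zero _))
  have hBz : ∀ q : D, M.eval G (.var (.z q)) = α (W.bd p q) := by
    intro q
    rw [hG]
    rfl
  have hE : ∀ q : D, q.1 ≤ i → M.eval G ((r q.1).map (CV.map (bdD q) (bdD q))) =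
      cs M r W α β e (W.bd p q) := by
    intro q hq
    unfold cs
    rw [hdim q hq]
    refine (eval_map M G (CV.map (bdD q) (bdD q)) (r q.1)).trans ?_
    congr 1
    funext v
    rw [hG]
    cases v with
    | z s => exact congrArg α (hbd q hq s)
    | top s => exact congrArg β (hbd q hq s)
    | cyl s => exact congrArg e (hbd q hq s)
  have h2 : CylAt M x W β α (cs M r W α β e) (W.bd p (i, false)) := by
    refine rev_of_comp (W := W) (W' := diskG i) (f := W.bd p) (p := (i, false)) ?_ ?_ ?_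
    · exact hdim (i, false) le_rfl
    · intro s
      rw [rev_disk_bd]
      exact hbd (i, false) le_rfl s
    · obtain ⟨c1, c2, c3, c4⟩ := h1
      have hE0 := hE (i, false) le_rfl
      have hpok : (diskG i).ok (i, false) := Or.inr ⟨rfl, rfl⟩
      have hbdok : ∀ q, (diskG i).ok ((diskG i).bd (i, false) q) := fun q => ok_bd hpok q
      refine ⟨?_, ?_, ?_, ?_⟩
      · beta_reduce
        rw [← hE0]
        exact c1
      · beta_reduce
        rw [← hE0]
        exact c2
      · beta_reduce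
        rw [← hE0]
        refine c3.trans ?_
        conv_lhs => unfold cs
        conv_rhs => unfold cs
        congr 1
        funext v
        cases v with
        | z u => exact hA _
        | top u => exact hBz _
        | cyl u => exact hE _ (rev_ok_le (hbdok u))
      · beta_reduce
        rw [← hE0]
        exact c4.trans (hBz _)
  rwa [hpp] at h2

theorem IsCyl0.transport_rev {x r : XFam E} (hx : ∀ j, XGoodAt x 0 j)
    (hr : ∀ j, RGoodAt x r 0 j) {W : Glob} [W.Laws]
    {M : Model E} [M.OpLaws] {α β e : W.C → M.C} (h : IsCyl0 x W M α β e) {f g : W.C}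
    (hfg : W.Par f g) (hc : M.toGlob.Conn (β f) (β g)) : M.toGlob.Conn (α f) (α g) :=
  (h.rev hx hr).transport hx hfg hc

end HH
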