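import Pool.Agent.HH.Defs2

/-!
# HH stage 2, module c7: functoriality of `ext2`
-/

set_option autoImplicit false

namespace HH

open Classical CategoryTheory

variable {S E R : Sig}

theorem ext2F_trans_bind (b : Interp E S) {V W : Type} (t : E.T V) (γ : V → E.T W) :
    trans b (t.bind γ) = (trans b t).bind (fun v => trans b (γ v)) := by
  induction t with
  | var v => rfl
  | op k δ ih =>
    show (b k).bind (fun p => trans b ((δ p).bind γ)) =
      ((b k).bind (fun p => trans b (δ p))).bind (fun v => trans b (γ v))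
    rw [Tm.bind_bind]
    congr 1
    funext p
    exact ih p

/-- functoriality of `ext2` in the variables -/
theorem ext2_bind {M : Model E} {b : Interp E E} {Q : QFam E} {V W : Type} {γ : W → E.T V}
    {α β e : V → M.C} (s : E.T W) :
    ext2 M b Q α β e (s.bind γ) =
      ext2 M b Q (fun w => M.eval α (γ w)) (fun w => M.eval β (trans b (γ w)))
        (fun w => ext2 M b Q α β e (γ w)) s := by
  induction s with
  | var v => rfl
  | op k δ ih =>
    have h1 : (fun p => M.eval α ((δ p).bind γ)) =
        (fun p => M.eval (fun w => M.eval α (γ w)) (δ p)) := by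
      funext p
      exact eval_bind M α γ (δ p)
    have h2 : (fun p => M.eval β (trans b ((δ p).bind γ))) =
        (fun p => M.eval (fun w => M.eval β (trans b (γ w))) (trans b (δ p))) := by
      funext p
      rw [ext2F_trans_bind]
      exact eval_bind M β (fun w => trans b (γ w)) (trans b (δ p))
    have h3 : (fun p => ext2 M b Q α β e ((δ p).bind γ)) =
        (fun p => ext2 M b Q (fun w => M.eval α (γ w)) (fun w => M.eval β (trans b (γ w)))
          (fun w => ext2 M b Q α β e (γ w)) (δ p)) := by
      funext p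
      exact ih p
    show M.eval (CV.elim (fun p => M.eval α ((δ p).bind γ))
      (fun p => M.eval β (trans b ((δ p).bind γ)))
      (fun p => ext2 M b Q α β e ((δ p).bind γ))) (Q k) = _
    rw [h1, h2, h3]
    rfl

/-- naturality of `ext2` in the model -/
theorem eval_ext2 {Y : Cptd E} {M : Model E} {b : Interp E E} {Q : QFam E} {V : Type}
    {α β e : V → E.T Y.V} (γ : Y.V → M.C) (t : E.T V) :
    M.eval γ (ext2 Y.m b Q α β e t) =
      ext2 M b Q (fun v => M.eval γ (α v)) (fun v => M.eval γ (β v)) (fun v => M.eval γ (e v)) t := by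
  induction t with
  | var v => rfl
  | op k δ ih =>
    show M.eval γ ((Q k).bind (CV.elim (fun p => (δ p).bind α) (fun p => (trans b (δ p)).bind β)
      (fun p => ext2 Y.m b Q α β e (δ p)))) = M.eval (CV.elim
        (fun p => M.eval (fun v => M.eval γ (α v)) (δ p))
        (fun p => M.eval (fun v => M.eval γ (β v)) (trans b (δ p)))
        (fun p => ext2 M b Q (fun v => M.eval γ (α v)) (fun v => M.eval γ (β v))
          (fun v => M.eval γ (e v)) (δ p))) (Q k)
    rw [eval_bind]
    congr 1
    funext v
    cases v with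
    | z p => exact eval_bind M γ α (δ p)
    | top p => exact eval_bind M γ β (trans b (δ p))
    | cyl p => exact ih p

/-- evaluation only depends on the variables which occur -/
theorem ext2F_eval_congr {M : Model E} {V : Type} {γ γ' : V → M.C} (t : E.T V)
    (h : ∀ v, t.HasVar v → γ v = γ' v) : M.eval γ t = M.eval γ' t := by
  induction t with
  | var v => exact h v rfl
  | op k δ ih =>
    simp only [eval_op]
    congr 1
    funext p
    exact ih p fun v hv => h v ⟨p, hv⟩

theorem ext2F_hasVar_bind {V W : Type} {t : E.T V} {γ : V → E.T W} {w : W}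
    (h : (t.bind γ).HasVar w) : ∃ v, t.HasVar v ∧ (γ v).HasVar w := by
  induction t with
  | var v => exact ⟨v, rfl, h⟩
  | op k δ ih =>
    obtain ⟨p, hp⟩ := h
    obtain ⟨v, h1, h2⟩ := ih p hp
    exact ⟨v, ⟨p, h1⟩, h2⟩

theorem ext2F_hasVar_trans {b : Interp E S} {V : Type} {t : E.T V} {v : V}
    (h : (trans b t).HasVar v) : t.HasVar v := by
  induction t with
  | var w => exact h
  | op k δ ih =>
    have h' : ((b k).bind (fun p => trans b (δ p))).HasVar v := h
    obtain ⟨p, _, hp⟩ := ext2F_hasVar_bind h'
    exact ⟨p, ih p hp⟩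

/-- only genuine variables and operations occurring in the term matter -/
theorem ext2_congr {M : Model E} {b : Interp E E} {Q Q' : QFam E} {V : Type}
    {α β e α' β' e' : V → M.C} (t : E.T V) (hQ : ∀ k, t.HasOp k → Q k = Q' k)
    (hα : ∀ v, t.HasVar v → α v = α' v)
    (hβ : ∀ v, (t.HasVar v ∨ (trans b t).HasVar v) → β v = β' v)
    (he : ∀ v, t.HasVar v → e v = e' v) :
    ext2 M b Q α β e t = ext2 M b Q' α' β' e' t := by
  induction t with
  | var v => exact he v rfl
  | op k δ ih =>
    have hk : Q k = Q' k := hQ k (Or.inl rfl)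
    have h1 : (fun p => M.eval α (δ p)) = (fun p => M.eval α' (δ p)) := by
      funext p
      exact ext2F_eval_congr (δ p) fun v hv => hα v ⟨p, hv⟩
    have h2 : (fun p => M.eval β (trans b (δ p))) = (fun p => M.eval β' (trans b (δ p))) := by
      funext p
      exact ext2F_eval_congr (trans b (δ p)) fun v hv => hβ v
        (Or.inl ⟨p, ext2F_hasVar_trans hv⟩)
    have h3 : (fun p => ext2 M b Q α β e (δ p)) = (fun p => ext2 M b Q' α' β' e' (δ p)) := by
      funext p
      refine ih p (fun k' hk' => hQ k' (Or.inr ⟨p, hk'⟩)) (fun v hv => hα v ⟨p, hv⟩) ?_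
        (fun v hv => he v ⟨p, hv⟩)
      rintro v (hv | hv)
      · exact hβ v (Or.inl ⟨p, hv⟩)
      · exact hβ v (Or.inl ⟨p, ext2F_hasVar_trans hv⟩)
    show M.eval (CV.elim (fun p => M.eval α (δ p)) (fun p => M.eval β (trans b (δ p)))
      (fun p => ext2 M b Q α β e (δ p))) (Q k) = M.eval (CV.elim (fun p => M.eval α' (δ p))
      (fun p => M.eval β' (trans b (δ p))) (fun p => ext2 M b Q' α' β' e' (δ p))) (Q' k)
    rw [h1, h2, h3, hk]

theorem hasVar_ok {X : Cptd E} {t : E.T X.V} (ht : X.tok t) {v : X.V} (h : t.HasVar v) :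
    X.ok v := by
  induction t with
  | var w =>
    have h' : w = v := h
    rw [← h']
    exact ht
  | op k δ ih =>
    obtain ⟨p, hp⟩ := h
    exact ih p (ht.2 p).1 hp

theorem hasOp_ok {X : Cptd E} {t : E.T X.V} (ht : X.tok t) {k : E.K} (h : t.HasOp k) :
    E.kok k := by
  induction t with
  | var w => exact h.elim
  | op k' δ ih =>
    rcases h with h | ⟨p, hp⟩
    · rw [← h]
      exact ht.1
    · exact ih p (ht.2 p).1 hp

end HH
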