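import Pool.Agent.HH.Interp
import Pool.Agent.HH.Cyl0UP
import Pool.Agent.HH.Retract
import Pool.Agent.HH.CSLem
import Pool.Agent.HH.Ext2F

/-!
# HH stage 2, module c8: the extension of a twisted homotopy to terms is a homotopy
-/

set_option autoImplicit false

namespace HH

open Classical CategoryTheory

variable {S E R : Sig}

/-- occurrence version of `eval_mapAt` -/
theorem eval_mapAt_occ {X : Cptd E} {M : Model E} [M.OpLaws] {γ : X.V → M.C} {t : E.T X.V}
    (h : ∀ v, t.HasVar v → AsgAt X M γ v) (ht : X.tok t) :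
    MapAt X.m.toGlob M.toGlob (M.eval γ) t := by
  induction t with
  | var v => exact h v rfl
  | op k δ ih =>
    obtain ⟨hk, hδ⟩ := ht
    have key : ∀ p, MapAt (E.ar k) M.toGlob (fun p => M.eval γ (δ p)) p := by
      intro p
      obtain ⟨h1, h2, h3⟩ := hδ p
      obtain ⟨i1, i2, i3⟩ := ih p (fun v hv => h v ⟨p, hv⟩) h1
      refine ⟨i1, i2.trans h2, fun hp => ?_⟩
      obtain ⟨j1, j2⟩ := h3 hp
      have hp' : 0 < X.tdim (δ p) := by rw [h2]; exact hp
      obtain ⟨k1, k2⟩ := i3 hp'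
      exact ⟨k1.trans (congrArg (M.eval γ) j1), k2.trans (congrArg (M.eval γ) j2)⟩
    refine ⟨Model.OpLaws.o_ok k _ hk key, Model.OpLaws.o_dim k _ hk key, fun _ => ⟨?_, ?_⟩⟩
    · exact (Model.OpLaws.o_src k _ hk key).trans (eval_bind M γ δ (E.bs k)).symm
    · exact (Model.OpLaws.o_tgt k _ hk key).trans (eval_bind M γ δ (E.bt k)).symm

/-- unbounded version of `CylAt.eval` -/
theorem ext2_eval_full {X : Cptd E} {M : Model E} [M.OpLaws] {x : XFam E} {W : Glob}
    {α β e : W.C → E.T X.V} {p : W.C} {γ : X.V → M.C} (hγ : ∀ v, X.ok v → AsgAt X M γ v)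
    (h : CylAt X.m x W α β e p) :
    CylAt M x W (fun p => M.eval γ (α p)) (fun p => M.eval γ (β p)) (fun p => M.eval γ (e p)) p := by
  obtain ⟨h1, h2, h3, h4⟩ := h
  have h2' : X.tdim (e p) = W.dim p + 1 := h2
  obtain ⟨m1, m2, m3⟩ := eval_mapAt hγ (e p) h1
  obtain ⟨m4, m5⟩ := m3 (by change 0 < X.tdim (e p); omega)
  refine ⟨m1, m2.trans h2, ?_, ?_⟩
  · rw [m4, ← cs_eval]
    exact congrArg _ h3
  · rw [m5]
    exact congrArg _ h4

theorem ext2_mapAt_comp {G H K : Glob} {f : G.C → H.C} {g : H.C → K.C} {x : G.C}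
    (hf : MapAt G H f x) (hg : MapAt H K g (f x)) : MapAt G K (fun y => g (f y)) x := by
  obtain ⟨f1, f2, f3⟩ := hf
  obtain ⟨g1, g2, g3⟩ := hg
  refine ⟨g1, g2.trans f2, fun h0 => ?_⟩
  obtain ⟨a1, a2⟩ := f3 h0
  obtain ⟨b1, b2⟩ := g3 (by rw [f2]; exact h0)
  exact ⟨b1.trans (congrArg g a1), b2.trans (congrArg g a2)⟩

/-- the twisted end is a map on terms whose variables are well typed -/
theorem ext2_top_mapAt [E.Good] {b : Interp E E} (hb : b.Good) {X : Cptd E} {M : Model E}
    [M.OpLaws] {β : X.V → M.C} {t : E.T X.V} (ht : X.tok t)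
    (hβ : ∀ v, t.HasVar v → AsgAt X (M.pull b) β v) :
    MapAt X.m.toGlob M.toGlob (fun t => M.eval β (trans b t)) t := by
  have := pull_opLaws hb M
  have h := eval_mapAt_occ (M := M.pull b) hβ ht
  have e1 : (M.pull b).eval β = fun t => M.eval β (trans b t) := by
    funext t
    exact pull_eval b M β t
  rw [e1] at h
  exact h

/-- pointwise version: only the variables and operations occurring in `t` matter -/
theorem ext2_cylAt [E.Good] {x : XFam E} (hx : ∀ j, XGoodAt x 0 j) {b : Interp E E}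
    (hb : b.Good) {Q : QFam E} {X : Cptd E} [X.Good] {M : Model E}
    [M.OpLaws] {α β e : X.V → M.C} {t : E.T X.V} (ht : X.tok t)
    (hQ : ∀ k, t.HasOp k → Q2GoodAt x b Q k)
    (hα : ∀ v, t.HasVar v → AsgAt X M α v)
    (hβ : ∀ v, t.HasVar v → AsgAt X (M.pull b) β v)
    (hc : ∀ v, t.HasVar v → CylAt M x X.m.toGlob (M.eval α) (fun t => M.eval β (trans b t))
      (ext2 M b Q α β e) (.var v)) :
    CylAt M x X.m.toGlob (M.eval α) (fun t => M.eval β (trans b t)) (ext2 M b Q α β e) t := by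
  induction t with
  | var v => exact hc v rfl
  | op k γ ih =>
    obtain ⟨hk, hγ⟩ := (tok_op X k γ).1 ht
    have hL : (E.ar k).Laws := Sig.Good.ar_laws k hk
    have hfull : ∀ p, (E.ar k).ok p := Sig.Good.full k hk
    have hγd : ∀ p, X.tdim (γ p) = (E.ar k).dim p := fun p => (hγ p).2.1
    have hγok : ∀ p, X.tok (γ p) := fun p => (hγ p).1
    have mαγ : ∀ p, MapAt (E.ar k) M.toGlob (fun p => M.eval α (γ p)) p := fun p =>
      ext2_mapAt_comp (hγ p) (eval_mapAt_occ (fun v hv => hα v ⟨p, hv⟩) (hγok p))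
    have mβγ : ∀ p, MapAt (E.ar k) M.toGlob (fun p => M.eval β (trans b (γ p))) p := fun p =>
      ext2_mapAt_comp (hγ p) (ext2_top_mapAt hb (hγok p) (fun v hv => hβ v ⟨p, hv⟩))
    have hbdγ : ∀ p q, γ ((E.ar k).bd p q) = X.m.toGlob.bd (γ p) q := fun p q =>
      map_bd (G := E.ar k) (H := X.m.toGlob) (hfull p) (fun y _ _ => hγ y) q
    have hcylγ : IsCyl0 x (E.ar k) M (fun p => M.eval α (γ p))
        (fun p => M.eval β (trans b (γ p))) (fun p => ext2 M b Q α β e (γ p)) := by
      refine ⟨fun p _ => mαγ p, fun p _ => mβγ p, fun p _ => ?_⟩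
      have h2 := ih p (hγok p) (fun k' hk' => hQ k' (Or.inr ⟨p, hk'⟩))
        (fun v hv => hα v ⟨p, hv⟩) (fun v hv => hβ v ⟨p, hv⟩) (fun v hv => hc v ⟨p, hv⟩)
      exact CylAt.comp (M := M) (x := x) (W := X.m.toGlob) (W' := E.ar k) (f := γ)
        (α := M.eval α) (β := fun t => M.eval β (trans b t)) (e := ext2 M b Q α β e) (p := p)
        (hγd p) (hbdγ p) h2
    obtain ⟨E0, hE0⟩ : ∃ E0 : CV (E.ar k).C (E.ar k).C → M.C, E0 =
      CV.elim (fun p => M.eval α (γ p)) (fun p => M.eval β (trans b (γ p)))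
        (fun p => ext2 M b Q α β e (γ p)) := ⟨_, rfl⟩
    have hEasg : ∀ v, (Cyl0 x (E.ar k)).ok v → AsgAt (Cyl0 x (E.ar k)) M E0 v := by
      rw [hE0]
      exact Cyl0_asg hx hcylγ
    have h1 := (hQ k (Or.inl rfl)).2
    have h2 := ext2_eval_full hEasg h1
    -- identify the three functions
    have hF : ∀ s : E.T (E.ar k).C, M.eval E0 (ext2 (Cyl0 x (E.ar k)).m b Q
          (fun p => .var (.z p)) (fun p => .var (.top p)) (fun p => .var (.cyl p)) s) =
        ext2 M b Q α β e (s.bind γ) := by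
      intro s
      rw [ext2_bind]
      refine (eval_ext2 (Y := Cyl0 x (E.ar k)) E0 s).trans ?_
      rw [hE0]
      rfl
    have hA : ∀ s : E.T (E.ar k).C, M.eval E0 (s.map .z) = M.eval α (s.bind γ) := by
      intro s
      rw [eval_map, eval_bind, hE0]
      rfl
    have hB : ∀ s : E.T (E.ar k).C, M.eval E0 ((trans b s).map .top) =
        M.eval β (trans b (s.bind γ)) := by
      intro s
      rw [eval_map, trans_bind, eval_bind, hE0]
      rfl
    have hmap : ∀ s : E.T (E.ar k).C, (ofGlob E (E.ar k)).tok s →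
        MapAt (ofGlob E (E.ar k)).m.toGlob X.m.toGlob (fun s => s.bind γ) s := by
      intro s hs
      exact eval_mapAt (X := ofGlob E (E.ar k)) (M := X.m) (γ := γ) (fun p _ => hγ p) s hs
    have hokv : (ofGlob E (E.ar k)).tok (.op k .var) := by
      refine ⟨hk, fun p => ⟨hfull p, rfl, fun _ => ⟨rfl, rfl⟩⟩⟩
    have hbd : ∀ q, ((ofGlob E (E.ar k)).m.toGlob.bd (.op k .var) q : E.T (E.ar k).C).bind γ =
        X.m.toGlob.bd (.op k γ) q := by
      intro q
      have := map_bd (G := (ofGlob E (E.ar k)).m.toGlob) (H := X.m.toGlob)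
        (f := fun s : E.T (E.ar k).C => s.bind γ) (x := (.op k .var : E.T (E.ar k).C)) hokv
        (fun y hy _ => hmap y hy) q
      exact this
    obtain ⟨c1, c2, c3, c4⟩ := h2
    have hext : M.eval E0 (ext2 (Cyl0 x (E.ar k)).m b Q
          (fun p => .var (.z p)) (fun p => .var (.top p)) (fun p => .var (.cyl p))
          (.op k .var)) = ext2 M b Q α β e (.op k γ) := hF (.op k .var)
    have hcs : cs M x (ofGlob E (E.ar k)).m.toGlob
        (fun p => M.eval E0 (Tm.map p .z))
        (fun p => M.eval E0 (Tm.map (trans b p) .top))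
        (fun p => M.eval E0 (ext2 (Cyl0 x (E.ar k)).m b Q
          (fun p => .var (.z p)) (fun p => .var (.top p)) (fun p => .var (.cyl p)) p))
        (.op k .var) =
        cs M x X.m.toGlob (M.eval α) (fun t => M.eval β (trans b t)) (ext2 M b Q α β e)
          (.op k γ) := by
      have e1 := cs_comp (M := M) x (W := X.m.toGlob) (W' := (ofGlob E (E.ar k)).m.toGlob)
        (fun s : E.T (E.ar k).C => s.bind γ) (M.eval α) (fun t => M.eval β (trans b t))
        (ext2 M b Q α β e) (.op k .var) rfl hbd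
      refine Eq.trans ?_ e1
      unfold cs
      congr 1
      funext v
      cases v with
      | z q => exact hA _
      | top q => exact hB _
      | cyl q => exact hF _
    refine ⟨?_, ?_, ?_, ?_⟩
    · rw [← hext]
      exact c1
    · rw [← hext]
      exact c2
    · rw [← hext, ← hcs]
      exact c3
    · rw [← hext]
      exact c4.trans (hB _)

theorem ext2_isCyl0 [E.Good] {x : XFam E} (hx : ∀ j, XGoodAt x 0 j) {b : Interp E E}
    (hb : b.Good) {Q : QFam E} (hQ : Q2Good x b Q) {X : Cptd E} [X.Good] {M : Model E}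
    [M.OpLaws] {α β e : X.V → M.C} (hα : ∀ v, X.ok v → AsgAt X M α v)
    (hβ : ∀ v, X.ok v → AsgAt X (M.pull b) β v)
    (hc : ∀ v, X.ok v → CylAt M x X.m.toGlob (M.eval α) (fun t => M.eval β (trans b t))
      (ext2 M b Q α β e) (.var v)) :
    IsCyl0 x X.m.toGlob M (M.eval α) (fun t => M.eval β (trans b t)) (ext2 M b Q α β e) := by
  refine ⟨fun t ht => eval_mapAt hα t ht, fun t ht => ?_, fun t ht => ?_⟩
  · exact ext2_top_mapAt hb ht fun v hv => hβ v (hasVar_ok ht hv)
  · exact ext2_cylAt hx hb ht (fun k hk => hQ k (hasOp_ok ht hk))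
      (fun v hv => hα v (hasVar_ok ht hv)) (fun v hv => hβ v (hasVar_ok ht hv))
      (fun v hv => hc v (hasVar_ok ht hv))

end HH
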