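import Pool.Agent.HH.Defs2

/-!
# HH stage 2, module c1: interpretations
-/

set_option autoImplicit false

namespace HH

open Classical CategoryTheory

variable {S E R : Sig}

@[simp] theorem trans_var (b : Interp E S) {V : Type} (v : V) :
    trans b (.var v : E.T V) = .var v := rfl

@[simp] theorem trans_op (b : Interp E S) {V : Type} (k : E.K) (δ : (E.ar k).C → E.T V) :
    trans b (.op k δ : E.T V) = (b k).bind (fun p => trans b (δ p)) := rfl

theorem trans_bind (b : Interp E S) {V W : Type} (t : E.T V) (γ : V → E.T W) :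
    trans b (t.bind γ) = (trans b t).bind (fun v => trans b (γ v)) := by
  induction t with
  | var v => rfl
  | op k δ ih =>
    simp only [Tm.bind_op, trans_op, Tm.bind_bind]
    congr 1
    funext p
    exact ih p

theorem trans_map (b : Interp E S) {V W : Type} (t : E.T V) (f : V → W) :
    trans b (t.map f) = (trans b t).map f :=
  trans_bind b t _

theorem pull_eval (b : Interp E S) (M : Model S) {V : Type} (γ : V → M.C) (t : E.T V) :
    (M.pull b).eval γ t = M.eval γ (trans b t) := by
  induction t with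
  | var v => rfl
  | op k δ ih =>
    rw [trans_op, eval_bind]
    show M.eval (fun p => (M.pull b).eval γ (δ p)) (b k) = _
    congr 1
    funext p
    exact ih p

theorem trans_id {V : Type} (t : S.T V) : trans (idI S) t = t := by
  induction t with
  | var v => rfl
  | op k δ ih =>
    rw [trans_op]
    show Tm.op k (fun p => trans (idI S) (δ p)) = _
    congr 1
    funext p
    exact ih p

theorem trans_comp (b : Interp E S) (c : Interp S R) {V : Type} (t : E.T V) :
    trans (compI b c) t = trans c (trans b t) := by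
  induction t with
  | var v => rfl
  | op k δ ih =>
    rw [trans_op, trans_op, trans_bind]
    show (trans c (b k)).bind _ = _
    congr 1
    funext p
    exact ih p

theorem trans_retract {j : Interp S E} {q : Interp E S}
    (hqj : ∀ k, trans q (j k) = .op k .var) {V : Type} (s : S.T V) :
    trans q (trans j s) = s := by
  rw [← trans_comp]
  have h : compI j q = idI S := funext hqj
  rw [h, trans_id]

theorem idI_good [hS : S.Good] : (idI S).Good where
  ok := fun k hk => ⟨hk, fun p => ⟨hS.full k hk p, rfl, fun _ => ⟨rfl, rfl⟩⟩⟩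
  dim := fun _ _ => rfl
  src := fun k _ => by
    rw [trans_id]
    exact Tm.bind_var_self _
  tgt := fun k _ => by
    rw [trans_id]
    exact Tm.bind_var_self _

/-- the operations of a pulled back model have the right boundaries -/
theorem pull_opLaws [hE : E.Good] {b : Interp E S} (hb : b.Good) (M : Model S) [M.OpLaws] :
    (M.pull b).OpLaws := by
  have key : ∀ k (γ : (E.ar k).C → M.C), E.kok k → (∀ p, MapAt (E.ar k) M.toGlob γ p) →
      MapAt (ofGlob S (E.ar k)).m.toGlob M.toGlob (M.eval γ) (b k) := fun k γ hk hγ =>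
    eval_mapAt (X := ofGlob S (E.ar k)) (M := M) (γ := γ) (fun p _ => hγ p) (b k) (hb.ok k hk)
  have hpos : ∀ k, E.kok k → 0 < (ofGlob S (E.ar k)).tdim (b k) := fun k hk => by
    rw [hb.dim k hk]
    exact hE.dm_pos k hk
  refine ⟨fun k γ hk hγ => (key k γ hk hγ).1, fun k γ hk hγ => ?_, fun k γ hk hγ => ?_,
    fun k γ hk hγ => ?_⟩
  · exact (key k γ hk hγ).2.1.trans (hb.dim k hk)
  · rw [pull_eval, ← hb.src k hk]
    exact ((key k γ hk hγ).2.2 (hpos k hk)).1
  · rw [pull_eval, ← hb.tgt k hk]
    exact ((key k γ hk hγ).2.2 (hpos k hk)).2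

/-- translation of computads and terms -/
theorem trans_mapAt {j : Interp S E} (hj : j.Good) (X : Cptd S) (t : S.T X.V) (ht : X.tok t) :
    MapAt X.m.toGlob (X.tr j).m.toGlob (trans j) t := by
  induction t with
  | var v => exact ⟨ht, rfl, fun _ => ⟨rfl, rfl⟩⟩
  | op k δ ih =>
    obtain ⟨hk, hδ⟩ := ht
    have key : ∀ p, MapAt (S.ar k) (X.tr j).m.toGlob (fun p => trans j (δ p)) p := by
      intro p
      obtain ⟨h1, h2, h3⟩ := hδ p
      obtain ⟨i1, i2, i3⟩ := ih p h1
      refine ⟨i1, i2.trans h2, fun hp => ?_⟩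
      obtain ⟨j1, j2⟩ := h3 hp
      have hp' : 0 < X.tdim (δ p) := by rw [h2]; exact hp
      obtain ⟨k1, k2⟩ := i3 hp'
      exact ⟨k1.trans (congrArg (trans j) j1), k2.trans (congrArg (trans j) j2)⟩
    obtain ⟨m1, m2, m3⟩ := eval_mapAt (X := ofGlob E (S.ar k)) (M := (X.tr j).m)
      (γ := fun p => trans j (δ p)) (fun p _ => key p) (j k) (hj.ok k hk)
    have hd : (ofGlob E (S.ar k)).tdim (j k) = S.dm k := hj.dim k hk
    refine ⟨m1, m2.trans hd, fun h0 => ?_⟩
    have h0' : 0 < (ofGlob E (S.ar k)).tdim (j k) := by rw [hd]; exact h0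
    obtain ⟨n1, n2⟩ := m3 h0'
    refine ⟨n1.trans ?_, n2.trans ?_⟩
    · show ((ofGlob E (S.ar k)).tsrc (j k)).bind _ = trans j ((S.bs k).bind δ)
      rw [hj.src k hk, trans_bind]
      rfl
    · show ((ofGlob E (S.ar k)).ttgt (j k)).bind _ = trans j ((S.bt k).bind δ)
      rw [hj.tgt k hk, trans_bind]
      rfl

theorem compI_good [hE : E.Good] {b : Interp E S} {c : Interp S R} (hb : b.Good) (hc : c.Good) :
    (compI b c).Good := by
  have key := fun k hk => trans_mapAt hc (ofGlob S (E.ar k)) (b k) (hb.ok k hk)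
  have hpos : ∀ k, E.kok k → 0 < (ofGlob S (E.ar k)).m.toGlob.dim (b k) := fun k hk => by
    show 0 < (ofGlob S (E.ar k)).tdim (b k)
    rw [hb.dim k hk]
    exact hE.dm_pos k hk
  refine ⟨fun k hk => (key k hk).1, fun k hk => (key k hk).2.1.trans (hb.dim k hk),
    fun k hk => ?_, fun k hk => ?_⟩
  · rw [trans_comp, ← hb.src k hk]
    exact ((key k hk).2.2 (hpos k hk)).1
  · rw [trans_comp, ← hb.tgt k hk]
    exact ((key k hk).2.2 (hpos k hk)).2

theorem tr_good [S.Good] {j : Interp S E} (hj : j.Good) (X : Cptd S) [hX : X.Good] :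
    (X.tr j).Good := by
  have ks := fun v h h0 => trans_mapAt hj X (X.src v) (hX.ok_src v h h0)
  have kt := fun v h h0 => trans_mapAt hj X (X.tgt v) (hX.ok_tgt v h h0)
  refine ⟨fun v h h0 => (ks v h h0).1, fun v h h0 => (kt v h h0).1, fun v h h0 => ?_,
    fun v h h0 => ?_, fun v h h1 => ?_, fun v h h1 => ?_⟩
  · exact (congrArg (· + 1) (ks v h h0).2.1).trans (hX.dim_src v h h0)
  · exact (congrArg (· + 1) (kt v h h0).2.1).trans (hX.dim_tgt v h h0)
  · have h0 : 0 < X.dim v := by
      have h1' : 1 < X.dim v := h1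
      omega
    have hds := hX.dim_src v h h0
    have hdt := hX.dim_tgt v h h0
    have h1' : 1 < X.dim v := h1
    have hs : 0 < X.m.toGlob.dim (X.src v) := by
      show 0 < X.tdim (X.src v)
      omega
    have ht : 0 < X.m.toGlob.dim (X.tgt v) := by
      show 0 < X.tdim (X.tgt v)
      omega
    exact ((kt v h h0).2.2 ht).1.trans ((congrArg (trans j) (hX.src_tgt v h h1)).trans
      ((ks v h h0).2.2 hs).1.symm)
  · have h0 : 0 < X.dim v := by
      have h1' : 1 < X.dim v := h1
      omega
    have hds := hX.dim_src v h h0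
    have hdt := hX.dim_tgt v h h0
    have h1' : 1 < X.dim v := h1
    have hs : 0 < X.m.toGlob.dim (X.src v) := by
      show 0 < X.tdim (X.src v)
      omega
    have ht : 0 < X.m.toGlob.dim (X.tgt v) := by
      show 0 < X.tdim (X.tgt v)
      omega
    exact ((ks v h h0).2.2 hs).2.trans ((congrArg (trans j) (hX.tgt_src v h h1)).trans
      ((kt v h h0).2.2 ht).2.symm)

/-- back translation, when `q` is a retraction of `j` -/
theorem trans_mapAt_back {j : Interp S E} {q : Interp E S} (hq : q.Good)
    (hqj : ∀ k, trans q (j k) = .op k .var) (X : Cptd S) (t : E.T X.V) (ht : (X.tr j).tok t) :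
    MapAt (X.tr j).m.toGlob X.m.toGlob (trans q) t := by
  induction t with
  | var v =>
    exact ⟨ht, rfl, fun _ => ⟨(trans_retract hqj (X.src v)).symm,
      (trans_retract hqj (X.tgt v)).symm⟩⟩
  | op k δ ih =>
    obtain ⟨hk, hδ⟩ := ht
    have key : ∀ p, MapAt (E.ar k) X.m.toGlob (fun p => trans q (δ p)) p := by
      intro p
      obtain ⟨h1, h2, h3⟩ := hδ p
      obtain ⟨i1, i2, i3⟩ := ih p h1
      refine ⟨i1, i2.trans h2, fun hp => ?_⟩
      obtain ⟨j1, j2⟩ := h3 hp
      have hp' : 0 < (X.tr j).tdim (δ p) := by rw [h2]; exact hp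
      obtain ⟨k1, k2⟩ := i3 hp'
      exact ⟨k1.trans (congrArg (trans q) j1), k2.trans (congrArg (trans q) j2)⟩
    obtain ⟨m1, m2, m3⟩ := eval_mapAt (X := ofGlob S (E.ar k)) (M := X.m)
      (γ := fun p => trans q (δ p)) (fun p _ => key p) (q k) (hq.ok k hk)
    have hd : (ofGlob S (E.ar k)).tdim (q k) = E.dm k := hq.dim k hk
    refine ⟨m1, m2.trans hd, fun h0 => ?_⟩
    have h0' : 0 < (ofGlob S (E.ar k)).tdim (q k) := by rw [hd]; exact h0
    obtain ⟨n1, n2⟩ := m3 h0'
    refine ⟨n1.trans ?_, n2.trans ?_⟩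
    · show ((ofGlob S (E.ar k)).tsrc (q k)).bind _ = trans q ((E.bs k).bind δ)
      rw [hq.src k hk, trans_bind]
      rfl
    · show ((ofGlob S (E.ar k)).ttgt (q k)).bind _ = trans q ((E.bt k).bind δ)
      rw [hq.tgt k hk, trans_bind]
      rfl

/-- units, identities between translated computads -/
theorem ofGlob_tr (j : Interp S E) (G : Glob) : (ofGlob S G).tr j = ofGlob E G := rfl

theorem Cptd.ext' {E : Sig} {V : Type} {ok : V → Prop} {dim : V → ℕ} {s s' t t' : V → E.T V}
    (hs : ∀ v, s v = s' v) (ht : ∀ v, t v = t' v) :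
    (⟨V, ok, dim, s, t⟩ : Cptd E) = ⟨V, ok, dim, s', t'⟩ := by
  have h1 : s = s' := funext hs
  have h2 : t = t' := funext ht
  rw [h1, h2]

theorem Cptd.ext'' {E : Sig} {V : Type} {ok ok' : V → Prop} {dim dim' : V → ℕ}
    {s s' t t' : V → E.T V} (ho : ∀ v, ok v = ok' v) (hd : ∀ v, dim v = dim' v)
    (hs : ∀ v, s v = s' v) (ht : ∀ v, t v = t' v) :
    (⟨V, ok, dim, s, t⟩ : Cptd E) = ⟨V, ok', dim', s', t'⟩ := by
  have h1 : s = s' := funext hs
  have h2 : t = t' := funext ht
  have h3 : ok = ok' := funext ho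
  have h4 : dim = dim' := funext hd
  rw [h1, h2, h3, h4]

theorem trans_tp (j : Interp S E) (a : Glob) (N : ℕ) (p : a.C) :
    trans j (tpG S a N p) = tpG E a N p := by
  unfold tpG tp
  split
  · rfl
  · rfl

theorem CylG_tr (j : Interp S E) (x : XFam S) (a : Glob) (N J : ℕ) :
    (CylG x a N J).tr j = CylG (fun i => trans j (x i)) a N J := by
  have h0 : ∀ v, (CylG x a N J).ok v = (CylG (fun i => trans j (x i)) a N J).ok v := by
    intro v
    cases v <;> rfl
  have h1 : ∀ v, (CylG x a N J).dim v = (CylG (fun i => trans j (x i)) a N J).dim v := by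
    intro v
    cases v <;> rfl
  refine Cptd.ext'' h0 h1 (fun v => ?_) (fun v => ?_)
  · cases v with
    | z p => rfl
    | top p => exact trans_tp j a N _
    | cyl p =>
      show trans j ((x (a.dim p)).bind _) = _
      rw [trans_bind]
      congr 1
      funext v
      cases v with
      | z q => rfl
      | top q => exact trans_tp j a N _
      | cyl q => rfl
  · cases v with
    | z p => rfl
    | top p => exact trans_tp j a N _
    | cyl p => rfl

theorem Cyl0_tr (j : Interp S E) (x : XFam S) (W : Glob) :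
    (Cyl0 x W).tr j = Cyl0 (fun i => trans j (x i)) W := by
  refine Cptd.ext' (fun v => ?_) (fun v => ?_)
  · cases v with
    | z p => rfl
    | top p => rfl
    | cyl p =>
      show trans j ((x (W.dim p)).bind _) = _
      rw [trans_bind]
      congr 1
      funext v
      cases v with
      | z q => rfl
      | top q => rfl
      | cyl q => rfl
  · cases v with
    | z p => rfl
    | top p => rfl
    | cyl p => rfl

theorem exp_tr (j : Interp S E) (X : Cptd S) {I : Type} (okI : I → Prop) (n : ℕ) (b : I → X.V) :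
    (X.exp okI n (fun i => .var (b i))).tr j = (X.tr j).exp okI n (fun i => .var (b i)) := by
  have h0 : ∀ v, ((X.exp okI n (fun i => .var (b i))).tr j).ok v =
      ((X.tr j).exp okI n (fun i => .var (b i))).ok v := by
    intro v
    cases v <;> rfl
  have h1 : ∀ v, ((X.exp okI n (fun i => .var (b i))).tr j).dim v =
      ((X.tr j).exp okI n (fun i => .var (b i))).dim v := by
    intro v
    cases v <;> rfl
  refine Cptd.ext'' h0 h1 (fun v => ?_) (fun v => ?_)
  · cases v with
    | z p => exact trans_map j _ _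
    | top p => exact trans_map j _ _
    | cyl p => rfl
  · cases v with
    | z p => exact trans_map j _ _
    | top p => exact trans_map j _ _
    | cyl p => rfl

theorem Zc_tr (j : Interp S E) (x : XFam S) (i : ℕ) :
    (Zc x i).tr j = Zc (fun i => trans j (x i)) i := by
  have h1 : ∀ {F : Sig}, (fun b : Bool => if b then (.var (.top (i, false)) : F.T (CV D D))
      else .var (.z (i, false))) = fun b => .var (if b then .top (i, false) else .z (i, false)) := by
    intro F
    funext b
    cases b <;> rfl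
  unfold Zc
  refine (congrArg (fun b => ((CylG x (diskG i) 0 (i + 1)).exp (fun _ : Bool => True) i b).tr j)
    h1).trans ?_
  refine (exp_tr j (CylG x (diskG i) 0 (i + 1)) (fun _ : Bool => True) i
    (fun b => if b then .top (i, false) else .z (i, false))).trans ?_
  have h2 : ∀ Y Y' : Cptd E, Y = Y' → ∀ (hY : Y.V = CV D D) (hY' : Y'.V = CV D D),
      Y.exp (fun _ : Bool => True) i (fun b => .var (cast hY.symm
        (if b then .top (i, false) else .z (i, false)))) =
      Y'.exp (fun _ : Bool => True) i (fun b => .var (cast hY'.symm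
        (if b then .top (i, false) else .z (i, false)))) := by
    intro Y Y' h hY hY'
    subst h
    rfl
  refine (h2 _ _ (CylG_tr j x (diskG i) 0 (i + 1)) rfl rfl).trans ?_
  exact (congrArg (fun b => (CylG (fun i => trans j (x i)) (diskG i) 0 (i + 1)).exp
    (fun _ : Bool => True) i b) h1).symm

end HH
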