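import Pool.Agent.HH.Defs2
import Pool.Agent.HH.Bd
import Pool.Agent.HH.CSLem
import Pool.Agent.HH.CylUP
import Pool.Agent.HH.DiskOp
import Pool.Agent.HH.Interp
import Pool.Agent.HH.Cyl0UP
import Pool.Agent.HH.Ext2F
import Pool.Agent.HH.Ext2
import Pool.Agent.HH.Acc
set_option autoImplicit false
namespace HH
open Classical CategoryTheory
variable {S E R : Sig}

/-! ## c11 UnitH0 -/

/-- `w` is equal to a variable of `t` or below one -/
def unitH0_Below (X : Cptd E) (w : X.V) (t : E.T X.V) : Prop :=
  ∃ v, t.HasVar v ∧ (w = v ∨ Relation.TransGen X.varLt w v)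

theorem unitH0_below_src {X : Cptd E} {t : E.T X.V} (h0 : 0 < X.tdim t) {w : X.V}
    (h : unitH0_Below X w (X.tsrc t)) : unitH0_Below X w t := by
  obtain ⟨v, hv, hw⟩ := h
  cases t with
  | var u =>
    have h1 : X.varLt v u := ⟨h0, Or.inl hv⟩
    refine ⟨u, rfl, Or.inr ?_⟩
    rcases hw with rfl | hw
    · exact .single h1
    · exact hw.tail h1
  | op k γ =>
    obtain ⟨p, _, hp⟩ := ext2F_hasVar_bind (t := E.bs k) (γ := γ) hv
    exact ⟨v, ⟨p, hp⟩, hw⟩

theorem unitH0_below_tgt {X : Cptd E} {t : E.T X.V} (h0 : 0 < X.tdim t) {w : X.V}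
    (h : unitH0_Below X w (X.ttgt t)) : unitH0_Below X w t := by
  obtain ⟨v, hv, hw⟩ := h
  cases t with
  | var u =>
    have h1 : X.varLt v u := ⟨h0, Or.inr hv⟩
    refine ⟨u, rfl, Or.inr ?_⟩
    rcases hw with rfl | hw
    · exact .single h1
    · exact hw.tail h1
  | op k γ =>
    obtain ⟨p, _, hp⟩ := ext2F_hasVar_bind (t := E.bt k) (γ := γ) hv
    exact ⟨v, ⟨p, hp⟩, hw⟩

/-- the variables of the iterated boundaries of `t` are below those of `t` -/
theorem unitH0_below_bd [E.Good] {X : Cptd E} [X.Good] {t : E.T X.V} (ht : X.tok t) (q : D)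
    {w : X.V} (h : unitH0_Below X w (X.m.toGlob.bd t q)) : unitH0_Below X w t := by
  have key : ∀ k : ℕ, ∀ t : E.T X.V, X.tok t → k ≤ X.tdim t →
      unitH0_Below X w ((if q.2 then X.m.tgt else X.m.src)^[k] t) → unitH0_Below X w t := by
    intro k
    induction k with
    | zero => exact fun t _ _ h => h
    | succ k ih =>
      intro t ht hk h
      rw [Function.iterate_succ_apply] at h
      have h0 : 0 < X.tdim t := by omega
      cases hq : q.2 with
      | false =>
        rw [hq] at h ih
        simp only [Bool.false_eq_true, if_false] at h ih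
        have h1 := Glob.Laws.dim_src (G := X.m.toGlob) t ht h0
        have h1' : X.tdim (X.tsrc t) + 1 = X.tdim t := h1
        exact unitH0_below_src h0 (ih (X.tsrc t) (Glob.Laws.ok_src (G := X.m.toGlob) t ht h0)
          (by omega) h)
      | true =>
        rw [hq] at h ih
        simp only [if_true] at h ih
        have h1 := Glob.Laws.dim_tgt (G := X.m.toGlob) t ht h0
        have h1' : X.tdim (X.ttgt t) + 1 = X.tdim t := h1
        exact unitH0_below_tgt h0 (ih (X.ttgt t) (Glob.Laws.ok_tgt (G := X.m.toGlob) t ht h0)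
          (by omega) h)
  exact key (X.tdim t - q.1) t ht (Nat.sub_le _ _) h

/-- the variables of the proper iterated boundaries of a variable are strictly below it -/
theorem unitH0_bd_var [E.Good] {X : Cptd E} [X.Good] {v : X.V} (hv : X.ok v) {q : D}
    (hq : q.1 < X.dim v) {w : X.V} (h : (X.m.toGlob.bd (.var v) q).HasVar w) :
    Relation.TransGen X.varLt w v := by
  have h0 : 0 < X.dim v := by omega
  have key : ∀ k : ℕ, k + 1 ≤ X.dim v →
      ((if q.2 then X.m.tgt else X.m.src)^[k + 1] (.var v : E.T X.V)).HasVar w →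
      Relation.TransGen X.varLt w v := by
    intro k hk h
    rw [Function.iterate_succ_apply] at h
    cases hq2 : q.2 with
    | false =>
      rw [hq2] at h
      simp only [Bool.false_eq_true, if_false] at h
      have ho : X.tok (X.src v) := Cptd.Good.ok_src v hv h0
      have hd := Cptd.Good.dim_src v hv h0
      have h1 : X.m.toGlob.bd (X.src v) (X.tdim (X.src v) - k, false) =
          X.m.src^[k] (X.src v) := by
        unfold Glob.bd
        simp only [Bool.false_eq_true, if_false]
        congr 1
        change X.tdim (X.src v) - (X.tdim (X.src v) - k) = k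
        omega
      have h2 : (X.m.toGlob.bd (X.src v) (X.tdim (X.src v) - k, false)).HasVar w := by
        rw [h1]; exact h
      obtain ⟨u, hu, hw⟩ := unitH0_below_bd ho _ ⟨w, h2, Or.inl rfl⟩
      have h3 : X.varLt u v := ⟨h0, Or.inl hu⟩
      rcases hw with rfl | hw
      · exact .single h3
      · exact hw.tail h3
    | true =>
      rw [hq2] at h
      simp only [if_true] at h
      have ho : X.tok (X.tgt v) := Cptd.Good.ok_tgt v hv h0
      have hd := Cptd.Good.dim_tgt v hv h0
      have h1 : X.m.toGlob.bd (X.tgt v) (X.tdim (X.tgt v) - k, true) =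
          X.m.tgt^[k] (X.tgt v) := by
        unfold Glob.bd
        simp only [if_true]
        congr 1
        change X.tdim (X.tgt v) - (X.tdim (X.tgt v) - k) = k
        omega
      have h2 : (X.m.toGlob.bd (X.tgt v) (X.tdim (X.tgt v) - k, true)).HasVar w := by
        rw [h1]; exact h
      obtain ⟨u, hu, hw⟩ := unitH0_below_bd ho _ ⟨w, h2, Or.inl rfl⟩
      have h3 : X.varLt u v := ⟨h0, Or.inr hu⟩
      rcases hw with rfl | hw
      · exact .single h3
      · exact hw.tail h3
  refine key (X.dim v - q.1 - 1) (by omega) ?_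
  have : X.dim v - q.1 - 1 + 1 = X.dim v - q.1 := by omega
  rw [this]
  exact h

/-- `cs` at a variable only depends on the data strictly below -/
theorem unitH0_cs_congr [E.Good] {x : XFam E} (hx : ∀ j, XGoodAt x 0 j) {b : Interp E E}
    {Q : QFam E} {X : Cptd E} [X.Good] {M : Model E} {α β e β' e' : X.V → M.C} {v : X.V}
    (hv : X.ok v)
    (hβ : ∀ w, Relation.TransGen X.varLt w v → β w = β' w)
    (he : ∀ w, Relation.TransGen X.varLt w v → e w = e' w) :
    cs M x X.m.toGlob (M.eval α) (fun t => M.eval β (trans b t)) (ext2 M b Q α β e) (.var v) =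
      cs M x X.m.toGlob (M.eval α) (fun t => M.eval β' (trans b t)) (ext2 M b Q α β' e')
        (.var v) := by
  refine cs_congr (N := 0) (hx (X.dim v)).1 (fun _ _ => rfl) ?_ ?_
  · intro q _ hq
    refine ext2F_eval_congr _ fun w hw => hβ w ?_
    exact unitH0_bd_var hv hq (ext2F_hasVar_trans hw)
  · intro q _ hq
    refine ext2_congr _ (fun _ _ => rfl) (fun _ _ => rfl) ?_ ?_
    · rintro w (hw | hw)
      · exact hβ w (unitH0_bd_var hv hq hw)
      · exact hβ w (unitH0_bd_var hv hq (ext2F_hasVar_trans hw))
    · intro w hw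
      exact he w (unitH0_bd_var hv hq hw)

theorem unitH0_irrefl {I : Type} {r : I → I → Prop} {a : I} (h : Acc r a) : ¬ r a a := by
  induction h with
  | intro x _ ih => exact fun hx => ih x hx hx

/-- the unit of a cell -/
theorem unitH0_unit {d : L0 E} (hd : d.Good) {M : Model E} [M.OpLaws] [M.toGlob.Laws] {y : M.C}
    (hy : M.ok y) {j : ℕ} (hj : M.dim y = j) :
    M.ok (atCell M (d.un j) y) ∧ M.dim (atCell M (d.un j) y) = j + 1 ∧
      M.src (atCell M (d.un j) y) = y ∧ M.tgt (atCell M (d.un j) y) = y := by
  obtain ⟨h1, h2, h3⟩ := atCell_mapAt hy hj (hd.un_ok j)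
  obtain ⟨h4, h5⟩ := h3 (lt_of_lt_of_eq (Nat.succ_pos j) (hd.un_dim j).symm)
  have h6 : M.toGlob.bd y (j, false) = y := bd_of_le _ _ hj.le
  exact ⟨h1, h2.trans (hd.un_dim j), h4.trans ((congrArg _ (hd.un_src j)).trans h6),
    h5.trans ((congrArg _ (hd.un_tgt j)).trans h6)⟩

theorem exists_unitH0 [E.Good] {d : L0 E} (hd : d.Good) {b : Interp E E} (hb : b.Good)
    {Q : QFam E} (hQ : Q2Good d.x b Q) {X : Cptd E} [hX' : X.Good] (hX : X.WF)
    (hbX : ∀ v, X.ok v → trans b (X.src v) = X.src v ∧ trans b (X.tgt v) = X.tgt v)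
    {M : Model E} [M.OpLaws] [M.toGlob.Laws] {α : X.V → M.C}
    (hα : ∀ v, X.ok v → AsgAt X M α v) :
    ∃ β e : X.V → M.C, (∀ v, X.ok v → AsgAt X M β v) ∧
      IsCyl0 d.x X.m.toGlob M (M.eval α) (fun t => M.eval β (trans b t)) (ext2 M b Q α β e) := by
  have hpull : ∀ (β : X.V → M.C) (v : X.V), X.ok v → AsgAt X M β v → AsgAt X (M.pull b) β v := by
    intro β v hv h
    obtain ⟨h1, h2, h3⟩ := h
    refine ⟨h1, h2, fun h0 => ?_⟩
    rw [pull_eval, pull_eval, (hbX v hv).1, (hbX v hv).2]
    exact h3 h0
  rcases isEmpty_or_nonempty X.V with hV | ⟨⟨v0⟩⟩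
  · exact ⟨α, α, hα, ext2_isCyl0 hd.hx hb hQ hα (fun v => (hV.false v).elim)
      (fun v => (hV.false v).elim)⟩
  have : Nonempty (M.C × M.C) := ⟨(α v0, α v0)⟩
  obtain ⟨t, ht⟩ := exists_of_acc (I := X.V) X.varLt (T := fun _ => M.C × M.C) X.ok
    (fun v hv => hX v hv)
    (by
      rintro v w hv ⟨h0, hw⟩
      rcases hw with hw | hw
      · exact hasVar_ok (hX'.ok_src v hv h0) hw
      · exact hasVar_ok (hX'.ok_tgt v hv h0) hw)
    (fun v t => AsgAt X M (fun w => (t w).1) v ∧
      CylAt M d.x X.m.toGlob (M.eval α) (fun s => M.eval (fun w => (t w).1) (trans b s))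
        (ext2 M b Q α (fun w => (t w).1) (fun w => (t w).2)) (.var v))
    (by
      intro v t t' hv hlow hvv hP
      obtain ⟨⟨p1, p2, p3⟩, q1, q2, q3, q4⟩ := hP
      have hβ : ∀ w, Relation.TransGen X.varLt w v →
          (fun w => (t w).1) w = (fun w => (t' w).1) w :=
        fun w hw => congrArg Prod.fst (hlow w hw)
      have he : ∀ w, Relation.TransGen X.varLt w v →
          (fun w => (t w).2) w = (fun w => (t' w).2) w :=
        fun w hw => congrArg Prod.snd (hlow w hw)
      have hv1 : (t' v).1 = (t v).1 := congrArg Prod.fst hvv.symm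
      have hv2 : (t' v).2 = (t v).2 := congrArg Prod.snd hvv.symm
      refine ⟨⟨?_, ?_, fun h0 => ⟨?_, ?_⟩⟩, ?_, ?_, ?_, ?_⟩
      · change M.ok (t' v).1
        rw [hv1]; exact p1
      · change M.dim (t' v).1 = _
        rw [hv1]; exact p2
      · change M.src (t' v).1 = _
        rw [hv1]
        refine (p3 h0).1.trans ?_
        exact ext2F_eval_congr (X.src v) fun w hw => hβ w (.single ⟨h0, Or.inl hw⟩)
      · change M.tgt (t' v).1 = _
        rw [hv1]
        refine (p3 h0).2.trans ?_
        exact ext2F_eval_congr (X.tgt v) fun w hw => hβ w (.single ⟨h0, Or.inr hw⟩)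
      · change M.ok (t' v).2
        rw [hv2]; exact q1
      · change M.dim (t' v).2 = _
        rw [hv2]; exact q2
      · change M.src (t' v).2 = _
        rw [hv2]
        exact q3.trans (unitH0_cs_congr hd.hx hv hβ he)
      · change M.tgt (t' v).2 = (t' v).1
        rw [hv2, hv1]; exact q4)
    (by
      intro v t hv hlow
      have hne : ∀ w, Relation.TransGen X.varLt w v → w ≠ v := by
        rintro w hw rfl
        have hacc : Acc (Relation.TransGen X.varLt) w := (hX w hv).transGen
        exact unitH0_irrefl hacc hw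
      -- the variables of proper boundaries of `v`
      have hcyl : ∀ r : D, r.1 < X.dim v → CylAt M d.x X.m.toGlob (M.eval α)
          (fun s => M.eval (fun w => (t w).1) (trans b s))
          (ext2 M b Q α (fun w => (t w).1) (fun w => (t w).2)) (X.m.toGlob.bd (.var v) r) := by
        intro r hr
        have hok : X.tok (X.m.toGlob.bd (.var v) r) := ok_bd (G := X.m.toGlob) (x := .var v) hv r
        refine ext2_cylAt hd.hx hb hok (fun k hk => hQ k (hasOp_ok hok hk))
          (fun w hw => hα w (hasVar_ok hok hw)) (fun w hw => ?_) (fun w hw => ?_)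
        · exact hpull _ w (hasVar_ok hok hw) (hlow w (unitH0_bd_var hv hr hw)).1
        · exact (hlow w (unitH0_bd_var hv hr hw)).2
      have hβm : ∀ r : D, r.1 < X.dim v → MapAt X.m.toGlob M.toGlob
          (fun s => M.eval (fun w => (t w).1) (trans b s)) (X.m.toGlob.bd (.var v) r) := by
        intro r hr
        have hok : X.tok (X.m.toGlob.bd (.var v) r) := ok_bd (G := X.m.toGlob) (x := .var v) hv r
        have := @pull_opLaws E E _ b hb M _
        have h1 := eval_mapAt_occ (M := M.pull b) (γ := fun w => (t w).1)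
          (t := X.m.toGlob.bd (.var v) r) (fun w hw => hpull _ w (hasVar_ok hok hw)
          (hlow w (unitH0_bd_var hv hr hw)).1) hok
        have h2 : (M.pull b).eval (fun w => (t w).1) =
            fun s : E.T X.V => M.eval (fun w => (t w).1) (trans b s) := by
          funext s
          exact pull_eval b M _ s
        rw [h2] at h1
        exact h1
      obtain ⟨c1, c2, c3⟩ := Cyl0UP_cs hd.hx (W := X.m.toGlob) (p := .var v) (M := M)
        (α := M.eval α) (β := fun s => M.eval (fun w => (t w).1) (trans b s))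
        (e := ext2 M b Q α (fun w => (t w).1) (fun w => (t w).2)) hv
        (fun r _ => eval_mapAt hα _ (ok_bd (G := X.m.toGlob) (x := .var v) hv r)) hβm hcyl
      obtain ⟨u1, u2, u3, u4⟩ := unitH0_unit hd c1 c2
      set y := cs M d.x X.m.toGlob (M.eval α) (fun s => M.eval (fun w => (t w).1) (trans b s))
        (ext2 M b Q α (fun w => (t w).1) (fun w => (t w).2)) (.var v) with hy
      set u := atCell M (d.un (X.m.toGlob.dim (.var v))) y with hu
      refine ⟨fun w => if w = v then (y, u) else t w, fun w hw => if_neg (hne w hw), ?_⟩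
      have hv0 : (if v = v then (y, u) else t v) = (y, u) := if_pos rfl
      have hβ : ∀ w, Relation.TransGen X.varLt w v →
          (fun w => (t w).1) w = (fun w => (if w = v then (y, u) else t w).1) w := by
        intro w hw
        change (t w).1 = (if w = v then (y, u) else t w).1
        rw [if_neg (hne w hw)]
      have he : ∀ w, Relation.TransGen X.varLt w v →
          (fun w => (t w).2) w = (fun w => (if w = v then (y, u) else t w).2) w := by
        intro w hw
        change (t w).2 = (if w = v then (y, u) else t w).2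
        rw [if_neg (hne w hw)]
      refine ⟨⟨?_, ?_, fun h0 => ⟨?_, ?_⟩⟩, ?_, ?_, ?_, ?_⟩
      · change M.ok (if v = v then (y, u) else t v).1
        rw [hv0]; exact c1
      · change M.dim (if v = v then (y, u) else t v).1 = _
        rw [hv0]; exact c2
      · change M.src (if v = v then (y, u) else t v).1 = _
        rw [hv0]
        refine (c3 h0).1.trans ?_
        change M.eval (fun w => (t w).1) (trans b (X.src v)) = _
        rw [(hbX v hv).1]
        exact ext2F_eval_congr (X.src v) fun w hw => hβ w (.single ⟨h0, Or.inl hw⟩)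
      · change M.tgt (if v = v then (y, u) else t v).1 = _
        rw [hv0]
        refine (c3 h0).2.trans ?_
        change M.eval (fun w => (t w).1) (trans b (X.tgt v)) = _
        rw [(hbX v hv).2]
        exact ext2F_eval_congr (X.tgt v) fun w hw => hβ w (.single ⟨h0, Or.inr hw⟩)
      · change M.ok (if v = v then (y, u) else t v).2
        rw [hv0]; exact u1
      · change M.dim (if v = v then (y, u) else t v).2 = _
        rw [hv0]; exact u2
      · change M.src (if v = v then (y, u) else t v).2 = _
        rw [hv0]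
        exact u3.trans (unitH0_cs_congr hd.hx hv hβ he)
      · change M.tgt (if v = v then (y, u) else t v).2 = (if v = v then (y, u) else t v).1
        rw [hv0]; exact u4)
  exact ⟨fun w => (t w).1, fun w => (t w).2, fun v hv => (ht v hv).1,
    ext2_isCyl0 hd.hx hb hQ hα (fun v hv => hpull _ v hv (ht v hv).1)
      (fun v hv => (ht v hv).2)⟩

end HH
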