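import Pool.Agent.HH.QEx2
import Pool.Agent.HH.UnitH0
import Pool.Agent.HH.Trans0

/-!
# HH stage 2, module c14: contexts of `S` stay contractible in the extended signature
-/

set_option autoImplicit false

namespace HH

open Classical CategoryTheory

variable {S E R : Sig}

section ExContr
variable {A : Type} {G : A → Glob} {I : Type}

theorem exContr_conn {G H : Glob} {f : G.C → H.C} (hf : ∀ y, G.ok y → MapAt G H f y) {x y : G.C}
    (hx : G.ok x) (h : G.Conn x y) : H.Conn (f x) (f y) := by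
  obtain ⟨k, h1, h2, h3, h4⟩ := h
  obtain ⟨k1, k2, k3⟩ := hf k h1
  obtain ⟨k4, k5⟩ := k3 (lt_of_lt_of_eq (Nat.succ_pos _) h2.symm)
  refine ⟨f k, k1, k2.trans (h2.trans (congrArg (· + 1) (hf x hx).2.1.symm)), ?_, ?_⟩
  · exact k4.trans (congrArg f h3)
  · exact k5.trans (congrArg f h4)

/-- contexts of `S` stay contractible in the extended signature: the main step -/
theorem exContr_main [S.Good] [S.Strat] (laws : ∀ a, (G a).Laws)
    (full : ∀ a p, (G a).ok p) (ne : ∀ a, Nonempty (G a).C) {d : L0 S} (hd : d.Good)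
    (hQf : ∀ b : Interp (exSig S G I) (exSig S G I), b.Good →
      (∀ k : S.K, b (.inl k) = .op (.inl k) .var) →
      ∃ Q : QFam (exSig S G I), Q2Good (d.tr (jI S G I)).x b Q)
    (Y : Cptd S) [Y.Good]
    (hY : ∀ L, Y.MContr L) (L : ℕ) : (Y.tr (jI S G I)).MContr L := by
  have hE := exSig_good (I := I) laws full ne (S := S)
  have hj := jI_good (S := S) (G := G) (I := I)
  have hdd := L0.tr_good hj hd
  have hq := qI_good (I := I) laws full hd
  have hb : (compI (qI S G I d.un) (jI S G I)).Good := compI_good hq hj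
  have hbS : ∀ k : S.K, compI (qI S G I d.un) (jI S G I) (.inl k) = .op (.inl k) .var :=
    fun k => rfl
  obtain ⟨Q, hQ⟩ := hQf _ hb hbS
  have hXg : (Y.tr (jI S G I)).Good := tr_good hj Y
  have hXw : (Y.tr (jI S G I)).WF := tr_wf Y (Strat.cptd_wf Y)
  have hlaws : (Y.tr (jI S G I)).m.toGlob.Laws := m_laws _
  obtain ⟨β, e, hβ, H⟩ := exists_unitH0 hdd hb hQ hXw
    (fun v _ => ⟨qEx2_trans_up hbS (Y.src v), qEx2_trans_up hbS (Y.tgt v)⟩)
    (M := (Y.tr (jI S G I)).m) (α := Tm.var) (fun v hv => ⟨hv, rfl, fun _ =>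
      ⟨(Tm.bind_var_self _).symm, (Tm.bind_var_self _).symm⟩⟩)
  intro f g hfg _
  obtain ⟨hf, hg, hfgd, hfgb⟩ := id hfg
  have hqj : ∀ k, trans (qI S G I d.un) (jI S G I k) = .op k .var := q_j d.un
  have mf := trans_mapAt_back hq hqj Y f hf
  have mg := trans_mapAt_back hq hqj Y g hg
  have hpar : Y.Par (trans (qI S G I d.un) f) (trans (qI S G I d.un) g) := by
    refine ⟨mf.1, mg.1, mf.2.1.trans (hfgd.trans mg.2.1.symm), fun h0 => ?_⟩
    have h0' : 0 < (Y.tr (jI S G I)).tdim f := lt_of_lt_of_eq h0 mf.2.1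
    obtain ⟨a1, a2⟩ := mf.2.2 h0'
    obtain ⟨b1, b2⟩ := mg.2.2 (lt_of_lt_of_eq h0' hfgd)
    obtain ⟨c1, c2⟩ := hfgb h0'
    exact ⟨a1.trans ((congrArg _ c1).trans b1.symm), a2.trans ((congrArg _ c2).trans b2.symm)⟩
  have hc0 : Y.Conn (trans (qI S G I d.un) f) (trans (qI S G I d.un) g) :=
    hY _ _ _ hpar (Nat.lt_succ_self _)
  have hc1 := exContr_conn (fun t ht => trans_mapAt hj Y t ht) mf.1 hc0
  have hc2 := exContr_conn (G := (Y.tr (jI S G I)).m.toGlob) (H := (Y.tr (jI S G I)).m.toGlob)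
    (f := (Y.tr (jI S G I)).m.eval β) (fun t ht => eval_mapAt hβ t ht)
    (trans_mapAt hj Y _ mf.1).1 hc1
  have hc3 : (Y.tr (jI S G I)).m.toGlob.Conn
      ((Y.tr (jI S G I)).m.eval β (trans (compI (qI S G I d.un) (jI S G I)) f))
      ((Y.tr (jI S G I)).m.eval β (trans (compI (qI S G I d.un) (jI S G I)) g)) := by
    rw [trans_comp, trans_comp]
    exact hc2
  have hc4 := H.transport_rev hdd.hx hdd.hr hfg hc3
  have e1 : (Y.tr (jI S G I)).m.eval Tm.var f = f := Tm.bind_var_self f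
  have e2 : (Y.tr (jI S G I)).m.eval Tm.var g = g := Tm.bind_var_self g
  exact e1 ▸ e2 ▸ hc4

/-- contexts of `S` stay contractible in the extended signature -/
theorem ex_contr [S.Good] [S.Strat] (h : S.Hyp) (laws : ∀ a, (G a).Laws)
    (full : ∀ a p, (G a).ok p) (ne : ∀ a, Nonempty (G a).C) (Y : Cptd S) [Y.Good]
    (hY : ∀ L, Y.MContr L) (L : ℕ) : (Y.tr (jI S G I)).MContr L := by
  obtain ⟨d, hd⟩ := exists_L0 h
  exact exContr_main laws full ne hd (fun b hb hbS => exists_Q_fix h laws full ne hd hb hbS) Y hY L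

/-- level-0 data, cellularity and fillers for every twist of the extended signature -/
theorem ex_level0 [S.Good] [S.Strat] (h : S.Hyp) (laws : ∀ a, (G a).Laws)
    (full : ∀ a p, (G a).ok p) (ne : ∀ a, Nonempty (G a).C)
    (hG : ∀ a L, (ofGlob S (G a)).MContr L) :
    ∃ d : L0 (exSig S G I), d.Good ∧ ∀ b : Interp (exSig S G I) (exSig S G I), b.Good →
      ∃ Q, Q2Good d.x b Q := by
  have hE := exSig_good (I := I) laws full ne (S := S)
  obtain ⟨d, hd⟩ := exists_L0 h
  have hdd := L0.tr_good (jI_good (S := S) (G := G) (I := I)) hd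
  have key : ∀ (W : Glob) [W.Laws], (∀ L, (ofGlob S W).MContr L) → ∀ L,
      (Cyl0 (S := exSig S G I) (fun i => trans (jI S G I) (d.x i)) W).MContr L := by
    intro W _ hW L
    have : (Cyl0 d.x W).Good := Cyl0_good hd.hx
    have h1 := ex_contr (I := I) h laws full ne (Cyl0 d.x W) (Cyl0_contr h hd.hx hW) L
    exact (Cyl0_tr (jI S G I) d.x W) ▸ h1
  refine ⟨d.tr (jI S G I), hdd, fun b hb => exists_Q2 hdd.hx exSig_wf hb ?_⟩
  rintro (k | ⟨a, l, i, c⟩) hk L
  · have := Sig.Good.ar_laws k hk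
    exact key (S.ar k) (h _ (ArCl.ar k hk)) L
  · have := laws a
    exact key (G a) (hG a) L

end ExContr

end HH
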