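import Pool.Agent.HH.Interp
import Pool.Agent.HH.Acc
import Pool.Agent.HH.DiskOp

/-!
# HH stage 2, module c12: the extended signatures
-/

set_option autoImplicit false

namespace HH

open Classical

variable {S E : Sig}

section ExSig
variable {A : Type} {G : A → Glob} {I : Type}

theorem XT.toTm_ofTm {a : A} (t : (exSig S G I).T (G a).C) : (XT.ofTm t).toTm = t := by
  induction t with
  | var p => rfl
  | op k γ ih =>
    cases k with
    | inl k =>
      show Tm.op (Sum.inl k) (fun p => (XT.ofTm (γ p)).toTm) = Tm.op (Sum.inl k) γ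
      congr 1
      funext p
      exact ih p
    | inr k =>
      show Tm.op (Sum.inr k) (fun p => (XT.ofTm (γ p)).toTm) = Tm.op (Sum.inr k) γ
      congr 1
      funext p
      exact ih p

theorem XT.ofTm_toTm {a : A} (t : XT S G I a) : XT.ofTm t.toTm = t := by
  induction t with
  | var p => rfl
  | op k γ ih =>
    show XT.op k (fun p => XT.ofTm (γ p).toTm) = XT.op k γ
    congr 1
    funext p
    exact ih p
  | ex b a' l i γ _ ih =>
    show XT.ex b a' l i (fun p => XT.ofTm (γ p).toTm) = XT.ex b a' l i γ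
    congr 1
    funext p
    exact ih p

theorem ExSig_inj {a : A} {t t' : XT S G I a} (h : t.toTm = t'.toTm) : t = t' := by
  rw [← XT.ofTm_toTm t, h, XT.ofTm_toTm]

theorem ExSig_toTm_bind {a c : A} (t : XT S G I a) (γ : (G a).C → XT S G I c) :
    (t.bind γ).toTm = Tm.bind t.toTm (fun p => (γ p).toTm) := by
  induction t with
  | var p => rfl
  | op k δ ih =>
    show Tm.op (Sum.inl k) (fun p => ((δ p).bind γ).toTm) =
      Tm.op (Sum.inl k) (fun p => Tm.bind (δ p).toTm (fun p => (γ p).toTm))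
    congr 1
    funext p
    exact ih p γ
  | ex b a' l i δ _ ih =>
    show Tm.op (Sum.inr ⟨a', l, i, b⟩) (fun p => ((δ p).bind γ).toTm) =
      Tm.op (Sum.inr ⟨a', l, i, b⟩) (fun p => Tm.bind (δ p).toTm (fun p => (γ p).toTm))
    congr 1
    funext p
    exact ih p γ

theorem ExSig_toTm_sub {a : A} {V : Type} (s : S.T V) (γ : V → XT S G I a) :
    (XT.sub s γ).toTm = Tm.bind (upT s) (fun p => (γ p).toTm) := by
  induction s with
  | var v => rfl
  | op k δ ih =>
    show Tm.op (Sum.inl k) (fun p => (XT.sub (δ p) γ).toTm) =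
      Tm.op (Sum.inl k) (fun p => Tm.bind (upT (δ p)) (fun p => (γ p).toTm))
    congr 1
    funext p
    exact ih p

theorem XT.tdim_toTm {a : A} (t : XT S G I a) :
    (ofGlob (exSig S G I) (G a)).tdim t.toTm = t.dim := by
  cases t with
  | var p => rfl
  | op k γ => rfl
  | ex b a' l i γ => rfl

theorem XT.tsrc_toTm {a : A} (t : XT S G I a) :
    (ofGlob (exSig S G I) (G a)).tsrc t.toTm = t.src.toTm := by
  cases t with
  | var p => rfl
  | op k γ => exact (ExSig_toTm_sub (S.bs k) γ).symm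
  | ex b a' l i γ =>
    cases b with
    | false => exact (ExSig_toTm_bind l.src γ).symm
    | true => exact (ExSig_toTm_bind l γ).symm

theorem XT.ttgt_toTm {a : A} (t : XT S G I a) :
    (ofGlob (exSig S G I) (G a)).ttgt t.toTm = t.tgt.toTm := by
  cases t with
  | var p => rfl
  | op k γ => exact (ExSig_toTm_sub (S.bt k) γ).symm
  | ex b a' l i γ =>
    cases b with
    | false => exact (ExSig_toTm_bind l.tgt γ).symm
    | true => rfl

theorem XT.tok_toTm (full : ∀ a p, (G a).ok p) {a : A} (t : XT S G I a) :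
    (ofGlob (exSig S G I) (G a)).tok t.toTm ↔ t.ok := by
  induction t with
  | var p => exact Iff.rfl
  | @op a k γ ih =>
    refine and_congr Iff.rfl (forall_congr' fun p => and_congr (ih p) (and_congr ?_ ?_))
    · show (ofGlob (exSig S G I) (G a)).tdim (γ p).toTm = (S.ar k).dim p ↔ _
      rw [XT.tdim_toTm]
    · show (0 < (S.ar k).dim p → (ofGlob (exSig S G I) (G a)).tsrc (γ p).toTm =
          (γ ((S.ar k).src p)).toTm ∧
        (ofGlob (exSig S G I) (G a)).ttgt (γ p).toTm = (γ ((S.ar k).tgt p)).toTm) ↔ _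
      rw [XT.tsrc_toTm, XT.ttgt_toTm]
      constructor
      · intro h h0
        exact ⟨ExSig_inj (h h0).1, ExSig_inj (h h0).2⟩
      · intro h h0
        exact ⟨congrArg XT.toTm (h h0).1, congrArg XT.toTm (h h0).2⟩
  | @ex a b a' l i γ _ ih =>
    refine and_congr Iff.rfl (forall_congr' fun p => and_congr (ih p) (and_congr ?_ ?_))
    · show (ofGlob (exSig S G I) (G a)).tdim (γ p).toTm = (G a').dim p ↔ _
      rw [XT.tdim_toTm]
    · show (0 < (G a').dim p → (ofGlob (exSig S G I) (G a)).tsrc (γ p).toTm =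
          (γ ((G a').src p)).toTm ∧
        (ofGlob (exSig S G I) (G a)).ttgt (γ p).toTm = (γ ((G a').tgt p)).toTm) ↔ _
      rw [XT.tsrc_toTm, XT.ttgt_toTm]
      constructor
      · intro h h0
        exact ⟨ExSig_inj (h h0).1, ExSig_inj (h h0).2⟩
      · intro h h0
        exact ⟨congrArg XT.toTm (h h0).1, congrArg XT.toTm (h h0).2⟩

theorem trans_jI {V : Type} (t : S.T V) : trans (jI S G I) t = upT t := by
  induction t with
  | var v => rfl
  | op k γ ih =>
    exact congrArg (Tm.op (Sum.inl k)) (funext ih)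

theorem jI_good [S.Good] : (jI S G I).Good where
  ok := fun k hk => ⟨hk, fun p => ⟨Sig.Good.full k hk p, rfl, fun _ => ⟨rfl, rfl⟩⟩⟩
  dim := fun _ _ => rfl
  src := fun k _ => (Tm.bind_var_self (upT (S.bs k))).trans (trans_jI (S.bs k)).symm
  tgt := fun k _ => (Tm.bind_var_self (upT (S.bt k))).trans (trans_jI (S.bt k)).symm

/-- the conditions of `Sig.Good` for one operation -/
structure ExSigAt (E : Sig) (k : E.K) : Prop where
  ok_bs : (ofGlob E (E.ar k)).tok (E.bs k)
  ok_bt : (ofGlob E (E.ar k)).tok (E.bt k)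
  dim_bs : (ofGlob E (E.ar k)).tdim (E.bs k) + 1 = E.dm k
  dim_bt : (ofGlob E (E.ar k)).tdim (E.bt k) + 1 = E.dm k
  src_bt : 1 < E.dm k → (ofGlob E (E.ar k)).tsrc (E.bt k) = (ofGlob E (E.ar k)).tsrc (E.bs k)
  tgt_bs : 1 < E.dm k → (ofGlob E (E.ar k)).ttgt (E.bs k) = (ofGlob E (E.ar k)).ttgt (E.bt k)

/-- the globular identities at one term -/
structure ExSigTm (X : Cptd E) (t : E.T X.V) : Prop where
  ok_s : X.tok (X.tsrc t)
  ok_t : X.tok (X.ttgt t)
  dim_s : X.tdim (X.tsrc t) + 1 = X.tdim t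
  dim_t : X.tdim (X.ttgt t) + 1 = X.tdim t
  src_t : 1 < X.tdim t → X.tsrc (X.ttgt t) = X.tsrc (X.tsrc t)
  tgt_s : 1 < X.tdim t → X.ttgt (X.tsrc t) = X.ttgt (X.ttgt t)

/-- the globular identities at a term whose head satisfies the conditions -/
theorem ExSig_head {X : Cptd E} {k : E.K} {γ : (E.ar k).C → E.T X.V} (hk : ExSigAt E k)
    (ht : X.tok (.op k γ)) : ExSigTm X (.op k γ) := by
  have hs := eval_mapAt (X := ofGlob E (E.ar k)) (M := X.m) (γ := γ) (fun p _ => ht.2 p)
    (E.bs k) hk.ok_bs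
  have ht' := eval_mapAt (X := ofGlob E (E.ar k)) (M := X.m) (γ := γ) (fun p _ => ht.2 p)
    (E.bt k) hk.ok_bt
  have ds := hk.dim_bs
  have dt := hk.dim_bt
  refine ⟨hs.1, ht'.1, (congrArg (· + 1) hs.2.1).trans ds, (congrArg (· + 1) ht'.2.1).trans dt,
    fun h1 => ?_, fun h1 => ?_⟩
  · have h1' : 1 < E.dm k := h1
    have ha := (ht'.2.2 (by show 0 < (ofGlob E (E.ar k)).tdim (E.bt k); omega)).1
    have hb := (hs.2.2 (by show 0 < (ofGlob E (E.ar k)).tdim (E.bs k); omega)).1
    exact ha.trans ((congrArg (X.m.eval γ) (hk.src_bt h1')).trans hb.symm)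
  · have h1' : 1 < E.dm k := h1
    have ha := (hs.2.2 (by show 0 < (ofGlob E (E.ar k)).tdim (E.bs k); omega)).2
    have hb := (ht'.2.2 (by show 0 < (ofGlob E (E.ar k)).tdim (E.bt k); omega)).2
    exact ha.trans ((congrArg (X.m.eval γ) (hk.tgt_bs h1')).trans hb.symm)

theorem ExSig_var {G : Glob} [G.Laws] {p : G.C} (hp : G.ok p) (h0 : 0 < G.dim p) :
    ExSigTm (ofGlob E G) (.var p) :=
  ⟨Glob.Laws.ok_src p hp h0, Glob.Laws.ok_tgt p hp h0, Glob.Laws.dim_src p hp h0,
    Glob.Laws.dim_tgt p hp h0, fun h1 => congrArg Tm.var (Glob.Laws.src_tgt p hp h1),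
    fun h1 => congrArg Tm.var (Glob.Laws.tgt_src p hp h1)⟩

theorem ExSig_inl [S.Good] {k : S.K} (hk : S.kok k) : ExSigAt (exSig S G I) (.inl k) := by
  have hs : MapAt (ofGlob S (S.ar k)).m.toGlob (ofGlob (exSig S G I) (S.ar k)).m.toGlob
      (trans (jI S G I)) (S.bs k) := trans_mapAt (jI_good (S := S) (G := G) (I := I))
    (ofGlob S (S.ar k)) (S.bs k) (Sig.Good.ok_bs k hk)
  have ht : MapAt (ofGlob S (S.ar k)).m.toGlob (ofGlob (exSig S G I) (S.ar k)).m.toGlob
      (trans (jI S G I)) (S.bt k) := trans_mapAt (jI_good (S := S) (G := G) (I := I))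
    (ofGlob S (S.ar k)) (S.bt k) (Sig.Good.ok_bt k hk)
  have e1 : (exSig S G I).bs (.inl k) = trans (jI S G I) (S.bs k) := (trans_jI _).symm
  have e2 : (exSig S G I).bt (.inl k) = trans (jI S G I) (S.bt k) := (trans_jI _).symm
  have ds := Sig.Good.dim_bs k hk
  have dt := Sig.Good.dim_bt k hk
  constructor
  · rw [e1]; exact hs.1
  · rw [e2]; exact ht.1
  · rw [e1]; exact (congrArg (· + 1) hs.2.1).trans ds
  · rw [e2]; exact (congrArg (· + 1) ht.2.1).trans dt
  · intro h1
    have h1' : 1 < S.dm k := h1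
    have ha := (ht.2.2 (by show 0 < (ofGlob S (S.ar k)).tdim (S.bt k); omega)).1
    have hb := (hs.2.2 (by show 0 < (ofGlob S (S.ar k)).tdim (S.bs k); omega)).1
    rw [e1, e2]
    exact ha.trans ((congrArg (trans (jI S G I)) (Sig.Good.src_bt k hk h1')).trans hb.symm)
  · intro h1
    have h1' : 1 < S.dm k := h1
    have ha := (hs.2.2 (by show 0 < (ofGlob S (S.ar k)).tdim (S.bs k); omega)).2
    have hb := (ht.2.2 (by show 0 < (ofGlob S (S.ar k)).tdim (S.bt k); omega)).2
    rw [e1, e2]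
    exact ha.trans ((congrArg (trans (jI S G I)) (Sig.Good.tgt_bs k hk h1')).trans hb.symm)

theorem ExSig_inr [S.Good] (laws : ∀ a, (G a).Laws) (full : ∀ a p, (G a).ok p) {a : A}
    (l : XT S G I a) : l.ok → 0 < l.dim → ∀ i b, ExSigAt (exSig S G I) (.inr ⟨a, l, i, b⟩) := by
  -- from the globular identities at `l`
  have main : ∀ {a : A} (l : XT S G I a), l.ok → 0 < l.dim →
      ExSigTm (ofGlob (exSig S G I) (G a)) l.toTm →
      ∀ i b, ExSigAt (exSig S G I) (.inr ⟨a, l, i, b⟩) := by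
    intro a l hl h0 H i b
    have hd := XT.tdim_toTm l
    have hs := XT.tsrc_toTm l
    have ht := XT.ttgt_toTm l
    have hok := (XT.tok_toTm full l).2 hl
    cases b with
    | false =>
      have e1 : (exSig S G I).bs (.inr ⟨a, l, i, false⟩) =
          (ofGlob (exSig S G I) (G a)).tsrc l.toTm := hs.symm
      have e2 : (exSig S G I).bt (.inr ⟨a, l, i, false⟩) =
          (ofGlob (exSig S G I) (G a)).ttgt l.toTm := ht.symm
      have e3 : (exSig S G I).dm (.inr ⟨a, l, i, false⟩) =
          (ofGlob (exSig S G I) (G a)).tdim l.toTm := hd.symm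
      constructor
      · rw [e1]; exact H.ok_s
      · rw [e2]; exact H.ok_t
      · rw [e1, e3]; exact H.dim_s
      · rw [e2, e3]; exact H.dim_t
      · rw [e1, e2, e3]; exact H.src_t
      · rw [e1, e2, e3]; exact H.tgt_s
    | true =>
      have e1 : (exSig S G I).bs (.inr ⟨a, l, i, true⟩) = l.toTm := rfl
      have e2 : (exSig S G I).bt (.inr ⟨a, l, i, true⟩) =
          (Tm.op (Sum.inr ⟨a, l, i, false⟩ : exK S G I) Tm.var :
            Tm (exK S G I) (fun k => (exAr S G I k).C) (G a).C) := rfl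
      have e3 : (exSig S G I).dm (.inr ⟨a, l, i, true⟩) = l.dim + 1 := rfl
      have e4 : (ofGlob (exSig S G I) (G a)).tsrc
          (Tm.op (Sum.inr ⟨a, l, i, false⟩ : exK S G I) Tm.var :
            Tm (exK S G I) (fun k => (exAr S G I k).C) (G a).C) = l.src.toTm :=
        Tm.bind_var_self l.src.toTm
      have e5 : (ofGlob (exSig S G I) (G a)).ttgt
          (Tm.op (Sum.inr ⟨a, l, i, false⟩ : exK S G I) Tm.var :
            Tm (exK S G I) (fun k => (exAr S G I k).C) (G a).C) = l.tgt.toTm :=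
        Tm.bind_var_self l.tgt.toTm
      constructor
      · rw [e1]; exact hok
      · rw [e2]
        exact ⟨⟨hl, h0⟩, fun p => ⟨full a p, rfl, fun _ => ⟨rfl, rfl⟩⟩⟩
      · rw [e1, e3, ← hd]; rfl
      · rw [e2, e3]; rfl
      · intro _
        rw [e1, e2]
        exact e4.trans hs.symm
      · intro _
        rw [e1, e2]
        exact ht.trans e5.symm
  induction l with
  | @var a p =>
    intro hl h0
    have := laws a
    exact main _ hl h0 (ExSig_var hl h0)
  | @op a k γ _ =>
    intro hl h0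
    exact main _ hl h0 (ExSig_head (ExSig_inl hl.1) ((XT.tok_toTm full (XT.op k γ)).2 hl))
  | @ex a b a' l i γ ih _ =>
    intro hl h0
    exact main _ hl h0 (ExSig_head (ih hl.1.1 hl.1.2 i b)
      ((XT.tok_toTm full (XT.ex b a' l i γ)).2 hl))

theorem exSig_good [S.Good] (laws : ∀ a, (G a).Laws) (full : ∀ a p, (G a).ok p)
    (ne : ∀ a, Nonempty (G a).C) : (exSig S G I).Good := by
  have H : ∀ k, (exSig S G I).kok k → ExSigAt (exSig S G I) k := by
    rintro (k | ⟨a, l, i, b⟩) hk
    · exact ExSig_inl hk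
    · exact ExSig_inr laws full l hk.1 hk.2 i b
  exact {
    ar_ne := by
      rintro (k | ⟨a, l, i, b⟩)
      · exact Sig.Good.ar_ne k
      · exact ne a
    ar_laws := by
      rintro (k | ⟨a, l, i, b⟩) hk
      · exact Sig.Good.ar_laws k hk
      · exact laws a
    full := by
      rintro (k | ⟨a, l, i, b⟩) hk
      · exact Sig.Good.full k hk
      · exact full a
    dm_pos := by
      rintro (k | ⟨a, l, i, b⟩) hk
      · exact Sig.Good.dm_pos k hk
      · have h0 : 0 < l.dim := hk.2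
        show 0 < (if b then l.dim + 1 else l.dim)
        split_ifs
        · omega
        · exact h0
    ok_bs := fun k hk => (H k hk).ok_bs
    ok_bt := fun k hk => (H k hk).ok_bt
    dim_bs := fun k hk => (H k hk).dim_bs
    dim_bt := fun k hk => (H k hk).dim_bt
    src_bt := fun k hk => (H k hk).src_bt
    tgt_bs := fun k hk => (H k hk).tgt_bs }

theorem ExSig_hasOp_upT {V : Type} {s : S.T V} {k' : exK S G I}
    (h : Tm.HasOp k' (upT (G := G) (I := I) s)) : ∃ k, k' = .inl k ∧ s.HasOp k := by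
  induction s with
  | var v => exact absurd h id
  | op k γ ih =>
    rcases h with h | ⟨p, h⟩
    · exact ⟨k, h.symm, Or.inl rfl⟩
    · obtain ⟨k2, h1, h2⟩ := ih p h
      exact ⟨k2, h1, Or.inr ⟨p, h2⟩⟩

theorem ExSig_hasOp_bind {K : Type} {P : K → Type} {V W : Type} {t : Tm K P V}
    {γ : V → Tm K P W} {k : K} (h : (t.bind γ).HasOp k) : t.HasOp k ∨ ∃ v, (γ v).HasOp k := by
  induction t with
  | var v => exact Or.inr ⟨v, h⟩
  | op k' δ ih =>
    rcases h with h | ⟨p, h⟩
    · exact Or.inl (Or.inl h)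
    · rcases ih p h with h | h
      · exact Or.inl (Or.inr ⟨p, h⟩)
      · exact Or.inr h

theorem ExSig_acc_inl {k : S.K} (hk : Acc S.opLt k) : Acc (exSig S G I).opLt (.inl k) := by
  induction hk with
  | intro k _ ih =>
    refine ⟨_, fun k' hk' => ?_⟩
    rcases hk' with h | h
    · obtain ⟨k2, rfl, h2⟩ := ExSig_hasOp_upT h
      exact ih k2 (Or.inl h2)
    · obtain ⟨k2, rfl, h2⟩ := ExSig_hasOp_upT h
      exact ih k2 (Or.inr h2)

/-- the operations of the source and of the target of a term are accessible -/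
theorem ExSig_acc_st {G' : Glob} {t : E.T G'.C} (h : ∀ k, t.HasOp k → Acc E.opLt k) :
    (∀ k, Tm.HasOp k ((ofGlob E G').tsrc t) → Acc E.opLt k) ∧
      ∀ k, Tm.HasOp k ((ofGlob E G').ttgt t) → Acc E.opLt k := by
  cases t with
  | var p => exact ⟨fun k hk => absurd hk id, fun k hk => absurd hk id⟩
  | op k γ =>
    have hk := h k (Or.inl rfl)
    constructor
    · intro k' hk'
      rcases ExSig_hasOp_bind hk' with h1 | ⟨p, h1⟩
      · exact hk.inv (Or.inl h1)
      · exact h k' (Or.inr ⟨p, h1⟩)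
    · intro k' hk'
      rcases ExSig_hasOp_bind hk' with h1 | ⟨p, h1⟩
      · exact hk.inv (Or.inr h1)
      · exact h k' (Or.inr ⟨p, h1⟩)

theorem ExSig_acc_inr {a : A} {l : XT S G I a}
    (h : ∀ k, Tm.HasOp k l.toTm → Acc (exSig S G I).opLt k) (i : I) (b : Bool) :
    Acc (exSig S G I).opLt (.inr ⟨a, l, i, b⟩) := by
  obtain ⟨h1, h2⟩ := ExSig_acc_st (E := exSig S G I) (G' := G a) (t := l.toTm) h
  rw [XT.tsrc_toTm] at h1
  rw [XT.ttgt_toTm] at h2
  have hf : Acc (exSig S G I).opLt (.inr ⟨a, l, i, false⟩) := by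
    refine ⟨_, fun k' hk' => ?_⟩
    rcases hk' with hk | hk
    · exact h1 k' hk
    · exact h2 k' hk
  cases b with
  | false => exact hf
  | true =>
    refine ⟨_, fun k' hk' => ?_⟩
    rcases hk' with hk | hk
    · exact h k' hk
    · rcases hk with hk | ⟨p, hk⟩
      · rw [← hk]
        exact hf
      · exact absurd hk id

theorem exSig_wf [S.Good] [S.Strat] : (exSig S G I).WF := by
  have hl : ∀ {a : A} (l : XT S G I a), l.ok →
      ∀ k, Tm.HasOp k l.toTm → Acc (exSig S G I).opLt k := by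
    intro a l
    induction l with
    | var p => exact fun _ k hk => absurd hk id
    | op k γ ih =>
      intro hl k' hk'
      rcases hk' with h | ⟨p, h⟩
      · rw [← h]
        exact ExSig_acc_inl (Strat.sig_wf k hl.1)
      · exact ih p (hl.2 p).1 k' h
    | ex b a' l i γ ihl ih =>
      intro hl k' hk'
      rcases hk' with h | ⟨p, h⟩
      · rw [← h]
        exact ExSig_acc_inr (ihl hl.1.1) i b
      · exact ih p (hl.2 p).1 k' h
  rintro (k | ⟨a, l, i, b⟩) hk
  · exact ExSig_acc_inl (Strat.sig_wf k hk)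
  · exact ExSig_acc_inr (hl l hk.1) i b

theorem ExSig_q_sub {a : A} (un : ℕ → S.T D) {V : Type} (s : S.T V) (γ : V → XT S G I a) :
    (XT.sub s γ).q un = s.bind (fun p => (γ p).q un) := by
  induction s with
  | var v => rfl
  | op k δ ih =>
    show Tm.op k (fun p => (XT.sub (δ p) γ).q un) =
      Tm.op k (fun p => (δ p).bind (fun p => (γ p).q un))
    congr 1
    funext p
    exact ih p

theorem ExSig_q_bind (un : ℕ → S.T D) {a c : A} (t : XT S G I a)
    (γ : (G a).C → XT S G I c) :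
    (t.bind γ).q un = (t.q un).bind (fun p => (γ p).q un) := by
  induction t with
  | var p => rfl
  | op k δ ih =>
    show Tm.op k (fun p => ((δ p).bind γ).q un) =
      Tm.op k (fun p => ((δ p).q un).bind (fun p => (γ p).q un))
    congr 1
    funext p
    exact ih p γ
  | ex b a' l i δ _ ih =>
    show Tm.bind (if b then atCell (ofGlob S (G a')).m (un l.dim) (l.q un) else l.q un)
        (fun p => ((δ p).bind γ).q un) =
      (Tm.bind (if b then atCell (ofGlob S (G a')).m (un l.dim) (l.q un) else l.q un)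
        (fun p => (δ p).q un)).bind (fun p => (γ p).q un)
    rw [Tm.bind_bind]
    congr 1
    funext p
    exact ih p γ

theorem ExSig_trans_up (un : ℕ → S.T D) {V : Type} (s : S.T V) :
    trans (qI S G I un) (upT s) = s := by
  induction s with
  | var v => rfl
  | op k δ ih =>
    show Tm.op k (fun p => trans (qI S G I un) (upT (δ p))) = Tm.op k δ
    congr 1
    funext p
    exact ih p

theorem ExSig_trans_toTm (un : ℕ → S.T D) {a : A} (t : XT S G I a) :
    trans (qI S G I un) t.toTm = t.q un := by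
  induction t with
  | var p => rfl
  | op k δ ih =>
    show Tm.op k (fun p => trans (qI S G I un) (δ p).toTm) = Tm.op k (fun p => (δ p).q un)
    congr 1
    funext p
    exact ih p
  | ex b a' l i δ _ ih =>
    show Tm.bind (if b then atCell (ofGlob S (G a')).m (un l.dim) (l.q un) else l.q un)
        (fun p => trans (qI S G I un) (δ p).toTm) =
      Tm.bind (if b then atCell (ofGlob S (G a')).m (un l.dim) (l.q un) else l.q un)
        (fun p => (δ p).q un)
    congr 1
    funext p
    exact ih p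

/-- the unit of a term -/
theorem ExSig_unit [S.Good] {G' : Glob} [G'.Laws] {d : L0 S} (hd : d.Good) {n : ℕ}
    {t : S.T G'.C} (ht : (ofGlob S G').tok t) (hn : (ofGlob S G').tdim t = n) :
    (ofGlob S G').tok (atCell (ofGlob S G').m (d.un n) t) ∧
    (ofGlob S G').tdim (atCell (ofGlob S G').m (d.un n) t) = n + 1 ∧
    (ofGlob S G').tsrc (atCell (ofGlob S G').m (d.un n) t) = t ∧
    (ofGlob S G').ttgt (atCell (ofGlob S G').m (d.un n) t) = t := by
  obtain ⟨h1, h2, h3⟩ := atCell_mapAt (M := (ofGlob S G').m) (y := t) ht hn (hd.un_ok n)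
  have hdu := hd.un_dim n
  obtain ⟨h4, h5⟩ := h3 (by
    show 0 < (ofGlob S (diskG n)).tdim (d.un n)
    omega)
  have hv : (ofGlob S G').m.toGlob.bd t (n, false) = t :=
    bd_of_le (G := (ofGlob S G').m.toGlob) t (n, false) (le_of_eq hn)
  refine ⟨h1, h2.trans hdu, ?_, ?_⟩
  · exact h4.trans ((congrArg ((ofGlob S G').m.eval ((ofGlob S G').m.toGlob.bd t))
      (hd.un_src n)).trans hv)
  · exact h5.trans ((congrArg ((ofGlob S G').m.eval ((ofGlob S G').m.toGlob.bd t))
      (hd.un_tgt n)).trans hv)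

theorem ExSig_q_ok [S.Good] (laws : ∀ a, (G a).Laws) {d : L0 S}
    (hd : d.Good) {a : A} (l : XT S G I a) : l.ok →
    (ofGlob S (G a)).tok (l.q d.un) ∧ (ofGlob S (G a)).tdim (l.q d.un) = l.dim ∧
      (0 < l.dim → (ofGlob S (G a)).tsrc (l.q d.un) = l.src.q d.un ∧
        (ofGlob S (G a)).ttgt (l.q d.un) = l.tgt.q d.un) := by
  induction l with
  | @var a p => exact fun hp => ⟨hp, rfl, fun _ => ⟨rfl, rfl⟩⟩
  | @op a k γ ih =>
    intro hl
    have hγ : ∀ p, MapAt (S.ar k) (ofGlob S (G a)).m.toGlob (fun p => (γ p).q d.un) p := by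
      intro p
      obtain ⟨h1, h2, h3⟩ := hl.2 p
      obtain ⟨h4, h5, h6⟩ := ih p h1
      refine ⟨h4, h5.trans h2, fun h0 => ?_⟩
      obtain ⟨h7, h8⟩ := h3 h0
      obtain ⟨h9, h10⟩ := h6 (by rw [h2]; exact h0)
      exact ⟨h9.trans (congrArg (XT.q d.un) h7), h10.trans (congrArg (XT.q d.un) h8)⟩
    refine ⟨⟨hl.1, hγ⟩, rfl, fun _ => ⟨?_, ?_⟩⟩
    · exact (ExSig_q_sub d.un (S.bs k) γ).symm
    · exact (ExSig_q_sub d.un (S.bt k) γ).symm
  | @ex a b a' l i γ ihl ih =>
    intro hl
    have := laws a'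
    obtain ⟨⟨hl1, hl0⟩, hl2⟩ := hl
    have hγ : ∀ p, MapAt (G a') (ofGlob S (G a)).m.toGlob (fun p => (γ p).q d.un) p := by
      intro p
      obtain ⟨h1, h2, h3⟩ := hl2 p
      obtain ⟨h4, h5, h6⟩ := ih p h1
      refine ⟨h4, h5.trans h2, fun h0 => ?_⟩
      obtain ⟨h7, h8⟩ := h3 h0
      obtain ⟨h9, h10⟩ := h6 (by rw [h2]; exact h0)
      exact ⟨h9.trans (congrArg (XT.q d.un) h7), h10.trans (congrArg (XT.q d.un) h8)⟩
    obtain ⟨t1, t2, t3⟩ := ihl hl1
    obtain ⟨t4, t5⟩ := t3 hl0
    cases b with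
    | false =>
      obtain ⟨m1, m2, m3⟩ := eval_mapAt (X := ofGlob S (G a')) (M := (ofGlob S (G a)).m)
        (γ := fun p => (γ p).q d.un) (fun p _ => hγ p) (l.q d.un) t1
      obtain ⟨m4, m5⟩ := m3 (by
        show 0 < (ofGlob S (G a')).tdim (l.q d.un)
        rw [t2]
        exact hl0)
      refine ⟨m1, m2.trans t2, fun _ => ⟨?_, ?_⟩⟩
      · exact m4.trans ((congrArg ((ofGlob S (G a)).m.eval (fun p => (γ p).q d.un)) t4).trans
          (ExSig_q_bind d.un l.src γ).symm)
      · exact m5.trans ((congrArg ((ofGlob S (G a)).m.eval (fun p => (γ p).q d.un)) t5).trans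
          (ExSig_q_bind d.un l.tgt γ).symm)
    | true =>
      obtain ⟨u1, u2, u3, u4⟩ := ExSig_unit hd t1 t2
      obtain ⟨m1, m2, m3⟩ := eval_mapAt (X := ofGlob S (G a')) (M := (ofGlob S (G a)).m)
        (γ := fun p => (γ p).q d.un) (fun p _ => hγ p)
        (atCell (ofGlob S (G a')).m (d.un l.dim) (l.q d.un)) u1
      obtain ⟨m4, m5⟩ := m3 (by
        show 0 < (ofGlob S (G a')).tdim (atCell (ofGlob S (G a')).m (d.un l.dim) (l.q d.un))
        rw [u2]
        exact Nat.succ_pos _)
      refine ⟨m1, m2.trans u2, fun _ => ⟨?_, ?_⟩⟩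
      · exact m4.trans ((congrArg ((ofGlob S (G a)).m.eval (fun p => (γ p).q d.un)) u3).trans
          (ExSig_q_bind d.un l γ).symm)
      · exact m5.trans (congrArg ((ofGlob S (G a)).m.eval (fun p => (γ p).q d.un)) u4)

theorem qI_good [S.Good] (laws : ∀ a, (G a).Laws) (full : ∀ a p, (G a).ok p) {d : L0 S}
    (hd : d.Good) : (qI S G I d.un).Good := by
  constructor
  · rintro (k | ⟨a, l, i, b⟩) hk
    · exact ⟨hk, fun p => ⟨Sig.Good.full k hk p, rfl, fun _ => ⟨rfl, rfl⟩⟩⟩
    · have := laws a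
      obtain ⟨t1, t2, t3⟩ := ExSig_q_ok laws hd l hk.1
      cases b with
      | false => exact t1
      | true => exact (ExSig_unit hd t1 t2).1
  · rintro (k | ⟨a, l, i, b⟩) hk
    · rfl
    · have := laws a
      obtain ⟨t1, t2, t3⟩ := ExSig_q_ok laws hd l hk.1
      cases b with
      | false => exact t2
      | true => exact (ExSig_unit hd t1 t2).2.1
  · rintro (k | ⟨a, l, i, b⟩) hk
    · exact (Tm.bind_var_self (S.bs k)).trans (ExSig_trans_up d.un (S.bs k)).symm
    · have := laws a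
      obtain ⟨t1, t2, t3⟩ := ExSig_q_ok laws hd l hk.1
      cases b with
      | false => exact (t3 hk.2).1.trans (ExSig_trans_toTm d.un l.src).symm
      | true => exact (ExSig_unit hd t1 t2).2.2.1.trans (ExSig_trans_toTm d.un l).symm
  · rintro (k | ⟨a, l, i, b⟩) hk
    · exact (Tm.bind_var_self (S.bt k)).trans (ExSig_trans_up d.un (S.bt k)).symm
    · have := laws a
      obtain ⟨t1, t2, t3⟩ := ExSig_q_ok laws hd l hk.1
      cases b with
      | false => exact (t3 hk.2).2.trans (ExSig_trans_toTm d.un l.tgt).symm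
      | true =>
        refine (ExSig_unit hd t1 t2).2.2.2.trans ?_
        exact (Tm.bind_var_self (l.q d.un)).symm

theorem q_j (un : ℕ → S.T D) (k : S.K) : trans (qI S G I un) (jI S G I k) = .op k .var := rfl

end ExSig

end HH
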