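import Pool.Agent.HH.GGDefs
import Pool.Agent.HH.CsHyp
import Pool.Agent.HH.ExSig
import Pool.Agent.HH.Defs2
import Pool.Agent.HH.ExContr

/-!
# HH 2b EEC: the extended signature of `C` is good and contractible (tiny module, needs `ex_contr` of
module c14 ExContr: import it)

`EE_level0` is `ex_level0` of c14; `EE_disk`: `ex_contr` for `ofGlob Cs (diskG j)` (`Cs_past_contr`, `isPast_disk`).
`EE_contr`: `ex_contr Cs_hyp (fun A => PC_laws A) (fun _ _ => trivial) (fun _ => ⟨(0 : Fin _)⟩) (ofGlob Cs A.G)` with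
`Cs_code_contr A`, and `ofGlob_tr (jI Cs PC.G (Lab C)) A.G`.
-/

set_option autoImplicit false

namespace HH

open Classical CategoryTheory

variable {C : Type} [SmallCategory C]

instance EE_good : (EE C).Good :=
  exSig_good (S := Cs) (G := PC.G) (I := Lab C) (fun A => PC_laws A) (fun _ _ => trivial)
    (fun _ => ⟨(0 : Fin _)⟩)

theorem EE_contr (A : PC) (L : ℕ) : (ofGlob (EE C) A.G).MContr L :=
  ex_contr (S := Cs) (G := PC.G) (I := Lab C) Cs_hyp (fun A => PC_laws A) (fun _ _ => trivial)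
    (fun _ => ⟨(0 : Fin _)⟩) (ofGlob Cs A.G) (Cs_code_contr A) L

theorem EE_disk (j L : ℕ) : (ofGlob (EE C) (diskG j)).MContr L :=
  ex_contr (S := Cs) (G := PC.G) (I := Lab C) Cs_hyp (fun A => PC_laws A) (fun _ _ => trivial)
    (fun _ => ⟨(0 : Fin _)⟩) (ofGlob Cs (diskG j)) (Cs_past_contr (isPast_disk j)) L

theorem EE_level0 : ∃ d : L0 (EE C), d.Good ∧
    ∀ b : Interp (EE C) (EE C), b.Good → ∃ Q, Q2Good d.x b Q :=
  ex_level0 (S := Cs) (G := PC.G) (I := Lab C) Cs_hyp (fun A => PC_laws A) (fun _ _ => trivial)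
    (fun _ => ⟨(0 : Fin _)⟩) (fun A L => Cs_code_contr A L)

end HH
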