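import Pool.Agent.HH.UFDefs

/-!
# HH 2b UFW: weak equivalences of official and raw models (module to prove)

`UF_isW`: unfold `RMod.IsW` for `UF.map φ`: a genuine cell is `⟨⟨n, x⟩, trivial⟩` with `x : G.Cell n`; `GG_conn`, `GG_par` translate
`Conn`, `Par` into `Homotopic` and `Pool.Agent.HH.Model.Par` (cases on `n`). The image of `⟨n, x⟩` is
`⟨n, mapCell φ x⟩` (`rfl`).
`pull_isWM`: cells of the pulled back model are cells (`cellEquiv`, `cellEquiv_homotopic`, `cellEquiv_mapCell`, `cellEquiv_src`,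
`cellEquiv_tgt` in Pull.lean).
-/

set_option autoImplicit false

namespace HH

open Classical CategoryTheory Opposite

open Pool.Agent.HH (Globes)

variable {C : Type} [SmallCategory C] {F : Globes C}

private theorem par_iff (G : OMod F) {i : ℕ} (x x' : G.Cell i) :
    (GG F G.obj).Par ⟨i, x⟩ ⟨i, x'⟩ ↔ G.Par i x x' := by
  rw [GG_par]
  cases i with
  | zero =>
    constructor
    · intro _
      trivial
    · intro _ m h
      omega
  | succ i =>
    constructor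
    · intro h
      exact h i rfl
    · intro h m hm
      have : i = m := by omega
      subst this
      exact h

theorem UF_isW (hF : F.IsExt) (hc : F.Contractible) {G G' : OMod F} (φ : G ⟶ G') :
    RMod.IsW ((UF hF hc).map φ) ↔ IsWM φ := by
  constructor
  · rintro ⟨h1, h2, h3⟩
    refine ⟨?_, ?_, ?_⟩
    · intro y
      obtain ⟨⟨⟨n, x⟩, hx⟩, hd, hconn⟩ := h1 ⟨⟨0, y⟩, trivial⟩ rfl
      have hd' : n = 0 := hd
      subst hd'
      exact ⟨x, (GG_conn G'.obj _ _).1 hconn⟩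
    · intro i x x' hp hh
      exact (GG_conn G.obj x x').1 (h2 ⟨⟨i, x⟩, trivial⟩ ⟨⟨i, x'⟩, trivial⟩ ((par_iff G x x').2 hp)
        ((GG_conn G'.obj _ _).2 hh))
    · intro i x x' hp h hs ht
      obtain ⟨⟨⟨m, h'⟩, _⟩, hd, hs', ht', hconn⟩ := h3 ⟨⟨i, x⟩, trivial⟩ ⟨⟨i, x'⟩, trivial⟩
        ((par_iff G x x').2 hp) ⟨⟨i + 1, h⟩, trivial⟩ rfl
        (congrArg (fun z => (⟨i, z⟩ : (GG F G'.obj).C)) hs)
        (congrArg (fun z => (⟨i, z⟩ : (GG F G'.obj).C)) ht)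
      have hd' : m = i + 1 := hd
      subst hd'
      exact ⟨h', eq_of_heq (Sigma.mk.inj hs').2, eq_of_heq (Sigma.mk.inj ht').2,
        (GG_conn G'.obj _ _).1 hconn⟩
  · rintro ⟨h1, h2, h3⟩
    refine ⟨?_, ?_, ?_⟩
    · rintro ⟨⟨n, y⟩, hy⟩ hd
      have hd' : n = 0 := hd
      subst hd'
      obtain ⟨x, hx⟩ := h1 y
      exact ⟨⟨⟨0, x⟩, trivial⟩, rfl, (GG_conn G'.obj _ _).2 hx⟩
    · rintro ⟨⟨n, x⟩, hx⟩ ⟨⟨n', x'⟩, hx'⟩ hp hh
      have hd : n = n' := hp.2.2.1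
      subst hd
      exact (GG_conn G.obj x x').2 (h2 n x x' ((par_iff G x x').1 hp) ((GG_conn G'.obj _ _).1 hh))
    · rintro ⟨⟨n, x⟩, hx⟩ ⟨⟨n', x'⟩, hx'⟩ hp ⟨⟨m, h⟩, hh⟩ hd hs ht
      have hd1 : n = n' := hp.2.2.1
      subst hd1
      have hd2 : m = n + 1 := hd
      subst hd2
      obtain ⟨h', e1, e2, e3⟩ := h3 n x x' ((par_iff G x x').1 hp) h
        (eq_of_heq (Sigma.mk.inj hs).2) (eq_of_heq (Sigma.mk.inj ht).2)
      refine ⟨⟨⟨n + 1, h'⟩, trivial⟩, rfl, ?_, ?_, (GG_conn G'.obj _ _).2 e3⟩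
      · exact congrArg (fun z => (⟨n, z⟩ : (GG F G.obj).C)) e1
      · exact congrArg (fun z => (⟨n, z⟩ : (GG F G.obj).C)) e2

theorem pull_isWM {E : Type} [SmallCategory E] {G : Globes E} {H : C ⥤ E} (hH : F.Preserves H)
    (a : (F.map H).Iso G) {M N : OMod G} (φ : M ⟶ N) (h : IsWM φ) :
    IsWM ((Pool.Agent.HH.pull H hH a).map φ) := by
  obtain ⟨h1, h2, h3⟩ := h
  have hpar : ∀ (M : OMod G) (i : ℕ) (x x' : ((Pool.Agent.HH.pull H hH a).obj M).Cell i),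
      ((Pool.Agent.HH.pull H hH a).obj M).Par i x x' ↔
        M.Par i (Pool.Agent.HH.cellEquiv H hH a M i x) (Pool.Agent.HH.cellEquiv H hH a M i x') := by
    intro M i x x'
    cases i with
    | zero => exact Iff.rfl
    | succ i =>
      change (_ = _ ∧ _ = _) ↔ (_ = _ ∧ _ = _)
      rw [← Pool.Agent.HH.cellEquiv_src, ← Pool.Agent.HH.cellEquiv_src,
        ← Pool.Agent.HH.cellEquiv_tgt, ← Pool.Agent.HH.cellEquiv_tgt,
        Equiv.apply_eq_iff_eq, Equiv.apply_eq_iff_eq]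
  refine ⟨?_, ?_, ?_⟩
  · intro y
    obtain ⟨x, hx⟩ := h1 (Pool.Agent.HH.cellEquiv H hH a N 0 y)
    obtain ⟨x0, rfl⟩ := (Pool.Agent.HH.cellEquiv H hH a M 0).surjective x
    refine ⟨x0, ?_⟩
    rw [Pool.Agent.HH.cellEquiv_homotopic, Pool.Agent.HH.cellEquiv_mapCell]
    exact hx
  · intro i x x' hp hh
    rw [Pool.Agent.HH.cellEquiv_homotopic, Pool.Agent.HH.cellEquiv_mapCell,
      Pool.Agent.HH.cellEquiv_mapCell] at hh
    rw [Pool.Agent.HH.cellEquiv_homotopic]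
    exact h2 i _ _ ((hpar M i x x').1 hp) hh
  · intro i x x' hp h hs ht
    have hs' : N.src (Pool.Agent.HH.cellEquiv H hH a N (i + 1) h) =
        Pool.Agent.HH.Model.mapCell φ (Pool.Agent.HH.cellEquiv H hH a M i x) := by
      rw [← Pool.Agent.HH.cellEquiv_src, hs, Pool.Agent.HH.cellEquiv_mapCell]
    have ht' : N.tgt (Pool.Agent.HH.cellEquiv H hH a N (i + 1) h) =
        Pool.Agent.HH.Model.mapCell φ (Pool.Agent.HH.cellEquiv H hH a M i x') := by
      rw [← Pool.Agent.HH.cellEquiv_tgt, ht, Pool.Agent.HH.cellEquiv_mapCell]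
    obtain ⟨k, e1, e2, e3⟩ := h3 i _ _ ((hpar M i x x').1 hp) _ hs' ht'
    obtain ⟨k0, rfl⟩ := (Pool.Agent.HH.cellEquiv H hH a M (i + 1)).surjective k
    refine ⟨k0, ?_, ?_, ?_⟩
    · apply (Pool.Agent.HH.cellEquiv H hH a M i).injective
      rw [Pool.Agent.HH.cellEquiv_src, e1]
    · apply (Pool.Agent.HH.cellEquiv H hH a M i).injective
      rw [Pool.Agent.HH.cellEquiv_tgt, e2]
    · rw [Pool.Agent.HH.cellEquiv_homotopic, Pool.Agent.HH.cellEquiv_mapCell]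
      exact e3

end HH
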