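import Pool.Agent.HH.KT
import Pool.Agent.HH.BaseCh
import Pool.Agent.HH.UFW
import Pool.Agent.HH.EEc

/-!
# HH 2b BCO: base change of automorphism groups in official models

For every `i` we have the cylinder of `exists_const` from the constant cells to the identity of the disk, a model `G` and an
`i`-cell `u` give by evaluation a cylinder in the raw model of `G` from the iterated units of the `0`-source of `u` to `u`;
`T G i u l` is the loop `l` transported along this cylinder.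
-/

set_option autoImplicit false

namespace HH

open Classical CategoryTheory Opposite

open Pool.Agent.HH (Globes IsCoherator)

variable {C : Type} [SmallCategory C] {F : Globes C}

/-- The iterated source of dimension `0`. -/
def src0 {G : OMod F} : {i : ℕ} → G.Cell i → G.Cell 0
  | 0, x => x
  | _ + 1, x => src0 (G.src x)

/-- `l` is a loop at the iterated unit of `x`. -/
def OLoop (κ : Pool.Agent.HH.Units F) (G : OMod F) (i : ℕ) (x : G.Cell 0)
    (l : G.Cell (i + 1)) : Prop :=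
  G.src l = G.iterUnit κ x i ∧ G.tgt l = G.iterUnit κ x i

theorem bd_src0 {G : OMod F} {i : ℕ} (u : G.Cell i) :
    (GG F G.obj).bd ⟨i, u⟩ (0, false) = ⟨0, src0 u⟩ := by
  unfold Glob.bd
  show ((GG F G.obj).src)^[i] ⟨i, u⟩ = ⟨0, src0 u⟩
  induction i with
  | zero => rfl
  | succ i ih =>
    rw [Function.iterate_succ_apply]
    exact ih (G.src u)

theorem bco_asg (hF : F.IsExt) (hc : F.Contractible) (G : OMod F) {i : ℕ} (u : G.Cell i) :
    ∀ v, (ofGlob (EE C) (diskG i)).ok v → AsgAt (ofGlob (EE C) (diskG i)) (MDR hF hc G).M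
      ((GG F G.obj).bd ⟨i, u⟩) v := fun v hv =>
  bd_mapAt (G := GG F G.obj) (x := ⟨i, u⟩) trivial hv

theorem bco_cst (hF : F.IsExt) (hc : F.Contractible) {κ : Pool.Agent.HH.Units F}
    {κt : ℕ → (EE C).T D} (hκ : KGood κt)
    (hre : ∀ (G : OMod F) (n : ℕ) (x : G.Cell n),
      (MD hF G.obj).eval ((GG F G.obj).bd ⟨n, x⟩) (κt n) = ⟨n + 1, G.obj.map (κ.k n).op x⟩)
    (G : OMod F) {i : ℕ} (u : G.Cell i) (n : ℕ) :
    (MDR hF hc G).M.eval ((GG F G.obj).bd ⟨i, u⟩) (cst κt i n) =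
      ⟨n, G.iterUnit κ (src0 u) n⟩ := by
  induction n with
  | zero => exact bd_src0 u
  | succ n ih =>
    have h1 : (MDR hF hc G).M.eval ((GG F G.obj).bd ⟨i, u⟩) (cst κt i (n + 1)) =
        (MDR hF hc G).M.eval (fun q => (MDR hF hc G).M.eval ((GG F G.obj).bd ⟨i, u⟩)
          ((ofGlob (EE C) (diskG i)).m.toGlob.bd (cst κt i n) q)) (κt n) :=
      eval_bind _ _ _ _
    have h2 : (fun q => (MDR hF hc G).M.eval ((GG F G.obj).bd ⟨i, u⟩)
          ((ofGlob (EE C) (diskG i)).m.toGlob.bd (cst κt i n) q)) =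
        (GG F G.obj).bd ⟨n, G.iterUnit κ (src0 u) n⟩ := by
      funext q
      rw [← ih]
      exact map_bd (G := (ofGlob (EE C) (diskG i)).m.toGlob) (H := GG F G.obj)
        (cst_spec hκ i n).1 (fun y hy _ => eval_mapAt (bco_asg hF hc G u) y hy) q
    rw [h1, h2]
    exact hre G n _

/-- the three families of the cylinder -/
noncomputable def bcoA (hF : F.IsExt) (hc : F.Contractible) (κt : ℕ → (EE C).T D) (G : OMod F)
    (i : ℕ) (u : G.Cell i) (q : D) : (MDR hF hc G).M.C :=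
  (MDR hF hc G).M.eval ((GG F G.obj).bd ⟨i, u⟩) (cst κt i (bdD (i, false) q).1)

noncomputable def bcoE (hF : F.IsExt) (hc : F.Contractible) (e : ℕ → D → (EE C).T D)
    (G : OMod F) (i : ℕ) (u : G.Cell i) (q : D) : (MDR hF hc G).M.C :=
  (MDR hF hc G).M.eval ((GG F G.obj).bd ⟨i, u⟩) (e i (bdD (i, false) q))

noncomputable def bcoB (hF : F.IsExt) (hc : F.Contractible) (G : OMod F)
    (i : ℕ) (u : G.Cell i) (q : D) : (MDR hF hc G).M.C :=
  (GG F G.obj).bd ⟨i, u⟩ (bdD (i, false) q)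

theorem bdD_disk_map {i : ℕ} (q : D) (hq : (diskG i).ok q) :
    MapAt (diskG i) (diskG i) (bdD (i, false)) q := by
  have hq' : q.1 < i ∨ (q.1 = i ∧ q.2 = false) := hq
  have h0 : bdD (i, false) q = q := by
    unfold bdD
    split_ifs with h
    · rfl
    · have h1 : ¬ q.1 < i := h
      obtain ⟨q1, q2⟩ := q
      rcases hq' with h2 | ⟨h2, h3⟩
      · exact absurd h2 h1
      · simp only at h2 h3
        subst h2 h3
        rfl
  have h1 : ∀ ε : Bool, 0 < q.1 → bdD (i, false) (q.1 - 1, ε) = (q.1 - 1, ε) := by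
    intro ε h
    unfold bdD
    rw [if_pos (by change q.1 - 1 < i; omega)]
  refine ⟨?_, ?_, fun h => ⟨?_, ?_⟩⟩
  · rw [h0]
    exact hq
  · rw [h0]
  · rw [h0]
    exact (h1 false h).symm
  · rw [h0]
    exact (h1 true h).symm

theorem bco_isCyl0 (hF : F.IsExt) (hc : F.Contractible) {d : L0 (EE C)} {κt : ℕ → (EE C).T D}
    {e : ℕ → D → (EE C).T D}
    (he : ∀ i, IsCyl0 d.x (diskG i) (ofGlob (EE C) (diskG i)).m (fun q => cst κt i q.1)
      (fun q => .var q) (e i)) (G : OMod F) (i : ℕ) (u : G.Cell i) :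
    IsCyl0 d.x (diskG i) (MDR hF hc G).M (bcoA hF hc κt G i u) (bcoB hF hc G i u)
      (bcoE hF hc e G i u) :=
  ((he i).eval (bco_asg hF hc G u)).comp (W' := diskG i) (f := bdD (i, false)) bdD_disk_map

/-- the transported loop -/
noncomputable def bcoT (hF : F.IsExt) (hc : F.Contractible) (d : L0 (EE C))
    (κt : ℕ → (EE C).T D) (e : ℕ → D → (EE C).T D) (G : OMod F) (i : ℕ) (u : G.Cell i)
    (l : G.Cell (i + 1)) : G.Cell (i + 1) :=
  if h : (TL d.x (MDR hF hc G).M i (bcoA hF hc κt G i u) (bcoB hF hc G i u)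
    (bcoE hF hc e G i u) (⟨i + 1, l⟩ : (GG F G.obj).C) : (GG F G.obj).C).1 = i + 1 then
    h ▸ (TL d.x (MDR hF hc G).M i (bcoA hF hc κt G i u) (bcoB hF hc G i u)
    (bcoE hF hc e G i u) (⟨i + 1, l⟩ : (GG F G.obj).C) : (GG F G.obj).C).2
  else l

theorem sigma_cast {P : ℕ → Type} (x : Σ n, P n) {m : ℕ} (h : x.1 = m) :
    (⟨m, h ▸ x.2⟩ : Σ n, P n) = x := by
  subst h
  rfl

theorem bcoT_eq (hF : F.IsExt) (hc : F.Contractible) (d : L0 (EE C))
    (κt : ℕ → (EE C).T D) (e : ℕ → D → (EE C).T D) (G : OMod F) (i : ℕ) (u : G.Cell i)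
    (l : G.Cell (i + 1))
    (h : (TL d.x (MDR hF hc G).M i (bcoA hF hc κt G i u) (bcoB hF hc G i u)
      (bcoE hF hc e G i u) (⟨i + 1, l⟩ : (GG F G.obj).C) : (GG F G.obj).C).1 = i + 1) :
    (⟨i + 1, bcoT hF hc d κt e G i u l⟩ : (GG F G.obj).C) =
      TL d.x (MDR hF hc G).M i (bcoA hF hc κt G i u) (bcoB hF hc G i u)
      (bcoE hF hc e G i u) (⟨i + 1, l⟩ : (GG F G.obj).C) := by
  unfold bcoT
  rw [dif_pos h]
  exact sigma_cast (P := fun n => G.Cell n) _ h

theorem sigma_snd {P : ℕ → Type} {n : ℕ} {x y : P n} (h : (⟨n, x⟩ : Σ n, P n) = ⟨n, y⟩) :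
    x = y := eq_of_heq (Sigma.mk.inj h).2

theorem GG_conn_trans (hF : F.IsExt) (hc : F.Contractible) (G : OMod F)
    (x y z : (GG F G.obj).C) (h : (GG F G.obj).Conn x y) (h' : (GG F G.obj).Conn y z) :
    (GG F G.obj).Conn x z := by
  have key : ∀ x y : (GG F G.obj).C, (GG F G.obj).Conn x y → x.1 = y.1 := by
    rintro ⟨n, x⟩ ⟨m, y⟩ ⟨⟨k, c⟩, -, h2, h3, h4⟩
    have h2' : k = n + 1 := h2
    subst h2'
    have h4' : (⟨n, G.tgt c⟩ : (GG F G.obj).C) = ⟨m, y⟩ := h4
    have h5 := congrArg Sigma.fst h4'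
    exact h5
  obtain ⟨n, x⟩ := x
  obtain ⟨m, y⟩ := y
  obtain ⟨k, z⟩ := z
  have e1 : n = m := key _ _ h
  subst e1
  have e2 : n = k := key _ _ h'
  subst e2
  rw [GG_conn] at h h' ⊢
  exact Pool.Agent.HH.homotopic_trans hF hc G h h'

theorem base_change (hC : IsCoherator F) (κ : Pool.Agent.HH.Units F) :
    ∃ T : ∀ (G : OMod F) (i : ℕ), G.Cell i → G.Cell (i + 1) → G.Cell (i + 1),
      (∀ G i u l, OLoop κ G i (src0 u) l → G.src (T G i u l) = u ∧ G.tgt (T G i u l) = u) ∧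
      (∀ G i u l l', OLoop κ G i (src0 u) l → OLoop κ G i (src0 u) l' →
        (G.Homotopic l l' ↔ G.Homotopic (T G i u l) (T G i u l'))) ∧
      (∀ G i u m, G.src m = u → G.tgt m = u →
        ∃ l, OLoop κ G i (src0 u) l ∧ G.Homotopic (T G i u l) m) ∧
      ∀ (G G' : OMod F) (φ : G ⟶ G') (i : ℕ) (u : G.Cell i) (l : G.Cell (i + 1)),
        OLoop κ G i (src0 u) l →
        Pool.Agent.HH.Model.mapCell φ (T G i u l) =
          T G' i (Pool.Agent.HH.Model.mapCell φ u) (Pool.Agent.HH.Model.mapCell φ l) := by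
  have hF := hC.ext
  have hc := hC.contractible
  obtain ⟨d, hd, -⟩ := EE_level0 (C := C)
  obtain ⟨κt, hκ, hre⟩ := exists_kt hF hc κ
  choose e he using fun i => exists_const (E := EE C) hd EE_disk hκ i
  have hcyl := fun (G : OMod F) (i : ℕ) (u : G.Cell i) => bco_isCyl0 hF hc he G i u
  have hA : ∀ (G : OMod F) (i : ℕ) (u : G.Cell i), bcoA hF hc κt G i u (i, false) =
      (⟨i, G.iterUnit κ (src0 u) i⟩ : (GG F G.obj).C) := by
    intro G i u
    unfold bcoA
    rw [bdD_top]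
    exact bco_cst hF hc hκ hre G u i
  have hB : ∀ (G : OMod F) (i : ℕ) (u : G.Cell i), bcoB hF hc G i u (i, false) =
      (⟨i, u⟩ : (GG F G.obj).C) := by
    intro G i u
    unfold bcoB
    rw [bdD_top]
    exact bd_of_le _ _ (le_refl _)
  have hloop : ∀ (G : OMod F) (i : ℕ) (u : G.Cell i) (l : G.Cell (i + 1)),
      OLoop κ G i (src0 u) l → IsLoop (MDR hF hc G).M.toGlob (bcoA hF hc κt G i u (i, false))
        (⟨i + 1, l⟩ : (GG F G.obj).C) := by
    intro G i u l hl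
    rw [hA]
    refine ⟨trivial, rfl, ?_, ?_⟩
    · show (⟨i, G.src l⟩ : (GG F G.obj).C) = _
      rw [hl.1]
    · show (⟨i, G.tgt l⟩ : (GG F G.obj).C) = _
      rw [hl.2]
  have hspec := fun (G : OMod F) (i : ℕ) (u : G.Cell i) (l : G.Cell (i + 1))
    (hl : OLoop κ G i (src0 u) l) => TL_spec hd (hcyl G i u) (hloop G i u l hl)
  have hTL : ∀ (G : OMod F) (i : ℕ) (u : G.Cell i) (l : G.Cell (i + 1)),
      OLoop κ G i (src0 u) l → (⟨i + 1, bcoT hF hc d κt e G i u l⟩ : (GG F G.obj).C) =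
      TL d.x (MDR hF hc G).M i (bcoA hF hc κt G i u) (bcoB hF hc G i u)
      (bcoE hF hc e G i u) (⟨i + 1, l⟩ : (GG F G.obj).C) := by
    intro G i u l hl
    refine bcoT_eq hF hc d κt e G i u l ?_
    obtain ⟨-, h2, -, -⟩ := hspec G i u l hl
    refine h2.trans ?_
    rw [hB]
    rfl
  refine ⟨bcoT hF hc d κt e, ?_, ?_, ?_, ?_⟩
  · intro G i u l hl
    obtain ⟨-, -, h3, h4⟩ := hspec G i u l hl
    rw [← hTL G i u l hl, hB] at h3 h4
    exact ⟨sigma_snd (P := fun n => G.Cell n) h3, sigma_snd (P := fun n => G.Cell n) h4⟩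
  · intro G i u l l' hl hl'
    have h1 := TL_conn hd (hcyl G i u) (hloop G i u l hl) (hloop G i u l' hl')
    rw [← hTL G i u l hl, ← hTL G i u l' hl'] at h1
    have h2 := GG_conn G.obj (n := i + 1) l l'
    have h3 := GG_conn G.obj (n := i + 1) (bcoT hF hc d κt e G i u l)
      (bcoT hF hc d κt e G i u l')
    exact (h2.symm.trans h1).trans h3
  · intro G i u m hm1 hm2
    have hm : IsLoop (MDR hF hc G).M.toGlob (bcoB hF hc G i u (i, false))
        (⟨i + 1, m⟩ : (GG F G.obj).C) := by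
      rw [hB]
      refine ⟨trivial, rfl, ?_, ?_⟩
      · show (⟨i, G.src m⟩ : (GG F G.obj).C) = _
        rw [hm1]
      · show (⟨i, G.tgt m⟩ : (GG F G.obj).C) = _
        rw [hm2]
    obtain ⟨l, hl1, hl2⟩ := TL_surj hd (hcyl G i u) (GG_conn_trans hF hc G) hm
    rw [hA] at hl1
    obtain ⟨k, l⟩ := l
    obtain ⟨-, h2, h3, h4⟩ := hl1
    have h2' : k = i + 1 := h2
    subst h2'
    have hol : OLoop κ G i (src0 u) l :=
      ⟨sigma_snd (P := fun n => G.Cell n) h3, sigma_snd (P := fun n => G.Cell n) h4⟩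
    refine ⟨l, hol, ?_⟩
    have h5 : (GG F G.obj).Conn (⟨i + 1, bcoT hF hc d κt e G i u l⟩ : (GG F G.obj).C)
        (⟨i + 1, m⟩ : (GG F G.obj).C) := by
      rw [hTL G i u l hol]
      exact hl2
    exact (GG_conn G.obj _ _).1 h5
  · intro G G' φ i u l hl
    have hbd : ∀ q : D, natC F φ.hom ((GG F G.obj).bd ⟨i, u⟩ q) =
        (GG F G'.obj).bd ⟨i, Pool.Agent.HH.Model.mapCell φ u⟩ q := fun q =>
      map_bd (G := GG F G.obj) (H := GG F G'.obj) (f := natC F φ.hom) (x := ⟨i, u⟩) trivial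
        (fun y _ _ => natC_mapAt φ.hom y) q
    have hev : ∀ t : (EE C).T D, (ofGlob (EE C) (diskG i)).tok t →
        natC F φ.hom ((MDR hF hc G).M.eval ((GG F G.obj).bd ⟨i, u⟩) t) =
          (MDR hF hc G').M.eval ((GG F G'.obj).bd ⟨i, Pool.Agent.HH.Model.mapCell φ u⟩) t := by
      intro t ht
      have h1 := RHom.eval ((UF hF hc).map φ) (X := ofGlob (EE C) (diskG i))
        (γ := fun q => ⟨(GG F G.obj).bd ⟨i, u⟩ q, trivial⟩) (bco_asg hF hc G u) t ht trivial
      refine h1.trans ?_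
      congr 1
      funext q
      exact hbd q
    have hol' : OLoop κ G' i (src0 (Pool.Agent.HH.Model.mapCell φ u))
        (Pool.Agent.HH.Model.mapCell φ l) := by
      have hs0 : ∀ {i : ℕ} (u : G.Cell i), src0 (Pool.Agent.HH.Model.mapCell φ u) =
          Pool.Agent.HH.Model.mapCell φ (src0 u) := by
        intro i u
        induction i with
        | zero => rfl
        | succ i ih =>
          show src0 (G'.src (Pool.Agent.HH.Model.mapCell φ u)) = _
          rw [Pool.Agent.HH.Model.src_mapCell]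
          exact ih (G.src u)
      constructor
      · rw [Pool.Agent.HH.Model.src_mapCell, hl.1, Pool.Agent.HH.Model.mapCell_iterUnit, hs0]
      · rw [Pool.Agent.HH.Model.tgt_mapCell, hl.2, Pool.Agent.HH.Model.mapCell_iterUnit, hs0]
    have h1 := TL_nat hd (hcyl G i u) (hloop G i u l hl) ((UF hF hc).map φ)
      (α' := bcoA hF hc κt G' i (Pool.Agent.HH.Model.mapCell φ u))
      (β' := bcoB hF hc G' i (Pool.Agent.HH.Model.mapCell φ u))
      (e' := bcoE hF hc e G' i (Pool.Agent.HH.Model.mapCell φ u))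
      (l' := (⟨i + 1, Pool.Agent.HH.Model.mapCell φ l⟩ : (GG F G'.obj).C))
      (fun q _ => hev _ (cst_spec hκ i _).1) (fun q _ => hbd _)
      (fun q _ => hev _ ((he i).cyl _ (bdD_disk_ok q)).1) rfl
    have h2 : natC F φ.hom (TL d.x (MDR hF hc G).M i (bcoA hF hc κt G i u)
        (bcoB hF hc G i u) (bcoE hF hc e G i u) (⟨i + 1, l⟩ : (GG F G.obj).C)) =
        (⟨i + 1, bcoT hF hc d κt e G' i (Pool.Agent.HH.Model.mapCell φ u)
          (Pool.Agent.HH.Model.mapCell φ l)⟩ : (GG F G'.obj).C) :=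
      h1.trans (hTL G' i _ _ hol').symm
    rw [← hTL G i u l hl] at h2
    exact sigma_snd (P := fun n => G'.Cell n) h2

end HH
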