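import Pool.Agent.HH.OrdTop

/-!
# HH part 3, PSI: maps out of an order complex glued from the cones `{p ≤ q}`
-/

set_option autoImplicit false

namespace HH

open Classical Topology

namespace OrdCx

variable {P Q R : Type} [PartialOrder P] [PartialOrder Q] [PartialOrder R]

theorem map_map (f : P → Q) (hf : Monotone f) (g : Q → R) (hg : Monotone g) (t : OrdCx P) :
    map g hg (map f hf t) = map (fun p => g (f p)) (fun _ _ h => hg (hf h)) t := by
  refine ext fun r => ?_
  show ((t.w.mapDomain f).mapDomain g) r = (t.w.mapDomain _) r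
  rw [← Finsupp.mapDomain_comp]
  rfl

theorem map_id' (t : OrdCx P) {f : P → P} (hf : Monotone f) (h : ∀ p, f p = p) :
    map f hf t = t := by
  have : f = id := funext h
  subst this
  refine ext fun r => ?_
  show (t.w.mapDomain id) r = _
  rw [Finsupp.mapDomain_id]

/-- `map` only depends on the values on the support -/
theorem map_congr (t : OrdCx P) {f g : P → Q} (hf : Monotone f) (hg : Monotone g)
    (h : ∀ p, t.w p ≠ 0 → f p = g p) : map f hf t = map g hg t := by
  refine ext fun r => ?_
  show (t.w.mapDomain f) r = (t.w.mapDomain g) r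
  rw [Finsupp.mapDomain_congr fun p hp => h p (Finsupp.mem_support_iff.1 hp)]

/-- the restriction of a point to a down-set containing its support -/
noncomputable def restr (S : P → Prop) (t : OrdCx P) (h : ∀ p, t.w p ≠ 0 → S p) :
    OrdCx {p // S p} where
  w := t.w.subtypeDomain S
  nonneg := fun p => t.nonneg p.1
  chain := fun p q hp hq => t.chain p.1 q.1 hp hq
  sum := by
    have h1 := t.sum
    rw [← h1]
    refine Finsupp.sum_subtypeDomain_index (h := fun _ a => a) ?_
    intro p hp
    exact h p (Finsupp.mem_support_iff.1 hp)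

theorem restr_w (S : P → Prop) (t : OrdCx P) (h : ∀ p, t.w p ≠ 0 → S p) (p : {p // S p}) :
    (restr S t h).w p = t.w p.1 := rfl

theorem val_mono (S : P → Prop) : Monotone (Subtype.val : {p // S p} → P) := fun _ _ h => h

theorem map_val_w (S : P → Prop) (t : OrdCx {p // S p}) (p : {p // S p}) :
    (map Subtype.val (val_mono S) t).w p.1 = t.w p :=
  Finsupp.mapDomain_apply Subtype.val_injective _ _

theorem map_val_w' (S : P → Prop) (t : OrdCx {p // S p}) {p : P}
    (h : (map Subtype.val (val_mono S) t).w p ≠ 0) : S p := by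
  obtain ⟨q, rfl, _⟩ := map_w_ne.1 h
  exact q.2

theorem map_restr (S : P → Prop) (t : OrdCx P) (h : ∀ p, t.w p ≠ 0 → S p) :
    map Subtype.val (val_mono S) (restr S t h) = t := by
  refine ext fun p => ?_
  by_cases hp : S p
  · exact map_val_w S _ ⟨p, hp⟩
  · have h1 : t.w p = 0 := by
      by_contra h0
      exact hp (h p h0)
    rw [h1]
    by_contra h0
    exact hp (map_val_w' S _ h0)

theorem restr_map (S : P → Prop) (t : OrdCx {p // S p})
    (h : ∀ p, (map Subtype.val (val_mono S) t).w p ≠ 0 → S p) :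
    restr S (map Subtype.val (val_mono S) t) h = t :=
  ext fun p => map_val_w S t p

/-- the maximum of the support -/
theorem exists_top (t : OrdCx P) : ∃ q, t.w q ≠ 0 ∧ ∀ p, t.w p ≠ 0 → p ≤ q := by
  obtain ⟨q, hq, hmax⟩ := Finset.exists_maximal (supp_nonempty t)
  refine ⟨q, Finsupp.mem_support_iff.1 hq, fun p hp => ?_⟩
  rcases t.chain p q hp (Finsupp.mem_support_iff.1 hq) with h | h
  · exact h
  · exact hmax (Finsupp.mem_support_iff.2 hp) h

/-- the maximum of a nonempty chain -/
theorem exists_max_chain {F : Finset P} (hF : ∀ p ∈ F, ∀ q ∈ F, p ≤ q ∨ q ≤ p)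
    (h : F.Nonempty) : ∃ q ∈ F, ∀ p ∈ F, p ≤ q := by
  obtain ⟨q, hq, hmax⟩ := Finset.exists_maximal h
  refine ⟨q, hq, fun p hp => ?_⟩
  rcases hF p hp q hq with h | h
  · exact h
  · exact hmax hp h

/-- the inclusion of `{p ≤ q}` in `{p ≤ q'}` -/
def leIncl {q q' : P} (h : q ≤ q') : {p // p ≤ q} → {p // p ≤ q'} := fun p => ⟨p.1, p.2.trans h⟩

theorem leIncl_mono {q q' : P} (h : q ≤ q') : Monotone (leIncl h) := fun _ _ h' => h'

/-- **Gluing along the cones `{p ≤ q}`.** -/
theorem exists_glue_top {Y : Type*} [TopologicalSpace Y] (φ : ∀ q : P, C(OrdCx {p // p ≤ q}, Y))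
    (hφ : ∀ (q q' : P) (h : q ≤ q') (t : OrdCx {p // p ≤ q}),
      φ q' (map (leIncl h) (leIncl_mono h) t) = φ q t) :
    ∃ g : C(OrdCx P, Y), ∀ (q : P) (t : OrdCx {p // p ≤ q}),
      g (map Subtype.val (val_mono _) t) = φ q t := by
  choose top htop1 htop2 using fun t : OrdCx P => exists_top t
  let g0 : OrdCx P → Y := fun t => φ (top t) (restr (· ≤ top t) t (htop2 t))
  have key : ∀ (t : OrdCx P) (q : P) (h : ∀ p, t.w p ≠ 0 → p ≤ q),
      g0 t = φ q (restr (· ≤ q) t h) := by
    intro t q h
    have h1 : top t ≤ q := h _ (htop1 t)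
    rw [show g0 t = φ (top t) (restr (· ≤ top t) t (htop2 t)) from rfl, ← hφ _ _ h1]
    congr 1
    refine ext fun p => ?_
    by_cases hp : p.1 ≤ top t
    · have h2 := Finsupp.mapDomain_apply (f := leIncl h1)
        (fun a b hab => Subtype.ext (congrArg (fun x : {p // p ≤ q} => x.1) hab))
        (restr (· ≤ top t) t (htop2 t)).w ⟨p.1, hp⟩
      exact h2
    · have h2 : t.w p.1 = 0 := by
        by_contra h0
        exact hp (htop2 t _ h0)
      rw [restr_w, h2]
      by_contra h0
      obtain ⟨r, hr, _⟩ := map_w_ne.1 h0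
      exact hp (hr ▸ r.2)
  have hcont : Continuous g0 := by
    refine continuous_iff.2 fun F hF => ?_
    rcases F.eq_empty_or_nonempty with h0 | h0
    · subst h0
      have : IsEmpty (Simplex (∅ : Finset P)) := ⟨fun t => by
        have h1 := t.2.2.2
        rw [Finset.sum_empty] at h1
        exact zero_ne_one h1⟩
      exact continuous_iff_continuousAt.2 fun t => isEmptyElim t
    · obtain ⟨q, hq, hmax⟩ := exists_max_chain hF h0
      have hs : ∀ (t : Simplex F) (p : P), (ofSimplex F hF t).w p ≠ 0 → p ≤ q := by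
        intro t p hp
        refine hmax p ?_
        exact ofSimplex_supp_subset hF t (Finsupp.mem_support_iff.2 hp)
      have e : (fun t : Simplex F => g0 (ofSimplex F hF t)) =
          fun t => φ q (restr (· ≤ q) (ofSimplex F hF t) (hs t)) :=
        funext fun t => key _ q (hs t)
      rw [e]
      refine (φ q).continuous.comp ?_
      refine continuous_of (F.subtype (· ≤ q)) (fun t p hp => ?_) fun p _ => ?_
      · rw [Finset.mem_subtype]
        exact ofSimplex_supp_subset hF t (Finsupp.mem_support_iff.2 hp)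
      · have e2 : (fun t : Simplex F => (restr (· ≤ q) (ofSimplex F hF t) (hs t)).w p) =
            fun t : Simplex F => t.1 p.1 := by
          funext t
          rw [restr_w, ofSimplex_w]
        rw [e2]
        exact continuous_coord F p.1
  refine ⟨⟨g0, hcont⟩, fun q t => ?_⟩
  show g0 _ = _
  rw [key _ q fun p hp => map_val_w' _ t hp, restr_map]

/-- maps agreeing on the cones `{p ≤ q}` are equal -/
theorem hom_ext_top {Y : Type*} {f g : OrdCx P → Y}
    (h : ∀ (q : P) (t : OrdCx {p // p ≤ q}), f (map Subtype.val (val_mono _) t) =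
      g (map Subtype.val (val_mono _) t)) (t : OrdCx P) : f t = g t := by
  obtain ⟨q, _, hq⟩ := exists_top t
  have h1 := h q (restr (· ≤ q) t hq)
  rwa [map_restr] at h1

end OrdCx

end HH
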