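import Pool.Agent.HH.Names
import Pool.Agent.HH.OrdGlue
import Mathlib.Topology.Category.TopCat.Basic

/-!
# HH part 3: the realisation functor `BF`
-/

set_option autoImplicit false

namespace HH

open Classical CategoryTheory

variable {S : Sig} [S.Good]

/-- the realisation of a model -/
noncomputable def BF (z : ZFam S) (hz : ZGood z) : RMod S ⥤ TopCat.{0} where
  obj G := TopCat.of (OrdCx (NS z hz G))
  map F := TopCat.ofHom ⟨OrdCx.map (NS.map F) (NS.map_mono F), OrdCx.continuous_map _ _⟩
  map_id G := by
    refine TopCat.ext fun t => ?_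
    exact OrdCx.map_id' t (NS.map_mono (𝟙 G)) (NS.map_id G)
  map_comp F F' := by
    refine TopCat.ext fun t => ?_
    exact (OrdCx.map_map _ (NS.map_mono F) _ (NS.map_mono F') t).symm

theorem BF_map_apply (z : ZFam S) (hz : ZGood z) {G H : RMod S} (F : G ⟶ H)
    (t : OrdCx (NS z hz G)) :
    ((BF z hz).map F).hom t = OrdCx.map (NS.map F) (NS.map_mono F) t := rfl

end HH
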