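import Pool.Agent.HH.Inv

/-!
# HH OFF-PULL: pulling back models along functors (module to prove)

`isModel_comp`: let `H : C ⥤ E` preserve globular sums, `a : (F.map H).Iso G` and let `G'` be a model over
`G`. A globular sum `(X, ε)` of `C` is sent to a globular sum for the globes `F.map H`, hence
(`IsSum.iso`) for the globes `G` after composing the legs with `a`. A compatible family of
elements of the `G'(H D)` becomes a compatible family of elements of the `G'(G.D)`. Unfold.

`pull` is then a functor; on arrows it is whiskering with `H.op`.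

`homotopic_comp`: two arrows `f, g : D i ⟶ X` which are parallel and an element `x` of `G(X)`: in a
contractible extension `G f x` and `G g x` are homotopic (image of a lifting).

`cellEquiv`: the cells of the pulled back model are the cells of the model, up to the bijections
given by `a`; compatible with source, target, `Homotopic`, `mapCell`.
-/

universe v v' u u'

open CategoryTheory Opposite

namespace Pool.Agent.HH

variable {C E : Type u} [SmallCategory C] [SmallCategory E] {F : Globes C} {G : Globes E}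

private theorem map_comp_op (G' : Eᵒᵖ ⥤ Type u) {X Y Z : E} (f : X ⟶ Y) (g : Y ⟶ Z)
    (x : G'.obj (op Z)) : G'.map (f ≫ g).op x = G'.map f.op (G'.map g.op x) := by
  rw [op_comp, G'.map_comp]
  rfl

private theorem map_id_op (G' : Eᵒᵖ ⥤ Type u) {X : E} (x : G'.obj (op X)) :
    G'.map (𝟙 X).op x = x := by
  rw [op_id, G'.map_id]
  rfl

private theorem map_inv_hom (G' : Eᵒᵖ ⥤ Type u) {X Y : E} (e : X ≅ Y) (x : G'.obj (op X)) :
    G'.map e.hom.op (G'.map e.inv.op x) = x := by
  rw [← map_comp_op, e.hom_inv_id, map_id_op]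

private theorem map_hom_inv (G' : Eᵒᵖ ⥤ Type u) {X Y : E} (e : X ≅ Y) (x : G'.obj (op Y)) :
    G'.map e.inv.op (G'.map e.hom.op x) = x := by
  rw [← map_comp_op, e.inv_hom_id, map_id_op]

private theorem nat_apply {G₁ G₂ : Cᵒᵖ ⥤ Type u} (e : G₁ ⟶ G₂) {X Y : C} (f : X ⟶ Y)
    (x : G₁.obj (op Y)) : G₂.map f.op (e.app (op Y) x) = e.app (op X) (G₁.map f.op x) :=
  (ConcreteCategory.congr_hom (e.naturality f.op) x).symm

private theorem inv_hom_apply {G₁ G₂ : Cᵒᵖ ⥤ Type u} (e : G₁ ≅ G₂) {X : C}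
    (x : G₂.obj (op X)) : e.hom.app (op X) (e.inv.app (op X) x) = x := by
  have h : e.inv.app (op X) ≫ e.hom.app (op X) = 𝟙 _ := by
    rw [← NatTrans.comp_app, e.inv_hom_id, NatTrans.id_app]
  exact ConcreteCategory.congr_hom h x

private theorem hom_inv_apply {G₁ G₂ : Cᵒᵖ ⥤ Type u} (e : G₁ ≅ G₂) {X : C}
    (x : G₁.obj (op X)) : e.inv.app (op X) (e.hom.app (op X) x) = x := by
  have h : e.hom.app (op X) ≫ e.inv.app (op X) = 𝟙 _ := by
    rw [← NatTrans.comp_app, e.hom_inv_id, NatTrans.id_app]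
  exact ConcreteCategory.congr_hom h x

theorem isModel_iso {G₁ G₂ : Cᵒᵖ ⥤ Type u} (e : G₁ ≅ G₂) (h : IsModel F G₁) : IsModel F G₂ := by
  intro T X ε hsum g hg
  obtain ⟨x, hx, hu⟩ := h T X ε hsum (fun k => e.inv.app _ (g k)) (by
    intro k
    rw [nat_apply, nat_apply, hg k])
  refine ⟨e.hom.app _ x, fun k => ?_, fun y hy => ?_⟩
  · rw [nat_apply, hx k, inv_hom_apply]
  · have h1 := hu (e.inv.app _ y) (fun k => by
      rw [nat_apply, hy k])
    rw [← h1, inv_hom_apply]

theorem isModel_comp {H : C ⥤ E} (hH : F.Preserves H) (a : (F.map H).Iso G)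
    {G' : Eᵒᵖ ⥤ Type u} (hG' : IsModel G G') : IsModel F (H.op ⋙ G') := by
  intro T X ε hsum g hg
  have h1 := (hH T X ε hsum).iso a
  have hcast : ∀ {i j : ℕ} (h : i ≤ j) (x : G'.obj (op (H.obj (F.D j)))),
      G'.map (G.sTo h).op (G'.map (a.e j).inv.op x) =
        G'.map (a.e i).inv.op (G'.map (H.map (F.sTo h)).op x) := by
    intro i j h x
    rw [← map_comp_op, ← map_comp_op]
    have h2 := Globes.sTo_iso a.symm h
    rw [Globes.sTo_map] at h2
    exact congrArg (fun φ : G.D i ⟶ H.obj (F.D j) => G'.map φ.op x) h2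
  have hsucc : ∀ {i j : ℕ} (h : i ≤ j) (x : G'.obj (op (H.obj (F.D j)))),
      G'.map (G.tTo h).op (G'.map (a.e j).inv.op x) =
        G'.map (a.e i).inv.op (G'.map (H.map (F.tTo h)).op x) := by
    intro i j h x
    rw [← map_comp_op, ← map_comp_op]
    have h2 := Globes.tTo_iso a.symm h
    rw [Globes.tTo_map] at h2
    exact congrArg (fun φ : G.D i ⟶ H.obj (F.D j) => G'.map φ.op x) h2
  obtain ⟨x, hx, hu⟩ := hG' T (H.obj X) _ h1 (fun k => G'.map (a.e (T.i k)).inv.op (g k)) (by
    intro k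
    rw [hcast, hsucc]
    exact congrArg _ (hg k))
  refine ⟨x, fun k => ?_, fun y hy => ?_⟩
  · have h2 : G'.map ((a.e (T.i k)).inv ≫ H.map (ε k)).op x =
        G'.map (a.e (T.i k)).inv.op (g k) := hx k
    rw [map_comp_op] at h2
    have h3 := congrArg (G'.map (a.e (T.i k)).hom.op) h2
    rw [map_inv_hom, map_inv_hom] at h3
    exact h3
  · refine hu y fun k => ?_
    change G'.map ((a.e (T.i k)).inv ≫ H.map (ε k)).op y = G'.map (a.e (T.i k)).inv.op (g k)
    rw [map_comp_op]
    exact congrArg _ (hy k)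

/-- The pull back functor between categories of models. -/
@[simps]
def pull (H : C ⥤ E) (hH : F.Preserves H) (a : (F.map H).Iso G) : Model G ⥤ Model F where
  obj G' := ⟨H.op ⋙ G'.obj, isModel_comp hH a G'.property⟩
  map φ := ObjectProperty.homMk (Functor.whiskerLeft H.op φ.hom)
  map_id G' := by
    rfl
  map_comp φ ψ := by
    rfl

/-- The cells of the pulled back model. -/
def cellEquiv (H : C ⥤ E) (hH : F.Preserves H) (a : (F.map H).Iso G) (G' : Model G) (i : ℕ) :
    ((pull H hH a).obj G').Cell i ≃ G'.Cell i where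
  toFun x := G'.obj.map (a.e i).inv.op x
  invFun x := G'.obj.map (a.e i).hom.op x
  left_inv x := by
    exact map_inv_hom G'.obj (a.e i) x
  right_inv x := by
    exact map_hom_inv G'.obj (a.e i) x

theorem cellEquiv_src (H : C ⥤ E) (hH : F.Preserves H) (a : (F.map H).Iso G) (G' : Model G)
    {i : ℕ} (x : ((pull H hH a).obj G').Cell (i + 1)) :
    cellEquiv H hH a G' i (((pull H hH a).obj G').src x) =
      G'.src (cellEquiv H hH a G' (i + 1) x) := by
  change G'.obj.map (a.e i).inv.op (G'.obj.map (H.map (F.s i)).op x) =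
    G'.obj.map (G.s i).op (G'.obj.map (a.e (i + 1)).inv.op x)
  rw [← map_comp_op, ← map_comp_op]
  exact congrArg (fun φ : G.D i ⟶ H.obj (F.D (i + 1)) => G'.obj.map φ.op x) (a.symm.s_e i).symm

theorem cellEquiv_tgt (H : C ⥤ E) (hH : F.Preserves H) (a : (F.map H).Iso G) (G' : Model G)
    {i : ℕ} (x : ((pull H hH a).obj G').Cell (i + 1)) :
    cellEquiv H hH a G' i (((pull H hH a).obj G').tgt x) =
      G'.tgt (cellEquiv H hH a G' (i + 1) x) := by
  change G'.obj.map (a.e i).inv.op (G'.obj.map (H.map (F.t i)).op x) =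
    G'.obj.map (G.t i).op (G'.obj.map (a.e (i + 1)).inv.op x)
  rw [← map_comp_op, ← map_comp_op]
  exact congrArg (fun φ : G.D i ⟶ H.obj (F.D (i + 1)) => G'.obj.map φ.op x) (a.symm.t_e i).symm

theorem cellEquiv_homotopic (H : C ⥤ E) (hH : F.Preserves H) (a : (F.map H).Iso G)
    (G' : Model G) {i : ℕ} (x y : ((pull H hH a).obj G').Cell i) :
    ((pull H hH a).obj G').Homotopic x y ↔
      G'.Homotopic (cellEquiv H hH a G' i x) (cellEquiv H hH a G' i y) := by
  constructor
  · rintro ⟨h, rfl, rfl⟩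
    exact ⟨cellEquiv H hH a G' (i + 1) h, (cellEquiv_src H hH a G' h).symm,
      (cellEquiv_tgt H hH a G' h).symm⟩
  · rintro ⟨h, h1, h2⟩
    obtain ⟨l, rfl⟩ := (cellEquiv H hH a G' (i + 1)).surjective h
    refine ⟨l, ?_, ?_⟩
    · apply (cellEquiv H hH a G' i).injective
      rw [cellEquiv_src, h1]
    · apply (cellEquiv H hH a G' i).injective
      rw [cellEquiv_tgt, h2]

theorem cellEquiv_mapCell (H : C ⥤ E) (hH : F.Preserves H) (a : (F.map H).Iso G)
    {G' G'' : Model G} (φ : G' ⟶ G'') {i : ℕ} (x : ((pull H hH a).obj G').Cell i) :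
    cellEquiv H hH a G'' i (Model.mapCell ((pull H hH a).map φ) x) =
      Model.mapCell φ (cellEquiv H hH a G' i x) :=
  nat_apply φ.hom (a.e i).inv x

/-- Parallel cells of a model. -/
def Model.Par (G' : Model G) : ∀ i : ℕ, G'.Cell i → G'.Cell i → Prop
  | 0, _, _ => True
  | _ + 1, x, y => G'.src x = G'.src y ∧ G'.tgt x = G'.tgt y

theorem homotopic_comp (hc : G.Contractible) (G' : Model G) {X : E} {i : ℕ} {f g : G.D i ⟶ X}
    (h : G.Parallel X i f g) (x : G'.obj.obj (op X)) :
    G'.Homotopic (G'.obj.map f.op x) (G'.obj.map g.op x) := by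
  obtain ⟨l, h1, h2⟩ := hc X i f g h
  refine ⟨G'.obj.map l.op x, ?_, ?_⟩
  · rw [← h1, map_comp_op]
    rfl
  · rw [← h2, map_comp_op]
    rfl

theorem par_comp (G' : Model G) {X : E} {i : ℕ} {f g : G.D i ⟶ X}
    (h : G.Parallel X i f g) (x : G'.obj.obj (op X)) :
    G'.Par i (G'.obj.map f.op x) (G'.obj.map g.op x) := by
  cases i with
  | zero => trivial
  | succ i =>
    obtain ⟨h1, h2⟩ := h
    constructor
    · change G'.obj.map (G.s i).op (G'.obj.map f.op x) = G'.obj.map (G.s i).op (G'.obj.map g.op x)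
      rw [← map_comp_op, ← map_comp_op, h1]
    · change G'.obj.map (G.t i).op (G'.obj.map f.op x) = G'.obj.map (G.t i).op (G'.obj.map g.op x)
      rw [← map_comp_op, ← map_comp_op, h2]

/-- Homotopy of cells is an equivalence relation. -/
theorem homotopic_refl (hc : G.Contractible) (G' : Model G) {i : ℕ} (x : G'.Cell i) :
    G'.Homotopic x x := by
  have hp : G.Parallel (G.D i) i (𝟙 _) (𝟙 _) := by
    cases i with
    | zero => trivial
    | succ i => exact ⟨rfl, rfl⟩
  have h := homotopic_comp hc G' hp x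
  rwa [map_id_op] at h

theorem homotopic_symm (hc : G.Contractible) (G' : Model G) {i : ℕ} {x y : G'.Cell i}
    (h : G'.Homotopic x y) : G'.Homotopic y x := by
  obtain ⟨l, rfl, rfl⟩ := h
  have hp : G.Parallel (G.D (i + 1)) i (G.t i) (G.s i) := by
    cases i with
    | zero => trivial
    | succ i => exact ⟨(G.s_st i).symm, (G.t_st i).symm⟩
  exact homotopic_comp hc G' hp l

theorem homotopic_trans (hG : G.IsExt) (hc : G.Contractible) (G' : Model G) {i : ℕ}
    {x y z : G'.Cell i} (h : G'.Homotopic x y) (h' : G'.Homotopic y z) : G'.Homotopic x z := by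
  -- use the globular sum with table (i + 1, i, i + 1); the right disk is `h`, the left one is `h'`
  obtain ⟨l, rfl, hl⟩ := h
  obtain ⟨l', hl', rfl⟩ := h'
  let T : Table :=
    { m := 1
      i := fun _ => i + 1
      i' := fun _ => i
      lt_left := fun _ => Nat.lt_succ_self i
      lt_right := fun _ => Nat.lt_succ_self i }
  obtain ⟨X, ε, hsum⟩ := hG T
  have hs : G.sTo (Nat.le_succ i) = G.s i := by
    rw [Globes.sTo_succ G (le_refl i), Globes.sTo_self, Category.id_comp]
  have ht : G.tTo (Nat.le_succ i) = G.t i := by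
    rw [Globes.tTo_succ G (le_refl i), Globes.tTo_self, Category.id_comp]
  let g : ∀ k : Fin (1 + 1), G'.obj.obj (op (G.D (i + 1))) := fun k => if k = 0 then l' else l
  obtain ⟨w, hw, -⟩ := G'.property T X ε hsum g (by
    intro k
    have h0 : g k.castSucc = l' := by
      have : k.castSucc = 0 := by
        have := Subsingleton.elim k (0 : Fin 1)
        rw [this]
        rfl
      rw [this]
      rfl
    have h1 : g k.succ = l := if_neg (Fin.succ_ne_zero k)
    change G'.obj.map (G.sTo (Nat.le_succ i)).op (g k.castSucc) =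
      G'.obj.map (G.tTo (Nat.le_succ i)).op (g k.succ)
    rw [hs, ht, h0, h1]
    exact hl'.trans hl.symm)
  have hw0 : G'.obj.map (ε 0).op w = l' := hw 0
  have hw1 : G'.obj.map (ε 1).op w = l := hw 1
  have hglue : G.s i ≫ ε 0 = G.t i ≫ ε 1 := by
    have h1 : G.sTo (Nat.le_succ i) ≫ ε 0 = G.tTo (Nat.le_succ i) ≫ ε 1 := hsum.glue 0
    rwa [hs, ht] at h1
  have hp : G.Parallel X i (G.s i ≫ ε 1) (G.t i ≫ ε 0) := by
    cases i with
    | zero => trivial
    | succ i =>
      constructor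
      · calc G.s i ≫ G.s (i + 1) ≫ ε 1 = (G.s i ≫ G.s (i + 1)) ≫ ε 1 :=
              (Category.assoc _ _ _).symm
          _ = (G.s i ≫ G.t (i + 1)) ≫ ε 1 := by rw [G.s_st]
          _ = G.s i ≫ G.t (i + 1) ≫ ε 1 := Category.assoc _ _ _
          _ = G.s i ≫ G.s (i + 1) ≫ ε 0 := by rw [hglue]
          _ = (G.s i ≫ G.s (i + 1)) ≫ ε 0 := (Category.assoc _ _ _).symm
          _ = (G.s i ≫ G.t (i + 1)) ≫ ε 0 := by rw [G.s_st]
          _ = G.s i ≫ G.t (i + 1) ≫ ε 0 := Category.assoc _ _ _
      · calc G.t i ≫ G.s (i + 1) ≫ ε 1 = (G.t i ≫ G.s (i + 1)) ≫ ε 1 :=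
              (Category.assoc _ _ _).symm
          _ = (G.t i ≫ G.t (i + 1)) ≫ ε 1 := by rw [G.t_st]
          _ = G.t i ≫ G.t (i + 1) ≫ ε 1 := Category.assoc _ _ _
          _ = G.t i ≫ G.s (i + 1) ≫ ε 0 := by rw [hglue]
          _ = (G.t i ≫ G.s (i + 1)) ≫ ε 0 := (Category.assoc _ _ _).symm
          _ = (G.t i ≫ G.t (i + 1)) ≫ ε 0 := by rw [G.t_st]
          _ = G.t i ≫ G.t (i + 1) ≫ ε 0 := Category.assoc _ _ _
  have h1 := homotopic_comp hc G' hp w
  rw [map_comp_op, map_comp_op, hw0, hw1] at h1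
  exact h1

end Pool.Agent.HH
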