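import Pool.Agent.HH.UFDefs
import Pool.Agent.HH.Pull
import Pool.Agent.HH.DiskOp

/-!
# HH 2b: isomorphisms are weak equivalences
-/

set_option autoImplicit false

namespace HH

open Classical CategoryTheory Opposite

open Pool.Agent.HH (Globes IsCoherator)

/-- units exist in every model if the disks are contractible -/
theorem exists_unit_of_disk {E : Sig} (hdisk : ∀ j L, (ofGlob E (diskG j)).MContr L)
    {M : Model E} [M.OpLaws] [M.toGlob.Laws] {y : M.C}
    (hy : M.ok y) : M.toGlob.Conn y y := by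
  have hv : (ofGlob E (diskG (M.dim y))).tok (Tm.var ((M.dim y, false) : D)) := Or.inr ⟨rfl, rfl⟩
  obtain ⟨t, h1, h2, h3, h4⟩ := hdisk (M.dim y) (M.dim y + 1)
    (.var (M.dim y, false)) (.var (M.dim y, false)) ⟨hv, hv, rfl, fun _ => ⟨rfl, rfl⟩⟩
    (Nat.lt_succ_self _)
  have hyv : M.toGlob.bd y (M.dim y, false) = y := bd_of_le y _ le_rfl
  obtain ⟨g1, g2, g3⟩ := atCell_mapAt hy rfl h1
  have h2' : (ofGlob E (diskG (M.dim y))).tdim t = M.dim y + 1 := h2
  obtain ⟨g4, g5⟩ := g3 (by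
    show 0 < (ofGlob E (diskG (M.dim y))).tdim t
    rw [h2']
    exact Nat.succ_pos _)
  refine ⟨M.eval (M.toGlob.bd y) t, g1, g2.trans h2, ?_, ?_⟩
  · exact g4.trans ((congrArg (M.eval (M.toGlob.bd y)) h3).trans hyv)
  · exact g5.trans ((congrArg (M.eval (M.toGlob.bd y)) h4).trans hyv)

/-- isomorphisms of raw models are weak equivalences -/
theorem isW_of_iso {E : Sig} (hdisk : ∀ j L, (ofGlob E (diskG j)).MContr L) {M N : RMod E}
    (e : M ≅ N) : RMod.IsW e.hom := by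
  have h1 : ∀ x : M.Cell, RHom.f e.inv (RHom.f e.hom x) = x := fun x =>
    congrFun (congrArg RHom.f e.hom_inv_id) x
  have h2 : ∀ y : N.Cell, RHom.f e.hom (RHom.f e.inv y) = y := fun y =>
    congrFun (congrArg RHom.f e.inv_hom_id) y
  have hN : N.M.toGlob.Laws := N.laws
  have hM : M.M.toGlob.Laws := M.laws
  have hNo : N.M.OpLaws := N.ops
  have key : ∀ (x x' : M.Cell) (h : N.Cell), N.M.dim h.1 = M.M.dim x.1 + 1 →
      N.M.src h.1 = (RHom.f e.hom x).1 → N.M.tgt h.1 = (RHom.f e.hom x').1 →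
      M.M.dim (RHom.f e.inv h).1 = M.M.dim x.1 + 1 ∧ M.M.src (RHom.f e.inv h).1 = x.1 ∧
        M.M.tgt (RHom.f e.inv h).1 = x'.1 := by
    intro x x' h hd hs ht
    have h0 : 0 < N.M.dim h.1 := by rw [hd]; exact Nat.succ_pos _
    refine ⟨(RHom.dim e.inv h).trans hd, ?_, ?_⟩
    · refine (RHom.src e.inv h h0).trans ?_
      have : (⟨N.M.src h.1, Glob.Laws.ok_src h.1 h.2 h0⟩ : N.Cell) = RHom.f e.hom x :=
        Subtype.ext hs
      rw [this, h1]
    · refine (RHom.tgt e.inv h h0).trans ?_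
      have : (⟨N.M.tgt h.1, Glob.Laws.ok_tgt h.1 h.2 h0⟩ : N.Cell) = RHom.f e.hom x' :=
        Subtype.ext ht
      rw [this, h1]
  refine ⟨fun y hy => ⟨RHom.f e.inv y, (RHom.dim e.inv y).trans hy, ?_⟩, ?_, ?_⟩
  · rw [h2]
    exact exists_unit_of_disk hdisk y.2
  · rintro x x' - ⟨h, hok, hd, hs, ht⟩
    have hd' : N.M.dim h = M.M.dim x.1 + 1 := hd.trans (congrArg (· + 1) (RHom.dim e.hom x))
    obtain ⟨k1, k2, k3⟩ := key x x' ⟨h, hok⟩ hd' hs ht
    exact ⟨_, (RHom.f e.inv ⟨h, hok⟩).2, k1, k2, k3⟩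
  · intro x x' _ h hd hs ht
    obtain ⟨k1, k2, k3⟩ := key x x' h hd hs ht
    refine ⟨RHom.f e.inv h, k1, k2, k3, ?_⟩
    rw [h2]
    exact exists_unit_of_disk hdisk h.2

variable {C : Type} [SmallCategory C] {F : Globes C}

/-- isomorphisms of official models are weak equivalences -/
theorem isWM_of_iso (hc : F.Contractible) {G G' : OMod F} (e : G ≅ G') : IsWM e.hom := by
  have h1 : ∀ {i : ℕ} (x : G.Cell i),
      Pool.Agent.HH.Model.mapCell e.inv (Pool.Agent.HH.Model.mapCell e.hom x) = x := by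
    intro i x
    have h := congrArg (fun φ : G ⟶ G => φ.hom.app (op (F.D i)) x) e.hom_inv_id
    exact h
  have h2 : ∀ {i : ℕ} (y : G'.Cell i),
      Pool.Agent.HH.Model.mapCell e.hom (Pool.Agent.HH.Model.mapCell e.inv y) = y := by
    intro i x
    have h := congrArg (fun φ : G' ⟶ G' => φ.hom.app (op (F.D i)) x) e.inv_hom_id
    exact h
  refine ⟨fun y => ⟨Pool.Agent.HH.Model.mapCell e.inv y, ?_⟩, ?_, ?_⟩
  · rw [h2]
    exact Pool.Agent.HH.homotopic_refl hc G' y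
  · intro i x x' _ h
    have h3 := h.mapCell e.inv
    rwa [h1, h1] at h3
  · intro i x x' _ h hs ht
    refine ⟨Pool.Agent.HH.Model.mapCell e.inv h, ?_, ?_, ?_⟩
    · rw [Pool.Agent.HH.Model.src_mapCell, hs, h1]
    · rw [Pool.Agent.HH.Model.tgt_mapCell, ht, h1]
    · rw [h2]
      exact Pool.Agent.HH.homotopic_refl hc G' h

end HH
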