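import Mathlib

/-!
# HH OFF-LOC: equivalent localisations (module to prove, pure category theory)

`W₁`, `W₂` are classes of arrows in `𝒜`, `ℬ`; `U : 𝒜 ⥤ ℬ` and `V : ℬ ⥤ 𝒜` send `W₁` into `W₂` and
`W₂` into `W₁`. Two functors are related if they are connected by a natural transformation, in one
direction or the other, all of whose components lie in the class (`Step`); `ZigZag` is the
equivalence relation generated by it. If `U ⋙ V` is connected to the identity of `𝒜` and `V ⋙ U` is connected to the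
identity of `ℬ` by zigzags, then the localisations are equivalent.

Proof. Let `Q : 𝒜 ⥤ W₁.Localization` be the localisation functor. A natural transformation
between functors `𝒳 ⥤ 𝒜` with components in `W₁` becomes an isomorphism after composition with `Q`
(`Localization.inverts`, `NatIso.ofComponents` / `NatTrans.isIso_iff_isIso_app`), so by induction
over the zigzag functors connected by a zigzag have isomorphic compositions with `Q`. The functors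
`U`, `V` induce functors between the localisations
(`Localization.Construction.lift` or `Functor.localizationMap` for `LocalizerMorphism`), their composites
restrict to `U ⋙ V ⋙ Q ≅ Q`, so they are isomorphic to the identity by the uniqueness of lifts of natural
isomorphisms (`Localization.liftNatIso`). Conclude with `CategoryTheory.Equivalence.mk`.
-/

universe v v' u u'

open CategoryTheory

namespace Pool.Agent.HH

variable {𝒜 : Type u} [Category.{v} 𝒜] {ℬ : Type u'} [Category.{v'} ℬ]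

/-- A natural transformation in one of the two directions with components in `W`. -/
def Step {𝒳 : Type u'} [Category.{v'} 𝒳] (W : MorphismProperty 𝒜) (H K : 𝒳 ⥤ 𝒜) : Prop :=
  (∃ τ : H ⟶ K, ∀ X, W (τ.app X)) ∨ (∃ τ : K ⟶ H, ∀ X, W (τ.app X))

/-- Functors connected by a zigzag of natural transformations with components in `W`. -/
def ZigZag {𝒳 : Type u'} [Category.{v'} 𝒳] (W : MorphismProperty 𝒜) (H K : 𝒳 ⥤ 𝒜) : Prop :=
  Relation.EqvGen (Step W) H K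

theorem locEq_step {𝒳 : Type u'} [Category.{v'} 𝒳] (W : MorphismProperty 𝒜) {H K : 𝒳 ⥤ 𝒜}
    (τ : H ⟶ K) (hτ : ∀ X, W (τ.app X)) : Nonempty (H ⋙ W.Q ≅ K ⋙ W.Q) := by
  have h1 : ∀ X, IsIso (W.Q.map (τ.app X)) := fun X => W.Q_inverts _ (hτ X)
  exact ⟨NatIso.ofComponents (fun X => @asIso _ _ _ _ (W.Q.map (τ.app X)) (h1 X)) (by
    intro X Y f
    simp only [Functor.comp_map, asIso_hom]
    rw [← W.Q.map_comp, ← W.Q.map_comp, τ.naturality])⟩

theorem locEq_zigzag {𝒳 : Type u'} [Category.{v'} 𝒳] (W : MorphismProperty 𝒜) {H K : 𝒳 ⥤ 𝒜}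
    (h : ZigZag W H K) : Nonempty (H ⋙ W.Q ≅ K ⋙ W.Q) := by
  induction h with
  | rel H K h =>
    rcases h with ⟨τ, hτ⟩ | ⟨τ, hτ⟩
    · exact locEq_step W τ hτ
    · exact (locEq_step W τ hτ).map Iso.symm
  | refl H => exact ⟨Iso.refl _⟩
  | symm H K _ ih => exact ih.map Iso.symm
  | trans H K L _ _ ih1 ih2 =>
    obtain ⟨e1⟩ := ih1
    obtain ⟨e2⟩ := ih2
    exact ⟨e1 ≪≫ e2⟩

theorem locEq_half (W₁ : MorphismProperty 𝒜) (W₂ : MorphismProperty ℬ)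
    (U : 𝒜 ⥤ ℬ) (V : ℬ ⥤ 𝒜) (hU : W₁.IsInvertedBy (U ⋙ W₂.Q)) (hV : W₂.IsInvertedBy (V ⋙ W₁.Q))
    (h₁ : Nonempty ((U ⋙ V) ⋙ W₁.Q ≅ 𝟭 𝒜 ⋙ W₁.Q)) :
    Nonempty (Localization.lift (U ⋙ W₂.Q) hU W₁.Q ⋙ Localization.lift (V ⋙ W₁.Q) hV W₂.Q ≅
      𝟭 W₁.Localization) := by
  obtain ⟨e⟩ := h₁
  let F := Localization.lift (U ⋙ W₂.Q) hU W₁.Q
  let G := Localization.lift (V ⋙ W₁.Q) hV W₂.Q
  let eF : W₁.Q ⋙ F ≅ U ⋙ W₂.Q := Localization.fac (U ⋙ W₂.Q) hU W₁.Q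
  let eG : W₂.Q ⋙ G ≅ V ⋙ W₁.Q := Localization.fac (V ⋙ W₁.Q) hV W₂.Q
  have e1 : W₁.Q ⋙ (F ⋙ G) ≅ W₁.Q :=
    (Functor.associator W₁.Q F G).symm ≪≫ Functor.isoWhiskerRight eF G ≪≫
      Functor.associator U W₂.Q G ≪≫ Functor.isoWhiskerLeft U eG ≪≫
      (Functor.associator U V W₁.Q).symm ≪≫ e ≪≫ Functor.leftUnitor _
  have : Localization.Lifting W₁.Q W₁ W₁.Q (F ⋙ G) := ⟨e1⟩
  exact ⟨Localization.liftNatIso W₁.Q W₁ W₁.Q W₁.Q (F ⋙ G) (𝟭 _) (Iso.refl _)⟩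

theorem localization_equivalence (W₁ : MorphismProperty 𝒜) (W₂ : MorphismProperty ℬ)
    (U : 𝒜 ⥤ ℬ) (V : ℬ ⥤ 𝒜) (hU : ∀ ⦃X Y : 𝒜⦄ (f : X ⟶ Y), W₁ f → W₂ (U.map f))
    (hV : ∀ ⦃X Y : ℬ⦄ (f : X ⟶ Y), W₂ f → W₁ (V.map f)) (h₁ : ZigZag W₁ (U ⋙ V) (𝟭 𝒜))
    (h₂ : ZigZag W₂ (V ⋙ U) (𝟭 ℬ)) : Nonempty (W₁.Localization ≌ W₂.Localization) := by
  have hU' : W₁.IsInvertedBy (U ⋙ W₂.Q) := fun X Y f hf => W₂.Q_inverts _ (hU f hf)
  have hV' : W₂.IsInvertedBy (V ⋙ W₁.Q) := fun X Y f hf => W₁.Q_inverts _ (hV f hf)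
  obtain ⟨e1⟩ := locEq_half W₁ W₂ U V hU' hV' (locEq_zigzag W₁ h₁)
  obtain ⟨e2⟩ := locEq_half W₂ W₁ V U hV' hU' (locEq_zigzag W₂ h₂)
  exact ⟨CategoryTheory.Equivalence.mk (Localization.lift (U ⋙ W₂.Q) hU' W₁.Q)
    (Localization.lift (V ⋙ W₁.Q) hV' W₂.Q) e1.symm e2⟩

end Pool.Agent.HH
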