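import Pool.Agent.HH.MD

/-!
# HH stage 2b: the functor from official models to raw models of the extended signature (definitions)
-/

set_option autoImplicit false

namespace HH

open Classical CategoryTheory Opposite

open Pool.Agent.HH (Globes)

variable {C : Type} [SmallCategory C] {F : Globes C}

/-- a natural transformation commutes with the operations (on typed families) -/
theorem natC_app (hF : F.IsExt) {P Q : Cᵒᵖ ⥤ Type} (hP : Pool.Agent.HH.IsModel F P)
    (hQ : Pool.Agent.HH.IsModel F Q) (φ : P ⟶ Q) {A : PC} (c : GC F (rO hF A))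
    (γ : A.P → (GG F P).C) (hγ : ∀ p, MapAt A.G (GG F P) γ p) :
    natC F φ (app hF P c γ) = app hF Q c (fun p => natC F φ (γ p)) := by
  obtain ⟨x, hx, -⟩ := rO_up hF hP γ hγ
  rw [app_spec hF hP c γ x hx, natC_act]
  refine (app_spec hF hQ c _ (φ.app _ x) fun p => ?_).symm
  rw [← natC_act, hx p]

/-- The raw model of an official model. -/
noncomputable def MDR (hF : F.IsExt) (hc : F.Contractible) (G : OMod F) : RMod (EE C) where
  M := MD hF G.obj
  laws := GG_laws (F := F) G.obj
  ops := MD_opLaws hF hc G.property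

/-- The functor from official models to raw models of the extended signature. -/
noncomputable def UF (hF : F.IsExt) (hc : F.Contractible) : OMod F ⥤ RMod (EE C) where
  obj G := MDR hF hc G
  map {G G'} φ := RHom.ofFun (M := MDR hF hc G) (N := MDR hF hc G') (natC F φ.hom)
    (fun x _ => natC_mapAt φ.hom x)
    (fun k _ γ hγ => match k, γ, hγ with
      | .inl _, γ, hγ => natC_app hF G.property G'.property φ.hom _ γ hγ
      | .inr _, γ, hγ => natC_app hF G.property G'.property φ.hom _ γ hγ)
  map_id G := by
    apply RHom.ext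
    rfl
  map_comp φ ψ := by
    apply RHom.ext
    rfl

/-- The weak equivalences of official models, in the form used for raw models. -/
def IsWM {G G' : OMod F} (φ : G ⟶ G') : Prop :=
  (∀ y : G'.Cell 0, ∃ x : G.Cell 0, G'.Homotopic (Pool.Agent.HH.Model.mapCell φ x) y) ∧
  (∀ (i : ℕ) (x x' : G.Cell i), G.Par i x x' →
    G'.Homotopic (Pool.Agent.HH.Model.mapCell φ x) (Pool.Agent.HH.Model.mapCell φ x') →
    G.Homotopic x x') ∧
  ∀ (i : ℕ) (x x' : G.Cell i), G.Par i x x' → ∀ h : G'.Cell (i + 1),
    G'.src h = Pool.Agent.HH.Model.mapCell φ x → G'.tgt h = Pool.Agent.HH.Model.mapCell φ x' →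
    ∃ h' : G.Cell (i + 1), G.src h' = x ∧ G.tgt h' = x' ∧
      G'.Homotopic (Pool.Agent.HH.Model.mapCell φ h') h

end HH
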