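import Pool.Agent.HH.Pull
import Pool.Agent.HH.UFDefs

/-!
# HH 2b OGRP: composition and inverses of cells in official models

Contractibility of `F` gives an arrow `v : F.D (i+1) ⟶ F.D (i+1)` exchanging source and target and, for the sum `X` of two
disks of dimension `i + 1` glued along an `i`-disk, an arrow `c : F.D (i+1) ⟶ X` from the source of the first cell to the target
of the second. `inv G x := G.map v.op x`; `comp G x y` is the restriction along `c` of the element of `G X` with components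
`x`, `y`.
-/

set_option autoImplicit false

namespace HH

open Classical CategoryTheory Opposite

open Pool.Agent.HH (Globes)

variable {C : Type} [SmallCategory C] {F : Globes C}

/-- Composition and inverses of cells, natural, with the groupoid laws that are needed. -/
structure OGrp (F : Globes C) where
  inv : ∀ (G : OMod F) {i : ℕ}, G.Cell (i + 1) → G.Cell (i + 1)
  comp : ∀ (G : OMod F) {i : ℕ}, G.Cell (i + 1) → G.Cell (i + 1) → G.Cell (i + 1)
  src_inv : ∀ (G : OMod F) {i : ℕ} (x : G.Cell (i + 1)), G.src (inv G x) = G.tgt x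
  tgt_inv : ∀ (G : OMod F) {i : ℕ} (x : G.Cell (i + 1)), G.tgt (inv G x) = G.src x
  src_comp : ∀ (G : OMod F) {i : ℕ} (x y : G.Cell (i + 1)), G.tgt x = G.src y →
    G.src (comp G x y) = G.src x
  tgt_comp : ∀ (G : OMod F) {i : ℕ} (x y : G.Cell (i + 1)), G.tgt x = G.src y →
    G.tgt (comp G x y) = G.tgt y
  map_inv : ∀ {G G' : OMod F} (φ : G ⟶ G') {i : ℕ} (x : G.Cell (i + 1)),
    Pool.Agent.HH.Model.mapCell φ (inv G x) = inv G' (Pool.Agent.HH.Model.mapCell φ x)
  map_comp : ∀ {G G' : OMod F} (φ : G ⟶ G') {i : ℕ} (x y : G.Cell (i + 1)), G.tgt x = G.src y →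
    Pool.Agent.HH.Model.mapCell φ (comp G x y) =
      comp G' (Pool.Agent.HH.Model.mapCell φ x) (Pool.Agent.HH.Model.mapCell φ y)
  cancel : ∀ (G : OMod F) {i : ℕ} (h k : G.Cell (i + 1)), G.tgt h = G.src k →
    G.Homotopic (comp G (comp G h k) (inv G k)) h
  congr : ∀ (G : OMod F) {i : ℕ} (x x' y : G.Cell (i + 1)), G.tgt x = G.src y →
    G.Homotopic x x' → G.Homotopic (comp G x y) (comp G x' y)

private theorem ogrp_comp_op (G' : Cᵒᵖ ⥤ Type) {X Y Z : C} (f : X ⟶ Y) (g : Y ⟶ Z)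
    (x : G'.obj (op Z)) : G'.map (f ≫ g).op x = G'.map f.op (G'.map g.op x) := by
  rw [op_comp, G'.map_comp]
  rfl

private theorem ogrp_nat {G G' : OMod F} (φ : G ⟶ G') {X Y : C} (f : X ⟶ Y)
    (x : G.obj.obj (op Y)) :
    φ.hom.app (op X) (G.obj.map f.op x) = G'.obj.map f.op (φ.hom.app (op Y) x) :=
  ConcreteCategory.congr_hom (φ.hom.naturality f.op) x

/-- Two disks glued along a disk; `p` is the first cell, `q` the second one. -/
structure Bin (F : Globes C) {i a b : ℕ} (τ : F.D i ⟶ F.D a) (σ : F.D i ⟶ F.D b) where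
  X : C
  p : F.D a ⟶ X
  q : F.D b ⟶ X
  glue : τ ≫ p = σ ≫ q
  desc : ∀ {Y : C} (x : F.D a ⟶ Y) (y : F.D b ⟶ Y), τ ≫ x = σ ≫ y →
    ∃ f : X ⟶ Y, p ≫ f = x ∧ q ≫ f = y
  mdl : ∀ (G : OMod F) (x : G.Cell a) (y : G.Cell b), G.obj.map τ.op x = G.obj.map σ.op y →
    ∃! w : G.obj.obj (op X), G.obj.map p.op w = x ∧ G.obj.map q.op w = y

theorem exists_bin (hF : F.IsExt) {i a b : ℕ} (ha : i < a) (hb : i < b) :
    Nonempty (Bin F (F.tTo ha.le) (F.sTo hb.le)) := by
  let T : Pool.Agent.HH.Table :=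
    { m := 1
      i := fun k => Fin.cases (motive := fun _ => ℕ) b (fun _ => a) k
      i' := fun _ => i
      lt_left := fun k => by
        have : k = 0 := Subsingleton.elim _ _
        subst this
        exact hb
      lt_right := fun k => ha }
  obtain ⟨X, ε, hsum⟩ := hF T
  have two : ∀ {P : Fin (1 + 1) → Prop}, P 0 → P 1 → ∀ k, P k := by
    intro P h0 h1 k
    refine Fin.cases h0 (fun j => ?_) k
    have : j = 0 := Subsingleton.elim _ _
    subst this
    exact h1
  refine ⟨⟨X, ε 1, ε 0, (hsum.glue 0).symm, ?_, ?_⟩⟩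
  · intro Y x y hxy
    obtain ⟨f, hf, -⟩ := hsum.desc Y
      (fun k => Fin.cases (motive := fun k => F.D (T.i k) ⟶ Y) y (fun _ => x) k) (by
        intro k
        have : k = 0 := Subsingleton.elim _ _
        subst this
        exact hxy.symm)
    exact ⟨f, hf 1, hf 0⟩
  · intro G x y hxy
    obtain ⟨w, hw, hu⟩ := G.property T X ε hsum
      (fun k => Fin.cases (motive := fun k => G.obj.obj (op (F.D (T.i k)))) y (fun _ => x) k) (by
        intro k
        have : k = 0 := Subsingleton.elim _ _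
        subst this
        exact hxy.symm)
    refine ⟨w, ⟨hw 1, hw 0⟩, fun w' hw' => hu w' ?_⟩
    exact two hw'.2 hw'.1

theorem exists_bin1 (hF : F.IsExt) (i : ℕ) : Nonempty (Bin F (F.t i) (F.s i)) := by
  have hs : F.sTo (Nat.le_succ i) = F.s i := by
    rw [Globes.sTo_succ F (le_refl i), Globes.sTo_self, Category.id_comp]
  have ht : F.tTo (Nat.le_succ i) = F.t i := by
    rw [Globes.tTo_succ F (le_refl i), Globes.tTo_self, Category.id_comp]
  have h := exists_bin hF (Nat.lt_succ_self i) (Nat.lt_succ_self i)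
  rw [hs, ht] at h
  exact h

theorem exists_bin2 (hF : F.IsExt) (i : ℕ) :
    Nonempty (Bin F (F.t i ≫ F.t (i + 1)) (F.s i)) := by
  have hs : F.sTo (Nat.le_succ i) = F.s i := by
    rw [Globes.sTo_succ F (le_refl i), Globes.sTo_self, Category.id_comp]
  have ht : F.tTo (show i ≤ i + 2 by omega) = F.t i ≫ F.t (i + 1) := by
    rw [Globes.tTo_succ F (Nat.le_succ i), Globes.tTo_succ F (le_refl i), Globes.tTo_self,
      Category.id_comp]
  have h := exists_bin hF (show i < i + 2 by omega) (Nat.lt_succ_self i)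
  rw [hs, ht] at h
  exact h

/-- the data: inverse and composition arrows -/
structure GrpData (F : Globes C) (i : ℕ) where
  B : Bin F (F.t i) (F.s i)
  v : F.D (i + 1) ⟶ F.D (i + 1)
  c : F.D (i + 1) ⟶ B.X
  s_v : F.s i ≫ v = F.t i
  t_v : F.t i ≫ v = F.s i
  s_c : F.s i ≫ c = F.s i ≫ B.p
  t_c : F.t i ≫ c = F.t i ≫ B.q

theorem exists_grpData (hF : F.IsExt) (hc : F.Contractible) (i : ℕ) :
    Nonempty (GrpData F i) := by
  obtain ⟨B⟩ := exists_bin1 hF i
  obtain ⟨v, hv1, hv2⟩ := hc (F.D (i + 1)) i (F.t i) (F.s i) (by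
    cases i with
    | zero => trivial
    | succ i => exact ⟨(F.s_st i).symm, (F.t_st i).symm⟩)
  obtain ⟨c, hc1, hc2⟩ := hc B.X i (F.s i ≫ B.p) (F.t i ≫ B.q) (by
    have hglue := B.glue
    cases i with
    | zero => trivial
    | succ i =>
      constructor
      · rw [← Category.assoc, F.s_st, Category.assoc, B.glue, ← Category.assoc, F.s_st,
          Category.assoc]
      · rw [← Category.assoc, F.t_st, Category.assoc, B.glue, ← Category.assoc, F.t_st,
          Category.assoc])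
  exact ⟨⟨B, v, c, hv1, hv2, hc1, hc2⟩⟩

namespace GrpData

variable {i : ℕ} (K : GrpData F i)

/-- the composite -/
noncomputable def cmp (G : OMod F) (x y : G.Cell (i + 1)) : G.Cell (i + 1) :=
  if h : G.tgt x = G.src y then G.obj.map K.c.op (K.B.mdl G x y h).choose else x

theorem cmp_eq (G : OMod F) (x y : G.Cell (i + 1)) (h : G.tgt x = G.src y)
    (w : G.obj.obj (op K.B.X)) (h1 : G.obj.map K.B.p.op w = x) (h2 : G.obj.map K.B.q.op w = y) :
    K.cmp G x y = G.obj.map K.c.op w := by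
  unfold cmp
  rw [dif_pos h]
  have hs := (K.B.mdl G x y h).choose_spec
  rw [hs.2 w ⟨h1, h2⟩]

theorem cmp_w (G : OMod F) (x y : G.Cell (i + 1)) (h : G.tgt x = G.src y) :
    ∃ w : G.obj.obj (op K.B.X), G.obj.map K.B.p.op w = x ∧ G.obj.map K.B.q.op w = y ∧
      K.cmp G x y = G.obj.map K.c.op w := by
  obtain ⟨w, ⟨h1, h2⟩, -⟩ := K.B.mdl G x y h
  exact ⟨w, h1, h2, K.cmp_eq G x y h w h1 h2⟩

theorem src_cmp (G : OMod F) (x y : G.Cell (i + 1)) (h : G.tgt x = G.src y) :
    G.src (K.cmp G x y) = G.src x := by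
  obtain ⟨w, h1, h2, h3⟩ := K.cmp_w G x y h
  rw [h3]
  change G.obj.map (F.s i).op (G.obj.map K.c.op w) = G.obj.map (F.s i).op x
  rw [← ogrp_comp_op, K.s_c, ogrp_comp_op, h1]

theorem tgt_cmp (G : OMod F) (x y : G.Cell (i + 1)) (h : G.tgt x = G.src y) :
    G.tgt (K.cmp G x y) = G.tgt y := by
  obtain ⟨w, h1, h2, h3⟩ := K.cmp_w G x y h
  rw [h3]
  change G.obj.map (F.t i).op (G.obj.map K.c.op w) = G.obj.map (F.t i).op y
  rw [← ogrp_comp_op, K.t_c, ogrp_comp_op, h2]

theorem map_cmp {G G' : OMod F} (φ : G ⟶ G') (x y : G.Cell (i + 1)) (h : G.tgt x = G.src y) :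
    Pool.Agent.HH.Model.mapCell φ (K.cmp G x y) =
      K.cmp G' (Pool.Agent.HH.Model.mapCell φ x) (Pool.Agent.HH.Model.mapCell φ y) := by
  obtain ⟨w, h1, h2, h3⟩ := K.cmp_w G x y h
  have h' : G'.tgt (Pool.Agent.HH.Model.mapCell φ x) =
      G'.src (Pool.Agent.HH.Model.mapCell φ y) := by
    rw [Pool.Agent.HH.Model.tgt_mapCell, Pool.Agent.HH.Model.src_mapCell, h]
  rw [K.cmp_eq G' _ _ h' (φ.hom.app (op K.B.X) w) (by rw [← ogrp_nat, h1]; rfl)
    (by rw [← ogrp_nat, h2]; rfl), h3, ← ogrp_nat]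
  rfl

theorem src_iv (G : OMod F) (x : G.Cell (i + 1)) :
    G.src (G.obj.map K.v.op x) = G.tgt x := by
  change G.obj.map (F.s i).op (G.obj.map K.v.op x) = G.obj.map (F.t i).op x
  rw [← ogrp_comp_op, K.s_v]

theorem tgt_iv (G : OMod F) (x : G.Cell (i + 1)) :
    G.tgt (G.obj.map K.v.op x) = G.src x := by
  change G.obj.map (F.t i).op (G.obj.map K.v.op x) = G.obj.map (F.s i).op x
  rw [← ogrp_comp_op, K.t_v]

theorem cancel (hc : F.Contractible) (G : OMod F) (h k : G.Cell (i + 1))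
    (hk : G.tgt h = G.src k) :
    G.Homotopic (K.cmp G (K.cmp G h k) (G.obj.map K.v.op k)) h := by
  obtain ⟨w, h1, h2, h3⟩ := K.cmp_w G h k hk
  obtain ⟨e, e1, e2⟩ := K.B.desc K.c (K.v ≫ K.B.q) (by
    rw [K.t_c, ← Category.assoc, K.s_v])
  have hg : G.tgt (K.cmp G h k) = G.src (G.obj.map K.v.op k) := by
    rw [K.tgt_cmp G h k hk, K.src_iv]
  have h4 := K.cmp_eq G (K.cmp G h k) (G.obj.map K.v.op k) hg (G.obj.map e.op w)
    (by rw [← ogrp_comp_op, e1, h3]) (by rw [← ogrp_comp_op, e2, ogrp_comp_op, h2])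
  rw [h4, ← ogrp_comp_op]
  have hp : F.Parallel K.B.X (i + 1) (K.c ≫ e) K.B.p := by
    constructor
    · rw [← Category.assoc, K.s_c, Category.assoc, e1, K.s_c]
    · rw [← Category.assoc, K.t_c, Category.assoc, e2, ← Category.assoc, K.t_v, K.B.glue]
  have h5 := Pool.Agent.HH.homotopic_comp hc G hp w
  rw [h1] at h5
  exact h5

theorem congr (hF : F.IsExt) (hc : F.Contractible) (G : OMod F) (x x' y : G.Cell (i + 1))
    (hxy : G.tgt x = G.src y) (hx : G.Homotopic x x') :
    G.Homotopic (K.cmp G x y) (K.cmp G x' y) := by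
  obtain ⟨z, rfl, rfl⟩ := hx
  obtain ⟨B'⟩ := exists_bin2 hF i
  have hts : G.tgt (G.tgt z) = G.tgt (G.src z) := by
    change G.obj.map (F.t i).op (G.obj.map (F.t (i + 1)).op z) =
      G.obj.map (F.t i).op (G.obj.map (F.s (i + 1)).op z)
    rw [← ogrp_comp_op, ← ogrp_comp_op, F.t_st]
  obtain ⟨w, ⟨h1, h2⟩, -⟩ := B'.mdl G z y (by
    rw [ogrp_comp_op]
    exact hts.trans hxy)
  obtain ⟨f1, a1, a2⟩ := K.B.desc (F.s (i + 1) ≫ B'.p) B'.q (by
    rw [← Category.assoc, F.t_st, B'.glue])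
  obtain ⟨f2, b1, b2⟩ := K.B.desc (F.t (i + 1) ≫ B'.p) B'.q (by
    rw [← Category.assoc, B'.glue])
  have h3 := K.cmp_eq G (G.src z) y hxy (G.obj.map f1.op w)
    (by rw [← ogrp_comp_op, a1, ogrp_comp_op, h1]; rfl) (by rw [← ogrp_comp_op, a2, h2])
  have h4 := K.cmp_eq G (G.tgt z) y (hts.trans hxy) (G.obj.map f2.op w)
    (by rw [← ogrp_comp_op, b1, ogrp_comp_op, h1]; rfl) (by rw [← ogrp_comp_op, b2, h2])
  rw [h3, h4, ← ogrp_comp_op, ← ogrp_comp_op]
  refine Pool.Agent.HH.homotopic_comp hc G ?_ w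
  constructor
  · rw [← Category.assoc, K.s_c, Category.assoc, a1, ← Category.assoc, F.s_st,
      ← Category.assoc (F.s i) K.c f2, K.s_c, Category.assoc, Category.assoc, b1]
  · rw [← Category.assoc, K.t_c, Category.assoc, a2, ← Category.assoc, K.t_c, Category.assoc, b2]

end GrpData

theorem exists_ogrp (hF : F.IsExt) (hc : F.Contractible) : Nonempty (OGrp F) := by
  let K : ∀ i, GrpData F i := fun i => Classical.choice (exists_grpData hF hc i)
  exact ⟨{
    inv := fun G {i} x => G.obj.map (K i).v.op x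
    comp := fun G {i} x y => (K i).cmp G x y
    src_inv := fun G {i} x => (K i).src_iv G x
    tgt_inv := fun G {i} x => (K i).tgt_iv G x
    src_comp := fun G {i} x y h => (K i).src_cmp G x y h
    tgt_comp := fun G {i} x y h => (K i).tgt_cmp G x y h
    map_inv := fun {G G'} φ {i} x => ogrp_nat φ (K i).v x
    map_comp := fun {G G'} φ {i} x y h => (K i).map_cmp φ x y h
    cancel := fun G {i} h k hk => (K i).cancel hc G h k hk
    congr := fun G {i} x x' y h hx => (K i).congr hF hc G x x' y h hx }⟩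

end HH
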