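import Pool.Agent.HH.BCO
import Pool.Agent.HH.OGrp

/-!
# HH 2b PIAB: infinity-equivalences = weak equivalences

Homotopy of cells is an equivalence relation. `isEquiv_of_isWM` follows directly from the three properties of `IsWM`;
`isWM_of_isEquiv` uses base change of loops (`base_change`) and composition and inverses (`exists_ogrp`).
-/

set_option autoImplicit false

namespace HH

open Classical CategoryTheory Opposite

open Pool.Agent.HH (Globes IsCoherator)

variable {C : Type} [SmallCategory C] {F : Globes C}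

theorem homot_equiv (hC : IsCoherator F) (G : OMod F) (i : ℕ) :
    Equivalence (G.Homotopic (i := i)) :=
  ⟨fun x => Pool.Agent.HH.homotopic_refl hC.contractible G x,
    fun h => Pool.Agent.HH.homotopic_symm hC.contractible G h,
    fun h h' => Pool.Agent.HH.homotopic_trans hC.ext hC.contractible G h h'⟩

theorem loop_equiv (hC : IsCoherator F) (κ : Pool.Agent.HH.Units F) (G : OMod F) (i : ℕ)
    (x : G.Cell 0) : Equivalence (fun a b : G.Loop κ i x => G.Homotopic a.1 b.1) :=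
  ⟨fun a => (homot_equiv hC G (i + 1)).refl a.1, fun h => (homot_equiv hC G (i + 1)).symm h,
    fun h h' => (homot_equiv hC G (i + 1)).trans h h'⟩

theorem par_refl (G : OMod F) (i : ℕ) (x : G.Cell i) : G.Par i x x := by
  cases i with
  | zero => trivial
  | succ i => exact ⟨rfl, rfl⟩

theorem isEquiv_of_isWM (hC : IsCoherator F) (κ : Pool.Agent.HH.Units F) {G G' : OMod F}
    (φ : G ⟶ G') (h : IsWM φ) : Pool.Agent.HH.Model.IsEquiv κ φ := by
  obtain ⟨h0, h1, h2⟩ := h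
  refine ⟨⟨?_, ?_⟩, fun i x => ⟨?_, ?_⟩⟩
  · rintro ⟨a⟩ ⟨b⟩ hab
    have h3 : (Quot.mk (G'.Homotopic (i := 0)) (Pool.Agent.HH.Model.mapCell φ a)) =
        Quot.mk (G'.Homotopic (i := 0)) (Pool.Agent.HH.Model.mapCell φ b) := hab
    rw [(homot_equiv hC G' 0).quot_mk_eq_iff] at h3
    exact Quot.sound (h1 0 a b trivial h3)
  · rintro ⟨y⟩
    obtain ⟨x, hx⟩ := h0 y
    exact ⟨Quot.mk _ x, Quot.sound hx⟩
  · rintro ⟨a⟩ ⟨b⟩ hab
    have h3 : Quot.mk (fun a b : G'.Loop κ i (Pool.Agent.HH.Model.mapCell φ x) =>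
          G'.Homotopic a.1 b.1) (Pool.Agent.HH.Model.loopMap κ φ i x a) =
        Quot.mk _ (Pool.Agent.HH.Model.loopMap κ φ i x b) := hab
    rw [(loop_equiv hC κ G' i _).quot_mk_eq_iff] at h3
    exact Quot.sound (h1 (i + 1) a.1 b.1 ⟨a.2.1.trans b.2.1.symm, a.2.2.trans b.2.2.symm⟩ h3)
  · rintro ⟨b⟩
    obtain ⟨h', h3, h4, h5⟩ := h2 i (G.iterUnit κ x i) (G.iterUnit κ x i)
      (par_refl G i _) b.1
      (b.2.1.trans (Pool.Agent.HH.Model.mapCell_iterUnit κ φ x i).symm)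
      (b.2.2.trans (Pool.Agent.HH.Model.mapCell_iterUnit κ φ x i).symm)
    exact ⟨Quot.mk _ ⟨h', h3, h4⟩, Quot.sound h5⟩

theorem src0_mapCell {G G' : OMod F} (φ : G ⟶ G') {i : ℕ} (u : G.Cell i) :
    src0 (Pool.Agent.HH.Model.mapCell φ u) = Pool.Agent.HH.Model.mapCell φ (src0 u) := by
  induction i with
  | zero => rfl
  | succ i ih =>
    show src0 (G'.src (Pool.Agent.HH.Model.mapCell φ u)) = _
    rw [Pool.Agent.HH.Model.src_mapCell]
    exact ih (G.src u)

theorem OLoop.map {κ : Pool.Agent.HH.Units F} {G G' : OMod F} (φ : G ⟶ G') {i : ℕ}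
    {u : G.Cell i} {l : G.Cell (i + 1)} (hl : OLoop κ G i (src0 u) l) :
    OLoop κ G' i (src0 (Pool.Agent.HH.Model.mapCell φ u)) (Pool.Agent.HH.Model.mapCell φ l) := by
  constructor
  · rw [Pool.Agent.HH.Model.src_mapCell, hl.1, Pool.Agent.HH.Model.mapCell_iterUnit, src0_mapCell]
  · rw [Pool.Agent.HH.Model.tgt_mapCell, hl.2, Pool.Agent.HH.Model.mapCell_iterUnit, src0_mapCell]

/-- injectivity and surjectivity on loops at all cells -/
theorem loops_all (hC : IsCoherator F) (κ : Pool.Agent.HH.Units F) {G G' : OMod F}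
    (φ : G ⟶ G') (h : Pool.Agent.HH.Model.IsEquiv κ φ) :
    (∀ (i : ℕ) (u : G.Cell i) (l l' : G.Cell (i + 1)), G.src l = u → G.tgt l = u →
      G.src l' = u → G.tgt l' = u → G'.Homotopic (Pool.Agent.HH.Model.mapCell φ l)
        (Pool.Agent.HH.Model.mapCell φ l') → G.Homotopic l l') ∧
    ∀ (i : ℕ) (u : G.Cell i) (m : G'.Cell (i + 1)),
      G'.src m = Pool.Agent.HH.Model.mapCell φ u → G'.tgt m = Pool.Agent.HH.Model.mapCell φ u →
      ∃ l : G.Cell (i + 1), G.src l = u ∧ G.tgt l = u ∧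
        G'.Homotopic (Pool.Agent.HH.Model.mapCell φ l) m := by
  obtain ⟨T, T1, T2, T3, T4⟩ := base_change hC κ
  have eG := fun i => homot_equiv hC G i
  have eG' := fun i => homot_equiv hC G' i
  constructor
  · intro i u l l' h1 h2 h3 h4 h5
    obtain ⟨p, hp, hpl⟩ := T3 G i u l h1 h2
    obtain ⟨p', hp', hpl'⟩ := T3 G i u l' h3 h4
    have a1 : G'.Homotopic (T G' i (Pool.Agent.HH.Model.mapCell φ u)
        (Pool.Agent.HH.Model.mapCell φ p)) (Pool.Agent.HH.Model.mapCell φ l) := by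
      rw [← T4 G G' φ i u p hp]
      exact hpl.mapCell φ
    have a2 : G'.Homotopic (T G' i (Pool.Agent.HH.Model.mapCell φ u)
        (Pool.Agent.HH.Model.mapCell φ p')) (Pool.Agent.HH.Model.mapCell φ l') := by
      rw [← T4 G G' φ i u p' hp']
      exact hpl'.mapCell φ
    have a3 := (T2 G' i (Pool.Agent.HH.Model.mapCell φ u) _ _ (hp.map φ) (hp'.map φ)).2
      ((eG' _).trans a1 ((eG' _).trans h5 ((eG' _).symm a2)))
    have a4 : Pool.Agent.HH.Model.piMap κ φ i (src0 u) (Quot.mk _ ⟨p, hp⟩) =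
        Pool.Agent.HH.Model.piMap κ φ i (src0 u) (Quot.mk _ ⟨p', hp'⟩) := Quot.sound a3
    have a5 := (h.2 i (src0 u)).1 a4
    have a6 : Quot.mk (fun a b : G.Loop κ i (src0 u) => G.Homotopic a.1 b.1) ⟨p, hp⟩ =
      Quot.mk _ ⟨p', hp'⟩ := a5
    rw [(loop_equiv hC κ G i (src0 u)).quot_mk_eq_iff] at a6
    have a7 := (T2 G i u p p' hp hp').1 a6
    exact (eG _).trans ((eG _).symm hpl) ((eG _).trans a7 hpl')
  · intro i u m h1 h2
    obtain ⟨q, hq, hqm⟩ := T3 G' i (Pool.Agent.HH.Model.mapCell φ u) m h1 h2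
    have hq' : OLoop κ G' i (Pool.Agent.HH.Model.mapCell φ (src0 u)) q := by
      rw [← src0_mapCell]
      exact hq
    obtain ⟨⟨p, hp⟩, hpq⟩ := (h.2 i (src0 u)).2 (Quot.mk _ ⟨q, hq'⟩)
    have a1 : Quot.mk (fun a b : G'.Loop κ i (Pool.Agent.HH.Model.mapCell φ (src0 u)) =>
        G'.Homotopic a.1 b.1) (Pool.Agent.HH.Model.loopMap κ φ i (src0 u) ⟨p, hp⟩) =
      Quot.mk _ ⟨q, hq'⟩ := hpq
    rw [(loop_equiv hC κ G' i _).quot_mk_eq_iff] at a1
    have hp0 : OLoop κ G i (src0 u) p := hp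
    have a2 := (T2 G' i (Pool.Agent.HH.Model.mapCell φ u) _ _ (hp0.map φ) hq).1 a1
    rw [← T4 G G' φ i u p hp0] at a2
    exact ⟨T G i u p, (T1 G i u p hp0).1, (T1 G i u p hp0).2, (eG' _).trans a2 hqm⟩

theorem isWM_of_isEquiv (hC : IsCoherator F) (κ : Pool.Agent.HH.Units F) {G G' : OMod F}
    (φ : G ⟶ G') (h : Pool.Agent.HH.Model.IsEquiv κ φ) : IsWM φ := by
  obtain ⟨L1, L2⟩ := loops_all hC κ φ h
  obtain ⟨g⟩ := exists_ogrp hC.ext hC.contractible
  have eG := fun i => homot_equiv hC G i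
  have eG' := fun i => homot_equiv hC G' i
  have inj : ∀ (i : ℕ) (x x' : G.Cell i), G.Par i x x' →
      G'.Homotopic (Pool.Agent.HH.Model.mapCell φ x) (Pool.Agent.HH.Model.mapCell φ x') →
      G.Homotopic x x' := by
    intro i x x' hp hx
    cases i with
    | zero =>
      have a1 : Pool.Agent.HH.Model.pi0Map φ (Quot.mk _ x) =
          Pool.Agent.HH.Model.pi0Map φ (Quot.mk _ x') := Quot.sound hx
      have a2 : Quot.mk (G.Homotopic (i := 0)) x = Quot.mk _ x' := h.1.1 a1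
      rwa [(homot_equiv hC G 0).quot_mk_eq_iff] at a2
    | succ i =>
      obtain ⟨hs, ht⟩ := hp
      have c1 : G.tgt x = G.src (g.inv G x') := by rw [g.src_inv, ht]
      have c2 : G.tgt x' = G.src (g.inv G x') := by rw [g.src_inv]
      have s1 : G.src (g.comp G x (g.inv G x')) = G.src x := g.src_comp G _ _ c1
      have s2 : G.tgt (g.comp G x (g.inv G x')) = G.src x := by
        rw [g.tgt_comp G _ _ c1, g.tgt_inv, hs]
      have s3 : G.src (g.comp G x' (g.inv G x')) = G.src x := by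
        rw [g.src_comp G _ _ c2, hs]
      have s4 : G.tgt (g.comp G x' (g.inv G x')) = G.src x := by
        rw [g.tgt_comp G _ _ c2, g.tgt_inv, hs]
      have c3 : G'.tgt (Pool.Agent.HH.Model.mapCell φ x) =
          G'.src (g.inv G' (Pool.Agent.HH.Model.mapCell φ x')) := by
        rw [g.src_inv, Pool.Agent.HH.Model.tgt_mapCell, Pool.Agent.HH.Model.tgt_mapCell, ht]
      have a1 : G'.Homotopic (Pool.Agent.HH.Model.mapCell φ (g.comp G x (g.inv G x')))
          (Pool.Agent.HH.Model.mapCell φ (g.comp G x' (g.inv G x'))) := by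
        rw [g.map_comp φ _ _ c1, g.map_comp φ _ _ c2, g.map_inv φ]
        exact g.congr G' _ _ _ c3 hx
      have a2 := L1 i (G.src x) _ _ s1 s2 s3 s4 a1
      have c4 : G.tgt (g.comp G x (g.inv G x')) = G.src (g.inv G (g.inv G x')) := by
        rw [s2, g.src_inv, g.tgt_inv, hs]
      have a3 := g.congr G _ _ (g.inv G (g.inv G x')) c4 a2
      exact (eG _).trans ((eG _).symm (g.cancel G x (g.inv G x') c1))
        ((eG _).trans a3 (g.cancel G x' (g.inv G x') c2))
  refine ⟨?_, inj, ?_⟩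
  · intro y
    obtain ⟨⟨x⟩, hx⟩ := h.1.2 (Quot.mk _ y)
    have a1 : Quot.mk (G'.Homotopic (i := 0)) (Pool.Agent.HH.Model.mapCell φ x) =
      Quot.mk _ y := hx
    rw [(homot_equiv hC G' 0).quot_mk_eq_iff] at a1
    exact ⟨x, a1⟩
  · intro i x x' hp hh hs ht
    obtain ⟨k, hk1, hk2⟩ := inj i x x' hp ⟨hh, hs, ht⟩
    have c1 : G'.tgt hh = G'.src (Pool.Agent.HH.Model.mapCell φ (g.inv G k)) := by
      rw [ht, Pool.Agent.HH.Model.src_mapCell, g.src_inv, hk2]
    obtain ⟨l, l1, l2, l3⟩ := L2 i x (g.comp G' hh (Pool.Agent.HH.Model.mapCell φ (g.inv G k)))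
      (by rw [g.src_comp G' _ _ c1, hs])
      (by rw [g.tgt_comp G' _ _ c1, Pool.Agent.HH.Model.tgt_mapCell, g.tgt_inv, hk1])
    have c2 : G.tgt l = G.src (g.inv G (g.inv G k)) := by
      rw [l2, g.src_inv, g.tgt_inv, hk1]
    refine ⟨g.comp G l (g.inv G (g.inv G k)), ?_, ?_, ?_⟩
    · rw [g.src_comp G _ _ c2, l1]
    · rw [g.tgt_comp G _ _ c2, g.tgt_inv, g.src_inv, hk2]
    · have c3 : G'.tgt (Pool.Agent.HH.Model.mapCell φ l) =
          G'.src (g.inv G' (Pool.Agent.HH.Model.mapCell φ (g.inv G k))) := by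
        rw [Pool.Agent.HH.Model.tgt_mapCell, l2, g.src_inv, Pool.Agent.HH.Model.tgt_mapCell,
          g.tgt_inv, hk1]
      rw [g.map_comp φ _ _ c2, g.map_inv φ (g.inv G k)]
      exact (eG' _).trans (g.congr G' _ _ _ c3 l3)
        (g.cancel G' hh (Pool.Agent.HH.Model.mapCell φ (g.inv G k)) c1)

end HH
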