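import Pool.Agent.HH.Cyl0UP

/-!
# HH: `cs` on the full disk
-/

set_option autoImplicit false

namespace HH

open Classical

variable {S : Sig}

namespace CsDisk

theorem bdD_ok {j : ℕ} {q : D} (hq : (diskG j).ok q) : bdD (j, false) q = q := by
  have hq' : q.1 < j ∨ (q.1 = j ∧ q.2 = false) := hq
  unfold bdD
  split
  · rfl
  · rename_i h1
    have h1' : ¬ q.1 < j := h1
    obtain ⟨h2, h3⟩ : q.1 = j ∧ q.2 = false := by
      rcases hq' with h4 | h4
      · exact absurd h4 h1'
      · exact h4
    rw [← h2, ← h3]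

/-- for the full disk, `cs` is plain substitution -/
theorem cs_disk {x : XFam S} {j : ℕ} (hx : XGoodAt x 0 j) {M : Model S} (α β e : D → M.C) :
    cs M x (diskG j) α β e (j, false) = M.eval (CV.elim α β e) (x j) := by
  unfold cs
  refine eval_congr (X := CylG x (diskG j) 0 j) (x j) hx.1 fun v hv => ?_
  cases v with
  | z q =>
    show α ((diskG j).bd (j, false) q) = α q
    rw [diskG_bd, bdD_ok hv]
  | top q =>
    show β ((diskG j).bd (j, false) q) = β q
    rw [diskG_bd, bdD_ok hv.1]
  | cyl q =>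
    show e ((diskG j).bd (j, false) q) = e q
    rw [diskG_bd, bdD_ok hv.1]

theorem bd_disk {j : ℕ} {r : D} (hr : r.1 < j) : (diskG j).bd (j, false) r = r := by
  rw [diskG_bd]
  exact bdD_ok (Or.inl hr)

theorem bd_disk_top {j : ℕ} {r : D} (hr : j ≤ r.1) : (diskG j).bd (j, false) r = (j, false) := by
  rw [diskG_bd]
  unfold bdD
  rw [if_neg (by show ¬ r.1 < j; omega)]

/-- the CS lemma for the full disk -/
theorem cs_disk_spec {x : XFam S} (hx : ∀ j, XGoodAt x 0 j) {j : ℕ} {M : Model S}
    [M.OpLaws] {α β e : D → M.C} (hα : ∀ q, (diskG j).ok q → MapAt (diskG j) M.toGlob α q)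
    (hβ : ∀ q : D, q.1 < j → MapAt (diskG j) M.toGlob β q)
    (hc : ∀ q : D, q.1 < j → CylAt M x (diskG j) α β e q) :
    M.ok (M.eval (CV.elim α β e) (x j)) ∧ M.dim (M.eval (CV.elim α β e) (x j)) = j ∧
      (0 < j → M.src (M.eval (CV.elim α β e) (x j)) = β (j - 1, false) ∧
        M.tgt (M.eval (CV.elim α β e) (x j)) = β (j - 1, true)) := by
  have h := Cyl0UP_cs (x := x) hx (W := diskG j) (M := M) (α := α) (β := β) (e := e)
    (p := (j, false)) (Or.inr ⟨rfl, rfl⟩)
    (fun r hr => hα _ (ok_bd (G := diskG j) (x := (j, false)) (Or.inr ⟨rfl, rfl⟩) r))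
    (fun r hr => by
      have hr' : r.1 < j := hr
      rw [bd_disk hr']
      exact hβ r hr')
    (fun r hr => by
      have hr' : r.1 < j := hr
      rw [bd_disk hr']
      exact hc r hr')
  rw [cs_disk (hx j)] at h
  exact h

/-- values of the top functions at the top position do not matter -/
theorem eval_low {x : XFam S} {j : ℕ} (hx : XGoodAt x 0 j) {M : Model S} {α β e α' β' e' : D → M.C}
    (hα : ∀ q, (diskG j).ok q → α q = α' q) (hβ : ∀ q : D, q.1 < j → β q = β' q)
    (he : ∀ q : D, q.1 < j → e q = e' q) :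
    M.eval (CV.elim α β e) (x j) = M.eval (CV.elim α' β' e') (x j) := by
  refine eval_congr (X := CylG x (diskG j) 0 j) (x j) hx.1 fun v hv => ?_
  cases v with
  | z q => exact hα q hv
  | top q => exact hβ q hv.2.2
  | cyl q => exact he q hv.2.2

end CsDisk

end HH
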