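import Pool.Agent.HH.Defs2
import Pool.Agent.HH.Bd
import Pool.Agent.HH.CSLem
import Pool.Agent.HH.CylUP
import Pool.Agent.HH.Cyl0UP
import Pool.Agent.HH.DiskOp
set_option autoImplicit false
namespace HH
open Classical CategoryTheory
variable {S E R : Sig}

/-! ## c6 W01 -/

/-- the assignment on `Zc` -/
noncomputable def w01Asg {W : Glob} {M : Model E} (α β e : W.C → M.C) (p : W.C) (a1 b1 : M.C) :
    CV (CV D D) Bool → M.C :=
  CV.elim (CV.elim (fun q => α (W.bd p q)) (fun q => β (W.bd p q)) (fun q => e (W.bd p q)))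
    (fun b => if b then M.tgt b1 else M.tgt a1) (fun b => if b then b1 else a1)

/-- precomposition with the boundary of a cell -/
theorem w01_comp {W : Glob} [W.Laws] {M : Glob} {f : W.C → M.C} {p : W.C} (hp : W.ok p) {q : D}
    (hq : (diskG (W.dim p)).ok q) (h : MapAt W M f (W.bd p q)) :
    MapAt (diskG (W.dim p)) M (fun q => f (W.bd p q)) q := by
  obtain ⟨h1, h2, h3⟩ := h
  obtain ⟨k1, k2, k3⟩ := bd_mapAt hp hq
  refine ⟨h1, h2.trans k2, fun h0 => ?_⟩
  obtain ⟨h4, h5⟩ := h3 (by rw [k2]; exact h0)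
  obtain ⟨k4, k5⟩ := k3 h0
  exact ⟨h4.trans (congrArg f k4), h5.trans (congrArg f k5)⟩

theorem w01_asg {x : XFam E} (hx : ∀ j, XGoodAt x 0 j) {W : Glob} [W.Laws] {M : Model E}
    [M.OpLaws] [M.toGlob.Laws] {α β e : W.C → M.C} {p : W.C} (hp : W.ok p)
    (hα : ∀ r : D, r.1 ≤ W.dim p → MapAt W M.toGlob α (W.bd p r))
    (hβ : ∀ r : D, r.1 ≤ W.dim p → MapAt W M.toGlob β (W.bd p r))
    (hc : ∀ r : D, r.1 ≤ W.dim p → CylAt M x W α β e (W.bd p r))
    {a1 b1 : M.C} (ha : M.ok a1) (da : M.dim a1 = W.dim p + 1) (sa : M.src a1 = α p)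
    (hb : M.ok b1) (db : M.dim b1 = W.dim p + 1) (sb : M.src b1 = β p)
    (v : CV (CV D D) Bool) (hv : (Zc x (W.dim p)).ok v) :
    AsgAt (Zc x (W.dim p)) M (w01Asg α β e p a1 b1) v := by
  have hin : IsAsg (W.dim p + 3) (CylG x (diskG (W.dim p)) 0 (W.dim p + 1)) M
      (CV.elim (fun q => α (W.bd p q)) (fun q => β (W.bd p q)) (fun q => e (W.bd p q))) := by
    have hq1 : ∀ q : D, (diskG (W.dim p)).ok q → q.1 ≤ W.dim p := by
      intro q hq
      have : q.1 < W.dim p ∨ (q.1 = W.dim p ∧ q.2 = false) := hq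
      omega
    refine Cyl_asg (fun i _ _ => hx i) ?_ ?_ ?_ ?_
    · intro q hq _
      exact w01_comp hp hq (hα q (hq1 q hq))
    · intro q hq _ _
      exact w01_comp hp hq (hβ q (hq1 q hq))
    · intro q _ h1 _
      exact absurd h1 (Nat.not_lt_zero _)
    · intro q hq _ h2
      refine CylAt.comp (f := W.bd p) (W' := diskG (W.dim p)) ?_ ?_ (hc q (hq1 q hq))
      · exact dim_bd hp (hq1 q hq)
      · intro r
        rw [diskG_bd, bd_bd hp (hq1 q hq)]
  -- targets of `a1` and `b1` are parallel to the ends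
  have hpa : M.ok (M.tgt a1) ∧ M.dim (M.tgt a1) = W.dim p ∧ (0 < W.dim p →
      M.src (M.tgt a1) = M.src (M.src a1) ∧ M.tgt (M.tgt a1) = M.tgt (M.src a1)) := by
    have h0 : 0 < M.toGlob.dim a1 := by rw [da]; exact Nat.succ_pos _
    refine ⟨Glob.Laws.ok_tgt a1 ha h0, ?_, fun h1 => ?_⟩
    · have := Glob.Laws.dim_tgt (G := M.toGlob) a1 ha h0
      omega
    · have h2 : 1 < M.toGlob.dim a1 := by rw [da]; omega
      exact ⟨Glob.Laws.src_tgt (G := M.toGlob) a1 ha h2,
        (Glob.Laws.tgt_src (G := M.toGlob) a1 ha h2).symm⟩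
  have hpb : M.ok (M.tgt b1) ∧ M.dim (M.tgt b1) = W.dim p ∧ (0 < W.dim p →
      M.src (M.tgt b1) = M.src (M.src b1) ∧ M.tgt (M.tgt b1) = M.tgt (M.src b1)) := by
    have h0 : 0 < M.toGlob.dim b1 := by rw [db]; exact Nat.succ_pos _
    refine ⟨Glob.Laws.ok_tgt b1 hb h0, ?_, fun h1 => ?_⟩
    · have := Glob.Laws.dim_tgt (G := M.toGlob) b1 hb h0
      omega
    · have h2 : 1 < M.toGlob.dim b1 := by rw [db]; omega
      exact ⟨Glob.Laws.src_tgt (G := M.toGlob) b1 hb h2,
        (Glob.Laws.tgt_src (G := M.toGlob) b1 hb h2).symm⟩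
  have hpp : W.bd p (W.dim p, false) = p := bd_of_le _ _ (le_refl _)
  have hαp : MapAt W M.toGlob α p := by
    have := hα (W.dim p, false) (le_refl _)
    rwa [hpp] at this
  have hβp : MapAt W M.toGlob β p := by
    have := hβ (W.dim p, false) (le_refl _)
    rwa [hpp] at this
  have hj1 : (CylG x (diskG (W.dim p)) 0 (W.dim p + 1)).ok (.z (W.dim p, false)) :=
    Or.inr ⟨rfl, rfl⟩
  have hj2 : (CylG x (diskG (W.dim p)) 0 (W.dim p + 1)).ok (.top (W.dim p, false)) :=
    ⟨Or.inr ⟨rfl, rfl⟩, Nat.zero_le _, Nat.lt_succ_self _⟩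
  rcases v with v | b | b
  · -- variables of the inner cylinder
    have hdim : (CylG x (diskG (W.dim p)) 0 (W.dim p + 1)).dim v < W.dim p + 3 := by
      rcases v with q | q | q
      · have : q.1 < W.dim p ∨ (q.1 = W.dim p ∧ q.2 = false) := hv
        change q.1 < _
        omega
      · have : q.1 < W.dim p + 1 := hv.2.2
        change q.1 < _
        omega
      · have : q.1 < W.dim p + 1 := hv.2.2
        change q.1 + 1 < _
        omega
    obtain ⟨h1, h2, h3⟩ := hin v hv hdim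
    refine ⟨h1, h2, fun h0 => ?_⟩
    obtain ⟨h4, h5⟩ := h3 h0
    refine ⟨h4.trans ?_, h5.trans ?_⟩
    · exact (eval_map M (w01Asg α β e p a1 b1) CV.z _).symm
    · exact (eval_map M (w01Asg α β e p a1 b1) CV.z _).symm
  · cases b with
    | false =>
      obtain ⟨h1, h2, h3⟩ := hpa
      refine ⟨h1, h2, fun h0 => ?_⟩
      obtain ⟨h4, h5⟩ := h3 h0
      obtain ⟨k4, k5⟩ := hαp.2.2 h0
      refine ⟨h4.trans ?_, h5.trans ?_⟩
      · rw [sa, k4]
        exact (congrArg α (bd_pred_false (G := W) (x := p) h0)).symm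
      · rw [sa, k5]
        exact (congrArg α (bd_pred_true (G := W) (x := p) h0)).symm
    | true =>
      obtain ⟨h1, h2, h3⟩ := hpb
      refine ⟨h1, h2, fun h0 => ?_⟩
      obtain ⟨h4, h5⟩ := h3 h0
      obtain ⟨k4, k5⟩ := hβp.2.2 h0
      refine ⟨h4.trans ?_, h5.trans ?_⟩
      · rw [sb, k4]
        exact (congrArg β (bd_pred_false (G := W) (x := p) h0)).symm
      · rw [sb, k5]
        exact (congrArg β (bd_pred_true (G := W) (x := p) h0)).symm
  · cases b with
    | false =>
      refine ⟨ha, da, fun _ => ⟨?_, rfl⟩⟩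
      exact sa.trans (congrArg α hpp).symm
    | true =>
      refine ⟨hb, db, fun _ => ⟨?_, rfl⟩⟩
      exact sb.trans (congrArg β hpp).symm

theorem w01_eval_w0src (x : XFam E) {W : Glob} {M : Model E} (α β e : W.C → M.C) (p : W.C)
    (a1 b1 : M.C) : M.eval (w01Asg α β e p a1 b1) (w0src x (W.dim p)) =
      M.eval (CV.elim (fun q => if q.1 < W.dim p then α (W.bd p q) else M.tgt a1)
        (fun q => β (W.bd p q)) (fun q => e (W.bd p q))) (x (W.dim p)) := by
  refine (eval_bind M (w01Asg α β e p a1 b1) _ (x (W.dim p))).trans ?_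
  congr 1
  funext v
  rcases v with q | q | q
  · change M.eval _ (if q.1 < W.dim p then _ else _) = if q.1 < W.dim p then _ else _
    by_cases hq : q.1 < W.dim p
    · rw [if_pos hq, if_pos hq]; rfl
    · rw [if_neg hq, if_neg hq]; rfl
  · rfl
  · rfl

theorem w01_eval_w1src (x : XFam E) {W : Glob} {M : Model E} (α β e : W.C → M.C) (p : W.C)
    (a1 b1 : M.C) (w : E.T (CV (CV D D) Bool)) :
    M.eval (w01Asg α β e p a1 b1) (w1src x w (W.dim p)) =
      M.eval (CV.elim
        (fun q => if q.1 < W.dim p then α (W.bd p q) else if q = (W.dim p, false) then α p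
          else if q = (W.dim p, true) then M.tgt a1 else a1)
        (fun q => if q.1 < W.dim p then β (W.bd p q) else if q = (W.dim p, false) then β p
          else M.tgt b1)
        (fun q => if q.1 < W.dim p then e (W.bd p q) else if q = (W.dim p, false) then e p
          else M.eval (w01Asg α β e p a1 b1) w)) (x (W.dim p + 1)) := by
  have hpp : W.bd p (W.dim p, false) = p := bd_of_le _ _ (le_refl _)
  refine (eval_bind M (w01Asg α β e p a1 b1) _ (x (W.dim p + 1))).trans ?_
  congr 1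
  funext v
  rcases v with q | q | q
  · change M.eval _ (if q.1 < W.dim p then _ else if q = (W.dim p, false) then _ else
      if q = (W.dim p, true) then _ else _) = if q.1 < W.dim p then _ else
        if q = (W.dim p, false) then _ else if q = (W.dim p, true) then _ else _
    by_cases hq : q.1 < W.dim p
    · rw [if_pos hq, if_pos hq]; rfl
    · rw [if_neg hq, if_neg hq]
      by_cases hq1 : q = (W.dim p, false)
      · rw [if_pos hq1, if_pos hq1, hq1]
        exact congrArg α hpp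
      · rw [if_neg hq1, if_neg hq1]
        by_cases hq2 : q = (W.dim p, true)
        · rw [if_pos hq2, if_pos hq2]; rfl
        · rw [if_neg hq2, if_neg hq2]; rfl
  · change M.eval _ (if q.1 < W.dim p then _ else if q = (W.dim p, false) then _ else _) =
      if q.1 < W.dim p then _ else if q = (W.dim p, false) then _ else _
    by_cases hq : q.1 < W.dim p
    · rw [if_pos hq, if_pos hq]; rfl
    · rw [if_neg hq, if_neg hq]
      by_cases hq1 : q = (W.dim p, false)
      · rw [if_pos hq1, if_pos hq1, hq1]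
        exact congrArg β hpp
      · rw [if_neg hq1, if_neg hq1]; rfl
  · change M.eval _ (if q.1 < W.dim p then _ else if q = (W.dim p, false) then _ else _) =
      if q.1 < W.dim p then _ else if q = (W.dim p, false) then _ else _
    by_cases hq : q.1 < W.dim p
    · rw [if_pos hq, if_pos hq]; rfl
    · rw [if_neg hq, if_neg hq]
      by_cases hq1 : q = (W.dim p, false)
      · rw [if_pos hq1, if_pos hq1, hq1]
        exact congrArg e hpp
      · rw [if_neg hq1, if_neg hq1]

theorem w0_spec {d : L0 E} (hd : d.Good) {W : Glob} [W.Laws] {M : Model E} [M.OpLaws]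
    [M.toGlob.Laws] {α β e : W.C → M.C} {p : W.C} (hp : W.ok p)
    (hα : ∀ r : D, r.1 ≤ W.dim p → MapAt W M.toGlob α (W.bd p r))
    (hβ : ∀ r : D, r.1 ≤ W.dim p → MapAt W M.toGlob β (W.bd p r))
    (hc : ∀ r : D, r.1 ≤ W.dim p → CylAt M d.x W α β e (W.bd p r))
    {a1 b1 : M.C} (ha : M.ok a1) (da : M.dim a1 = W.dim p + 1) (sa : M.src a1 = α p)
    (hb : M.ok b1) (db : M.dim b1 = W.dim p + 1) (sb : M.src b1 = β p) :
    ∃ w : M.C, w = M.eval (CV.elim
        (CV.elim (fun q => α (W.bd p q)) (fun q => β (W.bd p q)) (fun q => e (W.bd p q)))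
        (fun b => if b then M.tgt b1 else M.tgt a1) (fun b => if b then b1 else a1))
        (d.w0 (W.dim p)) ∧
      M.ok w ∧ M.dim w = W.dim p + 1 ∧ M.tgt w = M.tgt b1 ∧
      M.src w = M.eval (CV.elim (fun q => if q.1 < W.dim p then α (W.bd p q) else M.tgt a1)
        (fun q => β (W.bd p q)) (fun q => e (W.bd p q))) (d.x (W.dim p)) := by
  have hasg := w01_asg hd.hx hp hα hβ hc ha da sa hb db sb
  obtain ⟨h1, h2, h3⟩ := eval_mapAt (X := Zc d.x (W.dim p)) hasg (d.w0 (W.dim p)) (hd.w0_ok (W.dim p))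
  have hdim : (Zc d.x (W.dim p)).tdim (d.w0 (W.dim p)) = W.dim p + 1 := hd.w0_dim _
  obtain ⟨h4, h5⟩ := h3 (lt_of_lt_of_eq (Nat.succ_pos _) hdim.symm)
  refine ⟨_, rfl, h1, h2.trans hdim, ?_, ?_⟩
  · exact h5.trans ((congrArg _ (hd.w0_tgt _)).trans rfl)
  · exact h4.trans ((congrArg _ (hd.w0_src _)).trans (w01_eval_w0src d.x α β e p a1 b1))

theorem w1_spec {d : L0 E} (hd : d.Good) {W : Glob} [W.Laws] {M : Model E} [M.OpLaws]
    [M.toGlob.Laws] {α β e : W.C → M.C} {p : W.C} (hp : W.ok p)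
    (hα : ∀ r : D, r.1 ≤ W.dim p → MapAt W M.toGlob α (W.bd p r))
    (hβ : ∀ r : D, r.1 ≤ W.dim p → MapAt W M.toGlob β (W.bd p r))
    (hc : ∀ r : D, r.1 ≤ W.dim p → CylAt M d.x W α β e (W.bd p r))
    {a1 b1 : M.C} (ha : M.ok a1) (da : M.dim a1 = W.dim p + 1) (sa : M.src a1 = α p)
    (hb : M.ok b1) (db : M.dim b1 = W.dim p + 1) (sb : M.src b1 = β p) :
    ∃ w' : M.C, M.ok w' ∧ M.dim w' = W.dim p + 2 ∧ M.tgt w' = b1 ∧
      M.src w' = M.eval (CV.elim
        (fun q => if q.1 < W.dim p then α (W.bd p q) else if q = (W.dim p, false) then α p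
          else if q = (W.dim p, true) then M.tgt a1 else a1)
        (fun q => if q.1 < W.dim p then β (W.bd p q) else if q = (W.dim p, false) then β p
          else M.tgt b1)
        (fun q => if q.1 < W.dim p then e (W.bd p q) else if q = (W.dim p, false) then e p
          else M.eval (CV.elim
            (CV.elim (fun q => α (W.bd p q)) (fun q => β (W.bd p q)) (fun q => e (W.bd p q)))
            (fun b => if b then M.tgt b1 else M.tgt a1) (fun b => if b then b1 else a1))
            (d.w0 (W.dim p)))) (d.x (W.dim p + 1)) ∧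
      w' = M.eval (CV.elim
        (CV.elim (fun q => α (W.bd p q)) (fun q => β (W.bd p q)) (fun q => e (W.bd p q)))
        (fun b => if b then M.tgt b1 else M.tgt a1) (fun b => if b then b1 else a1))
        (d.w1 (W.dim p)) := by
  have hasg := w01_asg hd.hx hp hα hβ hc ha da sa hb db sb
  obtain ⟨h1, h2, h3⟩ := eval_mapAt (X := Zc d.x (W.dim p)) hasg (d.w1 (W.dim p)) (hd.w1_ok (W.dim p))
  have hdim : (Zc d.x (W.dim p)).tdim (d.w1 (W.dim p)) = W.dim p + 2 := hd.w1_dim _
  obtain ⟨h4, h5⟩ := h3 (lt_of_lt_of_eq (Nat.succ_pos _) hdim.symm)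
  have hpp : W.bd p (W.dim p, false) = p := bd_of_le _ _ (le_refl _)
  refine ⟨_, h1, h2.trans hdim, ?_, ?_, rfl⟩
  · exact h5.trans ((congrArg _ (hd.w1_tgt _)).trans rfl)
  · exact h4.trans ((congrArg _ (hd.w1_src _)).trans
      (w01_eval_w1src d.x α β e p a1 b1 (d.w0 (W.dim p))))

end HH
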