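import Pool.Agent.HH.PthOps
import Pool.Agent.HH.PullF
import Pool.Agent.HH.Trans0
import Pool.Agent.HH.W01
import Pool.Agent.HH.UnitH0
import Pool.Agent.HH.CsDisk

/-!
# HH stage 2, module c19: the path object functor
-/

set_option autoImplicit false

namespace HH

open Classical CategoryTheory

variable {E : Sig}

namespace Pth19

open Pth17 Pth18 CsDisk

/-- all values of a genuine cell of the path object are genuine -/
theorem val_ok {x : XFam E} {G : Model E} {c : Pth G.C} (hc : pthOk x G c) (q : D) :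
    G.ok (c.α q) ∧ G.ok (c.β q) ∧ G.ok (c.e q) := by
  obtain ⟨h1, h2, h3, h4⟩ := hc
  have hq : (diskG c.j).ok (bdD (c.j, false) q) := by
    unfold bdD
    split
    · exact Or.inl ‹_›
    · exact Or.inr ⟨rfl, rfl⟩
  obtain ⟨a, b, c⟩ := h4 _ hq
  rw [← h1 q, ← h2 q, ← h3 q]
  exact ⟨a.1, b.1, c.1⟩

theorem bdD_self' (i : ℕ) (ε : Bool) : bdD (i, ε) (i, false) = (i, ε) := by
  unfold bdD
  exact if_neg (lt_irrefl i)

/-- morphisms of models commute with `cs` -/
theorem cs_hom {x : XFam E} (hx : ∀ j, XGoodAt x 0 j) {M N : RMod E} (F : M ⟶ N) {W : Glob}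
    [W.Laws] {α β e : W.C → M.Cell} {p : W.C} (hp : W.ok p)
    (hα : ∀ r : D, r.1 ≤ W.dim p → MapAt W M.M.toGlob (fun p => (α p).1) (W.bd p r))
    (hβ : ∀ r : D, r.1 ≤ W.dim p → MapAt W M.M.toGlob (fun p => (β p).1) (W.bd p r))
    (hc : ∀ r : D, r.1 ≤ W.dim p → CylAt M.M x W (fun p => (α p).1) (fun p => (β p).1)
      (fun p => (e p).1) (W.bd p r))
    (hok : M.M.ok (cs M.M x W (fun p => (α p).1) (fun p => (β p).1) (fun p => (e p).1) p)) :
    (RHom.f F ⟨cs M.M x W (fun p => (α p).1) (fun p => (β p).1) (fun p => (e p).1) p, hok⟩).1 =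
      cs N.M x W (fun p => (RHom.f F (α p)).1) (fun p => (RHom.f F (β p)).1)
        (fun p => (RHom.f F (e p)).1) p := by
  obtain ⟨Γ, hΓ⟩ : ∃ Γ : CV D D → M.Cell, Γ = CV.elim (fun q => α (W.bd p q))
    (fun q => β (W.bd p q)) (fun q => e (W.bd p q)) := ⟨_, rfl⟩
  have e1 : (fun v => (Γ v).1) = CV.elim (fun q => (α (W.bd p q)).1)
      (fun q => (β (W.bd p q)).1) (fun q => (e (W.bd p q)).1) := by
    rw [hΓ]
    funext v
    cases v <;> rfl
  have e2 : (fun v => (RHom.f F (Γ v)).1) = CV.elim (fun q => (RHom.f F (α (W.bd p q))).1)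
      (fun q => (RHom.f F (β (W.bd p q))).1) (fun q => (RHom.f F (e (W.bd p q))).1) := by
    rw [hΓ]
    funext v
    cases v <;> rfl
  have hq1 : ∀ q : D, (diskG (W.dim p)).ok q → q.1 ≤ W.dim p := by
    intro q hq
    have : q.1 < W.dim p ∨ (q.1 = W.dim p ∧ q.2 = false) := hq
    omega
  have hasg : ∀ B, IsAsg B (CylG x (diskG (W.dim p)) 0 (W.dim p)) M.M (fun v => (Γ v).1) := by
    intro B
    refine (congrArg (fun g : CV D D → M.M.C =>
      IsAsg B (CylG x (diskG (W.dim p)) 0 (W.dim p)) M.M g) e1).mpr ?_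
    refine Cyl_asg (Z := ofGlob E (diskG (W.dim p))) (W := diskG (W.dim p)) (φ := .var)
      (fun j _ _ => hx j) ?_ ?_ ?_ ?_
    · intro q hq _
      exact asgAt_ofGlob (mapAt_comp (G := diskG (W.dim p)) (H := W) (f := W.bd p)
        (g := fun p => (α p).1) (bd_mapAt hp hq) (hα q (hq1 q hq)))
    · intro q hq _ _
      exact mapAt_comp (G := diskG (W.dim p)) (H := W) (f := W.bd p) (g := fun p => (β p).1)
        (bd_mapAt hp hq) (hβ q (hq1 q hq))
    · intro q _ h0
      exact absurd h0 (Nat.not_lt_zero _)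
    · intro q hq _ _
      refine CylAt.comp (M := M.M) (W := W) (W' := diskG (W.dim p)) (f := W.bd p)
        (α := fun p => (α p).1) (β := fun p => (β p).1) (e := fun p => (e p).1)
        (dim_bd hp (hq1 q hq)) (fun r => ?_) (hc q (hq1 q hq))
      rw [diskG_bd, bd_bd hp (hq1 q hq)]
  have hok' : M.M.ok (M.M.eval (fun v => (Γ v).1) (x (W.dim p))) := by
    rw [e1]
    exact hok
  have key := RHom.eval F (X := CylG x (diskG (W.dim p)) 0 (W.dim p)) (γ := Γ)
    (fun v hv => hasg _ v hv (Nat.lt_succ_self _)) (x (W.dim p)) (hx _).1 hok'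
  have e3 : (RHom.f F ⟨cs M.M x W (fun p => (α p).1) (fun p => (β p).1) (fun p => (e p).1) p,
      hok⟩) = RHom.f F ⟨M.M.eval (fun v => (Γ v).1) (x (W.dim p)), hok'⟩ := by
    congr 1
    apply Subtype.ext
    show M.M.eval _ _ = M.M.eval _ _
    rw [e1]
  rw [e3]
  refine key.trans ?_
  show N.M.eval (fun v => (RHom.f F (Γ v)).1) _ = _
  rw [e2]
  rfl

/-- morphisms of models commute with `ext2` -/
theorem ext2_hom [hE : E.Good] {x : XFam E} (hx : ∀ j, XGoodAt x 0 j) {b : Interp E E}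
    (hb : b.Good) {Q : QFam E} (hQ : Q2Good x b Q) {M N : RMod E} (F : M ⟶ N) {X : Cptd E}
    [X.Good] {α β e : X.V → M.Cell} (hα : ∀ v, X.ok v → AsgAt X M.M (fun v => (α v).1) v)
    (hβ : ∀ v, X.ok v → AsgAt X (M.M.pull b) (fun v => (β v).1) v)
    (H : IsCyl0 x X.m.toGlob M.M (M.M.eval fun v => (α v).1)
      (fun t => M.M.eval (fun v => (β v).1) (trans b t))
      (ext2 M.M b Q (fun v => (α v).1) (fun v => (β v).1) (fun v => (e v).1)))
    (t : E.T X.V) (ht : X.tok t) (hok : M.M.ok (ext2 M.M b Q (fun v => (α v).1)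
      (fun v => (β v).1) (fun v => (e v).1) t)) :
    (RHom.f F ⟨ext2 M.M b Q (fun v => (α v).1) (fun v => (β v).1) (fun v => (e v).1) t, hok⟩).1 =
      ext2 N.M b Q (fun v => (RHom.f F (α v)).1) (fun v => (RHom.f F (β v)).1)
        (fun v => (RHom.f F (e v)).1) t := by
  induction t with
  | var v => rfl
  | op k δ ih =>
    obtain ⟨hk, hδ⟩ := id ht
    have := hE.ar_laws k hk
    have full := hE.full k hk
    have H' := H.comp (W' := E.ar k) (f := δ) (fun p _ => hδ p)
    have hasg := Cyl0_asg hx H'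
    have gok : ∀ v : CV (E.ar k).C (E.ar k).C, M.M.ok (CV.elim
        (fun p => M.M.eval (fun v => (α v).1) (δ p))
        (fun p => M.M.eval (fun v => (β v).1) (trans b (δ p)))
        (fun p => ext2 M.M b Q (fun v => (α v).1) (fun v => (β v).1) (fun v => (e v).1) (δ p))
        v) := by
      intro v
      cases v with
      | z p => exact (H'.mapα p (full p)).1
      | top p => exact (H'.mapβ p (full p)).1
      | cyl p => exact (H'.cyl p (full p)).1
    refine (RHom.eval F (X := Cyl0 x (E.ar k)) (γ := fun v => ⟨_, gok v⟩)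
      (fun v hv => hasg v hv) (Q k) (hQ k hk).1 hok).trans ?_
    show N.M.eval _ (Q k) = N.M.eval _ (Q k)
    congr 1
    funext v
    cases v with
    | z p => exact RHom.eval F hα (δ p) (hδ p).1 _
    | top p =>
      refine RHom.eval F (X := X.tr b) (γ := β) (fun v hv => ?_) (trans b (δ p))
        (trans_mapAt hb X (δ p) (hδ p).1).1 _
      obtain ⟨h1, h2, h3⟩ := hβ v hv
      refine ⟨h1, h2, fun h0 => ?_⟩
      obtain ⟨h4, h5⟩ := h3 h0
      exact ⟨h4.trans (pull_eval b M.M _ _), h5.trans (pull_eval b M.M _ _)⟩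
    | cyl p => exact ih p (hδ p).1 (H'.cyl p (full p)).1

section Functor

variable [hE : E.Good] {d : L0 E} (hd : d.Good) {b : Interp E E} (hb : b.Good) {Q : QFam E}
  (hQ : Q2Good d.x b Q)

/-- the path object as a model with its laws -/
noncomputable def pthR (G : RMod E) : RMod E :=
  ⟨pthM d.x b Q G.M, pth_laws, pth_ops hd.hx hb hQ⟩

variable {hd hb hQ}

/-- image of a cell -/
def mapCell {M N : RMod E} (F : M ⟶ N) (c : (pthR hd hb hQ M).Cell) : Pth N.M.C :=
  ⟨c.1.j, fun q => (RHom.f F ⟨c.1.α q, (val_ok c.2 q).1⟩).1,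
    fun q => (RHom.f F ⟨c.1.β q, (val_ok c.2 q).2.1⟩).1,
    fun q => (RHom.f F ⟨c.1.e q, (val_ok c.2 q).2.2⟩).1⟩

theorem mapCell_ok {M N : RMod E} (F : M ⟶ N) (c : (pthR hd hb hQ M).Cell) :
    pthOk d.x N.M (mapCell F c) := by
  have hc : pthOk d.x M.M c.1 := c.2
  obtain ⟨h1, h2, h3, h4⟩ := id hc
  refine ⟨fun q => ?_, fun q => ?_, fun q => ?_, fun q hq => ?_⟩
  · exact congrArg (fun z : M.Cell => (RHom.f F z).1) (Subtype.ext (h1 q))
  · exact congrArg (fun z : M.Cell => (RHom.f F z).1) (Subtype.ext (h2 q))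
  · exact congrArg (fun z : M.Cell => (RHom.f F z).1) (Subtype.ext (h3 q))
  have hq' : (diskG c.1.j).ok q := hq
  have hq1 : ∀ r : D, (diskG c.1.j).ok ((diskG c.1.j).bd q r) := fun r => ok_bd hq' r
  obtain ⟨k1, k2, k3, k4, k5, k6⟩ := h4 q hq'
  refine ⟨RHom.mapAt F (G := diskG c.1.j) (γ := fun q => ⟨c.1.α q, (val_ok hc q).1⟩) (p := q) k1,
    RHom.mapAt F (G := diskG c.1.j) (γ := fun q => ⟨c.1.β q, (val_ok hc q).2.1⟩) (p := q) k2,
    (RHom.f F _).2, ?_, ?_, ?_⟩
  · exact (RHom.dim F _).trans k4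
  · have h0 : 0 < M.M.dim (c.1.e q) := by
      rw [k4]
      exact Nat.succ_pos _
    refine (RHom.src F ⟨c.1.e q, (val_ok hc q).2.2⟩ h0).trans ?_
    have k8 : M.M.ok (cs M.M d.x (diskG c.1.j) c.1.α c.1.β c.1.e q) := by
      rw [← k5]
      exact Glob.Laws.ok_src _ (val_ok hc q).2.2 h0
    have k7 : (⟨M.M.src (c.1.e q), Glob.Laws.ok_src _ (val_ok hc q).2.2 h0⟩ : M.Cell) =
        ⟨cs M.M d.x (diskG c.1.j) c.1.α c.1.β c.1.e q, k8⟩ := Subtype.ext k5
    rw [k7]
    exact cs_hom hd.hx F (W := diskG c.1.j) (α := fun q => ⟨c.1.α q, (val_ok hc q).1⟩)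
      (β := fun q => ⟨c.1.β q, (val_ok hc q).2.1⟩) (e := fun q => ⟨c.1.e q, (val_ok hc q).2.2⟩)
      hq' (fun r _ => (h4 _ (hq1 r)).1) (fun r _ => (h4 _ (hq1 r)).2.1)
      (fun r _ => (h4 _ (hq1 r)).2.2) _
  · have h0 : 0 < M.M.dim (c.1.e q) := by
      rw [k4]
      exact Nat.succ_pos _
    refine (RHom.tgt F ⟨c.1.e q, (val_ok hc q).2.2⟩ h0).trans ?_
    exact congrArg (fun z : M.Cell => (RHom.f F z).1) (Subtype.ext k6)

/-- the morphism of path objects -/
def pthMap {M N : RMod E} (F : M ⟶ N) : RHom (pthR hd hb hQ M) (pthR hd hb hQ N) where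
  f := fun c => ⟨mapCell F c, mapCell_ok F c⟩
  dim := fun _ => rfl
  src := fun _ _ => rfl
  tgt := fun _ _ => rfl
  op := fun k hk γ hγ => by
    have := hE.ar_laws k hk
    have full := hE.full k hk
    have hTk : (ofGlob E (E.ar k)).m.ok (.op k .var) :=
      ⟨hk, fun p => ⟨full p, rfl, fun _ => ⟨rfl, rfl⟩⟩⟩
    have hT : ∀ q, (ofGlob E (E.ar k)).m.ok ((ofGlob E (E.ar k)).m.toGlob.bd (.op k .var) q) :=
      fun q => ok_bd hTk q
    have hγ' : ∀ p, MapAt (E.ar k) (pthM d.x b Q M.M).toGlob (fun p => (γ p).1) p := hγ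
    have H := ends_isCyl0 hd.hx hb hQ full hγ'
    have hm := fun p => ends_map full hγ' p
    have key : ∀ (A A' B B' C C' : D → N.M.C), (∀ q, A q = A' q) → (∀ q, B q = B' q) →
        (∀ q, C q = C' q) → (⟨E.dm k, A, B, C⟩ : Pth N.M.C) = ⟨E.dm k, A', B', C'⟩ := by
      intro A A' B B' C C' h1 h2 h3
      rw [funext h1, funext h2, funext h3]
    refine key _ _ _ _ _ _ (fun q => ?_) (fun q => ?_) (fun q => ?_)
    · exact RHom.eval F (X := ofGlob E (E.ar k))
        (γ := fun p => ⟨(γ p).1.α ((γ p).1.j, false), (val_ok (γ p).2 _).1⟩)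
        (fun p _ => (hm p).1) _ (hT q) _
    · refine RHom.eval F (X := (ofGlob E (E.ar k)).tr b)
        (γ := fun p => ⟨(γ p).1.β ((γ p).1.j, false), (val_ok (γ p).2 _).2.1⟩)
        (fun p _ => (hm p).2) _ (trans_mapAt hb (ofGlob E (E.ar k)) _ (hT q)).1 _
    · exact ext2_hom hd.hx hb hQ F (X := ofGlob E (E.ar k))
        (α := fun p => ⟨(γ p).1.α ((γ p).1.j, false), (val_ok (γ p).2 _).1⟩)
        (β := fun p => ⟨(γ p).1.β ((γ p).1.j, false), (val_ok (γ p).2 _).2.1⟩)
        (e := fun p => ⟨(γ p).1.e ((γ p).1.j, false), (val_ok (γ p).2 _).2.2⟩)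
        (fun p _ => (hm p).1) (fun p _ => (hm p).2) H _ (hT q) _

/-- the path object functor -/
noncomputable def pthFun (hd : d.Good) (hb : b.Good) (hQ : Q2Good d.x b Q) : RMod E ⥤ RMod E where
  obj := pthR hd hb hQ
  map F := pthMap F
  map_id _ := rfl
  map_comp _ _ := rfl

/-- the values of a genuine cell at the top positions -/
theorem top_map {G : RMod E} (c : (pthR hd hb hQ G).Cell) :
    MapAt (diskG c.1.j) G.M.toGlob c.1.α (c.1.j, false) ∧
      MapAt (diskG c.1.j) G.M.toGlob c.1.β (c.1.j, false) := by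
  have hc : pthOk d.x G.M c.1 := c.2
  obtain ⟨-, -, -, h4⟩ := hc
  obtain ⟨k1, k2, -⟩ := h4 (c.1.j, false) (Or.inr ⟨rfl, rfl⟩)
  exact ⟨k1, k2⟩

/-- base end -/
noncomputable def sHom (hd : d.Good) (hb : b.Good) (hQ : Q2Good d.x b Q) (G : RMod E) :
    RHom (pthR hd hb hQ G) G where
  f := fun c => ⟨c.1.α (c.1.j, false), (val_ok c.2 _).1⟩
  dim := fun c => (top_map c).1.2.1
  src := fun c h0 => by
    have h1 := ((top_map c).1.2.2 h0).1
    refine h1.trans ?_
    show c.1.α (c.1.j - 1, false) = c.1.α (bdD (c.1.j - 1, false) (c.1.j - 1, false))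
    rw [bdD_self']
  tgt := fun c h0 => by
    have h1 := ((top_map c).1.2.2 h0).2
    refine h1.trans ?_
    show c.1.α (c.1.j - 1, true) = c.1.α (bdD (c.1.j - 1, true) (c.1.j - 1, false))
    rw [bdD_self']
  op := fun k hk γ hγ => by
    have h := (end_eval (x := d.x) (b := b) (Q := Q) (G := G.M) (fun p => (γ p).1)
      (.op k .var : E.T (E.ar k).C)).1
    exact h

/-- top end -/
noncomputable def tHom (hd : d.Good) (hb : b.Good) (hQ : Q2Good d.x b Q) (G : RMod E) :
    RHom (pthR hd hb hQ G) (G.pull b hb) where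
  f := fun c => ⟨c.1.β (c.1.j, false), (val_ok c.2 _).2.1⟩
  dim := fun c => (top_map c).2.2.1
  src := fun c h0 => by
    have h1 := ((top_map c).2.2.2 h0).1
    refine h1.trans ?_
    show c.1.β (c.1.j - 1, false) = c.1.β (bdD (c.1.j - 1, false) (c.1.j - 1, false))
    rw [bdD_self']
  tgt := fun c h0 => by
    have h1 := ((top_map c).2.2.2 h0).2
    refine h1.trans ?_
    show c.1.β (c.1.j - 1, true) = c.1.β (bdD (c.1.j - 1, true) (c.1.j - 1, false))
    rw [bdD_self']
  op := fun k hk γ hγ => by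
    have h := (end_eval (x := d.x) (b := b) (Q := Q) (G := G.M) (fun p => (γ p).1)
      (.op k .var : E.T (E.ar k).C)).2.1
    refine h.trans ?_
    show G.M.eval _ ((b k).bind fun p => .var p) = G.M.eval _ (b k)
    rw [eval_bind]
    rfl

/-! ### lifting -/

/-- extension of a function on the positions of dimension `≤ j` by a top value -/
def topV {C : Type} (j : ℕ) (f : D → C) (a : C) (q : D) : C := if q.1 ≤ j then f q else a

/-- the common values of two parallel cells on the positions of dimension `≤ j` -/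
def jn {C : Type} (j : ℕ) (f f' : D → C) (q : D) : C :=
  if q.1 = j ∧ q.2 = true then f' (j, false) else f q

/-- the sphere of dimension `j` -/
def sphG (j : ℕ) : Glob where
  C := D
  dim := fun q => q.1
  src := fun q => (q.1 - 1, false)
  tgt := fun q => (q.1 - 1, true)
  ok := fun q => q.1 ≤ j

instance sphG_laws (j : ℕ) : (sphG j).Laws where
  ok_src := fun q h _ => le_trans (Nat.sub_le _ _) h
  ok_tgt := fun q h _ => le_trans (Nat.sub_le _ _) h
  dim_src := fun q _ h0 => Nat.sub_add_cancel h0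
  dim_tgt := fun q _ h0 => Nat.sub_add_cancel h0
  src_tgt := fun _ _ _ => rfl
  tgt_src := fun _ _ _ => rfl

theorem sphG_bd (j : ℕ) (q r : D) : (sphG j).bd q r = bdD q r := diskG_bd j q r

/-- parallel cells of the path object -/
theorem par_data {G : RMod E} {c c' : (pthR hd hb hQ G).Cell}
    (h : (pthR hd hb hQ G).M.toGlob.Par c.1 c'.1) :
    c'.1.j = c.1.j ∧ ∀ q : D, q.1 < c.1.j → c.1.α q = c'.1.α q ∧ c.1.β q = c'.1.β q ∧
      c.1.e q = c'.1.e q := by
  obtain ⟨-, -, h3, h4⟩ := h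
  have hj : c.1.j = c'.1.j := h3
  refine ⟨hj.symm, fun q hq => ?_⟩
  obtain ⟨h5, h6⟩ := h4 (show 0 < c.1.j by omega)
  have h5' : face c.1 (c.1.j - 1) false = face c'.1 (c'.1.j - 1) false := h5
  have h6' : face c.1 (c.1.j - 1) true = face c'.1 (c'.1.j - 1) true := h6
  rw [← hj] at h5' h6'
  by_cases h7 : q = (c.1.j - 1, true)
  · have hb' : bdD (c.1.j - 1, true) q = q := by
      rw [h7]
      unfold bdD
      exact if_neg (lt_irrefl _)
    have a1 := congrFun (congrArg Pth.α h6') q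
    have a2 := congrFun (congrArg Pth.β h6') q
    have a3 := congrFun (congrArg Pth.e h6') q
    simp only [face, hb'] at a1 a2 a3
    exact ⟨a1, a2, a3⟩
  · have hb' : bdD (c.1.j - 1, false) q = q := by
      unfold bdD
      split
      · rfl
      · rename_i h8
        have h8' : ¬ q.1 < c.1.j - 1 := h8
        obtain ⟨q1, q2⟩ := q
        simp only at hq h8'
        have h9 : q1 = c.1.j - 1 := by omega
        subst h9
        cases q2 with
        | false => rfl
        | true => exact absurd rfl h7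
    have a1 := congrFun (congrArg Pth.α h5') q
    have a2 := congrFun (congrArg Pth.β h5') q
    have a3 := congrFun (congrArg Pth.e h5') q
    simp only [face, hb'] at a1 a2 a3
    exact ⟨a1, a2, a3⟩

/-- the cylinder on the sphere given by two parallel cells of the path object -/
theorem jn_isCyl0 {x : XFam E} {G : Model E} {c c' : Pth G.C} (hc : pthOk x G c)
    (hc' : pthOk x G c') (hj : c.j = c'.j)
    (hlow : ∀ q : D, q.1 < c.j → c.α q = c'.α q ∧ c.β q = c'.β q ∧ c.e q = c'.e q) :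
    IsCyl0 x (sphG c.j) G (jn c.j c.α c'.α) (jn c.j c.β c'.β) (jn c.j c.e c'.e) := by
  obtain ⟨-, -, -, h4⟩ := hc
  obtain ⟨-, -, -, h4'⟩ := hc'
  obtain ⟨j, α, β, e⟩ := c
  obtain ⟨j', α', β', e'⟩ := c'
  simp only at hj hlow h4 h4' ⊢
  subst hj
  have e1 : ∀ {C : Type} (f f' : D → C) (q : D), ¬ (q.1 = j ∧ q.2 = true) → jn j f f' q = f q :=
    fun f f' q hq => if_neg hq
  have e2 : ∀ {C : Type} (f f' : D → C), jn j f f' (j, true) = f' (j, false) :=
    fun f f' => if_pos ⟨rfl, rfl⟩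
  -- positions
  have hpos : ∀ q : D, q.1 ≤ j → (¬ (q.1 = j ∧ q.2 = true) ∧ (diskG j).ok q) ∨
      q = (j, true) := by
    rintro ⟨q1, q2⟩ hq
    simp only at hq
    rcases Nat.lt_or_ge q1 j with h1 | h1
    · exact Or.inl ⟨fun h => by simp only at h; omega, Or.inl h1⟩
    · have h2 : q1 = j := by omega
      subst h2
      cases q2 with
      | false => exact Or.inl ⟨fun h => by simp at h, Or.inr ⟨rfl, rfl⟩⟩
      | true => exact Or.inr rfl
  have hlt : ∀ {C : Type} (f f' : D → C) (q : D), q.1 < j → jn j f f' q = f q :=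
    fun f f' q hq => e1 f f' q (fun h => by omega)
  -- maps
  have hmap : ∀ f f' : D → G.C, (∀ q : D, q.1 < j → f q = f' q) →
      (∀ q, (diskG j).ok q → MapAt (diskG j) G.toGlob f q) →
      (∀ q, (diskG j).ok q → MapAt (diskG j) G.toGlob f' q) →
      ∀ q, (sphG j).ok q → MapAt (sphG j) G.toGlob (jn j f f') q := by
    intro f f' hff hf hf' q hq
    rcases hpos q hq with ⟨h1, h2⟩ | h1
    · obtain ⟨a1, a2, a3⟩ := hf q h2
      refine ⟨by rw [e1 f f' q h1]; exact a1, by rw [e1 f f' q h1]; exact a2, fun h0 => ?_⟩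
      have h0' : 0 < q.1 := h0
      have hq' : q.1 ≤ j := hq
      have hs : ((sphG j).src q).1 < j := by show q.1 - 1 < j; omega
      have ht : ((sphG j).tgt q).1 < j := by show q.1 - 1 < j; omega
      rw [e1 f f' q h1, hlt f f' _ hs, hlt f f' _ ht]
      exact a3 h0
    · subst h1
      obtain ⟨a1, a2, a3⟩ := hf' (j, false) (Or.inr ⟨rfl, rfl⟩)
      refine ⟨by rw [e2]; exact a1, by rw [e2]; exact a2, fun h0 => ?_⟩
      have h0' : 0 < j := h0
      have hs : ((sphG j).src (j, true)).1 < j := by show j - 1 < j; omega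
      have ht : ((sphG j).tgt (j, true)).1 < j := by show j - 1 < j; omega
      rw [e2, hlt f f' _ hs, hlt f f' _ ht, hff _ hs, hff _ ht]
      exact a3 h0
  refine ⟨hmap α α' (fun q hq => (hlow q hq).1) (fun q hq => (h4 q hq).1)
    (fun q hq => (h4' q hq).1), hmap β β' (fun q hq => (hlow q hq).2.1)
    (fun q hq => (h4 q hq).2.1) (fun q hq => (h4' q hq).2.1), fun q hq => ?_⟩
  rcases hpos q hq with ⟨h1, h2⟩ | h1
  · obtain ⟨-, -, a1, a2, a3, a4⟩ := h4 q h2
    refine ⟨by rw [e1 _ _ q h1]; exact a1, by rw [e1 _ _ q h1]; exact a2, ?_,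
      by rw [e1 _ _ q h1, e1 _ _ q h1]; exact a4⟩
    rw [e1 _ _ q h1]
    refine a3.trans ?_
    have hbd : ∀ r : D, ¬ (((diskG j).bd q r).1 = j ∧ ((diskG j).bd q r).2 = true) := by
      intro r
      rw [diskG_bd]
      unfold bdD
      split
      · rename_i h5
        have h6 : q.1 ≤ j := hq
        rintro ⟨h7, -⟩
        omega
      · exact h1
    unfold cs
    show G.eval _ (x q.1) = G.eval _ (x q.1)
    congr 1
    funext v
    cases v with
    | z r => exact (e1 α α' _ (hbd r)).symm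
    | top r => exact (e1 β β' _ (hbd r)).symm
    | cyl r => exact (e1 e e' _ (hbd r)).symm
  · subst h1
    obtain ⟨-, -, a1, a2, a3, a4⟩ := h4' (j, false) (Or.inr ⟨rfl, rfl⟩)
    refine ⟨by rw [e2]; exact a1, by rw [e2]; exact a2, ?_, by rw [e2, e2]; exact a4⟩
    rw [e2]
    refine a3.trans ?_
    have hb1 : ∀ r : D, r.1 < j → (diskG j).bd (j, false) r = r := fun r hr => by
      rw [diskG_bd]
      unfold bdD
      exact if_pos hr
    have hb2 : ∀ r : D, r.1 < j → (sphG j).bd (j, true) r = r := fun r hr => by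
      rw [sphG_bd]
      unfold bdD
      exact if_pos hr
    have hb3 : ∀ r : D, ¬ r.1 < j → (diskG j).bd (j, false) r = (j, false) := fun r hr => by
      rw [diskG_bd]
      unfold bdD
      exact if_neg hr
    have hb4 : ∀ r : D, ¬ r.1 < j → (sphG j).bd (j, true) r = (j, true) := fun r hr => by
      rw [sphG_bd]
      unfold bdD
      exact if_neg hr
    have key : ∀ {C : Type} (f f' : D → C), (∀ q : D, q.1 < j → f q = f' q) → ∀ r : D,
        f' ((diskG j).bd (j, false) r) = jn j f f' ((sphG j).bd (j, true) r) := by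
      intro C f f' hff r
      by_cases hr : r.1 < j
      · rw [hb1 r hr, hb2 r hr, hlt f f' r hr, hff r hr]
      · rw [hb3 r hr, hb4 r hr, e2]
    unfold cs
    show G.eval _ (x j) = G.eval _ (x j)
    congr 1
    funext v
    cases v with
    | z r => exact key α α' (fun q hq => (hlow q hq).1) r
    | top r => exact key β β' (fun q hq => (hlow q hq).2.1) r
    | cyl r => exact key e e' (fun q hq => (hlow q hq).2.2) r

omit hE in
theorem topV_le {C : Type} {j : ℕ} {f : D → C} {a : C} {q : D} (h : q.1 ≤ j) :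
    topV j f a q = f q := if_pos h

omit hE in
theorem topV_gt {C : Type} {j : ℕ} {f : D → C} {a : C} {q : D} (h : j < q.1) :
    topV j f a q = a := if_neg (by omega)

omit hE in
/-- extension of a map on the sphere to the disk -/
theorem topV_map {M : Glob} {j : ℕ} {A : D → M.C}
    (hA : ∀ q, (sphG j).ok q → MapAt (sphG j) M A q) {a : M.C} (ha : M.ok a)
    (da : M.dim a = j + 1) (sa : M.src a = A (j, false)) (ta : M.tgt a = A (j, true)) (q : D)
    (hq : (diskG (j + 1)).ok q) : MapAt (diskG (j + 1)) M (topV j A a) q := by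
  have hq' : q.1 < j + 1 ∨ (q.1 = j + 1 ∧ q.2 = false) := hq
  rcases hq' with h | h
  · have hj : q.1 ≤ j := by omega
    obtain ⟨a1, a2, a3⟩ := hA q hj
    refine ⟨by rw [topV_le hj]; exact a1, by rw [topV_le hj]; exact a2, fun h0 => ?_⟩
    rw [topV_le hj, topV_le (show ((diskG (j + 1)).src q).1 ≤ j from
      le_trans (Nat.sub_le _ _) hj), topV_le (show ((diskG (j + 1)).tgt q).1 ≤ j from
      le_trans (Nat.sub_le _ _) hj)]
    exact a3 h0
  · obtain ⟨q1, q2⟩ := q
    simp only at h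
    obtain ⟨rfl, rfl⟩ := h
    have hlt : j < ((j + 1, false) : D).1 := Nat.lt_succ_self j
    refine ⟨by rw [topV_gt hlt]; exact ha, by rw [topV_gt hlt]; exact da, fun _ => ?_⟩
    rw [topV_gt hlt]
    refine ⟨sa.trans ?_, ta.trans ?_⟩
    · exact (topV_le (f := A) (a := a) (q := (j, false)) (le_refl j)).symm
    · exact (topV_le (f := A) (a := a) (q := (j, true)) (le_refl j)).symm

omit hE in
/-- a cylinder on the sphere, seen at the lower positions of the disk -/
theorem topV_cylAt {x : XFam E} {M : Model E} {j : ℕ} {A B C : D → M.C}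
    (H : IsCyl0 x (sphG j) M A B C) {A' B' C' : D → M.C} (hA : ∀ q : D, q.1 ≤ j → A' q = A q)
    (hB : ∀ q : D, q.1 ≤ j → B' q = B q) (hC : ∀ q : D, q.1 ≤ j → C' q = C q) {q : D}
    (hq : q.1 ≤ j) : CylAt M x (diskG (j + 1)) A' B' C' q := by
  obtain ⟨a1, a2, a3, a4⟩ := H.cyl q hq
  refine ⟨by rw [hC q hq]; exact a1, by rw [hC q hq]; exact a2, ?_,
    by rw [hC q hq, hB q hq]; exact a4⟩
  rw [hC q hq]
  refine a3.trans ?_
  have hb : ∀ r, (bdD q r).1 ≤ j := by
    intro r
    unfold bdD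
    split <;> omega
  unfold cs
  show M.eval _ (x q.1) = M.eval _ (x q.1)
  congr 1
  funext v
  cases v with
  | z r =>
    show A ((sphG j).bd q r) = A' ((diskG (j + 1)).bd q r)
    rw [sphG_bd, diskG_bd, hA _ (hb r)]
  | top r =>
    show B ((sphG j).bd q r) = B' ((diskG (j + 1)).bd q r)
    rw [sphG_bd, diskG_bd, hB _ (hb r)]
  | cyl r =>
    show C ((sphG j).bd q r) = C' ((diskG (j + 1)).bd q r)
    rw [sphG_bd, diskG_bd, hC _ (hb r)]

omit hE in
/-- a cylinder on the disk from a cylinder on the sphere and top data -/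
theorem topV_isCyl0 {x : XFam E} (hx : ∀ j, XGoodAt x 0 j) {M : Model E} {j : ℕ}
    {A B C : D → M.C} (H : IsCyl0 x (sphG j) M A B C) {a b e : M.C} (ha : M.ok a)
    (da : M.dim a = j + 1) (sa : M.src a = A (j, false)) (ta : M.tgt a = A (j, true))
    (hb : M.ok b) (db : M.dim b = j + 1) (sb : M.src b = B (j, false))
    (tb : M.tgt b = B (j, true)) (he : M.ok e) (de : M.dim e = j + 2)
    (se : M.src e = M.eval (CV.elim (topV j A a) B C) (x (j + 1))) (te : M.tgt e = b) :
    IsCyl0 x (diskG (j + 1)) M (topV j A a) (topV j B b) (topV j C e) := by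
  refine ⟨topV_map H.mapα ha da sa ta, topV_map H.mapβ hb db sb tb, fun q hq => ?_⟩
  have hq' : q.1 < j + 1 ∨ (q.1 = j + 1 ∧ q.2 = false) := hq
  rcases hq' with h | h
  · exact topV_cylAt H (fun q h => topV_le h) (fun q h => topV_le h) (fun q h => topV_le h)
      (by omega)
  · obtain ⟨q1, q2⟩ := q
    simp only at h
    obtain ⟨rfl, rfl⟩ := h
    have hlt : j < ((j + 1, false) : D).1 := Nat.lt_succ_self j
    refine ⟨by rw [topV_gt hlt]; exact he, by rw [topV_gt hlt]; exact de, ?_,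
      by rw [topV_gt hlt, topV_gt hlt]; exact te⟩
    rw [topV_gt hlt, cs_disk (hx (j + 1))]
    refine se.trans (eval_low (hx (j + 1)) (fun _ _ => rfl) (fun q h => ?_) (fun q h => ?_))
    · exact (topV_le (by omega)).symm
    · exact (topV_le (by omega)).symm

omit hE in
/-- the cell of the path object given by a cylinder on the sphere and top data -/
theorem topV_pthOk {x : XFam E} {M : Model E} {j : ℕ} {A B C : D → M.C} {a b e : M.C}
    (H : IsCyl0 x (diskG (j + 1)) M (topV j A a) (topV j B b) (topV j C e)) :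
    pthOk x M ⟨j + 1, topV j A a, topV j B b, topV j C e⟩ := by
  have hj : ∀ (f : D → M.C) (t : M.C) (q : D), topV j f t (bdD (j + 1, false) q) = topV j f t q := by
    intro f t q
    unfold bdD
    split
    · rfl
    · rename_i h
      have h' : ¬ q.1 < j + 1 := h
      rw [topV_gt (q := q) (by omega), topV_gt (q := (j + 1, false)) (Nat.lt_succ_self j)]
  exact ⟨fun q => hj A a q, fun q => hj B b q, fun q => hj C e q, fun q hq =>
    ⟨H.mapα q hq, H.mapβ q hq, H.cyl q hq⟩⟩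

omit hE in
/-- its source and its target -/
theorem topV_face {C : Type} {c c' : Pth C} (hj : c.j = c'.j)
    (hlow : ∀ q : D, q.1 < c.j → c.α q = c'.α q ∧ c.β q = c'.β q ∧ c.e q = c'.e q)
    (hc : (∀ q, c.α (bdD (c.j, false) q) = c.α q) ∧ (∀ q, c.β (bdD (c.j, false) q) = c.β q) ∧
      ∀ q, c.e (bdD (c.j, false) q) = c.e q)
    (hc' : (∀ q, c'.α (bdD (c'.j, false) q) = c'.α q) ∧
      (∀ q, c'.β (bdD (c'.j, false) q) = c'.β q) ∧ ∀ q, c'.e (bdD (c'.j, false) q) = c'.e q)
    (a b e : C) :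
    face ⟨c.j + 1, topV c.j (jn c.j c.α c'.α) a, topV c.j (jn c.j c.β c'.β) b,
      topV c.j (jn c.j c.e c'.e) e⟩ c.j false = c ∧
    face ⟨c.j + 1, topV c.j (jn c.j c.α c'.α) a, topV c.j (jn c.j c.β c'.β) b,
      topV c.j (jn c.j c.e c'.e) e⟩ c.j true = c' := by
  obtain ⟨j, α, β, ε⟩ := c
  obtain ⟨j', α', β', ε'⟩ := c'
  simp only at hj hlow hc hc' ⊢
  subst hj
  have key : ∀ (f f' : D → C) (t : C), (∀ q, f (bdD (j, false) q) = f q) →
      ∀ q, topV j (jn j f f') t (bdD (j, false) q) = f q := by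
    intro f f' t hf q
    have h1 : (bdD (j, false) q).1 ≤ j := by
      unfold bdD
      split
      · exact le_of_lt ‹_›
      · exact le_refl _
    rw [topV_le h1]
    have h2 : ¬ ((bdD (j, false) q).1 = j ∧ (bdD (j, false) q).2 = true) := by
      unfold bdD
      split
      · rename_i h3
        have h3' : q.1 < j := h3
        rintro ⟨h4, -⟩
        omega
      · rintro ⟨-, h4⟩
        exact Bool.false_ne_true h4
    rw [show jn j f f' (bdD (j, false) q) = f (bdD (j, false) q) from if_neg h2, hf]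
  have key' : ∀ (f f' : D → C) (t : C), (∀ q, f' (bdD (j, false) q) = f' q) →
      (∀ q : D, q.1 < j → f q = f' q) →
      ∀ q, topV j (jn j f f') t (bdD (j, true) q) = f' q := by
    intro f f' t hf hff q
    by_cases h : q.1 < j
    · have h1 : bdD (j, true) q = q := if_pos h
      rw [h1, topV_le (le_of_lt h), ← hff q h]
      exact if_neg fun h2 => by omega
    · have h1 : bdD (j, true) q = (j, true) := if_neg h
      have h2 : bdD (j, false) q = (j, false) := if_neg h
      rw [h1, topV_le (q := (j, true)) (le_refl j), ← hf q, h2]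
      exact if_pos ⟨rfl, rfl⟩
  constructor
  · unfold face
    simp only [key α α' a hc.1, key β β' b hc.2.1, key ε ε' e hc.2.2]
  · unfold face
    simp only [key' α α' a hc'.1 (fun q h => (hlow q h).1),
      key' β β' b hc'.2.1 (fun q h => (hlow q h).2.1),
      key' ε ε' e hc'.2.2 (fun q h => (hlow q h).2.2)]

omit hE in
/-- the values `cs` at the top of a disk -/
theorem cs_top {x : XFam E} (hx : ∀ j, XGoodAt x 0 j) {M : Model E} [M.OpLaws] {j : ℕ}
    {A B C : D → M.C} (H : IsCyl0 x (sphG j) M A B C) {a : M.C} (ha : M.ok a)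
    (da : M.dim a = j + 1) (sa : M.src a = A (j, false)) (ta : M.tgt a = A (j, true)) :
    M.ok (M.eval (CV.elim (topV j A a) B C) (x (j + 1))) ∧
      M.dim (M.eval (CV.elim (topV j A a) B C) (x (j + 1))) = j + 1 ∧
      M.src (M.eval (CV.elim (topV j A a) B C) (x (j + 1))) = B (j, false) ∧
      M.tgt (M.eval (CV.elim (topV j A a) B C) (x (j + 1))) = B (j, true) := by
  obtain ⟨h1, h2, h3⟩ := cs_disk_spec hx (M := M) (j := j + 1) (α := topV j A a) (β := B) (e := C)
    (topV_map H.mapα ha da sa ta) (fun q hq => H.mapβ q (Nat.lt_succ_iff.1 hq))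
    (fun q hq => topV_cylAt H (fun q h => topV_le h) (fun _ _ => rfl) (fun _ _ => rfl)
      (Nat.lt_succ_iff.1 hq))
  obtain ⟨h4, h5⟩ := h3 (Nat.succ_pos j)
  exact ⟨h1, h2, h4, h5⟩

/-- lifting against the base end -/
theorem lift_s {M : Model E} [M.OpLaws] [M.toGlob.Laws] (hd : d.Good) {j : ℕ} {A B C : D → M.C}
    (H : IsCyl0 d.x (sphG j) M A B C) {a : M.C} (ha : M.ok a) (da : M.dim a = j + 1)
    (sa : M.src a = A (j, false)) (ta : M.tgt a = A (j, true)) :
    ∃ b e : M.C, IsCyl0 d.x (diskG (j + 1)) M (topV j A a) (topV j B b) (topV j C e) := by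
  obtain ⟨h1, h2, h3, h4⟩ := cs_top hd.hx H ha da sa ta
  obtain ⟨u1, u2, u3, u4⟩ := unitH0_unit hd h1 h2
  exact ⟨_, _, topV_isCyl0 hd.hx H ha da sa ta h1 h2 h3 h4 u1 u2 u3 u4⟩

/-- lifting against the top end -/
theorem lift_t {M : Model E} [M.OpLaws] [M.toGlob.Laws] (hd : d.Good) {j : ℕ} {A B C : D → M.C}
    (H : IsCyl0 d.x (sphG j) M A B C) {h : M.C} (hh : M.ok h) (dh : M.dim h = j + 1)
    (sh : M.src h = B (j, false)) (th : M.tgt h = B (j, true)) :
    ∃ a e : M.C, IsCyl0 d.x (diskG (j + 1)) M (topV j A a) (topV j B h) (topV j C e) := by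
  -- the reversed cylinder on the sphere
  have H1 := H.rev hd.hx hd.hr
  obtain ⟨C1, hC1⟩ : ∃ C1 : D → M.C, C1 = cs M d.r (sphG j) A B C := ⟨_, rfl⟩
  rw [← hC1] at H1
  -- the base
  obtain ⟨a1, a2, a3, a4⟩ := cs_top hd.hx H1 hh dh sh th
  obtain ⟨a, ha⟩ : ∃ a, a = M.eval (CV.elim (topV j B h) A C1) (d.x (j + 1)) := ⟨_, rfl⟩
  rw [← ha] at a1 a2 a3 a4
  obtain ⟨u1, u2, u3, u4⟩ := unitH0_unit hd a1 a2
  have H2 := topV_isCyl0 hd.hx H1 hh dh sh th a1 a2 a3 a4 u1 u2 (u3.trans ha) u4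
  -- reverse it
  have H3 := H2.rev hd.hx hd.hr
  obtain ⟨C3, hC3⟩ : ∃ C3 : D → M.C, C3 = cs M d.r (diskG (j + 1)) (topV j B h) (topV j A a)
    (topV j C1 (atCell M (d.un (j + 1)) a)) := ⟨_, rfl⟩
  rw [← hC3] at H3
  obtain ⟨w1, w2, w3, w4⟩ := H3.cyl (j + 1, false) (Or.inr ⟨rfl, rfl⟩)
  rw [cs_disk (hd.hx (j + 1))] at w3
  have htop : topV j B h (j + 1, false) = h := topV_gt (Nat.lt_succ_self j)
  rw [htop] at w4
  -- the value of `cs` on the twice reversed cylinder
  obtain ⟨X, hX⟩ : ∃ X, X = M.eval (CV.elim (topV j A a) (topV j B h) C3) (d.x (j + 1)) :=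
    ⟨_, rfl⟩
  rw [← hX] at w3
  have hXs := cs_disk_spec hd.hx (M := M) (j := j + 1) (α := topV j A a) (β := topV j B h)
    (e := C3) (fun q hq => H3.mapα q hq) (fun q hq => H3.mapβ q (Or.inl hq))
    (fun q hq => H3.cyl q (Or.inl hq))
  rw [← hX] at hXs
  obtain ⟨x1, x2, x3⟩ := hXs
  obtain ⟨x4, x5⟩ := x3 (Nat.succ_pos j)
  have x4' : M.src X = B (j, false) := x4.trans (topV_le (q := (j, false)) (le_refl j))
  have x5' : M.tgt X = B (j, true) := x5.trans (topV_le (q := (j, true)) (le_refl j))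
  -- the comparison cell
  have hasg : ∀ v, (CylG d.x (diskG (j + 1)) 0 (j + 1)).ok v →
      AsgAt (CylG d.x (diskG (j + 1)) 0 (j + 1)) M (CV.elim (topV j A a) B C) v := by
    intro v hv
    refine Cyl_asg (B := (CylG d.x (diskG (j + 1)) 0 (j + 1)).dim v + 1)
      (Z := ofGlob E (diskG (j + 1))) (W := diskG (j + 1)) (φ := .var)
      (fun i _ _ => hd.hx i) ?_ ?_ ?_ ?_ v hv (Nat.lt_succ_self _)
    · intro q hq _
      exact asgAt_ofGlob (topV_map H.mapα a1 a2 a3 a4 q hq)
    · intro q hq _ hlt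
      exact H.mapβ q (Nat.lt_succ_iff.1 hlt)
    · intro q _ h0
      exact absurd h0 (Nat.not_lt_zero _)
    · intro q hq _ hlt
      exact topV_cylAt H (fun q h => topV_le h) (fun _ _ => rfl) (fun _ _ => rfl)
        (Nat.lt_succ_iff.1 hlt)
  obtain ⟨v1, v2, v3⟩ := eval_mapAt hasg (d.v (j + 1)) (hd.v_ok (j + 1) (Nat.succ_pos j))
  have hvd := hd.v_dim (j + 1) (Nat.succ_pos j)
  obtain ⟨v4, v5⟩ := v3 (lt_of_lt_of_eq (Nat.succ_pos _) hvd.symm)
  obtain ⟨V, hV⟩ : ∃ V, V = M.eval (CV.elim (topV j A a) B C) (d.v (j + 1)) := ⟨_, rfl⟩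
  have V1 : M.ok V := by rw [hV]; exact v1
  have V2 : M.dim V = j + 2 := by rw [hV]; exact v2.trans hvd
  have V3 : M.src V = M.eval (CV.elim (topV j A a) B C) (d.x (j + 1)) := by
    rw [hV]
    exact v4.trans (congrArg _ (hd.v_src (j + 1) (Nat.succ_pos j)))
  have V4 : M.tgt V = X := by
    rw [hV, hX]
    refine v5.trans ((congrArg _ (hd.v_tgt (j + 1) (Nat.succ_pos j))).trans ?_)
    refine (eval_bind M _ _ (d.x (j + 1))).trans ?_
    have hC1' : ∀ q : D, q.1 ≤ j → M.eval (CV.elim (topV j A a) B C)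
        (cs (CylG d.x (diskG (j + 1)) 0 (j + 1)).m d.r (diskG (j + 1)) (fun q => .var (.z q))
          (fun q => .var (.top q)) (fun q => .var (.cyl q)) q) = C1 q := by
      intro q hq
      rw [hC1]
      refine (cs_eval (X := CylG d.x (diskG (j + 1)) 0 (j + 1)) (CV.elim (topV j A a) B C) d.r
        (diskG (j + 1)) (fun q => .var (.z q)) (fun q => .var (.top q)) (fun q => .var (.cyl q))
        q).trans ?_
      have hb : ∀ r, (bdD q r).1 ≤ j := by
        intro r
        unfold bdD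
        split <;> omega
      unfold cs
      show M.eval _ (d.r q.1) = M.eval _ (d.r q.1)
      congr 1
      funext v
      cases v with
      | z r =>
        show topV j A a ((diskG (j + 1)).bd q r) = A ((sphG j).bd q r)
        rw [diskG_bd, sphG_bd, topV_le (hb r)]
      | top r =>
        show B ((diskG (j + 1)).bd q r) = B ((sphG j).bd q r)
        rw [diskG_bd, sphG_bd]
      | cyl r =>
        show C ((diskG (j + 1)).bd q r) = C ((sphG j).bd q r)
        rw [diskG_bd, sphG_bd]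
    have hC3' : ∀ q : D, q.1 ≤ j → M.eval (CV.elim (topV j A a) B C)
        (cs (CylG d.x (diskG (j + 1)) 0 (j + 1)).m d.r (diskG (j + 1)) (fun q => .var (.top q))
          (fun q => .var (.z q)) (cs (CylG d.x (diskG (j + 1)) 0 (j + 1)).m d.r (diskG (j + 1))
          (fun q => .var (.z q)) (fun q => .var (.top q)) (fun q => .var (.cyl q))) q) = C3 q := by
      intro q hq
      rw [hC3]
      refine (cs_eval (X := CylG d.x (diskG (j + 1)) 0 (j + 1)) (CV.elim (topV j A a) B C) d.r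
        (diskG (j + 1)) (fun q => .var (.top q)) (fun q => .var (.z q)) _ q).trans ?_
      have hb : ∀ r, (bdD q r).1 ≤ j := by
        intro r
        unfold bdD
        split <;> omega
      unfold cs
      show M.eval _ (d.r q.1) = M.eval _ (d.r q.1)
      congr 1
      funext v
      cases v with
      | z r =>
        show B ((diskG (j + 1)).bd q r) = topV j B h ((diskG (j + 1)).bd q r)
        rw [diskG_bd, topV_le (hb r)]
      | top r => rfl
      | cyl r =>
        have hr : ((diskG (j + 1)).bd q r).1 ≤ j := by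
          rw [diskG_bd]
          exact hb r
        show M.eval (CV.elim (topV j A a) B C)
          (cs (CylG d.x (diskG (j + 1)) 0 (j + 1)).m d.r (diskG (j + 1)) (fun q => .var (.z q))
          (fun q => .var (.top q)) (fun q => .var (.cyl q)) ((diskG (j + 1)).bd q r)) =
          topV j C1 _ ((diskG (j + 1)).bd q r)
        rw [topV_le hr]
        exact hC1' _ hr
    have hfin : M.eval (CV.elim (topV j A a) B (fun q => M.eval (CV.elim (topV j A a) B C)
        (cs (CylG d.x (diskG (j + 1)) 0 (j + 1)).m d.r (diskG (j + 1)) (fun q => .var (.top q))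
          (fun q => .var (.z q)) (cs (CylG d.x (diskG (j + 1)) 0 (j + 1)).m d.r (diskG (j + 1))
          (fun q => .var (.z q)) (fun q => .var (.top q)) (fun q => .var (.cyl q))) q)))
        (d.x (j + 1)) = M.eval (CV.elim (topV j A a) (topV j B h) C3) (d.x (j + 1)) :=
      eval_low (hd.hx (j + 1)) (fun _ _ => rfl) (fun q hq => (topV_le (by omega)).symm)
        (fun q hq => hC3' q (by omega))
    refine Eq.trans ?_ hfin
    congr 1
    funext v
    cases v <;> rfl
  -- use `w0`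
  have H4 := topV_isCyl0 hd.hx H a1 a2 a3 a4 x1 x2 x4' x5' V1 V2 V3 V4
  have hbd : ∀ r : D, (diskG (j + 1)).ok ((diskG (j + 1)).bd (j + 1, false) r) := fun r =>
    ok_bd (G := diskG (j + 1)) (Or.inr ⟨rfl, rfl⟩) r
  have hAt : topV j A a (j + 1, false) = a := topV_gt (Nat.lt_succ_self j)
  have hBt : topV j B X (j + 1, false) = X := topV_gt (Nat.lt_succ_self j)
  obtain ⟨w, -, z1, z2, z3, z4⟩ := w0_spec hd (W := diskG (j + 1)) (M := M) (p := (j + 1, false))
    (Or.inr ⟨rfl, rfl⟩) (fun r _ => H4.mapα _ (hbd r)) (fun r _ => H4.mapβ _ (hbd r))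
    (fun r _ => H4.cyl _ (hbd r)) (a1 := atCell M (d.un (j + 1)) a) (b1 := C3 (j + 1, false))
    u1 u2 (u3.trans hAt.symm) w1 w2 (w3.trans hBt.symm)
  refine ⟨a, w, topV_isCyl0 hd.hx H a1 a2 a3 a4 hh dh sh th z1 z2 ?_ (z3.trans w4)⟩
  refine z4.trans ?_
  show M.eval _ (d.x (j + 1)) = _
  refine eval_low (hd.hx (j + 1)) (fun q hq => ?_) (fun q hq => ?_) (fun q hq => ?_)
  · have hq' : q.1 < j + 1 ∨ (q.1 = j + 1 ∧ q.2 = false) := hq
    show (if q.1 < j + 1 then topV j A a ((diskG (j + 1)).bd (j + 1, false) q) else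
      M.tgt (atCell M (d.un (j + 1)) a)) = topV j A a q
    rcases hq' with h5 | h5
    · rw [if_pos h5, bd_disk h5]
    · rw [if_neg (by omega), u4, topV_gt (by omega)]
  · rw [bd_disk hq, topV_le (by omega)]
  · rw [bd_disk hq, topV_le (by omega)]

/-- the zero-dimensional cell over a point -/
theorem pt_ok (hd : d.Good) {G : RMod E} {y : G.M.C} (hy : G.M.ok y) (h0 : G.M.dim y = 0) :
    pthOk d.x G.M ⟨0, fun _ => y, fun _ => y, fun _ => atCell G.M (d.un 0) y⟩ := by
  obtain ⟨u1, u2, u3, u4⟩ := unitH0_unit hd hy h0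
  refine ⟨fun _ => rfl, fun _ => rfl, fun _ => rfl, fun q hq => ?_⟩
  have hq' : q.1 < 0 ∨ (q.1 = 0 ∧ q.2 = false) := hq
  have hq0 : q.1 = 0 := by omega
  have hm : MapAt (diskG 0) G.M.toGlob (fun _ => y) q :=
    ⟨hy, h0.trans hq0.symm, fun h1 => absurd (show 0 < q.1 from h1) (by omega)⟩
  refine ⟨hm, hm, u1, u2.trans (congrArg (· + 1) hq0.symm), u3.trans ?_, u4⟩
  unfold cs
  have hdq : (diskG 0).dim q = 0 := hq0
  rw [hdq, hd.x0]
  rfl

theorem unit_conn (hd : d.Good) (G : RMod E) {y : G.M.C} (hy : G.M.ok y) :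
    G.M.toGlob.Conn y y := by
  obtain ⟨u1, u2, u3, u4⟩ := unitH0_unit hd hy rfl
  exact ⟨_, u1, u2, u3, u4⟩

/-- the strict lifting property implies being a weak equivalence -/
theorem isW_of_lift (hd : d.Good) {M N : RMod E} (F : RHom M N)
    (h0 : ∀ y : N.Cell, N.M.dim y.1 = 0 → ∃ x : M.Cell, M.M.dim x.1 = 0 ∧ (F.f x).1 = y.1)
    (h1 : ∀ x x' : M.Cell, M.M.toGlob.Par x.1 x'.1 → ∀ h : N.Cell,
      N.M.dim h.1 = M.M.dim x.1 + 1 → N.M.src h.1 = (F.f x).1 → N.M.tgt h.1 = (F.f x').1 →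
      ∃ h' : M.Cell, M.M.dim h'.1 = M.M.dim x.1 + 1 ∧ M.M.src h'.1 = x.1 ∧
        M.M.tgt h'.1 = x'.1 ∧ (F.f h').1 = h.1) : RMod.IsW (show M ⟶ N from F) := by
  refine ⟨fun y hy => ?_, fun x x' hx hc => ?_, fun x x' hx h d1 d2 d3 => ?_⟩
  · obtain ⟨x, hx1, hx2⟩ := h0 y hy
    refine ⟨x, hx1, ?_⟩
    show N.M.toGlob.Conn (F.f x).1 y.1
    rw [hx2]
    exact unit_conn hd N y.2
  · obtain ⟨h, k1, k2, k3, k4⟩ := hc
    obtain ⟨h', m1, m2, m3, -⟩ := h1 x x' hx ⟨h, k1⟩ (k2.trans (congrArg (· + 1) (F.dim x))) k3 k4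
    exact ⟨h'.1, h'.2, m1, m2, m3⟩
  · obtain ⟨h', m1, m2, m3, m4⟩ := h1 x x' hx h d1 d2 d3
    refine ⟨h', m1, m2, m3, ?_⟩
    show N.M.toGlob.Conn (F.f h').1 h.1
    rw [m4]
    exact unit_conn hd N h.2

theorem jn_false {C : Type} (j : ℕ) (f f' : D → C) : jn j f f' (j, false) = f (j, false) :=
  if_neg fun h => Bool.false_ne_true h.2

theorem jn_true {C : Type} (j : ℕ) (f f' : D → C) : jn j f f' (j, true) = f' (j, false) :=
  if_pos ⟨rfl, rfl⟩

theorem isW_s (hd : d.Good) (hb : b.Good) (hQ : Q2Good d.x b Q) (G : RMod E) :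
    RMod.IsW (show pthR hd hb hQ G ⟶ G from sHom hd hb hQ G) := by
  refine isW_of_lift hd _ (fun y hy => ⟨⟨_, pt_ok hd y.2 hy⟩, rfl, rfl⟩)
    fun c c' hpar h d1 d2 d3 => ?_
  obtain ⟨hj, hlow⟩ := par_data hpar
  have H := jn_isCyl0 (G := G.M) (c := c.1) (c' := c'.1) c.2 c'.2 hj.symm hlow
  have d2' : G.M.src h.1 = jn c.1.j c.1.α c'.1.α (c.1.j, false) := by
    rw [jn_false]
    exact d2
  have d3' : G.M.tgt h.1 = jn c.1.j c.1.α c'.1.α (c.1.j, true) := by
    rw [jn_true]
    refine d3.trans ?_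
    show c'.1.α (c'.1.j, false) = _
    rw [hj]
  obtain ⟨b1, e1, H1⟩ := lift_s hd H h.2 d1 d2' d3'
  have hc : pthOk d.x G.M c.1 := c.2
  have hc' : pthOk d.x G.M c'.1 := c'.2
  obtain ⟨f1, f2⟩ := topV_face hj.symm hlow ⟨hc.1, hc.2.1, hc.2.2.1⟩
    ⟨hc'.1, hc'.2.1, hc'.2.2.1⟩ h.1 b1 e1
  exact ⟨⟨_, topV_pthOk H1⟩, rfl, f1, f2, topV_gt (Nat.lt_succ_self _)⟩

theorem isW_t (hd : d.Good) (hb : b.Good) (hQ : Q2Good d.x b Q) (G : RMod E) :
    RMod.IsW (show pthR hd hb hQ G ⟶ G.pull b hb from tHom hd hb hQ G) := by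
  refine isW_of_lift hd _ (fun y hy => ⟨⟨_, pt_ok (G := G) hd y.2 hy⟩, rfl, rfl⟩)
    fun c c' hpar h d1 d2 d3 => ?_
  obtain ⟨hj, hlow⟩ := par_data hpar
  have H := jn_isCyl0 (G := G.M) (c := c.1) (c' := c'.1) c.2 c'.2 hj.symm hlow
  have d2' : G.M.src h.1 = jn c.1.j c.1.β c'.1.β (c.1.j, false) := by
    rw [jn_false]
    exact d2
  have d3' : G.M.tgt h.1 = jn c.1.j c.1.β c'.1.β (c.1.j, true) := by
    rw [jn_true]
    refine d3.trans ?_
    show c'.1.β (c'.1.j, false) = _
    rw [hj]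
  obtain ⟨a1, e1, H1⟩ := lift_t hd H h.2 d1 d2' d3'
  have hc : pthOk d.x G.M c.1 := c.2
  have hc' : pthOk d.x G.M c'.1 := c'.2
  obtain ⟨f1, f2⟩ := topV_face hj.symm hlow ⟨hc.1, hc.2.1, hc.2.2.1⟩
    ⟨hc'.1, hc'.2.1, hc'.2.2.1⟩ a1 h.1 e1
  exact ⟨⟨_, topV_pthOk H1⟩, rfl, f1, f2, topV_gt (Nat.lt_succ_self _)⟩

end Functor

end Pth19

open Pth19

/-- the path object functor with its two ends -/
theorem exists_path [E.Good] {d : L0 E} (hd : d.Good) {b : Interp E E} (hb : b.Good)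
    {Q : QFam E} (hQ : Q2Good d.x b Q) :
    ∃ (P : RMod E ⥤ RMod E) (s : P ⟶ 𝟭 _) (t : P ⟶ pullF b hb),
      (∀ G, RMod.IsW (s.app G)) ∧ ∀ G, RMod.IsW (t.app G) :=
  ⟨pthFun hd hb hQ, { app := fun G => sHom hd hb hQ G, naturality := fun _ _ _ => rfl },
    { app := fun G => tHom hd hb hQ G, naturality := fun _ _ _ => rfl },
    isW_s hd hb hQ, isW_t hd hb hQ⟩

end HH
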