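import Pool.Agent.HH.VU
import Pool.Agent.HH.PIAB
import Pool.Agent.HH.PthF
import Pool.Agent.HH.LocEq
import Pool.Agent.HH.IsoW

/-!
# HH 2b: the official bridge

For every coherator, the localisation of the category of its models at the infinity-equivalences is
equivalent to the localisation of the category of raw models of the extended signature at the weak
equivalences.
-/

set_option autoImplicit false

namespace HH

open Classical CategoryTheory Opposite

open Pool.Agent.HH (Globes IsCoherator)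

variable {C : Type} [SmallCategory C] {F : Globes C}

theorem isWM_iff (hC : IsCoherator F) (κ : Pool.Agent.HH.Units F) {G G' : OMod F}
    (φ : G ⟶ G') : Pool.Agent.HH.Model.IsEquiv κ φ ↔ IsWM φ :=
  ⟨isWM_of_isEquiv hC κ φ, isEquiv_of_isWM hC κ φ⟩

theorem loc_extended (hC : IsCoherator F) (κ : Pool.Agent.HH.Units F) :
    Nonempty ((Pool.Agent.HH.infEquivalences κ).Localization ≌
      (RMod.W (EE C)).Localization) := by
  obtain ⟨L, l, hL, ⟨β⟩⟩ := exists_iota hC
  obtain ⟨e1⟩ := uv_iso hC l hL β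
  obtain ⟨b, hb, ⟨e2⟩⟩ := vu_twist hC.ext hC.contractible l hL
  obtain ⟨d, hd, hQ⟩ := EE_level0 (C := C)
  obtain ⟨Q, hQ⟩ := hQ b hb
  obtain ⟨P, s, t, hs, ht⟩ := exists_path hd hb hQ
  refine Pool.Agent.HH.localization_equivalence (Pool.Agent.HH.infEquivalences κ)
    (RMod.W (EE C)) (UF hC.ext hC.contractible) (nF (EE C) ⋙ Pool.Agent.HH.pull L hL l)
    (fun G G' φ h => (UF_isW hC.ext hC.contractible φ).2 ((isWM_iff hC κ φ).1 h))
    (fun M N φ h => (isWM_iff hC κ _).2 (pull_isWM hL l _ (nF_isW φ h))) ?_ ?_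
  · refine Relation.EqvGen.rel _ _ (Or.inl ⟨e1.hom, fun X => ?_⟩)
    exact (isWM_iff hC κ _).2 (isWM_of_iso hC.contractible (e1.app X))
  · refine Relation.EqvGen.trans _ (pullF b hb) _ (Relation.EqvGen.rel _ _ (Or.inl ⟨e2.hom,
      fun X => isW_of_iso EE_disk (e2.app X)⟩)) (Relation.EqvGen.trans _ P _
        (Relation.EqvGen.symm _ _ (Relation.EqvGen.rel _ _ (Or.inl ⟨t, ht⟩)))
        (Relation.EqvGen.rel _ _ (Or.inl ⟨s, hs⟩)))

/-- **The official bridge.** -/
theorem bridge (hC : IsCoherator F) (κ : Pool.Agent.HH.Units F) :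
    ∃ (A : Type) (G : A → Glob) (I : Type), (∀ a, (G a).Laws) ∧ (∀ a p, (G a).ok p) ∧
      (∀ a, Nonempty (G a).C) ∧ (∀ a L, (ofGlob Cs (G a)).MContr L) ∧
      Nonempty ((Pool.Agent.HH.infEquivalences κ).Localization ≌
        (RMod.W (exSig Cs G I)).Localization) :=
  ⟨PC, PC.G, Lab C, fun A => PC_laws A, fun _ _ => trivial, fun _ => ⟨(0 : Fin _)⟩,
    fun A L => Cs_code_contr A L, loc_extended hC κ⟩

end HH
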