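import Mathlib

/-!
# HH part 3, W-2: lifting properties of CW-complexes
-/

set_option autoImplicit false

namespace HH

open CategoryTheory

/-- a map with the right lifting property against the boundary inclusions of disks has it against
`∅ ⟶ Z` for every CW-complex `Z` -/
theorem hasLiftingProperty_cw {E Y : TopCat.{0}} (p : E ⟶ Y)
    (hp : ∀ n, HasLiftingProperty (TopCat.diskBoundaryInclusion.{0} n) p) {Z : TopCat.{0}}
    (hZ : Nonempty (TopCat.CWComplex Z)) : HasLiftingProperty (Limits.initial.to Z) p := by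
  obtain ⟨c⟩ := hZ
  let I : MorphismProperty TopCat.{0} :=
    MorphismProperty.ofHoms (fun n : ℕ => TopCat.diskBoundaryInclusion.{0} n)
  have h1 := HomotopicalAlgebra.RelativeCellComplex.transfiniteCompositionOfShape' c (I := I)
    (fun s => MorphismProperty.ofHoms.mk _)
  have h2 := MorphismProperty.transfiniteCompositionsOfShape_pushouts_coproducts_le_llp_rlp I ℕ _
    h1.mem
  refine h2 p ?_
  intro A B i hi
  obtain ⟨n⟩ := hi
  exact hp n

theorem exists_section_cw {E Y : TopCat.{0}} (p : E ⟶ Y)
    (hp : ∀ n, HasLiftingProperty (TopCat.diskBoundaryInclusion.{0} n) p)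
    (hY : Nonempty (TopCat.CWComplex Y)) : ∃ s : Y ⟶ E, s ≫ p = 𝟙 Y := by
  have := hasLiftingProperty_cw p hp hY
  have sq : CommSq (Limits.initial.to E) (Limits.initial.to Y) p (𝟙 Y) :=
    ⟨Limits.initial.hom_ext _ _⟩
  exact ⟨sq.lift, sq.fac_right⟩

end HH
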