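import Pool.Agent.HH.Defs2

/-!
# HH part 3, algebra: definitions

Restrictions of computads, free models, the finite computads `KC` on sets of names, named
simplices of a model, free computads over a preorder of labels, labels of a grid.
-/

set_option autoImplicit false

namespace HH

open Classical CategoryTheory

variable {S : Sig}

/-! ### Restrictions, contractibility, free models -/

/-- the computad with the same variables and another predicate of genuine variables -/
def Cptd.res (X : Cptd S) (p : X.V → Prop) : Cptd S where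
  V := X.V
  ok := p
  dim := X.dim
  src := X.src
  tgt := X.tgt

/-- nonempty and contractible -/
def Glob.Ctr (G : Glob) : Prop := (∃ x, G.ok x ∧ G.dim x = 0) ∧ ∀ L, G.MContr L

/-- nonempty and contractible computads -/
abbrev Cptd.Ctr (X : Cptd S) : Prop := X.m.toGlob.Ctr

/-- nonempty and contractible models -/
abbrev RMod.Ctr (M : RMod S) : Prop := M.M.toGlob.Ctr

/-- the free model on a computad -/
def RMod.free [S.Good] (X : Cptd S) (hX : X.Good) : RMod S :=
  ⟨X.m, inferInstance, inferInstance⟩

/-- the morphism out of a free model given by a well-typed substitution -/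
def RMod.freeHom [S.Good] {X : Cptd S} (hX : X.Good) {M : RMod S} (γ : X.V → M.M.C)
    (hγ : ∀ v, X.ok v → AsgAt X M.M γ v) : RMod.free X hX ⟶ M :=
  RHom.ofFun (M := RMod.free X hX) (N := M) (M.M.eval γ) (fun t ht => eval_mapAt hγ t ht)
    (fun _ _ _ _ => rfl)

/-! ### The finite computads on sets of names -/

/-- increasing enumeration of a finite set of names -/
noncomputable def enumF (B : Finset ℕ) (i : ℕ) : ℕ := Nat.nth (fun a => a ∈ B) i

/-- a finite set of names without its maximal element -/
noncomputable def dmax (B : Finset ℕ) : Finset ℕ := B.filter (fun i => ∃ j ∈ B, i < j)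

/-- families of boundary terms -/
abbrev ZFam (S : Sig) : Type := ℕ → S.T (Finset ℕ)

/-- One variable of dimension `|B| - 1` for every nonempty finite set `B` of names satisfying `𝒜`;
its target is `B` minus its maximum, its source is the term `z |B|` renamed by the increasing
enumeration of `B`. -/
noncomputable def KC (z : ZFam S) (𝒜 : Finset ℕ → Prop) : Cptd S where
  V := Finset ℕ
  ok := fun B => B.Nonempty ∧ 𝒜 B
  dim := fun B => B.card - 1
  src := fun B => (z B.card).map (fun C => C.image (enumF B))
  tgt := fun B => .var (dmax B)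

/-- nonempty proper subsets of `{0, …, n - 1}` other than `{0, …, n - 2}` -/
def hornP (n : ℕ) (B : Finset ℕ) : Prop := B ⊂ Finset.range n ∧ B ≠ Finset.range (n - 1)

/-- the condition on `z n` -/
structure ZGoodAt (z : ZFam S) (n : ℕ) : Prop where
  ok : (KC z (hornP n)).tok (z n)
  dim : (KC z (hornP n)).tdim (z n) + 2 = n
  src : 2 < n → (KC z (hornP n)).tsrc (z n) = (KC z (hornP n)).src (Finset.range (n - 1))
  tgt : 2 < n → (KC z (hornP n)).ttgt (z n) = .var (Finset.range (n - 2))

/-- good families -/
def ZGood (z : ZFam S) : Prop := ∀ n, 2 ≤ n → ZGoodAt z n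

/-- closed under nonempty subsets -/
def SubCl (𝒜 : Finset ℕ → Prop) : Prop := ∀ B C, 𝒜 B → C ⊆ B → C.Nonempty → 𝒜 C

/-- the cone on `𝒜` with vertex `m` -/
def coneP (m : ℕ) (𝒜 : Finset ℕ → Prop) (C : Finset ℕ) : Prop :=
  C = {m} ∨ 𝒜 C ∨ (m ∈ C ∧ (C.erase m).Nonempty ∧ 𝒜 (C.erase m))

/-- nonempty finite sets of names -/
abbrev Nm : Type := {A : Finset ℕ // A.Nonempty}

/-! ### Free computads over labels -/

/-- Raw variables (index `false`) with a label in `L`, of dimension `0`, or of dimension `n + 1`
with a source and a target, and raw terms over them (index `true`). (One indexed family, so that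
the type is not a nested inductive type.) -/
inductive FX (S : Sig) (L : Type) : Bool → Type
  | pt (l : L) : FX S L false
  | cell (l : L) (n : ℕ) (f g : FX S L true) : FX S L false
  | var (v : FX S L false) : FX S L true
  | op (k : S.K) (γ : (S.ar k).C → FX S L true) : FX S L true

/-- raw variables with labels -/
abbrev FV (S : Sig) (L : Type) : Type := FX S L false

/-- terms of the family `FX` as terms -/
def FX.toTm {S : Sig} {L : Type} : {b : Bool} → FX S L b → S.T (FV S L)
  | _, .pt l => .var (.pt l)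
  | _, .cell l n f g => .var (.cell l n f g)
  | _, .var v => .var v
  | _, .op k γ => .op k (fun p => (γ p).toTm)

/-- terms as terms of the family `FX` -/
def FX.ofTm {S : Sig} {L : Type} (t : S.T (FV S L)) : FX S L true :=
  t.fold (fun k γ => .op k γ) .var

theorem FX.toTm_ofTm {S : Sig} {L : Type} (t : S.T (FV S L)) : (FX.ofTm t).toTm = t := by
  induction t with
  | var v => rfl
  | op k γ ih =>
    show Tm.op k (fun p => (FX.ofTm (γ p)).toTm) = _
    congr 1
    funext p
    exact ih p

theorem FX.ofTm_toTm' {S : Sig} {L : Type} {b : Bool} (t : FX S L b) :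
    ∀ h : b = true, FX.ofTm t.toTm = h ▸ t := by
  induction t with
  | pt l => intro h; cases h
  | cell l n f g _ _ => intro h; cases h
  | var v _ => intro _; rfl
  | op k γ ih =>
    intro _
    show FX.op k (fun p => FX.ofTm (γ p).toTm) = _
    congr 1
    funext p
    exact ih p rfl

theorem FX.ofTm_toTm {S : Sig} {L : Type} (t : FX S L true) : FX.ofTm t.toTm = t :=
  FX.ofTm_toTm' t rfl

namespace FV
variable {L : Type}

/-- the label of a variable -/
def lab : FV S L → L
  | .pt l => l
  | .cell l _ _ _ => l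

/-- the boundary of a variable -/
def bdry : FV S L → Option (ℕ × S.T (FV S L) × S.T (FV S L))
  | .pt _ => none
  | .cell _ n f g => some (n, f.toTm, g.toTm)

/-- the variable with given label and boundary -/
def mk (l : L) : Option (ℕ × S.T (FV S L) × S.T (FV S L)) → FV S L
  | none => .pt l
  | some b => .cell l b.1 (FX.ofTm b.2.1) (FX.ofTm b.2.2)

@[simp] theorem lab_mk (l : L) (b : Option (ℕ × S.T (FV S L) × S.T (FV S L))) :
    lab (mk l b) = l := by
  cases b <;> rfl

@[simp] theorem bdry_mk (l : L) (b : Option (ℕ × S.T (FV S L) × S.T (FV S L))) :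
    bdry (mk l b) = b := by
  rcases b with _ | ⟨n, f, g⟩
  · rfl
  · show some (n, (FX.ofTm f).toTm, (FX.ofTm g).toTm) = _
    rw [FX.toTm_ofTm, FX.toTm_ofTm]

theorem mk_lab_bdry (v : FV S L) : mk v.lab v.bdry = v := by
  cases v with
  | pt l => rfl
  | cell l n f g =>
    show FX.cell l n (FX.ofTm f.toTm) (FX.ofTm g.toTm) = _
    rw [FX.ofTm_toTm, FX.ofTm_toTm]

theorem mk_inj {l l' : L} {b b' : Option (ℕ × S.T (FV S L) × S.T (FV S L))}
    (h : mk l b = mk l' b') : l = l' ∧ b = b' := by
  have h1 := congrArg lab h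
  have h2 := congrArg bdry h
  rw [lab_mk, lab_mk] at h1
  rw [bdry_mk, bdry_mk] at h2
  exact ⟨h1, h2⟩

end FV

/-- the raw computad of all labelled variables -/
def FR (S : Sig) (L : Type) : Cptd S where
  V := FV S L
  ok := fun _ => True
  dim := fun v => match FV.bdry v with
    | none => 0
    | some b => b.1 + 1
  src := fun v => match FV.bdry v with
    | none => .var v
    | some b => b.2.1
  tgt := fun v => match FV.bdry v with
    | none => .var v
    | some b => b.2.2

/-- the genuine labelled variables -/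
inductive FOk {S : Sig} {L : Type} [Preorder L] : FV S L → Prop
  | pt (l : L) : FOk (FV.mk l none)
  | cell (l : L) (f g : S.T (FV S L)) (hf : (FR S L).tok f) (hg : (FR S L).tok g)
      (hd : (FR S L).tdim f = (FR S L).tdim g)
      (hs : 0 < (FR S L).tdim f → (FR S L).tsrc f = (FR S L).tsrc g)
      (ht : 0 < (FR S L).tdim f → (FR S L).ttgt f = (FR S L).ttgt g)
      (lf : ∀ v, f.HasVar v → FV.lab v ≤ l) (lg : ∀ v, g.HasVar v → FV.lab v ≤ l)
      (of : ∀ v, f.HasVar v → FOk v) (og : ∀ v, g.HasVar v → FOk v) :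
      FOk (FV.mk l (some ((FR S L).tdim f, f, g)))

/-- the free computad on the labels in `U` -/
def FC (S : Sig) (L : Type) [Preorder L] (U : L → Prop) : Cptd S :=
  (FR S L).res (fun v => FOk v ∧ U (FV.lab v))

/-! ### Labels of a grid -/

/-- Labels: cells of the grid `[0, N]^n` (coordinate `2 k`: the vertex `k`; coordinate `2 k + 1`:
the interval `[k, k + 1]`) and globular labels `(i, ε)`, `i < n`. -/
inductive GLab (n N : ℕ) : Type
  | cell (d : Fin n → ℕ) (h : ∀ i, d i ≤ 2 * N) : GLab n N
  | glo (i : ℕ) (hi : i < n) (ε : Bool) : GLab n N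

/-- the closed cell `d` is contained in the closed cell `d'` -/
def faceLe {n : ℕ} (d d' : Fin n → ℕ) : Prop :=
  ∀ i, d i = d' i ∨ (d' i % 2 = 1 ∧ (d i + 1 = d' i ∨ d i = d' i + 1))

/-- the closed cell `d` is contained in `X_(i, ε) = {t_i = ε} ∪ {t_j ∈ {0, 1}, j < i}` -/
def inX {n : ℕ} (N : ℕ) (d : Fin n → ℕ) (i : ℕ) (ε : Bool) : Prop :=
  ∃ j : Fin n, (j.1 = i ∧ d j = if ε then 2 * N else 0) ∨ (j.1 < i ∧ (d j = 0 ∨ d j = 2 * N))

/-- the order on labels -/
def GLab.le' {n N : ℕ} : GLab n N → GLab n N → Prop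
  | .cell d _, .cell d' _ => faceLe d d'
  | .cell d _, .glo i _ ε => inX N d i ε
  | .glo i _ ε, .glo j _ δ => i < j ∨ (i = j ∧ ε = δ)
  | .glo _ _ _, .cell _ _ => False

instance {n N : ℕ} : Preorder (GLab n N) where
  le := GLab.le'
  le_refl := by
    rintro (⟨d, h⟩ | ⟨i, hi, ε⟩)
    · exact fun i => Or.inl rfl
    · exact Or.inr ⟨rfl, rfl⟩
  le_trans := by
    rintro (⟨d, h⟩ | ⟨i, hi, ε⟩) (⟨d', h'⟩ | ⟨j, hj, δ⟩) (⟨d'', h''⟩ | ⟨k, hk, η⟩) h1 h2
    · intro i
      have h1' := h1 i
      have h2' := h2 i
      omega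
    · obtain ⟨j, hj⟩ := h2
      have h1' := h1 j
      refine ⟨j, ?_⟩
      rcases hj with ⟨hj1, hj2⟩ | ⟨hj1, hj2⟩
      · left
        refine ⟨hj1, ?_⟩
        split_ifs at hj2 ⊢ <;> omega
      · right
        refine ⟨hj1, ?_⟩
        omega
    · exact h2.elim
    · obtain ⟨l, hl⟩ := h1
      rcases h2 with h2 | ⟨h2, h3⟩
      · refine ⟨l, Or.inr ?_⟩
        rcases hl with ⟨hl1, hl2⟩ | ⟨hl1, hl2⟩
        · refine ⟨by omega, ?_⟩
          split_ifs at hl2 <;> omega
        · exact ⟨by omega, hl2⟩
      · subst h2 h3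
        exact ⟨l, hl⟩
    · exact h1.elim
    · exact h1.elim
    · exact h2.elim
    · rcases h1 with h1 | ⟨h1, h1'⟩ <;> rcases h2 with h2 | ⟨h2, h2'⟩
      · exact Or.inl (by omega)
      · exact Or.inl (by omega)
      · exact Or.inl (by omega)
      · exact Or.inr ⟨by omega, h1'.trans h2'⟩

end HH
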