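import Pool.Agent.HH.Defs2

/-!
# HH part 3, PI: disks, the globular set of disks in a space, realisations

* `Dk j` is the closed unit disk of dimension `j`, `Sph j` the boundary sphere of `Dk (j + 1)`.
* `Dk.seg x c` is the point of the vertical segment above `x` at relative height `c ∈ [-1, 1]`,
  `sg b j : C(Dk j, Dk (j + 1))` the lower (`b = false`) and upper (`b = true`) hemisphere.
* `PiG Y` is the globular set of disks in the space `Y`.
* `Rlz a` is the realisation of a globular set: the disks of the cells, glued.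
-/

set_option autoImplicit false

namespace HH

open CategoryTheory

/-- the closed unit disk of dimension `j` -/
def Dk (j : ℕ) : Type := {x : Fin j → ℝ // ∑ i, x i ^ 2 ≤ 1}

/-- the boundary sphere of `Dk (j + 1)` -/
def Sph (j : ℕ) : Type := {x : Fin (j + 1) → ℝ // ∑ i, x i ^ 2 = 1}

instance (j : ℕ) : TopologicalSpace (Dk j) :=
  inferInstanceAs (TopologicalSpace {x : Fin j → ℝ // ∑ i, x i ^ 2 ≤ 1})

instance (j : ℕ) : TopologicalSpace (Sph j) :=
  inferInstanceAs (TopologicalSpace {x : Fin (j + 1) → ℝ // ∑ i, x i ^ 2 = 1})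

/-- the interval `[-1, 1]` -/
abbrev J1 : Type := Set.Icc (-1 : ℝ) 1

/-- the end `-1` or `1` of `[-1, 1]` -/
def sgn (b : Bool) : J1 := if b then ⟨1, by norm_num⟩ else ⟨-1, by norm_num⟩

namespace Dk

variable {j : ℕ}

/-- the inclusion in the Euclidean space -/
theorem continuous_val : Continuous fun x : Dk j => x.1 := continuous_subtype_val

/-- the squared norm -/
def sq (x : Dk j) : ℝ := ∑ i, x.1 i ^ 2

theorem sq_nonneg' (x : Dk j) : 0 ≤ x.sq := Finset.sum_nonneg fun _ _ => sq_nonneg _

theorem sq_le_one' (x : Dk j) : x.sq ≤ 1 := x.2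

theorem continuous_sq : Continuous fun x : Dk j => x.sq := by
  unfold sq
  exact continuous_finset_sum _ fun i _ => ((continuous_apply i).comp continuous_val).pow 2

/-- the height of the upper hemisphere above `x` -/
noncomputable def hgt (x : Dk j) : ℝ := √(1 - x.sq)

theorem hgt_nonneg (x : Dk j) : 0 ≤ x.hgt := Real.sqrt_nonneg _

theorem hgt_sq (x : Dk j) : x.hgt ^ 2 = 1 - x.sq :=
  Real.sq_sqrt (by linarith [x.sq_le_one'])

theorem continuous_hgt : Continuous fun x : Dk j => x.hgt :=
  (continuous_const.sub continuous_sq).sqrt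

/-- the first coordinates -/
def init (x : Dk (j + 1)) : Dk j := ⟨fun i => x.1 i.castSucc, by
  have h := x.2
  rw [Fin.sum_univ_castSucc] at h
  nlinarith [sq_nonneg (x.1 (Fin.last j))]⟩

/-- the last coordinate -/
def last (x : Dk (j + 1)) : ℝ := x.1 (Fin.last j)

theorem continuous_init : Continuous fun x : Dk (j + 1) => x.init :=
  Continuous.subtype_mk (f := fun (x : Dk (j + 1)) (i : Fin j) => x.1 i.castSucc)
    (continuous_pi fun i => (continuous_apply i.castSucc).comp continuous_val) _

theorem continuous_last : Continuous fun x : Dk (j + 1) => x.last :=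
  (continuous_apply _).comp continuous_val

/-- The point of the vertical segment above `x` at relative height `c`. -/
noncomputable def seg (x : Dk j) (c : J1) : Dk (j + 1) :=
  ⟨Fin.snoc (α := fun _ => ℝ) x.1 (c.1 * x.hgt), by
    rw [Fin.sum_univ_castSucc]
    simp only [Fin.snoc_castSucc, Fin.snoc_last]
    have h1 := x.hgt_sq
    have h2 : c.1 ^ 2 ≤ 1 := by
      have := c.2
      rw [Set.mem_Icc] at this
      nlinarith
    have h3 : ∑ i, x.1 i ^ 2 = x.sq := rfl
    have h4 := x.sq_le_one'
    rw [h3, mul_pow, h1]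
    nlinarith⟩

theorem continuous_seg : Continuous fun p : Dk j × J1 => seg p.1 p.2 := by
  refine Continuous.subtype_mk (continuous_pi fun i => ?_) _
  refine Fin.lastCases ?_ (fun i => ?_) i
  · simp only [Fin.snoc_last]
    exact (continuous_subtype_val.comp continuous_snd).mul (continuous_hgt.comp continuous_fst)
  · simp only [Fin.snoc_castSucc]
    exact (continuous_apply i).comp (continuous_val.comp continuous_fst)

end Dk

/-- The inclusions of the hemispheres: lower for `false` (source), upper for `true` (target). -/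
noncomputable def sg (b : Bool) (j : ℕ) : C(Dk j, Dk (j + 1)) :=
  ⟨fun x => x.seg (sgn b), Dk.continuous_seg.comp (by fun_prop : Continuous fun x : Dk j =>
    (x, sgn b))⟩

/-- the source inclusion -/
noncomputable abbrev sig (j : ℕ) : C(Dk j, Dk (j + 1)) := sg false j

/-- the target inclusion -/
noncomputable abbrev tau (j : ℕ) : C(Dk j, Dk (j + 1)) := sg true j

/-- `sg` for propositionally equal dimensions -/
noncomputable def sgE (b : Bool) {i j : ℕ} (h : i + 1 = j) : C(Dk i, Dk j) := h ▸ sg b i

/-- the identification of disks of equal dimensions -/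
def Dk.cast {i j : ℕ} (h : i = j) : C(Dk i, Dk j) := h ▸ ContinuousMap.id _

/-- the inclusion of the boundary sphere -/
def Sph.inc (j : ℕ) : C(Sph j, Dk (j + 1)) :=
  ⟨fun x => ⟨x.1, x.2.le⟩, Continuous.subtype_mk continuous_subtype_val _⟩

/-- source (`false`) or target (`true`) of a cell -/
def Glob.st (G : Glob) (b : Bool) (x : G.C) : G.C := if b then G.tgt x else G.src x

section PiG

variable (Y : Type) [TopologicalSpace Y]

/-- The globular set of the disks in a space. -/
noncomputable def PiG : Glob where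
  C := Σ j, C(Dk j, Y)
  dim := fun c => c.1
  src := fun c => match c with
    | ⟨0, f⟩ => ⟨0, f⟩
    | ⟨j + 1, f⟩ => ⟨j, f.comp (sig j)⟩
  tgt := fun c => match c with
    | ⟨0, f⟩ => ⟨0, f⟩
    | ⟨j + 1, f⟩ => ⟨j, f.comp (tau j)⟩
  ok := fun _ => True

variable {Y}

/-- the map of a cell of dimension `k` -/
def PiG.fn (c : (PiG Y).C) {k : ℕ} (h : c.1 = k) : C(Dk k, Y) := h ▸ c.2

/-- the map induced by a continuous map -/
def PiG.map {Z : Type} [TopologicalSpace Z] (f : C(Y, Z)) (c : (PiG Y).C) : (PiG Z).C :=
  ⟨c.1, f.comp c.2⟩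

end PiG

/-- The identifications in the realisation of a globular set. -/
inductive RlzRel (a : Glob) : (Σ p : a.C, Dk (a.dim p)) → (Σ p : a.C, Dk (a.dim p)) → Prop
  | mk (b : Bool) (p : a.C) (hp : a.ok p) (h : a.dim (a.st b p) + 1 = a.dim p)
      (x : Dk (a.dim (a.st b p))) : RlzRel a ⟨a.st b p, x⟩ ⟨p, sgE b h x⟩

/-- The realisation of a globular set. -/
def Rlz (a : Glob) : Type := Quot (RlzRel a)

instance (a : Glob) : TopologicalSpace (Rlz a) :=
  inferInstanceAs (TopologicalSpace (Quot (RlzRel a)))

/-- the disk of a cell in the realisation -/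
def Rlz.cell (a : Glob) (p : a.C) : C(Dk (a.dim p), Rlz a) :=
  ⟨fun x => Quot.mk _ ⟨p, x⟩, continuous_quot_mk.comp continuous_sigmaMk⟩

/-- the universal typed map to the disks of the realisation -/
def Rlz.u (a : Glob) (p : a.C) : (PiG (Rlz a)).C := ⟨a.dim p, Rlz.cell a p⟩

end HH
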