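import Pool.Agent.HH.Bd
import Pool.Agent.HH.Defs2
import Pool.Agent.HH.InsG
import Pool.Agent.HH.PiDefs
import Pool.Agent.HH.Defs3

/-!
# HH part 3, CMP-2: free models and cells

* `termR X`: the model of terms over the computad `X`; `RHom.lift`: its universal property.
* `FD j`: the free model on a cell of dimension `j`; `cellHom x h : FD j ⟶ M` the morphism of the
  cell `x`.
-/

set_option autoImplicit false

namespace HH

open Classical CategoryTheory

variable {S : Sig}

/-- a morphism of models from its underlying structure -/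
def RHom.mk' {M N : RMod S} (F : RHom M N) : M ⟶ N := F

theorem rhom_ext {M N : RMod S} {F G : M ⟶ N} (h : ∀ x, (RHom.f F x).1 = (RHom.f G x).1) :
    F = G := by
  refine RHom.ext ?_
  funext x
  exact Subtype.ext (h x)

@[simp] theorem rhom_id {M : RMod S} (x : M.Cell) : RHom.f (𝟙 M) x = x := rfl

@[simp] theorem rhom_comp {M N K : RMod S} (F : M ⟶ N) (G : N ⟶ K) (x : M.Cell) :
    RHom.f (F ≫ G) x = RHom.f G (RHom.f F x) := rfl

/-- source or target of a cell of positive dimension -/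
def RMod.st (M : RMod S) (b : Bool) (x : M.Cell) (h : 0 < M.M.dim x.1) : M.Cell :=
  ⟨M.M.toGlob.st b x.1, by
    cases b
    · exact Glob.Laws.ok_src x.1 x.2 h
    · exact Glob.Laws.ok_tgt x.1 x.2 h⟩

theorem RMod.dim_st {M : RMod S} (b : Bool) (x : M.Cell) (h : 0 < M.M.dim x.1) :
    M.M.dim (M.st b x h).1 + 1 = M.M.dim x.1 := by
  cases b
  · exact Glob.Laws.dim_src x.1 x.2 h
  · exact Glob.Laws.dim_tgt x.1 x.2 h

theorem RMod.st_st {M : RMod S} (b c c' : Bool) (x : M.Cell) (h : 1 < M.M.dim x.1)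
    (h1 : 0 < M.M.dim x.1) (h2 : 0 < M.M.dim (M.st c x h1).1)
    (h3 : 0 < M.M.dim (M.st c' x h1).1) : M.st b (M.st c x h1) h2 = M.st b (M.st c' x h1) h3 := by
  refine Subtype.ext ?_
  have k1 := Glob.Laws.src_tgt x.1 x.2 h
  have k2 := Glob.Laws.tgt_src x.1 x.2 h
  cases b <;> cases c <;> cases c' <;> first
    | rfl
    | exact k1
    | exact k1.symm
    | exact k2
    | exact k2.symm

theorem RHom.dim_f {M N : RMod S} (F : M ⟶ N) (x : M.Cell) :
    N.M.dim (RHom.f F x).1 = M.M.dim x.1 := RHom.dim F x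

theorem RHom.st_f {M N : RMod S} (F : M ⟶ N) (b : Bool) (x : M.Cell) (h : 0 < M.M.dim x.1)
    (h' : 0 < N.M.dim (RHom.f F x).1) :
    N.st b (RHom.f F x) h' = RHom.f F (M.st b x h) := by
  refine Subtype.ext ?_
  cases b
  · exact RHom.src F x h
  · exact RHom.tgt F x h

/-- iterated boundary of a cell -/
def RMod.bdC (M : RMod S) (x : M.Cell) (q : D) : M.Cell :=
  ⟨M.M.toGlob.bd x.1 q, ok_bd x.2 q⟩

theorem RHom.bd_f {M N : RMod S} (F : M ⟶ N) (x : M.Cell) (q : D) :
    N.bdC (RHom.f F x) q = RHom.f F (M.bdC x q) := by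
  have key : ∀ (ε : Bool) (k : ℕ), k ≤ M.M.dim x.1 →
      ∀ h : M.M.ok ((if ε then M.M.tgt else M.M.src)^[k] x.1),
      (if ε then N.M.tgt else N.M.src)^[k] (RHom.f F x).1 =
        (RHom.f F ⟨(if ε then M.M.tgt else M.M.src)^[k] x.1, h⟩).1 := by
    intro ε k
    induction k with
    | zero =>
      intro _ h
      rfl
    | succ k ih =>
      intro hk h
      have h1 : M.M.ok ((if ε then M.M.tgt else M.M.src)^[k] x.1) := by
        have := ok_bd x.2 (M.M.dim x.1 - k, ε)
        unfold Glob.bd at this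
        rw [show M.M.dim x.1 - (M.M.dim x.1 - k, ε).1 = k by
          show M.M.dim x.1 - (M.M.dim x.1 - k) = k
          omega] at this
        exact this
      have h2 : M.M.dim ((if ε then M.M.tgt else M.M.src)^[k] x.1) = M.M.dim x.1 - k := by
        have := dim_bd x.2 (q := (M.M.dim x.1 - k, ε)) (by
          show M.M.dim x.1 - k ≤ M.M.dim x.1
          omega)
        unfold Glob.bd at this
        rw [show M.M.dim x.1 - (M.M.dim x.1 - k, ε).1 = k by
          show M.M.dim x.1 - (M.M.dim x.1 - k) = k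
          omega] at this
        exact this
      have h3 : 0 < M.M.dim ((if ε then M.M.tgt else M.M.src)^[k] x.1) := by
        rw [h2]
        omega
      rw [Function.iterate_succ_apply', ih (by omega) h1]
      have e : (⟨(if ε then M.M.tgt else M.M.src)^[k + 1] x.1, h⟩ : M.Cell) =
          M.st ε ⟨_, h1⟩ h3 := by
        refine Subtype.ext ?_
        show (if ε then M.M.tgt else M.M.src)^[k + 1] x.1 = _
        rw [Function.iterate_succ_apply']
        cases ε <;> rfl
      rw [e, ← RHom.st_f F ε ⟨_, h1⟩ h3 (by rw [RHom.dim_f]; exact h3)]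
      cases ε <;> rfl
  refine Subtype.ext ?_
  show (if q.2 then N.M.tgt else N.M.src)^[N.M.dim (RHom.f F x).1 - q.1] (RHom.f F x).1 = _
  rw [RHom.dim_f]
  exact key q.2 (M.M.dim x.1 - q.1) (by omega) _

/-! ### Free models -/

/-- The model of terms over a good computad. -/
def termR (X : Cptd S) [S.Good] [X.Good] : RMod S := ⟨X.m, m_laws X, inferInstance⟩

section Free

variable [S.Good] {X : Cptd S} [X.Good] {M N : RMod S}

/-- The morphism from a free model given by a typed map. -/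
def RHom.lift (γ : X.V → M.M.C) (hγ : ∀ v, X.ok v → AsgAt X M.M γ v) : termR X ⟶ M :=
  RHom.ofFun (M := termR X) (N := M) (M.M.eval γ) (fun t ht => eval_mapAt hγ t ht)
    (fun _ _ _ _ => rfl)

theorem RHom.lift_f (γ : X.V → M.M.C) (hγ : ∀ v, X.ok v → AsgAt X M.M γ v)
    (x : (termR X).Cell) : (RHom.f (RHom.lift γ hγ) x).1 = M.M.eval γ x.1 := rfl

/-- morphisms from free models are determined by the values at the variables -/
theorem RHom.ext_term {F G : termR X ⟶ M}
    (h : ∀ v (hv : X.ok v), (RHom.f F ⟨.var v, hv⟩).1 = (RHom.f G ⟨.var v, hv⟩).1) : F = G := by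
  refine rhom_ext ?_
  rintro ⟨t, ht⟩
  change S.T X.V at t
  induction t with
  | var v => exact h v ht
  | op k δ ih =>
    have ht' : X.tok (.op k δ) := ht
    obtain ⟨hk, hδ⟩ := ht'
    have e1 := RHom.op F k hk (fun p => (⟨δ p, (hδ p).1⟩ : (termR X).Cell)) hδ
    have e2 := RHom.op G k hk (fun p => (⟨δ p, (hδ p).1⟩ : (termR X).Cell)) hδ
    refine e1.trans (Eq.trans ?_ e2.symm)
    congr 1
    funext p
    exact ih p (hδ p).1

/-- values of morphisms from free models -/
theorem RHom.f_term (F : termR X ⟶ M) (t : S.T X.V) (ht : X.tok t) (γ : X.V → M.M.C)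
    (h : ∀ v (hv : X.ok v), γ v = (RHom.f F ⟨.var v, hv⟩).1) :
    (RHom.f F ⟨t, ht⟩).1 = M.M.eval γ t := by
  induction t with
  | var v => exact (h v ht).symm
  | op k δ ih =>
    have ht' : X.tok (.op k δ) := ht
    obtain ⟨hk, hδ⟩ := ht'
    refine (RHom.op F k hk (fun p => (⟨δ p, (hδ p).1⟩ : (termR X).Cell)) hδ).trans ?_
    show M.M.o k _ = M.M.o k _
    congr 1
    funext p
    exact ih p (hδ p).1

end Free

/-! ### The free model on a cell -/

section Disk

variable [S.Good]

/-- The free model on a cell of dimension `j`. -/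
def FD (S : Sig) [S.Good] (j : ℕ) : RMod S := termR (ofGlob S (diskG j))

/-- the universal cell -/
def gen (S : Sig) [S.Good] (j : ℕ) : (FD S j).Cell :=
  ⟨.var (j, false), Or.inr ⟨rfl, rfl⟩⟩

theorem dim_gen (j : ℕ) : (FD S j).M.dim (gen S j).1 = j := rfl

/-- the boundary cells of the universal cell -/
def genB (S : Sig) [S.Good] (j : ℕ) (q : D) (hq : q.1 < j) : (FD S j).Cell :=
  ⟨.var q, Or.inl hq⟩

variable {M N : RMod S}

/-- The morphism represented by a cell. -/
def cellHom (x : M.Cell) {j : ℕ} (h : M.M.dim x.1 = j) : FD S j ⟶ M :=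
  RHom.lift (X := ofGlob S (diskG j)) (M.M.toGlob.bd x.1) (fun q hq => by
    subst h
    exact bd_mapAt x.2 hq)

theorem cellHom_var (x : M.Cell) {j : ℕ} (h : M.M.dim x.1 = j) (q : D)
    (hq : (diskG j).ok q) : RHom.f (cellHom x h) ⟨.var q, hq⟩ = M.bdC x q := rfl

theorem cellHom_gen (x : M.Cell) {j : ℕ} (h : M.M.dim x.1 = j) :
    RHom.f (cellHom x h) (gen S j) = x := by
  refine Subtype.ext ?_
  exact bd_of_le x.1 (j, false) h.le

theorem cellHom_comp (x : M.Cell) {j : ℕ} (h : M.M.dim x.1 = j) (F : M ⟶ N)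
    (h' : N.M.dim (RHom.f F x).1 = j) : cellHom x h ≫ F = cellHom (RHom.f F x) h' := by
  refine RHom.ext_term ?_
  intro q hq
  exact congrArg Subtype.val (RHom.bd_f F x q).symm

theorem cellHom_gen_self (j : ℕ) : cellHom (gen S j) (dim_gen j) = 𝟙 (FD S j) := by
  refine RHom.ext_term ?_
  intro q hq
  show (FD S j).M.toGlob.bd (.var (j, false)) q = .var q
  have h : ∀ (ε : Bool) (k : ℕ), (if ε then (FD S j).M.toGlob.tgt else (FD S j).M.toGlob.src)^[k]
      (.var (j, false) : S.T D) = .var ((if ε then (diskG j).tgt else (diskG j).src)^[k] (j, false)) := by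
    intro ε k
    induction k with
    | zero => rfl
    | succ k ih =>
      rw [Function.iterate_succ_apply', Function.iterate_succ_apply', ih]
      cases ε <;> rfl
  have e : (diskG j).bd (j, false) q = q := by
    rw [diskG_bd]
    unfold bdD
    rcases hq with hq | ⟨h1, h2⟩
    · rw [if_pos hq]
    · rw [if_neg (by omega)]
      exact Prod.ext h1.symm h2.symm
  exact (h q.2 _).trans (congrArg Tm.var e)

theorem hom_eq_cellHom {j : ℕ} (F : FD S j ⟶ M)
    (h : M.M.dim (RHom.f F (gen S j)).1 = j) : F = cellHom (RHom.f F (gen S j)) h := by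
  rw [← cellHom_comp (gen S j) (dim_gen j) F, cellHom_gen_self, Category.id_comp]

theorem FD_hom_ext {j : ℕ} {F G : FD S j ⟶ M}
    (h : RHom.f F (gen S j) = RHom.f G (gen S j)) : F = G := by
  have hF : M.M.dim (RHom.f F (gen S j)).1 = j := RHom.dim_f F _
  rw [hom_eq_cellHom F hF, hom_eq_cellHom G (RHom.dim_f G _)]
  congr 1

/-- the boundary inclusions -/
def FDst (S : Sig) [S.Good] (b : Bool) (j : ℕ) : FD S j ⟶ FD S (j + 1) :=
  cellHom (genB S (j + 1) (j, b) (Nat.lt_succ_self j)) rfl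

theorem FDst_gen (b : Bool) (j : ℕ) :
    RHom.f (FDst S b j) (gen S j) = genB S (j + 1) (j, b) (Nat.lt_succ_self j) :=
  cellHom_gen _ _

theorem FDst_gen' (b : Bool) (j : ℕ) (h : 0 < (FD S (j + 1)).M.dim (gen S (j + 1)).1) :
    RHom.f (FDst S b j) (gen S j) = (FD S (j + 1)).st b (gen S (j + 1)) h := by
  rw [FDst_gen]
  refine Subtype.ext ?_
  cases b <;> rfl

theorem FDst_cellHom (b : Bool) {j : ℕ} (x : M.Cell) (h : M.M.dim x.1 = j + 1)
    (h0 : 0 < M.M.dim x.1) (h' : M.M.dim (M.st b x h0).1 = j) :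
    FDst S b j ≫ cellHom x h = cellHom (M.st b x h0) h' := by
  refine FD_hom_ext ?_
  rw [rhom_comp, FDst_gen, cellHom_gen]
  refine Subtype.ext ?_
  show M.M.toGlob.bd x.1 (j, b) = M.M.toGlob.st b x.1
  have e : j = M.M.dim x.1 - 1 := by omega
  rw [e]
  cases b
  · exact bd_pred_false h0
  · exact bd_pred_true h0

theorem FDst_FDst (b c c' : Bool) (j : ℕ) :
    FDst S b j ≫ FDst S c (j + 1) = FDst S b j ≫ FDst S c' (j + 1) := by
  refine FD_hom_ext ?_
  have h1 : 0 < (FD S (j + 1)).M.dim (gen S (j + 1)).1 := Nat.succ_pos _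
  have h2 : 0 < (FD S (j + 2)).M.dim (gen S (j + 2)).1 := Nat.succ_pos _
  rw [rhom_comp, rhom_comp, FDst_gen' b j h1,
    ← RHom.st_f _ b _ h1 (by rw [RHom.dim_f]; exact h1),
    ← RHom.st_f _ b _ h1 (by rw [RHom.dim_f]; exact h1)]
  have e : ∀ d, RHom.f (FDst S d (j + 1)) (gen S (j + 1)) =
      (FD S (j + 2)).st d (gen S (j + 2)) h2 := fun d => FDst_gen' d (j + 1) h2
  refine Subtype.ext ?_
  show (FD S (j + 2)).M.toGlob.st b (RHom.f (FDst S c (j + 1)) (gen S (j + 1))).1 =
    (FD S (j + 2)).M.toGlob.st b (RHom.f (FDst S c' (j + 1)) (gen S (j + 1))).1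
  rw [e c, e c']
  exact congrArg Subtype.val (RMod.st_st b c c' (gen S (j + 2)) (by
    show 1 < j + 2
    omega) h2 (by
      have := RMod.dim_st c (gen S (j + 2)) h2
      have h3 : (FD S (j + 2)).M.dim (gen S (j + 2)).1 = j + 2 := rfl
      omega) (by
      have := RMod.dim_st c' (gen S (j + 2)) h2
      have h3 : (FD S (j + 2)).M.dim (gen S (j + 2)).1 = j + 2 := rfl
      omega))

end Disk

/-- fillers in contractible models -/
theorem RMod.Ctr.fill {M : RMod S} (h : M.Ctr) {x y : M.M.C} (hp : M.M.toGlob.Par x y) :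
    ∃ z : M.Cell, M.M.dim z.1 = M.M.dim x + 1 ∧ M.M.src z.1 = x ∧ M.M.tgt z.1 = y := by
  obtain ⟨z, h1, h2, h3, h4⟩ := h.2 (M.M.dim x + 1) x y hp (Nat.lt_succ_self _)
  exact ⟨⟨z, h1⟩, h2, h3, h4⟩

end HH
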