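import Pool.Agent.HH.CmpTop
import Pool.Agent.HH.CmpTerm

/-!
# HH part 3, CMP-3: the disks of cells

`TData`: a functor `B` from models to spaces with a coglobular family of disks
`t j : Dk j → B (FD j)`; then every cell `x` of a model `M` has a disk `T x` in `B M`, naturally.
-/

set_option autoImplicit false

namespace HH

open Classical CategoryTheory

variable {S : Sig} [S.Good]

/-- A functor to spaces with a coglobular family of disks. -/
structure TData (S : Sig) [S.Good] where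
  B : RMod S ⥤ TopCat.{0}
  wc : ∀ M : RMod S, M.Ctr → WCt (B.obj M)
  t : ∀ j, C(Dk j, B.obj (FD S j))
  t_st : ∀ b j, (t (j + 1)).comp (sg b j) = (B.map (FDst S b j)).hom.comp (t j)

/-- coglobular families of disks exist -/
theorem exists_t (B : RMod S ⥤ TopCat.{0}) (hB : ∀ j, WCt (B.obj (FD S j))) :
    ∃ t : ∀ j, C(Dk j, B.obj (FD S j)),
      ∀ b j, (t (j + 1)).comp (sg b j) = (B.map (FDst S b j)).hom.comp (t j) := by
  let St : ℕ → Type := fun j => {t : C(Dk j, B.obj (FD S j)) //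
    ParC ((B.map (FDst S false j)).hom.comp t) ((B.map (FDst S true j)).hom.comp t)}
  have step : ∀ j (s : St j), ∃ s' : St (j + 1),
      ∀ b, s'.1.comp (sg b j) = (B.map (FDst S b j)).hom.comp s.1 := by
    intro j s
    obtain ⟨G, g0, g1⟩ := (hB (j + 1)).conn s.2
    have hG : ∀ b, G.comp (sg b j) = (B.map (FDst S b j)).hom.comp s.1 := by
      intro b
      cases b
      · exact g0
      · exact g1
    refine ⟨⟨G, ?_⟩, hG⟩
    rw [parC_succ]
    intro b
    rw [ContinuousMap.comp_assoc, ContinuousMap.comp_assoc, hG b]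
    have e : ∀ c, (B.map (FDst S c (j + 1))).hom.comp ((B.map (FDst S b j)).hom.comp s.1) =
        (B.map (FDst S b j ≫ FDst S c (j + 1))).hom.comp s.1 := by
      intro c
      rw [Functor.map_comp]
      rfl
    rw [e, e, FDst_FDst b false true j]
  obtain ⟨y⟩ := (hB 0).1
  let s0 : St 0 := ⟨ContinuousMap.const _ y, parC_zero _ _⟩
  let s : ∀ j, St j := fun j => Nat.rec s0 (fun j s => (step j s).choose) j
  refine ⟨fun j => (s j).1, fun b j => ?_⟩
  exact (step j (s j)).choose_spec b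

namespace TData

variable (τ : TData S) {M N : RMod S}

/-- The disk of a cell. -/
noncomputable def T (x : M.Cell) : (PiG (τ.B.obj M)).C :=
  ⟨M.M.dim x.1, (τ.B.map (cellHom x rfl)).hom.comp (τ.t _)⟩

theorem T_eq (x : M.Cell) {j : ℕ} (h : M.M.dim x.1 = j) :
    τ.T x = ⟨j, (τ.B.map (cellHom x h)).hom.comp (τ.t j)⟩ := by
  subst h
  rfl

theorem T_dim (x : M.Cell) : (τ.T x).1 = M.M.dim x.1 := rfl

theorem T_gen (j : ℕ) : τ.T (gen S j) = ⟨j, τ.t j⟩ := by
  rw [τ.T_eq (gen S j) (dim_gen j), cellHom_gen_self, τ.B.map_id]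
  rfl

theorem T_nat (F : M ⟶ N) (x : M.Cell) :
    PiG.map (τ.B.map F).hom (τ.T x) = τ.T (RHom.f F x) := by
  rw [τ.T_eq (RHom.f F x) (RHom.dim_f F x), ← cellHom_comp x rfl F, Functor.map_comp]
  rfl

theorem T_st (b : Bool) (x : M.Cell) (h : 0 < M.M.dim x.1) :
    (PiG (τ.B.obj M)).st b (τ.T x) = τ.T (M.st b x h) := by
  obtain ⟨j, hj⟩ : ∃ j, M.M.dim x.1 = j + 1 := ⟨M.M.dim x.1 - 1, by omega⟩
  have h' : M.M.dim (M.st b x h).1 = j := by
    have := RMod.dim_st b x h
    omega
  rw [τ.T_eq x hj, τ.T_eq (M.st b x h) h', PiG.st_mk, ContinuousMap.comp_assoc, τ.t_st,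
    ← FDst_cellHom b x hj h h', Functor.map_comp]
  rfl

end TData

end HH
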