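import Pool.Agent.HH.PiDk

/-!
# HH part 3, PI-3: polar coordinates, extension of maps, homotopy extension
-/

set_option autoImplicit false

namespace HH

variable {j : ℕ} {Y : Type*} [TopologicalSpace Y]

/-- polar coordinates `(z, t) ↦ (1 - t) z` -/
noncomputable def pol (j : ℕ) : C(Sph j × unitInterval, Dk (j + 1)) where
  toFun p := ⟨fun i => (1 - p.2.1) * p.1.1 i, by
    have h1 : ∑ i, ((1 - p.2.1) * p.1.1 i) ^ 2 = (1 - p.2.1) ^ 2 * ∑ i, p.1.1 i ^ 2 := by
      rw [Finset.mul_sum]
      exact Finset.sum_congr rfl fun i _ => by ring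
    rw [h1, p.1.2, mul_one]
    have h2 := p.2.2.1
    have h3 := p.2.2.2
    nlinarith⟩
  continuous_toFun := by
    refine Continuous.subtype_mk (continuous_pi fun i => ?_) _
    have h1 : Continuous fun p : Sph j × unitInterval => p.1.1 i :=
      (continuous_apply i).comp (continuous_subtype_val.comp continuous_fst)
    have h2 : Continuous fun p : Sph j × unitInterval => p.2.1 :=
      continuous_subtype_val.comp continuous_snd
    exact (continuous_const.sub h2).mul h1

theorem pol_val (z : Sph j) (t : unitInterval) (i : Fin (j + 1)) :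
    (pol j (z, t)).1 i = (1 - t.1) * z.1 i := rfl

private theorem dk_ext {k : ℕ} {x y : Dk k} (h : ∀ i, x.1 i = y.1 i) : x = y :=
  Subtype.ext (funext h)

theorem pol_zero (z : Sph j) : pol j (z, 0) = Sph.inc j z := by
  refine dk_ext fun i => ?_
  rw [pol_val]
  show (1 - (0 : ℝ)) * z.1 i = z.1 i
  ring

theorem pol_one (z z' : Sph j) : pol j (z, 1) = pol j (z', 1) := by
  refine dk_ext fun i => ?_
  rw [pol_val, pol_val]
  show (1 - (1 : ℝ)) * z.1 i = (1 - (1 : ℝ)) * z'.1 i
  ring

theorem pol_surj (x : Dk (j + 1)) : ∃ z t, pol j (z, t) = x := by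
  have hx := x.2
  have hx0 : 0 ≤ ∑ i, x.1 i ^ 2 := Finset.sum_nonneg fun _ _ => sq_nonneg _
  rcases hx0.eq_or_lt with h0 | h0
  · obtain ⟨z⟩ := (inferInstance : Nonempty (Sph j))
    refine ⟨z, 1, dk_ext fun i => ?_⟩
    rw [pol_val]
    have h1 := (Finset.sum_eq_zero_iff_of_nonneg (fun i _ => sq_nonneg (x.1 i))).1 h0.symm i
      (Finset.mem_univ i)
    have h2 : x.1 i = 0 := pow_eq_zero_iff (two_ne_zero) |>.1 h1
    rw [h2]
    show (1 - (1 : ℝ)) * z.1 i = 0
    ring
  · set r := √(∑ i, x.1 i ^ 2) with hr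
    have hr0 : 0 < r := Real.sqrt_pos.2 h0
    have hr2 : r ^ 2 = ∑ i, x.1 i ^ 2 := Real.sq_sqrt hx0
    have hr1 : r ≤ 1 := by
      rw [hr, Real.sqrt_le_left zero_le_one]
      linarith
    refine ⟨⟨fun i => x.1 i / r, ?_⟩, ⟨1 - r, by linarith, by linarith⟩, dk_ext fun i => ?_⟩
    · simp only [div_pow]
      rw [← Finset.sum_div, ← hr2, div_self (by positivity)]
    · rw [pol_val]
      show (1 - (1 - r)) * (x.1 i / r) = x.1 i
      field_simp
      ring

theorem pol_inj {z z' : Sph j} {t t' : unitInterval} (h : pol j (z, t) = pol j (z', t')) :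
    t = t' ∧ (t = 1 ∨ z = z') := by
  have h1 : ∀ i, (1 - t.1) * z.1 i = (1 - t'.1) * z'.1 i := fun i => by
    rw [← pol_val, ← pol_val, h]
  have h2 : (1 - t.1) ^ 2 = (1 - t'.1) ^ 2 := by
    have e1 : ∑ i, ((1 - t.1) * z.1 i) ^ 2 = (1 - t.1) ^ 2 := by
      simp only [mul_pow]
      rw [← Finset.mul_sum, z.2, mul_one]
    have e2 : ∑ i, ((1 - t'.1) * z'.1 i) ^ 2 = (1 - t'.1) ^ 2 := by
      simp only [mul_pow]
      rw [← Finset.mul_sum, z'.2, mul_one]
    rw [← e1, ← e2]
    exact Finset.sum_congr rfl fun i _ => by rw [h1 i]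
  have ht := t.2.2
  have ht' := t'.2.2
  have h3 : 1 - t.1 = 1 - t'.1 := by
    have := (sq_eq_sq₀ (by linarith) (by linarith)).1 h2
    exact this
  have h4 : t = t' := Subtype.ext (by linarith)
  refine ⟨h4, ?_⟩
  by_cases h5 : t = 1
  · exact Or.inl h5
  · right
    refine Subtype.ext (funext fun i => ?_)
    have h6 : 1 - t.1 ≠ 0 := fun h7 => h5 (Subtype.ext (by
      show t.1 = 1
      linarith))
    have h7 := h1 i
    rw [← h3] at h7
    exact mul_left_cancel₀ h6 h7

private theorem quot_of_compact {A B : Type*} [TopologicalSpace A] [CompactSpace A]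
    [TopologicalSpace B] [T2Space B] {f : A → B} (hf : Continuous f)
    (hs : Function.Surjective f) : Topology.IsQuotientMap f :=
  hf.isClosedMap.isQuotientMap hf hs

private theorem pol_surjective (j : ℕ) : Function.Surjective (pol j) := fun x => by
  obtain ⟨z, t, h⟩ := pol_surj x
  exact ⟨(z, t), h⟩

theorem isQuotientMap_pol (j : ℕ) : Topology.IsQuotientMap (pol j) :=
  quot_of_compact (pol j).continuous (pol_surjective j)

/-- maps out of the disk, in polar coordinates -/
theorem exists_of_pol (F : C(Sph j × unitInterval, Y)) (h : ∀ z z', F (z, 1) = F (z', 1)) :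
    ∃ G : C(Dk (j + 1), Y), ∀ z t, G (pol j (z, t)) = F (z, t) := by
  have hF : Function.FactorsThrough F (pol j) := by
    rintro ⟨z, t⟩ ⟨z', t'⟩ hp
    obtain ⟨rfl, h1 | rfl⟩ := pol_inj hp
    · subst h1
      exact h z z'
    · rfl
  refine ⟨(isQuotientMap_pol j).lift F hF, fun z t => ?_⟩
  have := congrArg (fun g : C(Sph j × unitInterval, Y) => g (z, t))
    ((isQuotientMap_pol j).lift_comp F hF)
  exact this

/-- maps from spheres to contractible spaces extend to the disk -/
theorem exists_extend_of_contractible [ContractibleSpace Y] (F : C(Sph j, Y)) :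
    ∃ G : C(Dk (j + 1), Y), G.comp (Sph.inc j) = F := by
  obtain ⟨y, ⟨H⟩⟩ := id_nullhomotopic Y
  obtain ⟨G, hG⟩ := exists_of_pol (Y := Y)
    ⟨fun p : Sph j × unitInterval => H (p.2, F p.1), by fun_prop⟩ (by
      intro z z'
      show H (1, F z) = H (1, F z')
      rw [H.apply_one, H.apply_one]
      rfl)
  refine ⟨G, ContinuousMap.ext fun z => ?_⟩
  show G (Sph.inc j z) = F z
  rw [← pol_zero, hG]
  show H (0, F z) = F z
  rw [H.apply_zero]
  rfl

/-- **Homotopy extension.** -/
theorem exists_hep (f : C(Dk (j + 1), Y)) (H : C(Sph j × unitInterval, Y))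
    (h : ∀ z, H (z, 0) = f (Sph.inc j z)) :
    ∃ K : C(Dk (j + 1) × unitInterval, Y), (∀ x, K (x, 0) = f x) ∧
      ∀ z u, K (Sph.inc j z, u) = H (z, u) := by
  -- the radius after stretching
  set A : (Sph j × unitInterval) × unitInterval → ℝ := fun p => (1 + p.2.1) * (1 - p.1.2.1) with hA
  have hAc : Continuous A := by
    have h1 : Continuous fun p : (Sph j × unitInterval) × unitInterval => p.2.1 :=
      continuous_subtype_val.comp continuous_snd
    have h2 : Continuous fun p : (Sph j × unitInterval) × unitInterval => p.1.2.1 :=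
      continuous_subtype_val.comp (continuous_snd.comp continuous_fst)
    exact (continuous_const.add h1).mul (continuous_const.sub h2)
  set P : ℝ → unitInterval := Set.projIcc 0 1 zero_le_one with hP
  have hPc : Continuous P := continuous_projIcc
  have hP0 : P 0 = 0 := Set.projIcc_left _
  set L : (Sph j × unitInterval) × unitInterval → Y := fun p =>
    if A p ≤ 1 then f (pol j (p.1.1, P (1 - A p))) else H (p.1.1, P (A p - 1)) with hL
  have hLc : Continuous L := by
    refine Continuous.if_le ?_ ?_ hAc continuous_const ?_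
    · exact f.continuous.comp ((pol j).continuous.comp
        ((continuous_fst.comp continuous_fst).prodMk (hPc.comp (continuous_const.sub hAc))))
    · exact H.continuous.comp
        ((continuous_fst.comp continuous_fst).prodMk (hPc.comp (hAc.sub continuous_const)))
    · intro p hp
      rw [hp, sub_self, hP0, h, pol_zero]
  have hq : Topology.IsQuotientMap (Prod.map (pol j) (id : unitInterval → unitInterval)) :=
    quot_of_compact ((pol j).continuous.prodMap continuous_id)
      ((pol_surjective j).prodMap Function.surjective_id)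
  have hfac : Function.FactorsThrough (⟨L, hLc⟩ : C((Sph j × unitInterval) × unitInterval, Y))
      (⟨Prod.map (pol j) (id : unitInterval → unitInterval), hq.continuous⟩ :
        C((Sph j × unitInterval) × unitInterval, Dk (j + 1) × unitInterval)) := by
    rintro ⟨⟨z, t⟩, u⟩ ⟨⟨z', t'⟩, u'⟩ hp
    have hp1 : pol j (z, t) = pol j (z', t') := congrArg Prod.fst hp
    have hp2 : u = u' := congrArg Prod.snd hp
    subst hp2
    obtain ⟨rfl, h1 | rfl⟩ := pol_inj hp1
    · subst h1
      show L ((z, 1), u) = L ((z', 1), u)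
      have hA0 : ∀ z : Sph j, A ((z, 1), u) = 0 := fun z => by
        show (1 + u.1) * (1 - (1 : ℝ)) = 0
        ring
      rw [hL]
      simp only [hA0]
      rw [if_pos zero_le_one, if_pos zero_le_one, sub_zero]
      have : P 1 = 1 := Set.projIcc_right _
      rw [this, pol_one z z']
    · rfl
  set Q : C((Sph j × unitInterval) × unitInterval, Dk (j + 1) × unitInterval) :=
    ⟨Prod.map (pol j) (id : unitInterval → unitInterval), hq.continuous⟩ with hQ
  have hQq : Topology.IsQuotientMap Q := hq
  have key : ∀ z t u, hQq.lift ⟨L, hLc⟩ hfac (pol j (z, t), u) = L ((z, t), u) := by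
    intro z t u
    have := congrArg (fun g : C((Sph j × unitInterval) × unitInterval, Y) => g ((z, t), u))
      (hQq.lift_comp ⟨L, hLc⟩ hfac)
    exact this
  refine ⟨hQq.lift ⟨L, hLc⟩ hfac, ?_, ?_⟩
  · intro x
    obtain ⟨z, t, rfl⟩ := pol_surj x
    rw [key]
    have hAt : A ((z, t), 0) = 1 - t.1 := by
      show (1 + (0 : ℝ)) * (1 - t.1) = 1 - t.1
      ring
    rw [hL]
    simp only [hAt]
    rw [if_pos (by linarith [t.2.1])]
    have : P (1 - (1 - t.1)) = t := by
      rw [show 1 - (1 - t.1) = t.1 by ring]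
      exact Set.projIcc_val _ t
    rw [this]
  · intro z u
    rw [← pol_zero, key]
    have hAt : A ((z, 0), u) = 1 + u.1 := by
      show (1 + u.1) * (1 - (0 : ℝ)) = 1 + u.1
      ring
    rw [hL]
    simp only [hAt]
    split_ifs with h1
    · have hu : u = 0 := Subtype.ext (by
        show u.1 = 0
        linarith [u.2.1])
      subst hu
      rw [h]
      have : P (1 - (1 + ((0 : unitInterval) : ℝ))) = 0 := by
        rw [show 1 - (1 + ((0 : unitInterval) : ℝ)) = 0 by
          show 1 - (1 + (0 : ℝ)) = 0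
          ring, hP0]
      rw [this, pol_zero]
    · have : P (1 + u.1 - 1) = u := by
        rw [show 1 + u.1 - 1 = u.1 by ring]
        exact Set.projIcc_val _ u
      rw [this]

end HH
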