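import Pool.Agent.HH.OrdTop
import Pool.Agent.HH.PiPol

/-!
# HH part 3, CW-2: prism homotopies and cones in the order complex
-/

set_option autoImplicit false

namespace HH

open Classical Topology

namespace OrdCx

variable {P Q : Type} [PartialOrder P] [PartialOrder Q]

/-- the continuous map induced by a monotone map -/
noncomputable def mapC (f : P → Q) (hf : Monotone f) : C(OrdCx P, OrdCx Q) :=
  ⟨map f hf, continuous_map f hf⟩

/-- mass of `t` strictly below `p` -/
noncomputable def below (t : OrdCx P) (p : P) : ℝ := ∑ q ∈ t.w.support with q < p, t.w q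

theorem below_eq (t : OrdCx P) {F : Finset P} (hF : ∀ p, t.w p ≠ 0 → p ∈ F) (p : P) :
    below t p = ∑ q ∈ F with q < p, t.w q := by
  refine Finset.sum_subset (fun q hq => ?_) fun q hq hq' => ?_
  · rw [Finset.mem_filter] at hq ⊢
    exact ⟨hF q (Finsupp.mem_support_iff.1 hq.1), hq.2⟩
  · by_contra h
    rw [Finset.mem_filter] at hq
    exact hq' (Finset.mem_filter.2 ⟨Finsupp.mem_support_iff.2 h, hq.2⟩)

theorem below_nonneg (t : OrdCx P) (p : P) : 0 ≤ below t p :=
  Finset.sum_nonneg fun q _ => t.nonneg q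

theorem below_add_le (t : OrdCx P) (p : P) : below t p + t.w p ≤ 1 := by
  have hF : ∀ q, t.w q ≠ 0 → q ∈ insert p t.w.support := fun q hq =>
    Finset.mem_insert_of_mem (Finsupp.mem_support_iff.2 hq)
  rw [below_eq t hF, ← t.sum_eq hF]
  have h1 : p ∉ (insert p t.w.support).filter (fun q => q < p) := by
    rw [Finset.mem_filter]
    rintro ⟨-, h⟩
    exact lt_irrefl _ h
  rw [add_comm, ← Finset.sum_insert h1]
  refine Finset.sum_le_sum_of_subset_of_nonneg (fun q hq => ?_) fun q _ _ => t.nonneg q
  rcases Finset.mem_insert.1 hq with rfl | h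
  · exact Finset.mem_insert_self _ _
  · exact (Finset.mem_filter.1 h).1

theorem below_lt (t : OrdCx P) {p q : P} (h : q < p) : below t q + t.w q ≤ below t p := by
  have hF : ∀ r, t.w r ≠ 0 → r ∈ insert q t.w.support := fun r hr =>
    Finset.mem_insert_of_mem (Finsupp.mem_support_iff.2 hr)
  rw [below_eq t hF, below_eq t hF]
  have h1 : q ∉ (insert q t.w.support).filter (fun r => r < q) := by
    rw [Finset.mem_filter]
    rintro ⟨-, h⟩
    exact lt_irrefl _ h
  rw [add_comm, ← Finset.sum_insert h1]
  refine Finset.sum_le_sum_of_subset_of_nonneg (fun r hr => ?_) fun r _ _ => t.nonneg r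
  rcases Finset.mem_insert.1 hr with rfl | h2
  · exact Finset.mem_filter.2 ⟨Finset.mem_insert_self _ _, h⟩
  · exact Finset.mem_filter.2 ⟨(Finset.mem_filter.1 h2).1, (Finset.mem_filter.1 h2).2.trans h⟩

/-- the part of the weight of `p` below the threshold `1 - s` -/
noncomputable def lo (t : OrdCx P) (s : ℝ) (p : P) : ℝ := max 0 (min (t.w p) (1 - s - below t p))

theorem lo_nonneg (t : OrdCx P) (s : ℝ) (p : P) : 0 ≤ lo t s p := le_max_left _ _

theorem lo_le (t : OrdCx P) (s : ℝ) (p : P) : lo t s p ≤ t.w p :=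
  max_le (t.nonneg p) (min_le_left _ _)

theorem lo_zero (t : OrdCx P) (p : P) : lo t 0 p = t.w p := by
  have h := below_add_le t p
  unfold lo
  rw [min_eq_left (by linarith), max_eq_right (t.nonneg p)]

theorem lo_one (t : OrdCx P) (p : P) : lo t 1 p = 0 := by
  have h := below_nonneg t p
  unfold lo
  exact max_eq_left ((min_le_right _ _).trans (by linarith))

theorem le_of_lo_hi (t : OrdCx P) (s : ℝ) {p q : P} (hp : lo t s p ≠ 0) (hq : t.w q - lo t s q ≠ 0) :
    p ≤ q := by
  have hp0 : t.w p ≠ 0 := fun h => hp (le_antisymm ((lo_le t s p).trans h.le) (lo_nonneg t s p))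
  have hq0 : t.w q ≠ 0 := by
    intro h
    have h1 : lo t s q = 0 := le_antisymm ((lo_le t s q).trans h.le) (lo_nonneg t s q)
    exact hq (by rw [h, h1, sub_zero])
  rcases t.chain p q hp0 hq0 with h | h
  · exact h
  rcases h.eq_or_lt with h | h
  · exact h.ge
  exfalso
  have h1 := below_lt t h
  have h2 : 1 - s - below t q < t.w q := by
    by_contra h3
    push Not at h3
    refine hq ?_
    unfold lo
    rw [min_eq_left h3, max_eq_right (t.nonneg q), sub_self]
  refine hp (max_eq_left ((min_le_right _ _).trans ?_))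
  linarith

section Prism

variable (f g : P → Q) (hf : Monotone f) (hg : Monotone g) (h : ∀ p, f p ≤ g p)

/-- the weights of the prism homotopy -/
noncomputable def prW (t : OrdCx P) (s : ℝ) : Q →₀ ℝ :=
  ∑ p ∈ t.w.support, (Finsupp.single (f p) (lo t s p) + Finsupp.single (g p) (t.w p - lo t s p))

theorem prW_apply (t : OrdCx P) (s : ℝ) {F : Finset P} (hF : ∀ p, t.w p ≠ 0 → p ∈ F) (y : Q) :
    prW f g t s y = ∑ p ∈ F, ((if f p = y then lo t s p else 0) +
      (if g p = y then t.w p - lo t s p else 0)) := by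
  unfold prW
  rw [Finsupp.finsetSum_apply]
  simp only [Finsupp.add_apply, Finsupp.single_apply]
  refine Finset.sum_subset (fun p hp => hF p (Finsupp.mem_support_iff.1 hp)) fun p _ hp => ?_
  have h1 : t.w p = 0 := Finsupp.notMem_support_iff.1 hp
  have h2 : lo t s p = 0 := le_antisymm ((lo_le t s p).trans h1.le) (lo_nonneg t s p)
  rw [h1, h2]
  simp

theorem prW_nonneg (t : OrdCx P) (s : ℝ) (y : Q) : 0 ≤ prW f g t s y := by
  rw [prW_apply f g t s (F := t.w.support) (fun p hp => Finsupp.mem_support_iff.2 hp)]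
  refine Finset.sum_nonneg fun p _ => add_nonneg ?_ ?_
  · split
    · exact lo_nonneg t s p
    · exact le_rfl
  · split
    · exact sub_nonneg.2 (lo_le t s p)
    · exact le_rfl

theorem prW_ne (t : OrdCx P) (s : ℝ) {y : Q} (hy : prW f g t s y ≠ 0) :
    ∃ p, t.w p ≠ 0 ∧ ((f p = y ∧ lo t s p ≠ 0) ∨ (g p = y ∧ t.w p - lo t s p ≠ 0)) := by
  by_contra hcon
  push Not at hcon
  refine hy ?_
  rw [prW_apply f g t s (F := t.w.support) (fun p hp => Finsupp.mem_support_iff.2 hp)]
  refine Finset.sum_eq_zero fun p hp => ?_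
  obtain ⟨h1, h2⟩ := hcon p (Finsupp.mem_support_iff.1 hp)
  by_cases h3 : f p = y
  · rw [if_pos h3, h1 h3, zero_add]
    by_cases h4 : g p = y
    · rw [if_pos h4]
      have := h2 h4
      rw [h1 h3] at this
      exact this
    · rw [if_neg h4]
  · rw [if_neg h3, zero_add]
    by_cases h4 : g p = y
    · rw [if_pos h4, h2 h4]
    · rw [if_neg h4]

/-- the prism homotopy -/
noncomputable def prism (t : OrdCx P) (s : ℝ) : OrdCx Q where
  w := prW f g t s
  nonneg := prW_nonneg f g t s
  chain := fun y y' hy hy' => by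
    obtain ⟨p, hp, h1⟩ := prW_ne f g t s hy
    obtain ⟨p', hp', h1'⟩ := prW_ne f g t s hy'
    rcases h1 with ⟨rfl, h2⟩ | ⟨rfl, h2⟩
    · rcases h1' with ⟨rfl, h2'⟩ | ⟨rfl, h2'⟩
      · exact (t.chain p p' hp hp').imp (fun k => hf k) (fun k => hf k)
      · exact Or.inl ((hf (le_of_lo_hi t s h2 h2')).trans (h p'))
    · rcases h1' with ⟨rfl, h2'⟩ | ⟨rfl, h2'⟩
      · exact Or.inr ((hf (le_of_lo_hi t s h2' h2)).trans (h p))
      · exact (t.chain p p' hp hp').imp (fun k => hg k) (fun k => hg k)
  sum := by
    unfold prW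
    rw [← Finsupp.sum_finsetSum_index (fun _ => rfl) (fun _ _ _ => rfl)]
    rw [← t.sum]
    refine Finset.sum_congr rfl fun p _ => ?_
    rw [Finsupp.sum_add_index' (fun _ => rfl) (fun _ _ _ => rfl),
      Finsupp.sum_single_index rfl, Finsupp.sum_single_index rfl]
    ring

theorem prism_zero (t : OrdCx P) : prism f g hf hg h t 0 = map f hf t := by
  refine ext fun y => ?_
  have hF : ∀ p, t.w p ≠ 0 → p ∈ t.w.support := fun p hp => Finsupp.mem_support_iff.2 hp
  rw [map_w f hf t hF]
  refine (prW_apply f g t 0 hF y).trans (Finset.sum_congr rfl fun p _ => ?_)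
  rw [lo_zero, sub_self]
  simp

theorem prism_one (t : OrdCx P) : prism f g hf hg h t 1 = map g hg t := by
  refine ext fun y => ?_
  have hF : ∀ p, t.w p ≠ 0 → p ∈ t.w.support := fun p hp => Finsupp.mem_support_iff.2 hp
  rw [map_w g hg t hF]
  refine (prW_apply f g t 1 hF y).trans (Finset.sum_congr rfl fun p _ => ?_)
  rw [lo_one, sub_zero]
  simp

theorem continuous_prism : Continuous fun x : OrdCx P × unitInterval =>
    prism f g hf hg h x.1 x.2.1 := by
  refine continuous_prod_iff.2 fun F hF => ?_
  have hs : ∀ (t : Simplex F) (p : P), (ofSimplex F hF t).w p ≠ 0 → p ∈ F := by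
    intro t p hp
    by_contra h
    rw [ofSimplex_w, t.2.2.1 p h] at hp
    exact hp rfl
  have hb : ∀ p : P, Continuous fun x : Simplex F × unitInterval =>
      below (ofSimplex F hF x.1) p := by
    intro p
    have e : (fun x : Simplex F × unitInterval => below (ofSimplex F hF x.1) p) =
        fun x => ∑ q ∈ F with q < p, x.1.1 q := by
      funext x
      rw [below_eq _ (hs x.1)]
      exact Finset.sum_congr rfl fun q _ => ofSimplex_w x.1 q
    rw [e]
    exact continuous_finsetSum _ fun q _ => (continuous_coord F q).comp continuous_fst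
  have hw : ∀ p : P, Continuous fun x : Simplex F × unitInterval =>
      (ofSimplex F hF x.1).w p := by
    intro p
    have e : (fun x : Simplex F × unitInterval => (ofSimplex F hF x.1).w p) =
        fun x => x.1.1 p := funext fun x => ofSimplex_w x.1 p
    rw [e]
    exact (continuous_coord F p).comp continuous_fst
  have hl : ∀ p : P, Continuous fun x : Simplex F × unitInterval =>
      lo (ofSimplex F hF x.1) x.2.1 p := by
    intro p
    exact continuous_const.max ((hw p).min
      ((continuous_const.sub (continuous_subtype_val.comp continuous_snd)).sub (hb p)))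
  refine continuous_of (F.image f ∪ F.image g) (fun x y hy => ?_) fun y _ => ?_
  · obtain ⟨p, hp, h1⟩ := prW_ne f g _ _ hy
    rcases h1 with ⟨rfl, -⟩ | ⟨rfl, -⟩
    · exact Finset.mem_union_left _ (Finset.mem_image_of_mem f (hs x.1 p hp))
    · exact Finset.mem_union_right _ (Finset.mem_image_of_mem g (hs x.1 p hp))
  · have e : (fun x : Simplex F × unitInterval =>
        (prism f g hf hg h (ofSimplex F hF x.1) x.2.1).w y) =
        fun x => ∑ p ∈ F, ((if f p = y then lo (ofSimplex F hF x.1) x.2.1 p else 0) +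
          (if g p = y then (ofSimplex F hF x.1).w p - lo (ofSimplex F hF x.1) x.2.1 p else 0)) :=
      funext fun x => prW_apply f g _ _ (hs x.1) y
    rw [e]
    refine continuous_finsetSum _ fun p _ => Continuous.add ?_ ?_
    · by_cases h1 : f p = y
      · simp only [if_pos h1]
        exact hl p
      · simp only [if_neg h1]
        exact continuous_const
    · by_cases h1 : g p = y
      · simp only [if_pos h1]
        exact (hw p).sub (hl p)
      · simp only [if_neg h1]
        exact continuous_const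

end Prism

/-- **Prism homotopy.** Comparable monotone maps are homotopic. -/
theorem mapC_homotopic {f g : P → Q} (hf : Monotone f) (hg : Monotone g)
    (h : ∀ p, f p ≤ g p) : (mapC f hf).Homotopic (mapC g hg) :=
  ⟨{  toFun := fun x => prism f g hf hg h x.2 x.1.1
      continuous_toFun := (continuous_prism f g hf hg h).comp continuous_swap
      map_zero_left := fun t => prism_zero f g hf hg h t
      map_one_left := fun t => prism_one f g hf hg h t }⟩

/-- the cone property: finite families embed in cones -/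
def ConeP (P : Type) [PartialOrder P] : Prop :=
  ∀ L : Finset P, ∃ (v : P) (e : P → P), (∀ p ∈ L, p ≤ e p ∧ v ≤ e p) ∧
    ∀ p ∈ L, ∀ q ∈ L, p ≤ q → e p ≤ e q

/-- the vertex -/
noncomputable def vtx (v : P) : OrdCx P :=
  mk' {v} (fun _ => 1) (fun _ _ => zero_le_one)
    (fun p hp q hq _ _ => Or.inl (by
      rw [Finset.mem_singleton] at hp hq
      rw [hp, hq])) (by simp)

theorem map_const (v : Q) (hv : Monotone fun _ : P => v) (t : OrdCx P) :
    map (fun _ => v) hv t = vtx v := by
  refine ext fun y => ?_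
  have hF : ∀ p, t.w p ≠ 0 → p ∈ t.w.support := fun p hp => Finsupp.mem_support_iff.2 hp
  rw [map_w _ hv t hF]
  by_cases hy : v = y
  · subst hy
    simp only [if_true]
    rw [t.sum_eq hF]
    exact (mk'_w (c := fun _ => (1 : ℝ)) (Finset.mem_singleton_self v)).symm
  · simp only [if_neg hy, Finset.sum_const_zero]
    exact (mk'_w' (by
      rw [Finset.mem_singleton]
      exact fun h => hy h.symm)).symm

/-- the part of the complex over a subset, as a point -/
noncomputable def rst (L : Finset P) (t : OrdCx P) (h : ∀ p, t.w p ≠ 0 → p ∈ L) :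
    OrdCx {p // p ∈ L} where
  w := t.w.comapDomain Subtype.val Subtype.val_injective.injOn
  nonneg := fun p => t.nonneg p.1
  chain := fun p q hp hq => t.chain p.1 q.1 hp hq
  sum := by
    have h1 := t.sum_eq (F := L) h
    rw [Finsupp.sum_fintype _ _ (fun _ => rfl)]
    rw [← h1]
    exact Finset.sum_coe_sort L (fun p => t.w p)

theorem rst_w (L : Finset P) (t : OrdCx P) (h : ∀ p, t.w p ≠ 0 → p ∈ L) (p : {p // p ∈ L}) :
    (rst L t h).w p = t.w p.1 := rfl

theorem map_rst (L : Finset P) (t : OrdCx P) (h : ∀ p, t.w p ≠ 0 → p ∈ L)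
    (hm : Monotone (Subtype.val : {p // p ∈ L} → P)) : map Subtype.val hm (rst L t h) = t := by
  refine ext fun y => ?_
  rw [map_w _ hm (rst L t h) (F := Finset.univ) (fun _ _ => Finset.mem_univ _)]
  simp only [rst_w]
  rw [Finset.sum_coe_sort L (fun p => if p = y then t.w p else 0), Finset.sum_ite_eq']
  split
  · rfl
  · rename_i hy
    by_contra h0
    exact hy (h y fun h1 => h0 h1.symm)

/-- maps from compact spaces to complexes with the cone property are homotopic to a constant -/
theorem nullhomotopic_of_coneP (h : ConeP P) {K : Type*} [TopologicalSpace K] [CompactSpace K]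
    (f : C(K, OrdCx P)) : f.Nullhomotopic := by
  obtain ⟨L, hL⟩ := finite_of_compact (isCompact_range f.continuous)
  have hL' : ∀ x p, (f x).w p ≠ 0 → p ∈ L := fun x p hp => hL (f x) ⟨x, rfl⟩ p hp
  obtain ⟨v, e, he1, he2⟩ := h L
  have hm : Monotone (Subtype.val : {p // p ∈ L} → P) := fun _ _ k => k
  have hme : Monotone (fun p : {p // p ∈ L} => e p.1) := fun p q k => he2 p.1 p.2 q.1 q.2 k
  have hmv : Monotone (fun _ : {p // p ∈ L} => v) := fun _ _ _ => le_rfl
  have hc : Continuous fun x => rst L (f x) (hL' x) := by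
    refine continuous_of Finset.univ (fun _ _ _ => Finset.mem_univ _) fun p _ => ?_
    exact (continuous_w p.1).comp f.continuous
  let f' : C(K, OrdCx {p // p ∈ L}) := ⟨_, hc⟩
  have h1 : f = (mapC _ hm).comp f' := by
    ext1 x
    exact (map_rst L (f x) (hL' x) hm).symm
  have h2 : (mapC _ hm).Homotopic (mapC _ hme) := mapC_homotopic hm hme fun p => (he1 p.1 p.2).1
  have h3 : (mapC _ hmv).Homotopic (mapC _ hme) := mapC_homotopic hmv hme fun p => (he1 p.1 p.2).2
  have h4 : (mapC _ hm).Homotopic (mapC _ hmv) := h2.trans h3.symm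
  refine ⟨vtx v, ?_⟩
  rw [h1]
  have h5 : (mapC _ hmv).comp f' = ContinuousMap.const K (vtx v) := by
    ext1 x
    exact map_const v hmv _
  rw [← h5]
  exact ContinuousMap.Homotopic.comp h4 (ContinuousMap.Homotopic.refl f')

/-- a map from a sphere which is homotopic to a constant extends to the disk -/
theorem exists_extend_of_nullhomotopic {Y : Type*} [TopologicalSpace Y] {j : ℕ}
    (F : C(Sph j, Y)) (h : F.Nullhomotopic) :
    ∃ G : C(Dk (j + 1), Y), G.comp (Sph.inc j) = F := by
  obtain ⟨y, ⟨H⟩⟩ := h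
  obtain ⟨K, -, hK⟩ := exists_hep (ContinuousMap.const _ y)
    (H.symm.toContinuousMap.comp ⟨Prod.swap, continuous_swap⟩) (by
      intro z
      exact H.symm.apply_zero z)
  refine ⟨⟨fun x => K (x, 1), K.continuous.comp (by fun_prop)⟩, ?_⟩
  ext1 z
  show K (Sph.inc j z, 1) = F z
  rw [hK]
  exact H.symm.apply_one z

theorem exists_extend_of_coneP (h : ConeP P) {j : ℕ} (F : C(Sph j, OrdCx P)) :
    ∃ G : C(Dk (j + 1), OrdCx P), G.comp (Sph.inc j) = F :=
  exists_extend_of_nullhomotopic F (nullhomotopic_of_coneP h F)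

theorem nonempty_of_coneP (h : ConeP P) : Nonempty (OrdCx P) := by
  obtain ⟨v, -⟩ := h ∅
  exact ⟨vtx v⟩

end OrdCx

end HH
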