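import Pool.Agent.HH.ConeExt
import Pool.Agent.HH.OrdPrism
import Pool.Agent.HH.BFun
import Pool.Agent.HH.CmpT
import Pool.Agent.HH.CsHyp

/-!
# HH part 3: the realisation functor and its disks
-/

set_option autoImplicit false

namespace HH

open Classical CategoryTheory

section Gen

variable {S : Sig} [S.Good]

/-- the free models on cells are contractible -/
theorem FD_ctr (hS : S.Hyp) (j : ℕ) : (FD S j).Ctr := by
  refine ⟨?_, hS _ (ArCl.disk j)⟩
  rcases Nat.eq_zero_or_pos j with h | h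
  · subst h
    exact ⟨.var (0, false), Or.inr ⟨rfl, rfl⟩, rfl⟩
  · exact ⟨.var (0, false), Or.inl h, rfl⟩

/-- named simplices of a contractible model have the cone property -/
theorem NS.coneP [S.Strat] {z : ZFam S} {hz : ZGood z} {G : RMod S} (hG : G.Ctr) :
    OrdCx.ConeP (NS z hz G) := by
  intro L
  obtain ⟨s, hs⟩ : ∃ s : ℕ, ∀ p ∈ L, ∀ a ∈ p.A.1, a < s := by
    refine ⟨(L.biUnion fun p => p.A.1).sup id + 1, fun p hp a ha => ?_⟩
    exact Nat.lt_succ_of_le (Finset.le_sup (f := id) (Finset.mem_biUnion.2 ⟨p, hp, ha⟩))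
  obtain ⟨v, e, h1, h2⟩ := NS.exists_cone (z := z) (hz := hz) hG s
  exact ⟨v, e, fun p hp => h1 p (hs p hp), fun p hp q hq => h2 p q (hs p hp) (hs q hq)⟩

/-- **realisations of contractible models are weakly contractible** -/
theorem BF_wct [S.Strat] (z : ZFam S) (hz : ZGood z) (G : RMod S) (hG : G.Ctr) :
    WCt ((BF z hz).obj G) :=
  ⟨OrdCx.nonempty_of_coneP (NS.coneP hG), fun _ F =>
    OrdCx.exists_extend_of_coneP (NS.coneP hG) F⟩

end Gen

theorem exists_tdBF (z : ZFam Cs) (hz : ZGood z) :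
    ∃ t : ∀ j, C(Dk j, (BF z hz).obj (FD Cs j)),
      ∀ b j, (t (j + 1)).comp (sg b j) = ((BF z hz).map (FDst Cs b j)).hom.comp (t j) :=
  exists_t (BF z hz) fun j => BF_wct z hz _ (FD_ctr Cs_hyp j)

/-- **the realisation functor with its disks** -/
noncomputable def tdBF (z : ZFam Cs) (hz : ZGood z) : TData Cs where
  B := BF z hz
  wc := BF_wct z hz
  t := (exists_tdBF z hz).choose
  t_st := (exists_tdBF z hz).choose_spec

end HH
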