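import Pool.Agent.HH.CmpTop

/-!
# HH part 3, CMP-4: mapping cylinders

The mapping cylinder of `T : R → Z` in the form of its universal property with respect to path
spaces, and its weak contractibility.
-/

set_option autoImplicit false

namespace HH

open CategoryTheory CategoryTheory.Limits

/-- A mapping cylinder of `T : R → Z`. -/
structure MCyl {R Z : Type} [TopologicalSpace R] [TopologicalSpace Z] (T : C(R, Z)) where
  /-- the cylinder -/
  U : TopCat.{0}
  inl : C(Z, U)
  J : C(R, PS U)
  w : (evb U false).comp J = inl.comp T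
  desc : ∀ {Y : Type} [TopologicalSpace Y] (β : C(Z, Y)) (H : C(R, PS Y)),
    (evb Y false).comp H = β.comp T → ∃ g : C(U, Y), g.comp inl = β ∧ (PS.map g).comp J = H
  uniq : ∀ {Y : Type} [TopologicalSpace Y] (g g' : C(U, Y)), g.comp inl = g'.comp inl →
    (PS.map g).comp J = (PS.map g').comp J → g = g'

section

variable {R Z : Type} [TopologicalSpace R] [TopologicalSpace Z]

/-- the end `0` of the cylinder on `R` -/
def cyl0 (R : Type) [TopologicalSpace R] : C(R, R × unitInterval) :=
  ⟨fun r => (r, 0), by fun_prop⟩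

theorem exists_mcyl (T : C(R, Z)) : Nonempty (MCyl T) := by
  let f : TopCat.of R ⟶ TopCat.of Z := TopCat.ofHom T
  let g : TopCat.of R ⟶ TopCat.of (R × unitInterval) := TopCat.ofHom (cyl0 R)
  let U : TopCat.{0} := pushout f g
  let inl : TopCat.of Z ⟶ U := pushout.inl f g
  let inr : TopCat.of (R × unitInterval) ⟶ U := pushout.inr f g
  have hw : f ≫ inl = g ≫ inr := pushout.condition
  refine ⟨⟨U, inl.hom, inr.hom.curry, ?_, ?_, ?_⟩⟩
  · ext r
    exact (congrArg (fun h => h.hom r) hw).symm
  · intro Y _ β H h
    let d : U ⟶ TopCat.of Y := pushout.desc (TopCat.ofHom β) (TopCat.ofHom H.uncurry) (by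
      ext r
      exact (DFunLike.congr_fun h r).symm)
    refine ⟨d.hom, ?_, ?_⟩
    · have e : inl ≫ d = TopCat.ofHom β := pushout.inl_desc _ _ _
      exact congrArg TopCat.Hom.hom e
    · have e : inr ≫ d = TopCat.ofHom H.uncurry := pushout.inr_desc _ _ _
      ext r s
      exact congrArg (fun h => h.hom (r, s)) e
  · intro Y _ d d' h0 h1
    have e : TopCat.ofHom (X := U) (Y := Y) d = TopCat.ofHom d' := by
      apply pushout.hom_ext
      · ext z
        exact DFunLike.congr_fun h0 z
      · ext p
        exact DFunLike.congr_fun (DFunLike.congr_fun h1 p.1) p.2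
    exact congrArg TopCat.Hom.hom e

/-- a chosen mapping cylinder -/
noncomputable def mcyl (T : C(R, Z)) : MCyl T := (exists_mcyl T).some

/-- contraction of the time -/
def shr : C(unitInterval × unitInterval, unitInterval) :=
  ⟨fun p => p.1 * unitInterval.symm p.2, by fun_prop⟩

theorem MCyl.wct {T : C(R, Z)} (m : MCyl T) (hZ : WCt Z) : WCt m.U := by
  -- the deformation
  let H : C(R, PS (PS m.U)) :=
    ContinuousMap.curry ⟨fun q : R × unitInterval =>
      ((m.J q.1).comp (shr.comp ⟨fun u => (q.2, u), by fun_prop⟩) : PS m.U), by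
        refine ContinuousMap.continuous_of_continuous_uncurry _ ?_
        show Continuous fun z : (R × unitInterval) × unitInterval =>
          m.J z.1.1 (shr (z.1.2, z.2))
        exact m.J.uncurry.continuous.comp
          ((continuous_fst.comp continuous_fst).prodMk
            (shr.continuous.comp ((continuous_snd.comp continuous_fst).prodMk continuous_snd)))⟩
  have hH : ∀ r s u, H r s u = m.J r (s * unitInterval.symm u) := fun _ _ _ => rfl
  obtain ⟨K, hK0, hK1⟩ := m.desc ((PS.const m.U).comp m.inl) H (by
    ext r u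
    show H r 0 u = m.inl (T r)
    rw [hH, zero_mul]
    exact DFunLike.congr_fun m.w r)
  obtain ⟨ρ, hρ0, hρ1⟩ := m.desc (ContinuousMap.id Z) ((PS.const Z).comp T) (by
    ext r
    rfl)
  have hKJ : ∀ r s u, K (m.J r s) u = m.J r (s * unitInterval.symm u) := fun r s u =>
    (DFunLike.congr_fun (DFunLike.congr_fun (DFunLike.congr_fun hK1 r) s) u).trans (hH r s u)
  have hKi : ∀ z u, K (m.inl z) u = m.inl z := fun z u =>
    DFunLike.congr_fun (DFunLike.congr_fun hK0 z) u
  have hρJ : ∀ r s, ρ (m.J r s) = T r := fun r s =>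
    DFunLike.congr_fun (DFunLike.congr_fun hρ1 r) s
  have hρi : ∀ z, ρ (m.inl z) = z := fun z => DFunLike.congr_fun hρ0 z
  have e0 : (evb m.U false).comp K = ContinuousMap.id _ := by
    refine m.uniq _ _ ?_ ?_
    · ext z
      exact hKi z 0
    · ext r s
      show K (m.J r s) 0 = m.J r s
      rw [hKJ, unitInterval.symm_zero, mul_one]
  have e1 : (evb m.U true).comp K = m.inl.comp ρ := by
    refine m.uniq _ _ ?_ ?_
    · ext z
      show K (m.inl z) 1 = m.inl (ρ (m.inl z))
      rw [hKi, hρi]
    · ext r s
      show K (m.J r s) 1 = m.inl (ρ (m.J r s))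
      rw [hKJ, hρJ, unitInterval.symm_one, mul_zero]
      exact DFunLike.congr_fun m.w r
  exact WCt.of_dominated hZ ρ m.inl K (fun y => DFunLike.congr_fun e0 y)
    (fun y => DFunLike.congr_fun e1 y)

end

end HH
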