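import Pool.Agent.HH.CmpIsW

/-!
# HH part 3, CMP-10: fibre products of models; the functor `V`

`V (X, G, f : X → B G)` is the fibre product of `E G → Π B G` and `Π f`.
-/

set_option autoImplicit false

namespace HH

open Classical CategoryTheory

section Fib

variable {S : Sig} {M N K : RMod S}

/-- The raw fibre product. -/
def fibM (F : M ⟶ K) (G : N ⟶ K) : Model S where
  C := M.M.C × N.M.C
  dim p := M.M.dim p.1
  src p := (M.M.src p.1, N.M.src p.2)
  tgt p := (M.M.tgt p.1, N.M.tgt p.2)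
  ok p := ∃ (h : M.M.ok p.1) (h' : N.M.ok p.2), RHom.f F ⟨p.1, h⟩ = RHom.f G ⟨p.2, h'⟩
  o k γ := (M.M.o k (fun p => (γ p).1), N.M.o k (fun p => (γ p).2))

variable {F : M ⟶ K} {G : N ⟶ K}

theorem fib_dim {p : (fibM F G).C} (h : (fibM F G).ok p) : N.M.dim p.2 = M.M.dim p.1 := by
  obtain ⟨h1, h2, h3⟩ := h
  have e1 := RHom.dim_f F ⟨p.1, h1⟩
  have e2 := RHom.dim_f G ⟨p.2, h2⟩
  rw [h3] at e1
  exact e2.symm.trans e1

theorem fibM_st (b : Bool) (p : (fibM F G).C) :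
    (fibM F G).toGlob.st b p = (M.M.toGlob.st b p.1, N.M.toGlob.st b p.2) := by
  cases b <;> rfl

theorem fib_ok_st (b : Bool) {p : (fibM F G).C} (h : (fibM F G).ok p)
    (h0 : 0 < (fibM F G).dim p) :
    (fibM F G).ok (M.M.toGlob.st b p.1, N.M.toGlob.st b p.2) := by
  have hd := fib_dim h
  obtain ⟨h1, h2, h3⟩ := h
  have h0' : 0 < M.M.dim p.1 := h0
  have h0'' : 0 < N.M.dim p.2 := by rw [hd]; exact h0
  have k1 : 0 < K.M.dim (RHom.f F ⟨p.1, h1⟩).1 := by rw [RHom.dim_f]; exact h0'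
  have k2 : 0 < K.M.dim (RHom.f G ⟨p.2, h2⟩).1 := by rw [RHom.dim_f]; exact h0''
  refine ⟨(M.st b ⟨p.1, h1⟩ h0').2, (N.st b ⟨p.2, h2⟩ h0'').2, ?_⟩
  have e1 := RHom.st_f F b ⟨p.1, h1⟩ h0' k1
  have e2 := RHom.st_f G b ⟨p.2, h2⟩ h0'' k2
  refine e1.symm.trans (Eq.trans ?_ e2)
  refine Subtype.ext ?_
  show K.M.toGlob.st b (RHom.f F ⟨p.1, h1⟩).1 = K.M.toGlob.st b (RHom.f G ⟨p.2, h2⟩).1
  rw [h3]

instance fib_laws : (fibM F G).toGlob.Laws where
  ok_src p h h0 := fib_ok_st false h h0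
  ok_tgt p h h0 := fib_ok_st true h h0
  dim_src p h h0 := Glob.Laws.dim_src p.1 h.1 h0
  dim_tgt p h h0 := Glob.Laws.dim_tgt p.1 h.1 h0
  src_tgt p h h0 := Prod.ext (Glob.Laws.src_tgt p.1 h.1 h0)
    (Glob.Laws.src_tgt p.2 h.2.1 (by rw [fib_dim h]; exact h0))
  tgt_src p h h0 := Prod.ext (Glob.Laws.tgt_src p.1 h.1 h0)
    (Glob.Laws.tgt_src p.2 h.2.1 (by rw [fib_dim h]; exact h0))

theorem fib_fst_mapAt {p : (fibM F G).C} (h : (fibM F G).ok p) :
    MapAt (fibM F G).toGlob M.M.toGlob (fun p => p.1) p :=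
  ⟨h.1, rfl, fun _ => ⟨rfl, rfl⟩⟩

theorem fib_snd_mapAt {p : (fibM F G).C} (h : (fibM F G).ok p) :
    MapAt (fibM F G).toGlob N.M.toGlob (fun p => p.2) p :=
  ⟨h.2.1, fib_dim h, fun _ => ⟨rfl, rfl⟩⟩

theorem fib_asg {W : Glob} {γ : W.C → (fibM F G).C} {p : W.C}
    (h : MapAt W (fibM F G).toGlob γ p) :
    MapAt W M.M.toGlob (fun p => (γ p).1) p ∧ MapAt W N.M.toGlob (fun p => (γ p).2) p := by
  obtain ⟨h1, h2, h3⟩ := h
  refine ⟨⟨h1.1, h2, fun h0 => ?_⟩, ⟨h1.2.1, (fib_dim h1).trans h2, fun h0 => ?_⟩⟩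
  · obtain ⟨a, b⟩ := h3 h0
    exact ⟨congrArg Prod.fst a, congrArg Prod.fst b⟩
  · obtain ⟨a, b⟩ := h3 h0
    exact ⟨congrArg Prod.snd a, congrArg Prod.snd b⟩

theorem fib_eval {V : Type} (γ : V → (fibM F G).C) (t : S.T V) :
    (fibM F G).eval γ t = (M.M.eval (fun v => (γ v).1) t, N.M.eval (fun v => (γ v).2) t) := by
  induction t with
  | var v => rfl
  | op k δ ih =>
    show (fibM F G).o k _ = (M.M.o k _, N.M.o k _)
    refine Prod.ext ?_ ?_
    · show M.M.o k _ = M.M.o k _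
      congr 1
      funext p
      exact congrArg Prod.fst (ih p)
    · show N.M.o k _ = N.M.o k _
      congr 1
      funext p
      exact congrArg Prod.snd (ih p)

instance fib_ops : (fibM F G).OpLaws where
  o_ok k γ hk hγ := by
    have h1 := fun p => (fib_asg (hγ p)).1
    have h2 := fun p => (fib_asg (hγ p)).2
    refine ⟨Model.OpLaws.o_ok k _ hk h1, Model.OpLaws.o_ok k _ hk h2, ?_⟩
    have e1 := RHom.op F k hk (fun p => ⟨(γ p).1, (hγ p).1.1⟩) h1
    have e2 := RHom.op G k hk (fun p => ⟨(γ p).2, (hγ p).1.2.1⟩) h2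
    refine Subtype.ext (e1.trans (Eq.trans ?_ e2.symm))
    congr 1
    funext p
    exact congrArg Subtype.val (hγ p).1.2.2
  o_dim k γ hk hγ := Model.OpLaws.o_dim (M := M.M) k _ hk fun p => (fib_asg (hγ p)).1
  o_src k γ hk hγ := by
    rw [fib_eval]
    exact Prod.ext (Model.OpLaws.o_src k _ hk fun p => (fib_asg (hγ p)).1)
      (Model.OpLaws.o_src k _ hk fun p => (fib_asg (hγ p)).2)
  o_tgt k γ hk hγ := by
    rw [fib_eval]
    exact Prod.ext (Model.OpLaws.o_tgt k _ hk fun p => (fib_asg (hγ p)).1)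
      (Model.OpLaws.o_tgt k _ hk fun p => (fib_asg (hγ p)).2)

/-- The fibre product. -/
def fib (F : M ⟶ K) (G : N ⟶ K) : RMod S := ⟨fibM F G, inferInstance, inferInstance⟩

variable {M' N' K' : RMod S} {F' : M' ⟶ K'} {G' : N' ⟶ K'}

/-- Functoriality of fibre products. -/
noncomputable def fibMap (a : M ⟶ M') (b : N ⟶ N') (c : K ⟶ K') (h1 : F ≫ c = a ≫ F')
    (h2 : G ≫ c = b ≫ G') : fib F G ⟶ fib F' G' :=
  RHom.mk' (M := fib F G) (N := fib F' G')
  { f := fun x => ⟨((RHom.f a ⟨x.1.1, x.2.1⟩).1, (RHom.f b ⟨x.1.2, x.2.2.1⟩).1), by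
      refine ⟨(RHom.f a ⟨x.1.1, x.2.1⟩).2, (RHom.f b ⟨x.1.2, x.2.2.1⟩).2, ?_⟩
      have e1 := congrArg (fun f => RHom.f f ⟨x.1.1, x.2.1⟩) h1
      have e2 := congrArg (fun f => RHom.f f ⟨x.1.2, x.2.2.1⟩) h2
      refine e1.symm.trans (Eq.trans ?_ e2)
      exact congrArg (RHom.f c) x.2.2.2⟩
    dim := fun x => RHom.dim_f a ⟨x.1.1, x.2.1⟩
    src := fun x h => Prod.ext (RHom.src a ⟨x.1.1, x.2.1⟩ h)
      (RHom.src b ⟨x.1.2, x.2.2.1⟩ (by rw [fib_dim x.2]; exact h))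
    tgt := fun x h => Prod.ext (RHom.tgt a ⟨x.1.1, x.2.1⟩ h)
      (RHom.tgt b ⟨x.1.2, x.2.2.1⟩ (by rw [fib_dim x.2]; exact h))
    op := fun k hk γ hγ => Prod.ext
      (RHom.op a k hk (fun p => ⟨(γ p).1.1, (γ p).2.1⟩) fun p => (fib_asg (hγ p)).1)
      (RHom.op b k hk (fun p => ⟨(γ p).1.2, (γ p).2.2.1⟩) fun p => (fib_asg (hγ p)).2) }

theorem fibMap_val (a : M ⟶ M') (b : N ⟶ N') (c : K ⟶ K') (h1 : F ≫ c = a ≫ F')
    (h2 : G ≫ c = b ≫ G') (x : (fib F G).Cell) :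
    (RHom.f (fibMap a b c h1 h2) x).1 =
      ((RHom.f a ⟨x.1.1, x.2.1⟩).1, (RHom.f b ⟨x.1.2, x.2.2.1⟩).1) := rfl

end Fib

namespace TData

variable (τ : TData Cs)

/-- triples `(X, G, X → B G)` -/
abbrev TriV : Type _ := Comma (𝟭 TopCat.{0}) τ.B

/-- **The functor `V`.** -/
noncomputable def V : τ.TriV ⥤ RMod Cs where
  obj Z := fib (τ.tE.app Z.right) (PiF.map Z.hom)
  map {Z Z'} f := fibMap (τ.E.map f.right) (PiF.map f.left) (PiF.map (τ.B.map f.right))
    (τ.tE.naturality f.right).symm (by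
      rw [← PiF.map_comp, ← PiF.map_comp]
      exact congrArg PiF.map f.w.symm)
  map_id Z := by
    refine rhom_ext fun x => ?_
    rw [fibMap_val]
    refine Prod.ext ?_ ?_
    · show (RHom.f (τ.E.map (𝟙 _)) _).1 = _
      rw [τ.E.map_id]
      rfl
    · show (RHom.f (PiF.map (𝟙 _)) _).1 = _
      rw [PiF.map_id]
      rfl
  map_comp {Z Z' Z''} f g := by
    refine rhom_ext fun x => ?_
    rw [fibMap_val]
    refine Prod.ext ?_ ?_
    · show (RHom.f (τ.E.map (f.right ≫ g.right)) _).1 = _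
      rw [τ.E.map_comp]
      rfl
    · show (RHom.f (PiF.map (f.left ≫ g.left)) _).1 = _
      rw [PiF.map_comp]
      rfl

/-- components of the cells of `V` -/
theorem V_ok {Z : τ.TriV} {p : (τ.V.obj Z).M.C} : (τ.V.obj Z).M.ok p ↔
    (WC.top (τ := τ) (X := τ.diag.obj Z.right) p.1 : (PiG (τ.B.obj Z.right)).C) =
      PiG.map Z.hom.hom p.2 := by
  constructor
  · intro h
    obtain ⟨h1, h2, h3⟩ := h
    exact congrArg Subtype.val h3
  · intro h
    exact ⟨trivial, trivial, Subtype.ext h⟩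

/-- **`V` is contractible for contractible `X`, `G`.** -/
theorem V_ctr (Z : τ.TriV) (hG : Z.right.Ctr) (hX : WCt Z.left) : (τ.V.obj Z).Ctr := by
  have hB := τ.wc Z.right hG
  constructor
  · obtain ⟨x0, hx0, hd0⟩ := hG.1
    obtain ⟨y0⟩ := hX.1
    let x : Z.right.Cell := ⟨x0, hx0⟩
    let e : (PiG Z.left).C := ⟨0, ContinuousMap.const _ y0⟩
    obtain ⟨H, h1, h2⟩ := PiG.lift_evb2_zero hB
      (c := fun b => if b then PiG.map Z.hom.hom e else τ.T x) (fun b => by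
        cases b
        · exact hd0
        · rfl)
    let p : τ.WC (τ.diag.obj Z.right) := ⟨(x, H), h2 false⟩
    exact ⟨(p, e), τ.V_ok.2 (h2 true), hd0⟩
  · intro L p q hpq _
    obtain ⟨p1, p2⟩ := p
    obtain ⟨q1, q2⟩ := q
    obtain ⟨k1, k2, k3, k4⟩ := hpq
    have hd1 := fib_dim k1
    have hd2 := fib_dim k2
    have par1 : (τ.WG (τ.diag.obj Z.right)).Par p1 q1 := ⟨trivial, trivial, k3, fun h0 => by
      obtain ⟨a, b⟩ := k4 h0
      exact ⟨congrArg Prod.fst a, congrArg Prod.fst b⟩⟩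
    have par2 : (PiG Z.left).Par p2 q2 := by
      refine ⟨trivial, trivial, (hd1.trans k3).trans hd2.symm, fun h0 => ?_⟩
      have h0' : 0 < (τ.V.obj Z).M.dim (p1, p2) := by
        have : 0 < (PiG Z.left).dim p2 := h0
        exact hd1 ▸ this
      obtain ⟨a, b⟩ := k4 h0'
      exact ⟨congrArg Prod.snd a, congrArg Prod.snd b⟩
    obtain ⟨x, x1, x2, x3⟩ := hG.fill (par_fst par1)
    obtain ⟨e, -, e2, e3, e4⟩ := PiG.mContr' hX ((PiG Z.left).dim p2 + 1) _ _ par2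
      (Nat.lt_succ_self _)
    have hx0 : 0 < Z.right.M.dim x.1 := by
      rw [x1]
      exact Nat.succ_pos _
    have hsx : Z.right.st false x hx0 = WC.fst (τ := τ) (X := τ.diag.obj Z.right) p1 :=
      Subtype.ext x2
    have htx : Z.right.st true x hx0 = WC.fst (τ := τ) (X := τ.diag.obj Z.right) q1 :=
      Subtype.ext x3
    have hTs : (PiG (τ.B.obj Z.right)).st false (τ.T x) = τ.T (WC.fst (τ := τ)
        (X := τ.diag.obj Z.right) p1) := (τ.T_st false x hx0).trans (congrArg τ.T hsx)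
    have hTt : (PiG (τ.B.obj Z.right)).st true (τ.T x) = τ.T (WC.fst (τ := τ)
        (X := τ.diag.obj Z.right) q1) := (τ.T_st true x hx0).trans (congrArg τ.T htx)
    have hes : (PiG (τ.B.obj Z.right)).st false (PiG.map Z.hom.hom e) = PiG.map Z.hom.hom p2 :=
      (PiG.map_st _ false e).symm.trans (congrArg _ e3)
    have het : (PiG (τ.B.obj Z.right)).st true (PiG.map Z.hom.hom e) = PiG.map Z.hom.hom q2 :=
      (PiG.map_st _ true e).symm.trans (congrArg _ e4)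
    have hdp := WC.dim_eq (τ := τ) (X := τ.diag.obj Z.right) p1
    obtain ⟨H, h1, h2, h3, h4⟩ := PiG.lift_evb2 hB
      (c := fun b => if b then PiG.map Z.hom.hom e else τ.T x) (par_snd par1)
      (fun b => by
        cases b
        · exact x1.trans (congrArg (· + 1) hdp.symm)
        · exact (e2.trans (congrArg (· + 1) hd1)).trans (congrArg (· + 1) hdp.symm))
      (fun b => by
        cases b
        · exact (p1.2).trans hTs.symm
        · exact (τ.V_ok.1 k1).trans hes.symm)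
      (fun b => by
        cases b
        · exact (q1.2).trans hTt.symm
        · exact (τ.V_ok.1 k2).trans het.symm)
    let r : τ.WC (τ.diag.obj Z.right) := ⟨(x, H), h4 false⟩
    refine ⟨(r, e), τ.V_ok.2 (h4 true), x1, Prod.ext ?_ e3, Prod.ext ?_ e4⟩
    · exact WC.st_eq (X := τ.diag.obj Z.right) (p := r) false hx0 x2 h2
    · exact WC.st_eq (X := τ.diag.obj Z.right) (p := r) true hx0 x3 h3

end TData

end HH
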