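import Pool.Agent.HH.CmpWF

/-!
# HH part 3, CMP-8: the two projections are weak equivalences

`E → id` is a weak equivalence by strict lifting; `E → Π B` is a weak equivalence if the main lemma
`TData.MainL` holds.
-/

set_option autoImplicit false

namespace HH

open Classical CategoryTheory

/-- cells of models of `Cs` are connected to themselves -/
theorem Cs_conn_refl (M : RMod Cs) (x : M.Cell) : M.M.toGlob.Conn x.1 x.1 := by
  obtain ⟨j, hj⟩ : ∃ j, j = M.M.dim x.1 := ⟨_, rfl⟩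
  have hok : (ofGlob Cs (diskG j)).tok (.var (j, false)) := Or.inr ⟨rfl, rfl⟩
  obtain ⟨h, h1, h2, h3, h4⟩ := Cs_hyp (diskG j) (ArCl.disk j) (j + 1) (.var (j, false))
    (.var (j, false)) ⟨hok, hok, rfl, fun _ => ⟨rfl, rfl⟩⟩ (Nat.lt_succ_self j)
  have hγ : ∀ v, (ofGlob Cs (diskG j)).ok v →
      AsgAt (ofGlob Cs (diskG j)) M.M (M.M.toGlob.bd x.1) v := by
    intro q hq
    subst hj
    exact bd_mapAt x.2 hq
  obtain ⟨m1, m2, m3⟩ := eval_mapAt hγ h h1
  have h2' : (ofGlob Cs (diskG j)).tdim h = j + 1 := h2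
  obtain ⟨m4, m5⟩ := m3 (by
    show 0 < (ofGlob Cs (diskG j)).tdim h
    omega)
  have e : M.M.toGlob.bd x.1 (j, false) = x.1 := bd_of_le x.1 (j, false) hj.symm.le
  refine ⟨_, m1, (m2.trans h2').trans (by rw [hj]), ?_, ?_⟩
  · exact m4.trans ((congrArg (M.M.eval _) h3).trans e)
  · exact m5.trans ((congrArg (M.M.eval _) h4).trans e)

namespace PiG

variable {Y : Type} [TopologicalSpace Y]

/-- connected cells are joined by a cell of the path space -/
theorem exists_path_of_conn {x y : (PiG Y).C} (h : (PiG Y).Conn x y) :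
    ∃ c : (PiG (PS Y)).C, map (evb Y false) c = x ∧ map (evb Y true) c = y := by
  obtain ⟨k, f⟩ := x
  obtain ⟨k', g⟩ := y
  obtain ⟨⟨m, G⟩, -, h2, h3, h4⟩ := h
  have hm : m = k + 1 := h2
  subst hm
  have hk : k = k' := congrArg Sigma.fst h4
  subst hk
  obtain ⟨K, e0, e1, -⟩ := exists_lens ((PS.const Y).comp f) g G (mk_inj h3) (mk_inj h4)
  exact ⟨⟨k, K⟩, congrArg (Sigma.mk k) e0, congrArg (Sigma.mk k) e1⟩

end PiG

namespace TData

variable (τ : TData Cs)

/-- the constant path at the disk of a cell -/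
noncomputable def hatC (X : τ.Tri) (x : X.left.Cell) : τ.WC X :=
  ⟨(x, PiG.map (PS.const X.right) (τ.Tb X x)), rfl⟩

/-- strict lifting along the projection to the model -/
theorem exists_lift_s (X : τ.Tri) {p q : τ.WC X} (hp : (τ.WG X).Par p q) (y : X.left.Cell)
    (hd : X.left.M.dim y.1 = (τ.WG X).dim p + 1) (hs : X.left.M.src y.1 = p.fst.1)
    (ht : X.left.M.tgt y.1 = q.fst.1) :
    ∃ z : τ.WC X, z.fst = y ∧ (τ.WG X).src z = p ∧ (τ.WG X).tgt z = q := by
  have hy : 0 < X.left.M.dim y.1 := by omega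
  have hsy : X.left.st false y hy = p.fst := Subtype.ext hs
  have hty : X.left.st true y hy = q.fst := Subtype.ext ht
  obtain ⟨H, h1, h2, h3, h4⟩ := PiG.lift_evb false (c := τ.Tb X y) (par_snd hp)
    (hd.trans (congrArg (· + 1) (WC.dim_eq p).symm))
    (p.2.trans ((congrArg (τ.Tb X) hsy.symm).trans (τ.Tb_st X false y hy).symm))
    (q.2.trans ((congrArg (τ.Tb X) hty.symm).trans (τ.Tb_st X true y hy).symm))
  exact ⟨⟨(y, H), h4⟩, rfl, WC.st_eq (X := X) (p := ⟨(y, H), h4⟩) false hy hs h2,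
    WC.st_eq (X := X) (p := ⟨(y, H), h4⟩) true hy ht h3⟩

/-- **`W → G` is a weak equivalence.** -/
theorem sN_isW (X : τ.Tri) : RMod.IsW (τ.sN.app X) := by
  refine ⟨fun y hy => ?_, fun x x' hx hc => ?_, fun x x' hx h h1 h2 h3 => ?_⟩
  · refine ⟨⟨τ.hatC X y, trivial⟩, hy, ?_⟩
    exact Cs_conn_refl X.left y
  · obtain ⟨h, k1, k2, k3, k4⟩ := hc
    obtain ⟨z, z1, z2, z3⟩ := τ.exists_lift_s X (p := x.1) (q := x'.1) hx ⟨h, k1⟩ k2 k3 k4
    refine ⟨z, trivial, ?_, z2, z3⟩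
    show X.left.M.dim z.fst.1 = _
    rw [z1]
    exact k2
  · obtain ⟨z, z1, z2, z3⟩ := τ.exists_lift_s X (p := x.1) (q := x'.1) hx h h1 h2 h3
    refine ⟨⟨z, trivial⟩, ?_, z2, z3, ?_⟩
    · show X.left.M.dim z.fst.1 = _
      rw [z1]
      exact h1
    · show X.left.M.toGlob.Conn z.fst.1 h.1
      rw [z1]
      exact Cs_conn_refl X.left h

/-- **`E → id` is a weak equivalence.** -/
theorem sE_isW (G : RMod Cs) : RMod.IsW (τ.sE.app G) := τ.sN_isW (τ.diag.obj G)

/-- The main lemma for a triple: every disk in `Y` with boundary given by cells of `G` is homotopic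
to the disk of a cell of `G`. -/
def MainX (X : τ.Tri) : Prop :=
  (∀ y : (PiG X.right).C, y.1 = 0 →
    ∃ x : X.left.Cell, X.left.M.dim x.1 = 0 ∧ (PiG X.right).Conn (τ.Tb X x) y) ∧
  ∀ u v : X.left.Cell, X.left.M.toGlob.Par u.1 v.1 → ∀ w : (PiG X.right).C,
    w.1 = X.left.M.dim u.1 + 1 → (PiG X.right).src w = τ.Tb X u →
    (PiG X.right).tgt w = τ.Tb X v →
    ∃ x : X.left.Cell, X.left.M.dim x.1 = X.left.M.dim u.1 + 1 ∧ X.left.M.src x.1 = u.1 ∧
      X.left.M.tgt x.1 = v.1 ∧ (PiG X.right).Conn (τ.Tb X x) w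

/-- The main lemma: every disk in `B G` with boundary given by cells of `G` is homotopic to the
disk of a cell of `G`. -/
def MainL : Prop := ∀ G : RMod Cs,
  (∀ y : (PiG (τ.B.obj G)).C, y.1 = 0 →
    ∃ x : G.Cell, G.M.dim x.1 = 0 ∧ (PiG (τ.B.obj G)).Conn (τ.T x) y) ∧
  ∀ u v : G.Cell, G.M.toGlob.Par u.1 v.1 → ∀ w : (PiG (τ.B.obj G)).C, w.1 = G.M.dim u.1 + 1 →
    (PiG (τ.B.obj G)).src w = τ.T u → (PiG (τ.B.obj G)).tgt w = τ.T v →
    ∃ x : G.Cell, G.M.dim x.1 = G.M.dim u.1 + 1 ∧ G.M.src x.1 = u.1 ∧ G.M.tgt x.1 = v.1 ∧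
      (PiG (τ.B.obj G)).Conn (τ.T x) w

theorem MainL.mainX {τ : TData Cs} (h : τ.MainL) (G : RMod Cs) : τ.MainX (τ.diag.obj G) := h G

/-- lifting up to homotopy along `W → Π Y` -/
theorem exists_lift_tX (X : τ.Tri) (hM : τ.MainX X) {p q : τ.WC X}
    (hp : (τ.WG X).Par p q) (h : (PiG X.right).C)
    (hd : h.1 = (τ.WG X).dim p + 1) (hs : (PiG X.right).src h = p.top)
    (ht : (PiG X.right).tgt h = q.top) :
    ∃ z : τ.WC X, (τ.WG X).dim z = (τ.WG X).dim p + 1 ∧
      (τ.WG X).src z = p ∧ (τ.WG X).tgt z = q ∧ (PiG X.right).Conn z.top h := by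
  have hdp := WC.dim_eq p
  have hp2 := par_snd hp
  obtain ⟨K, k1, k2, k3, k4⟩ := PiG.lift_evb true (c := h) hp2
    (hd.trans (congrArg (· + 1) hdp.symm)) hs.symm ht.symm
  have hK0 : 0 < K.1 := by
    rw [k1]
    exact Nat.succ_pos _
  obtain ⟨x, x1, x2, x3, x4⟩ := hM.2 p.fst q.fst (par_fst hp)
    (PiG.map (evb X.right false) K) (k1.trans (congrArg (· + 1) hdp))
    (by
      refine (PiG.map_st (evb X.right false) false K).symm.trans ?_
      exact (congrArg (PiG.map (evb X.right false)) k2).trans p.2)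
    (by
      refine (PiG.map_st (evb X.right false) true K).symm.trans ?_
      exact (congrArg (PiG.map (evb X.right false)) k3).trans q.2)
  obtain ⟨z, z1, z2, z3⟩ := τ.exists_lift_s X hp x x1 x2 x3
  have hdz : (τ.WG X).dim z = (τ.WG X).dim p + 1 := by
    show X.left.M.dim z.fst.1 = _
    rw [z1]
    exact x1
  refine ⟨z, hdz, z2, z3, ?_⟩
  rw [← k4]
  refine PiG.conn_evb_of_evb false (K := z.1.2) (K' := K) ?_ ?_ true
  · refine ⟨trivial, trivial, ?_, fun _ => ⟨?_, ?_⟩⟩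
    · show z.1.2.1 = K.1
      rw [WC.dim_eq, k1, hdp]
      exact hdz
    · have e := (snd_mapAt z).2.2 (by rw [hdz]; exact Nat.succ_pos _)
      refine (e.1.trans ?_).trans k2.symm
      exact congrArg (fun p : τ.WC X => p.1.2) z2
    · have e := (snd_mapAt z).2.2 (by rw [hdz]; exact Nat.succ_pos _)
      refine (e.2.trans ?_).trans k3.symm
      exact congrArg (fun p : τ.WC X => p.1.2) z3
  · have e : PiG.map (evb X.right false) z.1.2 = τ.Tb X x := by
      rw [← z1]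
      exact z.2
    have e' : (PiG X.right).Conn (PiG.map (evb X.right false) z.1.2)
        (PiG.map (evb X.right false) K) := by
      rw [e]
      exact x4
    exact e'

/-- **`W → Π Y` is a weak equivalence, by the main lemma.** -/
theorem tN_isW (X : τ.Tri) (hM : τ.MainX X) : RMod.IsW (τ.tN.app X) := by
  refine ⟨fun y hy => ?_, fun x x' hx hc => ?_, fun x x' hx h h1 h2 h3 => ?_⟩
  · obtain ⟨x, x1, x2⟩ := hM.1 y.1 hy
    obtain ⟨c, c1, c2⟩ := PiG.exists_path_of_conn x2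
    let z : τ.WC X := ⟨(x, c), c1⟩
    refine ⟨⟨z, trivial⟩, x1, ?_⟩
    show (PiG X.right).Conn (PiG.map (evb X.right true) c) y.1
    rw [c2]
    exact PiG.conn_refl _
  · obtain ⟨h, k1, k2, k3, k4⟩ := hc
    obtain ⟨z, z1, z2, z3, -⟩ := τ.exists_lift_tX X hM (p := x.1) (q := x'.1) hx h
      (k2.trans (congrArg (· + 1) (RHom.dim_f (τ.tN.app X) x))) k3 k4
    exact ⟨z, trivial, z1, z2, z3⟩
  · obtain ⟨z, z1, z2, z3, z4⟩ := τ.exists_lift_tX X hM (p := x.1) (q := x'.1) hx h.1 h1 h2 h3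
    exact ⟨⟨z, trivial⟩, z1, z2, z3, z4⟩

/-- **`E → Π B` is a weak equivalence, by the main lemma.** -/
theorem tE_isW (hM : τ.MainL) (G : RMod Cs) : RMod.IsW (τ.tE.app G) :=
  τ.tN_isW (τ.diag.obj G) (hM.mainX G)

end TData

end HH
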