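import Pool.Agent.HH.Defs1

/-!
# HH stage 1, module 18: functoriality of the extension of homotopies to terms
-/

set_option autoImplicit false

namespace HH

open Classical

variable {S : Sig}

theorem ext_congr_Q [S.Strat] {M : Model S} {Q Q' : QFam S} {X : Cptd S} {α β e : X.V → M.C}
    {L : ℕ} (h : ∀ k, S.kok k → S.dm k < L → Q k = Q' k) {t : S.T X.V} (ht : X.tok t)
    (hL : X.tdim t < L) : ext M Q α β e t = ext M Q' α β e t := by
  induction t with
  | var v => rfl
  | op k γ ih =>
    have hk : Q k = Q' k := h k ht.1 hL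
    have hi : ∀ p, ext M Q α β e (γ p) = ext M Q' α β e (γ p) := by
      intro p
      refine ih p (ht.2 p).1 ?_
      rw [(ht.2 p).2.1]
      exact lt_of_le_of_lt (Sig.Strat.le k ht.1 p) hL
    show M.eval _ (Q k) = M.eval _ (Q' k)
    rw [hk]
    congr 2
    funext p
    exact hi p

theorem ext_congr [S.Strat] {M : Model S} {Q : QFam S} {X : Cptd S} {α β e α' β' e' : X.V → M.C}
    {L : ℕ} (hα : ∀ v, X.ok v → X.dim v < L → α v = α' v)
    (hβ : ∀ v, X.ok v → X.dim v < L → β v = β' v)
    (he : ∀ v, X.ok v → X.dim v < L → e v = e' v) {t : S.T X.V} (ht : X.tok t)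
    (hL : X.tdim t < L) : ext M Q α β e t = ext M Q α' β' e' t := by
  induction t with
  | var v => exact he v ht hL
  | op k γ ih =>
    have hd : ∀ p, X.tdim (γ p) < L := by
      intro p
      rw [(ht.2 p).2.1]
      exact lt_of_le_of_lt (Sig.Strat.le k ht.1 p) hL
    have h1 : (fun p => M.eval α (γ p)) = (fun p => M.eval α' (γ p)) := by
      funext p
      exact eval_congr_lt (γ p) (ht.2 p).1 (hd p) hα
    have h2 : (fun p => M.eval β (γ p)) = (fun p => M.eval β' (γ p)) := by
      funext p
      exact eval_congr_lt (γ p) (ht.2 p).1 (hd p) hβ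
    have h3 : (fun p => ext M Q α β e (γ p)) = (fun p => ext M Q α' β' e' (γ p)) := by
      funext p
      exact ih p (ht.2 p).1 (hd p)
    show M.eval (CV.elim (fun p => M.eval α (γ p)) (fun p => M.eval β (γ p))
      (fun p => ext M Q α β e (γ p))) (Q k) = M.eval (CV.elim (fun p => M.eval α' (γ p))
      (fun p => M.eval β' (γ p)) (fun p => ext M Q α' β' e' (γ p))) (Q k)
    rw [h1, h2, h3]

/-- **(F) functoriality** -/
theorem ext_bind {a : Glob} {N J : ℕ} {x : XFam S} {Q : QFam S} {M : Model S} {V : Type}
    {γ : a.C → S.T V} {α β e : V → M.C}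
    (low : ∀ p, a.ok p → a.dim p < N → M.eval α (γ p) = M.eval β (γ p))
    {s : S.T a.C} (hs : (ofGlob S a).tok s) :
    ext M Q α β e (s.bind γ) =
      M.eval (CV.elim (fun p => M.eval α (γ p)) (fun p => M.eval β (γ p))
        (fun p => ext M Q α β e (γ p)))
      (ext (CylG x a N J).m Q (fun p => .var (.z p)) (tpG S a N) (fun p => .var (.cyl p)) s) := by
  induction s with
  | var v => rfl
  | op k δ ih =>
    set E : CV a.C a.C → M.C := CV.elim (fun p => M.eval α (γ p)) (fun p => M.eval β (γ p))
        (fun p => ext M Q α β e (γ p)) with hE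
    have h1 : ∀ p, M.eval α ((δ p).bind γ) =
        M.eval E ((CylG x a N J).m.eval (fun p => .var (.z p)) (δ p)) := by
      intro p
      exact (eval_bind M α γ (δ p)).trans
        (eval_bind M E (fun q : a.C => (Tm.var (CV.z q) : S.T (CV a.C a.C))) (δ p)).symm
    have h2 : ∀ p, M.eval β ((δ p).bind γ) =
        M.eval E ((CylG x a N J).m.eval (tpG S a N) (δ p)) := by
      intro p
      refine (eval_bind M β γ (δ p)).trans (Eq.trans ?_ (eval_bind M E (tpG S a N) (δ p)).symm)
      refine eval_congr (X := ofGlob S a) (M := M) (δ p) (hs.2 p).1 ?_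
      intro q hq
      show M.eval β (γ q) = M.eval E (if N ≤ a.dim q then .var (.top q) else .var (.z q))
      by_cases hN : N ≤ a.dim q
      · rw [if_pos hN]; rfl
      · rw [if_neg hN]
        exact (low q hq (not_le.mp hN)).symm
    have h3 : ∀ p, ext M Q α β e ((δ p).bind γ) = M.eval E
        (ext (CylG x a N J).m Q (fun p => .var (.z p)) (tpG S a N) (fun p => .var (.cyl p))
          (δ p)) := by
      intro p
      exact ih p (hs.2 p).1
    show M.eval (CV.elim (fun p => M.eval α ((δ p).bind γ)) (fun p => M.eval β ((δ p).bind γ))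
      (fun p => ext M Q α β e ((δ p).bind γ))) (Q k) = M.eval E ((Q k).bind (CV.elim
        (fun p => (CylG x a N J).m.eval (fun p => .var (.z p)) (δ p))
        (fun p => (CylG x a N J).m.eval (tpG S a N) (δ p))
        (fun p => ext (CylG x a N J).m Q (fun p => .var (.z p)) (tpG S a N)
          (fun p => .var (.cyl p)) (δ p))))
    rw [eval_bind]
    congr 1
    funext v
    cases v with
    | z p => exact h1 p
    | top p => exact h2 p
    | cyl p => exact h3 p

/-- naturality of `ext` in the model -/
theorem eval_ext {Y : Cptd S} {M : Model S} {Q : QFam S} {V : Type} {α β e : V → S.T Y.V}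
    (γ : Y.V → M.C) (t : S.T V) :
    M.eval γ (ext Y.m Q α β e t) =
      ext M Q (fun v => M.eval γ (α v)) (fun v => M.eval γ (β v)) (fun v => M.eval γ (e v)) t := by
  induction t with
  | var v => rfl
  | op k δ ih =>
    show M.eval γ ((Q k).bind (CV.elim (fun p => (δ p).bind α) (fun p => (δ p).bind β)
      (fun p => ext Y.m Q α β e (δ p)))) = M.eval (CV.elim
        (fun p => M.eval (fun v => M.eval γ (α v)) (δ p))
        (fun p => M.eval (fun v => M.eval γ (β v)) (δ p))
        (fun p => ext M Q (fun v => M.eval γ (α v)) (fun v => M.eval γ (β v))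
          (fun v => M.eval γ (e v)) (δ p))) (Q k)
    rw [eval_bind]
    congr 1
    funext v
    cases v with
    | z p => exact eval_bind M γ α (δ p)
    | top p => exact eval_bind M γ β (δ p)
    | cyl p => exact ih p

end HH
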