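import Pool.Agent.HH.CylUP
import Pool.Agent.HH.ExtF
import Pool.Agent.HH.Retract

/-!
# HH module 19: the extension of a homotopy to terms is a homotopy
-/

set_option autoImplicit false

namespace HH

open Classical

variable {S : Sig}

/-- composition of maps -/
theorem extCyl_mapAt_comp {G H K : Glob} {f : G.C → H.C} {g : H.C → K.C} {x : G.C}
    (hf : MapAt G H f x) (hg : MapAt H K g (f x)) : MapAt G K (fun y => g (f y)) x := by
  obtain ⟨f1, f2, f3⟩ := hf
  obtain ⟨g1, g2, g3⟩ := hg
  refine ⟨g1, g2.trans f2, fun h0 => ?_⟩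
  obtain ⟨a1, a2⟩ := f3 h0
  obtain ⟨b1, b2⟩ := g3 (by rw [f2]; exact h0)
  exact ⟨b1.trans (congrArg g a1), b2.trans (congrArg g a2)⟩

theorem ext_isCyl [S.Good] [S.Strat] {x : XFam S} {Q : QFam S} {N J : ℕ}
    (hx : ∀ j, N ≤ j → j < J → XGoodAt x N j) (hQ : QGood x Q N J)
    {X : Cptd S} [X.Good] {M : Model S} [M.OpLaws] {α β e : X.V → M.C}
    (hα : IsAsg J X M α) (hβ : IsAsg J X M β)
    (low : ∀ v, X.ok v → X.dim v < N → X.dim v < J → α v = β v)
    (hc : ∀ v, X.ok v → N ≤ X.dim v → X.dim v < J →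
      CylAt M x X.m.toGlob (M.eval α) (M.eval β) (ext M Q α β e) (.var v)) :
    IsCyl x N J X.m.toGlob M (M.eval α) (M.eval β) (ext M Q α β e) := by
  have mα : IsMap J X.m.toGlob M.toGlob (M.eval α) := eval_isMap hα
  have mβ : IsMap J X.m.toGlob M.toGlob (M.eval β) := eval_isMap hβ
  have hlow : ∀ t, X.tok t → X.tdim t < N → X.tdim t < J → M.eval α t = M.eval β t := by
    intro t ht h1 h2
    exact eval_congr_lt (L := min N J) t ht (lt_min h1 h2) fun v hv hvL =>
      low v hv (lt_of_lt_of_le hvL (min_le_left _ _)) (lt_of_lt_of_le hvL (min_le_right _ _))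
  refine ⟨mα, mβ, hlow, ?_⟩
  intro t
  induction t with
  | var v => exact hc v
  | op k γ ih =>
    intro ht hN hJ
    obtain ⟨hk, hγ⟩ := (tok_op X k γ).1 ht
    have hkN : N ≤ S.dm k := hN
    have hkJ : S.dm k < J := hJ
    have hL : (S.ar k).Laws := Sig.Good.ar_laws k hk
    have hfull : ∀ p, (S.ar k).ok p := Sig.Good.full k hk
    have hple : ∀ p, (S.ar k).dim p ≤ S.dm k := Sig.Strat.le k hk
    have hγd : ∀ p, X.tdim (γ p) = (S.ar k).dim p := fun p => (hγ p).2.1
    have hγok : ∀ p, X.tok (γ p) := fun p => (hγ p).1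
    have hγJ : ∀ p, X.tdim (γ p) < J := fun p => by
      rw [hγd]
      exact lt_of_le_of_lt (hple p) hkJ
    have mαγ : ∀ p, MapAt (S.ar k) M.toGlob (fun p => M.eval α (γ p)) p := fun p =>
      extCyl_mapAt_comp (hγ p) (mα (γ p) (hγok p) (hγJ p))
    have mβγ : ∀ p, MapAt (S.ar k) M.toGlob (fun p => M.eval β (γ p)) p := fun p =>
      extCyl_mapAt_comp (hγ p) (mβ (γ p) (hγok p) (hγJ p))
    have lowγ : ∀ p, (S.ar k).dim p < N → M.eval α (γ p) = M.eval β (γ p) := fun p hp =>
      hlow (γ p) (hγok p) (by rw [hγd]; exact hp) (hγJ p)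
    have hbdγ : ∀ p q, γ ((S.ar k).bd p q) = X.m.toGlob.bd (γ p) q := fun p q =>
      map_bd (G := S.ar k) (H := X.m.toGlob) (hfull p) (fun y _ _ => hγ y) q
    obtain ⟨E, hE⟩ : ∃ E : CV (S.ar k).C (S.ar k).C → M.C, E =
      CV.elim (fun p => M.eval α (γ p)) (fun p => M.eval β (γ p))
        (fun p => ext M Q α β e (γ p)) := ⟨_, rfl⟩
    have hEasg : ∀ B, IsAsg B (CylG x (S.ar k) N (S.dm k + 1)) M E := by
      intro B
      rw [hE]
      refine Cyl_asg (Z := ofGlob S (S.ar k)) (W := S.ar k) (φ := .var)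
        (fun j h1 h2 => hx j h1 (by omega)) ?_ ?_ ?_ ?_
      · intro p _ _
        exact asgAt_ofGlob (mαγ p)
      · intro p _ _ _
        exact mβγ p
      · intro p _ h1 _
        exact lowγ p h1
      · intro p _ h1 _
        have h2 := ih p (hγok p) (by rw [m_dim, hγd]; exact h1) (hγJ p)
        exact CylAt.comp (M := M) (x := x) (W := X.m.toGlob) (W' := S.ar k) (f := γ)
          (α := M.eval α) (β := M.eval β) (e := ext M Q α β e) (p := p) (hγd p) (hbdγ p) h2
    have h1 := (hQ k hk hkN hkJ).2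
    have h2 := CylAt.eval (hEasg _) h1
    -- identify the three functions
    have hF : ∀ s : S.T (S.ar k).C, (ofGlob S (S.ar k)).tok s →
        ext M Q α β e (s.bind γ) = M.eval E (ext (CylG x (S.ar k) N (S.dm k + 1)).m Q
          (fun p => .var (.z p)) (tpG S (S.ar k) N) (fun p => .var (.cyl p)) s) := by
      intro s hs
      rw [hE]
      exact ext_bind (fun p _ hp => lowγ p hp) hs
    have hA : ∀ s : S.T (S.ar k).C,
        M.eval E ((CylG x (S.ar k) N (S.dm k + 1)).m.eval (fun p => .var (.z p)) s) =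
          M.eval α (s.bind γ) := by
      intro s
      have e1 := eval_bind M (V := (S.ar k).C) (W := CV (S.ar k).C (S.ar k).C) E
        (fun p => .var (.z p)) s
      have e2 := eval_bind M α γ s
      refine e1.trans (Eq.trans ?_ e2.symm)
      rw [hE]
      rfl
    have hB : ∀ s : S.T (S.ar k).C, (ofGlob S (S.ar k)).tok s →
        M.eval E ((CylG x (S.ar k) N (S.dm k + 1)).m.eval (tpG S (S.ar k) N) s) =
          M.eval β (s.bind γ) := by
      intro s hs
      have e1 := eval_bind M (V := (S.ar k).C) (W := CV (S.ar k).C (S.ar k).C) E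
        (tpG S (S.ar k) N) s
      have e2 := eval_bind M β γ s
      refine e1.trans (Eq.trans ?_ e2.symm)
      refine eval_congr (X := ofGlob S (S.ar k)) s hs fun p _ => ?_
      rw [hE]
      exact Cyl_eval_tp (Z := ofGlob S (S.ar k)) (W := S.ar k) (φ := .var)
        (fun h => lowγ p h)
    have hmap : ∀ s : S.T (S.ar k).C, (ofGlob S (S.ar k)).tok s →
        MapAt (ofGlob S (S.ar k)).m.toGlob X.m.toGlob (fun s => s.bind γ) s := by
      intro s hs
      exact eval_mapAt (X := ofGlob S (S.ar k)) (M := X.m) (γ := γ) (fun p _ => hγ p) s hs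
    have hokv : (ofGlob S (S.ar k)).tok (.op k .var) := by
      refine ⟨hk, fun p => ⟨hfull p, rfl, fun _ => ⟨rfl, rfl⟩⟩⟩
    have hbd : ∀ q, ((ofGlob S (S.ar k)).m.toGlob.bd (.op k .var) q : S.T (S.ar k).C).bind γ =
        X.m.toGlob.bd (.op k γ) q := by
      intro q
      have := map_bd (G := (ofGlob S (S.ar k)).m.toGlob) (H := X.m.toGlob)
        (f := fun s : S.T (S.ar k).C => s.bind γ) (x := (.op k .var : S.T (S.ar k).C)) hokv
        (fun y hy _ => hmap y hy) q
      exact this
    have hbdok : ∀ q, (ofGlob S (S.ar k)).tok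
        ((ofGlob S (S.ar k)).m.toGlob.bd (.op k .var) q) := fun q =>
      ok_bd (G := (ofGlob S (S.ar k)).m.toGlob) (x := (.op k .var : S.T (S.ar k).C)) hokv q
    obtain ⟨c1, c2, c3, c4⟩ := h2
    have hext : M.eval E (ext (CylG x (S.ar k) N (S.dm k + 1)).m Q
          (fun p => .var (.z p)) (tpG S (S.ar k) N) (fun p => .var (.cyl p)) (.op k .var)) =
        ext M Q α β e (.op k γ) := (hF (.op k .var) hokv).symm
    have hcs : cs M x (ofGlob S (S.ar k)).m.toGlob
        (fun p => M.eval E ((CylG x (S.ar k) N (S.dm k + 1)).m.eval (fun p => .var (.z p)) p))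
        (fun p => M.eval E ((CylG x (S.ar k) N (S.dm k + 1)).m.eval (tpG S (S.ar k) N) p))
        (fun p => M.eval E (ext (CylG x (S.ar k) N (S.dm k + 1)).m Q
          (fun p => .var (.z p)) (tpG S (S.ar k) N) (fun p => .var (.cyl p)) p)) (.op k .var) =
        cs M x X.m.toGlob (M.eval α) (M.eval β) (ext M Q α β e) (.op k γ) := by
      have e1 := cs_comp (M := M) x (W := X.m.toGlob) (W' := (ofGlob S (S.ar k)).m.toGlob)
        (fun s : S.T (S.ar k).C => s.bind γ) (M.eval α) (M.eval β) (ext M Q α β e)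
        (.op k .var) rfl hbd
      refine Eq.trans ?_ e1
      unfold cs
      congr 1
      funext v
      cases v with
      | z q => exact hA _
      | top q => exact hB _ (hbdok q)
      | cyl q => exact (hF _ (hbdok q)).symm
    refine ⟨?_, ?_, ?_, ?_⟩
    · rw [← hext]
      exact c1
    · rw [← hext]
      exact c2
    · rw [← hext, ← hcs]
      exact c3
    · rw [← hext]
      exact c4.trans (hB _ hokv)

end HH
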