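import Pool.Agent.HH.Bd
import Pool.Agent.HH.CSLem
import Pool.Agent.HH.CylUP
import Pool.Agent.HH.InsG
import Pool.Agent.HH.DiskOp
set_option autoImplicit false
namespace HH
open Classical
variable {S : Sig}

/-! ## 24 PR -/

/-- parallel cells of dimension `n` with given lower boundary -/
structure PRGood (M : Model S) (n : ℕ) (e y : M.C) : Prop where
  ok : M.ok y
  dim : M.dim y = n
  bd : ∀ q : D, q.1 < n → M.toGlob.bd y q = M.toGlob.bd e q

theorem PRGood.src {M : Model S} {n : ℕ} {e y : M.C} (h : PRGood M n e y) (h0 : 0 < n) :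
    M.src y = M.toGlob.bd e (n - 1, false) := by
  rw [← h.bd (n - 1, false) (by change n - 1 < n; omega), ← h.dim]
  exact (bd_pred_false (G := M.toGlob) (x := y) (by rw [h.dim]; exact h0)).symm

theorem PRGood.tgt {M : Model S} {n : ℕ} {e y : M.C} (h : PRGood M n e y) (h0 : 0 < n) :
    M.tgt y = M.toGlob.bd e (n - 1, true) := by
  rw [← h.bd (n - 1, true) (by change n - 1 < n; omega), ← h.dim]
  exact (bd_pred_true (G := M.toGlob) (x := y) (by rw [h.dim]; exact h0)).symm

/-- source and target of a cell of dimension `n + 1` with good source -/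
theorem prgood_src {M : Model S} [M.toGlob.Laws] {n : ℕ} {e : M.C} (he : M.ok e)
    (de : M.dim e = n + 1) : PRGood M n e (M.src e) := by
  have h0 : 0 < M.toGlob.dim e := by rw [de]; exact Nat.succ_pos n
  refine ⟨Glob.Laws.ok_src e he h0, ?_, ?_⟩
  · have := Glob.Laws.dim_src (G := M.toGlob) e he h0
    omega
  · intro q hq
    exact bd_src he h0 (by rw [de]; omega)

theorem prgood_tgt {M : Model S} [M.toGlob.Laws] {n : ℕ} {e : M.C} (he : M.ok e)
    (de : M.dim e = n + 1) : PRGood M n e (M.tgt e) := by
  have h0 : 0 < M.toGlob.dim e := by rw [de]; exact Nat.succ_pos n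
  refine ⟨Glob.Laws.ok_tgt e he h0, ?_, ?_⟩
  · have := Glob.Laws.dim_tgt (G := M.toGlob) e he h0
    omega
  · intro q hq
    exact bd_tgt he h0 (by rw [de]; omega)

/-- change of the reference cell -/
theorem PRGood.trans {M : Model S} {n : ℕ} {e y c z : M.C} (h1 : PRGood M n e y)
    (h2 : PRGood M n c y) (h3 : PRGood M n c z) : PRGood M n e z :=
  ⟨h3.ok, h3.dim, fun q hq => by rw [h3.bd q hq, ← h2.bd q hq, h1.bd q hq]⟩

/-- the assignment of module PR -/
noncomputable def prAsg (M : Model S) (n : ℕ) (e c e' u v : M.C) : CV (CV D D) (CV D D) → M.C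
  | .z (.z q) => if q.1 < n then M.toGlob.bd e q else
      if q = (n, false) then M.src e else if q = (n, true) then M.tgt e' else e'
  | .z (.top q) => if q = (n, false) then M.tgt c else M.tgt e'
  | .z (.cyl q) => if q = (n, false) then c else v
  | .top (.z q) => if q = (n, false) then M.tgt e else M.tgt e'
  | .top (.top q) => if q = (n, false) then M.tgt c else M.tgt e'
  | .top (.cyl _) => e
  | .cyl (.z q) => if q = (n, false) then e else v
  | .cyl (.top q) => if q = (n, false) then u else v
  | .cyl (.cyl _) => e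

section prAsgLemmas
variable {M : Model S} {n : ℕ} {e c e' u v : M.C}

theorem prAsg_zz_lt {q : D} (hq : q.1 < n) :
    prAsg M n e c e' u v (.z (.z q)) = M.toGlob.bd e q := by
  simp only [prAsg, if_pos hq]

theorem prAsg_zz_f : prAsg M n e c e' u v (.z (.z (n, false))) = M.src e := by
  simp [prAsg]

theorem prAsg_zz_t : prAsg M n e c e' u v (.z (.z (n, true))) = M.tgt e' := by
  simp [prAsg]

theorem prAsg_zz_top : prAsg M n e c e' u v (.z (.z (n + 1, false))) = e' := by
  simp [prAsg]

theorem prAsg_zt_f : prAsg M n e c e' u v (.z (.top (n, false))) = M.tgt c := by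
  simp [prAsg]

theorem prAsg_zt_t : prAsg M n e c e' u v (.z (.top (n, true))) = M.tgt e' := by
  simp [prAsg]

theorem prAsg_zc_f : prAsg M n e c e' u v (.z (.cyl (n, false))) = c := by
  simp [prAsg]

theorem prAsg_zc_t : prAsg M n e c e' u v (.z (.cyl (n, true))) = v := by
  simp [prAsg]

theorem prAsg_tz_f : prAsg M n e c e' u v (.top (.z (n, false))) = M.tgt e := by
  simp [prAsg]

theorem prAsg_tz_t : prAsg M n e c e' u v (.top (.z (n, true))) = M.tgt e' := by
  simp [prAsg]

theorem prAsg_tt_f : prAsg M n e c e' u v (.top (.top (n, false))) = M.tgt c := by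
  simp [prAsg]

theorem prAsg_tt_t : prAsg M n e c e' u v (.top (.top (n, true))) = M.tgt e' := by
  simp [prAsg]

theorem prAsg_cz_f : prAsg M n e c e' u v (.cyl (.z (n, false))) = e := by
  simp [prAsg]

theorem prAsg_cz_t : prAsg M n e c e' u v (.cyl (.z (n, true))) = v := by
  simp [prAsg]

theorem prAsg_ct_f : prAsg M n e c e' u v (.cyl (.top (n, false))) = u := by
  simp [prAsg]

theorem prAsg_ct_t : prAsg M n e c e' u v (.cyl (.top (n, true))) = v := by
  simp [prAsg]

end prAsgLemmas

/-- a cell of dimension `n` at a position whose lower boundary positions are `z z` -/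
theorem pr_cell {M : Model S} {n : ℕ} {e c e' u v y : M.C} (hy : PRGood M n e y)
    (w : CV (CV D D) (CV D D)) (hval : prAsg M n e c e' u v w = y)
    (hd : (whiskG (insG (diskG (n + 1)) n) n).dim w = n)
    (hs : 0 < n → (whiskG (insG (diskG (n + 1)) n) n).src w = .z (.z (n - 1, false)))
    (ht : 0 < n → (whiskG (insG (diskG (n + 1)) n) n).tgt w = .z (.z (n - 1, true))) :
    MapAt (whiskG (insG (diskG (n + 1)) n) n) M.toGlob (prAsg M n e c e' u v) w := by
  refine ⟨?_, ?_, fun h0 => ?_⟩
  · rw [hval]; exact hy.ok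
  · rw [hval, hd]; exact hy.dim
  · rw [hd] at h0
    have h1 : prAsg M n e c e' u v (.z (.z (n - 1, false))) = M.toGlob.bd e (n - 1, false) :=
      prAsg_zz_lt (q := (n - 1, false)) (by change n - 1 < n; omega)
    have h2 : prAsg M n e c e' u v (.z (.z (n - 1, true))) = M.toGlob.bd e (n - 1, true) :=
      prAsg_zz_lt (q := (n - 1, true)) (by change n - 1 < n; omega)
    exact ⟨(congrArg M.src hval).trans ((hy.src h0).trans
        ((congrArg (prAsg M n e c e' u v) (hs h0)).trans h1).symm),
      (congrArg M.tgt hval).trans ((hy.tgt h0).trans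
        ((congrArg (prAsg M n e c e' u v) (ht h0)).trans h2).symm)⟩

/-- a cell of dimension `n + 1` -/
theorem pr_arrow {M : Model S} {n : ℕ} {e c e' u v y s t : M.C} (hy : M.ok y)
    (dy : M.dim y = n + 1) (sy : M.src y = s) (ty : M.tgt y = t)
    (w ws wt : CV (CV D D) (CV D D)) (hval : prAsg M n e c e' u v w = y)
    (hd : (whiskG (insG (diskG (n + 1)) n) n).dim w = n + 1)
    (hs : (whiskG (insG (diskG (n + 1)) n) n).src w = ws)
    (ht : (whiskG (insG (diskG (n + 1)) n) n).tgt w = wt)
    (hvs : prAsg M n e c e' u v ws = s) (hvt : prAsg M n e c e' u v wt = t) :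
    MapAt (whiskG (insG (diskG (n + 1)) n) n) M.toGlob (prAsg M n e c e' u v) w := by
  refine ⟨?_, ?_, fun h0 => ⟨?_, ?_⟩⟩
  · rw [hval]; exact hy
  · rw [hval, hd]; exact dy
  · rw [hval, hs, hvs]; exact sy
  · rw [hval, ht, hvt]; exact ty

theorem prAsg_mapAt {M : Model S} [M.toGlob.Laws] {n : ℕ} {e c e' u v : M.C}
    (he : M.ok e) (hc : M.ok c) (he' : M.ok e') (de : M.dim e = n + 1) (dc : M.dim c = n + 1)
    (de' : M.dim e' = n + 1) (h1 : M.src e = M.src c) (h2 : M.tgt c = M.src e')
    (hu : M.ok u) (du : M.dim u = n + 1) (su : M.src u = M.tgt c) (tu : M.tgt u = M.tgt c)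
    (hv : M.ok v) (dv : M.dim v = n + 1) (sv : M.src v = M.tgt e') (tv : M.tgt v = M.tgt e')
    (w : CV (CV D D) (CV D D)) (hw : (whiskG (insG (diskG (n + 1)) n) n).ok w) :
    MapAt (whiskG (insG (diskG (n + 1)) n) n) M.toGlob (prAsg M n e c e' u v) w := by
  have ge := prgood_src he de
  have ge2 := prgood_tgt he de
  have gc := prgood_src hc dc
  have gc2 := prgood_tgt hc dc
  have ge' := prgood_src he' de'
  have ge'2 := prgood_tgt he' de'
  rw [← h1] at gc
  have gtc : PRGood M n e (M.tgt c) := ge.trans gc gc2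
  rw [← h2] at ge'
  have gte' : PRGood M n e (M.tgt e') := gtc.trans ge' ge'2
  have hne : ¬ (n = n + 1) := by omega
  rcases w with w | w | w
  · rcases w with ⟨i, ε⟩ | ⟨i, ε⟩ | ⟨i, ε⟩
    · -- `z (z q)`
      have hw' : i < n + 1 ∨ (i = n + 1 ∧ ε = false) := hw
      rcases hw' with hi | ⟨rfl, rfl⟩
      · rcases Nat.lt_or_ge i n with hi2 | hi2
        · -- low cells
          have hq : ((i, ε) : D).1 ≤ M.toGlob.dim e := by
            rw [de]; exact hi2.le.trans (Nat.le_succ n)
          refine ⟨?_, ?_, fun h0 => ?_⟩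
          · rw [prAsg_zz_lt hi2]; exact ok_bd he _
          · rw [prAsg_zz_lt hi2]; exact dim_bd he hq
          · have h0' : 0 < i := h0
            have hin : i ≠ n + 1 := by omega
            have e1 : (whiskG (insG (diskG (n + 1)) n) n).src (.z (.z (i, ε))) =
                .z (.z (i - 1, false)) := by
              change CV.z (if i = n + 1 then _ else _) = _
              rw [if_neg hin]; rfl
            have e2 : (whiskG (insG (diskG (n + 1)) n) n).tgt (.z (.z (i, ε))) =
                .z (.z (i - 1, true)) := rfl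
            have e3 : prAsg M n e c e' u v (.z (.z (i, ε))) = M.toGlob.bd e (i, ε) :=
              prAsg_zz_lt hi2
            have e4 : prAsg M n e c e' u v (.z (.z (i - 1, false))) =
                M.toGlob.bd e (i - 1, false) :=
              prAsg_zz_lt (q := (i - 1, false)) (by change i - 1 < n; omega)
            have e5 : prAsg M n e c e' u v (.z (.z (i - 1, true))) =
                M.toGlob.bd e (i - 1, true) :=
              prAsg_zz_lt (q := (i - 1, true)) (by change i - 1 < n; omega)
            exact ⟨(congrArg M.src e3).trans ((src_bd he hq h0').trans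
                ((congrArg (prAsg M n e c e' u v) e1).trans e4).symm),
              (congrArg M.tgt e3).trans ((tgt_bd he hq h0').trans
                ((congrArg (prAsg M n e c e' u v) e2).trans e5).symm)⟩
        · have : i = n := by omega
          subst this
          have e1 : (whiskG (insG (diskG (i + 1)) i) i).src (.z (.z (i, ε))) =
              .z (.z (i - 1, false)) := by
            change CV.z (if i = i + 1 then _ else _) = _
            rw [if_neg hne]; rfl
          cases ε with
          | false => exact pr_cell ge _ prAsg_zz_f rfl (fun _ => e1) (fun _ => rfl)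
          | true => exact pr_cell gte' _ prAsg_zz_t rfl (fun _ => e1) (fun _ => rfl)
      · refine pr_arrow he' de' h2.symm rfl _ (.z (.top (n, false))) (.z (.z (n, true)))
          prAsg_zz_top rfl ?_ rfl prAsg_zt_f prAsg_zz_t
        change CV.z (if n + 1 = n + 1 then _ else _) = _
        rw [if_pos rfl]; rfl
    · have hi : i = n := hw.2
      subst hi
      cases ε with
      | false => exact pr_cell gtc _ prAsg_zt_f rfl (fun _ => rfl) (fun _ => rfl)
      | true => exact pr_cell gte' _ prAsg_zt_t rfl (fun _ => rfl) (fun _ => rfl)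
    · have hi : i = n := hw.2
      subst hi
      cases ε with
      | false =>
        exact pr_arrow hc dc h1.symm rfl _ (.z (.z (i, false))) (.z (.top (i, false)))
          prAsg_zc_f rfl rfl rfl prAsg_zz_f prAsg_zt_f
      | true =>
        exact pr_arrow hv dv sv tv _ (.z (.z (i, true))) (.z (.top (i, true)))
          prAsg_zc_t rfl rfl rfl prAsg_zz_t prAsg_zt_t
  · rcases w with ⟨i, ε⟩ | ⟨i, ε⟩ | ⟨i, ε⟩
    · have hi : i = n := hw.2
      subst hi
      have e1 : (whiskG (insG (diskG (i + 1)) i) i).src (.top (.z (i, ε))) =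
          .z (.z (i - 1, false)) := by
        change CV.z (if i = i + 1 then _ else _) = _
        rw [if_neg hne]; rfl
      cases ε with
      | false => exact pr_cell ge2 _ prAsg_tz_f rfl (fun _ => e1) (fun _ => rfl)
      | true => exact pr_cell gte' _ prAsg_tz_t rfl (fun _ => e1) (fun _ => rfl)
    · have hi : i = n := hw.2
      subst hi
      cases ε with
      | false => exact pr_cell gtc _ prAsg_tt_f rfl (fun _ => rfl) (fun _ => rfl)
      | true => exact pr_cell gte' _ prAsg_tt_t rfl (fun _ => rfl) (fun _ => rfl)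
    · exfalso
      have hi : i = n := hw.1.2
      have hi2 : i + 1 = n := hw.2
      omega
  · rcases w with ⟨i, ε⟩ | ⟨i, ε⟩ | ⟨i, ε⟩
    · have hi : i = n := hw.2
      subst hi
      cases ε with
      | false =>
        exact pr_arrow he de rfl rfl _ (.z (.z (i, false))) (.top (.z (i, false)))
          prAsg_cz_f rfl rfl rfl prAsg_zz_f prAsg_tz_f
      | true =>
        exact pr_arrow hv dv sv tv _ (.z (.z (i, true))) (.top (.z (i, true)))
          prAsg_cz_t rfl rfl rfl prAsg_zz_t prAsg_tz_t
    · have hi : i = n := hw.2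
      subst hi
      cases ε with
      | false =>
        exact pr_arrow hu du su tu _ (.z (.top (i, false))) (.top (.top (i, false)))
          prAsg_ct_f rfl rfl rfl prAsg_zt_f prAsg_tt_f
      | true =>
        exact pr_arrow hv dv sv tv _ (.z (.top (i, true))) (.top (.top (i, true)))
          prAsg_ct_t rfl rfl rfl prAsg_zt_t prAsg_tt_t
    · exfalso
      have hi : i = n := hw.1.2
      have hi2 : i + 1 = n := hw.2
      omega

/-! the disk in the whiskered arity whose top cell is the whisker, and its homotopy -/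

/-- base end -/
noncomputable def prPsi (S : Sig) (n : ℕ) (q : D) : S.T (CV (CV D D) (CV D D)) :=
  if q.1 < n then .var (.z (.z q)) else if q = (n, false) then .var (.z (.z (n, false))) else
    if q = (n, true) then .var (.top (.z (n, false))) else .var (.cyl (.z (n, false)))

/-- top end -/
noncomputable def prBeta (S : Sig) (n : ℕ) (q : D) : S.T (CV (CV D D) (CV D D)) :=
  if q.1 < n then .var (.z (.z q)) else if q = (n, false) then .var (.z (.top (n, false))) else
    .var (.z (.z (n, true)))

/-- cylinder cells -/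
noncomputable def prE (n : ℕ) (P : S.T (CV (CV D D) (CV D D))) (q : D) :
    S.T (CV (CV D D) (CV D D)) :=
  if q = (n, false) then .var (.z (.cyl (n, false))) else P

theorem prPsi_lt {n : ℕ} {q : D} (h : q.1 < n) : prPsi S n q = .var (.z (.z q)) := by
  simp only [prPsi, if_pos h]
theorem prPsi_f {n : ℕ} : prPsi S n (n, false) = .var (.z (.z (n, false))) := by
  simp [prPsi]
theorem prPsi_t {n : ℕ} : prPsi S n (n, true) = .var (.top (.z (n, false))) := by
  simp [prPsi]
theorem prPsi_top {n : ℕ} : prPsi S n (n + 1, false) = .var (.cyl (.z (n, false))) := by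
  simp [prPsi]
theorem prBeta_lt {n : ℕ} {q : D} (h : q.1 < n) : prBeta S n q = .var (.z (.z q)) := by
  simp only [prBeta, if_pos h]
theorem prBeta_f {n : ℕ} : prBeta S n (n, false) = .var (.z (.top (n, false))) := by
  simp [prBeta]
theorem prBeta_t {n : ℕ} : prBeta S n (n, true) = .var (.z (.z (n, true))) := by
  simp [prBeta]
theorem prE_f {n : ℕ} {P : S.T (CV (CV D D) (CV D D))} :
    prE n P (n, false) = .var (.z (.cyl (n, false))) := by
  simp [prE]
theorem prE_t {n : ℕ} {P : S.T (CV (CV D D) (CV D D))} : prE n P (n, true) = P := by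
  simp [prE]

theorem pr_ok_z {n : ℕ} {q : D} (hq : (diskG (n + 1)).ok q) :
    (whiskG (insG (diskG (n + 1)) n) n).ok (.z (.z q)) := hq

theorem pr_src_zz {n i : ℕ} {ε : Bool} (h : i ≤ n) :
    (whiskG (insG (diskG (n + 1)) n) n).src (.z (.z (i, ε))) = .z (.z (i - 1, false)) := by
  change CV.z (if i = n + 1 then _ else _) = _
  rw [if_neg (by omega)]; rfl

theorem pr_src_tz {n i : ℕ} {ε : Bool} (h : i ≤ n) :
    (whiskG (insG (diskG (n + 1)) n) n).src (.top (.z (i, ε))) = .z (.z (i - 1, false)) := by
  change CV.z (if i = n + 1 then _ else _) = _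
  rw [if_neg (by omega)]; rfl

theorem pr_src_top {n : ℕ} :
    (whiskG (insG (diskG (n + 1)) n) n).src (.z (.z (n + 1, false))) = .z (.top (n, false)) := by
  change CV.z (if n + 1 = n + 1 then _ else _) = _
  rw [if_pos rfl]; rfl

theorem prPsi_asg {n : ℕ} (q : D) (hq : (diskG (n + 1)).ok q) :
    MapAt (diskG (n + 1)) (Wh S (insG (diskG (n + 1)) n) n).m.toGlob (prPsi S n) q := by
  obtain ⟨i, ε⟩ := q
  have hq' : i < n + 1 ∨ (i = n + 1 ∧ ε = false) := hq
  rcases hq' with hi | ⟨rfl, rfl⟩
  · rcases Nat.lt_or_ge i n with hi2 | hi2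
    · refine ⟨?_, ?_, fun h0 => ⟨?_, ?_⟩⟩
      · rw [prPsi_lt hi2]; exact hq
      · rw [prPsi_lt hi2]; rfl
      · have h0' : 0 < i := h0
        refine (congrArg _ (prPsi_lt (S := S) (q := (i, ε)) hi2)).trans ?_
        refine Eq.trans ?_ (prPsi_lt (S := S) (q := (i - 1, false))
          (by change i - 1 < n; omega)).symm
        exact congrArg Tm.var (pr_src_zz hi2.le)
      · have h0' : 0 < i := h0
        refine (congrArg _ (prPsi_lt (S := S) (q := (i, ε)) hi2)).trans ?_
        refine Eq.trans ?_ (prPsi_lt (S := S) (q := (i - 1, true))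
          (by change i - 1 < n; omega)).symm
        rfl
    · have : i = n := by omega
      subst this
      cases ε with
      | false =>
        refine ⟨?_, ?_, fun h0 => ⟨?_, ?_⟩⟩
        · rw [prPsi_f]; exact hq
        · rw [prPsi_f]; rfl
        · have h0' : 0 < i := h0
          refine (congrArg _ (prPsi_f (S := S))).trans ?_
          refine Eq.trans ?_ (prPsi_lt (S := S) (q := (i - 1, false))
            (by change i - 1 < i; omega)).symm
          exact congrArg Tm.var (pr_src_zz (le_refl _))
        · have h0' : 0 < i := h0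
          refine (congrArg _ (prPsi_f (S := S))).trans ?_
          refine Eq.trans ?_ (prPsi_lt (S := S) (q := (i - 1, true))
            (by change i - 1 < i; omega)).symm
          rfl
      | true =>
        refine ⟨?_, ?_, fun h0 => ⟨?_, ?_⟩⟩
        · rw [prPsi_t]; exact ⟨Or.inl (Nat.lt_succ_self i), rfl⟩
        · rw [prPsi_t]; rfl
        · have h0' : 0 < i := h0
          refine (congrArg _ (prPsi_t (S := S))).trans ?_
          refine Eq.trans ?_ (prPsi_lt (S := S) (q := (i - 1, false))
            (by change i - 1 < i; omega)).symm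
          exact congrArg Tm.var (pr_src_tz (le_refl _))
        · have h0' : 0 < i := h0
          refine (congrArg _ (prPsi_t (S := S))).trans ?_
          refine Eq.trans ?_ (prPsi_lt (S := S) (q := (i - 1, true))
            (by change i - 1 < i; omega)).symm
          rfl
  · refine ⟨?_, ?_, fun h0 => ⟨?_, ?_⟩⟩
    · rw [prPsi_top]; exact ⟨Or.inl (Nat.lt_succ_self n), rfl⟩
    · rw [prPsi_top]; rfl
    · refine (congrArg _ (prPsi_top (S := S))).trans ?_
      exact (prPsi_f (S := S)).symm
    · refine (congrArg _ (prPsi_top (S := S))).trans ?_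
      exact (prPsi_t (S := S)).symm

theorem prBeta_map {n : ℕ} (ε : Bool) :
    MapAt (diskG (n + 1)) (Wh S (insG (diskG (n + 1)) n) n).m.toGlob (prBeta S n) (n, ε) := by
  cases ε with
  | false =>
    refine ⟨?_, ?_, fun h0 => ⟨?_, ?_⟩⟩
    · rw [prBeta_f]; exact ⟨Or.inl (Nat.lt_succ_self n), rfl⟩
    · rw [prBeta_f]; rfl
    · have h0' : 0 < n := h0
      refine (congrArg _ (prBeta_f (S := S))).trans ?_
      refine Eq.trans ?_ (prBeta_lt (S := S) (q := (n - 1, false))
        (by change n - 1 < n; omega)).symm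
      rfl
    · have h0' : 0 < n := h0
      refine (congrArg _ (prBeta_f (S := S))).trans ?_
      refine Eq.trans ?_ (prBeta_lt (S := S) (q := (n - 1, true))
        (by change n - 1 < n; omega)).symm
      rfl
  | true =>
    refine ⟨?_, ?_, fun h0 => ⟨?_, ?_⟩⟩
    · rw [prBeta_t]; exact Or.inl (Nat.lt_succ_self n)
    · rw [prBeta_t]; rfl
    · have h0' : 0 < n := h0
      refine (congrArg _ (prBeta_t (S := S))).trans ?_
      refine Eq.trans ?_ (prBeta_lt (S := S) (q := (n - 1, false))
        (by change n - 1 < n; omega)).symm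
      exact congrArg Tm.var (pr_src_zz (le_refl _))
    · have h0' : 0 < n := h0
      refine (congrArg _ (prBeta_t (S := S))).trans ?_
      refine Eq.trans ?_ (prBeta_lt (S := S) (q := (n - 1, true))
        (by change n - 1 < n; omega)).symm
      rfl

theorem exists_PR [S.Good] [S.Strat] (h : S.Hyp) {x : XFam S} {n L : ℕ} (hA : AOK S L n)
    (hn : n < L) (hx : XGood x n L) {M : Model S} [M.OpLaws] [M.toGlob.Laws] {e c e' : M.C}
    (he : M.ok e) (hc : M.ok c) (he' : M.ok e') (de : M.dim e = n + 1) (dc : M.dim c = n + 1)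
    (de' : M.dim e' = n + 1) (h1 : M.src e = M.src c) (h2 : M.tgt c = M.src e') :
    ∃ P, M.ok P ∧ M.dim P = n + 1 ∧ M.src P = M.tgt e ∧ M.tgt P = M.tgt e' ∧
      (n + 1 < L → ∃ R, M.ok R ∧ M.dim R = n + 2 ∧ M.tgt R = e' ∧
        ∀ G : CV D D → M.C, G (.z (n + 1, false)) = e → G (.z (n, false)) = M.src e →
          G (.z (n, true)) = M.tgt e → (∀ q : D, q.1 < n → G (.z q) = M.toGlob.bd e q) →
          G (.top (n, false)) = M.tgt c → G (.top (n, true)) = M.tgt e' →
          G (.cyl (n, false)) = c → G (.cyl (n, true)) = P → M.src R = M.eval G (x (n + 1))) := by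
  have gtc := prgood_tgt hc dc
  have gte' := prgood_tgt he' de'
  obtain ⟨u, hu, du, su, tu⟩ := exists_unit h (y := M.tgt c) gtc.ok
  obtain ⟨v, hv, dv, sv, tv⟩ := exists_unit h (y := M.tgt e') gte'.ok
  have du' : M.dim u = n + 1 := du.trans (congrArg (· + 1) gtc.dim)
  have dv' : M.dim v = n + 1 := dv.trans (congrArg (· + 1) gte'.dim)
  have hγ : ∀ w, (Wh S (insG (diskG (n + 1)) n) n).ok w →
      AsgAt (Wh S (insG (diskG (n + 1)) n) n) M (prAsg M n e c e' u v) w := fun w hw =>
    prAsg_mapAt he hc he' de dc de' h1 h2 hu du' su tu hv dv' sv tv w hw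
  have hmap := fun t ht => eval_mapAt hγ t ht
  have hB := hA (insG (diskG (n + 1)) n) (ArCl.ins _ n (ArCl.disk (n + 1)))
  -- the cell P
  obtain ⟨P, P1, P2, P3, P4⟩ := hB (.var (.top (.z (n, false)))) (.var (.z (.z (n, true))))
    (by
      refine ⟨⟨Or.inl (Nat.lt_succ_self n), rfl⟩, Or.inl (Nat.lt_succ_self n), rfl,
        fun h0 => ⟨?_, ?_⟩⟩
      · exact congrArg Tm.var ((pr_src_tz (le_refl n)).trans (pr_src_zz (le_refl n)).symm)
      · rfl) hn
  obtain ⟨P5, P6, P7⟩ := hmap P P1
  obtain ⟨P8, P9⟩ := P7 (by rw [P2]; exact Nat.succ_pos _)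
  refine ⟨M.eval (prAsg M n e c e' u v) P, P5, P6.trans P2, ?_, ?_, ?_⟩
  · exact P8.trans ((congrArg _ P3).trans (prAsg_tz_f (c := c) (u := u) (v := v)))
  · exact P9.trans ((congrArg _ P4).trans (prAsg_zz_t (c := c) (u := u) (v := v)))
  intro hnL
  -- the substitution
  have hxg : ∀ j, n ≤ j → j < n + 1 → XGoodAt x n j := fun j j1 j2 => hx.at' j j1 (by omega)
  have hσ : IsAsg (n + 2) (CylG x (diskG (n + 1)) n (n + 1))
      (Wh S (insG (diskG (n + 1)) n) n).m (CV.elim (prPsi S n) (prBeta S n) (prE n P)) := by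
    refine Cyl_asg (W := diskG (n + 1)) (Z := ofGlob S (diskG (n + 1))) (φ := Tm.var) hxg
      (fun q hq _ => prPsi_asg q hq) ?_ ?_ ?_
    · rintro ⟨i, ε⟩ hq j1 j2
      have : i = n := by
        have j1' : n ≤ i := j1
        have j2' : i < n + 1 := j2
        omega
      subst this
      exact prBeta_map ε
    · rintro ⟨i, ε⟩ hq j1 j2
      exact (prPsi_lt j1).trans (prBeta_lt j1).symm
    · rintro ⟨i, ε⟩ hq j1 j2
      have : i = n := by
        have j1' : n ≤ i := j1
        have j2' : i < n + 1 := j2
        omega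
      subst this
      cases ε with
      | false =>
        refine ⟨?_, ?_, ?_, ?_⟩
        · rw [prE_f]; exact ⟨Or.inl (Nat.lt_succ_self i), rfl⟩
        · rw [prE_f]; rfl
        · refine Eq.trans ?_ (cs_base hx.base (W := diskG (i + 1))
            (p := ((i, false) : D)) rfl).symm
          refine (congrArg _ (prE_f (S := S))).trans ?_
          exact (prPsi_f (S := S)).symm
        · refine (congrArg _ (prE_f (S := S))).trans ?_
          exact (prBeta_f (S := S)).symm
      | true =>
        refine ⟨?_, ?_, ?_, ?_⟩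
        · rw [prE_t]; exact P1
        · rw [prE_t]; exact P2
        · refine Eq.trans ?_ (cs_base hx.base (W := diskG (i + 1))
            (p := ((i, true) : D)) rfl).symm
          refine (congrArg _ (prE_t (S := S))).trans ?_
          exact P3.trans (prPsi_t (S := S)).symm
        · refine (congrArg _ (prE_t (S := S))).trans ?_
          exact P4.trans (prBeta_t (S := S)).symm
  obtain ⟨x1, x2, x3⟩ := hx.at' (n + 1) (Nat.le_succ n) hn
  obtain ⟨x4, x5⟩ := x3 (Nat.succ_pos n)
  obtain ⟨t1, t2, t3⟩ := eval_isMap hσ (x (n + 1)) x1 (lt_of_eq_of_lt x2 (Nat.lt_succ_self _))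
  obtain ⟨t4, t5⟩ := t3 (lt_of_lt_of_eq (Nat.succ_pos n) x2.symm)
  have tpn : ∀ ε : Bool, tpG S (diskG (n + 1)) n (n, ε) = .var (.top (n, ε)) := by
    intro ε
    exact if_pos (le_refl n)
  have t6 := t4.trans (congrArg _ (x4.trans (tpn false)))
  have t7 := t5.trans (congrArg _ (x5.trans (tpn true)))
  have t8 := t2.trans x2
  -- the filler
  obtain ⟨R, R1, R2, R3, R4⟩ := hB _ (.var (.z (.z (n + 1, false)))) (by
      refine ⟨t1, Or.inr ⟨rfl, rfl⟩, t8, fun h0 => ⟨?_, ?_⟩⟩
      · refine t6.trans ((prBeta_f (S := S)).trans ?_)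
        exact congrArg Tm.var pr_src_top.symm
      · exact t7.trans (prBeta_t (S := S))) (lt_of_eq_of_lt t8 hnL)
  obtain ⟨R5, R6, R7⟩ := hmap R R1
  have R2' := R2.trans (congrArg (· + 1) t8)
  obtain ⟨R8, R9⟩ := R7 (lt_of_lt_of_eq (Nat.succ_pos _) R2'.symm)
  refine ⟨M.eval (prAsg M n e c e' u v) R, R5, R6.trans R2', ?_, ?_⟩
  · exact R9.trans ((congrArg _ R4).trans (prAsg_zz_top (c := c) (u := u) (v := v)))
  intro G g1 g2 g3 g4 g5 g6 g7 g8
  refine R8.trans ((congrArg _ R3).trans ?_)
  refine (eval_bind M (prAsg M n e c e' u v) _ (x (n + 1))).trans ?_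
  refine eval_congr (X := CylG x (diskG (n + 1)) n (n + 1)) (x (n + 1)) x1 ?_
  intro w hw
  rcases w with ⟨i, ε⟩ | ⟨i, ε⟩ | ⟨i, ε⟩
  · have hw' : i < n + 1 ∨ (i = n + 1 ∧ ε = false) := hw
    rcases hw' with hi | ⟨rfl, rfl⟩
    · rcases Nat.lt_or_ge i n with hi2 | hi2
      · refine (congrArg (M.eval (prAsg M n e c e' u v)) (prPsi_lt (S := S)
          (q := (i, ε)) hi2)).trans ?_
        exact (prAsg_zz_lt (c := c) (u := u) (v := v) (q := (i, ε)) hi2).trans (g4 _ hi2).symm
      · have : i = n := by omega
        subst this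
        cases ε with
        | false =>
          refine (congrArg (M.eval (prAsg M i e c e' u v)) (prPsi_f (S := S))).trans ?_
          exact (prAsg_zz_f (c := c) (e' := e') (u := u) (v := v)).trans g2.symm
        | true =>
          refine (congrArg (M.eval (prAsg M i e c e' u v)) (prPsi_t (S := S))).trans ?_
          exact (prAsg_tz_f (c := c) (e' := e') (u := u) (v := v)).trans g3.symm
    · refine (congrArg (M.eval (prAsg M n e c e' u v)) (prPsi_top (S := S))).trans ?_
      exact (prAsg_cz_f (c := c) (e' := e') (u := u) (v := v)).trans g1.symm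
  · have : i = n := by
      have j1' : n ≤ i := hw.2.1
      have j2' : i < n + 1 := hw.2.2
      omega
    subst this
    cases ε with
    | false =>
      refine (congrArg (M.eval (prAsg M i e c e' u v)) (prBeta_f (S := S))).trans ?_
      exact (prAsg_zt_f (e := e) (c := c) (e' := e') (u := u) (v := v)).trans g5.symm
    | true =>
      refine (congrArg (M.eval (prAsg M i e c e' u v)) (prBeta_t (S := S))).trans ?_
      exact (prAsg_zz_t (e := e) (c := c) (u := u) (v := v)).trans g6.symm
  · have : i = n := by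
      have j1' : n ≤ i := hw.2.1
      have j2' : i < n + 1 := hw.2.2
      omega
    subst this
    cases ε with
    | false =>
      refine (congrArg (M.eval (prAsg M i e c e' u v)) (prE_f (S := S))).trans ?_
      exact (prAsg_zc_f (e := e) (c := c) (e' := e') (u := u) (v := v)).trans g7.symm
    | true =>
      refine (congrArg (M.eval (prAsg M i e c e' u v)) (prE_t (S := S))).trans ?_
      exact g8.symm

end HH
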