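import Pool.Agent.HH.Rank
import Pool.Agent.HH.Bd
import Pool.Agent.HH.CSLem
import Pool.Agent.HH.CylUP
import Pool.Agent.HH.ExtF
import Pool.Agent.HH.ExtCyl
import Pool.Agent.HH.DiskOp
set_option autoImplicit false
namespace HH
open Classical
variable {S : Sig}

/-! ## 23 UnitH -/

/-- `cs` at a variable only depends on the data in lower dimensions -/
theorem unitH_cs_congr [S.Good] [S.Strat] {x : XFam S} {Q : QFam S} {n L : ℕ}
    (hx : XGood x n L) {X : Cptd S} [X.Good] {M : Model S} {α β e β' e' : X.V → M.C} {v : X.V}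
    (hv : X.ok v) (hn : n ≤ X.dim v) (hL : X.dim v < L)
    (hβ : ∀ w, X.ok w → X.dim w < X.dim v → β w = β' w)
    (he : ∀ w, X.ok w → X.dim w < X.dim v → e w = e' w) :
    cs M x X.m.toGlob (M.eval α) (M.eval β) (ext M Q α β e) (.var v) =
      cs M x X.m.toGlob (M.eval α) (M.eval β') (ext M Q α β' e') (.var v) := by
  have hd : ∀ q : D, q.1 < X.dim v → X.tok (X.m.toGlob.bd (.var v) q) ∧
      X.tdim (X.m.toGlob.bd (.var v) q) < X.dim v := by
    intro q hq
    have h1 : X.m.toGlob.ok (.var v) := hv
    refine ⟨ok_bd h1 q, ?_⟩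
    have h2 : X.m.toGlob.dim (X.m.toGlob.bd (.var v) q) = q.1 := dim_bd h1 hq.le
    exact lt_of_eq_of_lt h2 hq
  refine cs_congr (N := n) (hx.at' (X.dim v) hn hL.le).1 (fun _ _ => rfl) ?_ ?_
  · intro q _ hq
    exact eval_congr_lt _ (hd q hq).1 (hd q hq).2 hβ
  · intro q _ hq
    exact ext_congr (fun _ _ _ => rfl) hβ he (hd q hq).1 (hd q hq).2

theorem exists_unit_homotopy [S.Good] [S.Strat] (h : S.Hyp) {x : XFam S} {Q : QFam S} {n L : ℕ}
    (hx : XGood x n L) (hQ : QGood x Q n L) {X : Cptd S} [hX : X.Good] {M : Model S} [M.OpLaws]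
    [M.toGlob.Laws] {α : X.V → M.C} (hα : IsAsg L X M α) :
    ∃ β e : X.V → M.C, IsAsg L X M β ∧ (∀ v, X.ok v → X.dim v ≤ n → X.dim v < L → β v = α v) ∧
      IsCyl x n L X.m.toGlob M (M.eval α) (M.eval β) (ext M Q α β e) := by
  rcases isEmpty_or_nonempty X.V with hV | ⟨⟨v0⟩⟩
  · exact ⟨α, α, hα, fun _ _ _ _ => rfl, ext_isCyl (fun j h1 h2 => hx.at' j h1 h2.le) hQ hα hα
      (fun _ _ _ _ => rfl) (fun v => (hV.false v).elim)⟩
  have : Nonempty (M.C × M.C) := ⟨(α v0, α v0)⟩
  obtain ⟨t, ht⟩ := exists_ranked (I := X.V) X.dim (T := fun _ => M.C × M.C)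
    (fun v t => X.ok v → X.dim v < L → AsgAt X M (fun w => (t w).1) v ∧
      (X.dim v ≤ n → (t v).1 = α v) ∧
      (n ≤ X.dim v → CylAt M x X.m.toGlob (M.eval α) (M.eval fun w => (t w).1)
        (ext M Q α (fun w => (t w).1) (fun w => (t w).2)) (.var v)))
    (by
      intro v t t' hlow hvv hP hv hL
      obtain ⟨⟨p1, p2, p3⟩, p4, p5⟩ := hP hv hL
      have hβ : ∀ w, X.ok w → X.dim w < X.dim v → (fun w => (t w).1) w = (fun w => (t' w).1) w :=
        fun w _ hw => congrArg Prod.fst (hlow w hw)
      have he : ∀ w, X.ok w → X.dim w < X.dim v → (fun w => (t w).2) w = (fun w => (t' w).2) w :=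
        fun w _ hw => congrArg Prod.snd (hlow w hw)
      have hv1 : (t' v).1 = (t v).1 := congrArg Prod.fst hvv.symm
      have hv2 : (t' v).2 = (t v).2 := congrArg Prod.snd hvv.symm
      refine ⟨⟨?_, ?_, fun h0 => ⟨?_, ?_⟩⟩, fun h1 => ?_, fun h1 => ?_⟩
      · change M.ok (t' v).1
        rw [hv1]; exact p1
      · change M.dim (t' v).1 = _
        rw [hv1]; exact p2
      · change M.src (t' v).1 = _
        rw [hv1]
        refine (p3 h0).1.trans ?_
        refine eval_congr_lt (L := X.dim v) (X.src v) (hX.ok_src v hv h0) ?_ hβ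
        have := hX.dim_src v hv h0
        omega
      · change M.tgt (t' v).1 = _
        rw [hv1]
        refine (p3 h0).2.trans ?_
        refine eval_congr_lt (L := X.dim v) (X.tgt v) (hX.ok_tgt v hv h0) ?_ hβ
        have := hX.dim_tgt v hv h0
        omega
      · rw [hv1]; exact p4 h1
      · obtain ⟨q1, q2, q3, q4⟩ := p5 h1
        refine ⟨?_, ?_, ?_, ?_⟩
        · change M.ok (t' v).2
          rw [hv2]; exact q1
        · change M.dim (t' v).2 = _
          rw [hv2]; exact q2
        · change M.src (t' v).2 = _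
          rw [hv2]
          exact q3.trans (unitH_cs_congr hx hv h1 hL hβ he)
        · change M.tgt (t' v).2 = (t' v).1
          rw [hv2, hv1]; exact q4)
    (by
      intro v t hlow
      by_cases hvL : X.ok v ∧ X.dim v < L
      swap
      · exact ⟨t, fun _ _ => rfl, fun h1 h2 => absurd ⟨h1, h2⟩ hvL⟩
      obtain ⟨hv, hL⟩ := hvL
      have hlow' : ∀ w, X.ok w → X.dim w < X.dim v → _ := fun w hw hlt =>
        hlow w hlt hw (hlt.trans hL)
      -- general step
      have key : ∀ y u : M.C, M.ok y → M.dim y = X.dim v →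
          (0 < X.dim v → M.src y = M.eval (fun w => (t w).1) (X.src v) ∧
            M.tgt y = M.eval (fun w => (t w).1) (X.tgt v)) →
          (X.dim v ≤ n → y = α v) →
          (n ≤ X.dim v → M.ok u ∧ M.dim u = X.dim v + 1 ∧
            M.src u = cs M x X.m.toGlob (M.eval α) (M.eval fun w => (t w).1)
              (ext M Q α (fun w => (t w).1) (fun w => (t w).2)) (.var v) ∧ M.tgt u = y) →
          ∃ t' : ∀ _ : X.V, M.C × M.C, (∀ w, X.dim w < X.dim v → t' w = t w) ∧
            (X.ok v → X.dim v < L → AsgAt X M (fun w => (t' w).1) v ∧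
              (X.dim v ≤ n → (t' v).1 = α v) ∧
              (n ≤ X.dim v → CylAt M x X.m.toGlob (M.eval α) (M.eval fun w => (t' w).1)
                (ext M Q α (fun w => (t' w).1) (fun w => (t' w).2)) (.var v))) := by
        intro y u y1 y2 y3 y4 u1
        refine ⟨fun w => if w = v then (y, u) else t w, ?_, ?_⟩
        · intro w hw
          have : w ≠ v := by
            rintro rfl
            exact lt_irrefl _ hw
          exact if_neg this
        intro _ _
        have hne : ∀ w, X.dim w < X.dim v → w ≠ v := by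
          rintro w hw rfl
          exact lt_irrefl _ hw
        have hv0 : (if v = v then (y, u) else t v) = (y, u) := if_pos rfl
        have hβ : ∀ w, X.ok w → X.dim w < X.dim v →
            (fun w => (t w).1) w = (fun w => (if w = v then (y, u) else t w).1) w := by
          intro w _ hw
          change (t w).1 = (if w = v then (y, u) else t w).1
          rw [if_neg (hne w hw)]
        have he : ∀ w, X.ok w → X.dim w < X.dim v →
            (fun w => (t w).2) w = (fun w => (if w = v then (y, u) else t w).2) w := by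
          intro w _ hw
          change (t w).2 = (if w = v then (y, u) else t w).2
          rw [if_neg (hne w hw)]
        refine ⟨⟨?_, ?_, fun h0 => ⟨?_, ?_⟩⟩, fun h1 => ?_, fun h1 => ?_⟩
        · change M.ok (if v = v then (y, u) else t v).1
          rw [hv0]; exact y1
        · change M.dim (if v = v then (y, u) else t v).1 = _
          rw [hv0]; exact y2
        · change M.src (if v = v then (y, u) else t v).1 = _
          rw [hv0]
          refine (y3 h0).1.trans ?_
          refine eval_congr_lt (L := X.dim v) (X.src v) (hX.ok_src v hv h0) ?_ hβ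
          have := hX.dim_src v hv h0
          omega
        · change M.tgt (if v = v then (y, u) else t v).1 = _
          rw [hv0]
          refine (y3 h0).2.trans ?_
          refine eval_congr_lt (L := X.dim v) (X.tgt v) (hX.ok_tgt v hv h0) ?_ hβ
          have := hX.dim_tgt v hv h0
          omega
        · change (if v = v then (y, u) else t v).1 = _
          rw [hv0]; exact y4 h1
        · obtain ⟨u1, u2, u3, u4⟩ := u1 h1
          refine ⟨?_, ?_, ?_, ?_⟩
          · change M.ok (if v = v then (y, u) else t v).2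
            rw [hv0]; exact u1
          · change M.dim (if v = v then (y, u) else t v).2 = _
            rw [hv0]; exact u2
          · change M.src (if v = v then (y, u) else t v).2 = _
            rw [hv0]
            exact u3.trans (unitH_cs_congr hx hv h1 hL hβ he)
          · change M.tgt (if v = v then (y, u) else t v).2 = (if v = v then (y, u) else t v).1
            rw [hv0]; exact u4
      obtain ⟨a1, a2, a3⟩ := hα v hv hL
      rcases Nat.lt_or_ge (X.dim v) n with hvn | hvn
      · refine key (α v) (α v) a1 a2 (fun h0 => ?_) (fun _ => rfl) (fun h1 => by omega)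
        obtain ⟨a4, a5⟩ := a3 h0
        have hαβ : ∀ w, X.ok w → X.dim w < X.dim v → α w = (t w).1 := fun w hw hlt =>
          ((hlow' w hw hlt).2.1 (hlt.le.trans hvn.le)).symm
        refine ⟨a4.trans ?_, a5.trans ?_⟩
        · refine eval_congr_lt (L := X.dim v) (X.src v) (hX.ok_src v hv h0) ?_ hαβ
          have := hX.dim_src v hv h0
          omega
        · refine eval_congr_lt (L := X.dim v) (X.tgt v) (hX.ok_tgt v hv h0) ?_ hαβ
          have := hX.dim_tgt v hv h0
          omega
      · have hcyl : IsCyl x n (X.dim v) X.m.toGlob M (M.eval α) (M.eval fun w => (t w).1)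
            (ext M Q α (fun w => (t w).1) (fun w => (t w).2)) := by
          refine ext_isCyl (fun j h1 h2 => hx.at' j h1 (h2.trans hL).le)
            (fun k hk h1 h2 => hQ k hk h1 (h2.trans hL)) (fun w hw hlt => hα w hw (hlt.trans hL))
            (fun w hw hlt => (hlow' w hw hlt).1)
            (fun w hw h1 hlt => ((hlow' w hw hlt).2.1 h1.le).symm)
            (fun w hw h1 hlt => (hlow' w hw hlt).2.2 h1)
        have hmα := eval_isMap hα
        have hd : ∀ r : D, r.1 ≤ X.dim v → X.tok (X.m.toGlob.bd (.var v) r) ∧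
            X.tdim (X.m.toGlob.bd (.var v) r) = r.1 := by
          intro r hr
          have h1 : X.m.toGlob.ok (.var v) := hv
          exact ⟨ok_bd h1 r, dim_bd h1 hr⟩
        obtain ⟨c1, c2, c3⟩ := cs_spec (W := X.m.toGlob) (p := .var v) (N := n) hv hvn
          (fun j h1 h2 => hx.at' j h1 (le_of_lt (lt_of_le_of_lt h2 hL)))
          (fun r hr => hmα _ (hd r hr).1 (lt_of_eq_of_lt (hd r hr).2 (lt_of_le_of_lt hr hL)))
          (fun r hr => hcyl.mapβ _ (hd r hr.le).1 (lt_of_eq_of_lt (hd r hr.le).2 hr))
          (fun r h1 hr => hcyl.low _ (hd r hr.le).1 (lt_of_eq_of_lt (hd r hr.le).2 h1)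
            (lt_of_eq_of_lt (hd r hr.le).2 hr))
          (fun r h1 hr => hcyl.cyl _ (hd r hr.le).1 (h1.trans_eq (hd r hr.le).2.symm)
            (lt_of_eq_of_lt (hd r hr.le).2 hr))
        obtain ⟨u, u1, u2, u3, u4⟩ := exists_unit h c1
        refine key _ u c1 c2 c3 (fun h1 => ?_) (fun _ => ⟨u1, u2.trans ?_, u3, u4⟩)
        · have : X.m.toGlob.dim (.var v) = n := le_antisymm h1 hvn
          exact cs_base hx.base this
        · exact congrArg (· + 1) c2)
  refine ⟨fun w => (t w).1, fun w => (t w).2, fun v hv hL => (ht v hv hL).1,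
    fun v hv h1 hL => (ht v hv hL).2.1 h1, ?_⟩
  exact ext_isCyl (fun j h1 h2 => hx.at' j h1 h2.le) hQ hα (fun v hv hL => (ht v hv hL).1)
    (fun v hv h1 hL => ((ht v hv hL).2.1 h1.le).symm)
    (fun v hv h1 hL => (ht v hv hL).2.2 h1)

end HH
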