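import Pool.Agent.HH.Bd
import Pool.Agent.HH.Retract
import Pool.Agent.HH.CSLem
import Pool.Agent.HH.CylUP
import Pool.Agent.HH.CylGood
import Pool.Agent.HH.ExtF
import Pool.Agent.HH.ExtCyl
import Pool.Agent.HH.Transport
import Pool.Agent.HH.Rev
import Pool.Agent.HH.UnitH
import Pool.Agent.HH.PR
set_option autoImplicit false
namespace HH
open Classical
variable {S : Sig}

/-! ## 25 EStrong -/

theorem estrong_ext_map {M : Model S} {Q : QFam S} {V W : Type} (f : V → W) (α β e : W → M.C)
    (t : S.T V) :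
    ext M Q α β e (t.map f) = ext M Q (fun v => α (f v)) (fun v => β (f v)) (fun v => e (f v)) t := by
  induction t with
  | var v => rfl
  | op k γ ih =>
    rw [Tm.map_op, ext, ext]
    congr 1
    funext v
    cases v with
    | z p => exact eval_map M α f (γ p)
    | top p => exact eval_map M β f (γ p)
    | cyl p => exact ih p

/-- transfer of `CylAt` along a map of globular sets which respects iterated boundaries -/
theorem estrong_cylAt {M : Model S} {x : XFam S} {W W' : Glob} {f : W'.C → W.C}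
    {α β e : W.C → M.C} {p : W'.C} (hd : W.dim (f p) = W'.dim p)
    (hf : ∀ q, f (W'.bd p q) = W.bd (f p) q)
    (h : CylAt M x W' (fun p => α (f p)) (fun p => β (f p)) (fun p => e (f p)) p) :
    CylAt M x W α β e (f p) := by
  obtain ⟨h1, h2, h3, h4⟩ := h
  refine ⟨h1, ?_, ?_, h4⟩
  · rw [hd]; exact h2
  · rw [← cs_comp x f α β e p hd hf]
    exact h3

/-- iterated boundaries commute with renaming along `z` -/
theorem estrong_bd_map {X : Cptd S} {I : Type} {okI : I → Prop} {n : ℕ} {b : I → S.T X.V}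
    (t : S.T X.V) (q : D) :
    (X.m.toGlob.bd t q).map CV.z = (X.exp okI n b).m.toGlob.bd (t.map CV.z) q := by
  have hd : ∀ s : S.T X.V, (X.exp okI n b).tdim (s.map CV.z) = X.tdim s := by
    intro s
    cases s <;> rfl
  have hs : ∀ s : S.T X.V, (X.exp okI n b).tsrc (s.map CV.z) = (X.tsrc s).map CV.z := by
    intro s
    cases s with
    | var v => rfl
    | op k γ =>
      exact (Tm.bind_bind (S.bs k) γ _).symm
  have ht : ∀ s : S.T X.V, (X.exp okI n b).ttgt (s.map CV.z) = (X.ttgt s).map CV.z := by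
    intro s
    cases s with
    | var v => rfl
    | op k γ =>
      exact (Tm.bind_bind (S.bt k) γ _).symm
  unfold Glob.bd
  have hd' : (X.exp okI n b).m.toGlob.dim (t.map CV.z) = X.m.toGlob.dim t := hd t
  rw [hd']
  generalize X.m.toGlob.dim t - q.1 = k
  cases hq : q.2 with
  | false =>
    simp only [Bool.false_eq_true, if_false]
    induction k with
    | zero => rfl
    | succ k ih =>
      rw [Function.iterate_succ_apply', Function.iterate_succ_apply', ← ih]
      exact (hs _).symm
  | true =>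
    simp only [if_true]
    induction k with
    | zero => rfl
    | succ k ih =>
      rw [Function.iterate_succ_apply', Function.iterate_succ_apply', ← ih]
      exact (ht _).symm

theorem expStrong_of_level [S.Good] [S.Strat] (h : S.Hyp) {L n : ℕ} (hn : n < L)
    (hA : AOK S L n) {x r : XFam S} {Q : QFam S} (hx : XGood x n L) (hQ : QGood x Q n L)
    (hr : ∀ j, n ≤ j → j < L → RGoodAt x r n j) : ExpStrong S L n := by
  intro X hX I okI b y0 e0 hb hpar he0 f g hfg hfL hconn
  have hX'g : (X.exp okI n b).Good := exp_good hb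
  have hx' : ∀ j, n ≤ j → j < L → XGoodAt x n j := fun j h1 h2 => hx.at' j h1 h2.le
  -- the homotopy from the inclusion
  have hα0 : IsAsg L X (X.exp okI n b).m (fun v => .var (.z v)) := exp_incl
  obtain ⟨ε, c, hε, hεlow, hεcyl⟩ := exists_unit_homotopy h hx hQ (M := (X.exp okI n b).m) hα0
  -- the retraction
  have hu : ∀ v, (X.exp okI n b).ok v →
      AsgAt (X.exp okI n b) X.m (CV.elim Tm.var y0 e0) v := by
    intro v hv
    cases v with
    | z v =>
      refine ⟨hv, rfl, fun _ => ⟨?_, ?_⟩⟩
      · change X.src v = ((X.src v).map CV.z).bind _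
        rw [Tm.map_bind]
        exact (Tm.bind_var_self _).symm
      · change X.tgt v = ((X.tgt v).map CV.z).bind _
        rw [Tm.map_bind]
        exact (Tm.bind_var_self _).symm
    | top i =>
      obtain ⟨p1, p2, p3, p4⟩ := hpar i hv
      refine ⟨p2, p3.symm.trans (hb i hv).2, fun h0 => ?_⟩
      have h0' : 0 < X.tdim (b i) := by
        rw [(hb i hv).2]; exact h0
      obtain ⟨p5, p6⟩ := p4 h0'
      refine ⟨?_, ?_⟩
      · change X.tsrc (y0 i) = ((X.tsrc (b i)).map CV.z).bind _
        rw [Tm.map_bind]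
        exact p5.symm.trans (Tm.bind_var_self _).symm
      · change X.ttgt (y0 i) = ((X.ttgt (b i)).map CV.z).bind _
        rw [Tm.map_bind]
        exact p6.symm.trans (Tm.bind_var_self _).symm
    | cyl i =>
      obtain ⟨p1, p2, p3, p4⟩ := he0 i hv
      refine ⟨p1, p2, fun _ => ⟨?_, ?_⟩⟩
      · change X.tsrc (e0 i) = ((b i).map CV.z).bind _
        rw [Tm.map_bind, p3]
        exact (Tm.bind_var_self _).symm
      · exact p4
  have hmap_u := fun t ht => eval_mapAt (M := X.m) hu t ht
  have hmap_ε := eval_isMap (M := (X.exp okI n b).m) hε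
  -- the substitution β
  set β : (X.exp okI n b).V → S.T (X.exp okI n b).V :=
    fun v => (CV.elim Tm.var y0 e0 v).bind ε with hβdef
  have hβu : ∀ t : S.T (X.exp okI n b).V, (X.exp okI n b).m.eval β t =
      (t.bind (CV.elim Tm.var y0 e0)).bind ε := by
    intro t
    exact (Tm.bind_bind t _ _).symm
  have hβ : IsAsg L (X.exp okI n b) (X.exp okI n b).m β := by
    intro v hv hL
    obtain ⟨a1, a2, a3⟩ := hu v hv
    obtain ⟨b1, b2, b3⟩ := hmap_ε (CV.elim Tm.var y0 e0 v) a1 (lt_of_eq_of_lt a2 hL)
    refine ⟨b1, b2.trans a2, fun h0 => ?_⟩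
    obtain ⟨a4, a5⟩ := a3 h0
    obtain ⟨b4, b5⟩ := b3 (lt_of_lt_of_eq h0 a2.symm)
    refine ⟨?_, ?_⟩
    · rw [hβu]
      refine b4.trans ?_
      exact congrArg (fun t : S.T X.V => t.bind ε) a4
    · rw [hβu]
      refine b5.trans ?_
      exact congrArg (fun t : S.T X.V => t.bind ε) a5
  -- low dimensional terms
  have hlowt : ∀ t : S.T X.V, X.tok t → X.tdim t = n → t.bind ε = t.map CV.z := by
    intro t ht hd
    refine bind_congr_lt (L := n + 1) t ht (by omega) ?_
    intro v hv hvL
    exact hεlow v hv (by omega) (by omega)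
  -- data at the new cells
  have hci : ∀ i, okI i → CylAt (X.exp okI n b).m x X.m.toGlob
      ((X.exp okI n b).m.eval fun v => Tm.var (CV.z v)) ((X.exp okI n b).m.eval ε)
      (ext (X.exp okI n b).m Q (fun v => Tm.var (CV.z v)) ε c) (b i) := by
    intro i hi
    obtain ⟨h1, h2⟩ := hb i hi
    have h2' : X.m.toGlob.dim (b i) = n := h2
    exact hεcyl.cyl (b i) h1 h2'.ge (by rw [h2']; exact hn)
  have hPR : ∀ i, ∃ P R : S.T (X.exp okI n b).V, okI i →
      (X.exp okI n b).tok P ∧ (X.exp okI n b).tdim P = n + 1 ∧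
      (X.exp okI n b).tsrc P = .var (.top i) ∧ (X.exp okI n b).ttgt P = (y0 i).bind ε ∧
      (n + 1 < L → (X.exp okI n b).tok R ∧ (X.exp okI n b).tdim R = n + 2 ∧
        (X.exp okI n b).ttgt R = (e0 i).bind ε ∧
        ∀ G : CV D D → S.T (X.exp okI n b).V, G (.z (n + 1, false)) = .var (.cyl i) →
          G (.z (n, false)) = (b i).map CV.z → G (.z (n, true)) = .var (.top i) →
          (∀ q : D, q.1 < n → G (.z q) = (X.exp okI n b).m.toGlob.bd (.var (.cyl i)) q) →
          G (.top (n, false)) = (b i).bind ε → G (.top (n, true)) = (y0 i).bind ε →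
          G (.cyl (n, false)) = ext (X.exp okI n b).m Q (fun v => Tm.var (CV.z v)) ε c (b i) →
          G (.cyl (n, true)) = P → (X.exp okI n b).tsrc R = (X.exp okI n b).m.eval G (x (n + 1))) := by
    intro i
    by_cases hi : okI i
    · obtain ⟨b1, b2⟩ := hb i hi
      obtain ⟨c1, c2, c3, c4⟩ := hci i hi
      obtain ⟨p1, p2, p3, p4⟩ := he0 i hi
      obtain ⟨y1, y2, y3, y4⟩ := hpar i hi
      have b2' : X.m.toGlob.dim (b i) = n := b2
      have y3' : X.tdim (y0 i) = n := y3.symm.trans b2
      rw [cs_base hx.base b2'] at c3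
      rw [b2'] at c2
      have c5 : (b i).bind ε = (b i).map CV.z := hlowt (b i) b1 b2
      have c6 : (y0 i).bind ε = (y0 i).map CV.z := hlowt (y0 i) y2 y3'
      -- the cell e'
      obtain ⟨e', he'1, he'2, he'3, he'4, he'5⟩ : ∃ e' : S.T (X.exp okI n b).V,
          (X.exp okI n b).tok e' ∧ (X.exp okI n b).tdim e' = n + 1 ∧
          (X.exp okI n b).tsrc e' = (b i).bind ε ∧ (X.exp okI n b).ttgt e' = (y0 i).bind ε ∧
          (n + 1 < L → e' = (e0 i).bind ε) := by
        by_cases hnL : n + 1 < L
        · obtain ⟨q1, q2, q3⟩ := hmap_ε (e0 i) p1 (by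
            change X.tdim (e0 i) < L
            omega)
          obtain ⟨q4, q5⟩ := q3 (by
            change 0 < X.tdim (e0 i)
            omega)
          refine ⟨(e0 i).bind ε, q1, q2.trans p2, q4.trans ?_, q5.trans ?_, fun _ => rfl⟩
          · exact congrArg (fun t : S.T X.V => t.bind ε) p3
          · exact congrArg (fun t : S.T X.V => t.bind ε) p4
        · obtain ⟨q1, q2, q3⟩ := eval_mapAt (M := (X.exp okI n b).m)
            (γ := fun v => Tm.var (CV.z v)) (X := X)
            (fun v hv => exp_incl (B := X.dim v + 1) v hv (Nat.lt_succ_self _)) (e0 i) p1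
          obtain ⟨q4, q5⟩ := q3 (by
            change 0 < X.tdim (e0 i)
            omega)
          refine ⟨(e0 i).map CV.z, q1, q2.trans p2, ?_, ?_, fun h => absurd h hnL⟩
          · rw [c5]
            refine q4.trans ?_
            exact congrArg (fun t : S.T X.V => t.map CV.z) p3
          · rw [c6]
            refine q5.trans ?_
            exact congrArg (fun t : S.T X.V => t.map CV.z) p4
      obtain ⟨P, P1, P2, P3, P4, hR⟩ := exists_PR h hA hn hx (M := (X.exp okI n b).m)
        (e := .var (.cyl i)) (c := ext (X.exp okI n b).m Q (fun v => Tm.var (CV.z v)) ε c (b i))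
        (e' := e') hi c1 he'1 rfl c2 he'2 c3.symm (c4.trans he'3.symm)
      have P4' : (X.exp okI n b).ttgt P = (y0 i).bind ε := P4.trans he'4
      by_cases hnL : n + 1 < L
      · obtain ⟨R, R1, R2, R3, R4⟩ := hR hnL
        refine ⟨P, R, fun _ => ⟨P1, P2, P3, P4', fun _ => ⟨R1, R2, R3.trans (he'5 hnL), ?_⟩⟩⟩
        intro G g1 g2 g3 g4 g5 g6 g7 g8
        exact R4 G g1 g2 g3 g4 (g5.trans c4.symm) (g6.trans he'4.symm) g7 g8
      · exact ⟨P, P, fun _ => ⟨P1, P2, P3, P4', fun h => absurd h hnL⟩⟩
    · exact ⟨.var (.top i), .var (.top i), fun h => absurd h hi⟩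
  choose P R hPR using hPR
  set e : (X.exp okI n b).V → S.T (X.exp okI n b).V := CV.elim c P R with hedef
  have hext : ∀ t : S.T X.V, ext (X.exp okI n b).m Q Tm.var β e (t.map CV.z) =
      ext (X.exp okI n b).m Q (fun v => Tm.var (CV.z v)) ε c t := fun t =>
    estrong_ext_map (M := (X.exp okI n b).m) CV.z _ _ _ t
  have hβz : ∀ t : S.T X.V, (X.exp okI n b).m.eval β (t.map CV.z) = t.bind ε := by
    intro t
    rw [hβu, Tm.map_bind]
    congr 1
    exact Tm.bind_var_self t
  have hαv : ∀ t : S.T (X.exp okI n b).V,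
      (X.exp okI n b).m.eval (V := (X.exp okI n b).V) Tm.var t = t := fun t => Tm.bind_var_self t
  have hH : IsCyl x n L (X.exp okI n b).m.toGlob (X.exp okI n b).m
      ((X.exp okI n b).m.eval (V := (X.exp okI n b).V) Tm.var) ((X.exp okI n b).m.eval β)
      (ext (X.exp okI n b).m Q Tm.var β e) := by
    refine ext_isCyl hx' hQ ?_ hβ ?_ ?_
    · intro v hv _
      refine ⟨hv, rfl, fun _ => ⟨?_, ?_⟩⟩
      · exact (Tm.bind_var_self _).symm
      · exact (Tm.bind_var_self _).symm
    · intro v hv h1 h2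
      cases v with
      | z v => exact (hεlow v hv h1.le h2).symm
      | top i => exact absurd h1 (lt_irrefl n)
      | cyl i => exact absurd h1 (by change ¬ n + 1 < n; omega)
    · intro v hv h1 h2
      cases v with
      | z v =>
        have h3 := hεcyl.cyl (.var v) hv h1 h2
        refine estrong_cylAt (W' := X.m.toGlob) (W := (X.exp okI n b).m.toGlob)
          (f := fun t : S.T X.V => (t.map CV.z : S.T (X.exp okI n b).V)) (p := .var v) rfl
          (fun q => estrong_bd_map _ q) ?_
        have e1 : (fun p : S.T X.V => (X.exp okI n b).m.eval (V := (X.exp okI n b).V) Tm.var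
            (p.map CV.z)) = (X.exp okI n b).m.eval fun v => Tm.var (CV.z v) := by
          funext t
          rw [hαv]
          rfl
        have e2 : (fun p : S.T X.V => (X.exp okI n b).m.eval β (p.map CV.z)) =
            (X.exp okI n b).m.eval ε := by
          funext t
          exact hβz t
        have e3 : (fun p : S.T X.V => ext (X.exp okI n b).m Q Tm.var β e (p.map CV.z)) =
            ext (X.exp okI n b).m Q (fun v => Tm.var (CV.z v)) ε c := by
          funext t
          exact hext t
        change CylAt (X.exp okI n b).m x X.m.toGlob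
          (fun p : S.T X.V => (X.exp okI n b).m.eval (V := (X.exp okI n b).V) Tm.var
            (p.map CV.z)) (fun p : S.T X.V => (X.exp okI n b).m.eval β (p.map CV.z))
          (fun p : S.T X.V => ext (X.exp okI n b).m Q Tm.var β e (p.map CV.z)) (.var v)
        rw [e1, e2, e3]
        exact h3
      | top i =>
        obtain ⟨r1, r2, r3, r4, r5⟩ := hPR i hv
        refine ⟨r1, r2, ?_, r4⟩
        refine r3.trans ?_
        rw [cs_base hx.base (W := (X.exp okI n b).m.toGlob) (p := Tm.var (CV.top i)) rfl]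
        exact (hαv _).symm
      | cyl i =>
        obtain ⟨r1, r2, r3, r4, r5⟩ := hPR i hv
        obtain ⟨s1, s2, s3, s4⟩ := r5 h2
        refine ⟨s1, s2, ?_, s3⟩
        have b1 : (X.exp okI n b).m.toGlob.bd (Tm.var (CV.cyl i)) (n, false) = (b i).map CV.z :=
          bd_pred_false (G := (X.exp okI n b).m.toGlob) (x := Tm.var (CV.cyl i)) (Nat.succ_pos n)
        have b2 : (X.exp okI n b).m.toGlob.bd (Tm.var (CV.cyl i)) (n, true) =
            Tm.var (CV.top i) :=
          bd_pred_true (G := (X.exp okI n b).m.toGlob) (x := Tm.var (CV.cyl i)) (Nat.succ_pos n)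
        have b3 : (X.exp okI n b).m.toGlob.bd (Tm.var (CV.cyl i)) (n + 1, false) =
            Tm.var (CV.cyl i) := bd_of_le _ _ (le_refl _)
        refine s4 (CV.elim _ _ _) ?_ ?_ ?_ ?_ ?_ ?_ ?_ ?_
        · rw [CV.elim_z, b3]; exact hαv _
        · rw [CV.elim_z, b1]; exact hαv _
        · rw [CV.elim_z, b2]; exact hαv _
        · intro q hq
          rw [CV.elim_z]; exact hαv _
        · rw [CV.elim_top, b1]; exact hβz _
        · rw [CV.elim_top, b2]; rfl
        · rw [CV.elim_cyl, b1]; exact hext _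
        · rw [CV.elim_cyl, b2]; rfl
  -- conclusion
  obtain ⟨f1, f2, f3, f4⟩ := hfg
  have hdf : X.tdim (f.bind (CV.elim .var y0 e0)) < L :=
    lt_of_eq_of_lt (hmap_u f f1).2.1 hfL
  have hpu : X.m.toGlob.Par (X.m.eval (CV.elim Tm.var y0 e0) f)
      (X.m.eval (CV.elim Tm.var y0 e0) g) :=
    Par.eval (L := L) (fun v hv _ => hu v hv) hfL ⟨f1, f2, f3, f4⟩
  have hcn1 : (X.exp okI n b).Conn ((f.bind (CV.elim .var y0 e0)).map CV.z)
      ((g.bind (CV.elim .var y0 e0)).map CV.z) :=
    Conn.eval (M := (X.exp okI n b).m) (L := L) exp_incl (hmap_u f f1).1 hdf hconn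
  have hcn2 := hεcyl.transport hx.at' hpu hdf hcn1
  have hcn3 : (X.exp okI n b).Conn ((X.exp okI n b).m.eval β f) ((X.exp okI n b).m.eval β g) := by
    rw [hβu, hβu]
    exact hcn2
  obtain ⟨e', hrev⟩ := hH.rev hx' hr
  have hcn4 := hrev.transport hx.at' (f := f) (g := g) ⟨f1, f2, f3, f4⟩ hfL hcn3
  rw [hαv, hαv] at hcn4
  exact hcn4

end HH
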