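import Pool.Agent.HH.Rank
import Pool.Agent.HH.Retract
import Pool.Agent.HH.Bd
import Pool.Agent.HH.CSLem
import Pool.Agent.HH.CylUP
import Pool.Agent.HH.CylGood
import Pool.Agent.HH.Stage
import Pool.Agent.HH.ExtF
import Pool.Agent.HH.ExtCyl

/-!
# HH stage 1, module 20: existence of the family `Q` of fillers for the operations
-/

set_option autoImplicit false

namespace HH

open Classical

variable {S : Sig}

/-- the cylinder of an arity, seen on the terms over the arity: the variables -/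
theorem qEx_var [S.Good] [S.Strat] {x : XFam S} {Q : QFam S} {a : Glob} [a.Laws] {N J : ℕ}
    {p : a.C} (hp : a.ok p) (hN : N ≤ a.dim p) (hJ : a.dim p < J) :
    CylAt (CylG x a N J).m x (ofGlob S a).m.toGlob
      ((CylG x a N J).m.eval fun p => .var (.z p)) ((CylG x a N J).m.eval (tpG S a N))
      (ext (CylG x a N J).m Q (fun p => .var (.z p)) (tpG S a N) (fun p => .var (.cyl p)))
      (.var p) := by
  have h := (Cyl_isCyl (x := x) (Z := ofGlob S a) (W := a) (φ := fun p => (.var p : S.T a.C))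
    (N := N) (J := J) (fun q hq _ => ⟨hq, rfl, fun _ => ⟨rfl, rfl⟩⟩)).cyl p hp hN hJ
  have hc := cs_comp (M := (CylG x a N J).m) x (W := (ofGlob S a).m.toGlob) (W' := a)
    (fun p => (.var p : S.T a.C)) ((CylG x a N J).m.eval fun p => .var (.z p))
    ((CylG x a N J).m.eval (tpG S a N))
    (ext (CylG x a N J).m Q (fun p => .var (.z p)) (tpG S a N) (fun p => .var (.cyl p)))
    p rfl (fun q => map_bd (G := a) (H := (ofGlob S a).m.toGlob)
      (f := fun p => (.var p : S.T a.C)) hp (fun y hy _ => ⟨hy, rfl, fun _ => ⟨rfl, rfl⟩⟩) q)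
  exact ⟨h.1, h.2.1, h.2.2.1.trans hc, h.2.2.2⟩

/-- the homotopy on terms of dimension `< J` of the arity -/
theorem qEx_isCyl [S.Good] [S.Strat] {x : XFam S} {Q : QFam S} {a : Glob} [a.Laws] {N J : ℕ}
    (hx : ∀ j, N ≤ j → j < J → XGoodAt x N j) (hQ : QGood x Q N J) :
    IsCyl x N J (ofGlob S a).m.toGlob (CylG x a N (J + 1)).m
      ((CylG x a N (J + 1)).m.eval fun p => .var (.z p))
      ((CylG x a N (J + 1)).m.eval (tpG S a N))
      (ext (CylG x a N (J + 1)).m Q (fun p => .var (.z p)) (tpG S a N)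
        (fun p => .var (.cyl p))) := by
  have h := Cyl_isCyl (x := x) (Z := ofGlob S a) (W := a) (φ := fun p => (.var p : S.T a.C))
    (N := N) (J := J + 1) (fun q hq _ => ⟨hq, rfl, fun _ => ⟨rfl, rfl⟩⟩)
  refine ext_isCyl (X := ofGlob S a) hx hQ ?_ ?_ ?_ ?_
  · exact Cyl_incl
  · intro v hv hd
    exact h.mapβ v hv (Nat.lt_succ_of_lt hd)
  · intro v hv h1 _
    exact (if_neg (not_le.mpr h1)).symm
  · intro v hv h1 h2
    exact qEx_var hv h1 (Nat.lt_succ_of_lt h2)

/-- the two ends are typed on all variables -/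
theorem qEx_ends [S.Good] [S.Strat] {x : XFam S} {k : S.K} (hk : S.kok k) {n : ℕ} :
    (∀ v, (ofGlob S (S.ar k)).ok v → AsgAt (ofGlob S (S.ar k)) (CylG x (S.ar k) n (S.dm k + 1)).m
      (fun p => .var (.z p)) v) ∧
    (∀ v, (ofGlob S (S.ar k)).ok v → AsgAt (ofGlob S (S.ar k)) (CylG x (S.ar k) n (S.dm k + 1)).m
      (tpG S (S.ar k) n) v) := by
  have := Sig.Good.ar_laws k hk
  have h := Cyl_isCyl (x := x) (Z := ofGlob S (S.ar k)) (W := S.ar k)
    (φ := fun p => (.var p : S.T (S.ar k).C))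
    (N := n) (J := S.dm k + 1) (fun q hq _ => ⟨hq, rfl, fun _ => ⟨rfl, rfl⟩⟩)
  refine ⟨fun v hv => ?_, fun v hv => ?_⟩
  · exact Cyl_incl (B := (S.ar k).dim v + 1) v hv (Nat.lt_succ_self _)
  · exact h.mapβ v hv (Nat.lt_succ_of_le (Sig.Strat.le k hk v))

theorem qEx_isK [S.Good] {k : S.K} (hk : S.kok k) :
    (ofGlob S (S.ar k)).tok (.op k .var) := by
  refine ⟨hk, fun p => ⟨Sig.Good.full k hk p, rfl, fun _ => ⟨rfl, rfl⟩⟩⟩

/-- evaluation of the extension at the generic term `op k var` -/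
theorem qEx_ext {x : XFam S} {Q : QFam S} {k : S.K} {n J : ℕ}
    (ht : (CylG x (S.ar k) n J).tok (Q k)) :
    ext (CylG x (S.ar k) n J).m Q (fun p => .var (.z p)) (tpG S (S.ar k) n)
      (fun p => .var (.cyl p)) (.op k .var) = Q k := by
  have h : (Q k).bind (CV.elim (fun p => .var (.z p)) (tpG S (S.ar k) n)
      (fun p => .var (.cyl p))) = (Q k).bind Tm.var := by
    refine bind_congr (X := CylG x (S.ar k) n J) (Q k) ht ?_
    intro v hv
    cases v with
    | z p => rfl
    | top p => exact if_pos hv.2.1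
    | cyl p => rfl
  exact h.trans (Tm.bind_var_self (Q k))

/-- the cylinder source at the generic term does not depend on `Q` at dimensions `≥ dm k` -/
theorem qEx_cs [S.Good] [S.Strat] {x : XFam S} {Q Q' : QFam S} {k : S.K} (hk : S.kok k) {n : ℕ}
    (hx : XGoodAt x n (S.dm k)) (h : ∀ k', S.dm k' < S.dm k → Q k' = Q' k') :
    cs (CylG x (S.ar k) n (S.dm k + 1)).m x (ofGlob S (S.ar k)).m.toGlob
      ((CylG x (S.ar k) n (S.dm k + 1)).m.eval fun p => .var (.z p))
      ((CylG x (S.ar k) n (S.dm k + 1)).m.eval (tpG S (S.ar k) n))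
      (ext (CylG x (S.ar k) n (S.dm k + 1)).m Q (fun p => .var (.z p)) (tpG S (S.ar k) n)
        (fun p => .var (.cyl p))) (.op k .var) =
    cs (CylG x (S.ar k) n (S.dm k + 1)).m x (ofGlob S (S.ar k)).m.toGlob
      ((CylG x (S.ar k) n (S.dm k + 1)).m.eval fun p => .var (.z p))
      ((CylG x (S.ar k) n (S.dm k + 1)).m.eval (tpG S (S.ar k) n))
      (ext (CylG x (S.ar k) n (S.dm k + 1)).m Q' (fun p => .var (.z p)) (tpG S (S.ar k) n)
        (fun p => .var (.cyl p))) (.op k .var) := by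
  have := Sig.Good.ar_laws k hk
  have hok : (ofGlob S (S.ar k)).m.toGlob.ok (.op k .var) := qEx_isK hk
  refine cs_congr (W := (ofGlob S (S.ar k)).m.toGlob) (N := n) hx.1 (fun _ _ => rfl)
    (fun _ _ _ => rfl) ?_
  intro q _ hq
  refine ext_congr_Q (X := ofGlob S (S.ar k)) (L := S.dm k) (fun k' _ hk' => h k' hk')
    (ok_bd hok q) ?_
  have hd : (ofGlob S (S.ar k)).tdim ((ofGlob S (S.ar k)).m.toGlob.bd (.op k .var) q) = q.1 :=
    dim_bd (G := (ofGlob S (S.ar k)).m.toGlob) hok (le_of_lt hq)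
  rw [hd]
  exact hq

theorem exists_Q_gen [S.Good] [S.Strat] (x : XFam S) (n : ℕ) (B : ℕ → Prop)
    (hB : ∀ j, B (j + 1) → B j) (hx : ∀ j, n ≤ j → B j → XGoodAt x n j)
    (hQ : ∀ k, S.kok k → n ≤ S.dm k → B (S.dm k) →
      (CylG x (S.ar k) n (S.dm k + 1)).MContr (S.dm k + 1)) :
    ∃ Q : QFam S, ∀ k, S.kok k → n ≤ S.dm k → B (S.dm k) → QGoodAt x Q n k := by
  have hB' : ∀ d j, B (j + d) → B j := by
    intro d
    induction d with
    | zero => intro j h; exact h
    | succ d ih => intro j h; exact ih j (hB (j + d) h)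
  have hB'' : ∀ i j, i ≤ j → B j → B i := by
    intro i j hij hj
    refine hB' (j - i) i ?_
    have : i + (j - i) = j := by omega
    rw [this]; exact hj
  have : ∀ k : S.K, Nonempty (S.T (CV (S.ar k).C (S.ar k).C)) := by
    intro k
    obtain ⟨p⟩ := Sig.Good.ar_ne k
    exact ⟨.var (.z p)⟩
  obtain ⟨Q, hQ'⟩ := exists_ranked (I := S.K) S.dm
    (T := fun k => S.T (CV (S.ar k).C (S.ar k).C))
    (fun k Q => S.kok k → n ≤ S.dm k → B (S.dm k) → QGoodAt x Q n k)
    (by
      intro k Q Q' h1 h2 h3 hk hn hBk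
      obtain ⟨h4, h5, h6, h7, h8⟩ := h3 hk hn hBk
      have e1 := qEx_ext (x := x) (Q := Q) (k := k) (n := n) (J := S.dm k + 1) h4
      have h4' : (CylG x (S.ar k) n (S.dm k + 1)).tok (Q' k) := by rw [← h2]; exact h4
      have e2 := qEx_ext (x := x) (Q := Q') (k := k) (n := n) (J := S.dm k + 1) h4'
      have e3 := e2.trans (h2.symm.trans e1.symm)
      refine ⟨h4', ?_, ?_, ?_, ?_⟩
      · exact (congrArg (CylG x (S.ar k) n (S.dm k + 1)).tok e3).mpr h5
      · exact (congrArg (CylG x (S.ar k) n (S.dm k + 1)).tdim e3).trans h6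
      · exact (congrArg (CylG x (S.ar k) n (S.dm k + 1)).tsrc e3).trans
          (h7.trans (qEx_cs hk (hx _ hn hBk) h1))
      · exact (congrArg (CylG x (S.ar k) n (S.dm k + 1)).ttgt e3).trans h8)
    (by
      intro k Q hlow
      by_cases hc : S.kok k ∧ n ≤ S.dm k ∧ B (S.dm k)
      · obtain ⟨hk, hn, hBk⟩ := hc
        have hlaws := Sig.Good.ar_laws k hk
        have hlaws2 : (ofGlob S (S.ar k)).m.toGlob.Laws := m_laws (ofGlob S (S.ar k))
        have hQG : QGood x Q n (S.dm k) := by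
          intro k' hk' h1 h2
          exact hlow k' h2 hk' h1 (hB'' _ _ (le_of_lt h2) hBk)
        have hxG : ∀ j, n ≤ j → j ≤ S.dm k → XGoodAt x n j := by
          intro j h1 h2
          exact hx j h1 (hB'' _ _ h2 hBk)
        have hcyl := qEx_isCyl (a := S.ar k) (fun j h1 h2 => hxG j h1 (le_of_lt h2)) hQG
        obtain ⟨hα, hβ⟩ := qEx_ends (x := x) hk (n := n)
        have hok : (ofGlob S (S.ar k)).m.toGlob.ok (.op k .var) := qEx_isK hk
        have hbd : ∀ r : D, r.1 < S.dm k →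
            (ofGlob S (S.ar k)).m.toGlob.dim
              ((ofGlob S (S.ar k)).m.toGlob.bd (.op k .var) r) = r.1 :=
          fun r hr => dim_bd (G := (ofGlob S (S.ar k)).m.toGlob) hok (le_of_lt hr)
        have hsp := cs_spec (x := x) (N := n) (W := (ofGlob S (S.ar k)).m.toGlob)
          (M := (CylG x (S.ar k) n (S.dm k + 1)).m)
          (α := (CylG x (S.ar k) n (S.dm k + 1)).m.eval fun p => .var (.z p))
          (β := (CylG x (S.ar k) n (S.dm k + 1)).m.eval (tpG S (S.ar k) n))
          (e := ext (CylG x (S.ar k) n (S.dm k + 1)).m Q (fun p => .var (.z p))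
            (tpG S (S.ar k) n) (fun p => .var (.cyl p)))
          (p := .op k .var) hok hn hxG
          (fun r _ => eval_mapAt hα _ (ok_bd hok r))
          (fun r _ => eval_mapAt hβ _ (ok_bd hok r))
          (fun r h1 h2 => hcyl.low _ (ok_bd hok r) (by rw [hbd r h2]; exact h1)
            (by rw [hbd r h2]; exact h2))
          (fun r h1 h2 => hcyl.cyl _ (ok_bd hok r) (by rw [hbd r h2]; exact h1)
            (by rw [hbd r h2]; exact h2))
        obtain ⟨s1, s2, s3⟩ := hsp
        obtain ⟨t1, t2, t3⟩ := eval_mapAt hβ _ hok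
        obtain ⟨f, f1, f2, f3, f4⟩ := hQ k hk hn hBk _ _
          ⟨s1, t1, s2.trans t2.symm, fun h0 => by
            have h0' : 0 < S.dm k := lt_of_lt_of_eq h0 s2
            obtain ⟨u1, u2⟩ := s3 h0'
            obtain ⟨v1, v2⟩ := t3 h0'
            exact ⟨u1.trans v1.symm, u2.trans v2.symm⟩⟩ (by
            rw [s2]; exact Nat.lt_succ_self _)
        set Q' : QFam S := Function.update Q k f with hQ'
        have hlt : ∀ k', S.dm k' < S.dm k → Q k' = Q' k' := by
          intro k' hk'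
          have : k' ≠ k := by
            rintro rfl
            exact lt_irrefl _ hk'
          exact (Function.update_of_ne this _ _).symm
        have hself : Q' k = f := Function.update_self _ _ _
        have f1' : (CylG x (S.ar k) n (S.dm k + 1)).tok (Q' k) := by rw [hself]; exact f1
        have e2 := (qEx_ext (x := x) (Q := Q') (k := k) (n := n) (J := S.dm k + 1) f1').trans
          hself
        refine ⟨Q', fun k' hk' => (hlt k' hk').symm, fun _ _ _ => ⟨f1', ?_, ?_, ?_, ?_⟩⟩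
        · exact (congrArg (CylG x (S.ar k) n (S.dm k + 1)).tok e2).mpr f1
        · exact (congrArg (CylG x (S.ar k) n (S.dm k + 1)).tdim e2).trans
            (f2.trans (congrArg (· + 1) s2))
        · exact (congrArg (CylG x (S.ar k) n (S.dm k + 1)).tsrc e2).trans
            (f3.trans (qEx_cs hk (hx _ hn hBk) hlt))
        · exact (congrArg (CylG x (S.ar k) n (S.dm k + 1)).ttgt e2).trans f4
      · refine ⟨Q, fun _ _ => rfl, fun hk hn hBk => absurd ⟨hk, hn, hBk⟩ hc⟩)
  exact ⟨Q, hQ'⟩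

theorem exists_Q [S.Good] [S.Strat] {L n : ℕ} (hA : AOK S L n)
    (hE : ∀ n', n < n' → n' < L → ExpOK S L n') {x : XFam S} (hx : XGood x n L) :
    ∃ Q : QFam S, QGood x Q n L := by
  refine exists_Q_gen x n (fun j => j < L) (fun j hj => by omega)
    (fun j h1 h2 => hx.at' j h1 (le_of_lt h2)) ?_
  intro k hk hn hkL
  have := Sig.Good.ar_laws k hk
  have hc := CylG_contr (L := L) (J := S.dm k + 1) hx.base (a := S.ar k)
    (fun j h1 h2 => hx.at' j h1 (by omega)) (fun j h1 h2 => hE j h1 (by omega)) (by omega)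
    (hA (S.ar k) (ArCl.ar k hk))
  exact hc.mono (by omega)

end HH
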