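import Pool.Agent.HH.Rank
import Pool.Agent.HH.Retract
import Pool.Agent.HH.Stage

/-!
# HH stage 1, module 17: existence of the family `x` of cylinder sources
-/

set_option autoImplicit false

namespace HH

open Classical

variable {S : Sig}

/-- changing `x` at indices `≥ J` does not change the genuine terms of `CylG x a N J` -/
theorem xEx_transfer {x x' : XFam S} {a : Glob} {N J : ℕ} (h : ∀ i, i < J → x i = x' i)
    (t : S.T (CV a.C a.C)) (ht : (CylG x a N J).tok t) :
    (CylG x' a N J).tok t ∧ (CylG x' a N J).tdim t = (CylG x a N J).tdim t ∧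
      (0 < (CylG x a N J).tdim t → (CylG x' a N J).tsrc t = (CylG x a N J).tsrc t ∧
        (CylG x' a N J).ttgt t = (CylG x a N J).ttgt t) := by
  have key : ∀ v, (CylG x a N J).ok v → AsgAt (CylG x a N J) (CylG x' a N J).m Tm.var v := by
    intro v hv
    cases v with
    | z p =>
      refine ⟨hv, rfl, fun _ => ⟨?_, ?_⟩⟩
      · exact (Tm.bind_var_self _).symm
      · exact (Tm.bind_var_self _).symm
    | top p =>
      refine ⟨hv, rfl, fun _ => ⟨?_, ?_⟩⟩
      · exact (Tm.bind_var_self _).symm
      · exact (Tm.bind_var_self _).symm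
    | cyl p =>
      refine ⟨hv, rfl, fun _ => ⟨?_, ?_⟩⟩
      · have h1 : x (a.dim p) = x' (a.dim p) := h _ hv.2.2
        refine Eq.trans ?_ (Tm.bind_var_self _).symm
        show (x' (a.dim p)).bind _ = (x (a.dim p)).bind _
        rw [h1]
      · rfl
  obtain ⟨h1, h2, h3⟩ := eval_mapAt key t ht
  have e1 : (CylG x' a N J).m.eval Tm.var t = t := Tm.bind_var_self t
  refine ⟨?_, ?_, ?_⟩
  · exact e1 ▸ h1
  · exact (congrArg (CylG x' a N J).tdim e1).symm.trans h2
  · intro h0
    obtain ⟨k1, k2⟩ := h3 h0
    refine ⟨?_, ?_⟩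
    · exact (congrArg (CylG x' a N J).tsrc e1).symm.trans (k1.trans (Tm.bind_var_self _))
    · exact (congrArg (CylG x' a N J).ttgt e1).symm.trans (k2.trans (Tm.bind_var_self _))

theorem xEx_loc {x x' : XFam S} {N j : ℕ} (h : ∀ i, i ≤ j → x i = x' i) (hx : XGoodAt x N j) :
    XGoodAt x' N j := by
  obtain ⟨h1, h2, h3⟩ := hx
  obtain ⟨k1, k2, k3⟩ := xEx_transfer (a := diskG j) (fun i hi => h i (le_of_lt hi)) (x j) h1
  have hj : x' j = x j := (h j le_rfl).symm
  refine ⟨?_, ?_, ?_⟩
  · rw [hj]; exact k1
  · rw [hj]; exact k2.trans h2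
  · intro h0
    rw [hj]
    obtain ⟨l1, l2⟩ := k3 (by rw [h2]; exact h0)
    obtain ⟨m1, m2⟩ := h3 h0
    exact ⟨l1.trans m1, l2.trans m2⟩

theorem xEx_base (x : XFam S) (n : ℕ) (h : x n = .var (.z (n, false))) : XGoodAt x n n := by
  refine ⟨?_, ?_, ?_⟩
  · rw [h]
    exact Or.inr ⟨rfl, rfl⟩
  · rw [h]
    rfl
  · intro h0
    rw [h]
    have hn : ¬ (n ≤ n - 1) := by omega
    refine ⟨?_, ?_⟩
    · show (Tm.var (CV.z (n - 1, false)) : S.T (CV D D)) =
        if n ≤ n - 1 then .var (.top (n - 1, false)) else .var (.z (n - 1, false))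
      rw [if_neg hn]
    · show (Tm.var (CV.z (n - 1, true)) : S.T (CV D D)) =
        if n ≤ n - 1 then .var (.top (n - 1, true)) else .var (.z (n - 1, true))
      rw [if_neg hn]

/-- the top ends of the two faces of the disk are parallel -/
theorem xEx_par (x : XFam S) {n i : ℕ} (hi : n < i) :
    (CylG x (diskG i) n i).Par (tpG S (diskG i) n (i - 1, false))
      (tpG S (diskG i) n (i - 1, true)) := by
  have hn : n ≤ i - 1 := by omega
  have e : ∀ ε, tpG S (diskG i) n (i - 1, ε) = .var (.top (i - 1, ε)) := by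
    intro ε
    exact if_pos hn
  rw [e, e]
  refine ⟨?_, ?_, rfl, fun _ => ⟨rfl, rfl⟩⟩
  · refine ⟨Or.inl ?_, hn, ?_⟩
    · show i - 1 < i
      omega
    · show i - 1 < i
      omega
  · refine ⟨Or.inl ?_, hn, ?_⟩
    · show i - 1 < i
      omega
    · show i - 1 < i
      omega

theorem exists_x_gen [S.Good] [S.Strat] (n : ℕ) (B : ℕ → Prop) (hB : ∀ j, B (j + 1) → B j)
    (hV : ∀ (x : XFam S) (j : ℕ), x n = .var (.z (n, false)) → n < j → B j →
      (∀ i, n ≤ i → i < j → XGoodAt x n i) → (CylG x (diskG j) n j).MContr j) :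
    ∃ x : XFam S, x n = .var (.z (n, false)) ∧ ∀ j, n ≤ j → B j → XGoodAt x n j := by
  have hB' : ∀ d j, B (j + d) → B j := by
    intro d
    induction d with
    | zero => intro j h; exact h
    | succ d ih => intro j h; exact ih j (hB (j + d) h)
  have : Nonempty (S.T (CV D D)) := ⟨.var (.z (n, false))⟩
  obtain ⟨x, hx⟩ := exists_ranked (I := ℕ) (fun i => i) (T := fun _ => S.T (CV D D))
    (fun j x => (n ≤ j → x n = .var (.z (n, false))) ∧ (n ≤ j → B j → XGoodAt x n j))
    (by
      intro i t t' h1 h2 h3
      have h : ∀ j, j ≤ i → t j = t' j := by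
        intro j hj
        rcases Nat.lt_or_ge j i with h4 | h4
        · exact h1 j h4
        · have : j = i := by omega
          rw [this]; exact h2
      refine ⟨fun hn => ?_, fun hn hBi => xEx_loc h (h3.2 hn hBi)⟩
      rw [← h n hn]
      exact h3.1 hn)
    (by
      intro i t ht
      rcases Nat.lt_trichotomy i n with h | h | h
      · refine ⟨t, fun _ _ => rfl, fun hn => ?_, fun hn => ?_⟩
        · omega
        · omega
      · subst h
        refine ⟨Function.update t i (.var (.z (i, false))), fun j hj => ?_, fun _ => ?_,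
          fun _ _ => ?_⟩
        · exact Function.update_of_ne (by omega) _ _
        · exact Function.update_self _ _ _
        · exact xEx_base _ _ (Function.update_self _ _ _)
      · by_cases hBi : B i
        · have h0 : t n = .var (.z (n, false)) := (ht n h).1 le_rfl
          have hg : ∀ j, n ≤ j → j < i → XGoodAt t n j := by
            intro j hj1 hj2
            refine (ht j hj2).2 hj1 (hB' (i - j) j ?_)
            have : j + (i - j) = i := by omega
            rw [this]; exact hBi
          have hc := hV t i h0 h hBi hg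
          have hd : (CylG t (diskG i) n i).tdim (tpG S (diskG i) n (i - 1, false)) = i - 1 := by
            show (CylG t (diskG i) n i).tdim (if n ≤ i - 1 then _ else _) = _
            rw [if_pos (by omega)]
            rfl
          obtain ⟨f, hf1, hf2, hf3, hf4⟩ := hc _ _ (xEx_par t h) (by
            show (CylG t (diskG i) n i).tdim _ < i
            rw [hd]; omega)
          have hf2' : (CylG t (diskG i) n i).tdim f = i := by
            have h5 : (CylG t (diskG i) n i).tdim f =
              (CylG t (diskG i) n i).tdim (tpG S (diskG i) n (i - 1, false)) + 1 := hf2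
            rw [h5, hd]; omega
          set t' : XFam S := Function.update t i f with ht'
          have hlt : ∀ j, j < i → t j = t' j := by
            intro j hj
            exact (Function.update_of_ne (by omega) _ _).symm
          have hi' : t' i = f := Function.update_self _ _ _
          obtain ⟨k1, k2, k3⟩ := xEx_transfer (a := diskG i) (N := n) hlt f hf1
          refine ⟨t', fun j hj => (hlt j hj).symm, fun _ => ?_, fun _ _ => ?_⟩
          · rw [← hlt n h]; exact h0
          · refine ⟨?_, ?_, fun h6 => ?_⟩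
            · rw [hi']; exact k1
            · rw [hi']; exact k2.trans hf2'
            · rw [hi']
              obtain ⟨l1, l2⟩ := k3 (by rw [hf2']; exact h6)
              exact ⟨l1.trans hf3, l2.trans hf4⟩
        · refine ⟨t, fun _ _ => rfl, fun _ => (ht n h).1 le_rfl, fun _ hBi' => absurd hBi' hBi⟩)
  exact ⟨x, (hx n).1 le_rfl, fun j hj hBj => (hx j).2 hj hBj⟩

theorem exists_x [S.Good] [S.Strat] {L n : ℕ} (hn : n ≤ L) (hA : AOK S L n)
    (hE : ∀ n', n < n' → n' < L → ExpOK S L n') : ∃ x : XFam S, XGood x n L := by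
  obtain ⟨x, h0, h1⟩ := exists_x_gen (S := S) n (fun j => j ≤ L) (fun j hj => by omega) (by
    intro x j h0 hj hBj hg
    have hc := CylG_contr (L := L) h0 hg (fun j' h1 h2 => hE j' h1 (by omega)) hj
      (hA (diskG j) (ArCl.disk j))
    exact hc.mono hBj)
  exact ⟨x, ⟨h0, h1⟩⟩

theorem exists_x_top [S.Good] [S.Strat] (L : ℕ) : ∃ x : XFam S, XGood x L L := by
  refine ⟨fun _ => .var (.z (L, false)), ⟨rfl, fun j h1 h2 => ?_⟩⟩
  have : j = L := by omega
  subst this
  exact xEx_base _ _ rfl

end HH
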