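import Pool.Agent.HH.AN
import Pool.Agent.HH.Rev
import Pool.Agent.HH.EStrong
import Pool.Agent.HH.XEx
import Pool.Agent.HH.QEx
import Pool.Agent.HH.Retract
import Pool.Agent.HH.DiskOp

/-!
# HH 26 Main: from the strong form to contractibility, all levels, Theorem A
-/

set_option autoImplicit false

namespace HH

open Classical

variable {S : Sig}

/-- the retraction `X.exp okI n b ⟶ X` given by `y0`, `e0` -/
private theorem main_asg {X : Cptd S} {I : Type} {okI : I → Prop} {n : ℕ} {b y0 e0 : I → S.T X.V}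
    (hb : ∀ i, okI i → X.tok (b i) ∧ X.tdim (b i) = n)
    (hy : ∀ i, okI i → X.Par (b i) (y0 i))
    (he : ∀ i, okI i → X.tok (e0 i) ∧ X.tdim (e0 i) = n + 1 ∧ X.tsrc (e0 i) = b i ∧
      X.ttgt (e0 i) = y0 i) (v : CV X.V I) (hv : (X.exp okI n b).ok v) :
    AsgAt (X.exp okI n b) X.m (CV.elim .var y0 e0) v := by
  have key : ∀ t : S.T X.V, X.m.eval (CV.elim (B := I) .var y0 e0) (t.map .z) = t := fun t =>
    (eval_map X.m _ _ t).trans (Tm.bind_var_self t)
  cases v with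
  | z v =>
    exact ⟨hv, rfl, fun _ => ⟨(key (X.src v)).symm, (key (X.tgt v)).symm⟩⟩
  | top i =>
    obtain ⟨h1, h2, h3, h4⟩ := hy i hv
    refine ⟨h2, h3.symm.trans (hb i hv).2, fun h0 => ?_⟩
    obtain ⟨h5, h6⟩ := h4 (by
      have h7 : X.m.toGlob.dim (b i) = n := (hb i hv).2
      rw [h7]
      exact h0)
    exact ⟨h5.symm.trans (key _).symm, h6.symm.trans (key _).symm⟩
  | cyl i =>
    obtain ⟨h1, h2, h3, h4⟩ := he i hv
    exact ⟨h1, h2, fun _ => ⟨h3.trans (key _).symm, h4⟩⟩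

private theorem main_incl {X : Cptd S} {I : Type} {okI : I → Prop} {n : ℕ} {b : I → S.T X.V}
    (v : X.V) (hv : X.ok v) : AsgAt X (X.exp okI n b).m (fun v => .var (.z v)) v :=
  ⟨hv, rfl, fun _ => ⟨rfl, rfl⟩⟩

theorem expStrong_of_le [S.Good] [S.Strat] {L n : ℕ} (hn : L ≤ n) : ExpStrong S L n := by
  intro X _ I okI b y0 e0 hb hy he f g hfg hL ⟨h, h1, h2, h3, h4⟩
  obtain ⟨hf, hg, hd, -⟩ := hfg
  have hu := main_asg hb hy he
  have key : ∀ t : S.T (X.exp okI n b).V, (X.exp okI n b).tok t → (X.exp okI n b).tdim t < L →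
      (t.bind (CV.elim .var y0 e0)).map .z = t := by
    intro t ht htL
    refine (Tm.bind_bind t _ _).trans (Eq.trans ?_ (Tm.bind_var_self t))
    refine bind_congr_lt t ht htL fun v hv hvL => ?_
    cases v with
    | z v => rfl
    | top i => exact absurd hvL (by
        show ¬ n < L
        omega)
    | cyl i => exact absurd hvL (by
        show ¬ n + 1 < L
        omega)
  have hdf : X.tdim (f.bind (CV.elim .var y0 e0)) = (X.exp okI n b).tdim f :=
    (eval_mapAt hu f hf).2.1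
  have hm := eval_mapAt (X := X) (M := (X.exp okI n b).m) (main_incl (X := X) (okI := okI)
    (n := n) (b := b)) h h1
  obtain ⟨m1, m2, m3⟩ := hm
  obtain ⟨m4, m5⟩ := m3 (by
    rw [h2]
    omega)
  refine ⟨h.map .z, m1, ?_, ?_, ?_⟩
  · refine m2.trans (h2.trans ?_)
    exact congrArg (· + 1) hdf
  · refine m4.trans ?_
    rw [h3]
    exact key f hf hL
  · refine m5.trans ?_
    rw [h4]
    exact key g hg (lt_of_eq_of_lt hd.symm hL)

theorem ExpStrong.expOK [S.Good] [S.Strat] (h : S.Hyp) {L n : ℕ} (hE : ExpStrong S L n) :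
    ExpOK S L n := by
  intro X _ I okI b hb hX f g hfg hL
  have h1 : ∀ i, ∃ e : S.T X.V, okI i → X.tok e ∧ X.tdim e = n + 1 ∧ X.tsrc e = b i ∧
      X.ttgt e = b i := by
    intro i
    by_cases hi : okI i
    · obtain ⟨e, he1, he2, he3, he4⟩ := exists_unit h (M := X.m) (y := b i) (hb i hi).1
      exact ⟨e, fun _ => ⟨he1, he2.trans (congrArg (· + 1) (hb i hi).2), he3, he4⟩⟩
    · exact ⟨b i, fun hi' => absurd hi' hi⟩
  choose e0 he using h1
  have hy : ∀ i, okI i → X.Par (b i) (b i) := fun i hi =>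
    ⟨(hb i hi).1, (hb i hi).1, rfl, fun _ => ⟨rfl, rfl⟩⟩
  have hu := main_asg hb hy he
  refine hE X okI b b e0 hb hy he f g hfg hL ?_
  obtain ⟨hf, hg, hd, hp⟩ := hfg
  obtain ⟨f1, f2, f3⟩ := eval_mapAt hu f hf
  obtain ⟨g1, g2, g3⟩ := eval_mapAt hu g hg
  refine hX _ _ ⟨f1, g1, f2.trans (hd.trans g2.symm), fun h0 => ?_⟩ (f2.trans_lt hL)
  have hf0 : 0 < (X.exp okI n b).tdim f := lt_of_lt_of_eq h0 f2
  obtain ⟨p1, p2⟩ := hp hf0
  obtain ⟨f4, f5⟩ := f3 hf0
  obtain ⟨g4, g5⟩ := g3 (lt_of_lt_of_eq hf0 hd)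
  exact ⟨f4.trans ((congrArg _ p1).trans g4.symm), f5.trans ((congrArg _ p2).trans g5.symm)⟩

/-- all levels, by downward induction -/
theorem level_all [S.Good] [S.Strat] (h : S.Hyp) (L : ℕ) (d : ℕ) (hd : d ≤ L) :
    (∃ x : XFam S, XGood x (L - d) L) ∧ ∀ n', L - d ≤ n' → ExpStrong S L n' := by
  induction d with
  | zero =>
    refine ⟨exists_x_top L, fun n' hn' => expStrong_of_le (by omega)⟩
  | succ d ih =>
    obtain ⟨hx, hE⟩ := ih (by omega)
    have hE' : ∀ n', L - (d + 1) < n' → n' < L → ExpOK S L n' := fun n' h1 _ =>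
      (hE n' (by omega)).expOK h
    have hA : AOK S L (L - (d + 1)) := by
      refine aok_step h (by omega) hE' ?_
      have : L - (d + 1) + 1 = L - d := by omega
      rw [this]
      exact hx
    obtain ⟨x, hx1⟩ := exists_x (n := L - (d + 1)) (by omega) hA hE'
    obtain ⟨Q, hQ⟩ := exists_Q hA hE' hx1
    obtain ⟨r, hr⟩ := exists_rev hA hE' hx1
    refine ⟨⟨x, hx1⟩, fun n' hn' => ?_⟩
    rcases Nat.eq_or_lt_of_le hn' with h1 | h1
    · rw [← h1]
      exact expStrong_of_level h (by omega) hA hx1 hQ hr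
    · exact hE n' (by omega)

/-- **Theorem A**. -/
theorem thmA [S.Good] [S.Strat] (h : S.Hyp) (L n : ℕ) : ExpStrong S L n := by
  rcases Nat.lt_or_ge n L with hn | hn
  · exact (level_all h L (L - n) (by omega)).2 n (by omega)
  · exact expStrong_of_le hn

end HH
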