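import Pool.Agent.HH.Interp
import Pool.Agent.HH.Rev
import Pool.Agent.HH.Stage
import Pool.Agent.HH.XEx
import Pool.Agent.HH.Main
import Pool.Agent.HH.CsDisk

/-!
# HH stage 2, module c3: existence of level-0 data for stratified contractible signatures
-/

set_option autoImplicit false

namespace HH

open Classical

variable {S E R : Sig}

/-- explicit form of `IsCyl.rev` -/
theorem IsCyl.rev_cs [S.Good] [S.Strat] {x r : XFam S} {N J : ℕ}
    (hx : ∀ j, N ≤ j → j < J → XGoodAt x N j) (hr : ∀ j, N ≤ j → j < J → RGoodAt x r N j)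
    {W : Glob} [W.Laws] {M : Model S} [M.OpLaws]
    {α β e : W.C → M.C} (h : IsCyl x N J W M α β e) :
    IsCyl x N J W M β α (cs M r W α β e) := by
  refine ⟨h.mapβ, h.mapα,
    fun p hp h1 h2 => (h.low p hp h1 h2).symm, ?_⟩
  intro p hp hN hJ
  obtain ⟨i, hi⟩ : ∃ i, i = W.dim p := ⟨_, rfl⟩
  have hiN : N ≤ i := hi ▸ hN
  have hiJ : i < J := hi ▸ hJ
  obtain ⟨G, hG⟩ : ∃ G : CV D D → M.C, G = CV.elim (fun q => α (W.bd p q))
    (fun q => β (W.bd p q)) (fun q => e (W.bd p q)) := ⟨_, rfl⟩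
  have hbm : ∀ q, (diskG i).ok q → MapAt (diskG i) W (W.bd p) q := by
    intro q hq
    rw [hi] at hq ⊢
    exact bd_mapAt hp hq
  have hbd : ∀ q : D, q.1 ≤ i → ∀ s, W.bd p (bdD q s) = W.bd (W.bd p q) s := by
    intro q hq s
    exact (bd_bd hp (hi ▸ hq) s).symm
  have hdim : ∀ q : D, q.1 ≤ i → W.dim (W.bd p q) = q.1 := fun q hq => dim_bd hp (hi ▸ hq)
  have hGasg : ∀ B, IsAsg B (CylG x (diskG i) N (i + 1)) M G := by
    intro B
    rw [hG]
    refine Cyl_asg (Z := ofGlob S (diskG i)) (W := diskG i) (φ := .var)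
      (fun j h1 h2 => hx j h1 (by omega)) ?_ ?_ ?_ ?_
    · intro q hq _
      have h1 := hbm q hq
      exact asgAt_ofGlob (rev_mapAt_comp h1 (h.mapα _ h1.1 (by
        rw [hdim q (rev_ok_le hq)]
        exact lt_of_le_of_lt (rev_ok_le hq) hiJ)))
    · intro q hq _ _
      have h1 := hbm q hq
      exact rev_mapAt_comp h1 (h.mapβ _ h1.1 (by
        rw [hdim q (rev_ok_le hq)]
        exact lt_of_le_of_lt (rev_ok_le hq) hiJ))
    · intro q hq h0 _
      have h1 := hbm q hq
      exact h.low _ h1.1 (by rw [hdim q (rev_ok_le hq)]; exact h0) (by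
        rw [hdim q (rev_ok_le hq)]
        exact lt_of_le_of_lt (rev_ok_le hq) hiJ)
    · intro q hq h0 _
      have h1 := hbm q hq
      have h2 := h.cyl _ h1.1 (by rw [hdim q (rev_ok_le hq)]; exact h0) (by
        rw [hdim q (rev_ok_le hq)]
        exact lt_of_le_of_lt (rev_ok_le hq) hiJ)
      exact CylAt.comp (M := M) (W := W) (W' := diskG i) (f := W.bd p) (p := q) (α := α) (β := β)
        (e := e) (hdim q (rev_ok_le hq)) (fun s => by
          rw [rev_disk_bd]
          exact hbd q (rev_ok_le hq) s) h2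
  have h1 := CylAt.eval (hGasg _) (hr i hiN hiJ).1
  have hpp : W.bd p (i, false) = p := bd_of_le p (i, false) (le_of_eq hi.symm)
  -- the values of the three functions
  have hA : ∀ q : D, (diskG i).ok q → M.eval G (tpG S (diskG i) N q) = β (W.bd p q) := by
    intro q hq
    rw [hG]
    refine Cyl_eval_tp (Z := ofGlob S (diskG i)) (W := diskG i) (φ := .var) fun h0 => ?_
    have h2 := hbm q hq
    exact h.low _ h2.1 (by rw [hdim q (rev_ok_le hq)]; exact h0) (by
      rw [hdim q (rev_ok_le hq)]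
      exact lt_of_le_of_lt (rev_ok_le hq) hiJ)
  have hBz : ∀ q : D, M.eval G (.var (.z q)) = α (W.bd p q) := by
    intro q
    rw [hG]
    rfl
  have hE : ∀ q : D, q.1 ≤ i → M.eval G (revE r q) =
      M.eval (CV.elim (fun s => α (W.bd (W.bd p q) s)) (fun s => β (W.bd (W.bd p q) s))
        (fun s => e (W.bd (W.bd p q) s))) (r (W.dim (W.bd p q))) := by
    intro q hq
    rw [hdim q hq]
    refine (eval_map M G (CV.map (bdD q) (bdD q)) (r q.1)).trans ?_
    congr 1
    funext v
    rw [hG]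
    cases v with
    | z s => exact congrArg α (hbd q hq s)
    | top s => exact congrArg β (hbd q hq s)
    | cyl s => exact congrArg e (hbd q hq s)
  have h2 : CylAt M x W β α (fun p => M.eval (CV.elim (fun q => α (W.bd p q))
      (fun q => β (W.bd p q)) (fun q => e (W.bd p q))) (r (W.dim p))) (W.bd p (i, false)) := by
    refine rev_of_comp (W := W) (W' := diskG i) (f := W.bd p) (p := (i, false)) ?_ ?_ ?_
    · exact hdim (i, false) le_rfl
    · intro s
      rw [rev_disk_bd]
      exact hbd (i, false) le_rfl s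
    · obtain ⟨c1, c2, c3, c4⟩ := h1
      have hE0 := hE (i, false) le_rfl
      have hpok : (diskG i).ok (i, false) := Or.inr ⟨rfl, rfl⟩
      have hbdok : ∀ q, (diskG i).ok ((diskG i).bd (i, false) q) := fun q => ok_bd hpok q
      refine ⟨?_, ?_, ?_, ?_⟩
      · beta_reduce
        rw [← hE0]
        exact c1
      · beta_reduce
        rw [← hE0]
        exact c2
      · beta_reduce
        rw [← hE0]
        refine c3.trans ?_
        unfold cs
        congr 1
        funext v
        cases v with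
        | z u => exact hA _ (hbdok u)
        | top u => exact hBz _
        | cyl u => exact hE _ (rev_ok_le (hbdok u))
      · beta_reduce
        rw [← hE0]
        exact c4.trans (hBz _)
  rw [hpp] at h2
  exact h2


/-- consequence of Theorem A: expansions preserve contractibility, all `L`, `n` -/
theorem expOK_all [S.Good] [S.Strat] (h : S.Hyp) (L n : ℕ) : ExpOK S L n :=
  (thmA h L n).expOK h

theorem CylG0_contr [S.Good] [S.Strat] (h : S.Hyp) {x : XFam S} {J : ℕ}
    (hx : ∀ j, j < J → XGoodAt x 0 j) {a : Glob} [a.Laws]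
    (ha : ∀ L, (ofGlob S a).MContr L) (L : ℕ) : (CylG x a 0 J).MContr L :=
  Cyl_contr (Z := ofGlob S a) (W := a) (φ := .var) (rev_ofGlob_isMap J a)
    (fun j _ hj => hx j hj) (fun j _ _ => expOK_all h L j) (ha L)

theorem Cyl0_contr [S.Good] [S.Strat] (h : S.Hyp) {x : XFam S} (hx : ∀ j, XGoodAt x 0 j)
    {a : Glob} [a.Laws] (ha : ∀ L, (ofGlob S a).MContr L) (L : ℕ) : (Cyl0 x a).MContr L := by
  have htp : ∀ p, tp (ofGlob S a) a .var 0 p = .var (.top p) := fun p => if_pos (Nat.zero_le _)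
  have hsrc : ∀ v, (CylG x a 0 (L + 1)).src v = (Cyl0 x a).src v := by
    intro v
    cases v with
    | z p => rfl
    | top p => exact htp _
    | cyl p =>
      rfl
  have htgt : ∀ v, (CylG x a 0 (L + 1)).tgt v = (Cyl0 x a).tgt v := by
    intro v
    cases v with
    | z p => rfl
    | top p => exact htp _
    | cyl p => rfl
  refine MContr.of_retract (X := Cyl0 x a) (Y := CylG x a 0 (L + 1)) (fun v => .var v)
    (fun v => .var v) ?_ ?_ (fun v _ _ => rfl) (CylG0_contr h (fun j _ => hx j) ha L)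
  · intro v hv hL
    refine ⟨?_, ?_, fun _ => ⟨?_, ?_⟩⟩
    · cases v with
      | z p => exact hv
      | top p => exact ⟨hv, Nat.zero_le _, Nat.lt_succ_of_lt hL⟩
      | cyl p =>
        have hL' : a.dim p + 1 < L := hL
        exact ⟨hv, Nat.zero_le _, by omega⟩
    · cases v <;> rfl
    · exact (hsrc v).trans (Tm.bind_var_self _).symm
    · exact (htgt v).trans (Tm.bind_var_self _).symm
  · intro v hv hL
    refine ⟨?_, ?_, fun _ => ⟨?_, ?_⟩⟩
    · cases v with
      | z p => exact hv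
      | top p => exact hv.1
      | cyl p => exact hv.1
    · cases v <;> rfl
    · exact (hsrc v).symm.trans (Tm.bind_var_self _).symm
    · exact (htgt v).symm.trans (Tm.bind_var_self _).symm

namespace L0Ex

open CsDisk

theorem disk_contr (h : S.Hyp) (j L : ℕ) : (ofGlob S (diskG j)).MContr L :=
  h (diskG j) (ArCl.disk j) L

theorem exists_x0 [S.Good] [S.Strat] (h : S.Hyp) :
    ∃ x : XFam S, x 0 = .var (.z (0, false)) ∧ ∀ j, XGoodAt x 0 j := by
  obtain ⟨x, h1, h2⟩ := exists_x_gen (S := S) 0 (fun _ => True) (fun _ _ => trivial)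
    (fun x j _ _ _ hx => CylG0_contr h (fun i hi => hx i (Nat.zero_le _) hi)
      (disk_contr h j) j)
  exact ⟨x, h1, fun j => h2 j (Nat.zero_le _) trivial⟩

theorem exists_r0 [S.Good] [S.Strat] (h : S.Hyp) {x : XFam S} (hx : ∀ j, XGoodAt x 0 j) :
    ∃ r : XFam S, ∀ j, RGoodAt x r 0 j := by
  obtain ⟨r, h1⟩ := exists_rev_gen x 0 (fun _ => True) (fun _ _ => trivial)
    (fun j _ _ => hx j) (fun j _ _ => CylG0_contr h (fun i _ => hx i) (disk_contr h j) (j + 1))
  exact ⟨r, fun j => h1 j (Nat.zero_le _) trivial⟩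

/-- a connection with its data -/
theorem exists_conn {X : Cptd S} {f g : S.T X.V} (h : X.Conn f g) :
    ∃ t : S.T X.V, X.tok t ∧ X.tdim t = X.tdim f + 1 ∧ X.tsrc t = f ∧ X.ttgt t = g := h

theorem exists_un [S.Good] [S.Strat] (h : S.Hyp) (j : ℕ) :
    ∃ u : S.T D, (ofGlob S (diskG j)).tok u ∧ (ofGlob S (diskG j)).tdim u = j + 1 ∧
      (ofGlob S (diskG j)).tsrc u = .var (j, false) ∧
      (ofGlob S (diskG j)).ttgt u = .var (j, false) := by
  have h1 : (diskG j).ok (j, false) := Or.inr ⟨rfl, rfl⟩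
  exact exists_conn (disk_contr h j (j + 1) (.var (j, false)) (.var (j, false))
    ⟨h1, h1, rfl, fun _ => ⟨rfl, rfl⟩⟩ (Nat.lt_succ_self j))

variable {x : XFam S}

/-! #### boundaries in `Zc` -/

theorem zc_z_map {j : ℕ} {q : D} (hq : (diskG j).ok q) :
    MapAt (diskG j) (Zc x j).m.toGlob (fun q => .var (.z (.z q))) q :=
  ⟨hq, rfl, fun _ => ⟨rfl, rfl⟩⟩

theorem zc_top_map {j : ℕ} {q : D} (hq : (diskG j).ok q) :
    MapAt (diskG j) (Zc x j).m.toGlob (fun q => .var (.z (.top q))) q := by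
  have hq' : q.1 < j ∨ (q.1 = j ∧ q.2 = false) := hq
  refine ⟨⟨hq, Nat.zero_le _, ?_⟩, rfl, fun _ => ⟨rfl, rfl⟩⟩
  show q.1 < j + 1
  omega

theorem zc_cylAt {j : ℕ} {q : D} (hq : (diskG j).ok q) :
    CylAt (Zc x j).m x (diskG j) (fun q => .var (.z (.z q))) (fun q => .var (.z (.top q)))
      (fun q => .var (.z (.cyl q))) q := by
  have hq' : q.1 < j ∨ (q.1 = j ∧ q.2 = false) := hq
  refine ⟨⟨hq, Nat.zero_le _, ?_⟩, rfl, ?_, rfl⟩
  · show q.1 < j + 1
    omega
  · refine (Tm.bind_bind (x ((diskG j).dim q)) _ _).trans ?_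
    show (x ((diskG j).dim q)).bind _ = (x ((diskG j).dim q)).bind _
    congr 1
    funext v
    cases v <;> rfl

/-- the terms `w0` -/
theorem exists_w0 [S.Good] [S.Strat] (hx : ∀ j, XGoodAt x 0 j)
    (hZ : ∀ j L, (Zc x j).MContr L) (j : ℕ) :
    ∃ w : S.T (CV (CV D D) Bool), (Zc x j).tok w ∧ (Zc x j).tdim w = j + 1 ∧
      (Zc x j).tsrc w = w0src x j ∧ (Zc x j).ttgt w = .var (.top true) := by
  obtain ⟨α, hαd⟩ : ∃ α : D → S.T (CV (CV D D) Bool), α = fun q =>
    if q.1 < j then .var (.z (.z q)) else .var (.top false) := ⟨_, rfl⟩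
  have hα1 : ∀ q : D, q.1 < j → α q = .var (.z (.z q)) := by
    intro q hq
    rw [hαd]
    exact if_pos hq
  have hα2 : α (j, false) = .var (.top false) := by
    rw [hαd]
    exact if_neg (lt_irrefl j)
  have hw : w0src x j = (x j).bind (CV.elim α (fun q => .var (.z (.top q)))
      (fun q => .var (.z (.cyl q)))) := by
    rw [hαd]
    rfl
  have hα : ∀ q, (diskG j).ok q → MapAt (diskG j) (Zc x j).m.toGlob α q := by
    intro q hq
    have hq' : q.1 < j ∨ (q.1 = j ∧ q.2 = false) := hq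
    rcases hq' with h1 | h1
    · obtain ⟨a1, a2, a3⟩ := zc_z_map (x := x) hq
      refine ⟨by rw [hα1 q h1]; exact a1, by rw [hα1 q h1]; exact a2, fun h0 => ?_⟩
      rw [hα1 q h1, hα1 _ (show ((diskG j).src q).1 < j from lt_of_le_of_lt (Nat.sub_le _ _) h1),
        hα1 _ (show ((diskG j).tgt q).1 < j from lt_of_le_of_lt (Nat.sub_le _ _) h1)]
      exact a3 h0
    · obtain ⟨q1, q2⟩ := q
      simp only at h1
      obtain ⟨rfl, rfl⟩ := h1
      refine ⟨by rw [hα2]; exact trivial, by rw [hα2]; rfl, fun h0 => ?_⟩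
      have h0' : 0 < q1 := h0
      rw [hα2, hα1 _ (show ((diskG q1).src (q1, false)).1 < q1 by show q1 - 1 < q1; omega),
        hα1 _ (show ((diskG q1).tgt (q1, false)).1 < q1 by show q1 - 1 < q1; omega)]
      exact ⟨rfl, rfl⟩
  have hc : ∀ q : D, q.1 < j → CylAt (Zc x j).m x (diskG j) α
      (fun q => .var (.z (.top q))) (fun q => .var (.z (.cyl q))) q := by
    intro q hq
    obtain ⟨a1, a2, a3, a4⟩ := zc_cylAt (x := x) (show (diskG j).ok q from Or.inl hq)
    refine ⟨a1, a2, a3.trans ?_, a4⟩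
    unfold cs
    congr 1
    funext v
    cases v with
    | z r =>
      show Tm.var (CV.z (CV.z ((diskG j).bd q r))) = α ((diskG j).bd q r)
      refine (hα1 _ ?_).symm
      rw [diskG_bd]
      unfold bdD
      split <;> omega
    | top r => rfl
    | cyl r => rfl
  obtain ⟨h1, h2, h3⟩ := cs_disk_spec hx (M := (Zc x j).m) hα
    (fun q hq => zc_top_map (x := x) (Or.inl hq)) hc
  have h4 := hZ j (j + 1) (w0src x j) (.var (.top true)) ?_ ?_
  · obtain ⟨w, k1, k2, k3, k4⟩ := h4
    refine ⟨w, k1, k2.trans ?_, k3, k4⟩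
    rw [hw]
    exact congrArg (· + 1) h2
  · rw [hw]
    refine ⟨h1, trivial, h2, fun h0 => ?_⟩
    have h0' : 0 < j := lt_of_lt_of_eq h0 h2
    exact h3 h0'
  · rw [hw]
    exact lt_of_eq_of_lt h2 (Nat.lt_succ_self j)

theorem exists_w1 [S.Good] [S.Strat] (hx : ∀ j, XGoodAt x 0 j)
    (hZ : ∀ j L, (Zc x j).MContr L) (j : ℕ) {w : S.T (CV (CV D D) Bool)}
    (h1 : (Zc x j).tok w) (h2 : (Zc x j).tdim w = j + 1)
    (h3 : (Zc x j).tsrc w = w0src x j) (h4 : (Zc x j).ttgt w = .var (.top true)) :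
    ∃ w' : S.T (CV (CV D D) Bool), (Zc x j).tok w' ∧ (Zc x j).tdim w' = j + 2 ∧
      (Zc x j).tsrc w' = w1src x w j ∧ (Zc x j).ttgt w' = .var (.cyl true) := by
  obtain ⟨α, hαd⟩ : ∃ α : D → S.T (CV (CV D D) Bool), α = fun q =>
    if q.1 < j then .var (.z (.z q)) else if q = (j, false) then .var (.z (.z q))
      else if q = (j, true) then .var (.top false) else .var (.cyl false) := ⟨_, rfl⟩
  obtain ⟨β, hβd⟩ : ∃ β : D → S.T (CV (CV D D) Bool), β = fun q =>
    if q.1 < j then .var (.z (.top q)) else if q = (j, false) then .var (.z (.top q))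
      else .var (.top true) := ⟨_, rfl⟩
  obtain ⟨e, hed⟩ : ∃ e : D → S.T (CV (CV D D) Bool), e = fun q =>
    if q.1 < j then .var (.z (.cyl q)) else if q = (j, false) then .var (.z (.cyl q))
      else w := ⟨_, rfl⟩
  have hw : w1src x w j = (x (j + 1)).bind (CV.elim α β e) := by
    rw [hαd, hβd, hed]
    rfl
  -- values
  have hα1 : ∀ q : D, (diskG j).ok q → α q = .var (.z (.z q)) := by
    intro q hq
    have hq' : q.1 < j ∨ (q.1 = j ∧ q.2 = false) := hq
    rw [hαd]
    by_cases h5 : q.1 < j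
    · exact if_pos h5
    · have h6 : q = (j, false) := by
        obtain ⟨q1, q2⟩ := q
        simp only at hq' h5
        rcases hq' with h6 | ⟨h6, h7⟩
        · exact absurd h6 h5
        · rw [h6, h7]
      exact (if_neg h5).trans (if_pos h6)
  have hβ1 : ∀ q : D, (diskG j).ok q → β q = .var (.z (.top q)) := by
    intro q hq
    have hq' : q.1 < j ∨ (q.1 = j ∧ q.2 = false) := hq
    rw [hβd]
    by_cases h5 : q.1 < j
    · exact if_pos h5
    · have h6 : q = (j, false) := by
        obtain ⟨q1, q2⟩ := q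
        simp only at hq' h5
        rcases hq' with h6 | ⟨h6, h7⟩
        · exact absurd h6 h5
        · rw [h6, h7]
      exact (if_neg h5).trans (if_pos h6)
  have he1 : ∀ q : D, (diskG j).ok q → e q = .var (.z (.cyl q)) := by
    intro q hq
    have hq' : q.1 < j ∨ (q.1 = j ∧ q.2 = false) := hq
    rw [hed]
    by_cases h5 : q.1 < j
    · exact if_pos h5
    · have h6 : q = (j, false) := by
        obtain ⟨q1, q2⟩ := q
        simp only at hq' h5
        rcases hq' with h6 | ⟨h6, h7⟩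
        · exact absurd h6 h5
        · rw [h6, h7]
      exact (if_neg h5).trans (if_pos h6)
  have hne : ((j, true) : D) ≠ (j, false) := fun h => by simp at h
  have hα2 : α (j, true) = .var (.top false) := by
    rw [hαd]
    show (if j < j then _ else if ((j, true) : D) = (j, false) then _ else
      if ((j, true) : D) = (j, true) then _ else _) = _
    rw [if_neg (lt_irrefl j), if_neg hne, if_pos rfl]
  have hα3 : α (j + 1, false) = .var (.cyl false) := by
    rw [hαd]
    show (if j + 1 < j then _ else if ((j + 1, false) : D) = (j, false) then _ else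
      if ((j + 1, false) : D) = (j, true) then _ else _) = _
    rw [if_neg (by omega), if_neg (by simp), if_neg (by simp)]
  have hβ2 : β (j, true) = .var (.top true) := by
    rw [hβd]
    show (if j < j then _ else if ((j, true) : D) = (j, false) then _ else _) = _
    rw [if_neg (lt_irrefl j), if_neg hne]
  have he2 : e (j, true) = w := by
    rw [hed]
    show (if j < j then _ else if ((j, true) : D) = (j, false) then _ else _) = _
    rw [if_neg (lt_irrefl j), if_neg hne]
  -- positions of the disk of dimension `j + 1`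
  have hpos : ∀ q : D, q.1 < j + 1 → (diskG j).ok q ∨ q = (j, true) := by
    rintro ⟨q1, q2⟩ hq
    simp only at hq
    rcases Nat.lt_or_ge q1 j with h5 | h5
    · exact Or.inl (Or.inl h5)
    · have h6 : q1 = j := by omega
      subst h6
      cases q2 with
      | false => exact Or.inl (Or.inr ⟨rfl, rfl⟩)
      | true => exact Or.inr rfl
  have hlow : ∀ q : D, q.1 < j → (diskG j).ok q := fun q hq => Or.inl hq
  -- `α`
  have hα : ∀ q, (diskG (j + 1)).ok q → MapAt (diskG (j + 1)) (Zc x j).m.toGlob α q := by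
    intro q hq
    have hq' : q.1 < j + 1 ∨ (q.1 = j + 1 ∧ q.2 = false) := hq
    rcases hq' with h5 | h5
    · rcases hpos q h5 with h6 | h6
      · obtain ⟨a1, a2, a3⟩ := zc_z_map (x := x) h6
        refine ⟨by rw [hα1 q h6]; exact a1, by rw [hα1 q h6]; exact a2, fun h0 => ?_⟩
        have h0' : 0 < q.1 := h0
        have hs : (diskG j).ok ((diskG (j + 1)).src q) := hlow _ (by show q.1 - 1 < j; omega)
        have ht : (diskG j).ok ((diskG (j + 1)).tgt q) := hlow _ (by show q.1 - 1 < j; omega)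
        rw [hα1 q h6, hα1 _ hs, hα1 _ ht]
        exact a3 h0
      · subst h6
        refine ⟨by rw [hα2]; exact trivial, by rw [hα2]; rfl, fun h0 => ?_⟩
        have h0' : 0 < j := h0
        have hs : (diskG j).ok ((diskG (j + 1)).src (j, true)) :=
          hlow _ (by show j - 1 < j; omega)
        have ht : (diskG j).ok ((diskG (j + 1)).tgt (j, true)) :=
          hlow _ (by show j - 1 < j; omega)
        rw [hα2, hα1 _ hs, hα1 _ ht]
        exact ⟨rfl, rfl⟩
    · obtain ⟨q1, q2⟩ := q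
      simp only at h5
      obtain ⟨rfl, rfl⟩ := h5
      refine ⟨by rw [hα3]; exact trivial, by rw [hα3]; rfl, fun _ => ?_⟩
      rw [hα3]
      refine ⟨?_, ?_⟩
      · show _ = α (j, false)
        rw [hα1 (j, false) (Or.inr ⟨rfl, rfl⟩)]
        rfl
      · show _ = α (j, true)
        rw [hα2]
        rfl
  have hβ : ∀ q : D, q.1 < j + 1 → MapAt (diskG (j + 1)) (Zc x j).m.toGlob β q := by
    intro q hq
    rcases hpos q hq with h6 | h6
    · obtain ⟨a1, a2, a3⟩ := zc_top_map (x := x) h6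
      refine ⟨by rw [hβ1 q h6]; exact a1, by rw [hβ1 q h6]; exact a2, fun h0 => ?_⟩
      have h0' : 0 < q.1 := h0
      have hs : (diskG j).ok ((diskG (j + 1)).src q) := hlow _ (by show q.1 - 1 < j; omega)
      have ht : (diskG j).ok ((diskG (j + 1)).tgt q) := hlow _ (by show q.1 - 1 < j; omega)
      rw [hβ1 q h6, hβ1 _ hs, hβ1 _ ht]
      exact a3 h0
    · subst h6
      refine ⟨by rw [hβ2]; exact trivial, by rw [hβ2]; rfl, fun h0 => ?_⟩
      have h0' : 0 < j := h0
      have hs : (diskG j).ok ((diskG (j + 1)).src (j, true)) :=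
        hlow _ (by show j - 1 < j; omega)
      have ht : (diskG j).ok ((diskG (j + 1)).tgt (j, true)) :=
        hlow _ (by show j - 1 < j; omega)
      rw [hβ2, hβ1 _ hs, hβ1 _ ht]
      exact ⟨rfl, rfl⟩
  have hc : ∀ q : D, q.1 < j + 1 → CylAt (Zc x j).m x (diskG (j + 1)) α β e q := by
    intro q hq
    rcases hpos q hq with h6 | h6
    · obtain ⟨a1, a2, a3, a4⟩ := zc_cylAt (x := x) h6
      refine ⟨by rw [he1 q h6]; exact a1, by rw [he1 q h6]; exact a2, ?_,
        by rw [he1 q h6, hβ1 q h6]; exact a4⟩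
      rw [he1 q h6]
      refine a3.trans ?_
      have hb : ∀ r, (diskG j).ok ((diskG j).bd q r) := fun r => ok_bd h6 r
      have hb' : ∀ r, (diskG (j + 1)).bd q r = (diskG j).bd q r := fun r => by
        rw [diskG_bd, diskG_bd]
      unfold cs
      show (Zc x j).m.eval _ (x q.1) = (Zc x j).m.eval _ (x q.1)
      congr 1
      funext v
      cases v with
      | z r =>
        show _ = α ((diskG (j + 1)).bd q r)
        rw [hb', hα1 _ (hb r)]
        rfl
      | top r =>
        show _ = β ((diskG (j + 1)).bd q r)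
        rw [hb', hβ1 _ (hb r)]
        rfl
      | cyl r =>
        show _ = e ((diskG (j + 1)).bd q r)
        rw [hb', he1 _ (hb r)]
        rfl
    · subst h6
      refine ⟨by rw [he2]; exact h1, by rw [he2]; exact h2, ?_, by rw [he2, hβ2]; exact h4⟩
      rw [he2]
      refine Eq.trans (b := w0src x j) h3 ?_
      show (x j).bind _ = (x j).bind _
      refine bind_congr (X := CylG x (diskG j) 0 j) (x j) (hx j).1 fun v hv => ?_
      have hbl : ∀ r : D, r.1 < j → (diskG (j + 1)).bd (j, true) r = r := fun r hr => by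
        rw [diskG_bd]
        unfold bdD
        exact if_pos hr
      cases v with
      | z r =>
        show (if r.1 < j then _ else _) = α ((diskG (j + 1)).bd (j, true) r)
        by_cases hr : r.1 < j
        · rw [if_pos hr, hbl r hr, hα1 r (hlow r hr)]
        · rw [if_neg hr]
          have : (diskG (j + 1)).bd (j, true) r = (j, true) := by
            rw [diskG_bd]
            unfold bdD
            exact if_neg hr
          rw [this, hα2]
      | top r =>
        show _ = β ((diskG (j + 1)).bd (j, true) r)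
        have hr : r.1 < j := hv.2.2
        rw [hbl r hr, hβ1 r (hlow r hr)]
        rfl
      | cyl r =>
        show _ = e ((diskG (j + 1)).bd (j, true) r)
        have hr : r.1 < j := hv.2.2
        rw [hbl r hr, he1 r (hlow r hr)]
        rfl
  obtain ⟨k1, k2, k3⟩ := cs_disk_spec hx (M := (Zc x j).m) hα hβ hc
  have k4 := hZ j (j + 2) (w1src x w j) (.var (.cyl true)) ?_ ?_
  · obtain ⟨w', m1, m2, m3, m4⟩ := k4
    refine ⟨w', m1, m2.trans ?_, m3, m4⟩
    rw [hw]
    exact congrArg (· + 1) k2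
  · rw [hw]
    refine ⟨k1, trivial, k2, fun _ => ?_⟩
    obtain ⟨n1, n2⟩ := k3 (Nat.succ_pos j)
    refine ⟨n1.trans ?_, n2.trans ?_⟩
    · show β (j, false) = _
      rw [hβ1 (j, false) (Or.inr ⟨rfl, rfl⟩)]
      rfl
    · show β (j, true) = _
      rw [hβ2]
      rfl
  · rw [hw]
    exact lt_of_eq_of_lt k2 (Nat.lt_succ_self _)

theorem exists_v [S.Good] [S.Strat] (h : S.Hyp) (hx : ∀ j, XGoodAt x 0 j) {r : XFam S}
    (hr : ∀ j, RGoodAt x r 0 j) (j : ℕ) (h0 : 0 < j) :
    ∃ t : S.T (CV D D), (CylG x (diskG j) 0 j).tok t ∧ (CylG x (diskG j) 0 j).tdim t = j + 1 ∧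
      (CylG x (diskG j) 0 j).tsrc t = x j ∧ (CylG x (diskG j) 0 j).ttgt t =
        (x j).bind (CV.elim (fun q => .var (.z q)) (fun q => .var (.top q))
          (cs (CylG x (diskG j) 0 j).m r (diskG j) (fun q => .var (.top q)) (fun q => .var (.z q))
            (cs (CylG x (diskG j) 0 j).m r (diskG j) (fun q => .var (.z q))
              (fun q => .var (.top q)) (fun q => .var (.cyl q))))) := by
  have hc0 : IsCyl x 0 j (diskG j) (CylG x (diskG j) 0 j).m (fun q => .var (.z q))
      (fun q => .var (.top q)) (fun q => .var (.cyl q)) :=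
    Cyl_isCyl (x := x) (Z := ofGlob S (diskG j)) (W := diskG j) (φ := .var) (N := 0) (J := j)
      (rev_ofGlob_isMap j (diskG j))
  have hc1 := hc0.rev_cs (r := r) (fun i _ _ => hx i) (fun i _ _ => hr i)
  have hc2 := hc1.rev_cs (r := r) (fun i _ _ => hx i) (fun i _ _ => hr i)
  obtain ⟨k1, k2, k3⟩ := cs_disk_spec hx (M := (CylG x (diskG j) 0 j).m) (j := j)
    (α := fun q => .var (.z q)) (β := fun q => .var (.top q))
    (fun q hq => ⟨hq, rfl, fun _ => ⟨rfl, rfl⟩⟩) (fun q hq => hc0.mapβ q (Or.inl hq) hq)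
    (fun q hq => hc2.cyl q (Or.inl hq) (Nat.zero_le _) hq)
  obtain ⟨g1, g2, g3⟩ := hx j
  have k4 := CylG0_contr h (fun i _ => hx i) (disk_contr h j) (j + 1) (J := j) (x j) _
    ⟨g1, k1, g2.trans k2.symm, fun _ => ?_⟩ (lt_of_eq_of_lt g2 (Nat.lt_succ_self j))
  · obtain ⟨t, m1, m2, m3, m4⟩ := k4
    exact ⟨t, m1, m2.trans (congrArg (· + 1) g2), m3, m4⟩
  · obtain ⟨n1, n2⟩ := g3 h0
    obtain ⟨n3, n4⟩ := k3 h0
    exact ⟨n1.trans n3.symm, n2.trans n4.symm⟩

end L0Ex

open L0Ex

theorem exists_L0 [S.Good] [S.Strat] (h : S.Hyp) : ∃ d : L0 S, d.Good := by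
  obtain ⟨x, hx0, hx⟩ := exists_x0 h
  obtain ⟨r, hr⟩ := exists_r0 h hx
  have hZ : ∀ j L, (Zc x j).MContr L := by
    intro j L
    have : (CylG x (diskG j) 0 (j + 1)).Good := CylG_good (fun i _ _ => hx i)
    refine expOK_all h L j (CylG x (diskG j) 0 (j + 1)) (fun _ : Bool => True) _ ?_
      (CylG0_contr h (fun i _ => hx i) (disk_contr h j) L)
    intro b _
    have h1 : (diskG j).ok (j, false) := Or.inr ⟨rfl, rfl⟩
    cases b with
    | false => exact ⟨h1, rfl⟩
    | true => exact ⟨⟨h1, Nat.zero_le _, Nat.lt_succ_self j⟩, rfl⟩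
  choose un hu1 hu2 hu3 hu4 using exists_un (S := S) h
  choose w0 hw1 hw2 hw3 hw4 using exists_w0 hx hZ
  choose w1 hv1 hv2 hv3 hv4 using fun j => exists_w1 hx hZ j (hw1 j) (hw2 j) (hw3 j) (hw4 j)
  have hv := fun j => exists_v h hx hr (j + 1) (Nat.succ_pos j)
  choose v ha1 ha2 ha3 ha4 using hv
  refine ⟨⟨x, r, un, w0, w1, fun j => v (j - 1)⟩, hx0, hx, hr, hu1, hu2, hu3, hu4, hw1, hw2, hw3,
    hw4, hv1, hv2, hv3, hv4, ?_, ?_, ?_, ?_⟩
  · intro j hj
    obtain ⟨i, rfl⟩ : ∃ i, j = i + 1 := ⟨j - 1, by omega⟩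
    exact ha1 i
  · intro j hj
    obtain ⟨i, rfl⟩ : ∃ i, j = i + 1 := ⟨j - 1, by omega⟩
    exact ha2 i
  · intro j hj
    obtain ⟨i, rfl⟩ : ∃ i, j = i + 1 := ⟨j - 1, by omega⟩
    exact ha3 i
  · intro j hj
    obtain ⟨i, rfl⟩ : ∃ i, j = i + 1 := ⟨j - 1, by omega⟩
    exact ha4 i

end HH
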