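import Pool.Agent.HH.CmpIsW
import Pool.Agent.HH.L0Ex
import Pool.Agent.HH.Hom

/-!
# HH part 3, CMP-9: every natural transformation `B Π Y → Y` is a weak equivalence
-/

set_option autoImplicit false

namespace HH

open Classical CategoryTheory

theorem starConvex_dk (j : ℕ) : StarConvex ℝ (0 : Fin j → ℝ) {x | ∑ i, x i ^ 2 ≤ 1} := by
  intro y hy a b ha hb hab
  have hy' : ∑ i, y i ^ 2 ≤ 1 := hy
  show ∑ i, (a • (0 : Fin j → ℝ) + b • y) i ^ 2 ≤ 1
  have e : ∑ i, (a • (0 : Fin j → ℝ) + b • y) i ^ 2 = b ^ 2 * ∑ i, y i ^ 2 := by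
    rw [Finset.mul_sum]
    refine Finset.sum_congr rfl fun i _ => ?_
    rw [smul_zero, zero_add, Pi.smul_apply, smul_eq_mul, mul_pow]
  rw [e]
  have h1 : b ^ 2 ≤ 1 := by nlinarith
  have h2 : 0 ≤ ∑ i, y i ^ 2 := Finset.sum_nonneg fun i _ => sq_nonneg _
  nlinarith

instance Dk.contractible (j : ℕ) : ContractibleSpace (Dk j) :=
  StarConvex.contractibleSpace (starConvex_dk j) ⟨0, by
    show ∑ i : Fin j, ((0 : Fin j → ℝ) i) ^ 2 ≤ 1
    simp⟩

theorem Dk.wct (j : ℕ) : WCt (Dk j) := WCt.of_contractible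

theorem PS.map_comp {X Y Z : Type} [TopologicalSpace X] [TopologicalSpace Y] [TopologicalSpace Z]
    (f : C(X, Y)) (g : C(Y, Z)) : (PS.map g).comp (PS.map f) = PS.map (g.comp f) := rfl

/-- coglobular families of paths between coglobular families of disks -/
theorem exists_paths (A : ℕ → Type) [∀ j, TopologicalSpace (A j)]
    (a : ∀ (_ : Bool) (j : ℕ), C(A j, A (j + 1)))
    (haa : ∀ b c c' j, (a c (j + 1)).comp (a b j) = (a c' (j + 1)).comp (a b j))
    (hA : ∀ j, WCt (A j)) (e : Bool → ∀ j, C(Dk j, A j))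
    (he : ∀ d b j, (e d (j + 1)).comp (sg b j) = (a b j).comp (e d j)) :
    ∃ K : ∀ j, C(Dk j, PS (A j)), (∀ d j, (evb _ d).comp (K j) = e d j) ∧
      ∀ b j, (K (j + 1)).comp (sg b j) = (PS.map (a b j)).comp (K j) := by
  let St : ℕ → Type := fun j => {K : C(Dk j, PS (A j)) // (∀ d, (evb _ d).comp K = e d j) ∧
    ParC ((PS.map (a false j)).comp K) ((PS.map (a true j)).comp K)}
  have step : ∀ j (s : St j), ∃ s' : St (j + 1),
      ∀ b, s'.1.comp (sg b j) = (PS.map (a b j)).comp s.1 := by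
    rintro j ⟨K, k1, k2⟩
    obtain ⟨H, h0, h1, h2⟩ := lift_ev2 (hA (j + 1)) (fun d => e d (j + 1))
      ((PS.map (a false j)).comp K) ((PS.map (a true j)).comp K) k2
      (fun b => by
        rw [he, ← k1]
        rfl)
      (fun b => by
        rw [he, ← k1]
        rfl)
    have hH : ∀ b, H.comp (sg b j) = (PS.map (a b j)).comp K := by
      intro b
      cases b
      · exact h0
      · exact h1
    refine ⟨⟨H, h2, ?_⟩, hH⟩
    rw [parC_succ]
    intro b
    rw [ContinuousMap.comp_assoc, ContinuousMap.comp_assoc, hH b, ← ContinuousMap.comp_assoc,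
      ← ContinuousMap.comp_assoc, PS.map_comp, PS.map_comp, haa b false true j]
  obtain ⟨H0, hH0⟩ := lift_ev2_zero (hA 0) (fun d => e d 0)
  let s0 : St 0 := ⟨H0, hH0, parC_zero _ _⟩
  let s : ∀ j, St j := fun j => Nat.rec s0 (fun j s => (step j s).choose) j
  refine ⟨fun j => (s j).1, fun d j => (s j).2.1 d, fun b j => ?_⟩
  exact (step j (s j)).choose_spec b

/-- the identity of the disk, as a cell -/
noncomputable def idc (j : ℕ) : (PiF.obj (TopCat.of (Dk j))).Cell :=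
  ⟨(⟨j, ContinuousMap.id _⟩ : (PiG (Dk j)).C), trivial⟩

/-- a disk as a cell -/
noncomputable def dcell {Y : TopCat.{0}} {j : ℕ} (f : C(Dk j, Y)) : (PiF.obj Y).Cell :=
  ⟨(⟨j, f⟩ : (PiG Y).C), trivial⟩

theorem dcell_eq {Y : TopCat.{0}} {j : ℕ} (f : C(Dk j, Y)) :
    dcell f = RHom.f (PiF.map (TopCat.ofHom f : TopCat.of (Dk j) ⟶ Y)) (idc j) := rfl

namespace TData

variable (τ : TData Cs) (ψ : PiF ⋙ τ.B ⟶ 𝟭 TopCat.{0})

/-- the self-map of the disk -/
noncomputable def sig (j : ℕ) : C(Dk j, Dk j) :=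
  (ψ.app (TopCat.of (Dk j))).hom.comp ((τ.B.map (cellHom (idc j) rfl)).hom.comp (τ.t j))

theorem T_idc (j : ℕ) : PiG.map (ψ.app (TopCat.of (Dk j))).hom (τ.T (idc j)) =
    ⟨j, τ.sig ψ j⟩ := rfl

/-- the image of the disk of a cell of `Π Y` -/
theorem psi_T {Y : TopCat.{0}} {j : ℕ} (f : C(Dk j, Y)) :
    PiG.map (ψ.app Y).hom (τ.T (dcell f)) = ⟨j, f.comp (τ.sig ψ j)⟩ := by
  rw [dcell_eq, ← τ.T_nat]
  have e := ψ.naturality (TopCat.ofHom f : TopCat.of (Dk j) ⟶ Y)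
  have e' := congrArg (fun g => PiG.map (TopCat.Hom.hom g) (τ.T (idc j))) e
  refine Eq.trans ?_ (e'.trans ?_)
  · rfl
  · rfl

theorem sig_sg (b : Bool) (j : ℕ) :
    (τ.sig ψ (j + 1)).comp (sg b j) = (sg b j).comp (τ.sig ψ j) := by
  have h : 0 < (PiF.obj (TopCat.of (Dk (j + 1)))).M.dim (idc (j + 1)).1 := Nat.succ_pos j
  have e1 := τ.psi_T ψ (Y := TopCat.of (Dk (j + 1))) (sg b j)
  have e2 : (dcell (sg b j) : (PiF.obj (TopCat.of (Dk (j + 1)))).Cell) =
      (PiF.obj (TopCat.of (Dk (j + 1)))).st b (idc (j + 1)) h := by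
    refine Subtype.ext ?_
    cases b <;> rfl
  rw [e2, ← τ.T_st b (idc (j + 1)) h] at e1
  have e3 := (PiG.map_st (ψ.app (TopCat.of (Dk (j + 1)))).hom b (τ.T (idc (j + 1)))).symm.trans e1
  have e4 : (PiG (Dk (j + 1))).st b ⟨j + 1, τ.sig ψ (j + 1)⟩ =
      ⟨j, (τ.sig ψ (j + 1)).comp (sg b j)⟩ := PiG.st_mk b _
  exact PiG.mk_inj (e4.symm.trans e3)

/-- the triple `(Π Y, Y, ψ)` -/
noncomputable def psX (Y : TopCat.{0}) : τ.Tri :=
  { left := PiF.obj Y, right := Y, hom := ψ.app Y }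

/-- The main lemma holds for `(Π Y, Y, ψ)`. -/
theorem psX_mainX (Y : TopCat.{0}) : τ.MainX (τ.psX ψ Y) := by
  obtain ⟨K, hK1, hK2⟩ := exists_paths (fun j => Dk j) (fun b j => sg b j)
    (fun b c c' j => ContinuousMap.ext fun x => Dk.sg_sg b c c' x) (fun j => Dk.wct j)
    (fun d j => if d then ContinuousMap.id _ else τ.sig ψ j)
    (fun d b j => by
      cases d
      · exact τ.sig_sg ψ b j
      · rfl)
  -- the path of a cell
  obtain ⟨κ, hκ⟩ : ∃ κ : (PiG Y).C → (PiG (PS Y)).C, κ = fun c =>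
    ⟨c.1, (PS.map c.2).comp (K c.1)⟩ := ⟨_, rfl⟩
  have κ1 : ∀ c, PiG.map (evb Y true) (κ c) = c := by
    rintro ⟨j, f⟩
    rw [hκ]
    show (⟨j, (evb Y true).comp ((PS.map f).comp (K j))⟩ : (PiG Y).C) = ⟨j, f⟩
    have e : (evb Y true).comp ((PS.map f).comp (K j)) = f.comp ((evb _ true).comp (K j)) := rfl
    rw [e, hK1]
    rfl
  have κ0 : ∀ c : (PiF.obj Y).Cell, PiG.map (evb Y false) (κ c.1) = τ.Tb (τ.psX ψ Y) c := by
    rintro ⟨⟨j, f⟩, hc⟩
    rw [hκ]
    show (⟨j, (evb Y false).comp ((PS.map f).comp (K j))⟩ : (PiG Y).C) = _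
    have e : (evb Y false).comp ((PS.map f).comp (K j)) = f.comp ((evb _ false).comp (K j)) := rfl
    rw [e, hK1]
    exact (τ.psi_T ψ f).symm
  have κs : ∀ b (c : (PiG Y).C), (PiG (PS Y)).st b (κ c) = κ ((PiG Y).st b c) := by
    rintro b ⟨_ | j, f⟩
    · rw [hκ]
      cases b <;> rfl
    · rw [hκ]
      have e : (PiG Y).st b ⟨j + 1, f⟩ = ⟨j, f.comp (sg b j)⟩ := PiG.st_mk b f
      rw [e]
      refine (PiG.st_mk b _).trans (congrArg (Sigma.mk j) ?_)
      show (PS.map f).comp ((K (j + 1)).comp (sg b j)) = _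
      rw [hK2]
      rfl
  refine ⟨fun y hy => ?_, fun u v huv w hw hs ht => ?_⟩
  · obtain ⟨j, f⟩ := y
    have hj : j = 0 := hy
    subst hj
    refine ⟨dcell f, rfl, ?_⟩
    have e1 : τ.Tb (τ.psX ψ Y) (dcell f) = ⟨0, f.comp (τ.sig ψ 0)⟩ := τ.psi_T ψ f
    have e2 : f.comp (τ.sig ψ 0) = f := by
      ext x
      refine congrArg f (Subtype.ext (funext fun i => i.elim0))
    rw [e1, e2]
    exact PiG.conn_refl _
  · have huv' : (PiG (PS Y)).Par (κ u.1) (κ v.1) := by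
      refine ⟨trivial, trivial, ?_, fun h => ⟨?_, ?_⟩⟩
      · rw [hκ]
        exact huv.2.2.1
      · refine (κs false u.1).trans (Eq.trans ?_ (κs false v.1).symm)
        refine congrArg κ (huv.2.2.2 ?_).1
        rw [hκ] at h
        exact h
      · refine (κs true u.1).trans (Eq.trans ?_ (κs true v.1).symm)
        refine congrArg κ (huv.2.2.2 ?_).2
        rw [hκ] at h
        exact h
    have hκd : ∀ c, (κ c).1 = c.1 := by
      intro c
      rw [hκ]
    obtain ⟨D, d1, d2, d3, d4⟩ := PiG.lift_evb false (c := w) huv'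
      (by
        rw [hκd]
        exact hw)
      ((κ0 u).trans hs.symm)
      ((κ0 v).trans ht.symm)
    have hD0 : 0 < D.1 := by
      rw [d1]
      exact Nat.succ_pos _
    let y : (PiF.obj Y).Cell := ⟨PiG.map (evb Y true) D, trivial⟩
    have ysrc : (PiG Y).src y.1 = u.1 := by
      refine (PiG.map_st (evb Y true) false D).symm.trans ?_
      exact (congrArg (PiG.map (evb Y true)) d2).trans (κ1 u.1)
    have ytgt : (PiG Y).tgt y.1 = v.1 := by
      refine (PiG.map_st (evb Y true) true D).symm.trans ?_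
      exact (congrArg (PiG.map (evb Y true)) d3).trans (κ1 v.1)
    have ydim : y.1.1 = u.1.1 + 1 := by
      show D.1 = _
      rw [d1, hκd]
    refine ⟨y, ydim, ysrc, ytgt, ?_⟩
    have e0 : τ.Tb (τ.psX ψ Y) y = PiG.map (evb Y false) (κ y.1) := (κ0 y).symm
    have e : (PiG Y).Conn (PiG.map (evb Y false) (κ y.1)) (PiG.map (evb Y false) D) := by
      refine PiG.conn_evb_of_evb true (K := κ y.1) (K' := D) ?_ ?_ false
      · refine ⟨trivial, trivial, ?_, fun h => ⟨?_, ?_⟩⟩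
        · show (κ y.1).1 = D.1
          rw [hκd]
          rfl
        · refine (κs false y.1).trans (Eq.trans ?_ d2.symm)
          exact congrArg κ ysrc
        · refine (κs true y.1).trans (Eq.trans ?_ d3.symm)
          exact congrArg κ ytgt
      · rw [κ1]
        exact PiG.conn_refl _
    have e1 : (PiG Y).Conn (PiG.map (evb Y false) (κ y.1)) w := d4 ▸ e
    exact e0 ▸ e1

/-- **Every natural transformation `B Π Y → Y` is a weak equivalence.** -/
theorem psi_isW (hM : τ.MainL) (Y : TopCat.{0}) : RMod.IsW (PiF.map (ψ.app Y)) := by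
  obtain ⟨d, hd⟩ := exists_L0 (S := Cs) Cs_hyp
  let f : τ.diag.obj (PiF.obj Y) ⟶ τ.psX ψ Y :=
    { left := 𝟙 _, right := ψ.app Y, w := by
        show τ.B.map (𝟙 _) ≫ ψ.app Y = 𝟙 _ ≫ ψ.app Y
        rw [τ.B.map_id]
        rfl }
  -- `W(f)` is a weak equivalence
  have h1 : τ.W.map f ≫ τ.sN.app (τ.psX ψ Y) = τ.sN.app (τ.diag.obj (PiF.obj Y)) ≫ 𝟙 _ :=
    τ.sN.naturality f
  have h2 : RMod.IsW (τ.W.map f ≫ τ.sN.app (τ.psX ψ Y)) := by
    rw [h1, Category.comp_id]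
    exact τ.sN_isW _
  have h3 : RMod.IsW (τ.W.map f) := RMod.IsW.of_comp (τ.sN_isW (τ.psX ψ Y)) h2
  -- the other projection
  have h4 : τ.W.map f ≫ τ.tN.app (τ.psX ψ Y) =
      τ.tN.app (τ.diag.obj (PiF.obj Y)) ≫ PiF.map (ψ.app Y) := τ.tN.naturality f
  have h5 : RMod.IsW (τ.tN.app (τ.diag.obj (PiF.obj Y)) ≫ PiF.map (ψ.app Y)) := by
    rw [← h4]
    exact h3.comp Cs_hyp (τ.tN_isW _ (τ.psX_mainX ψ Y))
  exact RMod.IsW.of_comp_left Cs_hyp hd (τ.tN_isW _ (hM.mainX (PiF.obj Y))) h5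

end TData

end HH
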