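import Pool.Agent.HH.GridB
import Pool.Agent.HH.CmpPsi

/-!
# HH part 3, CMP-11: cubes and disks

`qm n i : Cube n → Dk i` the iterated vertical coordinates; on `openX n i ε` the maps `qm n j`,
`j > i`, factor through the iterated hemisphere inclusions.  Coglobular families of disks in the
`openX n i ε` and of paths.
-/

set_option autoImplicit false

namespace HH

open Classical CategoryTheory

variable {n : ℕ}

/-- coordinates, extended by `0` -/
noncomputable def cco (y : Cube n) (i : ℕ) : unitInterval := if h : i < n then y ⟨i, h⟩ else 0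

theorem cco_fin (y : Cube n) (j : Fin n) : cco y j.1 = y j := dif_pos j.2

theorem continuous_cco (i : ℕ) : Continuous fun y : Cube n => cco y i := by
  by_cases h : i < n
  · have e : (fun y : Cube n => cco y i) = fun y => y ⟨i, h⟩ := funext fun y => dif_pos h
    rw [e]
    exact continuous_apply _
  · have e : (fun y : Cube n => cco y i) = fun _ => 0 := funext fun y => dif_neg h
    rw [e]
    exact continuous_const

/-- `u ↦ 2 u - 1` -/
noncomputable def toJ (u : unitInterval) : J1 :=
  ⟨2 * (u : ℝ) - 1, by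
    have h1 := u.2.1
    have h2 := u.2.2
    exact ⟨by linarith, by linarith⟩⟩

theorem continuous_toJ : Continuous toJ :=
  Continuous.subtype_mk ((continuous_const.mul continuous_subtype_val).sub continuous_const) _

theorem toJ_zero : toJ 0 = sgn false := by
  refine Subtype.ext ?_
  show 2 * ((0 : unitInterval) : ℝ) - 1 = -1
  rw [Set.Icc.coe_zero]
  norm_num

theorem toJ_one : toJ 1 = sgn true := by
  refine Subtype.ext ?_
  show 2 * ((1 : unitInterval) : ℝ) - 1 = 1
  rw [Set.Icc.coe_one]
  norm_num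

/-- the iterated vertical coordinates -/
noncomputable def qm (n : ℕ) : (i : ℕ) → C(Cube n, Dk i)
  | 0 => ContinuousMap.const _ ⟨Fin.elim0, by simp⟩
  | i + 1 => ⟨fun y => (qm n i y).seg (toJ (cco y i)),
      Dk.continuous_seg.comp (((qm n i).continuous).prodMk
        (continuous_toJ.comp (continuous_cco i)))⟩

theorem qm_succ (i : ℕ) (y : Cube n) : qm n (i + 1) y = (qm n i y).seg (toJ (cco y i)) := rfl

theorem sq_seg_of_sq {i : ℕ} (x : Dk i) (c : J1) (h : x.sq = 1) : (x.seg c).sq = 1 := by
  rw [Dk.sq_seg, h]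
  ring

theorem sq_qm {y : Cube n} (j : Fin n) (h : y j = 0 ∨ y j = 1) {i : ℕ} (hi : j.1 < i) :
    (qm n i y).sq = 1 := by
  obtain ⟨k, rfl⟩ : ∃ k, i = j.1 + 1 + k := ⟨i - (j.1 + 1), by omega⟩
  clear hi
  induction k with
  | zero =>
    show ((qm n j.1 y).seg (toJ (cco y j.1))).sq = 1
    rw [cco_fin]
    rcases h with h | h
    · rw [h, toJ_zero]
      exact Dk.sq_sg false _
    · rw [h, toJ_one]
      exact Dk.sq_sg true _
  | succ k ih => exact sq_seg_of_sq _ _ ih

/-- on `openX n i ε` the maps factor through the hemispheres -/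
theorem qm_openX {i : ℕ} {ε : Bool} {y : Cube n} (hy : y ∈ openX n i ε) {k : ℕ} (hk : i ≤ k) :
    qm n (k + 1) y = sg ε k (qm n k y) := by
  obtain ⟨j, ⟨hj, hyj⟩ | ⟨hj, hyj⟩⟩ := hy
  · have h01 : y j = 0 ∨ y j = 1 := by
      cases ε
      · exact Or.inl hyj
      · exact Or.inr hyj
    rcases Nat.lt_or_ge j.1 k with hk' | hk'
    · rw [qm_succ, Dk.sg_apply]
      exact Dk.seg_eq_of_sq _ (sq_qm j h01 hk') _ _
    · have e : k = j.1 := by omega
      subst e
      rw [qm_succ, Dk.sg_apply, cco_fin, hyj]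
      congr 1
      cases ε
      · exact toJ_zero
      · exact toJ_one
  · rw [qm_succ, Dk.sg_apply]
    exact Dk.seg_eq_of_sq _ (sq_qm j hyj (by omega)) _ _

section

variable {Y Z : Type} [TopologicalSpace Y] [TopologicalSpace Z]

/-- a disk as a map on the cube -/
noncomputable def evq (n : ℕ) (c : (PiG Y).C) : C(Cube n, Y) := c.2.comp (qm n c.1)

theorem evq_map (f : C(Y, Z)) (c : (PiG Y).C) : evq n (PiG.map f c) = f.comp (evq n c) := rfl

theorem evq_st {i : ℕ} {ε : Bool} {y : Cube n} (hy : y ∈ openX n i ε) (c : (PiG Y).C)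
    (hc : i < c.1) : evq n ((PiG Y).st ε c) y = evq n c y := by
  obtain ⟨k, f⟩ := c
  rcases k with _ | k
  · exact absurd hc (Nat.not_lt_zero _)
  rw [PiG.st_mk]
  show f (sg ε k (qm n k y)) = f (qm n (k + 1) y)
  rw [qm_openX hy (Nat.lt_succ_iff.1 hc)]

theorem PiG.st_bd (b : Bool) (c : (PiG Y).C) {q : D} (hq : q.1 ≤ c.1) (h0 : 0 < q.1) :
    (PiG Y).st b ((PiG Y).bd c q) = (PiG Y).bd c (q.1 - 1, b) := by
  cases b
  · exact src_bd (G := PiG Y) (x := c) trivial hq h0
  · exact tgt_bd (G := PiG Y) (x := c) trivial hq h0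

theorem evq_bd {i : ℕ} {ε : Bool} {y : Cube n} (hy : y ∈ openX n i ε) (c : (PiG Y).C)
    (hc : i ≤ c.1) : evq n ((PiG Y).bd c (i, ε)) y = evq n c y := by
  have key : ∀ m j : ℕ, j + m = c.1 → i ≤ j → evq n ((PiG Y).bd c (j, ε)) y = evq n c y := by
    intro m
    induction m with
    | zero =>
      intro j hj _
      rw [bd_of_le (G := PiG Y) c (j, ε) (by
        show c.1 ≤ j
        omega)]
    | succ m ih =>
      intro j hj hij
      rw [← ih (j + 1) (by omega) (by omega)]
      have e := PiG.st_bd ε c (q := (j + 1, ε)) (by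
        show j + 1 ≤ c.1
        omega) (Nat.succ_pos j)
      have e' : (PiG Y).bd c (j, ε) = (PiG Y).st ε ((PiG Y).bd c (j + 1, ε)) := e.symm
      rw [e']
      refine evq_st hy _ ?_
      have hd := dim_bd (G := PiG Y) (x := c) trivial (q := (j + 1, ε)) (by
        show j + 1 ≤ c.1
        omega)
      have hd' : ((PiG Y).bd c (j + 1, ε)).1 = j + 1 := hd
      rw [hd']
      omega
  exact key (c.1 - i) i (by omega) (le_refl _)

end

/-! ### Concatenation of paths -/

section Cat

variable {X Y Z : Type} [TopologicalSpace X] [TopologicalSpace Y] [TopologicalSpace Z]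

/-- concatenation of families of paths -/
noncomputable def pcat (K L : C(X, PS Y)) (h : ∀ x, K x 1 = L x 0) : C(X, PS Y) :=
  ContinuousMap.curry ⟨fun p : X × unitInterval =>
    if (p.2 : ℝ) ≤ 1 / 2 then K p.1 (Set.projIcc 0 1 zero_le_one (2 * (p.2 : ℝ)))
      else L p.1 (Set.projIcc 0 1 zero_le_one (2 * (p.2 : ℝ) - 1)), by
    have hu : Continuous fun p : X × unitInterval => (p.2 : ℝ) :=
      continuous_subtype_val.comp continuous_snd
    refine Continuous.if_le ?_ ?_ hu continuous_const ?_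
    · exact K.uncurry.continuous.comp (f := fun p : X × unitInterval =>
        (p.1, Set.projIcc 0 1 zero_le_one (2 * (p.2 : ℝ))))
        (continuous_fst.prodMk (continuous_projIcc.comp (continuous_const.mul hu)))
    · exact L.uncurry.continuous.comp (f := fun p : X × unitInterval =>
        (p.1, Set.projIcc 0 1 zero_le_one (2 * (p.2 : ℝ) - 1)))
        (continuous_fst.prodMk (continuous_projIcc.comp
          ((continuous_const.mul hu).sub continuous_const)))
    · intro p hp
      rw [hp]
      have e1 : Set.projIcc (0 : ℝ) 1 zero_le_one (2 * (1 / 2)) = 1 := by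
        rw [show (2 : ℝ) * (1 / 2) = 1 by norm_num]
        exact Set.projIcc_right zero_le_one
      have e2 : Set.projIcc (0 : ℝ) 1 zero_le_one (2 * (1 / 2) - 1) = 0 := by
        rw [show (2 : ℝ) * (1 / 2) - 1 = 0 by norm_num]
        exact Set.projIcc_left zero_le_one
      rw [e1, e2]
      exact h p.1⟩

theorem pcat_apply (K L : C(X, PS Y)) (h : ∀ x, K x 1 = L x 0) (x : X) (u : unitInterval) :
    pcat K L h x u = if (u : ℝ) ≤ 1 / 2 then K x (Set.projIcc 0 1 zero_le_one (2 * (u : ℝ)))
      else L x (Set.projIcc 0 1 zero_le_one (2 * (u : ℝ) - 1)) := rfl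

theorem pcat_zero (K L : C(X, PS Y)) (h : ∀ x, K x 1 = L x 0) (x : X) :
    pcat K L h x 0 = K x 0 := by
  rw [pcat_apply, Set.Icc.coe_zero, if_pos (by norm_num), mul_zero]
  congr 1
  exact Set.projIcc_left zero_le_one

theorem pcat_one (K L : C(X, PS Y)) (h : ∀ x, K x 1 = L x 0) (x : X) :
    pcat K L h x 1 = L x 1 := by
  rw [pcat_apply, Set.Icc.coe_one, if_neg (by norm_num)]
  congr 1
  rw [show (2 : ℝ) * 1 - 1 = 1 by norm_num]
  exact Set.projIcc_right zero_le_one

theorem pcat_comp (K L : C(X, PS Y)) (h : ∀ x, K x 1 = L x 0) (g : C(Z, X)) :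
    (pcat K L h).comp g = pcat (K.comp g) (L.comp g) (fun z => h (g z)) := rfl

theorem map_pcat (K L : C(X, PS Y)) (h : ∀ x, K x 1 = L x 0) (f : C(Y, Z)) :
    (PS.map f).comp (pcat K L h) = pcat ((PS.map f).comp K) ((PS.map f).comp L)
      (fun x => congrArg f (h x)) := by
  ext x u
  show f (pcat K L h x u) = _
  rw [pcat_apply, pcat_apply]
  split
  · rfl
  · rfl

theorem pcat_congr {K K' L L' : C(X, PS Y)} (h : ∀ x, K x 1 = L x 0) (e : K = K') (e' : L = L')
    (h' : ∀ x, K' x 1 = L' x 0) : pcat K L h = pcat K' L' h' := by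
  subst e
  subst e'
  rfl

end Cat

/-! ### Coglobular families -/

/-- the inclusion of the open box -/
def oxI (n i : ℕ) (ε : Bool) : C(openX n i ε, Cube n) := ⟨Subtype.val, continuous_subtype_val⟩

theorem openX_wct {i : ℕ} (hi : i < n) (ε : Bool) : WCt (openX n i ε) := by
  have := contractible_openX hi ε
  exact WCt.of_contractible

theorem cube_wct : WCt (Cube n) := by
  have : ContractibleSpace (Cube n) := by
    rw [contractible_iff_id_nullhomotopic]
    refine ⟨fun _ => 0, ⟨{
      toFun := fun p => cseg p.2 (fun _ => 0) p.1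
      continuous_toFun := continuous_cseg.comp
        ((continuous_snd.prodMk continuous_const).prodMk continuous_fst)
      map_zero_left := fun x => cseg_zero _ _
      map_one_left := fun x => cseg_one _ _ }⟩⟩
  exact WCt.of_contractible

/-- coglobular families of disks in the open boxes -/
theorem exists_eX (n : ℕ) : ∃ e : ∀ i, i < n → ∀ ε : Bool, C(Dk i, openX n i ε),
    ∀ i (hi : i + 1 < n) (ε b : Bool) (x : Dk i),
      (e (i + 1) hi ε (sg b i x)).1 = (e i (Nat.lt_of_succ_lt hi) b x).1 := by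
  let St : ℕ → Type := fun i => {e : ∀ ε : Bool, C(Dk i, openX n i ε) //
    ParC ((oxI n i false).comp (e false)) ((oxI n i true).comp (e true))}
  have step : ∀ i (_ : i + 1 < n) (s : St i), ∃ s' : St (i + 1),
      ∀ (ε b : Bool) (x : Dk i), (s'.1 ε (sg b i x)).1 = (s.1 b x).1 := by
    rintro i hi ⟨e, he⟩
    have hinc : ∀ (b ε : Bool), ∃ c : C(Dk i, openX n (i + 1) ε),
        ∀ x, (c x).1 = (e b x).1 := fun b ε =>
      ⟨⟨fun x => ⟨(e b x).1, openX_mono (Nat.lt_succ_self i) b ε (e b x).2⟩,
        Continuous.subtype_mk (continuous_subtype_val.comp (e b).continuous) _⟩, fun _ => rfl⟩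
    have key : ∀ ε : Bool, ∃ g : C(Dk (i + 1), openX n (i + 1) ε), ∀ (b : Bool) (x : Dk i),
        (g (sg b i x)).1 = (e b x).1 := by
      intro ε
      obtain ⟨c0, h0⟩ := hinc false ε
      obtain ⟨c1, h1⟩ := hinc true ε
      obtain ⟨g, g0, g1⟩ := (openX_wct hi ε).conn (f := c0) (g := c1) (fun x hx =>
        Subtype.ext ((h0 x).trans ((he x hx).trans (h1 x).symm)))
      refine ⟨g, fun b x => ?_⟩
      cases b
      · exact (congrArg Subtype.val (DFunLike.congr_fun g0 x)).trans (h0 x)
      · exact (congrArg Subtype.val (DFunLike.congr_fun g1 x)).trans (h1 x)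
    choose g hg using key
    refine ⟨⟨g, ?_⟩, hg⟩
    rw [parC_succ]
    intro b
    ext x : 1
    exact (hg false b x).trans (hg true b x).symm
  have h0 : 0 < n → Nonempty (St 0) := by
    intro hn
    obtain ⟨y0⟩ := (openX_wct hn false).1
    obtain ⟨y1⟩ := (openX_wct hn true).1
    exact ⟨⟨fun ε => match ε with
      | false => ContinuousMap.const _ y0
      | true => ContinuousMap.const _ y1, parC_zero _ _⟩⟩
  let s : ∀ i, i < n → St i := fun i => Nat.rec (motive := fun i => i < n → St i)
    (fun hn => Classical.choice (h0 hn))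
    (fun i s hi => (step i hi (s (Nat.lt_of_succ_lt hi))).choose) i
  exact ⟨fun i hi => (s i hi).1, fun i hi ε b x =>
    (step i hi (s i (Nat.lt_of_succ_lt hi))).choose_spec ε b x⟩

/-- coglobular families of paths in the disks -/
theorem exists_L2 (n : ℕ) (e : Bool → ∀ i, i < n → Bool → C(Dk i, Dk i))
    (he : ∀ d i (hi : i + 1 < n) (ε b : Bool), (e d (i + 1) hi ε).comp (sg b i) =
      (sg b i).comp (e d i (Nat.lt_of_succ_lt hi) b)) :
    ∃ K : ∀ i, i < n → Bool → C(Dk i, PS (Dk i)),
      (∀ d i hi ε, (evb _ d).comp (K i hi ε) = e d i hi ε) ∧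
      ∀ i (hi : i + 1 < n) (ε b : Bool), (K (i + 1) hi ε).comp (sg b i) =
        (PS.map (sg b i)).comp (K i (Nat.lt_of_succ_lt hi) b) := by
  let St : ∀ i, i < n → Type := fun i hi => {K : Bool → C(Dk i, PS (Dk i)) //
    (∀ d ε, (evb _ d).comp (K ε) = e d i hi ε) ∧
    ParC ((PS.map (sg false i)).comp (K false)) ((PS.map (sg true i)).comp (K true))}
  have step : ∀ i (hi : i + 1 < n) (s : St i (Nat.lt_of_succ_lt hi)), ∃ s' : St (i + 1) hi,
      ∀ ε b, (s'.1 ε).comp (sg b i) = (PS.map (sg b i)).comp (s.1 b) := by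
    rintro i hi ⟨K, k1, k2⟩
    have key : ∀ ε : Bool, ∃ H : C(Dk (i + 1), PS (Dk (i + 1))),
        (∀ b, H.comp (sg b i) = (PS.map (sg b i)).comp (K b)) ∧
        ∀ d, (evb _ d).comp H = e d (i + 1) hi ε := by
      intro ε
      obtain ⟨H, h0, h1, h2⟩ := lift_ev2 (Dk.wct (i + 1)) (fun d => e d (i + 1) hi ε)
        ((PS.map (sg false i)).comp (K false)) ((PS.map (sg true i)).comp (K true)) k2
        (fun d => by
          rw [he, ← k1]
          rfl)
        (fun d => by
          rw [he, ← k1]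
          rfl)
      refine ⟨H, fun b => ?_, h2⟩
      cases b
      · exact h0
      · exact h1
    choose H hH1 hH2 using key
    refine ⟨⟨H, fun d ε => hH2 ε d, ?_⟩, fun ε b => hH1 ε b⟩
    rw [parC_succ]
    intro b
    rw [ContinuousMap.comp_assoc, ContinuousMap.comp_assoc, hH1, hH1,
      ← ContinuousMap.comp_assoc, ← ContinuousMap.comp_assoc, PS.map_comp, PS.map_comp]
    have e : (sg false (i + 1)).comp (sg b i) = (sg true (i + 1)).comp (sg b i) :=
      ContinuousMap.ext fun x => Dk.sg_sg b false true x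
    rw [e]
  have h0 : ∀ hn : 0 < n, Nonempty (St 0 hn) := by
    intro hn
    have key : ∀ ε : Bool, ∃ H : C(Dk 0, PS (Dk 0)), ∀ d, (evb _ d).comp H = e d 0 hn ε :=
      fun ε => lift_ev2_zero (Dk.wct 0) (fun d => e d 0 hn ε)
    choose H hH using key
    exact ⟨⟨H, fun d ε => hH ε d, parC_zero _ _⟩⟩
  let s : ∀ i (hi : i < n), St i hi := fun i =>
    Nat.rec (motive := fun i => ∀ hi : i < n, St i hi)
      (fun hn => Classical.choice (h0 hn))
      (fun i s hi => (step i hi (s (Nat.lt_of_succ_lt hi))).choose) i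
  exact ⟨fun i hi => (s i hi).1, fun d i hi ε => (s i hi).2.1 d ε, fun i hi ε b =>
    (step i hi (s i (Nat.lt_of_succ_lt hi))).choose_spec ε b⟩

end HH
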