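import Pool.Agent.HH.GridV
import Pool.Agent.HH.BFun
import Pool.Agent.HH.CmpQ
import Pool.Agent.HH.CmpFib
import Pool.Agent.HH.AL

/-!
# HH part 3, CMP-13: the main lemma
-/

set_option autoImplicit false

namespace HH

open Classical CategoryTheory

/-! ### Generalities -/

namespace TData

variable (τ : TData Cs)

/-- iterated boundaries of the disk of a cell -/
theorem T_bd {M : RMod Cs} (x : M.Cell) {q : D} (hq : q.1 ≤ M.M.dim x.1) :
    (PiG (τ.B.obj M)).bd (τ.T x) q = τ.T (M.bdC x q) := by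
  have key : ∀ (m j : ℕ) (ε : Bool), j + m = M.M.dim x.1 →
      (PiG (τ.B.obj M)).bd (τ.T x) (j, ε) = τ.T (M.bdC x (j, ε)) := by
    intro m
    induction m with
    | zero =>
      intro j ε hj
      have h : M.M.dim x.1 ≤ j := by omega
      have e : M.bdC x (j, ε) = x := Subtype.ext (bd_of_le x.1 (j, ε) h)
      rw [e]
      exact bd_of_le (G := PiG (τ.B.obj M)) (τ.T x) (j, ε) h
    | succ m ih =>
      intro j ε hj
      have hd : (j + 1, ε).1 ≤ M.M.dim x.1 := by
        show j + 1 ≤ _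
        omega
      have e1 : (PiG (τ.B.obj M)).bd (τ.T x) (j, ε) =
          (PiG (τ.B.obj M)).st ε ((PiG (τ.B.obj M)).bd (τ.T x) (j + 1, ε)) :=
        (PiG.st_bd ε (τ.T x) (q := (j + 1, ε)) hd (Nat.succ_pos j)).symm
      have hdim : M.M.dim (M.bdC x (j + 1, ε)).1 = j + 1 := dim_bd x.2 hd
      have h0 : 0 < M.M.dim (M.bdC x (j + 1, ε)).1 := by
        rw [hdim]
        exact Nat.succ_pos j
      have e2 : M.st ε (M.bdC x (j + 1, ε)) h0 = M.bdC x (j, ε) := by
        refine Subtype.ext ?_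
        cases ε
        · exact src_bd x.2 hd (Nat.succ_pos j)
        · exact tgt_bd x.2 hd (Nat.succ_pos j)
      rw [e1, ih (j + 1) ε (by omega), ← e2]
      exact τ.T_st ε _ h0
  exact key (M.M.dim x.1 - q.1) q.1 q.2 (by omega)

variable {τ}

/-- cells of `V` -/
noncomputable def vcell (Z : τ.TriV) (x : Z.right.Cell) (H : (PiG (PS (τ.B.obj Z.right))).C)
    (e : (PiG Z.left).C) (h0 : PiG.map (evb (τ.B.obj Z.right) false) H = τ.T x)
    (h1 : PiG.map (evb (τ.B.obj Z.right) true) H = PiG.map Z.hom.hom e) :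
    (τ.V.obj Z).Cell :=
  ⟨((⟨(x, H), h0⟩ : τ.WC (τ.diag.obj Z.right)), e), τ.V_ok.2 h1⟩

/-- components of the boundary of a cell of `V` -/
theorem vcell_st {Z Z' : τ.TriV} (f : Z ⟶ Z') (b : Bool) {x : Z.right.Cell}
    {H : (PiG (PS (τ.B.obj Z.right))).C} {e : (PiG Z.left).C}
    {h0 : PiG.map (evb (τ.B.obj Z.right) false) H = τ.T x}
    {h1 : PiG.map (evb (τ.B.obj Z.right) true) H = PiG.map Z.hom.hom e}
    {x' : Z'.right.Cell} {H' : (PiG (PS (τ.B.obj Z'.right))).C} {e' : (PiG Z'.left).C}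
    {h0' : PiG.map (evb (τ.B.obj Z'.right) false) H' = τ.T x'}
    {h1' : PiG.map (evb (τ.B.obj Z'.right) true) H' = PiG.map Z'.hom.hom e'}
    (hx' : 0 < Z'.right.M.dim x'.1) (kx : (Z'.right.st b x' hx').1 = (RHom.f f.right x).1)
    (kH : (PiG (PS (τ.B.obj Z'.right))).st b H' = PiG.map (PS.map (τ.B.map f.right).hom) H)
    (ke : (PiG Z'.left).st b e' = PiG.map f.left.hom e) :
    (τ.V.obj Z').M.toGlob.st b (vcell Z' x' H' e' h0' h1').1 =
      (RHom.f (τ.V.map f) (vcell Z x H e h0 h1)).1 := by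
  have key : ∀ p : τ.WC (τ.diag.obj Z'.right), p = ⟨(x', H'), h0'⟩ →
      WC.st b p = WC.map (τ.diag.map f.right) (⟨(x, H), h0⟩ : τ.WC (τ.diag.obj Z.right)) := by
    rintro p rfl
    exact WC.st_eq (X := τ.diag.obj Z'.right) b hx' kx kH
  cases b
  · exact Prod.ext (key _ rfl) ke
  · exact Prod.ext (key _ rfl) ke

end TData

/-- parallelism from coglobularity -/
theorem parC_of_L2 {n : ℕ} {K : ∀ i, i < n → Bool → C(Dk i, PS (Dk i))}
    (hK : ∀ i (hi : i + 1 < n) (ε b : Bool), (K (i + 1) hi ε).comp (sg b i) =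
      (PS.map (sg b i)).comp (K i (Nat.lt_of_succ_lt hi) b)) (i : ℕ) (hi : i < n) :
    ParC ((PS.map (sg false i)).comp (K i hi false))
      ((PS.map (sg true i)).comp (K i hi true)) := by
  cases i with
  | zero => exact parC_zero _ _
  | succ i =>
    rw [parC_succ]
    intro b
    rw [ContinuousMap.comp_assoc, ContinuousMap.comp_assoc, hK, hK,
      ← ContinuousMap.comp_assoc, ← ContinuousMap.comp_assoc, PS.map_comp, PS.map_comp]
    have e : (sg false (i + 1)).comp (sg b i) = (sg true (i + 1)).comp (sg b i) :=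
      ContinuousMap.ext fun x => Dk.sg_sg b false true x
    rw [e]

/-! ### The diagram of triples -/

section

variable {z : ZFam Cs} {hz : ZGood z}

/-- the data with `B = BF z hz` -/
noncomputable abbrev tdM (wc : ∀ M : RMod Cs, M.Ctr → WCt ((BF z hz).obj M))
    (t : ∀ j, C(Dk j, (BF z hz).obj (FD Cs j)))
    (t_st : ∀ b j, (t (j + 1)).comp (sg b j) = ((BF z hz).map (FDst Cs b j)).hom.comp (t j)) :
    TData Cs := ⟨BF z hz, wc, t, t_st⟩

variable (wc : ∀ M : RMod Cs, M.Ctr → WCt ((BF z hz).obj M))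
    (t : ∀ j, C(Dk j, (BF z hz).obj (FD Cs j)))
    (t_st : ∀ b j, (t (j + 1)).comp (sg b j) = ((BF z hz).map (FDst Cs b j)).hom.comp (t j))

variable {G : RMod Cs} {n : ℕ} {I : GridIn z hz G n} (A : GridAp I)

/-- the diagram of triples -/
noncomputable def Phi : GLab n A.N ⥤ (tdM wc t t_st).TriV where
  obj l := { left := TopCat.of (GridAp.XS n A.N l), right := A.V.obj l,
             hom := TopCat.ofHom ⟨A.b l, A.continuous_b l⟩ }
  map {l l'} f :=
    { left := TopCat.ofHom ⟨A.xincl l l' (leOfHom f), A.continuous_xincl l l' (leOfHom f)⟩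
      right := A.V.map f
      w := by
        refine TopCat.ext fun x => ?_
        exact (A.b_nat l l' (leOfHom f) x).symm }
  map_id l := by
    refine CommaMorphism.ext ?_ ?_
    · rfl
    · exact A.V.map_id l
  map_comp f g := by
    refine CommaMorphism.ext ?_ ?_
    · rfl
    · exact A.V.map_comp f g

/-- the vertex of the cocone -/
noncomputable def PhiP : (tdM wc t t_st).TriV :=
  { left := TopCat.of (Cube n), right := G, hom := TopCat.ofHom ⟨A.bG, A.continuous_bG⟩ }

/-- the cocone of triples -/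
noncomputable def PhiC : Limits.Cocone (Phi wc t t_st A) where
  pt := PhiP wc t t_st A
  ι :=
    { app := fun l =>
        { left := TopCat.ofHom ⟨Subtype.val, continuous_subtype_val⟩
          right := A.cocone.ι.app l
          w := by
            refine TopCat.ext fun x => ?_
            exact (A.b_ι l x).symm }
      naturality := fun l l' f => by
        refine CommaMorphism.ext ?_ ?_
        · rfl
        · exact A.cocone.ι.naturality f }

theorem Phi_ctr (l : GLab n A.N) : ((tdM wc t t_st).V.obj ((Phi wc t t_st A).obj l)).Ctr := by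
  refine (tdM wc t t_st).V_ctr _ (A.V_ctr Cs_hyp l) ?_
  have := GridAp.XS_contractible A.hN l
  exact WCt.of_contractible (Y := GridAp.XS n A.N l)

/-! ### The input of the grid approximation -/

theorem bdC_gen {i j : ℕ} (h : i < j) (δ : Bool) :
    (FD Cs j).bdC (gen Cs j) (i, δ) = genB Cs j (i, δ) h := by
  refine Subtype.ext ?_
  show (FD Cs j).M.toGlob.bd (.var (j, false) : Cs.T D) (i, δ) = .var (i, δ)
  rw [FD_bd_var]
  unfold bdD
  rw [if_pos h]

include wc t_st in
/-- the family of disks on the open boxes -/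
theorem t_openX {i j : ℕ} (hij : i < j) (δ : Bool) {y : Cube n} (hy : y ∈ openX n i δ) :
    (t j (qm n j y) : OrdCx (NS z hz (FD Cs j))) = Bm z hz (FDb Cs i δ hij) (t i (qm n i y)) := by
  have e1 := evq_bd hy ((tdM wc t t_st).T (gen Cs j)) hij.le
  have e2 : (PiG ((BF z hz).obj (FD Cs j))).bd ((tdM wc t t_st).T (gen Cs j)) (i, δ) =
      (tdM wc t t_st).T (genB Cs j (i, δ) hij) :=
    ((tdM wc t t_st).T_bd (gen Cs j) (q := (i, δ)) hij.le).trans
      (congrArg (tdM wc t t_st).T (bdC_gen hij δ))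
  have e3 : (tdM wc t t_st).T (gen Cs j) = ⟨j, t j⟩ := (tdM wc t t_st).T_gen j
  have e4 : (tdM wc t t_st).T (genB Cs j (i, δ) hij) =
      ⟨i, ((BF z hz).map (FDb Cs i δ hij)).hom.comp (t i)⟩ :=
    (tdM wc t t_st).T_eq (genB Cs j (i, δ) hij) rfl
  rw [e3] at e1 e2
  rw [e2, e4] at e1
  exact e1.symm

/-- a disk of `B G` with its boundary cells -/
structure DIn (τ : TData Cs) (G : RMod Cs) (n : ℕ) where
  w : C(Dk n, τ.B.obj G)
  b : (i : ℕ) → i < n → Bool → G.Cell
  hb : ∀ i hi ε, G.M.dim (b i hi ε).1 = i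
  hbb : ∀ i j (hij : i < j) (hj : j < n) (δ ε : Bool),
    G.bdC (b j hj ε) (i, δ) = b i (hij.trans hj) δ
  hbw : ∀ i hi ε, (PiG (τ.B.obj G)).bd ⟨n, w⟩ (i, ε) = τ.T (b i hi ε)

variable (J : DIn (tdM wc t t_st) G n)

/-- the input of the grid approximation -/
noncomputable def gIn : GridIn z hz G n where
  u i hi ε := cellHom (J.b i hi ε) (J.hb i hi ε)
  hu i j hij hj δ ε := by
    have h1 : RHom.f (cellHom (J.b j hj ε) (J.hb j hj ε)) (genB Cs j (i, δ) hij) =
        J.b i (hij.trans hj) δ := (cellHom_var _ _ _ _).trans (J.hbb i j hij hj δ ε)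
    have h2 : G.M.dim (RHom.f (cellHom (J.b j hj ε) (J.hb j hj ε))
        (genB Cs j (i, δ) hij)).1 = i := by
      rw [h1]
      exact J.hb _ _ _
    refine (cellHom_comp (genB Cs j (i, δ) hij) rfl _ h2).trans ?_
    congr 1
  h y := J.w (qm n n y)
  hc := J.w.continuous.comp (qm n n).continuous
  h0 i _ _ y := t i (qm n i y.1)
  h0c i _ _ := (t i).continuous.comp ((qm n i).continuous.comp continuous_subtype_val)
  h0h i hi ε y := by
    have e1 := evq_bd y.2 (⟨n, J.w⟩ : (PiG ((tdM wc t t_st).B.obj G)).C) hi.le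
    rw [J.hbw i hi ε, (tdM wc t t_st).T_eq (J.b i hi ε) (J.hb i hi ε)] at e1
    exact e1
  h00 i j hij _ δ _ y := t_openX wc t t_st hij δ y.2

/-! ### The families of disks and paths -/

/-- coglobular families of disks in the open boxes and of paths in the disks -/
structure EL (n : ℕ) where
  e : ∀ i, i < n → ∀ ε : Bool, C(Dk i, openX n i ε)
  he : ∀ i (hi : i + 1 < n) (ε b : Bool) (x : Dk i),
    (e (i + 1) hi ε (sg b i x)).1 = (e i (Nat.lt_of_succ_lt hi) b x).1
  L : ∀ i, i < n → Bool → C(Dk i, PS (Dk i))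
  hL0 : ∀ i hi ε x, L i hi ε x 0 = x
  hL1 : ∀ i hi ε x, L i hi ε x 1 = qm n i (e i hi ε x).1
  hL : ∀ i (hi : i + 1 < n) (ε b : Bool), (L (i + 1) hi ε).comp (sg b i) =
    (PS.map (sg b i)).comp (L i (Nat.lt_of_succ_lt hi) b)

theorem exists_EL (n : ℕ) : Nonempty (EL n) := by
  obtain ⟨e, he⟩ := exists_eX n
  obtain ⟨L, h1, h2⟩ := exists_L2 n (fun d i hi ε => if d then
    (qm n i).comp ((oxI n i ε).comp (e i hi ε)) else ContinuousMap.id _) (by
      intro d i hi ε b
      cases d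
      · rfl
      · ext x : 1
        show qm n (i + 1) (e (i + 1) hi ε (sg b i x)).1 =
          sg b i (qm n i (e i (Nat.lt_of_succ_lt hi) b x).1)
        rw [he, qm_openX (e i (Nat.lt_of_succ_lt hi) b x).2 le_rfl])
  exact ⟨⟨e, he, L, fun i hi ε x => DFunLike.congr_fun (h1 false i hi ε) x,
    fun i hi ε x => DFunLike.congr_fun (h1 true i hi ε) x, h2⟩⟩

variable (B : GridAp (gIn wc t t_st J)) (E : EL n)

/-- the homotopy to the approximation, as a family of paths -/
noncomputable def K0c (i : ℕ) (hi : i < n) (ε : Bool) :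
    C(openX n i ε, PS (OrdCx (NS z hz (FD Cs i)))) :=
  ContinuousMap.curry ⟨B.K0 i hi ε, B.continuous_K0 i hi ε⟩

/-- the homotopy to the approximation, as a family of paths -/
noncomputable def Kc : C(Cube n, PS (OrdCx (NS z hz G))) :=
  ContinuousMap.curry ⟨B.K, B.continuous_K⟩

/-- the path of disks of a globular label -/
noncomputable def Hp (i : ℕ) (hi : i < n) (ε : Bool) :
    C(Dk i, PS (OrdCx (NS z hz (FD Cs i)))) :=
  pcat ((PS.map (t i)).comp (E.L i hi ε)) ((K0c wc t t_st J B i hi ε).comp (E.e i hi ε))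
    (fun x => by
      show t i (E.L i hi ε x 1) = B.K0 i hi ε (E.e i hi ε x, 0)
      rw [E.hL1, B.K0_zero]
      rfl)

theorem Hp_zero (i : ℕ) (hi : i < n) (ε : Bool) (x : Dk i) :
    Hp wc t t_st J B E i hi ε x 0 = t i x := by
  refine (pcat_zero _ _ _ x).trans ?_
  show t i (E.L i hi ε x 0) = _
  rw [E.hL0]

theorem Hp_one (i : ℕ) (hi : i < n) (ε : Bool) (x : Dk i) :
    Hp wc t t_st J B E i hi ε x 1 = B.b (.glo i hi ε) (E.e i hi ε x) := by
  refine (pcat_one _ _ _ x).trans ?_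
  exact B.K0_one i hi ε (E.e i hi ε x)

/-- the paths are coglobular -/
theorem Hp_sg (i : ℕ) (hi : i + 1 < n) (ε b : Bool) :
    (Hp wc t t_st J B E (i + 1) hi ε).comp (sg b i) =
      (PS.map ((BF z hz).map (FDb Cs i b (Nat.lt_succ_self i))).hom).comp
        (Hp wc t t_st J B E i (Nat.lt_of_succ_lt hi) b) := by
  unfold Hp
  rw [pcat_comp]
  refine Eq.trans ?_ (map_pcat _ _ _ _).symm
  refine pcat_congr _ ?_ ?_ _
  · ext x : 1
    ext u : 1
    have e1 : E.L (i + 1) hi ε (sg b i x) = (sg b i).comp (E.L i (Nat.lt_of_succ_lt hi) b x) :=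
      DFunLike.congr_fun (E.hL i hi ε b) x
    show t (i + 1) (E.L (i + 1) hi ε (sg b i x) u) = _
    rw [e1]
    exact DFunLike.congr_fun (t_st b i) (E.L i (Nat.lt_of_succ_lt hi) b x u)
  · ext x : 1
    have e1 : E.e (i + 1) hi ε (sg b i x) =
        oIncl (Nat.lt_succ_self i) b ε (E.e i (Nat.lt_of_succ_lt hi) b x) :=
      Subtype.ext (E.he i hi ε b x)
    show K0c wc t t_st J B (i + 1) hi ε (E.e (i + 1) hi ε (sg b i x)) = _
    rw [e1]
    ext u : 1
    exact (B.K0_nat i (i + 1) (Nat.lt_succ_self i) hi b ε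
      (E.e i (Nat.lt_of_succ_lt hi) b x, u)).symm

/-- the cell of `V` of a globular label -/
noncomputable def eC (i : ℕ) (hi : i < n) (ε : Bool) :
    ((Phi wc t t_st B ⋙ (tdM wc t t_st).V).obj (.glo i hi ε)).Cell :=
  TData.vcell (τ := tdM wc t t_st) ((Phi wc t t_st B).obj (.glo i hi ε)) (gen Cs i)
    ⟨i, Hp wc t t_st J B E i hi ε⟩ ⟨i, E.e i hi ε⟩
    (by
      refine Eq.trans ?_ ((tdM wc t t_st).T_gen i).symm
      refine congrArg (Sigma.mk i) ?_
      ext x : 1
      exact Hp_zero wc t t_st J B E i hi ε x)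
    (by
      refine congrArg (Sigma.mk i) ?_
      ext x : 1
      exact Hp_one wc t t_st J B E i hi ε x)

theorem eC_st (b : Bool) (i : ℕ) (hi : i + 1 < n) (ε : Bool)
    (h : GLab.glo (N := B.N) i (Nat.lt_of_succ_lt hi) b ≤ GLab.glo (i + 1) hi ε) :
    ((Phi wc t t_st B ⋙ (tdM wc t t_st).V).obj (.glo (i + 1) hi ε)).M.toGlob.st b
      (eC wc t t_st J B E (i + 1) hi ε).1 =
      (RHom.f ((Phi wc t t_st B ⋙ (tdM wc t t_st).V).map (homOfLE h))
        (eC wc t t_st J B E i (Nat.lt_of_succ_lt hi) b)).1 := by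
  have hV : B.V.map (homOfLE h) = FDb Cs i b (Nat.lt_succ_self i) :=
    B.V_map_glo (Nat.lt_of_succ_lt hi) hi b ε (Nat.lt_succ_self i) h
  refine TData.vcell_st (τ := tdM wc t t_st) ((Phi wc t t_st B).map (homOfLE h)) b
    (Nat.succ_pos i) ?_ ?_ ?_
  · show ((FD Cs (i + 1)).st b (gen Cs (i + 1)) (Nat.succ_pos i)).1 =
      (RHom.f (B.V.map (homOfLE h)) (gen Cs i)).1
    rw [hV]
    exact congrArg Subtype.val (FDst_gen' b i (Nat.succ_pos i)).symm
  · show _ = PiG.map (PS.map ((BF z hz).map (B.V.map (homOfLE h))).hom) _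
    rw [hV]
    refine (PiG.st_mk b _).trans (congrArg (Sigma.mk i) ?_)
    exact Hp_sg wc t t_st J B E i hi ε b
  · refine (PiG.st_mk b _).trans (congrArg (Sigma.mk i) ?_)
    ext x : 1
    exact Subtype.ext (E.he i hi ε b x)

/-- the comparison homotopy -/
theorem exists_top_of {L' : C(Dk n, PS (Dk n))} {e' : C(Dk n, Cube n)}
    (h0 : ∀ x, L' x 0 = x) (h1 : ∀ x, L' x 1 = qm n n (e' x)) :
    ∃ K : C(Dk n, PS (OrdCx (NS z hz G))), (∀ x, K x 0 = J.w x) ∧
      (∀ x, K x 1 = B.bG (e' x)) ∧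
      K = pcat ((PS.map J.w).comp L') ((Kc wc t t_st J B).comp e') (fun x => by
        show J.w (L' x 1) = B.K (e' x, 0)
        rw [h1, B.K_zero]
        rfl) := by
  refine ⟨_, fun x => ?_, fun x => ?_, rfl⟩
  · refine (pcat_zero _ _ _ x).trans ?_
    show J.w (L' x 0) = _
    rw [h0]
  · refine (pcat_one _ _ _ x).trans ?_
    exact B.K_one (e' x)

end

section

variable {z : ZFam Cs} {hz : ZGood z} (wc : ∀ M : RMod Cs, M.Ctr → WCt ((BF z hz).obj M))
    (t : ∀ j, C(Dk j, (BF z hz).obj (FD Cs j)))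
    (t_st : ∀ b j, (t (j + 1)).comp (sg b j) = ((BF z hz).map (FDst Cs b j)).hom.comp (t j))
    {G : RMod Cs}

theorem exists_top_zero (J : DIn (tdM wc t t_st) G 0) (B : GridAp (gIn wc t t_st J))
    (e' : C(Dk 0, Cube 0)) : ∃ K : C(Dk 0, PS (OrdCx (NS z hz G))),
      (∀ x, K x 0 = J.w x) ∧ ∀ x, K x 1 = B.bG (e' x) := by
  obtain ⟨L', h⟩ := lift_ev2_zero (Dk.wct 0) (fun d => if d then (qm 0 0).comp e' else
    ContinuousMap.id _)
  obtain ⟨K, k1, k2, -⟩ := exists_top_of wc t t_st J B (L' := L') (e' := e')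
    (fun x => DFunLike.congr_fun (h false) x) (fun x => DFunLike.congr_fun (h true) x)
  exact ⟨K, k1, k2⟩

theorem exists_top_succ {m : ℕ} (J : DIn (tdM wc t t_st) G (m + 1))
    (B : GridAp (gIn wc t t_st J)) (E : EL (m + 1)) (e' : C(Dk (m + 1), Cube (m + 1)))
    (he' : ∀ b x, e' (sg b m x) = (E.e m (Nat.lt_succ_self m) b x).1) :
    ∃ K : C(Dk (m + 1), PS (OrdCx (NS z hz G))),
      (∀ x, K x 0 = J.w x) ∧ (∀ x, K x 1 = B.bG (e' x)) ∧
      ∀ b, K.comp (sg b m) = (PS.map ((BF z hz).map (cellHom (J.b m (Nat.lt_succ_self m) b)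
        (J.hb m (Nat.lt_succ_self m) b))).hom).comp
          (Hp wc t t_st J B E m (Nat.lt_succ_self m) b) := by
  have hq : ∀ b x, sg b m (qm (m + 1) m (E.e m (Nat.lt_succ_self m) b x).1) =
      qm (m + 1) (m + 1) (e' (sg b m x)) := by
    intro b x
    rw [he', qm_openX (E.e m (Nat.lt_succ_self m) b x).2 le_rfl]
  have hend : ∀ b d, (evb _ d).comp ((PS.map (sg b m)).comp (E.L m (Nat.lt_succ_self m) b)) =
      (if d then (qm (m + 1) (m + 1)).comp e' else ContinuousMap.id _).comp (sg b m) := by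
    intro b d
    cases d
    · ext x : 1
      show sg b m (E.L m (Nat.lt_succ_self m) b x 0) = sg b m x
      rw [E.hL0]
    · ext x : 1
      show sg b m (E.L m (Nat.lt_succ_self m) b x 1) = _
      rw [E.hL1]
      exact hq b x
  obtain ⟨L', l0, l1, l2⟩ := lift_ev2 (Dk.wct (m + 1))
    (fun d => if d then (qm (m + 1) (m + 1)).comp e' else ContinuousMap.id _)
    ((PS.map (sg false m)).comp (E.L m (Nat.lt_succ_self m) false))
    ((PS.map (sg true m)).comp (E.L m (Nat.lt_succ_self m) true))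
    (parC_of_L2 E.hL m (Nat.lt_succ_self m)) (hend false) (hend true)
  have hl : ∀ b, L'.comp (sg b m) =
      (PS.map (sg b m)).comp (E.L m (Nat.lt_succ_self m) b) := by
    intro b
    cases b
    · exact l0
    · exact l1
  obtain ⟨K, k1, k2, k3⟩ := exists_top_of wc t t_st J B (L' := L') (e' := e')
    (fun x => DFunLike.congr_fun (l2 false) x) (fun x => DFunLike.congr_fun (l2 true) x)
  refine ⟨K, k1, k2, fun b => ?_⟩
  rw [k3]
  have hw : (J.w.comp (sg b m) : C(Dk m, (BF z hz).obj G)) =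
      ((BF z hz).map (cellHom (J.b m (Nat.lt_succ_self m) b)
        (J.hb m (Nat.lt_succ_self m) b))).hom.comp (t m) := by
    have e1 := J.hbw m (Nat.lt_succ_self m) b
    have e2 : (PiG ((tdM wc t t_st).B.obj G)).bd ⟨m + 1, J.w⟩ (m, b) =
        (PiG ((tdM wc t t_st).B.obj G)).st b ⟨m + 1, J.w⟩ := by
      cases b
      · exact bd_pred_false (G := PiG ((tdM wc t t_st).B.obj G)) (x := ⟨m + 1, J.w⟩)
          (Nat.succ_pos m)
      · exact bd_pred_true (G := PiG ((tdM wc t t_st).B.obj G)) (x := ⟨m + 1, J.w⟩)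
          (Nat.succ_pos m)
    rw [e2, PiG.st_mk, (tdM wc t t_st).T_eq _ (J.hb m (Nat.lt_succ_self m) b)] at e1
    exact PiG.mk_inj e1
  unfold Hp
  refine Eq.trans (pcat_comp _ _ _ (sg b m)) ?_
  refine Eq.trans ?_ (map_pcat _ _ _ _).symm
  refine pcat_congr _ ?_ ?_ _
  · ext x : 1
    ext u : 1
    have e1 : L' (sg b m x) = (sg b m).comp (E.L m (Nat.lt_succ_self m) b x) :=
      DFunLike.congr_fun (hl b) x
    show J.w (L' (sg b m x) u) = _
    rw [e1]
    exact DFunLike.congr_fun hw (E.L m (Nat.lt_succ_self m) b x u)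
  · ext x : 1
    show Kc wc t t_st J B (e' (sg b m x)) = _
    rw [he']
    ext u : 1
    exact (B.K0_ι m (Nat.lt_succ_self m) b (E.e m (Nat.lt_succ_self m) b x, u)).symm

/-- the last step -/
theorem conn_of_top {Y : Type} [TopologicalSpace Y] {n : ℕ} {w : C(Dk n, Y)} {c : (PiG Y).C}
    {H K : C(Dk n, PS Y)} (hH : PiG.map (evb Y false) ⟨n, H⟩ = c)
    (hpar : ParC H K) (h1 : ∀ x, H x 1 = K x 1) (hK0 : ∀ x, K x 0 = w x) :
    (PiG Y).Conn c ⟨n, w⟩ := by
  have e1 : PiG.map (evb Y true) ⟨n, H⟩ = PiG.map (evb Y true) ⟨n, K⟩ := by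
    refine congrArg (Sigma.mk n) ?_
    ext x : 1
    exact h1 x
  have e2 : PiG.map (evb Y false) ⟨n, K⟩ = ⟨n, w⟩ := by
    refine congrArg (Sigma.mk n) ?_
    ext x : 1
    exact hK0 x
  have key := PiG.conn_evb_of_evb (Y := Y) true (K := ⟨n, H⟩)
    (K' := ⟨n, K⟩) ((PiG.par_iff _ _).2 hpar) (by
      rw [e1]
      exact PiG.conn_refl _) false
  rw [hH, e2] at key
  exact key

/-- **The main lemma for a disk with boundary given by cells.** -/
theorem main_disk {n : ℕ} (J : DIn (tdM wc t t_st) G n) :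
    ∃ x : G.Cell, G.M.dim x.1 = n ∧
      (∀ (hn : 0 < n) (b : Bool), G.M.toGlob.st b x.1 = (J.b (n - 1) (by omega) b).1) ∧
      (PiG ((tdM wc t t_st).B.obj G)).Conn ((tdM wc t t_st).T x) ⟨n, J.w⟩ := by
  obtain ⟨B⟩ := exists_gridAp (gIn wc t t_st J)
  obtain ⟨E⟩ := exists_EL n
  obtain ⟨X, hX1, hX2⟩ := AL Cs_hyp B.hN (Phi wc t t_st B ⋙ (tdM wc t t_st).V)
    (Phi_ctr wc t t_st B) ((tdM wc t t_st).V.mapCocone (PhiC wc t t_st B))
    (eC wc t t_st J B E) (fun i hi ε => rfl)
    (fun i hi ε => eC_st wc t t_st J B E false i hi ε _)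
    (fun i hi ε => eC_st wc t t_st J B E true i hi ε _)
  obtain ⟨⟨⟨⟨x, H⟩, hH⟩, e⟩, hX⟩ := X
  have hxn : G.M.dim x.1 = n := hX1
  have hHn : H.1 = n := (congrArg Sigma.fst hH).trans hxn
  have hen : e.1 = n := (fib_dim hX).trans hxn
  obtain ⟨H', rfl⟩ : ∃ H' : C(Dk n, PS (OrdCx (NS z hz G))), H = ⟨n, H'⟩ :=
    ⟨PiG.fn H hHn, PiG.eq_mk H hHn⟩
  obtain ⟨e', rfl⟩ : ∃ e' : C(Dk n, Cube n), e = ⟨n, e'⟩ := ⟨PiG.fn e hen, PiG.eq_mk e hen⟩
  have hend : ∀ x, H' x 1 = B.bG (e' x) := by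
    have h1 := (tdM wc t t_st).V_ok.1 hX
    have h2 : (⟨n, (evb _ true).comp H'⟩ : (PiG (OrdCx (NS z hz G))).C) =
        ⟨n, (⟨B.bG, B.continuous_bG⟩ : C(Cube n, OrdCx (NS z hz G))).comp e'⟩ := h1
    exact fun x => DFunLike.congr_fun (PiG.mk_inj h2) x
  cases n with
  | zero =>
    obtain ⟨K, k1, k2⟩ := exists_top_zero wc t t_st J B e'
    refine ⟨x, hxn, fun hn => absurd hn (lt_irrefl 0), ?_⟩
    exact conn_of_top hH (parC_zero _ _) (fun x => (hend x).trans (k2 x).symm) k1
  | succ m =>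
    have hm : m < m + 1 := Nat.lt_succ_self m
    -- the components of the boundary
    have hb : ∀ b : Bool, (((tdM wc t t_st).V.obj (PhiP wc t t_st B)).M.toGlob.st b
        ((⟨(x, ⟨m + 1, H'⟩), hH⟩ : (tdM wc t t_st).WC ((tdM wc t t_st).diag.obj G)),
          ⟨m + 1, e'⟩)) = (RHom.f ((tdM wc t t_st).V.map ((PhiC wc t t_st B).ι.app
            (.glo m hm b))) (eC wc t t_st J B E m hm b)).1 := by
      intro b
      obtain ⟨a1, a2⟩ := hX2 (Nat.succ_pos m)
      cases b
      · exact a1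
      · exact a2
    have hx0 : 0 < G.M.dim x.1 := by
      rw [hxn]
      exact Nat.succ_pos m
    have hb1 : ∀ b, G.M.toGlob.st b x.1 = (J.b m hm b).1 := by
      intro b
      have h1 := congrArg (fun p : (tdM wc t t_st).WC ((tdM wc t t_st).diag.obj G) ×
        (PiG (Cube (m + 1))).C => p.1.1.1.1) (hb b)
      have h2 := (TData.WC.st_pos (τ := tdM wc t t_st) (X := (tdM wc t t_st).diag.obj G) b
        ⟨(x, ⟨m + 1, H'⟩), hH⟩ hx0).1
      have h3 : (TData.WC.st (τ := tdM wc t t_st) (X := (tdM wc t t_st).diag.obj G) b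
        ⟨(x, ⟨m + 1, H'⟩), hH⟩).1.1.1 = (RHom.f (cellHom (J.b m hm b) (J.hb m hm b))
          (gen Cs m)).1 := by
        cases b
        · exact h1
        · exact h1
      rw [cellHom_gen] at h3
      exact (congrArg Subtype.val h2).symm.trans h3
    have hb2 : ∀ b, H'.comp (sg b m) = (PS.map ((BF z hz).map (cellHom (J.b m hm b)
        (J.hb m hm b))).hom).comp (Hp wc t t_st J B E m hm b) := by
      intro b
      have h1 := congrArg (fun p : (tdM wc t t_st).WC ((tdM wc t t_st).diag.obj G) ×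
        (PiG (Cube (m + 1))).C => p.1.1.2) (hb b)
      have h2 := (TData.WC.st_pos (τ := tdM wc t t_st) (X := (tdM wc t t_st).diag.obj G) b
        ⟨(x, ⟨m + 1, H'⟩), hH⟩ hx0).2
      have h3 : (TData.WC.st (τ := tdM wc t t_st) (X := (tdM wc t t_st).diag.obj G) b
        ⟨(x, ⟨m + 1, H'⟩), hH⟩).1.2 = ⟨m, (PS.map ((BF z hz).map (cellHom (J.b m hm b)
          (J.hb m hm b))).hom).comp (Hp wc t t_st J B E m hm b)⟩ := by
        cases b
        · exact h1
        · exact h1
      have h4 : (PiG (PS (OrdCx (NS z hz G)))).st b ⟨m + 1, H'⟩ = ⟨m, H'.comp (sg b m)⟩ :=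
        PiG.st_mk b H'
      exact PiG.mk_inj (h4.symm.trans (h2.symm.trans h3))
    have hb3 : ∀ b x, e' (sg b m x) = (E.e m hm b x).1 := by
      intro b
      have h1 := congrArg (fun p : (tdM wc t t_st).WC ((tdM wc t t_st).diag.obj G) ×
        (PiG (Cube (m + 1))).C => p.2) (hb b)
      have h3 : (PiG (Cube (m + 1))).st b ⟨m + 1, e'⟩ =
          ⟨m, (⟨Subtype.val, continuous_subtype_val⟩ : C(openX (m + 1) m b,
            Cube (m + 1))).comp (E.e m hm b)⟩ := by
        cases b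
        · exact h1
        · exact h1
      rw [PiG.st_mk] at h3
      exact fun x => DFunLike.congr_fun (PiG.mk_inj h3) x
    obtain ⟨K, k1, k2, k3⟩ := exists_top_succ wc t t_st J B E e' hb3
    refine ⟨x, hxn, fun _ b => hb1 b, ?_⟩
    refine conn_of_top hH ?_ (fun x => (hend x).trans (k2 x).symm) k1
    rw [parC_succ]
    intro b
    exact (hb2 b).trans (k3 b).symm

/-- **The main lemma.** -/
theorem mainL : (tdM wc t t_st).MainL := by
  intro G
  constructor
  · intro y hy
    obtain ⟨k, w⟩ := y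
    have hk : k = 0 := hy
    subst hk
    obtain ⟨x, h1, -, h3⟩ := main_disk wc t t_st (G := G) (n := 0)
      { w := w
        b := fun i hi => absurd hi (Nat.not_lt_zero i)
        hb := fun i hi => absurd hi (Nat.not_lt_zero i)
        hbb := fun i j hij hj => absurd hj (Nat.not_lt_zero j)
        hbw := fun i hi => absurd hi (Nat.not_lt_zero i) }
    exact ⟨x, h1, h3⟩
  · intro u v huv w hw hs ht
    obtain ⟨m, hm⟩ : ∃ m, m = G.M.dim u.1 := ⟨_, rfl⟩
    rw [← hm] at hw ⊢
    obtain ⟨k, w⟩ := w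
    have hk : k = m + 1 := hw
    subst hk
    have hvm : G.M.dim v.1 = m := by
      rw [hm]
      exact huv.2.2.1.symm
    let b : (i : ℕ) → i < m + 1 → Bool → G.Cell := fun i _ ε =>
      if i < m then G.bdC u (i, ε) else if ε then v else u
    have b_lt : ∀ i hi ε, i < m → b i hi ε = G.bdC u (i, ε) := fun i hi ε h => if_pos h
    have b_eq : ∀ hi ε, b m hi ε = if ε then v else u := fun hi ε => if_neg (lt_irrefl m)
    have hb : ∀ i hi ε, G.M.dim (b i hi ε).1 = i := by
      intro i hi ε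
      rcases Nat.lt_or_ge i m with h | h
      · rw [b_lt i hi ε h]
        exact dim_bd u.2 (q := (i, ε)) (by
          show i ≤ _
          omega)
      · have e : i = m := by omega
        subst e
        rw [b_eq hi ε]
        cases ε
        · exact hm.symm
        · exact hvm
    have hbb : ∀ i j (hij : i < j) (hj : j < m + 1) (δ ε : Bool),
        G.bdC (b j hj ε) (i, δ) = b i (hij.trans hj) δ := by
      intro i j hij hj δ ε
      have him : i < m := by omega
      rw [b_lt i (hij.trans hj) δ him]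
      rcases Nat.lt_or_ge j m with h | h
      · rw [b_lt j hj ε h]
        refine Subtype.ext ?_
        show G.M.toGlob.bd (G.M.toGlob.bd u.1 (j, ε)) (i, δ) = G.M.toGlob.bd u.1 (i, δ)
        rw [bd_bd u.2 (by
          show j ≤ _
          omega)]
        unfold bdD
        rw [if_pos hij]
      · have e : j = m := by omega
        subst e
        rw [b_eq hj ε]
        cases ε
        · rfl
        · refine Subtype.ext ?_
          exact (Par.bd_eq huv (r := (i, δ)) (by
            show i < _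
            omega)).symm
    have hbw : ∀ i hi ε, (PiG ((tdM wc t t_st).B.obj G)).bd ⟨m + 1, w⟩ (i, ε) =
        (tdM wc t t_st).T (b i hi ε) := by
      intro i hi ε
      rcases Nat.lt_or_ge i m with h | h
      · rw [b_lt i hi ε h, ← (tdM wc t t_st).T_bd u (by
          show i ≤ _
          omega), ← hs]
        exact (bd_src (G := PiG ((tdM wc t t_st).B.obj G)) (x := ⟨m + 1, w⟩) trivial
          (Nat.succ_pos m) (r := (i, ε)) (by
            show i + 1 < m + 1
            omega)).symm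
      · have e : i = m := by omega
        subst e
        rw [b_eq hi ε]
        cases ε
        · exact (bd_pred_false (G := PiG ((tdM wc t t_st).B.obj G)) (x := ⟨i + 1, w⟩)
            (Nat.succ_pos i)).trans hs
        · exact (bd_pred_true (G := PiG ((tdM wc t t_st).B.obj G)) (x := ⟨i + 1, w⟩)
            (Nat.succ_pos i)).trans ht
    obtain ⟨x, h1, h2, h3⟩ := main_disk wc t t_st (G := G) (n := m + 1)
      { w := w, b := b, hb := hb, hbb := hbb, hbw := hbw }
    refine ⟨x, h1, ?_, ?_, h3⟩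
    · have h4 := h2 (Nat.succ_pos m) false
      refine h4.trans ?_
      exact congrArg Subtype.val (b_eq (Nat.lt_succ_self m) false)
    · have h4 := h2 (Nat.succ_pos m) true
      refine h4.trans ?_
      exact congrArg Subtype.val (b_eq (Nat.lt_succ_self m) true)

end

end HH
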