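import Pool.Agent.HH.PiGlob

/-!
# HH part 3, PI-5: the universal property of the realisation
-/

set_option autoImplicit false

namespace HH

namespace Rlz

variable {a : Glob} {Y : Type} [TopologicalSpace Y]

theorem cell_st (b : Bool) (p : a.C) (hp : a.ok p) (h : a.dim (a.st b p) + 1 = a.dim p)
    (x : Dk (a.dim (a.st b p))) : cell a p (sgE b h x) = cell a (a.st b p) x :=
  (Quot.sound (RlzRel.mk b p hp h x)).symm

theorem exists_cell (z : Rlz a) : ∃ p x, cell a p x = z := by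
  obtain ⟨⟨p, x⟩, rfl⟩ := Quot.exists_rep z
  exact ⟨p, x, rfl⟩

theorem isQuotientMap_cell (a : Glob) :
    Topology.IsQuotientMap (fun p : Σ p : a.C, Dk (a.dim p) => cell a p.1 p.2) :=
  isQuotientMap_quot_mk

theorem u_typed [a.Laws] (p : a.C) (hp : a.ok p) : MapAt a (PiG (Rlz a)) (u a) p := by
  refine ⟨trivial, rfl, fun h0 => ?_⟩
  have key : ∀ b, (h : a.dim (a.st b p) + 1 = a.dim p) →
      (PiG (Rlz a)).st b (u a p) = u a (a.st b p) := by
    intro b h
    rw [PiG.st_eq b (u a p) h]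
    show (⟨a.dim (a.st b p), (cell a p).comp (sgE b h)⟩ : (PiG (Rlz a)).C) =
      ⟨a.dim (a.st b p), cell a (a.st b p)⟩
    congr 1
    ext x
    exact cell_st b p hp h x
  exact ⟨key false (Glob.Laws.dim_src p hp h0), key true (Glob.Laws.dim_tgt p hp h0)⟩

/-- maps out of the realisation -/
theorem exists_desc' {Y : Type*} [TopologicalSpace Y] (γ : (p : a.C) → C(Dk (a.dim p), Y))
    (hγ : ∀ (b : Bool) (p : a.C), a.ok p → ∀ (h : a.dim (a.st b p) + 1 = a.dim p)
      (x : Dk (a.dim (a.st b p))), γ p (sgE b h x) = γ (a.st b p) x) :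
    ∃ f : C(Rlz a, Y), ∀ p x, f (cell a p x) = γ p x := by
  refine ⟨⟨Quot.lift (fun q : Σ p : a.C, Dk (a.dim p) => γ q.1 q.2) ?_, ?_⟩, fun p x => rfl⟩
  · rintro _ _ ⟨b, p, hp, h, x⟩
    exact (hγ b p hp h x).symm
  · exact continuous_quot_lift _ (continuous_sigma fun p => (γ p).continuous)

/-- homotopies of maps out of the realisation -/
theorem exists_desc_homotopy {Y : Type*} [TopologicalSpace Y]
    (γ : (p : a.C) → C(Dk (a.dim p) × unitInterval, Y))
    (hγ : ∀ (b : Bool) (p : a.C), a.ok p → ∀ (h : a.dim (a.st b p) + 1 = a.dim p)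
      (x : Dk (a.dim (a.st b p))) (v : unitInterval), γ p (sgE b h x, v) = γ (a.st b p) (x, v)) :
    ∃ f : C(Rlz a × unitInterval, Y), ∀ p x v, f (cell a p x, v) = γ p (x, v) := by
  obtain ⟨f, hf⟩ := exists_desc' (a := a) (Y := C(unitInterval, Y)) (fun p => (γ p).curry)
    (fun b p hp h x => by
      ext v
      exact hγ b p hp h x v)
  refine ⟨f.uncurry, fun p x v => ?_⟩
  show f (cell a p x) v = γ p (x, v)
  rw [hf]
  rfl

/-- the universal property of the realisation -/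
theorem exists_desc (ha : ∀ p, a.ok p) (γ : a.C → (PiG Y).C)
    (hγ : ∀ p, MapAt a (PiG Y) γ p) : ∃ f : C(Rlz a, Y), ∀ p, PiG.map f (u a p) = γ p := by
  obtain ⟨f, hf⟩ := exists_desc' (a := a) (fun p => PiG.fn (γ p) (hγ p).2.1)
    (fun b p hp h x => by
      have h0 : 0 < a.dim p := by omega
      have h1 : (PiG Y).st b (γ p) = γ (a.st b p) := by
        cases b
        · exact ((hγ p).2.2 h0).1
        · exact ((hγ p).2.2 h0).2
      rw [PiG.st_fn b (γ p) h (hγ p).2.1, PiG.eq_mk (γ (a.st b p)) (hγ (a.st b p)).2.1] at h1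
      exact DFunLike.congr_fun (PiG.mk_inj h1) x)
  refine ⟨f, fun p => ?_⟩
  rw [PiG.eq_mk (γ p) (hγ p).2.1]
  show (⟨a.dim p, f.comp (cell a p)⟩ : (PiG Y).C) = _
  congr 1
  ext x
  exact hf p x

theorem uniq (f g : C(Rlz a, Y)) (h : ∀ p, PiG.map f (u a p) = PiG.map g (u a p)) : f = g := by
  ext z
  obtain ⟨p, x, rfl⟩ := exists_cell z
  have h1 : (⟨a.dim p, f.comp (cell a p)⟩ : (PiG Y).C) = ⟨a.dim p, g.comp (cell a p)⟩ := h p
  exact DFunLike.congr_fun (PiG.mk_inj h1) x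

end Rlz

end HH
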