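import Pool.Agent.HH.PastRed
import Pool.Agent.HH.PiRlz

/-!
# HH part 3, PI-6b: realisations of pasting shapes are contractible
-/

set_option autoImplicit false

namespace HH

open Classical

private theorem vdef_aux {j : ℕ} (x : Dk (j + 1)) (v : unitInterval) :
    |(1 - v.1) * x.last - v.1 * x.init.hgt| ≤ x.init.hgt := by
  have h1 := Dk.abs_last_le x
  have h2 := x.init.hgt_nonneg
  have h3 := v.2.1
  have h4 := v.2.2
  rw [abs_le] at h1 ⊢
  constructor
  · nlinarith [h1.1, h1.2]
  · nlinarith [h1.1, h1.2]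

/-- The vertical deformation of the disk to the lower hemisphere. -/
noncomputable def vdef (j : ℕ) : C(Dk (j + 1) × unitInterval, Dk (j + 1)) :=
  ⟨fun p => ⟨Fin.snoc (α := fun _ => ℝ) p.1.init.1
      ((1 - p.2.1) * p.1.last - p.2.1 * p.1.init.hgt), by
    rw [Fin.sum_univ_castSucc]
    simp only [Fin.snoc_castSucc, Fin.snoc_last]
    have h1 := vdef_aux p.1 p.2
    have h2 := p.1.init.hgt_sq
    have h3 : ∑ i, p.1.init.1 i ^ 2 = p.1.init.sq := rfl
    have h4 : ((1 - p.2.1) * p.1.last - p.2.1 * p.1.init.hgt) ^ 2 ≤ p.1.init.hgt ^ 2 :=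
      sq_le_sq' (abs_le.1 h1).1 (abs_le.1 h1).2
    rw [h3]
    linarith⟩, by
    refine Continuous.subtype_mk (continuous_pi fun i => ?_) _
    have hi : Continuous fun p : Dk (j + 1) × unitInterval => p.1.init :=
      Dk.continuous_init.comp continuous_fst
    refine Fin.lastCases ?_ (fun i => ?_) i
    · simp only [Fin.snoc_last]
      exact ((continuous_const.sub (continuous_subtype_val.comp continuous_snd)).mul
        (Dk.continuous_last.comp continuous_fst)).sub
        ((continuous_subtype_val.comp continuous_snd).mul (Dk.continuous_hgt.comp hi))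
    · simp only [Fin.snoc_castSucc]
      exact (continuous_apply i).comp (Dk.continuous_val.comp hi)⟩

theorem vdef_init {j : ℕ} (x : Dk (j + 1)) (v : unitInterval) :
    (vdef j (x, v)).init = x.init := by
  apply Subtype.ext
  funext i
  change Fin.snoc (α := fun _ => ℝ) x.init.1 _ i.castSucc = _
  rw [Fin.snoc_castSucc]

theorem vdef_last {j : ℕ} (x : Dk (j + 1)) (v : unitInterval) :
    (vdef j (x, v)).last = (1 - v.1) * x.last - v.1 * x.init.hgt := by
  change Fin.snoc (α := fun _ => ℝ) x.init.1 _ (Fin.last j) = _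
  rw [Fin.snoc_last]

theorem vdef_zero {j : ℕ} (x : Dk (j + 1)) : vdef j (x, 0) = x := by
  refine Dk.ext' (vdef_init x 0) ?_
  rw [vdef_last]
  simp

private theorem last_sg_false {j : ℕ} (x : Dk j) : (sg false j x).last = -x.hgt := by
  rw [Dk.sg_apply, Dk.last_seg]
  simp [sgn]

private theorem last_sg_true {j : ℕ} (x : Dk j) : (sg true j x).last = x.hgt := by
  rw [Dk.sg_apply, Dk.last_seg]
  simp [sgn]

theorem vdef_one {j : ℕ} (x : Dk (j + 1)) : vdef j (x, 1) = sg false j x.init := by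
  refine Dk.ext' ?_ ?_
  · rw [vdef_init, Dk.init_sg]
  · rw [vdef_last, last_sg_false]
    simp

theorem vdef_sg_false {j : ℕ} (x : Dk j) (v : unitInterval) :
    vdef j (sg false j x, v) = sg false j x := by
  refine Dk.ext' (vdef_init _ _) ?_
  rw [vdef_last, last_sg_false, Dk.init_sg]
  ring

private theorem vdef_sg_of_sq {j : ℕ} (b : Bool) (x : Dk j) (hx : x.sq = 1) (v : unitInterval) :
    vdef j (sg b j x, v) = sg b j x := by
  refine Dk.ext' (vdef_init _ _) ?_
  have h1 : x.hgt = 0 := (Dk.hgt_eq_zero_iff x).2 hx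
  rw [vdef_last, Dk.sg_apply, Dk.last_seg, Dk.init_seg, h1]
  ring

private theorem cell_st' {a : Glob} (b : Bool) (p r : a.C) (hp : a.ok p) (hr : a.st b p = r)
    (h : a.dim r + 1 = a.dim p) (x : Dk (a.dim r)) :
    Rlz.cell a p (sgE b h x) = Rlz.cell a r x := by
  subst hr
  exact Rlz.cell_st b p hp h x

private theorem cell_cast {a : Glob} {p q : a.C} (h : p = q) {h' : a.dim p = a.dim q}
    (x : Dk (a.dim p)) : Rlz.cell a q (Dk.cast h' x) = Rlz.cell a p x := by
  subst h
  rfl

private theorem cast_sgE (b : Bool) {i j : ℕ} (h : i + 1 = j) (h' : j = i + 1) (x : Dk i) :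
    Dk.cast h' (sgE b h x) = sg b i x := by
  subst h
  rfl

private theorem cast_sgE' (b : Bool) {i j m : ℕ} (h : i + 1 = j) (h' : j = m + 1) (h'' : i = m)
    (x : Dk i) : Dk.cast h' (sgE b h x) = sg b m (Dk.cast h'' x) := by
  subst h
  subst h''
  rfl

private theorem cast_sgE'' (b : Bool) {i j m : ℕ} (h : i + 1 = j) (h' : j = m) (x : Dk i) :
    Dk.cast h' (sgE b h x) = sgE b (h.trans h') x := by
  subst h'
  rfl

private theorem sgE_cast (b : Bool) {i i' j : ℕ} (h : i' + 1 = j) (h' : i = i') (x : Dk i) :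
    sgE b h (Dk.cast h' x) = sgE b (by rw [h']; exact h) x := by
  subst h'
  rfl

private theorem cast_sg_cast (b : Bool) {i j m : ℕ} (e : i = m) (d : m + 1 = j) (d' : i + 1 = j)
    (z : Dk i) : Dk.cast d (sg b m (Dk.cast e z)) = sgE b d' z := by
  subst e
  subst d
  rfl

private theorem cast_sg (b : Bool) {j m : ℕ} (d : m + 1 = j) (z : Dk m) :
    Dk.cast d (sg b m z) = sgE b d z := by
  subst d
  rfl

private theorem cast_cast {i j : ℕ} (e : i = j) (e' : j = i) (z : Dk i) :
    Dk.cast e' (Dk.cast e z) = z := by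
  subst e
  rfl

section Step

variable {T : Type} [LinearOrder T] [Fintype T] {h : T → ℕ} {t t' : T}

/-- source and target in a shape -/
private noncomputable def stT {T : Type} [LinearOrder T] [Fintype T] (h : T → ℕ) (b : Bool)
    (s : T) : T := if b then pTgt h s else pSrc h s

/-- the cells of the realisation -/
private noncomputable def ce {T : Type} [LinearOrder T] [Fintype T] (h : T → ℕ) (s : T) :
    C(Dk (h s), Rlz (pastG T h)) := Rlz.cell (pastG T h) s

private theorem ce_st {T : Type} [LinearOrder T] [Fintype T] {h : T → ℕ} (b : Bool) (s r : T)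
    (hr : stT h b s = r) (hd : h r + 1 = h s) (x : Dk (h r)) :
    ce h s (sgE b hd x) = ce h r x :=
  cell_st' (a := pastG T h) b s r trivial hr hd x

private theorem ce_cast {T : Type} [LinearOrder T] [Fintype T] {h : T → ℕ} {s r : T}
    (hr : s = r) (e : h s = h r) (x : Dk (h s)) : ce h r (Dk.cast e x) = ce h s x := by
  subst hr
  rfl

/-- the smaller shape -/
private abbrev TT (t t' : T) : Type := {s : T // s ≠ t ∧ s ≠ t'}

private abbrev hh (h : T → ℕ) (t t' : T) : TT t t' → ℕ := fun s => h s.1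

/-- The components of the retraction. -/
private noncomputable def rr (h3 : pSrc h t ≠ t) (h4 : pSrc h t ≠ t')
    (d1 : h t = h (pSrc h t) + 1) (d2 : h t' = h (pSrc h t)) (s : T) :
    C(Dk (h s), Rlz (pastG (TT t t') (hh h t t'))) :=
  if hs : s = t then
    (ce (hh h t t') ⟨pSrc h t, h3, h4⟩).comp
      ((⟨Dk.init, Dk.continuous_init⟩ : C(Dk (h (pSrc h t) + 1), Dk (h (pSrc h t)))).comp
        (Dk.cast (by rw [hs]; exact d1)))
  else if hs' : s = t' then
    (ce (hh h t t') ⟨pSrc h t, h3, h4⟩).comp (Dk.cast (by rw [hs']; exact d2))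
  else ce (hh h t t') ⟨s, hs, hs'⟩

/-- The components of the homotopy. -/
private noncomputable def kk (d1 : h t = h (pSrc h t) + 1) (d2 : h t' = h (pSrc h t)) (s : T) :
    C(Dk (h s) × unitInterval, Rlz (pastG T h)) :=
  if hs : s = t then
    (ce h t).comp ((Dk.cast d1.symm).comp ((vdef (h (pSrc h t))).comp
      (((Dk.cast (by rw [hs]; exact d1) : C(Dk (h s), Dk (h (pSrc h t) + 1))).comp
        ContinuousMap.fst).prodMk ContinuousMap.snd)))
  else if hs' : s = t' then
    (ce h t).comp ((Dk.cast d1.symm).comp ((vdef (h (pSrc h t))).comp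
      ((((sg true (h (pSrc h t))).comp
        (Dk.cast (by rw [hs']; exact d2) : C(Dk (h s), Dk (h (pSrc h t))))).comp
        ContinuousMap.fst).prodMk ContinuousMap.snd)))
  else (ce h s).comp ContinuousMap.fst

private theorem rr_t (h3 : pSrc h t ≠ t) (h4 : pSrc h t ≠ t')
    (d1 : h t = h (pSrc h t) + 1) (d2 : h t' = h (pSrc h t)) {s : T} (hs : s = t)
    (e : h s = h (pSrc h t) + 1) (y : Dk (h s)) :
    rr h3 h4 d1 d2 s y = ce (hh h t t') ⟨pSrc h t, h3, h4⟩ (Dk.cast e y).init := by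
  unfold rr
  rw [dif_pos hs]
  rfl

private theorem rr_t' (h3 : pSrc h t ≠ t) (h4 : pSrc h t ≠ t')
    (d1 : h t = h (pSrc h t) + 1) (d2 : h t' = h (pSrc h t)) {s : T} (hs : s ≠ t) (hs' : s = t')
    (e : h s = h (pSrc h t)) (y : Dk (h s)) :
    rr h3 h4 d1 d2 s y = ce (hh h t t') ⟨pSrc h t, h3, h4⟩ (Dk.cast e y) := by
  unfold rr
  rw [dif_neg hs, dif_pos hs']
  rfl

private theorem rr_o (h3 : pSrc h t ≠ t) (h4 : pSrc h t ≠ t')
    (d1 : h t = h (pSrc h t) + 1) (d2 : h t' = h (pSrc h t)) {s : T} (hs : s ≠ t) (hs' : s ≠ t')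
    (y : Dk (h s)) :
    rr h3 h4 d1 d2 s y = ce (hh h t t') ⟨s, hs, hs'⟩ y := by
  unfold rr
  rw [dif_neg hs, dif_neg hs']

private theorem kk_t (d1 : h t = h (pSrc h t) + 1) (d2 : h t' = h (pSrc h t)) {s : T}
    (hs : s = t) (e : h s = h (pSrc h t) + 1) (y : Dk (h s)) (v : unitInterval) :
    kk d1 d2 s (y, v) =
      ce h t (Dk.cast d1.symm (vdef (h (pSrc h t)) (Dk.cast e y, v))) := by
  unfold kk
  rw [dif_pos hs]
  rfl

private theorem kk_t' (d1 : h t = h (pSrc h t) + 1) (d2 : h t' = h (pSrc h t)) {s : T}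
    (hs : s ≠ t) (hs' : s = t') (e : h s = h (pSrc h t)) (y : Dk (h s)) (v : unitInterval) :
    kk d1 d2 s (y, v) =
      ce h t (Dk.cast d1.symm (vdef (h (pSrc h t))
        (sg true (h (pSrc h t)) (Dk.cast e y), v))) := by
  unfold kk
  rw [dif_neg hs, dif_pos hs']
  rfl

private theorem kk_o (d1 : h t = h (pSrc h t) + 1) (d2 : h t' = h (pSrc h t)) {s : T}
    (hs : s ≠ t) (hs' : s ≠ t') (y : Dk (h s)) (v : unitInterval) :
    kk d1 d2 s (y, v) = ce h s y := by
  unfold kk
  rw [dif_neg hs, dif_neg hs']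
  rfl

private theorem rr_compat (h1 : t' ≠ t) (h2 : pTgt h t = t')
    (h3 : pSrc h t ≠ t) (h4 : pSrc h t ≠ t')
    (d1 : h t = h (pSrc h t) + 1) (d2 : h t' = h (pSrc h t))
    (hst : ∀ (b : Bool) (s : TT t t'), (stT (hh h t t') b s).1 = stT h b s.1)
    (hne : ∀ (b : Bool) (s : T), s ≠ t → 0 < h s → stT h b s ≠ t ∧ stT h b s ≠ t')
    (hpar : ∀ b : Bool, 0 < h t' → stT h b t' = stT h b (pSrc h t))
    (b : Bool) (p : T) (hd : h (stT h b p) + 1 = h p) (x : Dk (h (stT h b p))) :
    rr h3 h4 d1 d2 p (sgE b hd x) = rr h3 h4 d1 d2 (stT h b p) x := by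
  have hpos : 0 < h p := by omega
  by_cases hpt : p = t
  · have e : h p = h (pSrc h t) + 1 := by rw [hpt]; exact d1
    have e' : h (stT h b p) = h (pSrc h t) := by omega
    rw [rr_t h3 h4 d1 d2 hpt e, cast_sgE' b hd e e', Dk.init_sg]
    subst hpt
    cases b
    · exact (rr_o h3 h4 d1 d2 h3 h4 x).symm
    · exact (rr_t' h3 h4 d1 d2 (s := pTgt h p) (by rw [h2]; exact h1) h2 e' x).symm
  · obtain ⟨n1, n2⟩ := hne b p hpt hpos
    rw [rr_o h3 h4 d1 d2 n1 n2 x]
    by_cases hpt' : p = t'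
    · have e : h p = h (pSrc h t) := by rw [hpt']; exact d2
      rw [rr_t' h3 h4 d1 d2 hpt hpt' e, cast_sgE'' b hd e]
      refine ce_st (h := hh h t t') b ⟨pSrc h t, h3, h4⟩ ⟨stT h b p, n1, n2⟩ ?_ _ x
      apply Subtype.ext
      refine (hst b ⟨pSrc h t, h3, h4⟩).trans ?_
      change stT h b (pSrc h t) = stT h b p
      rw [← hpar b (by rw [← hpt']; exact hpos), hpt']
    · rw [rr_o h3 h4 d1 d2 hpt hpt']
      refine ce_st (h := hh h t t') b ⟨p, hpt, hpt'⟩ ⟨stT h b p, n1, n2⟩ ?_ _ x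
      exact Subtype.ext (hst b ⟨p, hpt, hpt'⟩)

private theorem kk_compat (h1 : t' ≠ t) (h2 : pTgt h t = t')
    (h3 : pSrc h t ≠ t) (h4 : pSrc h t ≠ t')
    (d1 : h t = h (pSrc h t) + 1) (d2 : h t' = h (pSrc h t))
    (hne : ∀ (b : Bool) (s : T), s ≠ t → 0 < h s → stT h b s ≠ t ∧ stT h b s ≠ t')
    (b : Bool) (p : T) (hd : h (stT h b p) + 1 = h p) (x : Dk (h (stT h b p)))
    (v : unitInterval) :
    kk d1 d2 p (sgE b hd x, v) = kk d1 d2 (stT h b p) (x, v) := by
  have hpos : 0 < h p := by omega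
  by_cases hpt : p = t
  · have e : h p = h (pSrc h t) + 1 := by rw [hpt]; exact d1
    have e' : h (stT h b p) = h (pSrc h t) := by omega
    rw [kk_t d1 d2 hpt e, cast_sgE' b hd e e']
    subst hpt
    cases b
    · rw [vdef_sg_false, cast_sg_cast false e' d1.symm d1.symm]
      refine Eq.trans ?_ (kk_o d1 d2 h3 h4 x v).symm
      exact ce_st false p (pSrc h p) rfl _ x
    · exact (kk_t' d1 d2 (s := pTgt h p) (by rw [h2]; exact h1) h2 e' x v).symm
  · obtain ⟨n1, n2⟩ := hne b p hpt hpos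
    rw [kk_o d1 d2 n1 n2 x]
    by_cases hpt' : p = t'
    · have e : h p = h (pSrc h t) := by rw [hpt']; exact d2
      have hsq : (Dk.cast e (sgE b hd x)).sq = 1 := by
        rw [cast_sgE'' b hd e]
        exact Dk.sgE_sq b _ x
      have e3 : h p + 1 = h t := by omega
      rw [kk_t' d1 d2 hpt hpt' e, vdef_sg_of_sq true _ hsq,
        cast_sg_cast true e d1.symm e3]
      refine (ce_st true t p (h2.trans hpt'.symm) e3 _).trans ?_
      exact ce_st b p (stT h b p) rfl _ x
    · rw [kk_o d1 d2 hpt hpt']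
      exact ce_st b p (stT h b p) rfl _ x

private theorem kk_zero (h2 : pTgt h t = t')
    (d1 : h t = h (pSrc h t) + 1) (d2 : h t' = h (pSrc h t)) (s : T) (x : Dk (h s)) :
    kk d1 d2 s (x, 0) = ce h s x := by
  by_cases hs : s = t
  · have e : h s = h (pSrc h t) + 1 := by rw [hs]; exact d1
    rw [kk_t d1 d2 hs e x 0, vdef_zero]
    subst hs
    rw [cast_cast]
  · by_cases hs' : s = t'
    · have e : h s = h (pSrc h t) := by rw [hs']; exact d2
      have e3 : h s + 1 = h t := by omega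
      rw [kk_t' d1 d2 hs hs' e x 0, vdef_zero, cast_sg_cast true e d1.symm e3]
      exact ce_st true t s (h2.trans hs'.symm) e3 _
    · exact kk_o d1 d2 hs hs' x 0

private theorem kk_one (h3 : pSrc h t ≠ t) (h4 : pSrc h t ≠ t')
    (d1 : h t = h (pSrc h t) + 1) (d2 : h t' = h (pSrc h t))
    {i : C(Rlz (pastG (TT t t') (hh h t t')), Rlz (pastG T h))}
    (hi : ∀ (s : TT t t') (x : Dk (h s.1)), i (ce (hh h t t') s x) = ce h s.1 x)
    (s : T) (x : Dk (h s)) :
    kk d1 d2 s (x, 1) = i (rr h3 h4 d1 d2 s x) := by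
  by_cases hs : s = t
  · have e : h s = h (pSrc h t) + 1 := by rw [hs]; exact d1
    rw [kk_t d1 d2 hs e x 1, vdef_one, cast_sg false d1.symm, rr_t h3 h4 d1 d2 hs e x, hi]
    exact ce_st false t (pSrc h t) rfl _ _
  · by_cases hs' : s = t'
    · have e : h s = h (pSrc h t) := by rw [hs']; exact d2
      rw [kk_t' d1 d2 hs hs' e x 1, vdef_one, Dk.init_sg, cast_sg false d1.symm,
        rr_t' h3 h4 d1 d2 hs hs' e x, hi]
      exact ce_st false t (pSrc h t) rfl _ _
    · rw [kk_o d1 d2 hs hs' x 1, rr_o h3 h4 d1 d2 hs hs' x, hi]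

end Step

/-- One step: if the realisation of the smaller shape is contractible, so is the bigger one. -/
theorem contr_step {T : Type} [LinearOrder T] [Fintype T] {h : T → ℕ} (hp : Past T h)
    {t t' : T} (h1 : t' ≠ t) (h2 : pTgt h t = t') (h3 : pSrc h t ≠ t) (h4 : pSrc h t ≠ t')
    (h5 : 0 < h t) (h6 : ∀ s, s ≠ t → 0 < h s → pTgt h s ≠ t' ∧ pTgt h s ≠ t)
    (h7 : ∀ s, 0 < h s → pSrc h s ≠ t' ∧ pSrc h s ≠ t)
    (h8 : ∀ s : {s : T // s ≠ t ∧ s ≠ t'},
        (pSrc (fun s : {s : T // s ≠ t ∧ s ≠ t'} => h s.1) s).1 = pSrc h s.1)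
    (h9 : ∀ s : {s : T // s ≠ t ∧ s ≠ t'},
        (pTgt (fun s : {s : T // s ≠ t ∧ s ≠ t'} => h s.1) s).1 = pTgt h s.1)
    (hc : ContractibleSpace
      (Rlz (pastG {s : T // s ≠ t ∧ s ≠ t'} (fun s : {s : T // s ≠ t ∧ s ≠ t'} => h s.1)))) :
    ContractibleSpace (Rlz (pastG T h)) := by
  have hlaws : (pastG T h).Laws := past_laws hp
  have d1 : h t = h (pSrc h t) + 1 := ((past_src_spec hp h5).2.1).symm
  have d2 : h t' = h (pSrc h t) := by
    have := (past_tgt_spec hp h5).2.1
    rw [h2] at this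
    omega
  -- boundaries in the two shapes
  have hst : ∀ (b : Bool) (s : TT t t'),
      (stT (hh h t t') b s).1 = stT h b s.1 := by
    intro b s
    cases b
    · exact h8 s
    · exact h9 s
  have hne : ∀ (b : Bool) (s : T), s ≠ t → 0 < h s →
      stT h b s ≠ t ∧ stT h b s ≠ t' := by
    intro b s hs hpos
    cases b
    · exact ⟨(h7 s hpos).2, (h7 s hpos).1⟩
    · exact ⟨(h6 s hs hpos).2, (h6 s hs hpos).1⟩
  have hpar : ∀ b : Bool, 0 < h t' → stT h b t' = stT h b (pSrc h t) := by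
    intro b hpos
    have hd : 1 < (pastG T h).dim t := by
      change 1 < h t
      omega
    cases b
    · have := hlaws.src_tgt t trivial hd
      change pSrc h (pTgt h t) = pSrc h (pSrc h t) at this
      rw [h2] at this
      exact this
    · have := hlaws.tgt_src t trivial hd
      change pTgt h (pSrc h t) = pTgt h (pTgt h t) at this
      rw [h2] at this
      exact this.symm
  -- the inclusion
  obtain ⟨i, hi⟩ := Rlz.exists_desc' (a := pastG (TT t t') (hh h t t')) (Y := Rlz (pastG T h))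
    (fun (s : TT t t') => ce h s.1)
    (fun b (p : TT t t') _ hd x => ce_st b p.1 _ (hst b p).symm hd x)
  have hi' : ∀ (s : TT t t') (x : Dk (h s.1)),
      i (ce (hh h t t') s x) = ce h s.1 x := fun s x => hi s x
  -- the retraction
  obtain ⟨r, hr⟩ := Rlz.exists_desc' (a := pastG T h) (Y := Rlz (pastG (TT t t') (hh h t t')))
    (fun s : T => rr h3 h4 d1 d2 s)
    (fun b (p : T) _ hd x => rr_compat h1 h2 h3 h4 d1 d2 hst hne hpar b p hd x)
  have hr' : ∀ (s : T) (x : Dk (h s)), r (ce h s x) = rr h3 h4 d1 d2 s x := fun s x => hr s x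
  -- the homotopy
  obtain ⟨K, hK⟩ := Rlz.exists_desc_homotopy (a := pastG T h) (Y := Rlz (pastG T h))
    (fun s : T => kk d1 d2 s)
    (fun b (p : T) _ hd x v => kk_compat h1 h2 h3 h4 d1 d2 hne b p hd x v)
  have hK' : ∀ (s : T) (x : Dk (h s)) (v : unitInterval), K (ce h s x, v) = kk d1 d2 s (x, v) :=
    fun s x v => hK s x v
  -- the composites
  have hri : r.comp i = ContinuousMap.id _ := by
    ext z
    obtain ⟨(s : TT t t'), x, rfl⟩ := Rlz.exists_cell z
    change r (i (ce (hh h t t') s x)) = ce (hh h t t') s x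
    rw [hi' s x, hr' s.1 x]
    exact rr_o h3 h4 d1 d2 s.2.1 s.2.2 x
  have hK0 : ∀ z, K (z, 0) = z := by
    intro z
    obtain ⟨(s : T), x, rfl⟩ := Rlz.exists_cell z
    exact (hK' s x 0).trans (kk_zero h2 d1 d2 s x)
  have hK1 : ∀ z, K (z, 1) = i (r z) := by
    intro z
    obtain ⟨(s : T), x, rfl⟩ := Rlz.exists_cell z
    exact (hK' s x 1).trans ((kk_one h3 h4 d1 d2 hi' s x).trans
      (congrArg i (hr' s x).symm))
  -- the homotopy equivalence
  have hHom : (i.comp r).Homotopic (ContinuousMap.id _) := by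
    refine ContinuousMap.Homotopic.symm ⟨⟨⟨fun p => K (p.2, p.1), ?_⟩, ?_, ?_⟩⟩
    · exact K.continuous.comp (continuous_snd.prodMk continuous_fst)
    · intro z
      exact hK0 z
    · intro z
      exact hK1 z
  have hc' : ContractibleSpace (Rlz (pastG (TT t t') (hh h t t'))) := hc
  exact ContinuousMap.HomotopyEquiv.contractibleSpace
    (Y := Rlz (pastG (TT t t') (hh h t t'))) ⟨r, i, hHom, by rw [hri]⟩

/-- the realisation of a point -/
theorem contr_point {T : Type} [LinearOrder T] [Fintype T] {h : T → ℕ} (hp : Past T h)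
    (h0 : ∀ t, h t = 0) : ContractibleSpace (Rlz (pastG T h)) := by
  have hs : Subsingleton T := hp.subsingleton h0
  obtain ⟨t⟩ := hp.ne
  have hD : ∀ s : T, Subsingleton (Dk (h s)) := by
    intro s
    rw [h0 s]
    infer_instance
  have hR : Subsingleton (Rlz (pastG T h)) := by
    constructor
    intro y z
    obtain ⟨p, x, rfl⟩ := Rlz.exists_cell y
    obtain ⟨q, x', rfl⟩ := Rlz.exists_cell z
    obtain rfl : p = q := @Subsingleton.elim T hs p q
    have := hD p
    rw [@Subsingleton.elim (Dk (h p)) (hD p) x x']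
  have hN : Nonempty (Dk (h t)) := by
    rw [h0 t]
    infer_instance
  obtain ⟨x⟩ := hN
  rw [contractible_iff_id_nullhomotopic]
  refine ⟨Rlz.cell (pastG T h) t x, ?_⟩
  have : ContinuousMap.id (Rlz (pastG T h)) =
      ContinuousMap.const (Rlz (pastG T h)) (Rlz.cell (pastG T h) t x) := by
    ext z
    exact Subsingleton.elim _ _
  rw [this]

/-- **The realisation of a pasting shape is contractible.** -/
theorem contractible_rlz_past {T : Type} [LinearOrder T] [Fintype T] {h : T → ℕ}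
    (hp : Past T h) : ContractibleSpace (Rlz (pastG T h)) := by
  have key : ∀ (n : ℕ) (T : Type) (_ : LinearOrder T) (_ : Fintype T) (h : T → ℕ),
      Fintype.card T = n → Past T h → ContractibleSpace (Rlz (pastG T h)) := by
    intro n
    induction n using Nat.strong_induction_on with
    | _ n ih =>
      intro T _ _ h hn hp
      by_cases h0 : ∀ t, h t = 0
      · exact contr_point hp h0
      · push Not at h0
        obtain ⟨t, t', h1, h2, h3, h4, h5, h6, h7, hp', h8, h9⟩ := hp.exists_red h0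
        refine contr_step hp h1 h2 h3 h4 h5 h6 h7 h8 h9 ?_
        refine ih _ ?_ _ _ _ _ rfl hp'
        rw [← hn]
        exact Fintype.card_subtype_lt (x := t) (by simp)
  exact key _ T _ _ h rfl hp

end HH
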