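import Pool.Agent.HH.Sem
import Pool.Agent.HH.PastContr
import Pool.Agent.HH.CsHyp
import Pool.Agent.HH.Acc

/-!
# HH part 3, PI-7: the fundamental groupoid functor
-/

set_option autoImplicit false

namespace HH

open Classical CategoryTheory

theorem Cs_ar_ok (k : Cs.K) (p : (Cs.ar k).C) : (Cs.ar k).ok p := trivial

/-- the arities of `Cs` are represented by their realisations -/
noncomputable def PiSem : Sem Cs TopCat.{0} where
  T Y := PiG Y
  laws Y := PiG_laws Y
  map f := PiG.map f.hom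
  map_mapAt f x _ := PiG.map_mapAt f.hom x
  map_id _ _ := rfl
  map_comp _ _ _ := rfl
  A k := TopCat.of (Rlz (Cs.ar k))
  u k := Rlz.u (Cs.ar k)
  u_typed k hk p := by
    have := Sig.Good.ar_laws k hk
    exact Rlz.u_typed p (Cs_ar_ok k p)
  desc k hk Y γ hγ := by
    obtain ⟨f, hf⟩ := Rlz.exists_desc (Cs_ar_ok k) γ hγ
    exact ⟨TopCat.ofHom f, hf⟩
  uniq k hk Y f g h := by
    exact TopCat.hom_ext (Rlz.uniq f.hom g.hom h)

theorem PiSem_mContr (k : Cs.K) (L : ℕ) : (PiSem.T (PiSem.A k)).MContr L := by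
  have : ContractibleSpace (Rlz (pastG (Fin (k.1.N + 1)) k.1.h)) :=
    contractible_rlz_past k.1.past
  exact PiG.mContr_of_contractible (Y := Rlz (pastG (Fin (k.1.N + 1)) k.1.h)) L

theorem PiSem_exists : ∃ r : ∀ k, (PiSem.T (PiSem.A k)).C, ∀ k, Cs.kok k → PiSem.GoodAt r k :=
  PiSem.exists_r_of_contr Strat.sig_wf fun k _ L => PiSem_mContr k L

/-- The chosen operations. -/
noncomputable def PiR : ∀ k, (PiSem.T (PiSem.A k)).C := PiSem_exists.choose

theorem PiR_good : ∀ k, Cs.kok k → PiSem.GoodAt PiR k := PiSem_exists.choose_spec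

/-- **The fundamental groupoid.** -/
noncomputable def PiF : TopCat.{0} ⥤ RMod Cs := Sem.functor PiR_good

theorem PiF_glob (Y : TopCat.{0}) : (PiF.obj Y).M.toGlob = PiG Y := rfl

theorem PiF_map {Y Z : TopCat.{0}} (f : Y ⟶ Z) (x : (PiF.obj Y).Cell) :
    (RHom.f (PiF.map f) x).1 = PiG.map f.hom x.1 := rfl

end HH
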