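import Pool.Agent.HH.CmpWG
import Pool.Agent.HH.PiF

/-!
# HH part 3, CMP-6: `W` as a functor to globular sets with represented arities
-/

set_option autoImplicit false

namespace HH

open Classical CategoryTheory

instance Cs_ar_laws (k : Cs.K) : (Cs.ar k).Laws := PC_laws k.1

/-- the free model on an arity -/
noncomputable def FA (k : Cs.K) : RMod Cs := termR (ofGlob Cs (Cs.ar k))

/-- the universal cells -/
noncomputable def varC (k : Cs.K) (p : (Cs.ar k).C) : (FA k).Cell := ⟨Tm.var p, trivial⟩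

theorem varC_dim (k : Cs.K) (p : (Cs.ar k).C) : (FA k).M.dim (varC k p).1 = (Cs.ar k).dim p := rfl

/-- the underlying cell of `p` in a typed map to cells -/
theorem varC_st (k : Cs.K) (b : Bool) (p : (Cs.ar k).C) (h : 0 < (FA k).M.dim (varC k p).1) :
    (FA k).st b (varC k p) h = varC k ((Cs.ar k).st b p) := by
  refine Subtype.ext ?_
  cases b <;> rfl

namespace TData

variable (τ : TData Cs)

theorem exists_Tg (k : Cs.K) : ∃ f : C(Rlz (Cs.ar k), τ.B.obj (FA k)),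
    ∀ p, PiG.map f (Rlz.u (Cs.ar k) p) = τ.T (varC k p) := by
  refine Rlz.exists_desc (Cs_ar_ok k) (fun p => τ.T (varC k p)) ?_
  intro p
  refine ⟨trivial, rfl, fun h => ⟨?_, ?_⟩⟩
  · refine (τ.T_st false (varC k p) h).trans ?_
    rw [varC_st]
    rfl
  · refine (τ.T_st true (varC k p) h).trans ?_
    rw [varC_st]
    rfl

/-- the universal disks, glued -/
noncomputable def Tg (k : Cs.K) : C(Rlz (Cs.ar k), τ.B.obj (FA k)) := (τ.exists_Tg k).choose

theorem Tg_u (k : Cs.K) (p : (Cs.ar k).C) :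
    PiG.map (τ.Tg k) (Rlz.u (Cs.ar k) p) = τ.T (varC k p) := (τ.exists_Tg k).choose_spec p

/-- the mapping cylinder -/
noncomputable def mc (k : Cs.K) : MCyl (τ.Tg k) := mcyl (τ.Tg k)

/-- the representing triple -/
noncomputable def AO (k : Cs.K) : τ.Tri where
  left := FA k
  right := (τ.mc k).U
  hom := TopCat.ofHom (τ.mc k).inl

/-- the universal typed map -/
noncomputable def uW (k : Cs.K) (p : (Cs.ar k).C) : τ.WC (τ.AO k) :=
  ⟨(varC k p, PiG.map (τ.mc k).J (Rlz.u (Cs.ar k) p)), by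
    show PiG.map (evb (τ.mc k).U false) (PiG.map (τ.mc k).J (Rlz.u (Cs.ar k) p)) =
      PiG.map (τ.mc k).inl (τ.T (varC k p))
    rw [← τ.Tg_u k p]
    exact congrArg (fun g => PiG.map g (Rlz.u (Cs.ar k) p)) (τ.mc k).w⟩

theorem uW_typed (k : Cs.K) (p : (Cs.ar k).C) :
    MapAt (Cs.ar k) (τ.WG (τ.AO k)) (τ.uW k) p := by
  have hu : MapAt (Cs.ar k) (PiG (Rlz (Cs.ar k))) (Rlz.u (Cs.ar k)) p := by
    have : (Cs.ar k).Laws := PC_laws k.1
    exact Rlz.u_typed p (Cs_ar_ok k p)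
  refine ⟨trivial, rfl, fun h => ⟨?_, ?_⟩⟩
  · refine WC.st_eq false (p := τ.uW k p) h ?_ ?_
    · exact congrArg Subtype.val (varC_st k false p h)
    · show (PiG (PS (τ.mc k).U)).st false (PiG.map (τ.mc k).J (Rlz.u (Cs.ar k) p)) =
        PiG.map (τ.mc k).J (Rlz.u (Cs.ar k) ((Cs.ar k).src p))
      rw [← PiG.map_st]
      exact congrArg _ (hu.2.2 h).1
  · refine WC.st_eq true (p := τ.uW k p) h ?_ ?_
    · exact congrArg Subtype.val (varC_st k true p h)
    · show (PiG (PS (τ.mc k).U)).st true (PiG.map (τ.mc k).J (Rlz.u (Cs.ar k) p)) =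
        PiG.map (τ.mc k).J (Rlz.u (Cs.ar k) ((Cs.ar k).tgt p))
      rw [← PiG.map_st]
      exact congrArg _ (hu.2.2 h).2

theorem desc_W (k : Cs.K) (Y : τ.Tri) (γ : (Cs.ar k).C → τ.WC Y)
    (hγ : ∀ p, MapAt (Cs.ar k) (τ.WG Y) γ p) :
    ∃ f : τ.AO k ⟶ Y, ∀ p, WC.map f (τ.uW k p) = γ p := by
  have h1 : ∀ p, MapAt (Cs.ar k) Y.left.M.toGlob (fun p => (γ p).1.1.1) p := by
    intro p
    obtain ⟨a1, a2, a3⟩ := hγ p
    obtain ⟨b1, b2, b3⟩ := fst_mapAt (γ p)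
    refine ⟨b1, b2.trans a2, fun h => ?_⟩
    obtain ⟨a4, a5⟩ := a3 h
    obtain ⟨b4, b5⟩ := b3 (lt_of_lt_of_eq h a2.symm)
    exact ⟨b4.trans (congrArg (fun p : τ.WC Y => p.1.1.1) a4),
      b5.trans (congrArg (fun p : τ.WC Y => p.1.1.1) a5)⟩
  have h2 : ∀ p, MapAt (Cs.ar k) (PiG (PS Y.right)) (fun p => (γ p).1.2) p := by
    intro p
    obtain ⟨a1, a2, a3⟩ := hγ p
    obtain ⟨b1, b2, b3⟩ := snd_mapAt (γ p)
    refine ⟨b1, b2.trans a2, fun h => ?_⟩
    obtain ⟨a4, a5⟩ := a3 h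
    obtain ⟨b4, b5⟩ := b3 (lt_of_lt_of_eq h a2.symm)
    exact ⟨b4.trans (congrArg (fun p : τ.WC Y => p.1.2) a4),
      b5.trans (congrArg (fun p : τ.WC Y => p.1.2) a5)⟩
  let F : FA k ⟶ Y.left := RHom.lift (X := ofGlob Cs (Cs.ar k)) (fun p => (γ p).1.1.1)
    (fun p _ => h1 p)
  have hF : ∀ p, RHom.f F (varC k p) = (γ p).1.1 := fun p => Subtype.ext rfl
  obtain ⟨H, hH⟩ := Rlz.exists_desc (Cs_ar_ok k) _ h2
  obtain ⟨g, g0, g1⟩ := (τ.mc k).desc (Y.hom.hom.comp (τ.B.map F).hom) H (by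
    refine Rlz.uniq _ _ fun p => ?_
    have e1 : PiG.map ((evb Y.right false).comp H) (Rlz.u (Cs.ar k) p) =
        PiG.map (evb Y.right false) (PiG.map H (Rlz.u (Cs.ar k) p)) := rfl
    have e2 : PiG.map ((Y.hom.hom.comp (τ.B.map F).hom).comp (τ.Tg k)) (Rlz.u (Cs.ar k) p) =
        PiG.map Y.hom.hom (PiG.map (τ.B.map F).hom (PiG.map (τ.Tg k) (Rlz.u (Cs.ar k) p))) := rfl
    refine e1.trans (Eq.trans ?_ e2.symm)
    rw [hH, (γ p).2, τ.Tg_u, τ.T_nat, hF]
    rfl)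
  refine ⟨{ left := F, right := TopCat.ofHom g, w := ?_ }, fun p => ?_⟩
  · exact TopCat.hom_ext g0.symm
  · refine WC.ext ?_ ?_
    · rfl
    · show PiG.map (PS.map g) (PiG.map (τ.mc k).J (Rlz.u (Cs.ar k) p)) = (γ p).1.2
      rw [← hH p]
      exact congrArg (fun g => PiG.map g (Rlz.u (Cs.ar k) p)) g1

theorem uniq_W (k : Cs.K) (Y : τ.Tri) (f g : τ.AO k ⟶ Y)
    (h : ∀ p, WC.map f (τ.uW k p) = WC.map g (τ.uW k p)) : f = g := by
  have hl : f.left = g.left := by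
    refine RHom.ext_term (X := ofGlob Cs (Cs.ar k)) fun v _ => ?_
    exact congrArg (fun p : τ.WC Y => p.1.1.1) (h v)
  have hr : f.right = g.right := by
    refine TopCat.hom_ext ((τ.mc k).uniq _ _ ?_ ?_)
    · have e1 := congrArg TopCat.Hom.hom f.w
      have e2 := congrArg TopCat.Hom.hom g.w
      refine (Eq.trans ?_ (Eq.trans e1.symm ?_)).trans (e2.trans ?_)
      · rfl
      · rw [hl]
      · rfl
    · refine Rlz.uniq _ _ fun p => ?_
      exact congrArg (fun p : τ.WC Y => p.1.2) (h p)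
  exact CommaMorphism.ext hl hr

/-- **`W` with represented arities.** -/
noncomputable def sem : Sem Cs τ.Tri where
  T X := τ.WG X
  laws _ := inferInstance
  map f := WC.map f
  map_mapAt f x _ := WC.map_mapAt f x
  map_id _ x := WC.map_id x
  map_comp f g x := WC.map_comp f g x
  A := τ.AO
  u := τ.uW
  u_typed k _ p := τ.uW_typed k p
  desc k _ Y γ hγ := τ.desc_W k Y γ hγ
  uniq k _ Y f g h := τ.uniq_W k Y f g h

end TData

end HH
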