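import Pool.Agent.HH.PiGlob

/-!
# HH part 3, CMP-1: path spaces, lifting of disks

* `WCt Y`: maps from spheres to `Y` extend to the disks.
* `PS Y` is the path space, `evb b` the evaluation at the end `b`.
* `lift_ev`: disks lift strictly along `evb b : PS Y → Y`.
* `lift_ev2`: if `WCt Y` then disks lift strictly along `PS Y → Y × Y`.
-/

set_option autoImplicit false

namespace HH

/-- Weak contractibility: maps from spheres extend to the disks. -/
def WCt (Y : Type*) [TopologicalSpace Y] : Prop :=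
  Nonempty Y ∧ ∀ (j : ℕ) (F : C(Sph j, Y)), ∃ G : C(Dk (j + 1), Y), G.comp (Sph.inc j) = F

/-- The path space. -/
abbrev PS (Y : Type) [TopologicalSpace Y] : Type := C(unitInterval, Y)

section

variable {Y Z W : Type} [TopologicalSpace Y] [TopologicalSpace Z] [TopologicalSpace W]

/-- the ends of the interval -/
def bI (b : Bool) : unitInterval := if b then 1 else 0

/-- evaluation at an end -/
def evb (Y : Type) [TopologicalSpace Y] (b : Bool) : C(PS Y, Y) :=
  ⟨fun γ => γ (bI b), continuous_eval_const (bI b)⟩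

@[simp] theorem evb_apply (b : Bool) (γ : PS Y) : evb Y b γ = γ (bI b) := rfl

/-- the map of path spaces induced by a continuous map -/
def PS.map (f : C(Y, Z)) : C(PS Y, PS Z) := ⟨fun γ => f.comp γ, f.continuous_postcomp⟩

@[simp] theorem PS.map_apply (f : C(Y, Z)) (γ : PS Y) : PS.map f γ = f.comp γ := rfl

theorem evb_map (b : Bool) (f : C(Y, Z)) : (evb Z b).comp (PS.map f) = f.comp (evb Y b) := rfl

/-- reversal of paths -/
def PS.rev (Y : Type) [TopologicalSpace Y] : C(PS Y, PS Y) :=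
  ⟨fun γ => γ.comp ⟨unitInterval.symm, unitInterval.continuous_symm⟩,
    ContinuousMap.continuous_precomp _⟩

theorem PS.rev_rev (γ : PS Y) : PS.rev Y (PS.rev Y γ) = γ := by
  ext u
  exact congrArg γ (unitInterval.symm_symm u)

theorem evb_rev (b : Bool) (γ : PS Y) : evb Y b (PS.rev Y γ) = evb Y (!b) γ := by
  cases b
  · exact congrArg γ unitInterval.symm_zero
  · exact congrArg γ unitInterval.symm_one

/-- constant paths -/
def PS.const (Y : Type) [TopologicalSpace Y] : C(Y, PS Y) :=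
  ⟨fun y => ContinuousMap.const _ y, ContinuousMap.continuous_const'⟩

@[simp] theorem evb_const (b : Bool) (y : Y) : evb Y b (PS.const Y y) = y := rfl

/-! ### Strict lifting along `evb b` -/

theorem lift_ev_false {j : ℕ} (A : C(Dk (j + 1), Y)) (Hs Ht : C(Dk j, PS Y)) (hp : ParC Hs Ht)
    (h0 : (evb Y false).comp Hs = A.comp (sg false j))
    (h1 : (evb Y false).comp Ht = A.comp (sg true j)) :
    ∃ H : C(Dk (j + 1), PS Y), H.comp (sg false j) = Hs ∧ H.comp (sg true j) = Ht ∧
      (evb Y false).comp H = A := by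
  obtain ⟨F, hF0, hF1⟩ := exists_glue_homotopy (f := Hs.uncurry) (g := Ht.uncurry)
    (fun x hx u => by
      show Hs x u = Ht x u
      rw [hp x hx])
  obtain ⟨K, hK0, hK1⟩ := exists_hep A F (by
    intro z
    obtain ⟨b, y, rfl⟩ := Sph.exists_hs z
    rw [Sph.inc_hs]
    cases b
    · rw [hF0]
      exact DFunLike.congr_fun h0 y
    · rw [hF1]
      exact DFunLike.congr_fun h1 y)
  refine ⟨K.curry, ?_, ?_, ?_⟩
  · ext y u
    show K (sg false j y, u) = Hs y u
    rw [← Sph.inc_hs, hK1, hF0]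
    rfl
  · ext y u
    show K (sg true j y, u) = Ht y u
    rw [← Sph.inc_hs, hK1, hF1]
    rfl
  · ext x
    exact hK0 x

/-- **Strict lifting of disks along the evaluation at an end.** -/
theorem lift_ev (b : Bool) {j : ℕ} (A : C(Dk (j + 1), Y)) (Hs Ht : C(Dk j, PS Y))
    (hp : ParC Hs Ht) (h0 : (evb Y b).comp Hs = A.comp (sg false j))
    (h1 : (evb Y b).comp Ht = A.comp (sg true j)) :
    ∃ H : C(Dk (j + 1), PS Y), H.comp (sg false j) = Hs ∧ H.comp (sg true j) = Ht ∧
      (evb Y b).comp H = A := by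
  cases b
  · exact lift_ev_false A Hs Ht hp h0 h1
  · obtain ⟨H, k0, k1, k2⟩ := lift_ev_false A ((PS.rev Y).comp Hs) ((PS.rev Y).comp Ht)
      (fun x hx => congrArg (PS.rev Y) (hp x hx))
      (by
        rw [← h0]
        ext x
        exact evb_rev false (Hs x))
      (by
        rw [← h1]
        ext x
        exact evb_rev false (Ht x))
    refine ⟨(PS.rev Y).comp H, ?_, ?_, ?_⟩
    · rw [ContinuousMap.comp_assoc, k0]
      ext x : 1
      exact PS.rev_rev (Hs x)
    · rw [ContinuousMap.comp_assoc, k1]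
      ext x : 1
      exact PS.rev_rev (Ht x)
    · rw [← k2]
      ext x
      exact evb_rev true (H x)

/-! ### Strict lifting along both ends -/

/-- the point of `Dk (j + 1)` with given coordinates -/
def Dk.mk2 {j : ℕ} (x : Dk j) (z : ℝ) (h : z ^ 2 ≤ 1 - x.sq) : Dk (j + 1) :=
  ⟨Fin.snoc (α := fun _ => ℝ) x.1 z, by
    rw [Fin.sum_univ_castSucc]
    simp only [Fin.snoc_castSucc, Fin.snoc_last]
    have : ∑ i, x.1 i ^ 2 = x.sq := rfl
    rw [this]
    linarith⟩

theorem Dk.mk2_eq_sg_true {j : ℕ} (x : Dk j) (z : ℝ) (h : z ^ 2 ≤ 1 - x.sq) (hz : z = x.hgt) :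
    Dk.mk2 x z h = sg true j x := by
  subst hz
  refine Subtype.ext ?_
  show Fin.snoc (α := fun _ => ℝ) x.1 x.hgt =
    Fin.snoc (α := fun _ => ℝ) x.1 ((sgn true).1 * x.hgt)
  have : (sgn true).1 = 1 := rfl
  rw [this, one_mul]

theorem Dk.mk2_eq_sg_false {j : ℕ} (x : Dk j) (z : ℝ) (h : z ^ 2 ≤ 1 - x.sq)
    (hz : z = -x.hgt) : Dk.mk2 x z h = sg false j x := by
  subst hz
  refine Subtype.ext ?_
  show Fin.snoc (α := fun _ => ℝ) x.1 (-x.hgt) =
    Fin.snoc (α := fun _ => ℝ) x.1 ((sgn false).1 * x.hgt)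
  have : (sgn false).1 = -1 := rfl
  rw [this, neg_one_mul]

/-- the height of the lens below the top -/
noncomputable def lensT {j : ℕ} (x : Dk j) : ℝ := 1 - x.hgt / 2

theorem lensT_pos {j : ℕ} (x : Dk j) : 0 < lensT x := by
  have h1 : x.hgt ≤ 1 := by
    have h2 := x.hgt_sq
    have h3 := x.sq_nonneg'
    have h4 := x.hgt_nonneg
    nlinarith
  unfold lensT
  linarith

theorem continuous_lensT {j : ℕ} : Continuous fun x : Dk j => lensT x :=
  continuous_const.sub (Dk.continuous_hgt.div_const 2)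

/-- the vertical coordinate in the lens -/
noncomputable def lensZ {j : ℕ} (p : Dk j × unitInterval) : ℝ :=
  -p.1.hgt + 4 * max 0 (p.2.1 - lensT p.1)

theorem continuous_lensZ {j : ℕ} : Continuous fun p : Dk j × unitInterval => lensZ p :=
  ((Dk.continuous_hgt.comp continuous_fst).neg).add
    (continuous_const.mul (continuous_const.max
      ((continuous_subtype_val.comp continuous_snd).sub (continuous_lensT.comp continuous_fst))))

theorem lensZ_sq {j : ℕ} (p : Dk j × unitInterval) : lensZ p ^ 2 ≤ 1 - p.1.sq := by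
  rw [← p.1.hgt_sq]
  have h1 := p.1.hgt_nonneg
  have h2 := p.2.2.2
  have h3 : max 0 (p.2.1 - lensT p.1) ≤ p.1.hgt / 2 := by
    refine max_le (by linarith) ?_
    unfold lensT
    linarith
  have h4 : 0 ≤ max 0 (p.2.1 - lensT p.1) := le_max_left _ _
  unfold lensZ
  nlinarith

/-- the point in the lens -/
noncomputable def lensP (j : ℕ) : C(Dk j × unitInterval, Dk (j + 1)) :=
  ⟨fun p => Dk.mk2 p.1 (lensZ p) (lensZ_sq p), by
    refine Continuous.subtype_mk (continuous_pi fun i => ?_) _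
    refine Fin.lastCases ?_ (fun i => ?_) i
    · simp only [Fin.snoc_last]
      exact continuous_lensZ
    · simp only [Fin.snoc_castSucc]
      exact (continuous_apply i).comp (Dk.continuous_val.comp continuous_fst)⟩

/-- **Correction of the top of a homotopy.** -/
theorem exists_lens {j : ℕ} (H : C(Dk j, PS Y)) (A : C(Dk j, Y)) (G : C(Dk (j + 1), Y))
    (h0 : G.comp (sg false j) = (evb Y true).comp H) (h1 : G.comp (sg true j) = A) :
    ∃ K : C(Dk j, PS Y), (evb Y false).comp K = (evb Y false).comp H ∧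
      (evb Y true).comp K = A ∧ ∀ x, x.sq = 1 → K x = H x := by
  have hθ : ∀ x : Dk j, lensT x ≠ 0 := fun x => (lensT_pos x).ne'
  have hc1 : Continuous fun p : Dk j × unitInterval =>
      H p.1 (Set.projIcc 0 1 zero_le_one (p.2.1 / lensT p.1)) := by
    refine Continuous.comp (g := fun q : Dk j × unitInterval => H q.1 q.2)
      (f := fun p : Dk j × unitInterval =>
        (p.1, Set.projIcc 0 1 zero_le_one (p.2.1 / lensT p.1))) ?_ ?_
    · exact H.uncurry.continuous
    · refine continuous_fst.prodMk (continuous_projIcc.comp ?_)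
      exact (continuous_subtype_val.comp continuous_snd).div
        (continuous_lensT.comp continuous_fst) fun p => hθ p.1
  have hc2 : Continuous fun p : Dk j × unitInterval => G (lensP j p) :=
    G.continuous.comp (lensP j).continuous
  have hc : Continuous fun p : Dk j × unitInterval =>
      if p.2.1 ≤ lensT p.1 then H p.1 (Set.projIcc 0 1 zero_le_one (p.2.1 / lensT p.1))
        else G (lensP j p) := by
    refine Continuous.if_le hc1 hc2 (continuous_subtype_val.comp continuous_snd)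
      (continuous_lensT.comp continuous_fst) ?_
    intro p hp
    have e1 : Set.projIcc (0 : ℝ) 1 zero_le_one (p.2.1 / lensT p.1) = 1 := by
      rw [hp, div_self (hθ p.1)]
      exact Set.projIcc_right zero_le_one
    have e2 : lensP j p = sg false j p.1 := by
      refine Dk.mk2_eq_sg_false _ _ (lensZ_sq p) ?_
      unfold lensZ
      rw [hp, sub_self, max_self, mul_zero, add_zero]
    rw [e1, e2]
    exact (DFunLike.congr_fun h0 p.1).symm
  have key : ∀ (x : Dk j) (u : unitInterval), x.sq = 1 → u.1 ≤ lensT x ∧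
      Set.projIcc (0 : ℝ) 1 zero_le_one (u.1 / lensT x) = u := by
    intro x u hx
    have e1 : x.hgt = 0 := by
      rw [Dk.hgt, hx, sub_self, Real.sqrt_zero]
    have e2 : lensT x = 1 := by
      unfold lensT
      rw [e1]
      norm_num
    rw [e2, div_one]
    exact ⟨u.2.2, Set.projIcc_val zero_le_one u⟩
  refine ⟨ContinuousMap.curry ⟨_, hc⟩, ?_, ?_, ?_⟩
  · ext x
    show (if ((0 : unitInterval) : ℝ) ≤ lensT x then
      H x (Set.projIcc 0 1 zero_le_one (((0 : unitInterval) : ℝ) / lensT x)) else _) = H x 0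
    rw [if_pos (by
      rw [Set.Icc.coe_zero]
      exact (lensT_pos x).le)]
    congr 1
    rw [Set.Icc.coe_zero, zero_div]
    exact Set.projIcc_left zero_le_one
  · ext x
    show (if ((1 : unitInterval) : ℝ) ≤ lensT x then
      H x (Set.projIcc 0 1 zero_le_one (((1 : unitInterval) : ℝ) / lensT x)) else
        G (lensP j (x, 1))) = A x
    rw [Set.Icc.coe_one]
    by_cases hx : (1 : ℝ) ≤ lensT x
    · rw [if_pos hx]
      have e1 : x.hgt = 0 := by
        have := x.hgt_nonneg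
        unfold lensT at hx
        linarith
      have e2 : lensT x = 1 := by
        unfold lensT
        rw [e1]
        norm_num
      have e3 : sg false j x = sg true j x := by
        rw [← Dk.mk2_eq_sg_false x 0 (by rw [← x.hgt_sq, e1]) (by rw [e1, neg_zero]),
          ← Dk.mk2_eq_sg_true x 0 (by rw [← x.hgt_sq, e1]) (by rw [e1])]
      rw [e2, div_one]
      have e4 : Set.projIcc (0 : ℝ) 1 zero_le_one 1 = 1 := Set.projIcc_right zero_le_one
      rw [e4]
      have e5 : G (sg false j x) = H x 1 := DFunLike.congr_fun h0 x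
      rw [← e5, e3]
      exact DFunLike.congr_fun h1 x
    · rw [if_neg hx]
      rw [not_le] at hx
      have e1 : lensP j (x, 1) = sg true j x := by
        refine Dk.mk2_eq_sg_true _ _ (lensZ_sq (x, 1)) ?_
        show -x.hgt + 4 * max 0 (((1 : unitInterval) : ℝ) - lensT x) = x.hgt
        rw [Set.Icc.coe_one, max_eq_right (by linarith)]
        unfold lensT
        ring
      rw [e1]
      exact DFunLike.congr_fun h1 x
  · intro x hx
    ext u
    show (if u.1 ≤ lensT x then H x (Set.projIcc 0 1 zero_le_one (u.1 / lensT x)) else _) = H x u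
    obtain ⟨k1, k2⟩ := key x u hx
    rw [if_pos k1, k2]

theorem WCt.conn (hY : WCt Y) {j : ℕ} {f g : C(Dk j, Y)} (h : ParC f g) :
    ∃ G : C(Dk (j + 1), Y), G.comp (sg false j) = f ∧ G.comp (sg true j) = g := by
  obtain ⟨F, hF0, hF1⟩ := exists_glue h
  obtain ⟨G, hG⟩ := hY.2 j F
  refine ⟨G, ?_, ?_⟩
  · rw [← hF0, ← hG]
    ext x
    exact congrArg G (Sph.inc_hs false x).symm
  · rw [← hF1, ← hG]
    ext x
    exact congrArg G (Sph.inc_hs true x).symm

/-- **Strict lifting of disks along both ends, for weakly contractible spaces.** -/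
theorem lift_ev2 (hY : WCt Y) {j : ℕ} (A : Bool → C(Dk (j + 1), Y)) (Hs Ht : C(Dk j, PS Y))
    (hp : ParC Hs Ht) (h0 : ∀ b, (evb Y b).comp Hs = (A b).comp (sg false j))
    (h1 : ∀ b, (evb Y b).comp Ht = (A b).comp (sg true j)) :
    ∃ H : C(Dk (j + 1), PS Y), H.comp (sg false j) = Hs ∧ H.comp (sg true j) = Ht ∧
      ∀ b, (evb Y b).comp H = A b := by
  obtain ⟨H, k0, k1, k2⟩ := lift_ev false (A false) Hs Ht hp (h0 false) (h1 false)
  obtain ⟨G, g0, g1⟩ := hY.conn (f := (evb Y true).comp H) (g := A true) ((parC_succ _ _).2 (by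
    intro b
    cases b
    · rw [ContinuousMap.comp_assoc, k0, h0]
    · rw [ContinuousMap.comp_assoc, k1, h1]))
  obtain ⟨K, e0, e1, e2⟩ := exists_lens H (A true) G g0 g1
  refine ⟨K, ?_, ?_, ?_⟩
  · rw [← k0]
    ext x : 1
    exact e2 _ (Dk.sq_sg false x)
  · rw [← k1]
    ext x : 1
    exact e2 _ (Dk.sq_sg true x)
  · intro b
    cases b
    · rw [e0, k2]
    · exact e1

/-- dimension zero -/
theorem lift_ev2_zero (hY : WCt Y) (A : Bool → C(Dk 0, Y)) :
    ∃ H : C(Dk 0, PS Y), ∀ b, (evb Y b).comp H = A b := by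
  obtain ⟨G, g0, g1⟩ := hY.conn (parC_zero (A false) (A true))
  obtain ⟨K, e0, e1, -⟩ := exists_lens ((PS.const Y).comp (A false)) (A true) G g0 g1
  exact ⟨K, fun b => by
    cases b
    · exact e0
    · exact e1⟩

/-! ### Weakly contractible spaces -/

theorem WCt.of_contractible [ContractibleSpace Y] : WCt Y :=
  ⟨inferInstance, fun _ F => exists_extend_of_contractible F⟩

theorem WCt.of_retract (hZ : WCt Z) (i : C(Y, Z)) (r : C(Z, Y)) (h : ∀ y, r (i y) = y) :
    WCt Y := by
  refine ⟨?_, fun j F => ?_⟩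
  · obtain ⟨z⟩ := hZ.1
    exact ⟨r z⟩
  · obtain ⟨G, hG⟩ := hZ.2 j (i.comp F)
    refine ⟨r.comp G, ?_⟩
    rw [ContinuousMap.comp_assoc, hG]
    ext z
    exact h _

/-- a space dominated by a weakly contractible space is weakly contractible -/
theorem WCt.of_dominated (hZ : WCt Z) (ρ : C(Y, Z)) (ι : C(Z, Y)) (K : C(Y, PS Y))
    (h0 : ∀ y, K y 0 = y) (h1 : ∀ y, K y 1 = ι (ρ y)) : WCt Y := by
  refine ⟨?_, fun j F => ?_⟩
  · obtain ⟨z⟩ := hZ.1
    exact ⟨ι z⟩
  · obtain ⟨G, hG⟩ := hZ.2 j (ρ.comp F)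
    obtain ⟨L, hL0, hL1⟩ := exists_hep (ι.comp G) (((PS.rev Y).comp (K.comp F)).uncurry) (by
      intro z
      show K (F z) (unitInterval.symm 0) = ι (G (Sph.inc j z))
      rw [unitInterval.symm_zero, h1]
      exact congrArg ι (DFunLike.congr_fun hG z).symm)
    refine ⟨(evb Y true).comp L.curry, ?_⟩
    ext z
    show L (Sph.inc j z, 1) = F z
    rw [hL1]
    show K (F z) (unitInterval.symm 1) = F z
    rw [unitInterval.symm_one, h0]

/-! ### Formulation with cells -/

namespace PiG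

theorem conn_map (f : C(Y, Z)) {x y : (PiG Y).C} (h : (PiG Y).Conn x y) :
    (PiG Z).Conn (map f x) (map f y) := by
  obtain ⟨c, c1, c2, c3, c4⟩ := h
  obtain ⟨m1, m2, m3⟩ := map_mapAt f c
  obtain ⟨m4, m5⟩ := m3 (by
    have : (PiG Y).dim c = (PiG Y).dim x + 1 := c2
    omega)
  refine ⟨map f c, m1, m2.trans c2, ?_, ?_⟩
  · rw [m4, c3]
  · rw [m5, c4]

theorem conn_refl (x : (PiG Y).C) : (PiG Y).Conn x x := by
  obtain ⟨k, f⟩ := x
  exact (conn_iff_homotopicRel f f).2 (ContinuousMap.HomotopicRel.refl f)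

theorem mContr' (hY : WCt Y) (L : ℕ) : (PiG Y).MContr L := mContr hY.2 L

/-- strict lifting along `evb b`, for cells -/
theorem lift_evb (b : Bool) {c : (PiG Y).C} {p p' : (PiG (PS Y)).C}
    (hp : (PiG (PS Y)).Par p p') (hd : c.1 = p.1 + 1)
    (hs : map (evb Y b) p = (PiG Y).src c) (ht : map (evb Y b) p' = (PiG Y).tgt c) :
    ∃ H : (PiG (PS Y)).C, H.1 = p.1 + 1 ∧ (PiG (PS Y)).src H = p ∧ (PiG (PS Y)).tgt H = p' ∧
      map (evb Y b) H = c := by
  obtain ⟨j, Hs⟩ := p
  obtain ⟨j', Ht⟩ := p'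
  obtain ⟨k, A⟩ := c
  have hj : j = j' := hp.2.2.1
  subst hj
  have hk : k = j + 1 := hd
  subst hk
  obtain ⟨H, k0, k1, k2⟩ := HH.lift_ev b A Hs Ht ((par_iff _ _).1 hp) (mk_inj hs) (mk_inj ht)
  refine ⟨⟨j + 1, H⟩, rfl, ?_, ?_, ?_⟩
  · exact congrArg (Sigma.mk j) k0
  · exact congrArg (Sigma.mk j) k1
  · exact congrArg (Sigma.mk (j + 1)) k2

/-- strict lifting along both ends, for cells -/
theorem lift_evb2 (hY : WCt Y) {c : Bool → (PiG Y).C} {p p' : (PiG (PS Y)).C}
    (hp : (PiG (PS Y)).Par p p') (hd : ∀ b, (c b).1 = p.1 + 1)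
    (hs : ∀ b, map (evb Y b) p = (PiG Y).src (c b))
    (ht : ∀ b, map (evb Y b) p' = (PiG Y).tgt (c b)) :
    ∃ H : (PiG (PS Y)).C, H.1 = p.1 + 1 ∧ (PiG (PS Y)).src H = p ∧ (PiG (PS Y)).tgt H = p' ∧
      ∀ b, map (evb Y b) H = c b := by
  obtain ⟨j, Hs⟩ := p
  obtain ⟨j', Ht⟩ := p'
  have hj : j = j' := hp.2.2.1
  subst hj
  obtain ⟨A, hA⟩ : ∃ A : Bool → C(Dk (j + 1), Y), ∀ b, c b = ⟨j + 1, A b⟩ :=
    ⟨fun b => fn (c b) (hd b), fun b => eq_mk (c b) (hd b)⟩
  obtain ⟨H, k0, k1, k2⟩ := HH.lift_ev2 hY A Hs Ht ((par_iff _ _).1 hp)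
    (fun b => mk_inj ((hs b).trans (congrArg (PiG Y).src (hA b))))
    (fun b => mk_inj ((ht b).trans (congrArg (PiG Y).tgt (hA b))))
  refine ⟨⟨j + 1, H⟩, rfl, ?_, ?_, fun b => ?_⟩
  · exact congrArg (Sigma.mk j) k0
  · exact congrArg (Sigma.mk j) k1
  · rw [hA b]
    exact congrArg (Sigma.mk (j + 1)) (k2 b)

theorem lift_evb2_zero (hY : WCt Y) {c : Bool → (PiG Y).C} (hd : ∀ b, (c b).1 = 0) :
    ∃ H : (PiG (PS Y)).C, H.1 = 0 ∧ ∀ b, map (evb Y b) H = c b := by
  obtain ⟨A, hA⟩ : ∃ A : Bool → C(Dk 0, Y), ∀ b, c b = ⟨0, A b⟩ :=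
    ⟨fun b => fn (c b) (hd b), fun b => eq_mk (c b) (hd b)⟩
  obtain ⟨H, k2⟩ := HH.lift_ev2_zero hY A
  refine ⟨⟨0, H⟩, rfl, fun b => ?_⟩
  rw [hA b]
  exact congrArg (Sigma.mk 0) (k2 b)

/-- parallel cells of the path space are connected if their values at one end are -/
theorem conn_of_evb (b : Bool) {K K' : (PiG (PS Y)).C} (hp : (PiG (PS Y)).Par K K')
    (h : (PiG Y).Conn (map (evb Y b) K) (map (evb Y b) K')) : (PiG (PS Y)).Conn K K' := by
  obtain ⟨c, -, c2, c3, c4⟩ := h
  obtain ⟨H, h1, h2, h3, -⟩ := lift_evb b hp (c := c) c2 c3.symm c4.symm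
  exact ⟨H, trivial, h1, h2, h3⟩

/-- comparison of the two ends of parallel homotopies -/
theorem conn_evb_of_evb (b : Bool) {K K' : (PiG (PS Y)).C} (hp : (PiG (PS Y)).Par K K')
    (h : (PiG Y).Conn (map (evb Y b) K) (map (evb Y b) K')) (b' : Bool) :
    (PiG Y).Conn (map (evb Y b') K) (map (evb Y b') K') :=
  conn_map _ (conn_of_evb b hp h)

end PiG

end

end HH
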