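import Pool.Agent.HH.CmpSem
import Pool.Agent.HH.CsHyp

/-!
# HH part 3, CMP-7: the functor `W` to models and its two projections
-/

set_option autoImplicit false

universe v u

namespace HH

open Classical CategoryTheory

/-! ### Evaluation commutes with natural maps -/

namespace Sem

variable {S : Sig} {𝒞 : Type u} [Category.{v} 𝒞] {σ : Sem S 𝒞} [S.Good]

/-- A natural map to another functor to models respects a good operation. -/
theorem op_tau {r : ∀ k, (σ.T (σ.A k)).C} {k : S.K} (hk : S.kok k) (hg : σ.GoodAt r k)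
    (N : 𝒞 ⥤ RMod S) (τ : ∀ Y : 𝒞, (σ.T Y).C → (N.obj Y).M.C)
    (hτ : ∀ Y x, (σ.T Y).ok x → MapAt (σ.T Y) (N.obj Y).M.toGlob (τ Y) x)
    (nat : ∀ (Y Z : 𝒞) (f : Y ⟶ Z) (x : (σ.T Y).C) (hx : (σ.T Y).ok x),
      τ Z (σ.map f x) = (RHom.f (N.map f) ⟨τ Y x, (hτ Y x hx).1⟩).1)
    (hR : τ (σ.A k) (r k) = (N.obj (σ.A k)).M.o k (fun p => τ (σ.A k) (σ.u k p)))
    {Y : 𝒞} {γ : (S.ar k).C → (σ.T Y).C} (hγ : ∀ p, MapAt (S.ar k) (σ.T Y) γ p) :
    τ Y ((σ.mod r Y).o k γ) = (N.obj Y).M.o k (fun p => τ Y (γ p)) := by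
  obtain ⟨g, hg'⟩ := σ.desc k hk Y γ hγ
  have hu : ∀ p, (σ.T (σ.A k)).ok (σ.u k p) := fun p => (σ.u_typed k hk p).1
  have hτu : ∀ p, MapAt (S.ar k) (N.obj (σ.A k)).M.toGlob
      (fun p => τ (σ.A k) (σ.u k p)) p := by
    intro p
    obtain ⟨f1, f2, f3⟩ := σ.u_typed k hk p
    obtain ⟨g1, g2, g3⟩ := hτ (σ.A k) (σ.u k p) f1
    refine ⟨g1, g2.trans f2, fun h0 => ?_⟩
    obtain ⟨a1, a2⟩ := f3 h0
    obtain ⟨b1, b2⟩ := g3 (by rw [f2]; exact h0)
    exact ⟨b1.trans (congrArg _ a1), b2.trans (congrArg _ a2)⟩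
  rw [mod_o σ hk g hg', nat _ _ g (r k) hg.ok]
  have e1 : (⟨τ (σ.A k) (r k), (hτ (σ.A k) (r k) hg.ok).1⟩ : (N.obj (σ.A k)).Cell) =
      ⟨(N.obj (σ.A k)).M.o k (fun p => τ (σ.A k) (σ.u k p)),
        Model.OpLaws.o_ok k _ hk hτu⟩ := Subtype.ext hR
  rw [e1]
  refine (RHom.op (N.map g) k hk (fun p => ⟨τ (σ.A k) (σ.u k p), (hτu p).1⟩) hτu).trans ?_
  congr 1
  funext p
  rw [← nat _ _ g (σ.u k p) (hu p), hg' p]

/-- A natural map to another functor to models respects the evaluation of terms all of whose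
operations are good. -/
theorem eval_tau {r : ∀ k, (σ.T (σ.A k)).C}
    (N : 𝒞 ⥤ RMod S) (τ : ∀ Y : 𝒞, (σ.T Y).C → (N.obj Y).M.C)
    (hτ : ∀ Y x, (σ.T Y).ok x → MapAt (σ.T Y) (N.obj Y).M.toGlob (τ Y) x)
    (nat : ∀ (Y Z : 𝒞) (f : Y ⟶ Z) (x : (σ.T Y).C) (hx : (σ.T Y).ok x),
      τ Z (σ.map f x) = (RHom.f (N.map f) ⟨τ Y x, (hτ Y x hx).1⟩).1)
    {X : Cptd S} {Y : 𝒞} {γ : X.V → (σ.T Y).C} {t : S.T X.V} (ht : X.tok t)
    (hr : ∀ k, t.HasOp k → σ.GoodAt r k)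
    (hR : ∀ k, t.HasOp k →
      τ (σ.A k) (r k) = (N.obj (σ.A k)).M.o k (fun p => τ (σ.A k) (σ.u k p)))
    (hγ : ∀ v, AsgAt X (σ.mod r Y) γ v) :
    τ Y ((σ.mod r Y).eval γ t) = (N.obj Y).M.eval (fun v => τ Y (γ v)) t := by
  induction t with
  | var v => rfl
  | op k δ ih =>
    obtain ⟨hk, hδ⟩ := ht
    have key : ∀ p, MapAt (S.ar k) (σ.T Y) (fun p => (σ.mod r Y).eval γ (δ p)) p := by
      intro p
      obtain ⟨h1, h2, h3⟩ := hδ p
      obtain ⟨i1, i2, i3⟩ := (eval_occ (σ := σ) (r := r) (X := X) (Y := Y) (γ := γ) h1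
        (fun k' hk' => hr k' (Or.inr ⟨p, hk'⟩)) (fun v _ => hγ v)).1
      refine ⟨i1, i2.trans h2, fun hp => ?_⟩
      obtain ⟨j1, j2⟩ := h3 hp
      have hp' : 0 < X.tdim (δ p) := by rw [h2]; exact hp
      obtain ⟨k1, k2⟩ := i3 hp'
      exact ⟨k1.trans (congrArg ((σ.mod r Y).eval γ) j1),
        k2.trans (congrArg ((σ.mod r Y).eval γ) j2)⟩
    refine (op_tau hk (hr k (Or.inl rfl)) N τ hτ nat (hR k (Or.inl rfl)) key).trans ?_
    show (N.obj Y).M.o k _ = (N.obj Y).M.o k _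
    congr 1
    funext p
    exact ih p (hδ p).1 (fun k' hk' => hr k' (Or.inr ⟨p, hk'⟩))
      (fun k' hk' => hR k' (Or.inr ⟨p, hk'⟩))

end Sem

namespace TData

variable (τ : TData Cs)

/-- the functor `(G, Y, β) ↦ G` -/
noncomputable abbrev NF : τ.Tri ⥤ RMod Cs := Comma.fst τ.B (𝟭 TopCat.{0})

/-- the functor `(G, Y, β) ↦ Π Y` -/
noncomputable abbrev NT : τ.Tri ⥤ RMod Cs := Comma.snd τ.B (𝟭 TopCat.{0}) ⋙ PiF

/-- the map `|ar k| → U` at the top of the mapping cylinder -/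
noncomputable def tj (k : Cs.K) : C(Rlz (Cs.ar k), (τ.mc k).U) :=
  (evb (τ.mc k).U true).comp (τ.mc k).J

/-- the free models on arities are contractible -/
theorem FA_ctr (k : Cs.K) : (FA k).Ctr := by
  refine ⟨⟨(varC k (⟨0, Nat.succ_pos _⟩ : Fin (k.1.N + 1))).1,
    (varC k (⟨0, Nat.succ_pos _⟩ : Fin (k.1.N + 1))).2, ?_⟩, fun L => Cs_code_contr k.1 L⟩
  exact k.1.past.bot _ fun b _ => Nat.zero_le b.1

/-- the side condition -/
def RW (k : Cs.K) (h : τ.WC (τ.AO k)) : Prop :=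
  h.1.1.1 = Tm.op k Tm.var ∧ h.top = PiG.map (τ.tj k) (PiR k)

theorem fst_nat {X Y : τ.Tri} (f : X ⟶ Y) (x : τ.WC X) :
    (WC.map f x).fst.1 = (RHom.f f.left x.fst).1 := rfl

theorem top_nat {X Y : τ.Tri} (f : X ⟶ Y) (x : τ.WC X) :
    (WC.map f x).top = PiG.map f.right.hom x.top := rfl

theorem hR_fst {k : Cs.K} {h : τ.WC (τ.AO k)} (hh : τ.RW k h) :
    h.fst.1 = (FA k).M.o k (fun p => (τ.uW k p).fst.1) := hh.1

theorem uW_top (k : Cs.K) (p : (Cs.ar k).C) :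
    (τ.uW k p).top = PiG.map (τ.tj k) (Rlz.u (Cs.ar k) p) := rfl

theorem hR_top {k : Cs.K} (hk : Cs.kok k) {h : τ.WC (τ.AO k)} (hh : τ.RW k h) :
    h.top = (PiF.obj (τ.mc k).U).M.o k (fun p => (τ.uW k p).top) := by
  rw [hh.2]
  exact (Sem.mod_o PiSem (r := PiR) hk (TopCat.ofHom (τ.tj k)) (fun p => rfl)).symm

/-- the operation as a cell of the free model -/
noncomputable def opC (k : Cs.K) (hk : Cs.kok k) : (FA k).Cell :=
  ⟨Tm.op k Tm.var, ⟨hk, fun _ => ⟨trivial, rfl, fun _ => ⟨rfl, rfl⟩⟩⟩⟩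

theorem hfill (k : Cs.K) (r : ∀ k, (τ.sem.T (τ.sem.A k)).C) (hk : Cs.kok k)
    (hlow : ∀ k', Relation.TransGen Cs.opLt k' k → τ.sem.GoodAt r k' ∧ τ.RW k' (r k'))
    (hpar : (τ.sem.T (τ.sem.A k)).Par ((τ.sem.mod r (τ.sem.A k)).eval (τ.sem.u k) (Cs.bs k))
        ((τ.sem.mod r (τ.sem.A k)).eval (τ.sem.u k) (Cs.bt k)))
    (hdim : (τ.sem.T (τ.sem.A k)).dim ((τ.sem.mod r (τ.sem.A k)).eval (τ.sem.u k) (Cs.bs k)) + 1 =
      Cs.dm k) :
    ∃ h, (τ.sem.T (τ.sem.A k)).ok h ∧ (τ.sem.T (τ.sem.A k)).dim h = Cs.dm k ∧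
        (τ.sem.T (τ.sem.A k)).src h = (τ.sem.mod r (τ.sem.A k)).eval (τ.sem.u k) (Cs.bs k) ∧
        (τ.sem.T (τ.sem.A k)).tgt h = (τ.sem.mod r (τ.sem.A k)).eval (τ.sem.u k) (Cs.bt k) ∧
        τ.RW k h := by
  obtain ⟨b, hb⟩ : ∃ b : Bool → τ.WC (τ.AO k), b = fun e =>
    (τ.sem.mod r (τ.sem.A k)).eval (τ.sem.u k) (if e then Cs.bt k else Cs.bs k) := ⟨_, rfl⟩
  have hpos : 0 < Cs.dm k := Sig.Good.dm_pos k hk
  -- the boundary terms
  have hocc : ∀ (e : Bool) (k' : Cs.K), (if e then Cs.bt k else Cs.bs k).HasOp k' →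
      Relation.TransGen Cs.opLt k' k := by
    intro e k' h
    cases e
    · exact Relation.TransGen.single (Or.inl h)
    · exact Relation.TransGen.single (Or.inr h)
  have hkok : ∀ (e : Bool) (k' : Cs.K), (if e then Cs.bt k else Cs.bs k).HasOp k' →
      Cs.kok k' := by
    intro e k' h
    cases e
    · exact hasOp_ok (Sig.Good.ok_bs k hk) h
    · exact hasOp_ok (Sig.Good.ok_bt k hk) h
  have htok : ∀ e : Bool, (ofGlob Cs (Cs.ar k)).tok (if e then Cs.bt k else Cs.bs k) := by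
    intro e
    cases e
    · exact Sig.Good.ok_bs k hk
    · exact Sig.Good.ok_bt k hk
  have hu : ∀ v, AsgAt (ofGlob Cs (Cs.ar k)) (τ.sem.mod r (τ.sem.A k)) (τ.sem.u k) v :=
    fun v => τ.uW_typed k v
  -- the components of the boundary
  have hfst : ∀ e, (b e).fst.1 = (if e then Cs.bt k else Cs.bs k) := by
    intro e
    have h1 := Sem.eval_tau (σ := τ.sem) (r := r) τ.NF (fun Y x => (WC.fst x).1)
      (fun Y x _ => fst_mapAt x) (fun Y Z f x _ => τ.fst_nat f x)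
      (X := ofGlob Cs (Cs.ar k)) (Y := τ.AO k) (γ := τ.sem.u k) (htok e)
      (fun k' hk' => (hlow k' (hocc e k' hk')).1)
      (fun k' hk' => τ.hR_fst (hlow k' (hocc e k' hk')).2) hu
    rw [hb]
    refine h1.trans ?_
    exact Tm.bind_var_self _
  have htop : ∀ e, (b e).top = (PiG (τ.mc k).U).st e (PiG.map (τ.tj k) (PiR k)) := by
    intro e
    have h1 := Sem.eval_tau (σ := τ.sem) (r := r) τ.NT (fun Y x => WC.top x)
      (fun Y x _ => top_mapAt x) (fun Y Z f x _ => τ.top_nat f x)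
      (X := ofGlob Cs (Cs.ar k)) (Y := τ.AO k) (γ := τ.sem.u k) (htok e)
      (fun k' hk' => (hlow k' (hocc e k' hk')).1)
      (fun k' hk' => τ.hR_top (hkok e k' hk') (hlow k' (hocc e k' hk')).2) hu
    have hPi := PiR_good k hk
    have h2 : (PiG (Rlz (Cs.ar k))).st e (PiR k) =
        (PiSem.mod PiR (PiSem.A k)).eval (PiSem.u k) (if e then Cs.bt k else Cs.bs k) := by
      cases e
      · exact hPi.src
      · exact hPi.tgt
    have h3 := (Sem.eval_occ (σ := PiSem) (r := PiR) (X := ofGlob Cs (Cs.ar k)) (Y := PiSem.A k)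
      (γ := PiSem.u k) (htok e) (fun k' hk' => PiR_good k' (hkok e k' hk'))
      (fun v _ => PiSem.u_typed k hk v)).2 (τ.mc k).U (TopCat.ofHom (τ.tj k))
    rw [hb]
    refine h1.trans ?_
    rw [← PiG.map_st, h2]
    exact h3.symm
  have hbpar : (τ.WG (τ.AO k)).Par (b false) (b true) := by
    rw [hb]
    exact hpar
  have hbdim : (τ.WG (τ.AO k)).dim (b false) + 1 = Cs.dm k := by
    rw [hb]
    exact hdim
  have hd0 : (b false).1.2.1 + 1 = Cs.dm k := by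
    rw [WC.dim_eq]
    exact hbdim
  have hop : (FA k).M.dim (opC k hk).1 = Cs.dm k := rfl
  have hop' : 0 < (FA k).M.dim (opC k hk).1 := hpos
  -- the filler
  have hstop : ∀ e, (FA k).st e (opC k hk) hop' = (b e).fst := by
    intro e
    refine Subtype.ext ?_
    rw [hfst e]
    cases e
    · exact Tm.bind_var_self _
    · exact Tm.bind_var_self _
  have hst : ∀ e d, PiG.map (evb (τ.mc k).U d) (b e).1.2 = (PiG (τ.mc k).U).st e
      (if d then PiG.map (τ.tj k) (PiR k) else PiG.map (τ.mc k).inl (τ.T (opC k hk))) := by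
    intro e d
    cases d
    · refine (b e).2.trans ?_
      show PiG.map (τ.mc k).inl (τ.T (b e).fst) =
        (PiG (τ.mc k).U).st e (PiG.map (τ.mc k).inl (τ.T (opC k hk)))
      rw [← PiG.map_st, τ.T_st e (opC k hk) hop', hstop]
    · exact htop e
  obtain ⟨H, h1, h2, h3, h4⟩ := PiG.lift_evb2 ((τ.mc k).wct (τ.wc (FA k) (FA_ctr k)))
    (c := fun d => if d then PiG.map (τ.tj k) (PiR k) else PiG.map (τ.mc k).inl (τ.T (opC k hk)))
    (par_snd hbpar) (by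
      intro d
      cases d
      · exact hd0.symm
      · exact (PiR_good k hk).dim.trans hd0.symm) (fun d => hst false d) (fun d => hst true d)
  let h : τ.WC (τ.AO k) := ⟨(opC k hk, H), h4 false⟩
  refine ⟨h, trivial, rfl, ?_, ?_, rfl, h4 true⟩
  · have e1 : (τ.sem.mod r (τ.sem.A k)).eval (τ.sem.u k) (Cs.bs k) = b false := by
      rw [hb]
      rfl
    rw [e1]
    exact WC.st_eq (X := τ.AO k) (p := h) (q := b false) false hop'
      (congrArg Subtype.val (hstop false)) h2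
  · have e1 : (τ.sem.mod r (τ.sem.A k)).eval (τ.sem.u k) (Cs.bt k) = b true := by
      rw [hb]
      rfl
    rw [e1]
    exact WC.st_eq (X := τ.AO k) (p := h) (q := b true) true hop'
      (congrArg Subtype.val (hstop true)) h3

/-- existence of the operations -/
theorem exists_rW : ∃ r : ∀ k, (τ.sem.T (τ.sem.A k)).C,
    ∀ k, Cs.kok k → τ.sem.GoodAt r k ∧ τ.RW k (r k) :=
  τ.sem.exists_r Strat.sig_wf τ.RW fun k r hk hlow hpar hdim => τ.hfill k r hk hlow hpar hdim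

/-- the chosen operations -/
noncomputable def rW : ∀ k, (τ.sem.T (τ.sem.A k)).C := τ.exists_rW.choose

theorem rW_good (k : Cs.K) (hk : Cs.kok k) : τ.sem.GoodAt τ.rW k :=
  (τ.exists_rW.choose_spec k hk).1

theorem rW_RW (k : Cs.K) (hk : Cs.kok k) : τ.RW k (τ.rW k) :=
  (τ.exists_rW.choose_spec k hk).2

/-- **The functor `W`.** -/
noncomputable def W : τ.Tri ⥤ RMod Cs := Sem.functor (σ := τ.sem) (r := τ.rW) τ.rW_good

theorem W_glob (X : τ.Tri) : (τ.W.obj X).M.toGlob = τ.WG X := rfl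

/-- the projection to the model -/
noncomputable def sN : τ.W ⟶ τ.NF :=
  Sem.toNat (σ := τ.sem) (r := τ.rW) τ.rW_good τ.NF (fun _ x => (WC.fst x).1)
    (fun _ x _ => fst_mapAt x) (fun _ _ f x _ => τ.fst_nat f x)
    (fun k hk => τ.hR_fst (τ.rW_RW k hk))

/-- the projection to the disks of the space -/
noncomputable def tN : τ.W ⟶ τ.NT :=
  Sem.toNat (σ := τ.sem) (r := τ.rW) τ.rW_good τ.NT (fun _ x => WC.top x)
    (fun _ x _ => top_mapAt x) (fun _ _ f x _ => τ.top_nat f x)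
    (fun k hk => τ.hR_top hk (τ.rW_RW k hk))

theorem sN_app (X : τ.Tri) (x : (τ.W.obj X).Cell) :
    (RHom.f (τ.sN.app X) x).1 = (WC.fst (τ := τ) (X := X) x.1).1 := rfl

theorem tN_app (X : τ.Tri) (x : (τ.W.obj X).Cell) :
    (RHom.f (τ.tN.app X) x).1 = WC.top (τ := τ) (X := X) x.1 := rfl

/-- the triple `(G, B G, id)` -/
noncomputable def diag : RMod Cs ⥤ τ.Tri where
  obj G := { left := G, right := τ.B.obj G, hom := 𝟙 _ }
  map {G H} F := { left := F, right := τ.B.map F, w := by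
                    simp only [Functor.id_map, Category.comp_id, Category.id_comp] }
  map_id G := by
    refine CommaMorphism.ext rfl ?_
    exact τ.B.map_id G
  map_comp F F' := by
    refine CommaMorphism.ext rfl ?_
    exact τ.B.map_comp F F'

/-- **The resolution `E`.** -/
noncomputable def E : RMod Cs ⥤ RMod Cs := τ.diag ⋙ τ.W

/-- `E → id` -/
noncomputable def sE : τ.E ⟶ 𝟭 (RMod Cs) where
  app G := τ.sN.app (τ.diag.obj G)
  naturality _ _ F := τ.sN.naturality (τ.diag.map F)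

/-- `E → Π B` -/
noncomputable def tE : τ.E ⟶ τ.B ⋙ PiF where
  app G := τ.tN.app (τ.diag.obj G)
  naturality _ _ F := τ.tN.naturality (τ.diag.map F)

end TData

end HH
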