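import Pool.Agent.HH.Defs2
import Pool.Agent.HH.Acc
import Pool.Agent.HH.Ext2F

/-!
# HH part 3, SEM: models from representable arities

`T` is a functor from a category to globular sets in which the arities of the signature are
represented. A family `r` of cells `r k` of `T (A k)` with the right boundaries makes every `T Y` a
model of the signature, functorially in `Y`.
-/

set_option autoImplicit false

universe v u

namespace HH

open Classical CategoryTheory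

/-- A functor `T` to globular sets and representing objects `A k` of the arities, with universal
typed maps `u k`. -/
structure Sem (S : Sig) (𝒞 : Type u) [Category.{v} 𝒞] where
  /-- the globular sets -/
  T : 𝒞 → Glob
  laws : ∀ Y, (T Y).Laws
  /-- functoriality -/
  map : ∀ {X Y : 𝒞}, (X ⟶ Y) → (T X).C → (T Y).C
  map_mapAt : ∀ {X Y : 𝒞} (f : X ⟶ Y) (x : (T X).C), (T X).ok x → MapAt (T X) (T Y) (map f) x
  map_id : ∀ (X : 𝒞) (x : (T X).C), map (𝟙 X) x = x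
  map_comp : ∀ {X Y Z : 𝒞} (f : X ⟶ Y) (g : Y ⟶ Z) (x : (T X).C),
    map (f ≫ g) x = map g (map f x)
  /-- the representing objects of the arities -/
  A : S.K → 𝒞
  /-- the universal typed maps -/
  u : (k : S.K) → (S.ar k).C → (T (A k)).C
  u_typed : ∀ k, S.kok k → ∀ p, MapAt (S.ar k) (T (A k)) (u k) p
  desc : ∀ k, S.kok k → ∀ (Y : 𝒞) (γ : (S.ar k).C → (T Y).C),
    (∀ p, MapAt (S.ar k) (T Y) γ p) → ∃ f : A k ⟶ Y, ∀ p, map f (u k p) = γ p
  uniq : ∀ k, S.kok k → ∀ (Y : 𝒞) (f g : A k ⟶ Y), (∀ p, map f (u k p) = map g (u k p)) → f = g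

namespace Sem

variable {S : Sig} {𝒞 : Type u} [Category.{v} 𝒞] (σ : Sem S 𝒞)

instance (Y : 𝒞) : (σ.T Y).Laws := σ.laws Y

/-- The raw model structure defined by a family `r`. -/
noncomputable def mod [S.Good] (r : ∀ k, (σ.T (σ.A k)).C) (Y : 𝒞) : Model S where
  toGlob := σ.T Y
  o := fun k γ => if h : ∃ f : σ.A k ⟶ Y, ∀ p, σ.map f (σ.u k p) = γ p then
    σ.map h.choose (r k) else γ (Classical.choice (Sig.Good.ar_ne k))

variable [S.Good]

instance (r : ∀ k, (σ.T (σ.A k)).C) (Y : 𝒞) : (σ.mod r Y).toGlob.Laws := σ.laws Y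

theorem mod_o {r : ∀ k, (σ.T (σ.A k)).C} {Y : 𝒞} {k : S.K} (hk : S.kok k)
    {γ : (S.ar k).C → (σ.T Y).C} (f : σ.A k ⟶ Y) (hf : ∀ p, σ.map f (σ.u k p) = γ p) :
    (σ.mod r Y).o k γ = σ.map f (r k) := by
  have h : ∃ f : σ.A k ⟶ Y, ∀ p, σ.map f (σ.u k p) = γ p := ⟨f, hf⟩
  have e1 : (σ.mod r Y).o k γ = σ.map h.choose (r k) := dif_pos h
  have e2 : h.choose = f := σ.uniq k hk Y _ _ fun p => (h.choose_spec p).trans (hf p).symm
  rw [e1, e2]

/-- the boundary terms are evaluated naturally -/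
def NatAt (r : ∀ k, (σ.T (σ.A k)).C) (k : S.K) : Prop :=
  ∀ (Y : 𝒞) (f : σ.A k ⟶ Y),
    σ.map f ((σ.mod r (σ.A k)).eval (σ.u k) (S.bs k)) =
      (σ.mod r Y).eval (fun p => σ.map f (σ.u k p)) (S.bs k) ∧
    σ.map f ((σ.mod r (σ.A k)).eval (σ.u k) (S.bt k)) =
      (σ.mod r Y).eval (fun p => σ.map f (σ.u k p)) (S.bt k)

/-- the condition on `r k` -/
structure GoodAt (r : ∀ k, (σ.T (σ.A k)).C) (k : S.K) : Prop where
  ok : (σ.T (σ.A k)).ok (r k)
  dim : (σ.T (σ.A k)).dim (r k) = S.dm k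
  src : (σ.T (σ.A k)).src (r k) = (σ.mod r (σ.A k)).eval (σ.u k) (S.bs k)
  tgt : (σ.T (σ.A k)).tgt (r k) = (σ.mod r (σ.A k)).eval (σ.u k) (S.bt k)
  nat : σ.NatAt r k

variable {σ}

/-- values of the operation `k` at typed arguments -/
theorem GoodAt.spec {r : ∀ k, (σ.T (σ.A k)).C} {k : S.K} (h : σ.GoodAt r k) (hk : S.kok k)
    {Y : 𝒞} {γ : (S.ar k).C → (σ.T Y).C} (hγ : ∀ p, MapAt (S.ar k) (σ.T Y) γ p) :
    (σ.T Y).ok ((σ.mod r Y).o k γ) ∧ (σ.T Y).dim ((σ.mod r Y).o k γ) = S.dm k ∧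
      (σ.T Y).src ((σ.mod r Y).o k γ) = (σ.mod r Y).eval γ (S.bs k) ∧
      (σ.T Y).tgt ((σ.mod r Y).o k γ) = (σ.mod r Y).eval γ (S.bt k) ∧
      ∀ (Z : 𝒞) (f : Y ⟶ Z), σ.map f ((σ.mod r Y).o k γ) =
        (σ.mod r Z).o k (fun p => σ.map f (γ p)) := by
  obtain ⟨g, hg⟩ := σ.desc k hk Y γ hγ
  have hγ' : (fun p => σ.map g (σ.u k p)) = γ := funext hg
  rw [mod_o σ hk g hg]
  obtain ⟨m1, m2, m3⟩ := σ.map_mapAt g (r k) h.ok
  obtain ⟨m4, m5⟩ := m3 (by rw [h.dim]; exact Sig.Good.dm_pos k hk)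
  obtain ⟨n1, n2⟩ := h.nat Y g
  refine ⟨m1, m2.trans h.dim, ?_, ?_, fun Z f => ?_⟩
  · rw [m4, h.src, n1, hγ']
  · rw [m5, h.tgt, n2, hγ']
  · rw [mod_o σ hk (g ≫ f) fun p => by rw [σ.map_comp, hg p], σ.map_comp]

/-- evaluation of terms whose operations are good -/
theorem eval_occ {r : ∀ k, (σ.T (σ.A k)).C} {X : Cptd S} {Y : 𝒞} {γ : X.V → (σ.T Y).C}
    {t : S.T X.V} (ht : X.tok t) (hr : ∀ k, t.HasOp k → σ.GoodAt r k)
    (hγ : ∀ v, t.HasVar v → AsgAt X (σ.mod r Y) γ v) :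
    MapAt X.m.toGlob (σ.T Y) ((σ.mod r Y).eval γ) t ∧
      ∀ (Z : 𝒞) (f : Y ⟶ Z), σ.map f ((σ.mod r Y).eval γ t) =
        (σ.mod r Z).eval (fun v => σ.map f (γ v)) t := by
  induction t with
  | var v => exact ⟨hγ v rfl, fun Z f => rfl⟩
  | op k δ ih =>
    obtain ⟨hk, hδ⟩ := ht
    have ih' := fun p => ih p (hδ p).1 (fun k' hk' => hr k' (Or.inr ⟨p, hk'⟩))
      (fun v hv => hγ v ⟨p, hv⟩)
    have key : ∀ p, MapAt (S.ar k) (σ.T Y) (fun p => (σ.mod r Y).eval γ (δ p)) p := by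
      intro p
      obtain ⟨h1, h2, h3⟩ := hδ p
      obtain ⟨i1, i2, i3⟩ := (ih' p).1
      refine ⟨i1, i2.trans h2, fun hp => ?_⟩
      obtain ⟨j1, j2⟩ := h3 hp
      have hp' : 0 < X.tdim (δ p) := by rw [h2]; exact hp
      obtain ⟨k1, k2⟩ := i3 hp'
      exact ⟨k1.trans (congrArg ((σ.mod r Y).eval γ) j1),
        k2.trans (congrArg ((σ.mod r Y).eval γ) j2)⟩
    obtain ⟨s1, s2, s3, s4, s5⟩ := (hr k (Or.inl rfl)).spec hk key
    refine ⟨⟨s1, s2, fun _ => ⟨?_, ?_⟩⟩, fun Z f => ?_⟩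
    · exact s3.trans (eval_bind (σ.mod r Y) γ δ (S.bs k)).symm
    · exact s4.trans (eval_bind (σ.mod r Y) γ δ (S.bt k)).symm
    · refine (s5 Z f).trans ?_
      show (σ.mod r Z).o k _ = (σ.mod r Z).o k _
      congr 1
      funext p
      exact (ih' p).2 Z f

/-- evaluation only depends on the operations which occur -/
theorem eval_congr_op {r r' : ∀ k, (σ.T (σ.A k)).C} {Y : 𝒞} {V : Type} {γ : V → (σ.T Y).C}
    (t : S.T V) (h : ∀ k, t.HasOp k → r k = r' k) :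
    (σ.mod r Y).eval γ t = (σ.mod r' Y).eval γ t := by
  induction t with
  | var v => rfl
  | op k δ ih =>
    have e1 : (fun p => (σ.mod r Y).eval γ (δ p)) = (fun p => (σ.mod r' Y).eval γ (δ p)) := by
      funext p
      exact ih p fun k' hk' => h k' (Or.inr ⟨p, hk'⟩)
    show (σ.mod r Y).o k (fun p => (σ.mod r Y).eval γ (δ p)) =
      (σ.mod r' Y).o k (fun p => (σ.mod r' Y).eval γ (δ p))
    rw [e1]
    have e2 : r k = r' k := h k (Or.inl rfl)
    show (if h : ∃ f : σ.A k ⟶ Y, ∀ p, σ.map f (σ.u k p) = (σ.mod r' Y).eval γ (δ p) then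
      σ.map h.choose (r k) else _) = (if h : ∃ f : σ.A k ⟶ Y, ∀ p, σ.map f (σ.u k p) =
        (σ.mod r' Y).eval γ (δ p) then σ.map h.choose (r' k) else _)
    rw [e2]

/-- the boundary values are parallel, and evaluated naturally, when the lower operations are
good -/
theorem par_of_lower {r : ∀ k, (σ.T (σ.A k)).C} {k : S.K} (hk : S.kok k)
    (h : ∀ k', S.opLt k' k → σ.GoodAt r k') :
    (σ.T (σ.A k)).Par ((σ.mod r (σ.A k)).eval (σ.u k) (S.bs k))
      ((σ.mod r (σ.A k)).eval (σ.u k) (S.bt k)) ∧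
    (σ.T (σ.A k)).dim ((σ.mod r (σ.A k)).eval (σ.u k) (S.bs k)) + 1 = S.dm k ∧
    σ.NatAt r k := by
  have hl := Sig.Good.ar_laws k hk
  have hu : ∀ v, AsgAt (ofGlob S (S.ar k)) (σ.mod r (σ.A k)) (σ.u k) v := fun v =>
    σ.u_typed k hk v
  obtain ⟨⟨a1, a2, a3⟩, a4⟩ := eval_occ (X := ofGlob S (S.ar k)) (γ := σ.u k)
    (Sig.Good.ok_bs k hk) (fun k' hk' => h k' (Or.inl hk')) (fun v _ => hu v)
  obtain ⟨⟨b1, b2, b3⟩, b4⟩ := eval_occ (X := ofGlob S (S.ar k)) (γ := σ.u k)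
    (Sig.Good.ok_bt k hk) (fun k' hk' => h k' (Or.inr hk')) (fun v _ => hu v)
  have d1 : (ofGlob S (S.ar k)).tdim (S.bs k) + 1 = S.dm k := Sig.Good.dim_bs k hk
  have d2 : (ofGlob S (S.ar k)).tdim (S.bt k) + 1 = S.dm k := Sig.Good.dim_bt k hk
  have a2' : (σ.T (σ.A k)).dim ((σ.mod r (σ.A k)).eval (σ.u k) (S.bs k)) + 1 = S.dm k :=
    (congrArg (· + 1) a2).trans d1
  have b2' : (σ.T (σ.A k)).dim ((σ.mod r (σ.A k)).eval (σ.u k) (S.bt k)) + 1 = S.dm k :=
    (congrArg (· + 1) b2).trans d2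
  refine ⟨⟨a1, b1, by omega, fun h0 => ?_⟩, a2', fun Y f => ⟨a4 Y f, b4 Y f⟩⟩
  have h1 : 1 < S.dm k := by omega
  have h0s : 0 < (ofGlob S (S.ar k)).tdim (S.bs k) := by omega
  have h0t : 0 < (ofGlob S (S.ar k)).tdim (S.bt k) := by omega
  obtain ⟨a5, a6⟩ := a3 h0s
  obtain ⟨b5, b6⟩ := b3 h0t
  refine ⟨a5.trans (Eq.trans ?_ b5.symm), a6.trans (Eq.trans ?_ b6.symm)⟩
  · exact congrArg _ (Sig.Good.src_bt k hk h1).symm
  · exact congrArg _ (Sig.Good.tgt_bs k hk h1)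

theorem GoodAt.congr {r r' : ∀ k, (σ.T (σ.A k)).C} {k : S.K} (h : σ.GoodAt r k)
    (h1 : ∀ k', S.opLt k' k → r k' = r' k') (h2 : r k = r' k) : σ.GoodAt r' k := by
  have e1 : ∀ (Y : 𝒞) (γ : (S.ar k).C → (σ.T Y).C), (σ.mod r Y).eval γ (S.bs k) =
      (σ.mod r' Y).eval γ (S.bs k) := fun Y γ =>
    eval_congr_op _ fun k' hk' => h1 k' (Or.inl hk')
  have e2 : ∀ (Y : 𝒞) (γ : (S.ar k).C → (σ.T Y).C), (σ.mod r Y).eval γ (S.bt k) =
      (σ.mod r' Y).eval γ (S.bt k) := fun Y γ =>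
    eval_congr_op _ fun k' hk' => h1 k' (Or.inr hk')
  refine ⟨?_, ?_, ?_, ?_, fun Y f => ?_⟩
  · rw [← h2]; exact h.ok
  · rw [← h2]; exact h.dim
  · rw [← h2, ← e1]; exact h.src
  · rw [← h2, ← e2]; exact h.tgt
  · rw [← e1, ← e1, ← e2, ← e2]
    exact h.nat Y f

/-- **Existence of good families**, from fillers which may satisfy an extra condition `R k`. -/
theorem exists_r (σ : Sem S 𝒞) (hS : S.WF) (R : ∀ k, (σ.T (σ.A k)).C → Prop)
    (hfill : ∀ (k : S.K) (r : ∀ k, (σ.T (σ.A k)).C), S.kok k →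
      (∀ k', Relation.TransGen S.opLt k' k → σ.GoodAt r k' ∧ R k' (r k')) →
      (σ.T (σ.A k)).Par ((σ.mod r (σ.A k)).eval (σ.u k) (S.bs k))
        ((σ.mod r (σ.A k)).eval (σ.u k) (S.bt k)) →
      (σ.T (σ.A k)).dim ((σ.mod r (σ.A k)).eval (σ.u k) (S.bs k)) + 1 = S.dm k →
      ∃ h, (σ.T (σ.A k)).ok h ∧ (σ.T (σ.A k)).dim h = S.dm k ∧
        (σ.T (σ.A k)).src h = (σ.mod r (σ.A k)).eval (σ.u k) (S.bs k) ∧
        (σ.T (σ.A k)).tgt h = (σ.mod r (σ.A k)).eval (σ.u k) (S.bt k) ∧ R k h) :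
    ∃ r : ∀ k, (σ.T (σ.A k)).C, ∀ k, S.kok k → σ.GoodAt r k ∧ R k (r k) := by
  have : ∀ k : S.K, Nonempty (σ.T (σ.A k)).C := by
    intro k
    obtain ⟨p⟩ := Sig.Good.ar_ne (S := S) k
    exact ⟨σ.u k p⟩
  refine exists_of_acc (I := S.K) S.opLt (T := fun k => (σ.T (σ.A k)).C) S.kok hS
    (by
      intro k k' hk h
      rcases h with h | h
      · exact hasOp_ok (Sig.Good.ok_bs k hk) h
      · exact hasOp_ok (Sig.Good.ok_bt k hk) h)
    (fun k r => σ.GoodAt r k ∧ R k (r k))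
    (by
      intro k r r' hk h1 h2 h3
      refine ⟨h3.1.congr (fun k' hk' => h1 k' (Relation.TransGen.single hk')) h2, ?_⟩
      rw [← h2]
      exact h3.2)
    (by
      intro k r hk hlow
      obtain ⟨p1, p2, p3⟩ := par_of_lower hk fun k' hk' =>
        (hlow k' (Relation.TransGen.single hk')).1
      obtain ⟨f, f1, f2, f3, f4, f5⟩ := hfill k r hk hlow p1 p2
      have hirr : ∀ {i : S.K}, Acc S.opLt i → ¬ Relation.TransGen S.opLt i i := by
        intro i h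
        have h2 : Acc (Relation.TransGen S.opLt) i := h.transGen
        induction h2 with
        | intro a _ ih => exact fun haa => ih a haa h haa
      have hne : ∀ k', Relation.TransGen S.opLt k' k → k' ≠ k := by
        rintro k' h rfl
        exact hirr (hS k' hk) h
      have hup : ∀ k', Relation.TransGen S.opLt k' k → Function.update r k f k' = r k' :=
        fun k' hk' => Function.update_of_ne (hne k' hk') _ _
      have hself : Function.update r k f k = f := Function.update_self _ _ _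
      have e1 : ∀ (Y : 𝒞) (γ : (S.ar k).C → (σ.T Y).C),
          (σ.mod (Function.update r k f) Y).eval γ (S.bs k) =
            (σ.mod r Y).eval γ (S.bs k) := fun Y γ =>
        eval_congr_op _ fun k' hk' => hup k' (Relation.TransGen.single (Or.inl hk'))
      have e2 : ∀ (Y : 𝒞) (γ : (S.ar k).C → (σ.T Y).C),
          (σ.mod (Function.update r k f) Y).eval γ (S.bt k) =
            (σ.mod r Y).eval γ (S.bt k) := fun Y γ =>
        eval_congr_op _ fun k' hk' => hup k' (Relation.TransGen.single (Or.inr hk'))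
      refine ⟨Function.update r k f, hup, ⟨?_, ?_, ?_, ?_, fun Y g => ?_⟩, ?_⟩
      · rw [hself]; exact f1
      · rw [hself]; exact f2
      · rw [hself, e1]; exact f3
      · rw [hself, e2]; exact f4
      · rw [e1, e1, e2, e2]
        exact p3 Y g
      · rw [hself]; exact f5)

/-- absolute case: all represented arities are contractible -/
theorem exists_r_of_contr (σ : Sem S 𝒞) (hS : S.WF)
    (h : ∀ k, S.kok k → ∀ L, (σ.T (σ.A k)).MContr L) :
    ∃ r : ∀ k, (σ.T (σ.A k)).C, ∀ k, S.kok k → σ.GoodAt r k := by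
  obtain ⟨r, hr⟩ := σ.exists_r hS (fun _ _ => True) (by
    intro k r hk _ hp hd
    obtain ⟨f, f1, f2, f3, f4⟩ := h k hk (S.dm k) _ _ hp (by omega)
    exact ⟨f, f1, f2.trans hd, f3, f4, trivial⟩)
  exact ⟨r, fun k hk => (hr k hk).1⟩

/-- the models are models -/
theorem opLaws {r : ∀ k, (σ.T (σ.A k)).C} (hr : ∀ k, S.kok k → σ.GoodAt r k) (Y : 𝒞) :
    (σ.mod r Y).OpLaws where
  o_ok := fun k γ hk hγ => ((hr k hk).spec hk hγ).1
  o_dim := fun k γ hk hγ => ((hr k hk).spec hk hγ).2.1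
  o_src := fun k γ hk hγ => ((hr k hk).spec hk hγ).2.2.1
  o_tgt := fun k γ hk hγ => ((hr k hk).spec hk hγ).2.2.2.1

/-- **The functor to models.** -/
noncomputable def functor {r : ∀ k, (σ.T (σ.A k)).C} (hr : ∀ k, S.kok k → σ.GoodAt r k) :
    𝒞 ⥤ RMod S where
  obj Y := ⟨σ.mod r Y, σ.laws Y, opLaws hr Y⟩
  map {X Y} f := RHom.ofFun (M := ⟨σ.mod r X, σ.laws X, opLaws hr X⟩)
    (N := ⟨σ.mod r Y, σ.laws Y, opLaws hr Y⟩) (σ.map f) (σ.map_mapAt f)
    (fun k hk γ hγ => ((hr k hk).spec hk hγ).2.2.2.2 Y f)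
  map_id X := by
    refine RHom.ext ?_
    funext x
    exact Subtype.ext (σ.map_id X x.1)
  map_comp f g := by
    refine RHom.ext ?_
    funext x
    exact Subtype.ext (σ.map_comp f g x.1)

/-- A natural transformation from the functor of a good family to another functor to models: it
is enough to give natural maps of globular sets which respect the operations at the universal
arguments. -/
noncomputable def toNat {r : ∀ k, (σ.T (σ.A k)).C} (hr : ∀ k, S.kok k → σ.GoodAt r k)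
    (N : 𝒞 ⥤ RMod S) (τ : ∀ Y : 𝒞, (σ.T Y).C → (N.obj Y).M.C)
    (hτ : ∀ Y x, (σ.T Y).ok x → MapAt (σ.T Y) (N.obj Y).M.toGlob (τ Y) x)
    (nat : ∀ (Y Z : 𝒞) (f : Y ⟶ Z) (x : (σ.T Y).C) (hx : (σ.T Y).ok x),
      τ Z (σ.map f x) = (RHom.f (N.map f) ⟨τ Y x, (hτ Y x hx).1⟩).1)
    (hR : ∀ k, S.kok k → τ (σ.A k) (r k) = (N.obj (σ.A k)).M.o k (fun p => τ (σ.A k) (σ.u k p))) :
    functor hr ⟶ N where
  app Y := RHom.ofFun (M := ⟨σ.mod r Y, σ.laws Y, opLaws hr Y⟩) (N := N.obj Y) (τ Y) (hτ Y)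
    (by
      intro k hk γ hγ
      obtain ⟨g, hg⟩ := σ.desc k hk Y γ hγ
      have hu : ∀ p, (σ.T (σ.A k)).ok (σ.u k p) := fun p => (σ.u_typed k hk p).1
      have hτu : ∀ p, MapAt (S.ar k) (N.obj (σ.A k)).M.toGlob
          (fun p => τ (σ.A k) (σ.u k p)) p := by
        intro p
        obtain ⟨f1, f2, f3⟩ := σ.u_typed k hk p
        obtain ⟨g1, g2, g3⟩ := hτ (σ.A k) (σ.u k p) f1
        refine ⟨g1, g2.trans f2, fun h0 => ?_⟩
        obtain ⟨a1, a2⟩ := f3 h0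
        obtain ⟨b1, b2⟩ := g3 (by rw [f2]; exact h0)
        exact ⟨b1.trans (congrArg _ a1), b2.trans (congrArg _ a2)⟩
      show τ Y ((σ.mod r Y).o k γ) = _
      rw [mod_o σ hk g hg, nat _ _ g (r k) (hr k hk).ok]
      have e1 : (⟨τ (σ.A k) (r k), (hτ (σ.A k) (r k) (hr k hk).ok).1⟩ :
          (N.obj (σ.A k)).Cell) =
          ⟨(N.obj (σ.A k)).M.o k (fun p => τ (σ.A k) (σ.u k p)),
            Model.OpLaws.o_ok k _ hk hτu⟩ := Subtype.ext (hR k hk)
      rw [e1]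
      refine (RHom.op (N.map g) k hk (fun p => ⟨τ (σ.A k) (σ.u k p), (hτu p).1⟩) hτu).trans ?_
      congr 1
      funext p
      rw [← nat _ _ g (σ.u k p) (hu p), hg p])
  naturality X Y f := by
    refine RHom.ext ?_
    funext x
    exact Subtype.ext (nat X Y f x.1 x.2)

end Sem

end HH
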