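import Pool.Agent.HH.CmpT
import Pool.Agent.HH.CmpCyl
import Pool.Agent.HH.Sem

/-!
# HH part 3, CMP-5: the globular set of pairs (cell, path of disks)

For `X = (G, Y, β : B G → Y)` a cell of `τ.WG X` is a cell `x` of `G` with a disk of the path space
of `Y` which starts at `β (T x)`.
-/

set_option autoImplicit false

namespace HH

open Classical CategoryTheory

section

variable {Y Z : Type} [TopologicalSpace Y] [TopologicalSpace Z]

theorem PiG.map_st (f : C(Y, Z)) (b : Bool) (c : (PiG Y).C) :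
    PiG.map f ((PiG Y).st b c) = (PiG Z).st b (PiG.map f c) := by
  obtain ⟨j, g⟩ := c
  cases j <;> cases b <;> rfl

theorem PiG.map_dim (f : C(Y, Z)) (c : (PiG Y).C) : (PiG.map f c).1 = c.1 := rfl

theorem PiG.dim_st {b : Bool} {c : (PiG Y).C} (h : 0 < c.1) : ((PiG Y).st b c).1 + 1 = c.1 := by
  obtain ⟨j, g⟩ := c
  cases j
  · exact absurd h (lt_irrefl _)
  · cases b <;> rfl

theorem PiG.st_st {b d d' : Bool} {c : (PiG Y).C} (h : 1 < c.1) :
    (PiG Y).st b ((PiG Y).st d c) = (PiG Y).st b ((PiG Y).st d' c) := by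
  have k1 := Glob.Laws.src_tgt (G := PiG Y) c trivial h
  have k2 := Glob.Laws.tgt_src (G := PiG Y) c trivial h
  cases b <;> cases d <;> cases d'
  · rfl
  · exact k1.symm
  · exact k1
  · rfl
  · rfl
  · exact k2
  · exact k2.symm
  · rfl

end

variable {S : Sig} [S.Good]

namespace TData

variable (τ : TData S)

/-- triples `(G, Y, B G → Y)` -/
abbrev Tri : Type _ := Comma τ.B (𝟭 TopCat.{0})

/-- the disk of a cell in `Y` -/
noncomputable def Tb (X : τ.Tri) (x : X.left.Cell) : (PiG X.right).C :=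
  PiG.map X.hom.hom (τ.T x)

theorem Tb_dim (X : τ.Tri) (x : X.left.Cell) : (τ.Tb X x).1 = X.left.M.dim x.1 := rfl

theorem Tb_st (X : τ.Tri) (b : Bool) (x : X.left.Cell) (h : 0 < X.left.M.dim x.1) :
    (PiG X.right).st b (τ.Tb X x) = τ.Tb X (X.left.st b x h) := by
  show (PiG X.right).st b (PiG.map X.hom.hom (τ.T x)) = PiG.map X.hom.hom _
  rw [← τ.T_st b x h, PiG.map_st]
  rfl

theorem Tb_nat {X X' : τ.Tri} (f : X ⟶ X') (x : X.left.Cell) :
    PiG.map f.right.hom (τ.Tb X x) = τ.Tb X' (RHom.f f.left x) := by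
  show PiG.map f.right.hom (PiG.map X.hom.hom (τ.T x)) = PiG.map X'.hom.hom _
  rw [← τ.T_nat f.left x]
  have e : (τ.B.map f.left) ≫ X'.hom = X.hom ≫ f.right := f.w
  have e' := congrArg TopCat.Hom.hom e
  exact (congrArg (fun g => PiG.map g (τ.T x)) e').symm

/-- The cells of `W`. -/
def WC (X : τ.Tri) : Type :=
  {p : X.left.Cell × (PiG (PS X.right)).C // PiG.map (evb X.right false) p.2 = τ.Tb X p.1}

variable {τ} {X X' : τ.Tri}

theorem WC.dim_eq (p : τ.WC X) : p.1.2.1 = X.left.M.dim p.1.1.1 :=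
  congrArg Sigma.fst p.2

theorem WC.ext {p q : τ.WC X} (h : p.1.1.1 = q.1.1.1) (h' : p.1.2 = q.1.2) : p = q :=
  Subtype.ext (Prod.ext (Subtype.ext h) h')

/-- source and target -/
noncomputable def WC.st (b : Bool) (p : τ.WC X) : τ.WC X :=
  if h : 0 < X.left.M.dim p.1.1.1 then
    ⟨(X.left.st b p.1.1 h, (PiG (PS X.right)).st b p.1.2), by
      rw [PiG.map_st, p.2, τ.Tb_st]⟩
  else p

variable (τ X)

/-- The globular set `W`. -/
noncomputable def WG : Glob where
  C := τ.WC X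
  dim p := X.left.M.dim p.1.1.1
  src p := WC.st false p
  tgt p := WC.st true p
  ok _ := True

variable {τ X}

theorem WG_st (b : Bool) (p : (τ.WG X).C) : (τ.WG X).st b p = WC.st b p := by
  cases b <;> rfl

theorem WC.st_pos (b : Bool) (p : τ.WC X) (h : 0 < X.left.M.dim p.1.1.1) :
    (WC.st b p).1.1 = X.left.st b p.1.1 h ∧
      (WC.st b p).1.2 = (PiG (PS X.right)).st b p.1.2 := by
  unfold WC.st
  rw [dif_pos h]
  exact ⟨rfl, rfl⟩

theorem WC.dim_st (b : Bool) (p : τ.WC X) (h : 0 < X.left.M.dim p.1.1.1) :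
    X.left.M.dim (WC.st b p).1.1.1 + 1 = X.left.M.dim p.1.1.1 := by
  rw [(WC.st_pos b p h).1]
  exact RMod.dim_st b p.1.1 h

theorem WC.st_st (b c c' : Bool) (p : τ.WC X) (h : 1 < X.left.M.dim p.1.1.1) :
    WC.st b (WC.st c p) = WC.st b (WC.st c' p) := by
  have h0 : 0 < X.left.M.dim p.1.1.1 := by omega
  have h1 : ∀ d, 0 < X.left.M.dim (WC.st d p).1.1.1 := by
    intro d
    have := WC.dim_st d p h0
    omega
  obtain ⟨a1, a2⟩ := WC.st_pos b (WC.st c p) (h1 c)
  obtain ⟨b1, b2⟩ := WC.st_pos b (WC.st c' p) (h1 c')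
  obtain ⟨c1, c2⟩ := WC.st_pos c p h0
  obtain ⟨d1, d2⟩ := WC.st_pos c' p h0
  refine WC.ext ?_ ?_
  · rw [a1, b1]
    show X.left.M.toGlob.st b (WC.st c p).1.1.1 = X.left.M.toGlob.st b (WC.st c' p).1.1.1
    rw [c1, d1]
    exact congrArg Subtype.val (RMod.st_st b c c' p.1.1 h h0
      (by
        have := RMod.dim_st c p.1.1 h0
        omega)
      (by
        have := RMod.dim_st c' p.1.1 h0
        omega))
  · rw [a2, b2, c2, d2]
    exact PiG.st_st (by rw [WC.dim_eq]; exact h)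

instance WG_laws : (τ.WG X).Laws where
  ok_src _ _ _ := trivial
  ok_tgt _ _ _ := trivial
  dim_src p _ h := WC.dim_st false p h
  dim_tgt p _ h := WC.dim_st true p h
  src_tgt p _ h := WC.st_st false true false p h
  tgt_src p _ h := WC.st_st true false true p h

/-- functoriality -/
noncomputable def WC.map (f : X ⟶ X') (p : τ.WC X) : τ.WC X' :=
  ⟨(RHom.f f.left p.1.1, PiG.map (PS.map f.right.hom) p.1.2), by
    show PiG.map (evb X'.right false) (PiG.map (PS.map f.right.hom) p.1.2) = _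
    have e : PiG.map (evb X'.right false) (PiG.map (PS.map f.right.hom) p.1.2) =
        PiG.map f.right.hom (PiG.map (evb X.right false) p.1.2) := rfl
    rw [e, p.2, τ.Tb_nat]⟩

theorem WC.map_st (f : X ⟶ X') (b : Bool) (p : τ.WC X) (h : 0 < X.left.M.dim p.1.1.1) :
    WC.map f (WC.st b p) = WC.st b (WC.map f p) := by
  have h' : 0 < X'.left.M.dim (WC.map f p).1.1.1 := by
    show 0 < X'.left.M.dim (RHom.f f.left p.1.1).1
    rw [RHom.dim_f]
    exact h
  obtain ⟨a1, a2⟩ := WC.st_pos b p h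
  obtain ⟨b1, b2⟩ := WC.st_pos b (WC.map f p) h'
  refine WC.ext ?_ ?_
  · rw [b1]
    show (RHom.f f.left (WC.st b p).1.1).1 = _
    rw [a1]
    exact congrArg Subtype.val (RHom.st_f f.left b p.1.1 h h').symm
  · rw [b2]
    show PiG.map _ (WC.st b p).1.2 = _
    rw [a2]
    exact PiG.map_st _ _ _

theorem WC.map_mapAt (f : X ⟶ X') (p : (τ.WG X).C) :
    MapAt (τ.WG X) (τ.WG X') (WC.map f) p := by
  refine ⟨trivial, RHom.dim_f f.left p.1.1, fun h => ⟨?_, ?_⟩⟩
  · exact (WC.map_st f false p h).symm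
  · exact (WC.map_st f true p h).symm

theorem WC.map_id (p : τ.WC X) : WC.map (𝟙 X) p = p := WC.ext rfl rfl

theorem WC.map_comp {X'' : τ.Tri} (f : X ⟶ X') (g : X' ⟶ X'') (p : τ.WC X) :
    WC.map (f ≫ g) p = WC.map g (WC.map f p) := WC.ext rfl rfl

/-! ### Typed maps to `W` -/

/-- the cell of the model -/
def WC.fst (p : τ.WC X) : X.left.Cell := p.1.1

/-- the disk at the end of the path -/
noncomputable def WC.top (p : τ.WC X) : (PiG X.right).C := PiG.map (evb X.right true) p.1.2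

theorem fst_mapAt (p : (τ.WG X).C) :
    MapAt (τ.WG X) X.left.M.toGlob (fun p : τ.WC X => p.fst.1) p := by
  refine ⟨p.fst.2, rfl, fun h => ⟨?_, ?_⟩⟩
  · exact (congrArg Subtype.val (WC.st_pos false p h).1).symm
  · exact (congrArg Subtype.val (WC.st_pos true p h).1).symm

theorem top_mapAt (p : (τ.WG X).C) :
    MapAt (τ.WG X) (PiG X.right) (fun p : τ.WC X => p.top) p := by
  refine ⟨trivial, WC.dim_eq p, fun h => ⟨?_, ?_⟩⟩
  · show (PiG X.right).st false (PiG.map _ p.1.2) = PiG.map _ (WC.st false p).1.2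
    rw [(WC.st_pos false p h).2, PiG.map_st]
  · show (PiG X.right).st true (PiG.map _ p.1.2) = PiG.map _ (WC.st true p).1.2
    rw [(WC.st_pos true p h).2, PiG.map_st]

theorem snd_mapAt (p : (τ.WG X).C) :
    MapAt (τ.WG X) (PiG (PS X.right)) (fun p : τ.WC X => p.1.2) p := by
  refine ⟨trivial, WC.dim_eq p, fun h => ⟨?_, ?_⟩⟩
  · exact (WC.st_pos false p h).2.symm
  · exact (WC.st_pos true p h).2.symm

/-- cells of `W` with given components -/
theorem WC.exists_mk (x : X.left.Cell) (c : (PiG (PS X.right)).C)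
    (h : PiG.map (evb X.right false) c = τ.Tb X x) : ∃ p : τ.WC X, p.fst = x ∧ p.1.2 = c :=
  ⟨⟨(x, c), h⟩, rfl, rfl⟩

/-- sources and targets of cells of `W` are determined by the components -/
theorem WC.st_eq (b : Bool) {p q : τ.WC X} (h : 0 < X.left.M.dim p.1.1.1)
    (h1 : (X.left.st b p.1.1 h).1 = q.1.1.1) (h2 : (PiG (PS X.right)).st b p.1.2 = q.1.2) :
    WC.st b p = q := by
  obtain ⟨a1, a2⟩ := WC.st_pos b p h
  exact WC.ext ((congrArg Subtype.val a1).trans h1) (a2.trans h2)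

/-- parallel cells of `W` have parallel components -/
theorem par_snd {p q : (τ.WG X).C} (h : (τ.WG X).Par p q) :
    (PiG (PS X.right)).Par p.1.2 q.1.2 := by
  obtain ⟨-, -, h1, h2⟩ := h
  refine ⟨trivial, trivial, ?_, fun h0 => ?_⟩
  · show p.1.2.1 = q.1.2.1
    rw [WC.dim_eq, WC.dim_eq]
    exact h1
  · have h0' : 0 < (τ.WG X).dim p := by
      have := WC.dim_eq p
      have h3 : 0 < p.1.2.1 := h0
      show 0 < X.left.M.dim p.1.1.1
      omega
    have h0'' : 0 < (τ.WG X).dim q := h1 ▸ h0'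
    obtain ⟨h4, h5⟩ := h2 h0'
    obtain ⟨-, -, a3⟩ := snd_mapAt p
    obtain ⟨-, -, b3⟩ := snd_mapAt q
    obtain ⟨a4, a5⟩ := a3 h0'
    obtain ⟨b4, b5⟩ := b3 h0''
    exact ⟨a4.trans ((congrArg (fun p : τ.WC X => p.1.2) h4).trans b4.symm),
      a5.trans ((congrArg (fun p : τ.WC X => p.1.2) h5).trans b5.symm)⟩

theorem par_fst {p q : (τ.WG X).C} (h : (τ.WG X).Par p q) :
    X.left.M.toGlob.Par p.1.1.1 q.1.1.1 := by
  obtain ⟨-, -, h1, h2⟩ := h
  refine ⟨p.1.1.2, q.1.1.2, h1, fun h0 => ?_⟩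
  have h0' : 0 < (τ.WG X).dim q := h1 ▸ h0
  obtain ⟨h4, h5⟩ := h2 h0
  obtain ⟨-, -, a3⟩ := fst_mapAt p
  obtain ⟨-, -, b3⟩ := fst_mapAt q
  obtain ⟨a4, a5⟩ := a3 h0
  obtain ⟨b4, b5⟩ := b3 h0'
  exact ⟨a4.trans ((congrArg (fun p : τ.WC X => p.1.1.1) h4).trans b4.symm),
    a5.trans ((congrArg (fun p : τ.WC X => p.1.1.1) h5).trans b5.symm)⟩

end TData

end HH
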