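import Pool.Agent.HH.Inv

/-!
# HH OFF-COLIM: the universal property of the colimit of a tower (module to prove)

`IsColim` describes `C` as a directed colimit of the categories `A n` up to equivalence. We need
the universal property for families of functors which are compatible up to isomorphism.

`exists_desc`: let `H n : A n ⥤ E` and `ψ n : T n ⋙ H (n + 1) ≅ H n`. As in `iterIso` define
`ψit n m : iter n m ⋙ H (n + m) ≅ H n` by recursion.
Objects: for `X : C` choose (`surj`) `n X`, `Y X : A (n X)` and `e X : (J (n X)).obj (Y X) ≅ X`, and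
put `L.obj X := (H (n X)).obj (Y X)`.
Common stage: two stages `n`, `n'` are both below `N = max n n'`; to avoid casts between `A (n + m)` and
`A (n' + m')` it is convenient to prove first, by induction with `Nat.leRec` or `Nat.le.dest`, the
existence for `n ≤ N` of a functor `K : A n ⥤ A N` with isomorphisms `K ⋙ J N ≅ J n` and
`K ⋙ H N ≅ H n`, both obtained by the same recursion, and that (`full`, `faithful`) can be
rephrased with these functors (if `f` in `A n` dies in `C` then it dies in some `A N`, hence in all later ones).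
Arrows: for `f : X ⟶ X'` consider `e X ≫ f ≫ (e X')⁻¹ : J (Y X) ⟶ J (Y X')`; bring both objects to a common stage
`N`, use `full` to find a later stage `N'` and an arrow `g` in `A N'` whose image in `C` is this
arrow (up to the isomorphisms), and put `L.map f := H N' g` conjugated with the isomorphisms. It does not depend
on the choices: two such arrows `g`, `g'` become equal at a later stage by `faithful`. So define
`L.map f` by choice and prove the characterisation: for every stage `N'` and every `g` in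
`A N'` representing `f`, `L.map f` is the conjugate of `H N' g`. Functoriality follows from the
characterisation (identities are represented by identities; two composable arrows can be
represented at a common stage). The isomorphisms `θ n : J n ⋙ L ≅ H n`: for `Z : A n` the isomorphism
`e ((J n).obj Z) : J (Y) ≅ J n Z` is represented at a later stage by an isomorphism (represent it
and its inverse), apply `H`. Naturality and the compatibility with `ψ` follow from the characterisation.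

`exists_iso`: let `β n : J n ⋙ L₁ ≅ J n ⋙ L₂` be compatible with the `φ n`. For `X : C` take
`e : (J n).obj Y ≅ X` and define the component as `L₁ e⁻¹ ≫ (β n).app Y ≫ L₂ e`. It is independent of the
choices and natural by `full` (bring both objects to a common stage; the `β n` are natural and
compatible).
-/

universe v' u u'

open CategoryTheory Opposite

namespace Pool.Agent.HH.PreTower.Cocone

variable {K : PreTower.{u}} {C : Type u} [SmallCategory C] {c : K.Cocone C} {E : Type u'}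
  [Category.{v'} E]

/-! ### the functors between the stages -/

/-- A functor from the stage `n` to the stage `N` with the comparison isomorphisms. -/
structure Stage (c : K.Cocone C) (H : ∀ n, K.A n ⥤ E) (n N : ℕ) where
  /-- the functor -/
  F : K.A n ⥤ K.A N
  /-- the comparison for the cocone -/
  j : F ⋙ c.J N ≅ c.J n
  /-- the comparison for the functors `H` -/
  h : F ⋙ H N ≅ H n

/-- The identity. -/
def Stage.one (c : K.Cocone C) (H : ∀ n, K.A n ⥤ E) (n : ℕ) : Stage c H n n :=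
  ⟨𝟭 _, Functor.leftUnitor _, Functor.leftUnitor _⟩

/-- The next stage. -/
def Stage.next {H : ∀ n, K.A n ⥤ E} (ψ : ∀ n, K.T n ⋙ H (n + 1) ≅ H n) {n N : ℕ}
    (S : Stage c H n N) : Stage c H n (N + 1) :=
  ⟨S.F ⋙ K.T N,
    Functor.associator _ _ _ ≪≫ Functor.isoWhiskerLeft S.F (c.φ N) ≪≫ S.j,
    Functor.associator _ _ _ ≪≫ Functor.isoWhiskerLeft S.F (ψ N) ≪≫ S.h⟩

/-- The functor from the stage `n` to the stage `N`. -/
def stage (c : K.Cocone C) {H : ∀ n, K.A n ⥤ E} (ψ : ∀ n, K.T n ⋙ H (n + 1) ≅ H n) {n N : ℕ}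
    (h : n ≤ N) : Stage c H n N :=
  Nat.leRec (motive := fun N _ => Stage c H n N) (Stage.one c H n) (fun _ _ S => S.next ψ) h

theorem stage_self (c : K.Cocone C) {H : ∀ n, K.A n ⥤ E} (ψ : ∀ n, K.T n ⋙ H (n + 1) ≅ H n)
    (n : ℕ) : stage c ψ (le_refl n) = Stage.one c H n := Nat.leRec_self _ _

theorem stage_succ (c : K.Cocone C) {H : ∀ n, K.A n ⥤ E} (ψ : ∀ n, K.T n ⋙ H (n + 1) ≅ H n)
    {n N : ℕ} (h : n ≤ N) (h' : n ≤ N + 1) : stage c ψ h' = (stage c ψ h).next ψ :=
  Nat.leRec_succ _ _ h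

theorem stage_comp (c : K.Cocone C) {H : ∀ n, K.A n ⥤ E} (ψ : ∀ n, K.T n ⋙ H (n + 1) ≅ H n)
    {n M N : ℕ} (h1 : n ≤ M) (h2 : M ≤ N) (h3 : n ≤ N) (X : K.A n) :
    ∃ u : (stage c ψ h2).F.obj ((stage c ψ h1).F.obj X) ≅ (stage c ψ h3).F.obj X,
      (c.J N).map u.hom ≫ (stage c ψ h3).j.hom.app X =
        (stage c ψ h2).j.hom.app ((stage c ψ h1).F.obj X) ≫ (stage c ψ h1).j.hom.app X ∧
      (H N).map u.hom ≫ (stage c ψ h3).h.hom.app X =
        (stage c ψ h2).h.hom.app ((stage c ψ h1).F.obj X) ≫ (stage c ψ h1).h.hom.app X := by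
  induction N, h2 using Nat.le_induction with
  | base =>
    rw [stage_self]
    refine ⟨Iso.refl _, ?_, ?_⟩
    · simp [Stage.one]
    · simp [Stage.one]
  | succ N h2 ih =>
    obtain ⟨u, hu1, hu2⟩ := ih (h1.trans h2)
    rw [stage_succ c ψ h2, stage_succ c ψ (h1.trans h2)]
    refine ⟨(K.T N).mapIso u, ?_, ?_⟩
    · have e1 := (c.φ N).hom.naturality u.hom
      simp only [Functor.comp_map] at e1
      simp only [Stage.next, Functor.mapIso_hom, Iso.trans_hom, NatTrans.comp_app,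
        Functor.associator_hom_app, Functor.isoWhiskerLeft_hom, Functor.whiskerLeft_app,
        Category.id_comp, Category.assoc, Functor.comp_obj]
      rw [← Category.assoc, e1, Category.assoc, hu1]
    · have e1 := (ψ N).hom.naturality u.hom
      simp only [Functor.comp_map] at e1
      simp only [Stage.next, Functor.mapIso_hom, Iso.trans_hom, NatTrans.comp_app,
        Functor.associator_hom_app, Functor.isoWhiskerLeft_hom, Functor.whiskerLeft_app,
        Category.id_comp, Category.assoc, Functor.comp_obj]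
      rw [← Category.assoc, e1, Category.assoc, hu2]

theorem stage_iter (c : K.Cocone C) {H : ∀ n, K.A n ⥤ E} (ψ : ∀ n, K.T n ⋙ H (n + 1) ≅ H n)
    (n m : ℕ) : ∃ h : K.iter n m ⋙ H (n + m) ≅ H n,
      stage c ψ (Nat.le_add_right n m) = ⟨K.iter n m, c.iterIso n m, h⟩ := by
  induction m with
  | zero => exact ⟨_, stage_self c ψ n⟩
  | succ m ih =>
    obtain ⟨h, e⟩ := ih
    exact ⟨(Stage.next (c := c) ψ ⟨K.iter n m, c.iterIso n m, h⟩).h,
      (stage_succ c ψ (Nat.le_add_right n m) (Nat.le_add_right n (m + 1))).trans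
        (by rw [e]; rfl)⟩

theorem IsColim.faithH (hc : c.IsColim) {H : ∀ n, K.A n ⥤ E}
    (ψ : ∀ n, K.T n ⋙ H (n + 1) ≅ H n) {n : ℕ} {X Y : K.A n} {f g : X ⟶ Y}
    (h : (c.J n).map f = (c.J n).map g) : (H n).map f = (H n).map g := by
  obtain ⟨m, hm⟩ := hc.faithful n X Y f g h
  obtain ⟨e, -⟩ := stage_iter c ψ n m
  have e1 := e.hom.naturality f
  have e2 := e.hom.naturality g
  simp only [Functor.comp_map] at e1 e2
  rw [hm, e2] at e1
  exact ((cancel_epi _).1 e1).symm

theorem IsColim.full' (hc : c.IsColim) {H : ∀ n, K.A n ⥤ E}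
    (ψ : ∀ n, K.T n ⋙ H (n + 1) ≅ H n) {n : ℕ} {X Y : K.A n}
    (f : (c.J n).obj X ⟶ (c.J n).obj Y) :
    ∃ (N : ℕ) (h : n ≤ N) (g : (stage c ψ h).F.obj X ⟶ (stage c ψ h).F.obj Y),
      (c.J N).map g ≫ (stage c ψ h).j.hom.app Y = (stage c ψ h).j.hom.app X ≫ f := by
  obtain ⟨m, g, hg⟩ := hc.full n X Y f
  obtain ⟨h, e⟩ := stage_iter c ψ n m
  refine ⟨n + m, Nat.le_add_right n m, ?_⟩
  rw [e]
  exact ⟨g, hg⟩

/-! ### representations of arrows -/

/-- `f` and `φ` are represented by the same arrow at the stage `N`. -/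
def RepAt (c : K.Cocone C) {H : ∀ n, K.A n ⥤ E} (ψ : ∀ n, K.T n ⋙ H (n + 1) ≅ H n) {n n' : ℕ}
    {X : K.A n} {X' : K.A n'} (f : (c.J n).obj X ⟶ (c.J n').obj X')
    (φ : (H n).obj X ⟶ (H n').obj X') (N : ℕ) : Prop :=
  ∃ (h : n ≤ N) (h' : n' ≤ N) (g : (stage c ψ h).F.obj X ⟶ (stage c ψ h').F.obj X'),
    (c.J N).map g ≫ (stage c ψ h').j.hom.app X' = (stage c ψ h).j.hom.app X ≫ f ∧
    (H N).map g ≫ (stage c ψ h').h.hom.app X' = (stage c ψ h).h.hom.app X ≫ φ

theorem RepAt.up {H : ∀ n, K.A n ⥤ E} {ψ : ∀ n, K.T n ⋙ H (n + 1) ≅ H n} {n n' : ℕ}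
    {X : K.A n} {X' : K.A n'} {f : (c.J n).obj X ⟶ (c.J n').obj X'}
    {φ : (H n).obj X ⟶ (H n').obj X'} {N : ℕ} (hR : RepAt c ψ f φ N) {N' : ℕ} (hN : N ≤ N') :
    RepAt c ψ f φ N' := by
  obtain ⟨h, h', g, hg1, hg2⟩ := hR
  obtain ⟨u, hu1, hu2⟩ := stage_comp c ψ h hN (h.trans hN) X
  obtain ⟨u', hu1', hu2'⟩ := stage_comp c ψ h' hN (h'.trans hN) X'
  refine ⟨h.trans hN, h'.trans hN, u.inv ≫ (stage c ψ hN).F.map g ≫ u'.hom, ?_, ?_⟩
  · have e1 := (stage c ψ hN).j.hom.naturality g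
    simp only [Functor.comp_map] at e1
    rw [← cancel_epi ((c.J N').map u.hom), ← Category.assoc, ← Functor.map_comp,
      Iso.hom_inv_id_assoc, ← Category.assoc, hu1, Functor.map_comp, Category.assoc, hu1',
      ← Category.assoc, e1, Category.assoc, Category.assoc, hg1]
  · have e1 := (stage c ψ hN).h.hom.naturality g
    simp only [Functor.comp_map] at e1
    rw [← cancel_epi ((H N').map u.hom), ← Category.assoc, ← Functor.map_comp,
      Iso.hom_inv_id_assoc, ← Category.assoc, hu2, Functor.map_comp, Category.assoc, hu2',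
      ← Category.assoc, e1, Category.assoc, Category.assoc, hg2]

theorem IsColim.rep_unique (hc : c.IsColim) {H : ∀ n, K.A n ⥤ E}
    {ψ : ∀ n, K.T n ⋙ H (n + 1) ≅ H n} {n n' : ℕ}
    {X : K.A n} {X' : K.A n'} {f : (c.J n).obj X ⟶ (c.J n').obj X'}
    {φ φ' : (H n).obj X ⟶ (H n').obj X'} {N N' : ℕ} (h1 : RepAt c ψ f φ N)
    (h2 : RepAt c ψ f φ' N') : φ = φ' := by
  obtain ⟨h, h', g, hg1, hg2⟩ := h1.up (le_max_left N N')
  obtain ⟨k, k', g', hg1', hg2'⟩ := h2.up (le_max_right N N')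
  have e1 : (c.J (max N N')).map g = (c.J (max N N')).map g' := by
    rw [← cancel_mono ((stage c ψ h').j.hom.app X'), hg1, hg1']
  have e2 := hc.faithH ψ e1
  rw [← cancel_epi ((stage c ψ h).h.hom.app X), ← hg2, ← hg2', e2]

theorem IsColim.rep_exists (hc : c.IsColim) {H : ∀ n, K.A n ⥤ E}
    (ψ : ∀ n, K.T n ⋙ H (n + 1) ≅ H n) {n n' : ℕ}
    {X : K.A n} {X' : K.A n'} (f : (c.J n).obj X ⟶ (c.J n').obj X') :
    ∃ (φ : (H n).obj X ⟶ (H n').obj X') (N : ℕ), RepAt c ψ f φ N := by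
  obtain ⟨N, hN, g, hg⟩ := hc.full' ψ
    ((stage c ψ (le_max_left n n')).j.hom.app X ≫ f ≫
      (stage c ψ (le_max_right n n')).j.inv.app X')
  obtain ⟨u, hu1, hu2⟩ := stage_comp c ψ (le_max_left n n') hN ((le_max_left n n').trans hN) X
  obtain ⟨u', hu1', hu2'⟩ := stage_comp c ψ (le_max_right n n') hN
    ((le_max_right n n').trans hN) X'
  refine ⟨(stage c ψ ((le_max_left n n').trans hN)).h.inv.app X ≫
    (H N).map (u.inv ≫ g ≫ u'.hom) ≫ (stage c ψ ((le_max_right n n').trans hN)).h.hom.app X',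
    N, (le_max_left n n').trans hN, (le_max_right n n').trans hN, u.inv ≫ g ≫ u'.hom, ?_, ?_⟩
  · rw [← cancel_epi ((c.J N).map u.hom), ← Category.assoc, ← Functor.map_comp,
      Iso.hom_inv_id_assoc, ← Category.assoc, hu1, Functor.map_comp, Category.assoc, hu1',
      ← Category.assoc, hg]
    simp
  · simp

theorem rep_id (c : K.Cocone C) {H : ∀ n, K.A n ⥤ E} (ψ : ∀ n, K.T n ⋙ H (n + 1) ≅ H n)
    {n : ℕ} (X : K.A n) : RepAt c ψ (𝟙 ((c.J n).obj X)) (𝟙 ((H n).obj X)) n :=
  ⟨le_refl n, le_refl n, 𝟙 _, by simp, by simp⟩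

theorem rep_map (c : K.Cocone C) {H : ∀ n, K.A n ⥤ E} (ψ : ∀ n, K.T n ⋙ H (n + 1) ≅ H n)
    {n : ℕ} {X X' : K.A n} (f : X ⟶ X') : RepAt c ψ ((c.J n).map f) ((H n).map f) n :=
  ⟨le_refl n, le_refl n, (stage c ψ (le_refl n)).F.map f,
    (stage c ψ (le_refl n)).j.hom.naturality f, (stage c ψ (le_refl n)).h.hom.naturality f⟩

theorem rep_comp {H : ∀ n, K.A n ⥤ E} {ψ : ∀ n, K.T n ⋙ H (n + 1) ≅ H n}
    {n n' n'' : ℕ} {X : K.A n} {X' : K.A n'} {X'' : K.A n''}
    {f : (c.J n).obj X ⟶ (c.J n').obj X'} {φ : (H n).obj X ⟶ (H n').obj X'}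
    {f' : (c.J n').obj X' ⟶ (c.J n'').obj X''} {φ' : (H n').obj X' ⟶ (H n'').obj X''}
    {N N' : ℕ} (h1 : RepAt c ψ f φ N) (h2 : RepAt c ψ f' φ' N') :
    RepAt c ψ (f ≫ f') (φ ≫ φ') (max N N') := by
  obtain ⟨h, h', g, hg1, hg2⟩ := h1.up (le_max_left N N')
  obtain ⟨k, k', g', hg1', hg2'⟩ := h2.up (le_max_right N N')
  refine ⟨h, k', g ≫ g', ?_, ?_⟩
  · rw [Functor.map_comp, Category.assoc, hg1', ← Category.assoc, hg1, Category.assoc]
  · rw [Functor.map_comp, Category.assoc, hg2', ← Category.assoc, hg2, Category.assoc]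

theorem rep_phi (c : K.Cocone C) {H : ∀ n, K.A n ⥤ E} (ψ : ∀ n, K.T n ⋙ H (n + 1) ≅ H n)
    {n : ℕ} (X : K.A n) : RepAt c ψ (X := (K.T n).obj X) (X' := X) ((c.φ n).hom.app X)
      ((ψ n).hom.app X) (n + 1) := by
  refine ⟨le_refl _, Nat.le_succ n, ?_⟩
  rw [stage_self, stage_succ c ψ (le_refl n), stage_self]
  refine ⟨𝟙 _, ?_, ?_⟩
  · simp [Stage.one, Stage.next]
  · simp [Stage.one, Stage.next]

/-! ### the category of the objects of the stages -/

/-- The objects of all stages. -/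
abbrev Obj (K : PreTower.{u}) : Type u := Σ n, K.A n

/-- Their images in `C`. -/
def ob (c : K.Cocone C) (p : Obj K) : C := (c.J p.1).obj p.2

/-- The category of the objects of the stages, with the arrows of `C`. -/
abbrev Gam (c : K.Cocone C) : Type u := InducedCategory C (ob c)

theorem IsColim.equiv (hc : c.IsColim) : (inducedFunctor (ob c)).IsEquivalence := by
  have : (inducedFunctor (ob c)).EssSurj := ⟨fun X => by
    obtain ⟨n, Y, ⟨e⟩⟩ := hc.surj X
    exact ⟨⟨n, Y⟩, ⟨e⟩⟩⟩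
  exact { }

/-- The functor to `E`. -/
noncomputable def IsColim.LG (hc : c.IsColim) {H : ∀ n, K.A n ⥤ E}
    (ψ : ∀ n, K.T n ⋙ H (n + 1) ≅ H n) : Gam c ⥤ E where
  obj p := (H p.1).obj p.2
  map {p q} f := (hc.rep_exists ψ (X := p.2) (X' := q.2) f.hom).choose
  map_id p := hc.rep_unique (hc.rep_exists ψ (X := p.2) (X' := p.2) _).choose_spec.choose_spec
    (rep_id c ψ p.2)
  map_comp {p q r} f g :=
    hc.rep_unique (hc.rep_exists ψ (X := p.2) (X' := r.2) _).choose_spec.choose_spec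
      (rep_comp (hc.rep_exists ψ (X := p.2) (X' := q.2) f.hom).choose_spec.choose_spec
        (hc.rep_exists ψ (X := q.2) (X' := r.2) g.hom).choose_spec.choose_spec)

theorem IsColim.LG_map (hc : c.IsColim) {H : ∀ n, K.A n ⥤ E}
    (ψ : ∀ n, K.T n ⋙ H (n + 1) ≅ H n) {p q : Gam c} (f : p ⟶ q)
    {φ : (H p.1).obj p.2 ⟶ (H q.1).obj q.2} {N : ℕ}
    (h : RepAt c ψ (X := p.2) (X' := q.2) f.hom φ N) : (hc.LG ψ).map f = φ :=
  hc.rep_unique (hc.rep_exists ψ (X := p.2) (X' := q.2) f.hom).choose_spec.choose_spec h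

/-- The functor from a stage. -/
def toGam (c : K.Cocone C) (n : ℕ) : K.A n ⥤ Gam c where
  obj X := ⟨n, X⟩
  map f := InducedCategory.homMk ((c.J n).map f)
  map_id X := by
    ext
    exact (c.J n).map_id X
  map_comp f g := by
    ext
    exact (c.J n).map_comp f g

/-- `toGam n ⋙ LG ≅ H n`. -/
noncomputable def IsColim.toLG (hc : c.IsColim) {H : ∀ n, K.A n ⥤ E}
    (ψ : ∀ n, K.T n ⋙ H (n + 1) ≅ H n) (n : ℕ) : toGam c n ⋙ hc.LG ψ ≅ H n :=
  NatIso.ofComponents (fun X => Iso.refl ((H n).obj X)) (by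
    intro X Y f
    have h1 : (toGam c n ⋙ hc.LG ψ).map f = (H n).map f :=
      hc.LG_map ψ ((toGam c n).map f) (rep_map c ψ f)
    rw [h1]
    change (H n).map f ≫ 𝟙 ((H n).obj Y) = 𝟙 ((H n).obj X) ≫ (H n).map f
    rw [Category.comp_id, Category.id_comp])

theorem IsColim.exists_desc (hc : c.IsColim) (H : ∀ n, K.A n ⥤ E)
    (ψ : ∀ n, K.T n ⋙ H (n + 1) ≅ H n) :
    ∃ (L : C ⥤ E) (θ : ∀ n, c.J n ⋙ L ≅ H n), ∀ (n : ℕ) (X : K.A n),
      (θ (n + 1)).hom.app ((K.T n).obj X) ≫ (ψ n).hom.app X =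
        L.map ((c.φ n).hom.app X) ≫ (θ n).hom.app X := by
  have := hc.equiv
  let I : Gam c ⥤ C := inducedFunctor (ob c)
  have hI : I.IsEquivalence := hc.equiv
  let e : Gam c ≌ C := I.asEquivalence
  refine ⟨e.inverse ⋙ hc.LG ψ, fun n => ?_, ?_⟩
  · exact Functor.isoWhiskerRight (Functor.isoWhiskerLeft (toGam c n) e.unitIso.symm ≪≫
      Functor.rightUnitor _) (hc.LG ψ) ≪≫ hc.toLG ψ n
  · intro n X
    let f : (toGam c (n + 1)).obj ((K.T n).obj X) ⟶ (toGam c n).obj X :=
      InducedCategory.homMk ((c.φ n).hom.app X)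
    have h1 : (hc.LG ψ).map f = (ψ n).hom.app X := hc.LG_map ψ f (rep_phi c ψ X)
    have h2 := e.unitIso.inv.naturality f
    have h3 := congrArg (hc.LG ψ).map h2
    rw [Functor.map_comp, Functor.map_comp] at h3
    have h4 : (hc.LG ψ).map ((𝟭 (Gam c)).map f) = (ψ n).hom.app X := h1
    rw [h4] at h3
    have h5 : ∀ (k : ℕ) (Y : K.A k), (Functor.isoWhiskerRight
        (Functor.isoWhiskerLeft (toGam c k) e.unitIso.symm ≪≫
        Functor.rightUnitor _) (hc.LG ψ) ≪≫ hc.toLG ψ k).hom.app Y =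
        (hc.LG ψ).map (e.unitIso.inv.app ((toGam c k).obj Y)) := by
      intro k Y
      have h6 : (hc.LG ψ).map (e.unitIso.inv.app ((toGam c k).obj Y) ≫ 𝟙 ((toGam c k).obj Y)) =
          (hc.LG ψ).map (e.unitIso.inv.app ((toGam c k).obj Y)) :=
        congrArg (hc.LG ψ).map (Category.comp_id (e.unitIso.inv.app ((toGam c k).obj Y)))
      exact (Category.comp_id ((hc.LG ψ).map (e.unitIso.inv.app ((toGam c k).obj Y) ≫
        𝟙 ((toGam c k).obj Y)))).trans h6
    exact (congrArg (· ≫ (ψ n).hom.app X) (h5 (n + 1) ((K.T n).obj X))).trans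
      (h3.symm.trans (congrArg (_ ≫ ·) (h5 n X).symm))

theorem IsColim.exists_iso (hc : c.IsColim) (L₁ L₂ : C ⥤ E) (β : ∀ n, c.J n ⋙ L₁ ≅ c.J n ⋙ L₂)
    (hβ : ∀ (n : ℕ) (X : K.A n),
      (β (n + 1)).hom.app ((K.T n).obj X) ≫ L₂.map ((c.φ n).hom.app X) =
        L₁.map ((c.φ n).hom.app X) ≫ (β n).hom.app X) :
    ∃ β' : L₁ ≅ L₂, ∀ (n : ℕ) (X : K.A n), β'.hom.app ((c.J n).obj X) = (β n).hom.app X := by
  let I : Gam c ⥤ C := inducedFunctor (ob c)
  have hI : I.IsEquivalence := hc.equiv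
  let e : Gam c ≌ C := I.asEquivalence
  let ψ : ∀ n, K.T n ⋙ c.J (n + 1) ≅ c.J n := c.φ
  -- compatibility with the comparison isomorphisms of the stages
  have hst : ∀ {n N : ℕ} (h : n ≤ N) (X : K.A n),
      (β N).hom.app ((stage c ψ h).F.obj X) ≫ L₂.map ((stage c ψ h).j.hom.app X) =
        L₁.map ((stage c ψ h).j.hom.app X) ≫ (β n).hom.app X := by
    intro n N h X
    induction N, h using Nat.le_induction with
    | base =>
      rw [stage_self]
      simp [Stage.one]
    | succ N h ih =>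
      rw [stage_succ c ψ h]
      have h1 := hβ N ((stage c ψ h).F.obj X)
      simp only [Stage.next, Iso.trans_hom, NatTrans.comp_app, Functor.associator_hom_app,
        Functor.isoWhiskerLeft_hom, Functor.whiskerLeft_app, Category.id_comp, Functor.comp_obj,
        Functor.map_comp]
      simp only [Functor.comp_obj] at h1 ih
      rw [← Category.assoc]
      refine (congrArg (· ≫ L₂.map ((stage c ψ h).j.hom.app X)) h1).trans ?_
      rw [Category.assoc, ih, Category.assoc]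
  -- naturality
  have hnat : ∀ {n n' : ℕ} (X : K.A n) (X' : K.A n') (f : (c.J n).obj X ⟶ (c.J n').obj X'),
      L₁.map f ≫ (β n').hom.app X' = (β n).hom.app X ≫ L₂.map f := by
    intro n n' X X' f
    obtain ⟨φ, N, h, h', g, hg, -⟩ := hc.rep_exists ψ f
    have h1 := (β N).hom.naturality g
    simp only [Functor.comp_map] at h1
    have h2 := hst h X
    have h3 := hst h' X'
    have h4 := congrArg L₁.map hg
    have h5 := congrArg L₂.map hg
    rw [Functor.map_comp, Functor.map_comp] at h4 h5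
    rw [← cancel_epi (L₁.map ((stage c ψ h).j.hom.app X)), ← Category.assoc, ← h4,
      Category.assoc, ← h3, ← Category.assoc, h1, Category.assoc, h5, ← Category.assoc, h2,
      Category.assoc]
  -- the isomorphism on the category of the objects of the stages
  let γ : I ⋙ L₁ ≅ I ⋙ L₂ := NatIso.ofComponents (fun p => (β p.1).app p.2)
    (fun {p q} f => hnat p.2 q.2 f.hom)
  refine ⟨(Functor.leftUnitor L₁).symm ≪≫ Functor.isoWhiskerRight e.counitIso.symm L₁ ≪≫
    Functor.associator _ _ _ ≪≫ Functor.isoWhiskerLeft e.inverse γ ≪≫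
    (Functor.associator _ _ _).symm ≪≫ Functor.isoWhiskerRight e.counitIso L₂ ≪≫
    Functor.leftUnitor L₂, ?_⟩
  intro n X
  let k : (e.inverse.obj ((c.J n).obj X)) ⟶ (toGam c n).obj X :=
    InducedCategory.homMk (e.counitIso.hom.app ((c.J n).obj X))
  have h1 := γ.hom.naturality k
  have h2 : γ.hom.app ((toGam c n).obj X) = (β n).hom.app X := rfl
  rw [h2] at h1
  have h3 : (I ⋙ L₁).map k = L₁.map (e.counitIso.hom.app ((c.J n).obj X)) := rfl
  have h4 : (I ⋙ L₂).map k = L₂.map (e.counitIso.hom.app ((c.J n).obj X)) := rfl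
  rw [h3, h4] at h1
  have h5 : ((Functor.leftUnitor L₁).symm ≪≫ Functor.isoWhiskerRight e.counitIso.symm L₁ ≪≫
      Functor.associator _ _ _ ≪≫ Functor.isoWhiskerLeft e.inverse γ ≪≫
      (Functor.associator _ _ _).symm ≪≫ Functor.isoWhiskerRight e.counitIso L₂ ≪≫
      Functor.leftUnitor L₂).hom.app ((c.J n).obj X) =
      L₁.map (e.counitIso.inv.app ((c.J n).obj X)) ≫
        γ.hom.app (e.inverse.obj ((c.J n).obj X)) ≫
        L₂.map (e.counitIso.hom.app ((c.J n).obj X)) := by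
    simp
    rfl
  rw [h5]
  have h6 : e.counitIso.inv.app ((c.J n).obj X) ≫ e.counitIso.hom.app ((c.J n).obj X) = 𝟙 _ :=
    Iso.inv_hom_id_app _ _
  have h7 : L₁.map (e.counitIso.inv.app ((c.J n).obj X)) ≫
      L₁.map (e.counitIso.hom.app ((c.J n).obj X)) = 𝟙 _ :=
    (L₁.map_comp _ _).symm.trans ((congrArg L₁.map h6).trans (L₁.map_id _))
  refine (congrArg (L₁.map (e.counitIso.inv.app ((c.J n).obj X)) ≫ ·) h1.symm).trans ?_
  refine (Category.assoc _ _ _).symm.trans ?_
  exact (congrArg (· ≫ (β n).hom.app X) h7).trans (Category.id_comp _)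

end Pool.Agent.HH.PreTower.Cocone
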