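import Pool.Agent.HH.Defs3
import Pool.Agent.HH.Retract

/-!
# HH part 3, module d1 ResLem: restrictions of computads
-/

set_option autoImplicit false

namespace HH

open Classical CategoryTheory

variable {S : Sig}

section ResLem
variable {X : Cptd S} {p q : X.V → Prop}

theorem res_tdim (t : S.T X.V) : (X.res p).tdim t = X.tdim t := by
  cases t <;> rfl

theorem res_tsrc (t : S.T X.V) : (X.res p).tsrc t = X.tsrc t := by
  cases t <;> rfl

theorem res_ttgt (t : S.T X.V) : (X.res p).ttgt t = X.ttgt t := by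
  cases t <;> rfl

theorem res_tok_iff (t : S.T X.V) :
    (X.res p).tok t ↔ (X.res (fun _ => True)).tok t ∧ ∀ v, t.HasVar v → p v := by
  induction t with
  | var v =>
    constructor
    · intro h
      refine ⟨trivial, fun w hw => ?_⟩
      have hw' : v = w := hw
      rw [← hw']
      exact h
    · rintro ⟨-, h⟩
      exact h v rfl
  | op k γ ih =>
    constructor
    · rintro ⟨hk, h⟩
      refine ⟨⟨hk, fun r => ⟨((ih r).1 (h r).1).1, ?_⟩⟩, ?_⟩
      · obtain ⟨-, h2, h3⟩ := h r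
        rw [res_tdim] at h2 ⊢
        rw [res_tsrc, res_ttgt] at h3 ⊢
        exact ⟨h2, h3⟩
      · rintro v ⟨r, hr⟩
        exact ((ih r).1 (h r).1).2 v hr
    · rintro ⟨⟨hk, h⟩, hv⟩
      refine ⟨hk, fun r => ⟨(ih r).2 ⟨(h r).1, fun v hr => hv v ⟨r, hr⟩⟩, ?_⟩⟩
      obtain ⟨-, h2, h3⟩ := h r
      rw [res_tdim] at h2 ⊢
      rw [res_tsrc, res_ttgt] at h3 ⊢
      exact ⟨h2, h3⟩

theorem res_tok_mono (h : ∀ v, p v → q v) {t : S.T X.V} (ht : (X.res p).tok t) :
    (X.res q).tok t := by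
  rw [res_tok_iff] at ht ⊢
  exact ⟨ht.1, fun v hv => h v (ht.2 v hv)⟩

theorem tok_of_res (h : ∀ v, p v → X.ok v) {t : S.T X.V} (ht : (X.res p).tok t) : X.tok t :=
  res_tok_mono (q := X.ok) h ht

theorem res_and_tok {t : S.T X.V} (h1 : (X.res p).tok t) (h2 : (X.res q).tok t) :
    (X.res (fun v => p v ∧ q v)).tok t := by
  rw [res_tok_iff] at h1 h2 ⊢
  exact ⟨h1.1, fun v hv => ⟨h1.2 v hv, h2.2 v hv⟩⟩

/-- a sub-computad of a good computad closed under boundaries is good -/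
theorem res_good [X.Good] (hp : ∀ v, p v → X.ok v)
    (hs : ∀ v, p v → 0 < X.dim v → (X.res p).tok (X.src v) ∧ (X.res p).tok (X.tgt v)) :
    (X.res p).Good where
  ok_src := fun v h h0 => (hs v h h0).1
  ok_tgt := fun v h h0 => (hs v h h0).2
  dim_src := fun v h h0 => by
    have h1 := Cptd.Good.dim_src (X := X) v (hp v h) h0
    rw [← res_tdim (p := p)] at h1
    exact h1
  dim_tgt := fun v h h0 => by
    have h1 := Cptd.Good.dim_tgt (X := X) v (hp v h) h0
    rw [← res_tdim (p := p)] at h1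
    exact h1
  src_tgt := fun v h h0 => by
    have h1 := Cptd.Good.src_tgt (X := X) v (hp v h) h0
    rw [← res_tsrc (p := p), ← res_tsrc (p := p)] at h1
    exact h1
  tgt_src := fun v h h0 => by
    have h1 := Cptd.Good.tgt_src (X := X) v (hp v h) h0
    rw [← res_ttgt (p := p), ← res_ttgt (p := p)] at h1
    exact h1

theorem res_par (h : ∀ v, p v → X.ok v) {f g : S.T X.V} (hfg : (X.res p).Par f g) :
    X.Par f g := by
  obtain ⟨h1, h2, h3, h4⟩ := hfg
  have h3' : (X.res p).tdim f = (X.res p).tdim g := h3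
  rw [res_tdim, res_tdim] at h3'
  refine ⟨tok_of_res h h1, tok_of_res h h2, h3', fun h0 => ?_⟩
  have h0' : 0 < (X.res p).tdim f := by
    rw [res_tdim]
    exact h0
  have h5 : (X.res p).tsrc f = (X.res p).tsrc g := (h4 h0').1
  have h6 : (X.res p).ttgt f = (X.res p).ttgt g := (h4 h0').2
  rw [res_tsrc, res_tsrc] at h5
  rw [res_ttgt, res_ttgt] at h6
  exact ⟨h5, h6⟩

theorem res_conn (h : ∀ v, p v → X.ok v) {f g : S.T X.V} (hfg : (X.res p).Conn f g) :
    X.Conn f g := by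
  obtain ⟨k, h1, h2, h3, h4⟩ := hfg
  have h2' : (X.res p).tdim k = (X.res p).tdim f + 1 := h2
  have h3' : (X.res p).tsrc k = f := h3
  have h4' : (X.res p).ttgt k = g := h4
  rw [res_tdim, res_tdim] at h2'
  rw [res_tsrc] at h3'
  rw [res_ttgt] at h4'
  exact ⟨k, tok_of_res h h1, h2', h3', h4'⟩

/-- connectedness and parallelism along a substitution, without stratification -/
theorem Par.eval' {M : Model S} [M.OpLaws] {γ : X.V → M.C}
    (hγ : ∀ v, X.ok v → AsgAt X M γ v) {f g : S.T X.V} (h : X.Par f g) :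
    M.toGlob.Par (M.eval γ f) (M.eval γ g) := by
  obtain ⟨h1, h2, h3, h4⟩ := h
  have hd : X.tdim f = X.tdim g := h3
  obtain ⟨a1, a2, a3⟩ := eval_mapAt hγ f h1
  obtain ⟨b1, b2, b3⟩ := eval_mapAt hγ g h2
  have a2' : M.dim (M.eval γ f) = X.tdim f := a2
  have b2' : M.dim (M.eval γ g) = X.tdim g := b2
  refine ⟨a1, b1, by rw [a2', b2', hd], fun h0 => ?_⟩
  have h0' : 0 < X.tdim f := by omega
  obtain ⟨e1, e2⟩ := h4 h0'
  obtain ⟨a4, a5⟩ := a3 h0'
  obtain ⟨b4, b5⟩ := b3 (by change 0 < X.tdim g; omega)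
  refine ⟨?_, ?_⟩
  · rw [a4, b4]
    exact congrArg _ e1
  · rw [a5, b5]
    exact congrArg _ e2

theorem Conn.eval' {M : Model S} [M.OpLaws] {γ : X.V → M.C}
    (hγ : ∀ v, X.ok v → AsgAt X M γ v) {f g : S.T X.V} (hf : X.tok f) (h : X.Conn f g) :
    M.toGlob.Conn (M.eval γ f) (M.eval γ g) := by
  obtain ⟨k, h1, h2, h3, h4⟩ := h
  have hd : X.tdim k = X.tdim f + 1 := h2
  obtain ⟨m1, m2, m3⟩ := eval_mapAt hγ k h1
  obtain ⟨m4, m5⟩ := m3 (by change 0 < X.tdim k; omega)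
  have hs : X.tsrc k = f := h3
  have htt : X.ttgt k = g := h4
  have n2 : M.dim (M.eval γ f) = X.tdim f := (eval_mapAt hγ f hf).2.1
  refine ⟨M.eval γ k, m1, ?_, ?_, ?_⟩
  · have h5 : M.dim (M.eval γ k) = X.tdim k := m2
    rw [h5, hd, n2]
  · rw [m4]
    exact congrArg _ hs
  · rw [m5]
    exact congrArg _ htt

/-- contractibility passes to retracts -/
theorem Ctr.of_retract {X Y : Cptd S} (σ : X.V → S.T Y.V) (τ : Y.V → S.T X.V)
    (hσ : ∀ v, X.ok v → AsgAt X Y.m σ v) (hτ : ∀ v, Y.ok v → AsgAt Y X.m τ v)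
    (h : ∀ v, X.ok v → (σ v).bind τ = .var v) (hY : Y.Ctr) : X.Ctr := by
  obtain ⟨⟨y, hy, hy0⟩, hc⟩ := hY
  have hid : ∀ t : S.T X.V, X.tok t → (t.bind σ).bind τ = t := by
    intro t ht
    rw [Tm.bind_bind]
    exact (bind_congr t ht h).trans (Tm.bind_var_self t)
  constructor
  · obtain ⟨a1, a2, -⟩ := eval_mapAt (M := X.m) hτ y hy
    have a2' : X.tdim (y.bind τ) = Y.tdim y := a2
    have hy0' : Y.tdim y = 0 := hy0
    exact ⟨y.bind τ, a1, a2'.trans hy0'⟩
  · intro L f g hp _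
    have h1 : Y.Par (f.bind σ) (g.bind σ) := Par.eval' (M := Y.m) hσ hp
    have h2 : Y.Conn (f.bind σ) (g.bind σ) :=
      hc (Y.tdim (f.bind σ) + 1) _ _ h1 (Nat.lt_succ_self _)
    have h3 : X.Conn ((f.bind σ).bind τ) ((g.bind σ).bind τ) :=
      Conn.eval' (M := X.m) hτ h1.1 h2
    rw [hid f hp.1, hid g hp.2.1] at h3
    exact h3

end ResLem

end HH
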