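import Pool.Agent.HH.Names
import Pool.Agent.HH.ResLem
import Pool.Agent.HH.Rank

/-!
# HH part 3, module d10: compatible extensions of named simplices to a cone
-/

set_option autoImplicit false

namespace HH

open Classical CategoryTheory

variable {S : Sig}

/-- values of a morphism out of a free model -/
theorem CE_val [S.Good] {X : Cptd S} {hX : X.Good} {G : RMod S} (F : RMod.free X hX ⟶ G)
    {φ : X.V → G.M.C} (hφ : ∀ v (h : X.ok v), (RHom.f F ⟨.var v, h⟩).1 = φ v) (t : S.T X.V)
    (ht : X.tok t) : (RHom.f F ⟨t, ht⟩).1 = G.M.eval φ t := by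
  induction t with
  | var v => exact hφ v ht
  | op k δ ih =>
    have h1 := RHom.op F k ht.1 (fun p => ⟨δ p, (ht.2 p).1⟩) ht.2
    refine h1.trans ?_
    simp only [eval_op]
    congr 1
    funext p
    exact ih p (ht.2 p).1

/-- a morphism out of a free model is a substitution -/
theorem CE_asg [S.Good] {X : Cptd S} {hX : X.Good} {G : RMod S} (F : RMod.free X hX ⟶ G)
    {φ : X.V → G.M.C} (hφ : ∀ v (h : X.ok v), (RHom.f F ⟨.var v, h⟩).1 = φ v) (v : X.V)
    (hv : X.ok v) : AsgAt X G.M φ v := by
  refine ⟨?_, ?_, fun h0 => ⟨?_, ?_⟩⟩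
  · rw [← hφ v hv]
    exact (RHom.f F ⟨.var v, hv⟩).2
  · rw [← hφ v hv]
    exact RHom.dim F ⟨.var v, hv⟩
  · rw [← hφ v hv]
    exact (RHom.src F ⟨.var v, hv⟩ h0).trans (CE_val F hφ _ _)
  · rw [← hφ v hv]
    exact (RHom.tgt F ⟨.var v, hv⟩ h0).trans (CE_val F hφ _ _)

/-- substitutions agreeing on the subsets of `C` -/
theorem CE_congr [S.Good] {z : ZFam S} (hz : ZGood z) {𝒜 ℬ : Finset ℕ → Prop} {M : Model S}
    {φ φ' : Finset ℕ → M.C} {C : Finset ℕ} (hC : C.Nonempty)
    (h : ∀ C' : Finset ℕ, C'.Nonempty → C' ⊆ C → φ C' = φ' C')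
    (ha : AsgAt (KC z 𝒜) M φ C) : AsgAt (KC z ℬ) M φ' C := by
  obtain ⟨h1, h2, h3⟩ := ha
  have hCC := h C hC (Finset.Subset.refl _)
  refine ⟨?_, ?_, fun h0 => ?_⟩
  · rw [← hCC]
    exact h1
  · rw [← hCC]
    exact h2
  · have h0' : 0 < C.card - 1 := h0
    obtain ⟨h4, h5⟩ := h3 h0
    obtain ⟨hp, -⟩ := KC_src_par (z := z) (N := C.card) (fun n h2 _ => hz n h2)
      (𝒜 := fun D => D ⊂ C) (B := C) (by omega) le_rfl (fun D hD _ => hD)
    refine ⟨?_, ?_⟩
    · rw [← hCC]
      refine h4.trans ?_
      exact eval_congr (X := KC z fun D => D ⊂ C) _ hp.1 fun D hD => h D hD.1 hD.2.1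
    · rw [← hCC]
      refine h5.trans ?_
      exact eval_congr (X := KC z fun D => D ⊂ C) _ hp.2.1 fun D hD => h D hD.1 hD.2.1

section
variable [S.Good] {z : ZFam S} {hz : ZGood z} {G : RMod S}

/-- face of a named simplex (itself if there is no such face) -/
noncomputable def NS.face (p : NS z hz G) (B : Finset ℕ) : NS z hz G :=
  if h : B.Nonempty ∧ B ⊆ p.A.1 then
    ⟨⟨B, h.1⟩, (KM z hz).map (homOfLE (show (⟨B, h.1⟩ : Nm) ≤ p.A from h.2)) ≫ p.g⟩
  else p

/-- the values of a named simplex, with a default value -/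
noncomputable def NS.val0 (p : NS z hz G) (w : G.M.C) (C : Finset ℕ) : G.M.C :=
  if h : C.Nonempty ∧ C ⊆ p.A.1 then (RHom.f p.g ⟨.var C, h⟩).1 else w

/-- the extension of `p` to the cone with vertex `s` -/
noncomputable def NS.gam (p : NS z hz G) (s : ℕ) (w : G.M.C) (val : NS z hz G → G.M.C)
    (C : Finset ℕ) : G.M.C :=
  if s ∈ C then (if C = {s} then w else val (p.face (C.erase s))) else p.val0 w C

theorem NS.val0_pos (p : NS z hz G) (w : G.M.C) {C : Finset ℕ}
    (h : C.Nonempty ∧ C ⊆ p.A.1) : p.val0 w C = (RHom.f p.g ⟨.var C, h⟩).1 := dif_pos h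

theorem NS.face_pos (p : NS z hz G) {B : Finset ℕ} (h : B.Nonempty) (h' : B ⊆ p.A.1) :
    p.face B =
      ⟨⟨B, h⟩, (KM z hz).map (homOfLE (show (⟨B, h⟩ : Nm) ≤ p.A from h')) ≫ p.g⟩ :=
  dif_pos ⟨h, h'⟩

theorem NS.face_self (p : NS z hz G) : p.face p.A.1 = p :=
  NS.face_pos p p.A.2 (Finset.Subset.refl _)

theorem NS.face_A (p : NS z hz G) {B : Finset ℕ} (h : B.Nonempty) (h' : B ⊆ p.A.1) :
    (p.face B).A.1 = B := by
  rw [NS.face_pos p h h']

theorem NS.face_le {p q : NS z hz G} (h : p ≤ q) : q.face p.A.1 = p := by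
  obtain ⟨A, f⟩ := p
  obtain ⟨B, g⟩ := q
  obtain ⟨h1, h2⟩ := h
  rw [NS.face_pos _ A.2 h1]
  dsimp only at h1 h2
  subst h2
  rfl

theorem NS.face_face (p : NS z hz G) {B C : Finset ℕ} (hB : B.Nonempty) (hC : C.Nonempty)
    (h : B ⊆ p.A.1) (h' : C ⊆ B) : (p.face B).face C = p.face C := by
  rw [NS.face_pos p hB h, NS.face_pos p hC (h'.trans h)]
  exact NS.face_pos _ hC h'

theorem NS.val0_face (p : NS z hz G) (w : G.M.C) {B C : Finset ℕ} (hB : B.Nonempty)
    (hC : C.Nonempty) (h : B ⊆ p.A.1) (h' : C ⊆ B) : (p.face B).val0 w C = p.val0 w C := by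
  rw [NS.face_pos p hB h]
  unfold NS.val0
  rw [dif_pos ⟨hC, h'⟩, dif_pos ⟨hC, h'.trans h⟩]
  rfl

theorem NS.gam_face (p : NS z hz G) (s : ℕ) (w : G.M.C) (val : NS z hz G → G.M.C)
    {B C : Finset ℕ} (hB : B.Nonempty) (hC : C.Nonempty) (h : B ⊆ p.A.1) (h' : C ⊆ insert s B) :
    (p.face B).gam s w val C = p.gam s w val C := by
  unfold NS.gam
  by_cases hs : s ∈ C
  · rw [if_pos hs, if_pos hs]
    by_cases hCs : C = {s}
    · rw [if_pos hCs, if_pos hCs]
    · rw [if_neg hCs, if_neg hCs]
      congr 1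
      refine NS.face_face p hB ?_ h ?_
      · rw [Finset.nonempty_iff_ne_empty]
        intro he
        apply hCs
        rw [← Finset.insert_erase hs, he]
        rfl
      · intro a ha
        rw [Finset.mem_erase] at ha
        exact (Finset.mem_insert.1 (h' ha.2)).resolve_left ha.1
  · rw [if_neg hs, if_neg hs]
    refine NS.val0_face p w hB hC h fun a ha => ?_
    refine (Finset.mem_insert.1 (h' ha)).resolve_left ?_
    rintro rfl
    exact hs ha

theorem NS.gam_congr (p : NS z hz G) (s : ℕ) (w : G.M.C) {val val' : NS z hz G → G.M.C}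
    (h1 : ∀ q : NS z hz G, q.A.1.card < p.A.1.card → val q = val' q) (h2 : val p = val' p) :
    p.gam s w val = p.gam s w val' := by
  funext C
  unfold NS.gam
  by_cases hs : s ∈ C
  · rw [if_pos hs, if_pos hs]
    by_cases hCs : C = {s}
    · rw [if_pos hCs, if_pos hCs]
    · rw [if_neg hCs, if_neg hCs]
      by_cases hf : (C.erase s).Nonempty ∧ C.erase s ⊆ p.A.1
      · rcases eq_or_ne (C.erase s) p.A.1 with he | he
        · rw [he, NS.face_self]
          exact h2
        · apply h1
          rw [NS.face_A p hf.1 hf.2]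
          exact Finset.card_lt_card (Finset.ssubset_iff_subset_ne.2 ⟨hf.2, he⟩)
      · have : p.face (C.erase s) = p := dif_neg hf
        rw [this]
        exact h2
  · rw [if_neg hs, if_neg hs]

/-- the condition on `val p` -/
def NS.GoodV (s : ℕ) (w : G.M.C) (val : NS z hz G → G.M.C) (p : NS z hz G) : Prop :=
  AsgAt (KC z fun _ => True) G.M (p.gam s w val) (insert s p.A.1 : Finset ℕ)

theorem NS.asg_val0 (p : NS z hz G) (w : G.M.C) (C : Finset ℕ) (hC : C.Nonempty)
    (hCA : C ⊆ p.A.1) : AsgAt (KC z fun B => B ⊆ p.A.1) G.M (p.val0 w) C := by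
  refine CE_asg (X := KC z fun B => B ⊆ p.A.1) (hX := KC_simplex_good hz p.A.1) p.g
    (fun v h => ?_) C ⟨hC, hCA⟩
  exact (NS.val0_pos p w h).symm

theorem NS.gam_asg (p : NS z hz G) {s : ℕ} {w : G.M.C} {val : NS z hz G → G.M.C}
    (hw : G.M.ok w) (hw0 : G.M.dim w = 0) {𝒜 : Finset ℕ → Prop} {C : Finset ℕ}
    (hC : C.Nonempty) (hCA : C ⊆ insert s p.A.1)
    (hg : s ∈ C → C ≠ {s} → (p.face (C.erase s)).GoodV s w val) :
    AsgAt (KC z 𝒜) G.M (p.gam s w val) C := by
  by_cases hs : s ∈ C
  · by_cases hCs : C = {s}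
    · subst hCs
      have h1 : p.gam s w val {s} = w := by
        unfold NS.gam
        rw [if_pos hs, if_pos rfl]
      have h2 : (KC z 𝒜).dim ({s} : Finset ℕ) = 0 := by
        show Finset.card {s} - 1 = 0
        rw [Finset.card_singleton]
      refine ⟨?_, ?_, fun h => ?_⟩
      · rw [h1]
        exact hw
      · rw [h1, h2]
        exact hw0
      · rw [h2] at h
        exact absurd h (lt_irrefl _)
    · have h3 := hg hs hCs
      have hne : (C.erase s).Nonempty := by
        rw [Finset.nonempty_iff_ne_empty]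
        intro he
        apply hCs
        rw [← Finset.insert_erase hs, he]
        rfl
      have hsub : C.erase s ⊆ p.A.1 := by
        intro a ha
        rw [Finset.mem_erase] at ha
        exact (Finset.mem_insert.1 (hCA ha.2)).resolve_left ha.1
      unfold NS.GoodV at h3
      rw [NS.face_A p hne hsub, Finset.insert_erase hs] at h3
      refine CE_congr hz hC (fun C' hC' hCC' => ?_) h3
      refine NS.gam_face p s w val hne hC' hsub ?_
      rw [Finset.insert_erase hs]
      exact hCC'
  · have hsub : C ⊆ p.A.1 := by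
      intro a ha
      refine (Finset.mem_insert.1 (hCA ha)).resolve_left ?_
      rintro rfl
      exact hs ha
    refine CE_congr hz hC (fun C' _ hCC' => ?_) (p.asg_val0 w C hC hsub)
    unfold NS.gam
    rw [if_neg fun h => hs (hCC' h)]

theorem NS.exists_val [S.Strat] (hG : G.Ctr) (s : ℕ) {w : G.M.C}
    (hw : G.M.ok w) (hw0 : G.M.dim w = 0) :
    ∃ val : NS z hz G → G.M.C, ∀ p : NS z hz G, (∀ a ∈ p.A.1, a < s) → p.GoodV s w val := by
  have : Nonempty G.M.C := ⟨w⟩
  refine exists_ranked (I := NS z hz G) (fun p => p.A.1.card) (T := fun _ => G.M.C)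
    (fun p val => (∀ a ∈ p.A.1, a < s) → p.GoodV s w val) ?_ ?_
  · intro p val val' h1 h2 h3 hp
    have h4 := h3 hp
    unfold NS.GoodV at h4 ⊢
    rwa [NS.gam_congr p s w (val := val) (val' := val') h1 h2] at h4
  · intro p val hval
    by_cases hp : ∀ a ∈ p.A.1, a < s
    · have hsA : s ∉ p.A.1 := fun h => lt_irrefl _ (hp s h)
      have hcard : (insert s p.A.1).card = p.A.1.card + 1 := Finset.card_insert_of_notMem hsA
      have hA1 : 0 < p.A.1.card := p.A.2.card_pos
      obtain ⟨hpar, hd⟩ := KC_src_par (z := z) (N := (insert s p.A.1).card)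
        (fun n h2 _ => hz n h2) (𝒜 := fun D => D ⊂ insert s p.A.1) (B := insert s p.A.1)
        (by omega) le_rfl (fun D hD _ => hD)
      rw [dmax_insert hp] at hpar
      have hasg : ∀ C, (KC z fun D => D ⊂ insert s p.A.1).ok C →
          AsgAt (KC z fun D => D ⊂ insert s p.A.1) G.M (p.gam s w val) C := by
        rintro C ⟨hC, hCA⟩
        refine NS.gam_asg p hw hw0 hC hCA.1 fun hs hCs => ?_
        have hne : (C.erase s).Nonempty := by
          rw [Finset.nonempty_iff_ne_empty]
          intro he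
          apply hCs
          rw [← Finset.insert_erase hs, he]
          rfl
        have hsub : C.erase s ⊆ p.A.1 := by
          intro a ha
          rw [Finset.mem_erase] at ha
          exact (Finset.mem_insert.1 (hCA.1 ha.2)).resolve_left ha.1
        have hsne : C.erase s ≠ p.A.1 := by
          intro he
          apply hCA.ne
          rw [← Finset.insert_erase hs, he]
        refine hval _ ?_ ?_
        · show (p.face (C.erase s)).A.1.card < _
          rw [NS.face_A p hne hsub]
          exact Finset.card_lt_card (Finset.ssubset_iff_subset_ne.2 ⟨hsub, hsne⟩)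
        · rw [NS.face_A p hne hsub]
          exact fun a ha => hp a (hsub ha)
      have hpar' := Par.eval' hasg hpar
      obtain ⟨h, h1, h2, h3, h4⟩ := hG.2 _ _ _ hpar' (Nat.lt_succ_self _)
      have hdim := (eval_mapAt hasg _ hpar.1).2.1
      have hval' : ∀ q : NS z hz G, q.A.1.card < p.A.1.card →
          val q = Function.update val p h q := by
        intro q hq
        rw [Function.update_of_ne]
        rintro rfl
        exact lt_irrefl _ hq
      refine ⟨Function.update val p h, fun q hq => (hval' q hq).symm, fun _ => ?_⟩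
      have hne1 : insert s p.A.1 ≠ {s} := by
        intro he
        rw [he, Finset.card_singleton] at hcard
        omega
      have hins : (insert s p.A.1).erase s = p.A.1 := Finset.erase_insert hsA
      have hγ : p.gam s w (Function.update val p h) (insert s p.A.1) = h := by
        unfold NS.gam
        rw [if_pos (Finset.mem_insert_self _ _), if_neg hne1, hins, NS.face_self,
          Function.update_self]
      have hγ' : ∀ C : Finset ℕ, (KC z fun D => D ⊂ insert s p.A.1).ok C →
          p.gam s w val C = p.gam s w (Function.update val p h) C := by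
        rintro C ⟨hC, hCA⟩
        unfold NS.gam
        by_cases hs : s ∈ C
        · rw [if_pos hs, if_pos hs]
          by_cases hCs : C = {s}
          · rw [if_pos hCs, if_pos hCs]
          · rw [if_neg hCs, if_neg hCs]
            have hne : (C.erase s).Nonempty := by
              rw [Finset.nonempty_iff_ne_empty]
              intro he
              apply hCs
              rw [← Finset.insert_erase hs, he]
              rfl
            have hsub : C.erase s ⊆ p.A.1 := by
              intro a ha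
              rw [Finset.mem_erase] at ha
              exact (Finset.mem_insert.1 (hCA.1 ha.2)).resolve_left ha.1
            have hsne : C.erase s ≠ p.A.1 := by
              intro he
              apply hCA.ne
              rw [← Finset.insert_erase hs, he]
            apply hval'
            rw [NS.face_A p hne hsub]
            exact Finset.card_lt_card (Finset.ssubset_iff_subset_ne.2 ⟨hsub, hsne⟩)
        · rw [if_neg hs, if_neg hs]
      unfold NS.GoodV
      refine ⟨?_, ?_, fun _ => ⟨?_, ?_⟩⟩
      · rw [hγ]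
        exact h1
      · rw [hγ]
        show G.M.dim h = (insert s p.A.1).card - 1
        rw [h2, hdim]
        change (KC z fun D => D ⊂ insert s p.A.1).tdim _ + 1 = _
        omega
      · rw [hγ, h3]
        exact eval_congr _ hpar.1 hγ'
      · rw [hγ, h4]
        show G.M.eval (p.gam s w val) (.var p.A.1) =
          p.gam s w (Function.update val p h) (dmax (insert s p.A.1))
        rw [dmax_insert hp]
        exact hγ' p.A.1 hpar.2.1
    · exact ⟨val, fun _ _ => rfl, fun h => absurd h hp⟩

end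

theorem NS.exists_cone [S.Good] [S.Strat] {z : ZFam S} {hz : ZGood z} {G : RMod S}
    (hG : G.Ctr) (s : ℕ) :
    ∃ (v : NS z hz G) (e : NS z hz G → NS z hz G),
      (∀ p : NS z hz G, (∀ a ∈ p.A.1, a < s) → p ≤ e p ∧ v ≤ e p) ∧
      ∀ p q : NS z hz G, (∀ a ∈ p.A.1, a < s) → (∀ a ∈ q.A.1, a < s) → p ≤ q → e p ≤ e q := by
  obtain ⟨w, hw, hw0⟩ := hG.1
  obtain ⟨val, hval⟩ := NS.exists_val (z := z) (hz := hz) hG s hw hw0
  -- the cone on a small simplex
  have hasg : ∀ p : NS z hz G, (∀ a ∈ p.A.1, a < s) → ∀ C,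
      (KC z fun D => D ⊆ insert s p.A.1).ok C →
      AsgAt (KC z fun D => D ⊆ insert s p.A.1) G.M (p.gam s w val) C := by
    rintro p hp C ⟨hC, hCA⟩
    refine NS.gam_asg p hw hw0 hC hCA fun hs hCs => hval _ ?_
    have hne : (C.erase s).Nonempty := by
      rw [Finset.nonempty_iff_ne_empty]
      intro he
      apply hCs
      rw [← Finset.insert_erase hs, he]
      rfl
    have hsub : C.erase s ⊆ p.A.1 := by
      intro a ha
      rw [Finset.mem_erase] at ha
      exact (Finset.mem_insert.1 (hCA ha.2)).resolve_left ha.1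
    rw [NS.face_A p hne hsub]
    exact fun a ha => hp a (hsub ha)
  have hsv : ∀ C : Finset ℕ, (KC z fun D => D ⊆ {s}).ok C → C = ({s} : Finset ℕ) := fun C hC =>
    (Finset.subset_singleton_iff.1 hC.2).resolve_left (Finset.nonempty_iff_ne_empty.1 hC.1)
  have hv : ∀ C : Finset ℕ, (KC z fun D => D ⊆ {s}).ok C →
      AsgAt (KC z fun D => D ⊆ {s}) G.M (fun _ => w) C := by
    intro C hC
    have h0 : (KC z fun D => D ⊆ {s}).dim C = 0 := by
      show Finset.card C - 1 = 0
      rw [hsv C hC, Finset.card_singleton]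
    refine ⟨hw, hw0.trans h0.symm, fun h => ?_⟩
    rw [h0] at h
    exact absurd h (lt_irrefl _)
  let e : NS z hz G → NS z hz G := fun p =>
    if hp : ∀ a ∈ p.A.1, a < s then ⟨⟨insert s p.A.1, Finset.insert_nonempty _ _⟩,
      RMod.freeHom (KC_simplex_good hz (insert s p.A.1)) (M := G) (p.gam s w val) (hasg p hp)⟩
      else p
  have he : ∀ (p : NS z hz G) (hp : ∀ a ∈ p.A.1, a < s),
      e p = ⟨⟨insert s p.A.1, Finset.insert_nonempty _ _⟩,
      RMod.freeHom (KC_simplex_good hz (insert s p.A.1)) (M := G) (p.gam s w val) (hasg p hp)⟩ :=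
    fun p hp => dif_pos hp
  refine ⟨⟨⟨{s}, Finset.singleton_nonempty s⟩,
      RMod.freeHom (KC_simplex_good hz {s}) (M := G) (fun _ => w) hv⟩, e, ?_, ?_⟩
  · intro p hp
    rw [he p hp]
    refine ⟨⟨Finset.subset_insert _ _, ?_⟩, ⟨?_, ?_⟩⟩
    · refine RHom.ext (funext fun t => Subtype.ext ?_)
      have h1 := CE_val (X := KC z fun B => B ⊆ p.A.1) (hX := KC_simplex_good hz p.A.1) p.g
        (φ := p.gam s w val) (fun C hC => ?_) t.1 t.2
      · exact h1
      · have h3 : p.gam s w val C = p.val0 w C :=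
          if_neg fun h => lt_irrefl _ (hp s (hC.2 h))
        exact ((NS.val0_pos p w hC).symm.trans h3.symm)
    · exact Finset.singleton_subset_iff.2 (Finset.mem_insert_self _ _)
    · refine RHom.ext (funext fun t => Subtype.ext ?_)
      refine eval_congr (X := KC z fun D => D ⊆ {s}) t.1 t.2 fun C hC => ?_
      have h2 := hsv C hC
      unfold NS.gam
      rw [if_pos (by rw [h2]; exact Finset.mem_singleton_self _), if_pos h2]
  · intro p q hp hq hpq
    have h1 := NS.face_le hpq
    have hsub : p.A.1 ⊆ q.A.1 := hpq.1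
    rw [he p hp, he q hq]
    refine ⟨Finset.insert_subset_insert s hsub, ?_⟩
    refine RHom.ext (funext fun t => Subtype.ext ?_)
    refine eval_congr (X := KC z fun D => D ⊆ insert s p.A.1) t.1 t.2 fun C hC => ?_
    have h2 := NS.gam_face q s w val p.A.2 hC.1 hsub hC.2
    rw [h1] at h2
    exact h2

end HH
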