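import Pool.Agent.HH.Trans0
import Pool.Agent.HH.Cyl0UP
import Pool.Agent.HH.PullF
import Pool.Agent.HH.DiskOp
import Pool.Agent.HH.Rank

/-!
# HH 2b CONST: the cylinder from the constant cells to the identity of a disk

`cst κt i n` is the iterated unit of dimension `n` of the `0`-source of the disk, with units the terms `κt n`. It is a
cell of dimension `n` of the model of terms over the disk, with source and target `cst κt i (n - 1)`.
`exists_const`: the cell `cs` at `q` is parallel to `.var q` and the disk is contractible (`hdisk`), which gives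
`e q : cs → .var q`.
-/

set_option autoImplicit false

namespace HH

open Classical CategoryTheory

variable {E : Sig}

/-- The iterated units of the `0`-source of the disk of dimension `i`. -/
noncomputable def cst (κt : ℕ → E.T D) (i : ℕ) : ℕ → E.T D
  | 0 => .var (0, false)
  | n + 1 => atCell (ofGlob E (diskG i)).m (κt n) (cst κt i n)

/-- unit terms -/
structure KGood (κt : ℕ → E.T D) : Prop where
  ok : ∀ n, (ofGlob E (diskG n)).tok (κt n)
  dim : ∀ n, (ofGlob E (diskG n)).tdim (κt n) = n + 1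
  src : ∀ n, (ofGlob E (diskG n)).tsrc (κt n) = .var (n, false)
  tgt : ∀ n, (ofGlob E (diskG n)).ttgt (κt n) = .var (n, false)

theorem cst_spec [E.Good] {κt : ℕ → E.T D} (hκ : KGood κt) (i : ℕ) (n : ℕ) :
    (ofGlob E (diskG i)).tok (cst κt i n) ∧ (ofGlob E (diskG i)).tdim (cst κt i n) = n ∧
      (0 < n → (ofGlob E (diskG i)).tsrc (cst κt i n) = cst κt i (n - 1) ∧
        (ofGlob E (diskG i)).ttgt (cst κt i n) = cst κt i (n - 1)) := by
  induction n with
  | zero =>
    refine ⟨?_, rfl, fun h => absurd h (lt_irrefl 0)⟩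
    show 0 < i ∨ (0 = i ∧ false = false)
    rcases Nat.eq_zero_or_pos i with h | h
    · exact Or.inr ⟨h.symm, rfl⟩
    · exact Or.inl h
  | succ n ih =>
    obtain ⟨h1, h2, -⟩ := ih
    obtain ⟨a1, a2, a3⟩ := atCell_mapAt (M := (ofGlob E (diskG i)).m) h1 h2 (hκ.ok n)
    obtain ⟨a4, a5⟩ := a3 (by
      show 0 < (ofGlob E (diskG n)).tdim (κt n)
      rw [hκ.dim n]
      exact Nat.succ_pos n)
    have hb : (ofGlob E (diskG i)).m.toGlob.bd (cst κt i n) (n, false) = cst κt i n :=
      bd_of_le _ _ (le_of_eq h2)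
    refine ⟨a1, a2.trans (hκ.dim n), fun _ => ⟨?_, ?_⟩⟩
    · exact a4.trans ((congrArg _ (hκ.src n)).trans hb)
    · exact a5.trans ((congrArg _ (hκ.tgt n)).trans hb)

theorem cst_mapAt [E.Good] {κt : ℕ → E.T D} (hκ : KGood κt) (i : ℕ) (q : D)
    (hq : (diskG i).ok q) :
    MapAt (diskG i) (ofGlob E (diskG i)).m.toGlob (fun q => cst κt i q.1) q := by
  obtain ⟨h1, h2, h3⟩ := cst_spec hκ i q.1
  exact ⟨h1, h2, fun h0 => h3 h0⟩

theorem exists_const [E.Good] {d : L0 E} (hd : d.Good)
    (hdisk : ∀ j L, (ofGlob E (diskG j)).MContr L) {κt : ℕ → E.T D} (hκ : KGood κt) (i : ℕ) :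
    ∃ e : D → E.T D, IsCyl0 d.x (diskG i) (ofGlob E (diskG i)).m (fun q => cst κt i q.1)
      (fun q => .var q) e := by
  have hα : ∀ q, (diskG i).ok q →
      MapAt (diskG i) (ofGlob E (diskG i)).m.toGlob (fun q => cst κt i q.1) q := cst_mapAt hκ i
  have hβ : ∀ q, (diskG i).ok q →
      MapAt (diskG i) (ofGlob E (diskG i)).m.toGlob (fun q => (.var q : E.T D)) q :=
    fun q hq => ⟨hq, rfl, fun _ => ⟨rfl, rfl⟩⟩
  haveI : Nonempty (E.T D) := ⟨.var (0, false)⟩
  suffices H : ∃ e : D → E.T D, ∀ q, (diskG i).ok q →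
      CylAt (ofGlob E (diskG i)).m d.x (diskG i) (fun q => cst κt i q.1)
        (fun q => .var q) e q by
    obtain ⟨e, he⟩ := H
    exact ⟨e, hα, hβ, he⟩
  refine exists_ranked (I := D) (fun q => q.1) (T := fun _ => E.T D)
    (fun q e => (diskG i).ok q → CylAt (ofGlob E (diskG i)).m d.x (diskG i)
      (fun q => cst κt i q.1) (fun q => .var q) e q) ?_ ?_
  · intro q e e' h1 h2 h3 hq
    obtain ⟨a1, a2, a3, a4⟩ := h3 hq
    refine ⟨h2 ▸ a1, h2 ▸ a2, ?_, h2 ▸ a4⟩
    rw [← h2]
    refine a3.trans ?_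
    refine cs_congr (N := 0) (W := diskG i) (p := q) (hd.hx q.1).1 (fun _ _ => rfl)
      (fun _ _ _ => rfl) ?_
    intro r _ hr
    have hr' : r.1 < q.1 := hr
    refine h1 _ ?_
    rw [diskG_bd, show bdD q r = r from if_pos hr']
    exact hr'
  · intro q e hlow
    by_cases hq : (diskG i).ok q
    swap
    · exact ⟨e, fun _ _ => rfl, fun h => absurd h hq⟩
    have hqi : q.1 ≤ i := by
      have : q.1 < i ∨ (q.1 = i ∧ q.2 = false) := hq
      omega
    obtain ⟨b1, b2, b3⟩ := Cyl0UP_cs (W := diskG i) (M := (ofGlob E (diskG i)).m) (e := e)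
      (α := fun q => cst κt i q.1) (β := fun q => .var q) hd.hx hq
      (fun r hr => hα _ (ok_bd hq r)) (fun r hr => hβ _ (ok_bd hq r))
      (fun r hr => by
        have hr' : r.1 < q.1 := hr
        refine hlow _ ?_ (ok_bd hq r)
        rw [diskG_bd, show bdD q r = r from if_pos hr']
        exact hr')
    have hpar : (ofGlob E (diskG i)).Par (cs (ofGlob E (diskG i)).m d.x (diskG i)
        (fun q => cst κt i q.1) (fun q => .var q) e q) (.var q) := by
      obtain ⟨c1, c2, c3⟩ := hβ q hq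
      refine ⟨b1, c1, b2.trans c2.symm, fun h0 => ?_⟩
      have h0' : 0 < (diskG i).dim q := lt_of_lt_of_eq h0 b2
      obtain ⟨b4, b5⟩ := b3 h0'
      obtain ⟨c4, c5⟩ := c3 h0'
      exact ⟨b4.trans c4.symm, b5.trans c5.symm⟩
    obtain ⟨c, c1, c2, c3, c4⟩ := hdisk i _ _ _ hpar (Nat.lt_succ_self _)
    have hupd : ∀ r : D, r.1 < q.1 → Function.update e q c r = e r := by
      intro r hr
      refine Function.update_of_ne (fun h => ?_) _ _
      rw [h] at hr
      exact lt_irrefl _ hr
    refine ⟨Function.update e q c, hupd, fun _ => ?_⟩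
    have e0 : Function.update e q c q = c := Function.update_self q c e
    refine ⟨?_, ?_, ?_, ?_⟩
    · rw [e0]
      exact c1
    · rw [e0]
      exact c2.trans (congrArg (· + 1) b2)
    · rw [e0]
      refine c3.trans ?_
      refine cs_congr (N := 0) (W := diskG i) (p := q) (hd.hx q.1).1 (fun _ _ => rfl)
        (fun _ _ _ => rfl) ?_
      intro r _ hr
      have hr' : r.1 < q.1 := hr
      refine (hupd _ ?_).symm
      rw [diskG_bd, show bdD q r = r from if_pos hr']
      exact hr'
    · rw [e0]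
      exact c4

end HH
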