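import Mathlib

/-!
# HH: core definitions (project for MP_c72943_al)

Raw (untyped) syntax with well-formedness predicates.  Everything that exists is a total function
on raw data; the predicates `ok` / `tok` / `kok` single out the genuine cells / terms / operations.
-/

set_option autoImplicit false

namespace HH

/-- A raw globular set: cells `C` with dimension, source and target, and a predicate `ok` singling
out the genuine cells (the others are junk). -/
structure Glob where
  C : Type
  dim : C → ℕ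
  src : C → C
  tgt : C → C
  ok : C → Prop

/-- The globular identities, for the genuine cells. -/
class Glob.Laws (G : Glob) : Prop where
  ok_src : ∀ x, G.ok x → 0 < G.dim x → G.ok (G.src x)
  ok_tgt : ∀ x, G.ok x → 0 < G.dim x → G.ok (G.tgt x)
  dim_src : ∀ x, G.ok x → 0 < G.dim x → G.dim (G.src x) + 1 = G.dim x
  dim_tgt : ∀ x, G.ok x → 0 < G.dim x → G.dim (G.tgt x) + 1 = G.dim x
  src_tgt : ∀ x, G.ok x → 1 < G.dim x → G.src (G.tgt x) = G.src (G.src x)
  tgt_src : ∀ x, G.ok x → 1 < G.dim x → G.tgt (G.src x) = G.tgt (G.tgt x)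

namespace Glob

/-- Parallel genuine cells. -/
def Par (G : Glob) (x y : G.C) : Prop :=
  G.ok x ∧ G.ok y ∧ G.dim x = G.dim y ∧ (0 < G.dim x → G.src x = G.src y ∧ G.tgt x = G.tgt y)

/-- There is a genuine cell from `x` to `y`. -/
def Conn (G : Glob) (x y : G.C) : Prop :=
  ∃ h, G.ok h ∧ G.dim h = G.dim x + 1 ∧ G.src h = x ∧ G.tgt h = y

/-- Parallel cells of dimension `< L` are connected. -/
def MContr (G : Glob) (L : ℕ) : Prop :=
  ∀ x y, G.Par x y → G.dim x < L → G.Conn x y

/-- Iterated boundary: `G.bd x (i, false)` is the iterated source of dimension `i` of `x`,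
`G.bd x (i, true)` the iterated target (for `i ≤ dim x`; for `i = dim x` it is `x`). -/
def bd (G : Glob) (x : G.C) (q : ℕ × Bool) : G.C :=
  (if q.2 then G.tgt else G.src)^[G.dim x - q.1] x

end Glob

/-- `f` behaves like a morphism of globular sets at the cell `x`. -/
def MapAt (G H : Glob) (f : G.C → H.C) (x : G.C) : Prop :=
  H.ok (f x) ∧ H.dim (f x) = G.dim x ∧
    (0 < G.dim x → H.src (f x) = f (G.src x) ∧ H.tgt (f x) = f (G.tgt x))

/-- `f` is a morphism of globular sets on genuine cells of dimension `< L`. -/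
def IsMap (L : ℕ) (G H : Glob) (f : G.C → H.C) : Prop :=
  ∀ x, G.ok x → G.dim x < L → MapAt G H f x

/-- Raw terms with operation symbols `K`, the operation `k` having argument positions `P k`. -/
inductive Tm (K : Type) (P : K → Type) (V : Type) : Type
  | var : V → Tm K P V
  | op : (k : K) → (P k → Tm K P V) → Tm K P V

namespace Tm

variable {K : Type} {P : K → Type} {V W C : Type}

/-- Evaluation of a raw term. -/
def fold (o : (k : K) → (P k → C) → C) (γ : V → C) : Tm K P V → C
  | var v => γ v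
  | op k δ => o k (fun p => fold o γ (δ p))

@[simp] theorem fold_var (o : (k : K) → (P k → C) → C) (γ : V → C) (v : V) :
    fold o γ (var v) = γ v := rfl

@[simp] theorem fold_op (o : (k : K) → (P k → C) → C) (γ : V → C) (k : K) (δ : P k → Tm K P V) :
    fold o γ (op k δ) = o k (fun p => fold o γ (δ p)) := rfl

/-- Substitution. -/
def bind (t : Tm K P V) (γ : V → Tm K P W) : Tm K P W := fold op γ t

/-- Renaming of variables. -/
def map (t : Tm K P V) (f : V → W) : Tm K P W := t.bind (fun v => var (f v))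

@[simp] theorem bind_var (γ : V → Tm K P W) (v : V) : (var v : Tm K P V).bind γ = γ v := rfl

@[simp] theorem bind_op (γ : V → Tm K P W) (k : K) (δ : P k → Tm K P V) :
    (op k δ).bind γ = op k (fun p => (δ p).bind γ) := rfl

@[simp] theorem map_var (f : V → W) (v : V) : (var v : Tm K P V).map f = var (f v) := rfl

@[simp] theorem map_op (f : V → W) (k : K) (δ : P k → Tm K P V) :
    (op k δ).map f = op k (fun p => (δ p).map f) := rfl

theorem fold_bind (o : (k : K) → (P k → C) → C) (γ : W → C) (σ : V → Tm K P W) (t : Tm K P V) :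
    fold o γ (t.bind σ) = fold o (fun v => fold o γ (σ v)) t := by
  induction t with
  | var v => rfl
  | op k δ ih =>
    simp only [bind_op, fold_op]
    congr 1
    funext p
    exact ih p

theorem fold_map (o : (k : K) → (P k → C) → C) (γ : W → C) (f : V → W) (t : Tm K P V) :
    fold o γ (t.map f) = fold o (fun v => γ (f v)) t := by
  unfold map
  rw [fold_bind]
  rfl

theorem bind_bind {U : Type} (t : Tm K P V) (σ : V → Tm K P W) (τ : W → Tm K P U) :
    (t.bind σ).bind τ = t.bind (fun v => (σ v).bind τ) :=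
  fold_bind op τ σ t

theorem map_bind {U : Type} (t : Tm K P V) (f : V → W) (τ : W → Tm K P U) :
    (t.map f).bind τ = t.bind (fun v => τ (f v)) :=
  fold_map op τ f t

@[simp] theorem bind_var_self (t : Tm K P V) : t.bind var = t := by
  induction t with
  | var v => rfl
  | op k δ ih =>
    simp only [bind_op]
    congr 1
    funext p
    exact ih p

end Tm

/-- A raw signature: operation symbols (genuine ones singled out by `kok`), their arities
(globular sets of positions), dimensions, and their source and target, which are terms over the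
positions of the arity. -/
structure Sig where
  K : Type
  kok : K → Prop
  ar : K → Glob
  dm : K → ℕ
  bs : (k : K) → Tm K (fun k => (ar k).C) (ar k).C
  bt : (k : K) → Tm K (fun k => (ar k).C) (ar k).C

/-- Raw terms of the signature `S` with variables in `V`. -/
abbrev Sig.T (S : Sig) (V : Type) : Type := Tm S.K (fun k => (S.ar k).C) V

/-- A raw model: a raw globular set with operations. -/
structure Model (S : Sig) extends Glob where
  o : (k : S.K) → ((S.ar k).C → C) → C

/-- Evaluation of terms in a model. -/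
def Model.eval {S : Sig} (M : Model S) {V : Type} (γ : V → M.C) (t : S.T V) : M.C :=
  t.fold M.o γ

/-- A raw computad: variables with a dimension and boundary terms over the same variables. -/
structure Cptd (S : Sig) where
  V : Type
  ok : V → Prop
  dim : V → ℕ
  src : V → S.T V
  tgt : V → S.T V

namespace Cptd

variable {S : Sig} (X : Cptd S)

/-- dimension of a term over a computad -/
def tdim : S.T X.V → ℕ
  | .var v => X.dim v
  | .op k _ => S.dm k

/-- source of a term over a computad -/
def tsrc : S.T X.V → S.T X.V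
  | .var v => X.src v
  | .op k γ => (S.bs k).bind γ

/-- target of a term over a computad -/
def ttgt : S.T X.V → S.T X.V
  | .var v => X.tgt v
  | .op k γ => (S.bt k).bind γ

/-- well-formed terms over a computad -/
def tok : S.T X.V → Prop
  | .var v => X.ok v
  | .op k γ => S.kok k ∧ ∀ p, tok (γ p) ∧ X.tdim (γ p) = (S.ar k).dim p ∧
      (0 < (S.ar k).dim p → X.tsrc (γ p) = γ ((S.ar k).src p) ∧ X.ttgt (γ p) = γ ((S.ar k).tgt p))

/-- The model of terms over a computad. -/
def m : Model S where
  C := S.T X.V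
  dim := X.tdim
  src := X.tsrc
  tgt := X.ttgt
  ok := X.tok
  o := Tm.op

end Cptd

/-- The computad of a globular set. -/
def ofGlob (S : Sig) (G : Glob) : Cptd S where
  V := G.C
  ok := G.ok
  dim := G.dim
  src := fun v => .var (G.src v)
  tgt := fun v => .var (G.tgt v)

/-- The laws of a signature. -/
class Sig.Good (S : Sig) : Prop where
  ar_ne : ∀ k, Nonempty (S.ar k).C
  ar_laws : ∀ k, S.kok k → (S.ar k).Laws
  full : ∀ k, S.kok k → ∀ p, (S.ar k).ok p
  dm_pos : ∀ k, S.kok k → 0 < S.dm k
  ok_bs : ∀ k, S.kok k → (ofGlob S (S.ar k)).tok (S.bs k)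
  ok_bt : ∀ k, S.kok k → (ofGlob S (S.ar k)).tok (S.bt k)
  dim_bs : ∀ k, S.kok k → (ofGlob S (S.ar k)).tdim (S.bs k) + 1 = S.dm k
  dim_bt : ∀ k, S.kok k → (ofGlob S (S.ar k)).tdim (S.bt k) + 1 = S.dm k
  src_bt : ∀ k, S.kok k → 1 < S.dm k →
    (ofGlob S (S.ar k)).tsrc (S.bt k) = (ofGlob S (S.ar k)).tsrc (S.bs k)
  tgt_bs : ∀ k, S.kok k → 1 < S.dm k →
    (ofGlob S (S.ar k)).ttgt (S.bs k) = (ofGlob S (S.ar k)).ttgt (S.bt k)

/-- The arities of an operation have dimension at most the dimension of the operation. -/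
class Sig.Strat (S : Sig) : Prop where
  le : ∀ k, S.kok k → ∀ p, (S.ar k).dim p ≤ S.dm k

/-- The laws of a computad. -/
class Cptd.Good {S : Sig} (X : Cptd S) : Prop where
  ok_src : ∀ v, X.ok v → 0 < X.dim v → X.tok (X.src v)
  ok_tgt : ∀ v, X.ok v → 0 < X.dim v → X.tok (X.tgt v)
  dim_src : ∀ v, X.ok v → 0 < X.dim v → X.tdim (X.src v) + 1 = X.dim v
  dim_tgt : ∀ v, X.ok v → 0 < X.dim v → X.tdim (X.tgt v) + 1 = X.dim v
  src_tgt : ∀ v, X.ok v → 1 < X.dim v → X.tsrc (X.tgt v) = X.tsrc (X.src v)
  tgt_src : ∀ v, X.ok v → 1 < X.dim v → X.ttgt (X.src v) = X.ttgt (X.tgt v)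

/-- The operations of a model have the right boundaries. -/
class Model.OpLaws {S : Sig} (M : Model S) : Prop where
  o_ok : ∀ k γ, S.kok k → (∀ p, MapAt (S.ar k) M.toGlob γ p) → M.ok (M.o k γ)
  o_dim : ∀ k γ, S.kok k → (∀ p, MapAt (S.ar k) M.toGlob γ p) → M.dim (M.o k γ) = S.dm k
  o_src : ∀ k γ, S.kok k → (∀ p, MapAt (S.ar k) M.toGlob γ p) →
    M.src (M.o k γ) = M.eval γ (S.bs k)
  o_tgt : ∀ k γ, S.kok k → (∀ p, MapAt (S.ar k) M.toGlob γ p) →
    M.tgt (M.o k γ) = M.eval γ (S.bt k)

/-- `γ` behaves like a substitution at the variable `v`. -/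
def AsgAt {S : Sig} (X : Cptd S) (M : Model S) (γ : X.V → M.C) (v : X.V) : Prop :=
  M.ok (γ v) ∧ M.dim (γ v) = X.dim v ∧
    (0 < X.dim v → M.src (γ v) = M.eval γ (X.src v) ∧ M.tgt (γ v) = M.eval γ (X.tgt v))

/-- `γ` is a well-typed substitution on the variables of dimension `< L`. -/
def IsAsg {S : Sig} (L : ℕ) (X : Cptd S) (M : Model S) (γ : X.V → M.C) : Prop :=
  ∀ v, X.ok v → X.dim v < L → AsgAt X M γ v

/-! ### Basic lemmas -/

section Basic

variable {S : Sig}

@[simp] theorem eval_var (M : Model S) {V : Type} (γ : V → M.C) (v : V) :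
    M.eval γ (.var v) = γ v := rfl

@[simp] theorem eval_op (M : Model S) {V : Type} (γ : V → M.C) (k : S.K)
    (δ : (S.ar k).C → S.T V) : M.eval γ (.op k δ) = M.o k (fun p => M.eval γ (δ p)) := rfl

theorem eval_bind (M : Model S) {V W : Type} (γ : W → M.C) (σ : V → S.T W) (t : S.T V) :
    M.eval γ (t.bind σ) = M.eval (fun v => M.eval γ (σ v)) t :=
  Tm.fold_bind M.o γ σ t

theorem eval_map (M : Model S) {V W : Type} (γ : W → M.C) (f : V → W) (t : S.T V) :
    M.eval γ (t.map f) = M.eval (fun v => γ (f v)) t :=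
  Tm.fold_map M.o γ f t

/-- evaluation in the model of terms is substitution -/
theorem m_eval (X : Cptd S) {V : Type} (γ : V → S.T X.V) (t : S.T V) :
    X.m.eval γ t = t.bind γ := rfl

@[simp] theorem tdim_var (X : Cptd S) (v : X.V) : X.tdim (.var v) = X.dim v := rfl
@[simp] theorem tsrc_var (X : Cptd S) (v : X.V) : X.tsrc (.var v) = X.src v := rfl
@[simp] theorem ttgt_var (X : Cptd S) (v : X.V) : X.ttgt (.var v) = X.tgt v := rfl
@[simp] theorem tok_var (X : Cptd S) (v : X.V) : X.tok (.var v) = X.ok v := rfl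
@[simp] theorem tdim_op (X : Cptd S) (k : S.K) (γ : (S.ar k).C → S.T X.V) :
    X.tdim (.op k γ) = S.dm k := rfl
@[simp] theorem tsrc_op (X : Cptd S) (k : S.K) (γ : (S.ar k).C → S.T X.V) :
    X.tsrc (.op k γ) = (S.bs k).bind γ := rfl
@[simp] theorem ttgt_op (X : Cptd S) (k : S.K) (γ : (S.ar k).C → S.T X.V) :
    X.ttgt (.op k γ) = (S.bt k).bind γ := rfl

theorem tok_op (X : Cptd S) (k : S.K) (γ : (S.ar k).C → S.T X.V) :
    X.tok (.op k γ) ↔ S.kok k ∧ ∀ p, MapAt (S.ar k) X.m.toGlob γ p := Iff.rfl

@[simp] theorem m_dim (X : Cptd S) (t : S.T X.V) : X.m.dim t = X.tdim t := rfl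
@[simp] theorem m_src (X : Cptd S) (t : S.T X.V) : X.m.src t = X.tsrc t := rfl
@[simp] theorem m_tgt (X : Cptd S) (t : S.T X.V) : X.m.tgt t = X.ttgt t := rfl
@[simp] theorem m_ok (X : Cptd S) (t : S.T X.V) : X.m.ok t = X.tok t := rfl
@[simp] theorem m_o (X : Cptd S) (k : S.K) (γ : (S.ar k).C → S.T X.V) : X.m.o k γ = .op k γ := rfl

instance (X : Cptd S) : X.m.OpLaws where
  o_ok := fun _ _ hk h => ⟨hk, h⟩
  o_dim := fun _ _ _ _ => rfl
  o_src := fun _ _ _ _ => rfl
  o_tgt := fun _ _ _ _ => rfl

/-- A substitution which is well typed on all variables is well typed on all terms. -/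
theorem eval_mapAt {X : Cptd S} {M : Model S} [M.OpLaws] {γ : X.V → M.C}
    (h : ∀ v, X.ok v → AsgAt X M γ v) (t : S.T X.V) (ht : X.tok t) :
    MapAt X.m.toGlob M.toGlob (M.eval γ) t := by
  induction t with
  | var v => exact h v ht
  | op k δ ih =>
    obtain ⟨hk, hδ⟩ := ht
    have key : ∀ p, MapAt (S.ar k) M.toGlob (fun p => M.eval γ (δ p)) p := by
      intro p
      obtain ⟨h1, h2, h3⟩ := hδ p
      obtain ⟨i1, i2, i3⟩ := ih p h1
      refine ⟨i1, i2.trans h2, fun hp => ?_⟩
      obtain ⟨j1, j2⟩ := h3 hp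
      have hp' : 0 < X.tdim (δ p) := by rw [h2]; exact hp
      obtain ⟨k1, k2⟩ := i3 hp'
      exact ⟨k1.trans (congrArg (M.eval γ) j1), k2.trans (congrArg (M.eval γ) j2)⟩
    refine ⟨Model.OpLaws.o_ok k _ hk key, Model.OpLaws.o_dim k _ hk key, fun _ => ⟨?_, ?_⟩⟩
    · exact (Model.OpLaws.o_src k _ hk key).trans (eval_bind M γ δ (S.bs k)).symm
    · exact (Model.OpLaws.o_tgt k _ hk key).trans (eval_bind M γ δ (S.bt k)).symm

/-- Bounded version, for stratified signatures. -/
theorem eval_isMap [S.Strat] {L : ℕ} {X : Cptd S} {M : Model S} [M.OpLaws] {γ : X.V → M.C}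
    (h : IsAsg L X M γ) : IsMap L X.m.toGlob M.toGlob (M.eval γ) := by
  intro t ht hL
  induction t with
  | var v => exact h v ht hL
  | op k δ ih =>
    obtain ⟨hk, hδ⟩ := ht
    have key : ∀ p, MapAt (S.ar k) M.toGlob (fun p => M.eval γ (δ p)) p := by
      intro p
      obtain ⟨h1, h2, h3⟩ := hδ p
      have hlt : X.tdim (δ p) < L := by
        rw [h2]
        exact lt_of_le_of_lt (Sig.Strat.le k hk p) hL
      obtain ⟨i1, i2, i3⟩ := ih p h1 hlt
      refine ⟨i1, i2.trans h2, fun hp => ?_⟩
      obtain ⟨j1, j2⟩ := h3 hp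
      have hp' : 0 < X.tdim (δ p) := by rw [h2]; exact hp
      obtain ⟨k1, k2⟩ := i3 hp'
      exact ⟨k1.trans (congrArg (M.eval γ) j1), k2.trans (congrArg (M.eval γ) j2)⟩
    refine ⟨Model.OpLaws.o_ok k _ hk key, Model.OpLaws.o_dim k _ hk key, fun _ => ⟨?_, ?_⟩⟩
    · exact (Model.OpLaws.o_src k _ hk key).trans (eval_bind M γ δ (S.bs k)).symm
    · exact (Model.OpLaws.o_tgt k _ hk key).trans (eval_bind M γ δ (S.bt k)).symm

/-- Evaluation only depends on the values at genuine variables. -/
theorem eval_congr {X : Cptd S} {M : Model S} {γ γ' : X.V → M.C} (t : S.T X.V) (ht : X.tok t)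
    (h : ∀ v, X.ok v → γ v = γ' v) : M.eval γ t = M.eval γ' t := by
  induction t with
  | var v => exact h v ht
  | op k δ ih =>
    simp only [eval_op]
    congr 1
    funext p
    exact ih p (ht.2 p).1

/-- Bounded version: a term of dimension `< L` only contains variables of dimension `< L`. -/
theorem eval_congr_lt [S.Strat] {L : ℕ} {X : Cptd S} {M : Model S} {γ γ' : X.V → M.C}
    (t : S.T X.V) (ht : X.tok t) (hL : X.tdim t < L)
    (h : ∀ v, X.ok v → X.dim v < L → γ v = γ' v) : M.eval γ t = M.eval γ' t := by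
  induction t with
  | var v => exact h v ht hL
  | op k δ ih =>
    simp only [eval_op]
    congr 1
    funext p
    refine ih p (ht.2 p).1 ?_
    rw [(ht.2 p).2.1]
    exact lt_of_le_of_lt (Sig.Strat.le k ht.1 p) hL

theorem bind_congr {X : Cptd S} {W : Type} {γ γ' : X.V → S.T W} (t : S.T X.V) (ht : X.tok t)
    (h : ∀ v, X.ok v → γ v = γ' v) : t.bind γ = t.bind γ' := by
  induction t with
  | var v => exact h v ht
  | op k δ ih =>
    simp only [Tm.bind_op]
    congr 1
    funext p
    exact ih p (ht.2 p).1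

theorem bind_congr_lt [S.Strat] {L : ℕ} {X : Cptd S} {W : Type} {γ γ' : X.V → S.T W}
    (t : S.T X.V) (ht : X.tok t) (hL : X.tdim t < L)
    (h : ∀ v, X.ok v → X.dim v < L → γ v = γ' v) : t.bind γ = t.bind γ' := by
  induction t with
  | var v => exact h v ht hL
  | op k δ ih =>
    simp only [Tm.bind_op]
    congr 1
    funext p
    refine ih p (ht.2 p).1 ?_
    rw [(ht.2 p).2.1]
    exact lt_of_le_of_lt (Sig.Strat.le k ht.1 p) hL

/-- The computad of a globular set is good. -/
instance ofGlob_good (G : Glob) [hG : G.Laws] : (ofGlob S G).Good where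
  ok_src := fun v h h0 => hG.ok_src v h h0
  ok_tgt := fun v h h0 => hG.ok_tgt v h h0
  dim_src := fun v h h0 => hG.dim_src v h h0
  dim_tgt := fun v h h0 => hG.dim_tgt v h h0
  src_tgt := fun v h h1 => congrArg Tm.var (hG.src_tgt v h h1)
  tgt_src := fun v h h1 => congrArg Tm.var (hG.tgt_src v h h1)

/-- a map from the positions of a globular set is a substitution from its computad -/
theorem asgAt_ofGlob {G : Glob} {M : Model S} {γ : G.C → M.C} {p : G.C}
    (h : MapAt G M.toGlob γ p) : AsgAt (ofGlob S G) M γ p := h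

/-- The terms over a good computad form a globular set. -/
instance m_laws [hS : S.Good] (X : Cptd S) [hX : X.Good] : X.m.toGlob.Laws where
  ok_src := by
    intro t ht h0
    cases t with
    | var v => exact hX.ok_src v ht h0
    | op k γ =>
      exact (eval_mapAt (X := ofGlob S (S.ar k)) (M := X.m) (γ := γ) (fun p _ => ht.2 p)
        (S.bs k) (hS.ok_bs k ht.1)).1
  ok_tgt := by
    intro t ht h0
    cases t with
    | var v => exact hX.ok_tgt v ht h0
    | op k γ =>
      exact (eval_mapAt (X := ofGlob S (S.ar k)) (M := X.m) (γ := γ) (fun p _ => ht.2 p)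
        (S.bt k) (hS.ok_bt k ht.1)).1
  dim_src := by
    intro t ht h0
    cases t with
    | var v => exact hX.dim_src v ht h0
    | op k γ =>
      have h := (eval_mapAt (X := ofGlob S (S.ar k)) (M := X.m) (γ := γ) (fun p _ => ht.2 p)
        (S.bs k) (hS.ok_bs k ht.1)).2.1
      have h2 := hS.dim_bs k ht.1
      calc X.tdim ((S.bs k).bind γ) + 1 = (ofGlob S (S.ar k)).tdim (S.bs k) + 1 :=
            congrArg (· + 1) h
        _ = S.dm k := h2
  dim_tgt := by
    intro t ht h0
    cases t with
    | var v => exact hX.dim_tgt v ht h0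
    | op k γ =>
      have h := (eval_mapAt (X := ofGlob S (S.ar k)) (M := X.m) (γ := γ) (fun p _ => ht.2 p)
        (S.bt k) (hS.ok_bt k ht.1)).2.1
      have h2 := hS.dim_bt k ht.1
      calc X.tdim ((S.bt k).bind γ) + 1 = (ofGlob S (S.ar k)).tdim (S.bt k) + 1 :=
            congrArg (· + 1) h
        _ = S.dm k := h2
  src_tgt := by
    intro t ht h1
    cases t with
    | var v => exact hX.src_tgt v ht h1
    | op k γ =>
      have hd : 0 < (ofGlob S (S.ar k)).tdim (S.bt k) := by
        have := hS.dim_bt k ht.1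
        have h1' : 1 < S.dm k := h1
        omega
      have hd' : 0 < (ofGlob S (S.ar k)).tdim (S.bs k) := by
        have := hS.dim_bs k ht.1
        have h1' : 1 < S.dm k := h1
        omega
      have ha := ((eval_mapAt (X := ofGlob S (S.ar k)) (M := X.m) (γ := γ) (fun p _ => ht.2 p)
        (S.bt k) (hS.ok_bt k ht.1)).2.2 hd).1
      have hb := ((eval_mapAt (X := ofGlob S (S.ar k)) (M := X.m) (γ := γ) (fun p _ => ht.2 p)
        (S.bs k) (hS.ok_bs k ht.1)).2.2 hd').1
      have hc := hS.src_bt k ht.1 h1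
      exact ha.trans ((congrArg (X.m.eval γ) hc).trans hb.symm)
  tgt_src := by
    intro t ht h1
    cases t with
    | var v => exact hX.tgt_src v ht h1
    | op k γ =>
      have hd : 0 < (ofGlob S (S.ar k)).tdim (S.bt k) := by
        have := hS.dim_bt k ht.1
        have h1' : 1 < S.dm k := h1
        omega
      have hd' : 0 < (ofGlob S (S.ar k)).tdim (S.bs k) := by
        have := hS.dim_bs k ht.1
        have h1' : 1 < S.dm k := h1
        omega
      have ha := ((eval_mapAt (X := ofGlob S (S.ar k)) (M := X.m) (γ := γ) (fun p _ => ht.2 p)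
        (S.bs k) (hS.ok_bs k ht.1)).2.2 hd').2
      have hb := ((eval_mapAt (X := ofGlob S (S.ar k)) (M := X.m) (γ := γ) (fun p _ => ht.2 p)
        (S.bt k) (hS.ok_bt k ht.1)).2.2 hd).2
      have hc := hS.tgt_bs k ht.1 h1
      exact ha.trans ((congrArg (X.m.eval γ) hc).trans hb.symm)

end Basic

end HH
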