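import Pool.Agent.HH.Hom
import Pool.Agent.HH.L0Ex
import Pool.Agent.HH.CsHyp

/-!
# HH part 3, section 6 (HOM): morphism property instances
-/

set_option autoImplicit false

namespace HH

open Classical CategoryTheory

variable {S : Sig}

theorem RMod.W_containsIdentities (h : S.Hyp) : (RMod.W S).ContainsIdentities :=
  ⟨fun M => RMod.isW_id h M⟩

theorem RMod.W_twoOutOfThree [S.Good] [S.Strat] (h : S.Hyp) :
    (RMod.W S).HasTwoOutOfThreeProperty := by
  obtain ⟨d, hd⟩ := exists_L0 h
  exact
    { comp_mem := fun _ _ hF hG => RMod.IsW.comp h hF hG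
      of_postcomp := fun _ _ hG hFG => RMod.IsW.of_comp hG hFG
      of_precomp := fun _ _ hF hFG => RMod.IsW.of_comp_left h hd hF hFG }

instance Cs_W_containsIdentities : (RMod.W Cs).ContainsIdentities :=
  RMod.W_containsIdentities Cs_hyp

instance Cs_W_twoOutOfThree : (RMod.W Cs).HasTwoOutOfThreeProperty :=
  RMod.W_twoOutOfThree Cs_hyp

/-- level-0 data of the canonical coherator -/
theorem Cs_exists_L0 : ∃ d : L0 Cs, d.Good := exists_L0 Cs_hyp

end HH
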