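import Pool.Agent.HH.KCone
import Pool.Agent.HH.Rank

/-!
# HH part 3, module d8: existence of the family of boundary terms
-/

set_option autoImplicit false

namespace HH

open Classical CategoryTheory

variable {S : Sig}

/-- the computad `KC z 𝒜` only depends on `𝒜` on nonempty sets -/
theorem KC_ext {z : ZFam S} {𝒜 ℬ : Finset ℕ → Prop} (h : ∀ B : Finset ℕ, B.Nonempty → (𝒜 B ↔ ℬ B)) :
    KC z 𝒜 = KC z ℬ := by
  have h1 : (fun B : Finset ℕ => B.Nonempty ∧ 𝒜 B) = fun B : Finset ℕ => B.Nonempty ∧ ℬ B := by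
    funext B
    exact propext ⟨fun hB => ⟨hB.1, (h B hB.1).1 hB.2⟩, fun hB => ⟨hB.1, (h B hB.1).2 hB.2⟩⟩
  unfold KC
  rw [h1]

theorem KEx_tdim (z z' : ZFam S) (𝒜 ℬ : Finset ℕ → Prop) (t : S.T (Finset ℕ)) :
    (KC z 𝒜).tdim t = (KC z' ℬ).tdim t := by
  cases t <;> rfl

theorem KEx_ttgt (z z' : ZFam S) (𝒜 ℬ : Finset ℕ → Prop) (t : S.T (Finset ℕ)) :
    (KC z 𝒜).ttgt t = (KC z' ℬ).ttgt t := by
  cases t <;> rfl

/-- locality of `KC` in the family `z` -/
theorem KEx_congr {z z' : ZFam S} {𝒜 : Finset ℕ → Prop}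
    (h : ∀ B : Finset ℕ, B.Nonempty → 𝒜 B → z B.card = z' B.card) (t : S.T (Finset ℕ))
    (ht : (KC z 𝒜).tok t) : (KC z' 𝒜).tok t ∧ (KC z' 𝒜).tsrc t = (KC z 𝒜).tsrc t := by
  induction t with
  | var B =>
    refine ⟨ht, ?_⟩
    show (z' B.card).map _ = (z B.card).map _
    rw [h B ht.1 ht.2]
  | op k γ ih =>
    obtain ⟨hk, hγ⟩ := ht
    refine ⟨⟨hk, fun p => ?_⟩, rfl⟩
    obtain ⟨h1, h2, h3⟩ := hγ p
    obtain ⟨i1, i2⟩ := ih p h1
    refine ⟨i1, (KEx_tdim z' z 𝒜 𝒜 (γ p)).trans h2, fun h0 => ?_⟩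
    obtain ⟨j1, j2⟩ := h3 h0
    exact ⟨i2.trans j1, (KEx_ttgt z' z 𝒜 𝒜 (γ p)).trans j2⟩

theorem KEx_loc {z z' : ZFam S} {n : ℕ} (h : ∀ i, i < n → z i = z' i) {t : S.T (Finset ℕ)}
    (ht : (KC z (hornP n)).tok t) :
    (KC z' (hornP n)).tok t ∧ (KC z' (hornP n)).tsrc t = (KC z (hornP n)).tsrc t := by
  refine KEx_congr (fun B _ hB => h _ ?_) t ht
  have := Finset.card_lt_card hB.1
  rwa [Finset.card_range] at this

/-- a good value at `n` -/
theorem KEx_at {z z' : ZFam S} {n : ℕ} (h : ∀ i, i < n → z i = z' i)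
    (h1 : (KC z (hornP n)).tok (z' n)) (h2 : (KC z (hornP n)).tdim (z' n) + 2 = n)
    (h3 : 2 < n → (KC z (hornP n)).tsrc (z' n) = (KC z (hornP n)).src (Finset.range (n - 1)))
    (h4 : 2 < n → (KC z (hornP n)).ttgt (z' n) = .var (Finset.range (n - 2))) :
    ZGoodAt z' n := by
  obtain ⟨i1, i2⟩ := KEx_loc h h1
  refine ⟨i1, ?_, fun h5 => ?_, fun h5 => (KEx_ttgt z' z _ _ _).trans (h4 h5)⟩
  · rw [KEx_tdim z' z _ (hornP n)]
    exact h2
  rw [i2, h3 h5]
  show (z (Finset.range (n - 1)).card).map _ = (z' (Finset.range (n - 1)).card).map _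
  rw [Finset.card_range, h (n - 1) (by omega)]

/-- horns are cones -/
theorem KEx_horn {n : ℕ} (hn : 2 ≤ n) {B : Finset ℕ} (hB : B.Nonempty) :
    coneP (n - 1) (fun C => C.Nonempty ∧ C ⊂ Finset.range (n - 1)) B ↔ hornP n B := by
  have hr : ∀ a, a ∈ Finset.range n ↔ a ∈ Finset.range (n - 1) ∨ a = n - 1 := by
    intro a
    simp only [Finset.mem_range]
    omega
  have hnot : n - 1 ∉ Finset.range (n - 1) := by simp
  unfold coneP hornP
  constructor
  · rintro (h | ⟨h1, h2⟩ | ⟨h1, h2, h3, h4⟩)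
    · subst h
      refine ⟨⟨?_, ?_⟩, ?_⟩
      · intro a ha
        rw [Finset.mem_singleton] at ha
        rw [Finset.mem_range]
        omega
      · intro h
        have h0 : 0 ∈ ({n - 1} : Finset ℕ) := h (Finset.mem_range.2 (by omega))
        rw [Finset.mem_singleton] at h0
        omega
      · intro h
        apply hnot
        rw [← h]
        exact Finset.mem_singleton_self _
    · refine ⟨⟨fun a ha => (hr a).2 (Or.inl (h2.1 ha)), fun h => ?_⟩, h2.ne⟩
      exact h2.2 fun a ha => h ((hr a).2 (Or.inl ha))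
    · refine ⟨⟨fun a ha => ?_, fun h => ?_⟩, ?_⟩
      · by_cases hc : a = n - 1
        · exact (hr a).2 (Or.inr hc)
        · exact (hr a).2 (Or.inl (h4.1 (Finset.mem_erase.2 ⟨hc, ha⟩)))
      · refine h4.2 fun a ha => Finset.mem_erase.2 ⟨?_, h ((hr a).2 (Or.inl ha))⟩
        rintro rfl
        exact hnot ha
      · rintro rfl
        exact hnot h1
  · rintro ⟨h1, h2⟩
    by_cases hm : n - 1 ∈ B
    · by_cases he : (B.erase (n - 1)).Nonempty
      · refine Or.inr (Or.inr ⟨hm, he, he, ?_, fun h => ?_⟩)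
        · intro a ha
          rw [Finset.mem_erase] at ha
          exact ((hr a).1 (h1.1 ha.2)).resolve_right ha.1
        · refine h1.2 fun a ha => ?_
          rcases (hr a).1 ha with h3 | h3
          · exact (Finset.mem_erase.1 (h h3)).2
          · rw [h3]
            exact hm
      · left
        rw [Finset.not_nonempty_iff_eq_empty] at he
        rw [← Finset.insert_erase hm, he]
        rfl
    · refine Or.inr (Or.inl ⟨hB, Finset.ssubset_iff_subset_ne.2 ⟨fun a ha => ?_, h2⟩⟩)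
      refine ((hr a).1 (h1.1 ha)).resolve_right ?_
      rintro rfl
      exact hm ha

/-- one step of the construction -/
theorem KEx_step [S.Good] [S.Strat] (hS : S.Hyp) {z : ZFam S} {n : ℕ} (hn : 2 ≤ n)
    (hz : ∀ i, i < n → 2 ≤ i → ZGoodAt z i) :
    ∃ t : S.T (Finset ℕ), (KC z (hornP n)).tok t ∧ (KC z (hornP n)).tdim t + 2 = n ∧
      (2 < n → (KC z (hornP n)).tsrc t = (KC z (hornP n)).src (Finset.range (n - 1))) ∧
      (2 < n → (KC z (hornP n)).ttgt t = .var (Finset.range (n - 2))) := by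
  rcases Nat.lt_or_ge 2 n with h2 | h2
  · have hc : (KC z (hornP n)).Ctr := by
      rw [← KC_ext (z := z) (fun B hB => KEx_horn hn (B := B) hB)]
      refine KC_cone hS (N := n - 1) (fun i h2 hi => hz i (by omega) h2) ?_ (fun B hB => hB.1)
        (fun B hB a ha => Finset.mem_range.1 (hB.2.1 ha)) ?_
      · rintro B C ⟨-, h3⟩ h4 h5
        exact ⟨h5, lt_of_le_of_lt h4 h3⟩
      · rintro B ⟨-, h3⟩
        have := Finset.card_lt_card h3
        rw [Finset.card_range] at this
        exact this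
    have hcard : (Finset.range (n - 1)).card = n - 1 := Finset.card_range _
    have hsub : ∀ C : Finset ℕ, C ⊂ Finset.range (n - 1) → C.Nonempty → hornP n C := by
      refine fun C hC _ => ⟨⟨fun a ha => ?_, fun h => ?_⟩, hC.ne⟩
      · have := Finset.mem_range.1 (hC.1 ha)
        exact Finset.mem_range.2 (by omega)
      · refine hC.2 fun a ha => h ?_
        have := Finset.mem_range.1 ha
        exact Finset.mem_range.2 (by omega)
    obtain ⟨hp, hd⟩ := KC_src_par (z := z) (N := n - 1) (fun i h2 hi => hz i (by omega) h2)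
      (𝒜 := hornP n) (B := Finset.range (n - 1)) (by rw [hcard]; omega) hcard.le hsub
    have hdm : dmax (Finset.range (n - 1)) = Finset.range (n - 2) := by
      have := dmax_range (n - 2)
      rwa [show n - 2 + 1 = n - 1 by omega] at this
    rw [hdm] at hp
    obtain ⟨t, h3, h4, h5, h6⟩ := hc.2 _ _ _ hp (Nat.lt_succ_self _)
    refine ⟨t, h3, ?_, fun _ => h5, fun _ => h6⟩
    rw [hcard] at hd
    have h4' : (KC z (hornP n)).tdim t =
        (KC z (hornP n)).tdim ((KC z (hornP n)).src (Finset.range (n - 1))) + 1 := h4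
    omega
  · have hn2 : n = 2 := by omega
    subst hn2
    refine ⟨.var {1}, ⟨Finset.singleton_nonempty _, ⟨fun a ha => ?_, fun h => ?_⟩, fun h => ?_⟩,
      rfl, fun h => absurd h (lt_irrefl _), fun h => absurd h (lt_irrefl _)⟩
    · rw [Finset.mem_singleton] at ha
      exact Finset.mem_range.2 (by omega)
    · have h0 : 0 ∈ ({1} : Finset ℕ) := h (Finset.mem_range.2 (by omega))
      rw [Finset.mem_singleton] at h0
      omega
    · have h0 : 1 ∈ Finset.range (2 - 1) := by
        rw [← h]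
        exact Finset.mem_singleton_self _
      rw [Finset.mem_range] at h0
      omega

theorem exists_z [S.Good] [S.Strat] (h : S.Hyp) : ∃ z : ZFam S, ZGood z := by
  have : Nonempty (S.T (Finset ℕ)) := ⟨.var ∅⟩
  refine exists_ranked (I := ℕ) (fun n => n) (T := fun _ => S.T (Finset ℕ))
    (fun n z => 2 ≤ n → ZGoodAt (S := S) z n) ?_ ?_
  · intro n z z' h1 h2 h3 hn
    have hz := h3 hn
    refine KEx_at (z := z) h1 ?_ ?_ ?_ ?_
    · rw [← h2]
      exact hz.ok
    · rw [← h2]
      exact hz.dim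
    · rw [← h2]
      exact hz.src
    · rw [← h2]
      exact hz.tgt
  · intro n z hz
    by_cases hn : 2 ≤ n
    · obtain ⟨t, h1, h2, h3, h4⟩ := KEx_step h hn (z := z) (fun i hi h2 => hz i hi h2)
      refine ⟨Function.update z n t, fun i hi => Function.update_of_ne (ne_of_lt hi) _ _,
        fun _ => KEx_at (z := z) (fun i hi => (Function.update_of_ne (ne_of_lt hi) _ _).symm)
          ?_ ?_ ?_ ?_⟩
      · rw [Function.update_self]
        exact h1
      · rw [Function.update_self]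
        exact h2
      · rw [Function.update_self]
        exact h3
      · rw [Function.update_self]
        exact h4
    · exact ⟨z, fun _ _ => rfl, fun h => absurd h hn⟩

theorem KC_simplex_ctr [S.Good] [S.Strat] (h : S.Hyp) {z : ZFam S} (hz : ZGood z)
    {A : Finset ℕ} (hA : A.Nonempty) : (KC z (fun B => B ⊆ A)).Ctr := by
  set m := A.max' hA with hm
  have hmA : m ∈ A := A.max'_mem hA
  have hlt : ∀ a ∈ A.erase m, a < m := fun a ha =>
    lt_of_le_of_ne (A.le_max' a (Finset.mem_erase.1 ha).2) (Finset.mem_erase.1 ha).1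
  have h1 : KC z (fun B => B ⊆ A) = KC z (coneP m (fun C => C.Nonempty ∧ C ⊆ A.erase m)) := by
    refine KC_ext fun B hB => ?_
    unfold coneP
    constructor
    · intro hBA
      by_cases hmB : m ∈ B
      · by_cases he : (B.erase m).Nonempty
        · exact Or.inr (Or.inr ⟨hmB, he, he, Finset.erase_subset_erase m hBA⟩)
        · left
          rw [Finset.not_nonempty_iff_eq_empty] at he
          rw [← Finset.insert_erase hmB, he]
          rfl
      · exact Or.inr (Or.inl ⟨hB, Finset.subset_erase.2 ⟨hBA, hmB⟩⟩)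
    · rintro (rfl | ⟨-, h2⟩ | ⟨h2, -, -, h3⟩)
      · exact Finset.singleton_subset_iff.2 hmA
      · exact h2.trans (Finset.erase_subset _ _)
      · intro a ha
        by_cases hc : a = m
        · rw [hc]
          exact hmA
        · exact (Finset.mem_erase.1 (h3 (Finset.mem_erase.2 ⟨hc, ha⟩))).2
  rw [h1]
  refine KC_cone h (N := A.card) (fun n h2 _ => hz n h2) ?_ (fun B hB => hB.1)
    (fun B hB a ha => hlt a (hB.2 ha)) ?_
  · rintro B C ⟨-, h3⟩ h4 h5
    exact ⟨h5, h4.trans h3⟩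
  · rintro B ⟨-, h3⟩
    have h4 := Finset.card_le_card h3
    have h5 := Finset.card_erase_add_one hmA
    omega

theorem KC_simplex_good [S.Good] {z : ZFam S} (hz : ZGood z) (A : Finset ℕ) :
    (KC z (fun B => B ⊆ A)).Good :=
  KC_good (N := A.card) (fun n h2 _ => hz n h2) (fun _ _ hB hC _ => hC.trans hB)
    (fun _ _ hB => Finset.card_le_card hB)

end HH
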