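import Pool.Agent.HH.OrdDisk

/-!
# HH part 3, CW-4: the order complex is a CW-complex

Filtration by the skeleta `skel P n` (points with at most `n` vertices), the cells of dimension `n`
are the chains with `n + 1` elements. The universal properties of the pushouts and of the colimit
are checked directly with `continuous_skel_iff`, `continuous_iff_skel`.
-/

set_option autoImplicit false

namespace HH

open Classical Topology CategoryTheory Limits TopCat

namespace OrdCx

variable (P : Type) [PartialOrder P]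

/-- the filtration by skeleta -/
noncomputable def skF : ℕ ⥤ TopCat.{0} where
  obj n := TopCat.of (skel P n)
  map {m n} h := TopCat.ofHom ⟨Set.inclusion (skel_mono (leOfHom h)),
    continuous_inclusion (skel_mono (leOfHom h))⟩
  map_id _ := rfl
  map_comp _ _ := rfl

/-- the order complex is the colimit of its skeleta -/
noncomputable def skIncl : skF P ⟶ (Functor.const ℕ).obj (TopCat.of (OrdCx P)) where
  app n := TopCat.ofHom ⟨Subtype.val, continuous_subtype_val⟩
  naturality _ _ _ := rfl

variable {P}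

private theorem mem_self (t : OrdCx P) : t ∈ skel P t.w.support.card := by
  change t.w.support.card ≤ t.w.support.card
  exact le_rfl

/-- the value of a cocone at a point -/
private theorem sk_nat (s : Cocone (skF P)) {m n : ℕ} (h : m ≤ n) (t : OrdCx P)
    (hm : t ∈ skel P m) (hn : t ∈ skel P n) :
    (s.ι.app m) ⟨t, hm⟩ = (s.ι.app n) ⟨t, hn⟩ := by
  have h1 := s.w (homOfLE h)
  rw [← h1]
  rfl

/-- the map out of the order complex given by a cocone -/
private noncomputable def skDesc (s : Cocone (skF P)) : TopCat.of (OrdCx P) ⟶ s.pt :=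
  TopCat.ofHom ⟨fun t => (s.ι.app t.w.support.card) ⟨t, mem_self t⟩, by
    refine continuous_iff_skel.2 fun n => ?_
    have h : (fun t : skel P n => (s.ι.app t.1.w.support.card) ⟨t.1, mem_self t.1⟩) =
        fun t : skel P n => (s.ι.app n) t := by
      funext t
      exact sk_nat s t.2 t.1 (mem_self t.1) t.2
    rw [h]
    exact (s.ι.app n).hom.continuous⟩

variable (P)

theorem nonempty_isColimit_sk : Nonempty (IsColimit (Cocone.mk _ (skIncl P))) := by
  refine ⟨⟨skDesc, fun s n => ?_, fun s m hm => ?_⟩⟩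
  · ext t
    exact sk_nat s t.2 t.1 (mem_self t.1) t.2
  · ext t
    have h := hm (t.w.support.card)
    have h1 := ConcreteCategory.congr_hom h (⟨t, mem_self t⟩ : skel P t.w.support.card)
    exact h1

/-! ### The cells -/

/-- the cells of dimension `n` -/
private def CI (n : ℕ) : Type := {F : Finset P // F.card = n + 1 ∧ ∀ p ∈ F, ∀ q ∈ F, p ≤ q ∨ q ≤ p}

variable {P}

/-- the disk of a cell -/
private noncomputable def dk {n : ℕ} (c : CI P n) :
    Metric.closedBall (0 : EuclideanSpace ℝ (Fin n)) 1 ≃ₜ Simplex c.1 :=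
  (exists_disk c.1 c.2.1).choose

private theorem dk_spec {n : ℕ} (c : CI P n) (x) : ‖x.1‖ = 1 ↔ ∃ p ∈ c.1, (dk c x).1 p = 0 :=
  (exists_disk c.1 c.2.1).choose_spec x

/-- the attaching map -/
private noncomputable def att (n : ℕ) :
    TopCat.of (Σ _ : CI P n, (∂𝔻 n : TopCat.{0})) ⟶ (skF P).obj n :=
  TopCat.ofHom ⟨fun x => ⟨ofSimplex x.1.1 x.1.2.2
      (dk x.1 ((diskBoundaryInclusion n).hom x.2).down),
      (ofSimplex_mem_skel' x.1.1 x.1.2.2 x.1.2.1 _).2
        ((dk_spec x.1 _).1 (by
          obtain ⟨c, ⟨y, hy⟩⟩ := x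
          exact mem_sphere_zero_iff_norm.1 hy))⟩, by
    refine continuous_sigma fun c => ?_
    refine Continuous.subtype_mk ?_ _
    exact (continuous_ofSimplex c.1 c.2.2).comp ((dk c).continuous.comp
      (continuous_uliftDown.comp (diskBoundaryInclusion n).hom.continuous))⟩

/-- the cells -/
private noncomputable def cel (n : ℕ) :
    TopCat.of (Σ _ : CI P n, (𝔻 n : TopCat.{0})) ⟶ (skF P).obj (n + 1) :=
  TopCat.ofHom ⟨fun x => ⟨ofSimplex x.1.1 x.1.2.2 (dk x.1 x.2.down),
      ofSimplex_mem_skel x.1.1 x.1.2.2 x.1.2.1.le _⟩, by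
    refine continuous_sigma fun c => ?_
    refine Continuous.subtype_mk ?_ _
    exact (continuous_ofSimplex c.1 c.2.2).comp ((dk c).continuous.comp continuous_uliftDown)⟩

variable (P) in
/-- the inclusion of the boundaries -/
private noncomputable def bdi (n : ℕ) :
    TopCat.of (Σ _ : CI P n, (∂𝔻 n : TopCat.{0})) ⟶
      TopCat.of (Σ _ : CI P n, (𝔻 n : TopCat.{0})) :=
  TopCat.ofHom ⟨fun x => ⟨x.1, (diskBoundaryInclusion n).hom x.2⟩, by
    refine continuous_sigma fun c => ?_
    exact continuous_sigmaMk.comp (diskBoundaryInclusion n).hom.continuous⟩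

private theorem cw_comm (n : ℕ) :
    att n ≫ (skF P).map (homOfLE (Order.le_succ n)) = bdi P n ≫ cel n := rfl

/-- the cell containing a point of the top stratum -/
private noncomputable def cellOf {n : ℕ} (t : skel P (n + 1)) (h : ¬ t.1.w.support.card ≤ n) :
    CI P n :=
  ⟨t.1.w.support, le_antisymm t.2 (by omega), supp_chain t.1⟩

private noncomputable def ptOf {n : ℕ} (t : skel P (n + 1)) (h : ¬ t.1.w.support.card ≤ n) :
    Simplex (cellOf t h).1 :=
  t.1.toSimplex _ fun _ hp => Finsupp.mem_support_iff.2 hp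

private theorem pt_eq {n : ℕ} {c c' : CI P n} (h : c' = c) (x : Simplex c.1) (x' : Simplex c'.1)
    (hx : ∀ p, x'.1 p = x.1 p) :
    (⟨c', ⟨(dk c').symm x'⟩⟩ : Σ _ : CI P n, (𝔻 n : TopCat.{0})) = ⟨c, ⟨(dk c).symm x⟩⟩ := by
  subst h
  have h1 : x' = x := Subtype.ext (funext hx)
  rw [h1]

section Desc

variable {n : ℕ} {Y : TopCat.{0}} (a : (skF P).obj n ⟶ Y)
  (b : TopCat.of (Σ _ : CI P n, (𝔻 n : TopCat.{0})) ⟶ Y)

/-- the underlying map -/
private noncomputable def cwFun (t : skel P (n + 1)) : Y :=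
  if h : t.1.w.support.card ≤ n then a (⟨t.1, h⟩ : skel P n)
  else b (⟨cellOf t h, ⟨(dk (cellOf t h)).symm (ptOf t h)⟩⟩ : Σ _ : CI P n, (𝔻 n : TopCat.{0}))

private theorem cwFun_cell (hab : att n ≫ a = bdi P n ≫ b) (c : CI P n) (x : Simplex c.1) :
    cwFun a b ⟨ofSimplex c.1 c.2.2 x, ofSimplex_mem_skel c.1 c.2.2 c.2.1.le x⟩ =
      b (⟨c, ⟨(dk c).symm x⟩⟩ : Σ _ : CI P n, (𝔻 n : TopCat.{0})) := by
  unfold cwFun
  split_ifs with h
  · have h0 : ofSimplex c.1 c.2.2 x ∈ skel P n := h
    have h1 := (ofSimplex_mem_skel' c.1 c.2.2 c.2.1 x).1 h0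
    have h2 : ‖((dk c).symm x).1‖ = 1 := (dk_spec c _).2 (by
      rw [Homeomorph.apply_symm_apply]
      exact h1)
    have h3 := ConcreteCategory.congr_hom hab
      (⟨c, ⟨((dk c).symm x).1, mem_sphere_zero_iff_norm.2 h2⟩⟩ :
        Σ _ : CI P n, (∂𝔻 n : TopCat.{0}))
    have h4 : (att n) (⟨c, ⟨((dk c).symm x).1, mem_sphere_zero_iff_norm.2 h2⟩⟩ :
        Σ _ : CI P n, (∂𝔻 n : TopCat.{0})) = (⟨ofSimplex c.1 c.2.2 x, h0⟩ : skel P n) := by
      apply Subtype.ext
      change ofSimplex c.1 c.2.2 (dk c ((dk c).symm x)) = _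
      rw [Homeomorph.apply_symm_apply]
    have h5 : (bdi P n) (⟨c, ⟨((dk c).symm x).1, mem_sphere_zero_iff_norm.2 h2⟩⟩ :
        Σ _ : CI P n, (∂𝔻 n : TopCat.{0})) =
        (⟨c, ⟨(dk c).symm x⟩⟩ : Σ _ : CI P n, (𝔻 n : TopCat.{0})) := rfl
    rw [ConcreteCategory.comp_apply, ConcreteCategory.comp_apply, h4, h5] at h3
    exact h3
  · have h1 : (ofSimplex c.1 c.2.2 x).w.support = c.1 := by
      refine Finset.eq_of_subset_of_card_le (ofSimplex_supp_subset c.2.2 x) ?_
      have h2 := c.2.1
      change ¬ (ofSimplex c.1 c.2.2 x).w.support.card ≤ n at h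
      omega
    refine congrArg b (pt_eq (Subtype.ext h1) _ _ fun p => ?_)
    exact ofSimplex_w (hF := c.2.2) x p

private theorem cwFun_cont (hab : att n ≫ a = bdi P n ≫ b) : Continuous (cwFun a b) := by
  refine continuous_skel_iff.2 fun F hF h => ?_
  rcases Nat.lt_or_ge n F.card with h1 | h1
  · have h2 : F.card = n + 1 := by omega
    have h3 : (fun t : Simplex F => cwFun a b ⟨ofSimplex F hF t, ofSimplex_mem_skel F hF h t⟩) =
        fun t : Simplex F => b (⟨(⟨F, h2, hF⟩ : CI P n),
          ⟨(dk (⟨F, h2, hF⟩ : CI P n)).symm t⟩⟩ : Σ _ : CI P n, (𝔻 n : TopCat.{0})) :=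
      funext fun t => cwFun_cell a b hab ⟨F, h2, hF⟩ t
    rw [h3]
    have h4 : Continuous fun t : Simplex F => (⟨(dk (⟨F, h2, hF⟩ : CI P n)).symm t⟩ :
        ULift (Metric.closedBall (0 : EuclideanSpace ℝ (Fin n)) 1)) :=
      continuous_uliftUp.comp (dk (⟨F, h2, hF⟩ : CI P n)).symm.continuous
    have h5 : Continuous fun t : Simplex F => (⟨(⟨F, h2, hF⟩ : CI P n),
          ⟨(dk (⟨F, h2, hF⟩ : CI P n)).symm t⟩⟩ : Σ _ : CI P n, (𝔻 n : TopCat.{0})) :=
      continuous_sigmaMk.comp h4
    exact b.hom.continuous.comp h5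
  · have h3 : (fun t : Simplex F => cwFun a b ⟨ofSimplex F hF t, ofSimplex_mem_skel F hF h t⟩) =
        fun t : Simplex F => a (⟨ofSimplex F hF t, ofSimplex_mem_skel F hF h1 t⟩ : skel P n) := by
      funext t
      exact dif_pos (ofSimplex_mem_skel F hF h1 t)
    rw [h3]
    exact a.hom.continuous.comp (Continuous.subtype_mk (continuous_ofSimplex F hF) _)

end Desc

private theorem cw_pushout (n : ℕ) :
    IsPushout (att n) (bdi P n) ((skF P).map (homOfLE (Order.le_succ n))) (cel n) := by
  refine ⟨⟨cw_comm n⟩, ⟨PushoutCocone.IsColimit.mk _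
    (fun s => TopCat.ofHom ⟨cwFun s.inl s.inr, cwFun_cont _ _ s.condition⟩) ?_ ?_ ?_⟩⟩
  · intro s
    ext t
    exact dif_pos t.2
  · intro s
    ext ⟨c, y⟩
    have h1 := cwFun_cell s.inl s.inr s.condition c (dk c y.down)
    rw [Homeomorph.symm_apply_apply] at h1
    exact h1
  · intro s m h1 h2
    ext t
    change m t = cwFun s.inl s.inr t
    unfold cwFun
    split_ifs with h
    · rw [← h1]
      rfl
    · rw [← h2, ConcreteCategory.comp_apply]
      congr 1
      apply Subtype.ext
      change t.1 = ofSimplex (cellOf t h).1 (cellOf t h).2.2 (dk (cellOf t h) ((dk (cellOf t h)).symm (ptOf t h)))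
      rw [Homeomorph.apply_symm_apply]
      exact (ofSimplex_toSimplex t.1 (supp_chain t.1) _).symm

variable (P)

theorem nonempty_attach (n : ℕ) : Nonempty (HomotopicalAlgebra.AttachCells.{0}
    (TopCat.RelativeCWComplex.basicCell.{0} n)
    ((skF P).map (homOfLE (Order.le_succ n)))) := by
  refine ⟨{ ι := CI P n
            π := fun _ => ()
            cofan₁ := sigmaCofan.{0, 0} (fun _ : CI P n => (∂𝔻 n : TopCat.{0}))
            cofan₂ := sigmaCofan.{0, 0} (fun _ : CI P n => (𝔻 n : TopCat.{0}))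
            isColimit₁ := sigmaCofanIsColimit.{0, 0} _
            isColimit₂ := sigmaCofanIsColimit.{0, 0} _
            m := bdi P n
            hm := fun i => rfl
            g₁ := att n
            g₂ := cel n
            isPushout := cw_pushout n }⟩

/-- **The order complex is a CW-complex.** -/
theorem nonempty_cwComplex : Nonempty (TopCat.CWComplex (TopCat.of (OrdCx P))) := by
  have hE : IsEmpty (skel P 0) := by
    rw [skel_zero]
    infer_instance
  have hI : IsInitial ((skF P).obj ⊥) := IsInitial.ofUniqueHom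
    (fun Y => TopCat.ofHom ⟨fun t : skel P 0 => (hE.false t).elim,
      continuous_iff_continuousAt.2 fun t => (hE.false t).elim⟩)
    (fun Y m => by
      ext t
      exact (hE.false t).elim)
  refine ⟨{ F := skF P
            isoBot := hI.uniqueUpToIso initialIsInitial
            incl := skIncl P
            isColimit := (nonempty_isColimit_sk P).some
            fac := initialIsInitial.hom_ext _ _
            attachCells := fun j _ => (nonempty_attach P j).some }⟩

end OrdCx

end HH
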