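import Pool.Agent.HH.OrdCx

/-!
# HH part 3, module e4: extension of maps to the cone of an order complex

`P` a finite poset with a largest element `T`, `Q = {p // p < T}`. The map
`OrdCx Q × I → OrdCx P`, `(t, s) ↦ (1 - s) t + s T` is a continuous surjection (if `Q` is not
empty) from a compact space to a Hausdorff space, so it is a quotient map; a contraction `H` of `R`
and a map `f` give the map `(t, s) ↦ H (s, f t)`, which is constant on its fibres.
-/

set_option autoImplicit false

namespace HH

open Classical

namespace OrdCx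

variable {P : Type} [PartialOrder P]

set_option linter.unusedSectionVars false

private theorem simplex_compact [Fintype P] (F : Finset P) : CompactSpace (Simplex F) := by
  rw [show CompactSpace (Simplex F) ↔ IsCompact {c : P → ℝ | (∀ p, 0 ≤ c p) ∧
    (∀ p, p ∉ F → c p = 0) ∧ ∑ p ∈ F, c p = 1} from isCompact_iff_compactSpace.symm]
  have h1 : IsCompact (Set.univ.pi (fun _ : P => Set.Icc (0 : ℝ) 1)) :=
    isCompact_univ_pi fun _ => isCompact_Icc
  refine h1.of_isClosed_subset ?_ ?_
  · have h2 : {c : P → ℝ | (∀ p, 0 ≤ c p) ∧ (∀ p, p ∉ F → c p = 0) ∧ ∑ p ∈ F, c p = 1} =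
        (⋂ p, {c : P → ℝ | 0 ≤ c p}) ∩ ((⋂ p, {c : P → ℝ | p ∉ F → c p = 0}) ∩
          {c : P → ℝ | ∑ p ∈ F, c p = 1}) := by
      ext c
      simp
    rw [h2]
    refine (isClosed_iInter fun p => isClosed_le continuous_const (continuous_apply p)).inter
      ((isClosed_iInter fun p => ?_).inter
        (isClosed_eq (continuous_finsetSum _ fun p _ => continuous_apply p) continuous_const))
    by_cases h : p ∈ F
    · simp [h]
    · simp only [h, not_false_eq_true, forall_true_left]
      exact isClosed_eq (continuous_apply p) continuous_const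
  · intro c hc p _
    refine ⟨hc.1 p, ?_⟩
    by_cases hp : p ∈ F
    · rw [← hc.2.2]
      exact Finset.single_le_sum (f := c) (fun q _ => hc.1 q) hp
    · rw [hc.2.1 p hp]
      exact zero_le_one

private theorem ordCx_compact [Finite P] : CompactSpace (OrdCx P) := by
  have := Fintype.ofFinite P
  refine ⟨?_⟩
  have h1 : (Set.univ : Set (OrdCx P)) =
      ⋃ F : {F : Finset P // ∀ p ∈ F, ∀ q ∈ F, p ≤ q ∨ q ≤ p},
        Set.range (ofSimplex F.1 F.2) := by
    symm
    refine Set.eq_univ_of_forall fun t => Set.mem_iUnion.2 ?_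
    refine ⟨⟨t.w.support, fun p hp q hq => t.chain p q (Finsupp.mem_support_iff.1 hp)
      (Finsupp.mem_support_iff.1 hq)⟩, ⟨t.w, t.nonneg, fun p hp =>
        Finsupp.notMem_support_iff.1 hp, t.sum_eq fun p hp => Finsupp.mem_support_iff.2 hp⟩, ?_⟩
    refine ext fun p => ?_
    rw [ofSimplex_w]
  rw [h1]
  refine isCompact_iUnion fun F => ?_
  have := simplex_compact F.1
  exact isCompact_range (continuous_ofSimplex F.1 F.2)

section cone

variable [Fintype P] (T : P)

/-- the weights of the cone map -/
private noncomputable def cc (t : OrdCx {p : P // p < T}) (s : ℝ) (p : P) : ℝ :=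
  if h : p < T then (1 - s) * t.w ⟨p, h⟩ else s

private theorem cc_lt {t : OrdCx {p : P // p < T}} {s : ℝ} {p : P} (h : p < T) :
    cc T t s p = (1 - s) * t.w ⟨p, h⟩ := dif_pos h

private theorem cc_top {t : OrdCx {p : P // p < T}} {s : ℝ} : cc T t s T = s :=
  dif_neg (lt_irrefl T)

private theorem cc_sum (hT : ∀ p, p ≤ T) (t : OrdCx {p : P // p < T}) (s : ℝ) :
    ∑ p : P, cc T t s p = 1 := by
  rw [← Finset.add_sum_erase Finset.univ _ (Finset.mem_univ T), cc_top]
  have h1 : ∀ x, x ∈ (Finset.univ : Finset P).erase T ↔ x < T := by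
    intro x
    rw [Finset.mem_erase]
    constructor
    · intro h
      exact lt_of_le_of_ne (hT x) h.1
    · intro h
      exact ⟨h.ne, Finset.mem_univ _⟩
  rw [Finset.sum_subtype _ h1]
  have h2 : ∑ x : {p : P // p < T}, cc T t s x = (1 - s) * ∑ x : {p : P // p < T}, t.w x := by
    rw [Finset.mul_sum]
    exact Finset.sum_congr rfl fun x _ => cc_lt T x.2
  rw [h2, t.sum_eq fun p _ => Finset.mem_univ p]
  ring

/-- the cone map -/
private noncomputable def cmap (hT : ∀ p, p ≤ T)
    (x : OrdCx {p : P // p < T} × unitInterval) : OrdCx P :=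
  mk' Finset.univ (cc T x.1 x.2)
    (fun p _ => by
      by_cases h : p < T
      · rw [cc_lt T h]
        exact mul_nonneg (sub_nonneg.2 x.2.2.2) (x.1.nonneg _)
      · rw [cc, dif_neg h]
        exact x.2.2.1)
    (fun p _ q _ hp hq => by
      by_cases h : p < T
      · by_cases h' : q < T
        · rw [cc_lt T h] at hp
          rw [cc_lt T h'] at hq
          exact x.1.chain ⟨p, h⟩ ⟨q, h'⟩ (right_ne_zero_of_mul hp) (right_ne_zero_of_mul hq)
        · have : q = T := by
            by_contra hne
            exact h' (lt_of_le_of_ne (hT q) hne)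
          rw [this]
          exact Or.inl (hT p)
      · have : p = T := by
          by_contra hne
          exact h (lt_of_le_of_ne (hT p) hne)
        rw [this]
        exact Or.inr (hT q))
    (cc_sum T hT x.1 x.2)

private theorem cmap_w (hT : ∀ p, p ≤ T) (x : OrdCx {p : P // p < T} × unitInterval) (p : P) :
    (cmap T hT x).w p = cc T x.1 x.2 p :=
  mk'_w (Finset.mem_univ p)

private theorem cmap_continuous (hT : ∀ p, p ≤ T) : Continuous (cmap T hT) := by
  refine continuous_of Finset.univ (fun _ p _ => Finset.mem_univ p) fun p _ => ?_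
  simp only [cmap_w]
  by_cases h : p < T
  · simp only [cc_lt T h]
    exact (continuous_const.sub (continuous_subtype_val.comp continuous_snd)).mul
      ((continuous_w _).comp continuous_fst)
  · simp only [cc, dif_neg h]
    exact continuous_subtype_val.comp continuous_snd

private theorem cmap_surjective (hT : ∀ p, p ≤ T) (hne : Nonempty (OrdCx {p : P // p < T})) :
    Function.Surjective (cmap T hT) := by
  intro t
  obtain ⟨t0⟩ := hne
  have hsum : ∑ p : P, t.w p = 1 := t.sum_eq fun p _ => Finset.mem_univ p
  have h1 : ∀ x, x ∈ (Finset.univ : Finset P).erase T ↔ x < T := by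
    intro x
    rw [Finset.mem_erase]
    constructor
    · intro h
      exact lt_of_le_of_ne (hT x) h.1
    · intro h
      exact ⟨h.ne, Finset.mem_univ _⟩
  have hsum2 : t.w T + ∑ x : {p : P // p < T}, t.w x = 1 := by
    rw [← hsum, ← Finset.add_sum_erase Finset.univ _ (Finset.mem_univ T),
      Finset.sum_subtype _ h1]
  have hnn : 0 ≤ ∑ x : {p : P // p < T}, t.w x := Finset.sum_nonneg fun x _ => t.nonneg x
  have hs1 : t.w T ≤ 1 := by linarith
  by_cases hs : t.w T = 1
  · refine ⟨(t0, ⟨1, zero_le_one, le_rfl⟩), ext fun p => ?_⟩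
    rw [cmap_w]
    by_cases h : p < T
    · rw [cc_lt T h]
      have h2 : ∑ x : {p : P // p < T}, t.w x = 0 := by linarith
      have h3 := (Finset.sum_eq_zero_iff_of_nonneg fun (x : {p : P // p < T}) _ =>
        t.nonneg x.1).1 h2 ⟨p, h⟩ (Finset.mem_univ _)
      simp only at h3
      rw [h3]
      simp
    · have : p = T := by
        by_contra hne
        exact h (lt_of_le_of_ne (hT p) hne)
      rw [this, cc_top, hs]
  · have hlt : t.w T < 1 := lt_of_le_of_ne hs1 hs
    have hpos : 0 < 1 - t.w T := by linarith
    refine ⟨(mk' Finset.univ (fun x : {p : P // p < T} => t.w x / (1 - t.w T))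
      (fun x _ => div_nonneg (t.nonneg x) hpos.le)
      (fun x _ y _ hx hy => t.chain x y (fun h => hx (by simp only [h, zero_div]))
        (fun h => hy (by simp only [h, zero_div])))
      (by
        rw [← Finset.sum_div, div_eq_one_iff_eq hpos.ne']
        linarith), ⟨t.w T, t.nonneg T, hs1⟩), ext fun p => ?_⟩
    rw [cmap_w]
    by_cases h : p < T
    · rw [cc_lt T h]
      simp only
      rw [mk'_w (Finset.mem_univ _)]
      exact mul_div_cancel₀ _ hpos.ne'
    · have : p = T := by
        by_contra hne
        exact h (lt_of_le_of_ne (hT p) hne)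
      rw [this, cc_top]

private theorem cmap_zero (hT : ∀ p, p ≤ T) (t : OrdCx {p : P // p < T}) :
    cmap T hT (t, 0) = OrdCx.map Subtype.val (fun _ _ h => h) t := by
  refine ext fun p => ?_
  rw [cmap_w, map_w Subtype.val (fun _ _ h => h) t (F := Finset.univ)
    (fun p _ => Finset.mem_univ p)]
  by_cases h : p < T
  · rw [cc_lt T h, Finset.sum_eq_single ⟨p, h⟩]
    · simp
    · intro x _ hx
      rw [if_neg]
      intro hxp
      exact hx (Subtype.ext hxp)
    · intro hn
      exact absurd (Finset.mem_univ _) hn
  · rw [cc, dif_neg h]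
    symm
    refine Finset.sum_eq_zero fun x _ => ?_
    rw [if_neg]
    rintro rfl
    exact h x.2

end cone

end OrdCx

theorem OrdCx.exists_cone_ext {P : Type} [PartialOrder P] [Finite P] {R : Type}
    [TopologicalSpace R] [ContractibleSpace R] (T : P) (hT : ∀ p, p ≤ T)
    (f : C(OrdCx {p : P // p < T}, R)) :
    ∃ g : C(OrdCx P, R), ∀ t, g (OrdCx.map Subtype.val (fun _ _ h => h) t) = f t := by
  have := Fintype.ofFinite P
  obtain ⟨c0, ⟨H⟩⟩ := id_nullhomotopic R
  by_cases hne : Nonempty (OrdCx {p : P // p < T})
  · have : CompactSpace (OrdCx {p : P // p < T}) := OrdCx.ordCx_compact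
    have hcont := OrdCx.cmap_continuous T hT
    let q : C(OrdCx {p : P // p < T} × unitInterval, OrdCx P) := ⟨OrdCx.cmap T hT, hcont⟩
    have hq : Topology.IsQuotientMap q :=
      (hcont.isClosedMap).isQuotientMap hcont (OrdCx.cmap_surjective T hT hne)
    let F : C(OrdCx {p : P // p < T} × unitInterval, R) :=
      ⟨fun x => H (x.2, f x.1), by fun_prop⟩
    have hF : Function.FactorsThrough F q := by
      rintro ⟨t, s⟩ ⟨t', s'⟩ h
      have hw : ∀ p, OrdCx.cc T t s p = OrdCx.cc T t' s' p := by
        intro p
        rw [← OrdCx.cmap_w T hT (t, s) p, ← OrdCx.cmap_w T hT (t', s') p]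
        exact congrArg (fun u : OrdCx P => u.w p) h
      have hs : s = s' := by
        have := hw T
        rw [OrdCx.cc_top, OrdCx.cc_top] at this
        exact Subtype.ext this
      subst hs
      show H (s, f t) = H (s, f t')
      by_cases h1 : s = 1
      · rw [h1, H.apply_one, H.apply_one]
        rfl
      · have hs1 : (1 : ℝ) - s ≠ 0 := by
          intro h0
          apply h1
          refine Subtype.ext ?_
          show (s : ℝ) = 1
          linarith
        have htt : t = t' := by
          refine OrdCx.ext fun p => ?_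
          have := hw p.1
          rw [OrdCx.cc_lt T p.2, OrdCx.cc_lt T p.2] at this
          exact mul_left_cancel₀ hs1 this
        rw [htt]
    refine ⟨hq.lift F hF, fun t => ?_⟩
    rw [← OrdCx.cmap_zero T hT t]
    have h2 : hq.lift F hF (OrdCx.cmap T hT (t, 0)) = F (t, 0) :=
      congrFun (congrArg DFunLike.coe (hq.lift_comp F hF)) (t, 0)
    rw [h2]
    show H (0, f t) = f t
    rw [H.apply_zero]
    rfl
  · exact ⟨ContinuousMap.const _ c0, fun t => absurd ⟨t⟩ hne⟩

end HH
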