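import Pool.Agent.HH.OrdGlue
import Pool.Agent.HH.OrdCone
import Pool.Agent.HH.Defs3
import Pool.Agent.HH.Rank

/-!
# HH part 3, e5 Xi: a compatible family of maps from the subdivided simplices
-/

set_option autoImplicit false

namespace HH

open Classical CategoryTheory

/-- the inclusion of the faces of `A` in the faces of `B` -/
def faceIncl {A B : Nm} (h : A ≤ B) : {C : Nm // C ≤ A} → {C : Nm // C ≤ B} :=
  fun C => ⟨C.1, C.2.trans h⟩

theorem faceIncl_mono {A B : Nm} (h : A ≤ B) : Monotone (faceIncl h) := fun _ _ h' => h'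

instance (A : Nm) : Finite {B : Nm // B ≤ A} := by
  have h : Set.Finite {B : Finset ℕ | B ⊆ A.1} :=
    (A.1.powerset.finite_toSet).subset fun B hB => Finset.mem_coe.2 (Finset.mem_powerset.2 hB)
  have : Finite {B : Finset ℕ | B ⊆ A.1} := h
  exact Finite.of_injective
    (fun B : {B : Nm // B ≤ A} => (⟨B.1.1, B.2⟩ : {B : Finset ℕ | B ⊆ A.1})) fun B B' h =>
      Subtype.ext (Subtype.ext (congrArg (fun x : {B : Finset ℕ | B ⊆ A.1} => x.1) h))

theorem Nm.card_lt {A B : Nm} (h : A < B) : A.1.card < B.1.card :=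
  Finset.card_lt_card h

theorem exists_xi (R : Nm ⥤ TopCat.{0}) (hR : ∀ A, ContractibleSpace (R.obj A)) :
    ∃ ξ : ∀ A : Nm, C(OrdCx {B : Nm // B ≤ A}, R.obj A), ∀ (A B : Nm) (h : A ≤ B)
      (t : OrdCx {C : Nm // C ≤ A}), ξ B (OrdCx.map (faceIncl h) (faceIncl_mono h) t) =
        (R.map (homOfLE h)).hom (ξ A t) := by
  have hne : ∀ A : Nm, Nonempty C(OrdCx {B : Nm // B ≤ A}, R.obj A) := fun A => by
    have := hR A
    have h1 : PathConnectedSpace (R.obj A) := inferInstance
    exact ⟨ContinuousMap.const _ (Classical.choice h1.nonempty)⟩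
  obtain ⟨ξ, hξ⟩ := exists_ranked (I := Nm) (fun A => A.1.card)
    (T := fun A => C(OrdCx {B : Nm // B ≤ A}, R.obj A))
    (fun B ξ => ∀ (A : Nm) (h : A < B) (t : OrdCx {C : Nm // C ≤ A}),
      ξ B (OrdCx.map (faceIncl h.le) (faceIncl_mono h.le) t) =
        (R.map (homOfLE h.le)).hom (ξ A t))
    (by
      intro B ξ ξ' h1 h2 h3 A h t
      rw [← h2, ← h1 A (Nm.card_lt h)]
      exact h3 A h t)
    (by
      intro B ξ hlow
      have := hR B
      -- the lower family glued on the proper faces of `B`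
      let Q : Type := {p : {C : Nm // C ≤ B} // p < ⟨B, le_refl B⟩}
      have hQ : ∀ q : Q, q.1.1 < B := fun q => q.2
      let j : ∀ q : Q, {p : Q // p ≤ q} → {C : Nm // C ≤ q.1.1} := fun q p => ⟨p.1.1.1, p.2⟩
      have hj : ∀ q, Monotone (j q) := fun q _ _ h => h
      let φ : ∀ q : Q, C(OrdCx {p : Q // p ≤ q}, R.obj B) := fun q =>
        ⟨fun t => (R.map (homOfLE (hQ q).le)).hom (ξ q.1.1 (OrdCx.map (j q) (hj q) t)),
          (R.map (homOfLE (hQ q).le)).hom.continuous.comp ((ξ q.1.1).continuous.comp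
            (OrdCx.continuous_map _ _))⟩
      have hφ : ∀ (q q' : Q) (h : q ≤ q') (t : OrdCx {p // p ≤ q}),
          φ q' (OrdCx.map (OrdCx.leIncl h) (OrdCx.leIncl_mono h) t) = φ q t := by
        intro q q' h t
        show (R.map (homOfLE (hQ q').le)).hom (ξ q'.1.1 (OrdCx.map (j q') (hj q') _)) =
          (R.map (homOfLE (hQ q).le)).hom (ξ q.1.1 (OrdCx.map (j q) (hj q) t))
        rw [OrdCx.map_map]
        have e1 : OrdCx.map (fun p => j q' (OrdCx.leIncl h p))
            (fun _ _ h' => hj q' (OrdCx.leIncl_mono h h')) t =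
            OrdCx.map (faceIncl (A := q.1.1) (B := q'.1.1) h) (faceIncl_mono _)
              (OrdCx.map (j q) (hj q) t) := by
          rw [OrdCx.map_map]
          rfl
        rw [e1]
        have e2 : ξ q'.1.1 (OrdCx.map (faceIncl (A := q.1.1) (B := q'.1.1) h) (faceIncl_mono _)
              (OrdCx.map (j q) (hj q) t)) =
            (R.map (homOfLE (show q.1.1 ≤ q'.1.1 from h))).hom
              (ξ q.1.1 (OrdCx.map (j q) (hj q) t)) := by
          rcases eq_or_lt_of_le (show q.1.1 ≤ q'.1.1 from h) with h0 | h0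
          · have h1 : q = q' := Subtype.ext (Subtype.ext h0)
            subst h1
            rw [OrdCx.map_id' _ (faceIncl_mono _) fun p => rfl]
            have : (homOfLE (show q.1.1 ≤ q.1.1 from h)) = 𝟙 q.1.1 := rfl
            rw [this, R.map_id]
            rfl
          · exact hlow q'.1.1 (Nm.card_lt (hQ q')) q.1.1 h0 _
        rw [e2, ← homOfLE_comp (show q.1.1 ≤ q'.1.1 from h) (hQ q').le, R.map_comp]
        rfl
      obtain ⟨f, hf⟩ := OrdCx.exists_glue_top φ hφ
      obtain ⟨g, hg⟩ := OrdCx.exists_cone_ext (P := {C : Nm // C ≤ B}) ⟨B, le_refl B⟩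
        (fun p => p.2) f
      refine ⟨Function.update ξ B g, fun A hA => ?_, fun A h t => ?_⟩
      · rw [Function.update_of_ne]
        rintro rfl
        exact lt_irrefl _ hA
      · rw [Function.update_self, Function.update_of_ne h.ne]
        let q : Q := ⟨⟨A, h.le⟩, h⟩
        let i : {C : Nm // C ≤ A} → {p : Q // p ≤ q} := fun C =>
          ⟨⟨⟨C.1, C.2.trans h.le⟩, (lt_of_le_of_lt C.2 h : C.1 < B)⟩, C.2⟩
        have hi : Monotone i := fun _ _ h => h
        have e1 : OrdCx.map (faceIncl h.le) (faceIncl_mono h.le) t =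
            OrdCx.map Subtype.val (fun _ _ h => h) (OrdCx.map (P := {p : Q // p ≤ q})
              Subtype.val (OrdCx.val_mono _) (OrdCx.map i hi t)) := by
          rw [OrdCx.map_map, OrdCx.map_map]
          rfl
        rw [e1, hg, hf]
        show (R.map (homOfLE (hQ q).le)).hom (ξ q.1.1 (OrdCx.map (j q) (hj q)
          (OrdCx.map i hi t))) = _
        rw [OrdCx.map_map, OrdCx.map_id' _ _ fun p => rfl])
  refine ⟨ξ, fun A B h t => ?_⟩
  rcases eq_or_lt_of_le h with h0 | h0
  · subst h0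
    rw [OrdCx.map_id' _ (faceIncl_mono _) fun p => rfl]
    have : homOfLE h = 𝟙 A := rfl
    rw [this, R.map_id]
    rfl
  · exact hξ B A h0 t

end HH
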