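import Pool.Agent.HH.RepEx
import Pool.Agent.HH.Xi
import Pool.Agent.HH.BFun

/-!
# HH part 3, module e6 Psi: the comparison map
-/

set_option autoImplicit false

namespace HH

open Classical CategoryTheory

section Psi

variable {z : ZFam Cs} {hz : ZGood z}

/-! ### The representing spaces -/

variable (hz) in
/-- the space representing `K(A)` -/
private noncomputable def RA (A : Nm) : TopCat.{0} := (exists_RA hz A).choose

variable (hz) in
private noncomputable def uA (A : Nm) : (KM z hz).obj A ⟶ PiF.obj (RA hz A) :=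
  (exists_RA hz A).choose_spec.choose

private theorem RA_ctr (A : Nm) : ContractibleSpace (RA hz A) :=
  (exists_RA hz A).choose_spec.choose_spec.1

private theorem RA_ex {A : Nm} {Y : TopCat.{0}} (F : (KM z hz).obj A ⟶ PiF.obj Y) :
    ∃ f : RA hz A ⟶ Y, uA hz A ≫ PiF.map f = F :=
  ((exists_RA hz A).choose_spec.choose_spec.2 Y F).exists

private theorem RA_uniq {A : Nm} {Y : TopCat.{0}} {f g : RA hz A ⟶ Y}
    (h : uA hz A ≫ PiF.map f = uA hz A ≫ PiF.map g) : f = g :=
  ((exists_RA hz A).choose_spec.choose_spec.2 Y (uA hz A ≫ PiF.map g)).unique h rfl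

/-- the map out of the representing space -/
private noncomputable def dR {A : Nm} {Y : TopCat.{0}} (F : (KM z hz).obj A ⟶ PiF.obj Y) :
    RA hz A ⟶ Y := (RA_ex F).choose

private theorem dR_spec {A : Nm} {Y : TopCat.{0}} (F : (KM z hz).obj A ⟶ PiF.obj Y) :
    uA hz A ≫ PiF.map (dR F) = F := (RA_ex F).choose_spec

private theorem dR_uniq {A : Nm} {Y : TopCat.{0}} {F : (KM z hz).obj A ⟶ PiF.obj Y}
    {f : RA hz A ⟶ Y} (h : uA hz A ≫ PiF.map f = F) : dR F = f :=
  RA_uniq ((dR_spec F).trans h.symm)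

/-- the maps of the representing spaces -/
private noncomputable def rm {A B : Nm} (h : A ⟶ B) : RA hz A ⟶ RA hz B :=
  dR ((KM z hz).map h ≫ uA hz B)

private theorem rm_spec {A B : Nm} (h : A ⟶ B) :
    uA hz A ≫ PiF.map (rm h) = (KM z hz).map h ≫ uA hz B := dR_spec _

variable (hz) in
/-- the functor of the representing spaces -/
private noncomputable def RF : Nm ⥤ TopCat.{0} where
  obj A := RA hz A
  map {A B} h := rm h
  map_id A := dR_uniq (by
    rw [PiF.map_id, (KM z hz).map_id, Category.comp_id, Category.id_comp])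
  map_comp {A B C} f g := dR_uniq (by
    rw [PiF.map_comp, ← Category.assoc, rm_spec, Category.assoc, rm_spec, (KM z hz).map_comp,
      Category.assoc])

variable (hz) in
private theorem xi_ex : ∃ ξ : ∀ A : Nm, C(OrdCx {B : Nm // B ≤ A}, (RF hz).obj A),
    ∀ (A B : Nm) (h : A ≤ B) (t : OrdCx {C : Nm // C ≤ A}),
      ξ B (OrdCx.map (faceIncl h) (faceIncl_mono h) t) =
        ((RF hz).map (homOfLE h)).hom (ξ A t) :=
  exists_xi (RF hz) fun A => RA_ctr A

variable (hz) in
private noncomputable def xi (A : Nm) : C(OrdCx {B : Nm // B ≤ A}, (RF hz).obj A) :=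
  (xi_ex hz).choose A

private theorem xi_spec {A B : Nm} (h : A ≤ B) (t : OrdCx {C : Nm // C ≤ A}) :
    xi hz B (OrdCx.map (faceIncl h) (faceIncl_mono h) t) =
      ((RF hz).map (homOfLE h)).hom (xi hz A t) := (xi_ex hz).choose_spec A B h t

/-! ### The comparison map -/

/-- the names of the faces of `p` -/
private noncomputable def fc {G : RMod Cs} (p q : NS z hz G) : {B : Nm // B ≤ p.A} :=
  if h : q.A ≤ p.A then ⟨q.A, h⟩ else ⟨p.A, le_rfl⟩

private theorem fc_mono {G : RMod Cs} (p : NS z hz G) : Monotone (fc p) := by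
  intro q q' h
  obtain ⟨h1, -⟩ := h
  unfold fc
  by_cases h2 : q'.A ≤ p.A
  · rw [dif_pos h2, dif_pos (h1.trans h2)]
    exact h1
  · rw [dif_neg h2]
    exact (dite (q.A ≤ p.A) (fun h => (⟨q.A, h⟩ : {B : Nm // B ≤ p.A}))
      fun _ => ⟨p.A, le_rfl⟩).2

/-- the value at `t` computed with `p` -/
private noncomputable def vl {Y : TopCat.{0}} (p : NS z hz (PiF.obj Y))
    (t : OrdCx (NS z hz (PiF.obj Y))) : Y :=
  (dR p.g).hom (xi hz p.A (OrdCx.map (fc p) (fc_mono p) t))

private theorem vl_cont {Y : TopCat.{0}} (p : NS z hz (PiF.obj Y)) : Continuous (vl p) :=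
  (dR p.g).hom.continuous.comp ((xi hz p.A).continuous.comp (OrdCx.continuous_map _ _))

private theorem vl_eq {Y : TopCat.{0}} {p p' : NS z hz (PiF.obj Y)} (hp : p ≤ p')
    (t : OrdCx (NS z hz (PiF.obj Y))) (ht : ∀ q, t.w q ≠ 0 → q ≤ p) : vl p t = vl p' t := by
  obtain ⟨h, hg⟩ := hp
  have h1 : dR p.g = rm (homOfLE h) ≫ dR p'.g := by
    refine dR_uniq ?_
    rw [PiF.map_comp, ← Category.assoc, rm_spec, Category.assoc, dR_spec]
    exact hg.symm
  have h2 : OrdCx.map (fc p') (fc_mono p') t =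
      OrdCx.map (faceIncl h) (faceIncl_mono h) (OrdCx.map (fc p) (fc_mono p) t) := by
    rw [OrdCx.map_map]
    refine OrdCx.map_congr t _ _ fun q hq => ?_
    obtain ⟨h3, -⟩ := ht q hq
    unfold fc
    rw [dif_pos h3, dif_pos (h3.trans h)]
    rfl
  unfold vl
  rw [h2, xi_spec, h1]
  rfl

private theorem top_ex {G : RMod Cs} (t : OrdCx (NS z hz G)) :
    ∃ p : NS z hz G, t.w p ≠ 0 ∧ ∀ q, t.w q ≠ 0 → q ≤ p := by
  obtain ⟨p, hp⟩ := t.w.support.exists_maximal (OrdCx.supp_nonempty t)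
  refine ⟨p, Finsupp.mem_support_iff.1 hp.1, fun q hq => ?_⟩
  rcases t.chain p q (Finsupp.mem_support_iff.1 hp.1) hq with h | h
  · exact hp.2 (Finsupp.mem_support_iff.2 hq) h
  · exact h

private noncomputable def tpP {G : RMod Cs} (t : OrdCx (NS z hz G)) : NS z hz G :=
  (top_ex t).choose

private theorem tp_ne {G : RMod Cs} (t : OrdCx (NS z hz G)) : t.w (tpP t) ≠ 0 :=
  (top_ex t).choose_spec.1

private theorem le_tp {G : RMod Cs} (t : OrdCx (NS z hz G)) (q) (hq : t.w q ≠ 0) : q ≤ tpP t :=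
  (top_ex t).choose_spec.2 q hq

/-- the comparison map -/
private noncomputable def psf {Y : TopCat.{0}} (t : OrdCx (NS z hz (PiF.obj Y))) : Y :=
  vl (tpP t) t

private theorem psf_eq {Y : TopCat.{0}} (p : NS z hz (PiF.obj Y))
    (t : OrdCx (NS z hz (PiF.obj Y))) (ht : ∀ q, t.w q ≠ 0 → q ≤ p) : psf t = vl p t :=
  vl_eq (ht _ (tp_ne t)) t (le_tp t)

private theorem psf_cont {Y : TopCat.{0}} :
    Continuous (psf : OrdCx (NS z hz (PiF.obj Y)) → Y) := by
  refine OrdCx.continuous_iff.2 fun F hF => ?_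
  rcases F.eq_empty_or_nonempty with h0 | h0
  · subst h0
    have hE : IsEmpty (OrdCx.Simplex (∅ : Finset (NS z hz (PiF.obj Y)))) := by
      refine ⟨fun t => ?_⟩
      have h1 := t.2.2.2
      rw [Finset.sum_empty] at h1
      exact zero_ne_one h1
    exact continuous_iff_continuousAt.2 fun t => (hE.false t).elim
  · obtain ⟨p, hp⟩ := F.exists_maximal h0
    have hle : ∀ q ∈ F, q ≤ p := by
      intro q hq
      rcases hF p hp.1 q hq with h | h
      · exact hp.2 hq h
      · exact h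
    have h1 : (fun t : OrdCx.Simplex F => (psf (OrdCx.ofSimplex F hF t) : Y)) =
        fun t => vl p (OrdCx.ofSimplex F hF t) := by
      funext t
      refine psf_eq p _ fun q hq => hle q ?_
      exact OrdCx.ofSimplex_supp_subset hF t (Finsupp.mem_support_iff.2 hq)
    rw [h1]
    exact (vl_cont p).comp (OrdCx.continuous_ofSimplex F hF)

private theorem dR_comp {A : Nm} {Y Z : TopCat.{0}} (F : (KM z hz).obj A ⟶ PiF.obj Y)
    (f : Y ⟶ Z) : dR (F ≫ PiF.map f) = dR F ≫ f := by
  refine dR_uniq ?_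
  rw [PiF.map_comp, ← Category.assoc, dR_spec]

private theorem psf_nat {Y Z : TopCat.{0}} (f : Y ⟶ Z) (t : OrdCx (NS z hz (PiF.obj Y))) :
    (psf (OrdCx.map (NS.map (PiF.map f)) (NS.map_mono (PiF.map f)) t) : Z) =
      f.hom (psf t) := by
  have h1 : ∀ q, (OrdCx.map (NS.map (PiF.map f)) (NS.map_mono (PiF.map f)) t).w q ≠ 0 →
      q ≤ NS.map (PiF.map f) (tpP t) := by
    intro q hq
    obtain ⟨p, rfl, hp⟩ := OrdCx.map_w_ne.1 hq
    exact NS.map_mono (PiF.map f) (le_tp t p hp)
  rw [psf_eq (NS.map (PiF.map f) (tpP t)) _ h1]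
  have h2 : dR (NS.map (PiF.map f) (tpP t)).g = dR (tpP t).g ≫ f := dR_comp (tpP t).g f
  unfold vl
  rw [h2, OrdCx.map_map]
  rfl

end Psi

/-- **the comparison map** -/
theorem exists_psi (z : ZFam Cs) (hz : ZGood z) : Nonempty (PiF ⋙ BF z hz ⟶ 𝟭 TopCat.{0}) :=
  ⟨{ app := fun Y => TopCat.ofHom ⟨psf, psf_cont⟩
     naturality := fun {Y Z} f => by
      ext t
      exact psf_nat f t }⟩

end HH
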