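import Pool.Agent.HH.FormalCW
import Pool.Agent.HH.CmpPsi
import Pool.Agent.HH.CmpBF
import Pool.Agent.HH.Psi
import Pool.Agent.HH.KEx
import Pool.Agent.HH.OrdCW
import Pool.Agent.HH.HomMP

/-!
# HH part 3: the localisation of the category of models is the homotopy category of CW-complexes,
from the main lemma
-/

set_option autoImplicit false

namespace HH

open Classical CategoryTheory

/-- the comparison with CW-complexes, from the main lemma -/
theorem cs_loc_of_mainL (z : ZFam Cs) (hz : ZGood z) (hM : (tdBF z hz).MainL) :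
    Nonempty ((RMod.W Cs).Localization ≌ Pool.Agent.HH.HoCW.{0}) := by
  obtain ⟨ψ⟩ := exists_psi z hz
  exact cs_loc_of (BF z hz) (fun G => OrdCx.nonempty_cwComplex _)
    (tdBF z hz).E (tdBF z hz).sE (tdBF z hz).tE (tdBF z hz).sE_isW ((tdBF z hz).tE_isW hM)
    ψ ((tdBF z hz).psi_isW ψ hM)

end HH
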