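import Pool.Agent.HH.Core

/-!
# HH stage 1: definitions for Theorem A
-/

set_option autoImplicit false

namespace HH

open Classical

/-- well-formed terms / parallel / connected over a computad: abbreviations -/
abbrev Cptd.Par {S : Sig} (X : Cptd S) (f g : S.T X.V) : Prop := X.m.toGlob.Par f g
abbrev Cptd.Conn {S : Sig} (X : Cptd S) (f g : S.T X.V) : Prop := X.m.toGlob.Conn f g
abbrev Cptd.MContr {S : Sig} (X : Cptd S) (L : ℕ) : Prop := X.m.toGlob.MContr L

/-- positions of disks -/
abbrev D : Type := ℕ × Bool

/-- The disk of dimension `j` (junk convention: cells `(i, ε)` with `i < j`, and `(j, false)`). -/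
def diskG (j : ℕ) : Glob where
  C := D
  dim := fun q => q.1
  src := fun q => (q.1 - 1, false)
  tgt := fun q => (q.1 - 1, true)
  ok := fun q => q.1 < j ∨ (q.1 = j ∧ q.2 = false)

instance diskG_laws (j : ℕ) : (diskG j).Laws where
  ok_src := by
    rintro ⟨i, ε⟩ h h0
    simp only [diskG] at *
    left; omega
  ok_tgt := by
    rintro ⟨i, ε⟩ h h0
    simp only [diskG] at *
    left; omega
  dim_src := by
    rintro ⟨i, ε⟩ h h0
    simp only [diskG] at *
    omega
  dim_tgt := by
    rintro ⟨i, ε⟩ h h0
    simp only [diskG] at *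
    omega
  src_tgt := by
    rintro ⟨i, ε⟩ h h0
    rfl
  tgt_src := by
    rintro ⟨i, ε⟩ h h0
    rfl

/-- Boundary of disk positions: `bdD q r` is `r` if `r.1 < q.1` and `q` if `q.1 ≤ r.1`. -/
def bdD (q r : D) : D := if r.1 < q.1 then r else q

/-- Variables of cylinder type: `z a` (base), `top b`, `cyl b`. -/
inductive CV (A B : Type) : Type
  | z (a : A) : CV A B
  | top (b : B) : CV A B
  | cyl (b : B) : CV A B

namespace CV

/-- assignments on cylinder variables -/
def elim {A B C : Type} (α : A → C) (β e : B → C) : CV A B → C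
  | z a => α a
  | top b => β b
  | cyl b => e b

/-- renaming of cylinder variables -/
def map {A B A' B' : Type} (f : A → A') (g : B → B') : CV A B → CV A' B'
  | z a => z (f a)
  | top b => top (g b)
  | cyl b => cyl (g b)

@[simp] theorem elim_z {A B C : Type} (α : A → C) (β e : B → C) (a : A) :
    elim α β e (z a) = α a := rfl
@[simp] theorem elim_top {A B C : Type} (α : A → C) (β e : B → C) (b : B) :
    elim α β e (top b) = β b := rfl
@[simp] theorem elim_cyl {A B C : Type} (α : A → C) (β e : B → C) (b : B) :
    elim α β e (cyl b) = e b := rfl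
@[simp] theorem map_z {A B A' B' : Type} (f : A → A') (g : B → B') (a : A) :
    map f g (z a) = z (f a) := rfl
@[simp] theorem map_top {A B A' B' : Type} (f : A → A') (g : B → B') (b : B) :
    map f g (top b) = top (g b) := rfl
@[simp] theorem map_cyl {A B A' B' : Type} (f : A → A') (g : B → B') (b : B) :
    map f g (cyl b) = cyl (g b) := rfl

end CV

variable {S : Sig}

/-- The family of cylinder sources (`x j` is a term over `Cyl x (disk j) (disk j) var N j`). -/
abbrev XFam (S : Sig) : Type := ℕ → S.T (CV D D)

/-- The source of the cylinder cell at `p`, given `α`, `β`, `e` on the cells of `W`. -/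
def cs (M : Model S) (x : XFam S) (W : Glob) (α β e : W.C → M.C) (p : W.C) : M.C :=
  M.eval (CV.elim (fun q => α (W.bd p q)) (fun q => β (W.bd p q)) (fun q => e (W.bd p q)))
    (x (W.dim p))

/-- `e p` is a cylinder cell from `α p` to `β p`. -/
def CylAt (M : Model S) (x : XFam S) (W : Glob) (α β e : W.C → M.C) (p : W.C) : Prop :=
  M.ok (e p) ∧ M.dim (e p) = W.dim p + 1 ∧ M.src (e p) = cs M x W α β e p ∧ M.tgt (e p) = β p

/-- A homotopy of level `N`, on cells of dimension `< J`, between the maps `α` and `β`. -/
structure IsCyl (x : XFam S) (N J : ℕ) (W : Glob) (M : Model S) (α β e : W.C → M.C) : Prop where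
  mapα : IsMap J W M.toGlob α
  mapβ : IsMap J W M.toGlob β
  low : ∀ p, W.ok p → W.dim p < N → W.dim p < J → α p = β p
  cyl : ∀ p, W.ok p → N ≤ W.dim p → W.dim p < J → CylAt M x W α β e p

/-- the top end of a cylinder of level `N` (equal to the base end in dimensions `< N`) -/
noncomputable def tp (Z : Cptd S) (W : Glob) (φ : W.C → S.T Z.V) (N : ℕ) (p : W.C) :
    S.T (CV Z.V W.C) :=
  if N ≤ W.dim p then .var (.top p) else (φ p).map .z

/-- The cylinder computad of level `N` on the cells of `W` of dimension `< J`, glued to `Z`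
along `φ`. -/
noncomputable def Cyl (x : XFam S) (Z : Cptd S) (W : Glob) (φ : W.C → S.T Z.V) (N J : ℕ) :
    Cptd S where
  V := CV Z.V W.C
  ok := fun v => match v with
    | .z v => Z.ok v
    | .top p => W.ok p ∧ N ≤ W.dim p ∧ W.dim p < J
    | .cyl p => W.ok p ∧ N ≤ W.dim p ∧ W.dim p < J
  dim := fun v => match v with
    | .z v => Z.dim v
    | .top p => W.dim p
    | .cyl p => W.dim p + 1
  src := fun v => match v with
    | .z v => (Z.src v).map .z
    | .top p => tp Z W φ N (W.src p)
    | .cyl p => (x (W.dim p)).bind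
        (CV.elim (fun q => (φ (W.bd p q)).map .z) (fun q => tp Z W φ N (W.bd p q))
          (fun q => .var (.cyl (W.bd p q))))
  tgt := fun v => match v with
    | .z v => (Z.tgt v).map .z
    | .top p => tp Z W φ N (W.tgt p)
    | .cyl p => .var (.top p)

/-- the cylinder on a globular set -/
noncomputable abbrev CylG (x : XFam S) (a : Glob) (N J : ℕ) : Cptd S :=
  Cyl x (ofGlob S a) a .var N J

/-- the top end of `CylG` -/
noncomputable abbrev tpG (S : Sig) (a : Glob) (N : ℕ) : a.C → S.T (CV a.C a.C) :=
  tp (ofGlob S a) a .var N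

/-- the condition on `x j` -/
def XGoodAt (x : XFam S) (N j : ℕ) : Prop :=
  (CylG x (diskG j) N j).tok (x j) ∧ (CylG x (diskG j) N j).tdim (x j) = j ∧
    (0 < j → (CylG x (diskG j) N j).tsrc (x j) = tpG S (diskG j) N (j - 1, false) ∧
      (CylG x (diskG j) N j).ttgt (x j) = tpG S (diskG j) N (j - 1, true))

/-- `x` is a good family of level `N` up to dimension `L` (included) -/
structure XGood (x : XFam S) (N L : ℕ) : Prop where
  base : x N = .var (.z (N, false))
  at' : ∀ j, N ≤ j → j ≤ L → XGoodAt x N j

/-- families of fillers, one for every operation -/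
abbrev QFam (S : Sig) : Type := (k : S.K) → S.T (CV (S.ar k).C (S.ar k).C)

/-- Extension of a homotopy from variables to terms. -/
def ext (M : Model S) (Q : QFam S) {V : Type} (α β e : V → M.C) : S.T V → M.C
  | .var v => e v
  | .op k γ => M.eval (CV.elim (fun p => M.eval α (γ p)) (fun p => M.eval β (γ p))
      (fun p => ext M Q α β e (γ p))) (Q k)

/-- the condition on `Q k` -/
def QGoodAt (x : XFam S) (Q : QFam S) (N : ℕ) (k : S.K) : Prop :=
  (CylG x (S.ar k) N (S.dm k + 1)).tok (Q k) ∧
  CylAt (CylG x (S.ar k) N (S.dm k + 1)).m x (ofGlob S (S.ar k)).m.toGlob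
    ((CylG x (S.ar k) N (S.dm k + 1)).m.eval fun p => .var (.z p))
    ((CylG x (S.ar k) N (S.dm k + 1)).m.eval (tpG S (S.ar k) N))
    (ext (CylG x (S.ar k) N (S.dm k + 1)).m Q (fun p => .var (.z p)) (tpG S (S.ar k) N)
      (fun p => .var (.cyl p)))
    (.op k .var)

/-- `Q` is a good family of level `N` for the operations of dimension `< L` -/
def QGood (x : XFam S) (Q : QFam S) (N L : ℕ) : Prop :=
  ∀ k, S.kok k → N ≤ S.dm k → S.dm k < L → QGoodAt x Q N k

/-- the condition on the reversal `r j` -/
def RGoodAt (x : XFam S) (r : XFam S) (N j : ℕ) : Prop :=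
  CylAt (CylG x (diskG j) N (j + 1)).m x (diskG j) (tpG S (diskG j) N) (fun q => .var (.z q))
    (fun q => (r q.1).map (CV.map (bdD q) (bdD q))) (j, false) ∧
  (CylG x (diskG j) N (j + 1)).tok (r j)

/-- Globular set obtained from `a` by inserting a cell `cyl v : z v ⟶ top v` at every cell `v` of
dimension `n`; the cells of dimension `n + 1` which started at `v` now start at `top v`. -/
noncomputable def insG (a : Glob) (n : ℕ) : Glob where
  C := CV a.C a.C
  dim := fun v => match v with
    | .z p => a.dim p
    | .top v => a.dim v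
    | .cyl v => a.dim v + 1
  src := fun v => match v with
    | .z p => if a.dim p = n + 1 then .top (a.src p) else .z (a.src p)
    | .top v => .z (a.src v)
    | .cyl v => .z v
  tgt := fun v => match v with
    | .z p => .z (a.tgt p)
    | .top v => .z (a.tgt v)
    | .cyl v => .top v
  ok := fun v => match v with
    | .z p => a.ok p
    | .top v => a.ok v ∧ a.dim v = n
    | .cyl v => a.ok v ∧ a.dim v = n

/-- Globular set obtained from `a` by adding a whisker `cyl v : z v ⟶ top v` at every cell `v` of
dimension `n`. -/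
def whiskG (a : Glob) (n : ℕ) : Glob where
  C := CV a.C a.C
  dim := fun v => match v with
    | .z p => a.dim p
    | .top v => a.dim v
    | .cyl v => a.dim v + 1
  src := fun v => match v with
    | .z p => .z (a.src p)
    | .top v => .z (a.src v)
    | .cyl v => .z v
  tgt := fun v => match v with
    | .z p => .z (a.tgt p)
    | .top v => .z (a.tgt v)
    | .cyl v => .top v
  ok := fun v => match v with
    | .z p => a.ok p
    | .top v => a.ok v ∧ a.dim v = n
    | .cyl v => a.ok v ∧ a.dim v = n

/-- The computad obtained from `X` by a family of expansions of dimension `n`: for every genuine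
index `i`, a new cell `top i` parallel to the `n`-dimensional term `b i` and a new cell
`cyl i : b i ⟶ top i`. -/
def Cptd.exp (X : Cptd S) {I : Type} (okI : I → Prop) (n : ℕ) (b : I → S.T X.V) : Cptd S where
  V := CV X.V I
  ok := fun v => match v with
    | .z v => X.ok v
    | .top i => okI i
    | .cyl i => okI i
  dim := fun v => match v with
    | .z v => X.dim v
    | .top _ => n
    | .cyl _ => n + 1
  src := fun v => match v with
    | .z v => (X.src v).map .z
    | .top i => (X.tsrc (b i)).map .z
    | .cyl i => (b i).map .z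
  tgt := fun v => match v with
    | .z v => (X.tgt v).map .z
    | .top i => (X.ttgt (b i)).map .z
    | .cyl i => .var (.top i)

/-- the arities we need: closed under insertion -/
inductive ArCl (S : Sig) : Glob → Prop
  | ar (k : S.K) : S.kok k → ArCl S (S.ar k)
  | disk (j : ℕ) : ArCl S (diskG j)
  | ins (a : Glob) (n : ℕ) : ArCl S a → ArCl S (insG a n)

/-- The contractibility hypothesis on the signature: all arities are contractible. -/
def Sig.Hyp (S : Sig) : Prop :=
  ∀ a, ArCl S a → ∀ L, (ofGlob S a).MContr L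

/-! ### Data for (A_n) -/

/-- A disk-shaped term evaluated at a cell of a model. -/
def atCell (M : Model S) (t : S.T D) (y : M.C) : M.C := M.eval (M.toGlob.bd y) t

/-- `iv` is an inversion operation for cells of dimension `n + 1`. -/
structure IsInv (S : Sig) (n : ℕ) (iv : S.T D) : Prop where
  ok : (ofGlob S (diskG (n + 1))).tok iv
  dim : (ofGlob S (diskG (n + 1))).tdim iv = n + 1
  src : (ofGlob S (diskG (n + 1))).tsrc iv = .var (n, true)
  tgt : (ofGlob S (diskG (n + 1))).ttgt iv = .var (n, false)

/-- the computad `U_j` = inserted disk -/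
noncomputable abbrev U (S : Sig) (n j : ℕ) : Cptd S := ofGlob S (insG (diskG j) n)

/-- the computad `W(a)` = whiskered arity -/
abbrev Wh (S : Sig) (a : Glob) (n : ℕ) : Cptd S := ofGlob S (whiskG a n)

/-- The condition on the whiskering family `c` (`c j` is a term over `U_j`). -/
def CGoodAt (c : XFam S) (n j : ℕ) : Prop :=
  (U S n j).tok (c j) ∧ (U S n j).tdim (c j) = j ∧
    (n < j → (U S n j).tsrc (c j) = (c (j - 1)).map (CV.map (bdD (j - 1, false)) (bdD (j - 1, false)))
      ∧ (U S n j).ttgt (c j) = (c (j - 1)).map (CV.map (bdD (j - 1, true)) (bdD (j - 1, true))))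

/-- `c` is a good whiskering family of level `n` -/
structure CGood (c : XFam S) (n : ℕ) : Prop where
  base : c n = .var (.z (n, false))
  at' : ∀ j, n ≤ j → CGoodAt c n j

/-- `φ : W(a) ⟶ Z(a)` -/
noncomputable def phiA (c : XFam S) (a : Glob) (n : ℕ) : CV a.C a.C → S.T (CV a.C a.C)
  | .z p => if n ≤ a.dim p then (c (a.dim p)).map (CV.map (a.bd p) (a.bd p)) else .var (.z p)
  | .top p => .var (.top p)
  | .cyl p => .var (.cyl p)

/-- the map `ω_p : U_{dim p} ⟶ W(a)` sending the inserted cell to the inverse of the whisker -/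
noncomputable def omA (iv : S.T D) (a : Glob) (n : ℕ) (p : a.C) : CV D D → S.T (CV a.C a.C)
  | .z q => if q = (n, false) then .var (.top (a.bd p q)) else .var (.z (a.bd p q))
  | .top q => if q = (n, false) then .var (.z (a.bd p q)) else .var (.top (a.bd p q))
  | .cyl q => if q = (n, false) then atCell (Wh S a n).m iv (.var (.cyl (a.bd p q)))
      else .var (.cyl (a.bd p q))

/-- `ψ : Z(a) ⟶ W(a)` -/
noncomputable def psiA (c : XFam S) (iv : S.T D) (a : Glob) (n : ℕ) :
    CV a.C a.C → S.T (CV a.C a.C)
  | .z p => if n < a.dim p then (c (a.dim p)).bind (omA iv a n p) else .var (.z p)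
  | .top v => .var (.top v)
  | .cyl v => atCell (Wh S a n).m iv (atCell (Wh S a n).m iv (.var (.cyl v)))

/-- the universal version of `ψ ∘ ζ_p`, with `ψ ∘ ζ_p = ω_p ∘ μ` -/
noncomputable def muA (c : XFam S) (iv : S.T D) (n j : ℕ) : CV D D → S.T (CV D D)
  | .z q => if n < q.1 then (c q.1).map (CV.map (bdD q) (bdD q))
      else if q = (n, false) then .var (.top q) else .var (.z q)
  | .top q => if q = (n, false) then .var (.z q) else .var (.top q)
  | .cyl q => if q = (n, false) then atCell (U S n j).m iv (.var (.cyl q))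
      else atCell (U S n j).m iv (atCell (U S n j).m iv (.var (.cyl q)))

/-- the disk in `U_j` whose `n`-source is the new cell -/
noncomputable def beU (S : Sig) (n : ℕ) : D → S.T (CV D D) := fun q =>
  if q = (n, false) then .var (.top q) else .var (.z q)

/-- the universal version of `ψ ∘ φ` -/
noncomputable def alU (c : XFam S) (iv : S.T D) (n j : ℕ) : D → S.T (CV D D) := fun q =>
  if n < q.1 then ((c q.1).map (CV.map (bdD q) (bdD q))).bind (muA c iv n j) else beU S n q

/-- The condition on the family `κ` (`κ j` is a term over `U_j`). -/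
def KGoodAt (x c : XFam S) (iv : S.T D) (κ : XFam S) (n j : ℕ) : Prop :=
  (U S n j).tok (κ j) ∧
  CylAt (U S n j).m x (diskG j) (alU c iv n j) (beU S n)
    (fun q => (κ q.1).map (CV.map (bdD q) (bdD q))) (j, false)

/-- `k0` : from the double inverse to the identity -/
structure IsK0 (S : Sig) (n : ℕ) (iv k0 : S.T D) : Prop where
  ok : (ofGlob S (diskG (n + 1))).tok k0
  dim : (ofGlob S (diskG (n + 1))).tdim k0 = n + 2
  src : (ofGlob S (diskG (n + 1))).tsrc k0 =
    atCell (ofGlob S (diskG (n + 1))).m iv
      (atCell (ofGlob S (diskG (n + 1))).m iv (.var (n + 1, false)))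
  tgt : (ofGlob S (diskG (n + 1))).ttgt k0 = .var (n + 1, false)

/-- the cylinder cells from `ψ ∘ φ` to the identity of `W(a)` -/
noncomputable def kapW (κ : XFam S) (iv k0 : S.T D) (a : Glob) (n : ℕ) :
    CV a.C a.C → S.T (CV a.C a.C)
  | .z p => (κ (a.dim p)).bind (omA iv a n p)
  | .top v => .var (.top v)
  | .cyl v => atCell (Wh S a n).m k0 (.var (.cyl v))

/-- E(n), contractibility form (bound `L`). -/
def ExpOK (S : Sig) (L n : ℕ) : Prop :=
  ∀ (X : Cptd S) [X.Good] {I : Type} (okI : I → Prop) (b : I → S.T X.V),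
    (∀ i, okI i → X.tok (b i) ∧ X.tdim (b i) = n) → X.MContr L → (X.exp okI n b).MContr L

/-- E(n), strong form: for every retraction `u` given by parallel terms `y0 i` and
`e0 i : b i ⟶ y0 i`, connectedness is reflected. -/
def ExpStrong (S : Sig) (L n : ℕ) : Prop :=
  ∀ (X : Cptd S) [X.Good] {I : Type} (okI : I → Prop) (b y0 e0 : I → S.T X.V),
    (∀ i, okI i → X.tok (b i) ∧ X.tdim (b i) = n) →
    (∀ i, okI i → X.Par (b i) (y0 i)) →
    (∀ i, okI i → X.tok (e0 i) ∧ X.tdim (e0 i) = n + 1 ∧ X.tsrc (e0 i) = b i ∧
      X.ttgt (e0 i) = y0 i) →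
    ∀ f g, (X.exp okI n b).Par f g → (X.exp okI n b).tdim f < L →
      X.Conn (f.bind (CV.elim .var y0 e0)) (g.bind (CV.elim .var y0 e0)) →
      (X.exp okI n b).Conn f g

/-- (A_n): all whiskered arities are contractible (bound `L`). -/
def AOK (S : Sig) (L n : ℕ) : Prop :=
  ∀ a, ArCl S a → (ofGlob S (whiskG a n)).MContr L

end HH
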