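import Pool.Agent.HH.Defs1

/-!
# HH stage 1b: pasting shapes and the stratified canonical coherator `Cs`
-/

set_option autoImplicit false

namespace HH

open Classical

/-- Height functions of pasting shapes on a finite linear order `T`: consecutive heights differ by
one, the first and the last are zero. The elements of `T` are the cells, of dimension their height. -/
structure Past (T : Type) [LinearOrder T] [Fintype T] (h : T → ℕ) : Prop where
  ne : Nonempty T
  step : ∀ a b : T, a ⋖ b → h a = h b + 1 ∨ h b = h a + 1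
  bot : ∀ a : T, IsMin a → h a = 0
  top : ∀ a : T, IsMax a → h a = 0

/-- The source of `t`: the last `s < t` with `h s + 1 = h t`. -/
noncomputable def pSrc {T : Type} [LinearOrder T] [Fintype T] (h : T → ℕ) (t : T) : T :=
  if H : (Finset.univ.filter (fun s => s < t ∧ h s + 1 = h t)).Nonempty then
    (Finset.univ.filter (fun s => s < t ∧ h s + 1 = h t)).max' H else t

/-- The target of `t`: the first `s > t` with `h s + 1 = h t`. -/
noncomputable def pTgt {T : Type} [LinearOrder T] [Fintype T] (h : T → ℕ) (t : T) : T :=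
  if H : (Finset.univ.filter (fun s => t < s ∧ h s + 1 = h t)).Nonempty then
    (Finset.univ.filter (fun s => t < s ∧ h s + 1 = h t)).min' H else t

/-- The globular set of a height function. -/
noncomputable def pastG (T : Type) [LinearOrder T] [Fintype T] (h : T → ℕ) : Glob where
  C := T
  dim := h
  src := pSrc h
  tgt := pTgt h
  ok := fun _ => True

/-- Codes for pasting shapes. -/
structure PC where
  N : ℕ
  h : Fin (N + 1) → ℕ
  past : Past (Fin (N + 1)) h

/-- positions of a code -/
abbrev PC.P (A : PC) : Type := Fin (A.N + 1)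

/-- The globular set of a code. -/
noncomputable abbrev PC.G (A : PC) : Glob := pastG (Fin (A.N + 1)) A.h

/-- `a` (its genuine part) is isomorphic to a pasting shape. -/
def IsPast (a : Glob) : Prop :=
  ∃ (A : PC) (f : A.P → a.C) (g : a.C → A.P),
    (∀ p, MapAt A.G a f p) ∧ (∀ x, a.ok x → MapAt a A.G g x) ∧
      (∀ p, g (f p) = p) ∧ ∀ x, a.ok x → f (g x) = x

/-- Raw terms of `Cs` over pasting shapes; the operation `coh B f g` has arity `B`. -/
inductive BT : PC → Type
  | var {A : PC} (p : Fin (A.N + 1)) : BT A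
  | coh {A : PC} (B : PC) (f g : BT B) (γ : Fin (B.N + 1) → BT A) : BT A

namespace BT

/-- substitution -/
def bind {A B : PC} (t : BT A) (γ : A.P → BT B) : BT B :=
  match t with
  | var p => γ p
  | coh C f g δ => coh C f g (fun p => (δ p).bind γ)

/-- dimension -/
def dim : {A : PC} → BT A → ℕ
  | A, var p => A.h p
  | _, coh _ f _ _ => f.dim + 1

/-- source -/
noncomputable def src : {A : PC} → BT A → BT A
  | A, var p => var (A.G.src p)
  | _, coh _ f _ γ => f.bind γ

/-- target -/
noncomputable def tgt : {A : PC} → BT A → BT A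
  | A, var p => var (A.G.tgt p)
  | _, coh _ _ g γ => g.bind γ

/-- well-formed terms; the side condition is `dim B ≤ dim f + 1` -/
def ok : {A : PC} → BT A → Prop
  | _, var _ => True
  | _, coh B f g γ => (f.ok ∧ g.ok ∧ f.dim = g.dim ∧
      (0 < f.dim → f.src = g.src ∧ f.tgt = g.tgt) ∧ ∀ p, B.h p ≤ f.dim + 1) ∧
      ∀ p, (γ p).ok ∧ (γ p).dim = B.h p ∧
        (0 < B.h p → (γ p).src = γ (B.G.src p) ∧ (γ p).tgt = γ (B.G.tgt p))

end BT

/-- operation symbols of `Cs` -/
abbrev CsK : Type := Σ B : PC, BT B × BT B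

/-- the translation of raw terms -/
def BT.toTm : {A : PC} → BT A → Tm CsK (fun k => Fin (k.1.N + 1)) (Fin (A.N + 1))
  | _, .var p => .var p
  | _, .coh B f g γ => .op ⟨B, f, g⟩ (fun p => (γ p).toTm)

/-- the inverse translation -/
def BT.ofTm {A : PC} : Tm CsK (fun k => Fin (k.1.N + 1)) (Fin (A.N + 1)) → BT A
  | .var p => .var p
  | .op k γ => .coh k.1 k.2.1 k.2.2 (fun p => BT.ofTm (γ p))

/-- The (dimension-)stratified canonical coherator as a signature. -/
noncomputable def Cs : Sig where
  K := CsK
  kok := fun k => k.2.1.ok ∧ k.2.2.ok ∧ k.2.1.dim = k.2.2.dim ∧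
    (0 < k.2.1.dim → k.2.1.src = k.2.2.src ∧ k.2.1.tgt = k.2.2.tgt) ∧
    ∀ p, k.1.h p ≤ k.2.1.dim + 1
  ar := fun k => k.1.G
  dm := fun k => k.2.1.dim + 1
  bs := fun k => k.2.1.toTm
  bt := fun k => k.2.2.toTm

end HH
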