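import Pool.Agent.HH.PullF

/-!
# HH 2b ENDO: endofunctors of models which do not change the cells are given by an interpretation
(module to prove)

Let `Ψ : RMod E ⥤ RMod E` with bijections `ψ M : (Ψ M).Cell ≃ M.Cell` respecting dimension, source and target,
natural in `M`. For an operation `k` (`E.kok k`) let `T k` be the model of terms over `ofGlob E (E.ar k)` (its laws hold:
`E.Good`, `ofGlob_good`, `m_laws`); put `b k := ψ (T k) (the operation k of Ψ (T k) applied to the cells ψ⁻¹ (var p))`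
(for `¬ E.kok k`: anything, e.g. `.op k .var`).

KEY: for every model `M`, every `k` with `E.kok k` and typed `γ : (E.ar k).C → M.Cell`:
  `ψ M ((Ψ M).o k (ψ⁻¹ ∘ γ)) = M.eval γ (b k)`:
the evaluation `T k ⟶ M`, `t ↦ M.eval γ t` (`eval_mapAt`; `E.Good.full` says that all positions are genuine) is a morphism
of models `φ`; `Ψ φ` commutes with the operation `k`, sends `ψ⁻¹ (var p)` to `ψ⁻¹ (γ p)` by naturality, and
`ψ M (Ψ φ c) = φ (ψ (T k) c)`.

By induction on a typed term `t` over a computad with a typed assignment `γ` in `M`: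
  `ψ M ((Ψ M).eval (ψ⁻¹ ∘ γ) t) = M.eval γ (trans b t)`.
Hence `b` is good: apply this to the boundary terms `E.bs k`, `E.bt k` over `ofGlob E (E.ar k)`, `M = T k`, `γ = var`
(`eval var = id`), since `ψ` respects sources and `Ψ (T k)` satisfies `OpLaws`. The isomorphism `Ψ ≅ pullF b` has the
components `ψ M`; it respects the operations by KEY.
-/

set_option autoImplicit false

namespace HH

open Classical CategoryTheory

variable {E : Sig}

/-- the data of the theorem -/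
structure EndoD (E : Sig) where
  Ψ : RMod E ⥤ RMod E
  ψ : ∀ M : RMod E, (Ψ.obj M).Cell ≃ M.Cell
  hdim : ∀ (M : RMod E) (x : (Ψ.obj M).Cell), M.M.dim (ψ M x).1 = (Ψ.obj M).M.dim x.1
  hsrc : ∀ (M : RMod E) (x : (Ψ.obj M).Cell) (h : 0 < (Ψ.obj M).M.dim x.1),
    M.M.src (ψ M x).1 = (ψ M ⟨(Ψ.obj M).M.src x.1, Glob.Laws.ok_src x.1 x.2 h⟩).1
  htgt : ∀ (M : RMod E) (x : (Ψ.obj M).Cell) (h : 0 < (Ψ.obj M).M.dim x.1),
    M.M.tgt (ψ M x).1 = (ψ M ⟨(Ψ.obj M).M.tgt x.1, Glob.Laws.ok_tgt x.1 x.2 h⟩).1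
  hnat : ∀ {M N : RMod E} (φ : M ⟶ N) (x : (Ψ.obj M).Cell),
    ψ N (RHom.f (Ψ.map φ) x) = RHom.f φ (ψ M x)

namespace EndoD

variable (d : EndoD E)

theorem dim_symm (M : RMod E) (y : M.Cell) :
    (d.Ψ.obj M).M.dim ((d.ψ M).symm y).1 = M.M.dim y.1 := by
  rw [← d.hdim M ((d.ψ M).symm y), Equiv.apply_symm_apply]

/-- typed families of `M` and of `Ψ M` correspond to each other -/
theorem mapAt_psi {M : RMod E} {G : Glob} {γ : G.C → (d.Ψ.obj M).Cell}
    {p : G.C} (h : MapAt G (d.Ψ.obj M).M.toGlob (fun p => (γ p).1) p) :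
    MapAt G M.M.toGlob (fun p => (d.ψ M (γ p)).1) p := by
  obtain ⟨_, h2, h3⟩ := h
  refine ⟨(d.ψ M (γ p)).2, (d.hdim M _).trans h2, fun h0 => ?_⟩
  obtain ⟨h4, h5⟩ := h3 h0
  have h0' : 0 < (d.Ψ.obj M).M.dim (γ p).1 := by rw [h2]; exact h0
  refine ⟨?_, ?_⟩
  · rw [d.hsrc M _ h0']
    have : (⟨(d.Ψ.obj M).M.src (γ p).1, Glob.Laws.ok_src _ (γ p).2 h0'⟩ : (d.Ψ.obj M).Cell) =
        γ (G.src p) := Subtype.ext h4
    rw [this]
  · rw [d.htgt M _ h0']
    have : (⟨(d.Ψ.obj M).M.tgt (γ p).1, Glob.Laws.ok_tgt _ (γ p).2 h0'⟩ : (d.Ψ.obj M).Cell) =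
        γ (G.tgt p) := Subtype.ext h5
    rw [this]

theorem mapAt_symm {M : RMod E} {G : Glob} {γ : G.C → M.Cell}
    {p : G.C} (h : MapAt G M.M.toGlob (fun p => (γ p).1) p) :
    MapAt G (d.Ψ.obj M).M.toGlob (fun p => ((d.ψ M).symm (γ p)).1) p := by
  obtain ⟨_, h2, h3⟩ := h
  refine ⟨((d.ψ M).symm (γ p)).2, (d.dim_symm M _).trans h2, fun h0 => ?_⟩
  obtain ⟨h4, h5⟩ := h3 h0
  have h0' : 0 < (d.Ψ.obj M).M.dim ((d.ψ M).symm (γ p)).1 := by
    rw [d.dim_symm, h2]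
    exact h0
  refine ⟨?_, ?_⟩
  · have e1 : d.ψ M ⟨(d.Ψ.obj M).M.src ((d.ψ M).symm (γ p)).1,
        Glob.Laws.ok_src _ ((d.ψ M).symm (γ p)).2 h0'⟩ = γ (G.src p) := by
      apply Subtype.ext
      rw [← d.hsrc M _ h0', Equiv.apply_symm_apply]
      exact h4
    have e2 := congrArg (d.ψ M).symm e1
    rw [Equiv.symm_apply_apply] at e2
    exact congrArg Subtype.val e2
  · have e1 : d.ψ M ⟨(d.Ψ.obj M).M.tgt ((d.ψ M).symm (γ p)).1,
        Glob.Laws.ok_tgt _ ((d.ψ M).symm (γ p)).2 h0'⟩ = γ (G.tgt p) := by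
      apply Subtype.ext
      rw [← d.htgt M _ h0', Equiv.apply_symm_apply]
      exact h5
    have e2 := congrArg (d.ψ M).symm e1
    rw [Equiv.symm_apply_apply] at e2
    exact congrArg Subtype.val e2

variable [E.Good]

/-- the model of terms over the arity of an operation -/
def tm (k : E.K) (hk : E.kok k) : RMod E :=
  have : (E.ar k).Laws := Sig.Good.ar_laws k hk
  ⟨(ofGlob E (E.ar k)).m, m_laws _, inferInstance⟩

/-- the variables -/
def vc (k : E.K) (hk : E.kok k) (p : (E.ar k).C) : (tm k hk).Cell :=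
  ⟨Tm.var p, Sig.Good.full k hk p⟩

theorem vc_mapAt (k : E.K) (hk : E.kok k) (p : (E.ar k).C) :
    MapAt (E.ar k) (tm k hk).M.toGlob (fun p => (vc k hk p).1) p :=
  ⟨(vc k hk p).2, rfl, fun _ => ⟨rfl, rfl⟩⟩

/-- the operation `k` of `Ψ M` -/
def opCell (M : RMod E) (k : E.K) (hk : E.kok k) (γ : (E.ar k).C → M.Cell)
    (hγ : ∀ p, MapAt (E.ar k) M.M.toGlob (fun p => (γ p).1) p) : (d.Ψ.obj M).Cell :=
  ⟨(d.Ψ.obj M).M.o k (fun p => ((d.ψ M).symm (γ p)).1),
    Model.OpLaws.o_ok k _ hk fun p => d.mapAt_symm (hγ p)⟩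

/-- the interpretation -/
noncomputable def b : Interp E E := fun k =>
  if hk : E.kok k then (d.ψ (tm k hk) (d.opCell (tm k hk) k hk (vc k hk) (vc_mapAt k hk))).1
  else .op k .var

/-- the evaluation morphism -/
def ev {M : RMod E} {k : E.K} (hk : E.kok k) {γ : (E.ar k).C → M.Cell}
    (hγ : ∀ p, MapAt (E.ar k) M.M.toGlob (fun p => (γ p).1) p) : tm k hk ⟶ M :=
  RHom.ofFun (M := tm k hk) (N := M) (M.M.eval fun p => (γ p).1)
    (fun t ht => eval_mapAt (X := ofGlob E (E.ar k)) (M := M.M) (fun v _ => hγ v) t ht)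
    (fun _ _ _ _ => rfl)

/-- **Key formula.** -/
theorem key (M : RMod E) (k : E.K) (hk : E.kok k) (γ : (E.ar k).C → M.Cell)
    (hγ : ∀ p, MapAt (E.ar k) M.M.toGlob (fun p => (γ p).1) p) :
    (d.ψ M (d.opCell M k hk γ hγ)).1 = M.M.eval (fun p => (γ p).1) (d.b k) := by
  have e1 : ∀ p, RHom.f (d.Ψ.map (ev hk hγ)) ((d.ψ (tm k hk)).symm (vc k hk p)) =
      (d.ψ M).symm (γ p) := by
    intro p
    apply (d.ψ M).injective
    rw [d.hnat, Equiv.apply_symm_apply, Equiv.apply_symm_apply]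
    rfl
  have e2 : RHom.f (d.Ψ.map (ev hk hγ)) (d.opCell (tm k hk) k hk (vc k hk) (vc_mapAt k hk)) =
      d.opCell M k hk γ hγ := by
    apply Subtype.ext
    refine (RHom.op (d.Ψ.map (ev hk hγ)) k hk (fun p => (d.ψ (tm k hk)).symm (vc k hk p))
      (fun p => d.mapAt_symm (vc_mapAt k hk p))).trans ?_
    show (d.Ψ.obj M).M.o k _ = (d.Ψ.obj M).M.o k _
    congr 1
    funext p
    exact congrArg Subtype.val (e1 p)
  have e3 : d.b k = (d.ψ (tm k hk) (d.opCell (tm k hk) k hk (vc k hk) (vc_mapAt k hk))).1 :=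
    dif_pos hk
  rw [← e2, d.hnat, e3]
  rfl

/-- evaluation of terms over an arity in `Ψ M` -/
theorem eval_psi (M : RMod E) (k : E.K) (hk : E.kok k) (γ : (E.ar k).C → M.Cell)
    (hγ : ∀ p, MapAt (E.ar k) M.M.toGlob (fun p => (γ p).1) p) (t : E.T (E.ar k).C)
    (ht : (ofGlob E (E.ar k)).tok t) (hok) :
    (d.ψ M ⟨(d.Ψ.obj M).M.eval (fun p => ((d.ψ M).symm (γ p)).1) t, hok⟩).1 =
      M.M.eval (fun p => (γ p).1) (trans d.b t) := by
  induction t with
  | var v =>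
    have : (⟨(d.Ψ.obj M).M.eval (fun p => ((d.ψ M).symm (γ p)).1) (Tm.var v), hok⟩ :
      (d.Ψ.obj M).Cell) = (d.ψ M).symm (γ v) := Subtype.ext rfl
    rw [this, Equiv.apply_symm_apply]
    rfl
  | op k' δ ih =>
    obtain ⟨hk', hδ⟩ := ht
    have hs : ∀ v, (ofGlob E (E.ar k)).ok v → AsgAt (ofGlob E (E.ar k)) (d.Ψ.obj M).M
        (fun p => ((d.ψ M).symm (γ p)).1) v := fun v _ => d.mapAt_symm (hγ v)
    have hev := fun p => eval_mapAt hs (δ p) (hδ p).1
    let c : (E.ar k').C → (d.Ψ.obj M).Cell := fun p =>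
      ⟨(d.Ψ.obj M).M.eval (fun p => ((d.ψ M).symm (γ p)).1) (δ p), (hev p).1⟩
    have hc : ∀ p, MapAt (E.ar k') (d.Ψ.obj M).M.toGlob (fun p => (c p).1) p := by
      intro p
      obtain ⟨h1, h2, h3⟩ := hδ p
      obtain ⟨i1, i2, i3⟩ := hev p
      refine ⟨i1, i2.trans h2, fun hp => ?_⟩
      obtain ⟨j1, j2⟩ := h3 hp
      have hp' : 0 < (ofGlob E (E.ar k)).tdim (δ p) := by rw [h2]; exact hp
      obtain ⟨k1, k2⟩ := i3 hp'
      exact ⟨k1.trans (congrArg ((d.Ψ.obj M).M.eval _) j1),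
        k2.trans (congrArg ((d.Ψ.obj M).M.eval _) j2)⟩
    have e1 := d.key M k' hk' (fun p => d.ψ M (c p)) (fun p => d.mapAt_psi (hc p))
    have e2 : d.opCell M k' hk' (fun p => d.ψ M (c p)) (fun p => d.mapAt_psi (hc p)) =
        ⟨(d.Ψ.obj M).M.eval (fun p => ((d.ψ M).symm (γ p)).1) (Tm.op k' δ), hok⟩ := by
      apply Subtype.ext
      show (d.Ψ.obj M).M.o k' _ = (d.Ψ.obj M).M.o k' _
      congr 1
      funext p
      rw [Equiv.symm_apply_apply]
      rfl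
    rw [e2] at e1
    rw [e1]
    have e3 : (fun p => (d.ψ M (c p)).1) =
        fun p => M.M.eval (fun p => (γ p).1) (trans d.b (δ p)) :=
      funext fun p => ih p (hδ p).1 _
    rw [e3]
    exact (eval_bind M.M (fun p => (γ p).1) (fun p => trans d.b (δ p)) (d.b k')).symm

theorem b_eq {k : E.K} (hk : E.kok k) :
    d.b k = (d.ψ (tm k hk) (d.opCell (tm k hk) k hk (vc k hk) (vc_mapAt k hk))).1 := dif_pos hk

theorem b_good : d.b.Good where
  ok := fun k hk => by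
    rw [d.b_eq hk]
    exact (d.ψ (tm k hk) (d.opCell (tm k hk) k hk (vc k hk) (vc_mapAt k hk))).2
  dim := fun k hk => by
    rw [d.b_eq hk]
    refine (d.hdim (tm k hk) _).trans ?_
    exact Model.OpLaws.o_dim k _ hk fun p => d.mapAt_symm (vc_mapAt k hk p)
  src := fun k hk => by
    rw [d.b_eq hk]
    have hdm : (d.Ψ.obj (tm k hk)).M.dim
        (d.opCell (tm k hk) k hk (vc k hk) (vc_mapAt k hk)).1 = E.dm k :=
      Model.OpLaws.o_dim k _ hk fun p => d.mapAt_symm (vc_mapAt k hk p)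
    have h0 : 0 < (d.Ψ.obj (tm k hk)).M.dim
        (d.opCell (tm k hk) k hk (vc k hk) (vc_mapAt k hk)).1 := by
      rw [hdm]
      exact Sig.Good.dm_pos k hk
    refine (d.hsrc (tm k hk) _ h0).trans ?_
    have e1 : (d.Ψ.obj (tm k hk)).M.src
        (d.opCell (tm k hk) k hk (vc k hk) (vc_mapAt k hk)).1 =
        (d.Ψ.obj (tm k hk)).M.eval (fun p => ((d.ψ (tm k hk)).symm (vc k hk p)).1) (E.bs k) :=
      Model.OpLaws.o_src k _ hk fun p => d.mapAt_symm (vc_mapAt k hk p)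
    have hok : (d.Ψ.obj (tm k hk)).M.ok
        ((d.Ψ.obj (tm k hk)).M.eval (fun p => ((d.ψ (tm k hk)).symm (vc k hk p)).1)
          (E.bs k)) := by
      rw [← e1]
      exact Glob.Laws.ok_src _ (d.opCell (tm k hk) k hk (vc k hk) (vc_mapAt k hk)).2 h0
    have e2 : (⟨(d.Ψ.obj (tm k hk)).M.src
        (d.opCell (tm k hk) k hk (vc k hk) (vc_mapAt k hk)).1,
        Glob.Laws.ok_src _ (d.opCell (tm k hk) k hk (vc k hk) (vc_mapAt k hk)).2 h0⟩ :
        (d.Ψ.obj (tm k hk)).Cell) = ⟨_, hok⟩ := Subtype.ext e1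
    rw [e2, d.eval_psi (tm k hk) k hk (vc k hk) (vc_mapAt k hk) (E.bs k)
      (Sig.Good.ok_bs k hk) hok]
    exact Tm.bind_var_self _
  tgt := fun k hk => by
    rw [d.b_eq hk]
    have hdm : (d.Ψ.obj (tm k hk)).M.dim
        (d.opCell (tm k hk) k hk (vc k hk) (vc_mapAt k hk)).1 = E.dm k :=
      Model.OpLaws.o_dim k _ hk fun p => d.mapAt_symm (vc_mapAt k hk p)
    have h0 : 0 < (d.Ψ.obj (tm k hk)).M.dim
        (d.opCell (tm k hk) k hk (vc k hk) (vc_mapAt k hk)).1 := by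
      rw [hdm]
      exact Sig.Good.dm_pos k hk
    refine (d.htgt (tm k hk) _ h0).trans ?_
    have e1 : (d.Ψ.obj (tm k hk)).M.tgt
        (d.opCell (tm k hk) k hk (vc k hk) (vc_mapAt k hk)).1 =
        (d.Ψ.obj (tm k hk)).M.eval (fun p => ((d.ψ (tm k hk)).symm (vc k hk p)).1) (E.bt k) :=
      Model.OpLaws.o_tgt k _ hk fun p => d.mapAt_symm (vc_mapAt k hk p)
    have hok : (d.Ψ.obj (tm k hk)).M.ok
        ((d.Ψ.obj (tm k hk)).M.eval (fun p => ((d.ψ (tm k hk)).symm (vc k hk p)).1)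
          (E.bt k)) := by
      rw [← e1]
      exact Glob.Laws.ok_tgt _ (d.opCell (tm k hk) k hk (vc k hk) (vc_mapAt k hk)).2 h0
    have e2 : (⟨(d.Ψ.obj (tm k hk)).M.tgt
        (d.opCell (tm k hk) k hk (vc k hk) (vc_mapAt k hk)).1,
        Glob.Laws.ok_tgt _ (d.opCell (tm k hk) k hk (vc k hk) (vc_mapAt k hk)).2 h0⟩ :
        (d.Ψ.obj (tm k hk)).Cell) = ⟨_, hok⟩ := Subtype.ext e1
    rw [e2, d.eval_psi (tm k hk) k hk (vc k hk) (vc_mapAt k hk) (E.bt k)
      (Sig.Good.ok_bt k hk) hok]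
    exact Tm.bind_var_self _

/-- the components of the isomorphism -/
noncomputable def hom (M : RMod E) : d.Ψ.obj M ⟶ (pullF d.b d.b_good).obj M :=
  (show RHom (d.Ψ.obj M) (M.pull d.b d.b_good) from
  { f := d.ψ M
    dim := d.hdim M
    src := d.hsrc M
    tgt := d.htgt M
    op := fun k hk γ hγ => by
      have h1 := d.key M k hk (fun p => d.ψ M (γ p)) (fun p => d.mapAt_psi (hγ p))
      have h2 : d.opCell M k hk (fun p => d.ψ M (γ p)) (fun p => d.mapAt_psi (hγ p)) =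
          ⟨(d.Ψ.obj M).M.o k (fun p => (γ p).1), Model.OpLaws.o_ok k _ hk hγ⟩ := by
        apply Subtype.ext
        show (d.Ψ.obj M).M.o k _ = (d.Ψ.obj M).M.o k _
        congr 1
        funext p
        rw [Equiv.symm_apply_apply]
      rw [h2] at h1
      exact h1 })

noncomputable def inv (M : RMod E) : (pullF d.b d.b_good).obj M ⟶ d.Ψ.obj M :=
  (show RHom (M.pull d.b d.b_good) (d.Ψ.obj M) from
  { f := (d.ψ M).symm
    dim := d.dim_symm M
    src := fun x h => by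
      have h0' : 0 < (d.Ψ.obj M).M.dim ((d.ψ M).symm x).1 := by
        rw [d.dim_symm]
        exact h
      have e1 : d.ψ M ⟨(d.Ψ.obj M).M.src ((d.ψ M).symm x).1,
          Glob.Laws.ok_src _ ((d.ψ M).symm x).2 h0'⟩ =
          ⟨M.M.src x.1, Glob.Laws.ok_src x.1 x.2 h⟩ := by
        apply Subtype.ext
        rw [← d.hsrc M _ h0', Equiv.apply_symm_apply]
      have e2 := congrArg (d.ψ M).symm e1
      rw [Equiv.symm_apply_apply] at e2
      exact congrArg Subtype.val e2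
    tgt := fun x h => by
      have h0' : 0 < (d.Ψ.obj M).M.dim ((d.ψ M).symm x).1 := by
        rw [d.dim_symm]
        exact h
      have e1 : d.ψ M ⟨(d.Ψ.obj M).M.tgt ((d.ψ M).symm x).1,
          Glob.Laws.ok_tgt _ ((d.ψ M).symm x).2 h0'⟩ =
          ⟨M.M.tgt x.1, Glob.Laws.ok_tgt x.1 x.2 h⟩ := by
        apply Subtype.ext
        rw [← d.htgt M _ h0', Equiv.apply_symm_apply]
      have e2 := congrArg (d.ψ M).symm e1
      rw [Equiv.symm_apply_apply] at e2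
      exact congrArg Subtype.val e2
    op := fun k hk γ hγ => by
      have h1 : d.ψ M (d.opCell M k hk γ hγ) =
          ⟨(M.pull d.b d.b_good).M.o k (fun p => (γ p).1), Model.OpLaws.o_ok k _ hk hγ⟩ :=
        Subtype.ext (d.key M k hk γ hγ)
      have h2 := congrArg (d.ψ M).symm h1
      rw [Equiv.symm_apply_apply] at h2
      exact (congrArg Subtype.val h2).symm })

/-- the isomorphism -/
noncomputable def iso : d.Ψ ≅ pullF d.b d.b_good :=
  NatIso.ofComponents (fun M =>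
    { hom := d.hom M
      inv := d.inv M
      hom_inv_id := by
        refine RHom.ext ?_
        funext x
        exact (d.ψ M).symm_apply_apply x
      inv_hom_id := by
        refine RHom.ext ?_
        funext x
        exact (d.ψ M).apply_symm_apply x })
    (by
      intro M N φ
      refine RHom.ext ?_
      funext x
      exact d.hnat φ x)

end EndoD

theorem endo_twist [E.Good] (Ψ : RMod E ⥤ RMod E) (ψ : ∀ M : RMod E, (Ψ.obj M).Cell ≃ M.Cell)
    (hdim : ∀ (M : RMod E) (x : (Ψ.obj M).Cell), M.M.dim (ψ M x).1 = (Ψ.obj M).M.dim x.1)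
    (hsrc : ∀ (M : RMod E) (x : (Ψ.obj M).Cell) (h : 0 < (Ψ.obj M).M.dim x.1),
      M.M.src (ψ M x).1 = (ψ M ⟨(Ψ.obj M).M.src x.1, Glob.Laws.ok_src x.1 x.2 h⟩).1)
    (htgt : ∀ (M : RMod E) (x : (Ψ.obj M).Cell) (h : 0 < (Ψ.obj M).M.dim x.1),
      M.M.tgt (ψ M x).1 = (ψ M ⟨(Ψ.obj M).M.tgt x.1, Glob.Laws.ok_tgt x.1 x.2 h⟩).1)
    (hnat : ∀ {M N : RMod E} (φ : M ⟶ N) (x : (Ψ.obj M).Cell),
      ψ N (RHom.f (Ψ.map φ) x) = RHom.f φ (ψ M x)) :
    ∃ (b : Interp E E) (hb : b.Good), Nonempty (Ψ ≅ pullF b hb) := by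
  let d : EndoD E := ⟨Ψ, ψ, hdim, hsrc, htgt, hnat⟩
  exact ⟨d.b, d.b_good, ⟨d.iso⟩⟩

end HH
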