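import Pool.Agent.HH.Defs3

/-!
# HH part 3, module d5: increasing enumerations and images of finite sets
-/

set_option autoImplicit false

namespace HH

open Classical

private theorem en_finite (B : Finset ℕ) : {a | a ∈ B}.Finite := B.finite_toSet

private theorem en_toFinset (B : Finset ℕ) : (en_finite B).toFinset = B := by
  ext a
  simp

/-- members of the enumeration -/
theorem enumF_mem {B : Finset ℕ} {i : ℕ} (hi : i < B.card) : enumF B i ∈ B := by
  have h := Nat.nth_mem_of_lt_card (en_finite B) (n := i) (by rwa [en_toFinset])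
  exact h

theorem enumF_strictMonoOn (B : Finset ℕ) : StrictMonoOn (enumF B) (Set.Iio B.card) := by
  have h := Nat.nth_strictMonoOn (en_finite B)
  rw [en_toFinset] at h
  exact h

/-- a strictly increasing map onto `B` is the enumeration of `B` -/
theorem enumF_unique {B : Finset ℕ} {n : ℕ} {g : ℕ → ℕ} (hg : StrictMonoOn g (Set.Iio n))
    (hB : (Finset.range n).image g = B) {i : ℕ} (hi : i < n) : enumF B i = g i := by
  have hmem : g i ∈ B := by
    rw [← hB]
    exact Finset.mem_image_of_mem g (Finset.mem_range.2 hi)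
  have hcount : Nat.count (fun a => a ∈ B) (g i) = i := by
    rw [Nat.count_eq_card_filter_range]
    have h1 : (Finset.range (g i)).filter (fun a => a ∈ B) = (Finset.range i).image g := by
      ext a
      simp only [Finset.mem_filter, Finset.mem_range, Finset.mem_image]
      constructor
      · rintro ⟨h1, h2⟩
        rw [← hB, Finset.mem_image] at h2
        obtain ⟨j, hj, rfl⟩ := h2
        rw [Finset.mem_range] at hj
        exact ⟨j, (hg.lt_iff_lt hj hi).1 h1, rfl⟩
      · rintro ⟨j, hj, rfl⟩
        have hjn : j < n := hj.trans hi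
        refine ⟨hg hjn hi hj, ?_⟩
        rw [← hB]
        exact Finset.mem_image_of_mem g (Finset.mem_range.2 hjn)
    rw [h1, Finset.card_image_of_injOn, Finset.card_range]
    intro a ha b hb hab
    rw [Finset.mem_coe, Finset.mem_range] at ha hb
    exact hg.injOn (ha.trans hi) (hb.trans hi) hab
  have h2 := Nat.nth_count (p := fun a => a ∈ B) hmem
  rw [hcount] at h2
  exact h2

theorem enumF_injOn {B C : Finset ℕ} (hC : C ⊆ Finset.range B.card) :
    Set.InjOn (enumF B) C :=
  (enumF_strictMonoOn B).injOn.mono fun _ ha => Finset.mem_range.1 (hC ha)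

theorem image_enumF_subset {B C : Finset ℕ} (hC : C ⊆ Finset.range B.card) :
    C.image (enumF B) ⊆ B := by
  intro a ha
  obtain ⟨i, hi, rfl⟩ := Finset.mem_image.1 ha
  exact enumF_mem (Finset.mem_range.1 (hC hi))

theorem card_image_enumF {B C : Finset ℕ} (hC : C ⊆ Finset.range B.card) :
    (C.image (enumF B)).card = C.card :=
  Finset.card_image_of_injOn (enumF_injOn hC)

theorem image_enumF_range (B : Finset ℕ) : (Finset.range B.card).image (enumF B) = B := by
  refine Finset.eq_of_subset_of_card_le (image_enumF_subset subset_rfl) ?_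
  rw [card_image_enumF subset_rfl, Finset.card_range]

/-- the enumeration of an image under an increasing map -/
theorem enumF_image {f : ℕ → ℕ} {B : Finset ℕ} (hf : StrictMonoOn f B) {i : ℕ}
    (hi : i < B.card) : enumF (B.image f) i = f (enumF B i) := by
  refine enumF_unique (g := fun j => f (enumF B j)) (n := B.card) ?_ ?_ hi
  · intro a ha b hb hab
    exact hf (enumF_mem ha) (enumF_mem hb) (enumF_strictMonoOn B ha hb hab)
  · conv_rhs => rw [← image_enumF_range B]
    rw [Finset.image_image]
    rfl

/-- enumerations are transitive -/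
theorem image_enumF_image {B C D : Finset ℕ} (hC : C ⊆ Finset.range B.card)
    (hD : D ⊆ Finset.range C.card) :
    (D.image (enumF C)).image (enumF B) = D.image (enumF (C.image (enumF B))) := by
  rw [Finset.image_image]
  refine Finset.image_congr fun i hi => ?_
  have hi' : i < C.card := Finset.mem_range.1 (hD hi)
  exact (enumF_image ((enumF_strictMonoOn B).mono fun a ha => Finset.mem_range.1 (hC ha)) hi').symm

/-- `dmax` commutes with increasing maps -/
theorem dmax_image' {f : ℕ → ℕ} {C : Finset ℕ} (hf : StrictMonoOn f C) :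
    dmax (C.image f) = (dmax C).image f := by
  ext a
  simp only [dmax, Finset.mem_filter, Finset.mem_image]
  constructor
  · rintro ⟨⟨i, hi, rfl⟩, ⟨_, ⟨j, hj, rfl⟩, hij⟩⟩
    exact ⟨i, ⟨hi, j, hj, (hf.lt_iff_lt hi hj).1 hij⟩, rfl⟩
  · rintro ⟨i, ⟨hi, j, hj, hij⟩, rfl⟩
    exact ⟨⟨i, hi, rfl⟩, f j, ⟨j, hj, rfl⟩, hf hi hj hij⟩

theorem dmax_image {B C : Finset ℕ} (hC : C ⊆ Finset.range B.card) :
    dmax (C.image (enumF B)) = (dmax C).image (enumF B) :=
  dmax_image' ((enumF_strictMonoOn B).mono fun _ ha => Finset.mem_range.1 (hC ha))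

theorem dmax_subset (B : Finset ℕ) : dmax B ⊆ B := Finset.filter_subset _ _

theorem dmax_eq_erase {B : Finset ℕ} (hB : B.Nonempty) : dmax B = B.erase (B.max' hB) := by
  ext a
  simp only [dmax, Finset.mem_filter, Finset.mem_erase]
  constructor
  · rintro ⟨ha, j, hj, haj⟩
    exact ⟨(haj.trans_le (B.le_max' j hj)).ne, ha⟩
  · rintro ⟨h1, h2⟩
    exact ⟨h2, B.max' hB, B.max'_mem hB, lt_of_le_of_ne (B.le_max' a h2) h1⟩

theorem card_dmax {B : Finset ℕ} (hB : B.Nonempty) : (dmax B).card + 1 = B.card := by
  rw [dmax_eq_erase hB, Finset.card_erase_add_one (B.max'_mem hB)]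

theorem dmax_range (n : ℕ) : dmax (Finset.range (n + 1)) = Finset.range n := by
  ext a
  simp only [dmax, Finset.mem_filter, Finset.mem_range]
  constructor
  · rintro ⟨_, j, hj, haj⟩
    omega
  · intro ha
    exact ⟨by omega, n, by omega, ha⟩

/-- `dmax` of a cone -/
theorem dmax_insert {B : Finset ℕ} {m : ℕ} (hm : ∀ a ∈ B, a < m) : dmax (insert m B) = B := by
  ext a
  simp only [dmax, Finset.mem_filter, Finset.mem_insert]
  constructor
  · rintro ⟨rfl | ha, j, rfl | hj, haj⟩
    · exact absurd haj (lt_irrefl _)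
    · exact absurd haj (hm j hj).le.not_gt
    · exact ha
    · exact ha
  · intro ha
    exact ⟨Or.inr ha, m, Or.inl rfl, hm a ha⟩

theorem dmax_eq_image {B : Finset ℕ} (hB : B.Nonempty) :
    dmax B = (Finset.range (B.card - 1)).image (enumF B) := by
  have h1 : B.card = B.card - 1 + 1 := by
    have := hB.card_pos
    omega
  have h2 : dmax ((Finset.range B.card).image (enumF B)) =
      (dmax (Finset.range B.card)).image (enumF B) := dmax_image subset_rfl
  rw [image_enumF_range] at h2
  rw [h2]
  congr 1
  rw [h1, dmax_range, Nat.add_sub_cancel]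

end HH
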