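import Pool.Agent.HH.Defs3
import Pool.Agent.HH.Rank

/-!
# HH part 3, module ExtA: extension of substitutions into contractible models
-/

set_option autoImplicit false

namespace HH

open Classical CategoryTheory

variable {S : Sig}

/-! ## d2 ExtA : extension of substitutions into contractible models -/

/-- being a substitution at `v` only depends on the values at `v` and at the variables of smaller
dimension -/
theorem ExtA_congr_lt [S.Strat] {X : Cptd S} [hX : X.Good] {M : Model S} {γ γ' : X.V → M.C}
    {v : X.V} (hv : X.ok v) (h : AsgAt X M γ v)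
    (h1 : ∀ w, X.ok w → X.dim w < X.dim v → γ w = γ' w) (h2 : γ v = γ' v) :
    AsgAt X M γ' v := by
  obtain ⟨a1, a2, a3⟩ := h
  refine ⟨h2 ▸ a1, h2 ▸ a2, fun h0 => ?_⟩
  obtain ⟨b1, b2⟩ := a3 h0
  have ds := hX.dim_src v hv h0
  have dt := hX.dim_tgt v hv h0
  have e1 : M.eval γ (X.src v) = M.eval γ' (X.src v) :=
    eval_congr_lt (L := X.dim v) (X.src v) (hX.ok_src v hv h0) (by omega) h1
  have e2 : M.eval γ (X.tgt v) = M.eval γ' (X.tgt v) :=
    eval_congr_lt (L := X.dim v) (X.tgt v) (hX.ok_tgt v hv h0) (by omega) h1
  exact ⟨by rw [← h2, b1, e1], by rw [← h2, b2, e2]⟩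

theorem exists_ext_asg [S.Good] [S.Strat] {X : Cptd S} [X.Good] {q : X.V → Prop}
    (hq : ∀ v, q v → X.ok v) (hqg : (X.res q).Good) {M : Model S} [M.OpLaws] [M.toGlob.Laws]
    (hM : M.toGlob.Ctr) {γ0 : X.V → M.C} (h0 : ∀ v, q v → AsgAt X M γ0 v) :
    ∃ γ : X.V → M.C, (∀ v, X.ok v → AsgAt X M γ v) ∧ ∀ v, q v → γ v = γ0 v := by
  obtain ⟨⟨x0, hx0, dx0⟩, hC⟩ := hM
  have : Nonempty M.C := ⟨x0⟩
  have hX : X.Good := inferInstance
  obtain ⟨γ, hγ⟩ := exists_ranked (I := X.V) X.dim (T := fun _ => M.C)
    (fun v γ => X.ok v → AsgAt X M γ v ∧ (q v → γ v = γ0 v))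
    (by
      intro v t t' h1 h2 hP hv
      obtain ⟨p1, p2⟩ := hP hv
      exact ⟨ExtA_congr_lt hv p1 (fun w _ hw => h1 w hw) h2, fun hqv => h2 ▸ p2 hqv⟩)
    (by
      intro v t ih
      by_cases hv : X.ok v
      swap
      · exact ⟨t, fun _ _ => rfl, fun h => absurd h hv⟩
      -- it is enough to find a value
      suffices h : ∃ y : M.C, M.ok y ∧ M.dim y = X.dim v ∧
          (0 < X.dim v → M.src y = M.eval t (X.src v) ∧ M.tgt y = M.eval t (X.tgt v)) ∧
          (q v → y = γ0 v) by
        obtain ⟨y, y1, y2, y3, y4⟩ := h
        refine ⟨Function.update t v y, fun w hw => ?_, fun _ => ⟨?_, fun hqv => ?_⟩⟩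
        · have : w ≠ v := by
            rintro rfl
            exact lt_irrefl _ hw
          exact Function.update_of_ne this _ _
        · have hlow : ∀ w, X.ok w → X.dim w < X.dim v → t w = Function.update t v y w := by
            intro w _ hw
            have : w ≠ v := by
              rintro rfl
              exact lt_irrefl _ hw
            exact (Function.update_of_ne this _ _).symm
          have hs : Function.update t v y v = y := Function.update_self _ _ _
          refine ⟨by rw [hs]; exact y1, by rw [hs]; exact y2, fun hp => ?_⟩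
          obtain ⟨z1, z2⟩ := y3 hp
          have ds := hX.dim_src v hv hp
          have dt := hX.dim_tgt v hv hp
          rw [hs]
          constructor
          · rw [z1]
            exact eval_congr_lt (L := X.dim v) (X.src v) (hX.ok_src v hv hp) (by omega) hlow
          · rw [z2]
            exact eval_congr_lt (L := X.dim v) (X.tgt v) (hX.ok_tgt v hv hp) (by omega) hlow
        · rw [Function.update_self]
          exact y4 hqv
      by_cases hqv : q v
      · obtain ⟨a1, a2, a3⟩ := h0 v hqv
        refine ⟨γ0 v, a1, a2, fun hp => ?_, fun _ => rfl⟩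
        obtain ⟨b1, b2⟩ := a3 hp
        have hlow : ∀ w, (X.res q).ok w → (X.res q).dim w < X.dim v → γ0 w = t w := by
          intro w hw hd
          exact ((ih w hd (hq w hw)).2 hw).symm
        have ds := hqg.dim_src v hqv hp
        have dt := hqg.dim_tgt v hqv hp
        have os := hqg.ok_src v hqv hp
        have ot := hqg.ok_tgt v hqv hp
        have e1 : M.eval γ0 (X.src v) = M.eval t (X.src v) :=
          eval_congr_lt (X := X.res q) (L := X.dim v) (X.src v) os
            (by
              have : (X.res q).tdim ((X.res q).src v) + 1 = X.dim v := ds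
              change (X.res q).tdim ((X.res q).src v) < X.dim v
              omega) hlow
        have e2 : M.eval γ0 (X.tgt v) = M.eval t (X.tgt v) :=
          eval_congr_lt (X := X.res q) (L := X.dim v) (X.tgt v) ot
            (by
              have : (X.res q).tdim ((X.res q).tgt v) + 1 = X.dim v := dt
              change (X.res q).tdim ((X.res q).tgt v) < X.dim v
              omega) hlow
        exact ⟨b1.trans e1, b2.trans e2⟩
      · by_cases hd : X.dim v = 0
        · exact ⟨x0, hx0, dx0.trans hd.symm, fun hp => absurd hd (by omega),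
            fun h => absurd h hqv⟩
        · have hp : 0 < X.dim v := Nat.pos_of_ne_zero hd
          have hasg : IsAsg (X.dim v) X M t := fun w hw hdw => (ih w hdw hw).1
          have hmap := eval_isMap hasg
          have ds := hX.dim_src v hv hp
          have dt := hX.dim_tgt v hv hp
          have os := hX.ok_src v hv hp
          have ot := hX.ok_tgt v hv hp
          obtain ⟨s1, s2, s3⟩ := hmap (X.src v) os (by
            change X.tdim (X.src v) < X.dim v
            omega)
          obtain ⟨t1, t2, t3⟩ := hmap (X.tgt v) ot (by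
            change X.tdim (X.tgt v) < X.dim v
            omega)
          have s2' : M.dim (M.eval t (X.src v)) = X.tdim (X.src v) := s2
          have t2' : M.dim (M.eval t (X.tgt v)) = X.tdim (X.tgt v) := t2
          have hpar : M.toGlob.Par (M.eval t (X.src v)) (M.eval t (X.tgt v)) := by
            refine ⟨s1, t1, by omega, fun h => ?_⟩
            have hs' : 0 < X.m.dim (X.src v) := by
              change 0 < X.tdim (X.src v)
              omega
            have ht' : 0 < X.m.dim (X.tgt v) := by
              change 0 < X.tdim (X.tgt v)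
              omega
            obtain ⟨u1, u2⟩ := s3 hs'
            obtain ⟨w1, w2⟩ := t3 ht'
            have h1v : 1 < X.dim v := by
              have : 0 < X.tdim (X.src v) := hs'
              omega
            have k1 := hX.src_tgt v hv h1v
            have k2 := hX.tgt_src v hv h1v
            refine ⟨u1.trans (Eq.trans ?_ w1.symm), u2.trans (Eq.trans ?_ w2.symm)⟩
            · exact congrArg (M.eval t) k1.symm
            · exact congrArg (M.eval t) k2
          obtain ⟨y, y1, y2, y3, y4⟩ := hC _ _ _ hpar (Nat.lt_succ_self _)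
          exact ⟨y, y1, by omega, fun _ => ⟨y3, y4⟩, fun h => absurd h hqv⟩)
  exact ⟨γ, fun v hv => (hγ v hv).1, fun v hv => (hγ v (hq v hv)).2 hv⟩

end HH
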