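import Pool.Agent.HH.Defs3
import Pool.Agent.HH.Cyl0UP
import Pool.Agent.HH.Ext2
import Pool.Agent.HH.Rank
import Pool.Agent.HH.Acc
import Pool.Agent.HH.ResLem

/-!
# HH part 3, module d3: extension of homotopies into contractible models
-/

set_option autoImplicit false

namespace HH

open Classical CategoryTheory

variable {S : Sig}

/-- the source of a cylinder cell at a variable only depends on the cells at the variables of the
proper iterated boundaries -/
theorem extE_cs_congr [S.Good] {x : XFam S} (hx : ∀ j, XGoodAt x 0 j) {b : Interp S S}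
    {Q : QFam S} {X : Cptd S} {M : Model S} {α β e e' : X.V → M.C} {v : X.V}
    (he : ∀ r : D, r.1 < X.dim v → ∀ w, (X.m.toGlob.bd (.var v) r).HasVar w → e w = e' w) :
    cs M x X.m.toGlob (M.eval α) (fun t => M.eval β (trans b t)) (ext2 M b Q α β e) (.var v) =
      cs M x X.m.toGlob (M.eval α) (fun t => M.eval β (trans b t)) (ext2 M b Q α β e')
        (.var v) := by
  refine cs_congr (N := 0) (hx (X.dim v)).1 (fun _ _ => rfl) (fun _ _ _ => rfl) ?_
  intro q _ hq
  exact ext2_congr _ (fun _ _ => rfl) (fun _ _ => rfl) (fun _ _ => rfl)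
    (fun w hw => he q hq w hw)

theorem extE_res_bd {X : Cptd S} {p : X.V → Prop} (t : S.T X.V) (r : D) :
    (X.res p).m.toGlob.bd t r = X.m.toGlob.bd t r := by
  have h1 : (X.res p).tsrc = X.tsrc := funext fun t => res_tsrc (X := X) (p := p) t
  have h2 : (X.res p).ttgt = X.ttgt := funext fun t => res_ttgt (X := X) (p := p) t
  have h3 : (X.res p).tdim t = X.tdim t := res_tdim t
  show (if r.2 then (X.res p).ttgt else (X.res p).tsrc)^[(X.res p).tdim t - r.1] t =
    (if r.2 then X.ttgt else X.tsrc)^[X.tdim t - r.1] t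
  rw [h1, h2, h3]
  rfl

/-- variables of proper iterated boundaries of a variable -/
theorem extE_bd_var [S.Good] [S.Strat] {X : Cptd S} [X.Good] {v : X.V} (hv : X.ok v) {r : D}
    (hr : r.1 < X.dim v) {w : X.V} (hw : (X.m.toGlob.bd (.var v) r).HasVar w) :
    X.ok w ∧ X.dim w < X.dim v := by
  have hok : X.tok (X.m.toGlob.bd (.var v) r) := ok_bd (G := X.m.toGlob) (x := .var v) hv r
  have hd : X.tdim (X.m.toGlob.bd (.var v) r) = r.1 :=
    dim_bd (G := X.m.toGlob) (x := .var v) hv (q := r) hr.le
  obtain ⟨h1, h2⟩ := Acc_hasVar hok hw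
  exact ⟨h1, lt_of_le_of_lt (h2.trans hd.le) hr⟩

theorem exists_ext_cyl [S.Good] [S.Strat] {d : L0 S} (hd : d.Good) {Q : QFam S}
    (hQ : Q2Good d.x (idI S) Q) {X : Cptd S} [X.Good] {q : X.V → Prop}
    (hq : ∀ v, q v → X.ok v) (hqg : (X.res q).Good) {M : Model S} [M.OpLaws] [M.toGlob.Laws]
    (hM : ∀ L, M.toGlob.MContr L) {α β e0 : X.V → M.C} (hα : ∀ v, X.ok v → AsgAt X M α v)
    (hβ : ∀ v, X.ok v → AsgAt X M β v)
    (h0 : ∀ v, q v → CylAt M d.x X.m.toGlob (M.eval α) (fun t => M.eval β (trans (idI S) t))
      (ext2 M (idI S) Q α β e0) (.var v)) :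
    ∃ e : X.V → M.C, (∀ v, X.ok v → CylAt M d.x X.m.toGlob (M.eval α)
      (fun t => M.eval β (trans (idI S) t)) (ext2 M (idI S) Q α β e) (.var v)) ∧
      ∀ v, q v → e v = e0 v := by
  have hpull : ∀ v, X.ok v → AsgAt X (M.pull (idI S)) β v := by
    intro v hv
    obtain ⟨h1, h2, h3⟩ := hβ v hv
    refine ⟨h1, h2, fun h0 => ?_⟩
    rw [pull_eval, pull_eval, trans_id, trans_id]
    exact h3 h0
  have hB : (fun t : S.T X.V => M.eval β (trans (idI S) t)) = M.eval β := by
    funext t
    rw [trans_id]
  rcases isEmpty_or_nonempty X.V with hV | ⟨⟨v0⟩⟩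
  · exact ⟨e0, fun v => (hV.false v).elim, fun v => (hV.false v).elim⟩
  have : Nonempty M.C := ⟨α v0⟩
  -- moving the family
  have hmove : ∀ (e e' : X.V → M.C) (v : X.V), X.ok v →
      (∀ r : D, r.1 < X.dim v → ∀ w, (X.m.toGlob.bd (.var v) r).HasVar w → e w = e' w) →
      e v = e' v →
      CylAt M d.x X.m.toGlob (M.eval α) (fun t => M.eval β (trans (idI S) t))
        (ext2 M (idI S) Q α β e) (.var v) →
      CylAt M d.x X.m.toGlob (M.eval α) (fun t => M.eval β (trans (idI S) t))
        (ext2 M (idI S) Q α β e') (.var v) := by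
    intro e e' v _ hlow hvv ⟨c1, c2, c3, c4⟩
    refine ⟨?_, ?_, ?_, ?_⟩
    · change M.ok (e' v)
      rw [← hvv]; exact c1
    · change M.dim (e' v) = _
      rw [← hvv]; exact c2
    · change M.src (e' v) = _
      rw [← hvv]
      exact c3.trans (extE_cs_congr hd.hx hlow)
    · change M.tgt (e' v) = _
      rw [← hvv]; exact c4
  obtain ⟨e, he⟩ := exists_ranked (I := X.V) X.dim (T := fun _ => M.C)
    (fun v e => X.ok v → CylAt M d.x X.m.toGlob (M.eval α)
      (fun t => M.eval β (trans (idI S) t)) (ext2 M (idI S) Q α β e) (.var v) ∧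
      (q v → e v = e0 v))
    (by
      intro v e e' hlow hvv hP hv
      obtain ⟨h1, h2⟩ := hP hv
      refine ⟨hmove e e' v hv (fun r hr w hw => hlow w (extE_bd_var hv hr hw).2) hvv h1, ?_⟩
      intro hqv
      rw [← hvv]; exact h2 hqv)
    (by
      intro v e hlow
      by_cases hv : X.ok v
      swap
      · exact ⟨e, fun _ _ => rfl, fun h => absurd h hv⟩
      have hne : ∀ w, X.dim w < X.dim v → w ≠ v := by
        rintro w hw rfl
        exact lt_irrefl _ hw
      by_cases hqv : q v
      · refine ⟨Function.update e v (e0 v), fun w hw => Function.update_of_ne (hne w hw) _ _,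
          fun _ => ⟨?_, fun _ => Function.update_self _ _ _⟩⟩
        refine hmove e0 (Function.update e v (e0 v)) v hv ?_ (by rw [Function.update_self])
          (h0 v hqv)
        intro r hr w hw
        have hlt := (extE_bd_var hv hr hw).2
        rw [Function.update_of_ne (hne w hlt)]
        have hok : (X.res q).tok ((X.res q).m.toGlob.bd (.var v) r) :=
          ok_bd (G := (X.res q).m.toGlob) (x := .var v) hqv r
        rw [extE_res_bd] at hok
        have hqw : q w := hasVar_ok (X := X.res q) hok hw
        exact ((hlow w hlt (hq w hqw)).2 hqw).symm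
      · have hcyl : ∀ r : D, r.1 < X.dim v → CylAt M d.x X.m.toGlob (M.eval α)
            (fun s => M.eval β (trans (idI S) s)) (ext2 M (idI S) Q α β e)
            (X.m.toGlob.bd (.var v) r) := by
          intro r hr
          have hok : X.tok (X.m.toGlob.bd (.var v) r) :=
            ok_bd (G := X.m.toGlob) (x := .var v) hv r
          refine ext2_cylAt hd.hx idI_good hok (fun k hk => hQ k (hasOp_ok hok hk))
            (fun w hw => hα w (hasVar_ok hok hw)) (fun w hw => hpull w (hasVar_ok hok hw))
            (fun w hw => ?_)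
          obtain ⟨w1, w2⟩ := extE_bd_var hv hr hw
          exact (hlow w w2 w1).1
        obtain ⟨c1, c2, c3⟩ := Cyl0UP_cs hd.hx (W := X.m.toGlob) (p := .var v) (M := M)
          (α := M.eval α) (β := fun s => M.eval β (trans (idI S) s))
          (e := ext2 M (idI S) Q α β e) hv
          (fun r _ => eval_mapAt hα _ (ok_bd (G := X.m.toGlob) (x := .var v) hv r))
          (fun r _ => by
            have h := eval_mapAt hβ _ (ok_bd (G := X.m.toGlob) (x := .var v) hv r)
            rw [← hB] at h
            exact h) hcyl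
        obtain ⟨b1, b2, b3⟩ := hβ v hv
        obtain ⟨f, f1, f2, f3, f4⟩ := hM (X.dim v + 1)
          (cs M d.x X.m.toGlob (M.eval α) (fun s : S.T X.V => M.eval β (trans (idI S) s))
            (ext2 M (idI S) Q α β e) (.var v)) (β v)
          ⟨c1, b1, c2.trans b2.symm, fun h => by
            have h' : 0 < X.m.toGlob.dim (.var v) := lt_of_lt_of_eq h c2
            obtain ⟨u1, u2⟩ := c3 h'
            obtain ⟨t1, t2⟩ := b3 h'
            refine ⟨u1.trans ?_, u2.trans ?_⟩
            · rw [trans_id]
              exact t1.symm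
            · rw [trans_id]
              exact t2.symm⟩
          (lt_of_eq_of_lt c2 (Nat.lt_succ_self _))
        refine ⟨Function.update e v f, fun w hw => Function.update_of_ne (hne w hw) _ _,
          fun _ => ⟨?_, fun h => absurd h hqv⟩⟩
        have hself : Function.update e v f v = f := Function.update_self _ _ _
        refine ⟨?_, ?_, ?_, ?_⟩
        · change M.ok (Function.update e v f v)
          rw [hself]; exact f1
        · change M.dim (Function.update e v f v) = _
          rw [hself]
          exact f2.trans (congrArg (· + 1) c2)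
        · change M.src (Function.update e v f v) = _
          rw [hself]
          refine f3.trans (extE_cs_congr hd.hx ?_)
          intro r hr w hw
          exact (Function.update_of_ne (hne w (extE_bd_var hv hr hw).2) _ _).symm
        · change M.tgt (Function.update e v f v) = _
          rw [hself]
          exact f4)
  exact ⟨e, fun v hv => (he v hv).1, fun v hqv => (he v (hq v hqv)).2 hqv⟩

end HH
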