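import Pool.Agent.HH.PullF
import Pool.Agent.HH.ExSig
import Pool.Agent.HH.Bd
import Pool.Agent.HH.LocEq
import Pool.Agent.HH.L0Ex
import Pool.Agent.HH.ExContr
import Pool.Agent.HH.PthF

/-!
# HH stage 2, module c20: the localisations are equivalent
-/

set_option autoImplicit false

namespace HH

open Classical CategoryTheory

variable {S E R : Sig}

namespace LocEx

/-- cells of a model of a signature with units are connected to themselves -/
theorem conn_refl {d : L0 S} (hd : d.Good) (M : RMod S) {y : M.M.C} (hy : M.M.ok y) :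
    M.M.toGlob.Conn y y := by
  have := M.laws
  have := M.ops
  obtain ⟨h1, h2, h3⟩ := eval_mapAt (X := ofGlob S (diskG (M.M.dim y))) (M := M.M)
    (γ := M.M.toGlob.bd y) (fun q hq => bd_mapAt hy hq) (d.un (M.M.dim y)) (hd.un_ok _)
  have h0 : 0 < (ofGlob S (diskG (M.M.dim y))).tdim (d.un (M.M.dim y)) := by
    rw [hd.un_dim]
    exact Nat.succ_pos _
  obtain ⟨h4, h5⟩ := h3 h0
  have e : M.M.toGlob.bd y (M.M.dim y, false) = y := bd_of_le y _ (le_refl _)
  refine ⟨_, h1, h2.trans (hd.un_dim _), h4.trans ?_, h5.trans ?_⟩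
  · exact (congrArg (M.M.eval _) (hd.un_src _)).trans e
  · exact (congrArg (M.M.eval _) (hd.un_tgt _)).trans e

/-- a morphism which is bijective on cells is a weak equivalence -/
theorem isW_of_bij {d : L0 S} (hd : d.Good) {M N : RMod S} (F : M ⟶ N) (g : N.Cell → M.Cell)
    (hg : ∀ y, RHom.f F (g y) = y) (hdim : ∀ y, M.M.dim (g y).1 = N.M.dim y.1)
    (hsrc : ∀ (y : N.Cell) (x : M.Cell), N.M.src y.1 = (RHom.f F x).1 → M.M.src (g y).1 = x.1)
    (htgt : ∀ (y : N.Cell) (x : M.Cell), N.M.tgt y.1 = (RHom.f F x).1 → M.M.tgt (g y).1 = x.1) :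
    RMod.IsW F := by
  refine ⟨fun y hy => ⟨g y, (hdim y).trans hy, ?_⟩, fun x x' hx hc => ?_, fun x x' hx h h1 h2 h3 =>
    ⟨g h, (hdim h).trans h1, hsrc h x h2, htgt h x' h3, ?_⟩⟩
  · rw [hg y]
    exact conn_refl hd N y.2
  · obtain ⟨h, h1, h2, h3, h4⟩ := hc
    refine ⟨(g ⟨h, h1⟩).1, (g ⟨h, h1⟩).2, ?_, hsrc ⟨h, h1⟩ x h3, htgt ⟨h, h1⟩ x' h4⟩
    exact (hdim ⟨h, h1⟩).trans (h2.trans (congrArg (· + 1) (F.dim x)))
  · rw [hg h]
    exact conn_refl hd N h.2

end LocEx

open LocEx

theorem loc_ex {A : Type} {G : A → Glob} {I : Type} [S.Good] [S.Strat] (h : S.Hyp)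
    (laws : ∀ a, (G a).Laws) (full : ∀ a p, (G a).ok p) (ne : ∀ a, Nonempty (G a).C)
    (hG : ∀ a L, (ofGlob S (G a)).MContr L) :
    Nonempty ((RMod.W (exSig S G I)).Localization ≌ (RMod.W S).Localization) := by
  obtain ⟨d0, hd0⟩ := exists_L0 h
  obtain ⟨d, hd, hQ⟩ := ex_level0 (G := G) (I := I) h laws full ne hG
  have gE : (exSig S G I).Good := exSig_good laws full ne
  have hj : (jI S G I).Good := jI_good
  have hq : (qI S G I d0.un).Good := qI_good laws full hd0
  have hqj : (compI (qI S G I d0.un) (jI S G I)).Good := compI_good hq hj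
  obtain ⟨Q, hQ⟩ := hQ _ hqj
  obtain ⟨P, s, t, hs, ht⟩ := exists_path hd hqj hQ
  -- the first composite
  let τ : pullF (jI S G I) hj ⋙ pullF (qI S G I d0.un) hq ⟶
      pullF (compI (qI S G I d0.un) (jI S G I)) hqj :=
    { app := fun M =>
        ({ f := fun x => x
           dim := fun _ => rfl
           src := fun _ _ => rfl
           tgt := fun _ _ => rfl
           op := fun k hk γ hγ =>
            pull_eval (jI S G I) M.M (fun p => (γ p).1) (qI S G I d0.un k) } :
          RHom ((M.pull (jI S G I) hj).pull (qI S G I d0.un) hq)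
            (M.pull (compI (qI S G I d0.un) (jI S G I)) hqj))
      naturality := fun _ _ _ => rfl }
  let σ : pullF (qI S G I d0.un) hq ⋙ pullF (jI S G I) hj ⟶ 𝟭 (RMod S) :=
    { app := fun M =>
        ({ f := fun x => x
           dim := fun _ => rfl
           src := fun _ _ => rfl
           tgt := fun _ _ => rfl
           op := fun k hk γ hγ => by
            have h1 := pull_eval (qI S G I d0.un) M.M (fun p => (γ p).1) (jI S G I k)
            rw [q_j] at h1
            exact h1 } : RHom ((M.pull (qI S G I d0.un) hq).pull (jI S G I) hj) M)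
      naturality := fun _ _ _ => rfl }
  refine Pool.Agent.HH.localization_equivalence (RMod.W (exSig S G I)) (RMod.W S)
    (pullF (jI S G I) hj) (pullF (qI S G I d0.un) hq) (fun _ _ f hf => pullF_isW hj f hf)
    (fun _ _ f hf => pullF_isW hq f hf) ?_ ?_
  · refine Relation.EqvGen.trans _ (pullF (compI (qI S G I d0.un) (jI S G I)) hqj) _
      (Relation.EqvGen.rel _ _ (Or.inl ⟨τ, fun M => ?_⟩)) ?_
    · exact isW_of_bij hd _ (fun y => y) (fun _ => rfl) (fun _ => rfl) (fun _ _ h => h)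
        (fun _ _ h => h)
    · exact Relation.EqvGen.trans _ P _ (Relation.EqvGen.rel _ _ (Or.inr ⟨t, ht⟩))
        (Relation.EqvGen.rel _ _ (Or.inl ⟨s, hs⟩))
  · exact Relation.EqvGen.rel _ _ (Or.inl ⟨σ, fun M =>
      isW_of_bij hd0 _ (fun y => y) (fun _ => rfl) (fun _ => rfl) (fun _ _ h => h)
        (fun _ _ h => h)⟩)

end HH
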