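import Pool.Agent.HH.Official
import Pool.Agent.HH.Bridge
import Pool.Agent.HH.LocEx
import Pool.Agent.HH.CsLoc
import Pool.Agent.HH.CmpM

/-!
# HH: the homotopy hypothesis for every coherator
-/

set_option autoImplicit false

namespace HH

open Classical CategoryTheory

open Pool.Agent.HH (Globes IsCoherator Units infEquivalences HoCW HomotopyHypothesis)

/-- **The localisation of the category of models of the canonical signature is the homotopy
category of CW-complexes.** -/
theorem cs_loc : Nonempty ((RMod.W Cs).Localization ≌ HoCW.{0}) := by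
  obtain ⟨z, hz⟩ := exists_z (S := Cs) Cs_hyp
  exact cs_loc_of_mainL z hz (mainL _ _ _)

/-- **The homotopy hypothesis for every coherator.** -/
theorem homotopy_hypothesis {C : Type} [SmallCategory C] {F : Globes C} (hF : IsCoherator F)
    (κ : Units F) : HomotopyHypothesis κ := by
  obtain ⟨A, G, I, laws, full, ne, hG, ⟨e⟩⟩ := bridge hF κ
  obtain ⟨e'⟩ := loc_ex (I := I) Cs_hyp laws full ne hG
  obtain ⟨e''⟩ := cs_loc
  exact ⟨e.trans (e'.trans e'')⟩

end HH
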