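import Mathlib

/-!
# HH: official definitions (MP_c72943_al), statement layer

Globes, globular sums, globular extensions, free adjunction of liftings, towers, coherators,
infinity-groupoids over a coherator, homotopy groups, infinity-equivalences, their localisation and
the homotopy category of CW-complexes.
-/

universe v v' u u'

open CategoryTheory Opposite

namespace Pool.Agent.HH

/-! ### Globes in a category -/

/-- A functor from the category of globes to `C`, given by its values on the generators: objects
`D 0, D 1, ...` and arrows `s i, t i : D i ⟶ D (i + 1)` with the globular relations. -/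
structure Globes (C : Type u) [Category.{v} C] where
  /-- the disks -/
  D : ℕ → C
  /-- the source inclusion -/
  s : ∀ i, D i ⟶ D (i + 1)
  /-- the target inclusion -/
  t : ∀ i, D i ⟶ D (i + 1)
  s_st : ∀ i, s i ≫ s (i + 1) = s i ≫ t (i + 1)
  t_st : ∀ i, t i ≫ s (i + 1) = t i ≫ t (i + 1)

/-- The table of dimensions of a globular sum:
`D_{i 0} ⨿_{D_{i' 0}} D_{i 1} ⨿ ... ⨿_{D_{i' (m - 1)}} D_{i m}`. -/
structure Table where
  /-- the number of gluings -/
  m : ℕ
  /-- the dimensions of the disks -/
  i : Fin (m + 1) → ℕ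
  /-- the dimensions of the disks along which one glues -/
  i' : Fin m → ℕ
  lt_left : ∀ k, i' k < i k.castSucc
  lt_right : ∀ k, i' k < i k.succ

namespace Globes

variable {C : Type u} [Category.{v} C] {E : Type u'} [Category.{v'} E]

/-- The iterated source inclusion `D i ⟶ D j`. -/
def sTo (F : Globes C) {i j : ℕ} (h : i ≤ j) : F.D i ⟶ F.D j :=
  Nat.leRec (motive := fun j _ => F.D i ⟶ F.D j) (𝟙 _) (fun k _ f => f ≫ F.s k) h

/-- The iterated target inclusion `D i ⟶ D j`. -/
def tTo (F : Globes C) {i j : ℕ} (h : i ≤ j) : F.D i ⟶ F.D j :=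
  Nat.leRec (motive := fun j _ => F.D i ⟶ F.D j) (𝟙 _) (fun k _ f => f ≫ F.t k) h

/-- The image of the globes under a functor. -/
@[reducible]
def map (F : Globes C) (H : C ⥤ E) : Globes E where
  D i := H.obj (F.D i)
  s i := H.map (F.s i)
  t i := H.map (F.t i)
  s_st i := by rw [← H.map_comp, ← H.map_comp, F.s_st]
  t_st i := by rw [← H.map_comp, ← H.map_comp, F.t_st]

/-- An isomorphism between two families of globes. -/
structure Iso (F F' : Globes C) where
  /-- the components -/
  e : ∀ i, F.D i ≅ F'.D i
  s_e : ∀ i, F.s i ≫ (e (i + 1)).hom = (e i).hom ≫ F'.s i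
  t_e : ∀ i, F.t i ≫ (e (i + 1)).hom = (e i).hom ≫ F'.t i

/-- The gluing conditions for a family of arrows out of the disks of a table: the iterated source
of the left disk is glued to the iterated target of the right disk. -/
def Compat (F : Globes C) (T : Table) {Y : C} (y : ∀ k, F.D (T.i k) ⟶ Y) : Prop :=
  ∀ k : Fin T.m,
    F.sTo (T.lt_left k).le ≫ y k.castSucc = F.tTo (T.lt_right k).le ≫ y k.succ

/-- `X` with the legs `ε` is the globular sum with table `T`. -/
structure IsSum (F : Globes C) (T : Table) (X : C) (ε : ∀ k, F.D (T.i k) ⟶ X) : Prop where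
  glue : F.Compat T ε
  desc : ∀ (Y : C) (y : ∀ k, F.D (T.i k) ⟶ Y), F.Compat T y →
    ∃! f : X ⟶ Y, ∀ k, ε k ≫ f = y k

/-- `C` is a globular extension: all globular sums exist. -/
def IsExt (F : Globes C) : Prop :=
  ∀ T : Table, ∃ (X : C) (ε : ∀ k, F.D (T.i k) ⟶ X), F.IsSum T X ε

/-- A functor preserves globular sums. -/
def Preserves (F : Globes C) (H : C ⥤ E) : Prop :=
  ∀ (T : Table) (X : C) (ε : ∀ k, F.D (T.i k) ⟶ X), F.IsSum T X ε →
    (F.map H).IsSum T (H.obj X) fun k => H.map (ε k)

/-- Parallel pairs `f, g : D i ⟶ X`. -/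
def Parallel (F : Globes C) (X : C) : ∀ i : ℕ, (F.D i ⟶ X) → (F.D i ⟶ X) → Prop
  | 0, _, _ => True
  | i + 1, f, g => F.s i ≫ f = F.s i ≫ g ∧ F.t i ≫ f = F.t i ≫ g

/-- `h` is a lifting of the pair `f, g`. -/
def IsLift (F : Globes C) {X : C} {i : ℕ} (f g : F.D i ⟶ X) (h : F.D (i + 1) ⟶ X) : Prop :=
  F.s i ≫ h = f ∧ F.t i ≫ h = g

/-- Every parallel pair has a lifting. -/
def Contractible (F : Globes C) : Prop :=
  ∀ (X : C) (i : ℕ) (f g : F.D i ⟶ X), F.Parallel X i f g → ∃ h, F.IsLift f g h

end Globes

/-! ### Free adjunction of liftings -/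

/-- A family of parallel pairs. -/
structure PairFamily {C : Type u} [SmallCategory C] (F : Globes C) where
  /-- the index type -/
  A : Type u
  /-- the dimensions -/
  n : A → ℕ
  /-- the codomains -/
  X : A → C
  /-- the first arrows -/
  f : ∀ a, F.D (n a) ⟶ X a
  /-- the second arrows -/
  g : ∀ a, F.D (n a) ⟶ X a
  par : ∀ a, F.Parallel (X a) (n a) (f a) (g a)

/-- The functor `T : C ⥤ C'` (with the globes of `C'` being the images of those of `C`) together
with the liftings `h a` exhibits `C'` as obtained from the globular extension `C` by freely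
adjoining liftings of the pairs of the family `P`: it is universal among the globular
extensions `E` under `C` with liftings of the images of all the pairs. -/
structure IsFreeAdj {C C' : Type u} [SmallCategory C] [SmallCategory C'] (F : Globes C)
    (P : PairFamily F) (T : C ⥤ C')
    (h : ∀ a, T.obj (F.D (P.n a + 1)) ⟶ T.obj (P.X a)) : Prop where
  ext : (F.map T).IsExt
  pres : F.Preserves T
  lift : ∀ a, (F.map T).IsLift (X := T.obj (P.X a)) (i := P.n a) (T.map (P.f a)) (T.map (P.g a))
    (h a)
  exists_desc : ∀ {E : Type u} [SmallCategory E] (H : C ⥤ E), (F.map H).IsExt → F.Preserves H →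
    ∀ l : ∀ a, H.obj (F.D (P.n a + 1)) ⟶ H.obj (P.X a),
      (∀ a, (F.map H).IsLift (X := H.obj (P.X a)) (i := P.n a) (H.map (P.f a)) (H.map (P.g a))
        (l a)) →
      ∃ (H' : C' ⥤ E) (α : T ⋙ H' ≅ H), (F.map T).Preserves H' ∧
        ∀ a, H'.map (h a) ≫ α.hom.app (P.X a) = α.hom.app (F.D (P.n a + 1)) ≫ l a
  unique_desc : ∀ {E : Type u} [SmallCategory E] (H₁ H₂ : C' ⥤ E),
    ((F.map T).map H₁).IsExt → (F.map T).Preserves H₁ → (F.map T).Preserves H₂ →
    ∀ α : T ⋙ H₁ ≅ T ⋙ H₂,
      (∀ a, H₁.map (h a) ≫ α.hom.app (P.X a) = α.hom.app (F.D (P.n a + 1)) ≫ H₂.map (h a)) →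
      ∃! β : H₁ ≅ H₂, ∀ X : C, β.hom.app (T.obj X) = α.hom.app X

/-- `C` with the globes `F` is the universal globular extension. -/
structure IsUniversalExt {C : Type u} [SmallCategory C] (F : Globes C) : Prop where
  ext : F.IsExt
  exists_desc : ∀ {E : Type u} [SmallCategory E] (G : Globes E), G.IsExt →
    ∃ H : C ⥤ E, F.Preserves H ∧ Nonempty ((F.map H).Iso G)
  unique_desc : ∀ {E : Type u} [SmallCategory E] (H₁ H₂ : C ⥤ E), (F.map H₁).IsExt →
    F.Preserves H₁ → F.Preserves H₂ → ∀ a : (F.map H₁).Iso (F.map H₂),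
      ∃! β : H₁ ≅ H₂, ∀ i, β.hom.app (F.D i) = (a.e i).hom

/-! ### Towers and coherators -/

/-- A sequence of categories and functors with globes in the first one. -/
structure PreTower where
  /-- the categories of the tower -/
  A : ℕ → Type u
  /-- their category structures -/
  cat : ∀ n, SmallCategory (A n)
  /-- the functors of the tower -/
  T : ∀ n, A n ⥤ A (n + 1)
  /-- the globes in the first category -/
  G0 : Globes (A 0)

attribute [instance] PreTower.cat

namespace PreTower

/-- The globes in the `n`-th category. -/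
def G (K : PreTower.{u}) : ∀ n, Globes (K.A n)
  | 0 => K.G0
  | n + 1 => (K.G n).map (K.T n)

/-- The iterated functors of the tower. -/
def iter (K : PreTower.{u}) (n : ℕ) : ∀ m, K.A n ⥤ K.A (n + m)
  | 0 => 𝟭 _
  | m + 1 => K.iter n m ⋙ K.T (n + m)

end PreTower

/-- A tower of globular extensions: the first one is the universal globular extension, and each
further one is obtained from the preceding one by freely adjoining liftings for a family of
parallel pairs. -/
structure Tower extends PreTower.{u} where
  universal : IsUniversalExt G0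
  /-- the families of parallel pairs -/
  P : ∀ n, PairFamily (toPreTower.G n)
  /-- the adjoined liftings -/
  h : ∀ n a, (T n).obj ((toPreTower.G n).D ((P n).n a + 1)) ⟶ (T n).obj ((P n).X a)
  free : ∀ n, IsFreeAdj (toPreTower.G n) (P n) (T n) (h n)

/-- A cocone under a sequence of categories, up to isomorphism. -/
structure PreTower.Cocone (K : PreTower.{u}) (C : Type u) [SmallCategory C] where
  /-- the functors to the vertex -/
  J : ∀ n, K.A n ⥤ C
  /-- the compatibility isomorphisms -/
  φ : ∀ n, K.T n ⋙ J (n + 1) ≅ J n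

/-- The isomorphism between `J (n + m)` after the iterated functor and `J n`. -/
def PreTower.Cocone.iterIso {K : PreTower.{u}} {C : Type u} [SmallCategory C] (c : K.Cocone C)
    (n : ℕ) : ∀ m, K.iter n m ⋙ c.J (n + m) ≅ c.J n
  | 0 => Functor.leftUnitor _
  | m + 1 => Functor.associator _ _ _ ≪≫ Functor.isoWhiskerLeft (K.iter n m) (c.φ (n + m)) ≪≫
      c.iterIso n m

/-- The cocone exhibits `C` as the colimit of the sequence of categories (up to equivalence):
the usual description of objects and arrows of a directed colimit of categories. -/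
structure PreTower.Cocone.IsColim {K : PreTower.{u}} {C : Type u} [SmallCategory C]
    (c : K.Cocone C) : Prop where
  surj : ∀ X : C, ∃ (n : ℕ) (Y : K.A n), Nonempty ((c.J n).obj Y ≅ X)
  full : ∀ (n : ℕ) (X Y : K.A n) (f : (c.J n).obj X ⟶ (c.J n).obj Y),
    ∃ (m : ℕ) (g : (K.iter n m).obj X ⟶ (K.iter n m).obj Y),
      (c.J (n + m)).map g ≫ (c.iterIso n m).hom.app Y = (c.iterIso n m).hom.app X ≫ f
  faithful : ∀ (n : ℕ) (X Y : K.A n) (f g : X ⟶ Y), (c.J n).map f = (c.J n).map g →
    ∃ m, (K.iter n m).map f = (K.iter n m).map g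

/-- A Grothendieck coherator: a globular extension in which every parallel pair has a lifting and
which is equivalent, under the globes, to the colimit of a tower of globular extensions. -/
structure IsCoherator {C : Type u} [SmallCategory C] (F : Globes C) : Prop where
  ext : F.IsExt
  contractible : F.Contractible
  tower : ∃ (K : Tower.{u}) (c : K.toPreTower.Cocone C), c.IsColim ∧
    Nonempty ((K.G0.map (c.J 0)).Iso F)

/-! ### Infinity-groupoids -/

section Models

variable {C : Type u} [SmallCategory C]

/-- A presheaf which sends globular sums to iterated fibre products. -/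
def IsModel (F : Globes C) (G : Cᵒᵖ ⥤ Type u) : Prop :=
  ∀ (T : Table) (X : C) (ε : ∀ k, F.D (T.i k) ⟶ X), F.IsSum T X ε →
    ∀ g : ∀ k, G.obj (op (F.D (T.i k))),
      (∀ k : Fin T.m, G.map (F.sTo (T.lt_left k).le).op (g k.castSucc) =
        G.map (F.tTo (T.lt_right k).le).op (g k.succ)) →
      ∃! x : G.obj (op X), ∀ k, G.map (ε k).op x = g k

/-- The category of infinity-groupoids over `C`. -/
abbrev Model (F : Globes C) := ObjectProperty.FullSubcategory (IsModel F)

namespace Model

variable {F : Globes C}

/-- The set of `i`-cells. -/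
abbrev Cell (G : Model F) (i : ℕ) : Type u := G.obj.obj (op (F.D i))

/-- The source of a cell. -/
def src (G : Model F) {i : ℕ} (x : G.Cell (i + 1)) : G.Cell i := G.obj.map (F.s i).op x

/-- The target of a cell. -/
def tgt (G : Model F) {i : ℕ} (x : G.Cell (i + 1)) : G.Cell i := G.obj.map (F.t i).op x

/-- Homotopic cells. -/
def Homotopic (G : Model F) {i : ℕ} (x y : G.Cell i) : Prop :=
  ∃ h : G.Cell (i + 1), G.src h = x ∧ G.tgt h = y

/-- The action of a morphism on cells. -/
def mapCell {G G' : Model F} (φ : G ⟶ G') {i : ℕ} (x : G.Cell i) : G'.Cell i :=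
  φ.hom.app (op (F.D i)) x

theorem src_mapCell {G G' : Model F} (φ : G ⟶ G') {i : ℕ} (x : G.Cell (i + 1)) :
    G'.src (mapCell φ x) = mapCell φ (G.src x) :=
  (ConcreteCategory.congr_hom (φ.hom.naturality (F.s i).op) x).symm

theorem tgt_mapCell {G G' : Model F} (φ : G ⟶ G') {i : ℕ} (x : G.Cell (i + 1)) :
    G'.tgt (mapCell φ x) = mapCell φ (G.tgt x) :=
  (ConcreteCategory.congr_hom (φ.hom.naturality (F.t i).op) x).symm

theorem Homotopic.mapCell {G G' : Model F} (φ : G ⟶ G') {i : ℕ} {x y : G.Cell i}
    (h : G.Homotopic x y) : G'.Homotopic (Model.mapCell φ x) (Model.mapCell φ y) := by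
  obtain ⟨h, rfl, rfl⟩ := h
  exact ⟨Model.mapCell φ h, src_mapCell φ h, tgt_mapCell φ h⟩

/-- The set of connected components. (Homotopy is an equivalence relation if `C` is a
coherator.) -/
def Pi0 (G : Model F) : Type u := Quot (G.Homotopic (i := 0))

/-- The map induced on connected components. -/
def pi0Map {G G' : Model F} (φ : G ⟶ G') : G.Pi0 → G'.Pi0 :=
  Quot.map (mapCell φ) fun _ _ h => h.mapCell φ

end Model

/-- A choice of the operations `unit of an i-cell`. -/
structure Units (F : Globes C) where
  /-- the unit operations -/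
  k : ∀ i, F.D (i + 1) ⟶ F.D i
  s_k : ∀ i, F.s i ≫ k i = 𝟙 _
  t_k : ∀ i, F.t i ≫ k i = 𝟙 _

namespace Model

variable {F : Globes C} (κ : Units F)

/-- The iterated unit of a `0`-cell. -/
def iterUnit (G : Model F) (x : G.Cell 0) : ∀ i, G.Cell i
  | 0 => x
  | i + 1 => G.obj.map (κ.k i).op (G.iterUnit x i)

/-- The `i + 1`-cells from the iterated unit of `x` to itself. -/
def Loop (G : Model F) (i : ℕ) (x : G.Cell 0) : Type u :=
  {h : G.Cell (i + 1) // G.src h = G.iterUnit κ x i ∧ G.tgt h = G.iterUnit κ x i}

/-- The (underlying set of the) homotopy group `π_{i+1}(G; x)`: the endomorphisms of the iterated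
unit of `x` in the groupoid of `i`-cells and homotopy classes of `i + 1`-cells. -/
def PiSucc (G : Model F) (i : ℕ) (x : G.Cell 0) : Type u :=
  Quot fun a b : G.Loop κ i x => G.Homotopic a.1 b.1

theorem mapCell_iterUnit {G G' : Model F} (φ : G ⟶ G') (x : G.Cell 0) (i : ℕ) :
    mapCell φ (G.iterUnit κ x i) = G'.iterUnit κ (mapCell φ x) i := by
  induction i with
  | zero => rfl
  | succ i ih =>
    have h : mapCell φ (G.obj.map (κ.k i).op (G.iterUnit κ x i)) =
        G'.obj.map (κ.k i).op (mapCell φ (G.iterUnit κ x i)) :=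
      ConcreteCategory.congr_hom (φ.hom.naturality (κ.k i).op) (G.iterUnit κ x i)
    calc mapCell φ (G.iterUnit κ x (i + 1)) = _ := h
      _ = _ := by rw [ih]; rfl

/-- The action of a morphism on loops. -/
def loopMap {G G' : Model F} (φ : G ⟶ G') (i : ℕ) (x : G.Cell 0) (a : G.Loop κ i x) :
    G'.Loop κ i (mapCell φ x) :=
  ⟨mapCell φ a.1, by rw [src_mapCell, a.2.1, mapCell_iterUnit],
    by rw [tgt_mapCell, a.2.2, mapCell_iterUnit]⟩

/-- The map induced on homotopy groups. -/
def piMap {G G' : Model F} (φ : G ⟶ G') (i : ℕ) (x : G.Cell 0) :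
    G.PiSucc κ i x → G'.PiSucc κ i (mapCell φ x) :=
  Quot.map (loopMap κ φ i x) fun _ _ h => h.mapCell φ

/-- An infinity-equivalence: bijective on connected components and on all homotopy groups (the
induced maps are group homomorphisms, so bijective means isomorphism). -/
def IsEquiv {G G' : Model F} (φ : G ⟶ G') : Prop :=
  Function.Bijective (pi0Map φ) ∧ ∀ i x, Function.Bijective (piMap κ φ i x)

end Model

/-- The class of infinity-equivalences. -/
def infEquivalences {F : Globes C} (κ : Units F) : MorphismProperty (Model F) :=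
  fun _ _ φ => Model.IsEquiv κ φ

end Models

/-! ### The homotopy category of CW-complexes -/

/-- The category of CW-complexes and continuous maps. -/
abbrev CW : Type (u + 1) :=
  ObjectProperty.FullSubcategory fun X : TopCat.{u} => Nonempty (TopCat.CWComplex X)

/-- Homotopy of maps between CW-complexes. -/
def cwHomotopy : HomRel CW.{u} := fun _ _ f g =>
  ContinuousMap.Homotopic f.hom.hom g.hom.hom

/-- The homotopy category of CW-complexes. -/
abbrev HoCW : Type (u + 1) := CategoryTheory.Quotient cwHomotopy.{u}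

/-- The homotopy hypothesis for a coherator: the localisation of the category of
infinity-groupoids at the infinity-equivalences is equivalent to the homotopy category of
CW-complexes. -/
def HomotopyHypothesis {C : Type u} [SmallCategory C] {F : Globes C} (κ : Units F) : Prop :=
  Nonempty ((infEquivalences κ).Localization ≌ HoCW.{u})

end Pool.Agent.HH
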