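import Pool.Agent.HH.Whitehead
import Pool.Agent.HH.Official

/-!
# HH part 3, W-5: the formal comparison with the homotopy category of CW-complexes
-/

set_option autoImplicit false

namespace HH

open CategoryTheory

section

variable (U : RMod Cs ⥤ TopCat.{0}) (hU : ∀ G, Nonempty (TopCat.CWComplex (U.obj G)))

/-- the functor to CW-complexes -/
noncomputable def toCW : RMod Cs ⥤ Pool.Agent.HH.CW.{0} := ObjectProperty.lift _ U hU

/-- the functor to the homotopy category -/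
noncomputable def toHo : RMod Cs ⥤ Pool.Agent.HH.HoCW.{0} :=
  toCW U hU ⋙ CategoryTheory.Quotient.functor Pool.Agent.HH.cwHomotopy.{0}

/-- homotopy equivalences are isomorphisms in the homotopy category -/
theorem isIso_ho {X Y : Pool.Agent.HH.CW.{0}} (f : X ⟶ Y) (g : Y.obj ⟶ X.obj)
    (h1 : (f.hom ≫ g).hom.Homotopic (𝟙 X.obj : X.obj ⟶ X.obj).hom)
    (h2 : (g ≫ f.hom).hom.Homotopic (𝟙 Y.obj : Y.obj ⟶ Y.obj).hom) :
    IsIso ((CategoryTheory.Quotient.functor Pool.Agent.HH.cwHomotopy.{0}).map f) := by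
  let g' : Y ⟶ X := ⟨g⟩
  refine ⟨(CategoryTheory.Quotient.functor Pool.Agent.HH.cwHomotopy.{0}).map g', ?_, ?_⟩
  · rw [← Functor.map_comp, ← CategoryTheory.Functor.map_id]
    exact CategoryTheory.Quotient.sound _ h1
  · rw [← Functor.map_comp, ← CategoryTheory.Functor.map_id]
    exact CategoryTheory.Quotient.sound _ h2

variable [(RMod.W Cs).HasTwoOutOfThreeProperty] [(RMod.W Cs).ContainsIdentities]

theorem isIso_ho_of_isW {X Y : Pool.Agent.HH.CW.{0}} (f : X ⟶ Y)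
    (h : RMod.IsW (PiF.map f.hom)) :
    IsIso ((CategoryTheory.Quotient.functor Pool.Agent.HH.cwHomotopy.{0}).map f) := by
  obtain ⟨g, h1, h2⟩ := whitehead X.property Y.property f.hom h
  exact isIso_ho f g h1 h2

include hU in
/-- **The localisation of the category of models is the homotopy category of CW-complexes**, from
the comparison data. -/
theorem cs_loc_of (Wf : RMod Cs ⥤ RMod Cs) (s : Wf ⟶ 𝟭 _) (t : Wf ⟶ U ⋙ PiF)
    (hs : ∀ G, RMod.IsW (s.app G)) (ht : ∀ G, RMod.IsW (t.app G)) (ψ : PiF ⋙ U ⟶ 𝟭 _)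
    (hψ : ∀ Y, RMod.IsW (PiF.map (ψ.app Y))) :
    Nonempty ((RMod.W Cs).Localization ≌ Pool.Agent.HH.HoCW.{0}) := by
  -- `PiF U` preserves weak equivalences
  have hUW : ∀ {G G' : RMod Cs} (F : G ⟶ G'), RMod.IsW F → RMod.IsW (PiF.map (U.map F)) := by
    intro G G' F hF
    have h1 : (RMod.W Cs) (Wf.map F ≫ s.app G') := by
      rw [s.naturality]
      exact (RMod.W Cs).comp_mem _ _ (hs G) hF
    have h2 : (RMod.W Cs) (Wf.map F) :=
      (RMod.W Cs).of_postcomp _ _ (show (RMod.W Cs) _ from hs G') h1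
    have h3 : (RMod.W Cs) (t.app G ≫ (U ⋙ PiF).map F) := by
      rw [← t.naturality]
      exact (RMod.W Cs).comp_mem _ _ h2 (ht G')
    exact (RMod.W Cs).of_precomp _ _ (show (RMod.W Cs) _ from ht G) h3
  let Q := (RMod.W Cs).Q
  let q := CategoryTheory.Quotient.functor Pool.Agent.HH.cwHomotopy.{0}
  let F1 := toHo U hU
  have hF1 : (RMod.W Cs).IsInvertedBy F1 := fun G G' F hF =>
    isIso_ho_of_isW ((toCW U hU).map F) (hUW F hF)
  let Ub : (RMod.W Cs).Localization ⥤ Pool.Agent.HH.HoCW.{0} := Localization.lift F1 hF1 Q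
  let eU : Q ⋙ Ub ≅ F1 := Localization.fac F1 hF1 Q
  let G1 : Pool.Agent.HH.CW.{0} ⥤ (RMod.W Cs).Localization :=
    ObjectProperty.ι _ ⋙ PiF ⋙ Q
  have hG1 : ∀ (X Y : Pool.Agent.HH.CW.{0}) (f g : X ⟶ Y),
      Pool.Agent.HH.cwHomotopy.{0} f g → G1.map f = G1.map g :=
    fun X Y f g h => Q_map_of_homotopic h
  let Pb : Pool.Agent.HH.HoCW.{0} ⥤ (RMod.W Cs).Localization := CategoryTheory.Quotient.lift _ G1 hG1
  -- first composite
  have i1 : Nonempty (Q ⋙ Ub ⋙ Pb ≅ Q) := by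
    have j1 : F1 ⋙ Pb ≅ U ⋙ PiF ⋙ Q := Iso.refl _
    have j2 : ∀ G, IsIso (Q.map (t.app G)) := fun G => (RMod.W Cs).Q_inverts _ (ht G)
    have j3 : ∀ G, IsIso (Q.map (s.app G)) := fun G => (RMod.W Cs).Q_inverts _ (hs G)
    let k2 : Wf ⋙ Q ≅ U ⋙ PiF ⋙ Q := NatIso.ofComponents
      (fun G => @asIso _ _ _ _ (Q.map (t.app G)) (j2 G)) (by
        intro X Y f
        simp only [Functor.comp_map, asIso_hom]
        rw [← Q.map_comp, ← Q.map_comp, t.naturality]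
        rfl)
    let k3 : Wf ⋙ Q ≅ Q := NatIso.ofComponents
      (fun G => @asIso _ _ _ _ (Q.map (s.app G)) (j3 G)) (by
        intro X Y f
        simp only [Functor.comp_map, asIso_hom]
        rw [← Q.map_comp, ← Q.map_comp, s.naturality]
        rfl)
    exact ⟨(Functor.associator _ _ _).symm ≪≫ Functor.isoWhiskerRight eU Pb ≪≫ j1 ≪≫ k2.symm ≪≫
      k3⟩
  obtain ⟨e1⟩ := i1
  have l1 : Localization.Lifting Q (RMod.W Cs) Q (Ub ⋙ Pb) := ⟨e1⟩
  have i1' : Ub ⋙ Pb ≅ 𝟭 _ :=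
    Localization.liftNatIso Q (RMod.W Cs) Q Q (Ub ⋙ Pb) (𝟭 _) (Iso.refl _)
  -- second composite
  have i2 : Nonempty (q ⋙ Pb ⋙ Ub ≅ q ⋙ 𝟭 _) := by
    have j1 : q ⋙ Pb ⋙ Ub ≅ G1 ⋙ Ub := Iso.refl _
    have j2 : G1 ⋙ Ub ≅ ObjectProperty.ι _ ⋙ PiF ⋙ F1 :=
      Functor.isoWhiskerLeft (ObjectProperty.ι _ ⋙ PiF) eU
    let φ : ∀ Y : Pool.Agent.HH.CW.{0},
      (toCW U hU).obj (PiF.obj Y.obj) ⟶ Y := fun Y => ⟨ψ.app Y.obj⟩
    have j3 : ∀ Y, IsIso (q.map (φ Y)) := fun Y => isIso_ho_of_isW (φ Y) (hψ Y.obj)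
    let k3 : ObjectProperty.ι _ ⋙ PiF ⋙ F1 ≅ q ⋙ 𝟭 _ := NatIso.ofComponents
      (fun Y => @asIso _ _ _ _ (q.map (φ Y)) (j3 Y)) (by
        intro X Y f
        have h1 : (toCW U hU).map (PiF.map f.hom) ≫ φ Y = φ X ≫ f := by
          apply ObjectProperty.hom_ext
          exact ψ.naturality f.hom
        show q.map ((toCW U hU).map (PiF.map f.hom)) ≫ q.map (φ Y) = q.map (φ X) ≫ q.map f
        rw [← q.map_comp, ← q.map_comp, h1])
    exact ⟨j1 ≪≫ j2 ≪≫ k3⟩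
  obtain ⟨e2⟩ := i2
  have i2' : Pb ⋙ Ub ≅ 𝟭 _ := CategoryTheory.Quotient.natIsoLift _ e2
  exact ⟨CategoryTheory.Equivalence.mk Ub Pb i1'.symm i2'⟩

end

end HH
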