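import Pool.Agent.HH.Acc
import Pool.Agent.HH.Ext2
import Pool.Agent.HH.Cyl0UP

/-!
# HH stage 2, module c10: existence of the family of fillers for a twisted end
-/

set_option autoImplicit false

namespace HH

open Classical CategoryTheory

variable {S E R : Sig}

theorem q2Ex_irrefl {I : Type} {r : I → I → Prop} {i : I} (h : Acc r i) :
    ¬ Relation.TransGen r i i := by
  have h2 : Acc (Relation.TransGen r) i := h.transGen
  induction h2 with
  | intro a _ ih => exact fun haa => ih a haa h haa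

theorem q2Ex_hasOp_bind {V W : Type} {t : E.T V} {γ : V → E.T W} {k : E.K}
    (h : (t.bind γ).HasOp k) : t.HasOp k ∨ ∃ v, (γ v).HasOp k := by
  induction t with
  | var v => exact Or.inr ⟨v, h⟩
  | op k' δ ih =>
    rcases h with h | ⟨p, hp⟩
    · exact Or.inl (Or.inl h)
    · rcases ih p hp with h1 | h1
      · exact Or.inl (Or.inr ⟨p, h1⟩)
      · exact Or.inr h1

/-- all operations of the term are below `k` -/
def q2ExB (k : E.K) {V : Type} (t : E.T V) : Prop :=
  ∀ k', t.HasOp k' → Relation.TransGen E.opLt k' k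

theorem q2ExB_src {k : E.K} {a : Glob} {t : E.T a.C} (h : q2ExB k t) :
    q2ExB k ((ofGlob E a).tsrc t) := by
  intro k' hk'
  cases t with
  | var v => exact hk'.elim
  | op k1 γ =>
    have h1 : ((E.bs k1).bind γ).HasOp k' := hk'
    rcases q2Ex_hasOp_bind h1 with h2 | ⟨p, hp⟩
    · exact Relation.TransGen.head (Or.inl h2) (h k1 (Or.inl rfl))
    · exact h k' (Or.inr ⟨p, hp⟩)

theorem q2ExB_tgt {k : E.K} {a : Glob} {t : E.T a.C} (h : q2ExB k t) :
    q2ExB k ((ofGlob E a).ttgt t) := by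
  intro k' hk'
  cases t with
  | var v => exact hk'.elim
  | op k1 γ =>
    have h1 : ((E.bt k1).bind γ).HasOp k' := hk'
    rcases q2Ex_hasOp_bind h1 with h2 | ⟨p, hp⟩
    · exact Relation.TransGen.head (Or.inr h2) (h k1 (Or.inl rfl))
    · exact h k' (Or.inr ⟨p, hp⟩)

theorem q2ExB_bd (k : E.K) {q : D} (hq : q.1 < E.dm k) :
    q2ExB k ((ofGlob E (E.ar k)).m.toGlob.bd (.op k .var) q) := by
  obtain ⟨n, hn⟩ : ∃ n, E.dm k - q.1 = n + 1 := ⟨E.dm k - q.1 - 1, by omega⟩
  have e1 : (ofGlob E (E.ar k)).m.toGlob.bd (.op k .var) q =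
      (if q.2 then (ofGlob E (E.ar k)).ttgt else (ofGlob E (E.ar k)).tsrc)^[E.dm k - q.1]
        (.op k .var) := rfl
  rw [e1, hn]
  cases hq2 : q.2 with
  | false =>
    simp only [Bool.false_eq_true, if_false]
    induction n generalizing q with
    | zero =>
      intro k' hk'
      rw [Function.iterate_one] at hk'
      have h1 : ((E.bs k).bind Tm.var).HasOp k' := hk'
      rw [Tm.bind_var_self] at h1
      exact Relation.TransGen.single (Or.inl h1)
    | succ n ih =>
      rw [Function.iterate_succ_apply']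
      refine q2ExB_src ?_
      by_cases h0 : q.1 + 1 < E.dm k
      · refine ih (q := (q.1 + 1, q.2)) h0 ?_ ?_ hq2
        · show E.dm k - (q.1 + 1) = n + 1
          omega
        · rfl
      · omega
  | true =>
    simp only [if_true]
    induction n generalizing q with
    | zero =>
      intro k' hk'
      rw [Function.iterate_one] at hk'
      have h1 : ((E.bt k).bind Tm.var).HasOp k' := hk'
      rw [Tm.bind_var_self] at h1
      exact Relation.TransGen.single (Or.inr h1)
    | succ n ih =>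
      rw [Function.iterate_succ_apply']
      refine q2ExB_tgt ?_
      by_cases h0 : q.1 + 1 < E.dm k
      · refine ih (q := (q.1 + 1, q.2)) h0 ?_ ?_ hq2
        · show E.dm k - (q.1 + 1) = n + 1
          omega
        · rfl
      · omega

/-- the cylinder of an arity, seen on the terms over the arity: the variables -/
theorem q2Ex_var [E.Good] {x : XFam E} {b : Interp E E} {Q : QFam E} {a : Glob} [a.Laws]
    {p : a.C} (hp : a.ok p) :
    CylAt (Cyl0 x a).m x (ofGlob E a).m.toGlob
      ((Cyl0 x a).m.eval fun p => .var (.z p))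
      (fun t => (Cyl0 x a).m.eval (fun p => .var (.top p)) (trans b t))
      (ext2 (Cyl0 x a).m b Q (fun p => .var (.z p)) (fun p => .var (.top p))
        (fun p => .var (.cyl p))) (.var p) := by
  have h := (Cyl0_isCyl0 (x := x) (W := a)).cyl p hp
  have hc := cs_comp (M := (Cyl0 x a).m) x (W := (ofGlob E a).m.toGlob) (W' := a)
    (fun p => (.var p : E.T a.C)) ((Cyl0 x a).m.eval fun p => .var (.z p))
    (fun t => (Cyl0 x a).m.eval (fun p => .var (.top p)) (trans b t))
    (ext2 (Cyl0 x a).m b Q (fun p => .var (.z p)) (fun p => .var (.top p))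
        (fun p => .var (.cyl p)))
    p rfl (fun q => map_bd (G := a) (H := (ofGlob E a).m.toGlob)
      (f := fun p => (.var p : E.T a.C)) hp (fun y hy _ => ⟨hy, rfl, fun _ => ⟨rfl, rfl⟩⟩) q)
  exact ⟨h.1, h.2.1, h.2.2.1.trans hc, h.2.2.2⟩

/-- `Q2GoodAt` with evaluations instead of `map` -/
theorem q2Ex_iff {x : XFam E} {b : Interp E E} {Q : QFam E} {k : E.K} :
    Q2GoodAt x b Q k ↔ (Cyl0 x (E.ar k)).tok (Q k) ∧
      (Cyl0 x (E.ar k)).tdim (Q k) = E.dm k + 1 ∧
      (Cyl0 x (E.ar k)).tsrc (Q k) = cs (Cyl0 x (E.ar k)).m x (ofGlob E (E.ar k)).m.toGlob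
        ((Cyl0 x (E.ar k)).m.eval fun p => .var (.z p))
        (fun t => (Cyl0 x (E.ar k)).m.eval (fun p => .var (.top p)) (trans b t))
        (ext2 (Cyl0 x (E.ar k)).m b Q (fun p => .var (.z p)) (fun p => .var (.top p))
          (fun p => .var (.cyl p))) (.op k .var) ∧
      (Cyl0 x (E.ar k)).ttgt (Q k) = (b k).map .top := by
  have e0 : ext2 (Cyl0 x (E.ar k)).m b Q (fun p => .var (.z p)) (fun p => .var (.top p))
      (fun p => .var (.cyl p)) (.op k .var) = Q k := by
    have h : (CV.elim (fun p => .var (.z p)) (fun p => .var (.top p)) (fun p => .var (.cyl p)) :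
        CV (E.ar k).C (E.ar k).C → E.T (CV (E.ar k).C (E.ar k).C)) = Tm.var := by
      funext v
      cases v <;> rfl
    have h2 : (Q k).bind (CV.elim (fun p => .var (.z p)) (fun p => .var (.top p))
        (fun p => .var (.cyl p))) = Q k := by
      rw [h]
      exact Tm.bind_var_self _
    exact h2
  have e1 : (trans b (.op k .var) : E.T (E.ar k).C) = b k := Tm.bind_var_self (b k)
  constructor
  · rintro ⟨h1, h2, h3, h4, h5⟩
    refine ⟨h1, ?_, ?_, ?_⟩
    · exact (congrArg (Cyl0 x (E.ar k)).tdim e0).symm.trans h3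
    · exact (congrArg (Cyl0 x (E.ar k)).tsrc e0).symm.trans h4
    · refine ((congrArg (Cyl0 x (E.ar k)).ttgt e0).symm.trans h5).trans ?_
      exact congrArg (fun t => Tm.map t CV.top) e1
  · rintro ⟨h1, h3, h4, h5⟩
    refine ⟨h1, ?_, ?_, ?_, ?_⟩
    · exact (congrArg (Cyl0 x (E.ar k)).tok e0).mpr h1
    · exact (congrArg (Cyl0 x (E.ar k)).tdim e0).trans h3
    · exact (congrArg (Cyl0 x (E.ar k)).tsrc e0).trans h4
    · refine ((congrArg (Cyl0 x (E.ar k)).ttgt e0).trans h5).trans ?_
      exact (congrArg (fun t => Tm.map t CV.top) e1).symm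

theorem q2Ex_isK [E.Good] {k : E.K} (hk : E.kok k) :
    (ofGlob E (E.ar k)).tok (.op k .var) := by
  refine ⟨hk, fun p => ⟨Sig.Good.full k hk p, rfl, fun _ => ⟨rfl, rfl⟩⟩⟩

theorem q2Ex_cs [E.Good] {x : XFam E} (hx : ∀ j, XGoodAt x 0 j) {b : Interp E E}
    {Q Q' : QFam E} {k : E.K} (hk : E.kok k)
    (h : ∀ k', Relation.TransGen E.opLt k' k → Q k' = Q' k') :
    cs (Cyl0 x (E.ar k)).m x (ofGlob E (E.ar k)).m.toGlob
        ((Cyl0 x (E.ar k)).m.eval fun p => .var (.z p))
        (fun t => (Cyl0 x (E.ar k)).m.eval (fun p => .var (.top p)) (trans b t))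
        (ext2 (Cyl0 x (E.ar k)).m b Q (fun p => .var (.z p)) (fun p => .var (.top p))
          (fun p => .var (.cyl p))) (.op k .var) =
      cs (Cyl0 x (E.ar k)).m x (ofGlob E (E.ar k)).m.toGlob
        ((Cyl0 x (E.ar k)).m.eval fun p => .var (.z p))
        (fun t => (Cyl0 x (E.ar k)).m.eval (fun p => .var (.top p)) (trans b t))
        (ext2 (Cyl0 x (E.ar k)).m b Q' (fun p => .var (.z p)) (fun p => .var (.top p))
          (fun p => .var (.cyl p))) (.op k .var) := by
  refine cs_congr (W := (ofGlob E (E.ar k)).m.toGlob) (N := 0) (hx (E.dm k)).1 (fun _ _ => rfl)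
    (fun _ _ _ => rfl) ?_
  intro q _ hq
  have hB := q2ExB_bd k (q := q) hq
  refine ext2_congr _ (fun k' hk' => h k' (hB k' hk')) (fun _ _ => rfl) (fun _ _ => rfl)
    (fun _ _ => rfl)

theorem exists_Q2 [E.Good] {x : XFam E} (hx : ∀ j, XGoodAt x 0 j) (hE : E.WF)
    {b : Interp E E} (hb : b.Good)
    (hC : ∀ k, E.kok k → ∀ L, (Cyl0 x (E.ar k)).MContr L) : ∃ Q : QFam E, Q2Good x b Q := by
  have : ∀ k : E.K, Nonempty (E.T (CV (E.ar k).C (E.ar k).C)) := by
    intro k
    obtain ⟨p⟩ := Sig.Good.ar_ne k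
    exact ⟨.var (.z p)⟩
  obtain ⟨Q, hQ⟩ := exists_of_acc (I := E.K) E.opLt
    (T := fun k => E.T (CV (E.ar k).C (E.ar k).C)) E.kok hE
    (by
      intro k k' hk h
      rcases h with h | h
      · exact hasOp_ok (Sig.Good.ok_bs k hk) h
      · exact hasOp_ok (Sig.Good.ok_bt k hk) h)
    (fun k Q => Q2GoodAt x b Q k)
    (by
      intro k Q Q' hk h1 h2 h3
      rw [q2Ex_iff] at h3 ⊢
      obtain ⟨a1, a2, a3, a4⟩ := h3
      rw [← h2]
      exact ⟨a1, a2, a3.trans (q2Ex_cs hx hk h1), a4⟩)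
    (by
      intro k Q hk hlow
      have hlaws := Sig.Good.ar_laws k hk
      have hlaws2 : (ofGlob E (E.ar k)).m.toGlob.Laws := m_laws (ofGlob E (E.ar k))
      have hok : (ofGlob E (E.ar k)).m.toGlob.ok (.op k .var) := q2Ex_isK hk
      have hz : ∀ v, (ofGlob E (E.ar k)).ok v → AsgAt (ofGlob E (E.ar k)) (Cyl0 x (E.ar k)).m
          (fun p => .var (.z p)) v := fun v hv => ⟨hv, rfl, fun _ => ⟨rfl, rfl⟩⟩
      have htop : ∀ v, (ofGlob E (E.ar k)).ok v → AsgAt (ofGlob E (E.ar k))
          ((Cyl0 x (E.ar k)).m.pull b) (fun p => .var (.top p)) v := fun v hv =>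
        ⟨hv, rfl, fun _ => ⟨rfl, rfl⟩⟩
      have mα : ∀ t, (ofGlob E (E.ar k)).tok t → MapAt (ofGlob E (E.ar k)).m.toGlob
          (Cyl0 x (E.ar k)).m.toGlob ((Cyl0 x (E.ar k)).m.eval fun p => .var (.z p)) t :=
        fun t ht => eval_mapAt hz t ht
      have mβ : ∀ t, (ofGlob E (E.ar k)).tok t → MapAt (ofGlob E (E.ar k)).m.toGlob
          (Cyl0 x (E.ar k)).m.toGlob
          (fun t => (Cyl0 x (E.ar k)).m.eval (fun p => .var (.top p)) (trans b t)) t :=
        fun t ht => ext2_top_mapAt hb ht fun v hv => htop v (hasVar_ok ht hv)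
      have hc : ∀ r : D, r.1 < E.dm k → CylAt (Cyl0 x (E.ar k)).m x
          (ofGlob E (E.ar k)).m.toGlob ((Cyl0 x (E.ar k)).m.eval fun p => .var (.z p))
          (fun t => (Cyl0 x (E.ar k)).m.eval (fun p => .var (.top p)) (trans b t))
          (ext2 (Cyl0 x (E.ar k)).m b Q (fun p => .var (.z p)) (fun p => .var (.top p))
            (fun p => .var (.cyl p)))
          ((ofGlob E (E.ar k)).m.toGlob.bd (.op k .var) r) := by
        intro r hr
        have ht : (ofGlob E (E.ar k)).tok ((ofGlob E (E.ar k)).m.toGlob.bd (.op k .var) r) :=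
          ok_bd hok r
        exact ext2_cylAt hx hb ht (fun k' hk' => hlow k' (q2ExB_bd k hr k' hk'))
          (fun v hv => hz v (hasVar_ok ht hv)) (fun v hv => htop v (hasVar_ok ht hv))
          (fun v hv => q2Ex_var (hasVar_ok ht hv))
      obtain ⟨s1, s2, s3⟩ := Cyl0UP_cs hx (W := (ofGlob E (E.ar k)).m.toGlob)
        (M := (Cyl0 x (E.ar k)).m)
        (α := (Cyl0 x (E.ar k)).m.eval fun p => .var (.z p))
        (β := fun t => (Cyl0 x (E.ar k)).m.eval (fun p => .var (.top p)) (trans b t))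
        (e := ext2 (Cyl0 x (E.ar k)).m b Q (fun p => .var (.z p)) (fun p => .var (.top p))
            (fun p => .var (.cyl p)))
        (p := .op k .var) hok (fun r _ => mα _ (ok_bd hok r)) (fun r _ => mβ _ (ok_bd hok r)) hc
      obtain ⟨t1, t2, t3⟩ := mβ _ hok
      obtain ⟨f, f1, f2, f3, f4⟩ := hC k hk (E.dm k + 1) _ _
        ⟨s1, t1, s2.trans t2.symm, fun h0 => by
          have h0' : 0 < E.dm k := lt_of_lt_of_eq h0 s2
          obtain ⟨u1, u2⟩ := s3 h0'
          obtain ⟨v1, v2⟩ := t3 h0'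
          exact ⟨u1.trans v1.symm, u2.trans v2.symm⟩⟩ (by
          rw [s2]; exact Nat.lt_succ_self _)
      have hne : ∀ k', Relation.TransGen E.opLt k' k → k' ≠ k := by
        rintro k' h rfl
        exact q2Ex_irrefl (hE k' hk) h
      refine ⟨Function.update Q k f, fun k' hk' => Function.update_of_ne (hne k' hk') _ _, ?_⟩
      rw [q2Ex_iff]
      have hself : Function.update Q k f k = f := Function.update_self _ _ _
      rw [hself]
      refine ⟨f1, f2.trans (congrArg (· + 1) s2), f3.trans ?_, f4.trans ?_⟩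
      · exact q2Ex_cs hx hk fun k' hk' => (Function.update_of_ne (hne k' hk') _ _).symm
      · exact congrArg (fun t => Tm.map t CV.top) (Tm.bind_var_self (b k)))
  exact ⟨Q, hQ⟩

end HH
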