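import Pool.Agent.HH.ExtA
import Pool.Agent.HH.ExtE
import Pool.Agent.HH.L0Ex
import Pool.Agent.HH.Q2Ex
import Pool.Agent.HH.Trans0

/-!
# HH part 3, module d4: the gluing lemma for contractible computads
-/

set_option autoImplicit false

namespace HH

open Classical CategoryTheory

variable {S : Sig}

/-- level-0 data and fillers for the identity twist exist -/
theorem exists_L0Q [S.Good] [S.Strat] (h : S.Hyp) :
    ∃ (d : L0 S) (Q : QFam S), d.Good ∧ Q2Good d.x (idI S) Q := by
  obtain ⟨d, hd⟩ := exists_L0 h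
  obtain ⟨Q, hQ⟩ := exists_Q2 hd.hx Strat.sig_wf idI_good (fun k hk L => by
    have := Sig.Good.ar_laws k hk
    exact Cyl0_contr h hd.hx (fun L => h _ (ArCl.ar k hk) L) L)
  exact ⟨d, Q, hd, hQ⟩

/-- `cs` does not see restrictions -/
theorem glue_cs_res {X : Cptd S} (p : X.V → Prop) (x : XFam S) (α β e : S.T X.V → S.T X.V)
    (t : S.T X.V) :
    cs (X.res p).m x (X.res p).m.toGlob α β e t = cs X.m x X.m.toGlob α β e t := by
  have h1 : (X.res p).m.toGlob.bd t = X.m.toGlob.bd t := funext fun r => extE_res_bd t r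
  have h2 : (X.res p).m.toGlob.dim t = X.m.toGlob.dim t := res_tdim t
  unfold cs
  rw [h1, h2]
  rfl

theorem glue_eval_res {X : Cptd S} (p : X.V → Prop) {V : Type} (γ : V → S.T X.V) (t : S.T V) :
    (X.res p).m.eval γ t = X.m.eval γ t := by
  induction t with
  | var v => rfl
  | op k f ih => exact congrArg (Tm.op k) (funext ih)

theorem glue_ext2_res {X : Cptd S} (p : X.V → Prop) {b : Interp S S} {Q : QFam S} {V : Type}
    (α β e : V → S.T X.V) (t : S.T V) :
    ext2 (X.res p).m b Q α β e t = ext2 X.m b Q α β e t := by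
  induction t with
  | var v => rfl
  | op k f ih =>
    show (X.res p).m.eval (CV.elim (fun p' => (X.res p).m.eval α (f p'))
      (fun p' => (X.res p).m.eval β (trans b (f p')))
      (fun p' => ext2 (X.res p).m b Q α β e (f p'))) (Q k) =
      X.m.eval (CV.elim (fun p => X.m.eval α (f p)) (fun p => X.m.eval β (trans b (f p)))
      (fun p => ext2 X.m b Q α β e (f p))) (Q k)
    rw [glue_eval_res]
    congr 1
    funext v
    cases v with
    | z q => exact glue_eval_res p α _
    | top q => exact glue_eval_res p β _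
    | cyl q => exact ih q

/-- substitutions into restrictions -/
theorem glue_asg {Y X : Cptd S} (p : X.V → Prop) (γ : Y.V → S.T X.V) (v : Y.V) :
    AsgAt Y (X.res p).m γ v ↔ (X.res p).tok (γ v) ∧ X.tdim (γ v) = Y.dim v ∧
      (0 < Y.dim v → X.tsrc (γ v) = X.m.eval γ (Y.src v) ∧
        X.ttgt (γ v) = X.m.eval γ (Y.tgt v)) := by
  have h1 : (X.res p).tdim (γ v) = X.tdim (γ v) := res_tdim _
  have h2 : (X.res p).tsrc (γ v) = X.tsrc (γ v) := res_tsrc _
  have h3 : (X.res p).ttgt (γ v) = X.ttgt (γ v) := res_ttgt _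
  constructor
  · rintro ⟨a1, a2, a3⟩
    refine ⟨a1, h1.symm.trans a2, fun h0 => ⟨?_, ?_⟩⟩
    · exact h2.symm.trans ((a3 h0).1.trans (glue_eval_res p γ _))
    · exact h3.symm.trans ((a3 h0).2.trans (glue_eval_res p γ _))
  · rintro ⟨a1, a2, a3⟩
    refine ⟨a1, h1.trans a2, fun h0 => ⟨?_, ?_⟩⟩
    · exact h2.trans ((a3 h0).1.trans (glue_eval_res p γ _).symm)
    · exact h3.trans ((a3 h0).2.trans (glue_eval_res p γ _).symm)

theorem glue_cs_fun {M : Model S} {x : XFam S} {W : Glob} {α β e α' β' e' : W.C → M.C} {t : W.C}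
    (h1 : α = α') (h2 : β = β') (h3 : e = e') : cs M x W α β e t = cs M x W α' β' e' t := by
  subst h1 h2 h3
  rfl

/-- cylinders in restrictions -/
theorem glue_cylAt {X : Cptd S} (p : X.V → Prop) (x : XFam S) {Q : QFam S}
    (α β e : X.V → S.T X.V) (v : X.V) :
    CylAt (X.res p).m x (X.res p).m.toGlob ((X.res p).m.eval α)
        (fun t => (X.res p).m.eval β (trans (idI S) t)) (ext2 (X.res p).m (idI S) Q α β e)
        (.var v) ↔
      (X.res p).tok (e v) ∧ X.tdim (e v) = X.dim v + 1 ∧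
        X.tsrc (e v) = cs X.m x X.m.toGlob (X.m.eval α) (fun t => X.m.eval β (trans (idI S) t))
          (ext2 X.m (idI S) Q α β e) (.var v) ∧ X.ttgt (e v) = β v := by
  have h1 : (X.res p).tdim (e v) = X.tdim (e v) := res_tdim _
  have h2 : (X.res p).tsrc (e v) = X.tsrc (e v) := res_tsrc _
  have h3 : (X.res p).ttgt (e v) = X.ttgt (e v) := res_ttgt _
  have e1 : (X.res p).m.eval α = X.m.eval α := funext fun t => glue_eval_res p α t
  have e2 : (fun t => (X.res p).m.eval β (trans (idI S) t)) =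
      fun t => X.m.eval β (trans (idI S) t) := funext fun t => glue_eval_res p β _
  have e3 : ext2 (X.res p).m (idI S) Q α β e = ext2 X.m (idI S) Q α β e :=
    funext fun t => glue_ext2_res p α β e t
  have h4 := (glue_cs_res p x ((X.res p).m.eval α) (fun t => (X.res p).m.eval β (trans (idI S) t))
    (ext2 (X.res p).m (idI S) Q α β e) (.var v)).trans (glue_cs_fun e1 e2 e3)
  constructor
  · rintro ⟨a1, a2, a3, a4⟩
    exact ⟨a1, h1.symm.trans a2, h2.symm.trans (a3.trans h4), h3.symm.trans a4⟩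
  · rintro ⟨a1, a2, a3, a4⟩
    exact ⟨a1, h1.trans a2, h2.trans (a3.trans h4.symm), h3.trans a4⟩

/-- the iterated boundaries of a genuine variable of a good restriction only contain variables of
the restriction -/
theorem glue_bd_var [S.Good] {X : Cptd S} {p : X.V → Prop} (hp : (X.res p).Good) {v : X.V}
    (hv : p v) (r : D) {w : X.V} (hw : (X.m.toGlob.bd (.var v) r).HasVar w) : p w := by
  have h1 : (X.res p).tok ((X.res p).m.toGlob.bd (.var v) r) :=
    ok_bd (G := (X.res p).m.toGlob) (x := .var v) hv r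
  rw [extE_res_bd] at h1
  exact ((res_tok_iff _).1 h1).2 w hw

/-- changing the families off the restriction -/
theorem glue_cs_congr [S.Good] {x : XFam S} (hx : ∀ j, XGoodAt x 0 j) {Q : QFam S} {X : Cptd S}
    {p : X.V → Prop} (hp : (X.res p).Good) {α β e β' e' : X.V → S.T X.V} {v : X.V} (hv : p v)
    (hβ : ∀ w, p w → β w = β' w) (he : ∀ w, p w → e w = e' w) :
    cs X.m x X.m.toGlob (X.m.eval α) (fun t => X.m.eval β (trans (idI S) t))
      (ext2 X.m (idI S) Q α β e) (.var v) =
    cs X.m x X.m.toGlob (X.m.eval α) (fun t => X.m.eval β' (trans (idI S) t))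
      (ext2 X.m (idI S) Q α β' e') (.var v) := by
  refine cs_congr (N := 0) (hx (X.dim v)).1 (fun _ _ => rfl) (fun q _ _ => ?_) (fun q _ _ => ?_)
  · show X.m.eval β (trans (idI S) _) = X.m.eval β' (trans (idI S) _)
    rw [trans_id]
    exact ext2F_eval_congr _ fun w hw => hβ w (glue_bd_var hp hv q hw)
  · refine ext2_congr _ (fun _ _ => rfl) (fun _ _ => rfl) (fun w hw => ?_)
      (fun w hw => he w (glue_bd_var hp hv q hw))
    rw [trans_id] at hw
    exact hβ w (glue_bd_var hp hv q (hw.elim id id))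

/-- **The gluing lemma.** -/
theorem glue_ctr [S.Good] [S.Strat] (h : S.Hyp) {X : Cptd S} [X.Good] {p q : X.V → Prop}
    (hpq : ∀ v, X.ok v ↔ p v ∨ q v) (hp : (X.res p).Good) (hq : (X.res q).Good)
    (cp : (X.res p).Ctr) (cq : (X.res q).Ctr) (cpq : (X.res (fun v => p v ∧ q v)).Ctr) :
    X.Ctr := by
  obtain ⟨d, Q, hd, hQ⟩ := exists_L0Q h
  have hx := hd.hx
  have hpX : ∀ v, p v → X.ok v := fun v hv => (hpq v).2 (Or.inl hv)
  have hqX : ∀ v, q v → X.ok v := fun v hv => (hpq v).2 (Or.inr hv)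
  have hpq' : (X.res (fun v => p v ∧ q v)).Good := by
    refine res_good (fun v hv => hpX v hv.1) fun v hv h0 => ⟨?_, ?_⟩
    · exact res_and_tok (hp.ok_src v hv.1 h0) (hq.ok_src v hv.2 h0)
    · exact res_and_tok (hp.ok_tgt v hv.1 h0) (hq.ok_tgt v hv.2 h0)
  -- (i) the retraction of the first part
  obtain ⟨r, hr1, hr2⟩ := exists_ext_asg (X := X.res p) (q := fun v => p v ∧ q v)
    (fun v hv => hv.1) hpq' (M := (X.res (fun v => p v ∧ q v)).m) cpq (γ0 := .var)
    (fun v hv => ⟨hv, rfl, fun _ => ⟨(Tm.bind_var_self (X.src v)).symm,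
      (Tm.bind_var_self (X.tgt v)).symm⟩⟩)
  have hvar : ∀ (P : X.V → Prop) (v : X.V), P v → AsgAt (X.res P) (X.res P).m .var v :=
    fun P v hv => ⟨hv, rfl, fun _ => ⟨(Tm.bind_var_self (X.src v)).symm,
      (Tm.bind_var_self (X.tgt v)).symm⟩⟩
  -- (ii) the homotopy on the intersection
  have hfalse : ((X.res (fun v => p v ∧ q v)).res (fun _ => False)).Good :=
    ⟨fun _ h => h.elim, fun _ h => h.elim, fun _ h => h.elim, fun _ h => h.elim,
      fun _ h => h.elim, fun _ h => h.elim⟩
  obtain ⟨e0, he0, -⟩ := exists_ext_cyl hd hQ (X := X.res (fun v => p v ∧ q v))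
    (q := fun _ => False) (fun _ h => h.elim) hfalse (M := (X.res (fun v => p v ∧ q v)).m)
    cpq.2 (α := .var) (β := .var) (e0 := .var) (hvar _) (hvar _) (fun _ h => h.elim)
  -- (iii) the homotopy on the first part
  obtain ⟨e1, he1, he1'⟩ := exists_ext_cyl hd hQ (X := X.res p)
    (q := fun v => p v ∧ q v) (fun v hv => hv.1) hpq' (M := (X.res p).m)
    cp.2 (α := .var) (β := r) (e0 := e0) (hvar _)
    (fun v hv => by
      obtain ⟨h1, h2, h3⟩ := (glue_asg _ _ _).1 (hr1 v hv)
      exact (glue_asg _ _ _).2 ⟨res_tok_mono (X := X) (fun v hv => hv.1) h1, h2, h3⟩)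
    (by
      intro v hv
      obtain ⟨h1, h2, h3, h4⟩ := (glue_cylAt _ _ _ _ _ _).1 (he0 v hv)
      refine (glue_cylAt _ _ _ _ _ _).2 ⟨res_tok_mono (X := X) (fun v hv => hv.1) h1, h2, ?_, ?_⟩
      · refine h3.trans ?_
        exact glue_cs_congr hx (p := fun v => p v ∧ q v) hpq' hv (fun w hw => (hr2 w hw).symm)
          (fun w _ => rfl)
      · exact h4.trans (hr2 v hv).symm)
  -- (iv) the homotopy on the second part
  obtain ⟨e2, he2, he2'⟩ := exists_ext_cyl hd hQ (X := X.res q)
    (q := fun v => p v ∧ q v) (fun v hv => hv.2) hpq' (M := (X.res q).m)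
    cq.2 (α := .var) (β := .var) (e0 := e0) (hvar _) (hvar _)
    (by
      intro v hv
      obtain ⟨h1, h2, h3, h4⟩ := (glue_cylAt _ _ _ _ _ _).1 (he0 v hv)
      exact (glue_cylAt _ _ _ _ _ _).2 ⟨res_tok_mono (X := X) (fun v hv => hv.2) h1, h2,
        h3, h4⟩)
  -- (v) the two homotopies together
  let β : X.V → S.T X.V := fun v => if p v then r v else .var v
  let e : X.V → S.T X.V := fun v => if p v then e1 v else e2 v
  have hβp : ∀ v, p v → β v = r v := fun v hv => if_pos hv
  have hep : ∀ v, p v → e v = e1 v := fun v hv => if_pos hv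
  have hβq : ∀ v, q v → β v = .var v := by
    intro v hv
    by_cases h1 : p v
    · rw [hβp v h1]
      exact hr2 v ⟨h1, hv⟩
    · exact if_neg h1
  have heq : ∀ v, q v → e v = e2 v := by
    intro v hv
    by_cases h1 : p v
    · rw [hep v h1, he1' v ⟨h1, hv⟩, he2' v ⟨h1, hv⟩]
    · exact if_neg h1
  have occ : ∀ {P : X.V → Prop} {t : S.T X.V}, (X.res P).tok t → ∀ w, t.HasVar w → P w :=
    fun ht => ((res_tok_iff _).1 ht).2
  have hβasg : ∀ v, X.ok v → AsgAt X (X.res q).m β v := by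
    intro v hv
    refine (glue_asg (Y := X) _ _ _).2 ?_
    rcases (hpq v).1 hv with h1 | h1
    · obtain ⟨a1, a2, a3⟩ := (glue_asg _ _ _).1 (hr1 v h1)
      rw [hβp v h1]
      refine ⟨res_tok_mono (X := X) (fun v hv => hv.2) a1, a2, fun h0 => ?_⟩
      obtain ⟨a4, a5⟩ := a3 h0
      refine ⟨a4.trans ?_, a5.trans ?_⟩
      · exact ext2F_eval_congr (M := X.m) (X.src v) fun w hw =>
          (hβp w (occ (hp.ok_src v h1 h0) w hw)).symm
      · exact ext2F_eval_congr (M := X.m) (X.tgt v) fun w hw =>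
          (hβp w (occ (hp.ok_tgt v h1 h0) w hw)).symm
    · obtain ⟨a1, a2, a3⟩ := (glue_asg _ _ _).1 (hvar q v h1)
      rw [hβq v h1]
      refine ⟨a1, a2, fun h0 => ?_⟩
      obtain ⟨a4, a5⟩ := a3 h0
      refine ⟨a4.trans ?_, a5.trans ?_⟩
      · exact ext2F_eval_congr (M := X.m) (X.src v) fun w hw =>
          (hβq w (occ (hq.ok_src v h1 h0) w hw)).symm
      · exact ext2F_eval_congr (M := X.m) (X.tgt v) fun w hw =>
          (hβq w (occ (hq.ok_tgt v h1 h0) w hw)).symm
  have hβX : ∀ v, X.ok v → AsgAt X X.m β v := fun v hv => by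
    obtain ⟨a1, a2, a3⟩ := (glue_asg (Y := X) _ _ _).1 (hβasg v hv)
    exact ⟨tok_of_res hqX a1, a2, a3⟩
  have hcyl : ∀ v, X.ok v → CylAt X.m d.x X.m.toGlob (X.m.eval .var)
      (fun t => X.m.eval β (trans (idI S) t)) (ext2 X.m (idI S) Q .var β e) (.var v) := by
    intro v hv
    rcases (hpq v).1 hv with h1 | h1
    · obtain ⟨a1, a2, a3, a4⟩ := (glue_cylAt _ _ _ _ _ _).1 (he1 v h1)
      have e3 : ext2 X.m (idI S) Q .var β e (.var v) = e1 v := hep v h1
      refine ⟨?_, ?_, ?_, ?_⟩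
      · rw [e3]
        exact tok_of_res hpX a1
      · rw [e3]
        exact a2
      · rw [e3]
        exact a3.trans (glue_cs_congr hx hp h1 (fun w hw => (hβp w hw).symm)
          (fun w hw => (hep w hw).symm))
      · rw [e3]
        refine a4.trans ?_
        show X.m.eval r (trans (idI S) (.var v)) = X.m.eval β (trans (idI S) (.var v))
        rw [trans_id]
        exact (hβp v h1).symm
    · obtain ⟨a1, a2, a3, a4⟩ := (glue_cylAt _ _ _ _ _ _).1 (he2 v h1)
      have e3 : ext2 X.m (idI S) Q .var β e (.var v) = e2 v := heq v h1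
      refine ⟨?_, ?_, ?_, ?_⟩
      · rw [e3]
        exact tok_of_res hqX a1
      · rw [e3]
        exact a2
      · rw [e3]
        exact a3.trans (glue_cs_congr hx hq h1 (fun w hw => (hβq w hw).symm)
          (fun w hw => (heq w hw).symm))
      · rw [e3]
        refine a4.trans ?_
        show X.m.eval .var (trans (idI S) (.var v)) = X.m.eval β (trans (idI S) (.var v))
        rw [trans_id]
        exact (hβq v h1).symm
  have hpull : ∀ v, X.ok v → AsgAt X (X.m.pull (idI S)) β v := by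
    intro v hv
    obtain ⟨h1, h2, h3⟩ := hβX v hv
    refine ⟨h1, h2, fun h0 => ?_⟩
    rw [pull_eval, pull_eval, trans_id, trans_id]
    exact h3 h0
  have key := ext2_isCyl0 hx idI_good hQ (X := X) (M := X.m) (α := .var) (β := β) (e := e)
    (fun v hv => ⟨hv, rfl, fun _ => ⟨(Tm.bind_var_self (X.src v)).symm,
      (Tm.bind_var_self (X.tgt v)).symm⟩⟩) hpull hcyl
  refine ⟨?_, fun L f g hfg _ => ?_⟩
  · obtain ⟨t, ht1, ht2⟩ := cp.1
    have ht3 : (X.res p).tdim t = 0 := ht2
    rw [res_tdim] at ht3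
    exact ⟨t, tok_of_res hpX ht1, ht3⟩
  · have h1 : (X.res q).Par (X.m.eval β f) (X.m.eval β g) :=
      Par.eval' (M := (X.res q).m) hβasg hfg
    have h2 : (X.res q).Conn (X.m.eval β f) (X.m.eval β g) :=
      cq.2 ((X.res q).tdim (X.m.eval β f) + 1) _ _ h1 (Nat.lt_succ_self _)
    have h3 : X.Conn (X.m.eval β f) (X.m.eval β g) := res_conn hqX h2
    have h4 : X.m.toGlob.Conn ((fun t => X.m.eval β (trans (idI S) t)) f)
        ((fun t => X.m.eval β (trans (idI S) t)) g) := by
      show X.m.toGlob.Conn (X.m.eval β (trans (idI S) f)) (X.m.eval β (trans (idI S) g))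
      rw [trans_id, trans_id]
      exact h3
    have h5 := key.transport_rev hx hd.hr hfg h4
    have e5 : ∀ t : S.T X.V, X.m.eval .var t = t := Tm.bind_var_self
    rw [e5, e5] at h5
    exact h5

end HH
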