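import Pool.Agent.HH.Free0
import Pool.Agent.HH.Glue

/-!
# HH part 3, module d11: free computads over labels
-/

set_option autoImplicit false

namespace HH

open Classical CategoryTheory

variable {S : Sig}

section Free

variable {L : Type} [Preorder L]

theorem FC_glue [S.Good] [S.Strat] (h : S.Hyp) {U V : L → Prop}
    (hU : ∀ l l', l ≤ l' → U l' → U l) (hV : ∀ l l', l ≤ l' → V l' → V l)
    (cU : (FC S L U).Ctr) (cV : (FC S L V).Ctr) (cUV : (FC S L (fun l => U l ∧ V l)).Ctr) :
    (FC S L (fun l => U l ∨ V l)).Ctr := by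
  haveI : (FC S L (fun l => U l ∨ V l)).Good := FC_good (fun l l' hl hUV =>
    hUV.elim (fun h1 => Or.inl (hU l l' hl h1)) (fun h1 => Or.inr (hV l l' hl h1)))
  refine glue_ctr h (X := FC S L (fun l => U l ∨ V l)) (p := fun v => FOk v ∧ U (FV.lab v))
    (q := fun v => FOk v ∧ V (FV.lab v)) (fun v => ?_) (FC_good hU) (FC_good hV) cU cV ?_
  · show (FOk v ∧ (U (FV.lab v) ∨ V (FV.lab v))) ↔ _
    tauto
  · have e : (fun v : FV S L => (FOk v ∧ U (FV.lab v)) ∧ (FOk v ∧ V (FV.lab v))) =
        fun v => FOk v ∧ (U (FV.lab v) ∧ V (FV.lab v)) := by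
      funext v
      exact propext (by tauto)
    have e2 : (FC S L (fun l => U l ∨ V l)).res
        (fun v : FV S L => (FOk v ∧ U (FV.lab v)) ∧ (FOk v ∧ V (FV.lab v))) =
        FC S L (fun l => U l ∧ V l) := by
      rw [e]
      rfl
    exact (congrArg Cptd.Ctr e2).mpr cUV

end Free

end HH
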