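import Pool.Agent.HH.GGDefs

/-!
# HH 2b GG: cells of presheaves (module to prove)

Everything is functoriality of `P` and the globular relations `F.s_st`, `F.t_st`.
* `GG_laws`: cases on the dimension (`0`, `n + 1`, `n + 2`); `src (tgt x) = src (src x)` for `x` of dimension
  `n + 2` is `P.map (F.s n).op (P.map (F.t (n+1)).op x) = P.map (F.s n).op (P.map (F.s (n+1)).op x)`, from
  `F.s_st`.
* `GG_bd_false`, `GG_bd_true`: induction on `n - i` with `Function.iterate_succ_apply`, `Globes.sTo_self`,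
  `sTo_succ`, `s_sTo` (file Inv.lean) ...; for `tTo` the same.
* `yoneda_isModel`: `IsSum.desc` is exactly the statement; the compatibility condition is
  `F.Compat` (unfold; `(yoneda.obj X).map f.op g = f ≫ g` is `rfl`).
-/

set_option autoImplicit false

namespace HH

open Classical CategoryTheory Opposite

open Pool.Agent.HH (Globes)

variable {C : Type} [SmallCategory C] {F : Globes C}

private theorem gg_comp (P : Cᵒᵖ ⥤ Type) {X Y Z : C} (f : X ⟶ Y) (g : Y ⟶ Z) (x : P.obj (op Z)) :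
    P.map f.op (P.map g.op x) = P.map (f ≫ g).op x := by
  rw [op_comp, CategoryTheory.Functor.map_comp]
  rfl

private theorem gg_id (P : Cᵒᵖ ⥤ Type) {X : C} (x : P.obj (op X)) : P.map (𝟙 X).op x = x := by
  rw [op_id, CategoryTheory.Functor.map_id]
  rfl

instance GG_laws (P : Cᵒᵖ ⥤ Type) : (GG F P).Laws where
  ok_src := fun _ _ _ => trivial
  ok_tgt := fun _ _ _ => trivial
  dim_src := by
    rintro ⟨_ | n, x⟩ _ h0
    · exact absurd h0 (lt_irrefl 0)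
    · rfl
  dim_tgt := by
    rintro ⟨_ | n, x⟩ _ h0
    · exact absurd h0 (lt_irrefl 0)
    · rfl
  src_tgt := by
    rintro ⟨_ | _ | n, x⟩ _ h1
    · exact absurd h1 (by change ¬ 1 < 0; omega)
    · exact absurd h1 (by change ¬ 1 < 0 + 1; omega)
    · change (⟨n, P.map (F.s n).op (P.map (F.t (n + 1)).op x)⟩ : Σ n, P.obj (op (F.D n))) =
        ⟨n, P.map (F.s n).op (P.map (F.s (n + 1)).op x)⟩
      rw [gg_comp, gg_comp, F.s_st]
  tgt_src := by
    rintro ⟨_ | _ | n, x⟩ _ h1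
    · exact absurd h1 (by change ¬ 1 < 0; omega)
    · exact absurd h1 (by change ¬ 1 < 0 + 1; omega)
    · change (⟨n, P.map (F.t n).op (P.map (F.s (n + 1)).op x)⟩ : Σ n, P.obj (op (F.D n))) =
        ⟨n, P.map (F.t n).op (P.map (F.t (n + 1)).op x)⟩
      rw [gg_comp, gg_comp, F.t_st]

theorem GG_bd_false (P : Cᵒᵖ ⥤ Type) {n i : ℕ} (h : i ≤ n) (x : P.obj (op (F.D n))) :
    (GG F P).bd ⟨n, x⟩ (i, false) = ⟨i, P.map (F.sTo h).op x⟩ := by
  have key : (GG F P).src^[n - i] ⟨n, x⟩ = ⟨i, P.map (F.sTo h).op x⟩ := by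
    induction n, h using Nat.le_induction with
    | base =>
      rw [Nat.sub_self, Globes.sTo_self, gg_id]
      rfl
    | succ n h ih =>
      have h1 : n + 1 - i = (n - i) + 1 := by omega
      rw [h1, Function.iterate_succ_apply,
        show F.sTo (Nat.le_succ_of_le h) = F.sTo h ≫ F.s n from F.sTo_succ h, ← gg_comp]
      exact ih _
  exact key

theorem GG_bd_true (P : Cᵒᵖ ⥤ Type) {n i : ℕ} (h : i ≤ n) (x : P.obj (op (F.D n))) :
    (GG F P).bd ⟨n, x⟩ (i, true) = ⟨i, P.map (F.tTo h).op x⟩ := by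
  have key : (GG F P).tgt^[n - i] ⟨n, x⟩ = ⟨i, P.map (F.tTo h).op x⟩ := by
    induction n, h using Nat.le_induction with
    | base =>
      rw [Nat.sub_self, Globes.tTo_self, gg_id]
      rfl
    | succ n h ih =>
      have h1 : n + 1 - i = (n - i) + 1 := by omega
      rw [h1, Function.iterate_succ_apply,
        show F.tTo (Nat.le_succ_of_le h) = F.tTo h ≫ F.t n from F.tTo_succ h, ← gg_comp]
      exact ih _
  exact key

theorem act_mapAt (P : Cᵒᵖ ⥤ Type) {X : C} (x : P.obj (op X)) (c : GC F X) :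
    MapAt (GG F (yoneda.obj X)) (GG F P) (act F P x) c := by
  obtain ⟨_ | n, f⟩ := c
  · exact ⟨trivial, rfl, fun h0 => absurd h0 (lt_irrefl 0)⟩
  · refine ⟨trivial, rfl, fun _ => ⟨?_, ?_⟩⟩
    · change (⟨n, P.map (F.s n).op (P.map f.op x)⟩ : Σ n, P.obj (op (F.D n))) =
        ⟨n, P.map (F.s n ≫ f).op x⟩
      rw [gg_comp]
    · change (⟨n, P.map (F.t n).op (P.map f.op x)⟩ : Σ n, P.obj (op (F.D n))) =
        ⟨n, P.map (F.t n ≫ f).op x⟩
      rw [gg_comp]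

theorem act_push (P : Cᵒᵖ ⥤ Type) {X Y : C} (u : X ⟶ Y) (x : P.obj (op Y)) (c : GC F X) :
    act F P x (push F u c) = act F P (P.map u.op x) c := by
  change (⟨c.1, P.map (c.2 ≫ u).op x⟩ : Σ n, P.obj (op (F.D n))) =
    ⟨c.1, P.map c.2.op (P.map u.op x)⟩
  rw [gg_comp]

theorem act_yoneda {X Y : C} (u : X ⟶ Y) (c : GC F X) :
    act F (yoneda.obj Y) u c = push F u c := rfl

theorem push_push {X Y Z : C} (u : X ⟶ Y) (v : Y ⟶ Z) (c : GC F X) :
    push F v (push F u c) = push F (u ≫ v) c := by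
  change (⟨c.1, (c.2 ≫ u) ≫ v⟩ : Σ n, (F.D n ⟶ Z)) = ⟨c.1, c.2 ≫ u ≫ v⟩
  rw [Category.assoc]

theorem push_id {X : C} (c : GC F X) : push F (𝟙 X) c = c := by
  change (⟨c.1, c.2 ≫ 𝟙 X⟩ : Σ n, (F.D n ⟶ X)) = c
  rw [Category.comp_id]

private theorem gg_nat {P Q : Cᵒᵖ ⥤ Type} (φ : P ⟶ Q) {X Y : C} (f : X ⟶ Y) (x : P.obj (op Y)) :
    Q.map f.op (φ.app _ x) = φ.app _ (P.map f.op x) :=
  (ConcreteCategory.congr_hom (φ.naturality f.op) x).symm

/-- the map on cells induced by a natural transformation -/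
def natC (F : Globes C) {P Q : Cᵒᵖ ⥤ Type} (φ : P ⟶ Q) (c : (GG F P).C) : (GG F Q).C :=
  ⟨c.1, φ.app _ c.2⟩

theorem natC_mapAt {P Q : Cᵒᵖ ⥤ Type} (φ : P ⟶ Q) (c : (GG F P).C) :
    MapAt (GG F P) (GG F Q) (natC F φ) c := by
  obtain ⟨_ | n, x⟩ := c
  · exact ⟨trivial, rfl, fun h0 => absurd h0 (lt_irrefl 0)⟩
  · refine ⟨trivial, rfl, fun _ => ⟨?_, ?_⟩⟩
    · change (⟨n, Q.map (F.s n).op (φ.app _ x)⟩ : Σ n, Q.obj (op (F.D n))) =
        ⟨n, φ.app _ (P.map (F.s n).op x)⟩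
      rw [gg_nat]
    · change (⟨n, Q.map (F.t n).op (φ.app _ x)⟩ : Σ n, Q.obj (op (F.D n))) =
        ⟨n, φ.app _ (P.map (F.t n).op x)⟩
      rw [gg_nat]

theorem natC_act {P Q : Cᵒᵖ ⥤ Type} (φ : P ⟶ Q) {X : C} (x : P.obj (op X)) (c : GC F X) :
    natC F φ (act F P x c) = act F Q (φ.app _ x) c := by
  change (⟨c.1, φ.app _ (P.map c.2.op x)⟩ : Σ n, Q.obj (op (F.D n))) =
    ⟨c.1, Q.map c.2.op (φ.app _ x)⟩
  rw [gg_nat]

theorem yoneda_isModel (X : C) : Pool.Agent.HH.IsModel F (yoneda.obj X) :=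
  fun _ _ _ hε g hg => hε.desc X g hg

/-- connected cells of a model are homotopic cells -/
theorem GG_conn (P : Cᵒᵖ ⥤ Type) {n : ℕ} (x y : P.obj (op (F.D n))) :
    (GG F P).Conn ⟨n, x⟩ ⟨n, y⟩ ↔
      ∃ h : P.obj (op (F.D (n + 1))), P.map (F.s n).op h = x ∧ P.map (F.t n).op h = y := by
  constructor
  · rintro ⟨⟨m, h⟩, -, hd, hs, ht⟩
    have hd' : m = n + 1 := hd
    subst hd'
    refine ⟨h, ?_, ?_⟩
    · have h1 : (⟨n, P.map (F.s n).op h⟩ : Σ n, P.obj (op (F.D n))) = ⟨n, x⟩ := hs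
      simpa using h1
    · have h1 : (⟨n, P.map (F.t n).op h⟩ : Σ n, P.obj (op (F.D n))) = ⟨n, y⟩ := ht
      simpa using h1
  · rintro ⟨h, rfl, rfl⟩
    exact ⟨⟨n + 1, h⟩, trivial, rfl, rfl, rfl⟩

theorem GG_par (P : Cᵒᵖ ⥤ Type) {n : ℕ} (x y : P.obj (op (F.D n))) :
    (GG F P).Par ⟨n, x⟩ ⟨n, y⟩ ↔ ∀ m (h : n = m + 1),
      P.map (F.s m).op (h ▸ x) = P.map (F.s m).op (h ▸ y) ∧
        P.map (F.t m).op (h ▸ x) = P.map (F.t m).op (h ▸ y) := by
  constructor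
  · rintro ⟨-, -, -, h4⟩ m h
    subst h
    obtain ⟨h5, h6⟩ := h4 (Nat.succ_pos m)
    have h5' : (⟨m, P.map (F.s m).op x⟩ : Σ n, P.obj (op (F.D n))) = ⟨m, P.map (F.s m).op y⟩ := h5
    have h6' : (⟨m, P.map (F.t m).op x⟩ : Σ n, P.obj (op (F.D n))) = ⟨m, P.map (F.t m).op y⟩ := h6
    exact ⟨by simpa using h5', by simpa using h6'⟩
  · intro h
    refine ⟨trivial, trivial, rfl, fun h0 => ?_⟩
    obtain _ | m := n
    · exact absurd h0 (lt_irrefl 0)
    · obtain ⟨h5, h6⟩ := h m rfl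
      exact ⟨congrArg (fun z => (⟨m, z⟩ : Σ n, P.obj (op (F.D n)))) h5,
        congrArg (fun z => (⟨m, z⟩ : Σ n, P.obj (op (F.D n)))) h6⟩

/-- in a contractible globular extension the cells of an object are contractible -/
theorem GG_contr (hc : F.Contractible) (X : C) (L : ℕ) : (GG F (yoneda.obj X)).MContr L := by
  rintro ⟨n, f⟩ ⟨n', g⟩ hp _
  have hd : n = n' := hp.2.2.1
  subst hd
  rw [GG_conn]
  rw [GG_par] at hp
  have hpar : F.Parallel X n f g := by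
    obtain _ | m := n
    · trivial
    · exact hp m rfl
  obtain ⟨h, h1, h2⟩ := hc X n f g hpar
  exact ⟨h, h1, h2⟩

end HH
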