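import Pool.Agent.HH.Jpres

/-!
# HH OFF-LIFT: coherators are cofibrant (module to prove)

`lift`: let `K`, `c` be the tower and the colimit cocone of the coherator and
`a₀ : (K.G0.map (c.J 0)).Iso F`.

Stage 0: `K.universal.exists_desc` gives `L₀ : A 0 ⥤ E` with `l₀ : (G0.map L₀).Iso G`. Both `L₀ ⋙ π` and
`J 0 ⋙ M` preserve globular sums (`J_preserves`, `Preserves.comp`, `Preserves.iso`) and their
images of the globes are isomorphic (compose `l₀`, `m`, `a₀`), so `unique_desc` gives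
`β₀ : L₀ ⋙ π ≅ J 0 ⋙ M` which on the globes is the given isomorphism.

Stage n to n + 1: let `L n : A n ⥤ E` preserve globular sums, with an isomorphism
`((K.G n).map (L n)).Iso G`, and `β n : L n ⋙ π ≅ J n ⋙ M`. For `a` in the index set of the family `P n` the arrow
`M ((J (n+1)) (h a))`, transported along `φ n : T n ⋙ J (n+1) ≅ J n` and along `β n`, is an arrow
`π (L n (D)) ⟶ π (L n (X a))` which is a lifting of the images of the pair (use that `h a` is a
lifting in `A (n+1)`, naturality). By `RelContractible.iso` (the relative lifting property does not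
depend on the globes up to isomorphism) there is a lifting `l a` in `E` of the pair
`(L n f, L n g)` whose image under `π` is this arrow. `(K.free n).exists_desc` gives `L (n+1)` and
`α n : T n ⋙ L (n+1) ≅ L n`. The isomorphism
`T n ⋙ L (n+1) ⋙ π ≅ L n ⋙ π ≅ J n ⋙ M ≅ T n ⋙ J (n+1) ⋙ M` satisfies the condition on the `h a`, so
`unique_desc` gives `β (n+1) : L (n+1) ⋙ π ≅ J (n+1) ⋙ M` extending it.

Make the recursion with a structure (sigma type) of data at stage `n` (the functor, `β`, and the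
properties); the step is a function obtained by choice, and records `α n` and the compatibility of
`β n`, `β (n+1)`, `α n`, `φ n`.

Then `IsColim.exists_desc` applied to the `L n` and the `α n` gives `L : C ⥤ E` and `θ n : J n ⋙ L ≅ L n`;
`IsColim.exists_iso` applied to `J n ⋙ L ⋙ π ≅ L n ⋙ π ≅ J n ⋙ M` gives `β : L ⋙ π ≅ M`. The isomorphism of globes is
composed of `a₀`, `θ 0`, `l₀`. `L` preserves globular sums by `Preserves.of_some`: for each table the
image in `C` of a globular sum of `A 0` is a globular sum (`J_preserves`, transport by `a₀`) and its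
image under `L` is isomorphic to its image under `L₀`. The last equation is checked on the
image of `G0` under `J 0` and transported by `a₀`.
-/

universe v' u u'

open CategoryTheory Opposite

namespace Pool.Agent.HH

/-- Relative lifting property: every lifting in `B` of the image of a parallel pair of `E` comes from a
lifting in `E`. -/
def RelContractible {E : Type u} [SmallCategory E] (G : Globes E) {B : Type u'} [Category.{v'} B]
    (π : E ⥤ B) : Prop :=
  ∀ (X : E) (i : ℕ) (f g : G.D i ⟶ X), G.Parallel X i f g →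
    ∀ l : π.obj (G.D (i + 1)) ⟶ π.obj X,
      (G.map π).IsLift (X := π.obj X) (i := i) (π.map f) (π.map g) l →
      ∃ h, G.IsLift f g h ∧ π.map h = l

theorem RelContractible.iso {E : Type u} [SmallCategory E] {G G' : Globes E} {B : Type u'}
    [Category.{v'} B] {π : E ⥤ B} (h : RelContractible G π) (a : G.Iso G') :
    RelContractible G' π := by
  intro X i f g hp l hl
  have h1 := hp.iso a.symm
  have h2 := hl.iso (a.mapIso π).symm
  obtain ⟨k, hk, hk'⟩ := h X i _ _ h1 (π.map (a.e (i + 1)).hom ≫ l) (by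
    have e1 : ∀ u : G'.D i ⟶ X, ((a.mapIso π).symm.e i).inv ≫ π.map u =
        π.map ((a.symm.e i).inv ≫ u) := fun u => by
      rw [π.map_comp]
      rfl
    rw [e1, e1] at h2
    exact h2)
  refine ⟨(a.e (i + 1)).inv ≫ k, ?_, ?_⟩
  · have h3 := hk.iso a
    have e1 : ∀ u : G'.D i ⟶ X, (a.e i).inv ≫ (a.symm.e i).inv ≫ u = u := fun u =>
      Iso.inv_hom_id_assoc (a.e i) u
    rwa [e1, e1] at h3
  · rw [π.map_comp, hk', ← Category.assoc, ← π.map_comp, Iso.inv_hom_id, π.map_id,
      Category.id_comp]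

section stage

variable {C : Type u} [SmallCategory C] {F : Globes C} {E B : Type u}
  [SmallCategory E] [SmallCategory B] (G : Globes E) (π : E ⥤ B) (M : C ⥤ B) (K : Tower.{u})
  (c : K.toPreTower.Cocone C)

/-- The data at stage `n`. -/
private structure St (n : ℕ) where
  /-- the functor -/
  L : K.A n ⥤ E
  pres : (K.G n).Preserves L
  /-- the isomorphism of globes -/
  l : ((K.G n).map L).Iso G
  /-- the comparison -/
  β : L ⋙ π ≅ c.J n ⋙ M

variable {G π M K c}

private theorem stage_step (hc : c.IsColim) (a₀ : (K.G0.map (c.J 0)).Iso F) (hG : G.IsExt)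
    (hπ : G.Preserves π) (hB : (G.map π).IsExt) (hr : RelContractible G π)
    (hM : F.Preserves M) (n : ℕ) (S : St G π M K c n) :
    ∃ (S' : St G π M K c (n + 1)) (α : K.T n ⋙ S'.L ≅ S.L), ∀ X : K.A n,
      S'.β.hom.app ((K.T n).obj X) ≫ M.map ((c.φ n).hom.app X) =
        π.map (α.hom.app X) ≫ S.β.hom.app X := by
  -- the images of the adjoined liftings
  let lB : ∀ a, π.obj (S.L.obj ((K.G n).D ((K.P n).n a + 1))) ⟶ π.obj (S.L.obj ((K.P n).X a)) :=
    fun a => S.β.hom.app _ ≫ M.map ((c.φ n).inv.app _) ≫ M.map ((c.J (n + 1)).map (K.h n a)) ≫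
      M.map ((c.φ n).hom.app _) ≫ S.β.inv.app _
  -- naturality
  have nβ : ∀ {X Y : K.A n} (f : X ⟶ Y), π.map (S.L.map f) ≫ S.β.hom.app Y =
      S.β.hom.app X ≫ M.map ((c.J n).map f) := fun f => S.β.hom.naturality f
  have nφ : ∀ {X Y : K.A n} (f : X ⟶ Y), (c.J n).map f ≫ (c.φ n).inv.app Y =
      (c.φ n).inv.app X ≫ (c.J (n + 1)).map ((K.T n).map f) := fun f => (c.φ n).inv.naturality f
  have nφ' : ∀ {X Y : K.A n} (f : X ⟶ Y), (c.J (n + 1)).map ((K.T n).map f) ≫
      (c.φ n).hom.app Y = (c.φ n).hom.app X ≫ (c.J n).map f := fun f => (c.φ n).hom.naturality f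
  have nM : ∀ {X Y : K.A n} (f : X ⟶ Y), π.map (S.L.map f) ≫ S.β.hom.app Y ≫
      M.map ((c.φ n).inv.app Y) = S.β.hom.app X ≫ M.map ((c.φ n).inv.app X) ≫
        M.map ((c.J (n + 1)).map ((K.T n).map f)) := by
    intro X Y f
    rw [← Category.assoc, nβ, Category.assoc, ← M.map_comp, nφ, M.map_comp]
  have conj : ∀ {X Y : K.A n} (f : X ⟶ Y), S.β.hom.app X ≫ M.map ((c.φ n).inv.app X) ≫
      M.map ((c.J (n + 1)).map ((K.T n).map f)) ≫ M.map ((c.φ n).hom.app Y) ≫ S.β.inv.app Y =
      π.map (S.L.map f) := by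
    intro X Y f
    rw [← Category.assoc (M.map ((c.J (n + 1)).map _)), ← M.map_comp, nφ', M.map_comp,
      ← Category.assoc (M.map ((c.φ n).inv.app X)), ← Category.assoc (M.map ((c.φ n).inv.app X)),
      ← M.map_comp, Iso.inv_hom_id_app, M.map_id, Category.id_comp, ← Category.assoc, ← nβ,
      Category.assoc, Iso.hom_inv_id_app]
    exact Category.comp_id _
  have hlift : ∀ a, (((K.G n).map S.L).map π).IsLift (X := π.obj (S.L.obj ((K.P n).X a)))
      (i := (K.P n).n a) (π.map (S.L.map ((K.P n).f a))) (π.map (S.L.map ((K.P n).g a))) (lB a) := by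
    intro a
    have hl := (K.free n).lift a
    constructor
    · change π.map (S.L.map ((K.G n).s _)) ≫ S.β.hom.app _ ≫ M.map ((c.φ n).inv.app _) ≫ _ = _
      rw [← Category.assoc (S.β.hom.app _), ← Category.assoc, nM, Category.assoc, Category.assoc,
        ← Category.assoc (M.map ((c.J (n + 1)).map _)), ← M.map_comp, ← Functor.map_comp]
      have h1 : (K.T n).map ((K.G n).s ((K.P n).n a)) ≫ K.h n a = (K.T n).map ((K.P n).f a) := hl.1
      rw [h1]
      exact conj _
    · change π.map (S.L.map ((K.G n).t _)) ≫ S.β.hom.app _ ≫ M.map ((c.φ n).inv.app _) ≫ _ = _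
      rw [← Category.assoc (S.β.hom.app _), ← Category.assoc, nM, Category.assoc, Category.assoc,
        ← Category.assoc (M.map ((c.J (n + 1)).map _)), ← M.map_comp, ← Functor.map_comp]
      have h1 : (K.T n).map ((K.G n).t ((K.P n).n a)) ≫ K.h n a = (K.T n).map ((K.P n).g a) := hl.2
      rw [h1]
      exact conj _
  choose l hl hl' using fun a => (hr.iso S.l.symm) (S.L.obj ((K.P n).X a)) ((K.P n).n a)
    (S.L.map ((K.P n).f a)) (S.L.map ((K.P n).g a)) (((K.P n).par a).map S.L) (lB a) (hlift a)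
  obtain ⟨L', α, hp, hα⟩ := (K.free n).exists_desc S.L (hG.iso S.l.symm) S.pres l hl
  -- the isomorphism of globes
  let e1 : (((K.G n).map (K.T n)).map L').Iso ((K.G n).map S.L) :=
    ((K.G n).mapComp (K.T n) L').trans ((K.G n).isoOfNatIso α)
  have l' : ((K.G (n + 1)).map L').Iso G := e1.trans S.l
  -- the comparison over `B`
  obtain ⟨g₀⟩ := c.G_iso (n + 1)
  have hJM : (K.G (n + 1)).Preserves (c.J (n + 1) ⋙ M) :=
    (K.J_preserves c hc (n + 1)).comp (hM.iso (g₀.trans a₀).symm)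
  have hLπ : (K.G (n + 1)).Preserves (L' ⋙ π) := Globes.Preserves.comp hp (hπ.iso l'.symm)
  have hext : ((K.G (n + 1)).map (L' ⋙ π)).IsExt :=
    hB.iso ((l'.mapIso π).symm.trans ((K.G (n + 1)).mapComp L' π))
  let αβ : K.T n ⋙ (L' ⋙ π) ≅ K.T n ⋙ (c.J (n + 1) ⋙ M) :=
    NatIso.ofComponents (fun X => π.mapIso (α.app X) ≪≫ S.β.app X ≪≫ M.mapIso ((c.φ n).symm.app X))
      (by
        intro X Y f
        have n1 : L'.map ((K.T n).map f) ≫ α.hom.app Y = α.hom.app X ≫ S.L.map f :=
          α.hom.naturality f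
        change π.map (L'.map ((K.T n).map f)) ≫ π.map (α.hom.app Y) ≫ S.β.hom.app Y ≫
          M.map ((c.φ n).inv.app Y) = (π.map (α.hom.app X) ≫ S.β.hom.app X ≫
          M.map ((c.φ n).inv.app X)) ≫ M.map ((c.J (n + 1)).map ((K.T n).map f))
        rw [← Category.assoc (π.map (L'.map _)), ← π.map_comp, n1, π.map_comp, Category.assoc, nM,
          Category.assoc, Category.assoc])
  have hαβ : ∀ X, αβ.hom.app X = π.map (α.hom.app X) ≫ S.β.hom.app X ≫
      M.map ((c.φ n).inv.app X) := fun X => rfl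
  obtain ⟨β', hβ', -⟩ := (K.free n).unique_desc (L' ⋙ π) (c.J (n + 1) ⋙ M) hext hLπ hJM αβ (by
    intro a
    rw [hαβ, hαβ]
    change π.map (L'.map (K.h n a)) ≫ _ = _ ≫ M.map ((c.J (n + 1)).map (K.h n a))
    rw [← Category.assoc, ← π.map_comp, hα a, π.map_comp, hl' a]
    simp only [lB, Category.assoc]
    congr 3
    rw [← Category.assoc (S.β.inv.app _), Iso.inv_hom_id_app]
    change M.map _ ≫ M.map _ ≫ 𝟙 _ ≫ M.map _ = _
    rw [Category.id_comp, ← M.map_comp ((c.φ n).hom.app _), Iso.hom_inv_id_app]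
    change M.map _ ≫ M.map (𝟙 _) = _
    rw [M.map_id, Category.comp_id])
  refine ⟨⟨L', hp, l', β'⟩, α, fun X => ?_⟩
  change β'.hom.app ((K.T n).obj X) ≫ M.map ((c.φ n).hom.app X) = _
  rw [hβ', hαβ, Category.assoc, Category.assoc, ← M.map_comp, Iso.inv_hom_id_app, M.map_id]
  exact congrArg (fun z => π.map (α.hom.app X) ≫ z) (Category.comp_id _)

private theorem stage_zero (hc : c.IsColim) (a₀ : (K.G0.map (c.J 0)).Iso F) (hG : G.IsExt)
    (hπ : G.Preserves π) (hB : (G.map π).IsExt)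
    (hM : F.Preserves M) (m : (F.map M).Iso (G.map π)) :
    ∃ S : St G π M K c 0, ∀ i, S.β.hom.app (K.G0.D i) ≫ M.map (a₀.e i).hom ≫ (m.e i).hom =
      π.map (S.l.e i).hom := by
  obtain ⟨L₀, hL₀, ⟨l₀⟩⟩ := K.universal.exists_desc G hG
  have hJM : K.G0.Preserves (c.J 0 ⋙ M) :=
    (K.J_preserves c hc 0).comp (hM.iso a₀.symm)
  have hLπ : K.G0.Preserves (L₀ ⋙ π) := hL₀.comp (hπ.iso l₀.symm)
  have hext : (K.G0.map (L₀ ⋙ π)).IsExt :=
    hB.iso ((l₀.mapIso π).symm.trans (K.G0.mapComp L₀ π))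
  let e : (K.G0.map (L₀ ⋙ π)).Iso (K.G0.map (c.J 0 ⋙ M)) :=
    (K.G0.mapComp L₀ π).symm.trans ((l₀.mapIso π).trans (m.symm.trans
      ((a₀.mapIso M).symm.trans (K.G0.mapComp (c.J 0) M))))
  obtain ⟨β₀, hβ₀, -⟩ := K.universal.unique_desc (L₀ ⋙ π) (c.J 0 ⋙ M) hext hLπ hJM e
  refine ⟨⟨L₀, hL₀, l₀, β₀⟩, fun i => ?_⟩
  have he : (e.e i).hom = π.map (l₀.e i).hom ≫ (m.e i).inv ≫ M.map (a₀.e i).inv := by
    change 𝟙 _ ≫ π.map (l₀.e i).hom ≫ (m.e i).inv ≫ M.map (a₀.e i).inv ≫ 𝟙 _ = _
    rw [Category.id_comp, Category.comp_id]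
  change β₀.hom.app (K.G0.D i) ≫ _ = π.map (l₀.e i).hom
  rw [hβ₀, he, Category.assoc, Category.assoc, ← Category.assoc (M.map (a₀.e i).inv),
    ← M.map_comp, Iso.inv_hom_id, M.map_id]
  change _ ≫ (m.e i).inv ≫ 𝟙 _ ≫ (m.e i).hom = _
  rw [Category.id_comp, Iso.inv_hom_id]
  exact Category.comp_id _

end stage

theorem lift {C : Type u} [SmallCategory C] {F : Globes C} (hF : IsCoherator F) {E B : Type u}
    [SmallCategory E] [SmallCategory B] (G : Globes E) (π : E ⥤ B) (hG : G.IsExt)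
    (hπ : G.Preserves π) (hB : (G.map π).IsExt) (hr : RelContractible G π) (M : C ⥤ B)
    (hM : F.Preserves M) (m : (F.map M).Iso (G.map π)) :
    ∃ (L : C ⥤ E) (l : (F.map L).Iso G) (β : L ⋙ π ≅ M), F.Preserves L ∧
      ∀ i, β.hom.app (F.D i) ≫ (m.e i).hom = π.map (l.e i).hom := by
  obtain ⟨-, -, K, c, hc, ⟨a₀⟩⟩ := hF
  obtain ⟨S₀, hS₀⟩ := stage_zero hc a₀ hG hπ hB hM m
  let st : ∀ n, St G π M K c n := fun n => Nat.rec S₀
    (fun n S => (stage_step hc a₀ hG hπ hB hr hM n S).choose) n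
  have hst : ∀ n, ∃ α : K.T n ⋙ (st (n + 1)).L ≅ (st n).L, ∀ X : K.A n,
      (st (n + 1)).β.hom.app ((K.T n).obj X) ≫ M.map ((c.φ n).hom.app X) =
        π.map (α.hom.app X) ≫ (st n).β.hom.app X :=
    fun n => (stage_step hc a₀ hG hπ hB hr hM n (st n)).choose_spec
  choose α hα using hst
  obtain ⟨L, θ, hθ⟩ := hc.exists_desc (fun n => (st n).L) α
  let βn : ∀ n, c.J n ⋙ (L ⋙ π) ≅ c.J n ⋙ M := fun n =>
    NatIso.ofComponents (fun X => π.mapIso ((θ n).app X) ≪≫ (st n).β.app X)
      (by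
        intro X Y f
        have n1 : L.map ((c.J n).map f) ≫ (θ n).hom.app Y = (θ n).hom.app X ≫ (st n).L.map f :=
          (θ n).hom.naturality f
        have n2 : π.map ((st n).L.map f) ≫ (st n).β.hom.app Y =
            (st n).β.hom.app X ≫ M.map ((c.J n).map f) := (st n).β.hom.naturality f
        change π.map (L.map ((c.J n).map f)) ≫ π.map ((θ n).hom.app Y) ≫ (st n).β.hom.app Y =
          (π.map ((θ n).hom.app X) ≫ (st n).β.hom.app X) ≫ M.map ((c.J n).map f)
        rw [← Category.assoc, ← π.map_comp, n1, π.map_comp, Category.assoc, n2, Category.assoc])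
  have hβn : ∀ n X, (βn n).hom.app X = π.map ((θ n).hom.app X) ≫ (st n).β.hom.app X :=
    fun n X => rfl
  obtain ⟨β, hβ⟩ := hc.exists_iso (L ⋙ π) M βn (by
    intro n X
    rw [hβn, hβn, Category.assoc, hα, ← Category.assoc, ← π.map_comp, hθ, π.map_comp,
      Category.assoc]
    rfl)
  let l₁ : ((K.G0.map (c.J 0)).map L).Iso G :=
    (K.G0.mapComp (c.J 0) L).trans ((K.G0.isoOfNatIso (θ 0)).trans S₀.l)
  have hl₁ : ∀ i, (l₁.e i).hom = (θ 0).hom.app (K.G0.D i) ≫ (S₀.l.e i).hom := by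
    intro i
    change 𝟙 _ ≫ (θ 0).hom.app (K.G0.D i) ≫ (S₀.l.e i).hom = _
    rw [Category.id_comp]
  refine ⟨L, (a₀.mapIso L).symm.trans l₁, β, ?_, fun i => ?_⟩
  · -- `L` preserves globular sums
    have h0 : K.G0.Preserves (c.J 0 ⋙ L) := S₀.pres.natIso (θ 0).symm
    apply Globes.Preserves.of_some
    intro T
    obtain ⟨X, ε, hs⟩ := K.universal.ext T
    refine ⟨(c.J 0).obj X, _, (K.J_preserves c hc 0 T X ε hs).iso a₀, ?_⟩
    have h1 : ((K.G0.map (c.J 0)).map L).IsSum T (L.obj ((c.J 0).obj X))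
        (fun k => L.map ((c.J 0).map (ε k))) := h0 T X ε hs
    have h2 := h1.iso (a₀.mapIso L)
    have e1 : (fun k => L.map ((a₀.e (T.i k)).inv ≫ (c.J 0).map (ε k))) =
        fun k => ((a₀.mapIso L).e (T.i k)).inv ≫ L.map ((c.J 0).map (ε k)) := by
      funext k
      rw [L.map_comp]
      rfl
    have h3 : (F.map L).IsSum T (L.obj ((c.J 0).obj X))
        (fun k => L.map ((a₀.e (T.i k)).inv ≫ (c.J 0).map (ε k))) := by
      rw [e1]
      exact h2
    exact h3
  · have n1 : L.map (a₀.e i).inv ≫ L.map (a₀.e i).hom = 𝟙 _ := by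
      rw [← L.map_comp, Iso.inv_hom_id, L.map_id]
    have nat : π.map (L.map (a₀.e i).inv) ≫ β.hom.app ((c.J 0).obj (K.G0.D i)) =
        β.hom.app (F.D i) ≫ M.map (a₀.e i).inv := β.hom.naturality (a₀.e i).inv
    have h1 : β.hom.app (F.D i) = π.map (L.map (a₀.e i).inv) ≫
        β.hom.app ((c.J 0).obj (K.G0.D i)) ≫ M.map (a₀.e i).hom := by
      rw [← Category.assoc, nat, Category.assoc, ← M.map_comp, Iso.inv_hom_id, M.map_id,
        Category.comp_id]
    have h2 : (((a₀.mapIso L).symm.trans l₁).e i).hom = L.map (a₀.e i).inv ≫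
        (θ 0).hom.app (K.G0.D i) ≫ (S₀.l.e i).hom := by
      rw [← hl₁]
      rfl
    rw [h2, π.map_comp, π.map_comp]
    calc β.hom.app (F.D i) ≫ (m.e i).hom
        = (π.map (L.map (a₀.e i).inv) ≫ β.hom.app ((c.J 0).obj (K.G0.D i)) ≫
          M.map (a₀.e i).hom) ≫ (m.e i).hom := by rw [h1]
      _ = (π.map (L.map (a₀.e i).inv) ≫ (π.map ((θ 0).hom.app (K.G0.D i)) ≫
          S₀.β.hom.app (K.G0.D i)) ≫ M.map (a₀.e i).hom) ≫ (m.e i).hom := by
          rw [hβ, hβn]
          rfl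
      _ = π.map (L.map (a₀.e i).inv) ≫ π.map ((θ 0).hom.app (K.G0.D i)) ≫
          (S₀.β.hom.app (K.G0.D i) ≫ M.map (a₀.e i).hom ≫ (m.e i).hom) := by
          simp only [Category.assoc]
      _ = π.map (L.map (a₀.e i).inv) ≫ π.map ((θ 0).hom.app (K.G0.D i)) ≫
          π.map (S₀.l.e i).hom := by
          rw [hS₀ i]
          rfl

/-- The absolute case: a coherator maps to every contractible globular extension. -/
theorem exists_functor {C : Type u} [SmallCategory C] {F : Globes C} (hF : IsCoherator F)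
    {E : Type u} [SmallCategory E] (G : Globes E) (hG : G.IsExt) (hc : G.Contractible) :
    ∃ L : C ⥤ E, F.Preserves L ∧ Nonempty ((F.map L).Iso G) := by
  -- take for `B` the category with one object and one arrow (`Discrete PUnit`)
  have hsum : ∀ (G' : Globes (Discrete PUnit.{u + 1})) (T : Table) (X : Discrete PUnit.{u + 1})
      (ε : ∀ k, G'.D (T.i k) ⟶ X), G'.IsSum T X ε := by
    intro G' T X ε
    refine ⟨fun k => Subsingleton.elim _ _, fun Y y _ => ?_⟩
    exact ⟨Discrete.eqToHom (Subsingleton.elim _ _), fun k => Subsingleton.elim _ _,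
      fun f _ => Subsingleton.elim _ _⟩
  let π : E ⥤ Discrete PUnit.{u + 1} := (Functor.const E).obj ⟨PUnit.unit⟩
  let M : C ⥤ Discrete PUnit.{u + 1} := (Functor.const C).obj ⟨PUnit.unit⟩
  have hπ : G.Preserves π := fun T X ε _ => hsum _ T _ _
  have hB : (G.map π).IsExt := fun T =>
    ⟨⟨PUnit.unit⟩, fun k => Discrete.eqToHom (Subsingleton.elim _ _), hsum _ T _ _⟩
  have hr : RelContractible G π := by
    intro X i f g hp l _
    obtain ⟨h, hh⟩ := hc X i f g hp
    exact ⟨h, hh, Subsingleton.elim _ _⟩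
  have hM : F.Preserves M := fun T X ε _ => hsum _ T _ _
  let m : (F.map M).Iso (G.map π) :=
    { e := fun i => CategoryTheory.Iso.refl _
      s_e := fun i => Subsingleton.elim _ _
      t_e := fun i => Subsingleton.elim _ _ }
  obtain ⟨L, l, -, hL, -⟩ := lift hF G π hG hπ hB hr M hM m
  exact ⟨L, hL, ⟨l⟩⟩

end Pool.Agent.HH
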