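import Pool.Agent.HH.DefsCs

/-!
# HH stage 1b, b1: sources and targets in pasting shapes
-/

set_option autoImplicit false

namespace HH

open Classical

section PastLaws
variable {T : Type} [LinearOrder T] [Fintype T] {h : T → ℕ}

/-- uniqueness -/
theorem past_src_unique (H : Past T h) {t s : T} (h1 : s < t) (h2 : h s + 1 = h t)
    (h3 : ∀ r, s < r → r ≤ t → h t ≤ h r) : pSrc h t = s := by
  have hm : s ∈ Finset.univ.filter (fun s => s < t ∧ h s + 1 = h t) := by
    rw [Finset.mem_filter]
    exact ⟨Finset.mem_univ _, h1, h2⟩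
  have hne : (Finset.univ.filter (fun s => s < t ∧ h s + 1 = h t)).Nonempty := ⟨s, hm⟩
  unfold pSrc
  rw [dif_pos hne]
  refine le_antisymm ?_ (Finset.le_max' _ _ hm)
  refine Finset.max'_le _ _ _ fun r hr => ?_
  rw [Finset.mem_filter] at hr
  by_contra hc
  have := h3 r (not_le.1 hc) hr.2.1.le
  omega

theorem past_tgt_unique (H : Past T h) {t s : T} (h1 : t < s) (h2 : h s + 1 = h t)
    (h3 : ∀ r, t ≤ r → r < s → h t ≤ h r) : pTgt h t = s := by
  have hm : s ∈ Finset.univ.filter (fun s => t < s ∧ h s + 1 = h t) := by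
    rw [Finset.mem_filter]
    exact ⟨Finset.mem_univ _, h1, h2⟩
  have hne : (Finset.univ.filter (fun s => t < s ∧ h s + 1 = h t)).Nonempty := ⟨s, hm⟩
  unfold pTgt
  rw [dif_pos hne]
  refine le_antisymm (Finset.min'_le _ _ hm) ?_
  refine Finset.le_min' _ _ _ fun r hr => ?_
  rw [Finset.mem_filter] at hr
  by_contra hc
  have := h3 r hr.2.1.le (not_le.1 hc)
  omega

private theorem src_exists (H : Past T h) {t : T} (ht : 0 < h t) :
    ∃ s, s < t ∧ h s + 1 = h t ∧ ∀ r, s < r → r ≤ t → h t ≤ h r := by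
  have hne : (Finset.univ.filter (fun s => s < t ∧ h s < h t)).Nonempty := by
    have hu : (Finset.univ : Finset T).Nonempty := ⟨t, Finset.mem_univ t⟩
    have hmin : IsMin ((Finset.univ : Finset T).min' hu) :=
      fun b _ => Finset.min'_le _ _ (Finset.mem_univ b)
    refine ⟨(Finset.univ : Finset T).min' hu, ?_⟩
    rw [Finset.mem_filter]
    have h0 := H.bot _ hmin
    refine ⟨Finset.mem_univ _, lt_of_le_of_ne (Finset.min'_le _ _ (Finset.mem_univ t)) ?_,
      by rw [h0]; exact ht⟩
    intro he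
    rw [he] at h0
    omega
  have hs := Finset.max'_mem _ hne
  set s := (Finset.univ.filter (fun s => s < t ∧ h s < h t)).max' hne with hsdef
  rw [Finset.mem_filter] at hs
  have h3 : ∀ r, s < r → r ≤ t → h t ≤ h r := by
    intro r hr1 hr2
    by_contra hc
    rcases hr2.eq_or_lt with he | hlt
    · rw [he] at hc
      exact hc le_rfl
    · have : r ≤ s := Finset.le_max' _ _ (by
        rw [Finset.mem_filter]
        exact ⟨Finset.mem_univ _, hlt, not_le.1 hc⟩)
      exact absurd hr1 (not_lt.2 this)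
  obtain ⟨c, hc1, hc2⟩ := exists_covBy_le_of_lt hs.2.1
  have h4 := h3 c hc1.lt hc2
  have h5 := H.step s c hc1
  have h6 := hs.2.2
  exact ⟨s, hs.2.1, by omega, h3⟩

private theorem tgt_exists (H : Past T h) {t : T} (ht : 0 < h t) :
    ∃ s, t < s ∧ h s + 1 = h t ∧ ∀ r, t ≤ r → r < s → h t ≤ h r := by
  have hne : (Finset.univ.filter (fun s => t < s ∧ h s < h t)).Nonempty := by
    have hu : (Finset.univ : Finset T).Nonempty := ⟨t, Finset.mem_univ t⟩
    have hmax : IsMax ((Finset.univ : Finset T).max' hu) :=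
      fun b _ => Finset.le_max' _ _ (Finset.mem_univ b)
    refine ⟨(Finset.univ : Finset T).max' hu, ?_⟩
    rw [Finset.mem_filter]
    have h0 := H.top _ hmax
    refine ⟨Finset.mem_univ _, lt_of_le_of_ne (Finset.le_max' _ _ (Finset.mem_univ t)) ?_,
      by rw [h0]; exact ht⟩
    intro he
    rw [← he] at h0
    omega
  have hs := Finset.min'_mem _ hne
  set s := (Finset.univ.filter (fun s => t < s ∧ h s < h t)).min' hne with hsdef
  rw [Finset.mem_filter] at hs
  have h3 : ∀ r, t ≤ r → r < s → h t ≤ h r := by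
    intro r hr1 hr2
    by_contra hc
    rcases hr1.eq_or_lt with he | hlt
    · rw [he] at hc
      exact hc le_rfl
    · have : s ≤ r := Finset.min'_le _ _ (by
        rw [Finset.mem_filter]
        exact ⟨Finset.mem_univ _, hlt, not_le.1 hc⟩)
      exact absurd hr2 (not_lt.2 this)
  obtain ⟨c, hc1, hc2⟩ := exists_le_covBy_of_lt hs.2.1
  have h4 := h3 c hc1 hc2.lt
  have h5 := H.step c s hc2
  have h6 := hs.2.2
  exact ⟨s, hs.2.1, by omega, h3⟩

/-- specification of the source: last `s < t` of height `h t - 1`; all heights in between are `≥ h t` -/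
theorem past_src_spec (H : Past T h) {t : T} (ht : 0 < h t) :
    pSrc h t < t ∧ h (pSrc h t) + 1 = h t ∧ ∀ s, pSrc h t < s → s ≤ t → h t ≤ h s := by
  obtain ⟨s, h1, h2, h3⟩ := src_exists H ht
  rw [past_src_unique H h1 h2 h3]
  exact ⟨h1, h2, h3⟩

theorem past_tgt_spec (H : Past T h) {t : T} (ht : 0 < h t) :
    t < pTgt h t ∧ h (pTgt h t) + 1 = h t ∧ ∀ s, t ≤ s → s < pTgt h t → h t ≤ h s := by
  obtain ⟨s, h1, h2, h3⟩ := tgt_exists H ht
  rw [past_tgt_unique H h1 h2 h3]
  exact ⟨h1, h2, h3⟩

theorem past_laws (H : Past T h) : (pastG T h).Laws where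
  ok_src := fun _ _ _ => trivial
  ok_tgt := fun _ _ _ => trivial
  dim_src := fun _ _ hx => (past_src_spec H hx).2.1
  dim_tgt := fun _ _ hx => (past_tgt_spec H hx).2.1
  src_tgt := by
    intro (x : T) _ hx
    have hx : 1 < h x := hx
    show pSrc h (pTgt h x) = pSrc h (pSrc h x)
    obtain ⟨a1, a2, a3⟩ := past_src_spec H (t := x) (by omega)
    obtain ⟨b1, b2, b3⟩ := past_tgt_spec H (t := x) (by omega)
    obtain ⟨c1, c2, c3⟩ := past_src_spec H (t := pSrc h x) (by omega)
    refine past_src_unique H (c1.trans (a1.trans b1)) (by omega) ?_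
    intro r hr1 hr2
    rcases le_or_gt r (pSrc h x) with h4 | h4
    · have := c3 r hr1 h4
      omega
    · rcases le_or_gt r x with h5 | h5
      · have := a3 r h4 h5
        omega
      · rcases eq_or_lt_of_le hr2 with h6 | h6
        · rw [h6]
        · have := b3 r h5.le h6
          omega
  tgt_src := by
    intro (x : T) _ hx
    have hx : 1 < h x := hx
    show pTgt h (pSrc h x) = pTgt h (pTgt h x)
    obtain ⟨a1, a2, a3⟩ := past_src_spec H (t := x) (by omega)
    obtain ⟨b1, b2, b3⟩ := past_tgt_spec H (t := x) (by omega)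
    obtain ⟨c1, c2, c3⟩ := past_tgt_spec H (t := pTgt h x) (by omega)
    refine past_tgt_unique H (a1.trans (b1.trans c1)) (by omega) ?_
    intro r hr1 hr2
    rcases le_or_gt (pTgt h x) r with h4 | h4
    · have := c3 r h4 hr2
      omega
    · rcases le_or_gt x r with h5 | h5
      · have := b3 r h5 h4
        omega
      · rcases eq_or_lt_of_le hr1 with h6 | h6
        · rw [← h6]
        · have := a3 r h6 h5.le
          omega

end PastLaws

instance PC_laws (A : PC) : A.G.Laws := past_laws A.past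

end HH
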