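import Pool.Agent.HH.TabDefs
import Pool.Agent.HH.PastLaws
import Pool.Agent.HH.Bd

/-!
# HH 2b TAB: tables and codes

A code is a height function on `0, ..., N`: consecutive heights differ by one, first and last height
`0`. The source of `t` is the last earlier element of height `h t - 1`, the target the first later
one.

The *last slope* of a code consists of the `q` with `q + h q = N`.  `IsBump A A' q`: the code `A'`
is obtained from `A` by inserting two new elements of heights `h q + 1`, `h q` behind the element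
`q` of the last slope; this is the free adjunction of a cell with source `q` (`bump_up`).  Every code
is obtained from the trivial one by such steps (`exists_unbump`), and a bump either raises the
dimension of the last disk by one (`inv_raise`) or adds a new disk (`inv_cons`).
-/

set_option autoImplicit false

namespace HH

open Classical

/-! ### codes as functions on `ℕ` -/

private def hn (A : PC) (s : ℕ) : ℕ := A.h ⟨min s A.N, by omega⟩

private theorem hn_eq (A : PC) (s : A.P) : hn A s.val = A.h s := by
  unfold hn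
  congr 1
  apply Fin.ext
  have := s.2
  simp only
  omega

private theorem hn_step (A : PC) {s : ℕ} (hs : s < A.N) :
    hn A s = hn A (s + 1) + 1 ∨ hn A (s + 1) = hn A s + 1 := by
  have hc : (⟨s, by omega⟩ : A.P) ⋖ ⟨s + 1, by omega⟩ := by
    refine ⟨Fin.mk_lt_mk.2 (Nat.lt_succ_self s), fun c h1 h2 => ?_⟩
    have h1' : s < c.val := h1
    have h2' : c.val < s + 1 := h2
    omega
  have h := A.past.step _ _ hc
  rwa [← hn_eq, ← hn_eq] at h

private theorem hn_last (A : PC) : hn A A.N = 0 := by
  have h := A.past.top ⟨A.N, by omega⟩ (fun b _ => by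
    have := b.2
    show b.val ≤ A.N
    omega)
  rwa [← hn_eq] at h

private theorem hn_zero (A : PC) : hn A 0 = 0 := by
  have h := A.past.bot ⟨0, by omega⟩ (fun b _ => Nat.zero_le _)
  rwa [← hn_eq] at h

private theorem hn_le (A : PC) {s : ℕ} (hs : s ≤ A.N) : s + hn A s ≤ A.N := by
  obtain ⟨d, hd⟩ : ∃ d, A.N = s + d := ⟨A.N - s, by omega⟩
  induction d generalizing s with
  | zero =>
    have h1 : s = A.N := by omega
    have h2 := hn_last A
    rw [← h1] at h2
    omega
  | succ d ih =>
    have h1 := ih (s := s + 1) (by omega) (by omega)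
    have h2 := hn_step A (s := s) (by omega)
    omega

private theorem hn_slope (A : PC) {q s : ℕ} (hq : q + hn A q = A.N) (h1 : q ≤ s)
    (h2 : s ≤ A.N) : s + hn A s = A.N := by
  induction s, h1 using Nat.le_induction with
  | base => exact hq
  | succ s hs ih =>
    have h3 := ih (by omega)
    have h4 := hn_step A (s := s) (by omega)
    have h5 := hn_le A h2
    omega

private theorem src_eq {B : PC} {x y : B.P} (h1 : y.val < x.val)
    (h2 : hn B y.val + 1 = hn B x.val)
    (h3 : ∀ r, y.val < r → r ≤ x.val → hn B x.val ≤ hn B r) : B.G.src x = y := by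
  refine past_src_unique B.past (t := x) (s := y) h1 ?_ ?_
  · rw [← hn_eq, ← hn_eq]
    exact h2
  · intro r hr1 hr2
    rw [← hn_eq, ← hn_eq]
    exact h3 r.val hr1 hr2

private theorem tgt_eq {B : PC} {x y : B.P} (h1 : x.val < y.val)
    (h2 : hn B y.val + 1 = hn B x.val)
    (h3 : ∀ r, x.val ≤ r → r < y.val → hn B x.val ≤ hn B r) : B.G.tgt x = y := by
  refine past_tgt_unique B.past (t := x) (s := y) h1 ?_ ?_
  · rw [← hn_eq, ← hn_eq]
    exact h2
  · intro r hr1 hr2
    rw [← hn_eq, ← hn_eq]
    exact h3 r.val hr1 hr2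

private theorem src_spec {B : PC} {x : B.P} (h : 0 < B.h x) :
    ∃ y : B.P, B.G.src x = y ∧ y.val < x.val ∧ hn B y.val + 1 = hn B x.val ∧
      ∀ r, y.val < r → r ≤ x.val → hn B x.val ≤ hn B r := by
  obtain ⟨h1, h2, h3⟩ := past_src_spec B.past h
  refine ⟨pSrc B.h x, rfl, h1, ?_, ?_⟩
  · rw [hn_eq, hn_eq]
    exact h2
  · intro r hr1 hr2
    have hr : r < B.N + 1 := by
      have := x.2
      omega
    have := h3 ⟨r, hr⟩ hr1 hr2
    rw [← hn_eq, ← hn_eq] at this
    exact this

private theorem tgt_spec {B : PC} {x : B.P} (h : 0 < B.h x) :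
    ∃ y : B.P, B.G.tgt x = y ∧ x.val < y.val ∧ hn B y.val + 1 = hn B x.val ∧
      ∀ r, x.val ≤ r → r < y.val → hn B x.val ≤ hn B r := by
  obtain ⟨h1, h2, h3⟩ := past_tgt_spec B.past h
  refine ⟨pTgt B.h x, rfl, h1, ?_, ?_⟩
  · rw [hn_eq, hn_eq]
    exact h2
  · intro r hr1 hr2
    have hr : r < B.N + 1 := by
      have := (pTgt B.h x).2
      omega
    have := h3 ⟨r, hr⟩ hr1 hr2
    rw [← hn_eq, ← hn_eq] at this
    exact this

/-! ### bumps -/

/-- `A'` is obtained from `A` by inserting elements of heights `h q + 1` and `h q` behind `q`. -/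
private structure IsBump (A A' : PC) (q : ℕ) : Prop where
  hq : q + hn A q = A.N
  hN : A'.N = A.N + 2
  le : ∀ s, s ≤ q → hn A' s = hn A s
  gt : ∀ s, q < s → s ≤ A.N + 2 → hn A' s + s = A.N + 2

section Bump

variable {A A' : PC} {q : ℕ}

/-- the inclusion of the old elements -/
private def inj (hB : IsBump A A' q) (s : A.P) : A'.P :=
  ⟨if s.val ≤ q then s.val else s.val + 2, by
    have h1 := s.2
    have h2 := hB.hN
    have h3 := hB.hq
    split_ifs <;> omega⟩

/-- the left inverse of the inclusion -/
private def back (hB : IsBump A A' q) (s : A'.P) : A.P :=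
  ⟨if s.val ≤ q then s.val else s.val - 2, by
    have h1 := s.2
    have h2 := hB.hN
    have h3 := hB.hq
    split_ifs <;> omega⟩

/-- the new cell -/
private def newT (hB : IsBump A A' q) : A'.P := ⟨q + 1, by
    have h2 := hB.hN
    have h3 := hB.hq
    omega⟩

/-- the target of the new cell -/
private def newT' (hB : IsBump A A' q) : A'.P := ⟨q + 2, by
    have h2 := hB.hN
    have h3 := hB.hq
    omega⟩

/-- the element `q` -/
private def oldQ (hB : IsBump A A' q) : A.P := ⟨q, by
    have h3 := hB.hq
    omega⟩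

private theorem inj_val (hB : IsBump A A' q) (s : A.P) :
    (s.val ≤ q ∧ (inj hB s).val = s.val) ∨ (q < s.val ∧ (inj hB s).val = s.val + 2) := by
  unfold inj
  by_cases h : s.val ≤ q
  · left
    simp [h]
  · right
    simp [h]
    omega

private theorem back_inj (hB : IsBump A A' q) (s : A.P) : back hB (inj hB s) = s := by
  apply Fin.ext
  unfold back
  rcases inj_val hB s with ⟨h1, h2⟩ | ⟨h1, h2⟩
  · simp only [h2, h1, if_true]
  · simp only [h2]
    rw [if_neg (by omega)]
    omega

private theorem inj_back (hB : IsBump A A' q) (s : A'.P) (h1 : s ≠ newT hB)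
    (h2 : s ≠ newT' hB) : inj hB (back hB s) = s := by
  apply Fin.ext
  have h1' : s.val ≠ q + 1 := fun h => h1 (Fin.ext h)
  have h2' : s.val ≠ q + 2 := fun h => h2 (Fin.ext h)
  unfold inj back
  by_cases h : s.val ≤ q
  · simp [h]
  · simp only [h, if_false]
    rw [if_neg (by omega)]
    omega

private theorem inj_ne (hB : IsBump A A' q) (s : A.P) :
    inj hB s ≠ newT hB ∧ inj hB s ≠ newT' hB := by
  have := inj_val hB s
  constructor
  · intro h
    have h' : (inj hB s).val = q + 1 := congrArg Fin.val h
    omega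
  · intro h
    have h' : (inj hB s).val = q + 2 := congrArg Fin.val h
    omega

private theorem newT_ne (hB : IsBump A A' q) : newT' hB ≠ newT hB := by
  intro h
  have : q + 2 = q + 1 := congrArg Fin.val h
  omega

private theorem hn_inj (hB : IsBump A A' q) (s : A.P) : hn A' (inj hB s).val = hn A s.val := by
  have hs := s.2
  rcases inj_val hB s with ⟨h1, h2⟩ | ⟨h1, h2⟩
  · rw [h2, hB.le _ h1]
  · have h3 := hn_slope A hB.hq (s := s.val) (by omega) (by omega)
    have h4 := hB.gt (s.val + 2) (by omega) (by omega)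
    rw [h2]
    omega

private theorem h_inj (hB : IsBump A A' q) (s : A.P) : A'.h (inj hB s) = A.h s := by
  rw [← hn_eq, ← hn_eq]
  exact hn_inj hB s

private theorem h_newT (hB : IsBump A A' q) : A'.h (newT hB) = A.h (oldQ hB) + 1 := by
  rw [← hn_eq, ← hn_eq]
  have h1 := hB.gt (q + 1) (by omega) (by have := hB.hq; omega)
  have h2 := hB.hq
  change hn A' (q + 1) = hn A q + 1
  omega

private theorem inj_mapAt (hB : IsBump A A' q) (p : A.P) : MapAt A.G A'.G (inj hB) p := by
  have hp := p.2
  refine ⟨trivial, h_inj hB p, fun h0 => ?_⟩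
  have h0 : 0 < A.h p := h0
  have hN := hB.hN
  have hp' := inj_val hB p
  have hip := hn_inj hB p
  constructor
  · obtain ⟨y, hy, h1, h2, h3⟩ := src_spec h0
    rw [hy]
    have hy' := inj_val hB y
    have hiy := hn_inj hB y
    refine src_eq (by omega) (by omega) fun r hr1 hr2 => ?_
    rcases Nat.lt_or_ge q r with hr | hr
    · have h4 := hB.gt r hr (by omega)
      have h5 := hB.gt (inj hB p).val (by omega) (by omega)
      omega
    · have h4 := hB.le r hr
      have h5 := h3 r (by omega) (by omega)
      omega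
  · obtain ⟨y, hy, h1, h2, h3⟩ := tgt_spec h0
    rw [hy]
    have hy' := inj_val hB y
    have hiy := hn_inj hB y
    have hyN := y.2
    refine tgt_eq (by omega) (by omega) fun r hr1 hr2 => ?_
    rcases Nat.lt_or_ge q r with hr | hr
    · have h4 := hB.gt r hr (by omega)
      have h5 := hn_slope A hB.hq (s := y.val) (by omega) (by omega)
      omega
    · have h4 := hB.le r hr
      have h5 := h3 r (by omega) (by omega)
      omega

private theorem src_newT (hB : IsBump A A' q) : A'.G.src (newT hB) = inj hB (oldQ hB) := by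
  have h0 : (inj hB (oldQ hB)).val = q := by
    rcases inj_val hB (oldQ hB) with ⟨h1, h2⟩ | ⟨h1, h2⟩
    · exact h2
    · exact absurd h1 (lt_irrefl q)
  have hN := hB.hN
  have hq := hB.hq
  have h1 := hB.gt (q + 1) (by omega) (by omega)
  have h2 := hB.le q le_rfl
  refine src_eq ?_ ?_ ?_
  · rw [h0]
    exact Nat.lt_succ_self q
  · rw [h0]
    change hn A' q + 1 = hn A' (q + 1)
    omega
  · intro r hr1 hr2
    rw [h0] at hr1
    have hr2' : r ≤ q + 1 := hr2
    have : r = q + 1 := by omega
    rw [this]
    exact le_rfl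

private theorem tgt_newT (hB : IsBump A A' q) : A'.G.tgt (newT hB) = newT' hB := by
  have hN := hB.hN
  have hq := hB.hq
  have h1 := hB.gt (q + 1) (by omega) (by omega)
  have h2 := hB.gt (q + 2) (by omega) (by omega)
  refine tgt_eq ?_ ?_ ?_
  · exact Nat.lt_succ_self (q + 1)
  · change hn A' (q + 2) + 1 = hn A' (q + 1)
    omega
  · intro r hr1 hr2
    have hr1' : q + 1 ≤ r := hr1
    have hr2' : r < q + 2 := hr2
    have : r = q + 1 := by omega
    rw [this]
    exact le_rfl

private theorem mapAt_comp {G H K : Glob} {f : G.C → H.C} {g : H.C → K.C} {x : G.C}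
    (hf : MapAt G H f x) (hg : MapAt H K g (f x)) : MapAt G K (fun x => g (f x)) x := by
  obtain ⟨h1, h2, h3⟩ := hf
  obtain ⟨k1, k2, k3⟩ := hg
  refine ⟨k1, k2.trans h2, fun h0 => ?_⟩
  obtain ⟨a, b⟩ := h3 h0
  obtain ⟨c, d⟩ := k3 (by rw [h2]; exact h0)
  exact ⟨c.trans (congrArg g a), d.trans (congrArg g b)⟩

/-- **The universal property of a bump.** -/
private theorem bump_up (hB : IsBump A A' q) (H : Glob) [H.Laws] (f : A.P → H.C)
    (hf : ∀ p, MapAt A.G H f p) (z : H.C) (hz : H.ok z) (hzd : H.dim z = A.h (oldQ hB) + 1)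
    (hzs : H.src z = f (oldQ hB)) :
    ∃! f' : A'.P → H.C, (∀ p, MapAt A'.G H f' p) ∧ (∀ p, f' (inj hB p) = f p) ∧
      f' (newT hB) = z := by
  set f' : A'.P → H.C := fun s =>
    if s = newT hB then z else if s = newT' hB then H.tgt z else f (back hB s) with hf'
  have e1 : f' (newT hB) = z := if_pos rfl
  have e2 : f' (newT' hB) = H.tgt z := (if_neg (newT_ne hB)).trans (if_pos rfl)
  have e3 : ∀ p, f' (inj hB p) = f p := by
    intro p
    rw [hf']
    simp only
    rw [if_neg (inj_ne hB p).1, if_neg (inj_ne hB p).2, back_inj]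
  have ht : A'.h (newT hB) = A.h (oldQ hB) + 1 := h_newT hB
  refine ⟨f', ⟨?_, e3, e1⟩, ?_⟩
  · intro s
    by_cases h1 : s = newT hB
    · subst h1
      refine ⟨by rw [e1]; exact hz, by rw [e1, hzd]; exact ht.symm, fun _ => ⟨?_, ?_⟩⟩
      · rw [e1, hzs, src_newT hB, e3]
      · rw [e1, tgt_newT hB, e2]
    · by_cases h2 : s = newT' hB
      · subst h2
        have hd : A'.G.dim (newT' hB) + 1 = A.h (oldQ hB) + 1 := by
          have := Glob.Laws.dim_tgt (G := A'.G) (newT hB) trivial (by
            change 0 < A'.h (newT hB)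
            omega)
          rw [tgt_newT hB] at this
          rw [this]
          exact ht
        have hd2 := Glob.Laws.dim_tgt z hz (by omega)
        refine ⟨?_, ?_, fun h0 => ⟨?_, ?_⟩⟩
        · rw [e2]
          exact Glob.Laws.ok_tgt z hz (by omega)
        · rw [e2]
          omega
        · have k1 := Glob.Laws.src_tgt (G := A'.G) (newT hB) trivial (by
            change 1 < A'.h (newT hB)
            omega)
          rw [tgt_newT hB, src_newT hB] at k1
          have k2 := (inj_mapAt hB (oldQ hB)).2.2 (by change 0 < A.h (oldQ hB); omega)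
          exact (congrArg H.src e2).trans ((Glob.Laws.src_tgt z hz (by omega)).trans
            ((congrArg H.src hzs).trans
            (((hf (oldQ hB)).2.2 (by change 0 < A.h (oldQ hB); omega)).1.trans
            ((e3 _).symm.trans (congrArg f' (k1.trans k2.1).symm)))))
        · have k1 := Glob.Laws.tgt_src (G := A'.G) (newT hB) trivial (by
            change 1 < A'.h (newT hB)
            omega)
          rw [tgt_newT hB, src_newT hB] at k1
          have k2 := (inj_mapAt hB (oldQ hB)).2.2 (by change 0 < A.h (oldQ hB); omega)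
          exact (congrArg H.tgt e2).trans ((Glob.Laws.tgt_src z hz (by omega)).symm.trans
            ((congrArg H.tgt hzs).trans
            (((hf (oldQ hB)).2.2 (by change 0 < A.h (oldQ hB); omega)).2.trans
            ((e3 _).symm.trans (congrArg f' (k1.symm.trans k2.2).symm)))))
      · obtain ⟨p, rfl⟩ : ∃ p, s = inj hB p := ⟨back hB s, (inj_back hB s h1 h2).symm⟩
        obtain ⟨a1, a2, a3⟩ := hf p
        obtain ⟨b1, b2, b3⟩ := inj_mapAt hB p
        refine ⟨by rw [e3]; exact a1, by rw [e3, b2]; exact a2, fun h0 => ?_⟩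
        rw [b2] at h0
        obtain ⟨c1, c2⟩ := a3 h0
        obtain ⟨d1, d2⟩ := b3 h0
        exact ⟨(congrArg H.src (e3 p)).trans (c1.trans ((e3 _).symm.trans (congrArg f' d1.symm))),
          (congrArg H.tgt (e3 p)).trans (c2.trans ((e3 _).symm.trans (congrArg f' d2.symm)))⟩
  · rintro g ⟨g1, g2, g3⟩
    funext s
    by_cases h1 : s = newT hB
    · rw [h1, g3, e1]
    · by_cases h2 : s = newT' hB
      · rw [h2, e2, ← g3, ← tgt_newT hB]
        exact (((g1 (newT hB)).2.2 (by
          change 0 < A'.h (newT hB)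
          omega)).2).symm
      · obtain ⟨p, rfl⟩ : ∃ p, s = inj hB p := ⟨back hB s, (inj_back hB s h1 h2).symm⟩
        rw [g2, e3]

end Bump

/-! ### bumps and tables -/

/-- `b 0` is the first element of the last slope. -/
private structure Inv (T : Pool.Agent.HH.Table) (A : PC) (b : Fin (T.m + 1) → A.P) : Prop where
  tab : IsTab T A b
  slope : (b 0).val + hn A (b 0).val = A.N
  first : ∀ s : ℕ, s ≤ A.N → s + hn A s = A.N → (b 0).val ≤ s

private theorem newT_slope {A A' : PC} {q : ℕ} (hB : IsBump A A' q) :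
    (newT hB).val + hn A' (newT hB).val = A'.N := by
  have hN := hB.hN
  have hq := hB.hq
  have h1 := hB.gt (q + 1) (by omega) (by omega)
  change q + 1 + hn A' (q + 1) = A'.N
  omega

private theorem newT_first {A A' : PC} {q : ℕ} (hB : IsBump A A' q) (s : ℕ) (hs : s ≤ A'.N)
    (h : s + hn A' s = A'.N) : (newT hB).val ≤ s := by
  have hN := hB.hN
  have hq := hB.hq
  change q + 1 ≤ s
  by_contra hc
  have h1 := hB.le s (by omega)
  have h2 := hn_le A (s := s) (by omega)
  omega

/-- targets along the last slope -/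
private theorem bd_slope {A : PC} {p : A.P} (hp : p.val + hn A p.val = A.N) {j : ℕ}
    (hj : j ≤ A.h p) {x : A.P} (hx : x.val + j = A.N) : A.G.bd p (j, true) = x := by
  rw [← hn_eq] at hj
  obtain ⟨d, hd⟩ : ∃ d, hn A p.val = j + d := ⟨hn A p.val - j, by omega⟩
  induction d generalizing p with
  | zero =>
    have h1 : A.G.bd p (j, true) = p := by
      refine bd_of_le (G := A.G) p (j, true) ?_
      change A.h p ≤ j
      rw [← hn_eq]
      omega
    rw [h1]
    apply Fin.ext
    omega
  | succ d ih =>
    have hpN := p.2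
    have h0 : 0 < A.h p := by
      rw [← hn_eq]
      omega
    have hlt : p.val + 1 < A.N + 1 := by omega
    have hsl := hn_slope A hp (s := p.val + 1) (by omega) (by omega)
    have ht : A.G.tgt p = (⟨p.val + 1, hlt⟩ : A.P) := by
      refine tgt_eq ?_ ?_ ?_
      · exact Nat.lt_succ_self p.val
      · change hn A (p.val + 1) + 1 = hn A p.val
        omega
      · intro r hr1 hr2
        have hr2' : r < p.val + 1 := hr2
        have : r = p.val := by omega
        rw [this]
    have h1 := ih (p := (⟨p.val + 1, hlt⟩ : A.P)) hsl (by change j ≤ hn A (p.val + 1); omega)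
      (by change hn A (p.val + 1) = j + d; omega)
    rw [← h1, ← ht]
    rcases Nat.lt_or_ge (j + 1) (A.h p) with h2 | h2
    · exact (bd_tgt (G := A.G) (x := p) trivial h0 (r := (j, true)) h2).symm
    · have h3 : j = A.h p - 1 := by
        rw [← hn_eq] at h2 ⊢
        omega
      have h4 := bd_pred_true (G := A.G) (x := p) h0
      change A.G.bd p (A.h p - 1, true) = A.G.tgt p at h4
      rw [← h3] at h4
      rw [h4]
      refine (bd_of_le (G := A.G) _ (j, true) ?_).symm
      rw [ht]
      change A.h (⟨p.val + 1, hlt⟩ : A.P) ≤ j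
      rw [← hn_eq]
      change hn A (p.val + 1) ≤ j
      rw [← hn_eq] at h2
      omega

/-- A bump at the last disk raises its dimension. -/
private theorem inv_raise {m : ℕ} {i j : Fin (m + 1) → ℕ} {i' : Fin m → ℕ}
    {hl : ∀ k, i' k < i k.castSucc} {hr : ∀ k, i' k < i k.succ}
    {hl' : ∀ k, i' k < j k.castSucc} {hr' : ∀ k, i' k < j k.succ}
    {A A' : PC} {b : Fin (m + 1) → A.P} {q : ℕ} (hB : IsBump A A' q)
    (hI : Inv ⟨m, i, i', hl, hr⟩ A b) (hq : (b 0).val = q) (h0 : j 0 = i 0 + 1)
    (hs : ∀ k, k ≠ 0 → j k = i k) : ∃ b', Inv ⟨m, j, i', hl', hr'⟩ A' b' := by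
  have hb0 : b 0 = oldQ hB := Fin.ext hq
  set b' : Fin (m + 1) → A'.P := fun k => if k = 0 then newT hB else inj hB (b k) with hb'
  have e0 : b' 0 = newT hB := if_pos rfl
  have es : ∀ k, k ≠ 0 → b' k = inj hB (b k) := fun k hk => if_neg hk
  have hdq : A.h (oldQ hB) = i 0 := by
    rw [← hb0]
    exact hI.tab.dim 0
  have hbd : ∀ (p : A.P) (r : D), A'.G.bd (inj hB p) r = inj hB (A.G.bd p r) := fun p r =>
    (map_bd (G := A.G) (H := A'.G) (f := inj hB) (x := p) trivial
      (fun y _ _ => inj_mapAt hB y) r).symm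
  refine ⟨b', ⟨⟨?_, ?_, ?_⟩, ?_, ?_⟩⟩
  · intro k
    by_cases hk : k = 0
    · subst hk
      rw [e0, h_newT hB, hdq]
      exact h0.symm
    · rw [es k hk, h_inj, hI.tab.dim k]
      exact (hs k hk).symm
  · intro k
    have hg := hI.tab.glue k
    change A'.G.bd (b' k.castSucc) (i' k, false) = A'.G.bd (b' k.succ) (i' k, true)
    change A.G.bd (b k.castSucc) (i' k, false) = A.G.bd (b k.succ) (i' k, true) at hg
    rw [es k.succ (Fin.succ_ne_zero k), hbd, ← hg, ← hbd]
    by_cases hk : k.castSucc = 0
    · rw [hk, e0, hb0, ← src_newT hB]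
      refine (bd_src (G := A'.G) (x := newT hB) trivial ?_ ?_).symm
      · change 0 < A'.h (newT hB)
        rw [h_newT]
        omega
      · change i' k + 1 < A'.h (newT hB)
        rw [h_newT, hdq]
        have := hl k
        rw [hk] at this
        omega
    · rw [es _ hk]
  · intro H _ y hy hg
    set y' : Fin (m + 1) → H.C := fun k => if k = 0 then H.src (y 0) else y k with hy'
    have hy0 : H.ok (y 0) ∧ H.dim (y 0) = j 0 := hy 0
    have hd0 := Glob.Laws.dim_src (y 0) hy0.1 (by omega)
    obtain ⟨f, ⟨hf1, hf2⟩, hf3⟩ := hI.tab.up H y' (by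
      intro k
      change H.ok (y' k) ∧ H.dim (y' k) = i k
      by_cases hk : k = 0
      · subst hk
        have : y' 0 = H.src (y 0) := if_pos rfl
        rw [this]
        exact ⟨Glob.Laws.ok_src (y 0) hy0.1 (by omega), by omega⟩
      · have : y' k = y k := if_neg hk
        rw [this, ← hs k hk]
        exact hy k) (by
      intro k
      change H.bd (y' k.castSucc) (i' k, false) = H.bd (y' k.succ) (i' k, true)
      have h1 : H.bd (y k.castSucc) (i' k, false) = H.bd (y k.succ) (i' k, true) := hg k
      have h2 : y' k.succ = y k.succ := if_neg (Fin.succ_ne_zero k)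
      rw [h2, ← h1]
      by_cases hk : k.castSucc = 0
      · have h3 : y' k.castSucc = H.src (y 0) := by
          rw [hk]
          exact if_pos rfl
        rw [h3, hk]
        have h4 := hl k
        rw [hk] at h4
        exact bd_src hy0.1 (by omega) (by change i' k + 1 < _; omega)
      · have h3 : y' k.castSucc = y k.castSucc := if_neg hk
        rw [h3])
    have hfq : H.src (y 0) = f (oldQ hB) := by
      rw [← hb0, hf2 0]
      exact (if_pos rfl).symm
    obtain ⟨f', ⟨g1, g2, g3⟩, g4⟩ := bump_up hB H f hf1 (y 0) hy0.1 (by rw [hy0.2, h0, hdq]) hfq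
    refine ⟨f', ⟨g1, ?_⟩, ?_⟩
    · intro k
      by_cases hk : k = 0
      · subst hk
        rw [e0, g3]
      · rw [es k hk, g2, hf2 k]
        exact if_neg hk
    · rintro g ⟨k1, k2⟩
      have k3 : g (newT hB) = y 0 := by
        rw [← e0]
        exact k2 0
      have k4 : (fun p => g (inj hB p)) = f := by
        refine hf3 _ ⟨fun p => mapAt_comp (inj_mapAt hB p) (k1 _), fun k => ?_⟩
        by_cases hk : k = 0
        · subst hk
          change g (inj hB (b 0)) = y' 0
          rw [hb0, ← src_newT hB]
          have h5 := ((k1 (newT hB)).2.2 (by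
            change 0 < A'.h (newT hB)
            rw [h_newT]
            omega)).1
          rw [← h5, k3]
          exact (if_pos rfl).symm
        · change g (inj hB (b k)) = y' k
          rw [← es k hk, k2 k]
          exact (if_neg hk).symm
      exact g4 g ⟨k1, fun p => congrFun k4 p, k3⟩
  · rw [e0]
    exact newT_slope hB
  · intro s hs1 hs2
    rw [e0]
    exact newT_first hB s hs1 hs2

/-- A bump behind the last disk adds a disk. -/
private theorem inv_cons {m : ℕ} {i : Fin (m + 1) → ℕ} {i' : Fin m → ℕ}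
    {j : Fin (m + 2) → ℕ} {j' : Fin (m + 1) → ℕ}
    {hl : ∀ k, i' k < i k.castSucc} {hr : ∀ k, i' k < i k.succ}
    {hl' : ∀ k, j' k < j k.castSucc} {hr' : ∀ k, j' k < j k.succ}
    {A A' : PC} {b : Fin (m + 1) → A.P} {q : ℕ} (hB : IsBump A A' q)
    (hI : Inv ⟨m, i, i', hl, hr⟩ A b) (hq : (b 0).val < q) (h0 : j 0 = hn A q + 1)
    (hs : ∀ k : Fin (m + 1), j k.succ = i k) (h0' : j' 0 = hn A q)
    (hs' : ∀ k : Fin m, j' k.succ = i' k) : ∃ b', Inv ⟨m + 1, j, j', hl', hr'⟩ A' b' := by
  set b' : Fin (m + 2) → A'.P := Fin.cons (newT hB) (fun k => inj hB (b k)) with hb'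
  have e0 : b' 0 = newT hB := rfl
  have es : ∀ k : Fin (m + 1), b' k.succ = inj hB (b k) := fun k => rfl
  have hhq : A.h (oldQ hB) = hn A q := (hn_eq A (oldQ hB)).symm
  have hbd : ∀ (p : A.P) (r : D), A'.G.bd (inj hB p) r = inj hB (A.G.bd p r) := fun p r =>
    (map_bd (G := A.G) (H := A'.G) (f := inj hB) (x := p) trivial
      (fun y _ _ => inj_mapAt hB y) r).symm
  have hsl := hI.slope
  have hqN := hB.hq
  have hjb : hn A q ≤ A.h (b 0) := by
    rw [← hn_eq]
    omega
  have hbq : A.G.bd (b 0) (hn A q, true) = oldQ hB := bd_slope hsl hjb hqN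
  refine ⟨b', ⟨⟨?_, ?_, ?_⟩, ?_, ?_⟩⟩
  · intro k
    refine Fin.cases ?_ (fun k => ?_) k
    · rw [e0, h_newT hB, hhq]
      exact h0.symm
    · rw [es k, h_inj, hI.tab.dim k]
      exact (hs k).symm
  · intro k
    change A'.G.bd (b' k.castSucc) (j' k, false) = A'.G.bd (b' k.succ) (j' k, true)
    refine Fin.cases ?_ (fun k => ?_) k
    · rw [h0']
      change A'.G.bd (newT hB) (hn A q, false) = A'.G.bd (inj hB (b 0)) (hn A q, true)
      rw [hbd, hbq, ← src_newT hB]
      have h1 := bd_pred_false (G := A'.G) (x := newT hB) (by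
        change 0 < A'.h (newT hB)
        rw [h_newT]
        omega)
      have h2 : A'.G.dim (newT hB) - 1 = hn A q := by
        change A'.h (newT hB) - 1 = hn A q
        rw [h_newT, hhq]
        omega
      rw [h2] at h1
      exact h1
    · rw [hs' k]
      change A'.G.bd (inj hB (b k.castSucc)) (i' k, false) =
        A'.G.bd (inj hB (b k.succ)) (i' k, true)
      rw [hbd, hbd]
      exact congrArg (inj hB) (hI.tab.glue k)
  · intro H _ y hy hg
    have hy0 : H.ok (y 0) ∧ H.dim (y 0) = j 0 := hy 0
    obtain ⟨f, ⟨hf1, hf2⟩, hf3⟩ := hI.tab.up H (fun k => y k.succ) (by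
      intro k
      have := hy k.succ
      change H.ok (y k.succ) ∧ H.dim (y k.succ) = j k.succ at this
      rw [hs k] at this
      exact this) (by
      intro k
      have h1 := hg k.succ
      change H.bd (y k.succ.castSucc) (j' k.succ, false) =
        H.bd (y k.succ.succ) (j' k.succ, true) at h1
      rw [hs' k] at h1
      exact h1)
    have hfq : H.src (y 0) = f (oldQ hB) := by
      rw [← hbq, map_bd (G := A.G) (H := H) (f := f) (x := b 0) trivial (fun p _ _ => hf1 p),
        hf2 0]
      have h1 := hg 0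
      change H.bd (y 0) (j' 0, false) = H.bd (y (Fin.succ 0)) (j' 0, true) at h1
      rw [h0'] at h1
      rw [← h1]
      have h2 := bd_pred_false (G := H) (x := y 0) (by omega)
      have h3 : H.dim (y 0) - 1 = hn A q := by omega
      rw [h3] at h2
      exact h2.symm
    obtain ⟨f', ⟨g1, g2, g3⟩, g4⟩ := bump_up hB H f hf1 (y 0) hy0.1 (by rw [hy0.2, h0, hhq]) hfq
    refine ⟨f', ⟨g1, ?_⟩, ?_⟩
    · intro k
      refine Fin.cases ?_ (fun k => ?_) k
      · exact g3
      · rw [es k, g2, hf2 k]
    · rintro g ⟨k1, k2⟩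
      have k3 : g (newT hB) = y 0 := k2 0
      have k4 : (fun p => g (inj hB p)) = f :=
        hf3 _ ⟨fun p => mapAt_comp (inj_mapAt hB p) (k1 _), fun k => k2 k.succ⟩
      exact g4 g ⟨k1, fun p => congrFun k4 p, k3⟩
  · exact newT_slope hB
  · exact newT_first hB

/-- the trivial code -/
private theorem inv_triv {i : Fin 1 → ℕ} {i' : Fin 0 → ℕ} {hl : ∀ k, i' k < i k.castSucc}
    {hr : ∀ k, i' k < i k.succ} (h0 : i 0 = 0) (A : PC) (hA : A.N = 0) :
    ∃ b, Inv ⟨0, i, i', hl, hr⟩ A b := by
  have hs : ∀ x y : A.P, x = y := fun x y => Fin.ext (by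
    have := x.2
    have := y.2
    omega)
  have hh : ∀ x : A.P, A.h x = 0 := by
    intro x
    rw [hs x ⟨0, by omega⟩, ← hn_eq]
    exact hn_zero A
  refine ⟨fun _ => ⟨0, by omega⟩, ⟨⟨?_, ?_, ?_⟩, ?_, ?_⟩⟩
  · intro k
    rw [hh]
    have : k = 0 := Fin.ext (by
      have hk : k.val < 0 + 1 := k.2
      change k.val = 0
      omega)
    rw [this]
    exact h0.symm
  · intro k
    exact k.elim0
  · intro H _ y hy hg
    have hy0 : H.ok (y 0) ∧ H.dim (y 0) = i 0 := hy 0
    refine ⟨fun _ => y 0, ⟨fun p => ⟨hy0.1, ?_, fun h => ?_⟩, fun k => ?_⟩, ?_⟩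
    · rw [hy0.2, h0]
      exact (hh p).symm
    · exact absurd h (by rw [show A.G.dim p = A.h p from rfl, hh p]; exact lt_irrefl 0)
    · have : k = 0 := Fin.ext (by
        have hk : k.val < 0 + 1 := k.2
        change k.val = 0
        omega)
      rw [this]
    · rintro g ⟨_, g2⟩
      funext p
      rw [hs p ⟨0, by omega⟩]
      exact g2 0
  · change 0 + hn A 0 = A.N
    rw [hn_zero, hA]
  · intro s _ _
    exact Nat.zero_le s

/-! ### construction and removal of bumps -/

private theorem covBy_val {N : ℕ} {a b : Fin (N + 1)} (h : a ⋖ b) : a.val + 1 = b.val := by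
  have h1 : a.val < b.val := h.1
  by_contra hc
  have h2 : a.val + 1 < N + 1 := by
    have := b.2
    omega
  refine h.2 (c := ⟨a.val + 1, h2⟩) ?_ ?_
  · exact Nat.lt_succ_self a.val
  · change a.val + 1 < b.val
    omega

private theorem isMin_val {N : ℕ} {a : Fin (N + 1)} (h : IsMin a) : a.val = 0 := by
  have h1 : a ≤ 0 := h (Fin.zero_le a)
  have h2 : a.val ≤ 0 := h1
  omega

private theorem isMax_val {N : ℕ} {a : Fin (N + 1)} (h : IsMax a) : a.val = N := by
  have h1 : Fin.last N ≤ a := h (Fin.le_last a)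
  have h2 : N ≤ a.val := h1
  have := a.2
  omega

private theorem exists_bump (A : PC) (q : ℕ) (hq : q + hn A q = A.N) :
    ∃ A' : PC, IsBump A A' q := by
  refine ⟨⟨A.N + 2, fun s => if s.val ≤ q then hn A s.val else A.N + 2 - s.val,
    ⟨⟨0⟩, ?_, ?_, ?_⟩⟩, ⟨hq, rfl, ?_, ?_⟩⟩
  · intro a b hab
    have h1 := covBy_val hab
    have hb := b.2
    rcases Nat.lt_or_ge q a.val with ha | ha
    · rw [if_neg (by omega), if_neg (by omega)]
      omega
    · rw [if_pos ha]
      rcases Nat.lt_or_ge q b.val with hb' | hb'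
      · rw [if_neg (by omega)]
        have h2 : a.val = q := by omega
        rw [h2]
        omega
      · rw [if_pos hb', ← h1]
        exact hn_step A (by omega)
  · intro a ha
    rw [isMin_val ha, if_pos (Nat.zero_le q)]
    exact hn_zero A
  · intro a ha
    have h1 := isMax_val ha
    rw [if_neg (by omega)]
    omega
  · intro s hs
    have h1 : min s (A.N + 2) = s := by omega
    change (if min s (A.N + 2) ≤ q then hn A (min s (A.N + 2)) else
      A.N + 2 - min s (A.N + 2)) = hn A s
    rw [h1, if_pos hs]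
  · intro s hs1 hs2
    have h1 : min s (A.N + 2) = s := by omega
    change (if min s (A.N + 2) ≤ q then hn A (min s (A.N + 2)) else
      A.N + 2 - min s (A.N + 2)) + s = A.N + 2
    rw [h1, if_neg (by omega)]
    omega

private theorem exists_unbump (A : PC) (hA : 0 < A.N) :
    ∃ (B : PC) (q : ℕ), IsBump B A q := by
  have hex : ∃ p, p ≤ A.N ∧ p + hn A p = A.N := ⟨A.N, le_rfl, by rw [hn_last]; omega⟩
  obtain ⟨p, ⟨hp1, hp2⟩, hmin⟩ : ∃ p, (p ≤ A.N ∧ p + hn A p = A.N) ∧
      ∀ r, r ≤ A.N → r + hn A r = A.N → p ≤ r :=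
    ⟨Nat.find hex, Nat.find_spec hex, fun r h1 h2 => Nat.find_min' hex ⟨h1, h2⟩⟩
  have hp0 : p ≠ 0 := by
    rintro rfl
    rw [hn_zero] at hp2
    omega
  have h1 := hn_step A (s := A.N - 1) (by omega)
  rw [Nat.sub_add_cancel (by omega : 1 ≤ A.N), hn_last] at h1
  have h2 : p ≤ A.N - 1 := hmin _ (by omega) (by omega)
  obtain ⟨q, rfl⟩ : ∃ q, p = q + 1 := ⟨p - 1, by omega⟩
  have h3 := hn_step A (s := q) (by omega)
  have h4 : ¬ (q + hn A q = A.N) := fun h => by
    have := hmin q (by omega) h
    omega
  have h5 : hn A (q + 1) = hn A q + 1 := by omega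
  have hsl : ∀ s, q + 1 ≤ s → s ≤ A.N → s + hn A s = A.N := fun s a b =>
    hn_slope A hp2 a b
  obtain ⟨N, hN⟩ : ∃ N, A.N = N + 2 := ⟨A.N - 2, by omega⟩
  have hpast : Past (Fin (N + 1)) (fun s => if s.val ≤ q then hn A s.val else N - s.val) := by
    refine ⟨⟨0⟩, ?_, ?_, ?_⟩
    · intro a b hab
      have h1 := covBy_val hab
      have hb := b.2
      rcases Nat.lt_or_ge q a.val with ha | ha
      · rw [if_neg (by omega), if_neg (by omega)]
        omega
      · rw [if_pos ha]
        rcases Nat.lt_or_ge q b.val with hb' | hb'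
        · rw [if_neg (by omega)]
          have h2 : a.val = q := by omega
          rw [h2]
          omega
        · rw [if_pos hb', ← h1]
          exact hn_step A (by omega)
    · intro a ha
      rw [isMin_val ha, if_pos (Nat.zero_le q)]
      exact hn_zero A
    · intro a ha
      have h1 := isMax_val ha
      by_cases h6 : a.val ≤ q
      · rw [if_pos h6]
        have h7 : a.val = q := by omega
        rw [h7]
        omega
      · rw [if_neg h6]
        omega
  have hle : ∀ s, s ≤ q → hn ⟨N, _, hpast⟩ s = hn A s := by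
    intro s hs
    have h1 : min s N = s := by omega
    change (if min s N ≤ q then hn A (min s N) else N - min s N) = hn A s
    rw [h1, if_pos hs]
  refine ⟨⟨N, _, hpast⟩, q, ⟨?_, hN, ?_, ?_⟩⟩
  · rw [hle q le_rfl]
    change q + hn A q = N
    omega
  · intro s hs
    exact (hle s hs).symm
  · intro s hs1 hs2
    have hs2' : s ≤ N + 2 := hs2
    have := hsl s (by omega) (by omega)
    change hn A s + s = N + 2
    omega

private theorem exists_inv_code (m : ℕ) : ∀ (i : Fin (m + 1) → ℕ) (i' : Fin m → ℕ)
    (hl : ∀ k, i' k < i k.castSucc) (hr : ∀ k, i' k < i k.succ),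
    ∃ (A : PC) (b : Fin (m + 1) → A.P), Inv ⟨m, i, i', hl, hr⟩ A b := by
  -- raising the dimension of the disk `0`
  have raise : ∀ (m : ℕ) (d : ℕ) (i j : Fin (m + 1) → ℕ) (i' : Fin m → ℕ)
      (hl : ∀ k, i' k < i k.castSucc) (hr : ∀ k, i' k < i k.succ)
      (hl' : ∀ k, i' k < j k.castSucc) (hr' : ∀ k, i' k < j k.succ),
      j 0 = i 0 + d → (∀ k, k ≠ 0 → j k = i k) →
      (∃ (A : PC) (b : Fin (m + 1) → A.P), Inv ⟨m, i, i', hl, hr⟩ A b) →
      ∃ (A : PC) (b : Fin (m + 1) → A.P), Inv ⟨m, j, i', hl', hr'⟩ A b := by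
    intro m d
    induction d with
    | zero =>
      intro i j i' hl hr hl' hr' h0 hs h
      obtain rfl : j = i := by
        funext k
        by_cases hk : k = 0
        · rw [hk]
          exact h0
        · exact hs k hk
      exact h
    | succ d ih =>
      intro i j i' hl hr hl' hr' h0 hs h
      have hl'' : ∀ k : Fin m, i' k < (Function.update i 0 (i 0 + d)) k.castSucc := by
        intro k
        by_cases hk : k.castSucc = 0
        · rw [hk, Function.update_self]
          have := hl k
          rw [hk] at this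
          omega
        · rw [Function.update_of_ne hk]
          exact hl k
      have hr'' : ∀ k : Fin m, i' k < (Function.update i 0 (i 0 + d)) k.succ := by
        intro k
        rw [Function.update_of_ne (Fin.succ_ne_zero k)]
        exact hr k
      obtain ⟨A, b, hI⟩ := ih i (Function.update i 0 (i 0 + d)) i' hl hr hl'' hr''
        (Function.update_self _ _ _) (fun k hk => Function.update_of_ne hk _ _) h
      obtain ⟨A', hB⟩ := exists_bump A (b 0).val hI.slope
      obtain ⟨b', hI'⟩ := inv_raise (j := j) (hl' := hl') (hr' := hr') hB hI rfl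
        (by rw [Function.update_self]; omega)
        (fun k hk => by rw [Function.update_of_ne hk]; exact hs k hk)
      exact ⟨A', b', hI'⟩
  have hPt : Past (Fin (0 + 1)) (fun _ => 0) :=
    ⟨⟨0⟩, fun a b hab => by
      have h1 := covBy_val hab
      have := b.2
      omega, fun _ _ => rfl, fun _ _ => rfl⟩
  induction m with
  | zero =>
    intro i i' hl hr
    refine raise 0 (i 0) (fun _ => 0) i i' (fun k => k.elim0) (fun k => k.elim0) hl hr ?_ ?_ ?_
    · simp
    · intro k hk
      refine absurd (Fin.ext ?_) hk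
      have hk' : k.val < 0 + 1 := k.2
      change k.val = 0
      omega
    · obtain ⟨b, hI⟩ := inv_triv (i := fun _ => 0) (i' := i') (hl := fun k => k.elim0)
        (hr := fun k => k.elim0) rfl ⟨0, _, hPt⟩ rfl
      exact ⟨_, b, hI⟩
  | succ m ih =>
    intro i i' hl hr
    obtain ⟨A, b, hI⟩ := ih (fun k => i k.succ) (fun k => i' k.succ)
      (fun k => hl k.succ) (fun k => hr k.succ)
    -- the position on the last slope
    have hr0 : i' 0 < i (Fin.succ 0) := hr 0
    have hl0 : i' 0 < i 0 := hl 0
    have hb0 : A.h (b 0) = i (Fin.succ 0) := hI.tab.dim 0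
    have hsl := hI.slope
    rw [← hn_eq] at hb0
    have hq1 := hn_slope A hsl (s := A.N - i' 0) (by omega) (by omega)
    have hq2 : hn A (A.N - i' 0) = i' 0 := by omega
    obtain ⟨A', hB⟩ := exists_bump A (A.N - i' 0) hq1
    have hl'' : ∀ k : Fin (m + 1), i' k < (Function.update i 0 (i' 0 + 1)) k.castSucc := by
      intro k
      by_cases hk : k = 0
      · subst hk
        change i' 0 < (Function.update i 0 (i' 0 + 1)) 0
        rw [Function.update_self]
        omega
      · rw [Function.update_of_ne (by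
          intro h
          apply hk
          exact Fin.castSucc_eq_zero_iff.1 h)]
        exact hl k
    have hr'' : ∀ k : Fin (m + 1), i' k < (Function.update i 0 (i' 0 + 1)) k.succ := by
      intro k
      rw [Function.update_of_ne (Fin.succ_ne_zero k)]
      exact hr k
    obtain ⟨b', hI'⟩ := inv_cons (j := Function.update i 0 (i' 0 + 1)) (j' := i')
      (hl' := hl'') (hr' := hr'') hB hI (by omega)
      (by rw [Function.update_self, hq2])
      (fun k => Function.update_of_ne (Fin.succ_ne_zero k) _ _) hq2.symm (fun k => rfl)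
    refine raise (m + 1) (i 0 - i' 0 - 1) (Function.update i 0 (i' 0 + 1)) i i' hl'' hr'' hl hr
      ?_ ?_ ⟨A', b', hI'⟩
    · rw [Function.update_self]
      omega
    · intro k hk
      rw [Function.update_of_ne hk]

/-- every table has a globular sum among the codes -/
theorem exists_code (T : Pool.Agent.HH.Table) :
    ∃ (A : PC) (b : Fin (T.m + 1) → A.P), IsTab T A b := by
  obtain ⟨m, i, i', hl, hr⟩ := T
  obtain ⟨A, b, hI⟩ := exists_inv_code m i i' hl hr
  exact ⟨A, b, hI.tab⟩

private theorem exists_inv_table (n : ℕ) : ∀ A : PC, A.N = n →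
    ∃ (T : Pool.Agent.HH.Table) (b : Fin (T.m + 1) → A.P), Inv T A b := by
  induction n using Nat.strong_induction_on with
  | _ n ih =>
    intro A hA
    rcases Nat.eq_zero_or_pos A.N with h0 | h0
    · obtain ⟨b, hI⟩ := inv_triv (i := fun _ => 0) (i' := fun k => k.elim0)
        (hl := fun k => k.elim0) (hr := fun k => k.elim0) rfl A h0
      exact ⟨_, b, hI⟩
    · obtain ⟨B, q, hB⟩ := exists_unbump A h0
      have hN := hB.hN
      obtain ⟨⟨m, i, i', hl, hr⟩, b, hI⟩ := ih B.N (by omega) B rfl
      have hq := hB.hq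
      have hsl := hI.slope
      have hle : (b 0).val ≤ q := hI.first q (by omega) hq
      rcases Nat.eq_or_lt_of_le hle with h1 | h1
      · have hl' : ∀ k : Fin m, i' k < (Function.update i 0 (i 0 + 1)) k.castSucc := by
          intro k
          by_cases hk : k.castSucc = 0
          · rw [hk, Function.update_self]
            have := hl k
            rw [hk] at this
            omega
          · rw [Function.update_of_ne hk]
            exact hl k
        have hr' : ∀ k : Fin m, i' k < (Function.update i 0 (i 0 + 1)) k.succ := by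
          intro k
          rw [Function.update_of_ne (Fin.succ_ne_zero k)]
          exact hr k
        obtain ⟨b', hI'⟩ := inv_raise (j := Function.update i 0 (i 0 + 1)) (hl' := hl')
          (hr' := hr') hB hI h1 (Function.update_self _ _ _)
          (fun k hk => Function.update_of_ne hk _ _)
        exact ⟨_, b', hI'⟩
      · have hb0 : B.h (b 0) = i 0 := hI.tab.dim 0
        rw [← hn_eq] at hb0
        have hlt : hn B q < i 0 := by omega
        have hl' : ∀ k : Fin (m + 1), (Fin.cons (hn B q) i' : Fin (m + 1) → ℕ) k <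
            (Fin.cons (hn B q + 1) i : Fin (m + 2) → ℕ) k.castSucc := by
          intro k
          refine Fin.cases ?_ (fun k => ?_) k
          · exact Nat.lt_succ_self _
          · exact hl k
        have hr' : ∀ k : Fin (m + 1), (Fin.cons (hn B q) i' : Fin (m + 1) → ℕ) k <
            (Fin.cons (hn B q + 1) i : Fin (m + 2) → ℕ) k.succ := by
          intro k
          refine Fin.cases ?_ (fun k => ?_) k
          · exact hlt
          · exact hr k
        obtain ⟨b', hI'⟩ := inv_cons (j := Fin.cons (hn B q + 1) i) (j' := Fin.cons (hn B q) i')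
          (hl' := hl') (hr' := hr') hB hI h1 rfl (fun k => rfl) rfl (fun k => rfl)
        exact ⟨_, b', hI'⟩

/-- every code is the globular sum of a table -/
theorem exists_table (A : PC) :
    ∃ (T : Pool.Agent.HH.Table) (b : Fin (T.m + 1) → A.P), IsTab T A b := by
  obtain ⟨T, b, hI⟩ := exists_inv_table A.N A rfl
  exact ⟨T, b, hI.tab⟩

/-- the chosen table of a code -/
noncomputable def tabOf (A : PC) : Pool.Agent.HH.Table := (exists_table A).choose

/-- the chosen disks of a code -/
noncomputable def peaks (A : PC) : Fin ((tabOf A).m + 1) → A.P := (exists_table A).choose_spec.choose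

theorem tabOf_isTab (A : PC) : IsTab (tabOf A) A (peaks A) :=
  (exists_table A).choose_spec.choose_spec

end HH
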