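import Pool.Agent.HH.TabDefs
import Pool.Agent.HH.Tab
import Pool.Agent.HH.Defs2
import Pool.Agent.HH.Pull
import Pool.Agent.HH.Lift

/-!
# HH stage 2b: cells of presheaves, realisation of codes and terms in a coherator (definitions)

`C`, `F`: a category with globes (in the applications a coherator, universe 0).
-/

set_option autoImplicit false

namespace HH

open Classical CategoryTheory Opposite

open Pool.Agent.HH (Globes)

/-- Official models. -/
abbrev OMod {C : Type} [SmallCategory C] (F : Globes C) := Pool.Agent.HH.Model F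

variable {C : Type} [SmallCategory C] (F : Globes C)

/-- The cells of a presheaf, as a raw globular set (all cells are genuine). -/
def GG (P : Cᵒᵖ ⥤ Type) : Glob where
  C := Σ n, P.obj (op (F.D n))
  dim := fun x => x.1
  src := fun x => match x with
    | ⟨0, x⟩ => ⟨0, x⟩
    | ⟨n + 1, x⟩ => ⟨n, P.map (F.s n).op x⟩
  tgt := fun x => match x with
    | ⟨0, x⟩ => ⟨0, x⟩
    | ⟨n + 1, x⟩ => ⟨n, P.map (F.t n).op x⟩
  ok := fun _ => True

/-- The cells of a representable presheaf: arrows from disks to `X`. -/
abbrev GC (X : C) : Type := Σ n, (F.D n ⟶ X)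

/-- The action of the cells of an object `X` on the elements of a presheaf at `X`. -/
def act (P : Cᵒᵖ ⥤ Type) {X : C} (x : P.obj (op X)) (c : GC F X) : (GG F P).C :=
  ⟨c.1, P.map c.2.op x⟩

/-- Composition with an arrow, on cells. -/
def push {X Y : C} (u : X ⟶ Y) (c : GC F X) : GC F Y := ⟨c.1, c.2 ≫ u⟩

variable {F}

/-- The chosen globular sum of a code. -/
noncomputable def rO (hF : F.IsExt) (A : PC) : C := (hF (tabOf A)).choose

/-- Its legs on the disks of the table. -/
noncomputable def rε (hF : F.IsExt) (A : PC) (k : Fin ((tabOf A).m + 1)) :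
    F.D ((tabOf A).i k) ⟶ rO hF A := (hF (tabOf A)).choose_spec.choose k

theorem rε_isSum (hF : F.IsExt) (A : PC) : F.IsSum (tabOf A) (rO hF A) (rε hF A) :=
  (hF (tabOf A)).choose_spec.choose_spec

/-- The legs on all positions of the code: the globular map extending the legs on the disks. -/
noncomputable def leg (hF : F.IsExt) (A : PC) : A.P → GC F (rO hF A) :=
  if h : ∃ f : A.P → (GG F (yoneda.obj (rO hF A))).C,
      (∀ p, MapAt A.G (GG F (yoneda.obj (rO hF A))) f p) ∧
        ∀ k, f (peaks A k) = ⟨(tabOf A).i k, rε hF A k⟩ then h.choose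
  else fun _ => ⟨(tabOf A).i 0, rε hF A 0⟩

/-- A cell `c` of the object of the code `A` as an operation of arity `A` on the cells of a
presheaf: if the family `γ` comes from a (unique) element `x` at `rO A`, the value is `x` restricted
along `c`. -/
noncomputable def app (hF : F.IsExt) (P : Cᵒᵖ ⥤ Type) {A : PC} (c : GC F (rO hF A))
    (γ : A.P → (GG F P).C) : (GG F P).C :=
  if H : ∃ x : P.obj (op (rO hF A)), ∀ p, act F P x (leg hF A p) = γ p then act F P H.choose c
  else γ 0

/-- A cell from `x` to `y`, if there is one. -/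
noncomputable def liftOf {X : C} (x y : GC F X) : GC F X :=
  if H : ∃ z : GC F X, z.1 = x.1 + 1 ∧ (GG F (yoneda.obj X)).src z = x ∧
      (GG F (yoneda.obj X)).tgt z = y then H.choose
  else x

/-- Realisation of the raw terms of `Cs`. -/
noncomputable def rhoB (hF : F.IsExt) : {A : PC} → BT A → GC F (rO hF A)
  | A, .var p => leg hF A p
  | A, .coh _ f g γ =>
    app hF (yoneda.obj (rO hF A)) (liftOf (rhoB hF f) (rhoB hF g)) (fun p => rhoB hF (γ p))

variable (C) in
/-- The labels: all arrows of `C`. -/
abbrev Lab : Type := Σ X Y : C, (X ⟶ Y)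

variable (C) in
/-- The extended signature of `C`. -/
noncomputable abbrev EE : Sig := exSig Cs PC.G (Lab C)

/-- The cell of `rO A` which realises the operation `k` of `Cs` (of arity `A = k.1`). -/
noncomputable def opC (hF : F.IsExt) (k : CsK) : GC F (rO hF k.1) :=
  liftOf (rhoB hF k.2.1) (rhoB hF k.2.2)

/-- The cell which realises the operation `ex b l i`, `l` being realised by the cell `l`: if the
label `i` is a cell `e` with source `l`, then `e` (`b = true`) or its target (`b = false`), otherwise
a cell from `l` to `l`, or `l`. -/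
noncomputable def opE {X : C} (b : Bool) (l : GC F X) (i : Lab C) : GC F X :=
  if H : ∃ e : F.D (l.1 + 1) ⟶ X, i = ⟨_, _, e⟩ ∧ F.s l.1 ≫ e = l.2 then
    (if b then ⟨l.1 + 1, H.choose⟩ else ⟨l.1, F.t l.1 ≫ H.choose⟩)
  else (if b then liftOf l l else l)

/-- Realisation of the raw terms of the extended signature. -/
noncomputable def rhoX (hF : F.IsExt) : {A : PC} → XT Cs PC.G (Lab C) A → GC F (rO hF A)
  | A, .var p => leg hF A p
  | A, .op k γ => app hF (yoneda.obj (rO hF A)) (opC hF k) (fun p => rhoX hF (γ p))
  | A, .ex b _ l i γ =>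
    app hF (yoneda.obj (rO hF A)) (opE b (rhoX hF l) i) (fun p => rhoX hF (γ p))

/-- The cell realising an operation of the extended signature. -/
noncomputable def opX (hF : F.IsExt) : (k : (EE C).K) → GC F (rO hF (match k with
    | .inl k => k.1
    | .inr k => k.1))
  | .inl k => opC hF k
  | .inr k => opE k.2.2.2 (rhoX hF k.2.1) k.2.2.1

/-- The cells of a presheaf as a raw model of the extended signature. -/
noncomputable def MD (hF : F.IsExt) (P : Cᵒᵖ ⥤ Type) : Model (EE C) where
  toGlob := GG F P
  o := fun k => match k with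
    | .inl k => fun γ => app hF P (opC hF k) γ
    | .inr k => fun γ => app hF P (opE k.2.2.2 (rhoX hF k.2.1) k.2.2.1) γ

end HH
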