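import Pool.Agent.HH.OrdCx

/-!
# HH part 3, GRID: star approximation of maps to order complexes

Vertices of the grid: `v : Fin n → ℕ` with `v i ≤ N`; `hat N v y` is the product of the hat
functions; the open star of `v` is `{y | 0 < hat N v y}`.
`GApp N π φ h`: `h` maps the open star of `v` (pulled back along `π : T → Cube n`) to the open star
of `φ v`.  `bar`: the simplicial approximation.  `line`: straight line homotopies.
-/

set_option autoImplicit false

namespace HH

open Classical Topology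

/-- the cube -/
abbrev Cube (n : ℕ) : Type := Fin n → unitInterval

variable {n : ℕ}

/-- the vertices of the grid -/
def gvtx (n N : ℕ) : Finset (Fin n → ℕ) := Fintype.piFinset (fun _ => Finset.range (N + 1))

theorem mem_gvtx {N : ℕ} {v : Fin n → ℕ} : v ∈ gvtx n N ↔ ∀ i, v i ≤ N := by
  simp [gvtx, Fintype.mem_piFinset, Nat.lt_succ_iff]

/-- the one-dimensional hat function -/
noncomputable def hat1 (z : ℝ) (k : ℕ) : ℝ := max 0 (1 - |z - k|)

/-- the hat function of a vertex -/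
noncomputable def hat (N : ℕ) (v : Fin n → ℕ) (y : Cube n) : ℝ :=
  ∏ i, hat1 (N * (y i : ℝ)) (v i)

theorem hat1_nonneg (z : ℝ) (k : ℕ) : 0 ≤ hat1 z k := le_max_left _ _

theorem hat1_pos {z : ℝ} {k : ℕ} : 0 < hat1 z k ↔ |z - k| < 1 := by
  unfold hat1
  constructor
  · intro h
    by_contra h1
    rw [max_eq_left (by linarith)] at h
    exact lt_irrefl _ h
  · intro h
    exact lt_max_of_lt_right (by linarith)

theorem hat_nonneg (N : ℕ) (v : Fin n → ℕ) (y : Cube n) : 0 ≤ hat N v y :=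
  Finset.prod_nonneg fun _ _ => hat1_nonneg _ _

theorem hat_pos {N : ℕ} {v : Fin n → ℕ} {y : Cube n} :
    0 < hat N v y ↔ ∀ i, |N * (y i : ℝ) - v i| < 1 := by
  constructor
  · intro h i
    rw [← hat1_pos]
    refine lt_of_le_of_ne (hat1_nonneg _ _) fun h1 => ?_
    have : hat N v y = 0 := Finset.prod_eq_zero (Finset.mem_univ i) h1.symm
    rw [this] at h
    exact lt_irrefl _ h
  · intro h
    exact Finset.prod_pos fun i _ => hat1_pos.2 (h i)

theorem hat_ne {N : ℕ} {v : Fin n → ℕ} {y : Cube n} : hat N v y ≠ 0 ↔ 0 < hat N v y :=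
  ⟨fun h => lt_of_le_of_ne (hat_nonneg _ _ _) (Ne.symm h), fun h => ne_of_gt h⟩

theorem continuous_hat (N : ℕ) (v : Fin n → ℕ) : Continuous (hat N v) := by
  unfold hat hat1
  refine continuous_finsetProd _ fun i _ => ?_
  refine continuous_const.max (continuous_const.sub (continuous_abs.comp ?_))
  exact (continuous_const.mul (continuous_subtype_val.comp (continuous_apply i))).sub
    continuous_const

theorem sum_hat1 {N : ℕ} {z : ℝ} (h0 : 0 ≤ z) (h1 : z ≤ N) :
    ∑ k ∈ Finset.range (N + 1), hat1 z k = 1 := by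
  induction N with
  | zero =>
    have hz : z = 0 := le_antisymm (by simpa using h1) h0
    simp [hat1, hz]
  | succ N ih =>
    rw [Finset.sum_range_succ]
    rcases le_total z N with h2 | h2
    · rw [ih h2]
      have : hat1 z (N + 1) = 0 := by
        unfold hat1
        refine max_eq_left ?_
        have h3 : z - ((N + 1 : ℕ) : ℝ) ≤ -1 := by
          push_cast
          linarith
        rw [abs_of_nonpos (by linarith)]
        linarith
      rw [this, add_zero]
    · rw [Finset.sum_range_succ]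
      have h3 : ∑ k ∈ Finset.range N, hat1 z k = 0 := by
        refine Finset.sum_eq_zero fun k hk => ?_
        have hk' : (k : ℝ) + 1 ≤ N := by
          have := Finset.mem_range.1 hk
          exact_mod_cast this
        unfold hat1
        refine max_eq_left ?_
        rw [abs_of_nonneg (by linarith)]
        linarith
      have h4 : hat1 z N = 1 - (z - N) := by
        unfold hat1
        push_cast at h1
        rw [abs_of_nonneg (by linarith), max_eq_right (by linarith)]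
      have h5 : hat1 z (N + 1) = 1 - (N + 1 - z) := by
        unfold hat1
        push_cast at h1 ⊢
        rw [abs_of_nonpos (by linarith), max_eq_right (by linarith)]
        ring
      rw [h3, h4, h5]
      ring

theorem sum_hat {N : ℕ} (y : Cube n) : ∑ v ∈ gvtx n N, hat N v y = 1 := by
  unfold hat gvtx
  rw [← Finset.prod_univ_sum (fun _ => Finset.range (N + 1))
    (fun i k => hat1 (N * (y i : ℝ)) k)]
  refine Finset.prod_eq_one fun i _ => sum_hat1 ?_ ?_
  · exact mul_nonneg (Nat.cast_nonneg _) (y i).2.1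
  · calc (N : ℝ) * (y i : ℝ) ≤ N * 1 := mul_le_mul_of_nonneg_left (y i).2.2 (Nat.cast_nonneg _)
      _ = N := mul_one _

namespace OrdCx

variable {P Q : Type} [PartialOrder P] [PartialOrder Q]

theorem exists_pos (t : OrdCx P) : ∃ p, 0 < t.w p := by
  by_contra h
  push Not at h
  have h1 : t.w = 0 := Finsupp.ext fun p => le_antisymm (h p) (t.nonneg p)
  have h2 := t.sum
  rw [h1] at h2
  simp at h2

theorem pos_iff {t : OrdCx P} {p : P} : 0 < t.w p ↔ t.w p ≠ 0 :=
  ⟨fun h => ne_of_gt h, fun h => lt_of_le_of_ne (t.nonneg p) (Ne.symm h)⟩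

/-- the segment between two points of a simplex -/
noncomputable def line (s t : OrdCx P) (hc : ∀ p q, s.w p ≠ 0 ∨ t.w p ≠ 0 →
    s.w q ≠ 0 ∨ t.w q ≠ 0 → p ≤ q ∨ q ≤ p) (r : unitInterval) : OrdCx P :=
  mk' (s.w.support ∪ t.w.support) (fun p => (1 - (r : ℝ)) * s.w p + (r : ℝ) * t.w p)
    (fun p _ => add_nonneg (mul_nonneg (by linarith [r.2.2]) (s.nonneg p))
      (mul_nonneg r.2.1 (t.nonneg p)))
    (fun p _ q _ hp hq => hc p q (by
        by_contra h
        push Not at h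
        rw [h.1, h.2] at hp
        simp at hp) (by
        by_contra h
        push Not at h
        rw [h.1, h.2] at hq
        simp at hq))
    (by
      rw [Finset.sum_add_distrib, ← Finset.mul_sum, ← Finset.mul_sum,
        s.sum_eq (fun p hp => Finset.mem_union_left _ (Finsupp.mem_support_iff.2 hp)),
        t.sum_eq (fun p hp => Finset.mem_union_right _ (Finsupp.mem_support_iff.2 hp))]
      ring)

theorem line_w {s t : OrdCx P} {hc : ∀ p q, s.w p ≠ 0 ∨ t.w p ≠ 0 →
    s.w q ≠ 0 ∨ t.w q ≠ 0 → p ≤ q ∨ q ≤ p} {r : unitInterval} {p : P} :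
    (line s t hc r).w p = (1 - (r : ℝ)) * s.w p + (r : ℝ) * t.w p := by
  by_cases hp : p ∈ s.w.support ∪ t.w.support
  · exact mk'_w hp
  · rw [line, mk'_w' hp]
    rw [Finset.mem_union, not_or, Finsupp.notMem_support_iff, Finsupp.notMem_support_iff] at hp
    rw [hp.1, hp.2]
    simp

theorem line_zero {s t : OrdCx P} {hc} : line s t hc 0 = s := by
  refine ext fun p => ?_
  rw [line_w]
  simp

theorem line_one {s t : OrdCx P} {hc} : line s t hc 1 = t := by
  refine ext fun p => ?_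
  rw [line_w]
  simp

theorem line_self {s : OrdCx P} {hc} (r : unitInterval) : line s s hc r = s := by
  refine ext fun p => ?_
  rw [line_w]
  ring

/-- the support of a point of the segment -/
theorem line_supp {s t : OrdCx P} {hc} {r : unitInterval} {p : P}
    (h : (line s t hc r).w p ≠ 0) : s.w p ≠ 0 ∨ t.w p ≠ 0 := by
  by_contra h1
  push Not at h1
  rw [line_w, h1.1, h1.2] at h
  simp at h

theorem map_line_chain (f : P → Q) (hf : Monotone f) {s t : OrdCx P}
    (hc : ∀ p q, s.w p ≠ 0 ∨ t.w p ≠ 0 → s.w q ≠ 0 ∨ t.w q ≠ 0 → p ≤ q ∨ q ≤ p) :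
    ∀ p q, (map f hf s).w p ≠ 0 ∨ (map f hf t).w p ≠ 0 →
      (map f hf s).w q ≠ 0 ∨ (map f hf t).w q ≠ 0 → p ≤ q ∨ q ≤ p := by
  have key : ∀ p, (map f hf s).w p ≠ 0 ∨ (map f hf t).w p ≠ 0 → ∃ p', f p' = p ∧
      (s.w p' ≠ 0 ∨ t.w p' ≠ 0) := by
    intro p hp
    rcases hp with hp | hp
    · obtain ⟨p', h1, h2⟩ := map_w_ne.1 hp
      exact ⟨p', h1, Or.inl h2⟩
    · obtain ⟨p', h1, h2⟩ := map_w_ne.1 hp
      exact ⟨p', h1, Or.inr h2⟩
  intro p q hp hq
  obtain ⟨p', rfl, hp'⟩ := key p hp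
  obtain ⟨q', rfl, hq'⟩ := key q hq
  rcases hc p' q' hp' hq' with h | h
  · exact Or.inl (hf h)
  · exact Or.inr (hf h)

theorem map_line (f : P → Q) (hf : Monotone f) {s t : OrdCx P} {hc} (r : unitInterval) :
    map f hf (line s t hc r) = line (map f hf s) (map f hf t) (map_line_chain f hf hc) r := by
  refine ext fun q => ?_
  have h1 : ∀ p, (line s t hc r).w p ≠ 0 → p ∈ s.w.support ∪ t.w.support := by
    intro p hp
    rw [Finset.mem_union, Finsupp.mem_support_iff, Finsupp.mem_support_iff]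
    exact line_supp hp
  rw [line_w, map_w f hf _ h1,
    map_w f hf s (F := s.w.support ∪ t.w.support)
      (fun p hp => Finset.mem_union_left _ (Finsupp.mem_support_iff.2 hp)),
    map_w f hf t (F := s.w.support ∪ t.w.support)
      (fun p hp => Finset.mem_union_right _ (Finsupp.mem_support_iff.2 hp)),
    Finset.mul_sum, Finset.mul_sum, ← Finset.sum_add_distrib]
  refine Finset.sum_congr rfl fun p _ => ?_
  rw [line_w]
  split <;> ring

/-- straight line homotopies with finite carriers are continuous -/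
theorem continuous_line {T : Type*} [TopologicalSpace T] {f g : T → OrdCx P} (F : Finset P)
    (hf : Continuous f) (hg : Continuous g) (hF : ∀ t p, (f t).w p ≠ 0 ∨ (g t).w p ≠ 0 → p ∈ F)
    (hc : ∀ t p q, (f t).w p ≠ 0 ∨ (g t).w p ≠ 0 → (f t).w q ≠ 0 ∨ (g t).w q ≠ 0 →
      p ≤ q ∨ q ≤ p) :
    Continuous (fun x : T × unitInterval => line (f x.1) (g x.1) (hc x.1) x.2) := by
  refine continuous_of F (fun x p hp => hF x.1 p (line_supp hp)) fun p _ => ?_
  simp only [line_w]
  have h2 : Continuous fun x : T × unitInterval => ((x.2 : unitInterval) : ℝ) :=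
    continuous_subtype_val.comp continuous_snd
  exact ((continuous_const.sub h2).mul ((continuous_w p).comp (hf.comp continuous_fst))).add
    (h2.mul ((continuous_w p).comp (hg.comp continuous_fst)))

theorem continuous_line' {T : Type*} [TopologicalSpace T] [CompactSpace T] {f g : T → OrdCx P}
    (hf : Continuous f) (hg : Continuous g)
    (hc : ∀ t p q, (f t).w p ≠ 0 ∨ (g t).w p ≠ 0 → (f t).w q ≠ 0 ∨ (g t).w q ≠ 0 →
      p ≤ q ∨ q ≤ p) :
    Continuous (fun x : T × unitInterval => line (f x.1) (g x.1) (hc x.1) x.2) := by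
  obtain ⟨F, hF⟩ := finite_of_compact (isCompact_range hf)
  obtain ⟨G, hG⟩ := finite_of_compact (isCompact_range hg)
  refine continuous_line (F ∪ G) hf hg (fun t p hp => ?_) hc
  rcases hp with hp | hp
  · exact Finset.mem_union_left _ (hF _ ⟨t, rfl⟩ p hp)
  · exact Finset.mem_union_right _ (hG _ ⟨t, rfl⟩ p hp)

end OrdCx

open OrdCx

section Approx

variable {P Q : Type} [PartialOrder P] [PartialOrder Q] {T : Type*}

/-- the vertices whose open star contains a point are sent to comparable elements -/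
def CApp (N : ℕ) (π : T → Cube n) (φ : (Fin n → ℕ) → P) : Prop :=
  ∀ t v v', v ∈ gvtx n N → v' ∈ gvtx n N → 0 < hat N v (π t) → 0 < hat N v' (π t) →
    φ v ≤ φ v' ∨ φ v' ≤ φ v

/-- `φ` is a star approximation of `h` -/
def GApp (N : ℕ) (π : T → Cube n) (φ : (Fin n → ℕ) → P) (h : T → OrdCx P) : Prop :=
  ∀ t v, v ∈ gvtx n N → 0 < hat N v (π t) → 0 < (h t).w (φ v)

theorem GApp.capp {N : ℕ} {π : T → Cube n} {φ : (Fin n → ℕ) → P} {h : T → OrdCx P}
    (H : GApp N π φ h) : CApp N π φ := fun t v v' hv hv' h1 h2 =>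
  (h t).chain _ _ (ne_of_gt (H t v hv h1)) (ne_of_gt (H t v' hv' h2))

/-- the simplicial map defined by `φ` -/
noncomputable def bar {N : ℕ} {π : T → Cube n} {φ : (Fin n → ℕ) → P} (H : CApp N π φ) (t : T) :
    OrdCx P :=
  mk' ((gvtx n N).image φ) (fun p => ∑ v ∈ (gvtx n N).filter (fun v => φ v = p), hat N v (π t))
    (fun p _ => Finset.sum_nonneg fun v _ => hat_nonneg _ _ _)
    (fun p _ q _ hp hq => by
      obtain ⟨v, hv, h1⟩ := Finset.exists_ne_zero_of_sum_ne_zero hp
      obtain ⟨v', hv', h2⟩ := Finset.exists_ne_zero_of_sum_ne_zero hq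
      obtain ⟨hv3, rfl⟩ := Finset.mem_filter.1 hv
      obtain ⟨hv4, rfl⟩ := Finset.mem_filter.1 hv'
      exact H t v v' hv3 hv4 (hat_ne.1 h1) (hat_ne.1 h2))
    (by
      rw [← sum_hat (N := N) (π t)]
      exact Finset.sum_fiberwise_of_maps_to (fun v hv => Finset.mem_image_of_mem φ hv) _)

theorem bar_w {N : ℕ} {π : T → Cube n} {φ : (Fin n → ℕ) → P} {H : CApp N π φ} {t : T} {p : P} :
    (bar H t).w p = ∑ v ∈ (gvtx n N).filter (fun v => φ v = p), hat N v (π t) := by
  by_cases hp : p ∈ (gvtx n N).image φ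
  · exact mk'_w hp
  · rw [bar, mk'_w' hp, Finset.filter_false_of_mem, Finset.sum_empty]
    rintro v hv rfl
    exact hp (Finset.mem_image_of_mem φ hv)

theorem bar_w_ne {N : ℕ} {π : T → Cube n} {φ : (Fin n → ℕ) → P} {H : CApp N π φ} {t : T} {p : P} :
    (bar H t).w p ≠ 0 ↔ ∃ v ∈ gvtx n N, φ v = p ∧ 0 < hat N v (π t) := by
  rw [bar_w]
  constructor
  · intro h
    obtain ⟨v, hv, h1⟩ := Finset.exists_ne_zero_of_sum_ne_zero h
    obtain ⟨hv3, hv4⟩ := Finset.mem_filter.1 hv
    exact ⟨v, hv3, hv4, hat_ne.1 h1⟩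
  · rintro ⟨v, hv, rfl, h1⟩
    refine ne_of_gt (Finset.sum_pos' (fun v' _ => hat_nonneg _ _ _)
      ⟨v, Finset.mem_filter.2 ⟨hv, rfl⟩, h1⟩)

theorem continuous_bar [TopologicalSpace T] {N : ℕ} {π : T → Cube n} {φ : (Fin n → ℕ) → P}
    (H : CApp N π φ) (hπ : Continuous π) : Continuous (bar H) := by
  refine continuous_of ((gvtx n N).image φ) (fun t p hp => ?_) fun p _ => ?_
  · obtain ⟨v, hv, rfl, -⟩ := bar_w_ne.1 hp
    exact Finset.mem_image_of_mem φ hv
  · simp only [bar_w]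
    exact continuous_finsetSum _ fun v _ => (continuous_hat N v).comp hπ

/-- only the values at the relevant vertices matter -/
theorem bar_congr {N : ℕ} {T' : Type*} {π : T → Cube n} {π' : T' → Cube n}
    {φ φ' : (Fin n → ℕ) → P} {H : CApp N π φ} {H' : CApp N π' φ'} {t : T} {t' : T'}
    (h0 : π t = π' t') (h : ∀ v ∈ gvtx n N, 0 < hat N v (π t) → φ v = φ' v) :
    bar H t = bar H' t' := by
  refine ext fun p => ?_
  rw [bar_w, bar_w, ← h0]
  rw [← Finset.sum_subset (s₁ := ((gvtx n N).filter fun v => φ v = p).filter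
      fun v => 0 < hat N v (π t)) (Finset.filter_subset _ _) (fun v hv hv' => ?_),
    ← Finset.sum_subset (s₁ := ((gvtx n N).filter fun v => φ' v = p).filter
      fun v => 0 < hat N v (π t)) (Finset.filter_subset _ _) (fun v hv hv' => ?_)]
  · refine Finset.sum_congr ?_ fun _ _ => rfl
    ext v
    simp only [Finset.mem_filter]
    constructor
    · rintro ⟨⟨h1, h2⟩, h3⟩
      exact ⟨⟨h1, by rw [← h v h1 h3]; exact h2⟩, h3⟩
    · rintro ⟨⟨h1, h2⟩, h3⟩
      exact ⟨⟨h1, by rw [h v h1 h3]; exact h2⟩, h3⟩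
  · by_contra h1
    exact hv' (Finset.mem_filter.2 ⟨hv, hat_ne.1 h1⟩)
  · by_contra h1
    exact hv' (Finset.mem_filter.2 ⟨hv, hat_ne.1 h1⟩)

/-- naturality in the poset -/
theorem map_bar {N : ℕ} {π : T → Cube n} {φ : (Fin n → ℕ) → P} {H : CApp N π φ} (f : P → Q)
    (hf : Monotone f) {H' : CApp N π (fun v => f (φ v))} {t : T} :
    map f hf (bar H t) = bar H' t := by
  refine ext fun q => ?_
  rw [map_w f hf _ (F := (gvtx n N).image φ) (fun p hp => by
    obtain ⟨v, hv, rfl, -⟩ := bar_w_ne.1 hp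
    exact Finset.mem_image_of_mem φ hv)]
  rw [bar_w]
  have h1 : ∀ p ∈ (gvtx n N).image φ, (if f p = q then (bar H t).w p else 0) =
      ∑ v ∈ ((gvtx n N).filter fun v => f (φ v) = q).filter (fun v => φ v = p),
        hat N v (π t) := by
    intro p _
    split
    · rename_i h2
      rw [bar_w]
      refine Finset.sum_congr ?_ fun _ _ => rfl
      ext v
      simp only [Finset.mem_filter]
      constructor
      · rintro ⟨h3, rfl⟩
        exact ⟨⟨h3, h2⟩, rfl⟩
      · rintro ⟨⟨h3, -⟩, h4⟩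
        exact ⟨h3, h4⟩
    · rename_i h2
      rw [Finset.filter_false_of_mem, Finset.sum_empty]
      rintro v hv rfl
      exact h2 (Finset.mem_filter.1 hv).2
  rw [Finset.sum_congr rfl h1]
  exact Finset.sum_fiberwise_of_maps_to (fun v hv => Finset.mem_image_of_mem φ
    (Finset.mem_filter.1 hv).1) _

theorem CApp.comp {N : ℕ} {π : T → Cube n} {φ : (Fin n → ℕ) → P} (H : CApp N π φ) (f : P → Q)
    (hf : Monotone f) : CApp N π (fun v => f (φ v)) := fun t v v' hv hv' h1 h2 => by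
  rcases H t v v' hv hv' h1 h2 with h | h
  · exact Or.inl (hf h)
  · exact Or.inr (hf h)

theorem CApp.pull {N : ℕ} {π : T → Cube n} {φ : (Fin n → ℕ) → P} (H : CApp N π φ) {T' : Type*}
    (g : T' → T) : CApp N (fun t => π (g t)) φ := fun t => H (g t)

theorem GApp.pull {N : ℕ} {π : T → Cube n} {φ : (Fin n → ℕ) → P} {h : T → OrdCx P}
    (H : GApp N π φ h) {T' : Type*} (g : T' → T) : GApp N (fun t => π (g t)) φ (fun t => h (g t)) :=
  fun t => H (g t)

theorem GApp.map {N : ℕ} {π : T → Cube n} {φ : (Fin n → ℕ) → P} {h : T → OrdCx P}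
    (H : GApp N π φ h) (f : P → Q) (hf : Monotone f) :
    GApp N π (fun v => f (φ v)) (fun t => OrdCx.map f hf (h t)) := fun t v hv h1 =>
  pos_iff.2 (map_w_ne.2 ⟨φ v, rfl, ne_of_gt (H t v hv h1)⟩)

/-- the support of `bar` is contained in the support of `h` -/
theorem GApp.bar_supp {N : ℕ} {π : T → Cube n} {φ : (Fin n → ℕ) → P} {h : T → OrdCx P}
    (H : GApp N π φ h) {t : T} {p : P} (hp : (bar H.capp t).w p ≠ 0) : (h t).w p ≠ 0 := by
  obtain ⟨v, hv, rfl, h1⟩ := bar_w_ne.1 hp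
  exact ne_of_gt (H t v hv h1)

theorem GApp.line_chain {N : ℕ} {π : T → Cube n} {φ : (Fin n → ℕ) → P} {h : T → OrdCx P}
    (H : GApp N π φ h) (t : T) : ∀ p q, (h t).w p ≠ 0 ∨ (bar H.capp t).w p ≠ 0 →
      (h t).w q ≠ 0 ∨ (bar H.capp t).w q ≠ 0 → p ≤ q ∨ q ≤ p := by
  intro p q hp hq
  have h1 : ∀ p, (h t).w p ≠ 0 ∨ (bar H.capp t).w p ≠ 0 → (h t).w p ≠ 0 := by
    rintro p (hp | hp)
    · exact hp
    · exact H.bar_supp hp
  exact (h t).chain p q (h1 p hp) (h1 q hq)

/-- the straight line homotopy from `h` to `bar` -/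
noncomputable def GApp.htpy {N : ℕ} {π : T → Cube n} {φ : (Fin n → ℕ) → P} {h : T → OrdCx P}
    (H : GApp N π φ h) (x : T × unitInterval) : OrdCx P :=
  line (h x.1) (bar H.capp x.1) (H.line_chain x.1) x.2

theorem GApp.htpy_zero {N : ℕ} {π : T → Cube n} {φ : (Fin n → ℕ) → P} {h : T → OrdCx P}
    (H : GApp N π φ h) (t : T) : H.htpy (t, 0) = h t := line_zero

theorem GApp.htpy_one {N : ℕ} {π : T → Cube n} {φ : (Fin n → ℕ) → P} {h : T → OrdCx P}
    (H : GApp N π φ h) (t : T) : H.htpy (t, 1) = bar H.capp t := line_one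

/-- the homotopy stays in the carrier of `h` -/
theorem GApp.htpy_supp {N : ℕ} {π : T → Cube n} {φ : (Fin n → ℕ) → P} {h : T → OrdCx P}
    (H : GApp N π φ h) {x : T × unitInterval} {p : P} (hp : (H.htpy x).w p ≠ 0) :
    (h x.1).w p ≠ 0 := by
  rcases line_supp hp with h1 | h1
  · exact h1
  · exact H.bar_supp h1

theorem GApp.continuous_htpy [TopologicalSpace T] [CompactSpace T] {N : ℕ} {π : T → Cube n}
    {φ : (Fin n → ℕ) → P} {h : T → OrdCx P} (H : GApp N π φ h) (hπ : Continuous π)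
    (hh : Continuous h) : Continuous H.htpy :=
  continuous_line' hh (continuous_bar H.capp hπ) H.line_chain

/-- naturality of the homotopy -/
theorem GApp.map_htpy {N : ℕ} {π : T → Cube n} {φ : (Fin n → ℕ) → P} {h : T → OrdCx P}
    (H : GApp N π φ h) (f : P → Q) (hf : Monotone f) {h' : T → OrdCx Q}
    {φ' : (Fin n → ℕ) → Q} (H' : GApp N π φ' h') (x : T × unitInterval)
    (hh : OrdCx.map f hf (h x.1) = h' x.1)
    (hφ : ∀ v ∈ gvtx n N, 0 < hat N v (π x.1) → f (φ v) = φ' v) :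
    OrdCx.map f hf (H.htpy x) = H'.htpy x := by
  refine (map_line f hf x.2).trans ?_
  have h1 : OrdCx.map f hf (bar H.capp x.1) = bar H'.capp x.1 :=
    (map_bar f hf (H' := H.capp.comp f hf)).trans (bar_congr rfl hφ)
  refine ext fun q => ?_
  rw [line_w, GApp.htpy, line_w, hh, h1]

/-- **Star approximation.** -/
theorem exists_gapp {h : Cube n → OrdCx P} (hh : Continuous h) :
    ∃ N0 : ℕ, 0 < N0 ∧ ∀ N, N0 ≤ N → ∃ φ : (Fin n → ℕ) → P, GApp N (fun y => y) φ h := by
  obtain ⟨δ, hδ, hc⟩ := lebesgue_number_lemma_of_metric (s := (Set.univ : Set (Cube n)))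
    (c := fun p : P => h ⁻¹' {t | 0 < t.w p}) isCompact_univ
    (fun p => (isOpen_star p).preimage hh)
    (fun y _ => Set.mem_iUnion.2 (exists_pos (h y)))
  obtain ⟨N0, hN0⟩ := exists_nat_gt (1 / δ)
  have hpos : 0 < N0 := by
    have : (0 : ℝ) < N0 := lt_trans (one_div_pos.2 hδ) hN0
    exact_mod_cast this
  refine ⟨N0, hpos, fun N hN => ?_⟩
  have hNR : (N0 : ℝ) ≤ N := by exact_mod_cast hN
  have hN' : (0 : ℝ) < N := lt_of_lt_of_le (by exact_mod_cast hpos) hNR
  have hlt : 1 / δ < N := lt_of_lt_of_le hN0 hNR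
  have hlt' : 1 / (N : ℝ) < δ := by
    rw [div_lt_iff₀ hN']
    rw [div_lt_iff₀ hδ] at hlt
    linarith
  -- the points of the vertices
  let pt : (Fin n → ℕ) → Cube n := fun v i => ⟨min 1 ((v i : ℝ) / N), by
    constructor
    · exact le_min zero_le_one (div_nonneg (Nat.cast_nonneg _) hN'.le)
    · exact min_le_left _ _⟩
  choose φ hφ using fun v => hc (pt v) (Set.mem_univ _)
  refine ⟨φ, fun y v hv hy => ?_⟩
  rw [hat_pos] at hy
  rw [mem_gvtx] at hv
  refine hφ v ?_
  rw [Metric.mem_ball, dist_pi_lt_iff hδ]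
  intro i
  have h1 : ((v i : ℝ) / N) ≤ 1 := by
    rw [div_le_one hN']
    exact_mod_cast hv i
  have h2 : ((pt v i : unitInterval) : ℝ) = (v i : ℝ) / N := min_eq_right h1
  rw [Subtype.dist_eq, h2, Real.dist_eq]
  have h3 : |(y i : ℝ) - (v i : ℝ) / N| = |N * (y i : ℝ) - v i| / N := by
    rw [← abs_of_pos hN', ← abs_div, abs_of_pos hN']
    congr 1
    field_simp
  rw [h3]
  calc |N * (y i : ℝ) - v i| / N ≤ 1 / N :=
        div_le_div_of_nonneg_right (hy i).le hN'.le
    _ < δ := hlt'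

/-- **Unique lifts of star approximations.** -/
theorem GApp.lift [TopologicalSpace T] {P0 : Type} [PartialOrder P0] [Nonempty P0] {N : ℕ}
    {π : T → Cube n} {φ : (Fin n → ℕ) → P} {h : T → OrdCx P} (H : GApp N π φ h)
    (f : P0 → P) (hf : Monotone f) (hinj : ∀ p q, p ≤ q → f p = f q → p = q)
    {h0 : T → OrdCx P0} (hc : Continuous h0) (hh : ∀ t, OrdCx.map f hf (h0 t) = h t)
    (hT : ∀ v ∈ gvtx n N, IsPreconnected {t | 0 < hat N v (π t)}) :
    ∃ φ0 : (Fin n → ℕ) → P0, GApp N π φ0 h0 ∧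
      ∀ v ∈ gvtx n N, (∃ t, 0 < hat N v (π t)) → f (φ0 v) = φ v := by
  have key : ∀ v : Fin n → ℕ, ∃ p0 : P0, v ∈ gvtx n N → (∃ t, 0 < hat N v (π t)) →
      f p0 = φ v ∧ ∀ t, 0 < hat N v (π t) → 0 < (h0 t).w p0 := by
    intro v
    by_cases hv : v ∈ gvtx n N
    swap
    · exact ⟨Classical.arbitrary P0, fun h1 => absurd h1 hv⟩
    by_cases hne : ∃ t, 0 < hat N v (π t)
    swap
    · exact ⟨Classical.arbitrary P0, fun _ h1 => absurd h1 hne⟩
    obtain ⟨t0, ht0⟩ := hne
    -- elements over `φ v` in the supports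
    have hex : ∀ t, 0 < hat N v (π t) → ∃ p0, f p0 = φ v ∧ 0 < (h0 t).w p0 := by
      intro t ht
      have h1 := H t v hv ht
      rw [← hh t] at h1
      obtain ⟨p0, h2, h3⟩ := map_w_ne.1 (ne_of_gt h1)
      exact ⟨p0, h2, pos_iff.2 h3⟩
    obtain ⟨p0, hp0, hp1⟩ := hex t0 ht0
    refine ⟨p0, fun _ _ => ⟨hp0, fun t ht => ?_⟩⟩
    -- the two open sets
    by_contra hcon
    obtain ⟨p1, hp2, hp3⟩ := hex t ht
    have hU : IsOpen {t | 0 < (h0 t).w p0} := (isOpen_star p0).preimage hc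
    have hV : IsOpen {t | ∃ p, p ≠ p0 ∧ f p = φ v ∧ 0 < (h0 t).w p} := by
      have : {t | ∃ p, p ≠ p0 ∧ f p = φ v ∧ 0 < (h0 t).w p} =
          ⋃ p ∈ {p | p ≠ p0 ∧ f p = φ v}, {t | 0 < (h0 t).w p} := by
        ext t
        simp only [Set.mem_setOf_eq, Set.mem_iUnion, exists_prop, and_assoc]
      rw [this]
      exact isOpen_biUnion fun p _ => (isOpen_star p).preimage hc
    have hcover : {t | 0 < hat N v (π t)} ⊆
        {t | 0 < (h0 t).w p0} ∪ {t | ∃ p, p ≠ p0 ∧ f p = φ v ∧ 0 < (h0 t).w p} := by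
      intro t ht
      obtain ⟨p, hp, hp'⟩ := hex t ht
      by_cases h1 : p = p0
      · rw [h1] at hp'
        exact Or.inl hp'
      · exact Or.inr ⟨p, h1, hp, hp'⟩
    obtain ⟨t2, -, ht2, ⟨p, hp4, hp5, hp6⟩⟩ := hT v hv _ _ hU hV hcover ⟨t0, ht0, hp1⟩
      ⟨t, ht, p1, fun h1 => hcon (by rw [← h1]; exact hp3), hp2, hp3⟩
    have ht2' : 0 < (h0 t2).w p0 := ht2
    rcases (h0 t2).chain p p0 (ne_of_gt hp6) (ne_of_gt ht2') with h1 | h1
    · exact hp4 (hinj _ _ h1 (hp5.trans hp0.symm))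
    · exact hp4 (hinj _ _ h1 (hp0.trans hp5.symm)).symm
  choose φ0 hφ0 using key
  exact ⟨φ0, fun t v hv ht => (hφ0 v hv ⟨t, ht⟩).2 t ht, fun v hv hne => (hφ0 v hv hne).1⟩

/-- lifts are unique -/
theorem GApp.lift_unique {P0 : Type} [PartialOrder P0] {N : ℕ} {π : T → Cube n}
    {f : P0 → P} (hinj : ∀ p q, p ≤ q → f p = f q → p = q) {h0 : T → OrdCx P0}
    {φ0 φ1 : (Fin n → ℕ) → P0} (H0 : GApp N π φ0 h0) (H1 : GApp N π φ1 h0) {v : Fin n → ℕ}
    (hv : v ∈ gvtx n N) (hne : ∃ t, 0 < hat N v (π t)) (h : f (φ0 v) = f (φ1 v)) :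
    φ0 v = φ1 v := by
  obtain ⟨t, ht⟩ := hne
  rcases (h0 t).chain _ _ (ne_of_gt (H0 t v hv ht)) (ne_of_gt (H1 t v hv ht)) with h1 | h1
  · exact hinj _ _ h1 h
  · exact (hinj _ _ h1 h.symm).symm

end Approx

end HH
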