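import Pool.Agent.HH.GridA
import Pool.Agent.HH.Defs3

/-!
# HH part 3, GRID: cells of the grid, open boxes

Cells `d : Fin n → ℕ`, `d i ≤ 2 N`, coded as in `GLab` (coordinate `2 k`: the vertex `k`,
coordinate `2 k + 1`: the interval `[k, k + 1]`).
-/

set_option autoImplicit false

namespace HH

open Classical Topology OrdCx

variable {n : ℕ}

/-- the closed cell -/
def cellSet (N : ℕ) (d : Fin n → ℕ) : Set (Cube n) :=
  {y | ∀ i, ((d i / 2 : ℕ) : ℝ) ≤ N * (y i : ℝ) ∧ N * (y i : ℝ) ≤ (((d i + 1) / 2 : ℕ) : ℝ)}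

/-- the vertices of a cell -/
def cvtx (d : Fin n → ℕ) : Finset (Fin n → ℕ) :=
  Fintype.piFinset (fun i => Finset.Icc (d i / 2) ((d i + 1) / 2))

/-- `X_(i, ε) = {t_i = ε} ∪ {t_j ∈ {0, 1}, j < i}` -/
def openX (n i : ℕ) (ε : Bool) : Set (Cube n) :=
  {y | ∃ j : Fin n, (j.1 = i ∧ y j = if ε then 1 else 0) ∨ (j.1 < i ∧ (y j = 0 ∨ y j = 1))}

theorem mem_cvtx {d v : Fin n → ℕ} : v ∈ cvtx d ↔ ∀ i, d i / 2 ≤ v i ∧ v i ≤ (d i + 1) / 2 := by
  simp [cvtx, Fintype.mem_piFinset]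

theorem cvtx_subset {N : ℕ} {d : Fin n → ℕ} (hd : ∀ i, d i ≤ 2 * N) : cvtx d ⊆ gvtx n N := by
  intro v hv
  rw [mem_cvtx] at hv
  rw [mem_gvtx]
  intro i
  have h1 := (hv i).2
  have h2 := hd i
  omega

theorem cvtx_nonempty (d : Fin n → ℕ) : (cvtx d).Nonempty :=
  ⟨fun i => d i / 2, mem_cvtx.2 fun i => ⟨le_refl _, by show d i / 2 ≤ _; omega⟩⟩

theorem cvtx_mono {d d' : Fin n → ℕ} (h : faceLe d d') : cvtx d ⊆ cvtx d' := by
  intro v hv
  rw [mem_cvtx] at hv ⊢
  intro i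
  have h1 := hv i
  have h2 := h i
  omega

theorem cellSet_mono {N : ℕ} {d d' : Fin n → ℕ} (h : faceLe d d') :
    cellSet N d ⊆ cellSet N d' := by
  intro y hy i
  obtain ⟨h1, h2⟩ := hy i
  have h3 := h i
  constructor
  · refine le_trans ?_ h1
    have : d' i / 2 ≤ d i / 2 := by omega
    exact_mod_cast this
  · refine h2.trans ?_
    have : (d i + 1) / 2 ≤ (d' i + 1) / 2 := by omega
    exact_mod_cast this

theorem isClosed_cellSet (N : ℕ) (d : Fin n → ℕ) : IsClosed (cellSet N d) := by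
  have : cellSet N d = ⋂ i, {y : Cube n | ((d i / 2 : ℕ) : ℝ) ≤ N * (y i : ℝ) ∧
      N * (y i : ℝ) ≤ (((d i + 1) / 2 : ℕ) : ℝ)} := by
    ext y
    simp [cellSet]
  rw [this]
  refine isClosed_iInter fun i => ?_
  have hc : Continuous fun y : Cube n => (N : ℝ) * (y i : ℝ) :=
    continuous_const.mul (continuous_subtype_val.comp (continuous_apply i))
  exact (isClosed_le continuous_const hc).inter (isClosed_le hc continuous_const)

/-- the vertices seen from a point of a cell are vertices of the cell -/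
theorem mem_cvtx_of_hat {N : ℕ} {d v : Fin n → ℕ} {y : Cube n} (hy : y ∈ cellSet N d)
    (h : 0 < hat N v y) : v ∈ cvtx d := by
  rw [hat_pos] at h
  rw [mem_cvtx]
  intro i
  obtain ⟨h1, h2⟩ := hy i
  obtain ⟨h3, h4⟩ := abs_lt.1 (h i)
  constructor
  · have h5 : ((d i / 2 : ℕ) : ℝ) < v i + 1 := by linarith
    have h6 : d i / 2 < v i + 1 := by exact_mod_cast h5
    omega
  · have h5 : (v i : ℝ) < (((d i + 1) / 2 : ℕ) : ℝ) + 1 := by linarith
    have h6 : v i < (d i + 1) / 2 + 1 := by exact_mod_cast h5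
    omega

/-- the centre of a cell -/
noncomputable def cctr (N : ℕ) (d : Fin n → ℕ) : Cube n := fun i =>
  ⟨min 1 ((d i : ℝ) / (2 * N)), le_min zero_le_one
    (div_nonneg (Nat.cast_nonneg _) (mul_nonneg zero_le_two (Nat.cast_nonneg _))), min_le_left _ _⟩

theorem cctr_mul {N : ℕ} (hN : 0 < N) {d : Fin n → ℕ} (hd : ∀ i, d i ≤ 2 * N) (i : Fin n) :
    (N : ℝ) * (cctr N d i : ℝ) = (d i : ℝ) / 2 := by
  have hN' : (0 : ℝ) < N := by exact_mod_cast hN
  have h1 : (d i : ℝ) / (2 * N) ≤ 1 := by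
    rw [div_le_one (by linarith)]
    exact_mod_cast hd i
  show (N : ℝ) * min 1 ((d i : ℝ) / (2 * N)) = _
  rw [min_eq_right h1]
  field_simp

theorem cctr_mem {N : ℕ} (hN : 0 < N) {d : Fin n → ℕ} (hd : ∀ i, d i ≤ 2 * N) :
    cctr N d ∈ cellSet N d := by
  intro i
  rw [cctr_mul hN hd]
  constructor
  · have h1 : 2 * (d i / 2) ≤ d i := by omega
    have h2 : (2 : ℝ) * ((d i / 2 : ℕ) : ℝ) ≤ d i := by exact_mod_cast h1
    linarith
  · have h1 : d i ≤ 2 * ((d i + 1) / 2) := by omega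
    have h2 : (d i : ℝ) ≤ 2 * (((d i + 1) / 2 : ℕ) : ℝ) := by exact_mod_cast h1
    linarith

theorem hat_cctr {N : ℕ} (hN : 0 < N) {d : Fin n → ℕ} (hd : ∀ i, d i ≤ 2 * N) {v : Fin n → ℕ}
    (hv : v ∈ cvtx d) : 0 < hat N v (cctr N d) := by
  rw [hat_pos]
  intro i
  rw [cctr_mul hN hd, abs_lt]
  obtain ⟨h1, h2⟩ := mem_cvtx.1 hv i
  have h3 : d i ≤ 2 * v i + 1 := by omega
  have h4 : 2 * v i ≤ d i + 1 := by omega
  have h5 : (d i : ℝ) ≤ 2 * v i + 1 := by exact_mod_cast h3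
  have h6 : (2 : ℝ) * v i ≤ d i + 1 := by exact_mod_cast h4
  constructor <;> linarith

/-- every point lies in a cell -/
theorem exists_cell {N : ℕ} (y : Cube n) : ∃ d : Fin n → ℕ, (∀ i, d i ≤ 2 * N) ∧
    y ∈ cellSet N d := by
  have key : ∀ i, ∃ k : ℕ, k ≤ 2 * N ∧ ((k / 2 : ℕ) : ℝ) ≤ N * (y i : ℝ) ∧
      N * (y i : ℝ) ≤ (((k + 1) / 2 : ℕ) : ℝ) := by
    intro i
    have h0 : 0 ≤ (N : ℝ) * (y i : ℝ) := mul_nonneg (Nat.cast_nonneg _) (y i).2.1
    have h1 : (N : ℝ) * (y i : ℝ) ≤ N := by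
      calc (N : ℝ) * (y i : ℝ) ≤ N * 1 := mul_le_mul_of_nonneg_left (y i).2.2 (Nat.cast_nonneg _)
        _ = N := mul_one _
    have h2 := Nat.floor_le h0
    have h3 := Nat.lt_floor_add_one ((N : ℝ) * (y i : ℝ))
    have h4 : ⌊(N : ℝ) * (y i : ℝ)⌋₊ ≤ N := by
      have : ⌊(N : ℝ) * (y i : ℝ)⌋₊ ≤ ⌊(N : ℝ)⌋₊ := Nat.floor_le_floor h1
      rwa [Nat.floor_natCast] at this
    rcases Nat.lt_or_ge ⌊(N : ℝ) * (y i : ℝ)⌋₊ N with h5 | h5
    · refine ⟨2 * ⌊(N : ℝ) * (y i : ℝ)⌋₊ + 1, by omega, ?_, ?_⟩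
      · rw [show (2 * ⌊(N : ℝ) * (y i : ℝ)⌋₊ + 1) / 2 = ⌊(N : ℝ) * (y i : ℝ)⌋₊ by omega]
        exact h2
      · rw [show (2 * ⌊(N : ℝ) * (y i : ℝ)⌋₊ + 1 + 1) / 2 = ⌊(N : ℝ) * (y i : ℝ)⌋₊ + 1 by omega]
        push_cast
        exact h3.le
    · have h6 : ⌊(N : ℝ) * (y i : ℝ)⌋₊ = N := le_antisymm h4 h5
      refine ⟨2 * N, le_refl _, ?_, ?_⟩
      · rw [show 2 * N / 2 = N by omega]
        rw [h6] at h2
        exact h2
      · rw [show (2 * N + 1) / 2 = N by omega]
        exact h1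
  choose d hd1 hd2 hd3 using key
  exact ⟨d, hd1, fun i => ⟨hd2 i, hd3 i⟩⟩

/-- cells of the open boxes -/
theorem cellSet_subset_openX {N : ℕ} (hN : 0 < N) {d : Fin n → ℕ} {i : ℕ} {ε : Bool}
    (h : inX N d i ε) : cellSet N d ⊆ openX n i ε := by
  intro y hy
  have hN' : (0 : ℝ) < N := by exact_mod_cast hN
  have h0 : ∀ j, d j = 0 → y j = 0 := by
    intro j hj
    obtain ⟨-, h2⟩ := hy j
    rw [hj] at h2
    norm_num at h2
    apply Subtype.ext
    show (y j : ℝ) = 0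
    refine le_antisymm ?_ (y j).2.1
    by_contra h3
    push Not at h3
    have := mul_pos hN' h3
    linarith
  have h1 : ∀ j, d j = 2 * N → y j = 1 := by
    intro j hj
    obtain ⟨h2, -⟩ := hy j
    rw [hj, show 2 * N / 2 = N by omega] at h2
    apply Subtype.ext
    show (y j : ℝ) = 1
    refine le_antisymm (y j).2.2 ?_
    by_contra h3
    push Not at h3
    have := mul_lt_mul_of_pos_left h3 hN'
    linarith
  obtain ⟨j, hj⟩ := h
  refine ⟨j, ?_⟩
  rcases hj with ⟨hj1, hj2⟩ | ⟨hj1, hj2 | hj2⟩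
  · left
    refine ⟨hj1, ?_⟩
    cases ε with
    | false => exact h0 j (by simpa using hj2)
    | true => exact h1 j (by simpa using hj2)
  · exact Or.inr ⟨hj1, Or.inl (h0 j hj2)⟩
  · exact Or.inr ⟨hj1, Or.inr (h1 j hj2)⟩

theorem isClosed_openX (n i : ℕ) (ε : Bool) : IsClosed (openX n i ε) := by
  have : openX n i ε = ⋃ j : Fin n, {y : Cube n | (j.1 = i ∧ y j = if ε then 1 else 0) ∨
      (j.1 < i ∧ (y j = 0 ∨ y j = 1))} := by
    ext y
    simp [openX]
  rw [this]
  refine isClosed_iUnion_of_finite fun j => ?_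
  have hc : Continuous fun y : Cube n => y j := continuous_apply j
  refine IsClosed.union ?_ ?_
  · by_cases h : j.1 = i
    · simp only [h, true_and]
      exact isClosed_eq hc continuous_const
    · simp only [h, false_and]
      exact isClosed_empty
  · by_cases h : j.1 < i
    · simp only [h, true_and]
      exact (isClosed_eq hc continuous_const).union (isClosed_eq hc continuous_const)
    · simp only [h, false_and]
      exact isClosed_empty

theorem openX_mono {n i j : ℕ} (h : i < j) (δ ε : Bool) : openX n i δ ⊆ openX n j ε := by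
  rintro y ⟨k, hk⟩
  refine ⟨k, Or.inr ?_⟩
  rcases hk with ⟨h1, h2⟩ | ⟨h1, h2⟩
  · refine ⟨by omega, ?_⟩
    cases δ with
    | false => exact Or.inl (by simpa using h2)
    | true => exact Or.inr (by simpa using h2)
  · exact ⟨by omega, h2⟩

/-! ### Segments -/

/-- the segment between two points of the cube -/
noncomputable def cseg (x y : Cube n) (r : unitInterval) : Cube n := fun i =>
  ⟨(1 - (r : ℝ)) * (x i : ℝ) + (r : ℝ) * (y i : ℝ), by
    have h1 := r.2.1
    have h2 := r.2.2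
    have h3 := (x i).2.1
    have h4 := (x i).2.2
    have h5 := (y i).2.1
    have h6 := (y i).2.2
    constructor
    · exact add_nonneg (mul_nonneg (by linarith) h3) (mul_nonneg h1 h5)
    · have h7 : (1 - (r : ℝ)) * (x i : ℝ) ≤ 1 - (r : ℝ) := by nlinarith
      have h8 : (r : ℝ) * (y i : ℝ) ≤ (r : ℝ) := by nlinarith
      linarith⟩

theorem cseg_coe (x y : Cube n) (r : unitInterval) (i : Fin n) :
    (cseg x y r i : ℝ) = (1 - (r : ℝ)) * (x i : ℝ) + (r : ℝ) * (y i : ℝ) := rfl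

theorem cseg_zero (x y : Cube n) : cseg x y 0 = x := by
  funext i
  apply Subtype.ext
  rw [cseg_coe]
  simp

theorem cseg_one (x y : Cube n) : cseg x y 1 = y := by
  funext i
  apply Subtype.ext
  rw [cseg_coe]
  simp

theorem continuous_cseg : Continuous fun p : (Cube n × Cube n) × unitInterval =>
    cseg p.1.1 p.1.2 p.2 := by
  refine continuous_pi fun i => Continuous.subtype_mk ?_ _
  have h1 : Continuous fun p : (Cube n × Cube n) × unitInterval => (p.2 : ℝ) :=
    continuous_subtype_val.comp continuous_snd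
  have h2 : Continuous fun p : (Cube n × Cube n) × unitInterval => (p.1.1 i : ℝ) :=
    continuous_subtype_val.comp ((continuous_apply i).comp (continuous_fst.comp continuous_fst))
  have h3 : Continuous fun p : (Cube n × Cube n) × unitInterval => (p.1.2 i : ℝ) :=
    continuous_subtype_val.comp ((continuous_apply i).comp (continuous_snd.comp continuous_fst))
  exact ((continuous_const.sub h1).mul h2).add (h1.mul h3)

theorem cseg_mem_cellSet {N : ℕ} {d : Fin n → ℕ} {x y : Cube n} (hx : x ∈ cellSet N d)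
    (hy : y ∈ cellSet N d) (r : unitInterval) : cseg x y r ∈ cellSet N d := by
  intro i
  obtain ⟨a1, a2⟩ := hx i
  obtain ⟨b1, b2⟩ := hy i
  have h1 := r.2.1
  have h2 := r.2.2
  have e : (N : ℝ) * (cseg x y r i : ℝ) =
      (1 - (r : ℝ)) * (N * (x i : ℝ)) + (r : ℝ) * (N * (y i : ℝ)) := by
    rw [cseg_coe]
    ring
  rw [e]
  constructor
  · nlinarith
  · nlinarith

/-- the vertex as a point of the cube -/
theorem cctr_two {N : ℕ} (hN : 0 < N) {v : Fin n → ℕ} (hv : v ∈ gvtx n N) (i : Fin n) :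
    (N : ℝ) * (cctr N (fun i => 2 * v i) i : ℝ) = v i := by
  rw [cctr_mul hN (fun i => Nat.mul_le_mul_left 2 (mem_gvtx.1 hv i))]
  push_cast
  ring

theorem hat_cseg {N : ℕ} (hN : 0 < N) {v : Fin n → ℕ} (hv : v ∈ gvtx n N) {y : Cube n}
    (hy : 0 < hat N v y) (r : unitInterval) :
    0 < hat N v (cseg (cctr N fun i => 2 * v i) y r) := by
  rw [hat_pos] at hy ⊢
  intro i
  have e : (N : ℝ) * (cseg (cctr N fun i => 2 * v i) y r i : ℝ) - v i =
      (r : ℝ) * (N * (y i : ℝ) - v i) := by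
    rw [cseg_coe]
    have := cctr_two hN hv i
    linear_combination (1 - (r : ℝ)) * this
  rw [e, abs_mul, abs_of_nonneg r.2.1]
  calc (r : ℝ) * |N * (y i : ℝ) - v i| ≤ 1 * |N * (y i : ℝ) - v i| :=
        mul_le_mul_of_nonneg_right r.2.2 (abs_nonneg _)
    _ = |N * (y i : ℝ) - v i| := one_mul _
    _ < 1 := hy i

/-- sets which are star convex around the vertices they see have connected stars -/
theorem preconnected_star {X : Set (Cube n)} {N : ℕ} (hN : 0 < N) {v : Fin n → ℕ}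
    (hv : v ∈ gvtx n N)
    (hX : ∀ y ∈ X, 0 < hat N v y → ∀ r, cseg (cctr N fun i => 2 * v i) y r ∈ X) :
    IsPreconnected {t : X | 0 < hat N v t.1} := by
  by_cases hne : ∃ t : X, 0 < hat N v t.1
  swap
  · have : {t : X | 0 < hat N v t.1} = ∅ := by
      ext t
      simp only [Set.mem_ofPred_eq, Set.mem_empty_iff_false, iff_false]
      exact fun h => hne ⟨t, h⟩
    rw [this]
    exact isPreconnected_empty
  obtain ⟨t0, ht0⟩ := hne
  have h0 : cctr N (fun i => 2 * v i) ∈ X := by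
    have := hX t0.1 t0.2 ht0 0
    rwa [cseg_zero] at this
  refine isPreconnected_of_forall (⟨cctr N (fun i => 2 * v i), h0⟩ : X) fun t ht => ?_
  have hc : Continuous fun r : unitInterval =>
      (⟨cseg (cctr N fun i => 2 * v i) t.1 r, hX t.1 t.2 ht r⟩ : X) := by
    refine Continuous.subtype_mk ?_ _
    exact continuous_cseg.comp (f := fun r : unitInterval =>
      ((cctr N fun i => 2 * v i, t.1), r)) (continuous_const.prodMk continuous_id)
  refine ⟨Set.range fun r : unitInterval =>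
    (⟨cseg (cctr N fun i => 2 * v i) t.1 r, hX t.1 t.2 ht r⟩ : X), ?_, ⟨0, ?_⟩, ⟨1, ?_⟩, ?_⟩
  · rintro _ ⟨r, rfl⟩
    exact hat_cseg hN hv ht r
  · exact Subtype.ext (cseg_zero _ _)
  · exact Subtype.ext (cseg_one _ _)
  · exact isPreconnected_range hc

theorem preconnected_star_cell {N : ℕ} (hN : 0 < N) {d : Fin n → ℕ}
    {v : Fin n → ℕ} (hv : v ∈ gvtx n N) :
    IsPreconnected {t : cellSet N d | 0 < hat N v t.1} := by
  refine preconnected_star hN hv fun y hy h r => cseg_mem_cellSet ?_ hy r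
  have h1 := mem_cvtx.1 (mem_cvtx_of_hat hy h)
  intro i
  rw [cctr_two hN hv]
  exact ⟨by exact_mod_cast (h1 i).1, by exact_mod_cast (h1 i).2⟩

theorem preconnected_star_openX {N : ℕ} (hN : 0 < N) {i : ℕ} {ε : Bool}
    {v : Fin n → ℕ} (hv : v ∈ gvtx n N) :
    IsPreconnected {t : openX n i ε | 0 < hat N v t.1} := by
  refine preconnected_star hN hv fun y hy h r => ?_
  obtain ⟨j, hj⟩ := hy
  have hN' : (0 : ℝ) < N := by exact_mod_cast hN
  rw [hat_pos] at h
  have hvj := mem_gvtx.1 hv j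
  have h0 : y j = 0 → cseg (cctr N fun i => 2 * v i) y r j = 0 := by
    intro h1
    have h2 := h j
    rw [h1] at h2
    have h3 : |(v j : ℝ)| < 1 := by simpa using h2
    rw [abs_of_nonneg (Nat.cast_nonneg _)] at h3
    have h4 : v j = 0 := by
      have : v j < 1 := by exact_mod_cast h3
      omega
    apply Subtype.ext
    show (cseg (cctr N fun i => 2 * v i) y r j : ℝ) = 0
    have h5 := cctr_two hN hv j
    rw [h4] at h5
    have h6 : (cctr N (fun i => 2 * v i) j : ℝ) = 0 := by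
      push_cast at h5
      exact (mul_eq_zero.1 h5).resolve_left (ne_of_gt hN')
    rw [cseg_coe, h6, h1]
    simp
  have h1 : y j = 1 → cseg (cctr N fun i => 2 * v i) y r j = 1 := by
    intro h1
    have h2 := h j
    rw [h1] at h2
    obtain ⟨h3, h4⟩ := abs_lt.1 h2
    have h5 : v j = N := by
      have h6 : (N : ℝ) < v j + 1 := by
        simp at h4
        linarith
      have : N < v j + 1 := by exact_mod_cast h6
      omega
    apply Subtype.ext
    show (cseg (cctr N fun i => 2 * v i) y r j : ℝ) = 1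
    have h7 := cctr_two hN hv j
    rw [h5] at h7
    have h8 : (cctr N (fun i => 2 * v i) j : ℝ) = 1 := by
      have : (N : ℝ) * ((cctr N (fun i => 2 * v i) j : ℝ) - 1) = 0 := by linear_combination h7
      have := (mul_eq_zero.1 this).resolve_left (ne_of_gt hN')
      linarith
    rw [cseg_coe, h8, h1]
    simp
  refine ⟨j, ?_⟩
  rcases hj with ⟨hj1, hj2⟩ | ⟨hj1, hj2 | hj2⟩
  · left
    refine ⟨hj1, ?_⟩
    cases ε with
    | false => exact h0 (by simpa using hj2)
    | true => exact h1 (by simpa using hj2)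
  · exact Or.inr ⟨hj1, Or.inl (h0 hj2)⟩
  · exact Or.inr ⟨hj1, Or.inr (h1 hj2)⟩

/-! ### Contractibility -/

theorem contractible_cellSet {N : ℕ} (hN : 0 < N) {d : Fin n → ℕ} (hd : ∀ i, d i ≤ 2 * N) :
    ContractibleSpace (cellSet N d) := by
  rw [contractible_iff_id_nullhomotopic]
  refine ⟨⟨cctr N d, cctr_mem hN hd⟩, ⟨{
    toFun := fun p => ⟨cseg p.2.1 (cctr N d) p.1, cseg_mem_cellSet p.2.2 (cctr_mem hN hd) p.1⟩
    continuous_toFun := ?_
    map_zero_left := ?_
    map_one_left := ?_ }⟩⟩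
  · refine Continuous.subtype_mk ?_ _
    exact continuous_cseg.comp (((continuous_subtype_val.comp continuous_snd).prodMk
      continuous_const).prodMk continuous_fst)
  · intro x
    exact Subtype.ext (cseg_zero _ _)
  · intro x
    exact Subtype.ext (cseg_one _ _)

theorem cseg_mem_openX_of_eq {i : ℕ} {ε : Bool} {x y : Cube n} {k : Fin n} (hk : k.1 = i)
    (hx : x k = if ε then 1 else 0) (hy : y k = if ε then 1 else 0) (r : unitInterval) :
    cseg x y r ∈ openX n i ε := by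
  refine ⟨k, Or.inl ⟨hk, ?_⟩⟩
  apply Subtype.ext
  show (cseg x y r k : ℝ) = _
  rw [cseg_coe, hx, hy]
  ring

theorem contractible_openX {i : ℕ} (hi : i < n) (ε : Bool) : ContractibleSpace (openX n i ε) := by
  obtain ⟨k, hk⟩ : ∃ k : Fin n, k.1 = i := ⟨⟨i, hi⟩, rfl⟩
  obtain ⟨a, ha⟩ : ∃ a : unitInterval, a = if ε then 1 else 0 := ⟨_, rfl⟩
  -- the base point and the projection to the face
  have hb : (fun _ => a : Cube n) ∈ openX n i ε := ⟨k, Or.inl ⟨hk, ha⟩⟩
  have hpr : ∀ y : Cube n, Function.update y k a k = if ε then 1 else 0 := fun y => by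
    rw [Function.update_self, ha]
  have h1 : ∀ (y : Cube n), y ∈ openX n i ε → ∀ r, cseg y (Function.update y k a) r ∈
      openX n i ε := by
    rintro y ⟨j, hj⟩ r
    have hne : j ≠ k → cseg y (Function.update y k a) r j = y j := by
      intro h
      apply Subtype.ext
      show (cseg y (Function.update y k a) r j : ℝ) = y j
      rw [cseg_coe, Function.update_of_ne h]
      ring
    rcases hj with ⟨hj1, hj2⟩ | ⟨hj1, hj2⟩
    · have : j = k := Fin.ext (by omega)
      subst this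
      exact cseg_mem_openX_of_eq hk hj2 (hpr y) r
    · have hjk : j ≠ k := by
        rintro rfl
        omega
      exact ⟨j, Or.inr ⟨hj1, by rw [hne hjk]; exact hj2⟩⟩
  have hu : Continuous fun y : Cube n => Function.update y k a :=
    continuous_id.update k continuous_const
  -- first homotopy
  have H1 : (ContinuousMap.id (openX n i ε)).Homotopic ⟨fun y => ⟨Function.update y.1 k a,
      ⟨k, Or.inl ⟨hk, hpr y.1⟩⟩⟩, Continuous.subtype_mk (hu.comp continuous_subtype_val) _⟩ := by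
    refine ⟨{
      toFun := fun p => ⟨cseg p.2.1 (Function.update p.2.1 k a) p.1, h1 _ p.2.2 _⟩
      continuous_toFun := ?_
      map_zero_left := ?_
      map_one_left := ?_ }⟩
    · refine Continuous.subtype_mk ?_ _
      have h2 : Continuous fun p : unitInterval × openX n i ε => (p.2 : Cube n) :=
        continuous_subtype_val.comp continuous_snd
      exact continuous_cseg.comp ((h2.prodMk (hu.comp h2)).prodMk continuous_fst)
    · intro x
      exact Subtype.ext (cseg_zero _ _)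
    · intro x
      exact Subtype.ext (cseg_one _ _)
  have H2 : ContinuousMap.Homotopic (⟨fun y => ⟨Function.update y.1 k a,
      ⟨k, Or.inl ⟨hk, hpr y.1⟩⟩⟩, Continuous.subtype_mk (hu.comp continuous_subtype_val) _⟩ :
      C(openX n i ε, openX n i ε)) (ContinuousMap.const _ ⟨_, hb⟩) := by
    refine ⟨{
      toFun := fun p => ⟨cseg (Function.update p.2.1 k a) (fun _ => a) p.1,
        cseg_mem_openX_of_eq hk (hpr _) ha _⟩
      continuous_toFun := ?_
      map_zero_left := ?_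
      map_one_left := ?_ }⟩
    · refine Continuous.subtype_mk ?_ _
      have h2 : Continuous fun p : unitInterval × openX n i ε => (p.2 : Cube n) :=
        continuous_subtype_val.comp continuous_snd
      exact continuous_cseg.comp (((hu.comp h2).prodMk continuous_const).prodMk continuous_fst)
    · intro x
      exact Subtype.ext (cseg_zero _ _)
    · intro x
      exact Subtype.ext (cseg_one _ _)
  rw [contractible_iff_id_nullhomotopic]
  exact ⟨⟨_, hb⟩, H1.trans H2⟩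

/-! ### Approximations on cells -/

section
variable {P Q : Type} [PartialOrder P] [PartialOrder Q] {T : Type*}

/-- the images of the vertices of a cell form a chain -/
theorem CApp.chain_cell {N : ℕ} (hN : 0 < N) {π : T → Cube n} {φ : (Fin n → ℕ) → P}
    (H : CApp N π φ) {d : Fin n → ℕ} (hd : ∀ i, d i ≤ 2 * N) (hT : ∃ t, π t = cctr N d) :
    ∀ v ∈ cvtx d, ∀ v' ∈ cvtx d, φ v ≤ φ v' ∨ φ v' ≤ φ v := by
  obtain ⟨t, ht⟩ := hT
  intro v hv v' hv'
  refine H t v v' (cvtx_subset hd hv) (cvtx_subset hd hv') ?_ ?_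
  · rw [ht]
    exact hat_cctr hN hd hv
  · rw [ht]
    exact hat_cctr hN hd hv'

/-- the largest image of a vertex of a cell -/
noncomputable def cmax (φ : (Fin n → ℕ) → P) (d : Fin n → ℕ) : P :=
  if h : ∃ v ∈ cvtx d, ∀ v' ∈ cvtx d, φ v' ≤ φ v then φ h.choose else φ d

theorem exists_max (φ : (Fin n → ℕ) → P) {d : Fin n → ℕ}
    (h : ∀ v ∈ cvtx d, ∀ v' ∈ cvtx d, φ v ≤ φ v' ∨ φ v' ≤ φ v) :
    ∃ v ∈ cvtx d, ∀ v' ∈ cvtx d, φ v' ≤ φ v := by
  have key : ∀ F : Finset (Fin n → ℕ), F.Nonempty → F ⊆ cvtx d →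
      ∃ v ∈ F, ∀ v' ∈ F, φ v' ≤ φ v := by
    intro F hF
    induction hF using Finset.Nonempty.cons_induction with
    | singleton a => exact fun _ => ⟨a, Finset.mem_singleton_self a, fun v' hv' => by
        rw [Finset.mem_singleton.1 hv']⟩
    | cons a s ha hs ih =>
      intro hsub
      obtain ⟨v, hv, hmax⟩ := ih fun x hx => hsub (Finset.mem_cons_of_mem hx)
      rcases h a (hsub (Finset.mem_cons_self a s)) v (hsub (Finset.mem_cons_of_mem hv)) with
        h1 | h1
      · refine ⟨v, Finset.mem_cons_of_mem hv, fun v' hv' => ?_⟩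
        rcases Finset.mem_cons.1 hv' with rfl | h2
        · exact h1
        · exact hmax v' h2
      · refine ⟨a, Finset.mem_cons_self a s, fun v' hv' => ?_⟩
        rcases Finset.mem_cons.1 hv' with rfl | h2
        · exact le_refl _
        · exact (hmax v' h2).trans h1
  exact key _ (cvtx_nonempty d) (Finset.Subset.refl _)

theorem cmax_spec {φ : (Fin n → ℕ) → P} {d : Fin n → ℕ}
    (h : ∀ v ∈ cvtx d, ∀ v' ∈ cvtx d, φ v ≤ φ v' ∨ φ v' ≤ φ v) :
    (∃ v ∈ cvtx d, φ v = cmax φ d) ∧ ∀ v ∈ cvtx d, φ v ≤ cmax φ d := by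
  have h1 := exists_max φ h
  have h2 := h1.choose_spec
  have h3 : cmax φ d = φ h1.choose := dif_pos h1
  rw [h3]
  exact ⟨⟨_, h2.1, rfl⟩, h2.2⟩

theorem cmax_mono {φ : (Fin n → ℕ) → P} {d d' : Fin n → ℕ} (hf : faceLe d d')
    (h : ∀ v ∈ cvtx d', ∀ v' ∈ cvtx d', φ v ≤ φ v' ∨ φ v' ≤ φ v) : cmax φ d ≤ cmax φ d' := by
  obtain ⟨⟨v, hv, h1⟩, -⟩ := cmax_spec (φ := φ) (d := d)
    fun v hv v' hv' => h v (cvtx_mono hf hv) v' (cvtx_mono hf hv')
  rw [← h1]
  exact (cmax_spec h).2 v (cvtx_mono hf hv)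

theorem map_cmax {φ : (Fin n → ℕ) → P} {d : Fin n → ℕ} (f : P → Q) (hf : Monotone f)
    (h : ∀ v ∈ cvtx d, ∀ v' ∈ cvtx d, φ v ≤ φ v' ∨ φ v' ≤ φ v) {φ' : (Fin n → ℕ) → Q}
    (hφ : ∀ v ∈ cvtx d, φ' v = f (φ v)) : f (cmax φ d) = cmax φ' d := by
  have h' : ∀ v ∈ cvtx d, ∀ v' ∈ cvtx d, φ' v ≤ φ' v' ∨ φ' v' ≤ φ' v := by
    intro v hv v' hv'
    rw [hφ v hv, hφ v' hv']
    rcases h v hv v' hv' with h1 | h1
    · exact Or.inl (hf h1)
    · exact Or.inr (hf h1)
  obtain ⟨⟨v, hv, h1⟩, h2⟩ := cmax_spec h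
  obtain ⟨⟨v', hv', h3⟩, h4⟩ := cmax_spec h'
  refine le_antisymm ?_ ?_
  · rw [← h1, ← hφ v hv]
    exact h4 v hv
  · rw [← h3, hφ v' hv']
    exact hf (h2 v' hv')

/-- the support of `bar` over a cell -/
theorem bar_supp_cell {N : ℕ} {π : T → Cube n} {φ : (Fin n → ℕ) → P} {H : CApp N π φ}
    {d : Fin n → ℕ} {t : T} (ht : π t ∈ cellSet N d) {p : P} (hp : (bar H t).w p ≠ 0) :
    ∃ v ∈ cvtx d, φ v = p := by
  obtain ⟨v, -, h1, h2⟩ := bar_w_ne.1 hp
  exact ⟨v, mem_cvtx_of_hat ht h2, h1⟩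

theorem bar_le_cmax {N : ℕ} {π : T → Cube n} {φ : (Fin n → ℕ) → P} {H : CApp N π φ}
    {d : Fin n → ℕ} (h : ∀ v ∈ cvtx d, ∀ v' ∈ cvtx d, φ v ≤ φ v' ∨ φ v' ≤ φ v) {t : T}
    (ht : π t ∈ cellSet N d) {p : P} (hp : (bar H t).w p ≠ 0) : p ≤ cmax φ d := by
  obtain ⟨v, hv, rfl⟩ := bar_supp_cell ht hp
  exact (cmax_spec h).2 v hv

end

end HH
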