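import Pool.Agent.HH.KEx

/-!
# HH part 3, module d9: the functor `KM` and named simplices
-/

set_option autoImplicit false

namespace HH

open Classical CategoryTheory

variable {S : Sig}

theorem Names_tsrc (z : ZFam S) (𝒜 ℬ : Finset ℕ → Prop) (t : S.T (Finset ℕ)) :
    (KC z 𝒜).tsrc t = (KC z ℬ).tsrc t := by
  cases t <;> rfl

/-- inclusions of sub-computads of names -/
theorem Names_mapAt (z : ZFam S) {𝒜 ℬ : Finset ℕ → Prop} (h : ∀ B, 𝒜 B → ℬ B)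
    (t : S.T (Finset ℕ)) (ht : (KC z 𝒜).tok t) :
    MapAt (KC z 𝒜).m.toGlob (KC z ℬ).m.toGlob (fun t => t) t := by
  refine ⟨?_, KEx_tdim z z ℬ 𝒜 t, fun _ => ⟨Names_tsrc z ℬ 𝒜 t, KEx_ttgt z z ℬ 𝒜 t⟩⟩
  induction t with
  | var B => exact ⟨ht.1, h _ ht.2⟩
  | op k γ ih =>
    obtain ⟨hk, hγ⟩ := ht
    refine ⟨hk, fun p => ?_⟩
    obtain ⟨h1, h2, h3⟩ := hγ p
    refine ⟨ih p h1, (KEx_tdim z z ℬ 𝒜 (γ p)).trans h2, fun h0 => ?_⟩
    obtain ⟨j1, j2⟩ := h3 h0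
    exact ⟨(Names_tsrc z ℬ 𝒜 _).trans j1, (KEx_ttgt z z ℬ 𝒜 _).trans j2⟩

section Names
variable [S.Good]

/-- the inclusion of free models of sub-computads -/
noncomputable def KM.incl (z : ZFam S) (hz : ZGood z) {A B : Finset ℕ} (h : A ⊆ B) :
    RMod.free (KC z (fun C => C ⊆ A)) (KC_simplex_good hz A) ⟶
      RMod.free (KC z (fun C => C ⊆ B)) (KC_simplex_good hz B) :=
  RHom.ofFun (M := RMod.free (KC z (fun C => C ⊆ A)) (KC_simplex_good hz A))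
    (N := RMod.free (KC z (fun C => C ⊆ B)) (KC_simplex_good hz B)) (fun t => t)
    (fun t ht => Names_mapAt z (fun _ hC => hC.trans h) t ht)
    (fun _ _ _ _ => rfl)

/-- the functor `A ↦ K(A)` -/
noncomputable def KM (z : ZFam S) (hz : ZGood z) : Nm ⥤ RMod S where
  obj A := RMod.free (KC z (fun C => C ⊆ A.1)) (KC_simplex_good hz A.1)
  map h := KM.incl z hz (leOfHom h)
  map_id := fun _ => rfl
  map_comp := fun _ _ => rfl

/-- Named simplices of a model. -/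
structure NS (z : ZFam S) (hz : ZGood z) (G : RMod S) where
  A : Nm
  g : (KM z hz).obj A ⟶ G

instance (z : ZFam S) (hz : ZGood z) (G : RMod S) : PartialOrder (NS z hz G) where
  le p q := ∃ h : p.A ≤ q.A, p.g = (KM z hz).map (homOfLE h) ≫ q.g
  le_refl := fun p => ⟨le_rfl, rfl⟩
  le_trans := by
    rintro ⟨A, f⟩ ⟨B, g⟩ ⟨C, k⟩ ⟨h1, h2⟩ ⟨h3, h4⟩
    refine ⟨h1.trans h3, ?_⟩
    dsimp only at h1 h2 h3 h4 ⊢
    rw [h2, h4]
    rfl
  le_antisymm := by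
    rintro ⟨A, f⟩ ⟨B, g⟩ ⟨h1, h2⟩ ⟨h3, h4⟩
    dsimp only at h1 h2 h3 h4
    have hAB : A = B := le_antisymm h1 h3
    subst hAB
    rw [h2]
    rfl

variable {z : ZFam S} {hz : ZGood z}

/-- functoriality of named simplices -/
noncomputable def NS.map {G H : RMod S} (F : G ⟶ H) (p : NS z hz G) : NS z hz H := ⟨p.A, p.g ≫ F⟩

theorem NS.map_mono {G H : RMod S} (F : G ⟶ H) : Monotone (NS.map (z := z) (hz := hz) F) := by
  rintro ⟨A, f⟩ ⟨B, g⟩ ⟨h1, h2⟩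
  refine ⟨h1, ?_⟩
  dsimp only [NS.map] at h1 h2 ⊢
  rw [h2, Category.assoc]

theorem NS.map_id (G : RMod S) (p : NS z hz G) : p.map (𝟙 G) = p := rfl

theorem NS.map_comp {G H K : RMod S} (F : G ⟶ H) (F' : H ⟶ K) (p : NS z hz G) :
    p.map (F ≫ F') = (p.map F).map F' := rfl

/-- `NS.map F` is injective below every element -/
theorem NS.map_inj {G H : RMod S} (F : G ⟶ H) {p q r : NS z hz G} (hp : p ≤ r) (hq : q ≤ r)
    (h : p.map F = q.map F) : p = q := by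
  obtain ⟨A, f⟩ := p
  obtain ⟨B, g⟩ := q
  obtain ⟨C, k⟩ := r
  obtain ⟨h1, h2⟩ := hp
  obtain ⟨h3, h4⟩ := hq
  dsimp only at h1 h2 h3 h4
  have hAB : A = B := congrArg NS.A h
  subst hAB
  rw [h2, h4]

/-- lifting along `NS.map F`, in terms of the underlying morphism -/
theorem NS.eq_mk {G H : RMod S} {F : G ⟶ H} {p : NS z hz H} {q : NS z hz G} (h : q.map F = p) :
    ∃ g' : (KM z hz).obj p.A ⟶ G, g' ≫ F = p.g ∧ q = ⟨p.A, g'⟩ := by
  subst h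
  exact ⟨q.g, rfl, rfl⟩

/-- the canonical lift of a face of `p` -/
noncomputable def NS.lift {G : RMod S} (p : NS z hz G) {B : Nm} (h : B ≤ p.A) : NS z hz ((KM z hz).obj p.A) :=
  ⟨B, (KM z hz).map (homOfLE h)⟩

theorem NS.lift_map {G : RMod S} {p q : NS z hz G} (h : q ≤ p) :
    (p.lift h.1).map p.g = q := by
  obtain ⟨A, f⟩ := p
  obtain ⟨B, g⟩ := q
  obtain ⟨h1, h2⟩ := h
  dsimp only at h1 h2
  subst h2
  rfl

theorem NS.lift_mono {G : RMod S} (p : NS z hz G) {B C : Nm} (hB : B ≤ p.A) (hC : C ≤ p.A)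
    (hBC : B ≤ C) : p.lift hB ≤ p.lift hC :=
  ⟨hBC, rfl⟩

theorem KM_ctr [S.Strat] (h : S.Hyp) (A : Nm) : ((KM z hz).obj A).Ctr := KC_simplex_ctr h hz A.2

end Names

end HH
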