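import Pool.Agent.HH.GridB
import Pool.Agent.HH.Names
import Pool.Agent.HH.CmpTerm
import Pool.Agent.HH.OrdGlue

/-!
# HH part 3, GRID 3: the diagram of models over the labels of a grid

* `GridIn`: a map `h` from the cube to the realisation of `G` whose restrictions to the sets
  `X (i, ε)` come from maps to the realisations of free models on cells.
* `GridAp`: a grid approximation, with its lifts.
* `GridAp.V`: the diagram `GLab n N ⥤ RMod S`, `GridAp.cocone`, the maps `GridAp.b`.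
-/

set_option autoImplicit false

namespace HH

open Classical CategoryTheory

variable {S : Sig} [S.Good]

/-! ### Boundary inclusions of the free models on cells -/

/-- the boundary inclusion of the cell `(i, δ)` -/
def FDb (S : Sig) [S.Good] (i : ℕ) (δ : Bool) {j : ℕ} (h : i < j) : FD S i ⟶ FD S j :=
  cellHom (genB S j (i, δ) h) rfl

theorem FDb_succ (i : ℕ) (δ : Bool) : FDb S i δ (Nat.lt_succ_self i) = FDst S δ i := rfl

theorem FDb_gen (i : ℕ) (δ : Bool) {j : ℕ} (h : i < j) :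
    RHom.f (FDb S i δ h) (gen S i) = genB S j (i, δ) h := cellHom_gen _ _

theorem FD_bd_var (j : ℕ) (p q : D) :
    (FD S j).M.toGlob.bd (.var p : S.T D) q = .var (bdD p q) := by
  have h : ∀ (ε : Bool) (k : ℕ), (if ε then (FD S j).M.toGlob.tgt else (FD S j).M.toGlob.src)^[k]
      (.var p : S.T D) = .var ((if ε then (diskG j).tgt else (diskG j).src)^[k] p) := by
    intro ε k
    induction k with
    | zero => rfl
    | succ k ih =>
      rw [Function.iterate_succ_apply', Function.iterate_succ_apply', ih]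
      cases ε <;> rfl
  rw [← diskG_bd j]
  exact h q.2 _

theorem FDb_FDb {i j k : ℕ} (hij : i < j) (hjk : j < k) (δ ε : Bool) :
    FDb S i δ hij ≫ FDb S j ε hjk = FDb S i δ (hij.trans hjk) := by
  refine FD_hom_ext ?_
  rw [rhom_comp, FDb_gen, FDb_gen]
  show RHom.f (cellHom (genB S k (j, ε) hjk) rfl) ⟨.var (i, δ), _⟩ = _
  rw [cellHom_var]
  refine Subtype.ext ?_
  show (FD S k).M.toGlob.bd (.var (j, ε) : S.T D) (i, δ) = .var (i, δ)
  rw [FD_bd_var]
  unfold bdD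
  rw [if_pos hij]

/-! ### Faces of named simplices -/

variable {z : ZFam S} {hz : ZGood z}

theorem NS.face_eq {G : RMod S} {p q : NS z hz G} (h : p ≤ q) {B : Nm} (h1 : B ≤ p.A)
    (h2 : B ≤ q.A) : (KM z hz).map (homOfLE h1) ≫ p.g = (KM z hz).map (homOfLE h2) ≫ q.g := by
  obtain ⟨h3, h4⟩ := h
  rw [h4, ← Category.assoc, ← Functor.map_comp]
  rfl

theorem NS.map_A {G H : RMod S} (F : G ⟶ H) (p : NS z hz G) : (p.map F).A = p.A := rfl

theorem NS.map_g {G H : RMod S} (F : G ⟶ H) (p : NS z hz G) : (p.map F).g = p.g ≫ F := rfl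

theorem NS.le_iff {G : RMod S} {p q : NS z hz G} :
    p ≤ q ↔ ∃ h : p.A ≤ q.A, p.g = (KM z hz).map (homOfLE h) ≫ q.g := Iff.rfl

theorem NS.map_hinj {G H : RMod S} (F : G ⟶ H) (p q : NS z hz G) (h : p ≤ q)
    (he : p.map F = q.map F) : p = q := NS.map_inj F h le_rfl he

/-- the faces of `q` are determined by their sets of names -/
theorem NS.eq_of_le {G : RMod S} {p p' q : NS z hz G} (h : p ≤ q) (h' : p' ≤ q)
    (hA : p.A = p'.A) : p = p' := by
  obtain ⟨B, g⟩ := p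
  obtain ⟨B', g'⟩ := p'
  obtain ⟨h3, h4⟩ := NS.le_iff.1 h
  obtain ⟨h5, h6⟩ := NS.le_iff.1 h'
  have hA' : B = B' := hA
  subst hA'
  have : g = g' := h4.trans h6.symm
  rw [this]

theorem NS.face_comp {G : RMod S} {p : NS z hz G} {B C : Nm} (h : B ≤ C) (h' : C ≤ p.A) :
    (KM z hz).map (homOfLE h) ≫ (KM z hz).map (homOfLE h') ≫ p.g =
      (KM z hz).map (homOfLE (h.trans h')) ≫ p.g := by
  rw [← Category.assoc, ← Functor.map_comp]
  rfl

theorem KM_map_comp {A B C : Nm} (h : A ≤ B) (h' : B ≤ C) :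
    (KM z hz).map (homOfLE h) ≫ (KM z hz).map (homOfLE h') =
      (KM z hz).map (homOfLE (h.trans h')) := ((KM z hz).map_comp _ _).symm

/-- the map of realisations -/
noncomputable def Bm (z : ZFam S) (hz : ZGood z) {G H : RMod S} (F : G ⟶ H) :
    OrdCx (NS z hz G) → OrdCx (NS z hz H) := OrdCx.map (NS.map F) (NS.map_mono F)

theorem continuous_Bm {G H : RMod S} (F : G ⟶ H) : Continuous (Bm z hz F) :=
  OrdCx.continuous_map _ _

theorem Bm_comp {G H K : RMod S} (F : G ⟶ H) (F' : H ⟶ K) (t : OrdCx (NS z hz G)) :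
    Bm z hz (F ≫ F') t = Bm z hz F' (Bm z hz F t) :=
  (OrdCx.map_map _ (NS.map_mono F) _ (NS.map_mono F') t).symm

theorem Bm_id {G : RMod S} (t : OrdCx (NS z hz G)) : Bm z hz (𝟙 G) t = t :=
  OrdCx.map_id' t _ (NS.map_id G)

/-! ### The input -/

/-- the inclusion of `X (i, δ)` in `X (j, ε)` -/
def oIncl {n i j : ℕ} (h : i < j) (δ ε : Bool) (t : openX n i δ) : openX n j ε :=
  ⟨t.1, openX_mono h δ ε t.2⟩

theorem oIncl_val {n i j : ℕ} (h : i < j) (δ ε : Bool) (t : openX n i δ) :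
    (oIncl h δ ε t).1 = t.1 := rfl

/-- A map `h` from the cube to the realisation of `G` whose restrictions to the sets `X (i, ε)`
come from maps to the realisations of free models on cells. -/
structure GridIn (z : ZFam S) (hz : ZGood z) (G : RMod S) (n : ℕ) where
  u : (i : ℕ) → i < n → Bool → (FD S i ⟶ G)
  hu : ∀ (i j : ℕ) (hij : i < j) (hj : j < n) (δ ε : Bool),
    FDb S i δ hij ≫ u j hj ε = u i (hij.trans hj) δ
  h : Cube n → OrdCx (NS z hz G)
  hc : Continuous h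
  h0 : (i : ℕ) → i < n → (ε : Bool) → openX n i ε → OrdCx (NS z hz (FD S i))
  h0c : ∀ i hi ε, Continuous (h0 i hi ε)
  h0h : ∀ i hi ε t, Bm z hz (u i hi ε) (h0 i hi ε t) = h t.1
  h00 : ∀ (i j : ℕ) (hij : i < j) (hj : j < n) (δ ε : Bool) (t : openX n i δ),
    h0 j hj ε (oIncl hij δ ε t) = Bm z hz (FDb S i δ hij) (h0 i (hij.trans hj) δ t)

variable {G : RMod S} {n : ℕ}

/-- A grid approximation with its lifts. -/
structure GridAp (I : GridIn z hz G n) where
  N : ℕ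
  hN : 0 < N
  φ : (Fin n → ℕ) → NS z hz G
  H : GApp N (fun y : Cube n => y) φ I.h
  φ0 : (i : ℕ) → i < n → Bool → (Fin n → ℕ) → NS z hz (FD S i)
  H0 : ∀ i hi ε, GApp N (fun t : openX n i ε => t.1) (φ0 i hi ε) (I.h0 i hi ε)
  hφ : ∀ i hi ε v, v ∈ gvtx n N → (∃ t : openX n i ε, 0 < hat N v t.1) →
    NS.map (I.u i hi ε) (φ0 i hi ε v) = φ v

theorem exists_gridAp (I : GridIn z hz G n) : Nonempty (GridAp I) := by
  obtain ⟨N, hN, hN'⟩ := exists_gapp I.hc
  obtain ⟨φ, H⟩ := hN' N le_rfl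
  have key : ∀ (i : ℕ) (hi : i < n) (ε : Bool), ∃ φ0 : (Fin n → ℕ) → NS z hz (FD S i),
      GApp N (fun t : openX n i ε => t.1) φ0 (I.h0 i hi ε) ∧ ∀ v ∈ gvtx n N,
      (∃ t : openX n i ε, 0 < hat N v t.1) → NS.map (I.u i hi ε) (φ0 v) = φ v := by
    intro i hi ε
    have := contractible_openX hi ε
    have t0 : openX n i ε := Classical.arbitrary _
    have : Nonempty (NS z hz (FD S i)) := ⟨(OrdCx.exists_pos (I.h0 i hi ε t0)).choose⟩
    exact (H.pull (fun t : openX n i ε => t.1)).lift (NS.map (I.u i hi ε))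
      (NS.map_mono _) (fun p q => NS.map_hinj _ p q) (I.h0c i hi ε) (I.h0h i hi ε)
      (fun v hv => preconnected_star_openX hN hv)
  choose φ0 h1 h2 using key
  exact ⟨⟨N, hN, φ, H, φ0, h1, h2⟩⟩

namespace GridAp

variable {I : GridIn z hz G n} (A : GridAp I)

theorem φ00 {i j : ℕ} (hij : i < j) (hj : j < n) (δ ε : Bool) {v : Fin n → ℕ}
    (hv : v ∈ gvtx n A.N) (hne : ∃ t : openX n i δ, 0 < hat A.N v t.1) :
    NS.map (FDb S i δ hij) (A.φ0 i (hij.trans hj) δ v) = A.φ0 j hj ε v := by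
  have H0 : GApp A.N (fun t : openX n i δ => t.1)
      (fun v => NS.map (FDb S i δ hij) (A.φ0 i (hij.trans hj) δ v))
      (fun t => I.h0 j hj ε (oIncl hij δ ε t)) := by
    have := (A.H0 i (hij.trans hj) δ).map (NS.map (FDb S i δ hij)) (NS.map_mono _)
    intro t v hv h
    have h1 := this t v hv h
    exact lt_of_lt_of_eq h1 (congrArg (fun x : OrdCx (NS z hz (FD S j)) =>
      x.w (NS.map (FDb S i δ hij) (A.φ0 i (hij.trans hj) δ v))) (I.h00 i j hij hj δ ε t).symm)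
  have H1 : GApp A.N (fun t : openX n i δ => t.1) (A.φ0 j hj ε)
      (fun t => I.h0 j hj ε (oIncl hij δ ε t)) :=
    (A.H0 j hj ε).pull (fun t : openX n i δ => (oIncl hij δ ε t))
  refine GApp.lift_unique (f := NS.map (I.u j hj ε)) (fun p q => NS.map_hinj _ p q) H0 H1 hv hne ?_
  rw [← NS.map_comp, I.hu i j hij hj δ ε, A.hφ i (hij.trans hj) δ v hv hne]
  obtain ⟨t, ht⟩ := hne
  exact (A.hφ j hj ε v hv ⟨(oIncl hij δ ε t), ht⟩).symm

/-! ### Cells -/

theorem chain {d : Fin n → ℕ} (hd : ∀ i, d i ≤ 2 * A.N) :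
    ∀ v ∈ cvtx d, ∀ v' ∈ cvtx d, A.φ v ≤ A.φ v' ∨ A.φ v' ≤ A.φ v :=
  A.H.capp.chain_cell A.hN hd ⟨cctr A.N d, rfl⟩

theorem chain0 {d : Fin n → ℕ} (hd : ∀ i, d i ≤ 2 * A.N) {i : ℕ} (hi : i < n) {ε : Bool}
    (hx : inX A.N d i ε) :
    ∀ v ∈ cvtx d, ∀ v' ∈ cvtx d, A.φ0 i hi ε v ≤ A.φ0 i hi ε v' ∨ A.φ0 i hi ε v' ≤ A.φ0 i hi ε v :=
  (A.H0 i hi ε).capp.chain_cell A.hN hd
    ⟨⟨cctr A.N d, cellSet_subset_openX A.hN hx (cctr_mem A.hN hd)⟩, rfl⟩

theorem star {d : Fin n → ℕ} (hd : ∀ i, d i ≤ 2 * A.N) {i : ℕ} {ε : Bool}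
    (hx : inX A.N d i ε) {v : Fin n → ℕ} (hv : v ∈ cvtx d) :
    ∃ t : openX n i ε, 0 < hat A.N v t.1 :=
  ⟨⟨cctr A.N d, cellSet_subset_openX A.hN hx (cctr_mem A.hN hd)⟩, hat_cctr A.hN hd hv⟩

theorem map_cmax0 {d : Fin n → ℕ} (hd : ∀ i, d i ≤ 2 * A.N) {i : ℕ} (hi : i < n) {ε : Bool}
    (hx : inX A.N d i ε) :
    NS.map (I.u i hi ε) (cmax (A.φ0 i hi ε) d) = cmax A.φ d :=
  map_cmax (NS.map (I.u i hi ε)) (NS.map_mono _) (A.chain0 hd hi hx)
    (fun _ hv => (A.hφ i hi ε _ (cvtx_subset hd hv) (A.star hd hx hv)).symm)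

theorem map_cmax00 {d : Fin n → ℕ} (hd : ∀ i, d i ≤ 2 * A.N) {i j : ℕ} (hij : i < j) (hj : j < n)
    {δ : Bool} (ε : Bool) (hx : inX A.N d i δ) :
    NS.map (FDb S i δ hij) (cmax (A.φ0 i (hij.trans hj) δ) d) = cmax (A.φ0 j hj ε) d :=
  map_cmax (NS.map (FDb S i δ hij)) (NS.map_mono _) (A.chain0 hd (hij.trans hj) hx)
    (fun _ hv => (A.φ00 hij hj δ ε (cvtx_subset hd hv) (A.star hd hx hv)).symm)

theorem cmax_A {d : Fin n → ℕ} (hd : ∀ i, d i ≤ 2 * A.N) {i : ℕ} (hi : i < n) {ε : Bool}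
    (hx : inX A.N d i ε) : (cmax A.φ d).A = (cmax (A.φ0 i hi ε) d).A := by
  rw [← A.map_cmax0 hd hi hx]
  rfl

/-! ### The diagram -/

/-- the objects of the diagram -/
noncomputable def vobj : GLab n A.N → RMod S
  | .cell d _ => (KM z hz).obj (cmax A.φ d).A
  | .glo i _ _ => FD S i

/-- the morphisms of the diagram -/
noncomputable def vmap : (l l' : GLab n A.N) → l ≤ l' → (A.vobj l ⟶ A.vobj l')
  | .cell _ _, .cell _ h', h => (KM z hz).map (homOfLE (cmax_mono h (A.chain h')).1)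
  | .cell d hd, .glo i hi ε, h => (KM z hz).map (homOfLE (A.cmax_A hd hi h).le) ≫
      (cmax (A.φ0 i hi ε) d).g
  | .glo _ _ _, .cell _ _, h => h.elim
  | .glo i _ δ, .glo j _ _, h => if hij : i < j then FDb S i δ hij else
      eqToHom (congrArg (FD S) (h.resolve_left hij).1)

theorem vmap_cell {d d' : Fin n → ℕ} {hd : ∀ i, d i ≤ 2 * A.N} {hd' : ∀ i, d' i ≤ 2 * A.N}
    (h : (GLab.cell d hd : GLab n A.N) ≤ .cell d' hd') :
    A.vmap _ _ h = (KM z hz).map (homOfLE (cmax_mono h (A.chain hd')).1) := rfl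

theorem vmap_cell_glo {d : Fin n → ℕ} {hd : ∀ i, d i ≤ 2 * A.N} {i : ℕ} {hi : i < n} {ε : Bool}
    (h : (GLab.cell d hd : GLab n A.N) ≤ .glo i hi ε) :
    A.vmap _ _ h = (KM z hz).map (homOfLE (A.cmax_A hd hi h).le) ≫
      (cmax (A.φ0 i hi ε) d).g := rfl

theorem vmap_glo_lt {i j : ℕ} {hi : i < n} {hj : j < n} {δ ε : Bool}
    (h : (GLab.glo i hi δ : GLab n A.N) ≤ .glo j hj ε) (hij : i < j) :
    A.vmap _ _ h = FDb S i δ hij := by
  show (if hij : i < j then FDb S i δ hij else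
      eqToHom (congrArg (FD S) (h.resolve_left hij).1)) = _
  rw [dif_pos hij]

theorem vmap_self (l : GLab n A.N) (h : l ≤ l) : A.vmap l l h = 𝟙 (A.vobj l) := by
  cases l with
  | cell d hd => exact (KM z hz).map_id _
  | glo i hi δ =>
    show (if hij : i < i then FDb S i δ hij else
      eqToHom (congrArg (FD S) (h.resolve_left hij).1)) = _
    rw [dif_neg (lt_irrefl i)]
    rfl

theorem vmap_comp (l l' l'' : GLab n A.N) (h : l ≤ l') (h' : l' ≤ l'') :
    A.vmap l l' h ≫ A.vmap l' l'' h' = A.vmap l l'' (h.trans h') := by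
  rcases l'' with ⟨d'', hd''⟩ | ⟨k, hk, η⟩
  · rcases l' with ⟨d', hd'⟩ | ⟨j, hj, ε⟩
    · rcases l with ⟨d, hd⟩ | ⟨i, hi, δ⟩
      · exact KM_map_comp _ _
      · exact (h : False).elim
    · exact (h' : False).elim
  · rcases l' with ⟨d', hd'⟩ | ⟨j, hj, ε⟩
    · rcases l with ⟨d, hd⟩ | ⟨i, hi, δ⟩
      · exact (NS.face_comp _ _).trans (NS.face_eq (cmax_mono h (A.chain0 hd' hk h')) _ _).symm
      · exact (h : False).elim
    · have h1 : j < k ∨ (j = k ∧ ε = η) := h'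
      rcases h1 with h1 | ⟨rfl, rfl⟩
      · rcases l with ⟨d, hd⟩ | ⟨i, hi, δ⟩
        · rw [A.vmap_glo_lt h' h1]
          have e := A.map_cmax00 hd h1 hk η h
          exact (Category.assoc _ _ _).trans (NS.face_eq e.le _ _)
        · have h2 : i < j ∨ (i = j ∧ δ = ε) := h
          rcases h2 with h2 | ⟨rfl, rfl⟩
          · rw [A.vmap_glo_lt h h2, A.vmap_glo_lt h' h1, A.vmap_glo_lt (h.trans h') (h2.trans h1)]
            exact FDb_FDb h2 h1 δ ε
          · rw [A.vmap_self _ h, Category.id_comp]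
      · rw [A.vmap_self _ h', Category.comp_id]

/-- **The diagram of models.** -/
noncomputable def V : GLab n A.N ⥤ RMod S where
  obj := A.vobj
  map {l l'} h := A.vmap l l' (leOfHom h)
  map_id l := A.vmap_self l _
  map_comp {l l' l''} h h' := (A.vmap_comp l l' l'' (leOfHom h) (leOfHom h')).symm

theorem V_glo (i : ℕ) (hi : i < n) (ε : Bool) : A.V.obj (.glo i hi ε) = FD S i := rfl

theorem V_map_glo {i j : ℕ} (hi : i < n) (hj : j < n) (δ ε : Bool) (hij : i < j)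
    (h : (GLab.glo i hi δ : GLab n A.N) ≤ .glo j hj ε) :
    A.V.map (homOfLE h) = FDb S i δ hij := A.vmap_glo_lt h hij

/-- the morphisms to `G` -/
noncomputable def vι : (l : GLab n A.N) → (A.vobj l ⟶ G)
  | .cell d _ => (cmax A.φ d).g
  | .glo i hi ε => I.u i hi ε

theorem vι_nat (l l' : GLab n A.N) (h : l ≤ l') : A.vmap l l' h ≫ A.vι l' = A.vι l := by
  rcases l' with ⟨d', hd'⟩ | ⟨j, hj, ε⟩
  · rcases l with ⟨d, hd⟩ | ⟨i, hi, δ⟩
    · exact (cmax_mono h (A.chain hd')).2.symm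
    · exact (h : False).elim
  · rcases l with ⟨d, hd⟩ | ⟨i, hi, δ⟩
    · have e := A.map_cmax0 hd hj h
      have := NS.face_eq e.le (A.cmax_A hd hj h).le le_rfl
      refine (Category.assoc _ _ _).trans (this.trans ?_)
      exact (congrArg (· ≫ (cmax A.φ d).g) ((KM z hz).map_id _)).trans (Category.id_comp _)
    · have h2 : i < j ∨ (i = j ∧ δ = ε) := h
      rcases h2 with h2 | ⟨rfl, rfl⟩
      · rw [A.vmap_glo_lt h h2]
        exact I.hu i j h2 hj δ ε
      · rw [A.vmap_self _ h, Category.id_comp]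

/-- **The cocone.** -/
noncomputable def cocone : Limits.Cocone A.V where
  pt := G
  ι :=
    { app := A.vι
      naturality := fun l l' h => (A.vι_nat l l' (leOfHom h)).trans (Category.comp_id _).symm }

theorem cocone_glo (i : ℕ) (hi : i < n) (ε : Bool) :
    A.cocone.ι.app (.glo i hi ε) = I.u i hi ε := rfl

/-- **contractibility of the diagram** -/
theorem V_ctr [S.Strat] (hS : S.Hyp) (l : GLab n A.N) : (A.V.obj l).Ctr := by
  rcases l with ⟨d, hd⟩ | ⟨i, hi, ε⟩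
  · exact KM_ctr (hz := hz) hS _
  · refine ⟨?_, hS _ (ArCl.disk i)⟩
    rcases Nat.eq_zero_or_pos i with h | h
    · subst h
      exact ⟨.var (0, false), Or.inr ⟨rfl, rfl⟩, rfl⟩
    · exact ⟨.var (0, false), Or.inl h, rfl⟩

/-! ### The spaces and the maps -/

/-- the closed subsets of the cube -/
def XS (n N : ℕ) : GLab n N → Set (Cube n)
  | .cell d _ => cellSet N d
  | .glo i _ ε => openX n i ε

theorem XS_mono {N : ℕ} (hN : 0 < N) (l l' : GLab n N) (h : l ≤ l') : XS n N l ⊆ XS n N l' := by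
  rcases l' with ⟨d', hd'⟩ | ⟨j, hj, ε⟩
  · rcases l with ⟨d, hd⟩ | ⟨i, hi, δ⟩
    · exact cellSet_mono h
    · exact (h : False).elim
  · rcases l with ⟨d, hd⟩ | ⟨i, hi, δ⟩
    · exact cellSet_subset_openX hN h
    · have h2 : i < j ∨ (i = j ∧ δ = ε) := h
      rcases h2 with h2 | ⟨rfl, rfl⟩
      · exact openX_mono h2 δ ε
      · exact subset_rfl

/-- the inclusions of the closed subsets -/
def xincl (l l' : GLab n A.N) (h : l ≤ l') (t : XS n A.N l) : XS n A.N l' :=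
  ⟨t.1, XS_mono A.hN l l' h t.2⟩

theorem continuous_xincl (l l' : GLab n A.N) (h : l ≤ l') : Continuous (A.xincl l l' h) :=
  Continuous.subtype_mk continuous_subtype_val _

theorem XS_contractible {N : ℕ} (hN : 0 < N) (l : GLab n N) : ContractibleSpace (XS n N l) := by
  rcases l with ⟨d, hd⟩ | ⟨i, hi, ε⟩
  · exact contractible_cellSet hN hd
  · exact contractible_openX hi ε

/-- the vertex maps -/
noncomputable def vφ : (l : GLab n A.N) → (Fin n → ℕ) → NS z hz (A.vobj l)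
  | .cell d _ => fun v => if h : (A.φ v).A ≤ (cmax A.φ d).A then (cmax A.φ d).lift h
      else (cmax A.φ d).lift le_rfl
  | .glo i hi ε => A.φ0 i hi ε

theorem vφ_cell {d : Fin n → ℕ} {hd : ∀ i, d i ≤ 2 * A.N} {v : Fin n → ℕ}
    (h : (A.φ v).A ≤ (cmax A.φ d).A) : A.vφ (.cell d hd) v = (cmax A.φ d).lift h := by
  show (if h : (A.φ v).A ≤ (cmax A.φ d).A then (cmax A.φ d).lift h
      else (cmax A.φ d).lift le_rfl) = _
  rw [dif_pos h]

/-- vertices with non-empty star in the subset with label `l` -/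
def Adm {N : ℕ} (l : GLab n N) (v : Fin n → ℕ) : Prop :=
  v ∈ gvtx n N ∧ ∃ t : XS n N l, 0 < hat N v t.1

theorem Adm.mem_cell {d : Fin n → ℕ} {hd : ∀ i, d i ≤ 2 * A.N} {v : Fin n → ℕ}
    (h : Adm (.cell d hd : GLab n A.N) v) : v ∈ cvtx d := by
  obtain ⟨-, t, ht⟩ := h
  exact mem_cvtx_of_hat t.2 ht

theorem φ_le_cmax {d : Fin n → ℕ} (hd : ∀ i, d i ≤ 2 * A.N) {v : Fin n → ℕ} (hv : v ∈ cvtx d) :
    A.φ v ≤ cmax A.φ d := (cmax_spec (A.chain hd)).2 v hv

theorem NS.le_A {G : RMod S} {p q : NS z hz G} (h : p ≤ q) : p.A ≤ q.A := h.1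

theorem vφ_cell' {d : Fin n → ℕ} {hd : ∀ i, d i ≤ 2 * A.N} {v : Fin n → ℕ} (hv : v ∈ cvtx d) :
    A.vφ (.cell d hd) v = (cmax A.φ d).lift (NS.le_A (A.φ_le_cmax hd hv)) :=
  A.vφ_cell _

/-- **naturality of the vertex maps** -/
theorem vφ_nat (l l' : GLab n A.N) (h : l ≤ l') {v : Fin n → ℕ} (hv : Adm l v) :
    NS.map (A.vmap l l' h) (A.vφ l v) = A.vφ l' v := by
  rcases l' with ⟨d', hd'⟩ | ⟨j, hj, ε⟩
  · rcases l with ⟨d, hd⟩ | ⟨i, hi, δ⟩
    · have h1 := hv.mem_cell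
      rw [A.vφ_cell' h1, A.vφ_cell' (cvtx_mono h h1)]
      exact congrArg (NS.mk (A.φ v).A) (KM_map_comp (NS.le_A (A.φ_le_cmax hd h1)) _)
    · exact (h : False).elim
  · rcases l with ⟨d, hd⟩ | ⟨i, hi, δ⟩
    · have h1 := hv.mem_cell
      rw [A.vφ_cell' h1]
      have hx : inX A.N d j ε := h
      have hle : A.φ0 j hj ε v ≤ cmax (A.φ0 j hj ε) d := (cmax_spec (A.chain0 hd hj hx)).2 v h1
      have hA : (A.φ0 j hj ε v).A = (A.φ v).A := by
        rw [← A.hφ j hj ε v hv.1 (A.star hd hx h1)]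
        rfl
      have h2 : (A.φ v).A ≤ (cmax (A.φ0 j hj ε) d).A := hA ▸ NS.le_A hle
      have e1 : NS.map (A.vmap (.cell d hd) (.glo j hj ε) h)
          ((cmax A.φ d).lift (NS.le_A (A.φ_le_cmax hd h1))) =
          ⟨(A.φ v).A, (KM z hz).map (homOfLE h2) ≫ (cmax (A.φ0 j hj ε) d).g⟩ :=
        congrArg (NS.mk (A.φ v).A) (NS.face_comp (NS.le_A (A.φ_le_cmax hd h1)) _)
      rw [e1]
      exact NS.eq_of_le (q := cmax (A.φ0 j hj ε) d) ⟨h2, rfl⟩ hle hA.symm
    · have h2 : i < j ∨ (i = j ∧ δ = ε) := h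
      rcases h2 with h2 | ⟨rfl, rfl⟩
      · rw [A.vmap_glo_lt h h2]
        exact A.φ00 h2 hj δ ε hv.1 hv.2
      · rw [A.vmap_self _ h]
        exact NS.map_id _ _

/-- the vertex maps over `G` -/
theorem vφ_ι (l : GLab n A.N) {v : Fin n → ℕ} (hv : Adm l v) :
    NS.map (A.vι l) (A.vφ l v) = A.φ v := by
  rcases l with ⟨d, hd⟩ | ⟨i, hi, δ⟩
  · rw [A.vφ_cell' hv.mem_cell]
    exact NS.lift_map (A.φ_le_cmax hd hv.mem_cell)
  · exact A.hφ i hi δ v hv.1 hv.2

theorem vcapp (l : GLab n A.N) : CApp A.N (fun t : XS n A.N l => t.1) (A.vφ l) := by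
  rcases l with ⟨d, hd⟩ | ⟨i, hi, δ⟩
  · intro t v v' hv hv' h h'
    have h1 : v ∈ cvtx d := mem_cvtx_of_hat t.2 h
    have h2 : v' ∈ cvtx d := mem_cvtx_of_hat t.2 h'
    rw [A.vφ_cell' h1, A.vφ_cell' h2]
    rcases A.chain hd v h1 v' h2 with h3 | h3
    · exact Or.inl (NS.lift_mono _ _ _ (NS.le_A h3))
    · exact Or.inr (NS.lift_mono _ _ _ (NS.le_A h3))
  · exact (A.H0 i hi δ).capp

/-- **the maps to the realisations of the diagram** -/
noncomputable def b (l : GLab n A.N) (t : XS n A.N l) : OrdCx (NS z hz (A.V.obj l)) :=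
  bar (A.vcapp l) t

theorem continuous_b (l : GLab n A.N) : Continuous (A.b l) :=
  continuous_bar (A.vcapp l) continuous_subtype_val

/-- the global map -/
noncomputable def bG (t : Cube n) : OrdCx (NS z hz G) := bar A.H.capp t

theorem continuous_bG : Continuous A.bG := continuous_bar A.H.capp continuous_id

theorem b_nat (l l' : GLab n A.N) (h : l ≤ l') (t : XS n A.N l) :
    Bm z hz (A.V.map (homOfLE h)) (A.b l t) = A.b l' (A.xincl l l' h t) := by
  refine (map_bar (NS.map (A.vmap l l' h)) (NS.map_mono _)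
    (H' := (A.vcapp l).comp _ (NS.map_mono _))).trans ?_
  exact bar_congr rfl fun v hv h1 => A.vφ_nat l l' h ⟨hv, t, h1⟩

theorem b_ι (l : GLab n A.N) (t : XS n A.N l) :
    Bm z hz (A.cocone.ι.app l) (A.b l t) = A.bG t.1 := by
  refine (map_bar (NS.map (A.vι l)) (NS.map_mono _)
    (H' := (A.vcapp l).comp _ (NS.map_mono _))).trans ?_
  exact bar_congr rfl fun v hv h1 => A.vφ_ι l ⟨hv, t, h1⟩

/-! ### The homotopies -/

/-- the homotopy from `h` to `bG` -/
noncomputable def K (x : Cube n × unitInterval) : OrdCx (NS z hz G) := A.H.htpy x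

theorem continuous_K : Continuous A.K := A.H.continuous_htpy continuous_id I.hc

theorem K_zero (t : Cube n) : A.K (t, 0) = I.h t := A.H.htpy_zero t

theorem K_one (t : Cube n) : A.K (t, 1) = A.bG t := A.H.htpy_one t

/-- the homotopies from `h0` to `b` -/
noncomputable def K0 (i : ℕ) (hi : i < n) (ε : Bool) (x : openX n i ε × unitInterval) :
    OrdCx (NS z hz (FD S i)) := (A.H0 i hi ε).htpy x

instance (i : ℕ) (ε : Bool) : CompactSpace (openX n i ε) :=
  isCompact_iff_compactSpace.1 (isClosed_openX n i ε).isCompact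

theorem continuous_K0 (i : ℕ) (hi : i < n) (ε : Bool) : Continuous (A.K0 i hi ε) :=
  (A.H0 i hi ε).continuous_htpy continuous_subtype_val (I.h0c i hi ε)

theorem K0_zero (i : ℕ) (hi : i < n) (ε : Bool) (t : openX n i ε) :
    A.K0 i hi ε (t, 0) = I.h0 i hi ε t := (A.H0 i hi ε).htpy_zero t

theorem K0_one (i : ℕ) (hi : i < n) (ε : Bool) (t : openX n i ε) :
    A.K0 i hi ε (t, 1) = A.b (.glo i hi ε) t := (A.H0 i hi ε).htpy_one t

theorem K0_nat (i j : ℕ) (hij : i < j) (hj : j < n) (δ ε : Bool)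
    (x : openX n i δ × unitInterval) :
    Bm z hz (FDb S i δ hij) (A.K0 i (hij.trans hj) δ x) = A.K0 j hj ε (oIncl hij δ ε x.1, x.2) := by
  have H1 : GApp A.N (fun t : openX n i δ => t.1) (A.φ0 j hj ε)
      (fun t => I.h0 j hj ε (oIncl hij δ ε t)) := (A.H0 j hj ε).pull (oIncl hij δ ε)
  exact (A.H0 i (hij.trans hj) δ).map_htpy (NS.map (FDb S i δ hij)) (NS.map_mono _) H1 x
    (I.h00 i j hij hj δ ε x.1).symm fun v hv h1 => A.φ00 hij hj δ ε hv ⟨x.1, h1⟩

theorem K0_ι (i : ℕ) (hi : i < n) (ε : Bool) (x : openX n i ε × unitInterval) :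
    Bm z hz (I.u i hi ε) (A.K0 i hi ε x) = A.K (x.1.1, x.2) := by
  have H1 : GApp A.N (fun t : openX n i ε => t.1) A.φ (fun t => I.h t.1) :=
    A.H.pull (fun t : openX n i ε => t.1)
  exact (A.H0 i hi ε).map_htpy (NS.map (I.u i hi ε)) (NS.map_mono _) H1 x
    (I.h0h i hi ε x.1) fun v hv h1 => A.hφ i hi ε v hv ⟨x.1, h1⟩

end GridAp

end HH
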