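import Pool.Agent.HH.Trans0
import Pool.Agent.HH.DiskOp
import Pool.Agent.HH.InsG
import Pool.Agent.HH.Retract

/-!
# HH part 3, section 6 (HOM), first half

Connectedness is an equivalence relation in the models of a contractible signature; transport of a
cell along a cylinder over a sphere, its compatibility with connectedness, and reverse transport.
-/

set_option autoImplicit false

namespace HH

open Classical

variable {S : Sig}

/-! ### Connectedness -/

theorem Glob.Conn.ok_left {G : Glob} [G.Laws] {x y : G.C} (h : G.Conn x y) : G.ok x := by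
  obtain ⟨k, k1, k2, k3, k4⟩ := h
  rw [← k3]
  exact Glob.Laws.ok_src k k1 (by omega)

theorem Glob.Conn.ok_right {G : Glob} [G.Laws] {x y : G.C} (h : G.Conn x y) : G.ok y := by
  obtain ⟨k, k1, k2, k3, k4⟩ := h
  rw [← k4]
  exact Glob.Laws.ok_tgt k k1 (by omega)

theorem Glob.Conn.dim_eq {G : Glob} [G.Laws] {x y : G.C} (h : G.Conn x y) : G.dim x = G.dim y := by
  obtain ⟨k, k1, k2, k3, k4⟩ := h
  have h1 := Glob.Laws.dim_tgt k k1 (by omega)
  rw [k4] at h1
  omega

theorem Glob.Conn.par {G : Glob} [G.Laws] {x y : G.C} (h : G.Conn x y) : G.Par x y := by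
  refine ⟨h.ok_left, h.ok_right, h.dim_eq, fun h0 => ?_⟩
  obtain ⟨k, k1, k2, k3, k4⟩ := h
  have e1 := Glob.Laws.src_tgt k k1 (by omega)
  have e2 := Glob.Laws.tgt_src k k1 (by omega)
  rw [k3, k4] at e1 e2
  exact ⟨e1.symm, e2⟩

theorem conn_symm (h : S.Hyp) {M : Model S} [M.OpLaws] [M.toGlob.Laws] {x y : M.C}
    (hc : M.toGlob.Conn x y) : M.toGlob.Conn y x := by
  obtain ⟨iv, hiv⟩ := exists_isInv h (M.dim x)
  have hd := hc.dim_eq
  obtain ⟨k, k1, k2, k3, k4⟩ := hc
  obtain ⟨a1, a2, a3, a4⟩ := atCell_inv hiv k1 k2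
  exact ⟨_, a1, by rw [a2, ← hd], a3.trans k4, a4.trans k3⟩

theorem conn_trans (h : S.Hyp) {M : Model S} [M.OpLaws] [M.toGlob.Laws] {x y z : M.C}
    (hxy : M.toGlob.Conn x y) (hyz : M.toGlob.Conn y z) : M.toGlob.Conn x z := by
  obtain ⟨hx, hy, hd1, hp1⟩ := hxy.par
  obtain ⟨-, hz, hd2, hp2⟩ := hyz.par
  obtain ⟨u, u1, u2, u3, u4⟩ := exists_unit h hz
  obtain ⟨k, k1, k2, k3, k4⟩ := hxy
  obtain ⟨l, l1, l2, l3, l4⟩ := hyz
  obtain ⟨n, hn⟩ : ∃ n, n = M.dim x := ⟨_, rfl⟩
  -- the term connecting the ends of a chain of length two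
  obtain ⟨t, t1, t2, t3, t4⟩ := h (insG (diskG (n + 1)) n) (.ins _ _ (.disk _)) (n + 1)
    (.var (.z (n, false))) (.var (.z (n, true)))
    ⟨Or.inl (Nat.lt_succ_self n), Or.inl (Nat.lt_succ_self n), rfl, fun _ => by
      have hne : ¬ n = n + 1 := by omega
      constructor
      · change Tm.var (if n = n + 1 then _ else _) = Tm.var (if n = n + 1 then _ else _)
        rw [if_neg hne, if_neg hne]
        rfl
      · rfl⟩ (Nat.lt_succ_self n)
  obtain ⟨γ, hγ⟩ : ∃ γ : CV D D → M.C, γ = CV.elim
      (fun q => if q.1 < n then M.toGlob.bd x q else if q.1 = n then (if q.2 then z else x) else l)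
      (fun q => if q.2 then z else y) (fun q => if q.2 then u else k) := ⟨_, rfl⟩
  have hbd : ∀ q : D, q.1 < n → ∀ w, M.toGlob.Par x w → M.toGlob.bd w q = M.toGlob.bd x q :=
    fun q hq w hw => (Par.bd_eq hw (by omega)).symm
  have hsrc : ∀ w, M.toGlob.Par x w → 0 < n → M.src w = M.toGlob.bd x (n - 1, false) := by
    intro w hw h0
    rw [← hbd _ (by change n - 1 < n; omega) w hw]
    have hwd : M.dim w = n := by rw [hn]; exact hw.2.2.1.symm
    rw [← hwd]
    exact (bd_pred_false (G := M.toGlob) (x := w) (by omega)).symm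
  have htgt : ∀ w, M.toGlob.Par x w → 0 < n → M.tgt w = M.toGlob.bd x (n - 1, true) := by
    intro w hw h0
    rw [← hbd _ (by change n - 1 < n; omega) w hw]
    have hwd : M.dim w = n := by rw [hn]; exact hw.2.2.1.symm
    rw [← hwd]
    exact (bd_pred_true (G := M.toGlob) (x := w) (by omega)).symm
  have pxx : M.toGlob.Par x x := ⟨hx, hx, rfl, fun _ => ⟨rfl, rfl⟩⟩
  have pxy : M.toGlob.Par x y := ⟨hx, hy, hd1, hp1⟩
  have pxz : M.toGlob.Par x z := ⟨hx, hz, hd1.trans hd2, fun h0 => by
    have := hp1 h0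
    have := hp2 (by omega)
    constructor
    · exact (hp1 h0).1.trans this.1
    · exact (hp1 h0).2.trans this.2⟩
  have hasg : ∀ v, (ofGlob S (insG (diskG (n + 1)) n)).ok v →
      AsgAt (ofGlob S (insG (diskG (n + 1)) n)) M γ v := by
    intro v hv
    rw [hγ]
    rcases v with q | q | q
    · have hq : q.1 < n + 1 ∨ (q.1 = n + 1 ∧ q.2 = false) := hv
      obtain ⟨i, ε⟩ := q
      simp only at hq
      rcases hq with hq | ⟨rfl, rfl⟩
      · rcases Nat.lt_or_ge i n with hi | hi
        · -- lower cells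
          have hne : ¬ i = n + 1 := by omega
          refine ⟨?_, ?_, fun h0 => ⟨?_, ?_⟩⟩
          · change M.ok (if i < n then _ else _)
            rw [if_pos hi]
            exact ok_bd hx _
          · change M.dim (if i < n then _ else _) = i
            rw [if_pos hi]
            exact dim_bd hx (q := (i, ε)) (by change i ≤ M.dim x; omega)
          · have h0' : 0 < i := h0
            change M.src (if i < n then _ else _) = M.eval _ (Tm.var (if i = n + 1 then _ else _))
            rw [if_pos hi, if_neg hne]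
            change _ = (if i - 1 < n then _ else _)
            rw [if_pos (by omega)]
            exact src_bd hx (q := (i, ε)) (by change i ≤ M.dim x; omega) h0'
          · have h0' : 0 < i := h0
            change M.tgt (if i < n then _ else _) = (if i - 1 < n then _ else _)
            rw [if_pos hi, if_pos (by omega)]
            exact tgt_bd hx (q := (i, ε)) (by change i ≤ M.dim x; omega) h0'
        · -- dimension `n`
          obtain rfl : i = n := by omega
          have hne : ¬ i = i + 1 := by omega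
          have hval : (if i < i then M.toGlob.bd x (i, ε) else
              if i = i then (if ε then z else x) else l) = if ε then z else x := by
            rw [if_neg (lt_irrefl _), if_pos rfl]
          have hpar : M.toGlob.Par x (if ε then z else x) := by
            cases ε
            · exact pxx
            · exact pxz
          refine ⟨?_, ?_, fun h0 => ⟨?_, ?_⟩⟩
          · change M.ok (if i < i then _ else _)
            rw [hval]
            exact hpar.2.1
          · change M.dim (if i < i then _ else _) = i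
            rw [hval, hn]
            exact hpar.2.2.1.symm
          · have h0' : 0 < i := h0
            change M.src (if i < i then _ else _) = M.eval _ (Tm.var (if i = i + 1 then _ else _))
            rw [hval, if_neg hne]
            change _ = (if i - 1 < i then _ else _)
            rw [if_pos (show i - 1 < i by omega)]
            exact hsrc _ hpar h0'
          · have h0' : 0 < i := h0
            change M.tgt (if i < i then _ else _) = (if i - 1 < i then _ else _)
            rw [hval, if_pos (show i - 1 < i by omega)]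
            exact htgt _ hpar h0'
      · -- the cell of dimension `n + 1`
        have h1 : ¬ n + 1 < n := by omega
        have h2 : ¬ n + 1 = n := by omega
        refine ⟨?_, ?_, fun h0 => ⟨?_, ?_⟩⟩
        · change M.ok (if n + 1 < n then _ else if n + 1 = n then _ else l)
          rw [if_neg h1, if_neg h2]
          exact l1
        · change M.dim (if n + 1 < n then _ else if n + 1 = n then _ else l) = n + 1
          rw [if_neg h1, if_neg h2, l2, hn, hd1]
        · change M.src (if n + 1 < n then _ else if n + 1 = n then _ else l) =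
            M.eval _ (Tm.var (if n + 1 = n + 1 then _ else _))
          rw [if_neg h1, if_neg h2, if_pos rfl, l3]
          rfl
        · change M.tgt (if n + 1 < n then _ else if n + 1 = n then _ else l) =
            (if n < n then _ else if n = n then (if true then z else x) else l)
          rw [if_neg h1, if_neg h2, if_neg (lt_irrefl _), if_pos rfl, l4]
          rfl
    · -- `top`
      obtain ⟨hq1, hq2⟩ : (diskG (n + 1)).ok q ∧ q.1 = n := hv
      obtain ⟨i, ε⟩ := q
      simp only at hq2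
      subst hq2
      have hpar : M.toGlob.Par x (if ε then z else y) := by
        cases ε
        · exact pxy
        · exact pxz
      refine ⟨hpar.2.1, ?_, fun h0 => ⟨?_, ?_⟩⟩
      · change M.dim (if ε then z else y) = i
        rw [hn]
        exact hpar.2.2.1.symm
      · have h0' : 0 < i := h0
        change M.src (if ε then z else y) = (if i - 1 < i then _ else _)
        rw [if_pos (show i - 1 < i by omega)]
        exact hsrc _ hpar h0'
      · have h0' : 0 < i := h0
        change M.tgt (if ε then z else y) = (if i - 1 < i then _ else _)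
        rw [if_pos (show i - 1 < i by omega)]
        exact htgt _ hpar h0'
    · -- `cyl`
      obtain ⟨hq1, hq2⟩ : (diskG (n + 1)).ok q ∧ q.1 = n := hv
      obtain ⟨i, ε⟩ := q
      simp only at hq2
      subst hq2
      cases ε
      · refine ⟨k1, k2.trans (by rw [← hn]; rfl), fun _ => ⟨?_, ?_⟩⟩
        · change M.src k = (if i < i then _ else if i = i then (if false then z else x) else l)
          rw [if_neg (lt_irrefl _), if_pos rfl, k3]
          rfl
        · exact k4
      · refine ⟨u1, u2.trans (by rw [← hd2, ← hd1, ← hn]; rfl), fun _ => ⟨?_, ?_⟩⟩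
        · change M.src u = (if i < i then _ else if i = i then (if true then z else x) else l)
          rw [if_neg (lt_irrefl _), if_pos rfl, u3]
          rfl
        · exact u4
  obtain ⟨m1, m2, m3⟩ := eval_mapAt hasg t t1
  have t2' : (ofGlob S (insG (diskG (n + 1)) n)).tdim t = n + 1 := t2
  obtain ⟨m4, m5⟩ := m3 (lt_of_lt_of_eq (Nat.succ_pos _) t2'.symm)
  have ez : ∀ ε : Bool, γ (.z (n, ε)) = if ε then z else x := by
    intro ε
    rw [hγ]
    change (if n < n then _ else if n = n then (if ε then z else x) else l) = _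
    rw [if_neg (lt_irrefl _), if_pos rfl]
  refine ⟨M.eval γ t, m1, ?_, ?_, ?_⟩
  · rw [← hn]
    exact m2.trans t2'
  · exact m4.trans ((congrArg (M.eval γ) t3).trans (ez false))
  · exact m5.trans ((congrArg (M.eval γ) t4).trans (ez true))

/-! ### Spheres -/

/-- The sphere of dimension `n`: cells `(i, ε)` with `i ≤ n`. -/
def sphG (n : ℕ) : Glob where
  C := D
  dim := fun q => q.1
  src := fun q => (q.1 - 1, false)
  tgt := fun q => (q.1 - 1, true)
  ok := fun q => q.1 ≤ n

instance sphG_laws (n : ℕ) : (sphG n).Laws where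
  ok_src := by
    rintro ⟨i, ε⟩ h h0
    simp only [sphG] at *
    omega
  ok_tgt := by
    rintro ⟨i, ε⟩ h h0
    simp only [sphG] at *
    omega
  dim_src := by
    rintro ⟨i, ε⟩ h h0
    simp only [sphG] at *
    omega
  dim_tgt := by
    rintro ⟨i, ε⟩ h h0
    simp only [sphG] at *
    omega
  src_tgt := by
    rintro ⟨i, ε⟩ h h0
    rfl
  tgt_src := by
    rintro ⟨i, ε⟩ h h0
    rfl

theorem sphG_bd (n : ℕ) (q r : D) : (sphG n).bd q r = bdD q r := diskG_bd n q r

theorem sphG_par (n : ℕ) : (sphG n).Par (n, false) (n, true) :=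
  ⟨le_refl n, le_refl n, rfl, fun _ => ⟨rfl, rfl⟩⟩

/-- extension of a function on a sphere of dimension `n` by two cells of dimension `n + 1` -/
def extS {C : Type} (n : ℕ) (α : D → C) (k : Bool → C) : D → C :=
  fun q => if q.1 ≤ n then α q else k q.2

theorem extS_le {C : Type} {n : ℕ} {α : D → C} {k : Bool → C} {q : D} (h : q.1 ≤ n) :
    extS n α k q = α q := if_pos h

theorem extS_gt {C : Type} {n : ℕ} {α : D → C} {k : Bool → C} {q : D} (h : n < q.1) :
    extS n α k q = k q.2 := if_neg (by omega)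

/-- transport of a cell along a cylinder over a sphere of dimension `n` -/
def csT (x : XFam S) (n : ℕ) (M : Model S) (α β e : D → M.C) (k : M.C) : M.C :=
  M.eval (CV.elim (fun q => if q.1 ≤ n then α q else k) β e) (x (n + 1))

theorem cs_eq_csT {x : XFam S} {n : ℕ} (hx : XGoodAt x 0 (n + 1)) {M : Model S} {W : Glob}
    {p : W.C} (hp : W.dim p = n + 1) {α' β' e' : W.C → M.C} {α β e : D → M.C} {k : M.C}
    (hα : ∀ q : D, q.1 ≤ n → α' (W.bd p q) = α q) (hk : α' p = k)
    (hβ : ∀ q : D, q.1 ≤ n → β' (W.bd p q) = β q)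
    (he : ∀ q : D, q.1 ≤ n → e' (W.bd p q) = e q) :
    cs M x W α' β' e' p = csT x n M α β e k := by
  unfold cs csT
  rw [hp]
  refine eval_congr (X := CylG x (diskG (n + 1)) 0 (n + 1)) (x (n + 1)) hx.1 ?_
  intro v hv
  cases v with
  | z q =>
    have hq : q.1 < n + 1 ∨ (q.1 = n + 1 ∧ q.2 = false) := hv
    rcases hq with hq | ⟨hq, -⟩
    · change α' (W.bd p q) = if q.1 ≤ n then α q else k
      rw [if_pos (by omega)]
      exact hα q (by omega)
    · change α' (W.bd p q) = if q.1 ≤ n then α q else k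
      rw [if_neg (by omega), bd_of_le p q (by omega)]
      exact hk
  | top q =>
    obtain ⟨-, -, h2⟩ := hv
    exact hβ q (Nat.lt_succ_iff.1 h2)
  | cyl q =>
    obtain ⟨-, -, h2⟩ := hv
    exact he q (Nat.lt_succ_iff.1 h2)

theorem csT_congr {x : XFam S} {n : ℕ} (hx : XGoodAt x 0 (n + 1)) {M : Model S}
    {α' β' e' α β e : D → M.C} {k : M.C} (hα : ∀ q : D, q.1 ≤ n → α' q = α q)
    (hβ : ∀ q : D, q.1 ≤ n → β' q = β q) (he : ∀ q : D, q.1 ≤ n → e' q = e q) :
    csT x n M α' β' e' k = csT x n M α β e k := by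
  unfold csT
  refine eval_congr (X := CylG x (diskG (n + 1)) 0 (n + 1)) (x (n + 1)) hx.1 ?_
  intro v hv
  cases v with
  | z q =>
    change (if q.1 ≤ n then α' q else k) = if q.1 ≤ n then α q else k
    by_cases hq : q.1 ≤ n
    · rw [if_pos hq, if_pos hq, hα q hq]
    · rw [if_neg hq, if_neg hq]
  | top q =>
    obtain ⟨-, -, h2⟩ := hv
    exact hβ q (Nat.lt_succ_iff.1 h2)
  | cyl q =>
    obtain ⟨-, -, h2⟩ := hv
    exact he q (Nat.lt_succ_iff.1 h2)

theorem bdD_le {n : ℕ} {q : D} (h : q.1 ≤ n + 1) {r : D} (hr : r.1 ≤ n) (hq : n + 1 ≤ q.1) :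
    bdD q r = r := by
  unfold bdD
  rw [if_pos (by omega)]

theorem mapAt_extS {G : Glob} {n : ℕ} {α : D → G.C}
    (hα : ∀ q : D, q.1 ≤ n → MapAt (sphG n) G α q) {k : Bool → G.C}
    (hk : ∀ b, G.ok (k b) ∧ G.dim (k b) = n + 1 ∧ G.src (k b) = α (n, false) ∧
      G.tgt (k b) = α (n, true)) (q : D) (hq : q.1 ≤ n + 1) :
    MapAt (sphG (n + 1)) G (extS n α k) q := by
  have hlow : ∀ ε, extS n α k (q.1 - 1, ε) = α (q.1 - 1, ε) :=
    fun ε => extS_le (by change q.1 - 1 ≤ n; omega)
  rcases Nat.lt_or_ge n q.1 with h | h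
  · obtain ⟨k1, k2, k3, k4⟩ := hk q.2
    have hq1 : q.1 = n + 1 := by omega
    refine ⟨?_, ?_, fun _ => ⟨?_, ?_⟩⟩
    · rw [extS_gt h]
      exact k1
    · rw [extS_gt h, k2]
      exact hq1.symm
    · rw [extS_gt h, k3]
      change _ = extS n α k (q.1 - 1, false)
      rw [hlow, hq1]
      rfl
    · rw [extS_gt h, k4]
      change _ = extS n α k (q.1 - 1, true)
      rw [hlow, hq1]
      rfl
  · obtain ⟨a1, a2, a3⟩ := hα q h
    refine ⟨?_, ?_, fun h0 => ?_⟩
    · rw [extS_le h]
      exact a1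
    · rw [extS_le h]
      exact a2
    · obtain ⟨a4, a5⟩ := a3 h0
      rw [extS_le h]
      refine ⟨a4.trans ?_, a5.trans ?_⟩
      · exact (hlow false).symm
      · exact (hlow true).symm

theorem csT_spec {x : XFam S} (hx : ∀ j, XGoodAt x 0 j) {n : ℕ} {M : Model S} [M.OpLaws]
    {α β e : D → M.C} (H : IsCyl0 x (sphG n) M α β e) {k : M.C} (k1 : M.ok k)
    (k2 : M.dim k = n + 1) (k3 : M.src k = α (n, false)) (k4 : M.tgt k = α (n, true)) :
    M.ok (csT x n M α β e k) ∧ M.dim (csT x n M α β e k) = n + 1 ∧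
      M.src (csT x n M α β e k) = β (n, false) ∧ M.tgt (csT x n M α β e k) = β (n, true) := by
  have hp : (sphG (n + 1)).ok ((n + 1, false) : D) := le_refl (n + 1)
  have hb : ∀ r : D, r.1 ≤ n → (sphG (n + 1)).bd ((n + 1, false) : D) r = r := by
    intro r hr
    rw [sphG_bd]
    exact bdD_le (le_refl _) hr (le_refl _)
  have hcyl : ∀ r : D, r.1 ≤ n → CylAt M x (sphG (n + 1)) (extS n α fun _ => k) β e r := by
    intro r hr
    obtain ⟨c1, c2, c3, c4⟩ := H.cyl r hr
    refine ⟨c1, c2, c3.trans ?_, c4⟩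
    unfold cs
    congr 1
    funext v
    cases v with
    | z s =>
      change α ((sphG n).bd r s) = extS n α (fun _ => k) ((sphG (n + 1)).bd r s)
      rw [sphG_bd, sphG_bd, extS_le]
      unfold bdD
      split_ifs <;> omega
    | top s => rfl
    | cyl s => rfl
  have H1 := Cyl0UP_cs (E := S) hx (W := sphG (n + 1)) (M := M) (α := extS n α fun _ => k)
    (β := β) (e := e) (p := (n + 1, false)) hp
    (fun r hr => mapAt_extS H.mapα (fun _ => ⟨k1, k2, k3, k4⟩) _ (ok_bd hp r))
    (fun r hr => by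
      have hr' : r.1 < n + 1 := hr
      rw [hb r (by omega)]
      exact H.mapβ r (Nat.lt_succ_iff.1 hr'))
    (fun r hr => by
      have hr' : r.1 < n + 1 := hr
      rw [hb r (by omega)]
      exact hcyl r (Nat.lt_succ_iff.1 hr'))
  rw [cs_eq_csT (x := x) (n := n) (hx (n + 1)) (W := sphG (n + 1)) (p := (n + 1, false)) rfl
    (α := α) (β := β) (e := e) (k := k)
    (fun q hq => by rw [hb q hq]; exact extS_le hq) (extS_gt (Nat.lt_succ_self n))
    (fun q hq => by rw [hb q hq]) (fun q hq => by rw [hb q hq])] at H1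
  obtain ⟨a1, a2, a3⟩ := H1
  obtain ⟨a4, a5⟩ := a3 (Nat.succ_pos n)
  exact ⟨a1, a2, a4, a5⟩

theorem IsCyl0.extS {x : XFam S} (hx : ∀ j, XGoodAt x 0 j) {n : ℕ} {M : Model S}
    {α β e : D → M.C} (H : IsCyl0 x (sphG n) M α β e) {k g c : Bool → M.C}
    (hk : ∀ b, M.ok (k b) ∧ M.dim (k b) = n + 1 ∧ M.src (k b) = α (n, false) ∧
      M.tgt (k b) = α (n, true))
    (hg : ∀ b, M.ok (g b) ∧ M.dim (g b) = n + 1 ∧ M.src (g b) = β (n, false) ∧
      M.tgt (g b) = β (n, true))
    (hc : ∀ b, M.ok (c b) ∧ M.dim (c b) = n + 2 ∧ M.src (c b) = csT x n M α β e (k b) ∧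
      M.tgt (c b) = g b) :
    IsCyl0 x (sphG (n + 1)) M (HH.extS n α k) (HH.extS n β g) (HH.extS n e c) := by
  refine ⟨mapAt_extS H.mapα hk, mapAt_extS H.mapβ hg, ?_⟩
  intro q hq
  have hq' : q.1 ≤ n + 1 := hq
  rcases Nat.lt_or_ge n q.1 with h | h
  · obtain ⟨c1, c2, c3, c4⟩ := hc q.2
    have hq1 : q.1 = n + 1 := by omega
    have hb : ∀ r : D, r.1 ≤ n → (sphG (n + 1)).bd q r = r := by
      intro r hr
      rw [sphG_bd]
      exact bdD_le hq' hr (by omega)
    refine ⟨?_, ?_, ?_, ?_⟩
    · rw [extS_gt h]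
      exact c1
    · rw [extS_gt h, c2]
      change n + 2 = q.1 + 1
      omega
    · rw [extS_gt h, c3]
      refine (cs_eq_csT (hx (n + 1)) (W := sphG (n + 1)) (p := q) hq1 ?_ (extS_gt h) ?_ ?_).symm
      · intro r hr
        rw [hb r hr, extS_le hr]
      · intro r hr
        rw [hb r hr, extS_le hr]
      · intro r hr
        rw [hb r hr, extS_le hr]
    · rw [extS_gt h, extS_gt h]
      exact c4
  · obtain ⟨c1, c2, c3, c4⟩ := H.cyl q h
    refine ⟨?_, ?_, ?_, ?_⟩
    · rw [extS_le h]
      exact c1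
    · rw [extS_le h]
      exact c2
    · rw [extS_le h, c3]
      have hb : ∀ s : D, (bdD q s).1 ≤ n := by
        intro s
        unfold bdD
        split_ifs <;> omega
      unfold cs
      congr 1
      funext v
      cases v with
      | z s =>
        change α ((sphG n).bd q s) = HH.extS n α k ((sphG (n + 1)).bd q s)
        rw [sphG_bd, sphG_bd, extS_le (hb s)]
      | top s =>
        change β ((sphG n).bd q s) = HH.extS n β g ((sphG (n + 1)).bd q s)
        rw [sphG_bd, sphG_bd, extS_le (hb s)]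
      | cyl s =>
        change e ((sphG n).bd q s) = HH.extS n e c ((sphG (n + 1)).bd q s)
        rw [sphG_bd, sphG_bd, extS_le (hb s)]
    · rw [extS_le h, extS_le h]
      exact c4

/-- units from level-0 data -/
theorem L0.Good.conn_refl {d : L0 S} (hd : d.Good) {M : Model S} [M.OpLaws] [M.toGlob.Laws]
    {y : M.C} (hy : M.ok y) : M.toGlob.Conn y y := by
  obtain ⟨m1, m2, m3⟩ := atCell_mapAt hy rfl (hd.un_ok (M.dim y))
  have hd' : (ofGlob S (diskG (M.dim y))).tdim (d.un (M.dim y)) = M.dim y + 1 := hd.un_dim _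
  obtain ⟨m4, m5⟩ := m3 (lt_of_lt_of_eq (Nat.succ_pos _) hd'.symm)
  have hyv : M.toGlob.bd y (M.dim y, false) = y := bd_of_le y _ le_rfl
  exact ⟨_, m1, m2.trans hd', m4.trans ((congrArg (M.eval (M.toGlob.bd y)) (hd.un_src _)).trans hyv),
    m5.trans ((congrArg (M.eval (M.toGlob.bd y)) (hd.un_tgt _)).trans hyv)⟩

/-- two cells transported along a cylinder: the extended cylinder -/
theorem csT_pair (hu : ∀ {M : Model S} [M.OpLaws] [M.toGlob.Laws] {y : M.C}, M.ok y →
    M.toGlob.Conn y y) {x : XFam S} (hx : ∀ j, XGoodAt x 0 j) {n : ℕ} {M : Model S}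
    [M.OpLaws] [M.toGlob.Laws] {α β e : D → M.C} (H : IsCyl0 x (sphG n) M α β e) {k k' : M.C}
    (k1 : M.ok k) (k2 : M.dim k = n + 1) (k3 : M.src k = α (n, false))
    (k4 : M.tgt k = α (n, true)) (k1' : M.ok k') (k2' : M.dim k' = n + 1)
    (k3' : M.src k' = α (n, false)) (k4' : M.tgt k' = α (n, true)) :
    ∃ c : Bool → M.C, IsCyl0 x (sphG (n + 1)) M (HH.extS n α fun b => if b then k' else k)
      (HH.extS n β fun b => csT x n M α β e (if b then k' else k)) (HH.extS n e c) := by
  have hk : ∀ b : Bool, M.ok (if b then k' else k) ∧ M.dim (if b then k' else k) = n + 1 ∧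
      M.src (if b then k' else k) = α (n, false) ∧ M.tgt (if b then k' else k) = α (n, true) := by
    intro b
    cases b
    · exact ⟨k1, k2, k3, k4⟩
    · exact ⟨k1', k2', k3', k4'⟩
  have hg := fun b => csT_spec hx H (hk b).1 (hk b).2.1 (hk b).2.2.1 (hk b).2.2.2
  choose c c1 c2 c3 c4 using fun b => hu (M := M) (hg b).1
  exact ⟨c, H.extS hx hk hg (c := c)
    (fun b => ⟨c1 b, by rw [c2 b]; exact congrArg (· + 1) (hg b).2.1, c3 b, c4 b⟩)⟩

/-- transport along a cylinder respects connectedness -/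
theorem csT_conn' (hu : ∀ {M : Model S} [M.OpLaws] [M.toGlob.Laws] {y : M.C}, M.ok y →
    M.toGlob.Conn y y) {x : XFam S} (hx : ∀ j, XGoodAt x 0 j) {n : ℕ} {M : Model S}
    [M.OpLaws] [M.toGlob.Laws] {α β e : D → M.C} (H : IsCyl0 x (sphG n) M α β e) {k k' : M.C}
    (k2 : M.dim k = n + 1) (k3 : M.src k = α (n, false))
    (k4 : M.tgt k = α (n, true)) (hkk : M.toGlob.Conn k k') :
    M.toGlob.Conn (csT x n M α β e k) (csT x n M α β e k') := by
  obtain ⟨p1, p2, p3, p4⟩ := hkk.par
  obtain ⟨p5, p6⟩ := p4 (by omega)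
  obtain ⟨c, H'⟩ := csT_pair hu hx H p1 k2 k3 k4 p2 (p3.symm.trans k2) (p5.symm.trans k3)
    (p6.symm.trans k4)
  have := H'.transport hx (sphG_par (n + 1)) (by
    rw [extS_gt (Nat.lt_succ_self n), extS_gt (Nat.lt_succ_self n)]
    exact hkk)
  rw [extS_gt (Nat.lt_succ_self n), extS_gt (Nat.lt_succ_self n)] at this
  exact this

theorem csT_conn (h : S.Hyp) {x : XFam S} (hx : ∀ j, XGoodAt x 0 j) {n : ℕ} {M : Model S}
    [M.OpLaws] [M.toGlob.Laws] {α β e : D → M.C} (H : IsCyl0 x (sphG n) M α β e) {k k' : M.C}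
    (k2 : M.dim k = n + 1) (k3 : M.src k = α (n, false))
    (k4 : M.tgt k = α (n, true)) (hkk : M.toGlob.Conn k k') :
    M.toGlob.Conn (csT x n M α β e k) (csT x n M α β e k') :=
  csT_conn' (fun hy => exists_unit h hy) hx H k2 k3 k4 hkk

/-- transport along a cylinder reflects connectedness -/
theorem csT_reflect (hu : ∀ {M : Model S} [M.OpLaws] [M.toGlob.Laws] {y : M.C}, M.ok y →
    M.toGlob.Conn y y) {x r : XFam S} (hx : ∀ j, XGoodAt x 0 j) (hr : ∀ j, RGoodAt x r 0 j)
    {n : ℕ} {M : Model S}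
    [M.OpLaws] [M.toGlob.Laws] {α β e : D → M.C} (H : IsCyl0 x (sphG n) M α β e) {k k' : M.C}
    (k1 : M.ok k) (k2 : M.dim k = n + 1) (k3 : M.src k = α (n, false))
    (k4 : M.tgt k = α (n, true)) (k1' : M.ok k') (k2' : M.dim k' = n + 1)
    (k3' : M.src k' = α (n, false)) (k4' : M.tgt k' = α (n, true))
    (hkk : M.toGlob.Conn (csT x n M α β e k) (csT x n M α β e k')) : M.toGlob.Conn k k' := by
  obtain ⟨c, H'⟩ := csT_pair hu hx H k1 k2 k3 k4 k1' k2' k3' k4'
  have := H'.transport_rev hx hr (sphG_par (n + 1)) (by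
    rw [extS_gt (Nat.lt_succ_self n), extS_gt (Nat.lt_succ_self n)]
    exact hkk)
  rw [extS_gt (Nat.lt_succ_self n), extS_gt (Nat.lt_succ_self n)] at this
  exact this

/-- comparison of the transport with the transport along the twice reversed cylinder -/
theorem csT_v {d : L0 S} (hd : d.Good) {n : ℕ} {M : Model S} [M.OpLaws]
    {α β e : D → M.C} (H : IsCyl0 d.x (sphG n) M α β e) {k : M.C} (k1 : M.ok k)
    (k2 : M.dim k = n + 1) (k3 : M.src k = α (n, false)) (k4 : M.tgt k = α (n, true)) :
    M.toGlob.Conn (csT d.x n M α β e k)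
      (csT d.x n M α β (cs M d.r (sphG n) β α (cs M d.r (sphG n) α β e)) k) := by
  obtain ⟨α', hα'⟩ : ∃ α' : D → M.C, α' = fun q => if q.1 ≤ n then α q else k := ⟨_, rfl⟩
  have hmα : ∀ q : D, q.1 ≤ n + 1 → MapAt (sphG (n + 1)) M.toGlob α' q := by
    intro q hq
    rw [hα']
    exact mapAt_extS (k := fun _ => k) H.mapα (fun _ => ⟨k1, k2, k3, k4⟩) q hq
  have hα'le : ∀ q : D, q.1 ≤ n → α' q = α q := fun q hq => by
    rw [hα']
    exact if_pos hq
  have hasg : ∀ B, IsAsg B (CylG d.x (diskG (n + 1)) 0 (n + 1)) M (CV.elim α' β e) := by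
    intro B
    refine Cyl_asg (Z := ofGlob S (diskG (n + 1))) (W := diskG (n + 1)) (φ := .var)
      (fun i _ _ => hd.hx i) ?_ ?_ ?_ ?_
    · intro q hq _
      have hq' : q.1 < n + 1 ∨ (q.1 = n + 1 ∧ q.2 = false) := hq
      exact hmα q (by omega)
    · intro q hq _ h2
      exact H.mapβ q (Nat.lt_succ_iff.1 h2)
    · intro q _ h1 _
      exact absurd h1 (Nat.not_lt_zero _)
    · intro q hq _ h2
      have h2' : q.1 < n + 1 := h2
      obtain ⟨c1, c2, c3, c4⟩ := H.cyl q (Nat.lt_succ_iff.1 h2')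
      refine ⟨c1, c2, c3.trans ?_, c4⟩
      have hb : ∀ s : D, (bdD q s).1 ≤ n := by
        intro s
        unfold bdD
        split_ifs <;> omega
      unfold cs
      congr 1
      funext v
      cases v with
      | z s =>
        change α ((sphG n).bd q s) = α' ((diskG (n + 1)).bd q s)
        rw [sphG_bd, diskG_bd, hα'le _ (hb s)]
      | top s =>
        change β ((sphG n).bd q s) = β ((diskG (n + 1)).bd q s)
        rw [sphG_bd, diskG_bd]
      | cyl s =>
        change e ((sphG n).bd q s) = e ((diskG (n + 1)).bd q s)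
        rw [sphG_bd, diskG_bd]
  obtain ⟨m1, m2, m3⟩ := eval_mapAt (X := CylG d.x (diskG (n + 1)) 0 (n + 1)) (M := M)
    (fun v hv => hasg _ v hv (Nat.lt_succ_self _)) (d.v (n + 1)) (hd.v_ok (n + 1) (Nat.succ_pos n))
  have hvd := hd.v_dim (n + 1) (Nat.succ_pos n)
  obtain ⟨m4, m5⟩ := m3 (by
    change 0 < (CylG d.x (diskG (n + 1)) 0 (n + 1)).tdim (d.v (n + 1))
    omega)
  have hvs := hd.v_src (n + 1) (Nat.succ_pos n)
  have hvt := hd.v_tgt (n + 1) (Nat.succ_pos n)
  have e1 : M.eval (CV.elim α' β e) (d.x (n + 1)) = csT d.x n M α β e k := by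
    rw [hα']
    rfl
  have hcd : M.dim (csT d.x n M α β e k) = n + 1 := (csT_spec hd.hx H k1 k2 k3 k4).2.1
  refine ⟨_, m1, ?_, ?_, ?_⟩
  · rw [hcd]
    exact m2.trans hvd
  · exact m4.trans ((congrArg (M.eval (CV.elim α' β e)) hvs).trans e1)
  · refine m5.trans ((congrArg (M.eval (CV.elim α' β e)) hvt).trans ?_)
    refine (eval_bind M (CV.elim α' β e) _ (d.x (n + 1))).trans ?_
    unfold csT
    refine eval_congr (X := CylG d.x (diskG (n + 1)) 0 (n + 1)) (d.x (n + 1)) (hd.hx (n + 1)).1 ?_
    intro v hv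
    cases v with
    | z q =>
      change α' q = if q.1 ≤ n then α q else k
      rw [hα']
    | top q => rfl
    | cyl q =>
      obtain ⟨-, -, h2⟩ := hv
      have hq : q.1 ≤ n := Nat.lt_succ_iff.1 h2
      have hb : ∀ q : D, q.1 ≤ n → ∀ s : D, (bdD q s).1 ≤ n := by
        intro q hq s
        unfold bdD
        split_ifs <;> omega
      have e2 : ∀ q : D, q.1 ≤ n → cs M d.r (diskG (n + 1)) α' β e q =
          cs M d.r (sphG n) α β e q := by
        intro q hq
        unfold cs
        congr 1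
        funext v
        cases v with
        | z s =>
          change α' ((diskG (n + 1)).bd q s) = α ((sphG n).bd q s)
          rw [sphG_bd, diskG_bd, hα'le _ (hb q hq s)]
        | top s =>
          change β ((diskG (n + 1)).bd q s) = β ((sphG n).bd q s)
          rw [sphG_bd, diskG_bd]
        | cyl s =>
          change e ((diskG (n + 1)).bd q s) = e ((sphG n).bd q s)
          rw [sphG_bd, diskG_bd]
      have e3 : (fun q => M.eval (CV.elim α' β e) (cs (CylG d.x (diskG (n + 1)) 0 (n + 1)).m d.r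
          (diskG (n + 1)) (fun q => .var (.z q)) (fun q => .var (.top q))
          (fun q => .var (.cyl q)) q)) = cs M d.r (diskG (n + 1)) α' β e := by
        funext q
        exact cs_eval (X := CylG d.x (diskG (n + 1)) 0 (n + 1)) (M := M) (CV.elim α' β e) d.r
          (diskG (n + 1)) _ _ _ q
      have e4 := cs_eval (X := CylG d.x (diskG (n + 1)) 0 (n + 1)) (M := M) (CV.elim α' β e) d.r
          (diskG (n + 1)) (fun q => .var (.top q)) (fun q => .var (.z q))
          (cs (CylG d.x (diskG (n + 1)) 0 (n + 1)).m d.r (diskG (n + 1)) (fun q => .var (.z q))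
            (fun q => .var (.top q)) (fun q => .var (.cyl q))) q
      refine e4.trans ?_
      refine (congrArg (fun E => cs M d.r (diskG (n + 1)) β α' E q) e3).trans ?_
      change _ = cs M d.r (sphG n) β α (cs M d.r (sphG n) α β e) q
      unfold cs
      congr 1
      funext v
      cases v with
      | z s =>
        change β ((diskG (n + 1)).bd q s) = β ((sphG n).bd q s)
        rw [sphG_bd, diskG_bd]
      | top s =>
        change α' ((diskG (n + 1)).bd q s) = α ((sphG n).bd q s)
        rw [sphG_bd, diskG_bd, hα'le _ (hb q hq s)]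
      | cyl s =>
        change cs M d.r (diskG (n + 1)) α' β e ((diskG (n + 1)).bd q s) =
          cs M d.r (sphG n) α β e ((sphG n).bd q s)
        rw [sphG_bd, diskG_bd]
        exact e2 _ (hb q hq s)

/-- Reverse transport: every cell between the top ends is connected to the transport of a cell
between the base ends. -/
theorem exists_csT' {d : L0 S} (hd : d.Good) {n : ℕ} {M : Model S} [M.OpLaws]
    [M.toGlob.Laws] (ht : ∀ x y z : M.C, M.toGlob.Conn x y → M.toGlob.Conn y z →
      M.toGlob.Conn x z) {α β e : D → M.C} (H : IsCyl0 d.x (sphG n) M α β e) {g : M.C}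
    (g1 : M.ok g) (g2 : M.dim g = n + 1) (g3 : M.src g = β (n, false))
    (g4 : M.tgt g = β (n, true)) :
    ∃ k, M.ok k ∧ M.dim k = n + 1 ∧ M.src k = α (n, false) ∧ M.tgt k = α (n, true) ∧
      M.toGlob.Conn (csT d.x n M α β e k) g := by
  have Hr := H.rev hd.hx hd.hr
  obtain ⟨k, hk⟩ : ∃ k, k = csT d.x n M β α (cs M d.r (sphG n) α β e) g := ⟨_, rfl⟩
  obtain ⟨k1, k2, k3, k4⟩ := csT_spec hd.hx Hr g1 g2 g3 g4
  rw [← hk] at k1 k2 k3 k4
  obtain ⟨u, u1, u2, u3, u4⟩ := hd.conn_refl k1
  have H' := (Hr.extS hd.hx (k := fun _ => g) (g := fun _ => k) (c := fun _ => u)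
    (fun _ => ⟨g1, g2, g3, g4⟩) (fun _ => ⟨k1, k2, k3, k4⟩)
    (fun _ => ⟨u1, by rw [u2]; exact congrArg (· + 1) k2, by rw [u3, hk], u4⟩)).rev hd.hx hd.hr
  obtain ⟨c1, c2, c3, c4⟩ := H'.cyl ((n + 1, false) : D) (le_refl (n + 1))
  have hb : ∀ r : D, r.1 ≤ n → (sphG (n + 1)).bd ((n + 1, false) : D) r = r := by
    intro r hr
    rw [sphG_bd]
    exact bdD_le (le_refl _) hr (le_refl _)
  have c3' : _ = csT d.x n M α β (cs M d.r (sphG n) β α (cs M d.r (sphG n) α β e)) k :=
    c3.trans (by
      refine cs_eq_csT (hd.hx (n + 1)) (W := sphG (n + 1)) (p := ((n + 1, false) : D)) rfl ?_ ?_ ?_ ?_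
      · intro q hq
        rw [hb q hq, extS_le hq]
      · rw [extS_gt (Nat.lt_succ_self n)]
      · intro q hq
        rw [hb q hq, extS_le hq]
      · intro q hq
        rw [hb q hq]
        have hbb : ∀ s : D, (bdD q s).1 ≤ n := by
          intro s
          unfold bdD
          split_ifs <;> omega
        unfold cs
        congr 1
        funext v
        cases v with
        | z s =>
          change HH.extS n β (fun _ => g) ((sphG (n + 1)).bd q s) = β ((sphG n).bd q s)
          rw [sphG_bd, sphG_bd, extS_le (hbb s)]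
        | top s =>
          change HH.extS n α (fun _ => k) ((sphG (n + 1)).bd q s) = α ((sphG n).bd q s)
          rw [sphG_bd, sphG_bd, extS_le (hbb s)]
        | cyl s =>
          change HH.extS n (cs M d.r (sphG n) α β e) (fun _ => u) ((sphG (n + 1)).bd q s) =
            cs M d.r (sphG n) α β e ((sphG n).bd q s)
          rw [sphG_bd, sphG_bd, extS_le (hbb s)])
  refine ⟨k, k1, k2, k3, k4, ?_⟩
  refine ht _ _ _ (csT_v hd H k1 k2 k3 k4) ⟨_, c1, ?_, c3', ?_⟩
  · refine Eq.trans c2 ?_
    have hrr := ((H.rev hd.hx hd.hr).rev hd.hx hd.hr)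
    exact (congrArg (· + 1) (csT_spec hd.hx hrr k1 k2 k3 k4).2.1).symm
  · exact c4.trans (extS_gt (Nat.lt_succ_self n))

theorem exists_csT (h : S.Hyp) {d : L0 S} (hd : d.Good) {n : ℕ} {M : Model S} [M.OpLaws]
    [M.toGlob.Laws] {α β e : D → M.C} (H : IsCyl0 d.x (sphG n) M α β e) {g : M.C} (g1 : M.ok g)
    (g2 : M.dim g = n + 1) (g3 : M.src g = β (n, false)) (g4 : M.tgt g = β (n, true)) :
    ∃ k, M.ok k ∧ M.dim k = n + 1 ∧ M.src k = α (n, false) ∧ M.tgt k = α (n, true) ∧
      M.toGlob.Conn (csT d.x n M α β e k) g :=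
  exists_csT' hd (fun _ _ _ => conn_trans h) H g1 g2 g3 g4

end HH
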