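import Pool.Agent.HH.Official

/-!
# HH OFF-INV: invariance of the official notions (module to prove)

Everything is elementary category theory with the definitions of `Official.lean`.
`sTo`, `tTo` unfold by `Nat.leRec_self` and `Nat.leRec_succ` (induct on the inequality with
`Nat.le_induction`). For `IsSum.iso` the legs for `F'` are `(a.e _).inv ≫ ε k`: the gluing condition
is transported by `sTo_iso`, `tTo_iso`, and a compatible family `y` for `F'` gives the compatible family
`(a.e _).hom ≫ y k` for `F`. `IsSum` only depends on the object up to isomorphism. Everything else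
is a short computation.
-/

universe v v' v'' u u' u''

open CategoryTheory Opposite

namespace Pool.Agent.HH.Globes

variable {C : Type u} [Category.{v} C] {E : Type u'} [Category.{v'} E] {B : Type u''}
  [Category.{v''} B]

/-- The identity. -/
@[simps]
def Iso.refl (F : Globes C) : F.Iso F where
  e i := CategoryTheory.Iso.refl _
  s_e i := by simp
  t_e i := by simp

/-- The inverse. -/
@[simps]
def Iso.symm {F F' : Globes C} (a : F.Iso F') : F'.Iso F where
  e i := (a.e i).symm
  s_e i := by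
    rw [Iso.symm_hom, Iso.symm_hom, ← cancel_epi (a.e i).hom, ← Category.assoc, ← a.s_e]
    simp
  t_e i := by
    rw [Iso.symm_hom, Iso.symm_hom, ← cancel_epi (a.e i).hom, ← Category.assoc, ← a.t_e]
    simp

/-- The composition. -/
@[simps]
def Iso.trans {F F' F'' : Globes C} (a : F.Iso F') (b : F'.Iso F'') : F.Iso F'' where
  e i := a.e i ≪≫ b.e i
  s_e i := by
    rw [Iso.trans_hom, Iso.trans_hom, ← Category.assoc, a.s_e, Category.assoc, b.s_e,
      Category.assoc]
  t_e i := by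
    rw [Iso.trans_hom, Iso.trans_hom, ← Category.assoc, a.t_e, Category.assoc, b.t_e,
      Category.assoc]

/-- The image under a functor. -/
@[simps]
def Iso.mapIso {F F' : Globes C} (a : F.Iso F') (H : C ⥤ E) : (F.map H).Iso (F'.map H) where
  e i := H.mapIso (a.e i)
  s_e i := by
    rw [Functor.mapIso_hom, Functor.mapIso_hom, ← H.map_comp, a.s_e, H.map_comp]
  t_e i := by
    rw [Functor.mapIso_hom, Functor.mapIso_hom, ← H.map_comp, a.t_e, H.map_comp]

/-- An isomorphism of functors gives an isomorphism of the images of the globes. -/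
@[simps]
def isoOfNatIso (F : Globes C) {H H' : C ⥤ E} (α : H ≅ H') : (F.map H).Iso (F.map H') where
  e i := α.app (F.D i)
  s_e i := α.hom.naturality (F.s i)
  t_e i := α.hom.naturality (F.t i)

/-- The image under a composition. -/
def mapComp (F : Globes C) (H : C ⥤ E) (H' : E ⥤ B) : ((F.map H).map H').Iso (F.map (H ⋙ H')) where
  e i := CategoryTheory.Iso.refl _
  s_e i := by
    change H'.map (H.map (F.s i)) ≫ 𝟙 _ = 𝟙 _ ≫ H'.map (H.map (F.s i))
    rw [Category.comp_id, Category.id_comp]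
  t_e i := by
    change H'.map (H.map (F.t i)) ≫ 𝟙 _ = 𝟙 _ ≫ H'.map (H.map (F.t i))
    rw [Category.comp_id, Category.id_comp]

theorem sTo_self (F : Globes C) (i : ℕ) : F.sTo (le_refl i) = 𝟙 _ := by
  unfold sTo
  exact Nat.leRec_self _ _

theorem tTo_self (F : Globes C) (i : ℕ) : F.tTo (le_refl i) = 𝟙 _ := by
  unfold tTo
  exact Nat.leRec_self _ _

theorem sTo_succ (F : Globes C) {i j : ℕ} (h : i ≤ j) :
    F.sTo (Nat.le_succ_of_le h) = F.sTo h ≫ F.s j := by
  unfold sTo
  exact Nat.leRec_succ _ _ h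

theorem tTo_succ (F : Globes C) {i j : ℕ} (h : i ≤ j) :
    F.tTo (Nat.le_succ_of_le h) = F.tTo h ≫ F.t j := by
  unfold tTo
  exact Nat.leRec_succ _ _ h

/-- The composite depends only on the inner arrow. -/
theorem sTo_t (F : Globes C) {i j : ℕ} (h : i < j) : F.sTo h.le ≫ F.t j = F.sTo h.le ≫ F.s j := by
  obtain ⟨k, rfl⟩ : ∃ k, j = k + 1 := ⟨j - 1, by omega⟩
  have h' : i ≤ k := by omega
  rw [show F.sTo h.le = F.sTo h' ≫ F.s k from F.sTo_succ h', Category.assoc, Category.assoc,
    F.s_st]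

theorem tTo_s (F : Globes C) {i j : ℕ} (h : i < j) : F.tTo h.le ≫ F.s j = F.tTo h.le ≫ F.t j := by
  obtain ⟨k, rfl⟩ : ∃ k, j = k + 1 := ⟨j - 1, by omega⟩
  have h' : i ≤ k := by omega
  rw [show F.tTo h.le = F.tTo h' ≫ F.t k from F.tTo_succ h', Category.assoc, Category.assoc,
    F.t_st]

theorem s_sTo (F : Globes C) {i j : ℕ} (h : i + 1 ≤ j) :
    F.s i ≫ F.sTo h = F.sTo ((Nat.le_succ i).trans h) := by
  induction j, h using Nat.le_induction with
  | base =>
    rw [sTo_self, Category.comp_id,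
      show F.sTo ((Nat.le_succ i).trans (le_refl (i + 1))) = F.sTo (le_refl i) ≫ F.s i from
        F.sTo_succ (le_refl i), sTo_self, Category.id_comp]
  | succ j h ih =>
    rw [show F.sTo (Nat.le_succ_of_le h) = F.sTo h ≫ F.s j from F.sTo_succ h, ← Category.assoc, ih]
    exact (F.sTo_succ ((Nat.le_succ i).trans h)).symm

theorem t_sTo (F : Globes C) {i j : ℕ} (h : i + 1 ≤ j) :
    F.t i ≫ F.sTo h = F.tTo ((Nat.le_succ i).trans h) := by
  induction j, h using Nat.le_induction with
  | base =>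
    rw [sTo_self, Category.comp_id,
      show F.tTo ((Nat.le_succ i).trans (le_refl (i + 1))) = F.tTo (le_refl i) ≫ F.t i from
        F.tTo_succ (le_refl i), tTo_self, Category.id_comp]
  | succ j h ih =>
    rw [show F.sTo (Nat.le_succ_of_le h) = F.sTo h ≫ F.s j from F.sTo_succ h, ← Category.assoc, ih]
    exact (F.tTo_s (j := j) h).trans (F.tTo_succ ((Nat.le_succ i).trans h)).symm

theorem s_tTo (F : Globes C) {i j : ℕ} (h : i + 1 ≤ j) :
    F.s i ≫ F.tTo h = F.sTo ((Nat.le_succ i).trans h) := by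
  induction j, h using Nat.le_induction with
  | base =>
    rw [tTo_self, Category.comp_id,
      show F.sTo ((Nat.le_succ i).trans (le_refl (i + 1))) = F.sTo (le_refl i) ≫ F.s i from
        F.sTo_succ (le_refl i), sTo_self, Category.id_comp]
  | succ j h ih =>
    rw [show F.tTo (Nat.le_succ_of_le h) = F.tTo h ≫ F.t j from F.tTo_succ h, ← Category.assoc, ih]
    exact (F.sTo_t (j := j) h).trans (F.sTo_succ ((Nat.le_succ i).trans h)).symm

theorem t_tTo (F : Globes C) {i j : ℕ} (h : i + 1 ≤ j) :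
    F.t i ≫ F.tTo h = F.tTo ((Nat.le_succ i).trans h) := by
  induction j, h using Nat.le_induction with
  | base =>
    rw [tTo_self, Category.comp_id,
      show F.tTo ((Nat.le_succ i).trans (le_refl (i + 1))) = F.tTo (le_refl i) ≫ F.t i from
        F.tTo_succ (le_refl i), tTo_self, Category.id_comp]
  | succ j h ih =>
    rw [show F.tTo (Nat.le_succ_of_le h) = F.tTo h ≫ F.t j from F.tTo_succ h, ← Category.assoc, ih]
    exact (F.tTo_succ ((Nat.le_succ i).trans h)).symm

theorem sTo_map (F : Globes C) (H : C ⥤ E) {i j : ℕ} (h : i ≤ j) :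
    (F.map H).sTo h = H.map (F.sTo h) := by
  induction j, h using Nat.le_induction with
  | base =>
    rw [sTo_self, sTo_self, H.map_id]
  | succ j h ih =>
    rw [show F.sTo (Nat.le_succ_of_le h) = F.sTo h ≫ F.s j from F.sTo_succ h,
      show (F.map H).sTo (Nat.le_succ_of_le h) = (F.map H).sTo h ≫ (F.map H).s j from
        (F.map H).sTo_succ h, ih, H.map_comp]

theorem tTo_map (F : Globes C) (H : C ⥤ E) {i j : ℕ} (h : i ≤ j) :
    (F.map H).tTo h = H.map (F.tTo h) := by
  induction j, h using Nat.le_induction with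
  | base =>
    rw [tTo_self, tTo_self, H.map_id]
  | succ j h ih =>
    rw [show F.tTo (Nat.le_succ_of_le h) = F.tTo h ≫ F.t j from F.tTo_succ h,
      show (F.map H).tTo (Nat.le_succ_of_le h) = (F.map H).tTo h ≫ (F.map H).t j from
        (F.map H).tTo_succ h, ih, H.map_comp]

variable {F F' : Globes C}

theorem sTo_iso (a : F.Iso F') {i j : ℕ} (h : i ≤ j) :
    F.sTo h ≫ (a.e j).hom = (a.e i).hom ≫ F'.sTo h := by
  induction j, h using Nat.le_induction with
  | base => rw [sTo_self, sTo_self, Category.id_comp, Category.comp_id]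
  | succ j h ih =>
    rw [show F.sTo (Nat.le_succ_of_le h) = F.sTo h ≫ F.s j from F.sTo_succ h,
      show F'.sTo (Nat.le_succ_of_le h) = F'.sTo h ≫ F'.s j from F'.sTo_succ h, Category.assoc,
      a.s_e, ← Category.assoc, ih, Category.assoc]

theorem tTo_iso (a : F.Iso F') {i j : ℕ} (h : i ≤ j) :
    F.tTo h ≫ (a.e j).hom = (a.e i).hom ≫ F'.tTo h := by
  induction j, h using Nat.le_induction with
  | base => rw [tTo_self, tTo_self, Category.id_comp, Category.comp_id]
  | succ j h ih =>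
    rw [show F.tTo (Nat.le_succ_of_le h) = F.tTo h ≫ F.t j from F.tTo_succ h,
      show F'.tTo (Nat.le_succ_of_le h) = F'.tTo h ≫ F'.t j from F'.tTo_succ h, Category.assoc,
      a.t_e, ← Category.assoc, ih, Category.assoc]

private theorem sTo_iso_inv (a : F.Iso F') {i j : ℕ} (h : i ≤ j) :
    F'.sTo h ≫ (a.e j).inv = (a.e i).inv ≫ F.sTo h := by
  rw [Iso.comp_inv_eq, Category.assoc, sTo_iso, Iso.inv_hom_id_assoc]

private theorem tTo_iso_inv (a : F.Iso F') {i j : ℕ} (h : i ≤ j) :
    F'.tTo h ≫ (a.e j).inv = (a.e i).inv ≫ F.tTo h := by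
  rw [Iso.comp_inv_eq, Category.assoc, tTo_iso, Iso.inv_hom_id_assoc]

theorem IsSum.hom_ext {T : Table} {X : C} {ε : ∀ k, F.D (T.i k) ⟶ X} (h : F.IsSum T X ε) {Y : C}
    {f g : X ⟶ Y} (hfg : ∀ k, ε k ≫ f = ε k ≫ g) : f = g := by
  have hc : F.Compat T (fun k => ε k ≫ g) := by
    intro k
    rw [← Category.assoc, h.glue k, Category.assoc]
  exact (h.desc Y _ hc).unique hfg (fun _ => rfl)

/-- Change of the object by an isomorphism. -/
theorem IsSum.of_iso {T : Table} {X X' : C} {ε : ∀ k, F.D (T.i k) ⟶ X} (h : F.IsSum T X ε)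
    (e : X ≅ X') : F.IsSum T X' fun k => ε k ≫ e.hom := by
  refine ⟨fun k => ?_, fun Y y hy => ?_⟩
  · change _ ≫ ε _ ≫ e.hom = _ ≫ ε _ ≫ e.hom
    rw [← Category.assoc, h.glue k, Category.assoc]
  · obtain ⟨f, hf, -⟩ := h.desc Y y hy
    refine ⟨e.inv ≫ f, fun k => ?_, fun g hg => ?_⟩
    · change (ε k ≫ e.hom) ≫ e.inv ≫ f = y k
      rw [Category.assoc, Iso.hom_inv_id_assoc, hf]
    · rw [Iso.eq_inv_comp]
      apply h.hom_ext
      intro k
      rw [hf, ← hg k, Category.assoc]

/-- Two globular sums with the same table are isomorphic. -/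
theorem IsSum.exists_iso {T : Table} {X X' : C} {ε : ∀ k, F.D (T.i k) ⟶ X}
    {ε' : ∀ k, F.D (T.i k) ⟶ X'} (h : F.IsSum T X ε) (h' : F.IsSum T X' ε') :
    ∃ e : X ≅ X', ∀ k, ε k ≫ e.hom = ε' k := by
  obtain ⟨f, hf, -⟩ := h.desc X' ε' h'.glue
  obtain ⟨g, hg, -⟩ := h'.desc X ε h.glue
  refine ⟨⟨f, g, ?_, ?_⟩, hf⟩
  · apply h.hom_ext
    intro k
    rw [← Category.assoc, hf, hg, Category.comp_id]
  · apply h'.hom_ext
    intro k
    rw [← Category.assoc, hg, hf, Category.comp_id]

theorem IsSum.iso {T : Table} {X : C} {ε : ∀ k, F.D (T.i k) ⟶ X} (h : F.IsSum T X ε)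
    (a : F.Iso F') : F'.IsSum T X fun k => (a.e (T.i k)).inv ≫ ε k := by
  refine ⟨fun k => ?_, fun Y y hy => ?_⟩
  · change F'.sTo _ ≫ (a.e _).inv ≫ ε _ = F'.tTo _ ≫ (a.e _).inv ≫ ε _
    rw [← Category.assoc, sTo_iso_inv, ← Category.assoc, tTo_iso_inv, Category.assoc,
      Category.assoc, h.glue k]
  · have hc : F.Compat T (fun k => (a.e (T.i k)).hom ≫ y k) := by
      intro k
      rw [← Category.assoc, sTo_iso, Category.assoc, hy k, ← Category.assoc, ← Category.assoc,
        tTo_iso]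
    obtain ⟨f, hf, hu⟩ := h.desc Y _ hc
    refine ⟨f, fun k => ?_, fun g hg => ?_⟩
    · change ((a.e _).inv ≫ ε k) ≫ f = y k
      rw [Category.assoc, hf, Iso.inv_hom_id_assoc]
    · apply hu
      intro k
      have := hg k
      rw [Category.assoc, Iso.inv_comp_eq] at this
      exact this

theorem IsExt.iso (h : F.IsExt) (a : F.Iso F') : F'.IsExt := by
  intro T
  obtain ⟨X, ε, hs⟩ := h T
  exact ⟨X, _, hs.iso a⟩

theorem Parallel.iso {X : C} {i : ℕ} {f g : F.D i ⟶ X} (h : F.Parallel X i f g) (a : F.Iso F') :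
    F'.Parallel X i ((a.e i).inv ≫ f) ((a.e i).inv ≫ g) := by
  cases i with
  | zero => trivial
  | succ i =>
    have hs : F'.s i ≫ (a.e (i + 1)).inv = (a.e i).inv ≫ F.s i := by
      rw [Iso.comp_inv_eq, Category.assoc, a.s_e, Iso.inv_hom_id_assoc]
    have ht : F'.t i ≫ (a.e (i + 1)).inv = (a.e i).inv ≫ F.t i := by
      rw [Iso.comp_inv_eq, Category.assoc, a.t_e, Iso.inv_hom_id_assoc]
    constructor
    · rw [← Category.assoc, hs, ← Category.assoc, hs, Category.assoc, Category.assoc, h.1]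
    · rw [← Category.assoc, ht, ← Category.assoc, ht, Category.assoc, Category.assoc, h.2]

theorem IsLift.iso {X : C} {i : ℕ} {f g : F.D i ⟶ X} {l : F.D (i + 1) ⟶ X} (h : F.IsLift f g l)
    (a : F.Iso F') :
    F'.IsLift ((a.e i).inv ≫ f) ((a.e i).inv ≫ g) ((a.e (i + 1)).inv ≫ l) := by
  have hs : F'.s i ≫ (a.e (i + 1)).inv = (a.e i).inv ≫ F.s i := by
    rw [Iso.comp_inv_eq, Category.assoc, a.s_e, Iso.inv_hom_id_assoc]
  have ht : F'.t i ≫ (a.e (i + 1)).inv = (a.e i).inv ≫ F.t i := by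
    rw [Iso.comp_inv_eq, Category.assoc, a.t_e, Iso.inv_hom_id_assoc]
  constructor
  · rw [← Category.assoc, hs, Category.assoc, h.1]
  · rw [← Category.assoc, ht, Category.assoc, h.2]

theorem Contractible.iso (h : F.Contractible) (a : F.Iso F') : F'.Contractible := by
  intro X i f g hp
  have h1 := hp.iso a.symm
  obtain ⟨l, hl⟩ := h X i _ _ h1
  have h2 := hl.iso a
  refine ⟨(a.e (i + 1)).inv ≫ l, ?_⟩
  have e1 : ∀ u : F'.D i ⟶ X, (a.e i).inv ≫ (a.symm.e i).inv ≫ u = u := fun u =>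
    Iso.inv_hom_id_assoc (a.e i) u
  rwa [e1, e1] at h2

theorem Preserves.iso {H : C ⥤ E} (h : F.Preserves H) (a : F.Iso F') : F'.Preserves H := by
  intro T X ε hs
  have h1 := (h T X _ (hs.iso a.symm)).iso (a.mapIso H)
  have e1 : (fun k => H.map (ε k)) = fun k => ((a.mapIso H).e (T.i k)).inv ≫
      H.map ((a.symm.e (T.i k)).inv ≫ ε k) := by
    funext k
    change _ = H.map (a.e _).inv ≫ H.map ((a.e _).hom ≫ ε k)
    rw [← H.map_comp, Iso.inv_hom_id_assoc]
  rw [e1]
  exact h1

theorem Preserves.natIso {H H' : C ⥤ E} (h : F.Preserves H) (α : H ≅ H') : F.Preserves H' := by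
  intro T X ε hs
  have h1 := ((h T X ε hs).iso (isoOfNatIso F α)).of_iso (α.app X)
  have e1 : (fun k => H'.map (ε k)) =
      fun k => (((isoOfNatIso F α).e (T.i k)).inv ≫ H.map (ε k)) ≫ (α.app X).hom := by
    funext k
    change _ = (α.inv.app _ ≫ H.map (ε k)) ≫ α.hom.app X
    rw [Category.assoc, α.hom.naturality, Iso.inv_hom_id_app_assoc]
  rw [e1]
  exact h1

theorem Preserves.comp {H : C ⥤ E} {H' : E ⥤ B} (h : F.Preserves H)
    (h' : (F.map H).Preserves H') : F.Preserves (H ⋙ H') := by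
  intro T X ε hs
  exact h' T _ _ (h T X ε hs)

/-- To preserve globular sums it is enough to preserve one globular sum for each table. -/
theorem Preserves.of_some {H : C ⥤ E}
    (h : ∀ T : Table, ∃ (X : C) (ε : ∀ k, F.D (T.i k) ⟶ X), F.IsSum T X ε ∧
      (F.map H).IsSum T (H.obj X) fun k => H.map (ε k)) : F.Preserves H := by
  intro T X ε hs
  obtain ⟨X₀, ε₀, h₀, h₁⟩ := h T
  obtain ⟨e, he⟩ := h₀.exists_iso hs
  have h2 := h₁.of_iso (H.mapIso e)
  convert h2 using 2 with k
  rw [Functor.mapIso_hom, ← H.map_comp, he]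

theorem Parallel.comp {X Y : C} {i : ℕ} {f g : F.D i ⟶ X} (h : F.Parallel X i f g) (u : X ⟶ Y) :
    F.Parallel Y i (f ≫ u) (g ≫ u) := by
  cases i with
  | zero => trivial
  | succ i =>
    exact ⟨by rw [← Category.assoc, h.1, Category.assoc], by
      rw [← Category.assoc, h.2, Category.assoc]⟩

theorem IsLift.comp {X Y : C} {i : ℕ} {f g : F.D i ⟶ X} {l : F.D (i + 1) ⟶ X}
    (h : F.IsLift f g l) (u : X ⟶ Y) : F.IsLift (f ≫ u) (g ≫ u) (l ≫ u) := by
  exact ⟨by rw [← Category.assoc, h.1], by rw [← Category.assoc, h.2]⟩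

theorem Parallel.map {X : C} {i : ℕ} {f g : F.D i ⟶ X} (h : F.Parallel X i f g) (H : C ⥤ E) :
    (F.map H).Parallel (H.obj X) i (H.map f) (H.map g) := by
  cases i with
  | zero => trivial
  | succ i =>
    constructor
    · change H.map (F.s i) ≫ H.map f = H.map (F.s i) ≫ H.map g
      rw [← H.map_comp, h.1, H.map_comp]
    · change H.map (F.t i) ≫ H.map f = H.map (F.t i) ≫ H.map g
      rw [← H.map_comp, h.2, H.map_comp]

theorem IsLift.map {X : C} {i : ℕ} {f g : F.D i ⟶ X} {l : F.D (i + 1) ⟶ X}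
    (h : F.IsLift f g l) (H : C ⥤ E) :
    (F.map H).IsLift (X := H.obj X) (i := i) (H.map f) (H.map g) (H.map l) := by
  constructor
  · change H.map (F.s i) ≫ H.map l = H.map f
    rw [← H.map_comp, h.1]
  · change H.map (F.t i) ≫ H.map l = H.map g
    rw [← H.map_comp, h.2]

/-- Two liftings of a pair are parallel. -/
theorem IsLift.parallel {X : C} {i : ℕ} {f g : F.D i ⟶ X} {l l' : F.D (i + 1) ⟶ X}
    (h : F.IsLift f g l) (h' : F.IsLift f g l') : F.Parallel X (i + 1) l l' := by
  exact ⟨h.1.trans h'.1.symm, h.2.trans h'.2.symm⟩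

end Pool.Agent.HH.Globes
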