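import Pool.Agent.HH.Rho

/-!
# HH 2b IOTA: a coherator is a retract of its extended syntactic category (proved)

`exists_iota`: the theorem `lift` (Lift.lean) for `E = Syn (EE C)`, `G = synG (EE C)`, `π = rhoF`, `B = C`, `M = 𝟭 C`,
`m` = the isomorphism `a` of `rhoF_globes` (`F.map (𝟭 C)` and `F` agree definitionally up to `Functor.id_map`); `hB` by
`IsExt.iso` from `F.IsExt`.

`uf_nf`: for a code `A` and a model `G`, `x ↦ (p ↦ act x (leg p))` is a bijection from `G (rO A)` onto the globular maps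
from `A` to the cells of `G` (`rO_up`, `act_leg_mapAt`), natural in `A` (`rhoF_eval`, `act_push`, and `act x` commutes
with evaluation of typed terms: `natC_app` for `yonedaEquiv.symm x : yoneda.obj _ ⟶ G.obj`, or `rhoX_nat`) and in `G`
(`natC_act`). So `UF ⋙ nF ≅ pull rhoF`.

`uv_iso`: `UF ⋙ nF ⋙ pull L ≅ pull rhoF ⋙ pull L`, and on underlying presheaves this is `G ↦ (L ⋙ rhoF).op ⋙ G ≅ G` by
whiskering `β`.
-/

set_option autoImplicit false

namespace HH

open Classical CategoryTheory Opposite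

open Pool.Agent.HH (Globes IsCoherator)

variable {C : Type} [SmallCategory C] {F : Globes C}

/-- a natural transformation commutes with the evaluation of typed terms -/
theorem natC_eval_io (hF : F.IsExt) (hc : F.Contractible) {P Q : Cᵒᵖ ⥤ Type}
    (hP : Pool.Agent.HH.IsModel F P) (hQ : Pool.Agent.HH.IsModel F Q) (φ : P ⟶ Q)
    {X : Cptd (EE C)} {γ : X.V → (GG F P).C} (hγ : ∀ v, X.ok v → AsgAt X (MD hF P) γ v)
    (t : (EE C).T X.V) (ht : X.tok t) :
    natC F φ ((MD hF P).eval γ t) = (MD hF Q).eval (fun v => natC F φ (γ v)) t := by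
  have := MD_opLaws hF hc hP
  induction t with
  | var v => rfl
  | op k δ ih =>
    have ht' := (tok_op X k δ).1 ht
    obtain ⟨hk, hδ⟩ := ht'
    have key : ∀ p, MapAt ((EE C).ar k) (MD hF P).toGlob (fun p => (MD hF P).eval γ (δ p)) p := by
      intro p
      obtain ⟨h1, h2, h3⟩ := hδ p
      obtain ⟨i1, i2, i3⟩ := eval_mapAt hγ (δ p) h1
      refine ⟨i1, i2.trans h2, fun hp => ?_⟩
      obtain ⟨j1, j2⟩ := h3 hp
      have hp' : 0 < X.m.dim (δ p) := by rw [h2]; exact hp
      obtain ⟨k1, k2⟩ := i3 hp'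
      exact ⟨k1.trans (congrArg ((MD hF P).eval γ) j1), k2.trans (congrArg ((MD hF P).eval γ) j2)⟩
    have ih' : (fun p => natC F φ ((MD hF P).eval γ (δ p))) =
        fun p => (MD hF Q).eval (fun v => natC F φ (γ v)) (δ p) :=
      funext fun p => ih p (hδ p).1
    cases k with
    | inl k =>
      have h1 := natC_app hF hP hQ φ (opC hF k) (fun p => (MD hF P).eval γ (δ p)) key
      refine h1.trans ?_
      exact congrArg (app hF Q (opC hF k)) ih'
    | inr k =>
      have h1 := natC_app hF hP hQ φ (opE k.2.2.2 (rhoX hF k.2.1) k.2.2.1)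
        (fun p => (MD hF P).eval γ (δ p)) key
      refine h1.trans ?_
      exact congrArg (app hF Q (opE k.2.2.2 (rhoX hF k.2.1) k.2.2.1)) ih'

/-- the natural transformation classified by an element -/
def yon {P : Cᵒᵖ ⥤ Type} {X : C} (x : P.obj (op X)) : yoneda.obj X ⟶ P where
  app Z := TypeCat.ofHom fun f => P.map f.op x
  naturality Z W g := by
    ext f
    show P.map (g.unop ≫ f).op x = P.map g (P.map f.op x)
    rw [op_comp, P.map_comp]
    rfl

/-- the action on an element commutes with the evaluation of typed terms -/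
theorem act_eval (hF : F.IsExt) (hc : F.Contractible) {P : Cᵒᵖ ⥤ Type}
    (hP : Pool.Agent.HH.IsModel F P) {A : PC} (x : P.obj (op (rO hF A)))
    (t : (EE C).T A.P) (ht : (ofGlob (EE C) A.G).tok t) :
    act F P x ((MD hF (yoneda.obj (rO hF A))).eval (leg hF A) t) =
      (MD hF P).eval (fun p => act F P x (leg hF A p)) t :=
  natC_eval_io hF hc (yoneda_isModel (F := F) (rO hF A)) hP (yon x) (X := ofGlob (EE C) A.G)
    (γ := leg hF A) (fun p _ => asgAt_ofGlob ((leg_spec hF A).1 p)) t ht

/-- the globular map of an element at the object of a code -/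
noncomputable def toG (hF : F.IsExt) (hc : F.Contractible) (G : OMod F) (A : PC)
    (x : G.obj.obj (op (rO hF A))) : GMap (MDR hF hc G) A :=
  ⟨fun p => ⟨act F G.obj x (leg hF A p), trivial⟩, fun p => act_leg_mapAt hF G.obj x p⟩

theorem toG_bijective (hF : F.IsExt) (hc : F.Contractible) (G : OMod F) (A : PC) :
    Function.Bijective (toG hF hc G A) := by
  constructor
  · intro x y h
    obtain ⟨z, -, hz⟩ := rO_up hF G.property (fun p => act F G.obj y (leg hF A p))
      (act_leg_mapAt hF G.obj y)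
    have h1 : ∀ p, act F G.obj x (leg hF A p) = act F G.obj y (leg hF A p) := fun p =>
      congrArg (fun f : GMap (MDR hF hc G) A => (f.1 p).1) h
    rw [hz x h1, hz y fun _ => rfl]
  · intro f
    obtain ⟨x, hx, -⟩ := rO_up hF G.property (fun p => (f.1 p).1) f.2
    exact ⟨x, Subtype.ext (funext fun p => Subtype.ext (hx p))⟩

theorem exists_iota (hC : IsCoherator F) :
    ∃ (L : C ⥤ Syn (EE C)) (_ : (F.map L).Iso (synG (EE C))), F.Preserves L ∧
      Nonempty (L ⋙ rhoF hC.ext hC.contractible ≅ 𝟭 C) := by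
  obtain ⟨a, -⟩ := rhoF_globes hC.ext hC.contractible
  have hM : F.Preserves (𝟭 C) := fun T X ε h => h
  have m : (F.map (𝟭 C)).Iso ((synG (EE C)).map (rhoF hC.ext hC.contractible)) := a
  obtain ⟨L, l, β, hL, -⟩ := Pool.Agent.HH.lift hC (synG (EE C)) (rhoF hC.ext hC.contractible)
    synG_isExt (rhoF_preserves hC.ext hC.contractible) (hC.ext.iso a)
    (rhoF_rel hC.ext hC.contractible) (𝟭 C) hM m
  exact ⟨L, l, hL, ⟨β⟩⟩

/-- the comparison of presheaves -/
noncomputable def isoP (hF : F.IsExt) (hc : F.Contractible)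
    (a : ((synG (EE C)).map (rhoF hF hc)).Iso F) (G : OMod F) :
    ((Pool.Agent.HH.pull (rhoF hF hc) (rhoF_preserves hF hc) a).obj G).obj ≅
      ((nF (EE C)).obj ((UF hF hc).obj G)).obj :=
  NatIso.ofComponents (fun X => (Equiv.ofBijective _ (toG_bijective hF hc G X.unop.A)).toIso) (by
    intro X Y f
    ext x
    refine Subtype.ext (funext fun p => Subtype.ext ?_)
    show act F G.obj (G.obj.map ((rhoF hF hc).map f.unop).op x) (leg hF Y.unop.A p) =
      (MD hF G.obj).eval (fun p => act F G.obj x (leg hF X.unop.A p)) (f.unop.1 p)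
    rw [← act_push, rhoF_eval]
    exact act_eval hF hc G.property x (f.unop.1 p) (f.unop.2 p).1)

theorem uf_nf (hF : F.IsExt) (hc : F.Contractible) :
    ∃ (a : ((synG (EE C)).map (rhoF hF hc)).Iso F),
      Nonempty (UF hF hc ⋙ nF (EE C) ≅ Pool.Agent.HH.pull (rhoF hF hc) (rhoF_preserves hF hc) a) := by
  obtain ⟨a, -⟩ := rhoF_globes hF hc
  refine ⟨a.symm, ⟨Iso.symm (NatIso.ofComponents
    (fun G => ObjectProperty.isoMk _ (isoP hF hc a.symm G)) ?_)⟩⟩
  intro G G' φ
  apply ObjectProperty.hom_ext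
  ext X x
  refine Subtype.ext (funext fun p => Subtype.ext ?_)
  exact (natC_act (F := F) φ.hom x (leg hF X.unop.A p)).symm

theorem uv_iso (hC : IsCoherator F) {L : C ⥤ Syn (EE C)} (l : (F.map L).Iso (synG (EE C)))
    (hL : F.Preserves L) (β : L ⋙ rhoF hC.ext hC.contractible ≅ 𝟭 C) :
    Nonempty (UF hC.ext hC.contractible ⋙ nF (EE C) ⋙ Pool.Agent.HH.pull L hL l ≅
      𝟭 (OMod F)) := by
  obtain ⟨a, ⟨e⟩⟩ := uf_nf hC.ext hC.contractible
  refine ⟨(Functor.associator _ _ _).symm ≪≫ Functor.isoWhiskerRight e _ ≪≫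
    NatIso.ofComponents (fun G => ObjectProperty.isoMk _ (NatIso.ofComponents
      (fun X => G.obj.mapIso (β.app X.unop).op.symm) ?_)) ?_⟩
  · intro X Y f
    show G.obj.map _ ≫ G.obj.map _ = G.obj.map _ ≫ G.obj.map _
    rw [← G.obj.map_comp, ← G.obj.map_comp]
    congr 1
    exact (congrArg Quiver.Hom.op (β.inv.naturality f.unop)).symm
  · intro G G' φ
    apply ObjectProperty.hom_ext
    ext X x
    exact ConcreteCategory.congr_hom (φ.hom.naturality (β.app X.unop).op.symm.hom).symm x

end HH
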