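import Pool.Agent.HH.Core

/-!
# HH part 3: isomorphisms of computads
-/

set_option autoImplicit false

namespace HH

/-- isomorphisms of computads -/
def Cptd.IsoP {S : Sig} (X Y : Cptd S) (σ : X.V → S.T Y.V) (τ : Y.V → S.T X.V) : Prop :=
  (∀ v, X.ok v → AsgAt X Y.m σ v) ∧ (∀ v, Y.ok v → AsgAt Y X.m τ v) ∧
    (∀ v, X.ok v → (σ v).bind τ = .var v) ∧ (∀ v, Y.ok v → (τ v).bind σ = .var v)

end HH
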