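import Pool.Agent.HH.Colim

/-!
# HH OFF-JPRES: the functors of a tower preserve globular sums (module to prove)

`iter_preserves`: induction on `m`; `K.G (n + m + 1) = (K.G (n + m)).map (K.T (n + m))`, `IsFreeAdj.pres`
and `Preserves.comp`. To avoid equalities between `K.G (n + m)` and `(K.G n).map (K.iter n m)` prove
by induction on `m` that these two families of globes are equal or isomorphic: `G_iterIso`
(`G (n + (m + 1))` is `(G (n + m)).map (T (n + m))` by definition; use `Iso.mapIso` and `mapComp`).

`J_preserves`: let `(X, ε)` be a globular sum in `A n` with table `T`. Let `Y : C` and let `y k` be a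
compatible family of arrows `(J n).obj (D (T.i k)) ⟶ Y`. By `surj` there are `n'`, `Y' : A n'` and
`J n' Y' ≅ Y`. Bring `X` and `Y'` to a common stage `N` (the iterated functors preserve globular
sums). The finitely many arrows `y k` are represented by arrows `y' k` at a later stage (`full`, there
are `T.m + 1` of them, take a stage after all of them); the finitely many gluing equations hold at a
later stage by `faithful`. At this stage the image of `X` is still a globular sum, so there is an
arrow `X ⟶ Y'` inducing the `y' k`; its image in `C` solves the problem. Uniqueness: two solutions are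
represented at a common stage (`full`), they agree on the legs at a later stage (`faithful`), so
they are equal there.

Hint: for the comparison of two stages see the remark in OFF-COLIM (`n ≤ N`, functor `K : A n ⥤ A N`).
-/

universe u

open CategoryTheory Opposite

namespace Pool.Agent.HH

namespace PreTower

/-- The globes of the stage `n + m` are the images of those of the stage `n`. -/
theorem G_iterIso (K : PreTower.{u}) (n m : ℕ) :
    Nonempty (((K.G n).map (K.iter n m)).Iso (K.G (n + m))) := by
  induction m with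
  | zero =>
    exact ⟨{
      e := fun i => Iso.refl _
      s_e := fun i => by
        change (K.G n).s i ≫ 𝟙 _ = 𝟙 _ ≫ (K.G n).s i
        rw [Category.comp_id, Category.id_comp]
      t_e := fun i => by
        change (K.G n).t i ≫ 𝟙 _ = 𝟙 _ ≫ (K.G n).t i
        rw [Category.comp_id, Category.id_comp] }⟩
  | succ m ih =>
    obtain ⟨a⟩ := ih
    exact ⟨((K.G n).mapComp (K.iter n m) (K.T (n + m))).symm.trans (a.mapIso (K.T (n + m)))⟩

/-- The globes of all stages have isomorphic images in the colimit. -/
theorem Cocone.G_iso {K : PreTower.{u}} {C : Type u} [SmallCategory C] (c : K.Cocone C) (n : ℕ) :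
    Nonempty (((K.G n).map (c.J n)).Iso (K.G0.map (c.J 0))) := by
  induction n with
  | zero => exact ⟨Globes.Iso.refl _⟩
  | succ n ih =>
    obtain ⟨a⟩ := ih
    exact ⟨((K.G n).mapComp (K.T n) (c.J (n + 1))).trans
      (((K.G n).isoOfNatIso (c.φ n)).trans a)⟩

/-! ### representatives at later stages -/

/-- `g` represents `f` at the stage `n + m` -/
private def Rep {K : PreTower.{u}} {C : Type u} [SmallCategory C] (c : K.Cocone C) {n : ℕ}
    {X Y : K.A n} (f : (c.J n).obj X ⟶ (c.J n).obj Y) (m : ℕ)
    (g : (K.iter n m).obj X ⟶ (K.iter n m).obj Y) : Prop :=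
  (c.J (n + m)).map g ≫ (c.iterIso n m).hom.app Y = (c.iterIso n m).hom.app X ≫ f

private theorem iterIso_succ {K : PreTower.{u}} {C : Type u} [SmallCategory C] (c : K.Cocone C)
    (n m : ℕ) (X : K.A n) : (c.iterIso n (m + 1)).hom.app X =
      (c.φ (n + m)).hom.app ((K.iter n m).obj X) ≫ (c.iterIso n m).hom.app X := by
  change 𝟙 _ ≫ _ ≫ _ = _
  rw [Category.id_comp]
  rfl

private theorem Rep.mono {K : PreTower.{u}} {C : Type u} [SmallCategory C] {c : K.Cocone C} {n : ℕ}
    {X Y : K.A n} {f : (c.J n).obj X ⟶ (c.J n).obj Y} {m m' : ℕ} (h : m ≤ m')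
    (hf : ∃ g, Rep c f m g) : ∃ g, Rep c f m' g := by
  induction m', h using Nat.le_induction with
  | base => exact hf
  | succ m' _ ih =>
    obtain ⟨g, hg⟩ := ih
    refine ⟨(K.T (n + m')).map g, ?_⟩
    have nat : (c.J (n + m' + 1)).map ((K.T (n + m')).map g) ≫
        (c.φ (n + m')).hom.app ((K.iter n m').obj Y) =
        (c.φ (n + m')).hom.app ((K.iter n m').obj X) ≫ (c.J (n + m')).map g :=
      (c.φ (n + m')).hom.naturality g
    unfold Rep at hg ⊢
    rw [iterIso_succ, iterIso_succ]
    calc (c.J (n + m' + 1)).map ((K.T (n + m')).map g) ≫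
        (c.φ (n + m')).hom.app ((K.iter n m').obj Y) ≫ (c.iterIso n m').hom.app Y
        = ((c.J (n + m' + 1)).map ((K.T (n + m')).map g) ≫
          (c.φ (n + m')).hom.app ((K.iter n m').obj Y)) ≫ (c.iterIso n m').hom.app Y :=
          (Category.assoc _ _ _).symm
      _ = ((c.φ (n + m')).hom.app ((K.iter n m').obj X) ≫ (c.J (n + m')).map g) ≫
          (c.iterIso n m').hom.app Y := by rw [nat]
      _ = (c.φ (n + m')).hom.app ((K.iter n m').obj X) ≫ (c.iterIso n m').hom.app X ≫ f := by
          rw [Category.assoc, hg]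
      _ = _ := (Category.assoc _ _ _).symm

private theorem iter_mono {K : PreTower.{u}} {n : ℕ} {X Y : K.A n} {f g : X ⟶ Y} {m m' : ℕ}
    (h : m ≤ m') (hf : (K.iter n m).map f = (K.iter n m).map g) :
    (K.iter n m').map f = (K.iter n m').map g := by
  induction m', h using Nat.le_induction with
  | base => exact hf
  | succ m' _ ih => exact congrArg (K.T (n + m')).map ih

/-- simultaneous representatives -/
private theorem exists_reps {K : PreTower.{u}} {C : Type u} [SmallCategory C] {c : K.Cocone C}
    (hc : c.IsColim) {n : ℕ} {ι : Type} [Finite ι] (X Y : ι → K.A n)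
    (f : ∀ i, (c.J n).obj (X i) ⟶ (c.J n).obj (Y i)) : ∃ m, ∀ i, ∃ g, Rep c (f i) m g := by
  choose m hm using fun i => hc.full n (X i) (Y i) (f i)
  obtain ⟨M, hM⟩ := Set.Finite.bddAbove (Set.finite_range m)
  exact ⟨M, fun i => Rep.mono (hM ⟨i, rfl⟩) (hm i)⟩

private theorem exists_eqs {K : PreTower.{u}} {C : Type u} [SmallCategory C] {c : K.Cocone C}
    (hc : c.IsColim) {n : ℕ} {ι : Type} [Finite ι] (X Y : ι → K.A n) (f g : ∀ i, X i ⟶ Y i)
    (h : ∀ i, (c.J n).map (f i) = (c.J n).map (g i)) :
    ∃ m, ∀ i, (K.iter n m).map (f i) = (K.iter n m).map (g i) := by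
  choose m hm using fun i => hc.faithful n (X i) (Y i) (f i) (g i) (h i)
  obtain ⟨M, hM⟩ := Set.Finite.bddAbove (Set.finite_range m)
  exact ⟨M, fun i => iter_mono (hM ⟨i, rfl⟩) (hm i)⟩

/-- an object of the colimit comes from all late stages -/
private theorem exists_obj {K : PreTower.{u}} {C : Type u} [SmallCategory C] {c : K.Cocone C}
    (hc : c.IsColim) (n : ℕ) (Y : C) :
    ∃ (m : ℕ) (Y' : K.A (n + m)), Nonempty ((c.J (n + m)).obj Y' ≅ Y) := by
  obtain ⟨n', Y', ⟨e⟩⟩ := hc.surj Y
  have key : ∀ N, n' ≤ N → ∃ Y' : K.A N, Nonempty ((c.J N).obj Y' ≅ Y) := by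
    intro N hN
    induction N, hN using Nat.le_induction with
    | base => exact ⟨Y', ⟨e⟩⟩
    | succ N _ ih =>
      obtain ⟨Y'', ⟨e'⟩⟩ := ih
      exact ⟨(K.T N).obj Y'', ⟨(c.φ N).app Y'' ≪≫ e'⟩⟩
  exact ⟨n', key (n + n') (Nat.le_add_left _ _)⟩

end PreTower

namespace Tower

theorem T_preserves (K : Tower.{u}) (n : ℕ) : (K.G n).Preserves (K.T n) := (K.free n).pres

theorem G_isExt (K : Tower.{u}) : ∀ n, (K.G n).IsExt
  | 0 => K.universal.ext
  | n + 1 => (K.free n).ext

theorem iter_preserves (K : Tower.{u}) (n m : ℕ) : (K.G n).Preserves (K.iter n m) := by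
  induction m with
  | zero => exact fun T X ε hs => hs
  | succ m ih =>
    obtain ⟨a⟩ := K.G_iterIso n m
    exact ih.comp ((K.T_preserves (n + m)).iso a.symm)

/-- The universal property for a target which comes from the same stage. -/
private theorem core (K : Tower.{u}) {C : Type u} [SmallCategory C] (c : K.toPreTower.Cocone C)
    (hc : c.IsColim) (n : ℕ) {F : Globes (K.A n)} (a : F.Iso (K.G n)) {T : Table} {X : K.A n}
    {ε : ∀ k, F.D (T.i k) ⟶ X} (hs : F.IsSum T X ε) (Y : K.A n)
    (y : ∀ k, (c.J n).obj (F.D (T.i k)) ⟶ (c.J n).obj Y) (hy : (F.map (c.J n)).Compat T y) :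
    ∃! f : (c.J n).obj X ⟶ (c.J n).obj Y, ∀ k, (c.J n).map (ε k) ≫ f = y k := by
  have hF : ∀ m, F.Preserves (K.iter n m) := fun m => (K.iter_preserves n m).iso a.symm
  have hF2 : ∀ m m', (F.map (K.iter n m)).Preserves (K.iter (n + m) m') := by
    intro m m'
    obtain ⟨b⟩ := K.G_iterIso n m
    exact (K.iter_preserves (n + m) m').iso ((a.mapIso (K.iter n m)).trans b).symm
  have hsum : ∀ m m', ((F.map (K.iter n m)).map (K.iter (n + m) m')).IsSum T
      ((K.iter (n + m) m').obj ((K.iter n m).obj X))
      (fun k => (K.iter (n + m) m').map ((K.iter n m).map (ε k))) :=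
    fun m m' => hF2 m m' T _ _ (hF m T X ε hs)
  -- naturality of the isomorphisms
  have nat1 : ∀ (m : ℕ) {Z Z' : K.A n} (f : Z ⟶ Z'),
      (c.J (n + m)).map ((K.iter n m).map f) ≫ (c.iterIso n m).hom.app Z' =
        (c.iterIso n m).hom.app Z ≫ (c.J n).map f :=
    fun m _ _ f => (c.iterIso n m).hom.naturality f
  have nat2 : ∀ (m m' : ℕ) {Z Z' : K.A (n + m)} (f : Z ⟶ Z'),
      (c.J (n + m + m')).map ((K.iter (n + m) m').map f) ≫ (c.iterIso (n + m) m').hom.app Z' =
        (c.iterIso (n + m) m').hom.app Z ≫ (c.J (n + m)).map f :=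
    fun m m' _ _ f => (c.iterIso (n + m) m').hom.naturality f
  refine existsUnique_of_exists_of_unique ?_ ?_
  · obtain ⟨m, hm⟩ := PreTower.exists_reps hc (fun k => F.D (T.i k)) (fun _ => Y) y
    choose g hg using hm
    -- the gluing conditions in `C`
    have h1 : ∀ k : Fin T.m,
        (c.J (n + m)).map ((K.iter n m).map (F.sTo (T.lt_left k).le) ≫ g k.castSucc) =
        (c.J (n + m)).map ((K.iter n m).map (F.tTo (T.lt_right k).le) ≫ g k.succ) := by
      intro k
      have e1 := hy k
      rw [Globes.sTo_map, Globes.tTo_map] at e1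
      have g1 : (c.J (n + m)).map (g k.castSucc) ≫ (c.iterIso n m).hom.app Y =
        (c.iterIso n m).hom.app _ ≫ y k.castSucc := hg k.castSucc
      have g2 : (c.J (n + m)).map (g k.succ) ≫ (c.iterIso n m).hom.app Y =
        (c.iterIso n m).hom.app _ ≫ y k.succ := hg k.succ
      rw [← cancel_mono ((c.iterIso n m).hom.app Y), Functor.map_comp, Functor.map_comp,
        Category.assoc, Category.assoc, g1, g2, ← Category.assoc, ← Category.assoc, nat1, nat1,
        Category.assoc, Category.assoc, e1]
    obtain ⟨m', hm'⟩ := PreTower.exists_eqs hc _ _ _ _ h1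
    obtain ⟨f, hf, -⟩ := (hsum m m').desc _ (fun k => (K.iter (n + m) m').map (g k)) (by
      intro k
      rw [Globes.sTo_map, Globes.tTo_map, Globes.sTo_map, Globes.tTo_map, ← Functor.map_comp,
        ← Functor.map_comp]
      exact hm' k)
    refine ⟨(c.iterIso n m).inv.app X ≫ (c.iterIso (n + m) m').inv.app _ ≫
      (c.J (n + m + m')).map f ≫ (c.iterIso (n + m) m').hom.app _ ≫ (c.iterIso n m).hom.app Y,
      fun k => ?_⟩
    have n1 : (c.J n).map (ε k) ≫ (c.iterIso n m).inv.app X =
        (c.iterIso n m).inv.app _ ≫ (c.J (n + m)).map ((K.iter n m).map (ε k)) :=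
      (c.iterIso n m).inv.naturality (ε k)
    have n2 : (c.J (n + m)).map ((K.iter n m).map (ε k)) ≫ (c.iterIso (n + m) m').inv.app _ =
        (c.iterIso (n + m) m').inv.app _ ≫
          (c.J (n + m + m')).map ((K.iter (n + m) m').map ((K.iter n m).map (ε k))) :=
      (c.iterIso (n + m) m').inv.naturality _
    have g1 : (c.J (n + m)).map (g k) ≫ (c.iterIso n m).hom.app Y =
        (c.iterIso n m).hom.app _ ≫ y k := hg k
    rw [← Category.assoc, n1, Category.assoc, ← Category.assoc ((c.J (n + m)).map _), n2,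
      Category.assoc, ← Category.assoc ((c.J (n + m + m')).map _), ← Functor.map_comp, hf k,
      ← Category.assoc ((c.J (n + m + m')).map _), nat2, Category.assoc,
      Iso.inv_hom_id_app_assoc, g1]
    exact Iso.inv_hom_id_app_assoc _ _ _
  · intro f f' h1 h2
    obtain ⟨m, hm⟩ := PreTower.exists_reps hc (fun _ : Bool => X) (fun _ => Y)
      (fun b => if b then f else f')
    obtain ⟨g, hg⟩ := hm true
    obtain ⟨g', hg'⟩ := hm false
    have g1 : (c.J (n + m)).map g ≫ (c.iterIso n m).hom.app Y =
        (c.iterIso n m).hom.app X ≫ f := hg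
    have g2 : (c.J (n + m)).map g' ≫ (c.iterIso n m).hom.app Y =
        (c.iterIso n m).hom.app X ≫ f' := hg'
    have h3 : ∀ k, (c.J (n + m)).map ((K.iter n m).map (ε k) ≫ g) =
        (c.J (n + m)).map ((K.iter n m).map (ε k) ≫ g') := by
      intro k
      rw [← cancel_mono ((c.iterIso n m).hom.app Y), Functor.map_comp, Functor.map_comp,
        Category.assoc, Category.assoc, g1, g2, ← Category.assoc, ← Category.assoc, nat1,
        Category.assoc, Category.assoc, h1, h2]
    obtain ⟨m', hm'⟩ := PreTower.exists_eqs hc _ _ _ _ h3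
    have h4 : (K.iter (n + m) m').map g = (K.iter (n + m) m').map g' := by
      apply (hsum m m').hom_ext
      intro k
      rw [← Functor.map_comp, ← Functor.map_comp]
      exact hm' k
    have h5 : (c.J (n + m)).map g = (c.J (n + m)).map g' := by
      rw [← cancel_epi ((c.iterIso (n + m) m').hom.app _), ← nat2, ← nat2, h4]
    rw [← cancel_epi ((c.iterIso n m).hom.app X), ← g1, ← g2, h5]

theorem J_preserves (K : Tower.{u}) {C : Type u} [SmallCategory C] (c : K.toPreTower.Cocone C)
    (hc : c.IsColim) (n : ℕ) : (K.G n).Preserves (c.J n) := by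
  intro T X ε hs
  refine ⟨fun k => ?_, fun Y y hy => ?_⟩
  · rw [Globes.sTo_map, Globes.tTo_map, ← Functor.map_comp, ← Functor.map_comp, hs.glue k]
  · obtain ⟨m, Y', ⟨e⟩⟩ := PreTower.exists_obj hc n Y
    obtain ⟨a⟩ := K.G_iterIso n m
    have hs' := K.iter_preserves n m T X ε hs
    have hy' : (((K.G n).map (K.iter n m)).map (c.J (n + m))).Compat T
        (fun k => (c.iterIso n m).hom.app _ ≫ y k ≫ e.inv) := by
      intro k
      have e1 := hy k
      rw [Globes.sTo_map, Globes.tTo_map] at e1
      rw [Globes.sTo_map, Globes.tTo_map, Globes.sTo_map, Globes.tTo_map]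
      have n1 : ∀ {Z Z' : K.A n} (f : Z ⟶ Z'),
          (c.J (n + m)).map ((K.iter n m).map f) ≫ (c.iterIso n m).hom.app Z' =
            (c.iterIso n m).hom.app Z ≫ (c.J n).map f :=
        fun f => (c.iterIso n m).hom.naturality f
      rw [← Category.assoc, n1, ← Category.assoc ((c.J (n + m)).map _), n1, Category.assoc,
        Category.assoc, ← Category.assoc ((c.J n).map _), e1, Category.assoc]
    obtain ⟨f, hf, hu⟩ := core K c hc (n + m) a hs' Y' _ hy'
    refine ⟨(c.iterIso n m).inv.app X ≫ f ≫ e.hom, fun k => ?_, fun f' hf' => ?_⟩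
    · have n2 : (c.J n).map (ε k) ≫ (c.iterIso n m).inv.app X =
          (c.iterIso n m).inv.app _ ≫ (c.J (n + m)).map ((K.iter n m).map (ε k)) :=
        (c.iterIso n m).inv.naturality (ε k)
      change (c.J n).map (ε k) ≫ _ = y k
      rw [← Category.assoc, n2, Category.assoc, ← Category.assoc ((c.J (n + m)).map _), hf k,
        Category.assoc, Category.assoc, Iso.inv_hom_id, Category.comp_id]
      exact Iso.inv_hom_id_app_assoc _ _ _
    · have h1 := hu ((c.iterIso n m).hom.app X ≫ f' ≫ e.inv) (fun k => by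
        have n1 : (c.J (n + m)).map ((K.iter n m).map (ε k)) ≫ (c.iterIso n m).hom.app X =
              (c.iterIso n m).hom.app _ ≫ (c.J n).map (ε k) :=
          (c.iterIso n m).hom.naturality (ε k)
        have h2 : (c.J n).map (ε k) ≫ f' = y k := hf' k
        rw [← Category.assoc, n1, Category.assoc, ← Category.assoc ((c.J n).map _), h2])
      rw [← h1, Category.assoc, Category.assoc, Iso.inv_hom_id, Category.comp_id,
        Iso.inv_hom_id_app_assoc]

end Tower

end Pool.Agent.HH
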