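import Pool.Agent.HH.KConeInd
import Pool.Agent.HH.ResLem
import Pool.Agent.HH.L0Ex

/-!
# HH part 3, module KCone: cones are contractible
-/

set_option autoImplicit false

namespace HH

open Classical CategoryTheory

variable {S : Sig}

theorem KC_cone [S.Good] [S.Strat] (h : S.Hyp) {z : ZFam S} {N : ℕ}
    (hz : ∀ n, 2 ≤ n → n ≤ N → ZGoodAt z n) {m : ℕ} {𝒜 : Finset ℕ → Prop}
    (h𝒜 : SubCl 𝒜) (hne : ∀ B, 𝒜 B → B.Nonempty) (hm : ∀ B, 𝒜 B → ∀ a ∈ B, a < m)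
    (hN : ∀ B, 𝒜 B → B.card + 1 ≤ N) : (KC z (coneP m 𝒜)).Ctr := by
  refine KC_cone_ind hz h𝒜 hne hm hN Cptd.Ctr ?_ ?_ ?_
  · refine Ctr.of_retract (X := KC z (fun B => B = {m})) (Y := ofGlob S (diskG 0))
      (fun _ => .var (0, false)) (fun _ => .var ({m} : Finset ℕ)) ?_ ?_ ?_ ?_
    · rintro C ⟨_, hC⟩
      obtain rfl := hC
      refine ⟨Or.inr ⟨rfl, rfl⟩, ?_, fun h0 => ?_⟩
      · change 0 = ({m} : Finset ℕ).card - 1
        rw [Finset.card_singleton]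
      · change 0 < ({m} : Finset ℕ).card - 1 at h0
        rw [Finset.card_singleton] at h0
        omega
    · rintro ⟨i, ε⟩ hv
      have hi : i = 0 := by
        rcases hv with hv | hv
        · exact absurd hv (Nat.not_lt_zero _)
        · exact hv.1
      subst hi
      refine ⟨⟨Finset.singleton_nonempty m, rfl⟩, ?_, fun h0 => ?_⟩
      · change ({m} : Finset ℕ).card - 1 = 0
        rw [Finset.card_singleton]
      · exact absurd h0 (lt_irrefl 0)
    · rintro C ⟨_, hC⟩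
      obtain rfl := hC
      rfl
    · exact ⟨⟨.var (0, false), Or.inr ⟨rfl, rfl⟩, rfl⟩, fun L => h _ (ArCl.disk 0) L⟩
  · rintro X hX ⟨⟨x, hx, hx0⟩, hc⟩ okI n b hb
    refine ⟨⟨x.map .z, ?_⟩, fun L => expOK_all h L n X okI b hb (hc L)⟩
    have h1 := CylGood_exp_z_mapAt (okI := okI) (n := n) (b := b) (X := X) x hx
    exact ⟨h1.1, h1.2.1.trans hx0⟩
  · rintro X Y σ τ _ _ ⟨h1, h2, _, h4⟩ hX
    exact Ctr.of_retract τ σ h2 h1 h4 hX

end HH
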