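import Pool.Agent.HH.Enum
import Pool.Agent.HH.Ext2F

/-!
# HH part 3, d6: the computads of names are good
-/

set_option autoImplicit false

namespace HH

open Classical CategoryTheory

variable {S : Sig}

/-- renamings agreeing on the variables of a term -/
theorem Tm.map_congr_hasVar {V W : Type} {f g : V → W} (t : S.T V)
    (h : ∀ v, t.HasVar v → f v = g v) : t.map f = t.map g := by
  induction t with
  | var v => simp only [Tm.map_var]; rw [h v rfl]
  | op k δ ih =>
    simp only [Tm.map_op]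
    congr 1
    funext p
    exact ih p fun v hv => h v ⟨p, hv⟩

/-- variables of `z n` -/
theorem ZGoodAt.var_sub {z : ZFam S} {n : ℕ} (h : ZGoodAt z n) {C : Finset ℕ}
    (hC : (z n).HasVar C) : C.Nonempty ∧ C ⊂ Finset.range n := by
  have h1 : (KC z (hornP n)).ok C := hasVar_ok h.ok hC
  exact ⟨h1.1, h1.2.1⟩

/-- the source of an image -/
theorem KC_src_image {z : ZFam S} {B C : Finset ℕ}
    (hz : ∀ n, 2 ≤ n → n ≤ B.card → ZGoodAt z n) (hC : C ⊆ Finset.range B.card)
    (hC2 : 2 ≤ C.card) :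
    (z (C.image (enumF B)).card).map (fun D => D.image (enumF (C.image (enumF B)))) =
      ((z C.card).map (fun D => D.image (enumF C))).bind
        (fun D => .var (D.image (enumF B))) := by
  rw [card_image_enumF hC, Tm.map_bind]
  have hle : C.card ≤ B.card := by
    have := Finset.card_le_card hC
    rwa [Finset.card_range] at this
  show _ = (z C.card).map (fun D => (D.image (enumF C)).image (enumF B))
  refine Tm.map_congr_hasVar _ fun D hD => ?_
  have h := (hz C.card hC2 hle).var_sub hD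
  exact (image_enumF_image hC h.2.subset).symm

/-- renaming along the enumeration of `B` is a well-typed substitution -/
theorem KC_rename {z : ZFam S} {B : Finset ℕ} (hz : ∀ n, 2 ≤ n → n ≤ B.card → ZGoodAt z n)
    {𝒜 ℬ : Finset ℕ → Prop} (hA : ∀ C, C.Nonempty → ℬ C → C ⊆ Finset.range B.card)
    (hB : ∀ C, C.Nonempty → ℬ C → 𝒜 (C.image (enumF B))) (C : Finset ℕ) (hC : (KC z ℬ).ok C) :
    AsgAt (KC z ℬ) (KC z 𝒜).m (fun C => .var (C.image (enumF B))) C := by
  obtain ⟨hne, hCB⟩ := hC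
  have hsub := hA C hne hCB
  refine ⟨⟨hne.image _, hB C hne hCB⟩, ?_, fun h0 => ⟨?_, ?_⟩⟩
  · show (C.image (enumF B)).card - 1 = C.card - 1
    rw [card_image_enumF hsub]
  · have h0' : 0 < C.card - 1 := h0
    exact KC_src_image hz hsub (by omega)
  · show (Tm.var (dmax (C.image (enumF B))) : S.T (Finset ℕ)) = Tm.var ((dmax C).image (enumF B))
    rw [dmax_image hsub]

/-- source of a variable, parallel to its target -/
theorem KC_src_par [S.Good] {z : ZFam S} {N : ℕ} (hz : ∀ n, 2 ≤ n → n ≤ N → ZGoodAt z n)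
    {𝒜 : Finset ℕ → Prop} {B : Finset ℕ} (hB : 2 ≤ B.card) (hBN : B.card ≤ N)
    (hsub : ∀ C, C ⊂ B → C.Nonempty → 𝒜 C) :
    (KC z 𝒜).Par ((KC z 𝒜).src B) (.var (dmax B)) ∧
      (KC z 𝒜).tdim ((KC z 𝒜).src B) + 2 = B.card := by
  have hz' : ∀ n, 2 ≤ n → n ≤ B.card → ZGoodAt z n := fun n h1 h2 => hz n h1 (h2.trans hBN)
  have hne : B.Nonempty := by
    rw [← Finset.card_pos]; omega
  have hzB := hz B.card hB hBN
  have hcd := card_dmax hne
  -- the renaming
  have hren : ∀ C, (KC z (hornP B.card)).ok C →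
      AsgAt (KC z (hornP B.card)) (KC z 𝒜).m (fun C => .var (C.image (enumF B))) C := by
    refine KC_rename hz' (fun C _ hC => hC.1.subset) (fun C hCne hC => ?_)
    refine hsub _ ?_ (hCne.image _)
    refine Finset.ssubset_iff_subset_ne.mpr ⟨image_enumF_subset hC.1.subset, fun he => ?_⟩
    have h1 := card_image_enumF hC.1.subset
    rw [he] at h1
    have h2 := Finset.card_lt_card hC.1
    rw [Finset.card_range] at h2
    omega
  obtain ⟨m1, m2, m3⟩ := eval_mapAt hren (z B.card) hzB.ok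
  have m1' : (KC z 𝒜).tok ((KC z 𝒜).src B) := m1
  have m2' : (KC z 𝒜).tdim ((KC z 𝒜).src B) = (KC z (hornP B.card)).tdim (z B.card) := m2
  have hd : (KC z 𝒜).tdim ((KC z 𝒜).src B) + 2 = B.card := by rw [m2']; exact hzB.dim
  have hdne : (dmax B).Nonempty := by
    rw [← Finset.card_pos]; omega
  have hdss : dmax B ⊂ B := by
    refine Finset.ssubset_iff_subset_ne.mpr ⟨dmax_subset B, fun he => ?_⟩
    rw [he] at hcd; omega
  refine ⟨⟨m1', ⟨hdne, hsub _ hdss hdne⟩, ?_, fun h0 => ?_⟩, hd⟩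
  · show (KC z 𝒜).tdim ((KC z 𝒜).src B) = (dmax B).card - 1
    omega
  · have h0' : 0 < (KC z 𝒜).tdim ((KC z 𝒜).src B) := h0
    have h2 : 2 < B.card := by omega
    have h0'' : 0 < (KC z (hornP B.card)).m.toGlob.dim (z B.card) := by
      show 0 < (KC z (hornP B.card)).tdim (z B.card)
      rw [← m2']; exact h0'
    obtain ⟨m4, m5⟩ := m3 h0''
    have hr : Finset.range (B.card - 1) ⊆ Finset.range B.card :=
      Finset.range_subset_range.mpr (by omega)
    refine ⟨?_, ?_⟩
    · have e1 : (KC z 𝒜).tsrc ((KC z 𝒜).src B) =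
          (KC z 𝒜).m.eval (fun C => .var (C.image (enumF B)))
            ((KC z (hornP B.card)).tsrc (z B.card)) := m4
      have e2 := KC_src_image hz' hr (by rw [Finset.card_range]; omega)
      rw [← dmax_eq_image hne] at e2
      show (KC z 𝒜).tsrc ((KC z 𝒜).src B) = (KC z 𝒜).src (dmax B)
      rw [e1, hzB.src h2, m_eval]
      exact e2.symm
    · have e1 : (KC z 𝒜).ttgt ((KC z 𝒜).src B) =
          (KC z 𝒜).m.eval (fun C => .var (C.image (enumF B)))
            ((KC z (hornP B.card)).ttgt (z B.card)) := m5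
      show (KC z 𝒜).ttgt ((KC z 𝒜).src B) = Tm.var (dmax (dmax B))
      rw [e1, hzB.tgt h2]
      show Tm.var ((Finset.range (B.card - 2)).image (enumF B)) = Tm.var (dmax (dmax B))
      rw [dmax_eq_image hne, dmax_image hr]
      have e3 := dmax_range (B.card - 2)
      rw [show B.card - 2 + 1 = B.card - 1 by omega] at e3
      rw [e3]

theorem KC_good [S.Good] {z : ZFam S} {N : ℕ} (hz : ∀ n, 2 ≤ n → n ≤ N → ZGoodAt z n)
    {𝒜 : Finset ℕ → Prop} (h𝒜 : SubCl 𝒜) (hN : ∀ B, B.Nonempty → 𝒜 B → B.card ≤ N) :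
    (KC z 𝒜).Good := by
  have key : ∀ B, (KC z 𝒜).ok B → 0 < (KC z 𝒜).dim B →
      (KC z 𝒜).Par ((KC z 𝒜).src B) (.var (dmax B)) ∧
      (KC z 𝒜).tdim ((KC z 𝒜).src B) + 2 = B.card ∧ 2 ≤ B.card := by
    intro B hB h0
    have h0' : 0 < B.card - 1 := h0
    have h := KC_src_par (𝒜 := 𝒜) hz (B := B) (by omega) (hN B hB.1 hB.2)
      (fun C hC hCne => h𝒜 B C hB.2 hC.subset hCne)
    exact ⟨h.1, h.2, by omega⟩
  refine ⟨fun B hB h0 => (key B hB h0).1.1, fun B hB h0 => (key B hB h0).1.2.1,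
    fun B hB h0 => ?_, fun B hB h0 => ?_, fun B hB h1 => ?_, fun B hB h1 => ?_⟩
  · obtain ⟨-, h2, h3⟩ := key B hB h0
    show (KC z 𝒜).tdim ((KC z 𝒜).src B) + 1 = B.card - 1
    omega
  · obtain ⟨h1, h2, h3⟩ := key B hB h0
    have h4 : (KC z 𝒜).tdim ((KC z 𝒜).src B) = (dmax B).card - 1 := h1.2.2.1
    have h5 := card_dmax hB.1
    show (dmax B).card - 1 + 1 = B.card - 1
    omega
  · obtain ⟨h2, h3, h4⟩ := key B hB (by omega)
    have h5 : 1 < B.card - 1 := h1
    have h6 : 0 < (KC z 𝒜).tdim ((KC z 𝒜).src B) := by omega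
    exact (h2.2.2.2 h6).1.symm
  · obtain ⟨h2, h3, h4⟩ := key B hB (by omega)
    have h5 : 1 < B.card - 1 := h1
    have h6 : 0 < (KC z 𝒜).tdim ((KC z 𝒜).src B) := by omega
    exact (h2.2.2.2 h6).2

end HH
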