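import Pool.Agent.HH.Defs3
import Pool.Agent.HH.CylGood
import Pool.Agent.HH.Enum
import Pool.Agent.HH.KGood
import Pool.Agent.HH.IsoP

/-!
# HH part 3, module KConeInd: cones are obtained from a point by expansions
-/

set_option autoImplicit false

namespace HH

open Classical CategoryTheory

variable {S : Sig}

private theorem kco_tsrc (z : ZFam S) (𝒜 ℬ : Finset ℕ → Prop) (t : S.T (Finset ℕ)) :
    (KC z 𝒜).tsrc t = (KC z ℬ).tsrc t := by
  cases t <;> rfl

private theorem kco_ttgt (z : ZFam S) (𝒜 ℬ : Finset ℕ → Prop) (t : S.T (Finset ℕ)) :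
    (KC z 𝒜).ttgt t = (KC z ℬ).ttgt t := by
  cases t <;> rfl

private theorem kco_tdim (z : ZFam S) (𝒜 ℬ : Finset ℕ → Prop) (t : S.T (Finset ℕ)) :
    (KC z 𝒜).tdim t = (KC z ℬ).tdim t := by
  cases t <;> rfl

/-- the source of a variable -/
private noncomputable def kSrc (z : ZFam S) (C : Finset ℕ) : S.T (Finset ℕ) :=
  (z C.card).map (fun D => D.image (enumF C))

/-- The cone on the subsets of cardinality at most `k`. -/
private def kP (m : ℕ) (𝒜 : Finset ℕ → Prop) (k : ℕ) : Finset ℕ → Prop :=
  coneP m (fun B => 𝒜 B ∧ B.card ≤ k)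

private theorem kP_mono {m : ℕ} {𝒜 : Finset ℕ → Prop} {k : ℕ} {C : Finset ℕ} (h : kP m 𝒜 k C) :
    kP m 𝒜 (k + 1) C := by
  rcases h with h | h | h
  · exact Or.inl h
  · exact Or.inr (Or.inl ⟨h.1, h.2.trans (Nat.le_succ k)⟩)
  · exact Or.inr (Or.inr ⟨h.1, h.2.1, h.2.2.1, h.2.2.2.trans (Nat.le_succ k)⟩)

section step

variable {m : ℕ} {𝒜 : Finset ℕ → Prop}

/-- a subset of the horn of a cone -/
private theorem kP_horn {k : ℕ} (h𝒜 : SubCl 𝒜) {B : Finset ℕ} (hmB : ∀ a ∈ B, a < m) (hB : 𝒜 B)
    (hk : B.card = k + 1) {C : Finset ℕ} (hC : C.Nonempty) (hCB : C ⊂ insert m B) (hne : C ≠ B) :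
    kP m 𝒜 k C := by
  have hm : m ∉ B := fun h => lt_irrefl _ (hmB m h)
  by_cases hmC : m ∈ C
  · have h1 : C.erase m ⊆ B := by
      intro a ha
      rw [Finset.mem_erase] at ha
      exact (Finset.mem_insert.1 (hCB.1 ha.2)).resolve_left ha.1
    have h2 : C.erase m ≠ B := by
      intro h
      apply hCB.2
      rw [← h, Finset.insert_erase hmC]
    by_cases h3 : (C.erase m).Nonempty
    · refine Or.inr (Or.inr ⟨hmC, h3, h𝒜 B _ hB h1 h3, ?_⟩)
      have h4 := Finset.card_lt_card (Finset.ssubset_iff_subset_ne.2 ⟨h1, h2⟩)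
      omega
    · rw [Finset.not_nonempty_iff_eq_empty] at h3
      refine Or.inl ?_
      rw [← Finset.insert_erase hmC, h3]
      rfl
  · have h1 : C ⊆ B := by
      intro a ha
      refine (Finset.mem_insert.1 (hCB.1 ha)).resolve_left ?_
      rintro rfl
      exact hmC ha
    refine Or.inr (Or.inl ⟨h𝒜 B _ hB h1 hC, ?_⟩)
    have h4 := Finset.card_lt_card (Finset.ssubset_iff_subset_ne.2 ⟨h1, hne⟩)
    omega

/-- the source of the cell of a cone is a term over the smaller cone -/
private theorem kco_b [S.Good] {z : ZFam S} {k : ℕ}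
    (hz : ∀ n, 2 ≤ n → n ≤ k + 2 → ZGoodAt z n) (h𝒜 : SubCl 𝒜) {B : Finset ℕ}
    (hmB : ∀ a ∈ B, a < m) (hB : 𝒜 B) (hk : B.card = k + 1) :
    (KC z (kP m 𝒜 k)).tok (kSrc z (insert m B)) ∧
      (KC z (kP m 𝒜 k)).tdim (kSrc z (insert m B)) = k ∧
      (0 < k → (KC z (kP m 𝒜 k)).tsrc (kSrc z (insert m B)) = kSrc z B ∧
        (KC z (kP m 𝒜 k)).ttgt (kSrc z (insert m B)) = .var (dmax B)) := by
  have hm : m ∉ B := fun h => lt_irrefl _ (hmB m h)
  set B' := insert m B with hB'
  have hcard : B'.card = k + 2 := by rw [hB', Finset.card_insert_of_notMem hm, hk]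
  have hne' : B'.Nonempty := ⟨m, Finset.mem_insert_self m B⟩
  have hdm : dmax B' = B := dmax_insert hmB
  have hA : ∀ C, C.Nonempty → hornP (k + 2) C → C ⊆ Finset.range B'.card := by
    intro C _ hC
    rw [hcard]
    exact hC.1.1
  have hBi : ∀ C, C.Nonempty → hornP (k + 2) C → kP m 𝒜 k (C.image (enumF B')) := by
    intro C hCn hC
    have hs := hA C hCn hC
    refine kP_horn h𝒜 hmB hB hk (hCn.image _) ?_ ?_
    · rw [← hB', Finset.ssubset_iff_subset_ne]
      refine ⟨image_enumF_subset hs, fun h => ?_⟩
      have h1 := card_image_enumF hs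
      have h2 := Finset.card_lt_card hC.1
      rw [h, hcard] at h1
      rw [Finset.card_range] at h2
      omega
    · intro h
      have h1 := card_image_enumF hs
      rw [h, hk] at h1
      apply hC.2
      have hsub : C ⊆ Finset.range (k + 2 - 1) := by
        intro a ha
        have h2 : enumF B' a ∈ B := by
          rw [← h]
          exact Finset.mem_image_of_mem _ ha
        rw [← hdm, dmax_eq_image hne', Finset.mem_image] at h2
        obtain ⟨b, hb, hab⟩ := h2
        rw [hcard] at hb
        have h3 : b = a := by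
          refine enumF_injOn (B := B') (C := Finset.range B'.card) (Finset.Subset.refl _) ?_ ?_ hab
          · rw [hcard]
            have := Finset.mem_range.1 hb
            simp only [Finset.coe_range, Set.mem_Iio]
            omega
          · exact hs ha
        rw [← h3]
        exact hb
      refine Finset.eq_of_subset_of_card_le hsub ?_
      rw [Finset.card_range]
      omega
  have hren := KC_rename (z := z) (B := B') (𝒜 := kP m 𝒜 k) (ℬ := hornP (k + 2))
    (fun n h2 hn => hz n h2 (by omega)) hA hBi
  have hzk := hz (k + 2) (by omega) le_rfl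
  have hmap := eval_mapAt (X := KC z (hornP (k + 2))) (M := (KC z (kP m 𝒜 k)).m)
    (γ := fun C => .var (C.image (enumF B'))) hren (z (k + 2)) hzk.ok
  have hsrc : kSrc z B' = (KC z (kP m 𝒜 k)).m.eval
      (fun C => .var (C.image (enumF B'))) (z (k + 2)) := by
    unfold kSrc
    rw [hcard]
    rfl
  have hdim : (KC z (kP m 𝒜 k)).tdim (kSrc z B') = k := by
    rw [hsrc]
    have h1 := hmap.2.1
    have h2 := hzk.dim
    have h3 : (KC z (kP m 𝒜 k)).tdim ((KC z (kP m 𝒜 k)).m.eval
      (fun C => .var (C.image (enumF B'))) (z (k + 2))) = (KC z (hornP (k + 2))).tdim (z (k + 2)) := h1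
    omega
  refine ⟨?_, hdim, fun hk0 => ?_⟩
  · rw [hsrc]
    exact hmap.1
  · obtain ⟨⟨_, _, _, h4⟩, h5⟩ := KC_src_par (z := z) (N := k + 2) hz (𝒜 := fun _ => True) (B := B')
      (by omega) (by omega) (fun _ _ _ => trivial)
    have h5' : (KC z (fun _ => True)).tdim (kSrc z B') + 2 = B'.card := h5
    have h6 : (KC z (fun _ => True)).tdim (kSrc z B') = k := by omega
    obtain ⟨h7, h8⟩ := h4 (by
      change 0 < (KC z (fun _ => True)).tdim (kSrc z B')
      omega)
    constructor
    · rw [kco_tsrc z (kP m 𝒜 k) (fun _ => True)]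
      have h9 : (KC z (fun _ => True)).tsrc (kSrc z B') =
          kSrc z (dmax B') := h7
      rw [hdm] at h9
      exact h9
    · rw [kco_ttgt z (kP m 𝒜 k) (fun _ => True)]
      have h9 : (KC z (fun _ => True)).ttgt (kSrc z B') =
          .var (dmax (dmax B')) := h8
      rw [hdm] at h9
      exact h9

/-- goodness of the cones -/
private theorem kP_good [S.Good] {z : ZFam S} {N : ℕ} (hz : ∀ n, 2 ≤ n → n ≤ N → ZGoodAt z n)
    (h𝒜 : SubCl 𝒜) (hN : ∀ B, 𝒜 B → B.card + 1 ≤ N) (k : ℕ) : (KC z (kP m 𝒜 k)).Good := by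
  refine KC_good (N := max N 1) (fun n h2 hn => hz n h2 ?_) ?_ ?_
  · rcases le_max_iff.1 hn with h | h
    · exact h
    · omega
  · intro B C hB hC hCn
    rcases hB with hB | hB | hB
    · rw [hB] at hC
      exact Or.inl ((Finset.Nonempty.subset_singleton_iff hCn).1 hC)
    · exact Or.inr (Or.inl ⟨h𝒜 B C hB.1 hC hCn, (Finset.card_le_card hC).trans hB.2⟩)
    · by_cases hmC : m ∈ C
      · by_cases h3 : (C.erase m).Nonempty
        · have h4 : C.erase m ⊆ B.erase m := Finset.erase_subset_erase m hC
          exact Or.inr (Or.inr ⟨hmC, h3, h𝒜 _ _ hB.2.2.1 h4 h3,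
            (Finset.card_le_card h4).trans hB.2.2.2⟩)
        · rw [Finset.not_nonempty_iff_eq_empty] at h3
          refine Or.inl ?_
          rw [← Finset.insert_erase hmC, h3]
          rfl
      · have h4 : C ⊆ B.erase m := by
          intro a ha
          rw [Finset.mem_erase]
          refine ⟨?_, hC ha⟩
          rintro rfl
          exact hmC ha
        exact Or.inr (Or.inl ⟨h𝒜 _ _ hB.2.2.1 h4 hCn, (Finset.card_le_card h4).trans hB.2.2.2⟩)
  · intro B _ hB
    rcases hB with hB | hB | hB
    · rw [hB, Finset.card_singleton]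
      exact le_max_right _ _
    · exact ((Nat.le_succ _).trans (hN B hB.1)).trans (le_max_left _ _)
    · have h1 := hN _ hB.2.2.1
      have h2 := Finset.card_erase_add_one hB.1
      exact le_trans (by omega) (le_max_left N 1)

end step

private theorem kco_exp_good [S.Good] {X : Cptd S} [X.Good] {I : Type} {okI : I → Prop} {n : ℕ}
    {b : I → S.T X.V} (hb : ∀ i, okI i → X.tok (b i) ∧ X.tdim (b i) = n) :
    (X.exp okI n b).Good := by
  have L := m_laws X
  have hz := fun t ht => CylGood_exp_z_mapAt (okI := okI) (n := n) (b := b) (X := X) t ht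
  constructor
  · rintro (v | p | p) hv h0
    · exact (hz (X.src v) (Cptd.Good.ok_src v hv h0)).1
    · have h0' : 0 < n := h0
      exact (hz _ (L.ok_src (b p) (hb p hv).1 (by rw [m_dim, (hb p hv).2]; exact h0'))).1
    · exact (hz _ (hb p hv).1).1
  · rintro (v | p | p) hv h0
    · exact (hz (X.tgt v) (Cptd.Good.ok_tgt v hv h0)).1
    · have h0' : 0 < n := h0
      exact (hz _ (L.ok_tgt (b p) (hb p hv).1 (by rw [m_dim, (hb p hv).2]; exact h0'))).1
    · exact hv
  · rintro (v | p | p) hv h0
    · have h1 := (hz (X.src v) (Cptd.Good.ok_src v hv h0)).2.1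
      exact (congrArg (· + 1) h1).trans (Cptd.Good.dim_src v hv h0)
    · have h0' : 0 < X.m.dim (b p) := by rw [m_dim, (hb p hv).2]; exact h0
      have h1 := (hz _ (L.ok_src (b p) (hb p hv).1 h0')).2.1
      exact (congrArg (· + 1) h1).trans ((L.dim_src (b p) (hb p hv).1 h0').trans (hb p hv).2)
    · have h1 := (hz _ (hb p hv).1).2.1
      exact congrArg (· + 1) (h1.trans (hb p hv).2)
  · rintro (v | p | p) hv h0
    · have h1 := (hz (X.tgt v) (Cptd.Good.ok_tgt v hv h0)).2.1
      exact (congrArg (· + 1) h1).trans (Cptd.Good.dim_tgt v hv h0)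
    · have h0' : 0 < X.m.dim (b p) := by rw [m_dim, (hb p hv).2]; exact h0
      have h1 := (hz _ (L.ok_tgt (b p) (hb p hv).1 h0')).2.1
      exact (congrArg (· + 1) h1).trans ((L.dim_tgt (b p) (hb p hv).1 h0').trans (hb p hv).2)
    · rfl
  · rintro (v | p | p) hv h1
    · have h1' : 1 < X.dim v := h1
      have hs0 := Cptd.Good.ok_src v hv (by omega)
      have ht0 := Cptd.Good.ok_tgt v hv (by omega)
      have ds := Cptd.Good.dim_src v hv (by omega)
      have dt := Cptd.Good.dim_tgt v hv (by omega)
      have a1 := ((hz (X.tgt v) ht0).2.2 (show 0 < X.tdim (X.tgt v) by omega)).1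
      have a2 := ((hz (X.src v) hs0).2.2 (show 0 < X.tdim (X.src v) by omega)).1
      have a3 := Cptd.Good.src_tgt v hv h1'
      exact a1.trans ((congrArg (fun t : S.T X.V => t.map CV.z) a3).trans a2.symm)
    · have h1' : 1 < X.m.dim (b p) := by rw [m_dim, (hb p hv).2]; exact h1
      have ds := L.dim_src (b p) (hb p hv).1 (by omega)
      have dt := L.dim_tgt (b p) (hb p hv).1 (by omega)
      have a1 := ((hz _ (L.ok_tgt (b p) (hb p hv).1 (by omega))).2.2 (by omega)).1
      have a2 := ((hz _ (L.ok_src (b p) (hb p hv).1 (by omega))).2.2 (by omega)).1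
      have a3 := L.src_tgt (b p) (hb p hv).1 h1'
      exact a1.trans ((congrArg (fun t : S.T X.V => t.map CV.z) a3).trans a2.symm)
    · have h1' : 0 < X.m.dim (b p) := by
        rw [m_dim, (hb p hv).2]
        have : 1 < n + 1 := h1
        omega
      exact ((hz _ (hb p hv).1).2.2 h1').1.symm
  · rintro (v | p | p) hv h1
    · have h1' : 1 < X.dim v := h1
      have hs0 := Cptd.Good.ok_src v hv (by omega)
      have ht0 := Cptd.Good.ok_tgt v hv (by omega)
      have ds := Cptd.Good.dim_src v hv (by omega)
      have dt := Cptd.Good.dim_tgt v hv (by omega)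
      have a1 := ((hz (X.tgt v) ht0).2.2 (show 0 < X.tdim (X.tgt v) by omega)).2
      have a2 := ((hz (X.src v) hs0).2.2 (show 0 < X.tdim (X.src v) by omega)).2
      have a3 := Cptd.Good.tgt_src v hv h1'
      exact a2.trans ((congrArg (fun t : S.T X.V => t.map CV.z) a3).trans a1.symm)
    · have h1' : 1 < X.m.dim (b p) := by rw [m_dim, (hb p hv).2]; exact h1
      have ds := L.dim_src (b p) (hb p hv).1 (by omega)
      have dt := L.dim_tgt (b p) (hb p hv).1 (by omega)
      have a1 := ((hz _ (L.ok_tgt (b p) (hb p hv).1 (by omega))).2.2 (by omega)).2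
      have a2 := ((hz _ (L.ok_src (b p) (hb p hv).1 (by omega))).2.2 (by omega)).2
      have a3 := L.tgt_src (b p) (hb p hv).1 h1'
      exact a2.trans ((congrArg (fun t : S.T X.V => t.map CV.z) a3).trans a1.symm)
    · have h1' : 0 < X.m.dim (b p) := by
        rw [m_dim, (hb p hv).2]
        have : 1 < n + 1 := h1
        omega
      exact ((hz _ (hb p hv).1).2.2 h1').2


/-- Induction principle for cones: they are obtained from a point by expansions. -/
theorem KC_cone_ind [S.Good] {z : ZFam S} {N : ℕ} (hz : ∀ n, 2 ≤ n → n ≤ N → ZGoodAt z n) {m : ℕ}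
    {𝒜 : Finset ℕ → Prop} (h𝒜 : SubCl 𝒜) (hne : ∀ B, 𝒜 B → B.Nonempty)
    (hm : ∀ B, 𝒜 B → ∀ a ∈ B, a < m) (hN : ∀ B, 𝒜 B → B.card + 1 ≤ N) (Φ : Cptd S → Prop)
    (h0 : Φ (KC z (fun B => B = {m})))
    (hexp : ∀ (X : Cptd S), X.Good → Φ X → ∀ (okI : Finset ℕ → Prop) (n : ℕ)
      (b : Finset ℕ → S.T X.V), (∀ i, okI i → X.tok (b i) ∧ X.tdim (b i) = n) →
      Φ (X.exp okI n b))
    (hiso : ∀ (X Y : Cptd S) (σ : X.V → S.T Y.V) (τ : Y.V → S.T X.V), X.Good → Y.Good →
      X.IsoP Y σ τ → Φ X → Φ Y) : Φ (KC z (coneP m 𝒜)) := by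
  have key : ∀ k, Φ (KC z (kP m 𝒜 k)) := by
    intro k
    induction k with
    | zero =>
      have hP : kP m 𝒜 0 = fun B => B = {m} := by
        funext C
        apply propext
        constructor
        · rintro (hC | hC | hC)
          · exact hC
          · exact absurd (hne C hC.1).card_pos (by omega)
          · exact absurd (hne _ hC.2.2.1).card_pos (by omega)
        · exact fun hC => Or.inl hC
      rw [hP]
      exact h0
    | succ k ih =>
      have hgood : (KC z (kP m 𝒜 k)).Good := kP_good hz h𝒜 hN k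
      have hgood' : (KC z (kP m 𝒜 (k + 1))).Good := kP_good hz h𝒜 hN (k + 1)
      have hlaws := m_laws (KC z (kP m 𝒜 k))
      by_cases hex : ∃ B, 𝒜 B ∧ B.card = k + 1
      swap
      · have heq : kP m 𝒜 (k + 1) = kP m 𝒜 k := by
          funext C
          apply propext
          constructor
          · rintro (hC | hC | hC)
            · exact Or.inl hC
            · refine Or.inr (Or.inl ⟨hC.1, ?_⟩)
              have h1 : C.card ≠ k + 1 := fun h1 => hex ⟨C, hC.1, h1⟩
              have h2 := hC.2
              omega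
            · refine Or.inr (Or.inr ⟨hC.1, hC.2.1, hC.2.2.1, ?_⟩)
              have h1 : (C.erase m).card ≠ k + 1 := fun h1 => hex ⟨_, hC.2.2.1, h1⟩
              have h2 := hC.2.2.2
              omega
          · exact kP_mono
        rw [heq]
        exact ih
      have hkN : k + 2 ≤ N := by
        obtain ⟨B, hB, hBk⟩ := hex
        have := hN B hB
        omega
      have hz' : ∀ n, 2 ≤ n → n ≤ k + 2 → ZGoodAt z n := fun n h2 hn => hz n h2 (hn.trans hkN)
      set okI : Finset ℕ → Prop := fun B => 𝒜 B ∧ B.card = k + 1 with hokI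
      set b : Finset ℕ → S.T (Finset ℕ) :=
        fun B => kSrc z (insert m B) with hb
      have hbok : ∀ B, okI B → _ := fun B hB =>
        kco_b (m := m) (𝒜 := 𝒜) (k := k) hz' h𝒜 (hm B hB.1) hB.1 hB.2
      have hbb : ∀ B, okI B → (KC z (kP m 𝒜 k)).tok (b B) ∧ (KC z (kP m 𝒜 k)).tdim (b B) = k :=
        fun B hB => ⟨(hbok B hB).1, (hbok B hB).2.1⟩
      set Y : Cptd S := (KC z (kP m 𝒜 k)).exp okI k b with hY
      set σ : Finset ℕ → S.T (CV (Finset ℕ) (Finset ℕ)) := fun C =>
        if 𝒜 C ∧ C.card = k + 1 then .var (.top C)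
        else if m ∈ C ∧ 𝒜 (C.erase m) ∧ (C.erase m).card = k + 1 then .var (.cyl (C.erase m))
        else .var (.z C) with hσ
      have hσz : ∀ C, kP m 𝒜 k C → σ C = .var (.z C) := by
        intro C hC
        have h1 : ¬ (𝒜 C ∧ C.card = k + 1) := by
          rintro ⟨h1, h2⟩
          rcases hC with hC | hC | hC
          · have := hm C h1 m (by rw [hC]; exact Finset.mem_singleton_self m)
            exact lt_irrefl _ this
          · omega
          · exact lt_irrefl _ (hm C h1 m hC.1)
        have h2 : ¬ (m ∈ C ∧ 𝒜 (C.erase m) ∧ (C.erase m).card = k + 1) := by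
          rintro ⟨h1, h2, h3⟩
          rcases hC with hC | hC | hC
          · rw [hC, Finset.erase_singleton] at h3
            simp at h3
          · exact lt_irrefl _ (hm C hC.1 m h1)
          · omega
        simp only [hσ, if_neg h1, if_neg h2]
      have hσbind : ∀ t : S.T (Finset ℕ), (KC z (kP m 𝒜 k)).tok t → t.bind σ = t.map .z := by
        intro t ht
        exact bind_congr (X := KC z (kP m 𝒜 k)) t ht (fun C hC => hσz C hC.2)
      set τ : CV (Finset ℕ) (Finset ℕ) → S.T (Finset ℕ) := fun v => match v with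
        | .z C => .var C
        | .top B => .var B
        | .cyl B => .var (insert m B) with hτ
      have hτz : ∀ t : S.T (Finset ℕ), (t.map .z : S.T (CV (Finset ℕ) (Finset ℕ))).bind τ = t := by
        intro t
        rw [Tm.map_bind]
        exact Tm.bind_var_self t
      have hYgood : Y.Good := kco_exp_good (X := KC z (kP m 𝒜 k)) hbb
      refine hiso Y (KC z (kP m 𝒜 (k + 1))) τ σ hYgood hgood' ⟨?_, ?_, ?_, ?_⟩
        (hexp _ hgood ih okI k b hbb)
      · rintro (C | B | B) hv
        · change Finset ℕ at C
          have hv' : (KC z (kP m 𝒜 k)).ok C := hv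
          refine ⟨⟨hv'.1, kP_mono hv'.2⟩, rfl, fun h0 => ⟨?_, ?_⟩⟩
          · change kSrc z C = ((kSrc z C).map .z).bind τ
            rw [hτz]
          · rfl
        · have hv' : 𝒜 B ∧ B.card = k + 1 := hv
          obtain ⟨b1, b2, b3⟩ := hbok B hv'
          refine ⟨⟨hne B hv'.1, Or.inr (Or.inl ⟨hv'.1, hv'.2.le⟩)⟩, ?_, fun h0 => ?_⟩
          · change B.card - 1 = k
            omega
          · have hk0 : 0 < k := h0
            obtain ⟨b4, b5⟩ := b3 hk0
            constructor
            · exact ((hτz ((KC z (kP m 𝒜 k)).tsrc (b B))).trans b4).symm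
            · exact ((hτz ((KC z (kP m 𝒜 k)).ttgt (b B))).trans b5).symm
        · have hv' : 𝒜 B ∧ B.card = k + 1 := hv
          have hmB : m ∉ B := fun h' => lt_irrefl _ (hm B hv'.1 m h')
          have hins : (insert m B).erase m = B := Finset.erase_insert hmB
          refine ⟨⟨⟨m, Finset.mem_insert_self m B⟩, Or.inr (Or.inr ⟨Finset.mem_insert_self m B, ?_⟩)⟩,
            ?_, fun h0 => ⟨?_, ?_⟩⟩
          · rw [hins]
            exact ⟨hne B hv'.1, hv'.1, hv'.2.le⟩
          · change (insert m B).card - 1 = k + 1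
            rw [Finset.card_insert_of_notMem hmB]
            omega
          · exact (hτz (b B)).symm
          · change Tm.var (dmax (insert m B)) = Tm.var B
            rw [dmax_insert (hm B hv'.1)]
      · intro (C : Finset ℕ) hC0
        obtain ⟨hCn, hC⟩ := hC0
        by_cases h1 : 𝒜 C ∧ C.card = k + 1
        · have e1 : σ C = .var (.top C) := by simp only [hσ, if_pos h1]
          obtain ⟨b1, b2, b3⟩ := hbok C h1
          refine ⟨?_, ?_, fun h0 => ?_⟩
          · rw [e1]
            exact h1
          · rw [e1]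
            change k = C.card - 1
            omega
          · have hk0 : 0 < k := by
              change 0 < C.card - 1 at h0
              omega
            obtain ⟨b4, b5⟩ := b3 hk0
            have hb2 : 0 < (KC z (kP m 𝒜 k)).tdim (b C) := by
              rw [(hbb C h1).2]
              exact hk0
            have t1 : (KC z (kP m 𝒜 k)).tok ((KC z (kP m 𝒜 k)).tsrc (b C)) :=
              hlaws.ok_src (b C) b1 hb2
            have t2 : (KC z (kP m 𝒜 k)).tok ((KC z (kP m 𝒜 k)).ttgt (b C)) :=
              hlaws.ok_tgt (b C) b1 hb2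
            rw [e1]
            constructor
            · change ((KC z (kP m 𝒜 k)).tsrc (b C)).map .z = (kSrc z C).bind σ
              exact (hσbind _ t1).symm.trans (congrArg (fun t => Tm.bind t σ) b4)
            · change ((KC z (kP m 𝒜 k)).ttgt (b C)).map .z = ((Tm.var (dmax C) : S.T (Finset ℕ))).bind σ
              exact (hσbind _ t2).symm.trans (congrArg (fun t => Tm.bind t σ) b5)
        · by_cases h2 : m ∈ C ∧ 𝒜 (C.erase m) ∧ (C.erase m).card = k + 1
          · have e1 : σ C = .var (.cyl (C.erase m)) := by simp only [hσ, if_neg h1, if_pos h2]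
            obtain ⟨b1, b2, b3⟩ := hbok (C.erase m) h2.2
            have hins : insert m (C.erase m) = C := Finset.insert_erase h2.1
            have hcard := Finset.card_erase_add_one h2.1
            refine ⟨?_, ?_, fun h0 => ?_⟩
            · rw [e1]
              exact h2.2
            · rw [e1]
              change k + 1 = C.card - 1
              omega
            · rw [e1]
              constructor
              · change (kSrc z (insert m (C.erase m))).map .z =
                  (kSrc z C).bind σ
                rw [← hσbind _ b1, hins]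
              · change Tm.var (CV.top (C.erase m)) = σ (dmax C)
                have h3 : dmax C = C.erase m := by
                  conv_lhs => rw [← hins]
                  exact dmax_insert (hm _ h2.2.1)
                rw [h3]
                simp only [hσ, if_pos h2.2]
          · have e1 : σ C = .var (.z C) := by simp only [hσ, if_neg h1, if_neg h2]
            have hCk : kP m 𝒜 k C := by
              rcases hC with hC | hC | hC
              · exact Or.inl hC
              · refine Or.inr (Or.inl ⟨hC.1, ?_⟩)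
                have h3 : C.card ≠ k + 1 := fun h3 => h1 ⟨hC.1, h3⟩
                have h4 := hC.2
                omega
              · refine Or.inr (Or.inr ⟨hC.1, hC.2.1, hC.2.2.1, ?_⟩)
                have h3 : (C.erase m).card ≠ k + 1 := fun h3 => h2 ⟨hC.1, hC.2.2.1, h3⟩
                have h4 := hC.2.2.2
                omega
            have hok : (KC z (kP m 𝒜 k)).ok C := ⟨hCn, hCk⟩
            refine ⟨?_, ?_, fun h0 => ?_⟩
            · rw [e1]
              exact hok
            · rw [e1]
              rfl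
            · rw [e1]
              have t1 := hgood.ok_src C hok h0
              have t2 := hgood.ok_tgt C hok h0
              constructor
              · change (kSrc z C).map .z = (kSrc z C).bind σ
                exact (hσbind _ t1).symm
              · change ((Tm.var (dmax C) : S.T (Finset ℕ))).map .z = ((Tm.var (dmax C) : S.T (Finset ℕ))).bind σ
                exact (hσbind _ t2).symm
      · rintro (C | B | B) hv
        · exact hσz C hv.2
        · have hv' : 𝒜 B ∧ B.card = k + 1 := hv
          have e : σ B = .var (.top B) := by simp only [hσ, if_pos hv']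
          exact e
        · have hv' : 𝒜 B ∧ B.card = k + 1 := hv
          have hmB : m ∉ B := fun h' => lt_irrefl _ (hm B hv'.1 m h')
          have hins : (insert m B).erase m = B := Finset.erase_insert hmB
          have h1 : ¬ (𝒜 (insert m B) ∧ (insert m B).card = k + 1) := fun h1 =>
            lt_irrefl _ (hm _ h1.1 m (Finset.mem_insert_self m B))
          have h2 : m ∈ insert m B ∧ 𝒜 ((insert m B).erase m) ∧
              ((insert m B).erase m).card = k + 1 := by
            rw [hins]
            exact ⟨Finset.mem_insert_self m B, hv'⟩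
          have e : σ (insert m B) = .var (.cyl ((insert m B).erase m)) := by
            simp only [hσ, if_neg h1, if_pos h2]
          rw [hins] at e
          exact e
      · intro (C : Finset ℕ) hC0
        obtain ⟨hCn, hC⟩ := hC0
        by_cases h1 : 𝒜 C ∧ C.card = k + 1
        · have e1 : σ C = .var (.top C) := by simp only [hσ, if_pos h1]
          rw [e1]
          rfl
        · by_cases h2 : m ∈ C ∧ 𝒜 (C.erase m) ∧ (C.erase m).card = k + 1
          · have e1 : σ C = .var (.cyl (C.erase m)) := by simp only [hσ, if_neg h1, if_pos h2]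
            rw [e1]
            change Tm.var (insert m (C.erase m)) = Tm.var C
            rw [Finset.insert_erase h2.1]
          · have e1 : σ C = .var (.z C) := by simp only [hσ, if_neg h1, if_neg h2]
            rw [e1]
            rfl
  have hfin : kP m 𝒜 N = coneP m 𝒜 := by
    unfold kP
    congr 1
    funext B
    apply propext
    exact ⟨fun hB => hB.1, fun hB => ⟨hB, (Nat.le_succ _).trans (hN B hB)⟩⟩
  rw [← hfin]
  exact key N

end HH
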