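import Pool.Agent.HH.Rho
import Pool.Agent.HH.Const

/-!
# HH 2b KT: the units of a coherator are given by terms of the extended signature (module to prove)

For `n` consider in `Syn (EE C)` the pair `(𝟙, 𝟙)` of arrows `D n ⟶ ⟨dk n⟩ = D n`. The arrow `κ.k n : F.D (n + 1) ⟶ F.D n`,
transported along the isomorphism `a` of `rhoF_globes`, is a lifting of its image. By `rhoF_rel` there is
`h : D (n + 1) ⟶ D n` in `Syn (EE C)` with `s ≫ h = 𝟙`, `t ≫ h = 𝟙` and `rhoF.map h` the transported arrow. Put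
`κt n := (h.1 (dtop (n + 1))).map (dkf n)`, a term over the positions of `diskG n`: it is typed because `dkf n` is a globular map
(`eval_mapAt` for the assignment `.var ∘ dkf n`), its source is `.var (dkf n (dtop n)) = .var (n, false)`.
Realisation: let `x : G.Cell n` and `x' ∈ G (rO (dk n))` the element corresponding to `x` under the isomorphism `a`, so
`act x' (leg p) = bd ⟨n, x⟩ (dkf n p)` (both are globular maps out of `dk n` with the same value at the top). Then
`eval (bd ⟨n, x⟩) (κt n) = eval (act x' ∘ leg) (h top) = act x' (rhoX (h top))` (`eval_map`, `rhoX_nat` for `XT.ofTm`) and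
`rhoX (h top) = push (rhoF.map h) (leg (dtop (n+1)))` (`rhoF_eval`, `rhoX_eval`).
-/

set_option autoImplicit false

namespace HH

open Classical CategoryTheory Opposite

open Pool.Agent.HH (Globes IsCoherator)

variable {C : Type} [SmallCategory C] {F : Globes C}

/-- the inverse relation for an isomorphism of globes (sources) -/
private theorem kt_s (hF : F.IsExt) (hc : F.Contractible)
    (a : F.Iso ((synG (EE C)).map (rhoF hF hc))) (n : ℕ) :
    (rhoF hF hc).map ((synG (EE C)).s n) ≫ (a.e (n + 1)).inv = (a.e n).inv ≫ F.s n := by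
  rw [Iso.comp_inv_eq, Category.assoc, a.s_e, Iso.inv_hom_id_assoc]

/-- the inverse relation for an isomorphism of globes (targets) -/
private theorem kt_t (hF : F.IsExt) (hc : F.Contractible)
    (a : F.Iso ((synG (EE C)).map (rhoF hF hc))) (n : ℕ) :
    (rhoF hF hc).map ((synG (EE C)).t n) ≫ (a.e (n + 1)).inv = (a.e n).inv ≫ F.t n := by
  rw [Iso.comp_inv_eq, Category.assoc, a.t_e, Iso.inv_hom_id_assoc]

/-- the lifted arrow -/
private theorem kt_lift (hF : F.IsExt) (hc : F.Contractible) (κ : Pool.Agent.HH.Units F)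
    (a : F.Iso ((synG (EE C)).map (rhoF hF hc))) (n : ℕ) :
    ∃ h : (synG (EE C)).D (n + 1) ⟶ (synG (EE C)).D n,
      (synG (EE C)).s n ≫ h = 𝟙 _ ∧ (synG (EE C)).t n ≫ h = 𝟙 _ ∧
      (rhoF hF hc).map h = (a.e (n + 1)).inv ≫ κ.k n ≫ (a.e n).hom := by
  have hp : (synG (EE C)).Parallel ((synG (EE C)).D n) n (𝟙 _) (𝟙 _) := by
    cases n with
    | zero => trivial
    | succ n => exact ⟨rfl, rfl⟩
  obtain ⟨h, ⟨h1, h2⟩, h3⟩ := rhoF_rel hF hc ((synG (EE C)).D n) n (𝟙 _) (𝟙 _) hp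
    ((a.e (n + 1)).inv ≫ κ.k n ≫ (a.e n).hom) (by
      refine ⟨?_, ?_⟩
      · show (rhoF hF hc).map ((synG (EE C)).s n) ≫ _ = _
        rw [← Category.assoc, kt_s, Category.assoc, ← Category.assoc (F.s n), κ.s_k,
          Category.id_comp, Iso.inv_hom_id, CategoryTheory.Functor.map_id]
      · show (rhoF hF hc).map ((synG (EE C)).t n) ≫ _ = _
        rw [← Category.assoc, kt_t, Category.assoc, ← Category.assoc (F.t n), κ.t_k,
          Category.id_comp, Iso.inv_hom_id, CategoryTheory.Functor.map_id])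
  exact ⟨h, h1, h2, h3⟩

private theorem kt_dkf_top (n : ℕ) : dkf n (dtop n) = (n, false) :=
  dkf_dkg n (n, false) (Or.inr ⟨rfl, rfl⟩)

private theorem kt_mapAt (S : Sig) (n : ℕ) (t : S.T (dk n).P) (ht : (ofGlob S (dk n).G).tok t) :
    MapAt (ofGlob S (dk n).G).m.toGlob (ofGlob S (diskG n)).m.toGlob
      (fun t => Tm.map t (dkf n)) t :=
  eval_mapAt (X := ofGlob S (dk n).G) (M := (ofGlob S (diskG n)).m)
    (γ := fun p => (.var (dkf n p) : S.T D)) (fun p _ => by
      obtain ⟨h1, h2, h3⟩ := dkf_mapAt n p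
      exact ⟨h1, h2, fun h0 => ⟨congrArg Tm.var (h3 h0).1, congrArg Tm.var (h3 h0).2⟩⟩) t ht

/-- the properties of a term given by a section of the two boundary inclusions -/
private theorem kt_good {S : Sig} (n : ℕ) (h : (synG S).D (n + 1) ⟶ (synG S).D n)
    (h1 : (synG S).s n ≫ h = 𝟙 _) (h2 : (synG S).t n ≫ h = 𝟙 _) :
    (ofGlob S (diskG n)).tok ((h.1 (dtop (n + 1))).map (dkf n)) ∧
    (ofGlob S (diskG n)).tdim ((h.1 (dtop (n + 1))).map (dkf n)) = n + 1 ∧
    (ofGlob S (diskG n)).tsrc ((h.1 (dtop (n + 1))).map (dkf n)) = .var (n, false) ∧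
    (ofGlob S (diskG n)).ttgt ((h.1 (dtop (n + 1))).map (dkf n)) = .var (n, false) := by
  obtain ⟨a1, a2, a3⟩ := h.2 (dtop (n + 1))
  obtain ⟨b1, b2, b3⟩ := dkg_mapAt (n + 1) (n + 1, false) (Or.inr ⟨rfl, rfl⟩)
  have hdim : (dk (n + 1)).G.dim (dtop (n + 1)) = n + 1 := b2
  obtain ⟨c1, c2⟩ := a3 (by
    show 0 < (dk (n + 1)).G.dim (dtop (n + 1))
    rw [hdim]
    exact Nat.succ_pos n)
  obtain ⟨d1, d2⟩ := b3 (Nat.succ_pos n)
  have e1 : (dk (n + 1)).G.src (dtop (n + 1)) = dkg (n + 1) (n, false) := d1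
  have e2 : (dk (n + 1)).G.tgt (dtop (n + 1)) = dkg (n + 1) (n, true) := d2
  have g1 : h.1 (dkg (n + 1) (n, false)) = .var (dtop n) := by
    have k1 : ((synG S).s n ≫ h).1 (dtop n) = .var (dtop n) := by rw [h1]; rfl
    have k2 : ((synG S).s n ≫ h).1 (dtop n) =
        h.1 (dkg (n + 1) (bdD (n, false) (dkf n (dtop n)))) := rfl
    rw [k2, kt_dkf_top] at k1
    have k3 : bdD (n, false) (n, false) = (n, false) := by simp [bdD]
    rwa [k3] at k1
  have g2 : h.1 (dkg (n + 1) (n, true)) = .var (dtop n) := by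
    have k1 : ((synG S).t n ≫ h).1 (dtop n) = .var (dtop n) := by rw [h2]; rfl
    have k2 : ((synG S).t n ≫ h).1 (dtop n) =
        h.1 (dkg (n + 1) (bdD (n, true) (dkf n (dtop n)))) := rfl
    rw [k2, kt_dkf_top] at k1
    have k3 : bdD (n, true) (n, false) = (n, true) := by simp [bdD]
    rwa [k3] at k1
  obtain ⟨m1, m2, m3⟩ := kt_mapAt S n (h.1 (dtop (n + 1))) a1
  have hd : (ofGlob S (dk n).G).tdim (h.1 (dtop (n + 1))) = n + 1 := a2.trans hdim
  obtain ⟨n1, n2⟩ := m3 (by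
    show 0 < (ofGlob S (dk n).G).tdim (h.1 (dtop (n + 1)))
    rw [hd]
    exact Nat.succ_pos n)
  refine ⟨m1, m2.trans hd, ?_, ?_⟩
  · refine n1.trans ?_
    have k : (ofGlob S (dk n).G).tsrc (h.1 (dtop (n + 1))) = .var (dtop n) :=
      (c1.trans (congrArg h.1 e1)).trans g1
    exact (congrArg (fun t => Tm.map t (dkf n)) k).trans
      (congrArg Tm.var (kt_dkf_top n))
  · refine n2.trans ?_
    have k : (ofGlob S (dk n).G).ttgt (h.1 (dtop (n + 1))) = .var (dtop n) :=
      (c2.trans (congrArg h.1 e2)).trans g2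
    exact (congrArg (fun t => Tm.map t (dkf n)) k).trans
      (congrArg Tm.var (kt_dkf_top n))

theorem exists_kt (hF : F.IsExt) (hc : F.Contractible) (κ : Pool.Agent.HH.Units F) :
    ∃ κt : ℕ → (EE C).T D, KGood κt ∧ ∀ (G : OMod F) (n : ℕ) (x : G.Cell n),
      (MD hF G.obj).eval ((GG F G.obj).bd ⟨n, x⟩) (κt n) =
        ⟨n + 1, G.obj.map (κ.k n).op x⟩ := by
  obtain ⟨a, ha⟩ := rhoF_globes hF hc
  choose h h1 h2 h3 using kt_lift hF hc κ a
  refine ⟨fun n => ((h n).1 (dtop (n + 1))).map (dkf n),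
    ⟨fun n => (kt_good n (h n) (h1 n) (h2 n)).1, fun n => (kt_good n (h n) (h1 n) (h2 n)).2.1,
      fun n => (kt_good n (h n) (h1 n) (h2 n)).2.2.1,
      fun n => (kt_good n (h n) (h1 n) (h2 n)).2.2.2⟩, ?_⟩
  intro G n x
  let P : Cᵒᵖ ⥤ Type := G.obj
  let x' : P.obj (op (rO hF (dk n))) := P.map (a.e n).inv.op x
  have hxx : P.map (a.e n).hom.op x' = x := by
    show P.map (a.e n).hom.op (P.map (a.e n).inv.op x) = x
    rw [← Functor.map_comp_apply, ← op_comp, Iso.hom_inv_id, op_id, Functor.map_id_apply]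
  -- the two globular maps out of the code of the disk agree
  have hact : ∀ p, act F P x' (leg hF (dk n) p) = (GG F P).bd ⟨n, x⟩ (dkf n p) := by
    let M : RMod (EE C) := MDR hF hc G
    let f : GMap M (dk n) := ⟨fun p => ⟨act F P x' (leg hF (dk n) p), trivial⟩,
      act_leg_mapAt hF P x'⟩
    let g : GMap M (dk n) := ofCell M n ⟨⟨n, x⟩, trivial⟩ rfl
    have hfg : f = g := by
      apply GMap.ext_top
      show f.1 (dtop n) = (ofCell M n ⟨⟨n, x⟩, trivial⟩ rfl).1 (dtop n)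
      rw [ofCell_top]
      apply Subtype.ext
      show act F P x' (leg hF (dk n) (dtop n)) = ⟨n, x⟩
      rw [ha]
      show (⟨n, P.map (a.e n).hom.op x'⟩ : (GG F P).C) = ⟨n, x⟩
      rw [hxx]
    intro p
    have := congrArg (fun k : GMap M (dk n) => (k.1 p).1) hfg
    exact this
  -- the term
  set t : (EE C).T (dk n).P := (h n).1 (dtop (n + 1)) with ht
  have htok : (ofGlob (EE C) (dk n).G).tok t := ((h n).2 (dtop (n + 1))).1
  let t' : XT Cs PC.G (Lab C) (dk n) := XT.ofTm t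
  have ht' : t'.toTm = t := XT.toTm_ofTm t
  have hok' : t'.ok := by
    rw [← XT.tok_toTm (fun _ _ => trivial) t', ht']
    exact htok
  have e1 : (MD hF P).eval ((GG F P).bd ⟨n, x⟩) (t.map (dkf n)) =
      (MD hF P).eval (fun p => act F P x' (leg hF (dk n) p)) t := by
    have k1 : (MD hF P).eval ((GG F P).bd ⟨n, x⟩) (t.map (dkf n)) =
        (MD hF P).eval (fun p => (GG F P).bd ⟨n, x⟩ (dkf n p)) t :=
      eval_map (MD hF P) _ (dkf n) t
    rw [k1]
    congr 1
    funext p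
    exact (hact p).symm
  have e2 : (MD hF P).eval (fun p => act F P x' (leg hF (dk n) p)) t'.toTm =
      act F P x' (rhoX hF t') :=
    rhoX_nat hF hc G.property t' hok' _ x' (fun _ => rfl)
  have e3 : rhoX hF t' = push F ((rhoF hF hc).map (h n)) (leg hF (dk (n + 1)) (dtop (n + 1))) := by
    rw [rhoX_eval, ht']
    exact (rhoF_eval hF hc (h n) (dtop (n + 1))).symm
  have e4 : rhoX hF t' = ⟨n + 1, κ.k n ≫ (a.e n).hom⟩ := by
    rw [e3, ha, h3]
    show (⟨n + 1, (a.e (n + 1)).hom ≫ (a.e (n + 1)).inv ≫ κ.k n ≫ (a.e n).hom⟩ :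
      GC F (rO hF (dk n))) = _
    rw [Iso.hom_inv_id_assoc]
  show (MD hF P).eval ((GG F P).bd ⟨n, x⟩) (t.map (dkf n)) = _
  rw [e1, ← ht', e2, e4]
  show (⟨n + 1, P.map (κ.k n ≫ (a.e n).hom).op x'⟩ : (GG F P).C) = ⟨n + 1, P.map (κ.k n).op x⟩
  rw [op_comp, Functor.map_comp_apply, hxx]

end HH
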