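import Pool.Agent.HH.InsG
import Pool.Agent.HH.DiskOp

/-!
# HH module 12 (OmPsi): the substitutions `ω_p` and `ψ` are well typed
-/

set_option autoImplicit false

namespace HH

open Classical

variable {S : Sig}

private theorem ompsi_bdD_eq {n : ℕ} {s t : D} (h : n < s.1) :
    bdD s t = (n, false) ↔ t = (n, false) := by
  unfold bdD
  constructor
  · intro h1
    by_cases h2 : t.1 < s.1
    · rwa [if_pos h2] at h1
    · rw [if_neg h2] at h1
      rw [h1] at h
      exact absurd h (lt_irrefl _)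
  · intro h1
    subst h1
    rw [if_pos h]

/-- `ω` at a boundary cell -/
private theorem ompsi_omA_bd {iv : S.T D} {n : ℕ} {a : Glob} [a.Laws] {p : a.C} (hp : a.ok p)
    {s : D} (hs : s.1 ≤ a.dim p) (hn : n < s.1) (v : CV D D) :
    omA iv a n (a.bd p s) v = omA iv a n p (CV.map (bdD s) (bdD s) v) := by
  cases v with
  | z t =>
    simp only [CV.map_z, omA, ompsi_bdD_eq hn, bd_bd hp hs]
  | top t =>
    simp only [CV.map_top, omA, ompsi_bdD_eq hn, bd_bd hp hs]
  | cyl t =>
    simp only [CV.map_cyl, omA, ompsi_bdD_eq hn, bd_bd hp hs]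

private theorem ompsi_z {iv : S.T D} {n : ℕ} {a : Glob} {p : a.C} {q : D} (h : q ≠ (n, false)) :
    omA iv a n p (.z q) = .var (.z (a.bd p q)) := if_neg h

private theorem ompsi_z' {iv : S.T D} {n : ℕ} {a : Glob} {p : a.C} {q : D} (h : q = (n, false)) :
    omA iv a n p (.z q) = .var (.top (a.bd p q)) := if_pos h

private theorem ompsi_top {iv : S.T D} {n : ℕ} {a : Glob} {p : a.C} {q : D}
    (h : q ≠ (n, false)) : omA iv a n p (.top q) = .var (.top (a.bd p q)) := if_neg h

private theorem ompsi_top' {iv : S.T D} {n : ℕ} {a : Glob} {p : a.C} {q : D}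
    (h : q = (n, false)) : omA iv a n p (.top q) = .var (.z (a.bd p q)) := if_pos h

private theorem ompsi_cyl {iv : S.T D} {n : ℕ} {a : Glob} {p : a.C} {q : D}
    (h : q ≠ (n, false)) : omA iv a n p (.cyl q) = .var (.cyl (a.bd p q)) := if_neg h

private theorem ompsi_cyl' {iv : S.T D} {n : ℕ} {a : Glob} {p : a.C} {q : D}
    (h : q = (n, false)) : omA iv a n p (.cyl q) =
      atCell (Wh S a n).m iv (.var (.cyl (a.bd p q))) := if_pos h

private theorem ompsi_mk {X : Cptd S} {M : Model S} {γ : X.V → M.C} {v : X.V} (w s t : M.C)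
    (hw : γ v = w) (h1 : M.ok w) (h2 : M.dim w = X.dim v)
    (h3 : 0 < X.dim v → M.src w = s ∧ M.tgt w = t)
    (h4 : 0 < X.dim v → M.eval γ (X.src v) = s ∧ M.eval γ (X.tgt v) = t) : AsgAt X M γ v := by
  refine ⟨by rw [hw]; exact h1, by rw [hw]; exact h2, fun h0 => ⟨?_, ?_⟩⟩
  · rw [hw, (h3 h0).1, (h4 h0).1]
  · rw [hw, (h3 h0).2, (h4 h0).2]

theorem omA_asgAt [S.Good] [S.Strat] {iv : S.T D} {n : ℕ} (hiv : IsInv S n iv)
    {a : Glob} [a.Laws] {p : a.C} (hp : a.ok p) (hn : n < a.dim p) (v : CV D D)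
    (hv : (U S n (a.dim p)).ok v) : AsgAt (U S n (a.dim p)) (Wh S a n).m (omA iv a n p) v := by
  have le_of : ∀ q : D, (diskG (a.dim p)).ok q → q.1 ≤ a.dim p := by
    intro q hq
    rcases hq with h | h
    · exact h.le
    · exact h.1.le
  have ne_pred : ∀ (q : D) (b : Bool), q.1 ≠ n + 1 → 0 < q.1 → ((q.1 - 1, b) : D) ≠ (n, false) := by
    intro q b h1 h2 h3
    have : q.1 - 1 = n := congrArg Prod.fst h3
    omega
  have ne_true : ∀ q : D, ((q.1 - 1, true) : D) ≠ (n, false) := by
    intro q h3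
    have : true = false := congrArg Prod.snd h3
    exact absurd this (by simp)
  have cz : ∀ {r r' : a.C}, r = r' → (Tm.var (CV.z r) : S.T (CV a.C a.C)) = .var (.z r') :=
    fun h => congrArg (fun r => (Tm.var (CV.z r) : S.T (CV a.C a.C))) h
  cases v with
  | z q =>
    have hq : (diskG (a.dim p)).ok q := hv
    have hqd := le_of q hq
    have hr : a.ok (a.bd p q) := ok_bd hp q
    have hrd : a.dim (a.bd p q) = q.1 := dim_bd hp hqd
    have htgt : omA iv a n p (.z (q.1 - 1, true)) = .var (.z (a.bd p (q.1 - 1, true))) :=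
      ompsi_z (ne_true q)
    by_cases h : q = (n, false)
    · have h1 : q.1 = n := congrArg Prod.fst h
      have e : (insG (diskG (a.dim p)) n).src (.z q) = .z (q.1 - 1, false) :=
        if_neg (by show ¬ q.1 = n + 1; omega)
      refine ompsi_mk _ (.var (.z (a.bd p (q.1 - 1, false)))) (.var (.z (a.bd p (q.1 - 1, true))))
        (ompsi_z' h) ⟨hr, hrd.trans h1⟩ hrd (fun h0 => ⟨cz (src_bd hp hqd h0),
          cz (tgt_bd hp hqd h0)⟩) (fun h0 => ⟨(congrArg (omA iv a n p) e).trans
            (ompsi_z (ne_pred q false (by omega) h0)), htgt⟩)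
    · refine ompsi_mk _ (.var (.z (a.bd p (q.1 - 1, false)))) (.var (.z (a.bd p (q.1 - 1, true))))
        (ompsi_z h) hr hrd (fun h0 => ⟨cz (src_bd hp hqd h0),
          cz (tgt_bd hp hqd h0)⟩) (fun h0 => ⟨?_, htgt⟩)
      by_cases h2 : q.1 = n + 1
      · have e : (insG (diskG (a.dim p)) n).src (.z q) = .top (q.1 - 1, false) := if_pos h2
        exact (congrArg (omA iv a n p) e).trans (ompsi_top' (by rw [h2]; rfl))
      · have e : (insG (diskG (a.dim p)) n).src (.z q) = .z (q.1 - 1, false) := if_neg h2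
        exact (congrArg (omA iv a n p) e).trans (ompsi_z (ne_pred q false h2 h0))
  | top q =>
    have hq : (diskG (a.dim p)).ok q := hv.1
    have hqn : q.1 = n := hv.2
    have hqd := le_of q hq
    have hr : a.ok (a.bd p q) := ok_bd hp q
    have hrd : a.dim (a.bd p q) = q.1 := dim_bd hp hqd
    by_cases h : q = (n, false)
    · exact ompsi_mk _ (.var (.z (a.bd p (q.1 - 1, false)))) (.var (.z (a.bd p (q.1 - 1, true))))
        (ompsi_top' h) hr hrd (fun h0 => ⟨cz (src_bd hp hqd h0),
          cz (tgt_bd hp hqd h0)⟩) (fun h0 => ⟨ompsi_z (iv := iv) (ne_pred q false (by omega) h0),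
            ompsi_z (iv := iv) (ne_true q)⟩)
    · exact ompsi_mk _ (.var (.z (a.bd p (q.1 - 1, false)))) (.var (.z (a.bd p (q.1 - 1, true))))
        (ompsi_top h) ⟨hr, hrd.trans hqn⟩ hrd (fun h0 => ⟨cz (src_bd hp hqd h0),
          cz (tgt_bd hp hqd h0)⟩) (fun h0 => ⟨ompsi_z (iv := iv) (ne_pred q false (by omega) h0),
            ompsi_z (iv := iv) (ne_true q)⟩)
  | cyl q =>
    have hq : (diskG (a.dim p)).ok q := hv.1
    have hqn : q.1 = n := hv.2
    have hqd := le_of q hq
    have hr : a.ok (a.bd p q) := ok_bd hp q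
    have hrd : a.dim (a.bd p q) = q.1 := dim_bd hp hqd
    have hy : (Wh S a n).m.ok (.var (.cyl (a.bd p q)) : S.T (CV a.C a.C)) := ⟨hr, hrd.trans hqn⟩
    have hyd : (Wh S a n).m.dim (.var (.cyl (a.bd p q)) : S.T (CV a.C a.C)) = n + 1 :=
      congrArg (· + 1) (hrd.trans hqn)
    have hd : n + 1 = (U S n (a.dim p)).dim (.cyl q) := by
      show n + 1 = q.1 + 1
      rw [hqn]
    by_cases h : q = (n, false)
    · obtain ⟨i1, i2, i3, i4⟩ := atCell_inv (M := (Wh S a n).m) hiv hy hyd
      exact ompsi_mk _ _ _ (ompsi_cyl' h) i1 (i2.trans hd) (fun _ => ⟨i3, i4⟩)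
        (fun _ => ⟨ompsi_z' (iv := iv) h, ompsi_top' (iv := iv) h⟩)
    · exact ompsi_mk _ _ _ (ompsi_cyl h) hy (hyd.trans hd) (fun _ => ⟨rfl, rfl⟩)
        (fun _ => ⟨ompsi_z (iv := iv) h, ompsi_top (iv := iv) h⟩)

private theorem ompsi_lowz {c : XFam S} {iv : S.T D} {n : ℕ} {a : Glob} {p : a.C}
    (h : ¬ n < a.dim p) : psiA c iv a n (.z p) = .var (.z p) := if_neg h

private theorem ompsi_hiz {c : XFam S} {iv : S.T D} {n : ℕ} {a : Glob} {p : a.C}
    (h : n < a.dim p) : psiA c iv a n (.z p) = (c (a.dim p)).bind (omA iv a n p) := if_pos h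

/-- the iterated family at a boundary cell of codimension one -/
private theorem ompsi_bdc {c : XFam S} {iv : S.T D} {n : ℕ} (hc : CGood c n)
    {a : Glob} [a.Laws] {p : a.C} (hp : a.ok p) (h : n < a.dim p) (b : Bool) :
    ((c (a.dim p - 1)).map (CV.map (bdD (a.dim p - 1, b)) (bdD (a.dim p - 1, b)))).bind
      (omA iv a n p) = if a.dim p = n + 1 then
        (if b = false then .var (.top (a.bd p (a.dim p - 1, b)))
          else .var (.z (a.bd p (a.dim p - 1, b))))
        else psiA c iv a n (.z (a.bd p (a.dim p - 1, b))) := by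
  have hle : a.dim p - 1 ≤ a.dim p := by omega
  have hdim : a.dim (a.bd p (a.dim p - 1, b)) = a.dim p - 1 := dim_bd hp hle
  rw [Tm.map_bind]
  by_cases h2 : a.dim p = n + 1
  · rw [if_pos h2]
    have e3 : a.dim p - 1 = n := by omega
    rw [e3, hc.base]
    have e4 : bdD (n, b) (n, false) = (n, b) := by
      unfold bdD
      rw [if_neg (lt_irrefl _)]
    show omA iv a n p (.z (bdD (n, b) (n, false))) = _
    rw [e4]
    cases b with
    | false => rw [if_pos rfl]; exact ompsi_z' rfl
    | true => rw [if_neg (by simp)]; exact ompsi_z (by simp)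
  · rw [if_neg h2, ompsi_hiz (by omega), hdim]
    congr 1
    funext w
    exact (ompsi_omA_bd hp hle (by show n < a.dim p - 1; omega) w).symm

theorem psiA_asgAt [S.Good] [S.Strat] {c : XFam S} {iv : S.T D} {n : ℕ} (hc : CGood c n)
    (hiv : IsInv S n iv) {a : Glob} [ha : a.Laws] (v : CV a.C a.C) (hv : (insG a n).ok v) :
    AsgAt (ofGlob S (insG a n)) (Wh S a n).m (psiA c iv a n) v := by
  cases v with
  | z p =>
    have hp : a.ok p := hv
    by_cases h : n < a.dim p
    · obtain ⟨c1, c2, c3⟩ := hc.at' (a.dim p) h.le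
      obtain ⟨c4, c5⟩ := c3 h
      have hm := eval_mapAt (X := U S n (a.dim p)) (M := (Wh S a n).m) (γ := omA iv a n p)
        (fun w hw => omA_asgAt hiv hp h w hw) (c (a.dim p)) c1
      have hpos : 0 < a.dim p := by omega
      obtain ⟨m1, m2, m3⟩ := hm
      obtain ⟨m4, m5⟩ := m3 (by
        show 0 < (U S n (a.dim p)).tdim (c (a.dim p))
        rw [c2]
        exact hpos)
      have s1 : a.bd p (a.dim p - 1, false) = a.src p := bd_pred_false hpos
      have s2 : a.bd p (a.dim p - 1, true) = a.tgt p := bd_pred_true hpos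
      have b1 := ompsi_bdc (iv := iv) hc hp h false
      have b2 := ompsi_bdc (iv := iv) hc hp h true
      rw [s1] at b1
      rw [s2] at b2
      have hdt := ha.dim_tgt p hp hpos
      refine ompsi_mk _ _ _ (ompsi_hiz h) m1 (m2.trans c2) (fun _ => ⟨m4.trans
        ((congrArg (fun t : S.T (CV D D) => t.bind (omA iv a n p)) c4).trans b1), m5.trans
        ((congrArg (fun t : S.T (CV D D) => t.bind (omA iv a n p)) c5).trans b2)⟩)
        (fun _ => ⟨?_, ?_⟩)
      · by_cases h2 : a.dim p = n + 1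
        · have e : (insG a n).src (.z p) = .top (a.src p) := if_pos h2
          refine (congrArg (psiA c iv a n) e).trans ?_
          rw [if_pos h2, if_pos rfl]
          rfl
        · have e : (insG a n).src (.z p) = .z (a.src p) := if_neg h2
          refine (congrArg (psiA c iv a n) e).trans ?_
          rw [if_neg h2]
      · show psiA c iv a n (.z (a.tgt p)) = _
        by_cases h2 : a.dim p = n + 1
        · rw [if_pos h2, if_neg (by simp)]
          exact ompsi_lowz (by omega)
        · rw [if_neg h2]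
    · refine ompsi_mk _ (.var (.z (a.src p))) (.var (.z (a.tgt p))) (ompsi_lowz h) hp rfl
        (fun _ => ⟨rfl, rfl⟩) (fun h0 => ⟨?_, ?_⟩)
      · have h0' : 0 < a.dim p := h0
        have hds := ha.dim_src p hp h0'
        have e : (insG a n).src (.z p) = .z (a.src p) := if_neg (by omega)
        exact (congrArg (psiA c iv a n) e).trans (ompsi_lowz (by omega))
      · have h0' : 0 < a.dim p := h0
        have hdt := ha.dim_tgt p hp h0'
        exact ompsi_lowz (by omega)
  | top p =>
    have hp : a.ok p := hv.1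
    have hd : a.dim p = n := hv.2
    refine ompsi_mk (.var (.top p)) (.var (.z (a.src p))) (.var (.z (a.tgt p))) rfl hv rfl
      (fun _ => ⟨rfl, rfl⟩) (fun h0 => ⟨?_, ?_⟩)
    · have h0' : 0 < a.dim p := h0
      have hds := ha.dim_src p hp h0'
      exact ompsi_lowz (by omega)
    · have h0' : 0 < a.dim p := h0
      have hdt := ha.dim_tgt p hp h0'
      exact ompsi_lowz (by omega)
  | cyl p =>
    have hp : a.ok p := hv.1
    have hd : a.dim p = n := hv.2
    have hy : (Wh S a n).m.ok (.var (.cyl p) : S.T (CV a.C a.C)) := hv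
    have hyd : (Wh S a n).m.dim (.var (.cyl p) : S.T (CV a.C a.C)) = n + 1 :=
      congrArg (· + 1) hd
    obtain ⟨i1, i2, i3, i4⟩ := atCell_inv (M := (Wh S a n).m) hiv hy hyd
    obtain ⟨j1, j2, j3, j4⟩ := atCell_inv (M := (Wh S a n).m) hiv i1 i2
    refine ompsi_mk _ _ _ rfl j1 (j2.trans ?_) (fun _ => ⟨j3.trans i4, j4.trans i3⟩)
      (fun _ => ⟨?_, rfl⟩)
    · show n + 1 = a.dim p + 1
      rw [hd]
    · exact ompsi_lowz (by omega)

end HH
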