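import Pool.Agent.HH.CylUP
import Pool.Agent.HH.OmPsi
import Pool.Agent.HH.Phi

/-!
# HH module 15 (KapW): the cylinder from `ψ ∘ φ` to the identity of the whiskered arity
-/

set_option autoImplicit false

namespace HH

open Classical

variable {S : Sig}

private theorem kapW_bdD_eq {n : ℕ} {s t : D} (h : n < s.1) :
    bdD s t = (n, false) ↔ t = (n, false) := by
  unfold bdD
  constructor
  · intro h1
    by_cases h2 : t.1 < s.1
    · rwa [if_pos h2] at h1
    · rw [if_neg h2] at h1
      rw [h1] at h
      exact absurd h (lt_irrefl _)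
  · intro h1
    subst h1
    rw [if_pos h]

/-- `ω` at a boundary cell -/
private theorem kapW_omA_bd {iv : S.T D} {n : ℕ} {a : Glob} [a.Laws] {p : a.C} (hp : a.ok p)
    {s : D} (hs : s.1 ≤ a.dim p) (hn : n < s.1) (v : CV D D) :
    omA iv a n (a.bd p s) v = omA iv a n p (CV.map (bdD s) (bdD s) v) := by
  cases v with
  | z t =>
    simp only [CV.map_z, omA, kapW_bdD_eq hn, bd_bd hp hs]
  | top t =>
    simp only [CV.map_top, omA, kapW_bdD_eq hn, bd_bd hp hs]
  | cyl t =>
    simp only [CV.map_cyl, omA, kapW_bdD_eq hn, bd_bd hp hs]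

private theorem kapW_isAsg [S.Good] [S.Strat] {iv : S.T D} {n : ℕ} (hiv : IsInv S n iv)
    {a : Glob} [a.Laws] {p : a.C} (hp : a.ok p) (hn : n < a.dim p) (L : ℕ) :
    IsAsg L (U S n (a.dim p)) (Wh S a n).m (omA iv a n p) :=
  fun v hv _ => omA_asgAt hiv hp hn v hv

private theorem kapW_atCell [S.Good] [S.Strat] {iv : S.T D} {n : ℕ} (hiv : IsInv S n iv)
    {a : Glob} [a.Laws] {p : a.C} (hp : a.ok p) (hn : n < a.dim p)
    {y : S.T (CV D D)} (hy : (U S n (a.dim p)).tok y) (t : S.T D) :
    (atCell (U S n (a.dim p)).m t y).bind (omA iv a n p) =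
      atCell (Wh S a n).m t (y.bind (omA iv a n p)) :=
  eval_atCell (X := U S n (a.dim p)) (M := (Wh S a n).m) hy (kapW_isAsg hiv hp hn _) t

/-- the pointwise identity `ψ ∘ ζ_p = ω_p ∘ μ` -/
private theorem kapW_pt [S.Good] [S.Strat] {c : XFam S} {iv : S.T D} {n : ℕ}
    (hiv : IsInv S n iv) {a : Glob} [a.Laws] {p : a.C} (hp : a.ok p) (hn : n < a.dim p)
    {w : CV D D} (hw : (U S n (a.dim p)).ok w) :
    psiA c iv a n (CV.map (a.bd p) (a.bd p) w) = (muA c iv n (a.dim p) w).bind (omA iv a n p) := by
  cases w with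
  | z s =>
    have hs : s.1 ≤ a.dim p := by
      have h : (diskG (a.dim p)).ok s := hw
      rcases h with h | h
      · exact h.le
      · exact h.1.le
    have hd : a.dim (a.bd p s) = s.1 := dim_bd hp hs
    simp only [CV.map_z, psiA, muA, hd]
    by_cases h1 : n < s.1
    · rw [if_pos h1, if_pos h1, Tm.map_bind]
      congr 1
      funext v
      exact kapW_omA_bd hp hs h1 v
    · rw [if_neg h1, if_neg h1]
      by_cases h2 : s = (n, false)
      · rw [if_pos h2, Tm.bind_var]
        simp only [omA, if_pos h2]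
      · rw [if_neg h2, Tm.bind_var]
        simp only [omA, if_neg h2]
  | top s =>
    simp only [CV.map_top, psiA, muA]
    by_cases h2 : s = (n, false)
    · rw [if_pos h2, Tm.bind_var]
      simp only [omA, if_pos h2]
    · rw [if_neg h2, Tm.bind_var]
      simp only [omA, if_neg h2]
  | cyl s =>
    have hs : (diskG (a.dim p)).ok s ∧ (diskG (a.dim p)).dim s = n := hw
    have hy : (U S n (a.dim p)).tok (.var (.cyl s)) := hw
    have hd : (U S n (a.dim p)).tdim (.var (.cyl s)) = n + 1 := congrArg (· + 1) hs.2
    simp only [CV.map_cyl, psiA, muA]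
    by_cases h2 : s = (n, false)
    · have e3 : omA iv a n p (.cyl s) =
          atCell (Wh S a n).m iv (.var (.cyl (a.bd p s))) := if_pos h2
      rw [if_pos h2]
      refine Eq.trans ?_ (kapW_atCell hiv hp hn hy iv).symm
      exact congrArg (atCell (Wh S a n).m iv) e3.symm
    · have e3 : omA iv a n p (.cyl s) = .var (.cyl (a.bd p s)) := if_neg h2
      have h3 := (atCell_inv (M := (U S n (a.dim p)).m) hiv
        (y := (.var (.cyl s) : S.T (CV D D))) hy hd).1
      rw [if_neg h2]
      refine Eq.trans ?_ (kapW_atCell hiv hp hn h3 iv).symm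
      refine congrArg (atCell (Wh S a n).m iv) ?_
      refine Eq.trans ?_ (kapW_atCell hiv hp hn hy iv).symm
      exact congrArg (atCell (Wh S a n).m iv) e3.symm

private theorem kapW_map_bd {a : Glob} [a.Laws] {p : a.C} (hp : a.ok p) {q : D}
    (hs : q.1 ≤ a.dim p) (v : CV D D) :
    CV.map (a.bd (a.bd p q)) (a.bd (a.bd p q)) v =
      CV.map (a.bd p) (a.bd p) (CV.map (bdD q) (bdD q) v) := by
  cases v <;> simp only [CV.map_z, CV.map_top, CV.map_cyl, bd_bd hp hs]

private theorem kapW_map_disk (j : ℕ) (q : D) (v : CV D D) :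
    (CV.map ((diskG j).bd q) ((diskG j).bd q) v : CV D D) = CV.map (bdD q) (bdD q) v :=
  congrArg (fun f : D → D => CV.map f f v) (funext fun r => diskG_bd j q r)

/-- `α = ψ ∘ φ` is the image under `ω_p` of its universal version -/
theorem psi_phi_eq [S.Good] [S.Strat] {c : XFam S} {iv : S.T D} {n : ℕ} (hc : CGood c n)
    (hiv : IsInv S n iv) {a : Glob} [a.Laws] {p : a.C} (hp : a.ok p) (hn : n < a.dim p)
    {q : D} (hq : (diskG (a.dim p)).ok q) (hnq : n < q.1) :
    (phiA c a n (.z (a.bd p q))).bind (psiA c iv a n) =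
      (alU c iv n (a.dim p) q).bind (omA iv a n p) := by
  have hs : q.1 ≤ a.dim p := by
    rcases hq with h | h
    · exact h.le
    · exact h.1.le
  have hd : a.dim (a.bd p q) = q.1 := dim_bd hp hs
  simp only [phiA, alU, hd]
  rw [if_pos hnq.le, if_pos hnq, Tm.map_bind, Tm.map_bind, Tm.bind_bind]
  refine bind_congr (X := U S n q.1) (c q.1) (hc.at' q.1 hnq.le).1 fun v hv => ?_
  have hw : (U S n (a.dim p)).ok (CV.map (bdD q) (bdD q) v) := by
    have h := (U_map (S := S) (a := diskG (a.dim p)) (p := q) hq n v hv).1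
    exact (congrArg (insG (diskG (a.dim p)) n).ok (kapW_map_disk (a.dim p) q v)).mp h
  exact (congrArg (psiA c iv a n) (kapW_map_bd hp hs v)).trans (kapW_pt hiv hp hn hw)

private theorem kapW_iter {a : Glob} (n : ℕ) (b : Bool) (k : ℕ) (p : a.C) :
    (if b then (whiskG a n).tgt else (whiskG a n).src)^[k] (.z p) =
      CV.z ((if b then a.tgt else a.src)^[k] p) := by
  induction k generalizing p with
  | zero => rfl
  | succ k ih =>
    rw [Function.iterate_succ_apply, Function.iterate_succ_apply]
    cases b with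
    | false => exact ih (a.src p)
    | true => exact ih (a.tgt p)

/-- iterated boundaries of the old cells of `whiskG` -/
private theorem kapW_bd {a : Glob} (n : ℕ) (p : a.C) (q : D) :
    (whiskG a n).bd (.z p) q = .z (a.bd p q) := by
  unfold Glob.bd
  exact kapW_iter n q.2 _ p

/-- `ψ ∘ φ` is the identity in low dimensions -/
private theorem kapW_low {c : XFam S} {iv : S.T D} {n : ℕ} (hc : CGood c n)
    {a : Glob} {p : a.C} (hd : a.dim p ≤ n) :
    (phiA c a n (.z p)).bind (psiA c iv a n) = .var (.z p) := by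
  have h1 : ¬ n < a.dim p := by omega
  have h2 : psiA c iv a n (.z p) = .var (.z p) := by
    simp only [psiA, if_neg h1]
  simp only [phiA]
  by_cases h : n ≤ a.dim p
  · have h3 : a.dim p = n := le_antisymm hd h
    rw [if_pos h, h3, hc.base, Tm.map_var, CV.map_z, bd_of_le p (n, false) hd, Tm.bind_var, h2]
  · rw [if_neg h, Tm.bind_var, h2]

private theorem kapW_beU {iv : S.T D} {n : ℕ} {a : Glob} (p : a.C) (q : D) :
    (beU S n q).bind (omA iv a n p) = .var (.z (a.bd p q)) := by
  unfold beU
  by_cases h : q = (n, false)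
  · rw [if_pos h, Tm.bind_var]
    simp only [omA, if_pos h]
  · rw [if_neg h, Tm.bind_var]
    simp only [omA, if_neg h]

private theorem kapW_mapAt_comp {G H K : Glob} {f : G.C → H.C} {g : H.C → K.C} {x : G.C}
    (hf : MapAt G H f x) (hg : MapAt H K g (f x)) : MapAt G K (fun x => g (f x)) x := by
  obtain ⟨f1, f2, f3⟩ := hf
  obtain ⟨g1, g2, g3⟩ := hg
  refine ⟨g1, g2.trans f2, fun h0 => ?_⟩
  obtain ⟨f4, f5⟩ := f3 h0
  obtain ⟨g4, g5⟩ := g3 (by rw [f2]; exact h0)
  exact ⟨by rw [g4, f4], by rw [g5, f5]⟩

theorem kapW_isCyl [S.Good] [S.Strat] {x c κ : XFam S} {iv k0 : S.T D} {n L : ℕ}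
    (hx : XGood x (n + 1) L) (hc : CGood c n) (hiv : IsInv S n iv) (hk0 : IsK0 S n iv k0)
    (hκ : ∀ j, n < j → j ≤ L → KGoodAt x c iv κ n j) {a : Glob} [a.Laws] :
    IsCyl x (n + 1) L (whiskG a n) (Wh S a n).m
      (fun v => (phiA c a n v).bind (psiA c iv a n)) .var (kapW κ iv k0 a n) where
  mapα := by
    intro v hv _
    have h1 := phiA_mapAt hc v hv
    exact kapW_mapAt_comp h1 (eval_mapAt (X := ofGlob S (insG a n)) (M := (Wh S a n).m)
      (fun w hw => psiA_asgAt hc hiv w hw) _ h1.1)
  mapβ := by
    intro v hv _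
    exact ⟨hv, rfl, fun _ => ⟨rfl, rfl⟩⟩
  low := by
    intro v hv h1 _
    cases v with
    | z p => exact kapW_low hc (Nat.lt_succ_iff.1 h1)
    | top p => rfl
    | cyl p =>
      exfalso
      have h2 : a.dim p = n := hv.2
      have h3 : a.dim p + 1 < n + 1 := h1
      omega
  cyl := by
    intro v hv h1 h2
    cases v with
    | z p =>
      have hp : a.ok p := hv
      have hn : n < a.dim p := h1
      have hL : a.dim p < L := h2
      obtain ⟨k1, k2⟩ := hκ (a.dim p) hn hL.le
      have hX := hx.at' (a.dim p) hn hL.le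
      have hK := CylAt.eval (M := (Wh S a n).m) (kapW_isAsg hiv hp hn _) k2
      have hp' : a.bd p (a.dim p, false) = p := bd_of_le p _ le_rfl
      have he' : ∀ q : D, q.1 ≤ a.dim p → n < q.1 →
          ((κ q.1).map (CV.map (bdD q) (bdD q))).bind (omA iv a n p) =
            kapW κ iv k0 a n (.z (a.bd p q)) := by
        intro q hq hnq
        simp only [kapW, dim_bd hp hq, Tm.map_bind]
        congr 1
        funext v
        exact (kapW_omA_bd hp hq hnq v).symm
      obtain ⟨c1, c2, c3, c4⟩ := hK
      have ee := he' (a.dim p, false) le_rfl hn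
      rw [hp'] at ee
      refine ⟨?_, ?_, ?_, ?_⟩
      · rw [← ee]
        exact c1
      · rw [← ee]
        exact c2
      · rw [← ee]
        refine c3.trans ?_
        unfold cs
        refine eval_congr (X := CylG x (diskG (a.dim p)) (n + 1) (a.dim p)) (x (a.dim p)) hX.1
          fun w hw => ?_
        have hbd : ∀ q : D, (diskG (a.dim p)).ok q →
            (diskG (a.dim p)).bd (a.dim p, false) q = q := by
          intro q hq
          rw [diskG_bd]
          unfold bdD
          by_cases h : q.1 < a.dim p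
          · rw [if_pos h]
          · rw [if_neg h]
            rcases hq with h3 | h3
            · exact absurd h3 h
            · exact (Prod.ext h3.1 h3.2).symm
        cases w with
        | z q =>
          have hq : (diskG (a.dim p)).ok q := hw
          show (alU c iv n (a.dim p) ((diskG (a.dim p)).bd (a.dim p, false) q)).bind
            (omA iv a n p) = (phiA c a n ((whiskG a n).bd (.z p) q)).bind (psiA c iv a n)
          rw [kapW_bd]
          refine (congrArg (fun r : D => (alU c iv n (a.dim p) r).bind (omA iv a n p))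
            (hbd q hq)).trans ?_
          by_cases hnq : n < q.1
          · exact (psi_phi_eq hc hiv hp hn hq hnq).symm
          · have hqd : q.1 ≤ a.dim p := by omega
            rw [kapW_low hc (by rw [dim_bd hp hqd]; omega)]
            unfold alU
            rw [if_neg hnq]
            exact kapW_beU p q
        | top q =>
          have hq : (diskG (a.dim p)).ok q := hw.1
          show (beU S n ((diskG (a.dim p)).bd (a.dim p, false) q)).bind
            (omA iv a n p) = .var ((whiskG a n).bd (.z p) q)
          rw [kapW_bd]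
          refine (congrArg (fun r : D => (beU S n r).bind (omA iv a n p)) (hbd q hq)).trans ?_
          exact kapW_beU p q
        | cyl q =>
          have hq : (diskG (a.dim p)).ok q := hw.1
          have h3 : n + 1 ≤ q.1 := hw.2.1
          have h4 : q.1 < a.dim p := hw.2.2
          show ((κ ((diskG (a.dim p)).bd (a.dim p, false) q).1).map
            (CV.map (bdD ((diskG (a.dim p)).bd (a.dim p, false) q))
              (bdD ((diskG (a.dim p)).bd (a.dim p, false) q)))).bind
            (omA iv a n p) = kapW κ iv k0 a n ((whiskG a n).bd (.z p) q)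
          rw [kapW_bd]
          refine (congrArg (fun r : D => ((κ r.1).map (CV.map (bdD r) (bdD r))).bind
            (omA iv a n p)) (hbd q hq)).trans ?_
          exact he' q h4.le h3
      · rw [← ee]
        refine c4.trans ?_
        have := kapW_beU (S := S) (iv := iv) (n := n) p (a.dim p, false)
        rw [hp'] at this
        exact this
    | top p =>
      exfalso
      have h3 : a.dim p = n := hv.2
      have h4 : n + 1 ≤ a.dim p := h1
      omega
    | cyl p =>
      have h3 : a.ok p ∧ a.dim p = n := hv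
      have h4 : (whiskG a n).dim (.cyl p) = n + 1 := congrArg (· + 1) h3.2
      obtain ⟨c1, c2, c3, c4⟩ := atCell_k0 (M := (Wh S a n).m) hk0 hiv
        (y := (.var (.cyl p) : S.T (CV a.C a.C))) hv h4
      refine ⟨c1, ?_, ?_, c4⟩
      · rw [h4]
        exact c2
      · rw [cs_base hx.base h4]
        exact c3

end HH
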