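import Pool.Agent.HH.Interp

/-!
# HH stage 2, module c2: transfer of level-0 data
-/

set_option autoImplicit false

namespace HH

open Classical CategoryTheory

variable {S E R : Sig}

namespace L0Tr

/-- membership in a computad only depends on the computad -/
theorem cylAt_cast {X Y : Cptd E} (h : X = Y) {V : Type} (hX : X.V = V) (hY : Y.V = V)
    {x : XFam E} {W : Glob} {α β e : W.C → E.T V} {p : W.C}
    (hc : CylAt X.m x W (fun q => cast (congrArg E.T hX.symm) (α q))
      (fun q => cast (congrArg E.T hX.symm) (β q)) (fun q => cast (congrArg E.T hX.symm) (e q)) p) :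
    CylAt Y.m x W (fun q => cast (congrArg E.T hY.symm) (α q))
      (fun q => cast (congrArg E.T hY.symm) (β q))
      (fun q => cast (congrArg E.T hY.symm) (e q)) p := by
  subst h
  exact hc

theorem tok_cast {X Y : Cptd E} (h : X = Y) {V : Type} (hX : X.V = V) (hY : Y.V = V)
    (t s u : E.T V) (n : ℕ) (P : Prop)
    (hc : X.tok (cast (congrArg E.T hX.symm) t) ∧ X.tdim (cast (congrArg E.T hX.symm) t) = n ∧
      (P → X.tsrc (cast (congrArg E.T hX.symm) t) = cast (congrArg E.T hX.symm) s ∧
        X.ttgt (cast (congrArg E.T hX.symm) t) = cast (congrArg E.T hX.symm) u)) :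
    Y.tok (cast (congrArg E.T hY.symm) t) ∧ Y.tdim (cast (congrArg E.T hY.symm) t) = n ∧
      (P → Y.tsrc (cast (congrArg E.T hY.symm) t) = cast (congrArg E.T hY.symm) s ∧
        Y.ttgt (cast (congrArg E.T hY.symm) t) = cast (congrArg E.T hY.symm) u) := by
  subst h
  exact hc

/-- translation of terms over cylinders -/
theorem cylG_trans {j : Interp S E} (hj : j.Good) (x : XFam S) (a : Glob) (N J : ℕ)
    (t : S.T (CV a.C a.C)) (ht : (CylG x a N J).tok t) :
    (CylG (fun i => trans j (x i)) a N J).tok (trans j t) ∧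
      (CylG (fun i => trans j (x i)) a N J).tdim (trans j t) = (CylG x a N J).tdim t ∧
      (0 < (CylG x a N J).tdim t →
        (CylG (fun i => trans j (x i)) a N J).tsrc (trans j t) =
          trans j ((CylG x a N J).tsrc t) ∧
        (CylG (fun i => trans j (x i)) a N J).ttgt (trans j t) =
          trans j ((CylG x a N J).ttgt t)) :=
  tok_cast (CylG_tr j x a N J) (V := CV a.C a.C) rfl rfl (trans j t)
    (trans j ((CylG x a N J).tsrc t)) (trans j ((CylG x a N J).ttgt t)) _ _
    (trans_mapAt hj (CylG x a N J) t ht)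

theorem zc_trans {j : Interp S E} (hj : j.Good) (x : XFam S) (i : ℕ)
    (t : S.T (CV (CV D D) Bool)) (ht : (Zc x i).tok t) :
    (Zc (fun i => trans j (x i)) i).tok (trans j t) ∧
      (Zc (fun i => trans j (x i)) i).tdim (trans j t) = (Zc x i).tdim t ∧
      (0 < (Zc x i).tdim t →
        (Zc (fun i => trans j (x i)) i).tsrc (trans j t) = trans j ((Zc x i).tsrc t) ∧
        (Zc (fun i => trans j (x i)) i).ttgt (trans j t) = trans j ((Zc x i).ttgt t)) :=
  tok_cast (Zc_tr j x i) (V := CV (CV D D) Bool) rfl rfl (trans j t)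
    (trans j ((Zc x i).tsrc t)) (trans j ((Zc x i).ttgt t)) _ _
    (trans_mapAt hj (Zc x i) t ht)

/-- translation of cylinder sources -/
theorem trans_cs (j : Interp S E) (X : Cptd S) (x : XFam S) (W : Glob) (α β e : W.C → S.T X.V)
    (p : W.C) :
    trans j (cs X.m x W α β e p) = cs (X.tr j).m (fun i => trans j (x i)) W
      (fun q => trans j (α q)) (fun q => trans j (β q)) (fun q => trans j (e q)) p := by
  refine (trans_bind j (x (W.dim p)) _).trans ?_
  show (trans j (x (W.dim p))).bind _ = (trans j (x (W.dim p))).bind _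
  congr 1
  funext v
  cases v <;> rfl

theorem cylAt_trans {j : Interp S E} (hj : j.Good) {X : Cptd S} {x : XFam S} {W : Glob}
    {α β e : W.C → S.T X.V} {p : W.C} (h : CylAt X.m x W α β e p) :
    CylAt (X.tr j).m (fun i => trans j (x i)) W
      (fun q => trans j (α q)) (fun q => trans j (β q)) (fun q => trans j (e q)) p := by
  obtain ⟨h1, h2, h3, h4⟩ := h
  obtain ⟨k1, k2, k3⟩ := trans_mapAt hj X (e p) h1
  have h0 : 0 < X.m.toGlob.dim (e p) := by
    rw [h2]
    exact Nat.succ_pos _
  obtain ⟨m1, m2⟩ := k3 h0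
  refine ⟨k1, k2.trans h2, m1.trans ?_, m2.trans (congrArg (trans j) h4)⟩
  exact (congrArg (trans j) h3).trans (trans_cs j X x W α β e p)

theorem trans_w0src (j : Interp S E) (x : XFam S) (i : ℕ) :
    trans j (w0src x i) = w0src (fun i => trans j (x i)) i := by
  refine (trans_bind j (x i) _).trans ?_
  show (trans j (x i)).bind _ = (trans j (x i)).bind _
  congr 1
  funext v
  cases v with
  | z q =>
    simp only [CV.elim_z]
    split <;> rfl
  | top q => rfl
  | cyl q => rfl

theorem trans_w1src (j : Interp S E) (x : XFam S) (w : S.T (CV (CV D D) Bool)) (i : ℕ) :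
    trans j (w1src x w i) = w1src (fun i => trans j (x i)) (trans j w) i := by
  refine (trans_bind j (x (i + 1)) _).trans ?_
  show (trans j (x (i + 1))).bind _ = (trans j (x (i + 1))).bind _
  congr 1
  funext v
  cases v with
  | z q =>
    simp only [CV.elim_z]
    split
    · rfl
    · split
      · rfl
      · split <;> rfl
  | top q =>
    simp only [CV.elim_top]
    split
    · rfl
    · split <;> rfl
  | cyl q =>
    simp only [CV.elim_cyl]
    split
    · rfl
    · split <;> rfl

end L0Tr

open L0Tr in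
theorem L0.tr_good {j : Interp S E} (hj : j.Good) {d : L0 S} (hd : d.Good) :
    (d.tr j).Good where
  x0 := congrArg (trans j) hd.x0
  hx := fun i => by
    obtain ⟨h1, h2, h3⟩ := hd.hx i
    obtain ⟨k1, k2, k3⟩ := cylG_trans hj d.x (diskG i) 0 i (d.x i) h1
    refine ⟨k1, k2.trans h2, fun h0 => ?_⟩
    obtain ⟨m1, m2⟩ := k3 (by rw [h2]; exact h0)
    obtain ⟨n1, n2⟩ := h3 h0
    exact ⟨m1.trans ((congrArg (trans j) n1).trans (trans_tp j _ _ _)),
      m2.trans ((congrArg (trans j) n2).trans (trans_tp j _ _ _))⟩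
  hr := fun i => by
    obtain ⟨h1, h2⟩ := hd.hr i
    refine ⟨?_, (cylG_trans hj d.x (diskG i) 0 (i + 1) (d.r i) h2).1⟩
    have h3 := cylAt_cast (CylG_tr j d.x (diskG i) 0 (i + 1)) (V := CV D D) rfl rfl
      (cylAt_trans hj h1)
    have e1 : (fun q => trans j (tpG S (diskG i) 0 q)) = tpG E (diskG i) 0 :=
      funext fun q => trans_tp j _ _ _
    have e2 : (fun q : D => trans j ((d.r q.1).map (CV.map (bdD q) (bdD q)))) =
        fun q => (trans j (d.r q.1)).map (CV.map (bdD q) (bdD q)) :=
      funext fun q => trans_map j _ _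
    have h4 : CylAt (CylG (fun i => trans j (d.x i)) (diskG i) 0 (i + 1)).m
        (fun i => trans j (d.x i)) (diskG i) (fun q => trans j (tpG S (diskG i) 0 q))
        (fun q => .var (.z q))
        (fun q : D => trans j ((d.r q.1).map (CV.map (bdD q) (bdD q)))) (i, false) := h3
    exact e1 ▸ e2 ▸ h4
  un_ok := fun i => (trans_mapAt hj (ofGlob S (diskG i)) (d.un i) (hd.un_ok i)).1
  un_dim := fun i => (trans_mapAt hj (ofGlob S (diskG i)) (d.un i) (hd.un_ok i)).2.1.trans
    (hd.un_dim i)
  un_src := fun i => ((trans_mapAt hj (ofGlob S (diskG i)) (d.un i) (hd.un_ok i)).2.2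
    (by show 0 < (ofGlob S (diskG i)).tdim (d.un i)
        rw [hd.un_dim i]
        exact Nat.succ_pos _)).1.trans (congrArg (trans j) (hd.un_src i))
  un_tgt := fun i => ((trans_mapAt hj (ofGlob S (diskG i)) (d.un i) (hd.un_ok i)).2.2
    (by show 0 < (ofGlob S (diskG i)).tdim (d.un i)
        rw [hd.un_dim i]
        exact Nat.succ_pos _)).2.trans (congrArg (trans j) (hd.un_tgt i))
  w0_ok := fun i => (zc_trans hj d.x i (d.w0 i) (hd.w0_ok i)).1
  w0_dim := fun i => (zc_trans hj d.x i (d.w0 i) (hd.w0_ok i)).2.1.trans (hd.w0_dim i)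
  w0_src := fun i => ((zc_trans hj d.x i (d.w0 i) (hd.w0_ok i)).2.2
    (by rw [hd.w0_dim i]; exact Nat.succ_pos _)).1.trans
      ((congrArg (trans j) (hd.w0_src i)).trans (trans_w0src j _ _))
  w0_tgt := fun i => ((zc_trans hj d.x i (d.w0 i) (hd.w0_ok i)).2.2
    (by rw [hd.w0_dim i]; exact Nat.succ_pos _)).2.trans (congrArg (trans j) (hd.w0_tgt i))
  w1_ok := fun i => (zc_trans hj d.x i (d.w1 i) (hd.w1_ok i)).1
  w1_dim := fun i => (zc_trans hj d.x i (d.w1 i) (hd.w1_ok i)).2.1.trans (hd.w1_dim i)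
  w1_src := fun i => ((zc_trans hj d.x i (d.w1 i) (hd.w1_ok i)).2.2
    (by rw [hd.w1_dim i]; exact Nat.succ_pos _)).1.trans
      ((congrArg (trans j) (hd.w1_src i)).trans (trans_w1src j _ _ _))
  w1_tgt := fun i => ((zc_trans hj d.x i (d.w1 i) (hd.w1_ok i)).2.2
    (by rw [hd.w1_dim i]; exact Nat.succ_pos _)).2.trans (congrArg (trans j) (hd.w1_tgt i))
  v_ok := fun i hi => (cylG_trans hj d.x (diskG i) 0 i (d.v i) (hd.v_ok i hi)).1
  v_dim := fun i hi => (cylG_trans hj d.x (diskG i) 0 i (d.v i) (hd.v_ok i hi)).2.1.trans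
    (hd.v_dim i hi)
  v_src := fun i hi => ((cylG_trans hj d.x (diskG i) 0 i (d.v i) (hd.v_ok i hi)).2.2
    (by rw [hd.v_dim i hi]; exact Nat.succ_pos _)).1.trans (congrArg (trans j) (hd.v_src i hi))
  v_tgt := fun i hi => by
    refine ((cylG_trans hj d.x (diskG i) 0 i (d.v i) (hd.v_ok i hi)).2.2
      (by rw [hd.v_dim i hi]; exact Nat.succ_pos _)).2.trans
      ((congrArg (trans j) (hd.v_tgt i hi)).trans ?_)
    refine (trans_bind j (d.x i) _).trans ?_
    show (trans j (d.x i)).bind _ = (trans j (d.x i)).bind _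
    congr 1
    funext v
    cases v with
    | z q => rfl
    | top q => rfl
    | cyl q =>
      show trans j (cs (CylG d.x (diskG i) 0 i).m d.r (diskG i) (fun q => .var (.top q))
        (fun q => .var (.z q)) (cs (CylG d.x (diskG i) 0 i).m d.r (diskG i)
          (fun q => .var (.z q)) (fun q => .var (.top q)) (fun q => .var (.cyl q))) q) = _
      refine (trans_cs j (CylG d.x (diskG i) 0 i) d.r (diskG i) _ _ _ q).trans ?_
      have h : (fun q => trans j (cs (CylG d.x (diskG i) 0 i).m d.r (diskG i)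
          (fun q => .var (.z q)) (fun q => .var (.top q)) (fun q => .var (.cyl q)) q)) =
          cs (CylG (d.tr j).x (diskG i) 0 i).m (d.tr j).r (diskG i)
          (fun q => .var (.z q)) (fun q => .var (.top q)) (fun q => .var (.cyl q)) :=
        funext fun q => trans_cs j (CylG d.x (diskG i) 0 i) d.r (diskG i) _ _ _ q
      exact congrArg (fun e => cs (CylG (d.tr j).x (diskG i) 0 i).m (d.tr j).r (diskG i)
          (fun q => .var (.top q)) (fun q => .var (.z q)) e q) h

end HH
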