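import Pool.Agent.HH.RO
import Pool.Agent.HH.CsSig
import Pool.Agent.HH.ExSig

/-!
# HH 2b MD: the cells of a presheaf as a model of the extended signature (module to prove)

`BT.up` embeds the terms of `Cs` into the extended terms. All proofs by structural induction.

* `rhoX_up`, `up_toTm`, `sub_up`, `rhoX_eval`: unfold; `rhoX_eval`: at `op`/`ex` both sides are the same `app`.
* Main induction. For an extended term `t` over `A` with `t.ok` let
    typed(t): `(rhoX t).1 = t.dim` and, if `0 < t.dim`, `src (rhoX t) = rhoX t.src`, `tgt (rhoX t) = rhoX t.tgt`;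
    NAT(t): for every model `P`, every `γ : A.P → GG F P` and `x` with `act x (leg p) = γ p` for all `p`:
       `(MD hF P).eval γ t.toTm = act x (rhoX t)`.
  Prove typed(t), NAT(t), NAT(t.src), NAT(t.tgt) together, first for the terms `t.up`, `t : BT A`, then for all
  extended terms.
  - For `t = op k δ` or `ex b a l i δ` the family `fun p => rhoX (δ p)` is globular by typed(δ p), so by `rO_up` for
    the model `yoneda.obj (rO A)` there is `y : rO B ⟶ rO A` with `act y (leg p) = rhoX (δ p)`, and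
    `rhoX t = act y c = push y c` by `app_spec` (c = `opC k` or `opE b (rhoX l) i`); NAT(t): the family
    `fun p => eval γ (δ p).toTm = act x (rhoX (δ p)) = act (P.map y.op x) (leg p)` by NAT(δ p), `act_push`; so
    `eval γ t.toTm = app P c _ = act (P.map y.op x) c = act x (push y c)`.
  - NAT(s) and typed(δ p), NAT(δ p) for all `p` give NAT(s.bind δ) and `rhoX (s.bind δ) = push y (rhoX s)` (apply NAT(s)
    to the family `rhoX ∘ δ`, `(s.bind δ).toTm = s.toTm.bind (toTm ∘ δ)`, `eval_bind`).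
  - typed(t) for `op (B, f, g) δ`: `opC = liftOf (rhoB f) (rhoB g)`; the two cells are parallel by typed(f), typed(g)
    and `F.Contractible` gives a lifting (`GG_contr`), so `liftOf` has source `rhoB f` and target `rhoB g`; then
    `t.src = sub (f.toTm) δ = f.up.bind δ` and NAT(f).
  - typed(t) for `ex true a l i δ`: source of `opE true L i` is `L := rhoX l`, its target is `opE false L i`
    (both cases of the definition; in the second case `liftOf L L`, which exists by contractibility). For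
    `ex false a l i δ`: `opE false L i` is parallel to `L`; `t.src = l.src.bind δ`, use typed(l) and NAT(l.src).
  - NAT(t.src): `t.src` is `var (src p)`, `f.up.bind δ`, `l.bind δ` or `l.src.bind δ`.
* `MD_opLaws`: a typed family `γ` over the arity `A` of `k` is `act x ∘ leg` for an `x` (`rO_up`); the value of the
  operation is `act x c` (`app_spec`), its source `act x (src c)` with `src c = rhoX (the boundary term)`, and
  NAT of the boundary term gives `eval γ (bs k)`.
-/

set_option autoImplicit false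

namespace HH

open Classical CategoryTheory Opposite

open Pool.Agent.HH (Globes)

variable {C : Type} [SmallCategory C] {F : Globes C}

/-- terms of `Cs` as extended terms -/
def BT.up {I : Type} : {A : PC} → BT A → XT Cs PC.G I A
  | _, .var p => .var p
  | _, .coh B f g γ => .op (S := Cs) ⟨B, f, g⟩ (fun p => (γ p).up)

theorem rhoX_up (hF : F.IsExt) {A : PC} (t : BT A) : rhoX hF t.up = rhoB hF t := by
  induction t with
  | var p => rfl
  | coh B f g γ _ _ ih =>
    show app hF (yoneda.obj (rO hF _)) (opC hF ⟨B, f, g⟩) (fun p => rhoX hF (γ p).up) =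
      app hF (yoneda.obj (rO hF _)) (liftOf (rhoB hF f) (rhoB hF g)) (fun p => rhoB hF (γ p))
    congr 1
    funext p
    exact ih p

theorem up_toTm {I : Type} {A : PC} (t : BT A) :
    (t.up (I := I)).toTm = upT (S := Cs) (G := PC.G) (I := I) t.toTm := by
  induction t with
  | var p => rfl
  | coh B f g γ _ _ ih =>
    show Tm.op (Sum.inl (⟨B, f, g⟩ : CsK)) (fun p => ((γ p).up).toTm) =
      Tm.op (Sum.inl (⟨B, f, g⟩ : CsK)) (fun p => upT (S := Cs) (G := PC.G) (I := I) (γ p).toTm)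
    congr 1
    funext p
    exact ih p

/-- the boundary terms of the operations of `Cs` -/
theorem MD_sub_up {I : Type} {A B : PC} (t : BT B) (γ : B.P → XT Cs PC.G I A) :
    XT.sub (S := Cs) t.toTm γ = (t.up (I := I)).bind γ := by
  induction t with
  | var p => rfl
  | coh C f g δ _ _ ih =>
    show XT.op (S := Cs) (⟨C, f, g⟩ : CsK) (fun p => XT.sub (S := Cs) (δ p).toTm γ) =
      XT.op (S := Cs) (⟨C, f, g⟩ : CsK) (fun p => ((δ p).up (I := I)).bind γ)
    congr 1
    funext p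
    exact ih p γ

theorem MD_up_bind {I : Type} {A B : PC} (t : BT B) (γ : B.P → BT A) :
    (t.bind γ).up (I := I) = (t.up (I := I)).bind (fun p => (γ p).up) := by
  induction t with
  | var p => rfl
  | coh C f g δ _ _ ih =>
    show XT.op (S := Cs) (⟨C, f, g⟩ : CsK) (fun p => ((δ p).bind γ).up) =
      XT.op (S := Cs) (⟨C, f, g⟩ : CsK) (fun p => ((δ p).up (I := I)).bind (fun p => (γ p).up))
    congr 1
    funext p
    exact ih p γ

theorem MD_up_dim {I : Type} {A : PC} (t : BT A) : (t.up (I := I)).dim = t.dim := by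
  cases t with
  | var p => rfl
  | coh B f g γ => rfl

theorem MD_up_src {I : Type} {A : PC} (t : BT A) : (t.up (I := I)).src = t.src.up := by
  cases t with
  | var p => rfl
  | coh B f g γ =>
    exact (MD_sub_up f _).trans (MD_up_bind f γ).symm

theorem MD_up_tgt {I : Type} {A : PC} (t : BT A) : (t.up (I := I)).tgt = t.tgt.up := by
  cases t with
  | var p => rfl
  | coh B f g γ =>
    exact (MD_sub_up g _).trans (MD_up_bind g γ).symm

theorem rhoX_eval (hF : F.IsExt) {A : PC} (t : XT Cs PC.G (Lab C) A) :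
    rhoX hF t = (MD hF (yoneda.obj (rO hF A))).eval (leg hF A) t.toTm := by
  induction t with
  | var p => rfl
  | op k γ ih =>
    show app hF (yoneda.obj (rO hF _)) (opC hF k) (fun p => rhoX hF (γ p)) =
      app hF (yoneda.obj (rO hF _)) (opC hF k) (fun p => (MD hF (yoneda.obj (rO hF _))).eval (leg hF _) (γ p).toTm)
    congr 1
    funext p
    exact ih p
  | ex b a l i γ _ ih =>
    show app hF (yoneda.obj (rO hF _)) (opE b (rhoX hF l) i) (fun p => rhoX hF (γ p)) =
      app hF (yoneda.obj (rO hF _)) (opE b (rhoX hF l) i)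
        (fun p => (MD hF (yoneda.obj (rO hF _))).eval (leg hF _) (γ p).toTm)
    congr 1
    funext p
    exact ih p

/-- naturality of the realisation of a term -/
def MDNat (hF : F.IsExt) {A : PC} (t : XT Cs PC.G (Lab C) A) : Prop :=
  ∀ (P : Cᵒᵖ ⥤ Type), Pool.Agent.HH.IsModel F P → ∀ (γ : A.P → (GG F P).C)
    (x : P.obj (op (rO hF A))), (∀ p, act F P x (leg hF A p) = γ p) →
    (MD hF P).eval γ t.toTm = act F P x (rhoX hF t)

/-- typing of the realisation of a term -/
def MDTyp (hF : F.IsExt) {A : PC} (t : XT Cs PC.G (Lab C) A) : Prop :=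
  (rhoX hF t).1 = t.dim ∧ (0 < t.dim →
      (GG F (yoneda.obj (rO hF A))).src (rhoX hF t) = rhoX hF t.src ∧
      (GG F (yoneda.obj (rO hF A))).tgt (rhoX hF t) = rhoX hF t.tgt)

/-- the inductive statement -/
structure MDGood (hF : F.IsExt) {A : PC} (t : XT Cs PC.G (Lab C) A) : Prop where
  typ : MDTyp hF t
  nat : MDNat hF t
  natS : MDNat hF t.src
  natT : MDNat hF t.tgt

theorem MD_var (hF : F.IsExt) {A : PC} (p : A.P) :
    MDNat hF (.var p : XT Cs PC.G (Lab C) A) := fun _ _ _ _ hx => (hx p).symm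

theorem MDGood_var (hF : F.IsExt) {A : PC} (p : A.P) :
    MDGood hF (.var p : XT Cs PC.G (Lab C) A) := by
  obtain ⟨_, h2, h3⟩ := (leg_spec hF A).1 p
  exact ⟨⟨h2, h3⟩, MD_var hF p, MD_var hF _, MD_var hF _⟩

/-- data for an operation applied to good terms -/
theorem MD_app (hF : F.IsExt) {A B : PC} (δ : B.P → XT Cs PC.G (Lab C) A)
    (h1 : ∀ p, MDGood hF (δ p)) (h2 : ∀ p, (δ p).dim = B.h p ∧
      (0 < B.h p → (δ p).src = δ (B.G.src p) ∧ (δ p).tgt = δ (B.G.tgt p))) :
    ∃ y : rO hF B ⟶ rO hF A, (∀ p, push F y (leg hF B p) = rhoX hF (δ p)) ∧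
      (∀ c : GC F (rO hF B),
        app hF (yoneda.obj (rO hF A)) c (fun p => rhoX hF (δ p)) = push F y c) ∧
      (∀ (P : Cᵒᵖ ⥤ Type), Pool.Agent.HH.IsModel F P → ∀ (γ : A.P → (GG F P).C)
        (x : P.obj (op (rO hF A))), (∀ p, act F P x (leg hF A p) = γ p) →
        ∀ c : GC F (rO hF B), app hF P c (fun p => (MD hF P).eval γ (δ p).toTm) =
          act F P x (push F y c)) ∧
      ∀ s : XT Cs PC.G (Lab C) B, MDNat hF s →
        rhoX hF (s.bind δ) = push F y (rhoX hF s) ∧ MDNat hF (s.bind δ) := by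
  have hmap : ∀ p, MapAt B.G (GG F (yoneda.obj (rO hF A))) (fun p => rhoX hF (δ p)) p := by
    intro p
    obtain ⟨t1, t2⟩ := (h1 p).typ
    obtain ⟨d1, d2⟩ := h2 p
    refine ⟨trivial, t1.trans d1, fun h0 => ?_⟩
    obtain ⟨e1, e2⟩ := t2 (by rw [d1]; exact h0)
    obtain ⟨f1, f2⟩ := d2 h0
    exact ⟨e1.trans (congrArg _ f1), e2.trans (congrArg _ f2)⟩
  obtain ⟨y, hy, _⟩ := rO_up hF (yoneda_isModel (F := F) (rO hF A)) _ hmap
  have hy' : ∀ p, push F y (leg hF B p) = rhoX hF (δ p) := hy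
  refine ⟨y, hy', fun c => app_spec hF (yoneda_isModel _) c _ y hy, ?_, ?_⟩
  · intro P hP γ x hx c
    rw [act_push]
    refine app_spec hF hP c _ _ fun p => ?_
    rw [← act_push, hy', (h1 p).nat P hP γ x hx]
  · intro s hs
    have e1 : (s.bind δ).toTm = Tm.bind s.toTm (fun p => (δ p).toTm) := ExSig_toTm_bind s δ
    have e2 : rhoX hF (s.bind δ) = push F y (rhoX hF s) := by
      rw [rhoX_eval, e1]
      refine (eval_bind (MD hF (yoneda.obj (rO hF A))) (leg hF A) (fun p => (δ p).toTm)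
        s.toTm).trans ?_
      have e3 : (fun p => (MD hF (yoneda.obj (rO hF A))).eval (leg hF A) (δ p).toTm) =
          fun p => rhoX hF (δ p) := funext fun p => (rhoX_eval hF (δ p)).symm
      rw [e3]
      exact hs (yoneda.obj (rO hF A)) (yoneda_isModel _) (fun p => rhoX hF (δ p)) y hy
    refine ⟨e2, fun P hP γ x hx => ?_⟩
    rw [e1, e2, act_push]
    refine (eval_bind (MD hF P) γ (fun p => (δ p).toTm) s.toTm).trans ?_
    refine hs P hP _ _ fun p => ?_
    rw [← act_push, hy', (h1 p).nat P hP γ x hx]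

/-- typing of cells of a representable under the action -/
theorem MD_act_typ {P : Cᵒᵖ ⥤ Type} {X : C} (x : P.obj (op X)) (c : GC F X) :
    (act F P x c).1 = c.1 ∧ (0 < c.1 →
      (GG F P).src (act F P x c) = act F P x ((GG F (yoneda.obj X)).src c) ∧
      (GG F P).tgt (act F P x c) = act F P x ((GG F (yoneda.obj X)).tgt c)) := by
  obtain ⟨_, h2, h3⟩ := act_mapAt (F := F) P x c
  exact ⟨h2, h3⟩

/-- the lifting of a parallel pair -/
theorem MD_liftOf (hc : F.Contractible) {X : C} {x y : GC F X}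
    (h : (GG F (yoneda.obj X)).Par x y) : (liftOf x y).1 = x.1 + 1 ∧
      (GG F (yoneda.obj X)).src (liftOf x y) = x ∧
      (GG F (yoneda.obj X)).tgt (liftOf x y) = y := by
  have H : ∃ z : GC F X, z.1 = x.1 + 1 ∧ (GG F (yoneda.obj X)).src z = x ∧
      (GG F (yoneda.obj X)).tgt z = y := by
    obtain ⟨z, _, h2, h3, h4⟩ := GG_contr hc X (x.1 + 1) x y h (Nat.lt_succ_self _)
    exact ⟨z, h2, h3, h4⟩
  have e : liftOf x y = H.choose := dif_pos H
  rw [e]
  exact H.choose_spec

/-- the cells of the extension operations -/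
theorem MD_opE (hc : F.Contractible) {X : C} (L : GC F X) (i : Lab C) :
    ((opE true L i).1 = L.1 + 1 ∧ (GG F (yoneda.obj X)).src (opE true L i) = L ∧
      (GG F (yoneda.obj X)).tgt (opE true L i) = opE false L i) ∧
    ((opE false L i).1 = L.1 ∧ (0 < L.1 →
      (GG F (yoneda.obj X)).src (opE false L i) = (GG F (yoneda.obj X)).src L ∧
      (GG F (yoneda.obj X)).tgt (opE false L i) = (GG F (yoneda.obj X)).tgt L)) := by
  have key : (opE true L i).1 = L.1 + 1 ∧ (GG F (yoneda.obj X)).src (opE true L i) = L ∧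
      (GG F (yoneda.obj X)).tgt (opE true L i) = opE false L i := by
    by_cases H : ∃ e : F.D (L.1 + 1) ⟶ X, i = ⟨_, _, e⟩ ∧ F.s L.1 ≫ e = L.2
    · have e1 : opE true L i = ⟨L.1 + 1, H.choose⟩ := by
        unfold opE
        rw [dif_pos H]
        rfl
      have e2 : opE false L i = ⟨L.1, F.t L.1 ≫ H.choose⟩ := by
        unfold opE
        rw [dif_pos H]
        rfl
      rw [e1, e2]
      refine ⟨rfl, ?_, rfl⟩
      show (⟨L.1, F.s L.1 ≫ H.choose⟩ : GC F X) = L
      rw [H.choose_spec.2]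
    · have e1 : opE true L i = liftOf L L := by
        unfold opE
        rw [dif_neg H]
        rfl
      have e2 : opE false L i = L := by
        unfold opE
        rw [dif_neg H]
        rfl
      rw [e1, e2]
      exact MD_liftOf hc ⟨trivial, trivial, rfl, fun _ => ⟨rfl, rfl⟩⟩
  refine ⟨key, ?_⟩
  obtain ⟨k1, k2, k3⟩ := key
  have h0 : 0 < (GG F (yoneda.obj X)).dim (opE true L i) := by
    show 0 < (opE true L i).1
    omega
  have h1 := Glob.Laws.dim_tgt (G := GG F (yoneda.obj X)) (opE true L i) trivial h0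
  rw [k3] at h1
  have h1' : (opE false L i).1 + 1 = (opE true L i).1 := h1
  refine ⟨by omega, fun hL => ?_⟩
  have h2 : 1 < (GG F (yoneda.obj X)).dim (opE true L i) := by
    show 1 < (opE true L i).1
    omega
  have h3 := Glob.Laws.src_tgt (G := GG F (yoneda.obj X)) (opE true L i) trivial h2
  have h4 := Glob.Laws.tgt_src (G := GG F (yoneda.obj X)) (opE true L i) trivial h2
  rw [k2, k3] at h3 h4
  exact ⟨h3, h4.symm⟩

/-- the operations of `Cs`, from the goodness of their boundary terms -/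
theorem MD_opC (hF : F.IsExt) (hc : F.Contractible) {B : PC} {f g : BT B}
    (hf : MDGood hF (f.up (I := Lab C))) (hg : MDGood hF (g.up (I := Lab C)))
    (hd : f.dim = g.dim) (hp : 0 < f.dim → f.src = g.src ∧ f.tgt = g.tgt) :
    (opC hF ⟨B, f, g⟩).1 = f.dim + 1 ∧
      (GG F (yoneda.obj (rO hF B))).src (opC hF ⟨B, f, g⟩) = rhoX hF (f.up (I := Lab C)) ∧
      (GG F (yoneda.obj (rO hF B))).tgt (opC hF ⟨B, f, g⟩) = rhoX hF (g.up (I := Lab C)) := by
  obtain ⟨f1, f2⟩ := hf.typ
  obtain ⟨g1, g2⟩ := hg.typ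
  rw [MD_up_dim] at f1 f2 g1 g2
  have hpar : (GG F (yoneda.obj (rO hF B))).Par (rhoX hF (f.up (I := Lab C)))
      (rhoX hF (g.up (I := Lab C))) := by
    refine ⟨trivial, trivial, ?_, fun h0 => ?_⟩
    · show (rhoX hF (f.up (I := Lab C))).1 = (rhoX hF (g.up (I := Lab C))).1
      rw [f1, g1, hd]
    · have h0' : 0 < (rhoX hF (f.up (I := Lab C))).1 := h0
      rw [f1] at h0'
      obtain ⟨p1, p2⟩ := hp h0'
      obtain ⟨a1, a2⟩ := f2 h0'
      obtain ⟨b1, b2⟩ := g2 (by rw [← hd]; exact h0')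
      rw [MD_up_src] at a1 b1
      rw [MD_up_tgt] at a2 b2
      rw [a1, a2, b1, b2, p1, p2]
      exact ⟨rfl, rfl⟩
  have e1 : opC hF ⟨B, f, g⟩ = liftOf (rhoX hF (f.up (I := Lab C)))
      (rhoX hF (g.up (I := Lab C))) := by
    rw [rhoX_up, rhoX_up]
    rfl
  rw [e1]
  obtain ⟨h1, h2, h3⟩ := MD_liftOf hc hpar
  exact ⟨h1.trans (by rw [f1]), h2, h3⟩

/-- terms with head an operation of `Cs` -/
theorem MDGood_op (hF : F.IsExt) (hc : F.Contractible) {A B : PC} {f g : BT B}
    (hf : MDGood hF (f.up (I := Lab C))) (hg : MDGood hF (g.up (I := Lab C)))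
    (hd : f.dim = g.dim) (hp : 0 < f.dim → f.src = g.src ∧ f.tgt = g.tgt)
    (δ : B.P → XT Cs PC.G (Lab C) A) (h1 : ∀ p, MDGood hF (δ p))
    (h2 : ∀ p, (δ p).dim = B.h p ∧
      (0 < B.h p → (δ p).src = δ (B.G.src p) ∧ (δ p).tgt = δ (B.G.tgt p))) :
    MDGood hF (.op (S := Cs) ⟨B, f, g⟩ δ : XT Cs PC.G (Lab C) A) := by
  obtain ⟨y, _, y2, y3, y4⟩ := MD_app hF δ h1 h2
  obtain ⟨c1, c2, c3⟩ := MD_opC hF hc hf hg hd hp
  have es : (.op (S := Cs) ⟨B, f, g⟩ δ : XT Cs PC.G (Lab C) A).src =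
      (f.up (I := Lab C)).bind δ := MD_sub_up f δ
  have et : (.op (S := Cs) ⟨B, f, g⟩ δ : XT Cs PC.G (Lab C) A).tgt =
      (g.up (I := Lab C)).bind δ := MD_sub_up g δ
  have er : rhoX hF (.op (S := Cs) ⟨B, f, g⟩ δ : XT Cs PC.G (Lab C) A) =
      push F y (opC hF ⟨B, f, g⟩) := y2 _
  refine ⟨⟨?_, fun _ => ?_⟩, ?_, ?_, ?_⟩
  · rw [er]
    exact c1
  · obtain ⟨_, a2⟩ := MD_act_typ (F := F) (P := yoneda.obj (rO hF A)) (X := rO hF B) y
      (opC hF ⟨B, f, g⟩)
    obtain ⟨a3, a4⟩ := a2 (by omega)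
    rw [er, es, et, (y4 _ hf.nat).1, (y4 _ hg.nat).1, ← c2, ← c3]
    exact ⟨a3, a4⟩
  · intro P hP γ x hx
    rw [er]
    exact y3 P hP γ x hx _
  · rw [es]
    exact (y4 _ hf.nat).2
  · rw [et]
    exact (y4 _ hg.nat).2

/-- terms of `Cs` are good -/
theorem MDGood_up (hF : F.IsExt) (hc : F.Contractible) {A : PC} (t : BT A) (ht : t.ok) :
    MDGood hF (t.up (I := Lab C)) := by
  induction t with
  | var p => exact MDGood_var hF p
  | coh B f g γ ihf ihg ih =>
    obtain ⟨⟨h1, h2, h3, h4, _⟩, h6⟩ := ht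
    refine MDGood_op hF hc (ihf h1) (ihg h2) h3 h4 (fun p => (γ p).up) (fun p => ih p (h6 p).1)
      fun p => ?_
    obtain ⟨_, a2, a3⟩ := h6 p
    refine ⟨(MD_up_dim _).trans a2, fun h0 => ?_⟩
    obtain ⟨b1, b2⟩ := a3 h0
    exact ⟨(MD_up_src _).trans (by rw [b1]), (MD_up_tgt _).trans (by rw [b2])⟩

/-- terms with head an extension operation -/
theorem MDGood_ex (hF : F.IsExt) (hc : F.Contractible) {A B : PC} (b : Bool)
    {l : XT Cs PC.G (Lab C) B} (hl : MDGood hF l) (h0 : 0 < l.dim) (i : Lab C)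
    (δ : B.P → XT Cs PC.G (Lab C) A) (h1 : ∀ p, MDGood hF (δ p))
    (h2 : ∀ p, (δ p).dim = B.h p ∧
      (0 < B.h p → (δ p).src = δ (B.G.src p) ∧ (δ p).tgt = δ (B.G.tgt p))) :
    MDGood hF (.ex b B l i δ : XT Cs PC.G (Lab C) A) := by
  obtain ⟨y, _, y2, y3, y4⟩ := MD_app hF δ h1 h2
  obtain ⟨⟨c1, c2, c3⟩, c4, c5⟩ := MD_opE hc (rhoX hF l) i
  obtain ⟨l1, l2⟩ := hl.typ
  obtain ⟨l3, l4⟩ := l2 h0
  have er : ∀ b, rhoX hF (.ex b B l i δ : XT Cs PC.G (Lab C) A) =
      push F y (opE b (rhoX hF l) i) := fun b => y2 _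
  have en : ∀ b, MDNat hF (.ex b B l i δ : XT Cs PC.G (Lab C) A) := by
    intro b P hP γ x hx
    rw [er]
    exact y3 P hP γ x hx _
  cases b with
  | true =>
    have es : (.ex true B l i δ : XT Cs PC.G (Lab C) A).src = l.bind δ := rfl
    have et : (.ex true B l i δ : XT Cs PC.G (Lab C) A).tgt = .ex false B l i δ := rfl
    refine ⟨⟨?_, fun _ => ?_⟩, en true, ?_, ?_⟩
    · rw [er]
      show (opE true (rhoX hF l) i).1 = l.dim + 1
      rw [c1, l1]
    · obtain ⟨_, a2⟩ := MD_act_typ (F := F) (P := yoneda.obj (rO hF A)) (X := rO hF B) y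
        (opE true (rhoX hF l) i)
      obtain ⟨a3, a4⟩ := a2 (by omega)
      rw [c2] at a3
      rw [c3] at a4
      rw [es, et, er true, er false, (y4 _ hl.nat).1]
      exact ⟨a3, a4⟩
    · rw [es]
      exact (y4 _ hl.nat).2
    · rw [et]
      exact en false
  | false =>
    have es : (.ex false B l i δ : XT Cs PC.G (Lab C) A).src = l.src.bind δ := rfl
    have et : (.ex false B l i δ : XT Cs PC.G (Lab C) A).tgt = l.tgt.bind δ := rfl
    refine ⟨⟨?_, fun _ => ?_⟩, en false, ?_, ?_⟩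
    · rw [er]
      show (opE false (rhoX hF l) i).1 = l.dim
      rw [c4, l1]
    · obtain ⟨_, a2⟩ := MD_act_typ (F := F) (P := yoneda.obj (rO hF A)) (X := rO hF B) y
        (opE false (rhoX hF l) i)
      obtain ⟨a3, a4⟩ := a2 (by omega)
      obtain ⟨c6, c7⟩ := c5 (by omega)
      rw [c6, l3] at a3
      rw [c7, l4] at a4
      rw [es, et, er false, (y4 _ hl.natS).1, (y4 _ hl.natT).1]
      exact ⟨a3, a4⟩
    · rw [es]
      exact (y4 _ hl.natS).2
    · rw [et]
      exact (y4 _ hl.natT).2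

/-- all well-formed extended terms are good -/
theorem MDGood_all (hF : F.IsExt) (hc : F.Contractible) {A : PC} (t : XT Cs PC.G (Lab C) A)
    (ht : t.ok) : MDGood hF t := by
  induction t with
  | var p => exact MDGood_var hF p
  | op k δ ih =>
    obtain ⟨⟨k1, k2, k3, k4, _⟩, h6⟩ := ht
    exact MDGood_op hF hc (MDGood_up hF hc _ k1) (MDGood_up hF hc _ k2) k3 k4 δ
      (fun p => ih p (h6 p).1) (fun p => (h6 p).2)
  | ex b a l i δ ihl ih =>
    obtain ⟨⟨h1, h2⟩, h6⟩ := ht
    exact MDGood_ex hF hc b (ihl h1) h2 i δ (fun p => ih p (h6 p).1) (fun p => (h6 p).2)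

theorem rhoX_typed (hF : F.IsExt) (hc : F.Contractible) {A : PC} (t : XT Cs PC.G (Lab C) A)
    (ht : t.ok) : (rhoX hF t).1 = t.dim ∧ (0 < t.dim →
      (GG F (yoneda.obj (rO hF A))).src (rhoX hF t) = rhoX hF t.src ∧
      (GG F (yoneda.obj (rO hF A))).tgt (rhoX hF t) = rhoX hF t.tgt) :=
  (MDGood_all hF hc t ht).typ

theorem rhoX_nat (hF : F.IsExt) (hc : F.Contractible) {P : Cᵒᵖ ⥤ Type}
    (hP : Pool.Agent.HH.IsModel F P) {A : PC} (t : XT Cs PC.G (Lab C) A) (ht : t.ok)
    (γ : A.P → (GG F P).C) (x : P.obj (op (rO hF A)))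
    (hx : ∀ p, act F P x (leg hF A p) = γ p) :
    (MD hF P).eval γ t.toTm = act F P x (rhoX hF t) :=
  (MDGood_all hF hc t ht).nat P hP γ x hx

/-- values of an operation at typed arguments -/
theorem MD_value (hF : F.IsExt) {P : Cᵒᵖ ⥤ Type} (hP : Pool.Agent.HH.IsModel F P) {B : PC}
    {n : ℕ} {c : GC F (rO hF B)} {s t : XT Cs PC.G (Lab C) B} (h1 : c.1 = n) (h0 : 0 < n)
    (hs : MDNat hF s) (ht : MDNat hF t)
    (h2 : (GG F (yoneda.obj (rO hF B))).src c = rhoX hF s)
    (h3 : (GG F (yoneda.obj (rO hF B))).tgt c = rhoX hF t) {γ : B.P → (GG F P).C}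
    (hγ : ∀ p, MapAt B.G (GG F P) γ p) :
    (app hF P c γ).1 = n ∧ (GG F P).src (app hF P c γ) = (MD hF P).eval γ s.toTm ∧
      (GG F P).tgt (app hF P c γ) = (MD hF P).eval γ t.toTm := by
  obtain ⟨x, hx, _⟩ := rO_up hF hP γ hγ
  rw [app_spec hF hP c γ x hx, hs P hP γ x hx, ht P hP γ x hx, ← h2, ← h3]
  obtain ⟨a1, a2⟩ := MD_act_typ (F := F) (P := P) x c
  obtain ⟨a3, a4⟩ := a2 (by omega)
  exact ⟨a1.trans h1, a3, a4⟩

theorem MD_opLaws (hF : F.IsExt) (hc : F.Contractible) {P : Cᵒᵖ ⥤ Type}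
    (hP : Pool.Agent.HH.IsModel F P) : (MD hF P).OpLaws := by
  have key : ∀ (k : (EE C).K) (γ : ((EE C).ar k).C → (MD hF P).C), (EE C).kok k →
      (∀ p, MapAt ((EE C).ar k) (MD hF P).toGlob γ p) →
      ((MD hF P).o k γ).1 = (EE C).dm k ∧
      (MD hF P).src ((MD hF P).o k γ) = (MD hF P).eval γ ((EE C).bs k) ∧
      (MD hF P).tgt ((MD hF P).o k γ) = (MD hF P).eval γ ((EE C).bt k) := by
    rintro (⟨B, f, g⟩ | ⟨B, l, i, b⟩) γ hk hγ
    · obtain ⟨k1, k2, k3, k4, _⟩ := hk
      have hf := MDGood_up hF hc f k1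
      have hg := MDGood_up hF hc g k2
      obtain ⟨c1, c2, c3⟩ := MD_opC hF hc hf hg k3 k4
      obtain ⟨a1, a2, a3⟩ := MD_value hF hP c1 (Nat.succ_pos _) hf.nat hg.nat c2 c3 hγ
      rw [up_toTm] at a2 a3
      exact ⟨a1, a2, a3⟩
    · obtain ⟨k1, k2⟩ := hk
      have k3 : 0 < l.dim := k2
      have hl := MDGood_all hF hc l k1
      obtain ⟨⟨c1, c2, c3⟩, c4, c5⟩ := MD_opE hc (rhoX hF l) i
      obtain ⟨l1, l2⟩ := hl.typ
      obtain ⟨l3, l4⟩ := l2 k2
      cases b with
      | true =>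
        have hv : MDGood hF (.ex false B l i .var : XT Cs PC.G (Lab C) B) :=
          MDGood_ex hF hc false hl k2 i (fun p => XT.var p) (fun p => MDGood_var hF p)
            (fun p => ⟨rfl, fun _ => ⟨rfl, rfl⟩⟩)
        have ev : rhoX hF (.ex false B l i .var : XT Cs PC.G (Lab C) B) =
            opE false (rhoX hF l) i := by
          have e1 : rhoX hF (.ex false B l i .var : XT Cs PC.G (Lab C) B) =
            app hF (yoneda.obj (rO hF B)) (opE false (rhoX hF l) i) (leg hF B) := rfl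
          rw [e1]
          refine (app_spec hF (yoneda_isModel _) _ _ (𝟙 (rO hF B)) fun p => ?_).trans ?_
          · exact push_id _
          · exact push_id _
        obtain ⟨a1, a2, a3⟩ := MD_value hF hP (s := l) (t := .ex false B l i .var) c1
          (Nat.succ_pos _) hl.nat hv.nat c2 (c3.trans ev.symm) hγ
        refine ⟨a1.trans ?_, a2, a3⟩
        show _ = l.dim + 1
        rw [l1]
      | false =>
        obtain ⟨c6, c7⟩ := c5 (by omega)
        obtain ⟨a1, a2, a3⟩ := MD_value hF hP c4 (by omega) hl.natS hl.natT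
          (c6.trans l3) (c7.trans l4) hγ
        exact ⟨a1.trans l1, a2, a3⟩
  exact ⟨fun _ _ _ _ => trivial, fun k γ hk hγ => (key k γ hk hγ).1,
    fun k γ hk hγ => (key k γ hk hγ).2.1, fun k γ hk hγ => (key k γ hk hγ).2.2⟩

/-- the extension operations realise the labels: if the label is a cell `e` from `rhoX l`, then
`ex false` is realised by the target of `e` -/
theorem rhoX_ex (hF : F.IsExt) {A : PC} (l : XT Cs PC.G (Lab C) A)
    (e : F.D ((rhoX hF l).1 + 1) ⟶ rO hF A) (he : F.s _ ≫ e = (rhoX hF l).2) :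
    rhoX hF (XT.ex false A l ⟨_, _, e⟩ .var) = ⟨(rhoX hF l).1, F.t _ ≫ e⟩ := by
  have e1 : rhoX hF (XT.ex false A l ⟨_, _, e⟩ .var) =
      app hF (yoneda.obj (rO hF A)) (opE false (rhoX hF l) ⟨_, _, e⟩) (leg hF A) := rfl
  have e2 : app hF (yoneda.obj (rO hF A)) (opE false (rhoX hF l) ⟨_, _, e⟩) (leg hF A) =
      opE false (rhoX hF l) ⟨_, _, e⟩ := by
    refine (app_spec hF (yoneda_isModel _) _ _ (𝟙 (rO hF A)) fun p => ?_).trans ?_
    · exact push_id _
    · exact push_id _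
  have H : ∃ e' : F.D ((rhoX hF l).1 + 1) ⟶ rO hF A,
      (⟨_, _, e⟩ : Lab C) = ⟨_, _, e'⟩ ∧ F.s (rhoX hF l).1 ≫ e' = (rhoX hF l).2 :=
    ⟨e, rfl, he⟩
  have e3 : opE false (rhoX hF l) ⟨_, _, e⟩ = ⟨(rhoX hF l).1, F.t (rhoX hF l).1 ≫ H.choose⟩ := by
    unfold opE
    rw [dif_pos H]
    rfl
  have e4 : H.choose = e := by
    have h1 := H.choose_spec.1
    have h2 := (Sigma.mk.inj_iff.1 h1).2
    have h3 := (Sigma.mk.inj_iff.1 (eq_of_heq h2)).2
    exact (eq_of_heq h3).symm
  rw [e1, e2, e3, e4]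

end HH
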