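import Mathlib

/-!
# HH part 3: the order complex of a poset

`OrdCx P`: finitely supported weights on `P`, nonnegative, with sum `1`, whose support is a chain.
Topology: coinduced from the simplices (the weak topology).
-/

set_option autoImplicit false

namespace HH

open Classical Topology

/-- Points of the order complex of the poset `P`. -/
structure OrdCx (P : Type) [PartialOrder P] where
  w : P →₀ ℝ
  nonneg : ∀ p, 0 ≤ w p
  chain : ∀ p q, w p ≠ 0 → w q ≠ 0 → p ≤ q ∨ q ≤ p
  sum : w.sum (fun _ a => a) = 1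

namespace OrdCx

variable {P Q : Type} [PartialOrder P] [PartialOrder Q]

@[ext]
theorem ext {s t : OrdCx P} (h : ∀ p, s.w p = t.w p) : s = t := by
  cases s
  cases t
  congr
  exact Finsupp.ext h

theorem sum_eq (t : OrdCx P) {F : Finset P} (hF : ∀ p, t.w p ≠ 0 → p ∈ F) :
    ∑ p ∈ F, t.w p = 1 := by
  rw [← t.sum, Finsupp.sum]
  symm
  refine Finset.sum_subset (fun p hp => hF p (Finsupp.mem_support_iff.1 hp)) fun p _ hp => ?_
  exact Finsupp.notMem_support_iff.1 hp

/-- a point from weights on a finite set -/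
noncomputable def mk' (F : Finset P) (c : P → ℝ) (h0 : ∀ p ∈ F, 0 ≤ c p)
    (hc : ∀ p ∈ F, ∀ q ∈ F, c p ≠ 0 → c q ≠ 0 → p ≤ q ∨ q ≤ p) (h1 : ∑ p ∈ F, c p = 1) :
    OrdCx P where
  w := Finsupp.onFinset F (fun p => if p ∈ F then c p else 0) (fun p hp => by
    by_contra h
    simp [h] at hp)
  nonneg := fun p => by
    simp only [Finsupp.onFinset_apply]
    split
    · exact h0 p ‹_›
    · exact le_refl _
  chain := fun p q hp hq => by
    simp only [Finsupp.onFinset_apply] at hp hq
    have h2 : p ∈ F := by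
      by_contra h
      simp [h] at hp
    have h3 : q ∈ F := by
      by_contra h
      simp [h] at hq
    rw [if_pos h2] at hp
    rw [if_pos h3] at hq
    exact hc p h2 q h3 hp hq
  sum := by
    rw [Finsupp.onFinset_sum _ (fun _ => rfl)]
    rw [← h1]
    exact Finset.sum_congr rfl fun p hp => if_pos hp

theorem mk'_w {F : Finset P} {c : P → ℝ} {h0 hc h1} {p : P} (hp : p ∈ F) :
    (mk' F c h0 hc h1).w p = c p := if_pos hp

theorem mk'_w' {F : Finset P} {c : P → ℝ} {h0 hc h1} {p : P} (hp : p ∉ F) :
    (mk' F c h0 hc h1).w p = 0 := if_neg hp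

/-- The simplex on a finite set `F` (of pairwise comparable elements). -/
def Simplex (F : Finset P) : Type :=
  {c : P → ℝ // (∀ p, 0 ≤ c p) ∧ (∀ p, p ∉ F → c p = 0) ∧ ∑ p ∈ F, c p = 1}

instance (F : Finset P) : TopologicalSpace (Simplex F) :=
  instTopologicalSpaceSubtype

/-- The simplex as a part of the order complex. -/
noncomputable def ofSimplex (F : Finset P) (hF : ∀ p ∈ F, ∀ q ∈ F, p ≤ q ∨ q ≤ p)
    (t : Simplex F) : OrdCx P :=
  mk' F t.1 (fun p _ => t.2.1 p) (fun p hp q hq _ _ => hF p hp q hq) t.2.2.2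

theorem ofSimplex_w {F : Finset P} {hF : ∀ p ∈ F, ∀ q ∈ F, p ≤ q ∨ q ≤ p} (t : Simplex F) (p : P) :
    (ofSimplex F hF t).w p = t.1 p := by
  by_cases hp : p ∈ F
  · exact mk'_w hp
  · exact (mk'_w' hp).trans (t.2.2.1 p hp).symm

/-- The weak topology. -/
noncomputable instance : TopologicalSpace (OrdCx P) :=
  ⨆ (F : Finset P) (hF : ∀ p ∈ F, ∀ q ∈ F, p ≤ q ∨ q ≤ p),
    TopologicalSpace.coinduced (ofSimplex F hF) inferInstance

theorem continuous_ofSimplex (F : Finset P) (hF : ∀ p ∈ F, ∀ q ∈ F, p ≤ q ∨ q ≤ p) :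
    Continuous (ofSimplex F hF) :=
  continuous_iSup_rng (i := F) (continuous_iSup_rng (i := hF) continuous_coinduced_rng)

/-- maps out of the order complex -/
theorem continuous_iff {Y : Type*} [TopologicalSpace Y] {f : OrdCx P → Y} :
    Continuous f ↔ ∀ (F : Finset P) (hF : ∀ p ∈ F, ∀ q ∈ F, p ≤ q ∨ q ≤ p),
      Continuous (fun t : Simplex F => f (ofSimplex F hF t)) := by
  constructor
  · intro h F hF
    exact h.comp (continuous_ofSimplex F hF)
  · intro h
    exact continuous_iSup_dom.2 fun F => continuous_iSup_dom.2 fun hF =>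
      continuous_coinduced_dom.2 (h F hF)

theorem isClosed_iff {A : Set (OrdCx P)} :
    IsClosed A ↔ ∀ (F : Finset P) (hF : ∀ p ∈ F, ∀ q ∈ F, p ≤ q ∨ q ≤ p),
      IsClosed (ofSimplex F hF ⁻¹' A) := by
  constructor
  · intro h F hF
    exact h.preimage (continuous_ofSimplex F hF)
  · intro h
    rw [← isOpen_compl_iff]
    refine isOpen_iSup_iff.2 fun F => isOpen_iSup_iff.2 fun hF => ?_
    rw [isOpen_coinduced, Set.preimage_compl, isOpen_compl_iff]
    exact h F hF

/-- coordinates are continuous -/
theorem continuous_w (p : P) : Continuous (fun t : OrdCx P => t.w p) := by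
  refine continuous_iff.2 fun F hF => ?_
  have h : (fun t : Simplex F => (ofSimplex F hF t).w p) = fun t : Simplex F => t.1 p :=
    funext fun t => ofSimplex_w t p
  rw [h]
  exact (continuous_apply p).comp continuous_subtype_val

/-- open stars -/
theorem isOpen_star (p : P) : IsOpen {t : OrdCx P | 0 < t.w p} :=
  isOpen_lt continuous_const (continuous_w p)

instance : T2Space (OrdCx P) := by
  refine ⟨fun s t hst => ?_⟩
  have h : ∃ p, s.w p ≠ t.w p := by
    by_contra h
    push Not at h
    exact hst (ext h)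
  obtain ⟨p, hp⟩ := h
  obtain ⟨u, v, hu, hv, h1, h2, h3⟩ := t2_separation hp
  exact ⟨_, _, hu.preimage (continuous_w p), hv.preimage (continuous_w p), h1, h2,
    h3.preimage _⟩

/-- **Continuity criterion**: a map with carriers in a finite set is continuous as soon as its
coordinates are. -/
theorem continuous_of {X : Type*} [TopologicalSpace X] {g : X → OrdCx P} (F : Finset P)
    (hF : ∀ x p, (g x).w p ≠ 0 → p ∈ F) (hg : ∀ p ∈ F, Continuous fun x => (g x).w p) :
    Continuous g := by
  let A : {c : Finset P // c ⊆ F ∧ ∀ p ∈ c, ∀ q ∈ c, p ≤ q ∨ q ≤ p} → Set X :=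
    fun c => {x | ∀ p ∈ F, p ∉ c.1 → (g x).w p = 0}
  have hfin : Finite {c : Finset P // c ⊆ F ∧ ∀ p ∈ c, ∀ q ∈ c, p ≤ q ∨ q ≤ p} :=
    Set.Finite.subset (F.powerset.finite_toSet) fun c hc => Finset.mem_coe.2
      (Finset.mem_powerset.2 hc.1)
  refine (locallyFinite_of_finite A).continuous ?_ ?_ ?_
  · refine Set.eq_univ_of_forall fun x => Set.mem_iUnion.2
      ⟨⟨(g x).w.support, fun p hp => hF x p (Finsupp.mem_support_iff.1 hp), fun p hp q hq =>
        (g x).chain p q (Finsupp.mem_support_iff.1 hp) (Finsupp.mem_support_iff.1 hq)⟩, ?_⟩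
    intro p _ hp
    exact Finsupp.notMem_support_iff.1 hp
  · intro c
    have : A c = ⋂ p ∈ F, {x | p ∉ c.1 → (g x).w p = 0} := by
      ext x
      simp [A]
    rw [this]
    refine isClosed_biInter fun p hp => ?_
    by_cases h : p ∈ c.1
    · simp [h]
    · simp only [h, not_false_eq_true, forall_true_left]
      exact isClosed_eq (hg p hp) continuous_const
  · intro c
    rw [continuousOn_iff_continuous_domRestrict]
    have h1 : ∀ (x : A c) (p : P), p ∉ c.1 → (g x.1).w p = 0 := by
      intro x p hp
      by_cases h2 : p ∈ F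
      · exact x.2 p h2 hp
      · by_contra h3
        exact h2 (hF x.1 p h3)
    have h2 : (A c).domRestrict g = fun x => ofSimplex c.1 c.2.2 ⟨fun p => (g x.1).w p,
        fun p => (g x.1).nonneg p, h1 x, (g x.1).sum_eq fun p hp => by
          by_contra h3
          exact hp (h1 x p h3)⟩ := by
      funext x
      refine ext fun p => ?_
      rw [ofSimplex_w]
      rfl
    rw [h2]
    refine (continuous_ofSimplex c.1 c.2.2).comp (Continuous.subtype_mk ?_ _)
    refine continuous_pi fun p => ?_
    by_cases h3 : p ∈ F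
    · exact (hg p h3).comp continuous_subtype_val
    · have : (fun x : A c => (g x.1).w p) = fun _ => 0 := by
        funext x
        by_contra h4
        exact h3 (hF x.1 p h4)
      rw [this]
      exact continuous_const

theorem continuousOn_of {X : Type*} [TopologicalSpace X] {g : X → OrdCx P} {A : Set X}
    (F : Finset P) (hF : ∀ x ∈ A, ∀ p, (g x).w p ≠ 0 → p ∈ F)
    (hg : ∀ p ∈ F, ContinuousOn (fun x => (g x).w p) A) : ContinuousOn g A := by
  rw [continuousOn_iff_continuous_domRestrict]
  refine continuous_of F (fun x p hp => hF x.1 x.2 p hp) fun p hp => ?_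
  exact continuousOn_iff_continuous_domRestrict.1 (hg p hp)

/-- **Compact sets meet finitely many vertices.** -/
theorem finite_of_compact {K : Set (OrdCx P)} (hK : IsCompact K) :
    ∃ F : Finset P, ∀ t ∈ K, ∀ p, t.w p ≠ 0 → p ∈ F := by
  -- one point for every support
  let supp : OrdCx P → Finset P := fun t => t.w.support
  have hch : ∀ s : supp '' K, ∃ t ∈ K, supp t = s.1 := fun s => s.2
  choose c hc1 hc2 using hch
  have hinj : Function.Injective c := fun s s' h => Subtype.ext (by rw [← hc2 s, h, hc2 s'])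
  -- all sets of such points are closed
  have hcl : ∀ T : Set (OrdCx P), T ⊆ Set.range c → IsClosed T := by
    intro T hT
    refine isClosed_iff.2 fun F hF => ?_
    have hfin : (ofSimplex F hF ⁻¹' T).Finite := by
      have h1 : ((fun s : Finset P => s) '' {s | s ⊆ F}).Finite := by
        rw [Set.image_id']
        exact Set.Finite.subset F.powerset.finite_toSet fun s hs =>
          Finset.mem_coe.2 (Finset.mem_powerset.2 hs)
      refine Set.Finite.of_finite_image (f := fun t => supp (ofSimplex F hF t)) ?_ ?_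
      · refine Set.Finite.subset (F.powerset.finite_toSet) ?_
        rintro s ⟨t, _, rfl⟩
        refine Finset.mem_coe.2 (Finset.mem_powerset.2 fun p hp => ?_)
        by_contra h3
        have h4 := ofSimplex_w (hF := hF) t p
        rw [t.2.2.1 p h3] at h4
        exact Finsupp.mem_support_iff.1 hp h4
      · intro t ht t' ht' h
        obtain ⟨s, hs⟩ := hT ht
        obtain ⟨s', hs'⟩ := hT ht'
        have h3 : s = s' := by
          apply Subtype.ext
          rw [← hc2 s, ← hc2 s', hs, hs']
          exact h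
        have h4 : ofSimplex F hF t = ofSimplex F hF t' := by rw [← hs, ← hs', h3]
        refine Subtype.ext (funext fun p => ?_)
        rw [← ofSimplex_w (hF := hF) t p, ← ofSimplex_w (hF := hF) t' p, h4]
    have : T1Space (Simplex F) := inferInstanceAs (T1Space {c : P → ℝ // _})
    exact hfin.isClosed
  have hT : IsCompact (Set.range c) :=
    hK.of_isClosed_subset (hcl _ (le_refl _)) (Set.range_subset_iff.2 hc1)
  have hdisc : DiscreteTopology (Set.range c) := by
    refine discreteTopology_iff_forall_isClosed.2 fun A => ?_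
    rw [isClosed_induced_iff]
    refine ⟨Subtype.val '' A, hcl _ ?_, Set.preimage_image_eq _ Subtype.val_injective⟩
    rintro t ⟨⟨t, ht⟩, _, rfl⟩
    exact ht
  have hfin : (Set.range c).Finite := hT.finite ⟨hdisc⟩
  have hfin2 : Finite (supp '' K) := by
    have : Finite (Set.range c) := hfin
    exact Finite.of_injective (fun s : supp '' K => (⟨c s, s, rfl⟩ : Set.range c)) fun s s' h =>
      hinj (congrArg Subtype.val h)
  have hfin3 : (supp '' K).Finite := hfin2
  refine ⟨hfin3.toFinset.biUnion id, fun t ht p hp => ?_⟩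
  rw [Finset.mem_biUnion]
  exact ⟨supp t, by rw [Set.Finite.mem_toFinset]; exact ⟨t, ht, rfl⟩,
    Finsupp.mem_support_iff.2 hp⟩

/-- The image of a point under a monotone map. -/
noncomputable def map (f : P → Q) (hf : Monotone f) (t : OrdCx P) : OrdCx Q where
  w := t.w.mapDomain f
  nonneg := fun q => by
    rw [Finsupp.mapDomain, Finsupp.sum, Finsupp.finsetSum_apply]
    refine Finset.sum_nonneg fun p _ => ?_
    rw [Finsupp.single_apply]
    split
    · exact t.nonneg p
    · exact le_refl _
  chain := fun q q' hq hq' => by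
    have key : ∀ q, (t.w.mapDomain f) q ≠ 0 → ∃ p, f p = q ∧ t.w p ≠ 0 := by
      intro q hq
      have h1 := Finsupp.mapDomain_support (Finsupp.mem_support_iff.2 hq)
      obtain ⟨p, hp, rfl⟩ := Finset.mem_image.1 h1
      exact ⟨p, rfl, Finsupp.mem_support_iff.1 hp⟩
    obtain ⟨p, rfl, hp⟩ := key q hq
    obtain ⟨p', rfl, hp'⟩ := key q' hq'
    rcases t.chain p p' hp hp' with h | h
    · exact Or.inl (hf h)
    · exact Or.inr (hf h)
  sum := by
    rw [Finsupp.sum_mapDomain_index (fun _ => rfl) (fun _ _ _ => rfl)]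
    exact t.sum

theorem map_w (f : P → Q) (hf : Monotone f) (t : OrdCx P) {F : Finset P}
    (hF : ∀ p, t.w p ≠ 0 → p ∈ F) (q : Q) :
    (map f hf t).w q = ∑ p ∈ F, if f p = q then t.w p else 0 := by
  show (t.w.mapDomain f) q = _
  rw [Finsupp.mapDomain, Finsupp.sum, Finsupp.finsetSum_apply]
  simp only [Finsupp.single_apply]
  refine Finset.sum_subset (fun p hp => hF p (Finsupp.mem_support_iff.1 hp)) fun p _ hp => ?_
  rw [Finsupp.notMem_support_iff.1 hp]
  simp

theorem map_w_ne {f : P → Q} {hf : Monotone f} {t : OrdCx P} {q : Q} :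
    (map f hf t).w q ≠ 0 ↔ ∃ p, f p = q ∧ t.w p ≠ 0 := by
  constructor
  · intro hq
    have h1 := Finsupp.mapDomain_support (Finsupp.mem_support_iff.2 hq)
    obtain ⟨p, hp, rfl⟩ := Finset.mem_image.1 h1
    exact ⟨p, rfl, Finsupp.mem_support_iff.1 hp⟩
  · rintro ⟨p, rfl, hp⟩
    have h1 := map_w f hf t (F := t.w.support) (fun p hp => Finsupp.mem_support_iff.2 hp) (f p)
    have h2 : 0 < (map f hf t).w (f p) := by
      rw [h1]
      refine Finset.sum_pos' (fun p' _ => ?_) ⟨p, Finsupp.mem_support_iff.2 hp, ?_⟩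
      · split
        · exact t.nonneg p'
        · exact le_refl _
      · rw [if_pos rfl]
        exact lt_of_le_of_ne (t.nonneg p) (Ne.symm hp)
    exact ne_of_gt h2

theorem continuous_map (f : P → Q) (hf : Monotone f) : Continuous (map f hf) := by
  refine continuous_iff.2 fun F hF => ?_
  have hs : ∀ (t : Simplex F) (p : P), (ofSimplex F hF t).w p ≠ 0 → p ∈ F := by
    intro t p hp
    by_contra h
    rw [ofSimplex_w, t.2.2.1 p h] at hp
    exact hp rfl
  refine continuous_of (F.image f) (fun t q hq => ?_) fun q _ => ?_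
  · obtain ⟨p, rfl, hp⟩ := map_w_ne.1 hq
    exact Finset.mem_image_of_mem f (hs t p hp)
  · have h : (fun t : Simplex F => (map f hf (ofSimplex F hF t)).w q) =
        fun t => ∑ p ∈ F, if f p = q then t.1 p else 0 := by
      funext t
      rw [map_w f hf _ (hs t) q]
      simp only [ofSimplex_w]
    rw [h]
    refine continuous_finsetSum _ fun p _ => ?_
    split
    · exact (continuous_apply p).comp continuous_subtype_val
    · exact continuous_const

end OrdCx

end HH
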