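import Pool.Agent.HH.OrdTop

/-!
# HH part 3, CW-3: closed simplices are disks
-/

set_option autoImplicit false

namespace HH

open Classical Topology

/-- the standard corner simplex -/
def cornerS (n : ℕ) : Set (EuclideanSpace ℝ (Fin n)) := {x | (∀ i, 0 ≤ x i) ∧ ∑ i, x i ≤ 1}

theorem convex_cornerS (n : ℕ) : Convex ℝ (cornerS n) := by
  rintro x ⟨hx1, hx2⟩ y ⟨hy1, hy2⟩ a b ha hb hab
  refine ⟨fun i => ?_, ?_⟩
  · have h1 := hx1 i
    have h2 := hy1 i
    have : (a • x + b • y) i = a * x i + b * y i := by simp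
    rw [this]
    positivity
  · have : ∑ i, (a • x + b • y) i = a * ∑ i, x i + b * ∑ i, y i := by
      rw [Finset.mul_sum, Finset.mul_sum, ← Finset.sum_add_distrib]
      exact Finset.sum_congr rfl fun i _ => by simp
    rw [this]
    nlinarith

theorem continuous_coordE {n : ℕ} (i : Fin n) :
    Continuous fun x : EuclideanSpace ℝ (Fin n) => x i :=
  (EuclideanSpace.proj (𝕜 := ℝ) i).continuous

theorem continuous_sumE {n : ℕ} :
    Continuous fun x : EuclideanSpace ℝ (Fin n) => ∑ i, x i :=
  continuous_finsetSum _ fun i _ => continuous_coordE i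

theorem isClosed_cornerS (n : ℕ) : IsClosed (cornerS n) := by
  have h1 : cornerS n = (⋂ i, {x : EuclideanSpace ℝ (Fin n) | 0 ≤ x i}) ∩ {x | ∑ i, x i ≤ 1} := by
    ext x
    simp [cornerS]
  rw [h1]
  exact (isClosed_iInter fun i => isClosed_le continuous_const (continuous_coordE i)).inter
    (isClosed_le continuous_sumE continuous_const)

theorem isBounded_cornerS (n : ℕ) : Bornology.IsBounded (cornerS n) := by
  refine (Metric.isBounded_closedBall (x := (0 : EuclideanSpace ℝ (Fin n))) (r := √n)).subset ?_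
  rintro x ⟨hx1, hx2⟩
  rw [mem_closedBall_zero_iff, EuclideanSpace.norm_eq]
  refine Real.sqrt_le_sqrt ?_
  have h1 : ∀ i, ‖x i‖ ^ 2 ≤ 1 := by
    intro i
    have h2 : x i ≤ 1 := (Finset.single_le_sum (fun j _ => hx1 j) (Finset.mem_univ i)).trans hx2
    rw [Real.norm_eq_abs, sq_abs]
    have := hx1 i
    nlinarith
  calc ∑ i, ‖x i‖ ^ 2 ≤ ∑ _i : Fin n, (1 : ℝ) := Finset.sum_le_sum fun i _ => h1 i
    _ = n := by simp

theorem interior_cornerS (n : ℕ) :
    interior (cornerS n) = {x | (∀ i, 0 < x i) ∧ ∑ i, x i < 1} := by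
  apply Set.Subset.antisymm
  · intro x hx
    refine ⟨fun i => ?_, ?_⟩
    · let g : EuclideanSpace ℝ (Fin n) →L[ℝ] ℝ := EuclideanSpace.proj (𝕜 := ℝ) i
      have h1 : cornerS n ⊆ g ⁻¹' (Set.Ici 0) := fun y hy => hy.1 i
      have h2 := interior_mono h1 hx
      have h3 : IsOpenMap g :=
        ContinuousLinearMap.isOpenMap _ fun t => ⟨EuclideanSpace.single i t, by simp [g]⟩
      rw [← h3.preimage_interior_eq_interior_preimage (ContinuousLinearMap.continuous _),
        interior_Ici] at h2
      exact h2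
    · rcases Nat.eq_zero_or_pos n with rfl | hn
      · simp
      · let g : EuclideanSpace ℝ (Fin n) →L[ℝ] ℝ := ∑ i, EuclideanSpace.proj (𝕜 := ℝ) i
        have hg : ∀ y, g y = ∑ i, y i := by
          intro y
          simp [g]
        have h1 : cornerS n ⊆ g ⁻¹' (Set.Iic 1) := fun y hy => by
          change g y ≤ 1
          rw [hg]
          exact hy.2
        have h2 := interior_mono h1 hx
        have h3 : IsOpenMap g :=
          ContinuousLinearMap.isOpenMap _ fun t => ⟨EuclideanSpace.single ⟨0, hn⟩ t, by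
            rw [hg]
            simp⟩
        rw [← h3.preimage_interior_eq_interior_preimage (ContinuousLinearMap.continuous _),
          interior_Iic] at h2
        have h4 : g x < 1 := h2
        rwa [hg] at h4
  · refine interior_maximal (fun x hx => ⟨fun i => (hx.1 i).le, hx.2.le⟩) ?_
    have h1 : {x : EuclideanSpace ℝ (Fin n) | (∀ i, 0 < x i) ∧ ∑ i, x i < 1} =
        (⋂ i, {x : EuclideanSpace ℝ (Fin n) | 0 < x i}) ∩ {x | ∑ i, x i < 1} := by
      ext x
      simp
    rw [h1]
    exact (isOpen_iInter_of_finite fun i => isOpen_lt continuous_const (continuous_coordE i)).inter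
      (isOpen_lt continuous_sumE continuous_const)

/-- the corner simplex is a disk -/
theorem exists_disk_corner (n : ℕ) :
    ∃ e : Metric.closedBall (0 : EuclideanSpace ℝ (Fin n)) 1 ≃ₜ cornerS n,
      ∀ x, ‖x.1‖ = 1 ↔ (∃ i, (e x).1 i = 0) ∨ ∑ i, (e x).1 i = 1 := by
  have hne : (interior (cornerS n)).Nonempty := by
    rw [interior_cornerS]
    refine ⟨WithLp.toLp 2 fun _ => 1 / ((n : ℝ) + 1), fun i => ?_, ?_⟩
    · change 0 < 1 / ((n : ℝ) + 1)
      positivity
    · change ∑ _i : Fin n, 1 / ((n : ℝ) + 1) < 1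
      rw [Finset.sum_const, Finset.card_univ, Fintype.card_fin, nsmul_eq_mul, mul_one_div,
        div_lt_one (by positivity)]
      linarith
  obtain ⟨h, h1, h2, h3⟩ := exists_homeomorph_image_interior_closure_frontier_eq_unitBall
    (convex_cornerS n) hne (isBounded_cornerS n)
  rw [(isClosed_cornerS n).closure_eq] at h2
  have e1 : ∀ x, x ∈ cornerS n ↔ h x ∈ Metric.closedBall (0 : EuclideanSpace ℝ (Fin n)) 1 := by
    intro x
    rw [← h2, h.injective.mem_set_image]
  let e0 : cornerS n ≃ₜ Metric.closedBall (0 : EuclideanSpace ℝ (Fin n)) 1 := h.subtype e1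
  refine ⟨e0.symm, fun x => ?_⟩
  obtain ⟨y, rfl⟩ := e0.surjective x
  rw [Homeomorph.symm_apply_apply]
  have e2 : ‖(e0 y).1‖ = 1 ↔ y.1 ∈ frontier (cornerS n) := by
    rw [← mem_sphere_zero_iff_norm, ← h3]
    exact h.injective.mem_set_image
  rw [e2, (isClosed_cornerS n).frontier_eq, interior_cornerS]
  constructor
  · rintro ⟨-, h5⟩
    by_contra h6
    push Not at h6
    exact h5 ⟨fun i => lt_of_le_of_ne (y.2.1 i) (Ne.symm (h6.1 i)), lt_of_le_of_ne y.2.2 h6.2⟩
  · intro h5
    refine ⟨y.2, fun h6 => ?_⟩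
    rcases h5 with ⟨i, hi⟩ | h5
    · exact absurd hi (ne_of_gt (h6.1 i))
    · exact absurd h5 (ne_of_lt h6.2)

namespace OrdCx

variable {P : Type} [PartialOrder P]

/-- **The closed simplex with `n + 1` vertices is a disk of dimension `n`.** -/
theorem exists_disk {n : ℕ} (F : Finset P) (hF : F.card = n + 1) :
    ∃ e : Metric.closedBall (0 : EuclideanSpace ℝ (Fin n)) 1 ≃ₜ Simplex F,
      ∀ x, ‖x.1‖ = 1 ↔ ∃ p ∈ F, (e x).1 p = 0 := by
  obtain ⟨e, he⟩ := exists_disk_corner n
  let φ : Fin (n + 1) ≃ F := (F.equivFinOfCardEq hF).symm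
  have hsum : ∀ c : P → ℝ, ∑ p ∈ F, c p = ∑ i, c (φ i).1 := by
    intro c
    rw [← Finset.sum_coe_sort F c]
    exact (Equiv.sum_comp φ fun p : F => c p.1).symm
  have hlast : ∀ t : Simplex F, ∑ i : Fin n, t.1 (φ i.castSucc).1 + t.1 (φ (Fin.last n)).1 = 1 := by
    intro t
    have h1 := t.2.2.2
    rw [hsum, Fin.sum_univ_castSucc] at h1
    exact h1
  let y : EuclideanSpace ℝ (Fin n) → Fin (n + 1) → ℝ := fun x =>
    Fin.snoc (α := fun _ => ℝ) (fun i => x i) (1 - ∑ i, x i)
  have hy1 : ∀ x (i : Fin n), y x i.castSucc = x i := fun x i => by simp [y]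
  have hy2 : ∀ x, y x (Fin.last n) = 1 - ∑ i, x i := fun x => by simp [y]
  let E : Simplex F ≃ cornerS n :=
    { toFun := fun t => ⟨WithLp.toLp 2 fun i => t.1 (φ i.castSucc).1, fun i => t.2.1 _, by
        have h1 := hlast t
        have h2 := t.2.1 (φ (Fin.last n)).1
        change ∑ i : Fin n, t.1 (φ i.castSucc).1 ≤ 1
        linarith⟩
      invFun := fun x => ⟨fun p => if h : p ∈ F then y x.1 (φ.symm ⟨p, h⟩) else 0, by
        refine ⟨fun p => ?_, fun p hp => dif_neg hp, ?_⟩
        · beta_reduce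
          by_cases hp : p ∈ F
          · rw [dif_pos hp]
            generalize φ.symm ⟨p, hp⟩ = i
            refine Fin.lastCases ?_ (fun i => ?_) i
            · rw [hy2]
              have := x.2.2
              linarith
            · rw [hy1]
              exact x.2.1 i
          · rw [dif_neg hp]
        · rw [hsum, Fin.sum_univ_castSucc]
          have h1 : ∀ i, (if h : (φ i).1 ∈ F then y x.1 (φ.symm ⟨(φ i).1, h⟩) else 0) = y x.1 i := by
            intro i
            rw [dif_pos (φ i).2]
            congr 1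
            exact φ.symm_apply_apply i
          rw [h1, hy2, Finset.sum_congr rfl fun i _ => (h1 i.castSucc).trans (hy1 x.1 i)]
          ring⟩
      left_inv := by
        intro t
        refine Subtype.ext (funext fun p => ?_)
        change (if h : p ∈ F then y _ (φ.symm ⟨p, h⟩) else 0) = t.1 p
        by_cases hp : p ∈ F
        · rw [dif_pos hp]
          have h1 : (φ (φ.symm ⟨p, hp⟩)).1 = p := by rw [φ.apply_symm_apply]
          conv_rhs => rw [← h1]
          generalize φ.symm ⟨p, hp⟩ = i
          refine Fin.lastCases ?_ (fun i => ?_) i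
          · rw [hy2]
            have := hlast t
            change 1 - ∑ i : Fin n, t.1 (φ i.castSucc).1 = _
            linarith
          · rw [hy1]
        · rw [dif_neg hp]
          exact (t.2.2.1 p hp).symm
      right_inv := by
        intro x
        apply Subtype.ext
        ext i
        change (if h : (φ i.castSucc).1 ∈ F then y x.1 (φ.symm ⟨(φ i.castSucc).1, h⟩) else 0) = x.1 i
        rw [dif_pos (φ i.castSucc).2, ← hy1 x.1 i]
        congr 1
        exact φ.symm_apply_apply _ }
  have hE : Continuous E := by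
    refine Continuous.subtype_mk ((PiLp.continuous_toLp 2 (fun _ : Fin n => ℝ)).comp ?_) _
    exact continuous_pi fun i => continuous_coord F _
  let E' : Simplex F ≃ₜ cornerS n := hE.homeoOfEquivCompactToT2
  refine ⟨e.trans E'.symm, fun x => ?_⟩
  rw [he x]
  obtain ⟨t, ht⟩ := E'.surjective (e x)
  have h1 : (e.trans E'.symm) x = t := by
    change E'.symm (e x) = t
    rw [← ht, E'.symm_apply_apply]
  rw [h1, ← ht]
  have h2 : ∀ i : Fin n, (E' t).1 i = t.1 (φ i.castSucc).1 := fun i => rfl
  have h3 := hlast t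
  simp only [h2]
  constructor
  · rintro (⟨i, hi⟩ | h4)
    · exact ⟨_, (φ i.castSucc).2, hi⟩
    · exact ⟨_, (φ (Fin.last n)).2, by linarith⟩
  · rintro ⟨p, hp, hp0⟩
    have h5 : (φ (φ.symm ⟨p, hp⟩)).1 = p := by rw [φ.apply_symm_apply]
    rw [← h5] at hp0
    generalize φ.symm ⟨p, hp⟩ = i at hp0
    revert hp0
    refine Fin.lastCases (fun h6 => ?_) (fun i h6 => ?_) i
    · right
      linarith
    · left
      exact ⟨i, h6⟩

end OrdCx

end HH
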