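import Pool.Agent.HH.OrdCx

/-!
# HH part 3, CW-1: topology of the order complex (products, skeleta)
-/

set_option autoImplicit false

namespace HH

open Classical Topology

namespace OrdCx

variable {P : Type} [PartialOrder P]

instance (F : Finset P) : CompactSpace (Simplex F) := by
  have h : IsCompact {c : P → ℝ | (∀ p, 0 ≤ c p) ∧ (∀ p, p ∉ F → c p = 0) ∧ ∑ p ∈ F, c p = 1} := by
    refine IsCompact.of_isClosed_subset (isCompact_univ_pi fun _ : P =>
      isCompact_Icc (a := (0 : ℝ)) (b := 1)) ?_ ?_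
    · refine IsClosed.inter ?_ (IsClosed.inter ?_ ?_)
      · change IsClosed {c : P → ℝ | ∀ p, 0 ≤ c p}
        have : {c : P → ℝ | ∀ p, 0 ≤ c p} = ⋂ p, {c | 0 ≤ c p} := by
          ext c
          simp
        rw [this]
        exact isClosed_iInter fun p => isClosed_le continuous_const (continuous_apply p)
      · change IsClosed {c : P → ℝ | ∀ p, p ∉ F → c p = 0}
        have : {c : P → ℝ | ∀ p, p ∉ F → c p = 0} = ⋂ p, ⋂ _ : p ∉ F, {c | c p = 0} := by
          ext c
          simp
        rw [this]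
        exact isClosed_iInter fun p => isClosed_iInter fun _ =>
          isClosed_eq (continuous_apply p) continuous_const
      · exact isClosed_eq (continuous_finsetSum _ fun p _ => continuous_apply p) continuous_const
    · rintro _ ⟨h1, h2, h3⟩ p -
      refine ⟨h1 p, ?_⟩
      by_cases hp : p ∈ F
      · rw [← h3]
        exact Finset.single_le_sum (fun q _ => h1 q) hp
      · rw [h2 p hp]
        exact zero_le_one
  exact isCompact_iff_compactSpace.1 h

instance (F : Finset P) : T2Space (Simplex F) :=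
  inferInstanceAs (T2Space {c : P → ℝ // _})

/-- a point as a point of a simplex containing its support -/
noncomputable def toSimplex (t : OrdCx P) (F : Finset P) (h : ∀ p, t.w p ≠ 0 → p ∈ F) :
    Simplex F :=
  ⟨fun p => t.w p, t.nonneg, fun p hp => by
    by_contra h0
    exact hp (h p h0), t.sum_eq h⟩

theorem ofSimplex_toSimplex (t : OrdCx P) {F : Finset P} (hF : ∀ p ∈ F, ∀ q ∈ F, p ≤ q ∨ q ≤ p)
    (h : ∀ p, t.w p ≠ 0 → p ∈ F) : ofSimplex F hF (t.toSimplex F h) = t := by
  refine ext fun p => ?_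
  rw [ofSimplex_w]
  rfl

theorem ofSimplex_injective {F : Finset P} (hF : ∀ p ∈ F, ∀ q ∈ F, p ≤ q ∨ q ≤ p) :
    Function.Injective (ofSimplex F hF) := by
  intro s t h
  refine Subtype.ext (funext fun p => ?_)
  rw [← ofSimplex_w (hF := hF) s p, ← ofSimplex_w (hF := hF) t p, h]

/-- the support of a point is a chain -/
theorem supp_chain (t : OrdCx P) : ∀ p ∈ t.w.support, ∀ q ∈ t.w.support, p ≤ q ∨ q ≤ p :=
  fun p hp q hq => t.chain p q (Finsupp.mem_support_iff.1 hp) (Finsupp.mem_support_iff.1 hq)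

theorem supp_nonempty (t : OrdCx P) : t.w.support.Nonempty := by
  rw [Finset.nonempty_iff_ne_empty]
  intro h
  have h1 := t.sum
  rw [Finsupp.sum, h, Finset.sum_empty] at h1
  exact zero_ne_one h1

theorem ofSimplex_supp_subset {F : Finset P} (hF : ∀ p ∈ F, ∀ q ∈ F, p ≤ q ∨ q ≤ p)
    (t : Simplex F) : (ofSimplex F hF t).w.support ⊆ F := by
  intro p hp
  by_contra h
  rw [Finsupp.mem_support_iff, ofSimplex_w, t.2.2.1 p h] at hp
  exact hp rfl

omit [PartialOrder P] in
theorem continuous_coord (F : Finset P) (p : P) : Continuous fun t : Simplex F => t.1 p :=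
  (continuous_apply p).comp continuous_subtype_val

/-- the order complex is a quotient of the disjoint union of the simplices -/
theorem isQuotientMap_ofSimplex : IsQuotientMap
    (fun x : Σ F : {F : Finset P // ∀ p ∈ F, ∀ q ∈ F, p ≤ q ∨ q ≤ p}, Simplex F.1 =>
      ofSimplex x.1.1 x.1.2 x.2) := by
  refine isQuotientMap_iff_isClosed.2 ⟨fun t => ?_, fun A => ?_⟩
  · exact ⟨⟨⟨t.w.support, supp_chain t⟩, t.toSimplex _ fun p hp => Finsupp.mem_support_iff.2 hp⟩,
      ofSimplex_toSimplex t (supp_chain t) fun p hp => Finsupp.mem_support_iff.2 hp⟩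
  · rw [isClosed_iff, isClosed_sigma_iff]
    constructor
    · rintro h ⟨F, hF⟩
      exact h F hF
    · intro h F hF
      exact h ⟨F, hF⟩

/-- maps out of a product with a locally compact space -/
theorem continuous_prod_iff {A Y : Type*} [TopologicalSpace A] [LocallyCompactSpace A]
    [TopologicalSpace Y] {f : OrdCx P × A → Y} :
    Continuous f ↔ ∀ (F : Finset P) (hF : ∀ p ∈ F, ∀ q ∈ F, p ≤ q ∨ q ≤ p),
      Continuous fun x : Simplex F × A => f (ofSimplex F hF x.1, x.2) := by
  constructor
  · intro h F hF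
    exact h.comp (((continuous_ofSimplex F hF).comp continuous_fst).prodMk continuous_snd)
  · intro h
    refine isQuotientMap_ofSimplex.continuous_lift_prod_left ?_
    refine (Homeomorph.sigmaProdDistrib.symm.comp_continuous_iff'
      (f := fun p : (Σ F : {F : Finset P // ∀ p ∈ F, ∀ q ∈ F, p ≤ q ∨ q ≤ p}, Simplex F.1) × A =>
        f (ofSimplex p.1.1.1 p.1.1.2 p.1.2, p.2))).1 ?_
    refine continuous_sigma fun F => ?_
    exact h F.1 F.2

variable (P) in
/-- the skeleta: points with at most `n` vertices -/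
def skel (n : ℕ) : Set (OrdCx P) := {t | t.w.support.card ≤ n}

theorem skel_zero : skel P 0 = ∅ := by
  refine Set.eq_empty_of_forall_notMem fun t ht => ?_
  have h1 : t.w.support.card ≤ 0 := ht
  have h2 := Finset.card_pos.2 (supp_nonempty t)
  omega

theorem skel_mono {m n : ℕ} (h : m ≤ n) : skel P m ⊆ skel P n := fun _ ht => le_trans ht h

theorem ofSimplex_mem_skel (F : Finset P) (hF : ∀ p ∈ F, ∀ q ∈ F, p ≤ q ∨ q ≤ p) {n : ℕ}
    (h : F.card ≤ n) (t : Simplex F) : ofSimplex F hF t ∈ skel P n :=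
  (Finset.card_le_card (ofSimplex_supp_subset hF t)).trans h

/-- boundary points of a simplex lie in the lower skeleton -/
theorem ofSimplex_mem_skel' (F : Finset P) (hF : ∀ p ∈ F, ∀ q ∈ F, p ≤ q ∨ q ≤ p) {n : ℕ}
    (h : F.card = n + 1) (t : Simplex F) :
    ofSimplex F hF t ∈ skel P n ↔ ∃ p ∈ F, t.1 p = 0 := by
  have h1 := ofSimplex_supp_subset hF t
  constructor
  · intro h2
    have h3 : (ofSimplex F hF t).w.support.card ≤ n := h2
    obtain ⟨p, hp1, hp2⟩ := Finset.exists_mem_notMem_of_card_lt_card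
      (by omega : (ofSimplex F hF t).w.support.card < F.card)
    refine ⟨p, hp1, ?_⟩
    rw [← ofSimplex_w (hF := hF)]
    exact Finsupp.notMem_support_iff.1 hp2
  · rintro ⟨p, hp1, hp2⟩
    have h2 : (ofSimplex F hF t).w.support ⊂ F := by
      refine Finset.ssubset_iff_subset_ne.2 ⟨h1, fun h3 => ?_⟩
      rw [← h3, Finsupp.mem_support_iff, ofSimplex_w] at hp1
      exact hp1 hp2
    have h3 := Finset.card_lt_card h2
    change (ofSimplex F hF t).w.support.card ≤ n
    omega

/-- a closed set of the skeleton -/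
theorem isClosed_of_skel {n : ℕ} {A : Set (OrdCx P)} (hA : A ⊆ skel P n)
    (h : ∀ (F : Finset P) (hF : ∀ p ∈ F, ∀ q ∈ F, p ≤ q ∨ q ≤ p), F.card ≤ n →
      IsClosed (ofSimplex F hF ⁻¹' A)) : IsClosed A := by
  refine isClosed_iff.2 fun F hF => ?_
  have h1 : ofSimplex F hF ⁻¹' A = ⋃ G ∈ F.powerset.filter (fun G => G.card ≤ n),
      {t : Simplex F | (∀ p, p ∉ G → t.1 p = 0) ∧ ofSimplex F hF t ∈ A} := by
    ext t
    simp only [Set.mem_preimage, Set.mem_iUnion, Set.mem_ofPred_eq, Finset.mem_filter,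
      Finset.mem_powerset, exists_prop]
    constructor
    · intro ht
      refine ⟨(ofSimplex F hF t).w.support, ⟨ofSimplex_supp_subset hF t, hA ht⟩, fun p hp => ?_, ht⟩
      rw [← ofSimplex_w (hF := hF)]
      exact Finsupp.notMem_support_iff.1 hp
    · rintro ⟨G, -, -, ht⟩
      exact ht
  rw [h1]
  refine Set.Finite.isClosed_biUnion (Finset.finite_toSet _) fun G hG => ?_
  have hG1 : G ⊆ F ∧ G.card ≤ n := by
    have := Finset.mem_coe.1 hG
    rw [Finset.mem_filter, Finset.mem_powerset] at this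
    exact this
  have hGc : ∀ p ∈ G, ∀ q ∈ G, p ≤ q ∨ q ≤ p := fun p hp q hq => hF p (hG1.1 hp) q (hG1.1 hq)
  set Z : Set (Simplex F) := {t | ∀ p, p ∉ G → t.1 p = 0} with hZ
  have hZc : IsClosed Z := by
    have : Z = ⋂ p, ⋂ _ : p ∉ G, {t : Simplex F | t.1 p = 0} := by
      ext t
      simp [hZ]
    rw [this]
    exact isClosed_iInter fun p => isClosed_iInter fun _ =>
      isClosed_eq (continuous_coord F p) continuous_const
  let g : Z → Simplex G := fun t => ⟨t.1.1, t.1.2.1, t.2,
    (Finset.sum_subset hG1.1 fun p _ hp => t.2 p hp).trans t.1.2.2.2⟩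
  have hg : Continuous g := Continuous.subtype_mk (continuous_subtype_val.comp continuous_subtype_val) _
  have hgo : ∀ t : Z, ofSimplex G hGc (g t) = ofSimplex F hF t.1 := by
    intro t
    refine ext fun p => ?_
    rw [ofSimplex_w, ofSimplex_w]
  have h2 : {t : Simplex F | (∀ p, p ∉ G → t.1 p = 0) ∧ ofSimplex F hF t ∈ A} =
      Subtype.val '' (g ⁻¹' (ofSimplex G hGc ⁻¹' A)) := by
    ext t
    constructor
    · rintro ⟨ht1, ht2⟩
      refine ⟨⟨t, ht1⟩, ?_, rfl⟩
      change ofSimplex G hGc (g ⟨t, ht1⟩) ∈ A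
      rw [hgo]
      exact ht2
    · rintro ⟨t, ht, rfl⟩
      refine ⟨t.2, ?_⟩
      have : ofSimplex G hGc (g t) ∈ A := ht
      rwa [hgo] at this
  rw [h2]
  exact hZc.isClosedMap_subtype_val _ ((h G hGc hG1.2).preimage hg)

theorem isClosed_skel (n : ℕ) : IsClosed (skel P n) := by
  refine isClosed_of_skel (n := n) (le_refl _) fun F hF h => ?_
  have : ofSimplex F hF ⁻¹' skel P n = Set.univ :=
    Set.eq_univ_of_forall fun t => ofSimplex_mem_skel F hF h t
  rw [this]
  exact isClosed_univ

/-- **maps out of a skeleton** -/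
theorem continuous_skel_iff {n : ℕ} {Y : Type*} [TopologicalSpace Y] {f : skel P n → Y} :
    Continuous f ↔ ∀ (F : Finset P) (hF : ∀ p ∈ F, ∀ q ∈ F, p ≤ q ∨ q ≤ p) (h : F.card ≤ n),
      Continuous fun t : Simplex F => f ⟨ofSimplex F hF t, ofSimplex_mem_skel F hF h t⟩ := by
  constructor
  · intro hf F hF h
    exact hf.comp (Continuous.subtype_mk (continuous_ofSimplex F hF) _)
  · intro hf
    refine continuous_iff_isClosed.2 fun C hC => ?_
    have h1 : IsClosed (Subtype.val '' (f ⁻¹' C)) := by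
      refine isClosed_of_skel (n := n) ?_ fun F hF h => ?_
      · rintro _ ⟨t, -, rfl⟩
        exact t.2
      · have h2 : ofSimplex F hF ⁻¹' (Subtype.val '' (f ⁻¹' C)) =
            (fun t : Simplex F => f ⟨ofSimplex F hF t, ofSimplex_mem_skel F hF h t⟩) ⁻¹' C := by
          ext t
          constructor
          · rintro ⟨⟨s, hs⟩, hs1, hs2⟩
            have hs3 : s = ofSimplex F hF t := hs2
            subst hs3
            exact hs1
          · intro ht
            exact ⟨⟨ofSimplex F hF t, ofSimplex_mem_skel F hF h t⟩, ht, rfl⟩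
        rw [h2]
        exact hC.preimage (hf F hF h)
    have h3 := h1.preimage (continuous_subtype_val (p := fun t => t ∈ skel P n))
    rwa [Set.preimage_image_eq _ Subtype.val_injective] at h3

theorem continuous_iff_skel {Y : Type*} [TopologicalSpace Y] {f : OrdCx P → Y} :
    Continuous f ↔ ∀ n, Continuous fun t : skel P n => f t.1 := by
  constructor
  · intro h n
    exact h.comp continuous_subtype_val
  · intro h
    refine continuous_iff.2 fun F hF => ?_
    exact continuous_skel_iff.1 (h F.card) F hF le_rfl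

end OrdCx

end HH
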