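import Pool.Agent.HH.PastLaws

/-!
# HH stage 1b, module b2: codes of pasting shapes
-/

set_option autoImplicit false

namespace HH

open Classical

theorem PastCode_iso {T T' : Type} [LinearOrder T] [Fintype T] [LinearOrder T'] [Fintype T']
    {h : T' → ℕ} (H : Past T' h) (e : T ≃o T') : Past T (fun t => h (e t)) where
  ne := by
    obtain ⟨t⟩ := H.ne
    exact ⟨e.symm t⟩
  step := fun a b hab => H.step (e a) (e b) ((apply_covBy_apply_iff e).2 hab)
  bot := fun a ha => H.bot (e a) ((e.isMin_apply).2 ha)
  top := fun a ha => H.top (e a) ((e.isMax_apply).2 ha)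

theorem PastCode_mapAt {T T' : Type} [LinearOrder T] [Fintype T] [LinearOrder T'] [Fintype T']
    {h : T' → ℕ} (H : Past T' h) (e : T ≃o T') (t : T) :
    MapAt (pastG T (fun t => h (e t))) (pastG T' h) e t := by
  refine ⟨trivial, rfl, fun h0 => ⟨?_, ?_⟩⟩
  · obtain ⟨h1, h2, h3⟩ := past_src_spec (PastCode_iso H e) h0
    refine past_src_unique H ((e.lt_iff_lt).2 h1) h2 fun r hr1 hr2 => ?_
    have h4 := h3 (e.symm r) ((e.lt_symm_apply).2 hr1) ((e.symm_apply_le).2 hr2)
    simpa using h4
  · obtain ⟨h1, h2, h3⟩ := past_tgt_spec (PastCode_iso H e) h0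
    refine past_tgt_unique H ((e.lt_iff_lt).2 h1) h2 fun r hr1 hr2 => ?_
    have h4 := h3 (e.symm r) ((e.le_symm_apply).2 hr1) ((e.symm_apply_lt).2 hr2)
    simpa using h4

/-- a bijective map from a finite linear order with a height function -/
theorem PastCode_of {T : Type} [LinearOrder T] [Fintype T] {h : T → ℕ} {b : Glob}
    {A : PC} (e : A.P → T) (e' : T → A.P) (he : ∀ p, MapAt A.G (pastG T h) e p)
    (he1 : ∀ p, e' (e p) = p) (he2 : ∀ t, e (e' t) = t)
    (f : T → b.C) (g : b.C → T) (hf : ∀ t, MapAt (pastG T h) b f t) (hgf : ∀ t, g (f t) = t)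
    (hfg : ∀ x, b.ok x → f (g x) = x) : IsPast b := by
  have hF : ∀ p, MapAt A.G b (fun p => f (e p)) p := by
    intro p
    obtain ⟨-, a2, a3⟩ := he p
    obtain ⟨b1, b2, b3⟩ := hf (e p)
    refine ⟨b1, b2.trans a2, fun h0 => ?_⟩
    obtain ⟨a4, a5⟩ := a3 h0
    have h0' : 0 < (pastG T h).dim (e p) := by rw [a2]; exact h0
    obtain ⟨b4, b5⟩ := b3 h0'
    exact ⟨b4.trans (congrArg f a4), b5.trans (congrArg f a5)⟩
  have hGF : ∀ p, (fun x => e' (g x)) ((fun p => f (e p)) p) = p := by
    intro p
    show e' (g (f (e p))) = p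
    rw [hgf, he1]
  have hFG : ∀ x, b.ok x → (fun p => f (e p)) ((fun x => e' (g x)) x) = x := by
    intro x hx
    show f (e (e' (g x))) = x
    rw [he2, hfg x hx]
  refine ⟨A, fun p => f (e p), fun x => e' (g x), hF, fun x hx => ?_, hGF, hFG⟩
  obtain ⟨c1, c2, c3⟩ := hF (e' (g x))
  rw [hFG x hx] at c2 c3
  refine ⟨trivial, c2.symm, fun h0 => ?_⟩
  have h0' : 0 < A.G.dim (e' (g x)) := by rw [← c2]; exact h0
  obtain ⟨c4, c5⟩ := c3 h0'
  constructor
  · rw [c4]
    exact (hGF _).symm
  · rw [c5]
    exact (hGF _).symm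

/-- a bijective map from a finite linear order with a height function -/
theorem IsPast.of_past {T : Type} [LinearOrder T] [Fintype T] {h : T → ℕ} (H : Past T h)
    {b : Glob} (f : T → b.C) (g : b.C → T) (hf : ∀ t, MapAt (pastG T h) b f t)
    (hgf : ∀ t, g (f t) = t) (hfg : ∀ x, b.ok x → f (g x) = x) : IsPast b := by
  have := H.ne
  have hc : Fintype.card T = (Fintype.card T - 1) + 1 := by
    have := Fintype.card_pos (α := T)
    omega
  let e : Fin ((Fintype.card T - 1) + 1) ≃o T := monoEquivOfFin T hc
  exact PastCode_of (A := ⟨Fintype.card T - 1, fun t => h (e t), PastCode_iso H e⟩) e e.symm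
    (fun p => PastCode_mapAt H e p) (fun p => e.symm_apply_apply p)
    (fun t => e.apply_symm_apply t) f g hf hgf hfg

/-- every finite linear order with a height function is isomorphic to a code -/
theorem isPast_of_past {T : Type} [LinearOrder T] [Fintype T] {h : T → ℕ} (H : Past T h) :
    IsPast (pastG T h) :=
  IsPast.of_past H (b := pastG T h) id id (fun _ => ⟨trivial, rfl, fun _ => ⟨rfl, rfl⟩⟩)
    (fun _ => rfl) (fun _ _ => rfl)

/-- transport of `IsPast` along an isomorphism of the genuine parts -/
theorem IsPast.of_iso {a b : Glob} (ha : IsPast a) (f : a.C → b.C) (g : b.C → a.C)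
    (hf : ∀ x, a.ok x → MapAt a b f x) (hg : ∀ x, b.ok x → MapAt b a g x)
    (hgf : ∀ x, a.ok x → g (f x) = x) (hfg : ∀ x, b.ok x → f (g x) = x) : IsPast b := by
  obtain ⟨A, f0, g0, h1, h2, h3, h4⟩ := ha
  refine ⟨A, fun p => f (f0 p), fun x => g0 (g x), fun p => ?_, fun x hx => ?_, fun p => ?_,
    fun x hx => ?_⟩
  · obtain ⟨a1, a2, a3⟩ := h1 p
    obtain ⟨b1, b2, b3⟩ := hf (f0 p) a1
    refine ⟨b1, b2.trans a2, fun h0 => ?_⟩
    obtain ⟨a4, a5⟩ := a3 h0
    have h0' : 0 < a.dim (f0 p) := by rw [a2]; exact h0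
    obtain ⟨b4, b5⟩ := b3 h0'
    exact ⟨b4.trans (congrArg f a4), b5.trans (congrArg f a5)⟩
  · obtain ⟨a1, a2, a3⟩ := hg x hx
    obtain ⟨b1, b2, b3⟩ := h2 (g x) a1
    refine ⟨b1, b2.trans a2, fun h0 => ?_⟩
    obtain ⟨a4, a5⟩ := a3 h0
    have h0' : 0 < a.dim (g x) := by rw [a2]; exact h0
    obtain ⟨b4, b5⟩ := b3 h0'
    exact ⟨b4.trans (congrArg g0 a4), b5.trans (congrArg g0 a5)⟩
  · show g0 (g (f (f0 p))) = p
    rw [hgf _ (h1 p).1, h3]
  · show f (f0 (g0 (g x))) = x
    rw [h4 _ (hg x hx).1, hfg x hx]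

theorem isPast_code (A : PC) : IsPast A.G :=
  ⟨A, id, id, fun _ => ⟨trivial, rfl, fun _ => ⟨rfl, rfl⟩⟩,
    fun _ _ => ⟨trivial, rfl, fun _ => ⟨rfl, rfl⟩⟩, fun _ => rfl, fun _ _ => rfl⟩

theorem PastCode_disk (j : ℕ) : Past (Fin (2 * j + 1)) (fun t => min t.1 (2 * j - t.1)) where
  ne := ⟨0⟩
  step := by
    intro a b hab
    have h1 : a.1 + 1 = b.1 := by
      have h2 : a.1 < b.1 := hab.1
      by_contra h3
      have h4 : a.1 + 1 < b.1 := by omega
      have hb := b.2
      exact hab.2 (c := ⟨a.1 + 1, by omega⟩) (by show a.1 < a.1 + 1; omega) (by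
        show a.1 + 1 < b.1; omega)
    have hb := b.2
    show min a.1 (2 * j - a.1) = min b.1 (2 * j - b.1) + 1 ∨
      min b.1 (2 * j - b.1) = min a.1 (2 * j - a.1) + 1
    omega
  bot := by
    intro a ha
    have h1 : a.1 = 0 := by
      have := ha (show (0 : Fin (2 * j + 1)) ≤ a from Fin.zero_le a)
      have h2 : a.1 ≤ 0 := this
      omega
    show min a.1 (2 * j - a.1) = 0
    omega
  top := by
    intro a ha
    have h1 : a.1 = 2 * j := by
      have := ha (show a ≤ Fin.last (2 * j) from Fin.le_last a)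
      have h2 : 2 * j ≤ a.1 := this
      have := a.2
      omega
    show min a.1 (2 * j - a.1) = 0
    omega

theorem isPast_disk (j : ℕ) : IsPast (diskG j) := by
  have H := PastCode_disk j
  refine IsPast.of_past H (b := diskG j)
    (fun t => if t.1 ≤ j then (t.1, false) else (2 * j - t.1, true))
    (fun q => ⟨if q.2 then 2 * j - q.1 else min q.1 (2 * j), by split_ifs <;> omega⟩) ?_ ?_ ?_
  · intro t
    have ht := t.2
    have hsrc : 0 < min t.1 (2 * j - t.1) → (pSrc (fun t : Fin (2 * j + 1) =>
        min t.1 (2 * j - t.1)) t).1 = min t.1 (2 * j - t.1) - 1 := by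
      intro h0
      have h1 := past_src_unique H (t := t)
        (s := ⟨min t.1 (2 * j - t.1) - 1, by omega⟩)
        (by show min t.1 (2 * j - t.1) - 1 < t.1; omega)
        (by
          show min (min t.1 (2 * j - t.1) - 1) (2 * j - (min t.1 (2 * j - t.1) - 1)) + 1 =
            min t.1 (2 * j - t.1)
          omega)
        (by
          intro r hr1 hr2
          have hr1' : min t.1 (2 * j - t.1) - 1 < r.1 := hr1
          have hr2' : r.1 ≤ t.1 := hr2
          show min t.1 (2 * j - t.1) ≤ min r.1 (2 * j - r.1)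
          omega)
      exact congrArg Fin.val h1
    have htgt : 0 < min t.1 (2 * j - t.1) → (pTgt (fun t : Fin (2 * j + 1) =>
        min t.1 (2 * j - t.1)) t).1 = 2 * j - (min t.1 (2 * j - t.1) - 1) := by
      intro h0
      have h1 := past_tgt_unique H (t := t)
        (s := ⟨2 * j - (min t.1 (2 * j - t.1) - 1), by omega⟩)
        (by show t.1 < 2 * j - (min t.1 (2 * j - t.1) - 1); omega)
        (by
          show min (2 * j - (min t.1 (2 * j - t.1) - 1))
            (2 * j - (2 * j - (min t.1 (2 * j - t.1) - 1))) + 1 = min t.1 (2 * j - t.1)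
          omega)
        (by
          intro r hr1 hr2
          have hr1' : t.1 ≤ r.1 := hr1
          have hr2' : r.1 < 2 * j - (min t.1 (2 * j - t.1) - 1) := hr2
          show min t.1 (2 * j - t.1) ≤ min r.1 (2 * j - r.1)
          omega)
      exact congrArg Fin.val h1
    refine ⟨?_, ?_, fun h0 => ?_⟩
    · show (diskG j).ok (if t.1 ≤ j then (t.1, false) else (2 * j - t.1, true))
      split_ifs with h
      · show t.1 < j ∨ (t.1 = j ∧ false = false)
        simp only [and_true]
        omega
      · left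
        show 2 * j - t.1 < j
        omega
    · show (diskG j).dim (if t.1 ≤ j then (t.1, false) else (2 * j - t.1, true)) =
        min t.1 (2 * j - t.1)
      split_ifs with h
      · show t.1 = _
        omega
      · show 2 * j - t.1 = _
        omega
    · have h0' : 0 < min t.1 (2 * j - t.1) := h0
      have e1 := hsrc h0'
      have e2 := htgt h0'
      constructor
      · show (diskG j).src (if t.1 ≤ j then (t.1, false) else (2 * j - t.1, true)) =
          (if (pSrc (fun t : Fin (2 * j + 1) => min t.1 (2 * j - t.1)) t).1 ≤ j then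
            ((pSrc (fun t : Fin (2 * j + 1) => min t.1 (2 * j - t.1)) t).1, false) else
            (2 * j - (pSrc (fun t : Fin (2 * j + 1) => min t.1 (2 * j - t.1)) t).1, true))
        rw [e1, if_pos (by omega : min t.1 (2 * j - t.1) - 1 ≤ j)]
        split_ifs with h
        · show (t.1 - 1, false) = _
          congr 1
          omega
        · show (2 * j - t.1 - 1, false) = _
          congr 1
          omega
      · show (diskG j).tgt (if t.1 ≤ j then (t.1, false) else (2 * j - t.1, true)) =
          (if (pTgt (fun t : Fin (2 * j + 1) => min t.1 (2 * j - t.1)) t).1 ≤ j then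
            ((pTgt (fun t : Fin (2 * j + 1) => min t.1 (2 * j - t.1)) t).1, false) else
            (2 * j - (pTgt (fun t : Fin (2 * j + 1) => min t.1 (2 * j - t.1)) t).1, true))
        rw [e2, if_neg (by omega : ¬ 2 * j - (min t.1 (2 * j - t.1) - 1) ≤ j)]
        split_ifs with h
        · show (t.1 - 1, true) = _
          congr 1
          omega
        · show (2 * j - t.1 - 1, true) = _
          congr 1
          omega
  · intro t
    have ht := t.2
    apply Fin.ext
    show (if (if t.1 ≤ j then (t.1, false) else (2 * j - t.1, true)).2 then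
      2 * j - (if t.1 ≤ j then (t.1, false) else (2 * j - t.1, true)).1 else
      min (if t.1 ≤ j then (t.1, false) else (2 * j - t.1, true)).1 (2 * j)) = t.1
    by_cases h : t.1 ≤ j
    · simp only [if_pos h]
      rw [if_neg (by simp)]
      omega
    · simp only [if_neg h]
      rw [if_pos trivial]
      omega
  · rintro ⟨i, ε⟩ hx
    have hx' : i < j ∨ (i = j ∧ ε = false) := hx
    cases ε with
    | false =>
      have hi : i ≤ j := by
        rcases hx' with h | h
        · omega
        · omega
      show (if min i (2 * j) ≤ j then (min i (2 * j), false) else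
        (2 * j - min i (2 * j), true)) = (i, false)
      rw [if_pos (by omega)]
      congr 1
      omega
    | true =>
      have hi : i < j := by
        rcases hx' with h | h
        · exact h
        · exact absurd h.2 (by simp)
      show (if 2 * j - i ≤ j then (2 * j - i, false) else
        (2 * j - (2 * j - i), true)) = (i, true)
      rw [if_neg (by omega)]
      congr 1
      omega

end HH
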