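import Pool.Agent.HH.PastCode
import Pool.Agent.HH.InsG

/-!
# HH stage 1b, module b3: insertion preserves pasting shapes
-/

set_option autoImplicit false

namespace HH

open Classical

/-- the linear order of the inserted shape: `(p, 0)` is `z p`, `(p, 1)` is `cyl p` and `(p, 2)` is
`top p` -/
abbrev InsT (A : PC) (n : ℕ) : Type :=
  {x : A.P ×ₗ Fin 3 // (ofLex x).2 = 0 ∨ A.h (ofLex x).1 = n}

namespace InsT

variable {A : PC} {n : ℕ}

def p (x : InsT A n) : A.P := (ofLex x.1).1
def i (x : InsT A n) : Fin 3 := (ofLex x.1).2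

/-- constructor -/
def mk (p : A.P) (i : Fin 3) (h : i = 0 ∨ A.h p = n) : InsT A n := ⟨toLex (p, i), h⟩

@[simp] theorem mk_p (p : A.P) (i : Fin 3) (h : i = 0 ∨ A.h p = n) : (mk p i h).p = p := rfl
@[simp] theorem mk_i (p : A.P) (i : Fin 3) (h : i = 0 ∨ A.h p = n) : (mk p i h).i = i := rfl

theorem prop (x : InsT A n) : x.i = 0 ∨ A.h x.p = n := x.2

theorem ext' {x y : InsT A n} (h1 : x.p = y.p) (h2 : x.i = y.i) : x = y := by
  apply Subtype.ext
  apply ofLex.injective
  exact Prod.ext h1 h2

theorem lt_iff {x y : InsT A n} : x < y ↔ x.p < y.p ∨ (x.p = y.p ∧ x.i < y.i) := by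
  rw [← Subtype.coe_lt_coe, Prod.Lex.lt_iff]
  rfl

theorem le_iff {x y : InsT A n} : x ≤ y ↔ x.p < y.p ∨ (x.p = y.p ∧ x.i ≤ y.i) := by
  rw [← Subtype.coe_le_coe, Prod.Lex.le_iff]
  rfl

/-- heights -/
def h (x : InsT A n) : ℕ := A.h x.p + (if x.i = 1 then 1 else 0)

theorem h_ge (x : InsT A n) : A.h x.p ≤ x.h := Nat.le_add_right _ _

theorem p_le_of_le {x y : InsT A n} (h : x ≤ y) : x.p ≤ y.p := by
  rcases le_iff.1 h with h | h
  · exact h.le
  · exact h.1.le

theorem past : Past (InsT A n) h where
  ne := by
    obtain ⟨p⟩ := A.past.ne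
    exact ⟨mk p 0 (Or.inl rfl)⟩
  step := by
    intro x y hxy
    obtain ⟨hlt, hno⟩ := hxy
    have hno' : ∀ z : InsT A n, x < z → ¬ z < y := fun z h1 h2 => hno h1 h2
    rcases lt_iff.1 hlt with hp | ⟨hp, hi⟩
    · -- different cells
      have hy0 : y.i = 0 := by
        by_contra hy
        refine hno' (mk y.p 0 (Or.inl rfl)) (lt_iff.2 (Or.inl hp)) (lt_iff.2 (Or.inr ⟨rfl, ?_⟩))
        exact Fin.pos_of_ne_zero hy
      have hcov : x.p ⋖ y.p := by
        refine ⟨hp, fun r h1 h2 => ?_⟩
        exact hno' (mk r 0 (Or.inl rfl)) (lt_iff.2 (Or.inl h1)) (lt_iff.2 (Or.inl h2))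
      have hx1 : x.i ≠ 1 := by
        intro hx
        have hn : A.h x.p = n := by
          rcases x.prop with h | h
          · rw [h] at hx
            exact absurd hx (by decide)
          · exact h
        refine hno' (mk x.p 2 (Or.inr hn)) (lt_iff.2 (Or.inr ⟨rfl, ?_⟩)) (lt_iff.2 (Or.inl hp))
        rw [hx]
        show (1 : Fin 3) < 2
        decide
      have hy1 : y.i ≠ 1 := by
        rw [hy0]
        decide
      show A.h x.p + (if x.i = 1 then 1 else 0) = A.h y.p + (if y.i = 1 then 1 else 0) + 1 ∨
        A.h y.p + (if y.i = 1 then 1 else 0) = A.h x.p + (if x.i = 1 then 1 else 0) + 1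
      rw [if_neg hx1, if_neg hy1]
      exact A.past.step _ _ hcov
    · -- the same cell
      have hyn : A.h y.p = n := by
        rcases y.prop with h | h
        · rw [h] at hi
          exact absurd hi (Fin.not_lt_zero _)
        · exact h
      show A.h x.p + (if x.i = 1 then 1 else 0) = A.h y.p + (if y.i = 1 then 1 else 0) + 1 ∨
        A.h y.p + (if y.i = 1 then 1 else 0) = A.h x.p + (if x.i = 1 then 1 else 0) + 1
      rw [hp]
      have hcase : (x.i = 0 ∧ y.i = 1) ∨ (x.i = 1 ∧ y.i = 2) := by
        have hne : ¬ (x.i = 0 ∧ y.i = 2) := by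
          rintro ⟨h1, h2⟩
          refine hno' (mk y.p 1 (Or.inr hyn)) (lt_iff.2 (Or.inr ⟨hp, ?_⟩))
            (lt_iff.2 (Or.inr ⟨rfl, ?_⟩))
          · rw [h1]
            show (0 : Fin 3) < 1
            decide
          · rw [h2]
            show (1 : Fin 3) < 2
            decide
        revert hi hne
        generalize x.i = a
        generalize y.i = b
        revert a b
        decide
      rcases hcase with ⟨h1, h2⟩ | ⟨h1, h2⟩
      · rw [h1, h2]
        right
        simp
      · rw [h1, h2]
        left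
        simp
  bot := by
    intro x hx
    have h0 : x.i = 0 := by
      by_contra h
      have h1 : mk x.p 0 (Or.inl rfl) < x := lt_iff.2 (Or.inr ⟨rfl, Fin.pos_of_ne_zero h⟩)
      exact absurd (hx h1.le) (not_le_of_gt h1)
    have hp : IsMin x.p := by
      intro q hq
      by_contra hcon
      have h1 : mk q 0 (Or.inl rfl) < x := lt_iff.2 (Or.inl (lt_of_not_ge hcon))
      exact absurd (hx h1.le) (not_le_of_gt h1)
    show A.h x.p + (if x.i = 1 then 1 else 0) = 0
    rw [A.past.bot _ hp, h0]
    rfl
  top := by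
    intro x hx
    have hp : IsMax x.p := by
      intro q hq
      by_contra hcon
      have h1 : x < mk q 0 (Or.inl rfl) := lt_iff.2 (Or.inl (lt_of_not_ge hcon))
      exact absurd (hx h1.le) (not_le_of_gt h1)
    have h1 : x.i ≠ 1 := by
      intro h
      have hn : A.h x.p = n := by
        rcases x.prop with h' | h'
        · rw [h'] at h
          exact absurd h (by decide)
        · exact h'
      have h1 : x < mk x.p 2 (Or.inr hn) := lt_iff.2 (Or.inr ⟨rfl, by
        rw [h]
        show (1 : Fin 3) < 2
        decide⟩)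
      exact absurd (hx h1.le) (not_le_of_gt h1)
    show A.h x.p + (if x.i = 1 then 1 else 0) = 0
    rw [A.past.top _ hp, if_neg h1]

/-- the underlying cell of the inserted globular set -/
def toCV (x : InsT A n) : CV A.P A.P :=
  if x.i = 0 then .z x.p else if x.i = 1 then .cyl x.p else .top x.p

/-- the inverse -/
noncomputable def ofCV (v : CV A.P A.P) : InsT A n :=
  match v with
  | .z p => mk p 0 (Or.inl rfl)
  | .cyl p => if h : A.h p = n then mk p 1 (Or.inr h) else mk p 0 (Or.inl rfl)
  | .top p => if h : A.h p = n then mk p 2 (Or.inr h) else mk p 0 (Or.inl rfl)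

theorem cases_i (x : InsT A n) : x = mk x.p 0 (Or.inl rfl) ∨
    (∃ h : A.h x.p = n, x = mk x.p 1 (Or.inr h)) ∨ ∃ h : A.h x.p = n, x = mk x.p 2 (Or.inr h) := by
  have h3 : x.i = 0 ∨ x.i = 1 ∨ x.i = 2 := by
    generalize x.i = a
    revert a
    decide
  rcases h3 with h | h | h
  · exact Or.inl (ext' rfl h)
  · right; left
    have hn : A.h x.p = n := by
      rcases x.prop with h' | h'
      · rw [h'] at h
        exact absurd h (by decide)
      · exact h'
    exact ⟨hn, ext' rfl h⟩
  · right; right
    have hn : A.h x.p = n := by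
      rcases x.prop with h' | h'
      · rw [h'] at h
        exact absurd h (by decide)
      · exact h'
    exact ⟨hn, ext' rfl h⟩

theorem cases_i' (x : InsT A n) : (∃ p, x = mk p 0 (Or.inl rfl)) ∨
    (∃ (p : A.P) (h : A.h p = n), x = mk p 1 (Or.inr h)) ∨
    ∃ (p : A.P) (h : A.h p = n), x = mk p 2 (Or.inr h) := by
  rcases cases_i x with hx | ⟨hn, hx⟩ | ⟨hn, hx⟩
  · exact Or.inl ⟨_, hx⟩
  · exact Or.inr (Or.inl ⟨_, hn, hx⟩)
  · exact Or.inr (Or.inr ⟨_, hn, hx⟩)

theorem mapAt (x : InsT A n) : MapAt (pastG (InsT A n) h) (insG A.G n) toCV x := by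
  have H := past (A := A) (n := n)
  rcases cases_i' x with ⟨p, rfl⟩ | ⟨p, hn, rfl⟩ | ⟨p, hn, rfl⟩
  · -- `z p`
    refine ⟨trivial, rfl, fun h0 => ?_⟩
    have h0' : 0 < A.h p := h0
    obtain ⟨s1, s2, s3⟩ := past_src_spec A.past h0'
    obtain ⟨t1, t2, t3⟩ := past_tgt_spec A.past h0'
    constructor
    · show (if A.h p = n + 1 then CV.top (pSrc A.h p) else .z (pSrc A.h p)) =
        toCV (pSrc h (mk p 0 (Or.inl rfl)))
      by_cases hpn : A.h p = n + 1
      · have hsn : A.h (pSrc A.h p) = n := by omega
        rw [if_pos hpn, past_src_unique H (t := mk p 0 (Or.inl rfl))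
          (s := mk (pSrc A.h p) 2 (Or.inr hsn)) (lt_iff.2 (Or.inl s1)) ?_ ?_]
        · rfl
        · show A.h (pSrc A.h p) + 0 + 1 = A.h p + 0
          omega
        · intro r hr1 hr2
          have hrp : pSrc A.h p < r.p := by
            rcases lt_iff.1 hr1 with h | ⟨-, h⟩
            · exact h
            · exfalso
              have h' : (2 : Fin 3) < r.i := h
              revert h'
              generalize r.i = a
              revert a
              decide
          have h4 := s3 r.p hrp (p_le_of_le hr2)
          have h5 := r.h_ge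
          show A.h p + 0 ≤ r.h
          omega
      · rw [if_neg hpn, past_src_unique H (t := mk p 0 (Or.inl rfl))
          (s := mk (pSrc A.h p) 0 (Or.inl rfl)) (lt_iff.2 (Or.inl s1)) ?_ ?_]
        · rfl
        · show A.h (pSrc A.h p) + 0 + 1 = A.h p + 0
          omega
        · intro r hr1 hr2
          have hrp : pSrc A.h p < r.p := by
            rcases lt_iff.1 hr1 with h | ⟨h', h⟩
            · exact h
            · exfalso
              have h'' : pSrc A.h p = r.p := h'
              have hr0 : r.i ≠ 0 := by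
                intro h0
                rw [h0] at h
                exact absurd h (by show ¬ ((0 : Fin 3) < 0); decide)
              have h6 := r.prop.resolve_left hr0
              rw [← h''] at h6
              omega
          have h4 := s3 r.p hrp (p_le_of_le hr2)
          have h5 := r.h_ge
          show A.h p + 0 ≤ r.h
          omega
    · show CV.z (pTgt A.h p) = toCV (pTgt h (mk p 0 (Or.inl rfl)))
      rw [past_tgt_unique H (t := mk p 0 (Or.inl rfl))
          (s := mk (pTgt A.h p) 0 (Or.inl rfl)) (lt_iff.2 (Or.inl t1)) ?_ ?_]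
      · rfl
      · show A.h (pTgt A.h p) + 0 + 1 = A.h p + 0
        omega
      · intro r hr1 hr2
        have hrp : r.p < pTgt A.h p := by
          rcases lt_iff.1 hr2 with h | ⟨h', h⟩
          · exact h
          · exact absurd h (Fin.not_lt_zero _)
        have h4 := t3 r.p (p_le_of_le hr1) hrp
        have h5 := r.h_ge
        show A.h p + 0 ≤ r.h
        omega
  · -- `cyl p`
    refine ⟨⟨trivial, hn⟩, rfl, fun h0 => ⟨?_, ?_⟩⟩
    · show CV.z p = toCV (pSrc h (mk p 1 (Or.inr hn)))
      rw [past_src_unique H (t := mk p 1 (Or.inr hn)) (s := mk p 0 (Or.inl rfl))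
        (lt_iff.2 (Or.inr ⟨rfl, by show (0 : Fin 3) < 1; decide⟩)) rfl ?_]
      · rfl
      · intro r hr1 hr2
        have hr : r = mk p 1 (Or.inr hn) := by
          have h1 : p ≤ r.p := p_le_of_le hr1.le
          have h2 : r.p ≤ p := p_le_of_le hr2
          have h3 : r.p = p := le_antisymm h2 h1
          refine ext' h3 ?_
          have h4 : (0 : Fin 3) < r.i := by
            rcases lt_iff.1 hr1 with h | ⟨-, h⟩
            · rw [h3] at h
              exact absurd h (lt_irrefl _)
            · exact h
          have h5 : r.i ≤ (1 : Fin 3) := by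
            rcases le_iff.1 hr2 with h | ⟨-, h⟩
            · rw [h3] at h
              exact absurd h (lt_irrefl _)
            · exact h
          show r.i = 1
          revert h4 h5
          generalize r.i = a
          revert a
          decide
        rw [hr]
    · show CV.top p = toCV (pTgt h (mk p 1 (Or.inr hn)))
      rw [past_tgt_unique H (t := mk p 1 (Or.inr hn)) (s := mk p 2 (Or.inr hn))
        (lt_iff.2 (Or.inr ⟨rfl, by show (1 : Fin 3) < 2; decide⟩)) rfl ?_]
      · rfl
      · intro r hr1 hr2
        have hr : r = mk p 1 (Or.inr hn) := by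
          have h1 : p ≤ r.p := p_le_of_le hr1
          have h2 : r.p ≤ p := p_le_of_le hr2.le
          have h3 : r.p = p := le_antisymm h2 h1
          refine ext' h3 ?_
          have h4 : (1 : Fin 3) ≤ r.i := by
            rcases le_iff.1 hr1 with h | ⟨-, h⟩
            · rw [h3] at h
              exact absurd h (lt_irrefl _)
            · exact h
          have h5 : r.i < (2 : Fin 3) := by
            rcases lt_iff.1 hr2 with h | ⟨-, h⟩
            · rw [h3] at h
              exact absurd h (lt_irrefl _)
            · exact h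
          show r.i = 1
          revert h4 h5
          generalize r.i = a
          revert a
          decide
        rw [hr]
  · -- `top p`
    refine ⟨⟨trivial, hn⟩, rfl, fun h0 => ?_⟩
    have h0' : 0 < A.h p := h0
    obtain ⟨s1, s2, s3⟩ := past_src_spec A.past h0'
    obtain ⟨t1, t2, t3⟩ := past_tgt_spec A.past h0'
    constructor
    · show CV.z (pSrc A.h p) = toCV (pSrc h (mk p 2 (Or.inr hn)))
      rw [past_src_unique H (t := mk p 2 (Or.inr hn))
          (s := mk (pSrc A.h p) 0 (Or.inl rfl)) (lt_iff.2 (Or.inl s1)) ?_ ?_]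
      · rfl
      · show A.h (pSrc A.h p) + 0 + 1 = A.h p + 0
        omega
      · intro r hr1 hr2
        have hrp : pSrc A.h p < r.p := by
          rcases lt_iff.1 hr1 with h | ⟨h', h⟩
          · exact h
          · exfalso
            have h'' : pSrc A.h p = r.p := h'
            have hr0 : r.i ≠ 0 := by
              intro h0
              rw [h0] at h
              exact absurd h (by show ¬ ((0 : Fin 3) < 0); decide)
            have h6 := r.prop.resolve_left hr0
            rw [← h''] at h6
            omega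
        have h4 := s3 r.p hrp (p_le_of_le hr2)
        have h5 := r.h_ge
        show A.h p + 0 ≤ r.h
        omega
    · show CV.z (pTgt A.h p) = toCV (pTgt h (mk p 2 (Or.inr hn)))
      rw [past_tgt_unique H (t := mk p 2 (Or.inr hn))
          (s := mk (pTgt A.h p) 0 (Or.inl rfl)) (lt_iff.2 (Or.inl t1)) ?_ ?_]
      · rfl
      · show A.h (pTgt A.h p) + 0 + 1 = A.h p + 0
        omega
      · intro r hr1 hr2
        have hrp : r.p < pTgt A.h p := by
          rcases lt_iff.1 hr2 with h | ⟨h', h⟩
          · exact h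
          · exact absurd h (Fin.not_lt_zero _)
        have h4 := t3 r.p (p_le_of_le hr1) hrp
        have h5 := r.h_ge
        show A.h p + 0 ≤ r.h
        omega

theorem ofCV_toCV (x : InsT A n) : ofCV (toCV x) = x := by
  rcases cases_i x with hx | ⟨hn, hx⟩ | ⟨hn, hx⟩
  · rw [hx]
    rfl
  · rw [hx]
    show (if h : A.h x.p = n then mk x.p 1 (Or.inr h) else mk x.p 0 (Or.inl rfl)) = _
    rw [dif_pos hn]
  · rw [hx]
    show (if h : A.h x.p = n then mk x.p 2 (Or.inr h) else mk x.p 0 (Or.inl rfl)) = _
    rw [dif_pos hn]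

theorem toCV_ofCV (v : CV A.P A.P) (hv : (insG A.G n).ok v) :
    toCV (ofCV (n := n) v) = v := by
  rcases v with p | p | p
  · rfl
  · have hn : A.h p = n := hv.2
    show toCV (if h : A.h p = n then mk p 2 (Or.inr h) else mk p 0 (Or.inl rfl)) = _
    rw [dif_pos hn]
    rfl
  · have hn : A.h p = n := hv.2
    show toCV (if h : A.h p = n then mk p 1 (Or.inr h) else mk p 0 (Or.inl rfl)) = _
    rw [dif_pos hn]
    rfl

end InsT

/-- insertion: the linear order of `insG` -/
theorem isPast_ins_code (A : PC) (n : ℕ) : IsPast (insG A.G n) :=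
  IsPast.of_past (InsT.past (A := A) (n := n)) (b := insG A.G n) InsT.toCV InsT.ofCV InsT.mapAt
    InsT.ofCV_toCV InsT.toCV_ofCV

theorem IsPast.ins {a : Glob} [a.Laws] (ha : IsPast a) (n : ℕ) : IsPast (insG a n) := by
  obtain ⟨A, f, g, hf, hg, hgf, hfg⟩ := ha
  refine IsPast.of_iso (isPast_ins_code A n) (CV.map f f) (CV.map g g)
    (insG_map (fun p _ => hf p) n) (insG_map hg n) ?_ ?_
  · rintro (p | p | p) hp
    · exact congrArg CV.z (hgf p)
    · exact congrArg CV.top (hgf p)
    · exact congrArg CV.cyl (hgf p)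
  · rintro (p | p | p) hp
    · exact congrArg CV.z (hfg p hp)
    · exact congrArg CV.top (hfg p hp.1)
    · exact congrArg CV.cyl (hfg p hp.1)

end HH
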