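import Pool.Agent.HH.PastLaws

/-!
# HH part 3, PI-6a: removal of a free face from a pasting shape
-/

set_option autoImplicit false

namespace HH

open Classical

variable {T : Type} [LinearOrder T] [Fintype T] {h : T → ℕ}

/-- a pasting shape without cells of positive dimension is a point -/
theorem Past.subsingleton (hp : Past T h) (h0 : ∀ t, h t = 0) : Subsingleton T := by
  refine ⟨fun a b => ?_⟩
  have key : ∀ a b : T, ¬ a < b := by
    intro a b hab
    obtain ⟨c, hc, _⟩ := exists_covBy_le_of_lt hab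
    rcases hp.step a c hc with h1 | h1 <;> rw [h0, h0] at h1 <;> omega
  exact le_antisymm (not_lt.1 (key b a)) (not_lt.1 (key a b))

private theorem pSrc_zero {T : Type} [LinearOrder T] [Fintype T] {h : T → ℕ} {t : T}
    (ht : h t = 0) : pSrc h t = t := by
  unfold pSrc
  rw [dif_neg]
  rintro ⟨s, hs⟩
  rw [Finset.mem_filter] at hs
  omega

private theorem pTgt_zero {T : Type} [LinearOrder T] [Fintype T] {h : T → ℕ} {t : T}
    (ht : h t = 0) : pTgt h t = t := by
  unfold pTgt
  rw [dif_neg]
  rintro ⟨s, hs⟩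
  rw [Finset.mem_filter] at hs
  omega

/-- The last cell `t` of maximal dimension and its target `t'` can be removed. -/
theorem Past.exists_red (hp : Past T h) (h0 : ∃ t, h t ≠ 0) :
    ∃ t t' : T, t' ≠ t ∧ pTgt h t = t' ∧ pSrc h t ≠ t ∧ pSrc h t ≠ t' ∧ 0 < h t ∧
      (∀ s, s ≠ t → 0 < h s → pTgt h s ≠ t' ∧ pTgt h s ≠ t) ∧
      (∀ s, 0 < h s → pSrc h s ≠ t' ∧ pSrc h s ≠ t) ∧
      Past {s : T // s ≠ t ∧ s ≠ t'} (fun s => h s.1) ∧
      (∀ s : {s : T // s ≠ t ∧ s ≠ t'},
        (pSrc (fun s : {s : T // s ≠ t ∧ s ≠ t'} => h s.1) s).1 = pSrc h s.1) ∧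
      ∀ s : {s : T // s ≠ t ∧ s ≠ t'},
        (pTgt (fun s : {s : T // s ≠ t ∧ s ≠ t'} => h s.1) s).1 = pTgt h s.1 := by
  -- the last cell of maximal height
  obtain ⟨t, hmax, hlast⟩ : ∃ t : T, (∀ s, h s ≤ h t) ∧ ∀ s, t < s → h s < h t := by
    obtain ⟨t0, -, ht0⟩ := Finset.exists_max_image (Finset.univ : Finset T) h
      (Finset.univ_nonempty_iff.2 hp.ne)
    have hne : (Finset.univ.filter (fun s => h s = h t0)).Nonempty :=
      ⟨t0, by rw [Finset.mem_filter]; exact ⟨Finset.mem_univ _, rfl⟩⟩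
    have hm := Finset.max'_mem _ hne
    set t := (Finset.univ.filter (fun s => h s = h t0)).max' hne with htd
    rw [Finset.mem_filter] at hm
    refine ⟨t, fun s => by rw [hm.2]; exact ht0 s (Finset.mem_univ s), fun s hs => ?_⟩
    rcases lt_or_eq_of_le (ht0 s (Finset.mem_univ s)) with h1 | h1
    · rw [hm.2]; exact h1
    · have h2 : s ≤ t := Finset.le_max' _ _ (by
        rw [Finset.mem_filter]; exact ⟨Finset.mem_univ _, h1⟩)
      exact absurd hs (not_lt.2 h2)
  have htpos : 0 < h t := by
    obtain ⟨s, hs⟩ := h0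
    have := hmax s
    omega
  have htnm : ¬ IsMax t := fun hc => by
    have := hp.top t hc
    omega
  obtain ⟨u, hu⟩ := not_isMax_iff.1 htnm
  obtain ⟨t', htt', -⟩ := exists_covBy_le_of_lt hu
  have ht' : h t' + 1 = h t := by
    have h1 := hlast t' htt'.lt
    rcases hp.step t t' htt' with h2 | h2 <;> omega
  have hle : ∀ s, s < t' → s ≤ t := fun s hs => not_lt.1 fun hc => htt'.2 hc hs
  have hge : ∀ s, t < s → t' ≤ s := fun s hs => not_lt.1 fun hc => htt'.2 hs hc
  have htgt : pTgt h t = t' := by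
    refine past_tgt_unique hp htt'.lt ht' fun r hr1 hr2 => ?_
    rw [le_antisymm (hle r hr2) hr1]
  obtain ⟨s1, s2, s3⟩ := past_src_spec hp htpos
  have hA : ∀ s, s ≠ t → 0 < h s → pTgt h s ≠ t' ∧ pTgt h s ≠ t := by
    intro s hs hs0
    obtain ⟨b1, b2, b3⟩ := past_tgt_spec hp hs0
    constructor
    · intro hc
      rw [hc] at b1 b2 b3
      have hst : s < t := lt_of_le_of_ne (hle s b1) hs
      obtain ⟨c, hc1, hc2⟩ := exists_covBy_le_of_lt hst
      have h1 := b3 c hc1.lt.le (hc2.trans_lt htt'.lt)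
      have h2 := hmax c
      rcases hp.step s c hc1 with h3 | h3 <;> omega
    · intro hc
      rw [hc] at b2
      have := hmax s
      omega
  have hBs : ∀ s, 0 < h s → pSrc h s ≠ t' ∧ pSrc h s ≠ t := by
    intro s hs0
    obtain ⟨b1, b2, b3⟩ := past_src_spec hp hs0
    constructor
    · intro hc
      rw [hc] at b1 b2
      have := hlast s (htt'.lt.trans b1)
      omega
    · intro hc
      rw [hc] at b2
      have := hmax s
      omega
  have hpast : Past {s : T // s ≠ t ∧ s ≠ t'} (fun s => h s.1) := by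
    refine ⟨⟨⟨pSrc h t, s1.ne, (s1.trans htt'.lt).ne⟩⟩, ?_, ?_, ?_⟩
    · intro a b hab
      show h a.1 = h b.1 + 1 ∨ h b.1 = h a.1 + 1
      have hlt : a.1 < b.1 := hab.lt
      by_cases hcov : ∃ c : T, a.1 < c ∧ c < b.1
      · obtain ⟨c, hc1, hc2⟩ := hcov
        have hcc : c = t ∨ c = t' := by
          by_contra hc
          rw [not_or] at hc
          exact hab.2 (c := ⟨c, hc⟩) hc1 hc2
        have hat : a.1 < t := by
          rcases hcc with rfl | rfl
          · exact hc1
          · exact lt_of_le_of_ne (hle _ hc1) a.2.1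
        have htb : t' < b.1 := by
          rcases hcc with rfl | rfl
          · exact lt_of_le_of_ne (hge _ hc2) b.2.2.symm
          · exact hc2
        have ca : a.1 ⋖ t := by
          refine ⟨hat, fun d hd1 hd2 => ?_⟩
          exact hab.2 (c := ⟨d, hd2.ne, (hd2.trans htt'.lt).ne⟩) hd1
            (hd2.trans (htt'.lt.trans htb))
        have cb : t' ⋖ b.1 := by
          refine ⟨htb, fun d hd1 hd2 => ?_⟩
          exact hab.2 (c := ⟨d, (htt'.lt.trans hd1).ne', hd1.ne'⟩)
            (hat.trans (htt'.lt.trans hd1)) hd2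
        have h1 := hmax a.1
        have h2 := hlast b.1 (htt'.lt.trans htb)
        rcases hp.step _ _ ca with h3 | h3 <;> rcases hp.step _ _ cb with h4 | h4 <;> omega
      · refine hp.step a.1 b.1 ⟨hlt, fun c hc1 hc2 => hcov ⟨c, hc1, hc2⟩⟩
    · intro a ha
      refine hp.bot a.1 ?_
      by_contra hc
      obtain ⟨c, hc⟩ := not_isMin_iff.1 hc
      have hcc : c = t ∨ c = t' := by
        by_contra hcc
        rw [not_or] at hcc
        exact (ha.not_lt (b := ⟨c, hcc⟩)) hc
      have h1 : t ≤ c := by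
        rcases hcc with rfl | rfl
        · exact le_rfl
        · exact htt'.lt.le
      exact (ha.not_lt (b := ⟨pSrc h t, s1.ne, (s1.trans htt'.lt).ne⟩))
        (s1.trans_le (h1.trans hc.le))
    · intro a ha
      show h a.1 = 0
      by_cases ham : IsMax a.1
      · exact hp.top a.1 ham
      obtain ⟨c, hc⟩ := not_isMax_iff.1 ham
      have hall : ∀ c, a.1 < c → c = t ∨ c = t' := by
        intro c hc
        by_contra hcc
        rw [not_or] at hcc
        exact (ha.not_lt (b := ⟨c, hcc⟩)) hc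
      have hat' : a.1 < t' := by
        rcases hall c hc with rfl | rfl
        · exact hc.trans htt'.lt
        · exact hc
      have hat : a.1 < t := lt_of_le_of_ne (hle _ hat') a.2.1
      have htm : IsMax t' := by
        by_contra hcm
        obtain ⟨d, hd⟩ := not_isMax_iff.1 hcm
        rcases hall d (hat'.trans hd) with rfl | rfl
        · exact absurd hd (not_lt.2 htt'.lt.le)
        · exact absurd hd (lt_irrefl _)
      have h1 := hp.top _ htm
      have ca : a.1 ⋖ t := by
        refine ⟨hat, fun d hd1 hd2 => ?_⟩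
        rcases hall d hd1 with rfl | rfl
        · exact absurd hd2 (lt_irrefl _)
        · exact absurd hd2 (not_lt.2 htt'.lt.le)
      have h2 := hmax a.1
      rcases hp.step _ _ ca with h3 | h3 <;> omega
  refine ⟨t, t', htt'.lt.ne', htgt, s1.ne, (s1.trans htt'.lt).ne, htpos, hA, hBs, hpast, ?_, ?_⟩
  · intro s
    rcases Nat.eq_zero_or_pos (h s.1) with hs | hs
    · rw [pSrc_zero hs]
      exact congrArg Subtype.val
        (pSrc_zero (h := fun s : {s : T // s ≠ t ∧ s ≠ t'} => h s.1) (t := s) hs)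
    · obtain ⟨b1, b2, b3⟩ := past_src_spec hp hs
      have hb := hBs s.1 hs
      have := past_src_unique hpast (t := s) (s := ⟨pSrc h s.1, hb.2, hb.1⟩) b1 b2
        (fun r hr1 hr2 => b3 r.1 hr1 hr2)
      exact congrArg Subtype.val this
  · intro s
    rcases Nat.eq_zero_or_pos (h s.1) with hs | hs
    · rw [pTgt_zero hs]
      exact congrArg Subtype.val
        (pTgt_zero (h := fun s : {s : T // s ≠ t ∧ s ≠ t'} => h s.1) (t := s) hs)
    · obtain ⟨b1, b2, b3⟩ := past_tgt_spec hp hs
      have hb := hA s.1 s.2.1 hs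
      have := past_tgt_unique hpast (t := s) (s := ⟨pTgt h s.1, hb.2, hb.1⟩) b1 b2
        (fun r hr1 hr2 => b3 r.1 hr1 hr2)
      exact congrArg Subtype.val this

end HH
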