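import Pool.Agent.HH.PiDk

/-!
# HH part 3, PI-9: the disks `Dk j` and the disks of Mathlib
-/

set_option autoImplicit false

namespace HH

open CategoryTheory TopCat

theorem norm_toLp_le_one {n : ℕ} (x : Fin n → ℝ) :
    ‖(WithLp.toLp 2 x : EuclideanSpace ℝ (Fin n))‖ ≤ 1 ↔ ∑ i, x i ^ 2 ≤ 1 := by
  rw [EuclideanSpace.norm_eq, Real.sqrt_le_one]
  simp only [Real.norm_eq_abs, sq_abs]

theorem norm_toLp_eq_one {n : ℕ} (x : Fin n → ℝ) :
    ‖(WithLp.toLp 2 x : EuclideanSpace ℝ (Fin n))‖ = 1 ↔ ∑ i, x i ^ 2 = 1 := by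
  rw [EuclideanSpace.norm_eq, Real.sqrt_eq_one]
  simp only [Real.norm_eq_abs, sq_abs]

/-- the disk as a closed ball of the Euclidean space -/
noncomputable def Dk.toBall (j : ℕ) :
    Dk j ≃ₜ Metric.closedBall (0 : EuclideanSpace ℝ (Fin j)) 1 where
  toFun x := ⟨WithLp.toLp 2 x.1, by
    rw [mem_closedBall_zero_iff, norm_toLp_le_one]
    exact x.2⟩
  invFun y := ⟨WithLp.ofLp y.1, by
    have := y.2
    rw [mem_closedBall_zero_iff] at this
    exact (norm_toLp_le_one _).1 this⟩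
  left_inv _ := rfl
  right_inv _ := rfl
  continuous_toFun := Continuous.subtype_mk
    ((PiLp.continuous_toLp 2 (fun _ : Fin j => ℝ)).comp Dk.continuous_val) _
  continuous_invFun := Continuous.subtype_mk
    ((PiLp.continuous_ofLp 2 (fun _ : Fin j => ℝ)).comp continuous_subtype_val) _

theorem Dk.toBall_val {j : ℕ} (x : Dk j) (i : Fin j) : (Dk.toBall j x).1 i = x.1 i := rfl

theorem Dk.norm_toBall {j : ℕ} (x : Dk j) : ‖(Dk.toBall j x).1‖ = 1 ↔ x.sq = 1 :=
  norm_toLp_eq_one _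

/-- the sphere as a sphere of the Euclidean space -/
noncomputable def Sph.toSphere (j : ℕ) :
    Sph j ≃ₜ Metric.sphere (0 : EuclideanSpace ℝ (Fin (j + 1))) 1 where
  toFun x := ⟨WithLp.toLp 2 x.1, by
    rw [mem_sphere_zero_iff_norm, norm_toLp_eq_one]
    exact x.2⟩
  invFun y := ⟨WithLp.ofLp y.1, by
    have := y.2
    rw [mem_sphere_zero_iff_norm] at this
    exact (norm_toLp_eq_one _).1 this⟩
  left_inv _ := rfl
  right_inv _ := rfl
  continuous_toFun := Continuous.subtype_mk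
    ((PiLp.continuous_toLp 2 (fun _ : Fin (j + 1) => ℝ)).comp continuous_subtype_val) _
  continuous_invFun := Continuous.subtype_mk
    ((PiLp.continuous_ofLp 2 (fun _ : Fin (j + 1) => ℝ)).comp continuous_subtype_val) _

theorem Sph.toSphere_val {j : ℕ} (x : Sph j) (i : Fin (j + 1)) :
    (Sph.toSphere j x).1 i = x.1 i := rfl

/-- the disk and the disk of Mathlib -/
noncomputable def Dk.iso (j : ℕ) : TopCat.of (Dk j) ≅ disk.{0} j :=
  TopCat.isoOfHomeo ((Dk.toBall j).trans Homeomorph.ulift.symm)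

/-- the sphere and the boundary of the disk of Mathlib -/
noncomputable def Sph.iso (j : ℕ) : TopCat.of (Sph j) ≅ diskBoundary.{0} (j + 1) :=
  TopCat.isoOfHomeo ((Sph.toSphere j).trans Homeomorph.ulift.symm)

theorem Sph.iso_inc (j : ℕ) : (Sph.iso j).hom ≫ diskBoundaryInclusion (j + 1) =
    TopCat.ofHom (Sph.inc j) ≫ (Dk.iso (j + 1)).hom := by
  ext x
  rfl

/-- the boundary of the disk of dimension `0` is empty -/
theorem isEmpty_diskBoundary_zero : IsEmpty (diskBoundary.{0} 0) := by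
  refine ⟨fun x => ?_⟩
  have h1 : ‖(x.down).1‖ = 1 := mem_sphere_zero_iff_norm.1 x.down.2
  have h2 : (x.down).1 = 0 := Subsingleton.elim _ _
  rw [h2, norm_zero] at h1
  exact zero_ne_one h1

/-- the disk of dimension `0` is a point -/
theorem nonempty_unique_disk_zero : Nonempty (Unique (disk.{0} 0)) := by
  refine ⟨⟨⟨ULift.up ⟨0, by simp⟩⟩, fun x => ?_⟩⟩
  apply ULift.ext
  exact Subtype.ext (Subsingleton.elim _ _)

end HH
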