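import Pool.Agent.HH.PiW
import Pool.Agent.HH.PiEuc

/-!
# HH part 3, W-1: strong relative lifting and the path fibration
-/

set_option autoImplicit false

namespace HH

open CategoryTheory

variable {X Y : Type} [TopologicalSpace X] [TopologicalSpace Y]

/-- the norm -/
noncomputable def Dk.nrm {j : ℕ} (x : Dk j) : ℝ := √ x.sq

theorem Dk.continuous_nrm {j : ℕ} : Continuous fun x : Dk j => x.nrm :=
  Dk.continuous_sq.sqrt

theorem Dk.nrm_nonneg {j : ℕ} (x : Dk j) : 0 ≤ x.nrm := Real.sqrt_nonneg _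

theorem Dk.nrm_sq {j : ℕ} (x : Dk j) : x.nrm ^ 2 = x.sq := Real.sq_sqrt x.sq_nonneg'

theorem Dk.nrm_le_one {j : ℕ} (x : Dk j) : x.nrm ≤ 1 := by
  have h1 := x.nrm_sq
  have h2 := x.sq_le_one'
  have h3 := x.nrm_nonneg
  nlinarith

theorem Dk.nrm_eq_one {j : ℕ} (x : Dk j) : x.nrm = 1 ↔ x.sq = 1 := by
  have h1 := x.nrm_sq
  have h3 := x.nrm_nonneg
  constructor
  · intro h
    rw [← h1, h]
    norm_num
  · intro h
    rw [h] at h1
    nlinarith

/-- the scaling factor -/
noncomputable def colL {j : ℕ} (p : Dk j × unitInterval) : ℝ :=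
  (1 - p.2.1) / max p.1.nrm (1 / 2) + p.2.1

theorem continuous_colL {j : ℕ} : Continuous (colL (j := j)) := by
  unfold colL
  refine Continuous.add (Continuous.div ?_ ?_ fun p => ?_) ?_
  · exact continuous_const.sub (continuous_subtype_val.comp continuous_snd)
  · exact (Dk.continuous_nrm.comp continuous_fst).max continuous_const
  · have : (1 / 2 : ℝ) ≤ max p.1.nrm (1 / 2) := le_max_right _ _
    intro h
    rw [h] at this
    norm_num at this
  · exact continuous_subtype_val.comp continuous_snd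

theorem colL_bd {j : ℕ} (p : Dk j × unitInterval) : 0 ≤ colL p ∧ colL p * p.1.nrm ≤ 1 := by
  have h0 := p.2.2.1
  have h1 := p.2.2.2
  have h2 : (1 / 2 : ℝ) ≤ max p.1.nrm (1 / 2) := le_max_right _ _
  have h3 : p.1.nrm ≤ max p.1.nrm (1 / 2) := le_max_left _ _
  have h4 : 0 < max p.1.nrm (1 / 2) := by linarith
  have h5 := p.1.nrm_nonneg
  have h6 := p.1.nrm_le_one
  unfold colL
  refine ⟨add_nonneg (div_nonneg (by linarith) h4.le) h0, ?_⟩
  have h7 : p.1.nrm / max p.1.nrm (1 / 2) ≤ 1 := (div_le_one h4).2 h3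
  have h8 : ((1 - p.2.1) / max p.1.nrm (1 / 2) + p.2.1) * p.1.nrm =
      (1 - p.2.1) * (p.1.nrm / max p.1.nrm (1 / 2)) + p.2.1 * p.1.nrm := by ring
  rw [h8]
  have h9 : (1 - p.2.1) * (p.1.nrm / max p.1.nrm (1 / 2)) ≤ (1 - p.2.1) * 1 :=
    mul_le_mul_of_nonneg_left h7 (by linarith)
  have h10 : p.2.1 * p.1.nrm ≤ p.2.1 * 1 := mul_le_mul_of_nonneg_left h6 h0
  linarith

/-- The collar: `(x, u) ↦ λ x` with `λ = (1 - u) / max |x| 1/2 + u`. -/
noncomputable def colX (j : ℕ) : C(Dk j × unitInterval, Dk j) :=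
  ⟨fun p => ⟨fun i => colL p * p.1.1 i, by
      have h1 : ∑ i, (colL p * p.1.1 i) ^ 2 = (colL p * p.1.nrm) ^ 2 := by
        rw [mul_pow, p.1.nrm_sq]
        unfold Dk.sq
        rw [Finset.mul_sum]
        exact Finset.sum_congr rfl fun i _ => mul_pow _ _ _
      rw [h1]
      obtain ⟨h2, h3⟩ := colL_bd p
      have h4 : 0 ≤ colL p * p.1.nrm := mul_nonneg h2 p.1.nrm_nonneg
      nlinarith⟩,
    Continuous.subtype_mk (f := fun (p : Dk j × unitInterval) (i : Fin j) => colL p * p.1.1 i)
      (continuous_pi fun i => continuous_colL.mul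
      ((continuous_apply i).comp (Dk.continuous_val.comp continuous_fst))) _⟩

theorem colX_val {j : ℕ} (p : Dk j × unitInterval) (i : Fin j) :
    (colX j p).1 i = colL p * p.1.1 i := rfl

theorem sq_colX {j : ℕ} (p : Dk j × unitInterval) : (colX j p).sq = (colL p * p.1.nrm) ^ 2 := by
  rw [mul_pow, p.1.nrm_sq]
  unfold Dk.sq
  rw [Finset.mul_sum]
  exact Finset.sum_congr rfl fun i _ => mul_pow _ _ _

theorem colX_one {j : ℕ} (x : Dk j) : colX j (x, 1) = x := by
  refine Subtype.ext (funext fun i => ?_)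
  rw [colX_val]
  simp [colL]

theorem colX_bd {j : ℕ} (x : Dk j) (h : x.sq = 1) (u : unitInterval) : colX j (x, u) = x := by
  refine Subtype.ext (funext fun i => ?_)
  rw [colX_val]
  have h1 : x.nrm = 1 := x.nrm_eq_one.2 h
  have h2 : colL (x, u) = 1 := by
    unfold colL
    simp only [h1]
    norm_num
  rw [h2, one_mul]

theorem sq_colX_zero {j : ℕ} (x : Dk j) (h : 1 / 2 ≤ x.nrm) : (colX j (x, 0)).sq = 1 := by
  rw [sq_colX]
  have h1 : colL (x, 0) * x.nrm = 1 := by
    unfold colL
    simp only [max_eq_left h]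
    have : x.nrm ≠ 0 := by
      intro h0
      rw [h0] at h
      norm_num at h
    show ((1 - (0 : ℝ)) / x.nrm + 0) * x.nrm = 1
    field_simp
    ring
  rw [h1]
  norm_num

/-- the time parameter of the collar -/
noncomputable def colT {j : ℕ} (p : Dk j × unitInterval) : ℝ :=
  (1 - p.2.1) * max 0 (2 * p.1.nrm - 1) + 2 * p.2.1

theorem continuous_colT {j : ℕ} : Continuous (colT (j := j)) := by
  unfold colT
  have h1 : Continuous fun p : Dk j × unitInterval => p.2.1 :=
    continuous_subtype_val.comp continuous_snd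
  have h2 : Continuous fun p : Dk j × unitInterval => p.1.nrm :=
    Dk.continuous_nrm.comp continuous_fst
  exact ((continuous_const.sub h1).mul (continuous_const.max
    ((continuous_const.mul h2).sub continuous_const))).add (continuous_const.mul h1)

/-- Strong relative lifting: the homotopy on the boundary is prescribed. -/
theorem RelW.strong {f : C(X, Y)} (hf : RelW f) {j : ℕ} (a : C(Sph j, X))
    (b : C(Dk (j + 1), Y)) (h : C(Sph j × unitInterval, Y)) (h0 : ∀ z, h (z, 0) = f (a z))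
    (h1 : ∀ z, h (z, 1) = b (Sph.inc j z)) :
    ∃ (c : C(Dk (j + 1), X)) (K : C(Dk (j + 1) × unitInterval, Y)),
      (∀ z, c (Sph.inc j z) = a z) ∧ (∀ x, K (x, 0) = f (c x)) ∧ (∀ x, K (x, 1) = b x) ∧
        ∀ z u, K (Sph.inc j z, u) = h (z, u) := by
  -- the collar homotopy
  obtain ⟨B, hB0, hB1⟩ := exists_hep b
    (h.comp ⟨fun p => (p.1, unitInterval.symm p.2), by fun_prop⟩) (fun z => by
      show h (z, unitInterval.symm 0) = _
      rw [unitInterval.symm_zero]
      exact h1 z)
  have hB1' : ∀ z u, B (Sph.inc j z, u) = h (z, unitInterval.symm u) := hB1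
  let b' : C(Dk (j + 1), Y) := B.comp ⟨fun x => (x, 1), by fun_prop⟩
  have hb' : ∀ z, f (a z) = b' (Sph.inc j z) := by
    intro z
    show _ = B (Sph.inc j z, 1)
    rw [hB1', unitInterval.symm_one, h0]
  obtain ⟨c0, hc0, ⟨H⟩⟩ := hf.succ j a b' hb'
  have hH : ∀ x : Dk (j + 1), x.sq = 1 → ∀ u, H (u, x) = f (c0 x) := fun x hx u =>
    H.eq_fst u hx
  -- the concatenation
  let G : Dk (j + 1) × ℝ → Y := fun p => if p.2 ≤ 1 then H (Set.projIcc 0 1 zero_le_one p.2, p.1)
    else B (p.1, Set.projIcc 0 1 zero_le_one (2 - p.2))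
  have hG : Continuous G := by
    refine Continuous.if_le ?_ ?_ continuous_snd continuous_const ?_
    · exact H.continuous.comp ((continuous_projIcc.comp continuous_snd).prodMk continuous_fst)
    · exact B.continuous.comp (continuous_fst.prodMk
        (continuous_projIcc.comp (continuous_const.sub continuous_snd)))
    · intro p hp
      rw [hp]
      have e1 : Set.projIcc (0 : ℝ) 1 zero_le_one 1 = 1 := Set.projIcc_right _
      have e2 : Set.projIcc (0 : ℝ) 1 zero_le_one (2 - 1) = 1 := by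
        norm_num
      rw [e1, e2]
      exact H.apply_one p.1
  refine ⟨c0.comp ((colX (j + 1)).comp ⟨fun x => (x, 0), by fun_prop⟩),
    ⟨fun p => G (colX (j + 1) p, colT p), hG.comp ((colX (j + 1)).continuous.prodMk
      continuous_colT)⟩, fun z => ?_, fun x => ?_, fun x => ?_, fun z u => ?_⟩
  · show c0 (colX (j + 1) (Sph.inc j z, 0)) = a z
    rw [colX_bd _ (Sph.sq_inc z), hc0]
  · show G (colX (j + 1) (x, 0), colT (x, 0)) = f (c0 (colX (j + 1) (x, 0)))
    have e1 : colT (x, 0) = max 0 (2 * x.nrm - 1) := by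
      unfold colT
      simp
    have e2 : colT (x, 0) ≤ 1 := by
      rw [e1]
      exact max_le zero_le_one (by linarith [x.nrm_le_one])
    have e3 : G (colX (j + 1) (x, 0), colT (x, 0)) =
        H (Set.projIcc 0 1 zero_le_one (colT (x, 0)), colX (j + 1) (x, 0)) := if_pos e2
    rw [e3]
    by_cases hx : 1 / 2 ≤ x.nrm
    · exact hH _ (sq_colX_zero x hx) _
    · have e4 : colT (x, 0) = 0 := by
        rw [e1]
        exact max_eq_left (by linarith [not_le.1 hx])
      have e5 : Set.projIcc (0 : ℝ) 1 zero_le_one 0 = 0 := Set.projIcc_left _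
      rw [e4, e5]
      exact H.apply_zero _
  · show G (colX (j + 1) (x, 1), colT (x, 1)) = b x
    have e1 : colT (x, 1) = 2 := by
      unfold colT
      simp
    have e2 : G (colX (j + 1) (x, 1), colT (x, 1)) =
        B (colX (j + 1) (x, 1), Set.projIcc 0 1 zero_le_one (2 - colT (x, 1))) :=
      if_neg (by rw [e1]; norm_num)
    have e5 : Set.projIcc (0 : ℝ) 1 zero_le_one (2 - 2) = 0 := by
      rw [sub_self]
      exact Set.projIcc_left _
    rw [e2, colX_one, e1, e5, hB0]
  · show G (colX (j + 1) (Sph.inc j z, u), colT (Sph.inc j z, u)) = h (z, u)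
    rw [colX_bd _ (Sph.sq_inc z)]
    have e0 : (Sph.inc j z).nrm = 1 := (Dk.nrm_eq_one _).2 (Sph.sq_inc z)
    have e1 : colT (Sph.inc j z, u) = 1 + u.1 := by
      unfold colT
      simp only [e0]
      norm_num
      ring
    rw [e1]
    by_cases hu : u.1 = 0
    · have hu' : u = 0 := Subtype.ext hu
      have e2 : G (Sph.inc j z, 1 + u.1) =
          H (Set.projIcc 0 1 zero_le_one (1 + u.1), Sph.inc j z) :=
        if_pos (by rw [hu]; norm_num)
      rw [e2, hH _ (Sph.sq_inc z), hc0, hu', h0]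
    · have hu1 : 0 < u.1 := lt_of_le_of_ne u.2.1 (Ne.symm hu)
      have e2 : G (Sph.inc j z, 1 + u.1) =
          B (Sph.inc j z, Set.projIcc 0 1 zero_le_one (2 - (1 + u.1))) :=
        if_neg (by
          show ¬ (1 + u.1 ≤ 1)
          linarith)
      have e3 : Set.projIcc (0 : ℝ) 1 zero_le_one (2 - (1 + u.1)) = unitInterval.symm u := by
        have e4 : (2 : ℝ) - (1 + u.1) = (unitInterval.symm u).1 := by
          rw [unitInterval.coe_symm_eq]
          ring
        rw [e4]
        exact Set.projIcc_val _ _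
      rw [e2, e3, hB1', unitInterval.symm_symm]

/-- The path fibration of a map. -/
def PathFib (f : C(X, Y)) : Type := {q : X × C(unitInterval, Y) // q.2 0 = f q.1}

instance (f : C(X, Y)) : TopologicalSpace (PathFib f) :=
  inferInstanceAs (TopologicalSpace {q : X × C(unitInterval, Y) // q.2 0 = f q.1})

/-- the end of the path -/
def PathFib.proj (f : C(X, Y)) : C(PathFib f, Y) :=
  ⟨fun q => q.1.2 1, (ContinuousEvalConst.continuous_eval_const 1).comp
    (continuous_snd.comp continuous_subtype_val)⟩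

/-- the base point of the path -/
def PathFib.base (f : C(X, Y)) : C(PathFib f, X) :=
  ⟨fun q => q.1.1, continuous_fst.comp continuous_subtype_val⟩

theorem PathFib.rlp_sph {f : C(X, Y)} (hf : RelW f) {j : ℕ} (a : C(Sph j, PathFib f))
    (b : C(Dk (j + 1), Y)) (h : ∀ z, PathFib.proj f (a z) = b (Sph.inc j z)) :
    ∃ c : C(Dk (j + 1), PathFib f), (∀ z, c (Sph.inc j z) = a z) ∧
      ∀ x, PathFib.proj f (c x) = b x := by
  let g : C(Sph j, C(unitInterval, Y)) := ⟨fun z => (a z).1.2,
    continuous_snd.comp (continuous_subtype_val.comp a.continuous)⟩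
  obtain ⟨c, K, h1, h2, h3, h4⟩ := hf.strong ((PathFib.base f).comp a) b g.uncurry
    (fun z => (a z).2) h
  refine ⟨⟨fun x => ⟨(c x, K.curry x), h2 x⟩, Continuous.subtype_mk
    (c.continuous.prodMk K.curry.continuous) _⟩, fun z => ?_, fun x => h3 x⟩
  refine Subtype.ext (Prod.ext (h1 z) ?_)
  ext u
  exact h4 z u

theorem PathFib.surj {f : C(X, Y)} (hf : RelW f) (y : Y) : ∃ q, PathFib.proj f q = y := by
  obtain ⟨x, ⟨γ⟩⟩ := hf.zero y
  exact ⟨⟨(x, γ.toContinuousMap), γ.source⟩, γ.target⟩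

/-- the lifting property against the disks of Mathlib -/
theorem PathFib.hasLiftingProperty {f : C(X, Y)} (hf : RelW f) (n : ℕ) :
    HasLiftingProperty (TopCat.diskBoundaryInclusion.{0} n)
      (TopCat.ofHom (PathFib.proj f)) := by
  rcases n with _ | j
  · obtain ⟨u⟩ := nonempty_unique_disk_zero
    have he := isEmpty_diskBoundary_zero
    refine ⟨fun {φ ψ} sq => ?_⟩
    obtain ⟨q, hq⟩ := PathFib.surj hf (ψ.hom u.default)
    refine ⟨⟨⟨TopCat.ofHom (ContinuousMap.const _ q), ?_, ?_⟩⟩⟩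
    · ext x
      exact he.elim x
    · ext x
      rw [u.uniq x]
      exact hq
  · refine ⟨fun {φ ψ} sq => ?_⟩
    obtain ⟨c, h1, h2⟩ := PathFib.rlp_sph hf ((Sph.iso j).hom ≫ φ).hom
      ((Dk.iso (j + 1)).hom ≫ ψ).hom (by
        intro z
        have e1 : ((Sph.iso j).hom ≫ φ) ≫ TopCat.ofHom (PathFib.proj f) =
            TopCat.ofHom (Sph.inc j) ≫ (Dk.iso (j + 1)).hom ≫ ψ := by
          rw [Category.assoc, sq.w, ← Category.assoc, Sph.iso_inc, Category.assoc]
        exact ConcreteCategory.congr_hom e1 z)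
    refine ⟨⟨⟨(Dk.iso (j + 1)).inv ≫ TopCat.ofHom c, ?_, ?_⟩⟩⟩
    · rw [← cancel_epi (Sph.iso j).hom, ← Category.assoc, ← Category.assoc, Sph.iso_inc,
        Category.assoc, Category.assoc, Iso.hom_inv_id_assoc]
      ext z
      exact h1 z
    · rw [← cancel_epi (Dk.iso (j + 1)).hom, Category.assoc, Iso.hom_inv_id_assoc]
      ext x
      exact h2 x

end HH
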