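import Pool.Agent.HH.PiDefs

/-!
# HH part 3, PI-1: basic facts on disks and hemispheres
-/

set_option autoImplicit false

namespace HH

namespace Dk

variable {j : ℕ}

theorem isClosed_dk (j : ℕ) : IsClosed {x : Fin j → ℝ | ∑ i, x i ^ 2 ≤ 1} :=
  isClosed_le (continuous_finset_sum _ fun i _ => (continuous_apply i).pow 2) continuous_const

theorem abs_le_one_of_sum {n : ℕ} {x : Fin n → ℝ} (h : ∑ i, x i ^ 2 ≤ 1) (i : Fin n) :
    |x i| ≤ 1 := by
  have h1 : x i ^ 2 ≤ ∑ i, x i ^ 2 :=
    Finset.single_le_sum (f := fun i => x i ^ 2) (fun i _ => sq_nonneg _) (Finset.mem_univ i)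
  exact (sq_le_one_iff_abs_le_one _).1 (h1.trans h)

theorem isCompact_dk (j : ℕ) : IsCompact {x : Fin j → ℝ | ∑ i, x i ^ 2 ≤ 1} := by
  refine (isCompact_univ_pi fun _ : Fin j => isCompact_Icc (a := (-1 : ℝ)) (b := 1)).of_isClosed_subset
    (isClosed_dk j) fun x hx i _ => ?_
  exact abs_le.1 (abs_le_one_of_sum hx i)

instance (j : ℕ) : CompactSpace (Dk j) :=
  isCompact_iff_compactSpace.1 (isCompact_dk j)

instance (j : ℕ) : T2Space (Dk j) :=
  inferInstanceAs (T2Space {x : Fin j → ℝ // ∑ i, x i ^ 2 ≤ 1})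

instance : Unique (Dk 0) where
  default := ⟨0, by simp⟩
  uniq x := Subtype.ext (Subsingleton.elim _ _)

theorem sq_zero (x : Dk 0) : x.sq = 0 := by simp [sq]

theorem init_seg (x : Dk j) (c : J1) : (x.seg c).init = x := by
  refine Subtype.ext (funext fun i => ?_)
  simp [init, seg]

theorem last_seg (x : Dk j) (c : J1) : (x.seg c).last = c.1 * x.hgt := by
  simp [last, seg]

theorem ext' {x y : Dk (j + 1)} (h : x.init = y.init) (h' : x.last = y.last) : x = y := by
  refine Subtype.ext (funext fun i => ?_)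
  refine Fin.lastCases h' (fun i => ?_) i
  exact congrFun (congrArg Subtype.val h) i

theorem sq_succ (x : Dk (j + 1)) : x.sq = x.init.sq + x.last ^ 2 := by
  unfold sq init last
  rw [Fin.sum_univ_castSucc]

theorem abs_last_le (x : Dk (j + 1)) : |x.last| ≤ x.init.hgt := by
  refine Real.abs_le_sqrt ?_
  have h1 := x.sq_succ
  have h2 := x.sq_le_one'
  linarith

/-- every point lies on the vertical segment above its first coordinates -/
theorem exists_seg (x : Dk (j + 1)) : ∃ c, x.init.seg c = x := by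
  have h := x.abs_last_le
  by_cases h0 : x.init.hgt = 0
  · rw [h0] at h
    have h1 : x.last = 0 := abs_nonpos_iff.1 h
    refine ⟨⟨0, by norm_num⟩, ext' (init_seg _ _) ?_⟩
    rw [last_seg, h0, h1, mul_zero]
  · have hp : 0 < x.init.hgt := lt_of_le_of_ne x.init.hgt_nonneg (Ne.symm h0)
    refine ⟨⟨x.last / x.init.hgt, ?_⟩, ext' (init_seg _ _) ?_⟩
    · rw [Set.mem_Icc, le_div_iff₀ hp, div_le_iff₀ hp]
      have := abs_le.1 h
      constructor <;> linarith
    · rw [last_seg]
      exact div_mul_cancel₀ _ h0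

theorem hgt_eq_zero_iff (x : Dk j) : x.hgt = 0 ↔ x.sq = 1 := by
  unfold hgt
  rw [Real.sqrt_eq_zero (by linarith [x.sq_le_one'])]
  constructor <;> intro h <;> linarith

theorem sq_seg (x : Dk j) (c : J1) : (x.seg c).sq = x.sq + c.1 ^ 2 * (1 - x.sq) := by
  rw [sq_succ, init_seg, last_seg, mul_pow, hgt_sq]

/-- the vertical segment above a boundary point is a point -/
theorem seg_eq_of_sq (x : Dk j) (h : x.sq = 1) (c c' : J1) : x.seg c = x.seg c' := by
  refine ext' (by rw [init_seg, init_seg]) ?_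
  rw [last_seg, last_seg, (hgt_eq_zero_iff x).2 h, mul_zero, mul_zero]

theorem seg_inj (x : Dk j) (h : x.sq ≠ 1) {c c' : J1} (hc : x.seg c = x.seg c') : c = c' := by
  have h1 := congrArg last hc
  rw [last_seg, last_seg] at h1
  exact Subtype.ext (mul_right_cancel₀ (fun h2 => h ((hgt_eq_zero_iff x).1 h2)) h1)

theorem sg_apply (b : Bool) (x : Dk j) : sg b j x = x.seg (sgn b) := rfl

theorem init_sg (b : Bool) (x : Dk j) : (sg b j x).init = x := init_seg _ _

theorem sg_injective (b : Bool) (j : ℕ) : Function.Injective (sg b j) := by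
  intro x y h
  rw [← init_sg b x, h, init_sg]

theorem sgn_sq (b : Bool) : (sgn b).1 ^ 2 = 1 := by
  cases b <;> simp [sgn]

theorem sq_sg (b : Bool) (x : Dk j) : (sg b j x).sq = 1 := by
  rw [sg_apply, sq_seg, sgn_sq]
  ring

/-- the globular identities -/
theorem sg_sg (b c c' : Bool) (x : Dk j) :
    sg c (j + 1) (sg b j x) = sg c' (j + 1) (sg b j x) :=
  seg_eq_of_sq _ (sq_sg b x) _ _

theorem last_sg (b : Bool) (x : Dk j) : (sg b j x).last = (sgn b).1 * x.hgt := last_seg _ _

/-- the boundary is covered by the hemispheres -/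
theorem exists_sg_of_sq (x : Dk (j + 1)) (h : x.sq = 1) : ∃ b, sg b j x.init = x := by
  have h1 : x.last ^ 2 = x.init.hgt ^ 2 := by
    rw [hgt_sq]
    linarith [x.sq_succ]
  rcases sq_eq_sq_iff_eq_or_eq_neg.1 h1 with h2 | h2
  · refine ⟨true, ext' (init_sg _ _) ?_⟩
    rw [last_sg, h2]
    simp [sgn]
  · refine ⟨false, ext' (init_sg _ _) ?_⟩
    rw [last_sg, h2]
    simp [sgn]

/-- the two hemispheres only meet above the boundary -/
theorem sq_of_sg_eq (x : Dk j) (h : sg false j x = sg true j x) : x.sq = 1 := by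
  by_contra h0
  have h1 := seg_inj x h0 h
  have h2 := congrArg Subtype.val h1
  simp only [sgn] at h2
  norm_num at h2

/-- the disk is a quotient of the cylinder -/
theorem isQuotientMap_seg (j : ℕ) :
    Topology.IsQuotientMap (fun p : Dk j × J1 => p.1.seg p.2) := by
  refine (continuous_seg.isClosedMap).isQuotientMap continuous_seg fun x => ?_
  obtain ⟨c, hc⟩ := exists_seg x
  exact ⟨(x.init, c), hc⟩

theorem cast_rfl (x : Dk j) : Dk.cast rfl x = x := rfl

theorem sgE_rfl (b : Bool) (x : Dk j) : sgE b rfl x = sg b j x := rfl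

theorem sgE_sq (b : Bool) {i j : ℕ} (h : i + 1 = j) (x : Dk i) : (sgE b h x).sq = 1 := by
  subst h
  exact sq_sg b x

theorem sgE_sgE (b c c' : Bool) {i j k : ℕ} (h : i + 1 = j) (h' : j + 1 = k) (x : Dk i) :
    sgE c h' (sgE b h x) = sgE c' h' (sgE b h x) := by
  subst h
  subst h'
  exact sg_sg b c c' x

theorem exists_sgE_of_sq {i : ℕ} (h : i + 1 = j) (x : Dk j) (hx : x.sq = 1) :
    ∃ b y, sgE b h y = x := by
  subst h
  obtain ⟨b, hb⟩ := exists_sg_of_sq x hx
  exact ⟨b, x.init, hb⟩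

/-- all points of the boundary of a disk have positive dimension -/
theorem pos_of_sq (x : Dk j) (hx : x.sq = 1) : 0 < j := by
  rcases j with _ | j
  · rw [sq_zero] at hx
    norm_num at hx
  · omega

end Dk

namespace Sph

variable {j : ℕ}

theorem isClosed_sph (j : ℕ) : IsClosed {x : Fin (j + 1) → ℝ | ∑ i, x i ^ 2 = 1} :=
  isClosed_eq (continuous_finset_sum _ fun i _ => (continuous_apply i).pow 2) continuous_const

instance (j : ℕ) : CompactSpace (Sph j) :=
  isCompact_iff_compactSpace.1 ((Dk.isCompact_dk (j + 1)).of_isClosed_subset (isClosed_sph j)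
    fun _ hx => le_of_eq hx)

instance (j : ℕ) : T2Space (Sph j) :=
  inferInstanceAs (T2Space {x : Fin (j + 1) → ℝ // ∑ i, x i ^ 2 = 1})

theorem inc_injective (j : ℕ) : Function.Injective (Sph.inc j) := by
  intro x y h
  have h' : (Sph.inc j x).1 = (Sph.inc j y).1 := by rw [h]
  exact Subtype.ext h'

theorem sq_inc (x : Sph j) : (Sph.inc j x).sq = 1 := x.2

theorem exists_inc (x : Dk (j + 1)) (h : x.sq = 1) : ∃ y, Sph.inc j y = x := ⟨⟨x.1, h⟩, rfl⟩

/-- the hemispheres of the sphere -/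
noncomputable def hs (b : Bool) (j : ℕ) : C(Dk j, Sph j) :=
  ⟨fun x => ⟨(sg b j x).1, Dk.sq_sg b x⟩,
    Continuous.subtype_mk (Dk.continuous_val.comp (sg b j).continuous) _⟩

theorem inc_hs (b : Bool) (x : Dk j) : Sph.inc j (hs b j x) = sg b j x := rfl

theorem exists_hs (x : Sph j) : ∃ b y, hs b j y = x := by
  obtain ⟨b, hb⟩ := Dk.exists_sg_of_sq (Sph.inc j x) (sq_inc x)
  exact ⟨b, _, inc_injective j hb⟩

instance (j : ℕ) : Nonempty (Sph j) := ⟨hs true j ⟨0, by simp⟩⟩

end Sph

end HH
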