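import Pool.Agent.HH.PiSph
import Pool.Agent.HH.PiPol

/-!
# HH part 3, PI-4: the globular set of disks in a space
-/

set_option autoImplicit false

namespace HH

variable {Y Z : Type} [TopologicalSpace Y] [TopologicalSpace Z]

instance PiG_laws (Y : Type) [TopologicalSpace Y] : (PiG Y).Laws where
  ok_src := fun _ _ _ => trivial
  ok_tgt := fun _ _ _ => trivial
  dim_src := by
    rintro ⟨_ | j, f⟩ _ h
    · exact absurd h (lt_irrefl 0)
    · rfl
  dim_tgt := by
    rintro ⟨_ | j, f⟩ _ h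
    · exact absurd h (lt_irrefl 0)
    · rfl
  src_tgt := by
    rintro ⟨_ | _ | j, f⟩ _ h
    · exact absurd h (by show ¬ (1 < 0); omega)
    · exact absurd h (lt_irrefl 1)
    · show (⟨j, (f.comp (tau (j + 1))).comp (sig j)⟩ : (PiG Y).C) =
        ⟨j, (f.comp (sig (j + 1))).comp (sig j)⟩
      congr 1
      ext x
      exact congrArg f (Dk.sg_sg false true false x)
  tgt_src := by
    rintro ⟨_ | _ | j, f⟩ _ h
    · exact absurd h (by show ¬ (1 < 0); omega)
    · exact absurd h (lt_irrefl 1)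
    · show (⟨j, (f.comp (sig (j + 1))).comp (tau j)⟩ : (PiG Y).C) =
        ⟨j, (f.comp (tau (j + 1))).comp (tau j)⟩
      congr 1
      ext x
      exact congrArg f (Dk.sg_sg true false true x)

namespace PiG

theorem eq_mk (c : (PiG Y).C) {k : ℕ} (h : c.1 = k) : c = ⟨k, fn c h⟩ := by
  subst h
  rfl

theorem fn_rfl (c : (PiG Y).C) : fn c rfl = c.2 := rfl

theorem fn_mk {k : ℕ} (f : C(Dk k, Y)) : fn (⟨k, f⟩ : (PiG Y).C) rfl = f := rfl

theorem mk_inj {k : ℕ} {f g : C(Dk k, Y)} (h : (⟨k, f⟩ : (PiG Y).C) = ⟨k, g⟩) : f = g := by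
  cases h
  rfl

theorem ext_fn {c c' : (PiG Y).C} {k : ℕ} (h : c.1 = k) (h' : c'.1 = k)
    (e : fn c h = fn c' h') : c = c' := by
  rw [eq_mk c h, eq_mk c' h', e]

theorem st_mk (b : Bool) {k : ℕ} (f : C(Dk (k + 1), Y)) :
    (PiG Y).st b ⟨k + 1, f⟩ = ⟨k, f.comp (sg b k)⟩ := by
  cases b <;> rfl

theorem st_eq (b : Bool) (c : (PiG Y).C) {i : ℕ} (h : i + 1 = c.1) :
    (PiG Y).st b c = ⟨i, c.2.comp (sgE b h)⟩ := by
  obtain ⟨k, f⟩ := c
  change i + 1 = k at h
  subst h
  exact st_mk b f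

theorem st_fn (b : Bool) (c : (PiG Y).C) {i k : ℕ} (h : i + 1 = k) (hc : c.1 = k) :
    (PiG Y).st b c = ⟨i, (fn c hc).comp (sgE b h)⟩ := by
  subst hc
  exact st_eq b c h

theorem map_mapAt (f : C(Y, Z)) (c : (PiG Y).C) : MapAt (PiG Y) (PiG Z) (map f) c := by
  obtain ⟨_ | j, g⟩ := c
  · exact ⟨trivial, rfl, fun h => absurd h (lt_irrefl 0)⟩
  · exact ⟨trivial, rfl, fun _ => ⟨rfl, rfl⟩⟩

theorem map_id (c : (PiG Y).C) : map (ContinuousMap.id Y) c = c := rfl

theorem map_comp {W : Type} [TopologicalSpace W] (f : C(Y, Z)) (g : C(Z, W)) (c : (PiG Y).C) :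
    map (g.comp f) c = map g (map f c) := rfl

/-- parallel cells -/
theorem par_iff {k : ℕ} (f g : C(Dk k, Y)) : (PiG Y).Par ⟨k, f⟩ ⟨k, g⟩ ↔ ParC f g := by
  cases k with
  | zero => exact ⟨fun _ => parC_zero f g, fun _ => ⟨trivial, trivial, rfl, fun h =>
      absurd h (lt_irrefl 0)⟩⟩
  | succ k =>
    rw [parC_succ]
    constructor
    · rintro ⟨-, -, -, h⟩ b
      obtain ⟨h1, h2⟩ := h (Nat.succ_pos k)
      cases b
      · exact mk_inj (Y := Y) h1
      · exact mk_inj (Y := Y) h2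
    · intro h
      refine ⟨trivial, trivial, rfl, fun _ => ⟨?_, ?_⟩⟩
      · show (⟨k, f.comp (sig k)⟩ : (PiG Y).C) = ⟨k, g.comp (sig k)⟩
        rw [h false]
      · show (⟨k, f.comp (tau k)⟩ : (PiG Y).C) = ⟨k, g.comp (tau k)⟩
        rw [h true]

/-- connected cells -/
theorem conn_iff {k : ℕ} (f g : C(Dk k, Y)) : (PiG Y).Conn ⟨k, f⟩ ⟨k, g⟩ ↔
    ∃ G : C(Dk (k + 1), Y), G.comp (sig k) = f ∧ G.comp (tau k) = g := by
  constructor
  · rintro ⟨⟨m, G⟩, -, hm, h1, h2⟩
    change m = k + 1 at hm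
    subst hm
    exact ⟨G, mk_inj (Y := Y) h1, mk_inj (Y := Y) h2⟩
  · rintro ⟨G, rfl, rfl⟩
    exact ⟨⟨k + 1, G⟩, trivial, rfl, rfl, rfl⟩

/-- connected cells are homotopic relatively to the boundary -/
theorem conn_iff_homotopicRel {k : ℕ} (f g : C(Dk k, Y)) :
    (PiG Y).Conn ⟨k, f⟩ ⟨k, g⟩ ↔ f.HomotopicRel g {x | x.sq = 1} := by
  rw [conn_iff]
  constructor
  · rintro ⟨G, rfl, rfl⟩
    have hc : Continuous fun p : unitInterval × Dk k =>
        (p.2, (⟨2 * p.1.1 - 1, by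
          have h := p.1.2
          rw [Set.mem_Icc] at h
          constructor <;> linarith⟩ : J1)) := by
      refine continuous_snd.prodMk (Continuous.subtype_mk ?_ _)
      exact (continuous_const.mul (continuous_subtype_val.comp continuous_fst)).sub
        continuous_const
    refine ⟨⟨⟨⟨fun p => G (p.2.seg ⟨2 * p.1.1 - 1, ?_⟩), ?_⟩, ?_, ?_⟩, ?_⟩⟩
    · have h := p.1.2
      rw [Set.mem_Icc] at h
      constructor <;> linarith
    · exact G.continuous.comp (Dk.continuous_seg.comp hc)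
    · intro x
      refine congrArg G (congrArg x.seg (Subtype.ext ?_))
      show 2 * (0 : ℝ) - 1 = -1
      norm_num
    · intro x
      refine congrArg G (congrArg x.seg (Subtype.ext ?_))
      show 2 * (1 : ℝ) - 1 = 1
      norm_num
    · intro t x hx
      exact congrArg G (Dk.seg_eq_of_sq x hx _ _)
  · rintro ⟨H⟩
    let sc : C(Dk k × J1, Dk (k + 1)) := ⟨fun p => p.1.seg p.2, Dk.continuous_seg⟩
    have hsc : Topology.IsQuotientMap sc := Dk.isQuotientMap_seg k
    have hmem : ∀ c : J1, (c.1 + 1) / 2 ∈ unitInterval := by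
      intro c
      have h := c.2
      rw [Set.mem_Icc] at h
      constructor <;> linarith
    have hc : Continuous fun p : Dk k × J1 => H (⟨(p.2.1 + 1) / 2, hmem p.2⟩, p.1) := by
      refine H.continuous.comp (Continuous.prodMk (Continuous.subtype_mk ?_ _) continuous_fst)
      exact ((continuous_subtype_val.comp continuous_snd).add continuous_const).div_const 2
    have hfac : Function.FactorsThrough
        (⟨fun p : Dk k × J1 => H (⟨(p.2.1 + 1) / 2, hmem p.2⟩, p.1), hc⟩ : C(Dk k × J1, Y)) sc := by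
      rintro ⟨x, c⟩ ⟨x', c'⟩ h
      have h1 : x.seg c = x'.seg c' := h
      have h2 : x = x' := by
        have := congrArg Dk.init h1
        rwa [Dk.init_seg, Dk.init_seg] at this
      subst h2
      by_cases hx : x.sq = 1
      · show H _ = H _
        rw [H.eq_fst _ hx, H.eq_fst _ hx]
      · have h3 := Dk.seg_inj x hx h1
        subst h3
        rfl
    have hl : ∀ (x : Dk k) (c : J1), hsc.lift _ hfac (x.seg c) =
        H (⟨(c.1 + 1) / 2, hmem c⟩, x) := by
      intro x c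
      exact DFunLike.congr_fun (hsc.lift_comp _ hfac) (x, c)
    refine ⟨hsc.lift _ hfac, ?_, ?_⟩
    · ext x
      show hsc.lift _ hfac (x.seg (sgn false)) = f x
      rw [hl]
      have e : (⟨((sgn false).1 + 1) / 2, hmem (sgn false)⟩ : unitInterval) = 0 :=
        Subtype.ext (by show ((-1 : ℝ) + 1) / 2 = 0; norm_num)
      rw [e]
      exact H.apply_zero x
    · ext x
      show hsc.lift _ hfac (x.seg (sgn true)) = g x
      rw [hl]
      have e : (⟨((sgn true).1 + 1) / 2, hmem (sgn true)⟩ : unitInterval) = 1 :=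
        Subtype.ext (by show ((1 : ℝ) + 1) / 2 = 1; norm_num)
      rw [e]
      exact H.apply_one x

/-- if maps from spheres extend then parallel cells are connected -/
theorem mContr (h : ∀ (j : ℕ) (F : C(Sph j, Y)), ∃ G : C(Dk (j + 1), Y), G.comp (Sph.inc j) = F)
    (L : ℕ) : (PiG Y).MContr L := by
  rintro ⟨k, f⟩ ⟨k', g⟩ hp _
  have hk : k = k' := hp.2.2.1
  subst hk
  obtain ⟨F, hF1, hF2⟩ := exists_glue ((par_iff f g).1 hp)
  obtain ⟨G, hG⟩ := h k F
  refine (conn_iff f g).2 ⟨G, ?_, ?_⟩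
  · rw [← hF1, ← hG]
    rfl
  · rw [← hF2, ← hG]
    rfl

theorem mContr_of_contractible [ContractibleSpace Y] (L : ℕ) : (PiG Y).MContr L :=
  mContr (fun _ F => exists_extend_of_contractible F) L

/-- the two cells form the boundary of a cell iff their sphere extends -/
theorem conn_iff_sph {k : ℕ} (F : C(Sph k, Y)) :
    (PiG Y).Conn ⟨k, F.comp (Sph.hs false k)⟩ ⟨k, F.comp (Sph.hs true k)⟩ ↔
      ∃ G : C(Dk (k + 1), Y), G.comp (Sph.inc k) = F := by
  rw [conn_iff]
  constructor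
  · rintro ⟨G, h1, h2⟩
    refine ⟨G, glue_uniq fun b => ?_⟩
    cases b
    · exact h1
    · exact h2
  · rintro ⟨G, rfl⟩
    exact ⟨G, rfl, rfl⟩

end PiG

end HH
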