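import Pool.Agent.HH.PiW

/-!
# HH part 3, W-3: homotopic maps and the fundamental groupoid
-/

set_option autoImplicit false

namespace HH

open CategoryTheory

/-- the projection of the cylinder lifts disks -/
theorem relW_fst (A : Type) [TopologicalSpace A] :
    RelW (⟨Prod.fst, continuous_fst⟩ : C(A × unitInterval, A)) where
  zero y := ⟨(y, 0), Joined.refl y⟩
  succ j a b hab := by
    have hI : ContractibleSpace unitInterval :=
      (convex_Icc (0 : ℝ) 1).contractibleSpace ⟨0, by simp⟩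
    obtain ⟨g, hg⟩ := exists_extend_of_contractible
      ((⟨Prod.snd, continuous_snd⟩ : C(A × unitInterval, unitInterval)).comp a)
    refine ⟨b.prodMk g, fun z => ?_, ?_⟩
    · refine Prod.ext ?_ ?_
      · exact (hab z).symm
      · exact DFunLike.congr_fun hg z
    · have : (⟨Prod.fst, continuous_fst⟩ : C(A × unitInterval, A)).comp (b.prodMk g) = b := by
        ext x
        rfl
      rw [this]
      exact ContinuousMap.HomotopicRel.refl _

/-- the projection of the cylinder -/
def cylP (A : TopCat.{0}) : TopCat.of (A × unitInterval) ⟶ A :=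
  TopCat.ofHom ⟨Prod.fst, continuous_fst⟩

/-- the ends of the cylinder -/
def cylI (A : TopCat.{0}) (u : unitInterval) : A ⟶ TopCat.of (A × unitInterval) :=
  TopCat.ofHom ⟨fun a => (a, u), by fun_prop⟩

theorem cylI_cylP (A : TopCat.{0}) (u : unitInterval) : cylI A u ≫ cylP A = 𝟙 A := rfl

theorem isW_cylP (A : TopCat.{0}) : RMod.IsW (PiF.map (cylP A)) := (isW_iff _).2 (relW_fst A)

/-- a homotopy as a map from the cylinder -/
theorem exists_cyl_of_homotopic {X Y : TopCat.{0}} {f g : X ⟶ Y} (h : f.hom.Homotopic g.hom) :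
    ∃ H : TopCat.of (X × unitInterval) ⟶ Y, cylI X 0 ≫ H = f ∧ cylI X 1 ≫ H = g := by
  obtain ⟨H⟩ := h
  refine ⟨TopCat.ofHom ⟨fun p => H (p.2, p.1), by fun_prop⟩, ?_, ?_⟩
  · ext x
    exact H.apply_zero x
  · ext x
    exact H.apply_one x

section

variable [(RMod.W Cs).HasTwoOutOfThreeProperty] [(RMod.W Cs).ContainsIdentities]

theorem isW_cylI (A : TopCat.{0}) (u : unitInterval) : RMod.IsW (PiF.map (cylI A u)) := by
  have h1 : (RMod.W Cs) (PiF.map (cylI A u) ≫ PiF.map (cylP A)) := by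
    rw [← PiF.map_comp, cylI_cylP, PiF.map_id]
    exact (RMod.W Cs).id_mem _
  exact (RMod.W Cs).of_postcomp _ _ (show (RMod.W Cs) _ from isW_cylP A) h1

theorem isW_iff_of_homotopic {X Y : TopCat.{0}} {f g : X ⟶ Y} (h : f.hom.Homotopic g.hom) :
    RMod.IsW (PiF.map f) ↔ RMod.IsW (PiF.map g) := by
  obtain ⟨H, hf, hg⟩ := exists_cyl_of_homotopic h
  have key : ∀ (u : unitInterval) (k : X ⟶ Y), cylI X u ≫ H = k →
      (RMod.IsW (PiF.map k) ↔ RMod.IsW (PiF.map H)) := by
    intro u k hk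
    rw [← hk, PiF.map_comp]
    exact ⟨fun h => (RMod.W Cs).of_precomp _ _ (show (RMod.W Cs) _ from isW_cylI X u) h,
      fun h => (RMod.W Cs).comp_mem _ _ (isW_cylI X u) h⟩
  rw [key 0 f hf, key 1 g hg]

end

/-- homotopic maps have equal images in the localisation -/
theorem Q_map_of_homotopic {X Y : TopCat.{0}} {f g : X ⟶ Y} (h : f.hom.Homotopic g.hom) :
    (RMod.W Cs).Q.map (PiF.map f) = (RMod.W Cs).Q.map (PiF.map g) := by
  obtain ⟨H, hf, hg⟩ := exists_cyl_of_homotopic h
  have hI : IsIso ((RMod.W Cs).Q.map (PiF.map (cylP X))) := (RMod.W Cs).Q_inverts _ (isW_cylP X)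
  have h1 : ∀ u, (RMod.W Cs).Q.map (PiF.map (cylI X u)) =
      inv ((RMod.W Cs).Q.map (PiF.map (cylP X))) := by
    intro u
    rw [← cancel_mono ((RMod.W Cs).Q.map (PiF.map (cylP X))), IsIso.inv_hom_id,
      ← Functor.map_comp, ← PiF.map_comp, cylI_cylP, PiF.map_id, CategoryTheory.Functor.map_id]
  rw [← hf, ← hg, PiF.map_comp, PiF.map_comp, Functor.map_comp, Functor.map_comp, h1 0, h1 1]

end HH
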