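import Pool.Agent.HH.PiDk

/-!
# HH part 3, PI-2: parallel pairs of disks and spheres
-/

set_option autoImplicit false

namespace HH

/-- parallel maps on a disk -/
def ParC {j : ℕ} {Y : Type*} [TopologicalSpace Y] (f g : C(Dk j, Y)) : Prop :=
  ∀ x : Dk j, x.sq = 1 → f x = g x

variable {j : ℕ} {Y : Type*} [TopologicalSpace Y]

theorem parC_zero (f g : C(Dk 0, Y)) : ParC f g := by
  intro x hx
  rw [Dk.sq_zero] at hx
  exact absurd hx zero_ne_one

theorem parC_succ (f g : C(Dk (j + 1), Y)) :
    ParC f g ↔ ∀ b, f.comp (sg b j) = g.comp (sg b j) := by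
  constructor
  · intro h b
    ext x
    exact h _ (Dk.sq_sg b x)
  · intro h x hx
    obtain ⟨b, hb⟩ := Dk.exists_sg_of_sq x hx
    have h1 := DFunLike.congr_fun (h b) x.init
    rw [ContinuousMap.comp_apply, ContinuousMap.comp_apply, hb] at h1
    exact h1

/-- The first coordinates of a point of the sphere. -/
private def spInit (j : ℕ) (s : Sph j) : Dk j := (Sph.inc j s).init

/-- The last coordinate of a point of the sphere. -/
private def spLast (j : ℕ) (s : Sph j) : ℝ := (Sph.inc j s).last

private theorem continuous_spInit (j : ℕ) : Continuous (spInit j) :=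
  Dk.continuous_init.comp (Sph.inc j).continuous

private theorem continuous_spLast (j : ℕ) : Continuous (spLast j) :=
  Dk.continuous_last.comp (Sph.inc j).continuous

private theorem spInit_hs (b : Bool) (x : Dk j) : spInit j (Sph.hs b j x) = x := by
  unfold spInit
  rw [Sph.inc_hs, Dk.init_sg]

private theorem spLast_hs (b : Bool) (x : Dk j) :
    spLast j (Sph.hs b j x) = (sgn b).1 * x.hgt := by
  unfold spLast
  rw [Sph.inc_hs, Dk.sg_apply, Dk.last_seg]

private theorem sq_spInit {s : Sph j} (h : spLast j s = 0) : (spInit j s).sq = 1 := by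
  have h1 := Dk.sq_succ (Sph.inc j s)
  rw [Sph.sq_inc] at h1
  unfold spLast at h
  rw [h] at h1
  unfold spInit
  linarith

/-- parallel maps glue to a map on the sphere -/
theorem exists_glue {f g : C(Dk j, Y)} (h : ParC f g) :
    ∃ F : C(Sph j, Y), F.comp (Sph.hs false j) = f ∧ F.comp (Sph.hs true j) = g := by
  classical
  have hc : Continuous fun s : Sph j =>
      if spLast j s ≤ 0 then f (spInit j s) else g (spInit j s) := by
    refine Continuous.if_le (f.continuous.comp (continuous_spInit j))
      (g.continuous.comp (continuous_spInit j)) (continuous_spLast j) continuous_const ?_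
    intro s hs
    exact h _ (sq_spInit hs)
  refine ⟨⟨_, hc⟩, ?_, ?_⟩
  · ext x
    show (if spLast j (Sph.hs false j x) ≤ 0 then f (spInit j (Sph.hs false j x)) else
      g (spInit j (Sph.hs false j x))) = f x
    rw [spInit_hs, spLast_hs, if_pos]
    have h1 := x.hgt_nonneg
    show -1 * x.hgt ≤ 0
    linarith
  · ext x
    show (if spLast j (Sph.hs true j x) ≤ 0 then f (spInit j (Sph.hs true j x)) else
      g (spInit j (Sph.hs true j x))) = g x
    rw [spInit_hs, spLast_hs]
    have h2 : (sgn true).1 * x.hgt = x.hgt := one_mul _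
    rw [h2]
    split_ifs with h3
    · exact h x ((Dk.hgt_eq_zero_iff x).1 (le_antisymm h3 x.hgt_nonneg))
    · rfl

theorem glue_uniq {F F' : C(Sph j, Y)} (h : ∀ b, F.comp (Sph.hs b j) = F'.comp (Sph.hs b j)) :
    F = F' := by
  ext x
  obtain ⟨b, y, rfl⟩ := Sph.exists_hs x
  exact DFunLike.congr_fun (h b) y

theorem parC_of_sph (F : C(Sph j, Y)) :
    ParC (F.comp (Sph.hs false j)) (F.comp (Sph.hs true j)) := by
  intro x hx
  have h1 : Sph.hs false j x = Sph.hs true j x := by
    apply Sph.inc_injective j
    rw [Sph.inc_hs, Sph.inc_hs, Dk.sg_apply, Dk.sg_apply]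
    exact Dk.seg_eq_of_sq x hx _ _
  rw [ContinuousMap.comp_apply, ContinuousMap.comp_apply, h1]

/-- homotopies of parallel maps glue to a homotopy on the sphere -/
theorem exists_glue_homotopy {f g : C(Dk j × unitInterval, Y)}
    (h : ∀ x : Dk j, x.sq = 1 → ∀ u, f (x, u) = g (x, u)) :
    ∃ F : C(Sph j × unitInterval, Y), (∀ x u, F (Sph.hs false j x, u) = f (x, u)) ∧
      ∀ x u, F (Sph.hs true j x, u) = g (x, u) := by
  classical
  have hi : Continuous fun s : Sph j × unitInterval => (spInit j s.1, s.2) :=
    ((continuous_spInit j).comp continuous_fst).prodMk continuous_snd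
  have hc : Continuous fun s : Sph j × unitInterval =>
      if spLast j s.1 ≤ 0 then f (spInit j s.1, s.2) else g (spInit j s.1, s.2) := by
    refine Continuous.if_le (f.continuous.comp hi) (g.continuous.comp hi)
      ((continuous_spLast j).comp continuous_fst) continuous_const ?_
    intro s hs
    exact h _ (sq_spInit hs) _
  refine ⟨⟨_, hc⟩, ?_, ?_⟩
  · intro x u
    show (if spLast j (Sph.hs false j x) ≤ 0 then f (spInit j (Sph.hs false j x), u) else
      g (spInit j (Sph.hs false j x), u)) = f (x, u)
    rw [spInit_hs, spLast_hs, if_pos]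
    have h1 := x.hgt_nonneg
    show -1 * x.hgt ≤ 0
    linarith
  · intro x u
    show (if spLast j (Sph.hs true j x) ≤ 0 then f (spInit j (Sph.hs true j x), u) else
      g (spInit j (Sph.hs true j x), u)) = g (x, u)
    rw [spInit_hs, spLast_hs]
    have h2 : (sgn true).1 * x.hgt = x.hgt := one_mul _
    rw [h2]
    split_ifs with h3
    · exact h x ((Dk.hgt_eq_zero_iff x).1 (le_antisymm h3 x.hgt_nonneg)) u
    · rfl

end HH
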