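import Pool.Agent.HH.PiF

/-!
# HH part 3, PI-8: weak equivalences of spaces and of their fundamental groupoids
-/

set_option autoImplicit false

namespace HH

open CategoryTheory

/-- `f` lifts disks relatively to their boundary, up to homotopy relative to the boundary. -/
structure RelW {X Y : Type} [TopologicalSpace X] [TopologicalSpace Y] (f : C(X, Y)) : Prop where
  zero : ∀ y : Y, ∃ x : X, Joined (f x) y
  succ : ∀ (j : ℕ) (a : C(Sph j, X)) (b : C(Dk (j + 1), Y)), (∀ z, f (a z) = b (Sph.inc j z)) →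
    ∃ c : C(Dk (j + 1), X), (∀ z, c (Sph.inc j z) = a z) ∧
      (f.comp c).HomotopicRel b {x | x.sq = 1}

namespace PiG

variable {X Y : Type} [TopologicalSpace X] [TopologicalSpace Y]

/-- the zero-cell of a point -/
def pt (x : X) : (PiG X).C := ⟨0, ContinuousMap.const _ x⟩

theorem eq_pt (c : (PiG X).C) (h : c.1 = 0) : ∃ x, c = pt x := by
  obtain ⟨k, f⟩ := c
  change k = 0 at h
  subst h
  refine ⟨f default, ?_⟩
  unfold pt
  congr 1
  ext x
  rw [Subsingleton.elim x default]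
  rfl

theorem conn_pt (x y : X) : (PiG X).Conn (pt x) (pt y) ↔ Joined x y := by
  unfold pt
  rw [conn_iff_homotopicRel]
  constructor
  · rintro ⟨H⟩
    exact ⟨⟨⟨fun u => H (u, default), by fun_prop⟩, by simp, by simp⟩⟩
  · rintro ⟨γ⟩
    refine ⟨⟨⟨⟨fun p => γ p.1, by fun_prop⟩, fun x => by simp, fun x => by simp⟩,
      fun u x hx => ?_⟩⟩
    have h1 : x.sq = 1 := hx
    rw [Dk.sq_zero] at h1
    norm_num at h1

end PiG

theorem isW_iff {X Y : TopCat.{0}} (f : X ⟶ Y) : RMod.IsW (PiF.map f) ↔ RelW f.hom := by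
  constructor
  · rintro ⟨h1, _, h3⟩
    refine ⟨fun y => ?_, fun j a b hab => ?_⟩
    · obtain ⟨x, hx, hxy⟩ := h1 ⟨PiG.pt y, trivial⟩ rfl
      obtain ⟨x0, hx0⟩ := PiG.eq_pt x.1 hx
      refine ⟨x0, (PiG.conn_pt _ _).1 ?_⟩
      have h4 : (RHom.f (PiF.map f) x).1 = PiG.pt (f.hom x0) := by
        rw [PiF_map, hx0]
        rfl
      rw [h4] at hxy
      exact hxy
    · have hpar : (PiG X).Par ⟨j, a.comp (Sph.hs false j)⟩ ⟨j, a.comp (Sph.hs true j)⟩ :=
        (PiG.par_iff _ _).2 (parC_of_sph a)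
      obtain ⟨h', hd, hs, ht, hc⟩ := h3 ⟨⟨j, a.comp (Sph.hs false j)⟩, trivial⟩
        ⟨⟨j, a.comp (Sph.hs true j)⟩, trivial⟩ hpar ⟨⟨j + 1, b⟩, trivial⟩ rfl
        (by
          rw [PiF_map]
          show (⟨j, b.comp (sg false j)⟩ : (PiG Y).C) = ⟨j, f.hom.comp (a.comp (Sph.hs false j))⟩
          congr 1
          ext x
          exact (hab (Sph.hs false j x)).symm)
        (by
          rw [PiF_map]
          show (⟨j, b.comp (sg true j)⟩ : (PiG Y).C) = ⟨j, f.hom.comp (a.comp (Sph.hs true j))⟩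
          congr 1
          ext x
          exact (hab (Sph.hs true j x)).symm)
      obtain ⟨⟨k, c⟩, hk⟩ := h'
      change k = j + 1 at hd
      subst hd
      have hs' : c.comp (sg false j) = a.comp (Sph.hs false j) := PiG.mk_inj hs
      have ht' : c.comp (sg true j) = a.comp (Sph.hs true j) := PiG.mk_inj ht
      refine ⟨c, fun z => ?_, ?_⟩
      · obtain ⟨b', y, rfl⟩ := Sph.exists_hs z
        rw [Sph.inc_hs]
        cases b'
        · exact DFunLike.congr_fun hs' y
        · exact DFunLike.congr_fun ht' y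
      · exact (PiG.conn_iff_homotopicRel (f.hom.comp c) b).1 hc
  · intro h
    have key : ∀ x x' : (PiF.obj X).Cell, (PiG X).Par x.1 x'.1 → ∀ h : (PiF.obj Y).Cell,
        (PiG Y).dim h.1 = (PiG X).dim x.1 + 1 →
        (PiG Y).src h.1 = (RHom.f (PiF.map f) x).1 → (PiG Y).tgt h.1 = (RHom.f (PiF.map f) x').1 →
        ∃ h' : (PiF.obj X).Cell, (PiG X).dim h'.1 = (PiG X).dim x.1 + 1 ∧
          (PiG X).src h'.1 = x.1 ∧ (PiG X).tgt h'.1 = x'.1 ∧
          (PiG Y).Conn (RHom.f (PiF.map f) h').1 h.1 := by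
      rintro ⟨⟨j, g⟩, _⟩ ⟨⟨j', g'⟩, _⟩ hp ⟨⟨k, b⟩, _⟩ hd hs ht
      have hj : j = j' := hp.2.2.1
      subst hj
      change k = j + 1 at hd
      subst hd
      obtain ⟨a, ha1, ha2⟩ := exists_glue ((PiG.par_iff _ _).1 hp)
      have hs' : b.comp (sg false j) = f.hom.comp g := PiG.mk_inj hs
      have ht' : b.comp (sg true j) = f.hom.comp g' := PiG.mk_inj ht
      obtain ⟨c, hc1, hc2⟩ := h.succ j a b (by
        intro z
        obtain ⟨b', y, rfl⟩ := Sph.exists_hs z
        rw [Sph.inc_hs]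
        cases b'
        · have e1 : b (sg false j y) = f.hom (g y) := DFunLike.congr_fun hs' y
          have e2 : a (Sph.hs false j y) = g y := DFunLike.congr_fun ha1 y
          rw [e1, e2]
        · have e1 : b (sg true j y) = f.hom (g' y) := DFunLike.congr_fun ht' y
          have e2 : a (Sph.hs true j y) = g' y := DFunLike.congr_fun ha2 y
          rw [e1, e2])
      refine ⟨⟨⟨j + 1, c⟩, trivial⟩, rfl, ?_, ?_, ?_⟩
      · show (⟨j, c.comp (sg false j)⟩ : (PiG X).C) = ⟨j, g⟩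
        congr 1
        ext x
        have e1 := hc1 (Sph.hs false j x)
        rw [Sph.inc_hs] at e1
        exact e1.trans (DFunLike.congr_fun ha1 x)
      · show (⟨j, c.comp (sg true j)⟩ : (PiG X).C) = ⟨j, g'⟩
        congr 1
        ext x
        have e1 := hc1 (Sph.hs true j x)
        rw [Sph.inc_hs] at e1
        exact e1.trans (DFunLike.congr_fun ha2 x)
      · exact (PiG.conn_iff_homotopicRel (f.hom.comp c) b).2 hc2
    refine ⟨fun y hy => ?_, fun x x' hp hc => ?_, key⟩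
    · obtain ⟨y0, hy0⟩ := PiG.eq_pt y.1 hy
      obtain ⟨x, hx⟩ := h.zero y0
      refine ⟨⟨PiG.pt x, trivial⟩, rfl, ?_⟩
      rw [hy0]
      exact (PiG.conn_pt _ _).2 hx
    · obtain ⟨h0, h1, h2, h3, h4⟩ := hc
      obtain ⟨h', e1, e2, e3, _⟩ := key x x' hp ⟨h0, h1⟩ h2 h3 h4
      exact ⟨h'.1, h'.2, e1, e2, e3⟩

end HH
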