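import Pool.Agent.HH.L0Tr
import Pool.Agent.HH.CSLem

/-!
# HH stage 2, module c17: the globular set of the path object and evaluation in it
-/

set_option autoImplicit false

namespace HH

open Classical CategoryTheory

variable {S E R : Sig}

namespace Pth17

theorem bdD_bdD_lt {q r s : D} (h : r.1 < q.1) : bdD q (bdD r s) = bdD r s := by
  unfold bdD
  by_cases h1 : s.1 < r.1
  · rw [if_pos h1, if_pos (by omega)]
  · rw [if_neg h1, if_pos h]

theorem bdD_bdD_eq {q r s : D} (h : r.1 = q.1) : bdD q (bdD r s) = bdD q s := by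
  unfold bdD
  by_cases h1 : s.1 < r.1
  · rw [if_pos h1]
  · rw [if_neg h1, if_neg (by omega), if_neg (by omega)]

theorem bdD_self (q s : D) : bdD q (bdD q s) = bdD q s := bdD_bdD_eq rfl

/-- restriction of a cell of the path object to a face -/
def face {C : Type} (c : Pth C) (i : ℕ) (ε : Bool) : Pth C :=
  ⟨i, fun q => c.α (bdD (i, ε) q), fun q => c.β (bdD (i, ε) q), fun q => c.e (bdD (i, ε) q)⟩

theorem face_mapAt {i j : ℕ} (hij : i < j) (ε : Bool) {q : D} (hq : (diskG i).ok q) :
    MapAt (diskG i) (diskG j) (bdD (i, ε)) q := by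
  have hq' : q.1 < i ∨ (q.1 = i ∧ q.2 = false) := hq
  refine ⟨?_, ?_, fun h0 => ⟨?_, ?_⟩⟩
  · unfold bdD
    split
    · left
      omega
    · left
      exact hij
  · show (bdD (i, ε) q).1 = q.1
    unfold bdD
    split
    · rfl
    · rename_i h
      have h' : ¬ q.1 < i := h
      show i = q.1
      omega
  · show ((bdD (i, ε) q).1 - 1, false) = bdD (i, ε) (q.1 - 1, false)
    have h0' : 0 < q.1 := h0
    unfold bdD
    rw [if_pos (show q.1 - 1 < i by omega)]
    split
    · rfl
    · rename_i h
      have h' : ¬ q.1 < i := h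
      show (i - 1, false) = _
      have : i = q.1 := by omega
      rw [this]
  · show ((bdD (i, ε) q).1 - 1, true) = bdD (i, ε) (q.1 - 1, true)
    have h0' : 0 < q.1 := h0
    unfold bdD
    rw [if_pos (show q.1 - 1 < i by omega)]
    split
    · rfl
    · rename_i h
      have h' : ¬ q.1 < i := h
      show (i - 1, true) = _
      have : i = q.1 := by omega
      rw [this]

theorem mapAt_comp {G H K : Glob} {f : G.C → H.C} {g : H.C → K.C} {x : G.C}
    (hf : MapAt G H f x) (hg : MapAt H K g (f x)) : MapAt G K (fun y => g (f y)) x := by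
  obtain ⟨a1, a2, a3⟩ := hf
  obtain ⟨b1, b2, b3⟩ := hg
  refine ⟨b1, b2.trans a2, fun h0 => ?_⟩
  obtain ⟨c1, c2⟩ := a3 h0
  obtain ⟨d1, d2⟩ := b3 (by rw [a2]; exact h0)
  exact ⟨d1.trans (congrArg g c1), d2.trans (congrArg g c2)⟩

theorem face_ok {x : XFam E} {G : Model E} {c : Pth G.C} (hc : pthOk x G c) {i : ℕ}
    (hi : i < c.j) (ε : Bool) : pthOk x G (face c i ε) := by
  obtain ⟨h1, h2, h3, h4⟩ := hc
  have e : ∀ q, bdD (i, ε) (bdD (i, false) q) = bdD (i, ε) q := fun q => bdD_bdD_eq rfl
  refine ⟨fun q => congrArg c.α (e q), fun q => congrArg c.β (e q), fun q => congrArg c.e (e q),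
    fun q hq => ?_⟩
  have hf := face_mapAt hi ε hq
  obtain ⟨k1, k2, k3⟩ := h4 (bdD (i, ε) q) hf.1
  refine ⟨mapAt_comp (G := diskG i) (H := diskG c.j) (f := bdD (i, ε)) (g := c.α) hf k1,
    mapAt_comp (G := diskG i) (H := diskG c.j) (f := bdD (i, ε)) (g := c.β) hf k2, ?_⟩
  refine CylAt.comp (W := diskG c.j) (W' := diskG i) (f := bdD (i, ε)) hf.2.1 (fun r => ?_) k3
  rw [diskG_bd, diskG_bd]
  -- both sides are boundaries
  have hq' : q.1 < i ∨ (q.1 = i ∧ q.2 = false) := hq
  unfold bdD
  by_cases h5 : r.1 < q.1
  · rw [if_pos h5, if_pos (show r.1 < i by omega)]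
    split
    · rfl
    · rw [if_pos (show r.1 < i by omega)]
  · rw [if_neg h5]
    split
    · rfl
    · rename_i h6
      have h6' : ¬ q.1 < i := h6
      rw [if_neg (show ¬ r.1 < i by omega)]

end Pth17

open Pth17

theorem pth_laws {x : XFam E} {b : Interp E E} {Q : QFam E} {G : Model E} [G.toGlob.Laws] :
    (pthM x b Q G).toGlob.Laws where
  ok_src := fun c hc h0 => face_ok hc (show c.j - 1 < c.j from Nat.sub_lt h0 Nat.one_pos) false
  ok_tgt := fun c hc h0 => face_ok hc (show c.j - 1 < c.j from Nat.sub_lt h0 Nat.one_pos) true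
  dim_src := fun c _ h0 => Nat.sub_add_cancel h0
  dim_tgt := fun c _ h0 => Nat.sub_add_cancel h0
  src_tgt := fun c _ h1 => by
    have h1' : 1 < c.j := h1
    have e : ∀ (ε : Bool) (q : D), bdD (c.j - 1, ε) (bdD (c.j - 1 - 1, false) q) =
        bdD (c.j - 1 - 1, false) q := fun ε q => bdD_bdD_lt (show c.j - 1 - 1 < c.j - 1 by omega)
    show face (face c (c.j - 1) true) (c.j - 1 - 1) false =
      face (face c (c.j - 1) false) (c.j - 1 - 1) false
    unfold face
    simp only [e]
  tgt_src := fun c _ h1 => by
    have h1' : 1 < c.j := h1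
    have e : ∀ (ε : Bool) (q : D), bdD (c.j - 1, ε) (bdD (c.j - 1 - 1, true) q) =
        bdD (c.j - 1 - 1, true) q := fun ε q => bdD_bdD_lt (show c.j - 1 - 1 < c.j - 1 by omega)
    show face (face c (c.j - 1) false) (c.j - 1 - 1) true =
      face (face c (c.j - 1) true) (c.j - 1 - 1) true
    unfold face
    simp only [e]

namespace Pth17

theorem bd_var_self {X : Cptd E} (k : E.K) (γ : (E.ar k).C → E.T X.V) (ε : Bool) :
    X.m.toGlob.bd (.op k γ) (E.dm k, ε) = .op k γ :=
  bd_of_le (G := X.m.toGlob) _ _ (le_refl _)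

variable {x : XFam E} {b : Interp E E} {Q : QFam E} {G : Model E}

/-- the ends of an evaluation -/
theorem end_eval {V : Type} (γ : V → Pth G.C) (s : E.T V) :
    ((pthM x b Q G).eval γ s).α (((pthM x b Q G).eval γ s).j, false) =
        G.eval (fun v => (γ v).α ((γ v).j, false)) s ∧
      ((pthM x b Q G).eval γ s).β (((pthM x b Q G).eval γ s).j, false) =
        G.eval (fun v => (γ v).β ((γ v).j, false)) (trans b s) ∧
      ((pthM x b Q G).eval γ s).e (((pthM x b Q G).eval γ s).j, false) =
        ext2 G b Q (fun v => (γ v).α ((γ v).j, false)) (fun v => (γ v).β ((γ v).j, false))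
          (fun v => (γ v).e ((γ v).j, false)) s := by
  induction s with
  | var v => exact ⟨rfl, rfl, rfl⟩
  | op k δ ih =>
    have e1 : (fun p => ((pthM x b Q G).eval γ (δ p)).α (((pthM x b Q G).eval γ (δ p)).j, false)) =
        fun p => G.eval (fun v => (γ v).α ((γ v).j, false)) (δ p) := funext fun p => (ih p).1
    have e2 : (fun p => ((pthM x b Q G).eval γ (δ p)).β (((pthM x b Q G).eval γ (δ p)).j, false)) =
        fun p => G.eval (fun v => (γ v).β ((γ v).j, false)) (trans b (δ p)) :=
      funext fun p => (ih p).2.1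
    have e3 : (fun p => ((pthM x b Q G).eval γ (δ p)).e (((pthM x b Q G).eval γ (δ p)).j, false)) =
        fun p => ext2 G b Q (fun v => (γ v).α ((γ v).j, false))
          (fun v => (γ v).β ((γ v).j, false)) (fun v => (γ v).e ((γ v).j, false)) (δ p) :=
      funext fun p => (ih p).2.2
    have hb : (ofGlob E (E.ar k)).m.toGlob.bd (.op k .var) (E.dm k, false) = .op k .var :=
      bd_var_self (X := ofGlob E (E.ar k)) k .var false
    refine ⟨?_, ?_, ?_⟩
    · show G.eval (fun p => ((pthM x b Q G).eval γ (δ p)).α
        (((pthM x b Q G).eval γ (δ p)).j, false))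
        ((ofGlob E (E.ar k)).m.toGlob.bd (.op k .var) (E.dm k, false)) = _
      rw [hb, e1]
      rfl
    · show G.eval (fun p => ((pthM x b Q G).eval γ (δ p)).β
        (((pthM x b Q G).eval γ (δ p)).j, false))
        (trans b ((ofGlob E (E.ar k)).m.toGlob.bd (.op k .var) (E.dm k, false))) = _
      rw [hb, e2]
      show G.eval _ ((b k).bind fun p => .var p) = G.eval _ ((b k).bind fun p => trans b (δ p))
      rw [eval_bind, eval_bind]
      rfl
    · show ext2 G b Q (fun p => ((pthM x b Q G).eval γ (δ p)).α
        (((pthM x b Q G).eval γ (δ p)).j, false)) (fun p => ((pthM x b Q G).eval γ (δ p)).β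
        (((pthM x b Q G).eval γ (δ p)).j, false)) (fun p => ((pthM x b Q G).eval γ (δ p)).e
        (((pthM x b Q G).eval γ (δ p)).j, false))
        ((ofGlob E (E.ar k)).m.toGlob.bd (.op k .var) (E.dm k, false)) = _
      rw [hb, e1, e2, e3]
      rfl

/-- functoriality of `ext2` in the variables (as in module Ext2F) -/
theorem ext2_bind' {M : Model E} {b : Interp E E} {Q : QFam E} {V W : Type} {γ : W → E.T V}
    {α β e : V → M.C} (s : E.T W) :
    ext2 M b Q α β e (s.bind γ) =
      ext2 M b Q (fun w => M.eval α (γ w)) (fun w => M.eval β (trans b (γ w)))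
        (fun w => ext2 M b Q α β e (γ w)) s := by
  induction s with
  | var w => rfl
  | op k δ ih =>
    show M.eval (CV.elim (fun p => M.eval α ((δ p).bind γ))
      (fun p => M.eval β (trans b ((δ p).bind γ)))
      (fun p => ext2 M b Q α β e ((δ p).bind γ))) (Q k) = M.eval (CV.elim
        (fun p => M.eval (fun w => M.eval α (γ w)) (δ p))
        (fun p => M.eval (fun w => M.eval β (trans b (γ w))) (trans b (δ p)))
        (fun p => ext2 M b Q _ _ _ (δ p))) (Q k)
    congr 1
    funext v
    cases v with
    | z p => exact eval_bind M α γ (δ p)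
    | top p =>
      show M.eval β (trans b ((δ p).bind γ)) = _
      rw [trans_bind, eval_bind]
      rfl
    | cyl p => exact ih p

/-- the boundary of an operation -/
theorem bd_op [hE : E.Good] {X : Cptd E} (k : E.K) (δ : (E.ar k).C → E.T X.V)
    (ht : X.tok (.op k δ)) (q : D) :
    X.m.toGlob.bd (.op k δ) q = ((ofGlob E (E.ar k)).m.toGlob.bd (.op k .var) q).bind δ := by
  obtain ⟨hk, hδ⟩ := ht
  have := hE.ar_laws k hk
  have h1 : (ofGlob E (E.ar k)).tok (.op k .var) :=
    ⟨hk, fun p => ⟨hE.full k hk p, rfl, fun _ => ⟨rfl, rfl⟩⟩⟩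
  exact (map_bd (G := (ofGlob E (E.ar k)).m.toGlob) (H := X.m.toGlob) (f := fun t => t.bind δ)
    (x := .op k .var) h1 (fun y hy _ => eval_mapAt (X := ofGlob E (E.ar k)) (M := X.m) (γ := δ)
      (fun p _ => hδ p) y hy) q).symm

/-- the cell expected as a result of an evaluation -/
def res (b : Interp E E) (Q : QFam E) (G : Model E) (X : Cptd E) (γ : X.V → Pth G.C)
    (t : E.T X.V) : Pth G.C :=
  ⟨X.tdim t,
    fun q => G.eval (fun v => (γ v).α ((γ v).j, false)) (X.m.toGlob.bd t q),
    fun q => G.eval (fun v => (γ v).β ((γ v).j, false)) (trans b (X.m.toGlob.bd t q)),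
    fun q => ext2 G b Q (fun v => (γ v).α ((γ v).j, false)) (fun v => (γ v).β ((γ v).j, false))
      (fun v => (γ v).e ((γ v).j, false)) (X.m.toGlob.bd t q)⟩

theorem eval_op_res [E.Good] {X : Cptd E} {γ : X.V → Pth G.C} (k : E.K)
    (δ : (E.ar k).C → E.T X.V) (ht : X.tok (.op k δ)) :
    (pthM x b Q G).eval γ (.op k δ) = res b Q G X γ (.op k δ) := by
  have e1 : (fun p => ((pthM x b Q G).eval γ (δ p)).α (((pthM x b Q G).eval γ (δ p)).j, false)) =
      fun p => G.eval (fun v => (γ v).α ((γ v).j, false)) (δ p) :=
    funext fun p => (end_eval γ (δ p)).1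
  have e2 : (fun p => ((pthM x b Q G).eval γ (δ p)).β (((pthM x b Q G).eval γ (δ p)).j, false)) =
      fun p => G.eval (fun v => (γ v).β ((γ v).j, false)) (trans b (δ p)) :=
    funext fun p => (end_eval γ (δ p)).2.1
  have e3 : (fun p => ((pthM x b Q G).eval γ (δ p)).e (((pthM x b Q G).eval γ (δ p)).j, false)) =
      fun p => ext2 G b Q (fun v => (γ v).α ((γ v).j, false))
        (fun v => (γ v).β ((γ v).j, false)) (fun v => (γ v).e ((γ v).j, false)) (δ p) :=
    funext fun p => (end_eval γ (δ p)).2.2
  show (⟨E.dm k,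
    fun q => G.eval (fun p => ((pthM x b Q G).eval γ (δ p)).α
      (((pthM x b Q G).eval γ (δ p)).j, false)) ((ofGlob E (E.ar k)).m.toGlob.bd (.op k .var) q),
    fun q => G.eval (fun p => ((pthM x b Q G).eval γ (δ p)).β
      (((pthM x b Q G).eval γ (δ p)).j, false))
      (trans b ((ofGlob E (E.ar k)).m.toGlob.bd (.op k .var) q)),
    fun q => ext2 G b Q (fun p => ((pthM x b Q G).eval γ (δ p)).α
      (((pthM x b Q G).eval γ (δ p)).j, false)) (fun p => ((pthM x b Q G).eval γ (δ p)).β
      (((pthM x b Q G).eval γ (δ p)).j, false)) (fun p => ((pthM x b Q G).eval γ (δ p)).e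
      (((pthM x b Q G).eval γ (δ p)).j, false))
      ((ofGlob E (E.ar k)).m.toGlob.bd (.op k .var) q)⟩ : Pth G.C) = _
  rw [e1, e2, e3]
  unfold res
  have hb := bd_op k δ ht
  congr 1
  · funext q
    rw [hb q, eval_bind]
    rfl
  · funext q
    rw [hb q, trans_bind, eval_bind]
    rfl
  · funext q
    rw [hb q, ext2_bind']
    rfl

end Pth17

/-- evaluation in the path object -/
theorem pth_eval [E.Good] {x : XFam E} {b : Interp E E} {Q : QFam E} {G : Model E}
    {X : Cptd E} [hX : X.Good] {γ : X.V → Pth G.C}
    (hγ : ∀ v, X.ok v → AsgAt X (pthM x b Q G) γ v) (hγ' : ∀ v, X.ok v → pthOk x G (γ v))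
    (t : E.T X.V) (ht : X.tok t) :
    (pthM x b Q G).eval γ t = ⟨X.tdim t,
      fun q => G.eval (fun v => (γ v).α ((γ v).j, false)) (X.m.toGlob.bd t q),
      fun q => G.eval (fun v => (γ v).β ((γ v).j, false)) (trans b (X.m.toGlob.bd t q)),
      fun q => ext2 G b Q (fun v => (γ v).α ((γ v).j, false)) (fun v => (γ v).β ((γ v).j, false))
        (fun v => (γ v).e ((γ v).j, false)) (X.m.toGlob.bd t q)⟩ := by
  show (pthM x b Q G).eval γ t = res b Q G X γ t
  induction hn : X.tdim t using Nat.strong_induction_on generalizing t with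
  | _ n ih =>
  cases t with
  | op k δ => exact eval_op_res k δ ht
  | var v =>
    have hv : X.ok v := ht
    obtain ⟨a1, a2, a3⟩ := hγ v hv
    obtain ⟨c1, c2, c3, -⟩ := hγ' v hv
    have hj : (γ v).j = X.dim v := a2
    -- values at positions of dimension at least the dimension
    have hge : ∀ q : D, X.dim v ≤ q.1 → X.m.toGlob.bd (.var v) q = .var v :=
      fun q hq => bd_of_le (G := X.m.toGlob) _ _ hq
    have hbq : ∀ q : D, X.dim v ≤ q.1 → bdD ((γ v).j, false) q = ((γ v).j, false) := fun q hq => by
      unfold bdD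
      rw [if_neg (by show ¬ q.1 < (γ v).j; omega)]
    -- values at positions of smaller dimension
    have hlt : ∀ q : D, q.1 < X.dim v →
        (γ v).α q = (res b Q G X γ (.var v)).α q ∧ (γ v).β q = (res b Q G X γ (.var v)).β q ∧
          (γ v).e q = (res b Q G X γ (.var v)).e q := by
      intro q hq
      have h0 : 0 < X.dim v := by omega
      obtain ⟨s1, s2⟩ := a3 h0
      have hn' : X.dim v = n := hn
      have hds := hX.dim_src v hv h0
      have hdt := hX.dim_tgt v hv h0
      have is := ih (X.tdim (X.src v)) (by omega) (X.src v) (hX.ok_src v hv h0) rfl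
      have it := ih (X.tdim (X.tgt v)) (by omega) (X.tgt v) (hX.ok_tgt v hv h0) rfl
      have s1' : face (γ v) ((γ v).j - 1) false = res b Q G X γ (X.src v) := s1.trans is
      have s2' : face (γ v) ((γ v).j - 1) true = res b Q G X γ (X.tgt v) := s2.trans it
      have hj1 : (γ v).j - 1 = X.dim v - 1 := by rw [hj]
      rcases Nat.lt_or_ge (q.1 + 1) (X.dim v) with h1 | h1
      · have hb : bdD ((γ v).j - 1, false) q = q := by
          unfold bdD
          rw [if_pos (by show q.1 < (γ v).j - 1; omega)]
        have hbd : X.m.toGlob.bd (X.src v) q = X.m.toGlob.bd (.var v) q :=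
          bd_src (G := X.m.toGlob) (x := .var v) hv h0 h1
        refine ⟨?_, ?_, ?_⟩
        · have := congrFun (congrArg Pth.α s1') q
          change (γ v).α (bdD ((γ v).j - 1, false) q) = G.eval _ (X.m.toGlob.bd (X.src v) q) at this
          rw [hb, hbd] at this
          exact this
        · have := congrFun (congrArg Pth.β s1') q
          change (γ v).β (bdD ((γ v).j - 1, false) q) =
            G.eval _ (trans b (X.m.toGlob.bd (X.src v) q)) at this
          rw [hb, hbd] at this
          exact this
        · have := congrFun (congrArg Pth.e s1') q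
          change (γ v).e (bdD ((γ v).j - 1, false) q) =
            ext2 G b Q _ _ _ (X.m.toGlob.bd (X.src v) q) at this
          rw [hb, hbd] at this
          exact this
      · obtain ⟨i, ε⟩ := q
        have hi : i = (γ v).j - 1 := by
          simp only at hq h1
          omega
        subst hi
        cases ε with
        | false =>
          have hb : bdD ((γ v).j - 1, false) ((γ v).j - 1, false) = ((γ v).j - 1, false) := by
            unfold bdD
            rw [if_neg (by show ¬ (γ v).j - 1 < (γ v).j - 1; omega)]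
          have hbd : X.m.toGlob.bd (X.src v) ((γ v).j - 1, false) =
              X.m.toGlob.bd (.var v) ((γ v).j - 1, false) := by
            have k1 := bd_pred_false (G := X.m.toGlob) (x := .var v) h0
            have k1' : X.m.toGlob.bd (.var v) ((γ v).j - 1, false) = X.src v := by
              rw [hj1]
              exact k1
            rw [k1']
            exact bd_of_le (G := X.m.toGlob) _ _ (by show X.tdim (X.src v) ≤ (γ v).j - 1; omega)
          refine ⟨?_, ?_, ?_⟩
          · have := congrFun (congrArg Pth.α s1') ((γ v).j - 1, false)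
            change (γ v).α (bdD ((γ v).j - 1, false) ((γ v).j - 1, false)) =
              G.eval _ (X.m.toGlob.bd (X.src v) ((γ v).j - 1, false)) at this
            rw [hb, hbd] at this
            exact this
          · have := congrFun (congrArg Pth.β s1') ((γ v).j - 1, false)
            change (γ v).β (bdD ((γ v).j - 1, false) ((γ v).j - 1, false)) =
              G.eval _ (trans b (X.m.toGlob.bd (X.src v) ((γ v).j - 1, false))) at this
            rw [hb, hbd] at this
            exact this
          · have := congrFun (congrArg Pth.e s1') ((γ v).j - 1, false)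
            change (γ v).e (bdD ((γ v).j - 1, false) ((γ v).j - 1, false)) =
              ext2 G b Q _ _ _ (X.m.toGlob.bd (X.src v) ((γ v).j - 1, false)) at this
            rw [hb, hbd] at this
            exact this
        | true =>
          have hb : bdD ((γ v).j - 1, true) ((γ v).j - 1, true) = ((γ v).j - 1, true) := by
            unfold bdD
            rw [if_neg (by show ¬ (γ v).j - 1 < (γ v).j - 1; omega)]
          have hbd : X.m.toGlob.bd (X.tgt v) ((γ v).j - 1, true) =
              X.m.toGlob.bd (.var v) ((γ v).j - 1, true) := by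
            have k1 := bd_pred_true (G := X.m.toGlob) (x := .var v) h0
            have k1' : X.m.toGlob.bd (.var v) ((γ v).j - 1, true) = X.tgt v := by
              rw [hj1]
              exact k1
            rw [k1']
            exact bd_of_le (G := X.m.toGlob) _ _ (by show X.tdim (X.tgt v) ≤ (γ v).j - 1; omega)
          refine ⟨?_, ?_, ?_⟩
          · have := congrFun (congrArg Pth.α s2') ((γ v).j - 1, true)
            change (γ v).α (bdD ((γ v).j - 1, true) ((γ v).j - 1, true)) =
              G.eval _ (X.m.toGlob.bd (X.tgt v) ((γ v).j - 1, true)) at this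
            rw [hb, hbd] at this
            exact this
          · have := congrFun (congrArg Pth.β s2') ((γ v).j - 1, true)
            change (γ v).β (bdD ((γ v).j - 1, true) ((γ v).j - 1, true)) =
              G.eval _ (trans b (X.m.toGlob.bd (X.tgt v) ((γ v).j - 1, true))) at this
            rw [hb, hbd] at this
            exact this
          · have := congrFun (congrArg Pth.e s2') ((γ v).j - 1, true)
            change (γ v).e (bdD ((γ v).j - 1, true) ((γ v).j - 1, true)) =
              ext2 G b Q _ _ _ (X.m.toGlob.bd (X.tgt v) ((γ v).j - 1, true)) at this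
            rw [hb, hbd] at this
            exact this
    have hα : (γ v).α = (res b Q G X γ (.var v)).α := by
      funext q
      rcases Nat.lt_or_ge q.1 (X.dim v) with h | h
      · exact (hlt q h).1
      · rw [← c1 q, hbq q h]
        show _ = G.eval _ (X.m.toGlob.bd (.var v) q)
        rw [hge q h]
        rfl
    have hβ : (γ v).β = (res b Q G X γ (.var v)).β := by
      funext q
      rcases Nat.lt_or_ge q.1 (X.dim v) with h | h
      · exact (hlt q h).2.1
      · rw [← c2 q, hbq q h]
        show _ = G.eval _ (trans b (X.m.toGlob.bd (.var v) q))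
        rw [hge q h]
        rfl
    have he : (γ v).e = (res b Q G X γ (.var v)).e := by
      funext q
      rcases Nat.lt_or_ge q.1 (X.dim v) with h | h
      · exact (hlt q h).2.2
      · rw [← c3 q, hbq q h]
        show _ = ext2 G b Q _ _ _ (X.m.toGlob.bd (.var v) q)
        rw [hge q h]
        rfl
    show γ v = _
    calc γ v = ⟨(γ v).j, (γ v).α, (γ v).β, (γ v).e⟩ := rfl
      _ = ⟨X.dim v, (res b Q G X γ (.var v)).α, (res b Q G X γ (.var v)).β,
          (res b Q G X γ (.var v)).e⟩ := by rw [hj, hα, hβ, he]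
      _ = _ := rfl

end HH
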