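import Pool.Agent.HH.PthLaws
import Pool.Agent.HH.Ext2

/-!
# HH stage 2, module c18: the operations of the path object
-/

set_option autoImplicit false

namespace HH

open Classical CategoryTheory

variable {S E R : Sig}

namespace Pth18

open Pth17

variable {x : XFam E} {b : Interp E E} {Q : QFam E} {G : Model E}

/-- iterated boundaries in the path object -/
theorem pth_bd_lt (c : Pth G.C) {r : D} (hr : r.1 < c.j) :
    (pthM x b Q G).toGlob.bd c r = face c r.1 r.2 := by
  have key : ∀ (n i : ℕ) (ε : Bool), i + n + 1 = c.j →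
      ((if ε then (pthM x b Q G).tgt else (pthM x b Q G).src)^[n + 1] c) = face c i ε := by
    intro n i ε
    induction n generalizing i with
    | zero =>
      intro h
      have hi : i = c.j - 1 := by omega
      subst hi
      cases ε <;> rfl
    | succ n ih =>
      intro h
      rw [Function.iterate_succ_apply', ih (i + 1) (by omega)]
      have e : ∀ (δ : Bool) (q : D), bdD (i + 1, ε) (bdD (i, δ) q) = bdD (i, δ) q :=
        fun δ q => bdD_bdD_lt (show i < i + 1 by omega)
      cases ε with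
      | false =>
        show face (face c (i + 1) false) (i + 1 - 1) false = face c i false
        unfold face
        simp only [Nat.add_sub_cancel, e]
      | true =>
        show face (face c (i + 1) true) (i + 1 - 1) true = face c i true
        unfold face
        simp only [Nat.add_sub_cancel, e]
  have h := key (c.j - r.1 - 1) r.1 r.2 (by omega)
  rw [show c.j - r.1 - 1 + 1 = c.j - r.1 by omega] at h
  exact h

theorem pth_bd_ge (c : Pth G.C) {r : D} (hr : c.j ≤ r.1) :
    (pthM x b Q G).toGlob.bd c r = c := bd_of_le (G := (pthM x b Q G).toGlob) c r hr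

/-- the ends of the iterated boundaries -/
theorem end_bd {c : Pth G.C} (hc : pthOk x G c) (r : D) :
    ((pthM x b Q G).toGlob.bd c r).α (((pthM x b Q G).toGlob.bd c r).j, false) = c.α r ∧
    ((pthM x b Q G).toGlob.bd c r).β (((pthM x b Q G).toGlob.bd c r).j, false) = c.β r ∧
    ((pthM x b Q G).toGlob.bd c r).e (((pthM x b Q G).toGlob.bd c r).j, false) = c.e r := by
  obtain ⟨h1, h2, h3, -⟩ := hc
  rcases Nat.lt_or_ge r.1 c.j with h | h
  · have e : bdD (r.1, r.2) (r.1, false) = r := by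
      unfold bdD
      rw [if_neg (by show ¬ r.1 < r.1; omega)]
    rw [pth_bd_lt c h]
    exact ⟨congrArg c.α e, congrArg c.β e, congrArg c.e e⟩
  · have e : bdD (c.j, false) r = (c.j, false) := by
      unfold bdD
      rw [if_neg (by show ¬ r.1 < c.j; omega)]
    rw [pth_bd_ge c h]
    exact ⟨(congrArg c.α e).symm.trans (h1 r), (congrArg c.β e).symm.trans (h2 r),
      (congrArg c.e e).symm.trans (h3 r)⟩

/-- what we need to know about a globular map to the path object -/
theorem ends {W : Glob} [hW : W.Laws] {γ : W.C → Pth G.C} (full : ∀ p, W.ok p)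
    (hγ : ∀ p, MapAt W (pthM x b Q G).toGlob γ p) (p : W.C) (r : D) :
    (γ (W.bd p r)).α ((γ (W.bd p r)).j, false) = (γ p).α r ∧
    (γ (W.bd p r)).β ((γ (W.bd p r)).j, false) = (γ p).β r ∧
    (γ (W.bd p r)).e ((γ (W.bd p r)).j, false) = (γ p).e r := by
  rw [map_bd (G := W) (H := (pthM x b Q G).toGlob) (f := γ) (full p) (fun y _ _ => hγ y) r]
  exact end_bd (hγ p).1 r

theorem ends_map {W : Glob} [hW : W.Laws] {γ : W.C → Pth G.C} (full : ∀ p, W.ok p)
    (hγ : ∀ p, MapAt W (pthM x b Q G).toGlob γ p) (p : W.C) :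
    MapAt W G.toGlob (fun p => (γ p).α ((γ p).j, false)) p ∧
    MapAt W G.toGlob (fun p => (γ p).β ((γ p).j, false)) p := by
  have hj : (γ p).j = W.dim p := (hγ p).2.1
  obtain ⟨-, -, -, h4⟩ : pthOk x G (γ p) := (hγ p).1
  obtain ⟨⟨a1, a2, a3⟩, ⟨b1, b2, b3⟩, -⟩ := h4 ((γ p).j, false) (Or.inr ⟨rfl, rfl⟩)
  refine ⟨⟨a1, a2.trans hj, fun h0 => ?_⟩, ⟨b1, b2.trans hj, fun h0 => ?_⟩⟩
  · obtain ⟨c1, c2⟩ := a3 (show 0 < (γ p).j by omega)
    have e1 := (ends full hγ p (W.dim p - 1, false)).1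
    have e2 := (ends full hγ p (W.dim p - 1, true)).1
    rw [bd_pred_false h0] at e1
    rw [bd_pred_true h0] at e2
    refine ⟨c1.trans ?_, c2.trans ?_⟩
    · show (γ p).α ((γ p).j - 1, false) = _
      rw [hj]
      exact e1.symm
    · show (γ p).α ((γ p).j - 1, true) = _
      rw [hj]
      exact e2.symm
  · obtain ⟨c1, c2⟩ := b3 (show 0 < (γ p).j by omega)
    have e1 := (ends full hγ p (W.dim p - 1, false)).2.1
    have e2 := (ends full hγ p (W.dim p - 1, true)).2.1
    rw [bd_pred_false h0] at e1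
    rw [bd_pred_true h0] at e2
    refine ⟨c1.trans ?_, c2.trans ?_⟩
    · show (γ p).β ((γ p).j - 1, false) = _
      rw [hj]
      exact e1.symm
    · show (γ p).β ((γ p).j - 1, true) = _
      rw [hj]
      exact e2.symm

/-- the homotopy associated with a globular map to the path object -/
theorem ends_isCyl0 [hE : E.Good] (hx : ∀ j, XGoodAt x 0 j) (hb : b.Good) (hQ : Q2Good x b Q)
    [G.toGlob.Laws] [G.OpLaws] {W : Glob} [hW : W.Laws] {γ : W.C → Pth G.C}
    (full : ∀ p, W.ok p) (hγ : ∀ p, MapAt W (pthM x b Q G).toGlob γ p) :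
    IsCyl0 x (ofGlob E W).m.toGlob G (G.eval fun p => (γ p).α ((γ p).j, false))
      (fun t => G.eval (fun p => (γ p).β ((γ p).j, false)) (trans b t))
      (ext2 G b Q (fun p => (γ p).α ((γ p).j, false)) (fun p => (γ p).β ((γ p).j, false))
        (fun p => (γ p).e ((γ p).j, false))) := by
  refine ext2_isCyl0 hx hb hQ (X := ofGlob E W) (fun p _ => (ends_map full hγ p).1)
    (fun p _ => (ends_map full hγ p).2) (fun p _ => ?_)
  have hj : (γ p).j = W.dim p := (hγ p).2.1
  obtain ⟨o1, o2, o3, h4⟩ : pthOk x G (γ p) := (hγ p).1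
  obtain ⟨-, -, d1, d2, d3, d4⟩ := h4 ((γ p).j, false) (Or.inr ⟨rfl, rfl⟩)
  refine ⟨d1, d2.trans (congrArg (· + 1) hj), d3.trans ?_, d4⟩
  have hbd : ∀ r : D, (ofGlob E W).m.toGlob.bd (.var p) r = .var (W.bd p r) := fun r =>
    (map_bd (G := W) (H := (ofGlob E W).m.toGlob) (f := fun p => .var p) (full p)
      (fun y hy _ => ⟨hy, rfl, fun _ => ⟨rfl, rfl⟩⟩) r).symm
  unfold cs
  have hd : (diskG (γ p).j).dim ((γ p).j, false) = (ofGlob E W).m.toGlob.dim (.var p) := hj
  rw [hd]
  congr 1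
  funext v
  cases v with
  | z r =>
    show (γ p).α ((diskG (γ p).j).bd ((γ p).j, false) r) =
      G.eval (fun p => (γ p).α ((γ p).j, false)) ((ofGlob E W).m.toGlob.bd (.var p) r)
    rw [diskG_bd, o1, hbd]
    exact (ends full hγ p r).1.symm
  | top r =>
    show (γ p).β ((diskG (γ p).j).bd ((γ p).j, false) r) =
      G.eval (fun p => (γ p).β ((γ p).j, false))
        (trans b ((ofGlob E W).m.toGlob.bd (.var p) r))
    rw [diskG_bd, o2, hbd]
    exact (ends full hγ p r).2.1.symm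
  | cyl r =>
    show (γ p).e ((diskG (γ p).j).bd ((γ p).j, false) r) =
      ext2 G b Q _ _ _ ((ofGlob E W).m.toGlob.bd (.var p) r)
    rw [diskG_bd, o3, hbd]
    exact (ends full hγ p r).2.2.symm

/-- the result of an operation is a genuine cell of the path object -/
theorem res_ok {X : Cptd E} [hM : X.m.toGlob.Laws] {α β e : X.m.C → G.C}
    (h : IsCyl0 x X.m.toGlob G α β e) {T : X.m.C} (hT : X.m.ok T) :
    pthOk x G ⟨X.m.dim T, fun q => α (X.m.toGlob.bd T q), fun q => β (X.m.toGlob.bd T q),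
      fun q => e (X.m.toGlob.bd T q)⟩ := by
  have e1 : ∀ q : D, X.m.toGlob.bd T (bdD (X.m.dim T, false) q) = X.m.toGlob.bd T q := by
    intro q
    unfold bdD
    split
    · rfl
    · rename_i h1
      have h1' : ¬ q.1 < X.m.dim T := h1
      rw [bd_of_le T (X.m.dim T, false) (le_refl _), bd_of_le T q (by omega)]
  refine ⟨fun q => congrArg α (e1 q), fun q => congrArg β (e1 q), fun q => congrArg e (e1 q),
    fun q hq => ?_⟩
  have hq' : (diskG (X.m.dim T)).ok q := hq
  have hq1 : q.1 ≤ X.m.dim T := by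
    rcases hq' with h1 | h1
    · omega
    · omega
  have hf := bd_mapAt hT hq'
  refine ⟨mapAt_comp (G := diskG (X.m.dim T)) (H := X.m.toGlob) (f := X.m.toGlob.bd T) (g := α)
      hf (h.mapα _ hf.1),
    mapAt_comp (G := diskG (X.m.dim T)) (H := X.m.toGlob) (f := X.m.toGlob.bd T) (g := β)
      hf (h.mapβ _ hf.1), ?_⟩
  refine CylAt.comp (W := X.m.toGlob) (W' := diskG (X.m.dim T)) (f := X.m.toGlob.bd T)
    (dim_bd hT hq1) (fun r => ?_) (h.cyl _ hf.1)
  rw [diskG_bd, bd_bd hT hq1]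

end Pth18

open Pth17 Pth18

theorem pth_ops [hE : E.Good] {x : XFam E} (hx : ∀ j, XGoodAt x 0 j) {b : Interp E E}
    (hb : b.Good) {Q : QFam E} (hQ : Q2Good x b Q) {G : Model E} [G.toGlob.Laws] [G.OpLaws] :
    (pthM x b Q G).OpLaws := by
  have hT : ∀ k, E.kok k → (ofGlob E (E.ar k)).tok (.op k .var) := fun k hk =>
    ⟨hk, fun p => ⟨hE.full k hk p, rfl, fun _ => ⟨rfl, rfl⟩⟩⟩
  have hface : ∀ k, E.kok k → ∀ γ : (E.ar k).C → Pth G.C,
      (∀ p, MapAt (E.ar k) (pthM x b Q G).toGlob γ p) → ∀ (ε : Bool) (s : E.T (E.ar k).C),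
      (ofGlob E (E.ar k)).tok s → (ofGlob E (E.ar k)).tdim s + 1 = E.dm k →
      (ofGlob E (E.ar k)).m.toGlob.bd (.op k .var) (E.dm k - 1, ε) = s →
      face ((pthM x b Q G).o k γ) (E.dm k - 1) ε = (pthM x b Q G).eval γ s := by
    intro k hk γ hγ ε s hs hd hbs
    have := hE.ar_laws k hk
    refine Eq.trans ?_ (pth_eval (X := ofGlob E (E.ar k)) (fun p _ => hγ p)
      (fun p _ => (hγ p).1) s hs).symm
    have hTk : (ofGlob E (E.ar k)).m.ok (.op k .var) := hT k hk
    have e1 : ∀ q : D, (ofGlob E (E.ar k)).m.toGlob.bd (.op k .var) (bdD (E.dm k - 1, ε) q) =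
        (ofGlob E (E.ar k)).m.toGlob.bd s q := by
      intro q
      rw [← hbs]
      exact (bd_bd (G := (ofGlob E (E.ar k)).m.toGlob) hTk
        (q := (E.dm k - 1, ε)) (show E.dm k - 1 ≤ E.dm k by omega) q).symm
    have e2 : E.dm k - 1 = (ofGlob E (E.ar k)).tdim s := by omega
    show (⟨E.dm k - 1, fun q => G.eval _ ((ofGlob E (E.ar k)).m.toGlob.bd (.op k .var)
        (bdD (E.dm k - 1, ε) q)), fun q => G.eval _ (trans b
        ((ofGlob E (E.ar k)).m.toGlob.bd (.op k .var) (bdD (E.dm k - 1, ε) q))),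
        fun q => ext2 G b Q _ _ _ ((ofGlob E (E.ar k)).m.toGlob.bd (.op k .var)
        (bdD (E.dm k - 1, ε) q))⟩ : Pth G.C) = _
    simp only [e1]
    rw [e2]
    rfl
  refine ⟨fun k γ hk hγ => ?_, fun k γ _ _ => rfl, fun k γ hk hγ => ?_, fun k γ hk hγ => ?_⟩
  · have := hE.ar_laws k hk
    exact res_ok (X := ofGlob E (E.ar k)) (ends_isCyl0 hx hb hQ (hE.full k hk) hγ)
      (T := .op k .var) (hT k hk)
  · refine hface k hk γ hγ false (E.bs k) (hE.ok_bs k hk) (hE.dim_bs k hk) ?_
    refine (bd_pred_false (G := (ofGlob E (E.ar k)).m.toGlob) (x := .op k .var)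
      (hE.dm_pos k hk)).trans ?_
    exact Tm.bind_var_self _
  · refine hface k hk γ hγ true (E.bt k) (hE.ok_bt k hk) (hE.dim_bt k hk) ?_
    refine (bd_pred_true (G := (ofGlob E (E.ar k)).m.toGlob) (x := .op k .var)
      (hE.dm_pos k hk)).trans ?_
    exact Tm.bind_var_self _

end HH
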