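import Pool.Agent.HH.ExSig
import Pool.Agent.HH.Q2Ex
import Pool.Agent.HH.W01
import Pool.Agent.HH.L0Tr
import Pool.Agent.HH.L0Ex

/-!
# HH stage 2, module c13: fillers for twists of the extended signature which are the identity on
the operations of `S`
-/

set_option autoImplicit false

namespace HH

open Classical CategoryTheory

variable {S E R : Sig}

section QEx2
variable {A : Type} {G : A → Glob} {I : Type}

/-- the filler of `k` depends on the filler of `k'` -/
def qEx2R (S : Sig) {A : Type} (G : A → Glob) (I : Type) (k' k : (exSig S G I).K) : Prop :=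
  (exSig S G I).opLt k' k ∨
    ∃ (a : A) (l : XT S G I a) (i : I) (c : Bool), k = .inr ⟨a, l, i, c⟩ ∧ Tm.HasOp k' (XT.toTm l)

theorem qEx2_acc_inl {k : S.K} (hk : Acc S.opLt k) : Acc (qEx2R S G I) (.inl k) := by
  induction hk with
  | intro k _ ih =>
    refine ⟨_, fun k' hk' => ?_⟩
    rcases hk' with (h | h) | ⟨a, l, i, c, h, _⟩
    · obtain ⟨k2, rfl, h2⟩ := ExSig_hasOp_upT h
      exact ih k2 (Or.inl h2)
    · obtain ⟨k2, rfl, h2⟩ := ExSig_hasOp_upT h
      exact ih k2 (Or.inr h2)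
    · exact absurd h (by intro h; cases h)

theorem qEx2_acc_st {G' : Glob} {t : (exSig S G I).T G'.C}
    (h : ∀ k, t.HasOp k → Acc (qEx2R S G I) k) :
    (∀ k, Tm.HasOp k ((ofGlob (exSig S G I) G').tsrc t) → Acc (qEx2R S G I) k) ∧
      ∀ k, Tm.HasOp k ((ofGlob (exSig S G I) G').ttgt t) → Acc (qEx2R S G I) k := by
  cases t with
  | var p => exact ⟨fun k hk => absurd hk id, fun k hk => absurd hk id⟩
  | op k γ =>
    have hk := h k (Or.inl rfl)
    constructor
    · intro k' hk'
      rcases ExSig_hasOp_bind hk' with h1 | ⟨p, h1⟩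
      · exact hk.inv (Or.inl (Or.inl h1))
      · exact h k' (Or.inr ⟨p, h1⟩)
    · intro k' hk'
      rcases ExSig_hasOp_bind hk' with h1 | ⟨p, h1⟩
      · exact hk.inv (Or.inl (Or.inr h1))
      · exact h k' (Or.inr ⟨p, h1⟩)

theorem qEx2_acc_inr {a : A} {l : XT S G I a}
    (h : ∀ k, Tm.HasOp k l.toTm → Acc (qEx2R S G I) k) (i : I) (c : Bool) :
    Acc (qEx2R S G I) (.inr ⟨a, l, i, c⟩) := by
  obtain ⟨h1, h2⟩ := qEx2_acc_st (G' := G a) (t := l.toTm) h
  rw [XT.tsrc_toTm] at h1
  rw [XT.ttgt_toTm] at h2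
  have hf : Acc (qEx2R S G I) (.inr ⟨a, l, i, false⟩) := by
    refine ⟨_, fun k' hk' => ?_⟩
    rcases hk' with (hk | hk) | ⟨a', l', i', c', he, hk⟩
    · exact h1 k' hk
    · exact h2 k' hk
    · cases he
      exact h k' hk
  cases c with
  | false => exact hf
  | true =>
    refine ⟨_, fun k' hk' => ?_⟩
    rcases hk' with (hk | hk) | ⟨a', l', i', c', he, hk⟩
    · exact h k' hk
    · rcases hk with hk | ⟨p, hk⟩
      · rw [← hk]
        exact hf
      · exact absurd hk id
    · cases he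
      exact h k' hk

theorem qEx2_wf [S.Good] [S.Strat] (k : (exSig S G I).K) (hk : (exSig S G I).kok k) :
    Acc (qEx2R S G I) k := by
  have hl : ∀ {a : A} (l : XT S G I a), l.ok →
      ∀ k, Tm.HasOp k l.toTm → Acc (qEx2R S G I) k := by
    intro a l
    induction l with
    | var p => exact fun _ k hk => absurd hk id
    | op k γ ih =>
      intro hl k' hk'
      rcases hk' with h | ⟨p, h⟩
      · rw [← h]
        exact qEx2_acc_inl (Strat.sig_wf k hl.1)
      · exact ih p (hl.2 p).1 k' h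
    | ex b a' l i γ ihl ih =>
      intro hl k' hk'
      rcases hk' with h | ⟨p, h⟩
      · rw [← h]
        exact qEx2_acc_inr (ihl hl.1.1) i b
      · exact ih p (hl.2 p).1 k' h
  rcases k with k | ⟨a, l, i, b⟩
  · exact qEx2_acc_inl (Strat.sig_wf k hk)
  · exact qEx2_acc_inr (hl l hk.1) i b

/-- all operations of the term are below `k` -/
def qEx2B (k : (exSig S G I).K) {V : Type} (t : (exSig S G I).T V) : Prop :=
  ∀ k', t.HasOp k' → Relation.TransGen (qEx2R S G I) k' k

theorem qEx2B_src {k : (exSig S G I).K} {a : Glob} {t : (exSig S G I).T a.C} (h : qEx2B k t) :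
    qEx2B k ((ofGlob (exSig S G I) a).tsrc t) := by
  intro k' hk'
  cases t with
  | var v => exact hk'.elim
  | op k1 γ =>
    have h1 : (((exSig S G I).bs k1).bind γ).HasOp k' := hk'
    rcases q2Ex_hasOp_bind h1 with h2 | ⟨p, hp⟩
    · exact Relation.TransGen.head (Or.inl (Or.inl h2)) (h k1 (Or.inl rfl))
    · exact h k' (Or.inr ⟨p, hp⟩)

theorem qEx2B_tgt {k : (exSig S G I).K} {a : Glob} {t : (exSig S G I).T a.C} (h : qEx2B k t) :
    qEx2B k ((ofGlob (exSig S G I) a).ttgt t) := by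
  intro k' hk'
  cases t with
  | var v => exact hk'.elim
  | op k1 γ =>
    have h1 : (((exSig S G I).bt k1).bind γ).HasOp k' := hk'
    rcases q2Ex_hasOp_bind h1 with h2 | ⟨p, hp⟩
    · exact Relation.TransGen.head (Or.inl (Or.inr h2)) (h k1 (Or.inl rfl))
    · exact h k' (Or.inr ⟨p, hp⟩)

theorem qEx2B_bd {k : (exSig S G I).K} {a : Glob} {t : (exSig S G I).T a.C} (h : qEx2B k t)
    (q : D) : qEx2B k ((ofGlob (exSig S G I) a).m.toGlob.bd t q) := by
  have key : ∀ (f : (exSig S G I).T a.C → (exSig S G I).T a.C),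
      (∀ t, qEx2B k t → qEx2B k (f t)) → ∀ n t, qEx2B k t → qEx2B k (f^[n] t) := by
    intro f hf n
    induction n with
    | zero => exact fun t ht => ht
    | succ n ih => exact fun t ht => ih (f t) (hf t ht)
  have e1 : (ofGlob (exSig S G I) a).m.toGlob.bd t q =
      (if q.2 then (ofGlob (exSig S G I) a).ttgt else (ofGlob (exSig S G I) a).tsrc)^[
        (ofGlob (exSig S G I) a).tdim t - q.1] t := rfl
  rw [e1]
  cases q.2 with
  | false => exact key _ (fun t ht => qEx2B_src ht) _ t h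
  | true => exact key _ (fun t ht => qEx2B_tgt ht) _ t h

theorem qEx2B_inr {a : A} {l : XT S G I a} (i : I) (c : Bool) :
    qEx2B (.inr ⟨a, l, i, c⟩ : (exSig S G I).K) l.toTm := fun _ hk' =>
  Relation.TransGen.single (Or.inr ⟨a, l, i, c, rfl, hk'⟩)

/-! ### the recursion -/

/-- the extension to terms of the cylinder over an arity -/
noncomputable def qEx2e (x : XFam E) (b : Interp E E) (Q : QFam E) (a : Glob) :
    E.T a.C → E.T (CV a.C a.C) :=
  ext2 (Cyl0 x a).m b Q (fun p => .var (.z p)) (fun p => .var (.top p)) (fun p => .var (.cyl p))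

/-- base end -/
noncomputable def qEx2α (x : XFam E) (a : Glob) : E.T a.C → E.T (CV a.C a.C) :=
  (Cyl0 x a).m.eval fun p => .var (.z p)

/-- top end -/
noncomputable def qEx2β (x : XFam E) (b : Interp E E) (a : Glob) : E.T a.C → E.T (CV a.C a.C) :=
  fun t => (Cyl0 x a).m.eval (fun p => .var (.top p)) (trans b t)

/-- evaluation of a term over `Zc` at the term `p`, with new cells `op k z` and
`(b k).map top` -/
noncomputable def qEx2w (x : XFam E) (b : Interp E E) (Q : QFam E) (a : Glob) (p : E.T a.C)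
    (a1 b1 : E.T (CV a.C a.C)) (w : ℕ → E.T (CV (CV D D) Bool)) : E.T (CV a.C a.C) :=
  (Cyl0 x a).m.eval (w01Asg (W := (ofGlob E a).m.toGlob) (M := (Cyl0 x a).m) (qEx2α x a)
    (qEx2β x b a) (qEx2e x b Q a) p a1 b1) (w ((ofGlob E a).tdim p))

/-- the right-hand side of the recursion -/
noncomputable def qEx2F (QS : QFam S) (d : L0 (exSig S G I)) (b : Interp (exSig S G I) (exSig S G I))
    (Q : QFam (exSig S G I)) : QFam (exSig S G I) := fun k => match k with
  | .inl k => upT (QS k)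
  | .inr ⟨a, l, i, false⟩ => qEx2w d.x b Q (G a) l.toTm
      (.op (.inr ⟨a, l, i, true⟩) (fun p => .var (.z p))) ((b (.inr ⟨a, l, i, true⟩)).map .top) d.w0
  | .inr ⟨a, l, i, true⟩ => qEx2w d.x b Q (G a) l.toTm
      (.op (.inr ⟨a, l, i, true⟩) (fun p => .var (.z p))) ((b (.inr ⟨a, l, i, true⟩)).map .top) d.w1

theorem qEx2w_congr {x : XFam (exSig S G I)} {b : Interp (exSig S G I) (exSig S G I)}
    {Q Q' : QFam (exSig S G I)} {k : (exSig S G I).K} {a : Glob} {p : (exSig S G I).T a.C}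
    (hp : qEx2B k p) (h : ∀ k', Relation.TransGen (qEx2R S G I) k' k → Q k' = Q' k')
    (a1 b1 : (exSig S G I).T (CV a.C a.C)) (w : ℕ → (exSig S G I).T (CV (CV D D) Bool)) :
    qEx2w x b Q a p a1 b1 w = qEx2w x b Q' a p a1 b1 w := by
  have he : (fun q => qEx2e x b Q a ((ofGlob (exSig S G I) a).m.toGlob.bd p q)) =
      fun q => qEx2e x b Q' a ((ofGlob (exSig S G I) a).m.toGlob.bd p q) := by
    funext q
    exact ext2_congr _ (fun k' hk' => h k' (qEx2B_bd hp q k' hk')) (fun _ _ => rfl)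
      (fun _ _ => rfl) (fun _ _ => rfl)
  unfold qEx2w w01Asg
  rw [he]

theorem qEx2F_congr {QS : QFam S} {d : L0 (exSig S G I)}
    {b : Interp (exSig S G I) (exSig S G I)} {Q Q' : QFam (exSig S G I)} {k : (exSig S G I).K}
    (h : ∀ k', Relation.TransGen (qEx2R S G I) k' k → Q k' = Q' k') :
    qEx2F QS d b Q k = qEx2F QS d b Q' k := by
  match k, h with
  | .inl k, _ => rfl
  | .inr ⟨a, l, i, false⟩, h => exact qEx2w_congr (qEx2B_inr i false) h _ _ _
  | .inr ⟨a, l, i, true⟩, h => exact qEx2w_congr (qEx2B_inr i true) h _ _ _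

theorem qEx2_fix [S.Good] [S.Strat] (laws : ∀ a, (G a).Laws) (full : ∀ a p, (G a).ok p)
    (ne : ∀ a, Nonempty (G a).C)
    (QS : QFam S) (d : L0 (exSig S G I)) (b : Interp (exSig S G I) (exSig S G I)) :
    ∃ Q : QFam (exSig S G I), ∀ k, (exSig S G I).kok k → Q k = qEx2F QS d b Q k := by
  have : ∀ k : (exSig S G I).K,
      Nonempty ((exSig S G I).T (CV ((exSig S G I).ar k).C ((exSig S G I).ar k).C)) := by
    rintro (k | ⟨a, l, i, c⟩)
    · obtain ⟨p⟩ := Sig.Good.ar_ne k
      exact ⟨.var (.z p)⟩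
    · obtain ⟨p⟩ := ne a
      exact ⟨.var (.z p)⟩
  have hE := exSig_good (I := I) laws full ne (S := S)
  have hokR : ∀ k k', (exSig S G I).kok k → qEx2R S G I k' k → (exSig S G I).kok k' := by
    rintro k k' hk ((h | h) | ⟨a, l, i, c, rfl, h⟩)
    · exact hasOp_ok (Sig.Good.ok_bs k hk) h
    · exact hasOp_ok (Sig.Good.ok_bt k hk) h
    · exact hasOp_ok ((XT.tok_toTm full l).2 hk.1) h
  exact exists_of_acc (I := (exSig S G I).K) (qEx2R S G I)
    (T := fun k => (exSig S G I).T (CV ((exSig S G I).ar k).C ((exSig S G I).ar k).C))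
    (exSig S G I).kok qEx2_wf hokR
    (fun k Q => Q k = qEx2F QS d b Q k)
    (fun k Q Q' _ h1 h2 h3 => (h2.symm.trans h3).trans (qEx2F_congr h1))
    (fun k Q hk _ => by
      have hne : ∀ k', Relation.TransGen (qEx2R S G I) k' k → k' ≠ k := by
        rintro k' h rfl
        exact q2Ex_irrefl (qEx2_wf k' hk) h
      refine ⟨Function.update Q k (qEx2F QS d b Q k),
        fun k' hk' => Function.update_of_ne (hne k' hk') _ _, ?_⟩
      refine (Function.update_self _ _ _).trans ?_
      exact qEx2F_congr fun k' hk' => (Function.update_of_ne (hne k' hk') _ _).symm)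

/-! ### the operations of `S` -/

theorem qEx2_trans_up {b : Interp (exSig S G I) (exSig S G I)}
    (hbS : ∀ k : S.K, b (.inl k) = .op (.inl k) .var) {V : Type} (s : S.T V) :
    trans b (trans (jI S G I) s) = trans (jI S G I) s := by
  induction s with
  | var v => rfl
  | op k γ ih =>
    show Tm.bind (b (.inl k)) (fun p => trans b (trans (jI S G I) (γ p))) =
      Tm.op (Sum.inl k : exK S G I) (fun p => trans (jI S G I) (γ p))
    rw [hbS k]
    exact congrArg (Tm.op (Sum.inl k : exK S G I)) (funext ih)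

theorem qEx2_ext_up {x : XFam S} {QS : QFam S} {b : Interp (exSig S G I) (exSig S G I)}
    (hbS : ∀ k : S.K, b (.inl k) = .op (.inl k) .var) {Q : QFam (exSig S G I)} {W : Glob}
    (t : S.T W.C) (hQ : ∀ k, t.HasOp k → Q (.inl k) = upT (QS k)) :
    trans (jI S G I) (ext2 (Cyl0 x W).m (idI S) QS (fun p => .var (.z p))
        (fun p => .var (.top p)) (fun p => .var (.cyl p)) t) =
      qEx2e (fun i => trans (jI S G I) (x i)) b Q W (trans (jI S G I) t) := by
  induction t with
  | var v => rfl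
  | op k γ ih =>
    have ih' := fun p => ih p fun k' hk' => hQ k' (Or.inr ⟨p, hk'⟩)
    have e1 : Q (.inl k) = trans (jI S G I) (QS k) := (hQ k (Or.inl rfl)).trans (trans_jI _).symm
    show trans (jI S G I) ((QS k).bind (CV.elim (fun p => (γ p).bind (fun p => .var (.z p)))
        (fun p => (trans (idI S) (γ p)).bind (fun p => .var (.top p)))
        (fun p => ext2 (Cyl0 x W).m (idI S) QS (fun p => .var (.z p))
        (fun p => .var (.top p)) (fun p => .var (.cyl p)) (γ p)))) =
      Tm.bind (Q (.inl k)) (CV.elim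
        (fun p => Tm.bind (trans (jI S G I) (γ p)) (fun p => .var (.z p)))
        (fun p => Tm.bind (trans b (trans (jI S G I) (γ p))) (fun p => .var (.top p)))
        (fun p => qEx2e (fun i => trans (jI S G I) (x i)) b Q W (trans (jI S G I) (γ p))))
    rw [e1]
    refine (trans_bind (jI S G I) (QS k) _).trans ?_
    congr 1
    funext v
    cases v with
    | z p => exact trans_bind (jI S G I) (γ p) _
    | top p =>
      refine (congrArg (fun t => trans (jI S G I) (Tm.bind t (fun p => .var (CV.top p))))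
        (trans_id (γ p))).trans ?_
      refine (trans_bind (jI S G I) (γ p) _).trans ?_
      exact (congrArg (fun t => Tm.bind t (fun p => .var (CV.top p)))
        (qEx2_trans_up hbS (γ p))).symm
    | cyl p => exact ih' p

/-- the fillers of the operations of `S` -/
theorem qEx2_inl [S.Good] [S.Strat] {d : L0 S} (hd : d.Good) {QS : QFam S}
    (hQS : Q2Good d.x (idI S) QS) {b : Interp (exSig S G I) (exSig S G I)}
    (hbS : ∀ k : S.K, b (.inl k) = .op (.inl k) .var) {Q : QFam (exSig S G I)}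
    (hQ : ∀ k, S.kok k → Q (.inl k) = upT (QS k)) {k : S.K} (hk : S.kok k) :
    Q2GoodAt (d.tr (jI S G I)).x b Q (.inl k) := by
  have hjG := jI_good (S := S) (G := G) (I := I)
  have hx := (L0.tr_good hjG hd).hx
  obtain ⟨h1, h2⟩ := hQS k hk
  have hlaws := Sig.Good.ar_laws k hk
  have hlaws2 : (ofGlob S (S.ar k)).m.toGlob.Laws := m_laws (ofGlob S (S.ar k))
  have hp : (ofGlob S (S.ar k)).m.toGlob.ok (.op k .var) := q2Ex_isK hk
  obtain ⟨h3, h4, h5, h6⟩ := L0Tr.cylAt_cast (Cyl0_tr (jI S G I) d.x (S.ar k))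
    (V := CV (S.ar k).C (S.ar k).C) rfl rfl (L0Tr.cylAt_trans hjG h2)
  have htok := L0Tr.tok_cast (Cyl0_tr (jI S G I) d.x (S.ar k))
    (V := CV (S.ar k).C (S.ar k).C) rfl rfl (trans (jI S G I) (QS k))
    (trans (jI S G I) ((Cyl0 d.x (S.ar k)).tsrc (QS k)))
    (trans (jI S G I) ((Cyl0 d.x (S.ar k)).ttgt (QS k))) _ _
    (trans_mapAt hjG (Cyl0 d.x (S.ar k)) (QS k) h1)
  have hQk : Q (.inl k) = trans (jI S G I) (QS k) := (hQ k hk).trans (trans_jI _).symm
  -- the two extensions agree on translated terms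
  have he : ∀ t, (ofGlob S (S.ar k)).tok t → trans (jI S G I) (ext2 (Cyl0 d.x (S.ar k)).m (idI S)
      QS (fun p => .var (.z p)) (fun p => .var (.top p)) (fun p => .var (.cyl p)) t) =
      qEx2e (d.tr (jI S G I)).x b Q (S.ar k) (trans (jI S G I) t) := fun t ht =>
    qEx2_ext_up hbS t fun k' hk' => hQ k' (hasOp_ok ht hk')
  have hbd : ∀ q, trans (jI S G I) ((ofGlob S (S.ar k)).m.toGlob.bd (.op k .var) q) =
      (ofGlob (exSig S G I) (S.ar k)).m.toGlob.bd (trans (jI S G I) (.op k .var)) q := fun q =>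
    map_bd (G := (ofGlob S (S.ar k)).m.toGlob)
      (H := (ofGlob (exSig S G I) (S.ar k)).m.toGlob) (f := trans (jI S G I)) hp
      (fun y hy _ => trans_mapAt hjG (ofGlob S (S.ar k)) y hy) q
  have hcs := cs_comp (M := (Cyl0 (d.tr (jI S G I)).x (S.ar k)).m) (d.tr (jI S G I)).x
    (W := (ofGlob (exSig S G I) (S.ar k)).m.toGlob) (W' := (ofGlob S (S.ar k)).m.toGlob)
    (trans (jI S G I)) (fun t => Tm.map t CV.z) (fun t => Tm.map (trans b t) CV.top)
    (qEx2e (d.tr (jI S G I)).x b Q (S.ar k)) (.op k .var) rfl hbd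
  have hee : qEx2e (d.tr (jI S G I)).x b Q (S.ar k)
      (.op (Sum.inl k : exK S G I) .var : (exSig S G I).T (S.ar k).C) =
      trans (jI S G I) (ext2 (Cyl0 d.x (S.ar k)).m (idI S)
      QS (fun p => .var (.z p)) (fun p => .var (.top p)) (fun p => .var (.cyl p))
        (.op k .var)) := (he _ hp).symm
  have hβ : ∀ t : S.T (S.ar k).C, trans (jI S G I) (Tm.map (trans (idI S) t)
      (CV.top : (S.ar k).C → CV (S.ar k).C (S.ar k).C)) =
      Tm.map (trans b (trans (jI S G I) t)) (CV.top : (S.ar k).C → CV (S.ar k).C (S.ar k).C) :=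
    fun t => ((congrArg (fun t => trans (jI S G I)
      (Tm.map t (CV.top : (S.ar k).C → CV (S.ar k).C (S.ar k).C))) (trans_id t)).trans
      (trans_map (jI S G I) t (CV.top : (S.ar k).C → CV (S.ar k).C (S.ar k).C))).trans
      (congrArg (fun t => Tm.map t (CV.top : (S.ar k).C → CV (S.ar k).C (S.ar k).C))
        (qEx2_trans_up hbS t)).symm
  refine ⟨?_, ?_, ?_, ?_, ?_⟩
  · rw [hQk]
    exact htok.1
  · exact (congrArg (Cyl0 (d.tr (jI S G I)).x (S.ar k)).tok hee).mpr h3
  · exact (congrArg (Cyl0 (d.tr (jI S G I)).x (S.ar k)).tdim hee).trans h4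
  · refine (congrArg (Cyl0 (d.tr (jI S G I)).x (S.ar k)).tsrc hee).trans (h5.trans ?_)
    refine Eq.trans ?_ hcs
    refine cs_congr (W := (ofGlob S (S.ar k)).m.toGlob) (N := 0) (hx (S.dm k)).1 ?_ ?_ ?_
    · intro q _
      exact trans_map (jI S G I) _ _
    · intro q _ _
      exact hβ _
    · intro q _ _
      exact he _ (ok_bd hp q)
  · exact (congrArg (Cyl0 (d.tr (jI S G I)).x (S.ar k)).ttgt hee).trans (h6.trans (hβ _))

/-! ### the new operations -/

/-- the boundaries of the cell `ex false l` -/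
theorem qEx2_bd_false {a : A} (l : XT S G I a) (i : I) {q : D}
    (hq : q.1 < (ofGlob (exSig S G I) (G a)).tdim l.toTm) :
    (ofGlob (exSig S G I) (G a)).m.toGlob.bd
      (.op (.inr ⟨a, l, i, false⟩ : exK S G I) .var) q =
      (ofGlob (exSig S G I) (G a)).m.toGlob.bd l.toTm q := by
  obtain ⟨n, hn⟩ : ∃ n, (ofGlob (exSig S G I) (G a)).tdim l.toTm - q.1 = n + 1 :=
    ⟨(ofGlob (exSig S G I) (G a)).tdim l.toTm - q.1 - 1, by omega⟩
  have hd := XT.tdim_toTm l
  have e1 : (ofGlob (exSig S G I) (G a)).m.toGlob.bd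
      (.op (.inr ⟨a, l, i, false⟩ : exK S G I) .var) q =
      (if q.2 then (ofGlob (exSig S G I) (G a)).ttgt else (ofGlob (exSig S G I) (G a)).tsrc)^[
        l.dim - q.1] (.op (.inr ⟨a, l, i, false⟩ : exK S G I) .var) := rfl
  have e2 : (ofGlob (exSig S G I) (G a)).m.toGlob.bd l.toTm q =
      (if q.2 then (ofGlob (exSig S G I) (G a)).ttgt else (ofGlob (exSig S G I) (G a)).tsrc)^[
        (ofGlob (exSig S G I) (G a)).tdim l.toTm - q.1] l.toTm := rfl
  rw [e1, e2, ← hd, hn, Function.iterate_succ_apply, Function.iterate_succ_apply]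
  congr 1
  cases q.2 with
  | false =>
    exact (Tm.bind_var_self l.src.toTm).trans (XT.tsrc_toTm l).symm
  | true =>
    exact (Tm.bind_var_self l.tgt.toTm).trans (XT.ttgt_toTm l).symm

/-- the boundaries of the cell `ex true l` -/
theorem qEx2_bd_true {a : A} (l : XT S G I a) (i : I) {q : D}
    (hq : q.1 < (ofGlob (exSig S G I) (G a)).tdim l.toTm) :
    (ofGlob (exSig S G I) (G a)).m.toGlob.bd
      (.op (.inr ⟨a, l, i, true⟩ : exK S G I) .var) q =
      (ofGlob (exSig S G I) (G a)).m.toGlob.bd l.toTm q := by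
  obtain ⟨n, hn⟩ : ∃ n, (ofGlob (exSig S G I) (G a)).tdim l.toTm - q.1 = n + 1 :=
    ⟨(ofGlob (exSig S G I) (G a)).tdim l.toTm - q.1 - 1, by omega⟩
  have hn2 : (ofGlob (exSig S G I) (G a)).tdim l.toTm + 1 - q.1 = n + 2 := by omega
  have hd := XT.tdim_toTm l
  have e1 : (ofGlob (exSig S G I) (G a)).m.toGlob.bd
      (.op (.inr ⟨a, l, i, true⟩ : exK S G I) .var) q =
      (if q.2 then (ofGlob (exSig S G I) (G a)).ttgt else (ofGlob (exSig S G I) (G a)).tsrc)^[
        l.dim + 1 - q.1] (.op (.inr ⟨a, l, i, true⟩ : exK S G I) .var) := rfl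
  have e2 : (ofGlob (exSig S G I) (G a)).m.toGlob.bd l.toTm q =
      (if q.2 then (ofGlob (exSig S G I) (G a)).ttgt else (ofGlob (exSig S G I) (G a)).tsrc)^[
        (ofGlob (exSig S G I) (G a)).tdim l.toTm - q.1] l.toTm := rfl
  rw [e1, e2, ← hd, hn, hn2]
  cases q.2 with
  | false =>
    rw [Function.iterate_succ_apply]
    congr 1
    exact Tm.bind_var_self l.toTm
  | true =>
    rw [Function.iterate_succ_apply, Function.iterate_succ_apply, Function.iterate_succ_apply]
    congr 1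
    exact (Tm.bind_var_self l.tgt.toTm).trans (XT.ttgt_toTm l).symm

theorem qEx2_bd_src {a : A} (l : XT S G I a) (i : I) :
    (ofGlob (exSig S G I) (G a)).m.toGlob.bd
      (.op (.inr ⟨a, l, i, true⟩ : exK S G I) .var)
      ((ofGlob (exSig S G I) (G a)).tdim l.toTm, false) = l.toTm := by
  have hd := XT.tdim_toTm l
  have e1 : (ofGlob (exSig S G I) (G a)).m.toGlob.bd
      (.op (.inr ⟨a, l, i, true⟩ : exK S G I) .var)
      ((ofGlob (exSig S G I) (G a)).tdim l.toTm, false) =
      (ofGlob (exSig S G I) (G a)).tsrc^[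
        l.dim + 1 - (ofGlob (exSig S G I) (G a)).tdim l.toTm]
        (.op (.inr ⟨a, l, i, true⟩ : exK S G I) .var) := rfl
  rw [e1, hd, Nat.add_sub_cancel_left]
  exact Tm.bind_var_self l.toTm

theorem qEx2_bd_tgt {a : A} (l : XT S G I a) (i : I) :
    (ofGlob (exSig S G I) (G a)).m.toGlob.bd
      (.op (.inr ⟨a, l, i, true⟩ : exK S G I) .var)
      ((ofGlob (exSig S G I) (G a)).tdim l.toTm, true) =
      .op (.inr ⟨a, l, i, false⟩ : exK S G I) .var := by
  have hd := XT.tdim_toTm l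
  have e1 : (ofGlob (exSig S G I) (G a)).m.toGlob.bd
      (.op (.inr ⟨a, l, i, true⟩ : exK S G I) .var)
      ((ofGlob (exSig S G I) (G a)).tdim l.toTm, true) =
      (ofGlob (exSig S G I) (G a)).ttgt^[
        l.dim + 1 - (ofGlob (exSig S G I) (G a)).tdim l.toTm]
        (.op (.inr ⟨a, l, i, true⟩ : exK S G I) .var) := rfl
  rw [e1, hd, Nat.add_sub_cancel_left]
  rfl

/-- the hypotheses of `w0_spec`, `w1_spec` at the term `l` -/
structure QEx2Pre (x : XFam (exSig S G I)) (b : Interp (exSig S G I) (exSig S G I))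
    (Q : QFam (exSig S G I)) {a : A} (l : XT S G I a) (i : I) : Prop where
  hp : (ofGlob (exSig S G I) (G a)).m.toGlob.ok l.toTm
  hα : ∀ r : D, r.1 ≤ (ofGlob (exSig S G I) (G a)).m.toGlob.dim l.toTm →
    MapAt (ofGlob (exSig S G I) (G a)).m.toGlob (Cyl0 x (G a)).m.toGlob (qEx2α x (G a))
      ((ofGlob (exSig S G I) (G a)).m.toGlob.bd l.toTm r)
  hβ : ∀ r : D, r.1 ≤ (ofGlob (exSig S G I) (G a)).m.toGlob.dim l.toTm →
    MapAt (ofGlob (exSig S G I) (G a)).m.toGlob (Cyl0 x (G a)).m.toGlob (qEx2β x b (G a))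
      ((ofGlob (exSig S G I) (G a)).m.toGlob.bd l.toTm r)
  hc : ∀ r : D, r.1 ≤ (ofGlob (exSig S G I) (G a)).m.toGlob.dim l.toTm →
    CylAt (Cyl0 x (G a)).m x (ofGlob (exSig S G I) (G a)).m.toGlob (qEx2α x (G a))
      (qEx2β x b (G a)) (qEx2e x b Q (G a)) ((ofGlob (exSig S G I) (G a)).m.toGlob.bd l.toTm r)
  ha : (Cyl0 x (G a)).tok (.op (.inr ⟨a, l, i, true⟩ : exK S G I) (fun p => .var (.z p)))
  hb : (Cyl0 x (G a)).tok (Tm.map (b (.inr ⟨a, l, i, true⟩)) CV.top)
  db : (Cyl0 x (G a)).tdim (Tm.map (b (.inr ⟨a, l, i, true⟩)) CV.top) = l.dim + 1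
  sb : (Cyl0 x (G a)).tsrc (Tm.map (b (.inr ⟨a, l, i, true⟩)) CV.top) = qEx2β x b (G a) l.toTm
  tb : (Cyl0 x (G a)).ttgt (Tm.map (b (.inr ⟨a, l, i, true⟩)) CV.top) =
    Tm.map (b (.inr ⟨a, l, i, false⟩)) CV.top

theorem qEx2_pre [S.Good] (laws : ∀ a, (G a).Laws) (full : ∀ a p, (G a).ok p)
    (ne : ∀ a, Nonempty (G a).C) {x : XFam (exSig S G I)} (hx : ∀ j, XGoodAt x 0 j)
    {b : Interp (exSig S G I) (exSig S G I)} (hb : b.Good) {Q : QFam (exSig S G I)}
    {a : A} {l : XT S G I a} (hl : l.ok) (h0 : 0 < l.dim) (i : I)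
    (hlow : ∀ k' r, Tm.HasOp k' ((ofGlob (exSig S G I) (G a)).m.toGlob.bd l.toTm r) →
      Q2GoodAt x b Q k') : QEx2Pre x b Q l i := by
  have hE := exSig_good (I := I) laws full ne (S := S)
  have hlaws := laws a
  have hlaws2 : (ofGlob (exSig S G I) (G a)).m.toGlob.Laws := m_laws (ofGlob (exSig S G I) (G a))
  have hp : (ofGlob (exSig S G I) (G a)).m.toGlob.ok l.toTm := (XT.tok_toTm full l).2 hl
  have hz : ∀ v, (ofGlob (exSig S G I) (G a)).ok v → AsgAt (ofGlob (exSig S G I) (G a))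
      (Cyl0 x (G a)).m (fun p => .var (.z p)) v := fun v hv => ⟨hv, rfl, fun _ => ⟨rfl, rfl⟩⟩
  have htop : ∀ v, (ofGlob (exSig S G I) (G a)).ok v → AsgAt (ofGlob (exSig S G I) (G a))
      ((Cyl0 x (G a)).m.pull b) (fun p => .var (.top p)) v := fun v hv =>
    ⟨hv, rfl, fun _ => ⟨rfl, rfl⟩⟩
  have htop' : ∀ v, (ofGlob (exSig S G I) (G a)).ok v → AsgAt (ofGlob (exSig S G I) (G a))
      (Cyl0 x (G a)).m (fun p => .var (.top p)) v := fun v hv => ⟨hv, rfl, fun _ => ⟨rfl, rfl⟩⟩
  have hk1 : (exSig S G I).kok (.inr ⟨a, l, i, true⟩) := ⟨hl, h0⟩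
  obtain ⟨b1, b2, b3⟩ := eval_mapAt htop' (b (.inr ⟨a, l, i, true⟩))
    (hb.ok (.inr ⟨a, l, i, true⟩) hk1)
  have hdb : (ofGlob (exSig S G I) (G a)).tdim (b (.inr ⟨a, l, i, true⟩)) = l.dim + 1 :=
    hb.dim (.inr ⟨a, l, i, true⟩) hk1
  obtain ⟨b4, b5⟩ := b3 (lt_of_lt_of_eq (Nat.succ_pos _) hdb.symm)
  refine ⟨hp, ?_, ?_, ?_, ?_, b1, b2.trans hdb, ?_, ?_⟩
  · intro r _
    exact eval_mapAt hz _ (ok_bd hp r)
  · intro r _
    exact ext2_top_mapAt hb (ok_bd hp r) fun v hv => htop v (hasVar_ok (ok_bd hp r) hv)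
  · intro r _
    exact ext2_cylAt hx hb (ok_bd hp r) (fun k' hk' => hlow k' r hk')
      (fun v hv => hz v (hasVar_ok (ok_bd hp r) hv))
      (fun v hv => htop v (hasVar_ok (ok_bd hp r) hv))
      (fun v hv => q2Ex_var (hasVar_ok (ok_bd hp r) hv))
  · exact ⟨hk1, fun p => ⟨full a p, rfl, fun _ => ⟨rfl, rfl⟩⟩⟩
  · exact b4.trans (congrArg (fun t => Tm.bind t (fun p => .var (CV.top p)))
      (hb.src (.inr ⟨a, l, i, true⟩) hk1))
  · refine b5.trans ((congrArg (fun t => Tm.bind t (fun p => .var (CV.top p)))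
      (hb.tgt (.inr ⟨a, l, i, true⟩) hk1)).trans ?_)
    exact congrArg (fun t => Tm.bind t (fun p => .var (CV.top p)))
      (Tm.bind_var_self (b (.inr ⟨a, l, i, false⟩)))

/-- the filler of an operation is its own extension -/
theorem qEx2_self (x : XFam (exSig S G I)) (b : Interp (exSig S G I) (exSig S G I))
    (Q : QFam (exSig S G I)) {a : A} (l : XT S G I a) (i : I) (c : Bool) :
    qEx2e x b Q (G a) (.op (.inr ⟨a, l, i, c⟩ : exK S G I) .var) = Q (.inr ⟨a, l, i, c⟩) := by
  have h : (CV.elim (fun p => .var (.z p)) (fun p => .var (.top p)) (fun p => .var (.cyl p)) :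
      CV (G a).C (G a).C → (exSig S G I).T (CV (G a).C (G a).C)) = Tm.var := by
    funext v
    cases v <;> rfl
  have h2 : Tm.bind (Q (.inr ⟨a, l, i, c⟩)) (CV.elim (fun p => .var (.z p))
      (fun p => .var (.top p)) (fun p => .var (.cyl p)) :
      CV (G a).C (G a).C → (exSig S G I).T (CV (G a).C (G a).C)) = Q (.inr ⟨a, l, i, c⟩) := by
    rw [h]
    exact Tm.bind_var_self _
  exact h2

theorem qEx2_inr_false [S.Good] (laws : ∀ a, (G a).Laws) (full : ∀ a p, (G a).ok p)
    (ne : ∀ a, Nonempty (G a).C) {d : L0 (exSig S G I)} (hd : d.Good)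
    {b : Interp (exSig S G I) (exSig S G I)} {Q : QFam (exSig S G I)}
    {a : A} {l : XT S G I a} {i : I} (H : QEx2Pre d.x b Q l i)
    (hQ : Q (.inr ⟨a, l, i, false⟩) = qEx2w d.x b Q (G a) l.toTm
      (.op (.inr ⟨a, l, i, true⟩) (fun p => .var (.z p)))
      (Tm.map (b (.inr ⟨a, l, i, true⟩)) CV.top) d.w0) :
    Q2GoodAt d.x b Q (.inr ⟨a, l, i, false⟩) := by
  have hE := exSig_good (I := I) laws full ne (S := S)
  have hlaws := laws a
  have hlaws2 : (ofGlob (exSig S G I) (G a)).m.toGlob.Laws := m_laws (ofGlob (exSig S G I) (G a))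
  have hgood : (Cyl0 d.x (G a)).Good := Cyl0_good hd.hx
  have hlaws3 : (Cyl0 d.x (G a)).m.toGlob.Laws := m_laws (Cyl0 d.x (G a))
  have hdim : (ofGlob (exSig S G I) (G a)).m.toGlob.dim l.toTm = l.dim := XT.tdim_toTm l
  obtain ⟨w, hw, w1, w2, w3, w4⟩ := w0_spec hd (W := (ofGlob (exSig S G I) (G a)).m.toGlob)
    (M := (Cyl0 d.x (G a)).m) (p := l.toTm) H.hp H.hα H.hβ H.hc
    (a1 := .op (.inr ⟨a, l, i, true⟩ : exK S G I) (fun p => .var (.z p)))
    (b1 := Tm.map (b (.inr ⟨a, l, i, true⟩)) CV.top) H.ha (congrArg (· + 1) hdim).symm rfl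
    H.hb (H.db.trans (congrArg (· + 1) hdim).symm) H.sb
  have hQw : Q (.inr ⟨a, l, i, false⟩) = w := hQ.trans hw.symm
  refine q2Ex_iff.2 ⟨?_, ?_, ?_, ?_⟩
  · exact (congrArg (Cyl0 d.x (G a)).tok hQw).mpr w1
  · exact (congrArg (Cyl0 d.x (G a)).tdim hQw).trans (w2.trans (congrArg (· + 1) hdim))
  · refine (congrArg (Cyl0 d.x (G a)).tsrc hQw).trans (w4.trans ?_)
    have key := eval_congr (M := (Cyl0 d.x (G a)).m)
      (X := CylG d.x (diskG ((ofGlob (exSig S G I) (G a)).m.toGlob.dim l.toTm)) 0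
      ((ofGlob (exSig S G I) (G a)).m.toGlob.dim l.toTm))
      (γ := CV.elim (fun q : D => if q.1 < (ofGlob (exSig S G I) (G a)).m.toGlob.dim l.toTm then
          qEx2α d.x (G a) ((ofGlob (exSig S G I) (G a)).m.toGlob.bd l.toTm q) else
          (Cyl0 d.x (G a)).m.tgt (.op (.inr ⟨a, l, i, true⟩ : exK S G I) (fun p => .var (.z p))))
        (fun q : D => qEx2β d.x b (G a) ((ofGlob (exSig S G I) (G a)).m.toGlob.bd l.toTm q))
        (fun q : D => qEx2e d.x b Q (G a) ((ofGlob (exSig S G I) (G a)).m.toGlob.bd l.toTm q)))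
      (γ' := CV.elim
        (fun q : D => qEx2α d.x (G a) ((ofGlob (exSig S G I) (G a)).m.toGlob.bd
          (.op (.inr ⟨a, l, i, false⟩ : exK S G I) .var) q))
        (fun q : D => qEx2β d.x b (G a) ((ofGlob (exSig S G I) (G a)).m.toGlob.bd
          (.op (.inr ⟨a, l, i, false⟩ : exK S G I) .var) q))
        (fun q : D => qEx2e d.x b Q (G a) ((ofGlob (exSig S G I) (G a)).m.toGlob.bd
          (.op (.inr ⟨a, l, i, false⟩ : exK S G I) .var) q)))
      (d.x ((ofGlob (exSig S G I) (G a)).m.toGlob.dim l.toTm)) (hd.hx _).1 (by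
        intro v hv
        cases v with
        | z q =>
          have hq : q.1 < (ofGlob (exSig S G I) (G a)).m.toGlob.dim l.toTm ∨
            (q.1 = (ofGlob (exSig S G I) (G a)).m.toGlob.dim l.toTm ∧ q.2 = false) := hv
          by_cases hlt : q.1 < (ofGlob (exSig S G I) (G a)).m.toGlob.dim l.toTm
          · exact (if_pos hlt).trans (congrArg (qEx2α d.x (G a)) (qEx2_bd_false l i hlt).symm)
          · refine (if_neg hlt).trans ?_
            have hle : (ofGlob (exSig S G I) (G a)).m.toGlob.dim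
                (.op (.inr ⟨a, l, i, false⟩ : exK S G I) .var) ≤ q.1 := by
              show l.dim ≤ q.1
              omega
            exact (congrArg (qEx2α d.x (G a))
              (bd_of_le (G := (ofGlob (exSig S G I) (G a)).m.toGlob) _ q hle)).symm
        | top q =>
          obtain ⟨-, -, h2⟩ := hv
          exact congrArg (qEx2β d.x b (G a)) (qEx2_bd_false l i h2).symm
        | cyl q =>
          obtain ⟨-, -, h2⟩ := hv
          exact congrArg (qEx2e d.x b Q (G a)) (qEx2_bd_false l i h2).symm)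
    refine key.trans ?_
    exact congrArg ((Cyl0 d.x (G a)).m.eval _) (congrArg d.x hdim)
  · exact (congrArg (Cyl0 d.x (G a)).ttgt hQw).trans (w3.trans H.tb)

theorem qEx2_pair {q : D} {n : ℕ} (h : ¬ q = (n, false)) (h2 : q.1 = n) : q = (n, true) := by
  obtain ⟨q1, q2⟩ := q
  cases q2 with
  | false => exact (h (Prod.ext h2 rfl)).elim
  | true => exact Prod.ext h2 rfl

theorem qEx2_inr_true [S.Good] (laws : ∀ a, (G a).Laws) (full : ∀ a p, (G a).ok p)
    (ne : ∀ a, Nonempty (G a).C) {d : L0 (exSig S G I)} (hd : d.Good)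
    {b : Interp (exSig S G I) (exSig S G I)} {Q : QFam (exSig S G I)}
    {a : A} {l : XT S G I a} {i : I} (H : QEx2Pre d.x b Q l i)
    (hQ0 : Q (.inr ⟨a, l, i, false⟩) = qEx2w d.x b Q (G a) l.toTm
      (.op (.inr ⟨a, l, i, true⟩) (fun p => .var (.z p)))
      (Tm.map (b (.inr ⟨a, l, i, true⟩)) CV.top) d.w0)
    (hQ : Q (.inr ⟨a, l, i, true⟩) = qEx2w d.x b Q (G a) l.toTm
      (.op (.inr ⟨a, l, i, true⟩) (fun p => .var (.z p)))
      (Tm.map (b (.inr ⟨a, l, i, true⟩)) CV.top) d.w1) :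
    Q2GoodAt d.x b Q (.inr ⟨a, l, i, true⟩) := by
  have hE := exSig_good (I := I) laws full ne (S := S)
  have hlaws := laws a
  have hlaws2 : (ofGlob (exSig S G I) (G a)).m.toGlob.Laws := m_laws (ofGlob (exSig S G I) (G a))
  have hgood : (Cyl0 d.x (G a)).Good := Cyl0_good hd.hx
  have hlaws3 : (Cyl0 d.x (G a)).m.toGlob.Laws := m_laws (Cyl0 d.x (G a))
  have hdim : (ofGlob (exSig S G I) (G a)).m.toGlob.dim l.toTm = l.dim := XT.tdim_toTm l
  obtain ⟨w, w1, w2, w3, w4, hw⟩ := w1_spec hd (W := (ofGlob (exSig S G I) (G a)).m.toGlob)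
    (M := (Cyl0 d.x (G a)).m) (p := l.toTm) H.hp H.hα H.hβ H.hc
    (a1 := .op (.inr ⟨a, l, i, true⟩ : exK S G I) (fun p => .var (.z p)))
    (b1 := Tm.map (b (.inr ⟨a, l, i, true⟩)) CV.top) H.ha (congrArg (· + 1) hdim).symm rfl
    H.hb (H.db.trans (congrArg (· + 1) hdim).symm) H.sb
  have hQw : Q (.inr ⟨a, l, i, true⟩) = w := hQ.trans hw.symm
  have hβt : qEx2β d.x b (G a) (.op (.inr ⟨a, l, i, false⟩ : exK S G I) .var) =
      (Cyl0 d.x (G a)).m.tgt (Tm.map (b (.inr ⟨a, l, i, true⟩)) CV.top) := by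
    refine Eq.trans ?_ H.tb.symm
    exact congrArg (fun t => Tm.bind t (fun p => .var (CV.top p)))
      (Tm.bind_var_self (b (.inr ⟨a, l, i, false⟩)))
  refine q2Ex_iff.2 ⟨?_, ?_, ?_, ?_⟩
  · exact (congrArg (Cyl0 d.x (G a)).tok hQw).mpr w1
  · exact (congrArg (Cyl0 d.x (G a)).tdim hQw).trans (w2.trans (congrArg (· + 2) hdim))
  · refine (congrArg (Cyl0 d.x (G a)).tsrc hQw).trans (w4.trans ?_)
    have key := eval_congr (M := (Cyl0 d.x (G a)).m)
      (X := CylG d.x (diskG ((ofGlob (exSig S G I) (G a)).m.toGlob.dim l.toTm + 1)) 0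
      ((ofGlob (exSig S G I) (G a)).m.toGlob.dim l.toTm + 1))
      (γ := CV.elim
        (fun q : D => if q.1 < (ofGlob (exSig S G I) (G a)).m.toGlob.dim l.toTm then
          qEx2α d.x (G a) ((ofGlob (exSig S G I) (G a)).m.toGlob.bd l.toTm q) else
          if q = ((ofGlob (exSig S G I) (G a)).m.toGlob.dim l.toTm, false) then
            qEx2α d.x (G a) l.toTm
          else if q = ((ofGlob (exSig S G I) (G a)).m.toGlob.dim l.toTm, true) then
            (Cyl0 d.x (G a)).m.tgt (.op (.inr ⟨a, l, i, true⟩ : exK S G I) (fun p => .var (.z p)))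
          else .op (.inr ⟨a, l, i, true⟩ : exK S G I) (fun p => .var (.z p)))
        (fun q : D => if q.1 < (ofGlob (exSig S G I) (G a)).m.toGlob.dim l.toTm then
          qEx2β d.x b (G a) ((ofGlob (exSig S G I) (G a)).m.toGlob.bd l.toTm q) else
          if q = ((ofGlob (exSig S G I) (G a)).m.toGlob.dim l.toTm, false) then
            qEx2β d.x b (G a) l.toTm
          else (Cyl0 d.x (G a)).m.tgt (Tm.map (b (.inr ⟨a, l, i, true⟩)) CV.top))
        (fun q : D => if q.1 < (ofGlob (exSig S G I) (G a)).m.toGlob.dim l.toTm then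
          qEx2e d.x b Q (G a) ((ofGlob (exSig S G I) (G a)).m.toGlob.bd l.toTm q) else
          if q = ((ofGlob (exSig S G I) (G a)).m.toGlob.dim l.toTm, false) then
            qEx2e d.x b Q (G a) l.toTm
          else qEx2w d.x b Q (G a) l.toTm
            (.op (.inr ⟨a, l, i, true⟩ : exK S G I) (fun p => .var (.z p)))
            (Tm.map (b (.inr ⟨a, l, i, true⟩)) CV.top) d.w0))
      (γ' := CV.elim
        (fun q : D => qEx2α d.x (G a) ((ofGlob (exSig S G I) (G a)).m.toGlob.bd
          (.op (.inr ⟨a, l, i, true⟩ : exK S G I) .var) q))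
        (fun q : D => qEx2β d.x b (G a) ((ofGlob (exSig S G I) (G a)).m.toGlob.bd
          (.op (.inr ⟨a, l, i, true⟩ : exK S G I) .var) q))
        (fun q : D => qEx2e d.x b Q (G a) ((ofGlob (exSig S G I) (G a)).m.toGlob.bd
          (.op (.inr ⟨a, l, i, true⟩ : exK S G I) .var) q)))
      (d.x ((ofGlob (exSig S G I) (G a)).m.toGlob.dim l.toTm + 1)) (hd.hx _).1 (by
        have hbs := qEx2_bd_src (S := S) (G := G) l i
        have hbt := qEx2_bd_tgt (S := S) (G := G) l i
        intro v hv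
        cases v with
        | z q =>
          have hq : q.1 < (ofGlob (exSig S G I) (G a)).m.toGlob.dim l.toTm + 1 ∨
            (q.1 = (ofGlob (exSig S G I) (G a)).m.toGlob.dim l.toTm + 1 ∧ q.2 = false) := hv
          by_cases hlt : q.1 < (ofGlob (exSig S G I) (G a)).m.toGlob.dim l.toTm
          · exact (if_pos hlt).trans (congrArg (qEx2α d.x (G a)) (qEx2_bd_true l i hlt).symm)
          · refine (if_neg hlt).trans ?_
            by_cases hq1 : q = ((ofGlob (exSig S G I) (G a)).m.toGlob.dim l.toTm, false)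
            · refine (if_pos hq1).trans ?_
              rw [hq1]
              exact (congrArg (qEx2α d.x (G a)) hbs).symm
            · refine (if_neg hq1).trans ?_
              by_cases hq2 : q = ((ofGlob (exSig S G I) (G a)).m.toGlob.dim l.toTm, true)
              · refine (if_pos hq2).trans ?_
                rw [hq2]
                exact (congrArg (qEx2α d.x (G a)) hbt).symm
              · refine (if_neg hq2).trans ?_
                have hle : (ofGlob (exSig S G I) (G a)).m.toGlob.dim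
                    (.op (.inr ⟨a, l, i, true⟩ : exK S G I) .var) ≤ q.1 := by
                  show l.dim + 1 ≤ q.1
                  by_contra hcon
                  exact hq2 (qEx2_pair hq1 (by omega))
                exact (congrArg (qEx2α d.x (G a))
                  (bd_of_le (G := (ofGlob (exSig S G I) (G a)).m.toGlob) _ q hle)).symm
        | top q =>
          obtain ⟨-, -, h2⟩ := hv
          have h2' : q.1 < (ofGlob (exSig S G I) (G a)).m.toGlob.dim l.toTm + 1 := h2
          by_cases hlt : q.1 < (ofGlob (exSig S G I) (G a)).m.toGlob.dim l.toTm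
          · exact (if_pos hlt).trans (congrArg (qEx2β d.x b (G a)) (qEx2_bd_true l i hlt).symm)
          · refine (if_neg hlt).trans ?_
            by_cases hq1 : q = ((ofGlob (exSig S G I) (G a)).m.toGlob.dim l.toTm, false)
            · refine (if_pos hq1).trans ?_
              rw [hq1]
              exact (congrArg (qEx2β d.x b (G a)) hbs).symm
            · refine (if_neg hq1).trans ?_
              have hq2 : q = ((ofGlob (exSig S G I) (G a)).m.toGlob.dim l.toTm, true) :=
                qEx2_pair hq1 (by omega)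
              rw [hq2]
              exact hβt.symm.trans (congrArg (qEx2β d.x b (G a)) hbt).symm
        | cyl q =>
          obtain ⟨-, -, h2⟩ := hv
          have h2' : q.1 < (ofGlob (exSig S G I) (G a)).m.toGlob.dim l.toTm + 1 := h2
          by_cases hlt : q.1 < (ofGlob (exSig S G I) (G a)).m.toGlob.dim l.toTm
          · exact (if_pos hlt).trans (congrArg (qEx2e d.x b Q (G a)) (qEx2_bd_true l i hlt).symm)
          · refine (if_neg hlt).trans ?_
            by_cases hq1 : q = ((ofGlob (exSig S G I) (G a)).m.toGlob.dim l.toTm, false)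
            · refine (if_pos hq1).trans ?_
              rw [hq1]
              exact (congrArg (qEx2e d.x b Q (G a)) hbs).symm
            · refine (if_neg hq1).trans ?_
              have hq2 : q = ((ofGlob (exSig S G I) (G a)).m.toGlob.dim l.toTm, true) :=
                qEx2_pair hq1 (by omega)
              rw [hq2]
              exact (hQ0.symm.trans (qEx2_self d.x b Q l i false).symm).trans
                (congrArg (qEx2e d.x b Q (G a)) hbt).symm)
    refine key.trans ?_
    exact congrArg ((Cyl0 d.x (G a)).m.eval _) (congrArg (fun n => d.x (n + 1)) hdim)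
  · exact (congrArg (Cyl0 d.x (G a)).ttgt hQw).trans w3

/-- the theorem, given the fillers of `S` -/
theorem qEx2_main [S.Good] [S.Strat] (laws : ∀ a, (G a).Laws)
    (full : ∀ a p, (G a).ok p) (ne : ∀ a, Nonempty (G a).C) {d : L0 S} (hd : d.Good)
    {QS : QFam S} (hQS : Q2Good d.x (idI S) QS)
    {b : Interp (exSig S G I) (exSig S G I)} (hb : b.Good)
    (hbS : ∀ k : S.K, b (.inl k) = .op (.inl k) .var) :
    ∃ Q : QFam (exSig S G I), Q2Good (d.tr (jI S G I)).x b Q := by
  have hE := exSig_good (I := I) laws full ne (S := S)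
  have hdd := L0.tr_good (jI_good (S := S) (G := G) (I := I)) hd
  obtain ⟨Q, hQ⟩ := qEx2_fix laws full ne QS (d.tr (jI S G I)) b
  refine ⟨Q, ?_⟩
  have hokR : ∀ k k', (exSig S G I).kok k → qEx2R S G I k' k → (exSig S G I).kok k' := by
    rintro k k' hk ((h | h) | ⟨a, l, i, c, rfl, h⟩)
    · exact hasOp_ok (Sig.Good.ok_bs k hk) h
    · exact hasOp_ok (Sig.Good.ok_bt k hk) h
    · exact hasOp_ok ((XT.tok_toTm full l).2 hk.1) h
  have hokT : ∀ k' k, Relation.TransGen (qEx2R S G I) k' k → (exSig S G I).kok k →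
      (exSig S G I).kok k' := by
    intro k' k h
    induction h with
    | single h => exact fun hk => hokR _ _ hk h
    | tail _ h ih => exact fun hk => ih (hokR _ _ hk h)
  intro k hk
  have hacc : Acc (Relation.TransGen (qEx2R S G I)) k := (qEx2_wf k hk).transGen
  induction hacc with
  | intro k _ ih =>
    have ih' : ∀ k', Relation.TransGen (qEx2R S G I) k' k →
        Q2GoodAt (d.tr (jI S G I)).x b Q k' := fun k' hk' => ih k' hk' (hokT k' k hk' hk)
    clear ih
    match k, hk, ih' with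
    | .inl k, hk, _ => exact qEx2_inl hd hQS hbS (fun k hk => hQ (.inl k) hk) hk
    | .inr ⟨a, l, i, false⟩, hk, ih' =>
      exact qEx2_inr_false laws full ne hdd
        (qEx2_pre laws full ne hdd.hx hb hk.1 hk.2 i
          (fun k' r hk' => ih' k' (qEx2B_bd (qEx2B_inr i false) r k' hk')))
        (hQ (.inr ⟨a, l, i, false⟩) hk)
    | .inr ⟨a, l, i, true⟩, hk, ih' =>
      exact qEx2_inr_true laws full ne hdd
        (qEx2_pre laws full ne hdd.hx hb hk.1 hk.2 i
          (fun k' r hk' => ih' k' (qEx2B_bd (qEx2B_inr i true) r k' hk')))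
        (hQ (.inr ⟨a, l, i, false⟩) hk) (hQ (.inr ⟨a, l, i, true⟩) hk)

/-- fillers for twists which are the identity on `S` -/
theorem exists_Q_fix [S.Good] [S.Strat] (h : S.Hyp) (laws : ∀ a, (G a).Laws)
    (full : ∀ a p, (G a).ok p) (ne : ∀ a, Nonempty (G a).C) {d : L0 S} (hd : d.Good)
    {b : Interp (exSig S G I) (exSig S G I)} (hb : b.Good)
    (hbS : ∀ k : S.K, b (.inl k) = .op (.inl k) .var) :
    ∃ Q : QFam (exSig S G I), Q2Good (d.tr (jI S G I)).x b Q := by
  obtain ⟨QS, hQS⟩ := exists_Q2 (E := S) hd.hx Strat.sig_wf idI_good (fun k hk L =>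
    have := Sig.Good.ar_laws k hk
    Cyl0_contr h hd.hx (h _ (ArCl.ar k hk)) L)
  exact qEx2_main laws full ne hd hQS hb hbS

end QEx2

end HH
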