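import Pool.Agent.HH.GG

/-!
# HH 2b RO: the object of a code (module to prove)

`leg_spec`: `(tabOf_isTab A).up` applied to `H = GG F (yoneda.obj (rO hF A))` and `y k = ⟨_, rε hF A k⟩`; the
gluing condition is `(rε_isSum hF A).glue` (`GG_bd_false`, `GG_bd_true`); then `dif_pos`.
`rO_up`: for a model `P` and a globular map `f : A → GG F P` put `g k := f (peaks A k)`, an element of
`P (F.D (T.i k))` (its dimension is `A.h (peaks A k) = T.i k` by `(tabOf_isTab A).dim`; write
`f (peaks A k) = ⟨T.i k, g k⟩`). The `g k` are compatible (`IsTab.glue`, `map_bd'` of Bd.lean or the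
uniqueness part of `up`), so `P` being a model gives a unique `x : P (rO A)` with `P.map (rε k).op x = g k`;
`act x ∘ leg` and `f` are globular maps with the same values on the peaks, hence equal (`up`).
`rO_isSum`: for any table `T` and `b` with `IsTab T A b`, the legs at the cells `b k` exhibit `rO A` as the
sum of `T`: a compatible family `y` of arrows extends to a globular map `A → GG F (yoneda.obj Y)`
(`h.up`), and `rO_up` for the model `yoneda.obj Y` gives the arrow.
`app_spec`: by uniqueness in `rO_up` the chosen element in the definition of `app` is `x`.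
-/

set_option autoImplicit false

namespace HH

open Classical CategoryTheory Opposite

open Pool.Agent.HH (Globes)

variable {C : Type} [SmallCategory C] {F : Globes C}

private theorem ro_comp {G H K : Glob} {f : G.C → H.C} {g : H.C → K.C} {x : G.C}
    (hf : MapAt G H f x) (hg : MapAt H K g (f x)) : MapAt G K (fun y => g (f y)) x := by
  obtain ⟨_, h2, h3⟩ := hf
  obtain ⟨k1, k2, k3⟩ := hg
  refine ⟨k1, k2.trans h2, fun h0 => ?_⟩
  have h0' : 0 < H.dim (f x) := by rw [h2]; exact h0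
  obtain ⟨e1, e2⟩ := h3 h0
  obtain ⟨e3, e4⟩ := k3 h0'
  exact ⟨e3.trans (congrArg g e1), e4.trans (congrArg g e2)⟩

private theorem ro_bd {A : PC} {H : Glob} {f : A.P → H.C} (hf : ∀ p, MapAt A.G H f p) (p : A.P)
    (q : D) : f (A.G.bd p q) = H.bd (f p) q :=
  map_bd' (G := A.G) (x := p) trivial (fun _ _ => hf _) q

private theorem ro_cell (P : Cᵒᵖ ⥤ Type) {n : ℕ} (z : (GG F P).C) (h : (GG F P).dim z = n) :
    ∃ g : P.obj (op (F.D n)), z = ⟨n, g⟩ := by
  obtain ⟨m, x⟩ := z
  change m = n at h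
  subst h
  exact ⟨x, rfl⟩

private theorem ro_inj (P : Cᵒᵖ ⥤ Type) {n : ℕ} {x y : P.obj (op (F.D n))}
    (h : (⟨n, x⟩ : (GG F P).C) = ⟨n, y⟩) : x = y :=
  eq_of_heq (Sigma.mk.inj h).2

private theorem ro_glue (P : Cᵒᵖ ⥤ Type) (T : Pool.Agent.HH.Table)
    (g : ∀ k, P.obj (op (F.D (T.i k)))) (k : Fin T.m) :
    (GG F P).bd ⟨T.i k.castSucc, g k.castSucc⟩ (T.i' k, false) =
      (GG F P).bd ⟨T.i k.succ, g k.succ⟩ (T.i' k, true) ↔
    P.map (F.sTo (T.lt_left k).le).op (g k.castSucc) =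
      P.map (F.tTo (T.lt_right k).le).op (g k.succ) := by
  rw [GG_bd_false P (T.lt_left k).le, GG_bd_true P (T.lt_right k).le]
  constructor
  · intro h
    exact ro_inj P h
  · intro h
    rw [h]

private theorem ro_legEx (hF : F.IsExt) (A : PC) :
    ∃ f : A.P → (GG F (yoneda.obj (rO hF A))).C,
      (∀ p, MapAt A.G (GG F (yoneda.obj (rO hF A))) f p) ∧
        ∀ k, f (peaks A k) = ⟨(tabOf A).i k, rε hF A k⟩ := by
  refine ((tabOf_isTab A).up (GG F (yoneda.obj (rO hF A)))
    (fun k => ⟨(tabOf A).i k, rε hF A k⟩) (fun k => ⟨trivial, rfl⟩) (fun k => ?_)).exists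
  exact (ro_glue (yoneda.obj (rO hF A)) (tabOf A) (rε hF A) k).2 ((rε_isSum hF A).glue k)

theorem leg_spec (hF : F.IsExt) (A : PC) :
    (∀ p, MapAt A.G (GG F (yoneda.obj (rO hF A))) (leg hF A) p) ∧
      ∀ k, leg hF A (peaks A k) = ⟨(tabOf A).i k, rε hF A k⟩ := by
  have h := ro_legEx hF A
  have e : leg hF A = h.choose := by
    unfold leg
    rw [dif_pos h]
  rw [e]
  exact h.choose_spec

theorem leg_dim (hF : F.IsExt) (A : PC) (p : A.P) : (leg hF A p).1 = A.h p :=
  ((leg_spec hF A).1 p).2.1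

private theorem ro_mapAt (hF : F.IsExt) (P : Cᵒᵖ ⥤ Type) {A : PC} (x : P.obj (op (rO hF A)))
    (p : A.P) : MapAt A.G (GG F P) (fun p => act F P x (leg hF A p)) p :=
  ro_comp ((leg_spec hF A).1 p) (act_mapAt P x (leg hF A p))

/-- universal property of the object of a code, for models -/
theorem rO_up (hF : F.IsExt) {P : Cᵒᵖ ⥤ Type} (hP : Pool.Agent.HH.IsModel F P) {A : PC}
    (f : A.P → (GG F P).C) (hf : ∀ p, MapAt A.G (GG F P) f p) :
    ∃! x : P.obj (op (rO hF A)), ∀ p, act F P x (leg hF A p) = f p := by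
  have hT := tabOf_isTab A
  have hcell : ∀ k, ∃ g : P.obj (op (F.D ((tabOf A).i k))),
      f (peaks A k) = ⟨(tabOf A).i k, g⟩ := fun k =>
    ro_cell P _ ((hf (peaks A k)).2.1.trans (hT.dim k))
  choose g hg using hcell
  have hglue : ∀ k : Fin (tabOf A).m,
      (GG F P).bd (f (peaks A k.castSucc)) ((tabOf A).i' k, false) =
      (GG F P).bd (f (peaks A k.succ)) ((tabOf A).i' k, true) := by
    intro k
    rw [← ro_bd hf, ← ro_bd hf, hT.glue k]
  have hcomp : ∀ k : Fin (tabOf A).m,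
      P.map (F.sTo ((tabOf A).lt_left k).le).op (g k.castSucc) =
      P.map (F.tTo ((tabOf A).lt_right k).le).op (g k.succ) := by
    intro k
    have h1 := hglue k
    rw [hg, hg] at h1
    exact (ro_glue P (tabOf A) g k).1 h1
  obtain ⟨x, hx, hxu⟩ := hP (tabOf A) (rO hF A) (rε hF A) (rε_isSum hF A) g hcomp
  have hleg := (leg_spec hF A).2
  refine ⟨x, ?_, ?_⟩
  · have hun := (hT.up (GG F P) (fun k => f (peaks A k))
      (fun k => ⟨trivial, (hf (peaks A k)).2.1.trans (hT.dim k)⟩) hglue).unique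
      (y₁ := fun p => act F P x (leg hF A p)) (y₂ := f)
      ⟨fun p => ro_mapAt hF P x p, fun k => by
        change act F P x (leg hF A (peaks A k)) = f (peaks A k)
        rw [hleg k, hg k]
        change (⟨(tabOf A).i k, P.map (rε hF A k).op x⟩ : (GG F P).C) = ⟨(tabOf A).i k, g k⟩
        rw [hx k]⟩
      ⟨hf, fun k => rfl⟩
    intro p
    exact congrFun hun p
  · intro x' hx'
    refine hxu x' fun k => ?_
    have h1 := hx' (peaks A k)
    rw [hleg k, hg k] at h1
    exact ro_inj P h1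

theorem act_leg_mapAt (hF : F.IsExt) (P : Cᵒᵖ ⥤ Type) {A : PC} (x : P.obj (op (rO hF A)))
    (p : A.P) : MapAt A.G (GG F P) (fun p => act F P x (leg hF A p)) p :=
  ro_mapAt hF P x p

/-- the object of a code is the sum of every table of the code -/
theorem rO_isSum (hF : F.IsExt) {T : Pool.Agent.HH.Table} {A : PC} {b : Fin (T.m + 1) → A.P}
    (h : IsTab T A b) :
    ∃ ε : ∀ k, F.D (T.i k) ⟶ rO hF A, (∀ k, leg hF A (b k) = ⟨T.i k, ε k⟩) ∧
      F.IsSum T (rO hF A) ε := by
  have hcell : ∀ k, ∃ ε : F.D (T.i k) ⟶ rO hF A, leg hF A (b k) = ⟨T.i k, ε⟩ := fun k =>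
    ro_cell (yoneda.obj (rO hF A)) _ ((leg_dim hF A (b k)).trans (h.dim k))
  choose ε hε using hcell
  refine ⟨ε, hε, ⟨fun k => ?_, fun Y y hy => ?_⟩⟩
  · have h1 : (GG F (yoneda.obj (rO hF A))).bd (leg hF A (b k.castSucc)) (T.i' k, false) =
        (GG F (yoneda.obj (rO hF A))).bd (leg hF A (b k.succ)) (T.i' k, true) := by
      rw [← ro_bd (leg_spec hF A).1, ← ro_bd (leg_spec hF A).1, h.glue k]
    rw [hε, hε] at h1
    exact (ro_glue (yoneda.obj (rO hF A)) T ε k).1 h1
  · have hup := h.up (GG F (yoneda.obj Y)) (fun k => ⟨T.i k, y k⟩) (fun k => ⟨trivial, rfl⟩)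
      (fun k => (ro_glue (yoneda.obj Y) T y k).2 (hy k))
    obtain ⟨f₀, ⟨hf₀, hf₀b⟩, hf₀u⟩ := hup
    obtain ⟨u, hu, huu⟩ := rO_up hF (yoneda_isModel Y) f₀ hf₀
    refine ⟨u, fun k => ?_, fun u' hu' => ?_⟩
    · have h1 := hu (b k)
      rw [hε k, hf₀b k] at h1
      exact ro_inj (yoneda.obj Y) h1
    · refine huu u' fun p => ?_
      have h2 := hf₀u (fun p => act F (yoneda.obj Y) u' (leg hF A p))
        ⟨fun p => ro_mapAt hF (yoneda.obj Y) u' p, fun k => by
          change act F (yoneda.obj Y) u' (leg hF A (b k)) = ⟨T.i k, y k⟩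
          rw [hε k]
          change (⟨T.i k, ε k ≫ u'⟩ : (GG F (yoneda.obj Y)).C) = ⟨T.i k, y k⟩
          rw [hu' k]⟩
      exact congrFun h2 p

theorem app_spec (hF : F.IsExt) {P : Cᵒᵖ ⥤ Type} (hP : Pool.Agent.HH.IsModel F P) {A : PC}
    (c : GC F (rO hF A)) (γ : A.P → (GG F P).C) (x : P.obj (op (rO hF A)))
    (hx : ∀ p, act F P x (leg hF A p) = γ p) : app hF P c γ = act F P x c := by
  have H : ∃ x : P.obj (op (rO hF A)), ∀ p, act F P x (leg hF A p) = γ p := ⟨x, hx⟩
  have hγ : γ = fun p => act F P x (leg hF A p) := by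
    funext p
    exact (hx p).symm
  have hγm : ∀ p, MapAt A.G (GG F P) γ p := by
    rw [hγ]
    exact fun p => ro_mapAt hF P x p
  have e : H.choose = x := (rO_up hF hP γ hγm).unique H.choose_spec hx
  unfold app
  rw [dif_pos H, e]

end HH
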