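import Pool.Agent.HH.PiF
import Pool.Agent.HH.IsoP

/-!
# HH part 3, PSI e1: spaces representing computads
-/

set_option autoImplicit false

namespace HH

open Classical CategoryTheory

/-- `R` represents the well-typed substitutions of the computad `X` in the models `Π Y` -/
structure IsRep (X : Cptd Cs) (R : TopCat.{0}) (u : X.V → (PiG R).C) : Prop where
  typed : ∀ v, X.ok v → AsgAt X (PiF.obj R).M u v
  desc : ∀ (Y : TopCat.{0}) (γ : X.V → (PiG Y).C),
    (∀ v, X.ok v → AsgAt X (PiF.obj Y).M γ v) →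
    ∃ f : C(R, Y), ∀ v, X.ok v → PiG.map f (u v) = γ v
  uniq : ∀ (Y : TopCat.{0}) (f g : C(R, Y)),
    (∀ v, X.ok v → PiG.map f (u v) = PiG.map g (u v)) → f = g

/-- computads represented by a contractible space -/
def HasRep (X : Cptd Cs) : Prop :=
  ∃ (R : TopCat.{0}) (u : X.V → (PiG R).C), IsRep X R u ∧ ContractibleSpace R

/-- composition of well-typed substitutions -/
theorem AsgAt.comp_eval {S : Sig} {X Y : Cptd S} {M : Model S} [M.OpLaws] {γ : X.V → M.C}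
    (hγ : ∀ v, X.ok v → AsgAt X M γ v) {τ : Y.V → S.T X.V} {v : Y.V} (h : AsgAt Y X.m τ v) :
    AsgAt Y M (fun w => M.eval γ (τ w)) v := by
  obtain ⟨h1, h2, h3⟩ := h
  obtain ⟨i1, i2, i3⟩ := eval_mapAt hγ (τ v) h1
  refine ⟨i1, i2.trans h2, fun h0 => ?_⟩
  obtain ⟨j1, j2⟩ := h3 h0
  obtain ⟨k1, k2⟩ := i3 (by
    have h2' : X.m.dim (τ v) = Y.dim v := h2
    rw [h2']
    exact h0)
  refine ⟨k1.trans ?_, k2.trans ?_⟩
  · rw [j1]
    exact eval_bind M γ τ (Y.src v)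
  · rw [j2]
    exact eval_bind M γ τ (Y.tgt v)

/-- the maps of disks induced by continuous maps commute with the evaluation of terms -/
theorem PiG.map_eval {X : Cptd Cs} {R Y : TopCat.{0}} {γ : X.V → (PiG R).C}
    (hγ : ∀ v, X.ok v → AsgAt X (PiF.obj R).M γ v) (f : C(R, Y)) {t : Cs.T X.V} (ht : X.tok t) :
    PiG.map f ((PiF.obj R).M.eval γ t) = (PiF.obj Y).M.eval (fun v => PiG.map f (γ v)) t :=
  (Sem.eval_occ (σ := PiSem) (r := PiR) (X := X) (Y := R) (γ := γ) (t := t) ht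
    (fun k hk => PiR_good k (hasOp_ok ht hk)) (fun v hv => hγ v (hasVar_ok ht hv))).2 Y
    (TopCat.ofHom f)

theorem HasRep.point {X : Cptd Cs} {v0 : X.V} (h : ∀ v, X.ok v ↔ v = v0) (hd : X.dim v0 = 0) :
    HasRep X := by
  refine ⟨TopCat.of PUnit, fun _ => ⟨0, ContinuousMap.const _ PUnit.unit⟩, ⟨?_, ?_, ?_⟩, ?_⟩
  · intro v hv
    rw [h] at hv
    subst hv
    refine ⟨trivial, hd.symm, fun h0 => ?_⟩
    rw [hd] at h0
    exact absurd h0 (lt_irrefl 0)
  · intro Y γ hγ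
    obtain ⟨-, h1, -⟩ := hγ v0 ((h v0).2 rfl)
    have h2 : (γ v0).1 = 0 := h1.trans hd
    refine ⟨ContinuousMap.const _ (PiG.fn (γ v0) h2 default), fun v hv => ?_⟩
    rw [h] at hv
    subst hv
    refine Eq.trans ?_ (PiG.eq_mk (γ v) h2).symm
    refine PiG.ext_fn (k := 0) rfl rfl ?_
    ext x
    rw [Subsingleton.elim x default]
    rfl
  · intro Y f g hfg
    have h1 := hfg v0 ((h v0).2 rfl)
    have h2 : f.comp (ContinuousMap.const (Dk 0) PUnit.unit) =
        g.comp (ContinuousMap.const (Dk 0) PUnit.unit) := PiG.mk_inj h1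
    ext x
    exact DFunLike.congr_fun h2 default
  · exact inferInstanceAs (ContractibleSpace PUnit)

theorem HasRep.iso {X Y : Cptd Cs} [X.Good] [Y.Good] {σ : X.V → Cs.T Y.V} {τ : Y.V → Cs.T X.V}
    (h : X.IsoP Y σ τ) (hX : HasRep X) : HasRep Y := by
  obtain ⟨hσ, hτ, hστ, hτσ⟩ := h
  obtain ⟨R, u, hu, hc⟩ := hX
  have ht : ∀ v, Y.ok v → AsgAt Y (PiF.obj R).M (fun w => (PiF.obj R).M.eval u (τ w)) v :=
    fun v hv => AsgAt.comp_eval hu.typed (hτ v hv)
  refine ⟨R, fun w => (PiF.obj R).M.eval u (τ w), ⟨ht, ?_, ?_⟩, hc⟩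
  · intro Z γ hγ
    obtain ⟨f, hf⟩ := hu.desc Z (fun w => (PiF.obj Z).M.eval γ (σ w))
      (fun v hv => AsgAt.comp_eval hγ (hσ v hv))
    refine ⟨f, fun v hv => ?_⟩
    have h1 := PiG.map_eval hu.typed f (hτ v hv).1
    refine h1.trans ?_
    rw [eval_congr (X := X) (τ v) (hτ v hv).1 hf, ← eval_bind, hτσ v hv]
    rfl
  · intro Z f g hfg
    refine hu.uniq Z f g fun v hv => ?_
    have e : (PiF.obj R).M.eval (fun w => (PiF.obj R).M.eval u (τ w)) (σ v) = u v := by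
      rw [← eval_bind, hστ v hv]
      rfl
    have h1 := PiG.map_eval (R := R) ht f (hσ v hv).1
    have h2 := PiG.map_eval (R := R) ht g (hσ v hv).1
    rw [e] at h1 h2
    rw [h1, h2]
    exact eval_congr (X := Y) (σ v) (hσ v hv).1 hfg

end HH
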