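import Pool.Agent.HH.RepEx0
import Pool.Agent.HH.Names

/-!
# HH part 3, PSI e3: the spaces `RA A` representing the models `K(A)`
-/

set_option autoImplicit false

namespace HH

open Classical CategoryTheory

/-- the space represented by the model `K(A)`: existence, in terms of morphisms of models -/
theorem exists_RA {z : ZFam Cs} (hz : ZGood z) (A : Nm) :
    ∃ (R : TopCat.{0}) (u : (KM z hz).obj A ⟶ PiF.obj R), ContractibleSpace R ∧
      ∀ (Y : TopCat.{0}) (F : (KM z hz).obj A ⟶ PiF.obj Y), ∃! f : R ⟶ Y, u ≫ PiF.map f = F :=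
  exists_RA_free hz A (KC_simplex_good hz A.1)

end HH
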