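import Pool.Agent.HH.RepExp
import Pool.Agent.HH.KConeInd

/-!
# HH part 3, PSI e3: the simplices of names are represented by contractible spaces

`exists_rep`, and `exists_RA_free`: the form of `exists_RA` for the free model on the simplex.
-/

set_option autoImplicit false

namespace HH

open Classical CategoryTheory

/-! ### Morphisms out of free models -/

section FreeHom

variable {S : Sig} [S.Good] {X : Cptd S} {hX : X.Good} {M : RMod S}

/-- A morphism out of a free model is the evaluation at its values at the genuine variables. -/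
theorem RMod.free_eval (F : RMod.free X hX ⟶ M) (γ : X.V → M.M.C)
    (hγ : ∀ (v : X.V) (hv : X.ok v),
      (RHom.f F ⟨.var v, hv⟩ : M.Cell).1 = γ v) (t : S.T X.V) (ht : X.tok t) :
    (RHom.f F ⟨t, ht⟩ : M.Cell).1 = M.M.eval γ t := by
  induction t with
  | var v => exact hγ v ht
  | op k δ ih =>
    have h1 := RHom.op F k ht.1 (fun p => (⟨δ p, (ht.2 p).1⟩ : (RMod.free X hX).Cell))
      (fun p => ht.2 p)
    refine h1.trans ?_
    show M.M.o k _ = M.M.o k _
    congr 1
    funext p
    exact ih p (ht.2 p).1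

/-- The values of a morphism at the variables are a well-typed substitution. -/
theorem RMod.free_asgAt (F : RMod.free X hX ⟶ M) (γ : X.V → M.M.C)
    (hγ : ∀ (v : X.V) (hv : X.ok v),
      (RHom.f F ⟨.var v, hv⟩ : M.Cell).1 = γ v) (v : X.V) (hv : X.ok v) : AsgAt X M.M γ v := by
  rw [AsgAt, ← hγ v hv]
  refine ⟨(RHom.f F ⟨.var v, hv⟩).2, RHom.dim F ⟨.var v, hv⟩, fun h0 => ⟨?_, ?_⟩⟩
  · exact (RHom.src F ⟨.var v, hv⟩ h0).trans
      (RMod.free_eval F γ hγ (X.src v) (hX.ok_src v hv h0))
  · exact (RHom.tgt F ⟨.var v, hv⟩ h0).trans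
      (RMod.free_eval F γ hγ (X.tgt v) (hX.ok_tgt v hv h0))

/-- Morphisms out of a free model are determined by their values at the genuine variables. -/
theorem RMod.free_ext (F G : RMod.free X hX ⟶ M)
    (h : ∀ (v : X.V) (hv : X.ok v), (RHom.f F ⟨.var v, hv⟩ : M.Cell).1 =
      (RHom.f G ⟨.var v, hv⟩ : M.Cell).1) : F = G := by
  refine RHom.ext (funext fun x => Subtype.ext ?_)
  obtain ⟨t, ht⟩ := x
  let j : M.M.C := (RHom.f F ⟨t, ht⟩ : M.Cell).1
  have h1 := RMod.free_eval F (fun v => if hv : X.ok v then (RHom.f F ⟨.var v, hv⟩ : M.Cell).1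
    else j) (fun v hv => by rw [dif_pos hv]) t ht
  have h2 := RMod.free_eval G (fun v => if hv : X.ok v then (RHom.f G ⟨.var v, hv⟩ : M.Cell).1
    else j) (fun v hv => by rw [dif_pos hv]) t ht
  rw [h1, h2]
  exact eval_congr t ht fun v hv => by rw [dif_pos hv, dif_pos hv, h v hv]

end FreeHom

/-! ### The simplices -/

private theorem KC_congr {S : Sig} (z : ZFam S) {P Q : Finset ℕ → Prop}
    (h : ∀ B : Finset ℕ, B.Nonempty → (P B ↔ Q B)) : KC z P = KC z Q := by
  have h1 : (fun B : Finset ℕ => B.Nonempty ∧ P B) = fun B : Finset ℕ => B.Nonempty ∧ Q B := by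
    funext B
    exact propext (and_congr_right fun hB => h B hB)
  unfold KC
  rw [h1]

theorem exists_rep {z : ZFam Cs} (hz : ZGood z) (A : Nm) :
    HasRep (KC z (fun C => C ⊆ A.1)) := by
  obtain ⟨A, hA⟩ := A
  have hm : A.max' hA ∈ A := A.max'_mem hA
  set m := A.max' hA with hmdef
  have hcone : KC z (fun C => C ⊆ A) =
      KC z (coneP m (fun B => B.Nonempty ∧ B ⊆ A.erase m)) := by
    refine KC_congr z fun B hB => ?_
    constructor
    · intro hBA
      by_cases hmB : m ∈ B
      · by_cases hne : (B.erase m).Nonempty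
        · exact Or.inr (Or.inr ⟨hmB, hne, hne, Finset.erase_subset_erase m hBA⟩)
        · left
          rw [Finset.not_nonempty_iff_eq_empty] at hne
          rw [← Finset.insert_erase hmB, hne]
          rfl
      · refine Or.inr (Or.inl ⟨hB, fun a ha => ?_⟩)
        rw [Finset.mem_erase]
        refine ⟨?_, hBA ha⟩
        rintro rfl
        exact hmB ha
    · rintro (h | ⟨-, h⟩ | ⟨h1, -, -, h2⟩)
      · rw [h]
        intro a ha
        rw [Finset.mem_singleton.1 ha]
        exact hm
      · exact h.trans (Finset.erase_subset m A)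
      · rw [← Finset.insert_erase h1]
        intro a ha
        rcases Finset.mem_insert.1 ha with rfl | ha
        · exact hm
        · exact Finset.erase_subset m A (h2 ha)
  show HasRep (KC z (fun C => C ⊆ A))
  rw [hcone]
  refine KC_cone_ind (N := A.card) (fun n h2 _ => hz n h2) ?_ ?_ ?_ ?_ HasRep ?_ ?_ ?_
  · intro B C hB hCB hC
    exact ⟨hC, hCB.trans hB.2⟩
  · exact fun B hB => hB.1
  · intro B hB a ha
    have h1 := Finset.mem_erase.1 (hB.2 ha)
    exact lt_of_le_of_ne (A.le_max' a h1.2) h1.1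
  · intro B hB
    have h1 := Finset.card_le_card hB.2
    rw [Finset.card_erase_of_mem hm] at h1
    have h2 := Finset.card_pos.2 hA
    omega
  · refine HasRep.point (v0 := ({m} : Finset ℕ)) (fun v => ?_) ?_
    · constructor
      · exact fun h => h.2
      · rintro rfl
        exact ⟨Finset.singleton_nonempty m, rfl⟩
    · show ({m} : Finset ℕ).card - 1 = 0
      rw [Finset.card_singleton]
  · intro X hX hΦ okI n b hb
    exact HasRep.exp okI n b hb hΦ
  · intro X Y σ τ hX hY hiso hΦ
    exact HasRep.iso hiso hΦ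

/-- The universal property in terms of morphisms of models. -/
theorem exists_RA_free {z : ZFam Cs} (hz : ZGood z) (A : Nm)
    (hX : (KC z (fun C => C ⊆ A.1)).Good) :
    ∃ (R : TopCat.{0}) (u : RMod.free (KC z (fun C => C ⊆ A.1)) hX ⟶ PiF.obj R),
      ContractibleSpace R ∧
      ∀ (Y : TopCat.{0}) (F : RMod.free (KC z (fun C => C ⊆ A.1)) hX ⟶ PiF.obj Y),
        ∃! f : R ⟶ Y, u ≫ PiF.map f = F := by
  obtain ⟨R, u, hu, hc⟩ := exists_rep hz A
  refine ⟨R, RMod.freeHom hX u hu.typed, hc, fun Y F => ?_⟩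
  obtain ⟨a, ha⟩ := A.2
  have hva : (KC z (fun C => C ⊆ A.1)).ok ({a} : Finset ℕ) :=
    ⟨Finset.singleton_nonempty a, Finset.singleton_subset_iff.2 ha⟩
  -- the values at the variables
  let γ : (KC z (fun C => C ⊆ A.1)).V → (PiG Y).C := fun v =>
    if hv : (KC z (fun C => C ⊆ A.1)).ok v then (RHom.f F ⟨.var v, hv⟩ : (PiF.obj Y).Cell).1
    else (RHom.f F ⟨.var ({a} : Finset ℕ), hva⟩ : (PiF.obj Y).Cell).1
  have hγ : ∀ (v : (KC z (fun C => C ⊆ A.1)).V) (hv : (KC z (fun C => C ⊆ A.1)).ok v),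
      (RHom.f F ⟨.var v, hv⟩ : (PiF.obj Y).Cell).1 = γ v := by
    intro v hv
    simp only [γ]
    rw [dif_pos hv]
  obtain ⟨f, hf⟩ := hu.desc Y γ (RMod.free_asgAt F γ hγ)
  refine ⟨TopCat.ofHom f, ?_, fun f' hf' => ?_⟩
  · refine RMod.free_ext _ _ fun v hv => ?_
    exact (hf v hv).trans (hγ v hv).symm
  · refine TopCat.hom_ext (hu.uniq Y f'.hom f fun v hv => ?_)
    rw [hf v hv, ← hγ v hv, ← hf']
    rfl

end HH
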