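import Pool.Agent.HH.Rep

/-!
# HH part 3, PSI e2: expansions of represented computads

The expansion is represented by the space `Att r`, the space `R` with disks of dimension `n + 1`
attached along their lower hemispheres by the maps `r i` given by the terms `b i`.
-/

set_option autoImplicit false

namespace HH

open Classical CategoryTheory

/-! ### Pushing a disk to its lower hemisphere -/

/-- Move a point of the disk down to the lower hemisphere along the vertical segment. -/
noncomputable def Dk.mv {n : ℕ} (p : Dk (n + 1) × unitInterval) : Dk (n + 1) :=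
  ⟨Fin.snoc (α := fun _ => ℝ) p.1.init.1 ((1 - p.2.1) * p.1.last - p.2.1 * p.1.init.hgt), by
    rw [Fin.sum_univ_castSucc]
    simp only [Fin.snoc_castSucc, Fin.snoc_last]
    have h1 := p.1.init.hgt_sq
    have h2 := abs_le.1 p.1.abs_last_le
    have h3 := p.1.init.hgt_nonneg
    have h4 := p.2.2
    rw [Set.mem_Icc] at h4
    have h5 : ∑ i, p.1.init.1 i ^ 2 = p.1.init.sq := rfl
    rw [h5]
    have h6 : ((1 - p.2.1) * p.1.last - p.2.1 * p.1.init.hgt) ^ 2 ≤ p.1.init.hgt ^ 2 := by
      apply sq_le_sq'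
      · nlinarith [h2.1, h4.1, h4.2]
      · nlinarith [h2.2, h4.1, h4.2]
    linarith⟩

theorem Dk.continuous_mv (n : ℕ) : Continuous (Dk.mv (n := n)) := by
  refine Continuous.subtype_mk (continuous_pi fun i => ?_) _
  refine Fin.lastCases ?_ (fun i => ?_) i
  · simp only [Fin.snoc_last]
    have h1 : Continuous fun p : Dk (n + 1) × unitInterval => p.2.1 :=
      continuous_subtype_val.comp continuous_snd
    have h2 : Continuous fun p : Dk (n + 1) × unitInterval => p.1.last :=
      Dk.continuous_last.comp continuous_fst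
    have h3 : Continuous fun p : Dk (n + 1) × unitInterval => p.1.init.hgt :=
      Dk.continuous_hgt.comp (Dk.continuous_init.comp continuous_fst)
    exact ((continuous_const.sub h1).mul h2).sub (h1.mul h3)
  · simp only [Fin.snoc_castSucc]
    exact (continuous_apply i).comp
      (Dk.continuous_val.comp (Dk.continuous_init.comp continuous_fst))

theorem Dk.init_mv {n : ℕ} (p : Dk (n + 1) × unitInterval) : (Dk.mv p).init = p.1.init := by
  apply Subtype.ext
  funext i
  show Fin.snoc (α := fun _ => ℝ) p.1.init.1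
    ((1 - p.2.1) * p.1.last - p.2.1 * p.1.init.hgt) i.castSucc = _
  rw [Fin.snoc_castSucc]

theorem Dk.last_mv {n : ℕ} (p : Dk (n + 1) × unitInterval) :
    (Dk.mv p).last = (1 - p.2.1) * p.1.last - p.2.1 * p.1.init.hgt := by
  show Fin.snoc (α := fun _ => ℝ) p.1.init.1
    ((1 - p.2.1) * p.1.last - p.2.1 * p.1.init.hgt) (Fin.last n) = _
  rw [Fin.snoc_last]

theorem Dk.last_sig {n : ℕ} (x : Dk n) : (sig n x).last = -x.hgt := by
  show (x.seg (sgn false)).last = _
  rw [Dk.last_seg]
  show (-1 : ℝ) * x.hgt = _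
  ring

theorem Dk.mv_zero {n : ℕ} (x : Dk (n + 1)) : Dk.mv (x, 0) = x := by
  apply Dk.ext' (Dk.init_mv _)
  rw [Dk.last_mv]
  show (1 - (0 : ℝ)) * x.last - (0 : ℝ) * x.init.hgt = _
  ring

theorem Dk.mv_one {n : ℕ} (x : Dk (n + 1)) : Dk.mv (x, 1) = sig n x.init := by
  apply Dk.ext'
  · rw [Dk.init_mv, Dk.init_sg]
  · rw [Dk.last_mv, Dk.last_sig]
    show (1 - (1 : ℝ)) * x.last - (1 : ℝ) * x.init.hgt = _
    ring

theorem Dk.mv_sig {n : ℕ} (x : Dk n) (t : unitInterval) : Dk.mv (sig n x, t) = sig n x := by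
  apply Dk.ext' (Dk.init_mv _)
  rw [Dk.last_mv]
  show (1 - t.1) * (sig n x).last - t.1 * (sig n x).init.hgt = _
  rw [Dk.last_sig, Dk.init_sg]
  ring

/-! ### Attaching disks along their lower hemispheres -/

section Attach

variable {R : Type} [TopologicalSpace R] {J : Type} {n : ℕ} (r : J → C(Dk n, R))

/-- the identifications -/
inductive AttRel : R ⊕ (Sigma fun _ : J => Dk (n + 1)) → R ⊕ (Sigma fun _ : J => Dk (n + 1)) →
    Prop
  | mk (i : J) (x : Dk n) : AttRel (Sum.inl (r i x)) (Sum.inr ⟨i, sig n x⟩)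

/-- `R` with disks attached along their lower hemispheres -/
def Att : Type := Quot (AttRel r)

instance : TopologicalSpace (Att r) :=
  inferInstanceAs (TopologicalSpace (Quot (AttRel r)))

namespace Att

/-- the inclusion of `R` -/
def base : C(R, Att r) :=
  ⟨fun x => Quot.mk _ (Sum.inl x), continuous_quot_mk.comp continuous_inl⟩

/-- the attached disks -/
def disk (i : J) : C(Dk (n + 1), Att r) :=
  ⟨fun x => Quot.mk _ (Sum.inr ⟨i, x⟩),
    continuous_quot_mk.comp (continuous_inr.comp (continuous_sigmaMk (σ := fun _ : J => Dk (n + 1))))⟩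

theorem disk_sig (i : J) (x : Dk n) : disk r i (sig n x) = base r (r i x) :=
  (Quot.sound (AttRel.mk i x)).symm

theorem disk_comp_sig (i : J) : (disk r i).comp (sig n) = (base r).comp (r i) := by
  ext x
  exact disk_sig r i x

theorem exists_desc {Y : Type*} [TopologicalSpace Y] (f : C(R, Y)) (g : J → C(Dk (n + 1), Y))
    (h : ∀ i x, g i (sig n x) = f (r i x)) :
    ∃ F : C(Att r, Y), (∀ x, F (base r x) = f x) ∧ ∀ i x, F (disk r i x) = g i x := by
  refine ⟨⟨Quot.lift (Sum.elim f (fun p : Sigma fun _ : J => Dk (n + 1) => g p.1 p.2)) ?_, ?_⟩,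
    fun x => rfl, fun i x => rfl⟩
  · rintro _ _ ⟨i, x⟩
    exact (h i x).symm
  · exact continuous_quot_lift _
      (Continuous.sumElim f.continuous (continuous_sigma fun i => (g i).continuous))

theorem hom_ext {Y : Type*} [TopologicalSpace Y] {F G : C(Att r, Y)}
    (h1 : F.comp (base r) = G.comp (base r)) (h2 : ∀ i, F.comp (disk r i) = G.comp (disk r i)) :
    F = G := by
  ext z
  obtain ⟨x | ⟨i, x⟩, rfl⟩ := Quot.exists_rep z
  · exact DFunLike.congr_fun h1 x
  · exact DFunLike.congr_fun (h2 i) x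

/-- `Att r` is homotopy equivalent to `R`. -/
theorem contractible [ContractibleSpace R] : ContractibleSpace (Att r) := by
  obtain ⟨ρ, hρ1, hρ2⟩ := exists_desc r (ContinuousMap.id R)
    (fun i => (r i).comp ⟨Dk.init, Dk.continuous_init⟩) (fun i x => by
      show r i (sig n x).init = r i x
      rw [Dk.init_sg])
  obtain ⟨H, hH1, hH2⟩ := exists_desc r (Y := C(unitInterval, Att r))
    (ContinuousMap.curry ((base r).comp ContinuousMap.fst))
    (fun i => ContinuousMap.curry ((disk r i).comp ⟨Dk.mv, Dk.continuous_mv n⟩)) (fun i x => by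
      ext t
      show disk r i (Dk.mv (sig n x, t)) = base r (r i x)
      rw [Dk.mv_sig, disk_sig])
  have e : ContinuousMap.HomotopyEquiv (Att r) R := by
    refine ⟨ρ, base r, ContinuousMap.Homotopic.symm ⟨⟨H.uncurry.comp
      ⟨fun p => (p.2, p.1), continuous_swap⟩, fun z => ?_, fun z => ?_⟩⟩, ?_⟩
    · show H z 0 = z
      obtain ⟨x | ⟨i, x⟩, rfl⟩ := Quot.exists_rep z
      · exact DFunLike.congr_fun (hH1 x) 0
      · refine (DFunLike.congr_fun (hH2 i x) 0).trans ?_
        show disk r i (Dk.mv (x, 0)) = disk r i x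
        rw [Dk.mv_zero]
    · show H z 1 = base r (ρ z)
      obtain ⟨x | ⟨i, x⟩, rfl⟩ := Quot.exists_rep z
      · refine (DFunLike.congr_fun (hH1 x) 1).trans ?_
        exact congrArg (base r) (hρ1 x).symm
      · refine (DFunLike.congr_fun (hH2 i x) 1).trans ?_
        show disk r i (Dk.mv (x, 1)) = base r (ρ (disk r i x))
        rw [Dk.mv_one, disk_sig, hρ2]
        rfl
    · have e1 : ρ.comp (base r) = ContinuousMap.id R := by
        ext x
        exact hρ1 x
      rw [e1]
  exact e.contractibleSpace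

end Att

end Attach

/-! ### The expansion -/

theorem HasRep.exp {X : Cptd Cs} [X.Good] {I : Type} (okI : I → Prop) (n : ℕ)
    (b : I → Cs.T X.V) (hb : ∀ i, okI i → X.tok (b i) ∧ X.tdim (b i) = n) (hX : HasRep X) :
    HasRep (X.exp okI n b) := by
  obtain ⟨R, u, hu, hR⟩ := hX
  have hev : ∀ t : Cs.T X.V, X.tok t →
      MapAt X.m.toGlob (PiG R) ((PiF.obj R).M.eval u) t := fun t ht => eval_mapAt hu.typed t ht
  -- the attaching maps
  let J : Type := {i : I // okI i}
  have hdim : ∀ i : J, ((PiF.obj R).M.eval u (b i.1) : (PiG R).C).1 = n := fun i =>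
    (hev (b i.1) (hb i.1 i.2).1).2.1.trans (hb i.1 i.2).2
  let r : J → C(Dk n, R) := fun i => PiG.fn ((PiF.obj R).M.eval u (b i.1)) (hdim i)
  have hr : ∀ i : J, (PiF.obj R).M.eval u (b i.1) = (⟨n, r i⟩ : (PiG R).C) := fun i =>
    PiG.eq_mk _ (hdim i)
  let R' : TopCat.{0} := TopCat.of (Att r)
  have hR' : ContractibleSpace R' := Att.contractible r
  let inc : C(R, R') := Att.base r
  let D : J → C(Dk (n + 1), R') := fun i => Att.disk r i
  have hDsig : ∀ i, (D i).comp (sig n) = inc.comp (r i) := Att.disk_comp_sig r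
  let jk : (PiG R').C := ⟨0, ContinuousMap.const _ (Classical.arbitrary R')⟩
  let u' : (X.exp okI n b).V → (PiG R').C := fun v => match v with
    | .z v => PiG.map inc (u v)
    | .top i => if h : okI i then ⟨n, (D ⟨i, h⟩).comp (tau n)⟩ else jk
    | .cyl i => if h : okI i then ⟨n + 1, D ⟨i, h⟩⟩ else jk
  have ucyl : ∀ i (h : okI i), u' (.cyl i) = ⟨n + 1, D ⟨i, h⟩⟩ := fun i h => dif_pos h
  have utop : ∀ i (h : okI i), u' (.top i) = ⟨n, (D ⟨i, h⟩).comp (tau n)⟩ := fun i h => dif_pos h
  -- evaluation of terms of `X`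
  have hevz : ∀ t : Cs.T X.V, X.tok t →
      (PiF.obj R').M.eval u' (t.map .z) = PiG.map inc ((PiF.obj R).M.eval u t) := by
    intro t ht
    rw [eval_map]
    exact (PiG.map_eval hu.typed inc ht).symm
  refine ⟨R', u', ⟨?_, ?_, ?_⟩, hR'⟩
  · -- typed
    rintro (v | i | i) hv
    · have hv' : X.ok v := hv
      obtain ⟨h1, h2, h3⟩ := hu.typed v hv'
      refine ⟨trivial, h2, fun h0 => ?_⟩
      have h0' : 0 < X.dim v := h0
      obtain ⟨h4, h5⟩ := h3 h0'
      have h6 := PiG.map_mapAt inc (u v)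
      obtain ⟨h7, h8⟩ := h6.2.2 (by
        have h2' : (PiG R).dim (u v) = X.dim v := h2
        rw [h2']
        exact h0')
      constructor
      · refine h7.trans ?_
        refine Eq.trans ?_ (hevz (X.src v) (Cptd.Good.ok_src v hv' h0')).symm
        exact congrArg (PiG.map inc) h4
      · refine h8.trans ?_
        refine Eq.trans ?_ (hevz (X.tgt v) (Cptd.Good.ok_tgt v hv' h0')).symm
        exact congrArg (PiG.map inc) h5
    · have hi : okI i := hv
      obtain ⟨hb1, hb2⟩ := hb i hi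
      refine ⟨trivial, ?_, fun h0 => ?_⟩
      · show (u' (.top i)).1 = n
        rw [utop i hi]
      · have h0' : 0 < n := h0
        have hlaw : ∀ c, (PiG R').st c (u' (.top i)) =
            PiG.map inc ((PiG R).st c ((PiF.obj R).M.eval u (b i))) := by
          intro c
          obtain ⟨m, rfl⟩ : ∃ m, n = m + 1 := ⟨n - 1, by omega⟩
          rw [utop i hi, hr ⟨i, hi⟩, PiG.st_mk, PiG.st_mk]
          show (⟨m, _⟩ : (PiG R').C) = ⟨m, inc.comp ((r ⟨i, hi⟩).comp (sg c m))⟩
          rw [← ContinuousMap.comp_assoc, ← hDsig]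
          congr 1
          ext x
          exact congrArg (D ⟨i, hi⟩) (Dk.sg_sg c true false x)
        have h6 := hev (b i) hb1
        have h7 := h6.2.2 (by
          show 0 < X.tdim (b i)
          rw [hb2]
          exact h0')
        constructor
        · refine (hlaw false).trans ?_
          refine Eq.trans ?_ (hevz (X.tsrc (b i)) ?_).symm
          · exact congrArg (PiG.map inc) h7.1
          · exact Glob.Laws.ok_src (G := X.m.toGlob) (b i) hb1 (by
              show 0 < X.tdim (b i)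
              rw [hb2]
              exact h0')
        · refine (hlaw true).trans ?_
          refine Eq.trans ?_ (hevz (X.ttgt (b i)) ?_).symm
          · exact congrArg (PiG.map inc) h7.2
          · exact Glob.Laws.ok_tgt (G := X.m.toGlob) (b i) hb1 (by
              show 0 < X.tdim (b i)
              rw [hb2]
              exact h0')
    · have hi : okI i := hv
      obtain ⟨hb1, hb2⟩ := hb i hi
      refine ⟨trivial, ?_, fun _ => ⟨?_, ?_⟩⟩
      · show (u' (.cyl i)).1 = n + 1
        rw [ucyl i hi]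
      · show (PiG R').st false (u' (.cyl i)) = (PiF.obj R').M.eval u' ((b i).map .z)
        rw [ucyl i hi, PiG.st_mk, hevz (b i) hb1, hr ⟨i, hi⟩]
        show (⟨n, (D ⟨i, hi⟩).comp (sig n)⟩ : (PiG R').C) = ⟨n, inc.comp (r ⟨i, hi⟩)⟩
        rw [hDsig]
      · show (PiG R').st true (u' (.cyl i)) = u' (.top i)
        rw [ucyl i hi, PiG.st_mk, utop i hi]
  · -- desc
    intro Y γ hγ
    have hγz : ∀ v, X.ok v → AsgAt X (PiF.obj Y).M (fun v => γ (.z v)) v := by
      intro v hv
      obtain ⟨h1, h2, h3⟩ := hγ (.z v) hv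
      refine ⟨h1, h2, fun h0 => ?_⟩
      obtain ⟨h4, h5⟩ := h3 h0
      constructor
      · exact h4.trans (eval_map (PiF.obj Y).M γ CV.z (X.src v))
      · exact h5.trans (eval_map (PiF.obj Y).M γ CV.z (X.tgt v))
    obtain ⟨f, hf⟩ := hu.desc Y (fun v => γ (.z v)) hγz
    have hcyl : ∀ i (h : okI i), (γ (.cyl i)).1 = n + 1 := fun i h => (hγ (.cyl i) h).2.1
    let g : J → C(Dk (n + 1), Y) := fun i => PiG.fn (γ (.cyl i.1)) (hcyl i.1 i.2)
    have hg : ∀ i : J, γ (.cyl i.1) = ⟨n + 1, g i⟩ := fun i => PiG.eq_mk _ (hcyl i.1 i.2)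
    have hst : ∀ i : J, (g i).comp (sig n) = f.comp (r i) ∧
        γ (.top i.1) = ⟨n, (g i).comp (tau n)⟩ := by
      intro i
      obtain ⟨h4, h5⟩ := (hγ (.cyl i.1) i.2).2.2 (Nat.succ_pos n)
      have h4' : (PiG Y).st false (γ (.cyl i.1)) = (PiF.obj Y).M.eval γ ((b i.1).map .z) := h4
      have h5' : (PiG Y).st true (γ (.cyl i.1)) = γ (.top i.1) := h5
      rw [hg i, PiG.st_mk] at h4' h5'
      refine ⟨?_, h5'.symm⟩
      apply PiG.mk_inj (Y := Y)
      rw [h4', eval_map, ← eval_congr (X := X) (b i.1) (hb i.1 i.2).1 hf,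
        ← PiG.map_eval hu.typed f (hb i.1 i.2).1, hr i]
      rfl
    obtain ⟨F, hF1, hF2⟩ := Att.exists_desc r f g
      (fun i x => DFunLike.congr_fun (hst i).1 x)
    have hF1' : F.comp (Att.base r) = f := by
      ext x
      exact hF1 x
    have hF2' : ∀ i, F.comp (Att.disk r i) = g i := by
      intro i
      ext x
      exact hF2 i x
    refine ⟨F, ?_⟩
    rintro (v | i | i) hv
    · show PiG.map F (PiG.map inc (u v)) = γ (.z v)
      have h1 := PiG.map_comp (Y := R) (Z := R') inc F (u v)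
      rw [← h1]
      refine Eq.trans ?_ (hf v hv)
      exact congrArg (fun k => PiG.map k (u v)) hF1'
    · have hi : okI i := hv
      rw [utop i hi, (hst ⟨i, hi⟩).2]
      show (⟨n, (F.comp (D ⟨i, hi⟩)).comp (tau n)⟩ : (PiG Y).C) = ⟨n, (g ⟨i, hi⟩).comp (tau n)⟩
      rw [show F.comp (D ⟨i, hi⟩) = g ⟨i, hi⟩ from hF2' ⟨i, hi⟩]
    · have hi : okI i := hv
      rw [ucyl i hi, hg ⟨i, hi⟩]
      show (⟨n + 1, F.comp (D ⟨i, hi⟩)⟩ : (PiG Y).C) = ⟨n + 1, g ⟨i, hi⟩⟩
      rw [show F.comp (D ⟨i, hi⟩) = g ⟨i, hi⟩ from hF2' ⟨i, hi⟩]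
  · -- uniq
    intro Y F G hFG
    refine Att.hom_ext r ?_ fun i => ?_
    · exact hu.uniq Y (F.comp inc) (G.comp inc) fun v hv => hFG (.z v) hv
    · have h1 := hFG (.cyl i.1) i.2
      rw [ucyl i.1 i.2] at h1
      exact PiG.mk_inj (Y := Y) h1

end HH
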