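import Pool.Agent.HH.Syn
import Pool.Agent.HH.EEc

/-!
# HH 2b RHO: the functor from the syntactic category to `C` (module to prove)

* `rArr_exists`: the family `p ↦ eval leg (γ p)` is globular (`eval_mapAt` in the model `MD hF (yoneda.obj _)`, whose
  operations have the right boundaries by `MD_opLaws` and `yoneda_isModel`; the assignment `leg` is typed by
  `leg_spec`), so `rO_up` for the model `yoneda.obj (rO Y)` gives a unique arrow.
* functor laws: uniqueness in `rO_up`; for the composition: `push v` is a map of models from the cells of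
  `rO Y` to the cells of `rO Z` (`natC_app` with `yoneda.map v`), so `push v (eval leg t) = eval (push v ∘ leg) t` for typed
  terms (`RHom.eval`, or `natC` and induction), and `push v ∘ leg = eval leg ∘ δ`, `eval_bind`.
* `rhoF_eval`: `push (rhoF.map γ) (leg p) = eval leg (γ p)`: the defining property.
* `rhoF_preserves`: a sum `(X, ε)` of `T` in `Syn` is isomorphic to the one of `syn_isSum` for a code `A` with
  `IsTab T A b` (`exists_code`, `IsSum.exists_iso`), whose image is a sum by `rO_isSum` (the image of `ε k` is the leg: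
  its value on the top leg is `leg (b k)`; `Preserves.of_some` in Inv.lean).
* `rhoF_globes`: the code `dk n` with `b = dtop n` is the sum of the table with `m = 0`, `i = n` (`IsTab`: `up` from
  `map_bd'` / `bd_mapAt`), so by `rO_isSum` `rO (dk n)` with the leg at `dtop n` is a sum of one disk, i.e. this leg is an
  isomorphism; naturality for `s`, `t` from `rhoF_eval` and the boundaries of `leg`.
* `rhoF_rel`: `f, g : D i ⟶ X` parallel: their top values are parallel terms over `X.A` (of dimension `i`),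
  connected by a term `h0` (`EE_contr` in EEc.lean). `rhoX (ofTm h0)` and the given `l` (transported by `rhoF_globes`) are parallel cells
  of `rO X.A` of dimension `i + 1`, so there is a cell `e` of dimension `i + 2` from `rhoX (ofTm h0)` to `l` (`F.Contractible`).
  The term `XT.ex false X.A (ofTm h0) ⟨_, _, e⟩ .var` has the same source and target as `h0` and is realised by `l`
  (`rhoX_ex`, `rhoX_eval`). It defines the arrow `h : D (i + 1) ⟶ X` (`ofCell` for `termRP`).
-/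

set_option autoImplicit false

namespace HH

open Classical CategoryTheory Opposite

open Pool.Agent.HH (Globes RelContractible)

variable {C : Type} [SmallCategory C] {F : Globes C}

/-- natural transformations commute with the evaluation of typed terms -/
theorem natC_eval (hF : F.IsExt) (hc : F.Contractible) {P Q : Cᵒᵖ ⥤ Type}
    (hP : Pool.Agent.HH.IsModel F P) (hQ : Pool.Agent.HH.IsModel F Q) (φ : P ⟶ Q) {A : PC}
    (γ : A.P → (GG F P).C) (hγ : ∀ p, MapAt A.G (GG F P) γ p) (t : (EE C).T A.P)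
    (ht : (ofGlob (EE C) A.G).tok t) :
    natC F φ ((MD hF P).eval γ t) = (MD hF Q).eval (fun p => natC F φ (γ p)) t := by
  have : (MD hF P).OpLaws := MD_opLaws hF hc hP
  induction t with
  | var v => rfl
  | op k δ ih =>
    obtain ⟨hk, hδ⟩ := ht
    have key : ∀ p, MapAt ((EE C).ar k) (GG F P) (fun p => (MD hF P).eval γ (δ p)) p := by
      intro p
      obtain ⟨h1, h2, h3⟩ := hδ p
      obtain ⟨i1, i2, i3⟩ := eval_mapAt (X := ofGlob (EE C) A.G) (M := MD hF P) (γ := γ)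
        (fun v _ => hγ v) (δ p) h1
      refine ⟨i1, i2.trans h2, fun hp => ?_⟩
      obtain ⟨j1, j2⟩ := h3 hp
      obtain ⟨k1, k2⟩ := i3 (lt_of_lt_of_eq hp h2.symm)
      exact ⟨k1.trans (congrArg ((MD hF P).eval γ) j1), k2.trans (congrArg ((MD hF P).eval γ) j2)⟩
    have e : (fun p => natC F φ ((MD hF P).eval γ (δ p))) =
        fun p => (MD hF Q).eval (fun p => natC F φ (γ p)) (δ p) :=
      funext fun p => ih p (hδ p).1
    cases k with
    | inl k =>
      change natC F φ (app hF P (opC hF k) (fun p => (MD hF P).eval γ (δ p))) =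
        app hF Q (opC hF k) (fun p => (MD hF Q).eval (fun p => natC F φ (γ p)) (δ p))
      exact (natC_app hF hP hQ φ _ _ key).trans (congrArg (app hF Q (opC hF k)) e)
    | inr k =>
      change natC F φ (app hF P (opE k.2.2.2 (rhoX hF k.2.1) k.2.2.1)
          (fun p => (MD hF P).eval γ (δ p))) =
        app hF Q (opE k.2.2.2 (rhoX hF k.2.1) k.2.2.1)
          (fun p => (MD hF Q).eval (fun p => natC F φ (γ p)) (δ p))
      exact (natC_app hF hP hQ φ _ _ key).trans
        (congrArg (app hF Q (opE k.2.2.2 (rhoX hF k.2.1) k.2.2.1)) e)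

/-- the case of representable presheaves -/
theorem push_eval (hF : F.IsExt) (hc : F.Contractible) {A : PC} {Z : C} (v : rO hF A ⟶ Z)
    (t : (EE C).T A.P) (ht : (ofGlob (EE C) A.G).tok t) :
    push F v ((MD hF (yoneda.obj (rO hF A))).eval (leg hF A) t) =
      (MD hF (yoneda.obj Z)).eval (fun p => push F v (leg hF A p)) t :=
  natC_eval hF hc (yoneda_isModel _) (yoneda_isModel _) (yoneda.map v) (leg hF A)
    (leg_spec hF A).1 t ht

theorem rArr_exists (hF : F.IsExt) (hc : F.Contractible) {X Y : Syn (EE C)} (γ : X ⟶ Y) :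
    ∃! u : rO hF X.A ⟶ rO hF Y.A, ∀ p, push F u (leg hF X.A p) =
      (MD hF (yoneda.obj (rO hF Y.A))).eval (leg hF Y.A) (γ.1 p) := by
  have : (MD hF (yoneda.obj (rO hF Y.A))).OpLaws := MD_opLaws hF hc (yoneda_isModel _)
  exact rO_up hF (yoneda_isModel (rO hF Y.A))
    (fun p => (MD hF (yoneda.obj (rO hF Y.A))).eval (leg hF Y.A) (γ.1 p))
    (eval_syn (M := MD hF (yoneda.obj (rO hF Y.A))) (leg_spec hF Y.A).1 γ)

/-- The functor from the syntactic category to `C`. -/
noncomputable def rhoF (hF : F.IsExt) (hc : F.Contractible) : Syn (EE C) ⥤ C where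
  obj X := rO hF X.A
  map γ := (rArr_exists hF hc γ).choose
  map_id X := by
    refine ((rArr_exists hF hc (𝟙 X)).choose_spec.2 (𝟙 _) fun p => ?_).symm
    exact push_id _
  map_comp {X Y Z} γ δ := by
    refine ((rArr_exists hF hc (γ ≫ δ)).choose_spec.2
      ((rArr_exists hF hc γ).choose ≫ (rArr_exists hF hc δ).choose) fun p => ?_).symm
    have h1 := (rArr_exists hF hc γ).choose_spec.1 p
    have h2 := (rArr_exists hF hc δ).choose_spec.1
    rw [← push_push, h1, push_eval hF hc _ _ (γ.2 p).1]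
    change _ = (MD hF (yoneda.obj (rO hF Z.A))).eval (leg hF Z.A) ((γ.1 p).bind δ.1)
    rw [eval_bind]
    congr 1
    funext q
    exact h2 q

theorem rhoF_eval (hF : F.IsExt) (hc : F.Contractible) {X Y : Syn (EE C)} (γ : X ⟶ Y)
    (p : X.A.P) : push F ((rhoF hF hc).map γ) (leg hF X.A p) =
      (MD hF (yoneda.obj (rO hF Y.A))).eval (leg hF Y.A) (γ.1 p) :=
  (rArr_exists hF hc γ).choose_spec.1 p

/-- the table of one disk -/
def tab1 (n : ℕ) : Pool.Agent.HH.Table where
  m := 0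
  i := fun _ => n
  i' := fun k => k.elim0
  lt_left := fun k => k.elim0
  lt_right := fun k => k.elim0

theorem tab1_isTab (n : ℕ) : IsTab (tab1 n) (dk n) (fun _ => dtop n) := by
  refine ⟨fun _ => dtop_dim n, fun k => k.elim0, ?_⟩
  intro H _ y hy _
  have hd : H.dim (y 0) = n := (hy 0).2
  refine ⟨fun p => H.bd (y 0) (dkf n p), ⟨fun p => ?_, fun k => ?_⟩, ?_⟩
  · obtain ⟨a1, a2, a3⟩ := dkf_mapAt n p
    have a1' : (diskG (H.dim (y 0))).ok (dkf n p) := by
      rw [hd]
      exact a1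
    obtain ⟨b1, b2, b3⟩ := bd_mapAt (hy 0).1 a1'
    refine ⟨b1, b2.trans a2, fun h0 => ?_⟩
    obtain ⟨c1, c2⟩ := a3 h0
    have h0' : 0 < (diskG (H.dim (y 0))).dim (dkf n p) := by
      have : (diskG n).dim (dkf n p) = (dk n).G.dim p := a2
      change 0 < (diskG n).dim (dkf n p)
      rw [this]
      exact h0
    obtain ⟨d1, d2⟩ := b3 h0'
    exact ⟨d1.trans (congrArg _ c1), d2.trans (congrArg _ c2)⟩
  · have hk : k = 0 := Fin.fin_one_eq_zero k
    subst hk
    change H.bd (y 0) (dkf n (dtop n)) = y 0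
    rw [dkf_top]
    exact bd_of_le _ _ (le_of_eq hd)
  · rintro f ⟨hf, hfy⟩
    funext p
    have h1 := dk_map_eq hf p
    rw [hfy 0] at h1
    exact h1

theorem rhoF_disk (hF : F.IsExt) (n : ℕ) :
    ∃ e : F.D n ≅ rO hF (dk n), leg hF (dk n) (dtop n) = ⟨n, e.hom⟩ := by
  obtain ⟨ε, h1, h2⟩ := rO_isSum hF (tab1_isTab n)
  obtain ⟨f, hf, -⟩ := h2.desc (F.D n) (fun _ => 𝟙 _) (fun k => k.elim0)
  have e1 : ε 0 ≫ f = 𝟙 _ := hf 0
  refine ⟨⟨ε 0, f, e1, ?_⟩, h1 0⟩
  apply h2.hom_ext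
  intro k
  have hk : k = 0 := Fin.fin_one_eq_zero k
  subst hk
  have e2 : ε 0 ≫ f ≫ ε 0 = ε 0 := by
    rw [← Category.assoc, e1]
    exact Category.id_comp _
  exact e2.trans (Category.comp_id _).symm

theorem rhoF_globes (hF : F.IsExt) (hc : F.Contractible) :
    ∃ a : F.Iso ((synG (EE C)).map (rhoF hF hc)),
      ∀ n, leg hF (dk n) (dtop n) = ⟨n, (a.e n).hom⟩ := by
  choose e he using rhoF_disk hF
  have key : ∀ (n : ℕ) (c : GC F (rO hF (dk (n + 1)))) (γ : (synG (EE C)).D n ⟶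
      (synG (EE C)).D (n + 1)) (f : F.D n ⟶ F.D (n + 1)),
      (MD hF (yoneda.obj (rO hF (dk (n + 1))))).eval (leg hF (dk (n + 1))) (γ.1 (dtop n)) = c →
      c = ⟨n, f ≫ (e (n + 1)).hom⟩ → f ≫ (e (n + 1)).hom = (e n).hom ≫ (rhoF hF hc).map γ := by
    intro n c γ f h1 h2
    have h3 := rhoF_eval hF hc γ (dtop n)
    have h4 : leg hF ((synG (EE C)).D n).A (dtop n) = ⟨n, (e n).hom⟩ := he n
    rw [h4] at h3
    have h5 := h3.trans (h1.trans h2)
    exact (eq_of_heq (Sigma.mk.inj h5).2).symm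
  have hleg : ∀ n, MapAt (dk (n + 1)).G (GG F (yoneda.obj (rO hF (dk (n + 1)))))
      (leg hF (dk (n + 1))) (dtop (n + 1)) := fun n => (leg_spec hF (dk (n + 1))).1 _
  refine ⟨⟨e, fun n => ?_, fun n => ?_⟩, he⟩
  · refine key n (leg hF (dk (n + 1)) (dkg (n + 1) (n, false))) ((synG (EE C)).s n) (F.s n) ?_ ?_
    · change leg hF (dk (n + 1)) (dkg (n + 1) (bdD (n, false) (dkf n (dtop n)))) = _
      rw [dkf_top, bdD_self]
    · have h1 := ((hleg n).2.2 (by
        change 0 < (dk (n + 1)).h (dtop (n + 1))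
        rw [dtop_dim]
        exact Nat.succ_pos n)).1
      rw [dk_src_top, he (n + 1)] at h1
      exact h1.symm
  · refine key n (leg hF (dk (n + 1)) (dkg (n + 1) (n, true))) ((synG (EE C)).t n) (F.t n) ?_ ?_
    · change leg hF (dk (n + 1)) (dkg (n + 1) (bdD (n, true) (dkf n (dtop n)))) = _
      rw [dkf_top, bdD_self]
    · have h1 := ((hleg n).2.2 (by
        change 0 < (dk (n + 1)).h (dtop (n + 1))
        rw [dtop_dim]
        exact Nat.succ_pos n)).2
      rw [dk_tgt_top, he (n + 1)] at h1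
      exact h1.symm

theorem rhoF_preserves (hF : F.IsExt) (hc : F.Contractible) :
    (synG (EE C)).Preserves (rhoF hF hc) := by
  obtain ⟨a, ha⟩ := rhoF_globes hF hc
  apply Pool.Agent.HH.Globes.Preserves.of_some
  intro T
  obtain ⟨A, b, hA⟩ := exists_code T
  obtain ⟨ε, hε, hs⟩ := syn_isSum (S := EE C) hA
  obtain ⟨ε', hε', hs'⟩ := rO_isSum hF hA
  refine ⟨⟨A⟩, ε, hs, ?_⟩
  have h1 := hs'.iso a
  refine (congrArg (fun z => ((synG (EE C)).map (rhoF hF hc)).IsSum T (rO hF A) z)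
    (funext fun k => ?_)).mpr h1
  have h3 := rhoF_eval hF hc (ε k) (dtop (T.i k))
  have h4 : leg hF ((synG (EE C)).D (T.i k)).A (dtop (T.i k)) = ⟨T.i k, (a.e (T.i k)).hom⟩ :=
    ha (T.i k)
  rw [h4, hε] at h3
  have h5 := h3.trans (hε' k)
  have h6 : (a.e (T.i k)).hom ≫ (rhoF hF hc).map (ε k) = ε' k := eq_of_heq (Sigma.mk.inj h5).2
  rw [← h6]
  exact (Iso.inv_hom_id_assoc _ _).symm

theorem rhoF_rel (hF : F.IsExt) (hc : F.Contractible) :
    RelContractible (synG (EE C)) (rhoF hF hc) := by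
  intro X i f g hp l hl
  obtain ⟨a, ha⟩ := rhoF_globes hF hc
  have hleg : ∀ n, leg hF ((synG (EE C)).D n).A (dtop n) = ⟨n, (a.e n).hom⟩ := ha
  have hpar : (ofGlob (EE C) X.A.G).Par (f.1 (dtop i)) (g.1 (dtop i)) := by
    have hf := (homG f).top_dim
    have hg := (homG g).top_dim
    refine ⟨(f.2 _).1, (g.2 _).1, hf.trans hg.symm, fun h0 => ?_⟩
    cases i with
    | zero => exact absurd (lt_of_lt_of_eq h0 hf) (lt_irrefl _)
    | succ i =>
      obtain ⟨h1, h2⟩ := hp
      have a1 := GMap.pre_s (S := EE C) (homG f)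
      have a2 := GMap.pre_s (S := EE C) (homG g)
      have a3 := GMap.pre_t (S := EE C) (homG f)
      have a4 := GMap.pre_t (S := EE C) (homG g)
      constructor
      · refine a1.symm.trans (Eq.trans ?_ a2)
        exact congrArg (fun γ : (synG (EE C)).D i ⟶ X => γ.1 (dtop i)) h1
      · refine a3.symm.trans (Eq.trans ?_ a4)
        exact congrArg (fun γ : (synG (EE C)).D i ⟶ X => γ.1 (dtop i)) h2
  obtain ⟨t, t1, t2, t3, t4⟩ := EE_contr X.A _ _ _ hpar (Nat.lt_succ_self _)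
  have t2' : (ofGlob (EE C) X.A.G).tdim t = i + 1 := t2.trans (congrArg (· + 1) (homG f).top_dim)
  -- the realisation of `t`
  set lt : XT Cs PC.G (Lab C) X.A := XT.ofTm t with hlt
  have htm : lt.toTm = t := XT.toTm_ofTm t
  have hdim : lt.dim = i + 1 := by
    rw [← t2', ← htm]
    exact (XT.tdim_toTm (I := Lab C) lt).symm
  have hok : lt.ok := by
    rw [← XT.tok_toTm (S := Cs) (G := PC.G) (I := Lab C) (fun _ _ => trivial), htm]
    exact t1
  have hsrc : lt.src = XT.ofTm (f.1 (dtop i)) := by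
    apply ExSig_inj
    rw [← XT.tsrc_toTm, htm, XT.toTm_ofTm]
    exact t3
  have htgt : lt.tgt = XT.ofTm (g.1 (dtop i)) := by
    apply ExSig_inj
    rw [← XT.ttgt_toTm, htm, XT.toTm_ofTm]
    exact t4
  obtain ⟨r1, r2⟩ := rhoX_typed hF hc lt hok
  obtain ⟨r3, r4⟩ := r2 (by rw [hdim]; exact Nat.succ_pos i)
  have hre : ∀ s : (EE C).T X.A.P, rhoX hF (XT.ofTm s : XT Cs PC.G (Lab C) X.A) =
      (MD hF (yoneda.obj (rO hF X.A))).eval (leg hF X.A) s := by
    intro s
    rw [rhoX_eval, XT.toTm_ofTm]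
  rw [hsrc] at r3
  rw [htgt] at r4
  have r3 := r3.trans (hre _)
  have r4 := r4.trans (hre _)
  have q1 := rhoF_eval hF hc f (dtop i)
  have q2 := rhoF_eval hF hc g (dtop i)
  rw [hleg] at q1 q2
  have r3 := r3.trans q1.symm
  have r4 := r4.trans q2.symm
  rw [hdim] at r1
  -- the given lift as a cell
  set e0 : F.D (i + 1) ⟶ rO hF X.A := (a.e (i + 1)).hom ≫ l with he0
  have es : F.s i ≫ e0 = (a.e i).hom ≫ (rhoF hF hc).map f := by
    rw [he0, ← Category.assoc, a.s_e, Category.assoc]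
    exact congrArg (fun z => (a.e i).hom ≫ z) hl.1
  have et : F.t i ≫ e0 = (a.e i).hom ≫ (rhoF hF hc).map g := by
    rw [he0, ← Category.assoc, a.t_e, Category.assoc]
    exact congrArg (fun z => (a.e i).hom ≫ z) hl.2
  obtain ⟨z, hz1, hz2⟩ : ∃ z : F.D ((rhoX hF lt).1 + 1) ⟶ rO hF X.A,
      F.s _ ≫ z = (rhoX hF lt).2 ∧
        (⟨(rhoX hF lt).1, F.t _ ≫ z⟩ : GC F (rO hF X.A)) = ⟨i + 1, e0⟩ := by
    revert r1 r3 r4
    generalize rhoX hF lt = c
    obtain ⟨m, w⟩ := c
    intro r1 r3 r4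
    have r1' : m = i + 1 := r1
    subst r1'
    have w1 : F.s i ≫ w = (a.e i).hom ≫ (rhoF hF hc).map f := eq_of_heq (Sigma.mk.inj r3).2
    have w2 : F.t i ≫ w = (a.e i).hom ≫ (rhoF hF hc).map g := eq_of_heq (Sigma.mk.inj r4).2
    obtain ⟨z, z1, z2⟩ := hc (rO hF X.A) (i + 1) w e0 ⟨w1.trans es.symm, w2.trans et.symm⟩
    exact ⟨z, z1, congrArg (fun y => (⟨i + 1, y⟩ : GC F (rO hF X.A))) z2⟩
  -- the new term
  set h1 : XT Cs PC.G (Lab C) X.A := XT.ex false X.A lt ⟨_, _, z⟩ .var with hh1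
  have hr : rhoX hF h1 = ⟨i + 1, e0⟩ := (rhoX_ex hF lt z hz1).trans hz2
  have h1ok : (ofGlob (EE C) X.A.G).tok h1.toTm := by
    refine (XT.tok_toTm (S := Cs) (G := PC.G) (I := Lab C) (fun _ _ => trivial) h1).2 ?_
    exact ⟨⟨hok, by rw [hdim]; exact Nat.succ_pos i⟩,
      fun p => ⟨trivial, rfl, fun _ => ⟨rfl, rfl⟩⟩⟩
  have h1dim : (ofGlob (EE C) X.A.G).tdim h1.toTm = i + 1 :=
    (XT.tdim_toTm (I := Lab C) h1).trans hdim
  have h1src : (ofGlob (EE C) X.A.G).tsrc h1.toTm = f.1 (dtop i) := by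
    have e1 : (ofGlob (EE C) X.A.G).tsrc h1.toTm = Tm.bind lt.src.toTm Tm.var := rfl
    rw [e1, hsrc, XT.toTm_ofTm, Tm.bind_var_self]
  have h1tgt : (ofGlob (EE C) X.A.G).ttgt h1.toTm = g.1 (dtop i) := by
    have e1 : (ofGlob (EE C) X.A.G).ttgt h1.toTm = Tm.bind lt.tgt.toTm Tm.var := rfl
    rw [e1, htgt, XT.toTm_ofTm, Tm.bind_var_self]
  have htop := congrArg Subtype.val
    (ofCell_top (termRP (EE C) X.A) (i + 1) ⟨h1.toTm, h1ok⟩ h1dim)
  refine ⟨ofG (X := (synG (EE C)).D (i + 1))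
    (ofCell (termRP (EE C) X.A) (i + 1) ⟨h1.toTm, h1ok⟩ h1dim), ⟨?_, ?_⟩, ?_⟩
  · refine hom_ext_top ?_
    have a1 := GMap.pre_s (S := EE C) (ofCell (termRP (EE C) X.A) (i + 1) ⟨h1.toTm, h1ok⟩ h1dim)
    refine a1.trans ?_
    rw [htop]
    exact h1src
  · refine hom_ext_top ?_
    have a1 := GMap.pre_t (S := EE C) (ofCell (termRP (EE C) X.A) (i + 1) ⟨h1.toTm, h1ok⟩ h1dim)
    refine a1.trans ?_
    rw [htop]
    exact h1tgt
  · have q3 := rhoF_eval hF hc (ofG (X := (synG (EE C)).D (i + 1))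
      (ofCell (termRP (EE C) X.A) (i + 1) ⟨h1.toTm, h1ok⟩ h1dim)) (dtop (i + 1))
    rw [hleg] at q3
    have q4 : (ofG (X := (synG (EE C)).D (i + 1))
        (ofCell (termRP (EE C) X.A) (i + 1) ⟨h1.toTm, h1ok⟩ h1dim)).1 (dtop (i + 1)) = h1.toTm :=
      htop
    rw [q4, ← rhoX_eval, hr] at q3
    have q5 : (a.e (i + 1)).hom ≫ (rhoF hF hc).map _ = (a.e (i + 1)).hom ≫ l :=
      eq_of_heq (Sigma.mk.inj q3).2
    exact (cancel_epi _).1 q5

end HH
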