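import Pool.Agent.HH.SynDefs
import Pool.Agent.HH.Bd
import Pool.Agent.HH.GG
import Pool.Agent.HH.UFDefs
import Pool.Agent.HH.PullF

/-!
# HH 2b SYN: the syntactic category is a globular extension 

* `GMap.ext_top`: a globular map out of the code of a disk is determined by the value at the top cell
  `dkg n (n, false)`: the value at `p` is the iterated boundary `dkf n p` of the value at the top (`map_bd'`).
* `ofCell`: `p ↦ bd x (dkf n p)` (`bd_mapAt` of Bd.lean).
* arrows `synG.D n ⟶ X` are the same as globular maps from `dk n` to the model of terms: the versions for arrows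
  are the case `M = termRP S A`.
* `nObj_isModel'`: for a code `A` with `IsTab T A b`, globular maps `A → M` are compatible families of cells
  (`IsTab.up` with `H = M.M.toGlob`).
* `syn_isSum`: the same for `M = termRP S B`. `synG_isExt`: `exists_code`.
* `nObj_isModel`: for an arbitrary sum `(X, ε)` of `T` in `Syn S` compare with the sum `(A, ε')` of `exists_code T`:
  isomorphic (`IsSum.exists_iso` in Inv.lean), and the property is transported along isomorphisms.
* `nF_conn` etc.: unfold; `(nF S).obj M` has as `n`-cells the globular maps `dk n → M`, and its source is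
  precomposition with `s n`, whose top value is the source of the top value.
-/

set_option autoImplicit false

namespace HH

open Classical CategoryTheory Opposite

open Pool.Agent.HH (Globes)

variable {S : Sig}

/-- The top position of the code of the disk. -/
noncomputable abbrev dtop (n : ℕ) : (dk n).P := dkg n (n, false)

theorem dtop_dim (n : ℕ) : (dk n).h (dtop n) = n :=
  (dkg_mapAt n (n, false) (Or.inr ⟨rfl, rfl⟩)).2.1

theorem bdD_of_ok {n : ℕ} {q : D} (hq : (diskG n).ok q) : bdD (n, false) q = q := by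
  unfold bdD
  rcases hq with h | ⟨h1, h2⟩
  · rw [if_pos h]
  · rw [if_neg (by rw [h1]; exact lt_irrefl _)]
    exact (Prod.ext h1 h2).symm

theorem dk_pos (n : ℕ) (p : (dk n).P) : (dk n).G.bd (dtop n) (dkf n p) = p := by
  have h1 : dkg n ((diskG n).bd (n, false) (dkf n p)) = (dk n).G.bd (dkg n (n, false)) (dkf n p) :=
    map_bd (G := diskG n) (H := (dk n).G) (f := dkg n) (x := (n, false)) (Or.inr ⟨rfl, rfl⟩)
      (fun y hy _ => dkg_mapAt n y hy) (dkf n p)
  rw [diskG_bd, bdD_of_ok (dkf_mapAt n p).1, dkg_dkf] at h1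
  exact h1.symm

theorem dk_map_eq {H : Glob} {n : ℕ} {f : (dk n).P → H.C}
    (hf : ∀ p, MapAt (dk n).G H f p) (p : (dk n).P) : f p = H.bd (f (dtop n)) (dkf n p) := by
  have h1 := map_bd (G := (dk n).G) (H := H) (f := f) (x := dtop n) trivial (fun y _ _ => hf y)
    (dkf n p)
  rw [dk_pos] at h1
  exact h1

theorem dk_src_top (n : ℕ) : (dk (n + 1)).G.src (dtop (n + 1)) = dkg (n + 1) (n, false) :=
  ((dkg_mapAt (n + 1) (n + 1, false) (Or.inr ⟨rfl, rfl⟩)).2.2 (Nat.succ_pos n)).1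

theorem dk_tgt_top (n : ℕ) : (dk (n + 1)).G.tgt (dtop (n + 1)) = dkg (n + 1) (n, true) :=
  ((dkg_mapAt (n + 1) (n + 1, false) (Or.inr ⟨rfl, rfl⟩)).2.2 (Nat.succ_pos n)).2

theorem dkf_top (n : ℕ) : dkf n (dtop n) = (n, false) := dkf_dkg n _ (Or.inr ⟨rfl, rfl⟩)

theorem bdD_self (n : ℕ) (b : Bool) : bdD (n, b) (n, false) = (n, b) := if_neg (lt_irrefl _)

/-- The model of terms over a code. -/
noncomputable def termRP (S : Sig) [S.Good] (A : PC) : RMod S where
  M := (ofGlob S A.G).m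
  laws := inferInstance
  ops := inferInstance

/-- The globular map out of the code of a disk classified by a cell. -/
noncomputable def ofCell (M : RMod S) (n : ℕ) (x : M.Cell) (hx : M.M.dim x.1 = n) :
    GMap M (dk n) :=
  ⟨fun p => ⟨M.M.toGlob.bd x.1 (dkf n p), ok_bd x.2 _⟩, by
    subst hx
    intro p
    obtain ⟨a1, a2, a3⟩ := dkf_mapAt (M.M.dim x.1) p
    obtain ⟨b1, b2, b3⟩ := bd_mapAt x.2 a1
    refine ⟨b1, b2.trans a2, fun h0 => ?_⟩
    obtain ⟨c1, c2⟩ := a3 h0
    obtain ⟨d1, d2⟩ := b3 (by rw [a2]; exact h0)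
    exact ⟨d1.trans (congrArg _ c1), d2.trans (congrArg _ c2)⟩⟩

theorem ofCell_top (M : RMod S) (n : ℕ) (x : M.Cell) (hx : M.M.dim x.1 = n) :
    (ofCell M n x hx).1 (dtop n) = x := by
  refine Subtype.ext ?_
  change M.M.toGlob.bd x.1 (dkf n (dtop n)) = x.1
  rw [dkf_top]
  exact bd_of_le _ _ (le_of_eq hx)

theorem GMap.ext_top {M : RMod S} {n : ℕ} {f g : GMap M (dk n)} (h : f.1 (dtop n) = g.1 (dtop n)) :
    f = g := by
  refine Subtype.ext (funext fun p => Subtype.ext ?_)
  have h1 := dk_map_eq (H := M.M.toGlob) f.2 p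
  have h2 := dk_map_eq (H := M.M.toGlob) g.2 p
  have h3 : (f.1 (dtop n)).1 = (g.1 (dtop n)).1 := congrArg Subtype.val h
  rw [h3] at h1
  exact h1.trans h2.symm

/-- the top value -/
noncomputable abbrev GMap.top {M : RMod S} {n : ℕ} (f : GMap M (dk n)) : M.Cell := f.1 (dtop n)

theorem GMap.top_dim {M : RMod S} {n : ℕ} (f : GMap M (dk n)) : M.M.dim (f.1 (dtop n)).1 = n :=
  (f.2 (dtop n)).2.1.trans (dtop_dim n)

/-- the source of a disk in a model -/
theorem GMap.pre_s {M : RMod S} {n : ℕ} (f : GMap M (dk (n + 1))) :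
    ((GMap.pre ((synG S).s n) f).1 (dtop n)).1 = M.M.src (f.1 (dtop (n + 1))).1 := by
  have h1 := ((f.2 (dtop (n + 1))).2.2 (lt_of_lt_of_eq (Nat.succ_pos n) (dtop_dim (n + 1)).symm)).1
  refine Eq.trans ?_ h1.symm
  change (f.1 (dkg (n + 1) (bdD (n, false) (dkf n (dtop n))))).1 =
    (f.1 ((dk (n + 1)).G.src (dtop (n + 1)))).1
  rw [dkf_top, bdD_self, dk_src_top]

theorem GMap.pre_t {M : RMod S} {n : ℕ} (f : GMap M (dk (n + 1))) :
    ((GMap.pre ((synG S).t n) f).1 (dtop n)).1 = M.M.tgt (f.1 (dtop (n + 1))).1 := by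
  have h1 := ((f.2 (dtop (n + 1))).2.2 (lt_of_lt_of_eq (Nat.succ_pos n) (dtop_dim (n + 1)).symm)).2
  refine Eq.trans ?_ h1.symm
  change (f.1 (dkg (n + 1) (bdD (n, true) (dkf n (dtop n))))).1 =
    (f.1 ((dk (n + 1)).G.tgt (dtop (n + 1)))).1
  rw [dkf_top, bdD_self, dk_tgt_top]

theorem GMap.pre_comp {M : RMod S} {X Y Z : Syn S} (γ : X ⟶ Y) (δ : Y ⟶ Z) (f : GMap M Z.A) :
    GMap.pre (γ ≫ δ) f = GMap.pre γ (GMap.pre δ f) :=
  Subtype.ext (funext fun _ => Subtype.ext (eval_bind M.M _ _ _))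

theorem GMap.pre_id {M : RMod S} {X : Syn S} (f : GMap M X.A) : GMap.pre (𝟙 X) f = f := rfl

theorem GMap.pre_sTo {M : RMod S} {i j : ℕ} (h : i ≤ j) (f : GMap M (dk j)) :
    ((GMap.pre ((synG S).sTo h) f).1 (dtop i)).1 = M.M.toGlob.bd (f.1 (dtop j)).1 (i, false) := by
  induction j, h using Nat.le_induction with
  | base =>
    rw [Globes.sTo_self]
    exact (bd_of_le _ _ (le_of_eq f.top_dim)).symm
  | succ j h ih =>
    rw [Globes.sTo_succ]
    refine (congrArg (fun g : GMap M (dk i) => (g.1 (dtop i)).1)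
      (GMap.pre_comp (X := (synG S).D i) (Y := (synG S).D j) (Z := (synG S).D (j + 1))
        ((synG S).sTo h) ((synG S).s j) f)).trans ?_
    refine (ih (GMap.pre ((synG S).s j) f)).trans ?_
    rw [GMap.pre_s]
    rcases Nat.lt_or_ge i j with hlt | hge
    · exact bd_src (G := M.M.toGlob) (f.1 (dtop (j + 1))).2 (by rw [f.top_dim]; exact Nat.succ_pos j)
        (by rw [f.top_dim]; change i + 1 < j + 1; omega)
    · obtain rfl : i = j := le_antisymm h hge
      have hd := f.top_dim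
      have h0 : 0 < M.M.dim (f.1 (dtop (i + 1))).1 := by rw [hd]; exact Nat.succ_pos i
      have h1 := bd_pred_false (G := M.M.toGlob) h0
      rw [hd] at h1
      refine Eq.trans ?_ h1.symm
      refine bd_of_le _ _ ?_
      have := Glob.Laws.dim_src (G := M.M.toGlob) _ (f.1 (dtop (i + 1))).2 h0
      change M.M.dim _ ≤ i
      omega

theorem GMap.pre_tTo {M : RMod S} {i j : ℕ} (h : i ≤ j) (f : GMap M (dk j)) :
    ((GMap.pre ((synG S).tTo h) f).1 (dtop i)).1 = M.M.toGlob.bd (f.1 (dtop j)).1 (i, true) := by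
  induction j, h using Nat.le_induction with
  | base =>
    rw [Globes.tTo_self]
    exact (bd_of_le _ _ (le_of_eq f.top_dim)).symm
  | succ j h ih =>
    rw [Globes.tTo_succ]
    refine (congrArg (fun g : GMap M (dk i) => (g.1 (dtop i)).1)
      (GMap.pre_comp (X := (synG S).D i) (Y := (synG S).D j) (Z := (synG S).D (j + 1))
        ((synG S).tTo h) ((synG S).t j) f)).trans ?_
    refine (ih (GMap.pre ((synG S).t j) f)).trans ?_
    rw [GMap.pre_t]
    rcases Nat.lt_or_ge i j with hlt | hge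
    · exact bd_tgt (G := M.M.toGlob) (f.1 (dtop (j + 1))).2 (by rw [f.top_dim]; exact Nat.succ_pos j)
        (by rw [f.top_dim]; change i + 1 < j + 1; omega)
    · obtain rfl : i = j := le_antisymm h hge
      have hd := f.top_dim
      have h0 : 0 < M.M.dim (f.1 (dtop (i + 1))).1 := by rw [hd]; exact Nat.succ_pos i
      have h1 := bd_pred_true (G := M.M.toGlob) h0
      rw [hd] at h1
      refine Eq.trans ?_ h1.symm
      refine bd_of_le _ _ ?_
      have := Glob.Laws.dim_tgt (G := M.M.toGlob) _ (f.1 (dtop (i + 1))).2 h0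
      change M.M.dim _ ≤ i
      omega

theorem nObj_isModel' (M : RMod S) {T : Pool.Agent.HH.Table} {A : PC} {b : Fin (T.m + 1) → A.P}
    (h : IsTab T A b) (y : ∀ k, GMap M (dk (T.i k)))
    (hy : ∀ k : Fin T.m,
      GMap.pre ((synG S).sTo (T.lt_left k).le) (y k.castSucc) =
        GMap.pre ((synG S).tTo (T.lt_right k).le) (y k.succ)) :
    ∃! f : GMap M A, ∀ k, f.1 (b k) = (y k).1 (dtop (T.i k)) := by
  obtain ⟨f, ⟨hf, hfb⟩, hu⟩ := h.up M.M.toGlob (fun k => ((y k).1 (dtop (T.i k))).1)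
    (fun k => ⟨((y k).1 _).2, (y k).top_dim⟩) (fun k => by
      have h1 := GMap.pre_sTo (T.lt_left k).le (y k.castSucc)
      have h2 := GMap.pre_tTo (T.lt_right k).le (y k.succ)
      refine h1.symm.trans (Eq.trans ?_ h2)
      exact congrArg (fun g : GMap M (dk (T.i' k)) => (g.1 (dtop (T.i' k))).1) (hy k))
  refine ⟨⟨fun p => ⟨f p, (hf p).1⟩, hf⟩, fun k => Subtype.ext (hfb k), ?_⟩
  intro g hg
  have h3 := hu (fun p => (g.1 p).1) ⟨g.2, fun k => congrArg Subtype.val (hg k)⟩
  exact Subtype.ext (funext fun p => Subtype.ext (congrFun h3 p))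

/-- arrows of the syntactic category as globular maps to the model of terms -/
noncomputable def homG [S.Good] {X Y : Syn S} (γ : X ⟶ Y) : GMap (termRP S Y.A) X.A :=
  ⟨fun p => ⟨γ.1 p, (γ.2 p).1⟩, γ.2⟩

noncomputable def ofG [S.Good] {X Y : Syn S} (f : GMap (termRP S Y.A) X.A) : X ⟶ Y :=
  ⟨fun p => (f.1 p).1, f.2⟩

theorem ofG_homG [S.Good] {X Y : Syn S} (γ : X ⟶ Y) : ofG (homG γ) = γ := rfl

theorem homG_ofG [S.Good] {X Y : Syn S} (f : GMap (termRP S Y.A) X.A) : homG (ofG f) = f := rfl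

theorem homG_comp [S.Good] {X Y Z : Syn S} (γ : X ⟶ Y) (δ : Y ⟶ Z) :
    homG (γ ≫ δ) = GMap.pre γ (homG δ) := rfl

theorem homG_inj [S.Good] {X Y : Syn S} {γ δ : X ⟶ Y} (h : homG γ = homG δ) : γ = δ := by
  have := congrArg ofG h
  exact this

theorem hom_ext_top [S.Good] {n : ℕ} {Y : Syn S} {γ δ : (synG S).D n ⟶ Y}
    (h : γ.1 (dtop n) = δ.1 (dtop n)) : γ = δ :=
  homG_inj (GMap.ext_top (Subtype.ext h))

theorem syn_isSum [S.Good] {T : Pool.Agent.HH.Table} {A : PC} {b : Fin (T.m + 1) → A.P}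
    (h : IsTab T A b) :
    ∃ ε : ∀ k, (synG S).D (T.i k) ⟶ (⟨A⟩ : Syn S),
      (∀ k, (ε k).1 (dtop (T.i k)) = .var (b k)) ∧ (synG S).IsSum T ⟨A⟩ ε := by
  have hb : ∀ k, (termRP S A).M.dim (Tm.var (b k) : S.T A.P) = T.i k := fun k => h.dim k
  obtain ⟨ε, hε⟩ : ∃ ε : ∀ k, (synG S).D (T.i k) ⟶ (⟨A⟩ : Syn S),
      ∀ k, (ε k).1 (dtop (T.i k)) = .var (b k) := by
    refine ⟨fun k => ofG (X := (synG S).D (T.i k)) (Y := ⟨A⟩)
      (ofCell (termRP S A) (T.i k) ⟨.var (b k), trivial⟩ (hb k)), fun k => ?_⟩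
    exact congrArg Subtype.val (ofCell_top (termRP S A) (T.i k) ⟨.var (b k), trivial⟩ (hb k))
  have hvar : ∀ (t : A.P) (q : D), (termRP S A).M.toGlob.bd (Tm.var t : S.T A.P) q =
      Tm.var (A.G.bd t q) := fun t q =>
    (map_bd (G := A.G) (H := (termRP S A).M.toGlob) (f := Tm.var) (x := t) trivial
      (fun y _ _ => ⟨trivial, rfl, fun _ => ⟨rfl, rfl⟩⟩) q).symm
  refine ⟨ε, hε, fun k => ?_, fun Y y hy => ?_⟩
  · refine homG_inj (GMap.ext_top (Subtype.ext ?_))
    have h1 := GMap.pre_sTo (T.lt_left k).le (homG (ε k.castSucc))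
    have h2 := GMap.pre_tTo (T.lt_right k).le (homG (ε k.succ))
    refine h1.trans (Eq.trans ?_ h2.symm)
    change (termRP S A).M.toGlob.bd ((ε k.castSucc).1 (dtop _)) _ =
      (termRP S A).M.toGlob.bd ((ε k.succ).1 (dtop _)) _
    rw [hε, hε, hvar, hvar, h.glue k]
  · obtain ⟨f, hf, hu⟩ := nObj_isModel' (termRP S Y.A) h (fun k => homG (y k)) (fun k => by
      exact congrArg homG (hy k))
    have hcomp : ∀ (g : (⟨A⟩ : Syn S) ⟶ Y) (k), (ε k ≫ g).1 (dtop (T.i k)) = g.1 (b k) := by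
      intro g k
      change ((ε k).1 (dtop (T.i k))).bind g.1 = g.1 (b k)
      rw [hε]
      rfl
    refine ⟨ofG (X := ⟨A⟩) f, fun k => hom_ext_top ?_, fun g hg => ?_⟩
    · rw [hcomp]
      exact congrArg Subtype.val (hf k)
    · have h3 := hu (homG g) (fun k => Subtype.ext ?_)
      · exact congrArg ofG h3
      · rw [← hg k]
        exact (hcomp g k).symm

theorem synG_isExt [S.Good] : (synG S).IsExt := by
  intro T
  obtain ⟨A, b, h⟩ := exists_code T
  obtain ⟨ε, -, hs⟩ := syn_isSum (S := S) h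
  exact ⟨⟨A⟩, ε, hs⟩

theorem synG_contractible [S.Good] (h : ∀ (A : PC) (L : ℕ), (ofGlob S A.G).MContr L) :
    (synG S).Contractible := by
  intro X i f g hp
  have hpar : (ofGlob S X.A.G).Par (f.1 (dtop i)) (g.1 (dtop i)) := by
    have hf := (homG f).top_dim
    have hg := (homG g).top_dim
    refine ⟨(f.2 _).1, (g.2 _).1, hf.trans hg.symm, fun h0 => ?_⟩
    cases i with
    | zero => exact absurd (lt_of_lt_of_eq h0 hf) (lt_irrefl _)
    | succ i =>
      obtain ⟨h1, h2⟩ := hp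
      have a1 := GMap.pre_s (S := S) (homG f)
      have a2 := GMap.pre_s (S := S) (homG g)
      have a3 := GMap.pre_t (S := S) (homG f)
      have a4 := GMap.pre_t (S := S) (homG g)
      constructor
      · refine a1.symm.trans (Eq.trans ?_ a2)
        exact congrArg (fun γ : (synG S).D i ⟶ X => γ.1 (dtop i)) h1
      · refine a3.symm.trans (Eq.trans ?_ a4)
        exact congrArg (fun γ : (synG S).D i ⟶ X => γ.1 (dtop i)) h2
  obtain ⟨t, t1, t2, t3, t4⟩ := h X.A _ _ _ hpar (Nat.lt_succ_self _)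
  have t2' : (termRP S X.A).M.dim t = i + 1 := t2.trans (congrArg (· + 1) (homG f).top_dim)
  have htop := congrArg Subtype.val (ofCell_top (termRP S X.A) (i + 1) ⟨t, t1⟩ t2')
  refine ⟨ofG (X := (synG S).D (i + 1)) (ofCell (termRP S X.A) (i + 1) ⟨t, t1⟩ t2'), ?_, ?_⟩
  · refine hom_ext_top ?_
    have a1 := GMap.pre_s (S := S) (ofCell (termRP S X.A) (i + 1) ⟨t, t1⟩ t2')
    refine a1.trans ?_
    rw [htop]
    exact t3
  · refine hom_ext_top ?_
    have a1 := GMap.pre_t (S := S) (ofCell (termRP S X.A) (i + 1) ⟨t, t1⟩ t2')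
    refine a1.trans ?_
    rw [htop]
    exact t4

theorem nObj_isModel [S.Good] (M : RMod S) : Pool.Agent.HH.IsModel (synG S) (nObj M) := by
  intro T X ε hs g hg
  obtain ⟨A, b, h⟩ := exists_code T
  obtain ⟨ε', hε', hs'⟩ := syn_isSum (S := S) h
  obtain ⟨e, he⟩ := hs.exists_iso hs'
  obtain ⟨f, hf, hu⟩ := nObj_isModel' M h g hg
  -- the value at `b k` is the top value of the restriction along `ε' k`
  have htop : ∀ (f : GMap M A) (k), GMap.pre (ε' k) f = g k ↔ f.1 (b k) = (g k).1 (dtop (T.i k)) := by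
    intro f k
    have h1 : ((GMap.pre (ε' k) f).1 (dtop (T.i k))).1 = (f.1 (b k)).1 := by
      change M.M.eval (fun p => (f.1 p).1) ((ε' k).1 (dtop (T.i k))) = (f.1 (b k)).1
      rw [hε']
      rfl
    constructor
    · intro h2
      rw [← h2]
      exact Subtype.ext h1.symm
    · intro h2
      exact GMap.ext_top (Subtype.ext (h1.trans (congrArg Subtype.val h2)))
  refine ⟨GMap.pre e.hom f, fun k => ?_, fun y hy => ?_⟩
  · change GMap.pre (ε k) (GMap.pre e.hom f) = g k
    rw [← GMap.pre_comp, he k]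
    exact (htop f k).2 (hf k)
  · have h1 := hu (GMap.pre e.inv y) (fun k => (htop _ k).1 (by
      rw [← GMap.pre_comp, ← he k, Category.assoc, e.hom_inv_id, Category.comp_id]
      exact hy k))
    rw [← h1, ← GMap.pre_comp, e.hom_inv_id]
    rfl

theorem GMap.post_pre {M N : RMod S} (φ : M ⟶ N) {X Y : Syn S} (γ : X ⟶ Y) (f : GMap M Y.A) :
    GMap.post φ (GMap.pre γ f) = GMap.pre γ (GMap.post φ f) := by
  refine Subtype.ext (funext fun p => Subtype.ext ?_)
  exact RHom.eval φ (X := ofGlob S Y.A.G) (γ := f.1) (fun v _ => f.2 v) (γ.1 p) (γ.2 p).1 _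

/-- The functor from raw models to official models of the syntactic category. -/
noncomputable def nF (S : Sig) [S.Good] : RMod S ⥤ OMod (synG S) where
  obj M := ⟨nObj M, nObj_isModel M⟩
  map {M N} φ := ObjectProperty.homMk
    { app := fun X => TypeCat.ofHom fun f => GMap.post φ f
      naturality := by
        intro X Y γ
        ext f
        exact GMap.post_pre φ γ.unop f }
  map_id M := by
    rfl
  map_comp φ ψ := by
    rfl

theorem nF_homotopic [S.Good] {M : RMod S} {n : ℕ} (x y : GMap M (dk n)) :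
    Pool.Agent.HH.Model.Homotopic ((nF S).obj M) (i := n) x y ↔
      M.M.toGlob.Conn (x.1 (dtop n)).1 (y.1 (dtop n)).1 := by
  constructor
  · rintro ⟨h, h1, h2⟩
    have h1' : GMap.pre ((synG S).s n) h = x := h1
    have h2' : GMap.pre ((synG S).t n) h = y := h2
    refine ⟨(h.1 (dtop (n + 1))).1, (h.1 (dtop (n + 1))).2, ?_, ?_, ?_⟩
    · rw [x.top_dim]
      exact GMap.top_dim (S := S) (n := n + 1) h
    · rw [← h1']
      exact (GMap.pre_s h).symm
    · rw [← h2']
      exact (GMap.pre_t h).symm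
  · rintro ⟨k, k1, k2, k3, k4⟩
    have k2' : M.M.dim k = n + 1 := k2.trans (congrArg (· + 1) x.top_dim)
    have htop := congrArg Subtype.val (ofCell_top M (n + 1) ⟨k, k1⟩ k2')
    refine ⟨ofCell M (n + 1) ⟨k, k1⟩ k2', ?_, ?_⟩
    · refine GMap.ext_top (Subtype.ext ((GMap.pre_s _).trans ?_))
      rw [htop]
      exact k3
    · refine GMap.ext_top (Subtype.ext ((GMap.pre_t _).trans ?_))
      rw [htop]
      exact k4

theorem nF_par [S.Good] {M : RMod S} {n : ℕ} (x y : GMap M (dk n))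
    (h : Pool.Agent.HH.Model.Par ((nF S).obj M) n x y) :
    M.M.toGlob.Par (x.1 (dtop n)).1 (y.1 (dtop n)).1 := by
  refine ⟨(x.1 _).2, (y.1 _).2, x.top_dim.trans y.top_dim.symm, fun h0 => ?_⟩
  cases n with
  | zero => exact absurd (lt_of_lt_of_eq h0 x.top_dim) (lt_irrefl _)
  | succ n =>
    obtain ⟨h1, h2⟩ := h
    have h1' : GMap.pre ((synG S).s n) x = GMap.pre ((synG S).s n) y := h1
    have h2' : GMap.pre ((synG S).t n) x = GMap.pre ((synG S).t n) y := h2
    constructor
    · rw [← GMap.pre_s x, ← GMap.pre_s y, h1']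
    · rw [← GMap.pre_t x, ← GMap.pre_t y, h2']

theorem nF_isW [S.Good] {M N : RMod S} (φ : M ⟶ N) (h : RMod.IsW φ) : IsWM ((nF S).map φ) := by
  refine ⟨?_, ?_, ?_⟩
  · intro y
    obtain ⟨x, x1, x2⟩ := h.1 (GMap.top (S := S) (n := 0) y) (GMap.top_dim (S := S) (n := 0) y)
    refine ⟨ofCell M 0 x x1, ?_⟩
    refine (nF_homotopic _ _).2 ?_
    have e1 : (((GMap.post φ (ofCell M 0 x x1)).1 (dtop 0))).1 = (RHom.f φ x).1 := by
      change (RHom.f φ ((ofCell M 0 x x1).1 (dtop 0))).1 = _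
      rw [ofCell_top]
    refine Eq.mpr ?_ x2
    exact congrArg₂ N.M.toGlob.Conn e1 rfl
  · intro i x x' hp hc
    refine (nF_homotopic _ _).2 (h.2.1 _ _ (nF_par x x' hp) ?_)
    exact (nF_homotopic _ _).1 hc
  · intro i x x' hp g h1 h2
    have h1' : GMap.pre ((synG S).s i) g = GMap.post φ x := h1
    have h2' : GMap.pre ((synG S).t i) g = GMap.post φ x' := h2
    have hx : M.M.dim ((GMap.top (S := S) (n := i) x)).1 = i := GMap.top_dim (S := S) (n := i) x
    obtain ⟨k, k1, k2, k3, k4⟩ := h.2.2 (GMap.top (S := S) (n := i) x) (GMap.top (S := S) (n := i) x')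
      (nF_par x x' hp) (GMap.top (S := S) (n := i + 1) g)
      ((GMap.top_dim (S := S) (n := i + 1) g).trans (congrArg (· + 1) hx.symm))
      (by
        refine (GMap.pre_s (S := S) g).symm.trans ?_
        rw [h1']
        rfl)
      (by
        refine (GMap.pre_t (S := S) g).symm.trans ?_
        rw [h2']
        rfl)
    have k1' : M.M.dim k.1 = i + 1 := k1.trans (congrArg (· + 1) hx)
    have htop := ofCell_top M (i + 1) k k1'
    refine ⟨ofCell M (i + 1) k k1', ?_, ?_, ?_⟩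
    · refine GMap.ext_top (Subtype.ext ((GMap.pre_s _).trans ?_))
      rw [htop]
      exact k2
    · refine GMap.ext_top (Subtype.ext ((GMap.pre_t _).trans ?_))
      rw [htop]
      exact k3
    · refine (nF_homotopic _ _).2 ?_
      have e1 : (((GMap.post φ (ofCell M (i + 1) k k1')).1 (dtop (i + 1)))).1 = (RHom.f φ k).1 := by
        change (RHom.f φ ((ofCell M (i + 1) k k1').1 (dtop (i + 1)))).1 = _
        rw [htop]
      refine Eq.mpr ?_ k4
      exact congrArg₂ N.M.toGlob.Conn e1 rfl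

end HH
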