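import Pool.Agent.HH.GGDefs
import Pool.Agent.HH.PastCode

/-!
# HH stage 2b: the syntactic category of a signature (definitions)

Objects: codes; arrows `A ⟶ B`: globular maps from the cells of `A` to the terms over `B`.
-/

set_option autoImplicit false

namespace HH

open Classical CategoryTheory Opposite

open Pool.Agent.HH (Globes)

/-- Objects of the syntactic category. -/
structure Syn (S : Sig) where
  A : PC

/-- Arrows of the syntactic category. -/
abbrev SynHom {S : Sig} (X Y : Syn S) : Type :=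
  {γ : X.A.P → S.T Y.A.P // ∀ p, MapAt X.A.G (ofGlob S Y.A.G).m.toGlob γ p}

/-- composition of typed substitutions -/
theorem syn_comp {S : Sig} {X Y Z : Syn S} (γ : SynHom X Y) (δ : SynHom Y Z) (p : X.A.P) :
    MapAt X.A.G (ofGlob S Z.A.G).m.toGlob (fun p => (γ.1 p).bind δ.1) p := by
  have h1 := γ.2 p
  have h2 : MapAt (ofGlob S Y.A.G).m.toGlob (ofGlob S Z.A.G).m.toGlob
      ((ofGlob S Z.A.G).m.eval δ.1) (γ.1 p) :=
    eval_mapAt (X := ofGlob S Y.A.G) (M := (ofGlob S Z.A.G).m) (fun v _ => δ.2 v) (γ.1 p) h1.1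
  obtain ⟨a1, a2, a3⟩ := h1
  obtain ⟨b1, b2, b3⟩ := h2
  refine ⟨b1, b2.trans a2, fun h0 => ?_⟩
  obtain ⟨c1, c2⟩ := a3 h0
  obtain ⟨d1, d2⟩ := b3 (by rw [a2]; exact h0)
  exact ⟨d1.trans (congrArg (fun t => Tm.bind t δ.1) c1),
    d2.trans (congrArg (fun t => Tm.bind t δ.1) c2)⟩

instance synCat (S : Sig) : SmallCategory (Syn S) where
  Hom X Y := SynHom X Y
  id X := ⟨fun p => .var p, fun p => ⟨trivial, rfl, fun _ => ⟨rfl, rfl⟩⟩⟩
  comp γ δ := ⟨fun p => (γ.1 p).bind δ.1, syn_comp γ δ⟩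
  id_comp γ := rfl
  comp_id γ := Subtype.ext (funext fun p => Tm.bind_var_self _)
  assoc γ δ ε := Subtype.ext (funext fun p => Tm.bind_bind _ _ _)

/-- The code of the disk. -/
noncomputable def dk (j : ℕ) : PC := (isPast_disk j).choose

/-- positions of the code of the disk as positions of the disk -/
noncomputable def dkf (j : ℕ) : (dk j).P → D := (isPast_disk j).choose_spec.choose

/-- positions of the disk as positions of its code -/
noncomputable def dkg (j : ℕ) : D → (dk j).P := (isPast_disk j).choose_spec.choose_spec.choose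

theorem dkf_mapAt (j : ℕ) (p : (dk j).P) : MapAt (dk j).G (diskG j) (dkf j) p :=
  (isPast_disk j).choose_spec.choose_spec.choose_spec.1 p

theorem dkg_mapAt (j : ℕ) (q : D) (hq : (diskG j).ok q) : MapAt (diskG j) (dk j).G (dkg j) q :=
  (isPast_disk j).choose_spec.choose_spec.choose_spec.2.1 q hq

theorem dkg_dkf (j : ℕ) (p : (dk j).P) : dkg j (dkf j p) = p :=
  (isPast_disk j).choose_spec.choose_spec.choose_spec.2.2.1 p

theorem dkf_dkg (j : ℕ) (q : D) (hq : (diskG j).ok q) : dkf j (dkg j q) = q :=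
  (isPast_disk j).choose_spec.choose_spec.choose_spec.2.2.2 q hq

/-- The positions of the boundary disks inside the disk of the next dimension. -/
theorem dk_incl (S : Sig) (n : ℕ) (b : Bool) (p : (dk n).P) :
    MapAt (dk n).G (ofGlob S (dk (n + 1)).G).m.toGlob
      (fun p => .var (dkg (n + 1) (bdD (n, b) (dkf n p)))) p := by
  have hq : ∀ q : D, (diskG n).ok q → (diskG (n + 1)).ok (bdD (n, b) q) ∧
      (bdD (n, b) q).1 = q.1 := by
    rintro ⟨i, ε⟩ h
    simp only [diskG, bdD] at *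
    split_ifs with h1
    · exact ⟨by left; omega, rfl⟩
    · refine ⟨by left; simp, ?_⟩
      rcases h with h | h <;> simp at * <;> omega
  obtain ⟨h1, h2, h3⟩ := dkf_mapAt n p
  obtain ⟨h4, h5⟩ := hq _ h1
  obtain ⟨g1, g2, g3⟩ := dkg_mapAt (n + 1) _ h4
  have e2 : (diskG (n + 1)).dim (bdD (n, b) (dkf n p)) = (dk n).G.dim p := h5.trans h2
  refine ⟨trivial, g2.trans e2, fun h0 => ?_⟩
  obtain ⟨a1, a2⟩ := h3 h0
  obtain ⟨b1, b2⟩ := g3 (by rw [e2]; exact h0)
  have hd : (dkf n p).1 = (dk n).G.dim p := h2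
  have hle : (dkf n p).1 ≤ n := by
    rcases h1 with h1 | h1
    · exact le_of_lt h1
    · exact le_of_eq h1.1
  have key : ∀ δ : Bool, bdD (n, b) ((dkf n p).1 - 1, δ) = ((dkf n p).1 - 1, δ) := by
    intro δ
    have : (dkf n p).1 - 1 < n := by omega
    simp [bdD, this]
  constructor
  · change (Tm.var _ : S.T _) = Tm.var _
    rw [b1, ← a1]
    change Tm.var (dkg (n + 1) ((bdD (n, b) (dkf n p)).1 - 1, false)) =
      Tm.var (dkg (n + 1) (bdD (n, b) ((dkf n p).1 - 1, false)))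
    rw [key, h5]
  · change (Tm.var _ : S.T _) = Tm.var _
    rw [b2, ← a2]
    change Tm.var (dkg (n + 1) ((bdD (n, b) (dkf n p)).1 - 1, true)) =
      Tm.var (dkg (n + 1) (bdD (n, b) ((dkf n p).1 - 1, true)))
    rw [key, h5]

theorem dk_globular (n : ℕ) (b c : Bool) (p : (dk n).P) :
    bdD (n + 1, c) (dkf (n + 1) (dkg (n + 1) (bdD (n, b) (dkf n p)))) = bdD (n, b) (dkf n p) := by
  have h1 := (dkf_mapAt n p).1
  have hq : (diskG (n + 1)).ok (bdD (n, b) (dkf n p)) ∧ (bdD (n, b) (dkf n p)).1 ≤ n := by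
    revert h1
    generalize dkf n p = q
    obtain ⟨i, ε⟩ := q
    intro h
    simp only [diskG, bdD] at *
    split_ifs with h1
    · exact ⟨by left; omega, le_of_lt h1⟩
    · exact ⟨by left; simp, le_refl _⟩
  rw [dkf_dkg _ _ hq.1]
  have : (bdD (n, b) (dkf n p)).1 < n + 1 := by omega
  simp only [bdD] at *
  split_ifs at * <;> simp_all

/-- The globes of the syntactic category. -/
noncomputable def synG (S : Sig) : Globes (Syn S) where
  D n := ⟨dk n⟩
  s n := ⟨fun p => .var (dkg (n + 1) (bdD (n, false) (dkf n p))), dk_incl S n false⟩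
  t n := ⟨fun p => .var (dkg (n + 1) (bdD (n, true) (dkf n p))), dk_incl S n true⟩
  s_st n := by
    apply Subtype.ext
    funext p
    change (Tm.var _ : S.T _) = Tm.var _
    rw [dk_globular, dk_globular]
  t_st n := by
    apply Subtype.ext
    funext p
    change (Tm.var _ : S.T _) = Tm.var _
    rw [dk_globular, dk_globular]

/-- evaluating a typed substitution at a typed family -/
theorem eval_syn {S : Sig} {M : Model S} [M.OpLaws] {X Y : Syn S} {f : Y.A.P → M.C}
    (hf : ∀ p, MapAt Y.A.G M.toGlob f p) (γ : X ⟶ Y) (p : X.A.P) :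
    MapAt X.A.G M.toGlob (fun p => M.eval f (γ.1 p)) p := by
  have h1 := γ.2 p
  have h2 : MapAt (ofGlob S Y.A.G).m.toGlob M.toGlob (M.eval f) (γ.1 p) :=
    eval_mapAt (X := ofGlob S Y.A.G) (M := M) (fun v _ => hf v) (γ.1 p) h1.1
  obtain ⟨a1, a2, a3⟩ := h1
  obtain ⟨b1, b2, b3⟩ := h2
  refine ⟨b1, b2.trans a2, fun h0 => ?_⟩
  obtain ⟨c1, c2⟩ := a3 h0
  obtain ⟨d1, d2⟩ := b3 (by rw [a2]; exact h0)
  exact ⟨d1.trans (congrArg (M.eval f) c1), d2.trans (congrArg (M.eval f) c2)⟩

/-- Globular maps from a code to a model. -/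
abbrev GMap {S : Sig} (M : RMod S) (A : PC) : Type :=
  {f : A.P → M.Cell // ∀ p, MapAt A.G M.M.toGlob (fun p => (f p).1) p}

/-- precomposition with a substitution -/
def GMap.pre {S : Sig} {M : RMod S} {X Y : Syn S} (γ : X ⟶ Y) (f : GMap M Y.A) : GMap M X.A :=
  ⟨fun p => ⟨M.M.eval (fun p => (f.1 p).1) (γ.1 p), (eval_syn f.2 γ p).1⟩, eval_syn f.2 γ⟩

/-- composition with a morphism of models -/
def GMap.post {S : Sig} {M N : RMod S} (φ : M ⟶ N) {A : PC} (f : GMap M A) : GMap N A :=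
  ⟨fun p => RHom.f φ (f.1 p), fun p => RHom.mapAt φ (f.2 p)⟩

/-- The presheaf of globular maps into a model. -/
def nObj {S : Sig} (M : RMod S) : (Syn S)ᵒᵖ ⥤ Type where
  obj X := GMap M X.unop.A
  map γ := TypeCat.ofHom fun f => GMap.pre γ.unop f
  map_id X := rfl
  map_comp γ δ := by
    ext f
    exact eval_bind M.M _ _ _

end HH
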