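import Pool.Agent.HH.DefsCs
import Pool.Agent.HH.Official

/-!
# HH stage 2b: tables and codes (definitions)

`IsTab T A b`: the code `A` is the globular sum of the table `T`, the disk number `k` of the table
being the cell `b k` of `A`.
-/

set_option autoImplicit false

namespace HH

open Classical

/-- The pasting shape `A` is the globular sum of the table `T`, with disks `b k`. -/
structure IsTab (T : Pool.Agent.HH.Table) (A : PC) (b : Fin (T.m + 1) → A.P) : Prop where
  dim : ∀ k, A.h (b k) = T.i k
  glue : ∀ k : Fin T.m,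
    A.G.bd (b k.castSucc) (T.i' k, false) = A.G.bd (b k.succ) (T.i' k, true)
  up : ∀ (H : Glob) [H.Laws] (y : Fin (T.m + 1) → H.C),
    (∀ k, H.ok (y k) ∧ H.dim (y k) = T.i k) →
    (∀ k : Fin T.m, H.bd (y k.castSucc) (T.i' k, false) = H.bd (y k.succ) (T.i' k, true)) →
    ∃! f : A.P → H.C, (∀ p, MapAt A.G H f p) ∧ ∀ k, f (b k) = y k

end HH
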