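import Pool.Agent.HH.Defs2
import Pool.Agent.HH.CSLem
import Pool.Agent.HH.CylUP
import Pool.Agent.HH.Interp
import Pool.Agent.HH.Cyl0UP
import Pool.Agent.HH.Ext2F
import Pool.Agent.HH.Ext2
import Pool.Agent.HH.W01
import Pool.Agent.HH.UnitH0
import Pool.Agent.HH.Trans0
import Pool.Agent.HH.Bd
import Pool.Agent.HH.Retract
import Pool.Agent.HH.CylGood
set_option autoImplicit false
namespace HH
open Classical CategoryTheory
variable {S E R : Sig}

/-! ## c15 ThmA0 -/

theorem thmA0_exp_good [S.Good] {X : Cptd S} [X.Good] {I : Type} {okI : I → Prop} {n : ℕ}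
    {b : I → S.T X.V} (hb : ∀ i, okI i → X.tok (b i) ∧ X.tdim (b i) = n) :
    (X.exp okI n b).Good := by
  have L := m_laws X
  have hz := fun t ht => CylGood_exp_z_mapAt (okI := okI) (n := n) (b := b) (X := X) t ht
  constructor
  · rintro (v | p | p) hv h0
    · exact (hz (X.src v) (Cptd.Good.ok_src v hv h0)).1
    · have h0' : 0 < n := h0
      exact (hz _ (L.ok_src (b p) (hb p hv).1 (by rw [m_dim, (hb p hv).2]; exact h0'))).1
    · exact (hz _ (hb p hv).1).1
  · rintro (v | p | p) hv h0
    · exact (hz (X.tgt v) (Cptd.Good.ok_tgt v hv h0)).1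
    · have h0' : 0 < n := h0
      exact (hz _ (L.ok_tgt (b p) (hb p hv).1 (by rw [m_dim, (hb p hv).2]; exact h0'))).1
    · exact hv
  · rintro (v | p | p) hv h0
    · have h1 := (hz (X.src v) (Cptd.Good.ok_src v hv h0)).2.1
      exact (congrArg (· + 1) h1).trans (Cptd.Good.dim_src v hv h0)
    · have h0' : 0 < X.m.dim (b p) := by rw [m_dim, (hb p hv).2]; exact h0
      have h1 := (hz _ (L.ok_src (b p) (hb p hv).1 h0')).2.1
      exact (congrArg (· + 1) h1).trans ((L.dim_src (b p) (hb p hv).1 h0').trans (hb p hv).2)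
    · have h1 := (hz _ (hb p hv).1).2.1
      exact congrArg (· + 1) (h1.trans (hb p hv).2)
  · rintro (v | p | p) hv h0
    · have h1 := (hz (X.tgt v) (Cptd.Good.ok_tgt v hv h0)).2.1
      exact (congrArg (· + 1) h1).trans (Cptd.Good.dim_tgt v hv h0)
    · have h0' : 0 < X.m.dim (b p) := by rw [m_dim, (hb p hv).2]; exact h0
      have h1 := (hz _ (L.ok_tgt (b p) (hb p hv).1 h0')).2.1
      exact (congrArg (· + 1) h1).trans ((L.dim_tgt (b p) (hb p hv).1 h0').trans (hb p hv).2)
    · rfl
  · rintro (v | p | p) hv h1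
    · have h1' : 1 < X.dim v := h1
      have hs0 := Cptd.Good.ok_src v hv (by omega)
      have ht0 := Cptd.Good.ok_tgt v hv (by omega)
      have ds := Cptd.Good.dim_src v hv (by omega)
      have dt := Cptd.Good.dim_tgt v hv (by omega)
      have a1 := ((hz (X.tgt v) ht0).2.2 (show 0 < X.tdim (X.tgt v) by omega)).1
      have a2 := ((hz (X.src v) hs0).2.2 (show 0 < X.tdim (X.src v) by omega)).1
      have a3 := Cptd.Good.src_tgt v hv h1'
      exact a1.trans ((congrArg (fun t : S.T X.V => t.map CV.z) a3).trans a2.symm)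
    · have h1' : 1 < X.m.dim (b p) := by rw [m_dim, (hb p hv).2]; exact h1
      have ds := L.dim_src (b p) (hb p hv).1 (by omega)
      have dt := L.dim_tgt (b p) (hb p hv).1 (by omega)
      have a1 := ((hz _ (L.ok_tgt (b p) (hb p hv).1 (by omega))).2.2 (by omega)).1
      have a2 := ((hz _ (L.ok_src (b p) (hb p hv).1 (by omega))).2.2 (by omega)).1
      have a3 := L.src_tgt (b p) (hb p hv).1 h1'
      exact a1.trans ((congrArg (fun t : S.T X.V => t.map CV.z) a3).trans a2.symm)
    · have h1' : 0 < X.m.dim (b p) := by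
        rw [m_dim, (hb p hv).2]
        have : 1 < n + 1 := h1
        omega
      exact ((hz _ (hb p hv).1).2.2 h1').1.symm
  · rintro (v | p | p) hv h1
    · have h1' : 1 < X.dim v := h1
      have hs0 := Cptd.Good.ok_src v hv (by omega)
      have ht0 := Cptd.Good.ok_tgt v hv (by omega)
      have ds := Cptd.Good.dim_src v hv (by omega)
      have dt := Cptd.Good.dim_tgt v hv (by omega)
      have a1 := ((hz (X.tgt v) ht0).2.2 (show 0 < X.tdim (X.tgt v) by omega)).2
      have a2 := ((hz (X.src v) hs0).2.2 (show 0 < X.tdim (X.src v) by omega)).2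
      have a3 := Cptd.Good.tgt_src v hv h1'
      exact a2.trans ((congrArg (fun t : S.T X.V => t.map CV.z) a3).trans a1.symm)
    · have h1' : 1 < X.m.dim (b p) := by rw [m_dim, (hb p hv).2]; exact h1
      have ds := L.dim_src (b p) (hb p hv).1 (by omega)
      have dt := L.dim_tgt (b p) (hb p hv).1 (by omega)
      have a1 := ((hz _ (L.ok_tgt (b p) (hb p hv).1 (by omega))).2.2 (by omega)).2
      have a2 := ((hz _ (L.ok_src (b p) (hb p hv).1 (by omega))).2.2 (by omega)).2
      have a3 := L.tgt_src (b p) (hb p hv).1 h1'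
      exact a2.trans ((congrArg (fun t : S.T X.V => t.map CV.z) a3).trans a1.symm)
    · have h1' : 0 < X.m.dim (b p) := by
        rw [m_dim, (hb p hv).2]
        have : 1 < n + 1 := h1
        omega
      exact ((hz _ (hb p hv).1).2.2 h1').2


/-- transfer of `CylAt` along a map of globular sets which respects iterated boundaries -/
theorem thmA0_cylAt {M : Model S} {x : XFam S} {W W' : Glob} {f : W'.C → W.C}
    {α β e : W.C → M.C} {p : W'.C} (hd : W.dim (f p) = W'.dim p)
    (hf : ∀ q, f (W'.bd p q) = W.bd (f p) q)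
    (h : CylAt M x W' (fun p => α (f p)) (fun p => β (f p)) (fun p => e (f p)) p) :
    CylAt M x W α β e (f p) := by
  obtain ⟨h1, h2, h3, h4⟩ := h
  refine ⟨h1, ?_, ?_, h4⟩
  · rw [hd]; exact h2
  · rw [← cs_comp x f α β e p hd hf]
    exact h3

/-- iterated boundaries commute with renaming along `z` -/
theorem thmA0_bd_map {X : Cptd S} {I : Type} {okI : I → Prop} {n : ℕ} {b : I → S.T X.V}
    (t : S.T X.V) (q : D) :
    (X.m.toGlob.bd t q).map CV.z = (X.exp okI n b).m.toGlob.bd (t.map CV.z) q := by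
  have hd : ∀ s : S.T X.V, (X.exp okI n b).tdim (s.map CV.z) = X.tdim s := by
    intro s
    cases s <;> rfl
  have hs : ∀ s : S.T X.V, (X.exp okI n b).tsrc (s.map CV.z) = (X.tsrc s).map CV.z := by
    intro s
    cases s with
    | var v => rfl
    | op k γ =>
      exact (Tm.bind_bind (S.bs k) γ _).symm
  have ht : ∀ s : S.T X.V, (X.exp okI n b).ttgt (s.map CV.z) = (X.ttgt s).map CV.z := by
    intro s
    cases s with
    | var v => rfl
    | op k γ =>
      exact (Tm.bind_bind (S.bt k) γ _).symm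
  unfold Glob.bd
  have hd' : (X.exp okI n b).m.toGlob.dim (t.map CV.z) = X.m.toGlob.dim t := hd t
  rw [hd']
  generalize X.m.toGlob.dim t - q.1 = k
  cases hq : q.2 with
  | false =>
    simp only [Bool.false_eq_true, if_false]
    induction k with
    | zero => rfl
    | succ k ih =>
      rw [Function.iterate_succ_apply', Function.iterate_succ_apply', ← ih]
      exact (hs _).symm
  | true =>
    simp only [if_true]
    induction k with
    | zero => rfl
    | succ k ih =>
      rw [Function.iterate_succ_apply', Function.iterate_succ_apply', ← ih]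
      exact (ht _).symm

/-- the lower boundary of the new cell `top i` -/
theorem thmA0_bd_top {X : Cptd S} {I : Type} {okI : I → Prop} {n : ℕ} {b : I → S.T X.V} {i : I}
    [S.Good] [X.Good] [(X.exp okI n b).Good] (hi : okI i) (hb : X.tok (b i) ∧ X.tdim (b i) = n)
    {q : D} (hq : q.1 < n) :
    (X.exp okI n b).m.toGlob.bd (.var (.top i)) q = (X.m.toGlob.bd (b i) q).map CV.z := by
  rw [thmA0_bd_map]
  have h1 : (X.exp okI n b).m.toGlob.Par (.var (.top i)) ((b i).map CV.z) := by
    have hz := eval_mapAt (M := (X.exp okI n b).m) (X := X) (γ := fun v => .var (.z v))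
      (fun v hv => exp_incl (B := X.dim v + 1) v hv (Nat.lt_succ_self _)) (b i) hb.1
    refine ⟨hi, hz.1, ?_, fun h0 => ?_⟩
    · exact (hz.2.1.trans hb.2).symm
    · have h0' : 0 < X.tdim (b i) := by
        rw [hb.2]
        exact h0
      exact ⟨(hz.2.2 h0').1.symm, (hz.2.2 h0').2.symm⟩
  exact Par.bd_eq h1 (by exact hq)

theorem thmA0_ext2_map {M : Model S} {b : Interp S S} {Q : QFam S} {V W : Type} (f : V → W)
    (α β e : W → M.C) (t : S.T V) :
    ext2 M b Q α β e (t.map f) =
      ext2 M b Q (fun v => α (f v)) (fun v => β (f v)) (fun v => e (f v)) t := by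
  unfold Tm.map
  rw [ext2_bind]
  rfl

theorem expS0 [E.Good] {d : L0 E} (hd : d.Good) {Q : QFam E} (hQ : Q2Good d.x (idI E) Q) :
    ExpS0 E := by
  intro X hX hwf I okI n b y0 e0 hb hpar he0 f g hfg hconn
  have hX'g : (X.exp okI n b).Good := thmA0_exp_good hb
  -- the homotopy from the inclusion
  have hα0 : ∀ v, X.ok v → AsgAt X (X.exp okI n b).m (fun v => .var (.z v)) v := fun v hv =>
    exp_incl (B := X.dim v + 1) v hv (Nat.lt_succ_self _)
  obtain ⟨ε, c, hε, hεcyl⟩ := exists_unitH0 hd idI_good hQ hwf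
    (fun v _ => ⟨trans_id _, trans_id _⟩) (M := (X.exp okI n b).m) hα0
  have etr : (fun t : E.T X.V => (X.exp okI n b).m.eval ε (trans (idI E) t)) =
      (X.exp okI n b).m.eval ε := by
    funext t
    rw [trans_id]
  replace hεcyl : IsCyl0 d.x X.m.toGlob (X.exp okI n b).m
      ((X.exp okI n b).m.eval fun v => Tm.var (CV.z v)) ((X.exp okI n b).m.eval ε)
      (ext2 (X.exp okI n b).m (idI E) Q (fun v => Tm.var (CV.z v)) ε c) :=
    Eq.mp (congrArg (fun F => IsCyl0 d.x X.m.toGlob (X.exp okI n b).m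
      ((X.exp okI n b).m.eval fun v => Tm.var (CV.z v)) F
      (ext2 (X.exp okI n b).m (idI E) Q (fun v => Tm.var (CV.z v)) ε c)) etr) hεcyl
  -- the retraction
  have hu : ∀ v, (X.exp okI n b).ok v →
      AsgAt (X.exp okI n b) X.m (CV.elim Tm.var y0 e0) v := by
    intro v hv
    cases v with
    | z v =>
      refine ⟨hv, rfl, fun _ => ⟨?_, ?_⟩⟩
      · change X.src v = ((X.src v).map CV.z).bind _
        rw [Tm.map_bind]
        exact (Tm.bind_var_self _).symm
      · change X.tgt v = ((X.tgt v).map CV.z).bind _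
        rw [Tm.map_bind]
        exact (Tm.bind_var_self _).symm
    | top i =>
      obtain ⟨p1, p2, p3, p4⟩ := hpar i hv
      refine ⟨p2, p3.symm.trans (hb i hv).2, fun h0 => ?_⟩
      have h0' : 0 < X.tdim (b i) := by
        rw [(hb i hv).2]; exact h0
      obtain ⟨p5, p6⟩ := p4 h0'
      refine ⟨?_, ?_⟩
      · change X.tsrc (y0 i) = ((X.tsrc (b i)).map CV.z).bind _
        rw [Tm.map_bind]
        exact p5.symm.trans (Tm.bind_var_self _).symm
      · change X.ttgt (y0 i) = ((X.ttgt (b i)).map CV.z).bind _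
        rw [Tm.map_bind]
        exact p6.symm.trans (Tm.bind_var_self _).symm
    | cyl i =>
      obtain ⟨p1, p2, p3, p4⟩ := he0 i hv
      refine ⟨p1, p2, fun _ => ⟨?_, ?_⟩⟩
      · change X.tsrc (e0 i) = ((b i).map CV.z).bind _
        rw [Tm.map_bind, p3]
        exact (Tm.bind_var_self _).symm
      · exact p4
  have hmap_u := fun t ht => eval_mapAt (M := X.m) hu t ht
  have hmap_ε := fun t ht => eval_mapAt (M := (X.exp okI n b).m) hε t ht
  -- the substitution β
  set β : (X.exp okI n b).V → E.T (X.exp okI n b).V :=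
    fun v => (CV.elim Tm.var y0 e0 v).bind ε with hβdef
  have hβu : ∀ t : E.T (X.exp okI n b).V, (X.exp okI n b).m.eval β t =
      (t.bind (CV.elim Tm.var y0 e0)).bind ε := by
    intro t
    exact (Tm.bind_bind t _ _).symm
  have hβ : ∀ v, (X.exp okI n b).ok v → AsgAt (X.exp okI n b) (X.exp okI n b).m β v := by
    intro v hv
    obtain ⟨a1, a2, a3⟩ := hu v hv
    obtain ⟨b1, b2, b3⟩ := hmap_ε (CV.elim Tm.var y0 e0 v) a1
    refine ⟨b1, b2.trans a2, fun h0 => ?_⟩
    obtain ⟨a4, a5⟩ := a3 h0
    obtain ⟨b4, b5⟩ := b3 (lt_of_lt_of_eq h0 a2.symm)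
    refine ⟨?_, ?_⟩
    · rw [hβu]
      refine b4.trans ?_
      exact congrArg (fun t : E.T X.V => t.bind ε) a4
    · rw [hβu]
      refine b5.trans ?_
      exact congrArg (fun t : E.T X.V => t.bind ε) a5
  -- data at the new cells
  have hW := m_laws X
  have hbd : ∀ i, okI i → ∀ r : D, r.1 ≤ X.m.toGlob.dim (b i) →
      X.m.toGlob.ok (X.m.toGlob.bd (b i) r) := fun i hi r _ => ok_bd (G := X.m.toGlob) (hb i hi).1 r
  have hPR : ∀ i, ∃ P R : E.T (X.exp okI n b).V, okI i →
      (X.exp okI n b).tok P ∧ (X.exp okI n b).tdim P = n + 1 ∧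
      (X.exp okI n b).ttgt P = (y0 i).bind ε ∧
      (X.exp okI n b).tsrc P = (X.exp okI n b).m.eval
        (CV.elim (fun q => if q.1 < n then (X.m.toGlob.bd (b i) q).map CV.z else .var (.top i))
        (fun q => (X.m.toGlob.bd (b i) q).bind ε)
        (fun q => ext2 (X.exp okI n b).m (idI E) Q (fun v => .var (.z v)) ε c
          (X.m.toGlob.bd (b i) q))) (d.x n) ∧
      (X.exp okI n b).tok R ∧ (X.exp okI n b).tdim R = n + 2 ∧
      (X.exp okI n b).ttgt R = (e0 i).bind ε ∧
      (X.exp okI n b).tsrc R = (X.exp okI n b).m.eval (CV.elim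
        (fun q => if q.1 < n then (X.m.toGlob.bd (b i) q).map CV.z else
          if q = (n, false) then (b i).map CV.z
          else if q = (n, true) then .var (.top i) else .var (.cyl i))
        (fun q => if q.1 < n then (X.m.toGlob.bd (b i) q).bind ε else
          if q = (n, false) then (b i).bind ε else (y0 i).bind ε)
        (fun q => if q.1 < n then ext2 (X.exp okI n b).m (idI E) Q (fun v => .var (.z v)) ε c
            (X.m.toGlob.bd (b i) q) else
          if q = (n, false) then ext2 (X.exp okI n b).m (idI E) Q (fun v => .var (.z v)) ε c (b i)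
          else P)) (d.x (n + 1)) := by
    intro i
    by_cases hi : okI i
    · obtain ⟨b1, b2⟩ := hb i hi
      obtain ⟨p1, p2, p3, p4⟩ := he0 i hi
      have b2' : X.m.toGlob.dim (b i) = n := b2
      obtain ⟨q1, q2, q3⟩ := hmap_ε (e0 i) p1
      obtain ⟨q4, q5⟩ := q3 (by
        change 0 < X.tdim (e0 i)
        omega)
      have q4' : (X.exp okI n b).m.src ((e0 i).bind ε) = (b i).bind ε :=
        q4.trans (congrArg (fun t : E.T X.V => t.bind ε) p3)
      have q5' : (X.exp okI n b).m.tgt ((e0 i).bind ε) = (y0 i).bind ε :=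
        q5.trans (congrArg (fun t : E.T X.V => t.bind ε) p4)
      have a1 : ∀ r : D, r.1 ≤ X.m.toGlob.dim (b i) → MapAt X.m.toGlob (X.exp okI n b).m.toGlob
          ((X.exp okI n b).m.eval fun v => Tm.var (CV.z v)) (X.m.toGlob.bd (b i) r) :=
        fun r hr => hεcyl.mapα _ (hbd i hi r hr)
      have a2 : ∀ r : D, r.1 ≤ X.m.toGlob.dim (b i) → MapAt X.m.toGlob (X.exp okI n b).m.toGlob
          ((X.exp okI n b).m.eval ε) (X.m.toGlob.bd (b i) r) :=
        fun r hr => hεcyl.mapβ _ (hbd i hi r hr)
      have a3 : ∀ r : D, r.1 ≤ X.m.toGlob.dim (b i) → CylAt (X.exp okI n b).m d.x X.m.toGlob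
          ((X.exp okI n b).m.eval fun v => Tm.var (CV.z v)) ((X.exp okI n b).m.eval ε)
          (ext2 (X.exp okI n b).m (idI E) Q (fun v => Tm.var (CV.z v)) ε c)
          (X.m.toGlob.bd (b i) r) :=
        fun r hr => hεcyl.cyl _ (hbd i hi r hr)
      have c1 : (X.exp okI n b).m.ok (Tm.var (CV.cyl i)) := hi
      have c2 : (X.exp okI n b).m.dim (Tm.var (CV.cyl i)) = X.m.toGlob.dim (b i) + 1 := by
        rw [b2']; rfl
      have q2' : (X.exp okI n b).m.dim ((e0 i).bind ε) = X.m.toGlob.dim (b i) + 1 := by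
        rw [b2']; exact q2.trans p2
      obtain ⟨w, hw, w1, w2, w3, w4⟩ := w0_spec hd (W := X.m.toGlob) (p := b i) b1 a1 a2 a3
        (a1 := Tm.var (CV.cyl i)) (b1 := (e0 i).bind ε) c1 c2 rfl q1 q2' q4'
      obtain ⟨w', w5, w6, w7, w8, _⟩ := w1_spec hd (W := X.m.toGlob) (p := b i) b1 a1 a2 a3
        (a1 := Tm.var (CV.cyl i)) (b1 := (e0 i).bind ε) c1 c2 rfl q1 q2' q4'
      rw [← hw] at w8
      rw [b2'] at w2 w4 w6 w8
      refine ⟨w, w', fun _ => ⟨w1, w2, w3.trans q5', w4, w5, w6, w7, ?_⟩⟩
      refine w8.trans ?_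
      rw [q5']
      rfl
    · exact ⟨.var (.top i), .var (.top i), fun h => absurd h hi⟩
  choose P R hPR using hPR
  set e : (X.exp okI n b).V → E.T (X.exp okI n b).V := CV.elim c P R with hedef
  have hext : ∀ t : E.T X.V, ext2 (X.exp okI n b).m (idI E) Q Tm.var β e (t.map CV.z) =
      ext2 (X.exp okI n b).m (idI E) Q (fun v => Tm.var (CV.z v)) ε c t := fun t =>
    thmA0_ext2_map (M := (X.exp okI n b).m) CV.z _ _ _ t
  have hβz : ∀ t : E.T X.V, (X.exp okI n b).m.eval β (t.map CV.z) = t.bind ε := by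
    intro t
    rw [hβu, Tm.map_bind]
    congr 1
    exact Tm.bind_var_self t
  have hαv : ∀ t : E.T (X.exp okI n b).V,
      (X.exp okI n b).m.eval (V := (X.exp okI n b).V) Tm.var t = t := fun t => Tm.bind_var_self t
  have etr2 : (fun t : E.T (X.exp okI n b).V => (X.exp okI n b).m.eval β (trans (idI E) t)) =
      (X.exp okI n b).m.eval β := by
    funext t
    rw [trans_id]
  have hW' := m_laws (X.exp okI n b)
  have hbdt : ∀ i, okI i → ∀ q : D, q.1 < n →
      (X.exp okI n b).m.toGlob.bd (.var (.top i)) q = (X.m.toGlob.bd (b i) q).map CV.z :=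
    fun i hi q hq => thmA0_bd_top hi (hb i hi) hq
  have hbdc : ∀ i, okI i → ∀ q : D, q.1 < n →
      (X.exp okI n b).m.toGlob.bd (.var (.cyl i)) q = (X.m.toGlob.bd (b i) q).map CV.z := by
    intro i hi q hq
    have h1 : (X.exp okI n b).m.toGlob.ok (.var (.cyl i)) := hi
    refine (bd_src h1 (Nat.succ_pos n) (r := q) (Nat.succ_lt_succ hq)).symm.trans ?_
    exact (thmA0_bd_map (b i) q).symm
  have hc' : ∀ v, (X.exp okI n b).ok v → CylAt (X.exp okI n b).m d.x (X.exp okI n b).m.toGlob
      ((X.exp okI n b).m.eval (V := (X.exp okI n b).V) Tm.var) ((X.exp okI n b).m.eval β)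
      (ext2 (X.exp okI n b).m (idI E) Q Tm.var β e) (.var v) := by
    intro v hv
    cases v with
    | z v =>
      have h3 := hεcyl.cyl (.var v) hv
      refine thmA0_cylAt (W' := X.m.toGlob) (W := (X.exp okI n b).m.toGlob)
        (f := fun t : E.T X.V => (t.map CV.z : E.T (X.exp okI n b).V)) (p := .var v) rfl
        (fun q => thmA0_bd_map _ q) ?_
      have e1 : (fun p : E.T X.V => (X.exp okI n b).m.eval (V := (X.exp okI n b).V) Tm.var
          (p.map CV.z)) = (X.exp okI n b).m.eval fun v => Tm.var (CV.z v) := by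
        funext t
        rw [hαv]
        rfl
      have e2 : (fun p : E.T X.V => (X.exp okI n b).m.eval β (p.map CV.z)) =
          (X.exp okI n b).m.eval ε := by
        funext t
        exact hβz t
      have e3 : (fun p : E.T X.V => ext2 (X.exp okI n b).m (idI E) Q Tm.var β e (p.map CV.z)) =
          ext2 (X.exp okI n b).m (idI E) Q (fun v => Tm.var (CV.z v)) ε c := by
        funext t
        exact hext t
      change CylAt (X.exp okI n b).m d.x X.m.toGlob
        (fun p : E.T X.V => (X.exp okI n b).m.eval (V := (X.exp okI n b).V) Tm.var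
          (p.map CV.z)) (fun p : E.T X.V => (X.exp okI n b).m.eval β (p.map CV.z))
        (fun p : E.T X.V => ext2 (X.exp okI n b).m (idI E) Q Tm.var β e (p.map CV.z)) (.var v)
      rw [e1, e2, e3]
      exact h3
    | top i =>
      obtain ⟨r1, r2, r3, r4, r5⟩ := hPR i hv
      refine ⟨r1, r2, ?_, r3⟩
      refine r4.trans ?_
      have hn : (X.exp okI n b).m.toGlob.bd (.var (.top i)) (n, false) = .var (.top i) :=
        bd_of_le _ _ (le_refl n)
      refine eval_congr (X := CylG d.x (diskG n) 0 n) (d.x n) (hd.hx n).1 ?_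
      rintro (q | q | q) hq
      · have hq' : q.1 < n ∨ (q.1 = n ∧ q.2 = false) := hq
        rcases hq' with h1 | ⟨h1, h2⟩
        · exact (if_pos h1).trans ((hbdt i hv q h1).symm.trans (hαv _).symm)
        · have h3 : q = (n, false) := Prod.ext h1 h2
          subst h3
          exact (if_neg (lt_irrefl n)).trans (hn.symm.trans (hαv _).symm)
      · have h1 : q.1 < n := hq.2.2
        exact ((congrArg ((X.exp okI n b).m.eval β) (hbdt i hv q h1)).trans (hβz _)).symm
      · have h1 : q.1 < n := hq.2.2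
        exact ((congrArg (ext2 (X.exp okI n b).m (idI E) Q Tm.var β e) (hbdt i hv q h1)).trans
          (hext _)).symm
    | cyl i =>
      obtain ⟨r1, r2, r3, r4, s1, s2, s3, s4⟩ := hPR i hv
      refine ⟨s1, s2, ?_, s3⟩
      refine s4.trans ?_
      have b1 : (X.exp okI n b).m.toGlob.bd (Tm.var (CV.cyl i)) (n, false) = (b i).map CV.z :=
        bd_pred_false (G := (X.exp okI n b).m.toGlob) (x := Tm.var (CV.cyl i)) (Nat.succ_pos n)
      have b2 : (X.exp okI n b).m.toGlob.bd (Tm.var (CV.cyl i)) (n, true) =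
          Tm.var (CV.top i) :=
        bd_pred_true (G := (X.exp okI n b).m.toGlob) (x := Tm.var (CV.cyl i)) (Nat.succ_pos n)
      have b3 : (X.exp okI n b).m.toGlob.bd (Tm.var (CV.cyl i)) (n + 1, false) =
          Tm.var (CV.cyl i) := bd_of_le _ _ (le_refl _)
      refine eval_congr (X := CylG d.x (diskG (n + 1)) 0 (n + 1)) (d.x (n + 1))
        (hd.hx (n + 1)).1 ?_
      rintro (⟨j, ε'⟩ | ⟨j, ε'⟩ | ⟨j, ε'⟩) hq
      · have hq' : j < n + 1 ∨ (j = n + 1 ∧ ε' = false) := hq
        rcases hq' with h1 | ⟨rfl, rfl⟩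
        · rcases Nat.lt_or_ge j n with h2 | h2
          · exact (if_pos h2).trans ((hbdc i hv (j, ε') h2).symm.trans (hαv _).symm)
          · have h3 : j = n := by omega
            subst h3
            refine (if_neg (lt_irrefl j)).trans ?_
            cases ε' with
            | false => exact (if_pos rfl).trans (b1.symm.trans (hαv _).symm)
            | true =>
              exact (if_neg (by simp)).trans ((if_pos rfl).trans (b2.symm.trans (hαv _).symm))
        · refine (if_neg (by change ¬ n + 1 < n; omega)).trans ((if_neg (by simp)).trans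
            ((if_neg (by simp)).trans ?_))
          exact b3.symm.trans (hαv _).symm
      · have h1 : j < n + 1 := hq.2.2
        rcases Nat.lt_or_ge j n with h2 | h2
        · refine (if_pos h2).trans ?_
          exact ((congrArg ((X.exp okI n b).m.eval β) (hbdc i hv (j, ε') h2)).trans (hβz _)).symm
        · have h3 : j = n := by omega
          subst h3
          refine (if_neg (lt_irrefl j)).trans ?_
          cases ε' with
          | false =>
            refine (if_pos rfl).trans ?_
            exact ((congrArg ((X.exp okI j b).m.eval β) b1).trans (hβz _)).symm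
          | true =>
            refine (if_neg (by simp)).trans ?_
            exact (congrArg ((X.exp okI j b).m.eval β) b2).symm
      · have h1 : j < n + 1 := hq.2.2
        rcases Nat.lt_or_ge j n with h2 | h2
        · refine (if_pos h2).trans ?_
          exact ((congrArg (ext2 (X.exp okI n b).m (idI E) Q Tm.var β e)
            (hbdc i hv (j, ε') h2)).trans (hext _)).symm
        · have h3 : j = n := by omega
          subst h3
          refine (if_neg (lt_irrefl j)).trans ?_
          cases ε' with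
          | false =>
            refine (if_pos rfl).trans ?_
            exact ((congrArg (ext2 (X.exp okI j b).m (idI E) Q Tm.var β e) b1).trans
              (hext _)).symm
          | true =>
            refine (if_neg (by simp)).trans ?_
            exact (congrArg (ext2 (X.exp okI j b).m (idI E) Q Tm.var β e) b2).symm
  have hH0 := ext2_isCyl0 (X := X.exp okI n b) (M := (X.exp okI n b).m) hd.hx idI_good hQ
    (α := Tm.var) (β := β) (e := e)
    (fun v hv => ⟨hv, rfl, fun _ => ⟨(Tm.bind_var_self _).symm, (Tm.bind_var_self _).symm⟩⟩)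
    (fun v hv => by
      obtain ⟨h1, h2, h3⟩ := hβ v hv
      refine ⟨h1, h2, fun h0 => ?_⟩
      obtain ⟨h4, h5⟩ := h3 h0
      rw [pull_eval, pull_eval, trans_id, trans_id]
      exact ⟨h4, h5⟩)
    (fun v hv => Eq.mpr (congrArg (fun F => CylAt (X.exp okI n b).m d.x
      (X.exp okI n b).m.toGlob ((X.exp okI n b).m.eval (V := (X.exp okI n b).V) Tm.var) F
      (ext2 (X.exp okI n b).m (idI E) Q Tm.var β e) (.var v)) etr2) (hc' v hv))
  have hH : IsCyl0 d.x (X.exp okI n b).m.toGlob (X.exp okI n b).m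
      ((X.exp okI n b).m.eval (V := (X.exp okI n b).V) Tm.var) ((X.exp okI n b).m.eval β)
      (ext2 (X.exp okI n b).m (idI E) Q Tm.var β e) :=
    Eq.mp (congrArg (fun F => IsCyl0 d.x (X.exp okI n b).m.toGlob (X.exp okI n b).m
      ((X.exp okI n b).m.eval (V := (X.exp okI n b).V) Tm.var) F
      (ext2 (X.exp okI n b).m (idI E) Q Tm.var β e)) etr2) hH0
  -- conclusion
  obtain ⟨f1, f2, f3, f4⟩ := hfg
  have hmf := hmap_u f f1
  have hmg := hmap_u g f2
  have hpu : X.m.toGlob.Par (X.m.eval (CV.elim Tm.var y0 e0) f)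
      (X.m.eval (CV.elim Tm.var y0 e0) g) := by
    refine ⟨hmf.1, hmg.1, hmf.2.1.trans (f3.trans hmg.2.1.symm), fun h0 => ?_⟩
    have h0' := lt_of_lt_of_eq h0 hmf.2.1
    obtain ⟨h1, h2⟩ := f4 h0'
    obtain ⟨h3, h4⟩ := hmf.2.2 h0'
    obtain ⟨h5, h6⟩ := hmg.2.2 (lt_of_lt_of_eq h0' f3)
    exact ⟨h3.trans ((congrArg _ h1).trans h5.symm), h4.trans ((congrArg _ h2).trans h6.symm)⟩
  have hcn1 : (X.exp okI n b).Conn ((f.bind (CV.elim .var y0 e0)).map CV.z)
      ((g.bind (CV.elim .var y0 e0)).map CV.z) := by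
    obtain ⟨k, k1, k2, k3, k4⟩ := hconn
    obtain ⟨z1, z2, z3⟩ := CylGood_exp_z_mapAt (okI := okI) (n := n) (b := b) (X := X) k k1
    obtain ⟨z4, z5⟩ := z3 (lt_of_lt_of_eq (Nat.succ_pos _) k2.symm)
    obtain ⟨y1, y2, y3⟩ := CylGood_exp_z_mapAt (okI := okI) (n := n) (b := b) (X := X)
      (f.bind (CV.elim .var y0 e0)) hmf.1
    exact ⟨k.map CV.z, z1, (z2.trans k2).trans (congrArg (· + 1) y2.symm),
      z4.trans (congrArg (fun t : E.T X.V => t.map CV.z) k3),
      z5.trans (congrArg (fun t : E.T X.V => t.map CV.z) k4)⟩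
  have hcn2 := hεcyl.transport hd.hx hpu hcn1
  have hcn3 : (X.exp okI n b).Conn ((X.exp okI n b).m.eval β f) ((X.exp okI n b).m.eval β g) := by
    rw [hβu, hβu]
    exact hcn2
  have hcn4 := hH.transport_rev hd.hx hd.hr (f := f) (g := g) ⟨f1, f2, f3, f4⟩ hcn3
  rw [hαv, hαv] at hcn4
  exact hcn4

end HH
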