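import Pool.Agent.HH.Iota
import Pool.Agent.HH.Endo

/-!
# HH 2b VU: the other composite is a twist (module to prove)

Let `V = nF (EE C) ⋙ pull L hL l` and `Ψ = V ⋙ UF`. An `n`-cell of `Ψ M` is `⟨n, f⟩` with `f` an element of
`(nObj M) (op (L.obj (F.D n)))`, i.e. a globular map `f : (L.obj (F.D n)).A → M`. Put
  `ψ M ⟨n, f⟩ := (GMap.pre (l.e n).inv f).1 (dtop n)`,
with inverse `x ↦ ⟨M.dim x, GMap.pre (l.e _).hom (ofCell M _ x rfl)⟩`: bijective by `ofCell_top`, `GMap.ext_top` and functoriality of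
`nObj`. Dimension: `GMap.top_dim`. Source: the source of `⟨n + 1, f⟩` is `⟨n, GMap.pre (L.map (F.s n)) f⟩`,
`(l.e n).inv ≫ L.map (F.s n) = (synG (EE C)).s n ≫ (l.e (n + 1)).inv` (from `l.s_e`), and `GMap.pre_s`. Naturality in `M`:
morphisms of models commute with evaluation (`RHom.eval`). Now apply `endo_twist`.
-/

set_option autoImplicit false

namespace HH

open Classical CategoryTheory Opposite

open Pool.Agent.HH (Globes IsCoherator)

variable {C : Type} [SmallCategory C] {F : Globes C}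

private theorem pre_pre {S : Sig} {M : RMod S} {X Y Z : Syn S} (γ : X ⟶ Y) (δ : Y ⟶ Z)
    (f : GMap M Z.A) : GMap.pre γ (GMap.pre δ f) = GMap.pre (γ ≫ δ) f :=
  (ConcreteCategory.congr_hom ((nObj M).map_comp δ.op γ.op) f).symm

private theorem pre_id {S : Sig} {M : RMod S} {X : Syn S} (f : GMap M X.A) :
    GMap.pre (𝟙 X) f = f := rfl

private theorem pre_post {S : Sig} [S.Good] {M N : RMod S} (φ : M ⟶ N) {X Y : Syn S}
    (γ : X ⟶ Y) (f : GMap M Y.A) : GMap.pre γ (GMap.post φ f) = GMap.post φ (GMap.pre γ f) :=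
  (ConcreteCategory.congr_hom (((nF S).map φ).hom.naturality γ.op) f).symm

section
variable {L : C ⥤ Syn (EE C)} (l : (F.map L).Iso (synG (EE C))) (M : RMod (EE C))

/-- the cells of the composite -/
private abbrev VC (F : Globes C) (L : C ⥤ Syn (EE C)) (M : RMod (EE C)) : Type :=
  Σ n, GMap M (L.obj (F.D n)).A

private noncomputable def psiF (c : VC F L M) : M.Cell :=
  (GMap.pre (l.e c.1).inv c.2).1 (dtop c.1)

private noncomputable def psiG (x : M.Cell) : VC F L M :=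
  ⟨M.M.dim x.1, GMap.pre (l.e _).hom (ofCell M _ x rfl)⟩

private theorem psiG_eq (x : M.Cell) (n : ℕ) (h : M.M.dim x.1 = n) :
    psiG l M x = ⟨n, GMap.pre (l.e n).hom (ofCell M n x h)⟩ := by
  subst h
  rfl

private theorem psi_left (c : VC F L M) : psiG l M (psiF l M c) = c := by
  obtain ⟨n, f⟩ := c
  have hd : M.M.dim (psiF l M ⟨n, f⟩).1 = n := GMap.top_dim (GMap.pre (l.e n).inv f)
  rw [psiG_eq l M _ n hd]
  congr 1
  have e : ofCell M n (psiF l M ⟨n, f⟩) hd = GMap.pre (l.e n).inv f := by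
    apply GMap.ext_top
    rw [ofCell_top]
    rfl
  rw [e, pre_pre, (l.e n).hom_inv_id]
  exact pre_id f

private theorem psi_right (x : M.Cell) : psiF l M (psiG l M x) = x := by
  unfold psiF psiG
  rw [pre_pre, (l.e _).inv_hom_id]
  exact ofCell_top M _ x rfl

private theorem psi_src (n : ℕ) (f : GMap M (L.obj (F.D (n + 1))).A) :
    M.M.src (psiF l M ⟨n + 1, f⟩).1 = (psiF l M ⟨n, GMap.pre (L.map (F.s n)) f⟩).1 := by
  unfold psiF
  rw [← GMap.pre_s, pre_pre, pre_pre]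
  have h : (l.e n).inv ≫ L.map (F.s n) = (synG (EE C)).s n ≫ (l.e (n + 1)).inv :=
    (l.symm.s_e n).symm
  rw [← h]

private theorem psi_tgt (n : ℕ) (f : GMap M (L.obj (F.D (n + 1))).A) :
    M.M.tgt (psiF l M ⟨n + 1, f⟩).1 = (psiF l M ⟨n, GMap.pre (L.map (F.t n)) f⟩).1 := by
  unfold psiF
  rw [← GMap.pre_t, pre_pre, pre_pre]
  have h : (l.e n).inv ≫ L.map (F.t n) = (synG (EE C)).t n ≫ (l.e (n + 1)).inv :=
    (l.symm.t_e n).symm
  rw [← h]

end

theorem vu_twist (hF : F.IsExt) (hc : F.Contractible) {L : C ⥤ Syn (EE C)}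
    (l : (F.map L).Iso (synG (EE C))) (hL : F.Preserves L) :
    ∃ (b : Interp (EE C) (EE C)) (hb : b.Good),
      Nonempty ((nF (EE C) ⋙ Pool.Agent.HH.pull L hL l) ⋙ UF hF hc ≅ pullF b hb) := by
  refine endo_twist ((nF (EE C) ⋙ Pool.Agent.HH.pull L hL l) ⋙ UF hF hc)
    (fun M =>
      { toFun := fun c => psiF l M c.1
        invFun := fun x => ⟨psiG l M x, trivial⟩
        left_inv := fun c => Subtype.ext (psi_left l M c.1)
        right_inv := fun x => psi_right l M x }) ?_ ?_ ?_ ?_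
  · rintro M ⟨⟨n, f⟩, hc⟩
    exact GMap.top_dim (GMap.pre (l.e n).inv f)
  · rintro M ⟨⟨n, f⟩, hc⟩ h
    cases n with
    | zero => exact absurd h (lt_irrefl 0)
    | succ n => exact psi_src l M n f
  · rintro M ⟨⟨n, f⟩, hc⟩ h
    cases n with
    | zero => exact absurd h (lt_irrefl 0)
    | succ n => exact psi_tgt l M n f
  · rintro M N φ ⟨⟨n, f⟩, hc⟩
    change (GMap.pre (l.e n).inv (GMap.post φ f)).1 (dtop n) =
      RHom.f φ ((GMap.pre (l.e n).inv f).1 (dtop n))
    rw [pre_post]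
    rfl

end HH
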