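import Pool.Agent.HH.PathRLP
import Pool.Agent.HH.CWLift
import Pool.Agent.HH.PiHtpy

/-!
# HH part 3, W-4: Whitehead's theorem
-/

set_option autoImplicit false

namespace HH

open CategoryTheory

/-- a map to a CW-complex which lifts disks has a homotopy right inverse -/
theorem exists_right_inverse {X Y : TopCat.{0}} (hY : Nonempty (TopCat.CWComplex Y)) (f : X ⟶ Y)
    (h : RelW f.hom) : ∃ g : Y ⟶ X, (g ≫ f).hom.Homotopic (𝟙 Y : Y ⟶ Y).hom := by
  obtain ⟨s, hs⟩ := exists_section_cw (TopCat.ofHom (PathFib.proj f.hom))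
    (PathFib.hasLiftingProperty h) hY
  refine ⟨s ≫ TopCat.ofHom (PathFib.base f.hom), ⟨⟨⟨fun p => (s.hom p.2).1.2 p.1, ?_⟩, ?_, ?_⟩⟩⟩
  · have h1 : Continuous fun p : unitInterval × Y => ((s.hom p.2).1.2, p.1) := by
      refine Continuous.prodMk ?_ continuous_fst
      exact (continuous_snd.comp continuous_subtype_val).comp (s.hom.continuous.comp continuous_snd)
    exact continuous_eval.comp h1
  · intro y
    exact (s.hom y).2
  · intro y
    exact ConcreteCategory.congr_hom hs y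

/-- **Whitehead's theorem.** -/
theorem whitehead [(RMod.W Cs).HasTwoOutOfThreeProperty] [(RMod.W Cs).ContainsIdentities]
    {X Y : TopCat.{0}} (hX : Nonempty (TopCat.CWComplex X)) (hY : Nonempty (TopCat.CWComplex Y))
    (f : X ⟶ Y) (h : RMod.IsW (PiF.map f)) :
    ∃ g : Y ⟶ X, (f ≫ g).hom.Homotopic (𝟙 X : X ⟶ X).hom ∧
      (g ≫ f).hom.Homotopic (𝟙 Y : Y ⟶ Y).hom := by
  obtain ⟨g, hg⟩ := exists_right_inverse hY f ((isW_iff f).1 h)
  have h1 : RMod.IsW (PiF.map (g ≫ f)) := by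
    rw [isW_iff_of_homotopic hg, PiF.map_id]
    exact (RMod.W Cs).id_mem _
  have h2 : RMod.IsW (PiF.map g) := by
    rw [PiF.map_comp] at h1
    exact (RMod.W Cs).of_postcomp _ _ (show (RMod.W Cs) _ from h) h1
  obtain ⟨k, hk⟩ := exists_right_inverse hX g ((isW_iff g).1 h2)
  refine ⟨g, ?_, hg⟩
  -- `k ≃ k g f ≃ f`
  have h3 : k.hom.Homotopic f.hom := by
    have e1 : (k ≫ (g ≫ f)).hom.Homotopic (k ≫ 𝟙 Y).hom := by
      rw [TopCat.hom_comp, TopCat.hom_comp k (𝟙 Y)]
      exact hg.comp (ContinuousMap.Homotopic.refl _)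
    have e2 : ((k ≫ g) ≫ f).hom.Homotopic (𝟙 X ≫ f).hom := by
      rw [TopCat.hom_comp, TopCat.hom_comp (𝟙 X) f]
      exact (ContinuousMap.Homotopic.refl _).comp hk
    rw [Category.comp_id] at e1
    rw [Category.id_comp, Category.assoc] at e2
    exact e1.symm.trans e2
  have h4 : (f ≫ g).hom.Homotopic (k ≫ g).hom := by
    rw [TopCat.hom_comp, TopCat.hom_comp k g]
    exact (ContinuousMap.Homotopic.refl _).comp h3.symm
  exact h4.trans hk

end HH
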